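import Pool.Agent.Lib.MP_3b0e0c_al.D.H1D

namespace Pool.Agent.Lib.MP_3b0e0c_al.D.H1

open S

set_option maxRecDepth 100000 in
/-- Justifications. -/
noncomputable def J27_0 : List Js := [
.h (nat_lit 0x1043),
.c (nat_lit 1) (nat_lit 0)]

theorem c27_0 : ck d27 x27 ths 2 J27_0 0 = true := by decide +kernel

set_option maxRecDepth 100000 in
/-- Justifications. -/
noncomputable def J28_0 : List Js := [
.h (nat_lit 0x1a000),
.h (nat_lit 0x19027),
.h (nat_lit 0x1902e),
.h (nat_lit 0x19031),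
.h (nat_lit 0x19042),
.h (nat_lit 0x1992c),
.h (nat_lit 0x15056),
.h (nat_lit 0x15058),
.h (nat_lit 0xb030),
.h (nat_lit 0x9055),
.h (nat_lit 0x702b),
.h (nat_lit 0x7031),
.h (nat_lit 0x3037),
.h (nat_lit 0x3038),
.h (nat_lit 0x104b),
.h (nat_lit 0x1058),
.h (nat_lit 0),
.c (nat_lit 5) (nat_lit 0x80000f0000840801202003),
.c (nat_lit 8) (nat_lit 0x10080000800c040220200281808c0400200003),
.c (nat_lit 1) (nat_lit 10),
.c (nat_lit 1) (nat_lit 12),
.c (nat_lit 1) (nat_lit 14),
.c (nat_lit 1) (nat_lit 16),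
.c (nat_lit 1) (nat_lit 18),
.c (nat_lit 1) (nat_lit 20),
.c (nat_lit 1) (nat_lit 24),
.c (nat_lit 1) (nat_lit 26),
.c (nat_lit 1) (nat_lit 28),
.c (nat_lit 1) (nat_lit 34),
.c (nat_lit 1) (nat_lit 36)]

theorem c28_0 : ck d28 x28 ths 30 J28_0 0 = true := by decide +kernel

set_option maxRecDepth 100000 in
/-- Justifications. -/
noncomputable def J29_0 : List Js := [
.h (nat_lit 0x1a000),
.h (nat_lit 0x19027),
.h (nat_lit 0x1902d),
.h (nat_lit 0x1902e),
.h (nat_lit 0x19030),
.h (nat_lit 0x19031),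
.h (nat_lit 0x19042),
.h (nat_lit 0x19175),
.h (nat_lit 0x19176),
.h (nat_lit 0x1918f),
.h (nat_lit 0x192c9),
.h (nat_lit 0x19909),
.h (nat_lit 0x1992c),
.h (nat_lit 0x15056),
.h (nat_lit 0x15058),
.h (nat_lit 0xf052),
.h (nat_lit 0xb030),
.h (nat_lit 0x9055),
.h (nat_lit 0x702b),
.h (nat_lit 0x7031),
.h (nat_lit 0x3037),
.h (nat_lit 0x3038),
.h (nat_lit 0x104b),
.h (nat_lit 0x1058),
.h (nat_lit 0),
.c (nat_lit 12) (nat_lit 0xf008048000280000c000170000c40802e06019040068180240800a02003),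
.c (nat_lit 14) (nat_lit 0x402000040020280500c06404006020198200440c01e0400b0400a8280240400200003),
.c (nat_lit 3) (nat_lit 0x80200406800032),
.c (nat_lit 1) (nat_lit 24),
.c (nat_lit 1) (nat_lit 26),
.c (nat_lit 1) (nat_lit 28),
.c (nat_lit 1) (nat_lit 32),
.c (nat_lit 1) (nat_lit 34),
.c (nat_lit 1) (nat_lit 36),
.c (nat_lit 1) (nat_lit 40),
.c (nat_lit 1) (nat_lit 42),
.c (nat_lit 1) (nat_lit 44),
.c (nat_lit 1) (nat_lit 54),
.c (nat_lit 1) (nat_lit 52)]

theorem c29_0 : ck d29 x29 ths 39 J29_0 0 = true := by decide +kernel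

set_option maxRecDepth 100000 in
/-- Justifications. -/
noncomputable def J30_0 : List Js := [
.h (nat_lit 0x16000),
.h (nat_lit 0x15042),
.h (nat_lit 0x15043),
.h (nat_lit 0x1517a),
.h (nat_lit 0x151dd),
.h (nat_lit 0x106a),
.h (nat_lit 0),
.c (nat_lit 2) (nat_lit 0x140000d),
.c (nat_lit 7) (nat_lit 0x80040400e0100200803c0400e00001),
.c (nat_lit 2) (nat_lit 0x802000008),
.c (nat_lit 1) (nat_lit 18)]

theorem c30_0 : ck d30 x30 ths 11 J30_0 0 = true := by decide +kernel

set_option maxRecDepth 100000 in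
/-- Justifications. -/
noncomputable def J31_0 : List Js := [
.h (nat_lit 0x16000),
.h (nat_lit 0x1503c),
.h (nat_lit 0x15042),
.h (nat_lit 0x15043),
.h (nat_lit 0x1517b),
.h (nat_lit 0x151dd),
.h (nat_lit 0x106a),
.h (nat_lit 0),
.c (nat_lit 5) (nat_lit 0x40000600003c0800a02003),
.c (nat_lit 8) (nat_lit 0x10080000801004010020038180440400200003),
.c (nat_lit 2) (nat_lit 0x80240000a),
.c (nat_lit 1) (nat_lit 20)]

theorem c31_0 : ck d31 x31 ths 12 J31_0 0 = true := by decide +kernel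

set_option maxRecDepth 100000 in
/-- Justifications. -/
noncomputable def J32_0 : List Js := [
.h (nat_lit 0x14000),
.h (nat_lit 0x14001),
.h (nat_lit 0x14002),
.h (nat_lit 0x1301e),
.h (nat_lit 0x1301f),
.h (nat_lit 0x13021),
.h (nat_lit 0x13022),
.h (nat_lit 0x13024),
.h (nat_lit 0x1302a),
.h (nat_lit 0x1302d),
.h (nat_lit 0x1302e),
.h (nat_lit 0x13033),
.h (nat_lit 0x1303c),
.h (nat_lit 0x1303d),
.h (nat_lit 0x13040),
.h (nat_lit 0x13042),
.h (nat_lit 0x13043),
.h (nat_lit 0x13063),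
.h (nat_lit 0x13099),
.h (nat_lit 0x130c5),
.h (nat_lit 0x13172),
.h (nat_lit 0x13175),
.h (nat_lit 0x13178),
.h (nat_lit 0x1317a),
.h (nat_lit 0x1317b),
.h (nat_lit 0x1318b),
.h (nat_lit 0x1318e),
.h (nat_lit 0x13195),
.h (nat_lit 0x13199),
.h (nat_lit 0x131b2),
.h (nat_lit 0x131bb),
.h (nat_lit 0x131bf),
.h (nat_lit 0x131c6),
.h (nat_lit 0x131ca),
.h (nat_lit 0x131cc),
.h (nat_lit 0x131dd),
.h (nat_lit 0x131de),
.h (nat_lit 0x131df),
.h (nat_lit 0x131e0),
.h (nat_lit 0x131e3),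
.h (nat_lit 0x131f0),
.h (nat_lit 0x1336a),
.h (nat_lit 0x13379),
.h (nat_lit 0x13547),
.h (nat_lit 0x137d2),
.h (nat_lit 0x13817),
.h (nat_lit 0x138f4),
.h (nat_lit 0x13909),
.h (nat_lit 0x1391d),
.h (nat_lit 0x11040),
.h (nat_lit 0x11045),
.h (nat_lit 0xf057),
.h (nat_lit 0xb030),
.h (nat_lit 0x9050),
.h (nat_lit 0x9051),
.h (nat_lit 0x5032),
.h (nat_lit 0x1029),
.h (nat_lit 0x102a),
.h (nat_lit 0x102c),
.h (nat_lit 0x102d),
.h (nat_lit 0x102e),
.h (nat_lit 0x1030),
.h (nat_lit 0x1035),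
.h (nat_lit 0),
.c (nat_lit 2) (nat_lit 0xfc0007d),
.c (nat_lit 2) (nat_lit 0x81000001c),
.c (nat_lit 2) (nat_lit 0x810000054),
.c (nat_lit 2) (nat_lit 0xc1000006e),
.c (nat_lit 1) (nat_lit 56),
.c (nat_lit 10) (nat_lit 0x1c020500200f0000100410c04032010320000080408c04028),
.c (nat_lit 3) (nat_lit 0x101b0040e000074),
.c (nat_lit 3) (nat_lit 0x10140040cc0002c),
.c (nat_lit 1) (nat_lit 48),
.c (nat_lit 1) (nat_lit 26),
.c (nat_lit 9) (nat_lit 0xe05e0503c030190100680a0400201e0000200401804014),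
.c (nat_lit 46) (nat_lit 0xc0d40805a020300181600801c06050040360180e0040f404072000240081d80803c00004010430100c8040c800002010230100a00c03c060120402f018040100c404078020050180d01003c06036020030181381007c0a03a0301a0201000407800000010040100300c0940804c0500a0300801c0541002e),
.c (nat_lit 27) (nat_lit 0x600002c02038000090081a8080b400010010310101800c0b00000a0101a0101a00c0e40805c0500f0201580c0880405e0101b0000180409c0403e030210201d8140a40c03a),
.c (nat_lit 7) (nat_lit 0x2601c12c000961b04a0902502412800094)]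

theorem c32_0 : ck d32 x32 ths 78 J32_0 0 = true := by decide +kernel

set_option maxRecDepth 100000 in
/-- Justifications. -/
noncomputable def J33_0 : List Js := [
.h (nat_lit 0x151dd),
.h (nat_lit 0x104d),
.h (nat_lit 0),
.c (nat_lit 2) (nat_lit 0x800003),
.c (nat_lit 2) (nat_lit 0x800c00000)]

theorem c33_0 : ck d33 x33 ths 5 J33_0 0 = true := by decide +kernel

set_option maxRecDepth 100000 in
/-- Justifications. -/
noncomputable def J34_0 : List Js := [
.h (nat_lit 0x16001),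
.h (nat_lit 0x16002),
.h (nat_lit 0x16003),
.h (nat_lit 0x1501e),
.h (nat_lit 0x15024),
.h (nat_lit 0x15025),
.h (nat_lit 0x15027),
.h (nat_lit 0x15028),
.h (nat_lit 0x1502a),
.h (nat_lit 0x1502d),
.h (nat_lit 0x15033),
.h (nat_lit 0x15034),
.h (nat_lit 0x1503d),
.h (nat_lit 0x15042),
.h (nat_lit 0x1506b),
.h (nat_lit 0x15173),
.h (nat_lit 0x15177),
.h (nat_lit 0x15178),
.h (nat_lit 0x1518b),
.h (nat_lit 0x1518c),
.h (nat_lit 0x1518d),
.h (nat_lit 0x15190),
.h (nat_lit 0x15192),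
.h (nat_lit 0x15195),
.h (nat_lit 0x151b2),
.h (nat_lit 0x151bb),
.h (nat_lit 0x151bf),
.h (nat_lit 0x151cb),
.h (nat_lit 0x151cc),
.h (nat_lit 0x151dd),
.h (nat_lit 0x151de),
.h (nat_lit 0x151e1),
.h (nat_lit 0x151eb),
.h (nat_lit 0x151ec),
.h (nat_lit 0x15223),
.h (nat_lit 0x15909),
.h (nat_lit 0x1591d),
.h (nat_lit 0x13040),
.h (nat_lit 0x13045),
.h (nat_lit 0x11056),
.h (nat_lit 0x11057),
.h (nat_lit 0xb047),
.h (nat_lit 0xb050),
.h (nat_lit 0xb052),
.h (nat_lit 0x7031),
.h (nat_lit 0x5058),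
.h (nat_lit 0x302b),
.h (nat_lit 0x302d),
.h (nat_lit 0x302e),
.h (nat_lit 0x302f),
.h (nat_lit 0x3030),
.h (nat_lit 0x1041),
.h (nat_lit 0x1042),
.h (nat_lit 0x1043),
.h (nat_lit 0x104d),
.h (nat_lit 0),
.c (nat_lit 2) (nat_lit 0xd80006f),
.c (nat_lit 2) (nat_lit 0x80e000018),
.c (nat_lit 2) (nat_lit 0x80e00005a),
.c (nat_lit 2) (nat_lit 0x80e000062),
.c (nat_lit 2) (nat_lit 0x80e000064),
.c (nat_lit 6) (nat_lit 0x34000140101c000040040900402e),
.c (nat_lit 26) (nat_lit 0x180205c02016018138080700202e000030081d8080680605e0400d0180e0040b80404e000010080c80803c06050040120180e00809c02030000000080e80806c06016),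
.c (nat_lit 12) (nat_lit 0x302e0200b01409c040340302f0200c0040800405003012000080040440401c),
.c (nat_lit 3) (nat_lit 0x680000802058),
.c (nat_lit 9) (nat_lit 0x202f0201c81806c0c0340601a0201c0001d0040cc04058),
.c (nat_lit 3) (nat_lit 0x201580807c06028),
.c (nat_lit 53) (nat_lit 0x801a030230081700809c000060101e0100d00c060060120402301012804054000040101f0100980c0e8080440500a0201500c0180805c05016030068140700802e02034018180100340602e0103b0000080401c0403203035020078140a40c0500700d0281501808c0a038040270100f00c0600404c0102c000000040740400a0301b020058140840c01c),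
.c (nat_lit 15) (nat_lit 0x480408c00010010250100b8000180205c0202b0181380808c0202e000040081a0080c00602a),
.c (nat_lit 7) (nat_lit 0x2201010c00086150420702101c10800084)]

theorem c34_0 : ck d34 x34 ths 70 J34_0 0 = true := by decide +kernel

set_option maxRecDepth 100000 in
/-- Justifications. -/
noncomputable def J35_0 : List Js := [
.h (nat_lit 0x171dd),
.h (nat_lit 0x1045),
.h (nat_lit 0),
.c (nat_lit 2) (nat_lit 0x800003),
.c (nat_lit 2) (nat_lit 0x800c00000)]

theorem c35_0 : ck d35 x35 ths 5 J35_0 0 = true := by decide +kernel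

set_option maxRecDepth 100000 in
/-- Justifications. -/
noncomputable def J36_0 : List Js := [
.h (nat_lit 0x18000),
.h (nat_lit 0x18001),
.h (nat_lit 0x18002),
.h (nat_lit 0x18003),
.h (nat_lit 0x18004),
.h (nat_lit 0x1701e),
.h (nat_lit 0x1701f),
.h (nat_lit 0x17021),
.h (nat_lit 0x17022),
.h (nat_lit 0x17024),
.h (nat_lit 0x17025),
.h (nat_lit 0x17027),
.h (nat_lit 0x17028),
.h (nat_lit 0x1702b),
.h (nat_lit 0x1702d),
.h (nat_lit 0x1702e),
.h (nat_lit 0x17030),
.h (nat_lit 0x17031),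
.h (nat_lit 0x17033),
.h (nat_lit 0x17034),
.h (nat_lit 0x17042),
.h (nat_lit 0x1706b),
.h (nat_lit 0x1706c),
.h (nat_lit 0x17172),
.h (nat_lit 0x17173),
.h (nat_lit 0x17175),
.h (nat_lit 0x17176),
.h (nat_lit 0x17178),
.h (nat_lit 0x1717a),
.h (nat_lit 0x1718c),
.h (nat_lit 0x1718d),
.h (nat_lit 0x1718f),
.h (nat_lit 0x17190),
.h (nat_lit 0x17192),
.h (nat_lit 0x171b2),
.h (nat_lit 0x171b9),
.h (nat_lit 0x171bb),
.h (nat_lit 0x171bd),
.h (nat_lit 0x171c6),
.h (nat_lit 0x171c9),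
.h (nat_lit 0x171ca),
.h (nat_lit 0x171cb),
.h (nat_lit 0x171cc),
.h (nat_lit 0x171d2),
.h (nat_lit 0x171dc),
.h (nat_lit 0x171dd),
.h (nat_lit 0x171de),
.h (nat_lit 0x171df),
.h (nat_lit 0x171e0),
.h (nat_lit 0x171e1),
.h (nat_lit 0x171e2),
.h (nat_lit 0x171e3),
.h (nat_lit 0x171ec),
.h (nat_lit 0x171f0),
.h (nat_lit 0x17223),
.h (nat_lit 0x172c9),
.h (nat_lit 0x17909),
.h (nat_lit 0x17915),
.h (nat_lit 0x1792c),
.h (nat_lit 0x15045),
.h (nat_lit 0x13056),
.h (nat_lit 0x11045),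
.h (nat_lit 0xf030),
.h (nat_lit 0xd047),
.h (nat_lit 0xd050),
.h (nat_lit 0xd052),
.h (nat_lit 0x9030),
.h (nat_lit 0x9031),
.h (nat_lit 0x7055),
.h (nat_lit 0x7057),
.h (nat_lit 0x502a),
.h (nat_lit 0x502d),
.h (nat_lit 0x3041),
.h (nat_lit 0x3042),
.h (nat_lit 0x3043),
.h (nat_lit 0x1039),
.h (nat_lit 0x103b),
.h (nat_lit 0x103c),
.h (nat_lit 0x1045),
.h (nat_lit 0),
.c (nat_lit 5) (nat_lit 0x280004e00027c0805202025),
.c (nat_lit 2) (nat_lit 0x81400001a),
.c (nat_lit 2) (nat_lit 0x814000048),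
.c (nat_lit 16) (nat_lit 0xb0080a000024020920203b0081e00001c0209a020250180a0080f00207600005008198080b806098),
.c (nat_lit 8) (nat_lit 0x30410200f8080800608a0103e010118000a002084),
.c (nat_lit 2) (nat_lit 0xd80204e),
.c (nat_lit 9) (nat_lit 0x80820501f018100101140407c00031008190080740603c),
.c (nat_lit 64) (nat_lit 0x4010020070140dc060820401f0101000c1140207c00003008188080c80603a0401e0281b01809c0a02805012030150140a806092040350101280c118080280302a008260000080201802052018158101280a07e0602c038090180f40a08005014018268100980405c030220101d80410c000020102d0100500c0a4080a2050340302201c06c100280403e0101880c0c8080900504301823010098020a4000000080300802006008),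
.c (nat_lit 8) (nat_lit 0x3036020138080fc06058010340102200006402034),
.c (nat_lit 41) (nat_lit 0x100200800e0481b81c1041003e06020038228140f806062040320280e8180780e06c080270300a0180480e054050350301d8101180a04c02052018158101280a0300603f038160180480a04204035008148081440602e040130281a018110080820002f0081800803c06022),
.c (nat_lit 11) (nat_lit 0x18018100740a03c060480380a0180a8080920200c0182500402800008),
.c (nat_lit 69) (nat_lit 0xa0280402a0100580c1040803e0503c0201d00c0e00401203049020100141140602803012020150080d4060760104601013000008020a40202b018250100600a07e0602c0380a0180e80a07005012030150100840a078030350201d80c0a80404c01022000008040b404052030510200b81404c0c068070440400a820050100240902a0381e8200e80a082060210381e0141000c070040350281d80c1180804c0105200000004018040100300f0200881412c0c038),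
.c (nat_lit 22) (nat_lit 0x4802054000100081e8080e80001c010370102000c0e00000e0103e0101180c1180804c0302a0101d0040e00000a010330101400c1080808e),
.c (nat_lit 7) (nat_lit 0x2e01416c000b61505a0702d01c168000b4)]

theorem c36_0 : ck d36 x36 ths 94 J36_0 0 = true := by decide +kernel

set_option maxRecDepth 100000 in
/-- Justifications. -/
noncomputable def J37_0 : List Js := [
.h (nat_lit 0x191dd),
.h (nat_lit 0x105d),
.h (nat_lit 0),
.c (nat_lit 2) (nat_lit 0x800003),
.c (nat_lit 2) (nat_lit 0x800c00000)]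

theorem c37_0 : ck d37 x37 ths 5 J37_0 0 = true := by decide +kernel

set_option maxRecDepth 100000 in
/-- Justifications. -/
noncomputable def J38_0 : List Js := [
.h (nat_lit 0x1a000),
.h (nat_lit 0x1a001),
.h (nat_lit 0x1a002),
.h (nat_lit 0x1a003),
.h (nat_lit 0x1a004),
.h (nat_lit 0x1901e),
.h (nat_lit 0x1901f),
.h (nat_lit 0x19021),
.h (nat_lit 0x19022),
.h (nat_lit 0x19024),
.h (nat_lit 0x19025),
.h (nat_lit 0x19027),
.h (nat_lit 0x19028),
.h (nat_lit 0x1902e),
.h (nat_lit 0x19030),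
.h (nat_lit 0x19031),
.h (nat_lit 0x19033),
.h (nat_lit 0x19034),
.h (nat_lit 0x19042),
.h (nat_lit 0x1906b),
.h (nat_lit 0x19172),
.h (nat_lit 0x19173),
.h (nat_lit 0x19176),
.h (nat_lit 0x19178),
.h (nat_lit 0x1917a),
.h (nat_lit 0x1918b),
.h (nat_lit 0x1918c),
.h (nat_lit 0x1918d),
.h (nat_lit 0x1918f),
.h (nat_lit 0x19192),
.h (nat_lit 0x191b2),
.h (nat_lit 0x191b9),
.h (nat_lit 0x191bd),
.h (nat_lit 0x191c6),
.h (nat_lit 0x191c9),
.h (nat_lit 0x191cb),
.h (nat_lit 0x191cc),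
.h (nat_lit 0x191d2),
.h (nat_lit 0x191dc),
.h (nat_lit 0x191dd),
.h (nat_lit 0x191de),
.h (nat_lit 0x191df),
.h (nat_lit 0x191e0),
.h (nat_lit 0x191e1),
.h (nat_lit 0x191e2),
.h (nat_lit 0x191e3),
.h (nat_lit 0x191f0),
.h (nat_lit 0x191fd),
.h (nat_lit 0x1992c),
.h (nat_lit 0x17045),
.h (nat_lit 0x15056),
.h (nat_lit 0x15057),
.h (nat_lit 0x13045),
.h (nat_lit 0xb030),
.h (nat_lit 0xb031),
.h (nat_lit 0x9055),
.h (nat_lit 0x9057),
.h (nat_lit 0x702a),
.h (nat_lit 0x702d),
.h (nat_lit 0x5041),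
.h (nat_lit 0x5042),
.h (nat_lit 0x5043),
.h (nat_lit 0x3039),
.h (nat_lit 0x303b),
.h (nat_lit 0x303c),
.h (nat_lit 0x1051),
.h (nat_lit 0x1052),
.h (nat_lit 0x105d),
.h (nat_lit 0),
.c (nat_lit 4) (nat_lit 0x30000218001120201d),
.c (nat_lit 2) (nat_lit 0x81140001a),
.c (nat_lit 2) (nat_lit 0x811400056),
.c (nat_lit 36) (nat_lit 0x12000080040900001c010340101800002c020380201d0181900809002060000090081e0080e00605c04012018120080c00206400007008200080800603e040390281080c0480406401031000028040b4040500303f0201a8140e80c03c),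
.c (nat_lit 25) (nat_lit 0x200b04012018190080c40200a0202d018140100fc0a06a0603a0380f01c0480c04805030028070180c00803805032000148040a80408c0300f0200b0140f80c030),
.c (nat_lit 79) (nat_lit 0x180e0100740a064050120201200c0c0040620200e0181800407c0404200003008238080b006034040220281d8180d80801605012028080180900a0480303c020170080800607204012018120040fc000040100c0102100c0940807a050150301301c0cc10032060100280e81404806080040210101400c07804062010360000080409c0401403023020208140440c06e07017040098180d00e0600501d030190180480a0480500e0301801007c0a04202047018160100ec0a06c030390201080410800000010060100400c0100801e),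
.c (nat_lit 65) (nat_lit 0x807f060218281041c0c60c0790801283805c1c02c100380901d050190280481204808030038190180c40c01c070300280f8180840608e0402c0280d01806c0e0440803b0481b0180480c02007024028170180c408072050210102100c0940807a050150301301c0cc10032060100280e8100b802046020410180a0100440a06e060170380981c0480c04805030028070180c00803805032000148040a80408c0300f0200b0140f80c030),
.c (nat_lit 12) (nat_lit 0x401c0280e8180c80c024050240102380c0ec0806c010420001180000002052),
.c (nat_lit 50) (nat_lit 0x10048060480203000819000014020500201e0100700c0c002070020310000180411c0403403022018058100480802005024020120080f00605c04012018120040fc000040100c0102100c0f40802a05026030090180400e048050340301801409008064020280180f0080c40206c000010081380802806046040110281b81805c0e026),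
.c (nat_lit 15) (nat_lit 0x80040900001c010340101800002c020380201d0181900809002060000090081e0080e00605c),
.c (nat_lit 7) (nat_lit 0x270101340009a1804c0802602013000098)]

theorem c38_0 : ck d38 x38 ths 80 J38_0 0 = true := by decide +kernel

set_option maxRecDepth 100000 in
/-- Justifications. -/
noncomputable def J39_0 : List Js := [
.h (nat_lit 0x1b1dd),
.h (nat_lit 0x104f),
.h (nat_lit 0),
.c (nat_lit 2) (nat_lit 0x800003),
.c (nat_lit 2) (nat_lit 0x800c00000)]

theorem c39_0 : ck d39 x39 ths 5 J39_0 0 = true := by decide +kernel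

set_option maxRecDepth 100000 in
/-- Justifications. -/
noncomputable def J40_0 : List Js := [
.h (nat_lit 0x1045),
.c (nat_lit 1) (nat_lit 0)]

theorem c40_0 : ck d40 x40 ths 2 J40_0 0 = true := by decide +kernel

set_option maxRecDepth 100000 in
/-- Justifications. -/
noncomputable def J41_0 : List Js := [
.h (nat_lit 0x1a000),
.h (nat_lit 0x19021),
.h (nat_lit 0x19024),
.h (nat_lit 0x19027),
.h (nat_lit 0x1902e),
.h (nat_lit 0x19030),
.h (nat_lit 0x19031),
.h (nat_lit 0x19042),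
.h (nat_lit 0x1917a),
.h (nat_lit 0x191bd),
.h (nat_lit 0x191df),
.h (nat_lit 0x191e0),
.h (nat_lit 0x1992c),
.h (nat_lit 0x17045),
.h (nat_lit 0x15056),
.h (nat_lit 0x13045),
.h (nat_lit 0xf052),
.h (nat_lit 0x9055),
.h (nat_lit 0x9057),
.h (nat_lit 0x7031),
.h (nat_lit 0x5041),
.h (nat_lit 0x5042),
.h (nat_lit 0x3039),
.h (nat_lit 0x303c),
.h (nat_lit 0x1050),
.h (nat_lit 0x105d),
.h (nat_lit 0),
.c (nat_lit 12) (nat_lit 0x200e0000b8040240400e0001500806800038000320001a81801c0800a02003),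
.c (nat_lit 19) (nat_lit 0x180400804002030000400381406c080140401b8380441801a0a0090400b8380842801e1200b0300081000c0400a00007),
.c (nat_lit 1) (nat_lit 24),
.c (nat_lit 1) (nat_lit 26),
.c (nat_lit 1) (nat_lit 28),
.c (nat_lit 1) (nat_lit 30),
.c (nat_lit 1) (nat_lit 34),
.c (nat_lit 1) (nat_lit 36),
.c (nat_lit 1) (nat_lit 40),
.c (nat_lit 1) (nat_lit 44),
.c (nat_lit 1) (nat_lit 46),
.c (nat_lit 1) (nat_lit 48),
.c (nat_lit 1) (nat_lit 54),
.c (nat_lit 1) (nat_lit 56)]

theorem c41_0 : ck d41 x41 ths 41 J41_0 0 = true := by decide +kernel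

set_option maxRecDepth 100000 in
/-- Justifications. -/
noncomputable def J42_0 : List Js := [
.h (nat_lit 0x1a000),
.h (nat_lit 0x19021),
.h (nat_lit 0x19024),
.h (nat_lit 0x19027),
.h (nat_lit 0x1902d),
.h (nat_lit 0x1902e),
.h (nat_lit 0x19030),
.h (nat_lit 0x19031),
.h (nat_lit 0x19042),
.h (nat_lit 0x19175),
.h (nat_lit 0x19176),
.h (nat_lit 0x1917a),
.h (nat_lit 0x1918f),
.h (nat_lit 0x19190),
.h (nat_lit 0x191b9),
.h (nat_lit 0x191bd),
.h (nat_lit 0x191df),
.h (nat_lit 0x191e0),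
.h (nat_lit 0x192c9),
.h (nat_lit 0x19909),
.h (nat_lit 0x1992c),
.h (nat_lit 0x17045),
.h (nat_lit 0x15056),
.h (nat_lit 0x13045),
.h (nat_lit 0x11030),
.h (nat_lit 0xf052),
.h (nat_lit 0x9055),
.h (nat_lit 0x9057),
.h (nat_lit 0x7031),
.h (nat_lit 0x5041),
.h (nat_lit 0x5042),
.h (nat_lit 0x3039),
.h (nat_lit 0x303c),
.h (nat_lit 0x1050),
.h (nat_lit 0x105d),
.h (nat_lit 0),
.c (nat_lit 27) (nat_lit 0x200a00c04c0402c00020008078080600601c040080180a00804c0003c0100d0100d80c054000320100c0100b00004802026000140001100008e0a00d0400481801c0800a02003),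
.c (nat_lit 24) (nat_lit 0x3008010080040600008008040030200101202407019020088140140c00e070090400502402c0804804010828124280221200d0300081000c0400a00007),
.c (nat_lit 3) (nat_lit 0x180300c09400048),
.c (nat_lit 1) (nat_lit 40),
.c (nat_lit 1) (nat_lit 42),
.c (nat_lit 1) (nat_lit 44),
.c (nat_lit 1) (nat_lit 46),
.c (nat_lit 1) (nat_lit 52),
.c (nat_lit 1) (nat_lit 54),
.c (nat_lit 1) (nat_lit 58),
.c (nat_lit 1) (nat_lit 62),
.c (nat_lit 1) (nat_lit 64),
.c (nat_lit 1) (nat_lit 66),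
.c (nat_lit 1) (nat_lit 76),
.c (nat_lit 1) (nat_lit 74)]

theorem c42_0 : ck d42 x42 ths 51 J42_0 0 = true := by decide +kernel

set_option maxRecDepth 100000 in
/-- Justifications. -/
noncomputable def J43_0 : List Js := [
.h (nat_lit 0x16003),
.h (nat_lit 0x15042),
.h (nat_lit 0x151dd),
.h (nat_lit 0x7031),
.h (nat_lit 0x1041),
.h (nat_lit 0x104d),
.h (nat_lit 0),
.c (nat_lit 2) (nat_lit 0x140000d),
.c (nat_lit 7) (nat_lit 0x80040400e0100400803c0400e00001),
.c (nat_lit 2) (nat_lit 0x802000004)]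

theorem c43_0 : ck d43 x43 ths 10 J43_0 0 = true := by decide +kernel

set_option maxRecDepth 100000 in
/-- Justifications. -/
noncomputable def J44_0 : List Js := [
.h (nat_lit 0x16000),
.h (nat_lit 0x16003),
.h (nat_lit 0x1503c),
.h (nat_lit 0x1503d),
.h (nat_lit 0x15042),
.h (nat_lit 0x1517a),
.h (nat_lit 0x1517b),
.h (nat_lit 0x151dd),
.h (nat_lit 0x15547),
.h (nat_lit 0x7031),
.h (nat_lit 0x1041),
.h (nat_lit 0x104d),
.h (nat_lit 0),
.c (nat_lit 4) (nat_lit 0x80000580003202005),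
.c (nat_lit 11) (nat_lit 0x801004004030080100680400c0201b020058080340c01200001),
.c (nat_lit 9) (nat_lit 0x20200401007008034020140100d8080740402600003),
.c (nat_lit 2) (nat_lit 0x803c0000e)]

theorem c44_0 : ck d44 x44 ths 17 J44_0 0 = true := by decide +kernel

set_option maxRecDepth 100000 in
/-- Justifications. -/
noncomputable def J45_0 : List Js := [
.h (nat_lit 0x12000),
.h (nat_lit 0x11042),
.h (nat_lit 0x11043),
.h (nat_lit 0x1117a),
.h (nat_lit 0x111dd),
.h (nat_lit 0x1069),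
.h (nat_lit 0),
.c (nat_lit 2) (nat_lit 0x140000d),
.c (nat_lit 7) (nat_lit 0x80040400e0100200803c0400e00001),
.c (nat_lit 2) (nat_lit 0x802000008),
.c (nat_lit 1) (nat_lit 18)]

theorem c45_0 : ck d45 x45 ths 11 J45_0 0 = true := by decide +kernel

set_option maxRecDepth 100000 in
/-- Justifications. -/
noncomputable def J46_0 : List Js := [
.h (nat_lit 0x12000),
.h (nat_lit 0x11042),
.h (nat_lit 0x11043),
.h (nat_lit 0x11051),
.h (nat_lit 0x111dd),
.h (nat_lit 0x116f0),
.h (nat_lit 0x118f3),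
.h (nat_lit 0x1069),
.h (nat_lit 0),
.c (nat_lit 6) (nat_lit 0x40200a000070000440800e02003),
.c (nat_lit 9) (nat_lit 0x200300803004024020050200981002c0c00e00001),
.c (nat_lit 2) (nat_lit 0x802800008),
.c (nat_lit 1) (nat_lit 22)]

theorem c46_0 : ck d46 x46 ths 13 J46_0 0 = true := by decide +kernel

set_option maxRecDepth 100000 in
/-- Justifications. -/
noncomputable def J47_0 : List Js := [
.h (nat_lit 0x12000),
.h (nat_lit 0x12001),
.h (nat_lit 0x1102b),
.h (nat_lit 0x11030),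
.h (nat_lit 0x11042),
.h (nat_lit 0x11043),
.h (nat_lit 0x1106b),
.h (nat_lit 0x11195),
.h (nat_lit 0x111dd),
.h (nat_lit 0x1192c),
.h (nat_lit 0xd058),
.h (nat_lit 0x1055),
.h (nat_lit 0x1069),
.h (nat_lit 0),
.c (nat_lit 4) (nat_lit 0x90000600003602007),
.c (nat_lit 13) (nat_lit 0x2020030180200402c0400c0100e0080140803a0600f0200a8200240c00e00003),
.c (nat_lit 5) (nat_lit 0x100f00802c0803e00001),
.c (nat_lit 2) (nat_lit 0x804000010),
.c (nat_lit 1) (nat_lit 34)]

theorem c47_0 : ck d47 x47 ths 19 J47_0 0 = true := by decide +kernel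

set_option maxRecDepth 100000 in
/-- Justifications. -/
noncomputable def J48_0 : List Js := [
.h (nat_lit 0x12000),
.h (nat_lit 0x12001),
.h (nat_lit 0x1102b),
.h (nat_lit 0x11030),
.h (nat_lit 0x11042),
.h (nat_lit 0x11043),
.h (nat_lit 0x11051),
.h (nat_lit 0x111dd),
.h (nat_lit 0x1157e),
.h (nat_lit 0x116f0),
.h (nat_lit 0x11808),
.h (nat_lit 0x1191f),
.h (nat_lit 0xd058),
.h (nat_lit 0x1055),
.h (nat_lit 0x1069),
.h (nat_lit 0),
.c (nat_lit 8) (nat_lit 0x8000020040240001c0000f8180340801202007),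
.c (nat_lit 13) (nat_lit 0x20200301803004034040160101000801408042060150200c8200340c00e00003),
.c (nat_lit 5) (nat_lit 0x101100802c0804600001),
.c (nat_lit 2) (nat_lit 0x80480000e),
.c (nat_lit 1) (nat_lit 38)]

theorem c48_0 : ck d48 x48 ths 21 J48_0 0 = true := by decide +kernel

set_option maxRecDepth 100000 in
/-- Justifications. -/
noncomputable def J49_0 : List Js := [
.h (nat_lit 0x12000),
.h (nat_lit 0x12001),
.h (nat_lit 0x1102a),
.h (nat_lit 0x1102b),
.h (nat_lit 0x11030),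
.h (nat_lit 0x11042),
.h (nat_lit 0x11043),
.h (nat_lit 0x1106b),
.h (nat_lit 0x11177),
.h (nat_lit 0x11195),
.h (nat_lit 0x111dd),
.h (nat_lit 0x1192c),
.h (nat_lit 0xd058),
.h (nat_lit 0x1055),
.h (nat_lit 0x1069),
.h (nat_lit 0),
.c (nat_lit 8) (nat_lit 0xc0080480002c0001c0000f8080640801202005),
.c (nat_lit 15) (nat_lit 0x8080100600a020020180601002404020010030080840c01e0401b0100882002c0c01200003),
.c (nat_lit 5) (nat_lit 0x10110080340804600001),
.c (nat_lit 2) (nat_lit 0x804800014),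
.c (nat_lit 1) (nat_lit 38)]

theorem c49_0 : ck d49 x49 ths 21 J49_0 0 = true := by decide +kernel

set_option maxRecDepth 100000 in
/-- Justifications. -/
noncomputable def J50_0 : List Js := [
.h (nat_lit 0x12000),
.h (nat_lit 0x12001),
.h (nat_lit 0x1102a),
.h (nat_lit 0x1102b),
.h (nat_lit 0x11030),
.h (nat_lit 0x11042),
.h (nat_lit 0x11043),
.h (nat_lit 0x11051),
.h (nat_lit 0x11177),
.h (nat_lit 0x111dd),
.h (nat_lit 0x1157e),
.h (nat_lit 0x116f0),
.h (nat_lit 0x11808),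
.h (nat_lit 0x1191f),
.h (nat_lit 0xd058),
.h (nat_lit 0x1055),
.h (nat_lit 0x1069),
.h (nat_lit 0),
.c (nat_lit 12) (nat_lit 0xe008060000280000a0100b000080000460201d0400781802c0801202005),
.c (nat_lit 15) (nat_lit 0x8080100600e020020180701003004024010030080940c0360401f0100882003c0c01200003),
.c (nat_lit 5) (nat_lit 0x10130080340804e00001),
.c (nat_lit 2) (nat_lit 0x805000012),
.c (nat_lit 1) (nat_lit 42)]

theorem c50_0 : ck d50 x50 ths 23 J50_0 0 = true := by decide +kernel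

set_option maxRecDepth 100000 in
/-- Justifications. -/
noncomputable def J51_0 : List Js := [
.h (nat_lit 0xe000),
.h (nat_lit 0xe003),
.h (nat_lit 0xd039),
.h (nat_lit 0xd042),
.h (nat_lit 0xd043),
.h (nat_lit 0xd048),
.h (nat_lit 0xd049),
.h (nat_lit 0xd1dd),
.h (nat_lit 0xd332),
.h (nat_lit 0x5031),
.h (nat_lit 0x1062),
.h (nat_lit 0),
.c (nat_lit 5) (nat_lit 0x60000a00005c0800e02005),
.c (nat_lit 8) (nat_lit 0x20080000801804018020048180640400200005),
.c (nat_lit 2) (nat_lit 0x80340000e),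
.c (nat_lit 7) (nat_lit 0x8080140401a0100900806c0402200003),
.c (nat_lit 2) (nat_lit 0x803c0001c)]

theorem c51_0 : ck d51 x51 ths 17 J51_0 0 = true := by decide +kernel

set_option maxRecDepth 100000 in
/-- Justifications. -/
noncomputable def J52_0 : List Js := [
.h (nat_lit 0xe000),
.h (nat_lit 0xe003),
.h (nat_lit 0xd039),
.h (nat_lit 0xd042),
.h (nat_lit 0xd043),
.h (nat_lit 0xd048),
.h (nat_lit 0xd049),
.h (nat_lit 0xd17a),
.h (nat_lit 0xd180),
.h (nat_lit 0xd19e),
.h (nat_lit 0xd1dd),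
.h (nat_lit 0xd332),
.h (nat_lit 0xd434),
.h (nat_lit 0xd557),
.h (nat_lit 0x5031),
.h (nat_lit 0x1062),
.h (nat_lit 0),
.c (nat_lit 7) (nat_lit 0x68040240001e0001081001c0801602005),
.c (nat_lit 14) (nat_lit 0x802000040030280600c04404008020118200440c01e0400d0400c82802c0400200005),
.c (nat_lit 2) (nat_lit 0x804800014),
.c (nat_lit 7) (nat_lit 0x808014040240100e0080940402e00003),
.c (nat_lit 2) (nat_lit 0x805000026)]

theorem c52_0 : ck d52 x52 ths 22 J52_0 0 = true := by decide +kernel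

set_option maxRecDepth 100000 in
/-- Justifications. -/
noncomputable def J53_0 : List Js := [
.h (nat_lit 0x8000),
.h (nat_lit 0x8002),
.h (nat_lit 0x8003),
.h (nat_lit 0x701e),
.h (nat_lit 0x7024),
.h (nat_lit 0x7027),
.h (nat_lit 0x7028),
.h (nat_lit 0x702d),
.h (nat_lit 0x7036),
.h (nat_lit 0x7037),
.h (nat_lit 0x7039),
.h (nat_lit 0x703c),
.h (nat_lit 0x7042),
.h (nat_lit 0x7043),
.h (nat_lit 0x7045),
.h (nat_lit 0x7046),
.h (nat_lit 0x7048),
.h (nat_lit 0x704b),
.h (nat_lit 0x7052),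
.h (nat_lit 0x7054),
.h (nat_lit 0x705d),
.h (nat_lit 0x706c),
.h (nat_lit 0x7173),
.h (nat_lit 0x717f),
.h (nat_lit 0x719c),
.h (nat_lit 0x719e),
.h (nat_lit 0x719f),
.h (nat_lit 0x71bb),
.h (nat_lit 0x71ca),
.h (nat_lit 0x71dd),
.h (nat_lit 0x71e1),
.h (nat_lit 0x71e3),
.h (nat_lit 0x7223),
.h (nat_lit 0x7298),
.h (nat_lit 0x72a2),
.h (nat_lit 0x7314),
.h (nat_lit 0x7332),
.h (nat_lit 0x73a8),
.h (nat_lit 0x73e0),
.h (nat_lit 0x73f5),
.h (nat_lit 0x7436),
.h (nat_lit 0x74b7),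
.h (nat_lit 0x74ba),
.h (nat_lit 0x74d2),
.h (nat_lit 0x7520),
.h (nat_lit 0x754a),
.h (nat_lit 0x7561),
.h (nat_lit 0x757f),
.h (nat_lit 0x76f8),
.h (nat_lit 0x7734),
.h (nat_lit 0x7747),
.h (nat_lit 0x7817),
.h (nat_lit 0x781f),
.h (nat_lit 0x7820),
.h (nat_lit 0x7903),
.h (nat_lit 0x7904),
.h (nat_lit 0x7913),
.h (nat_lit 0x792d),
.h (nat_lit 0x7932),
.h (nat_lit 0x7933),
.h (nat_lit 0x5043),
.h (nat_lit 0x3055),
.h (nat_lit 0x1046),
.h (nat_lit 0x1047),
.h (nat_lit 0x1048),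
.h (nat_lit 0x104a),
.h (nat_lit 0x1055),
.h (nat_lit 0),
.c (nat_lit 8) (nat_lit 0x180000600408800084000438180740803202011),
.c (nat_lit 12) (nat_lit 0x8008000100380401e030170102200803606089040228280740400200011),
.c (nat_lit 4) (nat_lit 0x300e0202280811000036),
.c (nat_lit 2) (nat_lit 0x81140003a),
.c (nat_lit 2) (nat_lit 0x81140003e),
.c (nat_lit 7) (nat_lit 0x10080380408a0103a00822c0409a00005),
.c (nat_lit 13) (nat_lit 0x20010080100280c0c008046040490182200c0ee080890504981002c0402200021),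
.c (nat_lit 16) (nat_lit 0x10008040080100c028050310181c01009c08092030440181e4101120a093070148100240402200021),
.c (nat_lit 2) (nat_lit 0x1412c00080),
.c (nat_lit 24) (nat_lit 0x20200881404c0a0940504b0200801412406054020190100400c0c806092020440082080411204093020248081bc100be060570501382008c0c04200005),
.c (nat_lit 2) (nat_lit 0x813400012),
.c (nat_lit 2) (nat_lit 0x812800024),
.c (nat_lit 2) (nat_lit 0x812400042),
.c (nat_lit 2) (nat_lit 0x81340008c),
.c (nat_lit 2) (nat_lit 0x81240008e),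
.c (nat_lit 2) (nat_lit 0x812400090),
.c (nat_lit 15) (nat_lit 0x380000c02038020100100580c0a804014030290200c8040b80406603028000008041440409c),
.c (nat_lit 5) (nat_lit 0x805c05033030140081300000c),
.c (nat_lit 27) (nat_lit 0x180401c000040101e0101000c040060160402a018050100a40a032020050180800c02c080540300a020148140640209800001008030081440602c0404e0281c81813c0e07a),
.c (nat_lit 29) (nat_lit 0x200102b0101780002c02054020340181600002802052020190180d0100d40000e0102e0101980c0a00805a05025018158100bc040680302c0080d0080d40000a010360101f80c0f808046),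
.c (nat_lit 7) (nat_lit 0x2b814158000ac180550802a820154000aa)]

theorem c53_0 : ck d53 x53 ths 89 J53_0 0 = true := by decide +kernel

set_option maxRecDepth 100000 in
/-- Justifications. -/
noncomputable def J54_0 : List Js := [
.h (nat_lit 0xa000),
.h (nat_lit 0xa002),
.h (nat_lit 0xa003),
.h (nat_lit 0xa004),
.h (nat_lit 0x901e),
.h (nat_lit 0x9021),
.h (nat_lit 0x9022),
.h (nat_lit 0x9027),
.h (nat_lit 0x9028),
.h (nat_lit 0x902d),
.h (nat_lit 0x9030),
.h (nat_lit 0x9031),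
.h (nat_lit 0x9039),
.h (nat_lit 0x903c),
.h (nat_lit 0x9048),
.h (nat_lit 0x9049),
.h (nat_lit 0x9054),
.h (nat_lit 0x9083),
.h (nat_lit 0x9173),
.h (nat_lit 0x9175),
.h (nat_lit 0x917b),
.h (nat_lit 0x9180),
.h (nat_lit 0x918f),
.h (nat_lit 0x9198),
.h (nat_lit 0x919e),
.h (nat_lit 0x91b9),
.h (nat_lit 0x91bd),
.h (nat_lit 0x91d2),
.h (nat_lit 0x91df),
.h (nat_lit 0x91e1),
.h (nat_lit 0x91e2),
.h (nat_lit 0x91f7),
.h (nat_lit 0x9210),
.h (nat_lit 0x9223),
.h (nat_lit 0x92c9),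
.h (nat_lit 0x9332),
.h (nat_lit 0x9436),
.h (nat_lit 0x949d),
.h (nat_lit 0x94b7),
.h (nat_lit 0x94ba),
.h (nat_lit 0x9561),
.h (nat_lit 0x9817),
.h (nat_lit 0x98f4),
.h (nat_lit 0x9903),
.h (nat_lit 0x992d),
.h (nat_lit 0x992e),
.h (nat_lit 0x5059),
.h (nat_lit 0x3046),
.h (nat_lit 0x3047),
.h (nat_lit 0x104c),
.h (nat_lit 0x104e),
.h (nat_lit 0x104f),
.h (nat_lit 0x1050),
.h (nat_lit 0x1051),
.h (nat_lit 0x1053),
.h (nat_lit 0x1054),
.h (nat_lit 0x1058),
.h (nat_lit 0),
.c (nat_lit 3) (nat_lit 0x1c8000e202021),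
.c (nat_lit 3) (nat_lit 0x10080080e800056),
.c (nat_lit 5) (nat_lit 0xa050060290381200c0c402010),
.c (nat_lit 58) (nat_lit 0x80880202c0200e008100000100206c0201f018070080240604404024018100040d0000040101d0100f00c084080460400d028138100300a04c06018018038080680601c0300d0201380c0300804c050180081880000402010020350180d8100480a0640602c038198200380e04e0500a0200b01403808040020360180f80407800000010060100180c07008016050130300781c0501002a),
.c (nat_lit 26) (nat_lit 0x3400018010260000500405c0404a00009008110080a006052000070081d808058060600402f0280701009c0603002020000028040680406803019020170140a80c05a),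
.c (nat_lit 7) (nat_lit 0x1f01c0f40007a1b03c0901e0240f000078)]

theorem c54_0 : ck d54 x54 ths 64 J54_0 0 = true := by decide +kernel

set_option maxRecDepth 100000 in
/-- Justifications. -/
noncomputable def J55_0 : List Js := [
.h (nat_lit 0x3052),
.h (nat_lit 0x103f),
.h (nat_lit 0),
.c (nat_lit 2) (nat_lit 0x800003),
.c (nat_lit 2) (nat_lit 0x800c00000)]

theorem c55_0 : ck d55 x55 ths 5 J55_0 0 = true := by decide +kernel

set_option maxRecDepth 100000 in
/-- Justifications. -/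
noncomputable def J56_0 : List Js := [
.h (nat_lit 0x8000),
.h (nat_lit 0x8002),
.h (nat_lit 0x8003),
.h (nat_lit 0x701e),
.h (nat_lit 0x7024),
.h (nat_lit 0x7027),
.h (nat_lit 0x7028),
.h (nat_lit 0x702d),
.h (nat_lit 0x7036),
.h (nat_lit 0x7037),
.h (nat_lit 0x7039),
.h (nat_lit 0x703c),
.h (nat_lit 0x7042),
.h (nat_lit 0x7043),
.h (nat_lit 0x7045),
.h (nat_lit 0x7046),
.h (nat_lit 0x7048),
.h (nat_lit 0x704b),
.h (nat_lit 0x704c),
.h (nat_lit 0x7054),
.h (nat_lit 0x705d),
.h (nat_lit 0x706c),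
.h (nat_lit 0x7173),
.h (nat_lit 0x717a),
.h (nat_lit 0x7184),
.h (nat_lit 0x7186),
.h (nat_lit 0x718d),
.h (nat_lit 0x719e),
.h (nat_lit 0x719f),
.h (nat_lit 0x71bb),
.h (nat_lit 0x71dd),
.h (nat_lit 0x71e1),
.h (nat_lit 0x71e3),
.h (nat_lit 0x7203),
.h (nat_lit 0x7223),
.h (nat_lit 0x7294),
.h (nat_lit 0x7298),
.h (nat_lit 0x72a2),
.h (nat_lit 0x7314),
.h (nat_lit 0x7332),
.h (nat_lit 0x736a),
.h (nat_lit 0x73e0),
.h (nat_lit 0x73f5),
.h (nat_lit 0x7436),
.h (nat_lit 0x74b7),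
.h (nat_lit 0x74ba),
.h (nat_lit 0x74d2),
.h (nat_lit 0x7520),
.h (nat_lit 0x7523),
.h (nat_lit 0x7561),
.h (nat_lit 0x757f),
.h (nat_lit 0x75b7),
.h (nat_lit 0x75ec),
.h (nat_lit 0x76f8),
.h (nat_lit 0x7734),
.h (nat_lit 0x7747),
.h (nat_lit 0x7783),
.h (nat_lit 0x778f),
.h (nat_lit 0x7817),
.h (nat_lit 0x781f),
.h (nat_lit 0x7820),
.h (nat_lit 0x7903),
.h (nat_lit 0x7904),
.h (nat_lit 0x7913),
.h (nat_lit 0x7932),
.h (nat_lit 0x7933),
.h (nat_lit 0x5043),
.h (nat_lit 0x1043),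
.h (nat_lit 0x1044),
.h (nat_lit 0x1046),
.h (nat_lit 0x1047),
.h (nat_lit 0x1048),
.h (nat_lit 0x104a),
.h (nat_lit 0x1055),
.h (nat_lit 0),
.c (nat_lit 7) (nat_lit 0x1a00012400095030258100640803a02011),
.c (nat_lit 12) (nat_lit 0x800800010030060960200d01025c0c05e0401f040258280740400200011),
.c (nat_lit 5) (nat_lit 0x601c0404c0182600812c0003a),
.c (nat_lit 2) (nat_lit 0x81300003c),
.c (nat_lit 2) (nat_lit 0x813000040),
.c (nat_lit 7) (nat_lit 0x10080380409801040008264040a600005),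
.c (nat_lit 15) (nat_lit 0x80040200400a0303502013010140080980304b01820c1012e0a0990505081002c0402200021),
.c (nat_lit 18) (nat_lit 0x4002010020040300a0140d80607e0402a02028010130060960304282025c141320a0a1070148100240402200021),
.c (nat_lit 2) (nat_lit 0x141480008e),
.c (nat_lit 26) (nat_lit 0x808022050130282881414808020050500181680806c04010030370182800c130040960104800825c08132040a1020278081f4100ca0605d0501382008c0c04200005),
.c (nat_lit 2) (nat_lit 0x815000012),
.c (nat_lit 2) (nat_lit 0x814000048),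
.c (nat_lit 2) (nat_lit 0x81500009a),
.c (nat_lit 2) (nat_lit 0x81400009c),
.c (nat_lit 2) (nat_lit 0x81400009e),
.c (nat_lit 18) (nat_lit 0x14020200100b01016804028040580301b0000180414c0404603028020108041180408a030260000080415c0402c),
.c (nat_lit 3) (nat_lit 0x181e80407c04034),
.c (nat_lit 40) (nat_lit 0x10310101d00c0ac0008c010450101300000c02046020280181081004c0802205033018170100c804076010070000100407c04044030120201801409c0c030070190100280c040060160402d018050100b00a0360105300000804018040ae030160202a8141100c086),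
.c (nat_lit 26) (nat_lit 0x40000160102d000050040b00403600007008188080e80605604013020088140cc0605c040320101d80c0bc020380203c000028040f40408c03045020130140e40c070),
.c (nat_lit 7) (nat_lit 0x2e81c170000b81505b0702d81c16c000b6)]

theorem c56_0 : ck d56 x56 ths 95 J56_0 0 = true := by decide +kernel

set_option maxRecDepth 100000 in
/-- Justifications. -/
noncomputable def J57_0 : List Js := [
.h (nat_lit 0xa000),
.h (nat_lit 0xa002),
.h (nat_lit 0xa003),
.h (nat_lit 0xa004),
.h (nat_lit 0x901e),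
.h (nat_lit 0x9021),
.h (nat_lit 0x9022),
.h (nat_lit 0x9027),
.h (nat_lit 0x9028),
.h (nat_lit 0x902d),
.h (nat_lit 0x9030),
.h (nat_lit 0x9039),
.h (nat_lit 0x903c),
.h (nat_lit 0x9048),
.h (nat_lit 0x9054),
.h (nat_lit 0x9083),
.h (nat_lit 0x9175),
.h (nat_lit 0x9176),
.h (nat_lit 0x918d),
.h (nat_lit 0x918f),
.h (nat_lit 0x9198),
.h (nat_lit 0x919e),
.h (nat_lit 0x91b9),
.h (nat_lit 0x91bd),
.h (nat_lit 0x91ca),
.h (nat_lit 0x91df),
.h (nat_lit 0x91e0),
.h (nat_lit 0x91e1),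
.h (nat_lit 0x91e2),
.h (nat_lit 0x91f7),
.h (nat_lit 0x9210),
.h (nat_lit 0x9223),
.h (nat_lit 0x92c9),
.h (nat_lit 0x9314),
.h (nat_lit 0x9332),
.h (nat_lit 0x9436),
.h (nat_lit 0x949d),
.h (nat_lit 0x94b7),
.h (nat_lit 0x94ba),
.h (nat_lit 0x9561),
.h (nat_lit 0x9817),
.h (nat_lit 0x98f4),
.h (nat_lit 0x9903),
.h (nat_lit 0x992e),
.h (nat_lit 0x5059),
.h (nat_lit 0x3046),
.h (nat_lit 0x3047),
.h (nat_lit 0x1053),
.h (nat_lit 0x1055),
.h (nat_lit 0x1056),
.h (nat_lit 0x1057),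
.h (nat_lit 0x1059),
.h (nat_lit 0x105e),
.h (nat_lit 0),
.c (nat_lit 3) (nat_lit 0x1a8000d20201d),
.c (nat_lit 3) (nat_lit 0x10070080d800054),
.c (nat_lit 15) (nat_lit 0x4800010020300200d0100600c09804016030250200a80409c0405003023000008040c804060),
.c (nat_lit 15) (nat_lit 0x30068140240c040070230300f0100c4040360301c0200f81408808046020330000300406404020),
.c (nat_lit 44) (nat_lit 0x3014020120140340804c030150000b8040c404058030290201580409c0405003023000020040bc04030010370000100406c040240300d0180601009806016040250280a8040bc00002010080101900c0280600a0401602806810078040660301d0080e0000000200c020030180c8100680a022),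
.c (nat_lit 29) (nat_lit 0x1801026000058040940402a0000a0080a0080900603c000090081000809c0605004023000038040dc040260302e020168140840804c030150100f0000140202e020310180b0100b00a052),
.c (nat_lit 7) (nat_lit 0x1d8180e800074120390601c8180e400072)]

theorem c57_0 : ck d57 x57 ths 61 J57_0 0 = true := by decide +kernel

set_option maxRecDepth 100000 in
/-- Justifications. -/
noncomputable def J58_0 : List Js := [
.h (nat_lit 0x3058),
.h (nat_lit 0x103c),
.h (nat_lit 0),
.c (nat_lit 2) (nat_lit 0x800003),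
.c (nat_lit 2) (nat_lit 0x800c00000)]

theorem c58_0 : ck d58 x58 ths 5 J58_0 0 = true := by decide +kernel

end Pool.Agent.Lib.MP_3b0e0c_al.D.H1
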