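import Pool.Agent.Lib.MP_3b0e0c_al.D.H1C0
import Pool.Agent.Lib.MP_3b0e0c_al.D.H1C1
import Pool.Agent.Lib.MP_3b0e0c_al.D.H1C2
import Pool.Agent.Lib.MP_3b0e0c_al.D.H1C3
import Pool.Agent.Lib.MP_3b0e0c_al.D.H1C4

namespace Pool.Agent.Lib.MP_3b0e0c_al.D.H1

open S

variable {G : Type*} [Group G] {g : ℕ → G}

variable (G) in
/-- What is used. -/
def Env : Prop := (∀ t ∈ ths, Valid G t) ∧ NS G

theorem t58 (E : Env G) (hx : Ok g x58) : Goal g alts :=
  close_ok (ck_ok E.1 hx c58_0 all0) 0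
    [4] (by decide +kernel)

theorem t57 (E : Env G) (hx : Ok g x57) : Goal g alts :=
  br_ok hx (ck_ok E.1 hx c57_0 all0) (c := (nsCl 0 [[0], [0]])) (ns_valid E.2 _ _) s57 (nat_lit 0xf038) 1 (by decide +kernel)
    (allS 0 all0 (t58 E))

theorem t56 (E : Env G) (hx : Ok g x56) : Goal g alts :=
  br_ok hx (ck_ok E.1 hx c56_0 all0) (c := (nsCl 0 [[0], [0]])) (ns_valid E.2 _ _) s56 (nat_lit 0x1505a) 1 (by decide +kernel)
    (allS 0 all0 (t57 E))

theorem t55 (E : Env G) (hx : Ok g x55) : Goal g alts :=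
  close_ok (ck_ok E.1 hx c55_0 all0) 0
    [4] (by decide +kernel)

theorem t54 (E : Env G) (hx : Ok g x54) : Goal g alts :=
  br_ok hx (ck_ok E.1 hx c54_0 all0) (c := (nsCl 0 [[0], [0]])) (ns_valid E.2 _ _) s54 (nat_lit 0x37011) 1 (by decide +kernel)
    (allS 0 all0 (t55 E))

theorem t53 (E : Env G) (hx : Ok g x53) : Goal g alts :=
  br_ok hx (ck_ok E.1 hx c53_0 all0) (c := (nsCl 0 [[0], [0]])) (ns_valid E.2 _ _) s53 (nat_lit 0x54015) 1 (by decide +kernel)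
    (allS 0 all0 (t54 E))

theorem t52 (E : Env G) (hx : Ok g x52) : Goal g alts :=
  close_ok (ck_ok E.1 hx c52_0 all0) 0
    [21] (by decide +kernel)

theorem t51 (E : Env G) (hx : Ok g x51) : Goal g alts :=
  close_ok (ck_ok E.1 hx c51_0 all0) 0
    [16] (by decide +kernel)

theorem t50 (E : Env G) (hx : Ok g x50) : Goal g alts :=
  close_ok (ck_ok E.1 hx c50_0 all0) 0
    [22] (by decide +kernel)

theorem t49 (E : Env G) (hx : Ok g x49) : Goal g alts :=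
  close_ok (ck_ok E.1 hx c49_0 all0) 0
    [20] (by decide +kernel)

theorem t48 (E : Env G) (hx : Ok g x48) : Goal g alts :=
  close_ok (ck_ok E.1 hx c48_0 all0) 0
    [20] (by decide +kernel)

theorem t47 (E : Env G) (hx : Ok g x47) : Goal g alts :=
  close_ok (ck_ok E.1 hx c47_0 all0) 0
    [18] (by decide +kernel)

theorem t46 (E : Env G) (hx : Ok g x46) : Goal g alts :=
  close_ok (ck_ok E.1 hx c46_0 all0) 0
    [12] (by decide +kernel)

theorem t45 (E : Env G) (hx : Ok g x45) : Goal g alts :=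
  close_ok (ck_ok E.1 hx c45_0 all0) 0
    [10] (by decide +kernel)

theorem t44 (E : Env G) (hx : Ok g x44) : Goal g alts :=
  close_ok (ck_ok E.1 hx c44_0 all0) 0
    [16] (by decide +kernel)

theorem t43 (E : Env G) (hx : Ok g x43) : Goal g alts :=
  close_ok (ck_ok E.1 hx c43_0 all0) 0
    [9] (by decide +kernel)

theorem t42 (E : Env G) (hx : Ok g x42) : Goal g alts :=
  close_ok (ck_ok E.1 hx c42_0 all0) 4
    [39, 40, 41, 42, 28, 43, 44, 45, 46, 47, 48, 49, 50] (by decide +kernel)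

theorem t41 (E : Env G) (hx : Ok g x41) : Goal g alts :=
  close_ok (ck_ok E.1 hx c41_0 all0) 4
    [29, 30, 31, 32, 19, 33, 34, 35, 36, 37, 38, 39, 40] (by decide +kernel)

theorem t40 (E : Env G) (hx : Ok g x40) : Goal g alts :=
  close_ok (ck_ok E.1 hx c40_0 all0) 3
    [1] (by decide +kernel)

theorem t39 (E : Env G) (hx : Ok g x39) : Goal g alts :=
  close_ok (ck_ok E.1 hx c39_0 all0) 0
    [4] (by decide +kernel)

theorem t38 (E : Env G) (hx : Ok g x38) : Goal g alts :=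
  br_ok hx (ck_ok E.1 hx c38_0 all0) (c := (nsCl 1 [[0, 1], [1, 1], [0]])) (ns_valid E.2 _ _) s38 (nat_lit 0x4804b04a04902f) 2 (by decide +kernel)
    (allS 1 (allS 0 all0 (t39 E)) (t40 E))

theorem t37 (E : Env G) (hx : Ok g x37) : Goal g alts :=
  close_ok (ck_ok E.1 hx c37_0 all0) 0
    [4] (by decide +kernel)

theorem t36 (E : Env G) (hx : Ok g x36) : Goal g alts :=
  br_ok hx (ck_ok E.1 hx c36_0 all0) (c := (nsCl 2 [[0, 1, 3], [2, 1, 2], [0], [0, 1]])) (ns_valid E.2 _ _) s36 (nat_lit 0x54053039059058057056055016) 4 (by decide +kernel)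
    (allS 3 (allS 2 (allS 1 (allS 0 all0 (t37 E)) (t38 E)) (t41 E)) (t42 E))

theorem t35 (E : Env G) (hx : Ok g x35) : Goal g alts :=
  close_ok (ck_ok E.1 hx c35_0 all0) 0
    [4] (by decide +kernel)

theorem t34 (E : Env G) (hx : Ok g x34) : Goal g alts :=
  br_ok hx (ck_ok E.1 hx c34_0 all0) (c := (nsCl 1 [[1, 1], [0, 1], [0]])) (ns_valid E.2 _ _) s34 (nat_lit 0x3d04104003f03e) 2 (by decide +kernel)
    (allS 1 (allS 0 all0 (t35 E)) (t36 E))

theorem t33 (E : Env G) (hx : Ok g x33) : Goal g alts :=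
  close_ok (ck_ok E.1 hx c33_0 all0) 0
    [4] (by decide +kernel)

theorem t32 (E : Env G) (hx : Ok g x32) : Goal g alts :=
  br_ok hx (ck_ok E.1 hx c32_0 all0) (c := (nsCl 2 [[2, 1, 2], [0, 1, 3], [0], [0, 1]])) (ns_valid E.2 _ _) s32 (nat_lit 0x44012013049048011047046045) 4 (by decide +kernel)
    (allS 3 (allS 2 (allS 1 (allS 0 all0 (t33 E)) (t34 E)) (t43 E)) (t44 E))

theorem t31 (E : Env G) (hx : Ok g x31) : Goal g alts :=
  close_ok (ck_ok E.1 hx c31_0 all0) 0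
    [11] (by decide +kernel)

theorem t30 (E : Env G) (hx : Ok g x30) : Goal g alts :=
  close_ok (ck_ok E.1 hx c30_0 all0) 0
    [10] (by decide +kernel)

theorem t29 (E : Env G) (hx : Ok g x29) : Goal g alts :=
  close_ok (ck_ok E.1 hx c29_0 all0) 2
    [28, 29, 30, 31, 19, 32, 33, 34, 35, 36, 37, 38] (by decide +kernel)

theorem t28 (E : Env G) (hx : Ok g x28) : Goal g alts :=
  close_ok (ck_ok E.1 hx c28_0 all0) 2
    [19, 20, 21, 22, 11, 23, 24, 25, 26, 27, 28, 29] (by decide +kernel)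

theorem t27 (E : Env G) (hx : Ok g x27) : Goal g alts :=
  close_ok (ck_ok E.1 hx c27_0 all0) 1
    [1] (by decide +kernel)

theorem t26 (E : Env G) (hx : Ok g x26) : Goal g alts :=
  close_ok (ck_ok E.1 hx c26_0 all0) 0
    [4] (by decide +kernel)

theorem t25 (E : Env G) (hx : Ok g x25) : Goal g alts :=
  br_ok hx (ck_ok E.1 hx c25_0 all0) (c := (nsCl 1 [[0, 1], [1, 1], [0]])) (ns_valid E.2 _ _) s25 (nat_lit 0x46049048047014) 2 (by decide +kernel)
    (allS 1 (allS 0 all0 (t26 E)) (t27 E))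

theorem t24 (E : Env G) (hx : Ok g x24) : Goal g alts :=
  close_ok (ck_ok E.1 hx c24_0 all0) 0
    [4] (by decide +kernel)

theorem t23 (E : Env G) (hx : Ok g x23) : Goal g alts :=
  br_ok hx (ck_ok E.1 hx c23_0 all0) (c := (nsCl 2 [[0, 1, 3], [2, 1, 2], [0], [0, 1]])) (ns_valid E.2 _ _) s23 (nat_lit 0x4f04e036054053052051050015) 4 (by decide +kernel)
    (allS 3 (allS 2 (allS 1 (allS 0 all0 (t24 E)) (t25 E)) (t28 E)) (t29 E))

theorem t22 (E : Env G) (hx : Ok g x22) : Goal g alts :=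
  close_ok (ck_ok E.1 hx c22_0 all0) 0
    [4] (by decide +kernel)

theorem t21 (E : Env G) (hx : Ok g x21) : Goal g alts :=
  br_ok hx (ck_ok E.1 hx c21_0 all0) (c := (nsCl 1 [[1, 1], [0, 1], [0]])) (ns_valid E.2 _ _) s21 (nat_lit 0x2503c01003b03a) 2 (by decide +kernel)
    (allS 1 (allS 0 all0 (t22 E)) (t23 E))

theorem t20 (E : Env G) (hx : Ok g x20) : Goal g alts :=
  close_ok (ck_ok E.1 hx c20_0 all0) 0
    [4] (by decide +kernel)

theorem t19 (E : Env G) (hx : Ok g x19) : Goal g alts :=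
  br_ok hx (ck_ok E.1 hx c19_0 all0) (c := (nsCl 2 [[0, 1, 3], [2, 1, 2], [0], [0, 1]])) (ns_valid E.2 _ _) s19 (nat_lit 0x6101b04006606506406306201a) 4 (by decide +kernel)
    (allS 3 (allS 2 (allS 1 (allS 0 all0 (t20 E)) (t21 E)) (t30 E)) (t31 E))

theorem t18 (E : Env G) (hx : Ok g x18) : Goal g alts :=
  br_ok hx (ck_ok E.1 hx c18_0 all0) (c := (nsCl 1 [[0, 1], [1, 1], [0]])) (ns_valid E.2 _ _) s18 (nat_lit 0xd01c01b03100c) 2 (by decide +kernel)
    (allS 1 (allS 0 all0 (t19 E)) (t32 E))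

theorem t17 (E : Env G) (hx : Ok g x17) : Goal g alts :=
  close_ok (ck_ok E.1 hx c17_0 all0) 0
    [4] (by decide +kernel)

theorem t16 (E : Env G) (hx : Ok g x16) : Goal g alts :=
  br_ok hx (ck_ok E.1 hx c16_0 all0) (c := (nsCl 3 [[0, 1, 2, 6], [4, 1, 3, 4], [0], [0, 1], [0, 1, 2]])) (ns_valid E.2 _ _) s16 (nat_lit 0x5e05d03205c01603a06506406306206106005f014) 8 (by decide +kernel)
    (allS 7 (allS 6 (allS 5 (allS 4 (allS 3 (allS 2 (allS 1 (allS 0 all0 (t17 E)) (t18 E)) (t45 E)) (t46 E)) (t47 E)) (t48 E)) (t49 E)) (t50 E))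

theorem t15 (E : Env G) (hx : Ok g x15) : Goal g alts :=
  close_ok (ck_ok E.1 hx c15_0 all0) 0
    [4] (by decide +kernel)

theorem t14 (E : Env G) (hx : Ok g x14) : Goal g alts :=
  br_ok hx (ck_ok E.1 hx c14_0 all0) (c := (nsCl 1 [[0, 1], [1, 1], [0]])) (ns_valid E.2 _ _) s14 (nat_lit 0x2503603503400e) 2 (by decide +kernel)
    (allS 1 (allS 0 all0 (t15 E)) (t16 E))

theorem t13 (E : Env G) (hx : Ok g x13) : Goal g alts :=
  close_ok (ck_ok E.1 hx c13_0 all0) 0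
    [4] (by decide +kernel)

theorem t12 (E : Env G) (hx : Ok g x12) : Goal g alts :=
  br_ok hx (ck_ok E.1 hx c12_0 all0) (c := (nsCl 2 [[0, 1, 3], [2, 1, 2], [0], [0, 1]])) (ns_valid E.2 _ _) s12 (nat_lit 0x5905805705e05d05c05b05a015) 4 (by decide +kernel)
    (allS 3 (allS 2 (allS 1 (allS 0 all0 (t13 E)) (t14 E)) (t51 E)) (t52 E))

theorem t11 (E : Env G) (hx : Ok g x11) : Goal g alts :=
  close_ok (ck_ok E.1 hx c11_0 all0) 0
    [4] (by decide +kernel)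

theorem t10 (E : Env G) (hx : Ok g x10) : Goal g alts :=
  br_ok hx (ck_ok E.1 hx c10_0 all0) (c := (nsCl 1 [[1, 1], [0, 1], [0]])) (ns_valid E.2 _ _) s10 (nat_lit 0x53056015055054) 2 (by decide +kernel)
    (allS 1 (allS 0 all0 (t11 E)) (t12 E))

theorem t9 (E : Env G) (hx : Ok g x9) : Goal g alts :=
  close_ok (ck_ok E.1 hx c9_0 all0) 0
    [4] (by decide +kernel)

theorem t8 (E : Env G) (hx : Ok g x8) : Goal g alts :=
  br_ok hx (ck_ok E.1 hx c8_0 all0) (c := (nsCl 1 [[0, 1], [1, 1], [0]])) (ns_valid E.2 _ _) s8 (nat_lit 0x3503803703600e) 2 (by decide +kernel)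
    (allS 1 (allS 0 all0 (t9 E)) (t10 E))

theorem t7 (E : Env G) (hx : Ok g x7) : Goal g alts :=
  close_ok (ck_ok E.1 hx c7_0 all0) 0
    [4] (by decide +kernel)

theorem t6 (E : Env G) (hx : Ok g x6) : Goal g alts :=
  br_ok hx (ck_ok E.1 hx c6_0 all0) (c := (nsCl 2 [[2, 1, 2], [0, 1, 3], [0], [0, 1]])) (ns_valid E.2 _ _) s6 (nat_lit 0x4c04b03a05105002904f04e04d) 4 (by decide +kernel)
    (allS 3 (allS 2 (allS 1 (allS 0 all0 (t7 E)) (t8 E)) (t53 E)) (t56 E))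

theorem t5 (E : Env G) (hx : Ok g x5) : Goal g alts :=
  close_ok (ck_ok E.1 hx c5_0 all0) 0
    [4] (by decide +kernel)

theorem t4 (E : Env G) (hx : Ok g x4) : Goal g alts :=
  br_ok hx (ck_ok E.1 hx c4_0 all0) (c := (nsCl 1 [[0, 1], [1, 1], [0]])) (ns_valid E.2 _ _) s4 (nat_lit 0x3a05e05d05c014) 2 (by decide +kernel)
    (allS 1 (allS 0 all0 (t5 E)) (t6 E))

theorem t3 (E : Env G) (hx : Ok g x3) : Goal g alts :=
  close_ok (ck_ok E.1 hx c3_0 all0) 0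
    [10] (by decide +kernel)

theorem t2 (E : Env G) (hx : Ok g x2) : Goal g alts :=
  br_ok hx (ck_ok E.1 hx c2_0 all0) (c := (nsCl 1 [[1, 1], [0, 1], [0]])) (ns_valid E.2 _ _) s2 (nat_lit 0x1004601103b03a) 2 (by decide +kernel)
    (allS 1 (allS 0 all0 (t3 E)) (t4 E))

theorem t1 (E : Env G) (hx : Ok g x1) : Goal g alts :=
  close_ok (ck_ok E.1 hx c1_0 all0) 0
    [10] (by decide +kernel)

theorem t0 (E : Env G) (hx : Ok g x0) : Goal g alts :=
  br_ok hx (ck_ok E.1 hx c0_13 (ck_ok E.1 hx c0_12 (ck_ok E.1 hx c0_11 (ck_ok E.1 hx c0_10 (ck_ok E.1 hx c0_9 (ck_ok E.1 hx c0_8 (ck_ok E.1 hx c0_7 (ck_ok E.1 hx c0_6 (ck_ok E.1 hx c0_5 (ck_ok E.1 hx c0_4 (ck_ok E.1 hx c0_3 (ck_ok E.1 hx c0_2 (ck_ok E.1 hx c0_1 (ck_ok E.1 hx c0_0 all0)))))))))))))) (c := (nsCl 1 [[1, 1], [0, 1], [0]])) (ns_valid E.2 _ _) s0 (nat_lit 0xcb93b0de93a939) 2 (by decide +kernel)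
    (allS 1 (allS 0 all0 (t1 E)) (t2 E))

theorem valid (E : Env G) : ValidC G cl :=
  ext_ok (ds := ds) 13 (fun _ hh => t0 E (rt_ok (by decide +kernel) hh)) (by decide +kernel)

end Pool.Agent.Lib.MP_3b0e0c_al.D.H1
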