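import Pool.Agent.Lib.MP_3b0e0c_al.D.NS

namespace Pool.Agent.Lib.MP_3b0e0c_al.D.H1

open S

/-- Hypotheses. -/
def hy : List (List ℕ × List ℕ) := [([0, 0], []),
  ([1, 1], []),
  ([2, 2], []),
  ([3, 3], []),
  ([3, 0], [0, 3]),
  ([2, 1, 2, 1], [12]),
  ([4], [1, 0, 1, 0]),
  ([5], [2, 0, 2, 0]),
  ([6], [3, 1, 3, 1]),
  ([7], [3, 2, 3, 2]),
  ([8], [5, 1, 5, 1]),
  ([9], [6, 0, 6, 0]),
  ([10], [7, 0, 7, 0]),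
  ([11], [7, 1, 7, 1]),
  ([12], [8, 0, 8, 0])]

/-- Definitions. -/
def ds : List (List ℕ × List ℕ) := [([13], [9, 2, 9, 2]),
  ([14], [10, 1, 10, 1]),
  ([15], [11, 0, 11, 0]),
  ([16], [11, 3, 11, 3]),
  ([17], [13, 0, 13, 0]),
  ([18], [14, 0, 14, 0]),
  ([19], [14, 3, 14, 3]),
  ([20], [15, 1, 15, 1]),
  ([21], [15, 2, 15, 2]),
  ([22], [16, 0, 16, 0]),
  ([23], [17, 1, 17, 1]),
  ([24], [18, 2, 18, 2]),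
  ([25], [22, 1, 22, 1]),
  ([26], [22, 2, 22, 2])]

/-- Alternatives. -/
def alts : List (List (List ℕ × List ℕ)) := [[([2, 1], [1, 2])],
  [([9], [10, 12])],
  [([12, 10], [10, 12]),
  ([12, 7], [7, 12]),
  ([10, 8], [8, 10]),
  ([10, 4], [4, 10]),
  ([12, 3], [3, 12]),
  ([10, 1], [1, 10]),
  ([8, 7], [7, 8]),
  ([8, 3], [3, 8]),
  ([7, 4], [4, 7]),
  ([11], []),
  ([6], [7]),
  ([9], [10])],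
  [([9], [10, 12])],
  [([12, 10], [10, 12]),
  ([12, 6], [6, 12]),
  ([12, 7], [7, 12]),
  ([11, 10], [10, 11]),
  ([12, 3], [3, 12]),
  ([10, 1], [1, 10]),
  ([10, 6], [6, 10]),
  ([11, 3], [3, 11, 12]),
  ([11, 0], [0, 11, 12]),
  ([6, 5], [5, 6, 12]),
  ([8], [11]),
  ([4], [5, 6, 7, 12]),
  ([9], [10])]]

/-- The clause. -/
def cl : Cl := ⟨hy, alts⟩

/-- The theories used. -/
def ths : List Th := [R2, T3.th]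

set_option maxRecDepth 100000 in
/-- Facts. -/
noncomputable def d0 : Tr :=
(.nd (.nd (.nd (.nd (.nd (.nd (.nd (.nd (.nd (.nd (.nd (.nd (.lf ⟨(nat_lit 65), (nat_lit 2), (nat_lit 0), (nat_lit 0)⟩)
(.lf ⟨(nat_lit 0x25a257), (nat_lit 4), (nat_lit 0x5c9689), (nat_lit 4)⟩))
(.lf ⟨(nat_lit 6), (nat_lit 1), (nat_lit 0xc10c1), (nat_lit 4)⟩))
(.nd (.lf ⟨(nat_lit 0x30804c201), (nat_lit 6), (nat_lit 0x4c201308), (nat_lit 6)⟩)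
(.lf ⟨(nat_lit 0), (nat_lit 0), (nat_lit 0x443443), (nat_lit 4)⟩)))
(.nd (.nd (.nd (.lf ⟨(nat_lit 0x248248), (nat_lit 4), (nat_lit 0x209209), (nat_lit 4)⟩)
(.lf ⟨(nat_lit 657), (nat_lit 2), (nat_lit 0x44a), (nat_lit 2)⟩))
(.lf ⟨(nat_lit 0x115115), (nat_lit 4), (nat_lit 0x115115), (nat_lit 4)⟩))
(.nd (.lf ⟨(nat_lit 0x29828a29848660a18a29848660a18a60a28a61219828628a612198286), (nat_lit 38), (nat_lit 0x29828a29848660a18a29848660a18a60a28a61219828628a612198286), (nat_lit 38)⟩)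
(.lf ⟨(nat_lit 0), (nat_lit 0), (nat_lit 0x15634958d24558d256349), (nat_lit 14)⟩))))
(.nd (.nd (.nd (.nd (.lf ⟨(nat_lit 0x107107), (nat_lit 4), (nat_lit 0x1c41c4), (nat_lit 4)⟩)
(.lf ⟨(nat_lit 0x7391), (nat_lit 3), (nat_lit 0xe44e1ce), (nat_lit 5)⟩))
(.lf ⟨(nat_lit 0), (nat_lit 0), (nat_lit 0x8a24a242289289), (nat_lit 10)⟩))
(.nd (.lf ⟨(nat_lit 0x343343), (nat_lit 4), (nat_lit 0), (nat_lit 0)⟩)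
(.lf ⟨(nat_lit 0x18430930824810c24c20920610c24c209204309308248), (nat_lit 30), (nat_lit 0x18430930824810c24c20920610c24c209204309308248), (nat_lit 30)⟩)))
(.nd (.nd (.lf ⟨(nat_lit 83), (nat_lit 2), (nat_lit 0x4c1), (nat_lit 2)⟩)
(.lf ⟨(nat_lit 0x515), (nat_lit 2), (nat_lit 0x554), (nat_lit 2)⟩))
(.nd (.lf ⟨(nat_lit 0x288288), (nat_lit 4), (nat_lit 0x288288), (nat_lit 4)⟩)
(.lf ⟨(nat_lit 0xe6d739b), (nat_lit 5), (nat_lit 0x1b39b5ce), (nat_lit 5)⟩)))))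
(.nd (.nd (.nd (.nd (.nd (.lf ⟨(nat_lit 268), (nat_lit 2), (nat_lit 0x11304), (nat_lit 3)⟩)
(.lf ⟨(nat_lit 0x25b617), (nat_lit 4), (nat_lit 0x6d758e59840e409), (nat_lit 10)⟩))
(.lf ⟨(nat_lit 0x1c2591591087096456442), (nat_lit 14), (nat_lit 0x1c2591591087096456442), (nat_lit 14)⟩))
(.nd (.lf ⟨(nat_lit 0x835030b), (nat_lit 5), (nat_lit 0xd40b34834c), (nat_lit 7)⟩)
(.lf ⟨(nat_lit 0x156442591085591096442), (nat_lit 14), (nat_lit 0x156442591085591096442), (nat_lit 14)⟩)))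
(.nd (.nd (.lf ⟨(nat_lit 0x14e14e), (nat_lit 4), (nat_lit 0x385385), (nat_lit 4)⟩)
(.lf ⟨(nat_lit 724), (nat_lit 2), (nat_lit 0x50b), (nat_lit 2)⟩))
(.nd (.lf ⟨(nat_lit 0x1c82881c8288), (nat_lit 8), (nat_lit 0x1ca20a207288288), (nat_lit 10)⟩)
(.lf ⟨(nat_lit 0x51a), (nat_lit 2), (nat_lit 0x694), (nat_lit 2)⟩))))
(.nd (.nd (.nd (.nd (.lf ⟨(nat_lit 0x381381), (nat_lit 4), (nat_lit 0x4e04e), (nat_lit 4)⟩)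
(.lf ⟨(nat_lit 0x350390389), (nat_lit 6), (nat_lit 0x15b0c56c3), (nat_lit 6)⟩))
(.lf ⟨(nat_lit 0x2040d12d12c344b44b2040d12d12c344b44b), (nat_lit 24), (nat_lit 0x2040d12d12c344b44b2040d12d12c344b44b), (nat_lit 24)⟩))
(.nd (.lf ⟨(nat_lit 0x385385), (nat_lit 4), (nat_lit 0x14e14e), (nat_lit 4)⟩)
(.lf ⟨(nat_lit 0xf6123d2), (nat_lit 5), (nat_lit 0x123d848f), (nat_lit 5)⟩)))
(.nd (.nd (.lf ⟨(nat_lit 0x15540c), (nat_lit 4), (nat_lit 0x10305), (nat_lit 3)⟩)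
(.lf ⟨(nat_lit 399), (nat_lit 2), (nat_lit 0x1934f2cd2c6), (nat_lit 7)⟩))
(.nd (.lf ⟨(nat_lit 0x3913960ce44a44e2960ce44a44e28e44e58339129138a58339129138a), (nat_lit 38), (nat_lit 0x3913960ce44a44e2960ce44a44e28e44e58339129138a58339129138a), (nat_lit 38)⟩)
(.lf ⟨(nat_lit 0x12598496), (nat_lit 5), (nat_lit 0x18598496612), (nat_lit 7)⟩))))))
(.nd (.nd (.nd (.nd (.nd (.nd (.lf ⟨(nat_lit 0x43043), (nat_lit 4), (nat_lit 0xc10c1), (nat_lit 4)⟩)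
(.lf ⟨(nat_lit 983), (nat_lit 2), (nat_lit 0x5cf), (nat_lit 2)⟩))
(.lf ⟨(nat_lit 0), (nat_lit 0), (nat_lit 0x555), (nat_lit 2)⟩))
(.nd (.lf ⟨(nat_lit 145), (nat_lit 2), (nat_lit 0x442), (nat_lit 2)⟩)
(.lf ⟨(nat_lit 0x30c2d130b), (nat_lit 6), (nat_lit 0x30b44c2cc), (nat_lit 6)⟩)))
(.nd (.nd (.nd (.lf ⟨(nat_lit 0x542542), (nat_lit 4), (nat_lit 0x95095), (nat_lit 4)⟩)
(.lf ⟨(nat_lit 391), (nat_lit 2), (nat_lit 0x6d85c91d655235038b34b246), (nat_lit 16)⟩))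
(.lf ⟨(nat_lit 0x417), (nat_lit 2), (nat_lit 0x5d0), (nat_lit 2)⟩))
(.nd (.lf ⟨(nat_lit 7), (nat_lit 1), (nat_lit 0x10a084282), (nat_lit 6)⟩)
(.lf ⟨(nat_lit 0xe653), (nat_lit 3), (nat_lit 0x194d848d3d848d3ce), (nat_lit 11)⟩))))
(.nd (.nd (.nd (.nd (.lf ⟨(nat_lit 0x2030480c1), (nat_lit 6), (nat_lit 0x480c1203), (nat_lit 6)⟩)
(.lf ⟨(nat_lit 0), (nat_lit 0), (nat_lit 0x5832160c8), (nat_lit 6)⟩))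
(.lf ⟨(nat_lit 0xf55030b4133cc2d0), (nat_lit 11), (nat_lit 0x1540c2d04cf30b40f), (nat_lit 11)⟩))
(.nd (.lf ⟨(nat_lit 0xa352), (nat_lit 3), (nat_lit 0xd48d28d), (nat_lit 5)⟩)
(.lf ⟨(nat_lit 0x5cd605), (nat_lit 4), (nat_lit 0x5d85cd40a41828d6055cd), (nat_lit 14)⟩)))
(.nd (.nd (.lf ⟨(nat_lit 0x53cb), (nat_lit 3), (nat_lit 0x4cf2c5), (nat_lit 4)⟩)
(.lf ⟨(nat_lit 596), (nat_lit 2), (nat_lit 0x509), (nat_lit 2)⟩))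
(.nd (.lf ⟨(nat_lit 0x21721b), (nat_lit 4), (nat_lit 0x6c85c8), (nat_lit 4)⟩)
(.lf ⟨(nat_lit 0x20d28d28834a34a), (nat_lit 10), (nat_lit 0x20d28d28834a34a), (nat_lit 10)⟩)))))
(.nd (.nd (.nd (.nd (.nd (.lf ⟨(nat_lit 0x6db), (nat_lit 2), (nat_lit 0), (nat_lit 0)⟩)
(.lf ⟨(nat_lit 0xc391), (nat_lit 3), (nat_lit 0xe44e30e), (nat_lit 5)⟩))
(.lf ⟨(nat_lit 0x6c26c2), (nat_lit 4), (nat_lit 0x6c26c2), (nat_lit 4)⟩))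
(.nd (.lf ⟨(nat_lit 0x96082582), (nat_lit 6), (nat_lit 0), (nat_lit 0)⟩)
(.lf ⟨(nat_lit 0xd41035040d4103504), (nat_lit 12), (nat_lit 0), (nat_lit 0)⟩)))
(.nd (.nd (.lf ⟨(nat_lit 0x24c24c), (nat_lit 4), (nat_lit 0x309309), (nat_lit 4)⟩)
(.lf ⟨(nat_lit 0x834c212), (nat_lit 5), (nat_lit 0x1345245320d308), (nat_lit 9)⟩))
(.nd (.lf ⟨(nat_lit 283), (nat_lit 2), (nat_lit 0x5c86d7204), (nat_lit 6)⟩)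
(.lf ⟨(nat_lit 0xa40f30b), (nat_lit 5), (nat_lit 0x6944143cc2ca), (nat_lit 8)⟩))))
(.nd (.nd (.nd (.nd (.lf ⟨(nat_lit 0x2c10cb043), (nat_lit 6), (nat_lit 0xcb0432c1), (nat_lit 6)⟩)
(.lf ⟨(nat_lit 475), (nat_lit 2), (nat_lit 0x6c7), (nat_lit 2)⟩))
(.lf ⟨(nat_lit 0x10350), (nat_lit 3), (nat_lit 0x150190150190), (nat_lit 8)⟩))
(.nd (.lf ⟨(nat_lit 0x407407), (nat_lit 4), (nat_lit 0x407407), (nat_lit 4)⟩)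
(.lf ⟨(nat_lit 0x44339b5d239b5d10ce6d748e6d7), (nat_lit 18), (nat_lit 0x44339b5d239b5d10ce6d748e6d7), (nat_lit 18)⟩)))
(.nd (.nd (.lf ⟨(nat_lit 70), (nat_lit 2), (nat_lit 385), (nat_lit 2)⟩)
(.lf ⟨(nat_lit 0x9590256), (nat_lit 5), (nat_lit 0x16256409), (nat_lit 5)⟩))
(.nd (.lf ⟨(nat_lit 274), (nat_lit 2), (nat_lit 0x484), (nat_lit 2)⟩)
(.lf ⟨(nat_lit 9), (nat_lit 1), (nat_lit 0x18558549), (nat_lit 5)⟩)))))))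
(.nd (.nd (.nd (.nd (.nd (.nd (.nd (.lf ⟨(nat_lit 16), (nat_lit 1), (nat_lit 0x4c04c), (nat_lit 4)⟩)
(.lf ⟨(nat_lit 18), (nat_lit 1), (nat_lit 0x381381), (nat_lit 4)⟩))
(.lf ⟨(nat_lit 0x954d255), (nat_lit 5), (nat_lit 0x15255349), (nat_lit 5)⟩))
(.nd (.lf ⟨(nat_lit 723), (nat_lit 2), (nat_lit 0x4cb), (nat_lit 2)⟩)
(.lf ⟨(nat_lit 0x58a58a58a58a), (nat_lit 8), (nat_lit 0), (nat_lit 0)⟩)))
(.nd (.nd (.nd (.lf ⟨(nat_lit 0x514), (nat_lit 2), (nat_lit 0), (nat_lit 0)⟩)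
(.lf ⟨(nat_lit 0), (nat_lit 0), (nat_lit 0x8f3823ce), (nat_lit 6)⟩))
(.lf ⟨(nat_lit 0x445445), (nat_lit 4), (nat_lit 0x445445), (nat_lit 4)⟩))
(.nd (.lf ⟨(nat_lit 328), (nat_lit 2), (nat_lit 0x5504cf40c2d030b205), (nat_lit 12)⟩)
(.lf ⟨(nat_lit 0x5a61269205a612692), (nat_lit 12), (nat_lit 0x5a61269205a612692), (nat_lit 12)⟩))))
(.nd (.nd (.nd (.nd (.lf ⟨(nat_lit 585), (nat_lit 2), (nat_lit 0), (nat_lit 0)⟩)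
(.lf ⟨(nat_lit 0), (nat_lit 0), (nat_lit 0x11b44e44e11b44e44e), (nat_lit 12)⟩))
(.lf ⟨(nat_lit 0), (nat_lit 0), (nat_lit 0x44c44c), (nat_lit 4)⟩))
(.nd (.lf ⟨(nat_lit 0x256249589), (nat_lit 6), (nat_lit 0), (nat_lit 0)⟩)
(.lf ⟨(nat_lit 859), (nat_lit 2), (nat_lit 0x6cd), (nat_lit 2)⟩)))
(.nd (.nd (.lf ⟨(nat_lit 458), (nat_lit 2), (nat_lit 647), (nat_lit 2)⟩)
(.lf ⟨(nat_lit 0x835b), (nat_lit 3), (nat_lit 0xd31b5d15904565d141130b44b34b44b20d), (nat_lit 23)⟩))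
(.nd (.lf ⟨(nat_lit 0x44344844344a44344a2110d12910d12910d12110d12910d128844344a44344a), (nat_lit 42), (nat_lit 0x44344844344a44344a2110d12910d12910d12110d12910d128844344a44344a), (nat_lit 42)⟩)
(.lf ⟨(nat_lit 0x165d9), (nat_lit 3), (nat_lit 0x196d95d96d7597), (nat_lit 9)⟩)))))
(.nd (.nd (.nd (.nd (.nd (.lf ⟨(nat_lit 0xd00d0), (nat_lit 4), (nat_lit 0x403403), (nat_lit 4)⟩)
(.lf ⟨(nat_lit 0x41b), (nat_lit 2), (nat_lit 0x6d0), (nat_lit 2)⟩))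
(.lf ⟨(nat_lit 0x247247), (nat_lit 4), (nat_lit 0x871871821c61c6), (nat_lit 10)⟩))
(.nd (.lf ⟨(nat_lit 0xca043281), (nat_lit 6), (nat_lit 0x2810ca043), (nat_lit 6)⟩)
(.lf ⟨(nat_lit 0x28c60c28c60c), (nat_lit 8), (nat_lit 0x28c60c28c60c), (nat_lit 8)⟩)))
(.nd (.nd (.lf ⟨(nat_lit 0x1cf1cf), (nat_lit 4), (nat_lit 0x3c73c7), (nat_lit 4)⟩)
(.lf ⟨(nat_lit 345), (nat_lit 2), (nat_lit 0x25934f34f245), (nat_lit 8)⟩))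
(.nd (.lf ⟨(nat_lit 0x590256409409409), (nat_lit 10), (nat_lit 0xd0250243409409), (nat_lit 10)⟩)
(.lf ⟨(nat_lit 667), (nat_lit 2), (nat_lit 0x5ce6d738a), (nat_lit 6)⟩))))
(.nd (.nd (.nd (.nd (.lf ⟨(nat_lit 0x8e08e), (nat_lit 4), (nat_lit 0x382382), (nat_lit 4)⟩)
(.lf ⟨(nat_lit 0), (nat_lit 0), (nat_lit 0x483388483388), (nat_lit 8)⟩))
(.lf ⟨(nat_lit 0), (nat_lit 0), (nat_lit 0x3d44d44cf513513), (nat_lit 10)⟩))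
(.nd (.lf ⟨(nat_lit 0x1016876971d705a1da5c75c405a1da5c75c16876971d7), (nat_lit 30), (nat_lit 0x1016876971d705a1da5c75c405a1da5c75c16876971d7), (nat_lit 30)⟩)
(.lf ⟨(nat_lit 0), (nat_lit 0), (nat_lit 0x596), (nat_lit 2)⟩)))
(.nd (.nd (.lf ⟨(nat_lit 0x148349), (nat_lit 4), (nat_lit 0x20d248148), (nat_lit 6)⟩)
(.lf ⟨(nat_lit 0x764a1d9), (nat_lit 5), (nat_lit 0xe6533931d9287), (nat_lit 9)⟩))
(.nd (.lf ⟨(nat_lit 0xb44f2d1), (nat_lit 5), (nat_lit 0xf44f2d13cb), (nat_lit 7)⟩)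
(.lf ⟨(nat_lit 0), (nat_lit 0), (nat_lit 0x95255242549549), (nat_lit 10)⟩))))))
(.nd (.nd (.nd (.nd (.nd (.nd (.lf ⟨(nat_lit 715), (nat_lit 2), (nat_lit 0), (nat_lit 0)⟩)
(.lf ⟨(nat_lit 987), (nat_lit 2), (nat_lit 0x6d651650f), (nat_lit 6)⟩))
(.lf ⟨(nat_lit 0x610d2cd184), (nat_lit 7), (nat_lit 0x18d10d106344344), (nat_lit 10)⟩))
(.nd (.lf ⟨(nat_lit 0x3cd3cd), (nat_lit 4), (nat_lit 0x34f34f), (nat_lit 4)⟩)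
(.lf ⟨(nat_lit 538), (nat_lit 2), (nat_lit 0x6943d141444f45051141444f30b44f4502d1308), (nat_lit 26)⟩)))
(.nd (.nd (.nd (.lf ⟨(nat_lit 0x416416), (nat_lit 4), (nat_lit 0x590590), (nat_lit 4)⟩)
(.lf ⟨(nat_lit 399), (nat_lit 2), (nat_lit 0x193c6), (nat_lit 3)⟩))
(.lf ⟨(nat_lit 0), (nat_lit 0), (nat_lit 0x9a1da1c2687687), (nat_lit 10)⟩))
(.nd (.lf ⟨(nat_lit 0x1da1da), (nat_lit 4), (nat_lit 0x687687), (nat_lit 4)⟩)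
(.lf ⟨(nat_lit 0x497), (nat_lit 2), (nat_lit 0x5d2), (nat_lit 2)⟩))))
(.nd (.nd (.nd (.nd (.lf ⟨(nat_lit 0xcb0cb), (nat_lit 4), (nat_lit 0x2c32c3), (nat_lit 4)⟩)
(.lf ⟨(nat_lit 599), (nat_lit 2), (nat_lit 0x5d6490396490389), (nat_lit 10)⟩))
(.lf ⟨(nat_lit 0x1cb1d13c72d13d12d11c72c744f1cb44f44b447), (nat_lit 26), (nat_lit 0x1cb1d13c72d13d12d11c72c744f1cb44f44b447), (nat_lit 26)⟩))
(.nd (.lf ⟨(nat_lit 18), (nat_lit 1), (nat_lit 0x4e04e), (nat_lit 4)⟩)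
(.lf ⟨(nat_lit 0x38d0ce28838a20d0ce28838a20e34338a20e28834338a20e288), (nat_lit 34), (nat_lit 0x38d0ce28838a20d0ce28838a20e34338a20e28834338a20e288), (nat_lit 34)⟩)))
(.nd (.nd (.lf ⟨(nat_lit 90), (nat_lit 2), (nat_lit 0x15a5c55c1), (nat_lit 6)⟩)
(.lf ⟨(nat_lit 0x938a), (nat_lit 3), (nat_lit 0x60d38d289), (nat_lit 6)⟩))
(.nd (.lf ⟨(nat_lit 0), (nat_lit 0), (nat_lit 0x5d1117444), (nat_lit 6)⟩)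
(.lf ⟨(nat_lit 0x1835503cc2cc2c60d540f30b30b), (nat_lit 18), (nat_lit 0x1835503cc2cc2c60d540f30b30b), (nat_lit 18)⟩)))))
(.nd (.nd (.nd (.nd (.nd (.lf ⟨(nat_lit 200), (nat_lit 2), (nat_lit 0x108108108103), (nat_lit 8)⟩)
(.lf ⟨(nat_lit 602), (nat_lit 2), (nat_lit 0x689), (nat_lit 2)⟩))
(.lf ⟨(nat_lit 0), (nat_lit 0), (nat_lit 0x3c524f149), (nat_lit 6)⟩))
(.nd (.lf ⟨(nat_lit 0x540f2d5), (nat_lit 5), (nat_lit 0x1540b54f2d540540b), (nat_lit 11)⟩)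
(.lf ⟨(nat_lit 0xf44c2d12cc), (nat_lit 7), (nat_lit 0x1130b44b30f), (nat_lit 7)⟩)))
(.nd (.nd (.lf ⟨(nat_lit 69), (nat_lit 2), (nat_lit 0x18d18918d24614918d24624634918518d18918d246141), (nat_lit 30)⟩)
(.lf ⟨(nat_lit 0xa40b), (nat_lit 3), (nat_lit 0x135d35cb290), (nat_lit 7)⟩))
(.nd (.lf ⟨(nat_lit 0x3db3c73db3c7), (nat_lit 8), (nat_lit 0x3db3c73db3c7), (nat_lit 8)⟩)
(.lf ⟨(nat_lit 0x9608e28258238a), (nat_lit 10), (nat_lit 0x38a09608e282582), (nat_lit 10)⟩))))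
(.nd (.nd (.nd (.nd (.lf ⟨(nat_lit 0x306306), (nat_lit 4), (nat_lit 0x18c18c), (nat_lit 4)⟩)
(.lf ⟨(nat_lit 0x2c1592), (nat_lit 4), (nat_lit 0x5922c1), (nat_lit 4)⟩))
(.lf ⟨(nat_lit 0x8351), (nat_lit 3), (nat_lit 0xd44d20d), (nat_lit 5)⟩))
(.nd (.lf ⟨(nat_lit 0x4cd3cd4cd3cd), (nat_lit 8), (nat_lit 0x4cd3cd3d334f34f), (nat_lit 10)⟩)
(.lf ⟨(nat_lit 854), (nat_lit 2), (nat_lit 0x58d), (nat_lit 2)⟩)))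
(.nd (.nd (.lf ⟨(nat_lit 460), (nat_lit 2), (nat_lit 775), (nat_lit 2)⟩)
(.lf ⟨(nat_lit 586), (nat_lit 2), (nat_lit 0x18289), (nat_lit 3)⟩))
(.nd (.lf ⟨(nat_lit 0x4c74c74c74c7), (nat_lit 8), (nat_lit 0x1131d31c44c74c7), (nat_lit 10)⟩)
(.lf ⟨(nat_lit 0), (nat_lit 0), (nat_lit 0x31240c490), (nat_lit 6)⟩))))))))
(.nd (.nd (.nd (.nd (.nd (.nd (.nd (.nd (.lf ⟨(nat_lit 7), (nat_lit 1), (nat_lit 0x84084), (nat_lit 4)⟩)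
(.lf ⟨(nat_lit 598), (nat_lit 2), (nat_lit 0x589), (nat_lit 2)⟩))
(.lf ⟨(nat_lit 0x155246546), (nat_lit 6), (nat_lit 0x549195185), (nat_lit 6)⟩))
(.nd (.lf ⟨(nat_lit 0x3080cc203), (nat_lit 6), (nat_lit 0xcc203308), (nat_lit 6)⟩)
(.lf ⟨(nat_lit 0x581581), (nat_lit 4), (nat_lit 0x581581), (nat_lit 4)⟩)))
(.nd (.nd (.nd (.lf ⟨(nat_lit 0x203101203101), (nat_lit 8), (nat_lit 0x101203101203), (nat_lit 8)⟩)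
(.lf ⟨(nat_lit 0x282181282181), (nat_lit 8), (nat_lit 0x181282181282), (nat_lit 8)⟩))
(.lf ⟨(nat_lit 0x34b34b), (nat_lit 4), (nat_lit 0x181646059), (nat_lit 6)⟩))
(.nd (.lf ⟨(nat_lit 0x142215215142215215), (nat_lit 12), (nat_lit 0x142215215142215215), (nat_lit 12)⟩)
(.lf ⟨(nat_lit 0x10351b5d46d70c40d46d751b5c3), (nat_lit 18), (nat_lit 0x10351b5d46d70c40d46d751b5c3), (nat_lit 18)⟩))))
(.nd (.nd (.nd (.nd (.lf ⟨(nat_lit 0x1c31c3), (nat_lit 4), (nat_lit 0xc70c7), (nat_lit 4)⟩)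
(.lf ⟨(nat_lit 0x3510), (nat_lit 3), (nat_lit 0x1b59140e44e414403), (nat_lit 11)⟩))
(.lf ⟨(nat_lit 408), (nat_lit 2), (nat_lit 0x48a25224a606), (nat_lit 8)⟩))
(.nd (.lf ⟨(nat_lit 0x628d), (nat_lit 3), (nat_lit 0xa34a18a), (nat_lit 5)⟩)
(.lf ⟨(nat_lit 0x683683), (nat_lit 4), (nat_lit 0xda0da), (nat_lit 4)⟩)))
(.nd (.nd (.lf ⟨(nat_lit 70), (nat_lit 2), (nat_lit 0x20b18b2062c82c818b2062c82c818b18818b20b2062c62062c82c818b18818b20b2062c818b20b2062c6201), (nat_lit 58)⟩)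
(.lf ⟨(nat_lit 0x19b5d1), (nat_lit 4), (nat_lit 0x17446), (nat_lit 3)⟩))
(.nd (.lf ⟨(nat_lit 0x8542), (nat_lit 3), (nat_lit 0x315088), (nat_lit 4)⟩)
(.lf ⟨(nat_lit 278), (nat_lit 2), (nat_lit 0x1b5c859730b30b204), (nat_lit 11)⟩)))))
(.nd (.nd (.nd (.nd (.nd (.lf ⟨(nat_lit 0x4d3), (nat_lit 2), (nat_lit 0), (nat_lit 0)⟩)
(.lf ⟨(nat_lit 212), (nat_lit 2), (nat_lit 0x1b511391383), (nat_lit 7)⟩))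
(.lf ⟨(nat_lit 0x641642642059099099059099081642642), (nat_lit 22), (nat_lit 0x641642642059099099059099081642642), (nat_lit 22)⟩))
(.nd (.lf ⟨(nat_lit 0x28628a18a), (nat_lit 6), (nat_lit 0), (nat_lit 0)⟩)
(.lf ⟨(nat_lit 0x30b30b), (nat_lit 4), (nat_lit 0x3102cc40b), (nat_lit 6)⟩)))
(.nd (.nd (.lf ⟨(nat_lit 0x18e18e), (nat_lit 4), (nat_lit 0x386386), (nat_lit 4)⟩)
(.lf ⟨(nat_lit 0x20920d), (nat_lit 4), (nat_lit 0x348248), (nat_lit 4)⟩))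
(.nd (.lf ⟨(nat_lit 0xca34928d24328d24a349), (nat_lit 14), (nat_lit 0xca34928d24328d24a349), (nat_lit 14)⟩)
(.lf ⟨(nat_lit 0x456), (nat_lit 2), (nat_lit 0x591), (nat_lit 2)⟩))))
(.nd (.nd (.nd (.nd (.lf ⟨(nat_lit 0x451), (nat_lit 2), (nat_lit 0), (nat_lit 0)⟩)
(.lf ⟨(nat_lit 0x29128d), (nat_lit 4), (nat_lit 0x35139140f39140f39138a44a), (nat_lit 16)⟩))
(.lf ⟨(nat_lit 0), (nat_lit 0), (nat_lit 0x586586), (nat_lit 4)⟩))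
(.nd (.lf ⟨(nat_lit 88), (nat_lit 2), (nat_lit 0x612152141), (nat_lit 6)⟩)
(.lf ⟨(nat_lit 0x88590216402216408590), (nat_lit 14), (nat_lit 0x88590216402216408590), (nat_lit 14)⟩)))
(.nd (.nd (.lf ⟨(nat_lit 266), (nat_lit 2), (nat_lit 0x1c528714a1c5287144), (nat_lit 12)⟩)
(.lf ⟨(nat_lit 0x64f64f), (nat_lit 4), (nat_lit 0), (nat_lit 0)⟩))
(.nd (.lf ⟨(nat_lit 0x914174505c24505d1417), (nat_lit 14), (nat_lit 0x914174505c24505d1417), (nat_lit 14)⟩)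
(.lf ⟨(nat_lit 0x65b), (nat_lit 2), (nat_lit 0x6d9), (nat_lit 2)⟩))))))
(.nd (.nd (.nd (.nd (.nd (.nd (.lf ⟨(nat_lit 196), (nat_lit 2), (nat_lit 0x8103), (nat_lit 3)⟩)
(.lf ⟨(nat_lit 0x418), (nat_lit 2), (nat_lit 0x610), (nat_lit 2)⟩))
(.lf ⟨(nat_lit 0x28d24e34938a28d24e34938a), (nat_lit 16), (nat_lit 0), (nat_lit 0)⟩))
(.nd (.lf ⟨(nat_lit 0x34914d245), (nat_lit 6), (nat_lit 0), (nat_lit 0)⟩)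
(.lf ⟨(nat_lit 0x2c4450450), (nat_lit 6), (nat_lit 0x4504502c4), (nat_lit 6)⟩)))
(.nd (.nd (.nd (.lf ⟨(nat_lit 0x401401), (nat_lit 4), (nat_lit 0), (nat_lit 0)⟩)
(.lf ⟨(nat_lit 0x48185206141206148185), (nat_lit 14), (nat_lit 0x48185206141206148185), (nat_lit 14)⟩))
(.lf ⟨(nat_lit 0x9590250), (nat_lit 5), (nat_lit 0x16409590256), (nat_lit 7)⟩))
(.nd (.lf ⟨(nat_lit 0x1d71da), (nat_lit 4), (nat_lit 0x6875c7), (nat_lit 4)⟩)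
(.lf ⟨(nat_lit 911), (nat_lit 2), (nat_lit 0x4d23d234e4cd), (nat_lit 8)⟩))))
(.nd (.nd (.nd (.nd (.lf ⟨(nat_lit 0x181181), (nat_lit 4), (nat_lit 0), (nat_lit 0)⟩)
(.lf ⟨(nat_lit 0x40e40e), (nat_lit 4), (nat_lit 0x4e30e30138c38c), (nat_lit 10)⟩))
(.lf ⟨(nat_lit 981), (nat_lit 2), (nat_lit 0x54f), (nat_lit 2)⟩))
(.nd (.lf ⟨(nat_lit 0x14a20a205288288), (nat_lit 10), (nat_lit 0x14a20a205288288), (nat_lit 10)⟩)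
(.lf ⟨(nat_lit 0x41a), (nat_lit 2), (nat_lit 0x55a550), (nat_lit 4)⟩)))
(.nd (.nd (.lf ⟨(nat_lit 84), (nat_lit 2), (nat_lit 0xf11350f113501), (nat_lit 9)⟩)
(.lf ⟨(nat_lit 985), (nat_lit 2), (nat_lit 0x64f), (nat_lit 2)⟩))
(.nd (.lf ⟨(nat_lit 663), (nat_lit 2), (nat_lit 0x5ca), (nat_lit 2)⟩)
(.lf ⟨(nat_lit 795), (nat_lit 2), (nat_lit 0x65b64c), (nat_lit 4)⟩)))))
(.nd (.nd (.nd (.nd (.nd (.lf ⟨(nat_lit 0xc10c1), (nat_lit 4), (nat_lit 0x43043), (nat_lit 4)⟩)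
(.lf ⟨(nat_lit 0x583699583699), (nat_lit 8), (nat_lit 0x699583699583), (nat_lit 8)⟩))
(.lf ⟨(nat_lit 0x6c26c26c26c2), (nat_lit 8), (nat_lit 0), (nat_lit 0)⟩))
(.nd (.lf ⟨(nat_lit 0x69705a5c1), (nat_lit 6), (nat_lit 0x5c169705a), (nat_lit 6)⟩)
(.lf ⟨(nat_lit 0x54954f2d524825520f2d52482552152553cb5492095483cb549209548), (nat_lit 38), (nat_lit 0x54954f2d524825520f2d52482552152553cb5492095483cb549209548), (nat_lit 38)⟩)))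
(.nd (.nd (.lf ⟨(nat_lit 0x2cc2cc), (nat_lit 4), (nat_lit 0x30b30b), (nat_lit 4)⟩)
(.lf ⟨(nat_lit 343), (nat_lit 2), (nat_lit 0x5d0290285), (nat_lit 6)⟩))
(.nd (.lf ⟨(nat_lit 0x475501d51501411d5407545405), (nat_lit 18), (nat_lit 0x475501d51501411d5407545405), (nat_lit 18)⟩)
(.lf ⟨(nat_lit 0x59759b), (nat_lit 4), (nat_lit 0x6d765b5d95d96d76565d6), (nat_lit 14)⟩))))
(.nd (.nd (.nd (.nd (.lf ⟨(nat_lit 0x344344), (nat_lit 4), (nat_lit 0x10d10d), (nat_lit 4)⟩)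
(.lf ⟨(nat_lit 0xb34c2cd), (nat_lit 5), (nat_lit 0x6cd30b34b), (nat_lit 6)⟩))
(.lf ⟨(nat_lit 0x640d190), (nat_lit 5), (nat_lit 0xd40d190346), (nat_lit 7)⟩))
(.nd (.lf ⟨(nat_lit 0x290290), (nat_lit 4), (nat_lit 0x40a40a), (nat_lit 4)⟩)
(.lf ⟨(nat_lit 21), (nat_lit 1), (nat_lit 0x90090), (nat_lit 4)⟩)))
(.nd (.nd (.lf ⟨(nat_lit 89), (nat_lit 2), (nat_lit 0x4c6653181), (nat_lit 6)⟩)
(.lf ⟨(nat_lit 0x31830c60c), (nat_lit 6), (nat_lit 0), (nat_lit 0)⟩))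
(.nd (.lf ⟨(nat_lit 0x18f30f30f30b30b18f30f30f30b30b), (nat_lit 20), (nat_lit 0x18f30f30f30b30b18f30f30f30b30b), (nat_lit 20)⟩)
(.lf ⟨(nat_lit 0x34a34a5d444a44a), (nat_lit 10), (nat_lit 0x68e68e5d444a44a34a34a), (nat_lit 14)⟩)))))))
(.nd (.nd (.nd (.nd (.nd (.nd (.nd (.lf ⟨(nat_lit 23), (nat_lit 1), (nat_lit 0x51051), (nat_lit 4)⟩)
(.lf ⟨(nat_lit 0x38a40e29038a40e290), (nat_lit 12), (nat_lit 0), (nat_lit 0)⟩))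
(.lf ⟨(nat_lit 0), (nat_lit 0), (nat_lit 0x2c12d030b40b30b2c12d030b40b30b), (nat_lit 20)⟩))
(.nd (.lf ⟨(nat_lit 213), (nat_lit 2), (nat_lit 0x854c14824834920520920d24814835530520d203), (nat_lit 27)⟩)
(.lf ⟨(nat_lit 0x3d83d2), (nat_lit 4), (nat_lit 0x48f60f), (nat_lit 4)⟩)))
(.nd (.nd (.nd (.lf ⟨(nat_lit 0x383383), (nat_lit 4), (nat_lit 0), (nat_lit 0)⟩)
(.lf ⟨(nat_lit 0x206548195), (nat_lit 6), (nat_lit 0x206548195), (nat_lit 6)⟩))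
(.lf ⟨(nat_lit 0x391391), (nat_lit 4), (nat_lit 0x44e44e), (nat_lit 4)⟩))
(.nd (.lf ⟨(nat_lit 0x4c94c9), (nat_lit 4), (nat_lit 0x253253), (nat_lit 4)⟩)
(.lf ⟨(nat_lit 13), (nat_lit 1), (nat_lit 0x990c2643), (nat_lit 6)⟩))))
(.nd (.nd (.nd (.nd (.lf ⟨(nat_lit 0x20b20b), (nat_lit 4), (nat_lit 0x2c82c8), (nat_lit 4)⟩)
(.lf ⟨(nat_lit 0x1b5534503913ce), (nat_lit 9), (nat_lit 0x215148545), (nat_lit 6)⟩))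
(.lf ⟨(nat_lit 0x9540c2d04cf30b40255030b4133cc2d0), (nat_lit 22), (nat_lit 0x9540c2d04cf30b40255030b4133cc2d0), (nat_lit 22)⟩))
(.nd (.lf ⟨(nat_lit 394), (nat_lit 2), (nat_lit 0x12286), (nat_lit 3)⟩)
(.lf ⟨(nat_lit 0x28d291), (nat_lit 4), (nat_lit 0x49735158b45631b5d131b48b34a34a), (nat_lit 20)⟩)))
(.nd (.nd (.lf ⟨(nat_lit 719), (nat_lit 2), (nat_lit 971), (nat_lit 2)⟩)
(.lf ⟨(nat_lit 0x356356), (nat_lit 4), (nat_lit 0x58d58d), (nat_lit 4)⟩))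
(.nd (.lf ⟨(nat_lit 0x2172875c72172875c7), (nat_lit 12), (nat_lit 0x2172875c72172875c7), (nat_lit 12)⟩)
(.lf ⟨(nat_lit 0), (nat_lit 0), (nat_lit 0xd9203648), (nat_lit 6)⟩)))))
(.nd (.nd (.nd (.nd (.nd (.lf ⟨(nat_lit 146), (nat_lit 2), (nat_lit 0x18482), (nat_lit 3)⟩)
(.lf ⟨(nat_lit 0x5d8), (nat_lit 2), (nat_lit 0x617), (nat_lit 2)⟩))
(.lf ⟨(nat_lit 0x1c91cb), (nat_lit 4), (nat_lit 0x24b247247), (nat_lit 6)⟩))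
(.nd (.lf ⟨(nat_lit 0x2c92cb24b), (nat_lit 6), (nat_lit 0), (nat_lit 0)⟩)
(.lf ⟨(nat_lit 0x558558), (nat_lit 4), (nat_lit 0x615615), (nat_lit 4)⟩)))
(.nd (.nd (.lf ⟨(nat_lit 0x20d20d), (nat_lit 4), (nat_lit 0x348348), (nat_lit 4)⟩)
(.lf ⟨(nat_lit 0x493), (nat_lit 2), (nat_lit 0x4d2), (nat_lit 2)⟩))
(.nd (.lf ⟨(nat_lit 0x21b21b5c85c8), (nat_lit 8), (nat_lit 0x1086c81086c8), (nat_lit 8)⟩)
(.lf ⟨(nat_lit 921), (nat_lit 2), (nat_lit 0x64e), (nat_lit 2)⟩))))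
(.nd (.nd (.nd (.nd (.lf ⟨(nat_lit 0xcf0cf), (nat_lit 4), (nat_lit 0x3c33c3), (nat_lit 4)⟩)
(.lf ⟨(nat_lit 0xe202), (nat_lit 3), (nat_lit 0x34c28d282388), (nat_lit 8)⟩))
(.lf ⟨(nat_lit 0xa34e), (nat_lit 3), (nat_lit 0xd38d28d), (nat_lit 5)⟩))
(.nd (.lf ⟨(nat_lit 0x1c61c6), (nat_lit 4), (nat_lit 0x187187), (nat_lit 4)⟩)
(.lf ⟨(nat_lit 0x1154d03cc2cc2c455340f30b30b), (nat_lit 18), (nat_lit 0x1154d03cc2cc2c455340f30b30b), (nat_lit 18)⟩)))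
(.nd (.nd (.lf ⟨(nat_lit 217), (nat_lit 2), (nat_lit 0x643), (nat_lit 2)⟩)
(.lf ⟨(nat_lit 0x691691), (nat_lit 4), (nat_lit 0), (nat_lit 0)⟩))
(.nd (.lf ⟨(nat_lit 0), (nat_lit 0), (nat_lit 0x28428a10a), (nat_lit 6)⟩)
(.lf ⟨(nat_lit 0), (nat_lit 0), (nat_lit 0x5453ca5453ca), (nat_lit 8)⟩))))))
(.nd (.nd (.nd (.nd (.nd (.nd (.lf ⟨(nat_lit 0x8b08b), (nat_lit 4), (nat_lit 0x2c22c2), (nat_lit 4)⟩)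
(.lf ⟨(nat_lit 0xe6d7), (nat_lit 3), (nat_lit 0x1739b), (nat_lit 3)⟩))
(.lf ⟨(nat_lit 0xa34b), (nat_lit 3), (nat_lit 0xd2cd28d), (nat_lit 5)⟩))
(.nd (.lf ⟨(nat_lit 0x2c62c6), (nat_lit 4), (nat_lit 0), (nat_lit 0)⟩)
(.lf ⟨(nat_lit 0), (nat_lit 0), (nat_lit 0x8e24e242389389), (nat_lit 10)⟩)))
(.nd (.nd (.nd (.lf ⟨(nat_lit 0x112112), (nat_lit 4), (nat_lit 0x484484), (nat_lit 4)⟩)
(.lf ⟨(nat_lit 405), (nat_lit 2), (nat_lit 0x546), (nat_lit 2)⟩))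
(.lf ⟨(nat_lit 0), (nat_lit 0), (nat_lit 0xc30c3), (nat_lit 4)⟩))
(.nd (.lf ⟨(nat_lit 0), (nat_lit 0), (nat_lit 0x492), (nat_lit 2)⟩)
(.lf ⟨(nat_lit 0x11597), (nat_lit 3), (nat_lit 0x196d765b5d65d66d765b5d9456), (nat_lit 17)⟩))))
(.nd (.nd (.nd (.nd (.lf ⟨(nat_lit 0x148148), (nat_lit 4), (nat_lit 0x205205), (nat_lit 4)⟩)
(.lf ⟨(nat_lit 0), (nat_lit 0), (nat_lit 0x6084d8213), (nat_lit 6)⟩))
(.lf ⟨(nat_lit 328), (nat_lit 2), (nat_lit 0x4d540f30b30b205), (nat_lit 10)⟩))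
(.nd (.lf ⟨(nat_lit 0x5612158), (nat_lit 5), (nat_lit 0x18158485), (nat_lit 5)⟩)
(.lf ⟨(nat_lit 24), (nat_lit 1), (nat_lit 0x4870921c2), (nat_lit 6)⟩)))
(.nd (.nd (.lf ⟨(nat_lit 0x7307697), (nat_lit 5), (nat_lit 0x1131a5d1307307), (nat_lit 9)⟩)
(.lf ⟨(nat_lit 538), (nat_lit 2), (nat_lit 0x6943d141444f4505113d130b45050f2d140c2d12c8), (nat_lit 28)⟩))
(.nd (.lf ⟨(nat_lit 0x44a44a44a44a), (nat_lit 8), (nat_lit 0), (nat_lit 0)⟩)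
(.lf ⟨(nat_lit 0), (nat_lit 0), (nat_lit 0x4113d13d044f44f), (nat_lit 10)⟩)))))
(.nd (.nd (.nd (.nd (.nd (.lf ⟨(nat_lit 0x1c11c1), (nat_lit 4), (nat_lit 0x47047), (nat_lit 4)⟩)
(.lf ⟨(nat_lit 17), (nat_lit 1), (nat_lit 0x10c1c4307), (nat_lit 6)⟩))
(.lf ⟨(nat_lit 0x18a40c28c18a40c28c), (nat_lit 12), (nat_lit 0x18a40c28c18a40c28c), (nat_lit 12)⟩))
(.nd (.lf ⟨(nat_lit 403), (nat_lit 2), (nat_lit 0x4cd2cd2c6), (nat_lit 6)⟩)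
(.lf ⟨(nat_lit 0x2cc2d1), (nat_lit 4), (nat_lit 0x3d14144503d141440b30b), (nat_lit 14)⟩)))
(.nd (.nd (.lf ⟨(nat_lit 140), (nat_lit 2), (nat_lit 770), (nat_lit 2)⟩)
(.lf ⟨(nat_lit 0x938d28d), (nat_lit 5), (nat_lit 0xe34a34a24a), (nat_lit 7)⟩))
(.nd (.lf ⟨(nat_lit 0x20734c20710d1081cd3081c4344), (nat_lit 18), (nat_lit 0), (nat_lit 0)⟩)
(.lf ⟨(nat_lit 0x39b39b), (nat_lit 4), (nat_lit 0x6ce6ce), (nat_lit 4)⟩))))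
(.nd (.nd (.nd (.nd (.lf ⟨(nat_lit 0x2c72c7), (nat_lit 4), (nat_lit 0x1cb1cb), (nat_lit 4)⟩)
(.lf ⟨(nat_lit 10), (nat_lit 1), (nat_lit 0x1011c4047), (nat_lit 6)⟩))
(.lf ⟨(nat_lit 0x55340f30b30b), (nat_lit 8), (nat_lit 0x148148), (nat_lit 4)⟩))
(.nd (.lf ⟨(nat_lit 0x34b34b), (nat_lit 4), (nat_lit 0x4cd3cd4cd3cd34b34b), (nat_lit 12)⟩)
(.lf ⟨(nat_lit 526), (nat_lit 2), (nat_lit 904), (nat_lit 2)⟩)))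
(.nd (.nd (.lf ⟨(nat_lit 0x204148105), (nat_lit 6), (nat_lit 0x148105204), (nat_lit 6)⟩)
(.lf ⟨(nat_lit 0x4c1d63161c130758c587), (nat_lit 14), (nat_lit 0x4c1d63161c130758c587), (nat_lit 14)⟩))
(.nd (.lf ⟨(nat_lit 0), (nat_lit 0), (nat_lit 0x8d68d08d68d), (nat_lit 8)⟩)
(.lf ⟨(nat_lit 0x5c95c9), (nat_lit 4), (nat_lit 0x5c95c9), (nat_lit 4)⟩)))))))))
(.nd (.nd (.nd (.nd (.nd (.nd (.nd (.nd (.nd (.lf ⟨(nat_lit 68), (nat_lit 2), (nat_lit 257), (nat_lit 2)⟩)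
(.lf ⟨(nat_lit 0x58315b5972165cc2cc2c56d65c859730b30b58315b5972165cc2cc2c56d65c859730b30b), (nat_lit 48), (nat_lit 0x58315b5972165cc2cc2c56d65c859730b30b58315b5972165cc2cc2c56d65c859730b30b), (nat_lit 48)⟩))
(.lf ⟨(nat_lit 0x54d255349), (nat_lit 6), (nat_lit 0x542349542349), (nat_lit 8)⟩))
(.nd (.lf ⟨(nat_lit 0x2c82c8), (nat_lit 4), (nat_lit 0), (nat_lit 0)⟩)
(.lf ⟨(nat_lit 0xd750b44b2912835d42d12ca44a), (nat_lit 18), (nat_lit 0xd750b44b2912835d42d12ca44a), (nat_lit 18)⟩)))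
(.nd (.nd (.nd (.lf ⟨(nat_lit 0x181206048), (nat_lit 6), (nat_lit 0x206048181), (nat_lit 6)⟩)
(.lf ⟨(nat_lit 270), (nat_lit 2), (nat_lit 0x5d4384), (nat_lit 4)⟩))
(.lf ⟨(nat_lit 0x44a), (nat_lit 2), (nat_lit 0x44c29128c291), (nat_lit 8)⟩))
(.nd (.lf ⟨(nat_lit 21), (nat_lit 1), (nat_lit 0x14230508c), (nat_lit 6)⟩)
(.lf ⟨(nat_lit 0x103503103503), (nat_lit 8), (nat_lit 0x103503103503), (nat_lit 8)⟩))))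
(.nd (.nd (.nd (.nd (.lf ⟨(nat_lit 0x101084042), (nat_lit 6), (nat_lit 0x84042101), (nat_lit 6)⟩)
(.lf ⟨(nat_lit 0), (nat_lit 0), (nat_lit 0x5102d440b), (nat_lit 6)⟩))
(.lf ⟨(nat_lit 0xa48a25224a), (nat_lit 7), (nat_lit 0x1228948928a), (nat_lit 7)⟩))
(.nd (.lf ⟨(nat_lit 0x628b), (nat_lit 3), (nat_lit 0xa2ca18a), (nat_lit 5)⟩)
(.lf ⟨(nat_lit 0xc2c644b446), (nat_lit 7), (nat_lit 0xb1912d118c), (nat_lit 7)⟩)))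
(.nd (.nd (.lf ⟨(nat_lit 276), (nat_lit 2), (nat_lit 0x504), (nat_lit 2)⟩)
(.lf ⟨(nat_lit 0x834c), (nat_lit 3), (nat_lit 0x132cd3164d03d63503cb34c2cd31934c2cd2cc64b20d), (nat_lit 29)⟩))
(.nd (.lf ⟨(nat_lit 0x30a30a), (nat_lit 4), (nat_lit 0x28c28c), (nat_lit 4)⟩)
(.lf ⟨(nat_lit 0xa44b), (nat_lit 3), (nat_lit 0xb291), (nat_lit 3)⟩)))))
(.nd (.nd (.nd (.nd (.nd (.lf ⟨(nat_lit 0x4e04e), (nat_lit 4), (nat_lit 0x381381), (nat_lit 4)⟩)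
(.lf ⟨(nat_lit 602), (nat_lit 2), (nat_lit 0x6da25b), (nat_lit 4)⟩))
(.lf ⟨(nat_lit 0x6531994c6), (nat_lit 6), (nat_lit 0x641641), (nat_lit 4)⟩))
(.nd (.lf ⟨(nat_lit 0x4421d61d1087587), (nat_lit 10), (nat_lit 0x1d61d1087587442), (nat_lit 10)⟩)
(.lf ⟨(nat_lit 0x44240c29030a), (nat_lit 8), (nat_lit 0x40c29030a442), (nat_lit 8)⟩)))
(.nd (.nd (.lf ⟨(nat_lit 0x150150), (nat_lit 4), (nat_lit 0x405405), (nat_lit 4)⟩)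
(.lf ⟨(nat_lit 409), (nat_lit 2), (nat_lit 0xd2cd24b246), (nat_lit 7)⟩))
(.nd (.lf ⟨(nat_lit 14), (nat_lit 1), (nat_lit 0xca0ca), (nat_lit 4)⟩)
(.lf ⟨(nat_lit 0xa44c), (nat_lit 3), (nat_lit 0x68c291), (nat_lit 4)⟩))))
(.nd (.nd (.nd (.nd (.lf ⟨(nat_lit 83), (nat_lit 2), (nat_lit 0x3d33d33d33c1), (nat_lit 8)⟩)
(.lf ⟨(nat_lit 918), (nat_lit 2), (nat_lit 0x58e), (nat_lit 2)⟩))
(.lf ⟨(nat_lit 0xa592296), (nat_lit 5), (nat_lit 0x29618a586), (nat_lit 6)⟩))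
(.nd (.lf ⟨(nat_lit 0x38614e34e18538614e34e185), (nat_lit 16), (nat_lit 0x38614e34e18538614e34e185), (nat_lit 16)⟩)
(.lf ⟨(nat_lit 461), (nat_lit 2), (nat_lit 0x1444f44f30b44b29128d44a3512ca4594ce6523933933943994ce3d848f2cd28d50a44f44f30b44b29128d44a3512ca4594ce6523933933943994d238b28d287), (nat_lit 85)⟩)))
(.nd (.nd (.lf ⟨(nat_lit 282), (nat_lit 2), (nat_lit 0x1da5c75c4), (nat_lit 6)⟩)
(.lf ⟨(nat_lit 522), (nat_lit 2), (nat_lit 0x5d42d12ca448), (nat_lit 8)⟩))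
(.nd (.lf ⟨(nat_lit 12), (nat_lit 1), (nat_lit 0x88088), (nat_lit 4)⟩)
(.lf ⟨(nat_lit 0), (nat_lit 0), (nat_lit 0x646219188), (nat_lit 6)⟩))))))
(.nd (.nd (.nd (.nd (.nd (.nd (.lf ⟨(nat_lit 455), (nat_lit 2), (nat_lit 0), (nat_lit 0)⟩)
(.lf ⟨(nat_lit 0xa450), (nat_lit 3), (nat_lit 0x103d140f4503d140f450291), (nat_lit 15)⟩))
(.lf ⟨(nat_lit 0x395395), (nat_lit 4), (nat_lit 0x54e54e), (nat_lit 4)⟩))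
(.nd (.lf ⟨(nat_lit 328), (nat_lit 2), (nat_lit 0x54c4cf2d030b205), (nat_lit 10)⟩)
(.lf ⟨(nat_lit 23), (nat_lit 1), (nat_lit 0x2c440b110), (nat_lit 6)⟩)))
(.nd (.nd (.nd (.lf ⟨(nat_lit 0x5c25c2), (nat_lit 4), (nat_lit 0x97097), (nat_lit 4)⟩)
(.lf ⟨(nat_lit 0x1634c2cd2c9), (nat_lit 7), (nat_lit 0x206088182), (nat_lit 6)⟩))
(.lf ⟨(nat_lit 0x411411), (nat_lit 4), (nat_lit 0x450450), (nat_lit 4)⟩))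
(.nd (.lf ⟨(nat_lit 0x1125c75d21c44971d7487), (nat_lit 14), (nat_lit 0x1125c75d21c44971d7487), (nat_lit 14)⟩)
(.lf ⟨(nat_lit 0x4d6), (nat_lit 2), (nat_lit 0x593), (nat_lit 2)⟩))))
(.nd (.nd (.nd (.nd (.lf ⟨(nat_lit 0x2c22c2), (nat_lit 4), (nat_lit 0x8b08b), (nat_lit 4)⟩)
(.lf ⟨(nat_lit 0x391396), (nat_lit 4), (nat_lit 0x58e44e), (nat_lit 4)⟩))
(.lf ⟨(nat_lit 0x850f), (nat_lit 3), (nat_lit 0xf30b30b214), (nat_lit 7)⟩))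
(.nd (.lf ⟨(nat_lit 10), (nat_lit 1), (nat_lit 0x144144), (nat_lit 4)⟩)
(.lf ⟨(nat_lit 0x5d42d12ca44a), (nat_lit 8), (nat_lit 0x54a215288), (nat_lit 6)⟩)))
(.nd (.nd (.lf ⟨(nat_lit 145), (nat_lit 2), (nat_lit 0x44c1cc1c2), (nat_lit 6)⟩)
(.lf ⟨(nat_lit 982), (nat_lit 2), (nat_lit 0x4d64cf), (nat_lit 4)⟩))
(.nd (.lf ⟨(nat_lit 727), (nat_lit 2), (nat_lit 0x5cb), (nat_lit 2)⟩)
(.lf ⟨(nat_lit 0x8e30e30238c38c), (nat_lit 10), (nat_lit 0x8e30e30238c38c), (nat_lit 10)⟩)))))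
(.nd (.nd (.nd (.nd (.nd (.lf ⟨(nat_lit 130), (nat_lit 2), (nat_lit 0), (nat_lit 0)⟩)
(.lf ⟨(nat_lit 0x930e), (nat_lit 3), (nat_lit 0x1b34e4496cd44c), (nat_lit 9)⟩))
(.lf ⟨(nat_lit 0x6c76c7), (nat_lit 4), (nat_lit 0x6c76c7), (nat_lit 4)⟩))
(.nd (.lf ⟨(nat_lit 0x287545287545), (nat_lit 8), (nat_lit 0x545287545287), (nat_lit 8)⟩)
(.lf ⟨(nat_lit 0x549209548), (nat_lit 6), (nat_lit 0x549548549548), (nat_lit 8)⟩)))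
(.nd (.nd (.lf ⟨(nat_lit 0x28c28c), (nat_lit 4), (nat_lit 0x30a30a), (nat_lit 4)⟩)
(.lf ⟨(nat_lit 537), (nat_lit 2), (nat_lit 0x648), (nat_lit 2)⟩))
(.nd (.lf ⟨(nat_lit 0x30a30a), (nat_lit 4), (nat_lit 0x30228c08a), (nat_lit 6)⟩)
(.lf ⟨(nat_lit 911), (nat_lit 2), (nat_lit 974), (nat_lit 2)⟩))))
(.nd (.nd (.nd (.nd (.lf ⟨(nat_lit 0x404404), (nat_lit 4), (nat_lit 0x110110), (nat_lit 4)⟩)
(.lf ⟨(nat_lit 716), (nat_lit 2), (nat_lit 0x1b30b), (nat_lit 3)⟩))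
(.lf ⟨(nat_lit 0x15025035034940540940d40d250), (nat_lit 18), (nat_lit 0x15025035034940540940d40d250), (nat_lit 18)⟩))
(.nd (.lf ⟨(nat_lit 0x40a1d02901d028740a407), (nat_lit 14), (nat_lit 0x40a1d02901d028740a407), (nat_lit 14)⟩)
(.lf ⟨(nat_lit 401), (nat_lit 2), (nat_lit 0x1b446), (nat_lit 3)⟩)))
(.nd (.nd (.lf ⟨(nat_lit 0x5308), (nat_lit 3), (nat_lit 0x2d33d030b205), (nat_lit 8)⟩)
(.lf ⟨(nat_lit 0x65b6596d9), (nat_lit 6), (nat_lit 0), (nat_lit 0)⟩))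
(.nd (.lf ⟨(nat_lit 0x10c24630610c246306), (nat_lit 12), (nat_lit 0x10c24630610c246306), (nat_lit 12)⟩)
(.lf ⟨(nat_lit 0), (nat_lit 0), (nat_lit 0x10d28d28434a34a), (nat_lit 10)⟩)))))))
(.nd (.nd (.nd (.nd (.nd (.nd (.nd (.lf ⟨(nat_lit 19), (nat_lit 1), (nat_lit 0x4f04f), (nat_lit 4)⟩)
(.lf ⟨(nat_lit 0x30738a40e29030738a40e290), (nat_lit 16), (nat_lit 0x30738a40e29030738a40e290), (nat_lit 16)⟩))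
(.lf ⟨(nat_lit 0xb40c2cc), (nat_lit 5), (nat_lit 0x2c130b04c), (nat_lit 6)⟩))
(.nd (.lf ⟨(nat_lit 658), (nat_lit 2), (nat_lit 0x48a), (nat_lit 2)⟩)
(.lf ⟨(nat_lit 0), (nat_lit 0), (nat_lit 0x60f60560f605), (nat_lit 8)⟩)))
(.nd (.nd (.nd (.lf ⟨(nat_lit 0x596), (nat_lit 2), (nat_lit 0), (nat_lit 0)⟩)
(.lf ⟨(nat_lit 0x48d48d), (nat_lit 4), (nat_lit 0), (nat_lit 0)⟩))
(.lf ⟨(nat_lit 0x44838844544520e21115115120e211151148388445445), (nat_lit 30), (nat_lit 0x44838844544520e21115115120e211151148388445445), (nat_lit 30)⟩))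
(.nd (.lf ⟨(nat_lit 531), (nat_lit 2), (nat_lit 0x4c8), (nat_lit 2)⟩)
(.lf ⟨(nat_lit 346), (nat_lit 2), (nat_lit 0x685), (nat_lit 2)⟩))))
(.nd (.nd (.nd (.nd (.lf ⟨(nat_lit 0x281281), (nat_lit 4), (nat_lit 0x4a04a), (nat_lit 4)⟩)
(.lf ⟨(nat_lit 527), (nat_lit 2), (nat_lit 0x1b44f391388), (nat_lit 7)⟩))
(.lf ⟨(nat_lit 0xa44c28c), (nat_lit 5), (nat_lit 0xc29130a), (nat_lit 5)⟩))
(.nd (.lf ⟨(nat_lit 335), (nat_lit 2), (nat_lit 965), (nat_lit 2)⟩)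
(.lf ⟨(nat_lit 0x549549), (nat_lit 4), (nat_lit 0x255255), (nat_lit 4)⟩)))
(.nd (.nd (.lf ⟨(nat_lit 199), (nat_lit 2), (nat_lit 0xd3081c4348103), (nat_lit 9)⟩)
(.lf ⟨(nat_lit 0x938d), (nat_lit 3), (nat_lit 0xe34e24e), (nat_lit 5)⟩))
(.nd (.lf ⟨(nat_lit 0x2d5313), (nat_lit 4), (nat_lit 0x4cf40f5502cc), (nat_lit 8)⟩)
(.lf ⟨(nat_lit 0x165d9), (nat_lit 3), (nat_lit 0x17657597), (nat_lit 5)⟩)))))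
(.nd (.nd (.nd (.nd (.nd (.lf ⟨(nat_lit 0x5d7), (nat_lit 2), (nat_lit 0), (nat_lit 0)⟩)
(.lf ⟨(nat_lit 278), (nat_lit 2), (nat_lit 0x1b58c2cc2c4), (nat_lit 7)⟩))
(.lf ⟨(nat_lit 0x72c91c9), (nat_lit 5), (nat_lit 0xb24724b1cb), (nat_lit 7)⟩))
(.nd (.lf ⟨(nat_lit 0x353353), (nat_lit 4), (nat_lit 0x4cd4cd), (nat_lit 4)⟩)
(.lf ⟨(nat_lit 0x28528c60c28c60c14a31830a31830a14a31830a31830528c60c28c60c), (nat_lit 38), (nat_lit 0x28528c60c28c60c14a31830a31830a14a31830a31830528c60c28c60c), (nat_lit 38)⟩)))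
(.nd (.nd (.lf ⟨(nat_lit 0x72ca), (nat_lit 3), (nat_lit 0xb28b1cb), (nat_lit 5)⟩)
(.lf ⟨(nat_lit 270), (nat_lit 2), (nat_lit 0x28838a204), (nat_lit 6)⟩))
(.nd (.lf ⟨(nat_lit 0x409409409409), (nat_lit 8), (nat_lit 0), (nat_lit 0)⟩)
(.lf ⟨(nat_lit 982), (nat_lit 2), (nat_lit 0x58f), (nat_lit 2)⟩))))
(.nd (.nd (.nd (.nd (.lf ⟨(nat_lit 149), (nat_lit 2), (nat_lit 0x415415415402), (nat_lit 8)⟩)
(.lf ⟨(nat_lit 25), (nat_lit 1), (nat_lit 0x48334c28d2920cd30a34a), (nat_lit 14)⟩))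
(.lf ⟨(nat_lit 0x34e34e), (nat_lit 4), (nat_lit 0xce08e083382382), (nat_lit 10)⟩))
(.nd (.lf ⟨(nat_lit 0x76971d7), (nat_lit 5), (nat_lit 0x171da5c7), (nat_lit 5)⟩)
(.lf ⟨(nat_lit 0), (nat_lit 0), (nat_lit 0x5d15d1), (nat_lit 4)⟩)))
(.nd (.nd (.lf ⟨(nat_lit 210), (nat_lit 2), (nat_lit 0x48e18e183), (nat_lit 6)⟩)
(.lf ⟨(nat_lit 0x5d454b5d454b), (nat_lit 8), (nat_lit 0x54b5d454b5d4), (nat_lit 8)⟩))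
(.nd (.lf ⟨(nat_lit 272), (nat_lit 2), (nat_lit 0x11417450450444), (nat_lit 9)⟩)
(.lf ⟨(nat_lit 597), (nat_lit 2), (nat_lit 0x549), (nat_lit 2)⟩))))))
(.nd (.nd (.nd (.nd (.nd (.nd (.lf ⟨(nat_lit 136), (nat_lit 2), (nat_lit 0xc202), (nat_lit 3)⟩)
(.lf ⟨(nat_lit 0x25b5cd), (nat_lit 4), (nat_lit 0x69b59038a59038a349697), (nat_lit 14)⟩))
(.lf ⟨(nat_lit 851), (nat_lit 2), (nat_lit 0x4cd), (nat_lit 2)⟩))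
(.nd (.lf ⟨(nat_lit 0x349349), (nat_lit 4), (nat_lit 0), (nat_lit 0)⟩)
(.lf ⟨(nat_lit 0xb450), (nat_lit 3), (nat_lit 0x102d1), (nat_lit 3)⟩)))
(.nd (.nd (.nd (.lf ⟨(nat_lit 0x4010d0043), (nat_lit 6), (nat_lit 0xd0043401), (nat_lit 6)⟩)
(.lf ⟨(nat_lit 391), (nat_lit 2), (nat_lit 0x1b69759240e1c6), (nat_lit 9)⟩))
(.lf ⟨(nat_lit 474), (nat_lit 2), (nat_lit 0x45a447), (nat_lit 4)⟩))
(.nd (.lf ⟨(nat_lit 0), (nat_lit 0), (nat_lit 0x343343), (nat_lit 4)⟩)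
(.lf ⟨(nat_lit 0x4da), (nat_lit 2), (nat_lit 0x693), (nat_lit 2)⟩))))
(.nd (.nd (.nd (.nd (.lf ⟨(nat_lit 273), (nat_lit 2), (nat_lit 0x311311311304), (nat_lit 8)⟩)
(.lf ⟨(nat_lit 0x1c31c3), (nat_lit 4), (nat_lit 0x1c31c3), (nat_lit 4)⟩))
(.lf ⟨(nat_lit 0xb30b44f), (nat_lit 5), (nat_lit 0x113d12cc2d1), (nat_lit 7)⟩))
(.nd (.lf ⟨(nat_lit 0x485612158), (nat_lit 6), (nat_lit 0x58058), (nat_lit 4)⟩)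
(.lf ⟨(nat_lit 525), (nat_lit 2), (nat_lit 0x1444b44b29128d44a3512ca4594ce6523933933943994d238b28d288), (nat_lit 37)⟩)))
(.nd (.nd (.lf ⟨(nat_lit 0x5612152), (nat_lit 5), (nat_lit 0x12158485), (nat_lit 5)⟩)
(.lf ⟨(nat_lit 522), (nat_lit 2), (nat_lit 0x5172d12ca448), (nat_lit 8)⟩))
(.nd (.lf ⟨(nat_lit 0x44a44a), (nat_lit 4), (nat_lit 0x5d129744a), (nat_lit 6)⟩)
(.lf ⟨(nat_lit 0x30b30b), (nat_lit 4), (nat_lit 0x210210), (nat_lit 4)⟩)))))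
(.nd (.nd (.nd (.nd (.nd (.lf ⟨(nat_lit 390), (nat_lit 2), (nat_lit 0), (nat_lit 0)⟩)
(.lf ⟨(nat_lit 593), (nat_lit 2), (nat_lit 0x44e30e309), (nat_lit 6)⟩))
(.lf ⟨(nat_lit 0x92cd), (nat_lit 3), (nat_lit 0xb34b24b), (nat_lit 5)⟩))
(.nd (.lf ⟨(nat_lit 0x590590), (nat_lit 4), (nat_lit 0), (nat_lit 0)⟩)
(.lf ⟨(nat_lit 0x4503503), (nat_lit 5), (nat_lit 0x1130b44b3140d40c4), (nat_lit 11)⟩)))
(.nd (.nd (.lf ⟨(nat_lit 0x5246349), (nat_lit 5), (nat_lit 0x624d18918d18518d), (nat_lit 11)⟩)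
(.lf ⟨(nat_lit 667), (nat_lit 2), (nat_lit 0x39b5ce5ca), (nat_lit 6)⟩))
(.nd (.lf ⟨(nat_lit 0x3db3c81cd3081c43443db3c81cd3081c4344), (nat_lit 24), (nat_lit 0x3db3c81cd3081c43443db3c81cd3081c4344), (nat_lit 24)⟩)
(.lf ⟨(nat_lit 0x5d00d7403), (nat_lit 6), (nat_lit 0xd74035d0), (nat_lit 6)⟩))))
(.nd (.nd (.nd (.nd (.lf ⟨(nat_lit 0x2031880c6), (nat_lit 6), (nat_lit 0x1880c6203), (nat_lit 6)⟩)
(.lf ⟨(nat_lit 400), (nat_lit 2), (nat_lit 0x406), (nat_lit 2)⟩))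
(.lf ⟨(nat_lit 0x44d), (nat_lit 2), (nat_lit 849), (nat_lit 2)⟩))
(.nd (.lf ⟨(nat_lit 0x134cf2c94cf24b), (nat_lit 9), (nat_lit 0x133cb2533c92d3), (nat_lit 9)⟩)
(.lf ⟨(nat_lit 0x1834a34a), (nat_lit 5), (nat_lit 0x14e14e), (nat_lit 4)⟩)))
(.nd (.nd (.lf ⟨(nat_lit 0x30204c081), (nat_lit 6), (nat_lit 0x4c081302), (nat_lit 6)⟩)
(.lf ⟨(nat_lit 0xf48d3d2), (nat_lit 5), (nat_lit 0x1234f48f), (nat_lit 5)⟩))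
(.nd (.lf ⟨(nat_lit 2), (nat_lit 1), (nat_lit 0x131d31d31d31d31d31c2), (nat_lit 13)⟩)
(.lf ⟨(nat_lit 0x3490), (nat_lit 3), (nat_lit 0x592403), (nat_lit 4)⟩))))))))
(.nd (.nd (.nd (.nd (.nd (.nd (.nd (.nd (.lf ⟨(nat_lit 11), (nat_lit 1), (nat_lit 0x48048), (nat_lit 4)⟩)
(.lf ⟨(nat_lit 0x29628d), (nat_lit 4), (nat_lit 0x60d29660a), (nat_lit 6)⟩))
(.lf ⟨(nat_lit 0x15246546349), (nat_lit 7), (nat_lit 0xd255246546), (nat_lit 7)⟩))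
(.nd (.lf ⟨(nat_lit 0x4246109), (nat_lit 5), (nat_lit 0x2461092c4), (nat_lit 6)⟩)
(.lf ⟨(nat_lit 0x58a58a), (nat_lit 4), (nat_lit 0x58a58a), (nat_lit 4)⟩)))
(.nd (.nd (.nd (.lf ⟨(nat_lit 0x392392), (nat_lit 4), (nat_lit 0x48e48e), (nat_lit 4)⟩)
(.lf ⟨(nat_lit 338), (nat_lit 2), (nat_lit 0x485), (nat_lit 2)⟩))
(.lf ⟨(nat_lit 0), (nat_lit 0), (nat_lit 0x181181), (nat_lit 4)⟩))
(.nd (.lf ⟨(nat_lit 531), (nat_lit 2), (nat_lit 0x4cf30b30f30b308), (nat_lit 10)⟩)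
(.lf ⟨(nat_lit 0x10516414), (nat_lit 5), (nat_lit 0x16516414590), (nat_lit 7)⟩))))
(.nd (.nd (.nd (.nd (.lf ⟨(nat_lit 0x144144), (nat_lit 4), (nat_lit 0x105105), (nat_lit 4)⟩)
(.lf ⟨(nat_lit 20), (nat_lit 1), (nat_lit 0x10f2c43cb), (nat_lit 6)⟩))
(.lf ⟨(nat_lit 0x1130a30a), (nat_lit 5), (nat_lit 0x44c28444c284), (nat_lit 8)⟩))
(.nd (.lf ⟨(nat_lit 0x544a), (nat_lit 3), (nat_lit 0x11291151), (nat_lit 5)⟩)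
(.lf ⟨(nat_lit 0x5cd6c26c25cd6c26c2), (nat_lit 12), (nat_lit 0x5cd6c26c25cd6c26c2), (nat_lit 12)⟩)))
(.nd (.nd (.lf ⟨(nat_lit 263), (nat_lit 2), (nat_lit 452), (nat_lit 2)⟩)
(.lf ⟨(nat_lit 0x41a), (nat_lit 2), (nat_lit 0x55a5d55d0), (nat_lit 6)⟩))
(.nd (.lf ⟨(nat_lit 0x44344a44344a), (nat_lit 8), (nat_lit 0x44344a44344a), (nat_lit 8)⟩)
(.lf ⟨(nat_lit 0x597597), (nat_lit 4), (nat_lit 0x5d65d6), (nat_lit 4)⟩)))))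
(.nd (.nd (.nd (.nd (.nd (.lf ⟨(nat_lit 271), (nat_lit 2), (nat_lit 0x143c4), (nat_lit 3)⟩)
(.lf ⟨(nat_lit 0xa44e), (nat_lit 3), (nat_lit 0x11391291), (nat_lit 5)⟩))
(.lf ⟨(nat_lit 0x6653199), (nat_lit 5), (nat_lit 0x191994c6), (nat_lit 5)⟩))
(.nd (.lf ⟨(nat_lit 0x628d18a), (nat_lit 5), (nat_lit 0xd28d18a346), (nat_lit 7)⟩)
(.lf ⟨(nat_lit 0), (nat_lit 0), (nat_lit 0xd631630358c58c), (nat_lit 10)⟩)))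
(.nd (.nd (.lf ⟨(nat_lit 0x191191), (nat_lit 4), (nat_lit 0x446446), (nat_lit 4)⟩)
(.lf ⟨(nat_lit 269), (nat_lit 2), (nat_lit 0x4d234b34b28d284), (nat_lit 10)⟩))
(.nd (.lf ⟨(nat_lit 0x928d24e), (nat_lit 5), (nat_lit 0xd38d24a349), (nat_lit 7)⟩)
(.lf ⟨(nat_lit 0x96d1251), (nat_lit 5), (nat_lit 0x1125b449), (nat_lit 5)⟩))))
(.nd (.nd (.nd (.nd (.lf ⟨(nat_lit 0x341341), (nat_lit 4), (nat_lit 0x4d04d), (nat_lit 4)⟩)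
(.lf ⟨(nat_lit 0xe40f390), (nat_lit 5), (nat_lit 0x154d140f3903954d1), (nat_lit 11)⟩))
(.lf ⟨(nat_lit 13), (nat_lit 1), (nat_lit 0x83083), (nat_lit 4)⟩))
(.nd (.lf ⟨(nat_lit 0x6876971d7), (nat_lit 6), (nat_lit 0x684684), (nat_lit 4)⟩)
(.lf ⟨(nat_lit 0x96402590096402590), (nat_lit 12), (nat_lit 0), (nat_lit 0)⟩)))
(.nd (.nd (.lf ⟨(nat_lit 781), (nat_lit 2), (nat_lit 844), (nat_lit 2)⟩)
(.lf ⟨(nat_lit 0x39a38e68e), (nat_lit 6), (nat_lit 0), (nat_lit 0)⟩))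
(.nd (.lf ⟨(nat_lit 0x104505d1), (nat_lit 5), (nat_lit 0x17450450), (nat_lit 5)⟩)
(.lf ⟨(nat_lit 0x5d444a44a), (nat_lit 6), (nat_lit 0x10e10e), (nat_lit 4)⟩))))))
(.nd (.nd (.nd (.nd (.nd (.nd (.lf ⟨(nat_lit 0x47047), (nat_lit 4), (nat_lit 0x1c11c1), (nat_lit 4)⟩)
(.lf ⟨(nat_lit 0x14597), (nat_lit 3), (nat_lit 0x165d6516), (nat_lit 5)⟩))
(.lf ⟨(nat_lit 13), (nat_lit 1), (nat_lit 0x146146), (nat_lit 4)⟩))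
(.nd (.lf ⟨(nat_lit 0x504504), (nat_lit 4), (nat_lit 0), (nat_lit 0)⟩)
(.lf ⟨(nat_lit 0xb44c2cc), (nat_lit 5), (nat_lit 0xc2d130b), (nat_lit 5)⟩)))
(.nd (.nd (.nd (.lf ⟨(nat_lit 217), (nat_lit 2), (nat_lit 0x4d94d94d94c3), (nat_lit 8)⟩)
(.lf ⟨(nat_lit 717), (nat_lit 2), (nat_lit 843), (nat_lit 2)⟩))
(.lf ⟨(nat_lit 26), (nat_lit 1), (nat_lit 0x974425d1), (nat_lit 6)⟩))
(.nd (.lf ⟨(nat_lit 0x6971da5c7), (nat_lit 6), (nat_lit 0x11a11a), (nat_lit 4)⟩)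
(.lf ⟨(nat_lit 347), (nat_lit 2), (nat_lit 0x25b5d635038a59038a3495d0290285), (nat_lit 20)⟩))))
(.nd (.nd (.nd (.nd (.lf ⟨(nat_lit 0x33080cd), (nat_lit 5), (nat_lit 0x83080cd203), (nat_lit 7)⟩)
(.lf ⟨(nat_lit 0x9639640e40258e590390), (nat_lit 14), (nat_lit 0x9639640e40258e590390), (nat_lit 14)⟩))
(.lf ⟨(nat_lit 15), (nat_lit 1), (nat_lit 0x1cb1c21cb1c2), (nat_lit 8)⟩))
(.nd (.lf ⟨(nat_lit 0x854c), (nat_lit 3), (nat_lit 0x153133cc2cc3cc2cc213), (nat_lit 13)⟩)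
(.lf ⟨(nat_lit 0), (nat_lit 0), (nat_lit 0x34338d0ce), (nat_lit 6)⟩)))
(.nd (.nd (.lf ⟨(nat_lit 0x5da), (nat_lit 2), (nat_lit 0x697), (nat_lit 2)⟩)
(.lf ⟨(nat_lit 587), (nat_lit 2), (nat_lit 0x1934b349), (nat_lit 5)⟩))
(.nd (.lf ⟨(nat_lit 0xa44b), (nat_lit 3), (nat_lit 0x112d1291), (nat_lit 5)⟩)
(.lf ⟨(nat_lit 0x109109), (nat_lit 4), (nat_lit 0x109109), (nat_lit 4)⟩)))))
(.nd (.nd (.nd (.nd (.nd (.lf ⟨(nat_lit 260), (nat_lit 2), (nat_lit 0), (nat_lit 0)⟩)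
(.lf ⟨(nat_lit 0x181691181691), (nat_lit 8), (nat_lit 0x691181691181), (nat_lit 8)⟩))
(.lf ⟨(nat_lit 0x55030b4133cc2d0), (nat_lit 10), (nat_lit 0x205205), (nat_lit 4)⟩))
(.nd (.lf ⟨(nat_lit 0x2d110b444), (nat_lit 6), (nat_lit 0x4442d110b), (nat_lit 6)⟩)
(.lf ⟨(nat_lit 0x34b34b), (nat_lit 4), (nat_lit 0x3c33c3), (nat_lit 4)⟩)))
(.nd (.nd (.lf ⟨(nat_lit 0x457), (nat_lit 2), (nat_lit 0x5d1), (nat_lit 2)⟩)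
(.lf ⟨(nat_lit 461), (nat_lit 2), (nat_lit 0x1120d30860d44c20d3143d13cc2d13143d13cc2d1207), (nat_lit 29)⟩))
(.nd (.lf ⟨(nat_lit 469), (nat_lit 2), (nat_lit 0x547), (nat_lit 2)⟩)
(.lf ⟨(nat_lit 665), (nat_lit 2), (nat_lit 0x64a), (nat_lit 2)⟩))))
(.nd (.nd (.nd (.nd (.lf ⟨(nat_lit 0x2031480c5), (nat_lit 6), (nat_lit 0x1480c5203), (nat_lit 6)⟩)
(.lf ⟨(nat_lit 0), (nat_lit 0), (nat_lit 0x2c15922c1592), (nat_lit 8)⟩))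
(.lf ⟨(nat_lit 0x880c72031c22031c80c7), (nat_lit 14), (nat_lit 0x880c72031c22031c80c7), (nat_lit 14)⟩))
(.nd (.lf ⟨(nat_lit 0x34b34b), (nat_lit 4), (nat_lit 0x4cb1932c6), (nat_lit 6)⟩)
(.lf ⟨(nat_lit 0x30963560c2), (nat_lit 7), (nat_lit 0xd6096083582582), (nat_lit 10)⟩)))
(.nd (.nd (.lf ⟨(nat_lit 138), (nat_lit 2), (nat_lit 642), (nat_lit 2)⟩)
(.lf ⟨(nat_lit 909), (nat_lit 2), (nat_lit 846), (nat_lit 2)⟩))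
(.nd (.lf ⟨(nat_lit 0x1cf2cc), (nat_lit 4), (nat_lit 0x44f2cc2d11cb), (nat_lit 8)⟩)
(.lf ⟨(nat_lit 525), (nat_lit 2), (nat_lit 0x19348), (nat_lit 3)⟩)))))))
(.nd (.nd (.nd (.nd (.nd (.nd (.nd (.lf ⟨(nat_lit 27), (nat_lit 1), (nat_lit 0xd70d7), (nat_lit 4)⟩)
(.lf ⟨(nat_lit 337), (nat_lit 2), (nat_lit 0x1a445), (nat_lit 3)⟩))
(.lf ⟨(nat_lit 0x543543), (nat_lit 4), (nat_lit 0x543543), (nat_lit 4)⟩))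
(.nd (.lf ⟨(nat_lit 0x4348), (nat_lit 3), (nat_lit 0x720d30720734c20710d), (nat_lit 13)⟩)
(.lf ⟨(nat_lit 0x8c2d130b08c2d130b), (nat_lit 12), (nat_lit 0x8c2d130b08c2d130b), (nat_lit 12)⟩)))
(.nd (.nd (.nd (.lf ⟨(nat_lit 0x444051101), (nat_lit 6), (nat_lit 0x51101444), (nat_lit 6)⟩)
(.lf ⟨(nat_lit 0x6d634b34c2c96d634b34c2c9), (nat_lit 16), (nat_lit 0), (nat_lit 0)⟩))
(.lf ⟨(nat_lit 23), (nat_lit 1), (nat_lit 0x404404), (nat_lit 4)⟩))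
(.nd (.lf ⟨(nat_lit 0x4cd4cd), (nat_lit 4), (nat_lit 0x4d3cd3c134f34f), (nat_lit 10)⟩)
(.lf ⟨(nat_lit 0x2d131b), (nat_lit 4), (nat_lit 0x5d158c6d130b4565cc), (nat_lit 12)⟩))))
(.nd (.nd (.nd (.nd (.lf ⟨(nat_lit 0x1c21c2), (nat_lit 4), (nat_lit 0), (nat_lit 0)⟩)
(.lf ⟨(nat_lit 0x1515b5534503913ce), (nat_lit 11), (nat_lit 0x1b5534503913ce545), (nat_lit 11)⟩))
(.lf ⟨(nat_lit 0x130b30b), (nat_lit 5), (nat_lit 0xc2cc2c1), (nat_lit 5)⟩))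
(.nd (.lf ⟨(nat_lit 0x1cb1d2), (nat_lit 4), (nat_lit 0x48b28b2872c7), (nat_lit 8)⟩)
(.lf ⟨(nat_lit 0x9761735029060a3425d85cd40a41828d), (nat_lit 22), (nat_lit 0x9761735029060a3425d85cd40a41828d), (nat_lit 22)⟩)))
(.nd (.nd (.lf ⟨(nat_lit 914), (nat_lit 2), (nat_lit 0x48e), (nat_lit 2)⟩)
(.lf ⟨(nat_lit 0x454), (nat_lit 2), (nat_lit 0x5d45d1), (nat_lit 4)⟩))
(.nd (.lf ⟨(nat_lit 0x5c75c7), (nat_lit 4), (nat_lit 0x1d71d7), (nat_lit 4)⟩)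
(.lf ⟨(nat_lit 0x6480d75112912835d444a44a6480d75112912835d444a44a), (nat_lit 32), (nat_lit 0x6480d75112912835d444a44a6480d75112912835d444a44a), (nat_lit 32)⟩)))))
(.nd (.nd (.nd (.nd (.nd (.lf ⟨(nat_lit 0x97097), (nat_lit 4), (nat_lit 0x5c25c2), (nat_lit 4)⟩)
(.lf ⟨(nat_lit 0x95d6), (nat_lit 3), (nat_lit 0x18598257), (nat_lit 5)⟩))
(.lf ⟨(nat_lit 265), (nat_lit 2), (nat_lit 0xf2c92c91c92c91c92c91c9187184), (nat_lit 19)⟩))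
(.nd (.lf ⟨(nat_lit 0x481481), (nat_lit 4), (nat_lit 0), (nat_lit 0)⟩)
(.lf ⟨(nat_lit 0x6435040d41190d4103504), (nat_lit 14), (nat_lit 0x6435040d41190d4103504), (nat_lit 14)⟩)))
(.nd (.nd (.lf ⟨(nat_lit 0x24a24a), (nat_lit 4), (nat_lit 0x289289), (nat_lit 4)⟩)
(.lf ⟨(nat_lit 0x494), (nat_lit 2), (nat_lit 0x512), (nat_lit 2)⟩))
(.nd (.lf ⟨(nat_lit 0x21b21b5c85c821b21b5c85c8), (nat_lit 16), (nat_lit 0), (nat_lit 0)⟩)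
(.lf ⟨(nat_lit 532), (nat_lit 2), (nat_lit 0x5112d12c8), (nat_lit 6)⟩))))
(.nd (.nd (.nd (.nd (.lf ⟨(nat_lit 0xcd0cd), (nat_lit 4), (nat_lit 0x343343), (nat_lit 4)⟩)
(.lf ⟨(nat_lit 599), (nat_lit 2), (nat_lit 0x5c9), (nat_lit 2)⟩))
(.lf ⟨(nat_lit 84), (nat_lit 2), (nat_lit 0x501), (nat_lit 2)⟩))
(.nd (.lf ⟨(nat_lit 282), (nat_lit 2), (nat_lit 0x5c76971c4), (nat_lit 6)⟩)
(.lf ⟨(nat_lit 0x4a0510ca0510c1281443281443), (nat_lit 18), (nat_lit 0x4a0510ca0510c1281443281443), (nat_lit 18)⟩)))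
(.nd (.nd (.lf ⟨(nat_lit 203), (nat_lit 2), (nat_lit 707), (nat_lit 2)⟩)
(.lf ⟨(nat_lit 594), (nat_lit 2), (nat_lit 0x489), (nat_lit 2)⟩))
(.nd (.lf ⟨(nat_lit 0), (nat_lit 0), (nat_lit 0x284284), (nat_lit 4)⟩)
(.lf ⟨(nat_lit 0x615615), (nat_lit 4), (nat_lit 0x545615158), (nat_lit 6)⟩))))))
(.nd (.nd (.nd (.nd (.nd (.nd (.lf ⟨(nat_lit 0x410), (nat_lit 2), (nat_lit 0), (nat_lit 0)⟩)
(.lf ⟨(nat_lit 0x597), (nat_lit 2), (nat_lit 0x5d6), (nat_lit 2)⟩))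
(.lf ⟨(nat_lit 0x2040961d61c22040961d61c2), (nat_lit 16), (nat_lit 0x2040961d61c22040961d61c2), (nat_lit 16)⟩))
(.nd (.lf ⟨(nat_lit 0x4974925d2), (nat_lit 6), (nat_lit 0), (nat_lit 0)⟩)
(.lf ⟨(nat_lit 0x40c29030a), (nat_lit 6), (nat_lit 0x151085442), (nat_lit 6)⟩)))
(.nd (.nd (.nd (.lf ⟨(nat_lit 0x3d43d4), (nat_lit 4), (nat_lit 0x50f50f), (nat_lit 4)⟩)
(.lf ⟨(nat_lit 0x2810c2), (nat_lit 4), (nat_lit 0x34a246143081), (nat_lit 8)⟩))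
(.lf ⟨(nat_lit 282), (nat_lit 2), (nat_lit 0x691291284), (nat_lit 6)⟩))
(.nd (.lf ⟨(nat_lit 0x207207), (nat_lit 4), (nat_lit 0x207207), (nat_lit 4)⟩)
(.lf ⟨(nat_lit 0x519), (nat_lit 2), (nat_lit 0x654), (nat_lit 2)⟩))))
(.nd (.nd (.nd (.nd (.lf ⟨(nat_lit 0x188188), (nat_lit 4), (nat_lit 0x206206), (nat_lit 4)⟩)
(.lf ⟨(nat_lit 0x61b), (nat_lit 2), (nat_lit 0x6d8), (nat_lit 2)⟩))
(.lf ⟨(nat_lit 8), (nat_lit 1), (nat_lit 0xc8103204), (nat_lit 6)⟩))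
(.nd (.lf ⟨(nat_lit 0x2398), (nat_lit 3), (nat_lit 0xe60e08e), (nat_lit 5)⟩)
(.lf ⟨(nat_lit 0x48734f6123d848d48734f6123d848d), (nat_lit 20), (nat_lit 0x48734f6123d848d48734f6123d848d), (nat_lit 20)⟩)))
(.nd (.nd (.lf ⟨(nat_lit 138), (nat_lit 2), (nat_lit 0x14a1c51c2), (nat_lit 6)⟩)
(.lf ⟨(nat_lit 983), (nat_lit 2), (nat_lit 0x5d441440f), (nat_lit 6)⟩))
(.nd (.lf ⟨(nat_lit 0x39129138a), (nat_lit 6), (nat_lit 0x39138a39138a), (nat_lit 8)⟩)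
(.lf ⟨(nat_lit 0x96256242), (nat_lit 6), (nat_lit 0x96086096086), (nat_lit 8)⟩)))))
(.nd (.nd (.nd (.nd (.nd (.lf ⟨(nat_lit 75), (nat_lit 2), (nat_lit 0x20b20b20b201), (nat_lit 8)⟩)
(.lf ⟨(nat_lit 0x44e44e), (nat_lit 4), (nat_lit 0x10e30e30438c38c), (nat_lit 10)⟩))
(.lf ⟨(nat_lit 0x29030a30a40c28c), (nat_lit 10), (nat_lit 0), (nat_lit 0)⟩))
(.nd (.lf ⟨(nat_lit 0x297297), (nat_lit 4), (nat_lit 0x5ca5ca), (nat_lit 4)⟩)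
(.lf ⟨(nat_lit 538), (nat_lit 2), (nat_lit 0x69140f4503c8), (nat_lit 8)⟩)))
(.nd (.nd (.lf ⟨(nat_lit 143), (nat_lit 2), (nat_lit 962), (nat_lit 2)⟩)
(.lf ⟨(nat_lit 788), (nat_lit 2), (nat_lit 0x4543d13cc), (nat_lit 6)⟩))
(.nd (.lf ⟨(nat_lit 0x295295), (nat_lit 4), (nat_lit 0x54a54a), (nat_lit 4)⟩)
(.lf ⟨(nat_lit 0x9697257), (nat_lit 5), (nat_lit 0x1725a5c9), (nat_lit 5)⟩))))
(.nd (.nd (.nd (.nd (.lf ⟨(nat_lit 0x1811c6047), (nat_lit 6), (nat_lit 0x1c6047181), (nat_lit 6)⟩)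
(.lf ⟨(nat_lit 0x17512), (nat_lit 3), (nat_lit 0x1016d444718718405b5111c61c6), (nat_lit 18)⟩))
(.lf ⟨(nat_lit 0x446446), (nat_lit 4), (nat_lit 0x191191), (nat_lit 4)⟩))
(.nd (.lf ⟨(nat_lit 0xa612198286), (nat_lit 7), (nat_lit 0x298286298286), (nat_lit 8)⟩)
(.lf ⟨(nat_lit 0xb30e), (nat_lit 3), (nat_lit 0x154d03cc3954d03cc2cc), (nat_lit 13)⟩)))
(.nd (.nd (.lf ⟨(nat_lit 0x183183), (nat_lit 4), (nat_lit 0), (nat_lit 0)⟩)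
(.lf ⟨(nat_lit 0x1d61cc0475870475873011d61c11d61c75873011d61c11d61cc047587047587), (nat_lit 42), (nat_lit 0x1d61cc0475870475873011d61c11d61c75873011d61c11d61cc047587047587), (nat_lit 42)⟩))
(.nd (.lf ⟨(nat_lit 0x35a34234668668d08d19a19a34d68d08d19a19a34234668668d), (nat_lit 34), (nat_lit 0x35a34234668668d08d19a19a34d68d08d19a19a34234668668d), (nat_lit 34)⟩)
(.lf ⟨(nat_lit 0x689689), (nat_lit 4), (nat_lit 0x9a5c969724269725a5c9), (nat_lit 14)⟩))))))))))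
(.nd (.nd (.nd (.nd (.nd (.nd (.nd (.nd (.nd (.nd (.lf ⟨(nat_lit 195), (nat_lit 2), (nat_lit 0), (nat_lit 0)⟩)
(.lf ⟨(nat_lit 0x6d65c859730b30b), (nat_lit 10), (nat_lit 0x5831160c4), (nat_lit 6)⟩))
(.lf ⟨(nat_lit 0x15246546), (nat_lit 5), (nat_lit 0x542195086), (nat_lit 6)⟩))
(.nd (.lf ⟨(nat_lit 0x3c204f081), (nat_lit 6), (nat_lit 0x4f0813c2), (nat_lit 6)⟩)
(.lf ⟨(nat_lit 8), (nat_lit 1), (nat_lit 0xc40c4), (nat_lit 4)⟩)))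
(.nd (.nd (.nd (.lf ⟨(nat_lit 0x288288), (nat_lit 4), (nat_lit 0x20a20a), (nat_lit 4)⟩)
(.lf ⟨(nat_lit 282), (nat_lit 2), (nat_lit 0x684), (nat_lit 2)⟩))
(.lf ⟨(nat_lit 0x30454454c115115), (nat_lit 10), (nat_lit 0x30454454c115115), (nat_lit 10)⟩))
(.nd (.lf ⟨(nat_lit 0x298298), (nat_lit 4), (nat_lit 0x60a60a), (nat_lit 4)⟩)
(.lf ⟨(nat_lit 0x958d256), (nat_lit 5), (nat_lit 0x16256349), (nat_lit 5)⟩))))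
(.nd (.nd (.nd (.nd (.lf ⟨(nat_lit 140), (nat_lit 2), (nat_lit 0x20c20c20c202), (nat_lit 8)⟩)
(.lf ⟨(nat_lit 0x6d6450391390), (nat_lit 8), (nat_lit 0xd4403510), (nat_lit 6)⟩))
(.lf ⟨(nat_lit 18), (nat_lit 1), (nat_lit 0x18298292), (nat_lit 5)⟩))
(.nd (.lf ⟨(nat_lit 0x2cd2cd), (nat_lit 4), (nat_lit 0x34b34b), (nat_lit 4)⟩)
(.lf ⟨(nat_lit 721), (nat_lit 2), (nat_lit 0x2c644b44644b), (nat_lit 8)⟩)))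
(.nd (.nd (.lf ⟨(nat_lit 149), (nat_lit 2), (nat_lit 0x542), (nat_lit 2)⟩)
(.lf ⟨(nat_lit 983), (nat_lit 2), (nat_lit 0x51741440f), (nat_lit 6)⟩))
(.nd (.lf ⟨(nat_lit 12), (nat_lit 1), (nat_lit 0x215088542), (nat_lit 6)⟩)
(.lf ⟨(nat_lit 0x5d95d9), (nat_lit 4), (nat_lit 0x657657), (nat_lit 4)⟩)))))
(.nd (.nd (.nd (.nd (.nd (.lf ⟨(nat_lit 845), (nat_lit 2), (nat_lit 0), (nat_lit 0)⟩)
(.lf ⟨(nat_lit 0x9691), (nat_lit 3), (nat_lit 0x1a38c391309), (nat_lit 7)⟩))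
(.lf ⟨(nat_lit 0x456456), (nat_lit 4), (nat_lit 0x591591), (nat_lit 4)⟩))
(.nd (.lf ⟨(nat_lit 0x1d61c7587), (nat_lit 6), (nat_lit 0), (nat_lit 0)⟩)
(.lf ⟨(nat_lit 0x442156442591085591096442442156442591085591096442), (nat_lit 32), (nat_lit 0x442156442591085591096442442156442591085591096442), (nat_lit 32)⟩)))
(.nd (.nd (.lf ⟨(nat_lit 0x14f14f), (nat_lit 4), (nat_lit 0x3c53c5), (nat_lit 4)⟩)
(.lf ⟨(nat_lit 920), (nat_lit 2), (nat_lit 0x60e), (nat_lit 2)⟩))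
(.nd (.lf ⟨(nat_lit 0x207207288288), (nat_lit 8), (nat_lit 0x288288207207), (nat_lit 8)⟩)
(.lf ⟨(nat_lit 986), (nat_lit 2), (nat_lit 0x68f), (nat_lit 2)⟩))))
(.nd (.nd (.nd (.nd (.lf ⟨(nat_lit 975), (nat_lit 2), (nat_lit 0), (nat_lit 0)⟩)
(.lf ⟨(nat_lit 0), (nat_lit 0), (nat_lit 0x6c325b0c9), (nat_lit 6)⟩))
(.lf ⟨(nat_lit 0x344b), (nat_lit 3), (nat_lit 0x1b44b44b21b2c80d1), (nat_lit 11)⟩))
(.nd (.lf ⟨(nat_lit 0), (nat_lit 0), (nat_lit 390), (nat_lit 2)⟩)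
(.lf ⟨(nat_lit 728), (nat_lit 2), (nat_lit 0x48f6123cb), (nat_lit 6)⟩)))
(.nd (.nd (.lf ⟨(nat_lit 402), (nat_lit 2), (nat_lit 0x486), (nat_lit 2)⟩)
(.lf ⟨(nat_lit 265), (nat_lit 2), (nat_lit 0x1464d3cb34b1c9187184), (nat_lit 13)⟩))
(.nd (.lf ⟨(nat_lit 0x58e29629638a58a), (nat_lit 10), (nat_lit 0), (nat_lit 0)⟩)
(.lf ⟨(nat_lit 8), (nat_lit 1), (nat_lit 0x1110c4443), (nat_lit 6)⟩))))))
(.nd (.nd (.nd (.nd (.nd (.nd (.lf ⟨(nat_lit 67), (nat_lit 2), (nat_lit 0x60c1), (nat_lit 3)⟩)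
(.lf ⟨(nat_lit 730), (nat_lit 2), (nat_lit 0x68b), (nat_lit 2)⟩))
(.lf ⟨(nat_lit 0), (nat_lit 0), (nat_lit 0x20e208388), (nat_lit 6)⟩))
(.nd (.lf ⟨(nat_lit 147), (nat_lit 2), (nat_lit 0x4cf14f142), (nat_lit 6)⟩)
(.lf ⟨(nat_lit 0xc2d130b), (nat_lit 5), (nat_lit 0x2c430b10c), (nat_lit 6)⟩)))
(.nd (.nd (.nd (.lf ⟨(nat_lit 0x582582), (nat_lit 4), (nat_lit 0x96096), (nat_lit 4)⟩)
(.lf ⟨(nat_lit 470), (nat_lit 2), (nat_lit 0x587), (nat_lit 2)⟩))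
(.lf ⟨(nat_lit 791), (nat_lit 2), (nat_lit 0x5d141140c), (nat_lit 6)⟩))
(.nd (.lf ⟨(nat_lit 0x4971d7487), (nat_lit 6), (nat_lit 0x497487497487), (nat_lit 8)⟩)
(.lf ⟨(nat_lit 984), (nat_lit 2), (nat_lit 0x64d51851934f), (nat_lit 8)⟩))))
(.nd (.nd (.nd (.nd (.lf ⟨(nat_lit 0x242242), (nat_lit 4), (nat_lit 0x89089), (nat_lit 4)⟩)
(.lf ⟨(nat_lit 0), (nat_lit 0), (nat_lit 0x5836d13913960db44e44e), (nat_lit 14)⟩))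
(.lf ⟨(nat_lit 0x530b30b), (nat_lit 5), (nat_lit 0xc2cc2c5), (nat_lit 5)⟩))
(.nd (.lf ⟨(nat_lit 850), (nat_lit 2), (nat_lit 0x48d), (nat_lit 2)⟩)
(.lf ⟨(nat_lit 0x54a54a), (nat_lit 4), (nat_lit 0), (nat_lit 0)⟩)))
(.nd (.nd (.lf ⟨(nat_lit 0x416), (nat_lit 2), (nat_lit 0x590), (nat_lit 2)⟩)
(.lf ⟨(nat_lit 265), (nat_lit 2), (nat_lit 0x143d934b34b1c9187184), (nat_lit 13)⟩))
(.nd (.lf ⟨(nat_lit 0x85cb), (nat_lit 3), (nat_lit 0x172d7217), (nat_lit 5)⟩)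
(.lf ⟨(nat_lit 0x38834a34a20d28d28e20d28d28834a34a), (nat_lit 22), (nat_lit 0x38834a34a20d28d28e20d28d28834a34a), (nat_lit 22)⟩)))))
(.nd (.nd (.nd (.nd (.nd (.lf ⟨(nat_lit 131), (nat_lit 2), (nat_lit 0x308d), (nat_lit 3)⟩)
(.lf ⟨(nat_lit 0x96d1), (nat_lit 3), (nat_lit 0x1b44e30e309), (nat_lit 7)⟩))
(.lf ⟨(nat_lit 7), (nat_lit 1), (nat_lit 0x84084), (nat_lit 4)⟩))
(.nd (.lf ⟨(nat_lit 0x659), (nat_lit 2), (nat_lit 0), (nat_lit 0)⟩)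
(.lf ⟨(nat_lit 0x1565534b34b), (nat_lit 7), (nat_lit 0x3cb54954f2d5255), (nat_lit 10)⟩)))
(.nd (.nd (.lf ⟨(nat_lit 0x28b28b), (nat_lit 4), (nat_lit 0x2ca2ca), (nat_lit 4)⟩)
(.lf ⟨(nat_lit 718), (nat_lit 2), (nat_lit 907), (nat_lit 2)⟩))
(.nd (.lf ⟨(nat_lit 0), (nat_lit 0), (nat_lit 0x1cc087302), (nat_lit 6)⟩)
(.lf ⟨(nat_lit 984), (nat_lit 2), (nat_lit 0x60f), (nat_lit 2)⟩))))
(.nd (.nd (.nd (.nd (.lf ⟨(nat_lit 0x3c43c4), (nat_lit 4), (nat_lit 0x10f10f), (nat_lit 4)⟩)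
(.lf ⟨(nat_lit 212), (nat_lit 2), (nat_lit 0x1b503), (nat_lit 3)⟩))
(.lf ⟨(nat_lit 0x40940d40d250), (nat_lit 8), (nat_lit 0x250250350250250350), (nat_lit 12)⟩))
(.nd (.lf ⟨(nat_lit 0x28740a407), (nat_lit 6), (nat_lit 0x501d01c1407407), (nat_lit 10)⟩)
(.lf ⟨(nat_lit 0x66d7), (nat_lit 3), (nat_lit 0x1b5c6), (nat_lit 3)⟩)))
(.nd (.nd (.lf ⟨(nat_lit 262), (nat_lit 2), (nat_lit 0xb184), (nat_lit 3)⟩)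
(.lf ⟨(nat_lit 0x550550), (nat_lit 4), (nat_lit 0), (nat_lit 0)⟩))
(.nd (.lf ⟨(nat_lit 0xc246306), (nat_lit 5), (nat_lit 0x30218c086), (nat_lit 6)⟩)
(.lf ⟨(nat_lit 0), (nat_lit 0), (nat_lit 0x608608), (nat_lit 4)⟩)))))))
(.nd (.nd (.nd (.nd (.nd (.nd (.nd (.lf ⟨(nat_lit 13), (nat_lit 1), (nat_lit 0x49049), (nat_lit 4)⟩)
(.lf ⟨(nat_lit 0), (nat_lit 0), (nat_lit 0x30748c1d2), (nat_lit 6)⟩))
(.lf ⟨(nat_lit 0), (nat_lit 0), (nat_lit 975), (nat_lit 2)⟩))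
(.nd (.lf ⟨(nat_lit 789), (nat_lit 2), (nat_lit 0x54c), (nat_lit 2)⟩)
(.lf ⟨(nat_lit 0x60f6183d8), (nat_lit 6), (nat_lit 0), (nat_lit 0)⟩)))
(.nd (.nd (.nd (.lf ⟨(nat_lit 0x54054), (nat_lit 4), (nat_lit 0x501501), (nat_lit 4)⟩)
(.lf ⟨(nat_lit 0xf387), (nat_lit 3), (nat_lit 0x6873ce), (nat_lit 4)⟩))
(.lf ⟨(nat_lit 0x20e211151148388445445), (nat_lit 14), (nat_lit 0x20e211151148388445445), (nat_lit 14)⟩))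
(.nd (.lf ⟨(nat_lit 0x21540c), (nat_lit 4), (nat_lit 0x3d04cf2d53132c8), (nat_lit 10)⟩)
(.lf ⟨(nat_lit 0x68205a61269205a61269268205a61269205a612692), (nat_lit 28), (nat_lit 0x68205a61269205a61269268205a61269205a612692), (nat_lit 28)⟩))))
(.nd (.nd (.nd (.nd (.lf ⟨(nat_lit 77), (nat_lit 2), (nat_lit 0x24d24d24d241), (nat_lit 8)⟩)
(.lf ⟨(nat_lit 716), (nat_lit 2), (nat_lit 0x1b44e44e30b), (nat_lit 7)⟩))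
(.lf ⟨(nat_lit 0), (nat_lit 0), (nat_lit 0x481481), (nat_lit 4)⟩))
(.nd (.lf ⟨(nat_lit 0x190356), (nat_lit 4), (nat_lit 0x59035635640640d), (nat_lit 10)⟩)
(.lf ⟨(nat_lit 0x26da), (nat_lit 3), (nat_lit 0x1b69b09b), (nat_lit 5)⟩)))
(.nd (.nd (.lf ⟨(nat_lit 524), (nat_lit 2), (nat_lit 776), (nat_lit 2)⟩)
(.lf ⟨(nat_lit 278), (nat_lit 2), (nat_lit 0x1b5d12d12c85974112d140c2cc204), (nat_lit 19)⟩))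
(.nd (.lf ⟨(nat_lit 0x28828844e28838a44a20a), (nat_lit 14), (nat_lit 0x44e28838a44a20a288288), (nat_lit 14)⟩)
(.lf ⟨(nat_lit 0x1765b), (nat_lit 3), (nat_lit 0x196d95d9), (nat_lit 5)⟩)))))
(.nd (.nd (.nd (.nd (.nd (.lf ⟨(nat_lit 208), (nat_lit 2), (nat_lit 0x16403), (nat_lit 3)⟩)
(.lf ⟨(nat_lit 0x25b257), (nat_lit 4), (nat_lit 0x5c96c9), (nat_lit 4)⟩))
(.lf ⟨(nat_lit 0x424b), (nat_lit 3), (nat_lit 0x92c9109), (nat_lit 5)⟩))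
(.nd (.lf ⟨(nat_lit 0x4c54c5), (nat_lit 4), (nat_lit 0), (nat_lit 0)⟩)
(.lf ⟨(nat_lit 0x14a31830a31830528c60c28c60c), (nat_lit 18), (nat_lit 0x14a31830a31830528c60c28c60c), (nat_lit 18)⟩)))
(.nd (.nd (.lf ⟨(nat_lit 0x1d01d0), (nat_lit 4), (nat_lit 0x407407), (nat_lit 4)⟩)
(.lf ⟨(nat_lit 0xb3142d1), (nat_lit 5), (nat_lit 0x143d13cb30b), (nat_lit 7)⟩))
(.nd (.lf ⟨(nat_lit 0x416409590250250250590256409409409), (nat_lit 22), (nat_lit 0x416409590250250250590256409409409), (nat_lit 22)⟩)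
(.lf ⟨(nat_lit 0x419), (nat_lit 2), (nat_lit 0x650), (nat_lit 2)⟩))))
(.nd (.nd (.nd (.nd (.lf ⟨(nat_lit 0x2cf2cf), (nat_lit 4), (nat_lit 0x3cb3cb), (nat_lit 4)⟩)
(.lf ⟨(nat_lit 0xd30a34a), (nat_lit 5), (nat_lit 0x38808e202), (nat_lit 6)⟩))
(.lf ⟨(nat_lit 0x4d4), (nat_lit 2), (nat_lit 0x513), (nat_lit 2)⟩))
(.nd (.lf ⟨(nat_lit 0x1d71d7), (nat_lit 4), (nat_lit 0x6971d71da), (nat_lit 6)⟩)
(.lf ⟨(nat_lit 26), (nat_lit 1), (nat_lit 0x5d1097442), (nat_lit 6)⟩)))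
(.nd (.nd (.lf ⟨(nat_lit 198), (nat_lit 2), (nat_lit 387), (nat_lit 2)⟩)
(.lf ⟨(nat_lit 0x60a60a), (nat_lit 4), (nat_lit 0), (nat_lit 0)⟩))
(.nd (.lf ⟨(nat_lit 0x105d1417), (nat_lit 5), (nat_lit 0x17417450), (nat_lit 5)⟩)
(.lf ⟨(nat_lit 592), (nat_lit 2), (nat_lit 0x409), (nat_lit 2)⟩))))))
(.nd (.nd (.nd (.nd (.nd (.nd (.lf ⟨(nat_lit 0x88088), (nat_lit 4), (nat_lit 0x202202), (nat_lit 4)⟩)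
(.lf ⟨(nat_lit 0x3954d0), (nat_lit 4), (nat_lit 0x55340e), (nat_lit 4)⟩))
(.lf ⟨(nat_lit 0x434b), (nat_lit 3), (nat_lit 0xd2cd10d), (nat_lit 5)⟩))
(.nd (.lf ⟨(nat_lit 0x4012c14012c1), (nat_lit 8), (nat_lit 0x2c14012c1401), (nat_lit 8)⟩)
(.lf ⟨(nat_lit 0x2cc2d1), (nat_lit 4), (nat_lit 0x3d14144505112d13d14143d141444f30b), (nat_lit 22)⟩)))
(.nd (.nd (.nd (.lf ⟨(nat_lit 219), (nat_lit 2), (nat_lit 0x5db5db5db5c3), (nat_lit 8)⟩)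
(.lf ⟨(nat_lit 269), (nat_lit 2), (nat_lit 0x4d2344), (nat_lit 4)⟩))
(.lf ⟨(nat_lit 0x5d16972912876974475d1697291287697447), (nat_lit 24), (nat_lit 0x5d16972912876974475d1697291287697447), (nat_lit 24)⟩))
(.nd (.lf ⟨(nat_lit 275), (nat_lit 2), (nat_lit 0x4c4), (nat_lit 2)⟩)
(.lf ⟨(nat_lit 792), (nat_lit 2), (nat_lit 0x61245244c), (nat_lit 6)⟩))))
(.nd (.nd (.nd (.nd (.lf ⟨(nat_lit 0x109109), (nat_lit 4), (nat_lit 0x244244), (nat_lit 4)⟩)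
(.lf ⟨(nat_lit 0x28d40e), (nat_lit 4), (nat_lit 0x40e40a350), (nat_lit 6)⟩))
(.lf ⟨(nat_lit 0x30b30b44c2cc2d1), (nat_lit 10), (nat_lit 0x20f44f30b30b4483d13cc2cc2d1), (nat_lit 18)⟩))
(.nd (.lf ⟨(nat_lit 24), (nat_lit 1), (nat_lit 0x92092), (nat_lit 4)⟩)
(.lf ⟨(nat_lit 0x834a), (nat_lit 3), (nat_lit 0x1734a3542d12ca44a20d), (nat_lit 13)⟩)))
(.nd (.nd (.lf ⟨(nat_lit 333), (nat_lit 2), (nat_lit 837), (nat_lit 2)⟩)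
(.lf ⟨(nat_lit 786), (nat_lit 2), (nat_lit 0x45244c), (nat_lit 4)⟩))
(.nd (.lf ⟨(nat_lit 10), (nat_lit 1), (nat_lit 0x105105), (nat_lit 4)⟩)
(.lf ⟨(nat_lit 0x9550), (nat_lit 3), (nat_lit 0x15409), (nat_lit 3)⟩)))))
(.nd (.nd (.nd (.nd (.nd (.lf ⟨(nat_lit 0x141141), (nat_lit 4), (nat_lit 0x45045), (nat_lit 4)⟩)
(.lf ⟨(nat_lit 0xe58d), (nat_lit 3), (nat_lit 0xd396), (nat_lit 3)⟩))
(.lf ⟨(nat_lit 0), (nat_lit 0), (nat_lit 0x3c53c5), (nat_lit 4)⟩))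
(.nd (.lf ⟨(nat_lit 0x205205), (nat_lit 4), (nat_lit 0x148148), (nat_lit 4)⟩)
(.lf ⟨(nat_lit 0x8503503), (nat_lit 5), (nat_lit 0x140d40c8), (nat_lit 5)⟩)))
(.nd (.nd (.lf ⟨(nat_lit 135), (nat_lit 2), (nat_lit 450), (nat_lit 2)⟩)
(.lf ⟨(nat_lit 538), (nat_lit 2), (nat_lit 0x44c6973cb44f5d02d140c2d12c8), (nat_lit 18)⟩))
(.nd (.lf ⟨(nat_lit 0x81cd3081c4344), (nat_lit 9), (nat_lit 0x1c31c3), (nat_lit 4)⟩)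
(.lf ⟨(nat_lit 0x608608), (nat_lit 4), (nat_lit 0), (nat_lit 0)⟩))))
(.nd (.nd (.nd (.nd (.lf ⟨(nat_lit 0x1c2187086), (nat_lit 6), (nat_lit 0x1870861c2), (nat_lit 6)⟩)
(.lf ⟨(nat_lit 396), (nat_lit 2), (nat_lit 0x6d634b34c2c6), (nat_lit 8)⟩))
(.lf ⟨(nat_lit 209), (nat_lit 2), (nat_lit 0x443), (nat_lit 2)⟩))
(.nd (.lf ⟨(nat_lit 0x3cb24b3cb24b), (nat_lit 8), (nat_lit 0), (nat_lit 0)⟩)
(.lf ⟨(nat_lit 91), (nat_lit 2), (nat_lit 0x6c1), (nat_lit 2)⟩)))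
(.nd (.nd (.lf ⟨(nat_lit 0x1c40c7103), (nat_lit 6), (nat_lit 0xc71031c4), (nat_lit 6)⟩)
(.lf ⟨(nat_lit 334), (nat_lit 2), (nat_lit 0x1834e28d285), (nat_lit 7)⟩))
(.nd (.lf ⟨(nat_lit 0x4c74c74c74c7), (nat_lit 8), (nat_lit 0), (nat_lit 0)⟩)
(.lf ⟨(nat_lit 0), (nat_lit 0), (nat_lit 0x316316), (nat_lit 4)⟩))))))))
(.nd (.nd (.nd (.nd (.nd (.nd (.nd (.nd (.lf ⟨(nat_lit 9), (nat_lit 1), (nat_lit 0x86086), (nat_lit 4)⟩)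
(.lf ⟨(nat_lit 534), (nat_lit 2), (nat_lit 0x588), (nat_lit 2)⟩))
(.lf ⟨(nat_lit 0x54919518d), (nat_lit 6), (nat_lit 0x355246546), (nat_lit 6)⟩))
(.nd (.lf ⟨(nat_lit 0x246246), (nat_lit 4), (nat_lit 0), (nat_lit 0)⟩)
(.lf ⟨(nat_lit 10), (nat_lit 1), (nat_lit 0x471011c4), (nat_lit 6)⟩)))
(.nd (.nd (.nd (.lf ⟨(nat_lit 0x492), (nat_lit 2), (nat_lit 0), (nat_lit 0)⟩)
(.lf ⟨(nat_lit 142), (nat_lit 2), (nat_lit 898), (nat_lit 2)⟩))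
(.lf ⟨(nat_lit 0), (nat_lit 0), (nat_lit 0x659), (nat_lit 2)⟩))
(.nd (.lf ⟨(nat_lit 0xc4cf), (nat_lit 3), (nat_lit 0x104cf40c), (nat_lit 5)⟩)
(.lf ⟨(nat_lit 0x4040d45905164031035164145900d01035164145900c40d4590516403), (nat_lit 38), (nat_lit 0x4040d45905164031035164145900d01035164145900c40d4590516403), (nat_lit 38)⟩))))
(.nd (.nd (.nd (.nd (.lf ⟨(nat_lit 0x203203), (nat_lit 4), (nat_lit 0xc80c8), (nat_lit 4)⟩)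
(.lf ⟨(nat_lit 0x36d6450391390), (nat_lit 9), (nat_lit 0x1b59140e44e403), (nat_lit 9)⟩))
(.lf ⟨(nat_lit 6), (nat_lit 1), (nat_lit 0x48a25224a60a60a289289606), (nat_lit 16)⟩))
(.nd (.lf ⟨(nat_lit 0x86d721b), (nat_lit 5), (nat_lit 0x1b21b5c8), (nat_lit 5)⟩)
(.lf ⟨(nat_lit 0x34368d683), (nat_lit 6), (nat_lit 0x9a0da0c2683683), (nat_lit 10)⟩)))
(.nd (.nd (.lf ⟨(nat_lit 0x62c8), (nat_lit 3), (nat_lit 0xb206), (nat_lit 3)⟩)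
(.lf ⟨(nat_lit 0x28d291), (nat_lit 4), (nat_lit 0x48d2cd2d148d2cd2ca34a), (nat_lit 14)⟩))
(.nd (.lf ⟨(nat_lit 9), (nat_lit 1), (nat_lit 0x182182), (nat_lit 4)⟩)
(.lf ⟨(nat_lit 204), (nat_lit 2), (nat_lit 0x1934c29128d44a35129128d283), (nat_lit 17)⟩)))))
(.nd (.nd (.nd (.nd (.nd (.lf ⟨(nat_lit 0x10f10f), (nat_lit 4), (nat_lit 0x3c43c4), (nat_lit 4)⟩)
(.lf ⟨(nat_lit 0x96d725b), (nat_lit 5), (nat_lit 0x1b25b5c9), (nat_lit 5)⟩))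
(.lf ⟨(nat_lit 0x99159142645645), (nat_lit 10), (nat_lit 0x99159142645645), (nat_lit 10)⟩))
(.nd (.lf ⟨(nat_lit 0x18a252), (nat_lit 4), (nat_lit 0xa252252386389), (nat_lit 9)⟩)
(.lf ⟨(nat_lit 0), (nat_lit 0), (nat_lit 0xcc2cc2c330b30b), (nat_lit 10)⟩)))
(.nd (.nd (.lf ⟨(nat_lit 0x190190), (nat_lit 4), (nat_lit 0x406406), (nat_lit 4)⟩)
(.lf ⟨(nat_lit 660), (nat_lit 2), (nat_lit 0x50a), (nat_lit 2)⟩))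
(.nd (.lf ⟨(nat_lit 0x928d24a), (nat_lit 5), (nat_lit 0xd28d24a349), (nat_lit 7)⟩)
(.lf ⟨(nat_lit 0x95cd), (nat_lit 3), (nat_lit 0xd38a59028d29640e28d257), (nat_lit 15)⟩))))
(.nd (.nd (.nd (.nd (.lf ⟨(nat_lit 87), (nat_lit 2), (nat_lit 0x457457457441), (nat_lit 8)⟩)
(.lf ⟨(nat_lit 0x1b44e44e), (nat_lit 5), (nat_lit 0x210210), (nat_lit 4)⟩))
(.lf ⟨(nat_lit 0xa592296), (nat_lit 5), (nat_lit 0x1648a58a), (nat_lit 5)⟩))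
(.nd (.lf ⟨(nat_lit 0x69715a5c5), (nat_lit 6), (nat_lit 0x5a05a), (nat_lit 4)⟩)
(.lf ⟨(nat_lit 0x202216408590088590216408088590216402216408590), (nat_lit 30), (nat_lit 0x202216408590088590216408088590216402216408590), (nat_lit 30)⟩)))
(.nd (.nd (.lf ⟨(nat_lit 330), (nat_lit 2), (nat_lit 645), (nat_lit 2)⟩)
(.lf ⟨(nat_lit 0x48664f48664f), (nat_lit 8), (nat_lit 0x64f48664f486), (nat_lit 8)⟩))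
(.nd (.lf ⟨(nat_lit 0x20f2d13d12c83cb44f44b), (nat_lit 14), (nat_lit 0x20f2d13d12c83cb44f44b), (nat_lit 14)⟩)
(.lf ⟨(nat_lit 795), (nat_lit 2), (nat_lit 0x6cc), (nat_lit 2)⟩))))))
(.nd (.nd (.nd (.nd (.nd (.nd (.lf ⟨(nat_lit 585), (nat_lit 2), (nat_lit 0), (nat_lit 0)⟩)
(.lf ⟨(nat_lit 0x5d8), (nat_lit 2), (nat_lit 0x698697), (nat_lit 4)⟩))
(.lf ⟨(nat_lit 334), (nat_lit 2), (nat_lit 0x28d24e34938a28d24a349385), (nat_lit 16)⟩))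
(.nd (.lf ⟨(nat_lit 0x604618118), (nat_lit 6), (nat_lit 0), (nat_lit 0)⟩)
(.lf ⟨(nat_lit 0x4c2d130b), (nat_lit 6), (nat_lit 0x1141141730b44c2c1), (nat_lit 11)⟩)))
(.nd (.nd (.nd (.lf ⟨(nat_lit 0x55402), (nat_lit 4), (nat_lit 0x542055406346246349185), (nat_lit 14)⟩)
(.lf ⟨(nat_lit 21), (nat_lit 1), (nat_lit 0x8d402350), (nat_lit 6)⟩))
(.lf ⟨(nat_lit 0x68769a1da), (nat_lit 6), (nat_lit 0), (nat_lit 0)⟩))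
(.nd (.lf ⟨(nat_lit 0), (nat_lit 0), (nat_lit 0x117117), (nat_lit 4)⟩)
(.lf ⟨(nat_lit 0x459), (nat_lit 2), (nat_lit 0x651), (nat_lit 2)⟩))))
(.nd (.nd (.nd (.nd (.lf ⟨(nat_lit 133), (nat_lit 2), (nat_lit 0x18d18918d246142), (nat_lit 10)⟩)
(.lf ⟨(nat_lit 0), (nat_lit 0), (nat_lit 0x6d039039b40e40e), (nat_lit 10)⟩))
(.lf ⟨(nat_lit 21), (nat_lit 1), (nat_lit 0x305305), (nat_lit 4)⟩))
(.nd (.lf ⟨(nat_lit 0), (nat_lit 0), (nat_lit 260), (nat_lit 2)⟩)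
(.lf ⟨(nat_lit 0x21030a40c28840c29030a), (nat_lit 14), (nat_lit 0x21030a40c28840c29030a), (nat_lit 14)⟩)))
(.nd (.nd (.lf ⟨(nat_lit 85), (nat_lit 2), (nat_lit 0x550150141), (nat_lit 6)⟩)
(.lf ⟨(nat_lit 400), (nat_lit 2), (nat_lit 0x1635030b34b24c209206), (nat_lit 13)⟩))
(.nd (.lf ⟨(nat_lit 471), (nat_lit 2), (nat_lit 0x5ca44a447), (nat_lit 6)⟩)
(.lf ⟨(nat_lit 0), (nat_lit 0), (nat_lit 0x550550), (nat_lit 4)⟩)))))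
(.nd (.nd (.nd (.nd (.nd (.lf ⟨(nat_lit 0xc20c2), (nat_lit 4), (nat_lit 0x83083), (nat_lit 4)⟩)
(.lf ⟨(nat_lit 0x691346691346), (nat_lit 8), (nat_lit 0x346691346691), (nat_lit 8)⟩))
(.lf ⟨(nat_lit 148), (nat_lit 2), (nat_lit 0x502), (nat_lit 2)⟩))
(.nd (.lf ⟨(nat_lit 0x11a11a), (nat_lit 4), (nat_lit 0x684684), (nat_lit 4)⟩)
(.lf ⟨(nat_lit 0x1565534b34b30b30b), (nat_lit 11), (nat_lit 0xc2cc2d565534b34b), (nat_lit 11)⟩)))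
(.nd (.nd (.lf ⟨(nat_lit 0x44cf), (nat_lit 3), (nat_lit 0x3c44d4), (nat_lit 4)⟩)
(.lf ⟨(nat_lit 522), (nat_lit 2), (nat_lit 0x5cb4542ca448), (nat_lit 8)⟩))
(.nd (.lf ⟨(nat_lit 336), (nat_lit 2), (nat_lit 0x405), (nat_lit 2)⟩)
(.lf ⟨(nat_lit 473), (nat_lit 2), (nat_lit 0x647), (nat_lit 2)⟩))))
(.nd (.nd (.nd (.nd (.lf ⟨(nat_lit 0x30210c084), (nat_lit 6), (nat_lit 0x10c084302), (nat_lit 6)⟩)
(.lf ⟨(nat_lit 0x592592), (nat_lit 4), (nat_lit 0), (nat_lit 0)⟩))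
(.lf ⟨(nat_lit 8), (nat_lit 1), (nat_lit 0x2031080c4), (nat_lit 6)⟩))
(.nd (.lf ⟨(nat_lit 0), (nat_lit 0), (nat_lit 0x93093), (nat_lit 4)⟩)
(.lf ⟨(nat_lit 0x582582), (nat_lit 4), (nat_lit 0x96096), (nat_lit 4)⟩)))
(.nd (.nd (.lf ⟨(nat_lit 91), (nat_lit 2), (nat_lit 0x5c66d7181), (nat_lit 6)⟩)
(.lf ⟨(nat_lit 0x61b61b), (nat_lit 4), (nat_lit 0x6d86d8), (nat_lit 4)⟩))
(.nd (.lf ⟨(nat_lit 0x30f30f), (nat_lit 4), (nat_lit 0x3cc3cc), (nat_lit 4)⟩)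
(.lf ⟨(nat_lit 0x34a34a44a44a), (nat_lit 8), (nat_lit 0x44a44a34a34a), (nat_lit 8)⟩)))))))
(.nd (.nd (.nd (.nd (.nd (.nd (.nd (.lf ⟨(nat_lit 25), (nat_lit 1), (nat_lit 0xd30d3), (nat_lit 4)⟩)
(.lf ⟨(nat_lit 464), (nat_lit 2), (nat_lit 0x1a407), (nat_lit 3)⟩))
(.lf ⟨(nat_lit 0x40b40c2cc), (nat_lit 6), (nat_lit 0x2d030b310), (nat_lit 6)⟩))
(.nd (.lf ⟨(nat_lit 0x18a1cb), (nat_lit 4), (nat_lit 0x1cb1c6287), (nat_lit 6)⟩)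
(.lf ⟨(nat_lit 0xc2d130b), (nat_lit 5), (nat_lit 0x30b10c2c4), (nat_lit 6)⟩)))
(.nd (.nd (.nd (.lf ⟨(nat_lit 210), (nat_lit 2), (nat_lit 0x3923863882c62c8383), (nat_lit 12)⟩)
(.lf ⟨(nat_lit 0x408195206550206548195), (nat_lit 14), (nat_lit 0x408195206550206548195), (nat_lit 14)⟩))
(.lf ⟨(nat_lit 0x28c290), (nat_lit 4), (nat_lit 0x55029530a), (nat_lit 6)⟩))
(.nd (.lf ⟨(nat_lit 0), (nat_lit 0), (nat_lit 0x3d325324f4c94c9), (nat_lit 10)⟩)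
(.lf ⟨(nat_lit 0x190d8), (nat_lit 3), (nat_lit 0x18643), (nat_lit 3)⟩))))
(.nd (.nd (.nd (.nd (.lf ⟨(nat_lit 0x301301), (nat_lit 4), (nat_lit 0x4c04c), (nat_lit 4)⟩)
(.lf ⟨(nat_lit 0x25b5534503913ce25b5534503913ce), (nat_lit 20), (nat_lit 0x25b5534503913ce25b5534503913ce), (nat_lit 20)⟩))
(.lf ⟨(nat_lit 783), (nat_lit 2), (nat_lit 972), (nat_lit 2)⟩))
(.nd (.lf ⟨(nat_lit 0xb34f), (nat_lit 3), (nat_lit 0xd3cd2cd), (nat_lit 5)⟩)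
(.lf ⟨(nat_lit 0x5d85cd40a41828d), (nat_lit 10), (nat_lit 0x5cd6055cd605), (nat_lit 8)⟩)))
(.nd (.nd (.lf ⟨(nat_lit 785), (nat_lit 2), (nat_lit 0x44c), (nat_lit 2)⟩)
(.lf ⟨(nat_lit 88), (nat_lit 2), (nat_lit 0x60d28d281), (nat_lit 6)⟩))
(.nd (.lf ⟨(nat_lit 0x5c12172875c72172875c75c12172875c72172875c7), (nat_lit 28), (nat_lit 0x5c12172875c72172875c75c12172875c72172875c7), (nat_lit 28)⟩)
(.lf ⟨(nat_lit 0xd75112912835d444a44a), (nat_lit 14), (nat_lit 0xd75112912835d444a44a), (nat_lit 14)⟩)))))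
(.nd (.nd (.nd (.nd (.nd (.lf ⟨(nat_lit 0x659), (nat_lit 2), (nat_lit 0), (nat_lit 0)⟩)
(.lf ⟨(nat_lit 987), (nat_lit 2), (nat_lit 0x6cf), (nat_lit 2)⟩))
(.lf ⟨(nat_lit 463), (nat_lit 2), (nat_lit 967), (nat_lit 2)⟩))
(.nd (.lf ⟨(nat_lit 0x39138e44e), (nat_lit 6), (nat_lit 0), (nat_lit 0)⟩)
(.lf ⟨(nat_lit 0xd4103504), (nat_lit 6), (nat_lit 0xd4103504), (nat_lit 6)⟩)))
(.nd (.nd (.lf ⟨(nat_lit 0x824c), (nat_lit 3), (nat_lit 0x9309209), (nat_lit 5)⟩)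
(.lf ⟨(nat_lit 216), (nat_lit 2), (nat_lit 0x358343), (nat_lit 4)⟩))
(.nd (.lf ⟨(nat_lit 0), (nat_lit 0), (nat_lit 0x11b5c85c86d72172046d721721b5c85c8), (nat_lit 22)⟩)
(.lf ⟨(nat_lit 0xa44e), (nat_lit 3), (nat_lit 0x1751139751139b5ce51139b5ce511291), (nat_lit 21)⟩))))
(.nd (.nd (.nd (.nd (.lf ⟨(nat_lit 214), (nat_lit 2), (nat_lit 0x416416416403), (nat_lit 8)⟩)
(.lf ⟨(nat_lit 912), (nat_lit 2), (nat_lit 0x40e), (nat_lit 2)⟩))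
(.lf ⟨(nat_lit 142), (nat_lit 2), (nat_lit 0x34e28d282), (nat_lit 6)⟩))
(.nd (.lf ⟨(nat_lit 12), (nat_lit 1), (nat_lit 0x202202), (nat_lit 4)⟩)
(.lf ⟨(nat_lit 0x281443281443), (nat_lit 8), (nat_lit 0x281443281443), (nat_lit 8)⟩)))
(.nd (.nd (.lf ⟨(nat_lit 406), (nat_lit 2), (nat_lit 0x586), (nat_lit 2)⟩)
(.lf ⟨(nat_lit 0x34f34f), (nat_lit 4), (nat_lit 0), (nat_lit 0)⟩))
(.nd (.lf ⟨(nat_lit 0), (nat_lit 0), (nat_lit 0x28a1122ca10a28448b284), (nat_lit 14)⟩)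
(.lf ⟨(nat_lit 24), (nat_lit 1), (nat_lit 0x3ca24f289), (nat_lit 6)⟩))))))
(.nd (.nd (.nd (.nd (.nd (.nd (.lf ⟨(nat_lit 139), (nat_lit 2), (nat_lit 0xf2c2), (nat_lit 3)⟩)
(.lf ⟨(nat_lit 0x969b), (nat_lit 3), (nat_lit 0x1b25a), (nat_lit 3)⟩))
(.lf ⟨(nat_lit 0x961d61c2), (nat_lit 6), (nat_lit 0x96087096087), (nat_lit 8)⟩))
(.nd (.lf ⟨(nat_lit 0x628b18a), (nat_lit 5), (nat_lit 0xb28b18a2c6), (nat_lit 7)⟩)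
(.lf ⟨(nat_lit 0x2389389), (nat_lit 5), (nat_lit 0xe24e242), (nat_lit 5)⟩)))
(.nd (.nd (.nd (.lf ⟨(nat_lit 0x113113), (nat_lit 4), (nat_lit 0x4c44c4), (nat_lit 4)⟩)
(.lf ⟨(nat_lit 0x308d), (nat_lit 3), (nat_lit 0xd0c2), (nat_lit 3)⟩))
(.lf ⟨(nat_lit 0x683683683683), (nat_lit 8), (nat_lit 0), (nat_lit 0)⟩))
(.nd (.lf ⟨(nat_lit 0), (nat_lit 0), (nat_lit 715), (nat_lit 2)⟩)
(.lf ⟨(nat_lit 0x55a), (nat_lit 2), (nat_lit 0x695), (nat_lit 2)⟩))))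
(.nd (.nd (.nd (.nd (.lf ⟨(nat_lit 0x187187), (nat_lit 4), (nat_lit 0x1c61c6), (nat_lit 4)⟩)
(.lf ⟨(nat_lit 0xe44f), (nat_lit 3), (nat_lit 0x1b61b60f391), (nat_lit 7)⟩))
(.lf ⟨(nat_lit 0x413), (nat_lit 2), (nat_lit 0x4d0), (nat_lit 2)⟩))
(.nd (.lf ⟨(nat_lit 344), (nat_lit 2), (nat_lit 0x605), (nat_lit 2)⟩)
(.lf ⟨(nat_lit 0x34f6123d848d), (nat_lit 8), (nat_lit 0x34b35834b358), (nat_lit 8)⟩)))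
(.nd (.nd (.lf ⟨(nat_lit 207), (nat_lit 2), (nat_lit 0x34f2cd2c3), (nat_lit 6)⟩)
(.lf ⟨(nat_lit 0x930b), (nat_lit 3), (nat_lit 0x64b34c2cd30b24c), (nat_lit 10)⟩))
(.nd (.lf ⟨(nat_lit 0x58e0d139638344e), (nat_lit 10), (nat_lit 0x5833913960ce44e), (nat_lit 10)⟩)
(.lf ⟨(nat_lit 0xa44f), (nat_lit 3), (nat_lit 0x1140f4503d140f4503d140f450291), (nat_lit 19)⟩)))))
(.nd (.nd (.nd (.nd (.nd (.lf ⟨(nat_lit 520), (nat_lit 2), (nat_lit 0), (nat_lit 0)⟩)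
(.lf ⟨(nat_lit 0x38c38c), (nat_lit 4), (nat_lit 0x251251), (nat_lit 4)⟩))
(.lf ⟨(nat_lit 0x28118a40c28c18a40c28c28118a40c28c18a40c28c), (nat_lit 28), (nat_lit 0x28118a40c28c18a40c28c28118a40c28c18a40c28c), (nat_lit 28)⟩))
(.nd (.lf ⟨(nat_lit 0x65b65b), (nat_lit 4), (nat_lit 0x6d96d9), (nat_lit 4)⟩)
(.lf ⟨(nat_lit 0xd54d03cc2cc2c355340f30b30b), (nat_lit 18), (nat_lit 0xd54d03cc2cc2c355340f30b30b), (nat_lit 18)⟩)))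
(.nd (.nd (.lf ⟨(nat_lit 77), (nat_lit 2), (nat_lit 833), (nat_lit 2)⟩)
(.lf ⟨(nat_lit 601), (nat_lit 2), (nat_lit 0x649), (nat_lit 2)⟩))
(.nd (.lf ⟨(nat_lit 85), (nat_lit 2), (nat_lit 0x541), (nat_lit 2)⟩)
(.lf ⟨(nat_lit 0x6cd6cd), (nat_lit 4), (nat_lit 0), (nat_lit 0)⟩))))
(.nd (.nd (.nd (.nd (.lf ⟨(nat_lit 0x307307), (nat_lit 4), (nat_lit 0x1cc1cc), (nat_lit 4)⟩)
(.lf ⟨(nat_lit 0x1b5111c61c6), (nat_lit 7), (nat_lit 0x1cb2061cb206), (nat_lit 8)⟩))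
(.lf ⟨(nat_lit 0), (nat_lit 0), (nat_lit 0x243243), (nat_lit 4)⟩))
(.nd (.lf ⟨(nat_lit 0), (nat_lit 0), (nat_lit 0x188188), (nat_lit 4)⟩)
(.lf ⟨(nat_lit 0xa40f30b), (nat_lit 5), (nat_lit 0x103cc2cc28c), (nat_lit 7)⟩)))
(.nd (.nd (.lf ⟨(nat_lit 0x1c4187106), (nat_lit 6), (nat_lit 0x1871061c4), (nat_lit 6)⟩)
(.lf ⟨(nat_lit 0x30130758c58704c1d63161cc04c1d63161c130758c587), (nat_lit 30), (nat_lit 0x30130758c58704c1d63161cc04c1d63161c130758c587), (nat_lit 30)⟩))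
(.nd (.lf ⟨(nat_lit 0x8d19a19a34234668668d), (nat_lit 14), (nat_lit 0x8d19a19a34234668668d), (nat_lit 14)⟩)
(.lf ⟨(nat_lit 0x5c95c95c95c9), (nat_lit 8), (nat_lit 0x1972572465c95c9), (nat_lit 10)⟩)))))))))
(.nd (.nd (.nd (.nd (.nd (.nd (.nd (.nd (.nd (.lf ⟨(nat_lit 5), (nat_lit 1), (nat_lit 0x42042), (nat_lit 4)⟩)
(.lf ⟨(nat_lit 0x11638a58a11638a58a), (nat_lit 12), (nat_lit 0x11638a58a11638a58a), (nat_lit 12)⟩))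
(.lf ⟨(nat_lit 0x54d25534954d255349), (nat_lit 12), (nat_lit 0), (nat_lit 0)⟩))
(.nd (.lf ⟨(nat_lit 527), (nat_lit 2), (nat_lit 0x3cc2cc2c8), (nat_lit 6)⟩)
(.lf ⟨(nat_lit 0xe5d42d12ca44a), (nat_lit 9), (nat_lit 0x1750b44b29128e), (nat_lit 9)⟩)))
(.nd (.nd (.nd (.lf ⟨(nat_lit 0x10130404c), (nat_lit 6), (nat_lit 0x30404c101), (nat_lit 6)⟩)
(.lf ⟨(nat_lit 391), (nat_lit 2), (nat_lit 0x185c91d655235038b34c2c9306), (nat_lit 17)⟩))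
(.lf ⟨(nat_lit 0x1530a30a), (nat_lit 5), (nat_lit 0xc28c295), (nat_lit 5)⟩))
(.nd (.lf ⟨(nat_lit 0x215215), (nat_lit 4), (nat_lit 0x215215), (nat_lit 4)⟩)
(.lf ⟨(nat_lit 0xd46d751b5c3), (nat_lit 8), (nat_lit 0xd40d70d40d7), (nat_lit 8)⟩))))
(.nd (.nd (.nd (.nd (.lf ⟨(nat_lit 0x143143), (nat_lit 4), (nat_lit 0xc50c5), (nat_lit 4)⟩)
(.lf ⟨(nat_lit 0x6d64503913906d6450391390), (nat_lit 16), (nat_lit 0), (nat_lit 0)⟩))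
(.lf ⟨(nat_lit 600), (nat_lit 2), (nat_lit 0x609), (nat_lit 2)⟩))
(.nd (.lf ⟨(nat_lit 0x4434510d1), (nat_lit 6), (nat_lit 0), (nat_lit 0)⟩)
(.lf ⟨(nat_lit 26), (nat_lit 1), (nat_lit 0x973425cd), (nat_lit 6)⟩)))
(.nd (.nd (.lf ⟨(nat_lit 279), (nat_lit 2), (nat_lit 0x5c4), (nat_lit 2)⟩)
(.lf ⟨(nat_lit 0x2cc2cd), (nat_lit 4), (nat_lit 0x34b30b), (nat_lit 4)⟩))
(.nd (.lf ⟨(nat_lit 0x20a30a20a30a), (nat_lit 8), (nat_lit 0x20c28c28830a30a), (nat_lit 10)⟩)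
(.lf ⟨(nat_lit 283), (nat_lit 2), (nat_lit 0x6c4), (nat_lit 2)⟩)))))
(.nd (.nd (.nd (.nd (.nd (.lf ⟨(nat_lit 78), (nat_lit 2), (nat_lit 0x12381), (nat_lit 3)⟩)
(.lf ⟨(nat_lit 0xe590396), (nat_lit 5), (nat_lit 0x1648e59240e), (nat_lit 7)⟩))
(.lf ⟨(nat_lit 0x59099081642642), (nat_lit 10), (nat_lit 0x59099081642642), (nat_lit 10)⟩))
(.nd (.lf ⟨(nat_lit 0x44c44c), (nat_lit 4), (nat_lit 0), (nat_lit 0)⟩)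
(.lf ⟨(nat_lit 337), (nat_lit 2), (nat_lit 0x45030a40c285), (nat_lit 8)⟩)))
(.nd (.nd (.lf ⟨(nat_lit 0x151151), (nat_lit 4), (nat_lit 0x445445), (nat_lit 4)⟩)
(.lf ⟨(nat_lit 459), (nat_lit 2), (nat_lit 0x142c7), (nat_lit 3)⟩))
(.nd (.lf ⟨(nat_lit 0), (nat_lit 0), (nat_lit 0x285285), (nat_lit 4)⟩)
(.lf ⟨(nat_lit 978), (nat_lit 2), (nat_lit 0x48f), (nat_lit 2)⟩))))
(.nd (.nd (.nd (.nd (.lf ⟨(nat_lit 0x401401), (nat_lit 4), (nat_lit 0x50050), (nat_lit 4)⟩)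
(.lf ⟨(nat_lit 599), (nat_lit 2), (nat_lit 0x5d0390389), (nat_lit 6)⟩))
(.lf ⟨(nat_lit 0x48a58a58a592296), (nat_lit 10), (nat_lit 0x18a59229618a592296), (nat_lit 12)⟩))
(.nd (.lf ⟨(nat_lit 0x38d38d), (nat_lit 4), (nat_lit 0x34e34e), (nat_lit 4)⟩)
(.lf ⟨(nat_lit 0x216408590), (nat_lit 6), (nat_lit 0x216408590), (nat_lit 6)⟩)))
(.nd (.nd (.lf ⟨(nat_lit 397), (nat_lit 2), (nat_lit 838), (nat_lit 2)⟩)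
(.lf ⟨(nat_lit 0x605605), (nat_lit 4), (nat_lit 0), (nat_lit 0)⟩))
(.nd (.lf ⟨(nat_lit 0x4505d1417), (nat_lit 6), (nat_lit 0x5cc5cc), (nat_lit 4)⟩)
(.lf ⟨(nat_lit 0), (nat_lit 0), (nat_lit 0x646646), (nat_lit 4)⟩))))))
(.nd (.nd (.nd (.nd (.nd (.nd (.lf ⟨(nat_lit 0xc40c4), (nat_lit 4), (nat_lit 0x103103), (nat_lit 4)⟩)
(.lf ⟨(nat_lit 0x49a), (nat_lit 2), (nat_lit 0x61a5d85d2), (nat_lit 6)⟩))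
(.lf ⟨(nat_lit 0x348348), (nat_lit 4), (nat_lit 0x303303), (nat_lit 4)⟩))
(.nd (.lf ⟨(nat_lit 0x345345), (nat_lit 4), (nat_lit 0), (nat_lit 0)⟩)
(.lf ⟨(nat_lit 0x450450), (nat_lit 4), (nat_lit 0x317317), (nat_lit 4)⟩)))
(.nd (.nd (.nd (.lf ⟨(nat_lit 0x38308e0c2), (nat_lit 6), (nat_lit 0x8e0c2383), (nat_lit 6)⟩)
(.lf ⟨(nat_lit 0x206148185), (nat_lit 6), (nat_lit 0x206148185), (nat_lit 6)⟩))
(.lf ⟨(nat_lit 0x409589409589), (nat_lit 8), (nat_lit 0x416256250589589), (nat_lit 10)⟩))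
(.nd (.lf ⟨(nat_lit 0x2821125d228249748a08449748a0925d22822821125d228249748a08449748a0925d2282), (nat_lit 48), (nat_lit 0x2821125d228249748a08449748a0925d22822821125d228249748a08449748a0925d2282), (nat_lit 48)⟩)
(.lf ⟨(nat_lit 0xa34f), (nat_lit 3), (nat_lit 0xe4cf39939339928d), (nat_lit 11)⟩))))
(.nd (.nd (.nd (.nd (.lf ⟨(nat_lit 0x302302), (nat_lit 4), (nat_lit 0x8c08c), (nat_lit 4)⟩)
(.lf ⟨(nat_lit 0x391395), (nat_lit 4), (nat_lit 0x54e44e), (nat_lit 4)⟩))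
(.lf ⟨(nat_lit 328), (nat_lit 2), (nat_lit 0x5504cf30b30b205), (nat_lit 10)⟩))
(.nd (.lf ⟨(nat_lit 0x288288), (nat_lit 4), (nat_lit 0x20a20a), (nat_lit 4)⟩)
(.lf ⟨(nat_lit 0x15288), (nat_lit 3), (nat_lit 0x1750b44b29128854a), (nat_lit 11)⟩)))
(.nd (.nd (.lf ⟨(nat_lit 0x19218e), (nat_lit 4), (nat_lit 0x386486), (nat_lit 4)⟩)
(.lf ⟨(nat_lit 153), (nat_lit 2), (nat_lit 0x642), (nat_lit 2)⟩))
(.nd (.lf ⟨(nat_lit 535), (nat_lit 2), (nat_lit 0x5d12d12c8), (nat_lit 6)⟩)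
(.lf ⟨(nat_lit 0x30e30e), (nat_lit 4), (nat_lit 0x38c38c), (nat_lit 4)⟩)))))
(.nd (.nd (.nd (.nd (.nd (.lf ⟨(nat_lit 69), (nat_lit 2), (nat_lit 0x85085085081), (nat_lit 8)⟩)
(.lf ⟨(nat_lit 0x28d40e), (nat_lit 4), (nat_lit 0x40e59839661039660d39660d40e40a350), (nat_lit 22)⟩))
(.lf ⟨(nat_lit 0x9b1db1c26c76c7), (nat_lit 10), (nat_lit 0x9b1db1c26c76c7), (nat_lit 10)⟩))
(.nd (.lf ⟨(nat_lit 0x69a), (nat_lit 2), (nat_lit 0), (nat_lit 0)⟩)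
(.lf ⟨(nat_lit 0x3cb5492095483cb549209548), (nat_lit 16), (nat_lit 0x3cb5492095483cb549209548), (nat_lit 16)⟩)))
(.nd (.nd (.lf ⟨(nat_lit 0x838a20a), (nat_lit 5), (nat_lit 0xa20e288), (nat_lit 5)⟩)
(.lf ⟨(nat_lit 0x453), (nat_lit 2), (nat_lit 0x4d1), (nat_lit 2)⟩))
(.nd (.lf ⟨(nat_lit 0), (nat_lit 0), (nat_lit 0x1cc28c28730a30a), (nat_lit 10)⟩)
(.lf ⟨(nat_lit 0x2903d1), (nat_lit 4), (nat_lit 0x40f4503d140f4503d140f4503d129140f), (nat_lit 22)⟩))))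
(.nd (.nd (.nd (.nd (.lf ⟨(nat_lit 0x444444), (nat_lit 4), (nat_lit 0x111111), (nat_lit 4)⟩)
(.lf ⟨(nat_lit 527), (nat_lit 2), (nat_lit 0x1b3c8), (nat_lit 3)⟩))
(.lf ⟨(nat_lit 0x40641034919035024641019040d24640d409190), (nat_lit 26), (nat_lit 0x40641034919035024641019040d24640d409190), (nat_lit 26)⟩))
(.nd (.lf ⟨(nat_lit 0x1d029028740a40a), (nat_lit 10), (nat_lit 0x1d029028740a40a), (nat_lit 10)⟩)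
(.lf ⟨(nat_lit 91), (nat_lit 2), (nat_lit 0x6d7197181), (nat_lit 6)⟩)))
(.nd (.nd (.lf ⟨(nat_lit 84), (nat_lit 2), (nat_lit 0x5135044d4101), (nat_lit 8)⟩)
(.lf ⟨(nat_lit 0x281646281646), (nat_lit 8), (nat_lit 0x646281646281), (nat_lit 8)⟩))
(.nd (.lf ⟨(nat_lit 0x30210c24630610c24630630210c24630610c246306), (nat_lit 28), (nat_lit 0x30210c24630610c24630630210c24630610c246306), (nat_lit 28)⟩)
(.lf ⟨(nat_lit 0x44a44a), (nat_lit 4), (nat_lit 0x11a11a), (nat_lit 4)⟩)))))))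
(.nd (.nd (.nd (.nd (.nd (.nd (.nd (.lf ⟨(nat_lit 21), (nat_lit 1), (nat_lit 0x90090), (nat_lit 4)⟩)
(.lf ⟨(nat_lit 0x68a41a290), (nat_lit 6), (nat_lit 0), (nat_lit 0)⟩))
(.lf ⟨(nat_lit 0x2d030b40b30b), (nat_lit 8), (nat_lit 0x4b40c2cc04b40c2cc), (nat_lit 12)⟩))
(.nd (.lf ⟨(nat_lit 275), (nat_lit 2), (nat_lit 0x213204), (nat_lit 4)⟩)
(.lf ⟨(nat_lit 0), (nat_lit 0), (nat_lit 0x60f6183d8), (nat_lit 6)⟩)))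
(.nd (.nd (.nd (.lf ⟨(nat_lit 0x5c15c1), (nat_lit 4), (nat_lit 0x57057), (nat_lit 4)⟩)
(.lf ⟨(nat_lit 27), (nat_lit 1), (nat_lit 0x408190206), (nat_lit 6)⟩))
(.lf ⟨(nat_lit 0x15120e20520e20544838814838814544838814838815120e20520e205), (nat_lit 38), (nat_lit 0x15120e20520e20544838814838814544838814838815120e20520e205), (nat_lit 38)⟩))
(.nd (.lf ⟨(nat_lit 19), (nat_lit 1), (nat_lit 0x3c13c1), (nat_lit 4)⟩)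
(.lf ⟨(nat_lit 24), (nat_lit 1), (nat_lit 0x482482), (nat_lit 4)⟩))))
(.nd (.nd (.nd (.nd (.lf ⟨(nat_lit 715), (nat_lit 2), (nat_lit 0), (nat_lit 0)⟩)
(.lf ⟨(nat_lit 0xb34c2cd), (nat_lit 5), (nat_lit 0x6cd30b35139138b), (nat_lit 10)⟩))
(.lf ⟨(nat_lit 15), (nat_lit 1), (nat_lit 0x8b08b), (nat_lit 4)⟩))
(.nd (.lf ⟨(nat_lit 0x24f24f), (nat_lit 4), (nat_lit 0x3c93c9), (nat_lit 4)⟩)
(.lf ⟨(nat_lit 0x2cd2d1), (nat_lit 4), (nat_lit 0x5d158b45631b5d131b34b), (nat_lit 14)⟩)))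
(.nd (.nd (.lf ⟨(nat_lit 0x5246), (nat_lit 3), (nat_lit 0x349185), (nat_lit 4)⟩)
(.lf ⟨(nat_lit 89), (nat_lit 2), (nat_lit 0x64d2cd2c1), (nat_lit 6)⟩))
(.nd (.lf ⟨(nat_lit 0x172875c7), (nat_lit 5), (nat_lit 0x5c11d7047), (nat_lit 6)⟩)
(.lf ⟨(nat_lit 0x28d291), (nat_lit 4), (nat_lit 0x49b65b5d95d244a34a), (nat_lit 12)⟩)))))
(.nd (.nd (.nd (.nd (.nd (.lf ⟨(nat_lit 0x92092), (nat_lit 4), (nat_lit 0x482482), (nat_lit 4)⟩)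
(.lf ⟨(nat_lit 0xa450), (nat_lit 3), (nat_lit 0x10291), (nat_lit 3)⟩))
(.lf ⟨(nat_lit 0x1cb1c9), (nat_lit 4), (nat_lit 0x2c92c72c7), (nat_lit 6)⟩))
(.nd (.lf ⟨(nat_lit 0x60f2d83cb), (nat_lit 6), (nat_lit 0x3cb60f2d8), (nat_lit 6)⟩)
(.lf ⟨(nat_lit 0x31830a54c61560c29531855830c60c29531855830a54c61560c), (nat_lit 34), (nat_lit 0x31830a54c61560c29531855830c60c29531855830a54c61560c), (nat_lit 34)⟩)))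
(.nd (.nd (.lf ⟨(nat_lit 0x20e20e), (nat_lit 4), (nat_lit 0x388388), (nat_lit 4)⟩)
(.lf ⟨(nat_lit 0x938a), (nat_lit 3), (nat_lit 0x34e358289), (nat_lit 6)⟩))
(.nd (.lf ⟨(nat_lit 0x590256409409409590256409409409), (nat_lit 20), (nat_lit 0), (nat_lit 0)⟩)
(.lf ⟨(nat_lit 265), (nat_lit 2), (nat_lit 0x1950d3cb34b1c9187184), (nat_lit 13)⟩))))
(.nd (.nd (.nd (.nd (.lf ⟨(nat_lit 0x28e28e), (nat_lit 4), (nat_lit 0x38a38a), (nat_lit 4)⟩)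
(.lf ⟨(nat_lit 0), (nat_lit 0), (nat_lit 0x38864e219), (nat_lit 6)⟩))
(.lf ⟨(nat_lit 0x238d), (nat_lit 3), (nat_lit 0xe34e08e), (nat_lit 5)⟩))
(.nd (.lf ⟨(nat_lit 0), (nat_lit 0), (nat_lit 0x104104), (nat_lit 4)⟩)
(.lf ⟨(nat_lit 0x25a25a25a25a), (nat_lit 8), (nat_lit 0), (nat_lit 0)⟩)))
(.nd (.nd (.lf ⟨(nat_lit 154), (nat_lit 2), (nat_lit 0x682), (nat_lit 2)⟩)
(.lf ⟨(nat_lit 0x20a1c8287), (nat_lit 6), (nat_lit 0x28720a1c8), (nat_lit 6)⟩))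
(.nd (.lf ⟨(nat_lit 0x2d12db), (nat_lit 4), (nat_lit 0x45b44b44b), (nat_lit 6)⟩)
(.lf ⟨(nat_lit 0), (nat_lit 0), (nat_lit 0x6c16c1), (nat_lit 4)⟩))))))
(.nd (.nd (.nd (.nd (.nd (.nd (.lf ⟨(nat_lit 910), (nat_lit 2), (nat_lit 0), (nat_lit 0)⟩)
(.lf ⟨(nat_lit 977), (nat_lit 2), (nat_lit 0x44f), (nat_lit 2)⟩))
(.lf ⟨(nat_lit 659), (nat_lit 2), (nat_lit 0x4ca), (nat_lit 2)⟩))
(.nd (.lf ⟨(nat_lit 0x2c42c4), (nat_lit 4), (nat_lit 0), (nat_lit 0)⟩)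
(.lf ⟨(nat_lit 0), (nat_lit 0), (nat_lit 0x386386), (nat_lit 4)⟩)))
(.nd (.nd (.nd (.lf ⟨(nat_lit 0x341341), (nat_lit 4), (nat_lit 0), (nat_lit 0)⟩)
(.lf ⟨(nat_lit 199), (nat_lit 2), (nat_lit 0x6584d244c1c3), (nat_lit 8)⟩))
(.lf ⟨(nat_lit 0x45a), (nat_lit 2), (nat_lit 0x691), (nat_lit 2)⟩))
(.nd (.lf ⟨(nat_lit 0), (nat_lit 0), (nat_lit 0x486486), (nat_lit 4)⟩)
(.lf ⟨(nat_lit 0x599), (nat_lit 2), (nat_lit 0x656), (nat_lit 2)⟩))))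
(.nd (.nd (.nd (.nd (.lf ⟨(nat_lit 0x147147), (nat_lit 4), (nat_lit 0x1c51c5), (nat_lit 4)⟩)
(.lf ⟨(nat_lit 0xb34a34a), (nat_lit 5), (nat_lit 0x608058201), (nat_lit 6)⟩))
(.lf ⟨(nat_lit 0xb44c2cc), (nat_lit 5), (nat_lit 0x1130b44c2d1), (nat_lit 7)⟩))
(.nd (.lf ⟨(nat_lit 0x38138238204e08e08e04e08e081382382), (nat_lit 22), (nat_lit 0x38138238204e08e08e04e08e081382382), (nat_lit 22)⟩)
(.lf ⟨(nat_lit 0x34b34d2cd), (nat_lit 6), (nat_lit 0), (nat_lit 0)⟩)))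
(.nd (.nd (.lf ⟨(nat_lit 0x6653193), (nat_lit 5), (nat_lit 0x131994c6), (nat_lit 5)⟩)
(.lf ⟨(nat_lit 730), (nat_lit 2), (nat_lit 0x3da5d45d05103cb), (nat_lit 10)⟩))
(.nd (.lf ⟨(nat_lit 0x44a44a44a44a), (nat_lit 8), (nat_lit 0x11129128444a44a), (nat_lit 10)⟩)
(.lf ⟨(nat_lit 0x1c840c29030a21030a40c28721030a40c28840c29030a), (nat_lit 30), (nat_lit 0x1c840c29030a21030a40c28721030a40c28840c29030a), (nat_lit 30)⟩)))))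
(.nd (.nd (.nd (.nd (.nd (.lf ⟨(nat_lit 0xc60c6), (nat_lit 4), (nat_lit 0x183183), (nat_lit 4)⟩)
(.lf ⟨(nat_lit 0x28d40e), (nat_lit 4), (nat_lit 0x40e58e40e59039038a350), (nat_lit 14)⟩))
(.lf ⟨(nat_lit 0xa40c28c), (nat_lit 5), (nat_lit 0x28130a04c), (nat_lit 6)⟩))
(.nd (.lf ⟨(nat_lit 0x6d96db65b), (nat_lit 6), (nat_lit 0), (nat_lit 0)⟩)
(.lf ⟨(nat_lit 538), (nat_lit 2), (nat_lit 0x6943d141444f45051141444f4503c8), (nat_lit 20)⟩)))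
(.nd (.nd (.lf ⟨(nat_lit 75), (nat_lit 2), (nat_lit 705), (nat_lit 2)⟩)
(.lf ⟨(nat_lit 280), (nat_lit 2), (nat_lit 0x604), (nat_lit 2)⟩))
(.nd (.lf ⟨(nat_lit 0x1cf6cf20734c20710d10f6cf20734c20710d1073db3c81cd3081c43443db3c81cd3081c4344), (nat_lit 50), (nat_lit 0x1cf6cf20734c20710d10f6cf20734c20710d1073db3c81cd3081c43443db3c81cd3081c4344), (nat_lit 50)⟩)
(.lf ⟨(nat_lit 0x5ce5d7397), (nat_lit 6), (nat_lit 0), (nat_lit 0)⟩))))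
(.nd (.nd (.nd (.nd (.lf ⟨(nat_lit 0x247247), (nat_lit 4), (nat_lit 0x1c91c9), (nat_lit 4)⟩)
(.lf ⟨(nat_lit 150), (nat_lit 2), (nat_lit 0x58c24c242), (nat_lit 6)⟩))
(.lf ⟨(nat_lit 539), (nat_lit 2), (nat_lit 0x6c8), (nat_lit 2)⟩))
(.nd (.lf ⟨(nat_lit 0x2c63cb24b), (nat_lit 6), (nat_lit 0x3cb24b2c6), (nat_lit 6)⟩)
(.lf ⟨(nat_lit 0x2554d0), (nat_lit 4), (nat_lit 0x5535994d64d6653593409), (nat_lit 14)⟩)))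
(.nd (.nd (.lf ⟨(nat_lit 0x2c108b042), (nat_lit 6), (nat_lit 0x8b0422c1), (nat_lit 6)⟩)
(.lf ⟨(nat_lit 16), (nat_lit 1), (nat_lit 0x301301), (nat_lit 4)⟩))
(.nd (.lf ⟨(nat_lit 0x35a34d68d), (nat_lit 6), (nat_lit 0), (nat_lit 0)⟩)
(.lf ⟨(nat_lit 0x598598), (nat_lit 4), (nat_lit 0x616616), (nat_lit 4)⟩))))))))
(.nd (.nd (.nd (.nd (.nd (.nd (.nd (.nd (.lf ⟨(nat_lit 14), (nat_lit 1), (nat_lit 0xca0ca), (nat_lit 4)⟩)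
(.lf ⟨(nat_lit 342), (nat_lit 2), (nat_lit 0x585), (nat_lit 2)⟩))
(.lf ⟨(nat_lit 0x654d255349), (nat_lit 7), (nat_lit 0x1534954d246), (nat_lit 7)⟩))
(.nd (.lf ⟨(nat_lit 529), (nat_lit 2), (nat_lit 0x448), (nat_lit 2)⟩)
(.lf ⟨(nat_lit 0x5629628158a58a), (nat_lit 10), (nat_lit 0x5629628158a58a), (nat_lit 10)⟩)))
(.nd (.nd (.nd (.lf ⟨(nat_lit 0x4c14c1), (nat_lit 4), (nat_lit 0x53053), (nat_lit 4)⟩)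
(.lf ⟨(nat_lit 0x3ce3ce), (nat_lit 4), (nat_lit 0), (nat_lit 0)⟩))
(.lf ⟨(nat_lit 0x2cd2d9), (nat_lit 4), (nat_lit 0x35934b34b), (nat_lit 6)⟩))
(.nd (.lf ⟨(nat_lit 213), (nat_lit 2), (nat_lit 0x4cf30b30f30b30f30b40c2cc2554133d030b40c2c83495504cf40c2d030b2151504cf40c2d030b2095504cf40c2d030b20d2554133d030b40c2c85454133d030b40c2c834f2d540c4cb5504cf40c2d030b20d5454133d030b40c2c8143), (nat_lit 124)⟩)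
(.lf ⟨(nat_lit 0x1a612692), (nat_lit 5), (nat_lit 0x68249a092), (nat_lit 6)⟩))))
(.nd (.nd (.nd (.nd (.lf ⟨(nat_lit 0x184184), (nat_lit 4), (nat_lit 0x106106), (nat_lit 4)⟩)
(.lf ⟨(nat_lit 0x1b44e44e), (nat_lit 5), (nat_lit 0xd40d4), (nat_lit 4)⟩))
(.lf ⟨(nat_lit 0), (nat_lit 0), (nat_lit 0x284481284481), (nat_lit 8)⟩))
(.nd (.lf ⟨(nat_lit 0x4012c84012c8), (nat_lit 8), (nat_lit 0x2c84012c8401), (nat_lit 8)⟩)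
(.lf ⟨(nat_lit 858), (nat_lit 2), (nat_lit 0x68d), (nat_lit 2)⟩)))
(.nd (.nd (.lf ⟨(nat_lit 393), (nat_lit 2), (nat_lit 582), (nat_lit 2)⟩)
(.lf ⟨(nat_lit 0x10517414), (nat_lit 5), (nat_lit 0x145d0510), (nat_lit 5)⟩))
(.nd (.lf ⟨(nat_lit 0x2110d12910d128844344a44344a), (nat_lit 18), (nat_lit 0x2110d12910d128844344a44344a), (nat_lit 18)⟩)
(.lf ⟨(nat_lit 0x41b), (nat_lit 2), (nat_lit 0x6d7597590), (nat_lit 6)⟩)))))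
(.nd (.nd (.nd (.nd (.nd (.lf ⟨(nat_lit 0x555), (nat_lit 2), (nat_lit 0), (nat_lit 0)⟩)
(.lf ⟨(nat_lit 270), (nat_lit 2), (nat_lit 0x5d4391291284), (nat_lit 8)⟩))
(.lf ⟨(nat_lit 0x2c92c9), (nat_lit 4), (nat_lit 0x189109106244244), (nat_lit 10)⟩))
(.nd (.lf ⟨(nat_lit 0x281345281345), (nat_lit 8), (nat_lit 0x345281345281), (nat_lit 8)⟩)
(.lf ⟨(nat_lit 0x358c58c), (nat_lit 5), (nat_lit 0x16316303), (nat_lit 5)⟩)))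
(.nd (.nd (.lf ⟨(nat_lit 0x6309), (nat_lit 3), (nat_lit 0xc24c18c), (nat_lit 5)⟩)
(.lf ⟨(nat_lit 464), (nat_lit 2), (nat_lit 0x30a40c287), (nat_lit 6)⟩))
(.nd (.lf ⟨(nat_lit 0x409409), (nat_lit 4), (nat_lit 0x409409), (nat_lit 4)⟩)
(.lf ⟨(nat_lit 0x969725a), (nat_lit 5), (nat_lit 0x1a25a5c9), (nat_lit 5)⟩))))
(.nd (.nd (.nd (.nd (.lf ⟨(nat_lit 0x302302), (nat_lit 4), (nat_lit 0), (nat_lit 0)⟩)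
(.lf ⟨(nat_lit 782), (nat_lit 2), (nat_lit 0x54e54c), (nat_lit 4)⟩))
(.lf ⟨(nat_lit 328), (nat_lit 2), (nat_lit 0x55340f30b30b205), (nat_lit 10)⟩))
(.nd (.lf ⟨(nat_lit 0x5a1da5c75c16876971d7), (nat_lit 14), (nat_lit 0x5a1da5c75c16876971d7), (nat_lit 14)⟩)
(.lf ⟨(nat_lit 11), (nat_lit 1), (nat_lit 0x48048), (nat_lit 4)⟩)))
(.nd (.nd (.lf ⟨(nat_lit 791), (nat_lit 2), (nat_lit 0x5d14174505cc), (nat_lit 8)⟩)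
(.lf ⟨(nat_lit 0x39a39a), (nat_lit 4), (nat_lit 0x68e68e), (nat_lit 4)⟩))
(.nd (.lf ⟨(nat_lit 0x3d13d1), (nat_lit 4), (nat_lit 0x44f44f), (nat_lit 4)⟩)
(.lf ⟨(nat_lit 0x409409), (nat_lit 4), (nat_lit 0x250250), (nat_lit 4)⟩))))))
(.nd (.nd (.nd (.nd (.nd (.nd (.lf ⟨(nat_lit 71), (nat_lit 2), (nat_lit 0xa1c1), (nat_lit 3)⟩)
(.lf ⟨(nat_lit 0x59a), (nat_lit 2), (nat_lit 0x696), (nat_lit 2)⟩))
(.lf ⟨(nat_lit 0x344344), (nat_lit 4), (nat_lit 0x10d10d), (nat_lit 4)⟩))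
(.nd (.lf ⟨(nat_lit 0x342342), (nat_lit 4), (nat_lit 0), (nat_lit 0)⟩)
(.lf ⟨(nat_lit 0x835b), (nat_lit 3), (nat_lit 0xd31b5d64565d130b44b34b44b20d), (nat_lit 19)⟩)))
(.nd (.nd (.nd (.lf ⟨(nat_lit 0xd40d4), (nat_lit 4), (nat_lit 0x503503), (nat_lit 4)⟩)
(.lf ⟨(nat_lit 403), (nat_lit 2), (nat_lit 0x4c6), (nat_lit 2)⟩))
(.lf ⟨(nat_lit 0x687687), (nat_lit 4), (nat_lit 0x68769a68769a), (nat_lit 8)⟩))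
(.nd (.lf ⟨(nat_lit 0), (nat_lit 0), (nat_lit 0x5da5c76971d76971da5c7), (nat_lit 14)⟩)
(.lf ⟨(nat_lit 0x39b5d2), (nat_lit 4), (nat_lit 0x48e6d7), (nat_lit 4)⟩))))
(.nd (.nd (.nd (.nd (.lf ⟨(nat_lit 206), (nat_lit 2), (nat_lit 0x28e28e28e283), (nat_lit 8)⟩)
(.lf ⟨(nat_lit 0xe590390), (nat_lit 5), (nat_lit 0x1240e59240e), (nat_lit 7)⟩))
(.lf ⟨(nat_lit 0x44f1cb44f44b447), (nat_lit 10), (nat_lit 0x911cb44b1c24472d12c7), (nat_lit 14)⟩))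
(.nd (.lf ⟨(nat_lit 0), (nat_lit 0), (nat_lit 65), (nat_lit 2)⟩)
(.lf ⟨(nat_lit 0x34338a20e28834338a20e288), (nat_lit 16), (nat_lit 0x34338a20e28834338a20e288), (nat_lit 16)⟩)))
(.nd (.nd (.lf ⟨(nat_lit 88), (nat_lit 2), (nat_lit 0x158485481), (nat_lit 6)⟩)
(.lf ⟨(nat_lit 345), (nat_lit 2), (nat_lit 0x645), (nat_lit 2)⟩))
(.nd (.lf ⟨(nat_lit 0), (nat_lit 0), (nat_lit 910), (nat_lit 2)⟩)
(.lf ⟨(nat_lit 0x144244245109109), (nat_lit 10), (nat_lit 0x144244245109109), (nat_lit 10)⟩)))))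
(.nd (.nd (.nd (.nd (.nd (.lf ⟨(nat_lit 135), (nat_lit 2), (nat_lit 0x107107107102), (nat_lit 8)⟩)
(.lf ⟨(nat_lit 0xc390), (nat_lit 3), (nat_lit 0xe40e30e), (nat_lit 5)⟩))
(.lf ⟨(nat_lit 0x3c53c5), (nat_lit 4), (nat_lit 0), (nat_lit 0)⟩))
(.nd (.lf ⟨(nat_lit 0x542542), (nat_lit 4), (nat_lit 0), (nat_lit 0)⟩)
(.lf ⟨(nat_lit 0x3d40d40cf503503), (nat_lit 10), (nat_lit 0x3d40d40cf503503), (nat_lit 10)⟩)))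
(.nd (.nd (.lf ⟨(nat_lit 203), (nat_lit 2), (nat_lit 0x2062c82c818b203), (nat_lit 10)⟩)
(.lf ⟨(nat_lit 730), (nat_lit 2), (nat_lit 0x3da5cf5cb), (nat_lit 6)⟩))
(.nd (.lf ⟨(nat_lit 0xa30a550), (nat_lit 5), (nat_lit 0x1029530a), (nat_lit 5)⟩)
(.lf ⟨(nat_lit 0x206206), (nat_lit 4), (nat_lit 0), (nat_lit 0)⟩))))
(.nd (.nd (.nd (.nd (.lf ⟨(nat_lit 0x2c62c6), (nat_lit 4), (nat_lit 0x18b18b), (nat_lit 4)⟩)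
(.lf ⟨(nat_lit 0), (nat_lit 0), (nat_lit 0x2c12c1), (nat_lit 4)⟩))
(.lf ⟨(nat_lit 17), (nat_lit 1), (nat_lit 0x10c10c), (nat_lit 4)⟩))
(.nd (.lf ⟨(nat_lit 0x34f34f), (nat_lit 4), (nat_lit 0x8d2cd2c234b34b), (nat_lit 10)⟩)
(.lf ⟨(nat_lit 0x258d), (nat_lit 3), (nat_lit 0x16356096), (nat_lit 5)⟩)))
(.nd (.nd (.lf ⟨(nat_lit 0x204204), (nat_lit 4), (nat_lit 0), (nat_lit 0)⟩)
(.lf ⟨(nat_lit 0x9590250), (nat_lit 5), (nat_lit 0x10256409), (nat_lit 5)⟩))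
(.nd (.lf ⟨(nat_lit 0), (nat_lit 0), (nat_lit 0x4c24c2), (nat_lit 4)⟩)
(.lf ⟨(nat_lit 0x490490), (nat_lit 4), (nat_lit 0), (nat_lit 0)⟩)))))))
(.nd (.nd (.nd (.nd (.nd (.nd (.nd (.lf ⟨(nat_lit 325), (nat_lit 2), (nat_lit 0), (nat_lit 0)⟩)
(.lf ⟨(nat_lit 347), (nat_lit 2), (nat_lit 0x25b5d635038a59038a3495c5), (nat_lit 16)⟩))
(.lf ⟨(nat_lit 0), (nat_lit 0), (nat_lit 0xc83880c8388), (nat_lit 8)⟩))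
(.nd (.lf ⟨(nat_lit 0x850f), (nat_lit 3), (nat_lit 0x133cc2cc4cb214), (nat_lit 9)⟩)
(.lf ⟨(nat_lit 0x30230b44c2c230b44c2cc08c2d130b08c2d130b), (nat_lit 26), (nat_lit 0x30230b44c2c230b44c2cc08c2d130b08c2d130b), (nat_lit 26)⟩)))
(.nd (.nd (.nd (.lf ⟨(nat_lit 0x482482), (nat_lit 4), (nat_lit 0x92092), (nat_lit 4)⟩)
(.lf ⟨(nat_lit 521), (nat_lit 2), (nat_lit 0x1634b34b248), (nat_lit 7)⟩))
(.lf ⟨(nat_lit 0x411411), (nat_lit 4), (nat_lit 0x5d1417450), (nat_lit 6)⟩))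
(.nd (.lf ⟨(nat_lit 595), (nat_lit 2), (nat_lit 0x3533cd3c9), (nat_lit 6)⟩)
(.lf ⟨(nat_lit 0xe6d7397), (nat_lit 5), (nat_lit 0x1739b5ce), (nat_lit 5)⟩))))
(.nd (.nd (.nd (.nd (.lf ⟨(nat_lit 0x8a1c5), (nat_lit 4), (nat_lit 0x1ca1c51c2), (nat_lit 6)⟩)
(.lf ⟨(nat_lit 0x930b), (nat_lit 3), (nat_lit 0x64d30b34c24c), (nat_lit 8)⟩))
(.lf ⟨(nat_lit 0xb55030b4133cc2d0), (nat_lit 11), (nat_lit 0x1540c2d04cf30b40b), (nat_lit 11)⟩))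
(.nd (.lf ⟨(nat_lit 0xa2d2), (nat_lit 3), (nat_lit 0xb48b28b), (nat_lit 5)⟩)
(.lf ⟨(nat_lit 0x5cd09761735029060a3425d85cd40a41828d5cd09761735029060a3425d85cd40a41828d), (nat_lit 48), (nat_lit 0x5cd09761735029060a3425d85cd40a41828d5cd09761735029060a3425d85cd40a41828d), (nat_lit 48)⟩)))
(.nd (.nd (.lf ⟨(nat_lit 979), (nat_lit 2), (nat_lit 0x4cf), (nat_lit 2)⟩)
(.lf ⟨(nat_lit 334), (nat_lit 2), (nat_lit 0x1838d28d285), (nat_lit 7)⟩))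
(.nd (.lf ⟨(nat_lit 0x75ca), (nat_lit 3), (nat_lit 0x172971d7), (nat_lit 5)⟩)
(.lf ⟨(nat_lit 0x5d9), (nat_lit 2), (nat_lit 0x657), (nat_lit 2)⟩)))))
(.nd (.nd (.nd (.nd (.nd (.lf ⟨(nat_lit 151), (nat_lit 2), (nat_lit 0x1a5c2), (nat_lit 3)⟩)
(.lf ⟨(nat_lit 0x55b), (nat_lit 2), (nat_lit 0x6d5), (nat_lit 2)⟩))
(.lf ⟨(nat_lit 0x1cb24b), (nat_lit 4), (nat_lit 0x2c92c91c9), (nat_lit 6)⟩))
(.nd (.lf ⟨(nat_lit 0x582596096), (nat_lit 6), (nat_lit 0), (nat_lit 0)⟩)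
(.lf ⟨(nat_lit 0xd90d41035046435040d41036435040d41190d4103504), (nat_lit 30), (nat_lit 0xd90d41035046435040d41036435040d41190d4103504), (nat_lit 30)⟩)))
(.nd (.nd (.lf ⟨(nat_lit 0x24b24b), (nat_lit 4), (nat_lit 0x2c92c9), (nat_lit 4)⟩)
(.lf ⟨(nat_lit 856), (nat_lit 2), (nat_lit 0x60d), (nat_lit 2)⟩))
(.nd (.lf ⟨(nat_lit 0x46d721721b5c85c8), (nat_lit 11), (nat_lit 0x1b5c85c86d7217204), (nat_lit 11)⟩)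
(.lf ⟨(nat_lit 728), (nat_lit 2), (nat_lit 0x60b), (nat_lit 2)⟩))))
(.nd (.nd (.nd (.nd (.lf ⟨(nat_lit 0x281281), (nat_lit 4), (nat_lit 0), (nat_lit 0)⟩)
(.lf ⟨(nat_lit 782), (nat_lit 2), (nat_lit 908), (nat_lit 2)⟩))
(.lf ⟨(nat_lit 0x406410190), (nat_lit 6), (nat_lit 0), (nat_lit 0)⟩))
(.nd (.lf ⟨(nat_lit 16), (nat_lit 1), (nat_lit 0x4c04c), (nat_lit 4)⟩)
(.lf ⟨(nat_lit 0x28104a0510ca0510c128144328144328104a0510ca0510c1281443281443), (nat_lit 40), (nat_lit 0x28104a0510ca0510c128144328144328104a0510ca0510c1281443281443), (nat_lit 40)⟩)))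
(.nd (.nd (.lf ⟨(nat_lit 327), (nat_lit 2), (nat_lit 453), (nat_lit 2)⟩)
(.lf ⟨(nat_lit 0x399399), (nat_lit 4), (nat_lit 0x64e64e), (nat_lit 4)⟩))
(.nd (.lf ⟨(nat_lit 0x48a18448b286112), (nat_lit 10), (nat_lit 0x18a11228448628448a112), (nat_lit 14)⟩)
(.lf ⟨(nat_lit 0), (nat_lit 0), (nat_lit 0x3ca6156153ca615615), (nat_lit 12)⟩))))))
(.nd (.nd (.nd (.nd (.nd (.nd (.lf ⟨(nat_lit 0x10c10c), (nat_lit 4), (nat_lit 0x304304), (nat_lit 4)⟩)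
(.lf ⟨(nat_lit 916), (nat_lit 2), (nat_lit 0x50e), (nat_lit 2)⟩))
(.lf ⟨(nat_lit 0x960881025875870881025875870825822040961d61c22040961d61c2), (nat_lit 38), (nat_lit 0x960881025875870881025875870825822040961d61c22040961d61c2), (nat_lit 38)⟩))
(.nd (.lf ⟨(nat_lit 0x66d719b), (nat_lit 5), (nat_lit 0x1b19b5c6), (nat_lit 5)⟩)
(.lf ⟨(nat_lit 0x591096442), (nat_lit 6), (nat_lit 0x442591096), (nat_lit 6)⟩)))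
(.nd (.nd (.nd (.lf ⟨(nat_lit 0x943c4), (nat_lit 4), (nat_lit 0x3d43c40943c7), (nat_lit 8)⟩)
(.lf ⟨(nat_lit 0x48e246152389185), (nat_lit 10), (nat_lit 0x60d), (nat_lit 2)⟩))
(.lf ⟨(nat_lit 153), (nat_lit 2), (nat_lit 0x359342), (nat_lit 4)⟩))
(.nd (.lf ⟨(nat_lit 10), (nat_lit 1), (nat_lit 0x1c11c1), (nat_lit 4)⟩)
(.lf ⟨(nat_lit 0x28d28c), (nat_lit 4), (nat_lit 0x55255230a34a), (nat_lit 8)⟩))))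
(.nd (.nd (.nd (.nd (.lf ⟨(nat_lit 0x1c81c8), (nat_lit 4), (nat_lit 0x207207), (nat_lit 4)⟩)
(.lf ⟨(nat_lit 0xe44f), (nat_lit 3), (nat_lit 0xf391), (nat_lit 3)⟩))
(.lf ⟨(nat_lit 0xd12d12c344b44b), (nat_lit 10), (nat_lit 0xd12d12c344b44b), (nat_lit 10)⟩))
(.nd (.lf ⟨(nat_lit 13), (nat_lit 1), (nat_lit 0x185185), (nat_lit 4)⟩)
(.lf ⟨(nat_lit 0x60f60f), (nat_lit 4), (nat_lit 0x923d23c248f48f), (nat_lit 10)⟩)))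
(.nd (.nd (.lf ⟨(nat_lit 204), (nat_lit 2), (nat_lit 0x34c20d203), (nat_lit 6)⟩)
(.lf ⟨(nat_lit 0x414414), (nat_lit 4), (nat_lit 0x510510), (nat_lit 4)⟩))
(.nd (.lf ⟨(nat_lit 0x58339129138a58339129138a), (nat_lit 16), (nat_lit 0x58339129138a58339129138a), (nat_lit 16)⟩)
(.lf ⟨(nat_lit 0x96092096256242482589589082582482589589092096256242), (nat_lit 34), (nat_lit 0x96092096256242482589589082582482589589092096256242), (nat_lit 34)⟩)))))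
(.nd (.nd (.nd (.nd (.nd (.lf ⟨(nat_lit 137), (nat_lit 2), (nat_lit 0x189189189182), (nat_lit 8)⟩)
(.lf ⟨(nat_lit 0x30710930724c1c424c1c930730710930724c1c424c1c9307), (nat_lit 32), (nat_lit 0x30710930724c1c424c1c930730710930724c1c424c1c9307), (nat_lit 32)⟩))
(.lf ⟨(nat_lit 0x289289), (nat_lit 4), (nat_lit 0x289289), (nat_lit 4)⟩))
(.nd (.lf ⟨(nat_lit 0x14b24b14b24b), (nat_lit 8), (nat_lit 0x2c92c52c92c5), (nat_lit 8)⟩)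
(.lf ⟨(nat_lit 0x10c24c209204309308248), (nat_lit 14), (nat_lit 0x10c24c209204309308248), (nat_lit 14)⟩)))
(.nd (.nd (.lf ⟨(nat_lit 273), (nat_lit 2), (nat_lit 0x444), (nat_lit 2)⟩)
(.lf ⟨(nat_lit 726), (nat_lit 2), (nat_lit 0x58b), (nat_lit 2)⟩))
(.nd (.lf ⟨(nat_lit 0x8291), (nat_lit 3), (nat_lit 0xa44a20a), (nat_lit 5)⟩)
(.lf ⟨(nat_lit 721), (nat_lit 2), (nat_lit 0x44b), (nat_lit 2)⟩))))
(.nd (.nd (.nd (.nd (.lf ⟨(nat_lit 0x2031c80c7), (nat_lit 6), (nat_lit 0x1c80c7203), (nat_lit 6)⟩)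
(.lf ⟨(nat_lit 0xc40470c70c40470c70c31011c31c31011c31c3), (nat_lit 26), (nat_lit 0xc40470c70c40470c70c31011c31c31011c31c3), (nat_lit 26)⟩))
(.lf ⟨(nat_lit 521), (nat_lit 2), (nat_lit 0x309309306306248), (nat_lit 10)⟩))
(.nd (.lf ⟨(nat_lit 0x28a61219828628a612198286), (nat_lit 16), (nat_lit 0x28a61219828628a612198286), (nat_lit 16)⟩)
(.lf ⟨(nat_lit 405), (nat_lit 2), (nat_lit 0x155994d64d66535933503cc2cc2c93085994d64d66535934143c944c2d130b29128d44a3512ca4594ce6523933933943994d238b28d289308246), (nat_lit 77)⟩)))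
(.nd (.nd (.lf ⟨(nat_lit 0x142142), (nat_lit 4), (nat_lit 0), (nat_lit 0)⟩)
(.lf ⟨(nat_lit 0x316316), (nat_lit 4), (nat_lit 0x58c58c), (nat_lit 4)⟩))
(.nd (.lf ⟨(nat_lit 0x19a19a), (nat_lit 4), (nat_lit 0x686686), (nat_lit 4)⟩)
(.lf ⟨(nat_lit 0x257257), (nat_lit 4), (nat_lit 0x5c95c9), (nat_lit 4)⟩)))))))))))
(.nd (.nd (.nd (.nd (.nd (.nd (.nd (.nd (.nd (.nd (.nd (.lf ⟨(nat_lit 130), (nat_lit 2), (nat_lit 0), (nat_lit 0)⟩)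
(.lf ⟨(nat_lit 0x58d256), (nat_lit 4), (nat_lit 0x5831560c5), (nat_lit 6)⟩))
(.lf ⟨(nat_lit 5), (nat_lit 1), (nat_lit 0x542055081), (nat_lit 6)⟩))
(.nd (.lf ⟨(nat_lit 528), (nat_lit 2), (nat_lit 0x40c2cc2c8), (nat_lit 6)⟩)
(.lf ⟨(nat_lit 14), (nat_lit 1), (nat_lit 0x283283), (nat_lit 4)⟩)))
(.nd (.nd (.nd (.lf ⟨(nat_lit 0x209209), (nat_lit 4), (nat_lit 0x248248), (nat_lit 4)⟩)
(.lf ⟨(nat_lit 471), (nat_lit 2), (nat_lit 0x5c7), (nat_lit 2)⟩))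
(.lf ⟨(nat_lit 0x44c29128c), (nat_lit 6), (nat_lit 0x10c28c28430a30a), (nat_lit 10)⟩))
(.nd (.lf ⟨(nat_lit 0x298298298298), (nat_lit 8), (nat_lit 0), (nat_lit 0)⟩)
(.lf ⟨(nat_lit 0x558d256349), (nat_lit 7), (nat_lit 0x1634958d245), (nat_lit 7)⟩))))
(.nd (.nd (.nd (.nd (.lf ⟨(nat_lit 0x202202), (nat_lit 4), (nat_lit 0x88088), (nat_lit 4)⟩)
(.lf ⟨(nat_lit 0x510510), (nat_lit 4), (nat_lit 0), (nat_lit 0)⟩))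
(.lf ⟨(nat_lit 0x48a25224a), (nat_lit 6), (nat_lit 0x18a24a246289289), (nat_lit 10)⟩))
(.nd (.lf ⟨(nat_lit 0x2c63432c6343), (nat_lit 8), (nat_lit 0x3432c63432c6), (nat_lit 8)⟩)
(.lf ⟨(nat_lit 0x30430930824810c24c20920c10c24c209204309308248), (nat_lit 30), (nat_lit 0x30430930824810c24c20920c10c24c209204309308248), (nat_lit 30)⟩)))
(.nd (.nd (.lf ⟨(nat_lit 87), (nat_lit 2), (nat_lit 0x5c1), (nat_lit 2)⟩)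
(.lf ⟨(nat_lit 0x2cd590), (nat_lit 4), (nat_lit 0x34f58d40f2cd), (nat_lit 8)⟩))
(.nd (.lf ⟨(nat_lit 0x54a54a), (nat_lit 4), (nat_lit 0x29508a542), (nat_lit 6)⟩)
(.lf ⟨(nat_lit 0x6d96d705b65b5c1), (nat_lit 10), (nat_lit 0x5c16d96d705b65b), (nat_lit 10)⟩)))))
(.nd (.nd (.nd (.nd (.nd (.lf ⟨(nat_lit 0x49049), (nat_lit 4), (nat_lit 0x241241), (nat_lit 4)⟩)
(.lf ⟨(nat_lit 662), (nat_lit 2), (nat_lit 0x39640e40a), (nat_lit 6)⟩))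
(.lf ⟨(nat_lit 0x96456442096456442), (nat_lit 12), (nat_lit 0), (nat_lit 0)⟩))
(.nd (.lf ⟨(nat_lit 0x219208648), (nat_lit 6), (nat_lit 0), (nat_lit 0)⟩)
(.lf ⟨(nat_lit 0x15108d25635025641108d25635025640544234958d40959044234958d409590), (nat_lit 42), (nat_lit 0x15108d25635025641108d25635025640544234958d40959044234958d409590), (nat_lit 42)⟩)))
(.nd (.nd (.lf ⟨(nat_lit 0x3c53c5), (nat_lit 4), (nat_lit 0x14f14f), (nat_lit 4)⟩)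
(.lf ⟨(nat_lit 0x20d216), (nat_lit 4), (nat_lit 0x34c58c2cd20d2c8), (nat_lit 10)⟩))
(.nd (.lf ⟨(nat_lit 0), (nat_lit 0), (nat_lit 0x4a20a201288288), (nat_lit 10)⟩)
(.lf ⟨(nat_lit 0x3d1414), (nat_lit 4), (nat_lit 0x41440f450), (nat_lit 6)⟩))))
(.nd (.nd (.nd (.nd (.lf ⟨(nat_lit 82), (nat_lit 2), (nat_lit 0x392392392381), (nat_lit 8)⟩)
(.lf ⟨(nat_lit 0), (nat_lit 0), (nat_lit 0x149149), (nat_lit 4)⟩))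
(.lf ⟨(nat_lit 0x6c8), (nat_lit 2), (nat_lit 0xd12d12c344b44b21b), (nat_lit 12)⟩))
(.nd (.lf ⟨(nat_lit 0x614e34e185), (nat_lit 7), (nat_lit 0x18e14e146385385), (nat_lit 10)⟩)
(.lf ⟨(nat_lit 204), (nat_lit 2), (nat_lit 0xd50f44f30b44b29128d44a3512ca4594ce6523933933943994d238b28d283), (nat_lit 41)⟩)))
(.nd (.nd (.lf ⟨(nat_lit 147), (nat_lit 2), (nat_lit 0x1533c53c2), (nat_lit 6)⟩)
(.lf ⟨(nat_lit 0x454), (nat_lit 2), (nat_lit 0x511), (nat_lit 2)⟩))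
(.nd (.lf ⟨(nat_lit 0x2960ce44a44e2960ce44a44e28a58339129138a58339129138a), (nat_lit 34), (nat_lit 0x2960ce44a44e2960ce44a44e28a58339129138a58339129138a), (nat_lit 34)⟩)
(.lf ⟨(nat_lit 0x119184646), (nat_lit 6), (nat_lit 0x119184646), (nat_lit 6)⟩))))))
(.nd (.nd (.nd (.nd (.nd (.nd (.lf ⟨(nat_lit 390), (nat_lit 2), (nat_lit 0), (nat_lit 0)⟩)
(.lf ⟨(nat_lit 0x516516), (nat_lit 4), (nat_lit 0x594594), (nat_lit 4)⟩))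
(.lf ⟨(nat_lit 0x5435483953880d520e54e2150d520e54e203548395388), (nat_lit 30), (nat_lit 0x5435483953880d520e54e2150d520e54e203548395388), (nat_lit 30)⟩))
(.nd (.lf ⟨(nat_lit 0x31a5d1), (nat_lit 4), (nat_lit 0x44c697), (nat_lit 4)⟩)
(.lf ⟨(nat_lit 0xb44c2d1), (nat_lit 5), (nat_lit 0x112d130b), (nat_lit 5)⟩)))
(.nd (.nd (.nd (.lf ⟨(nat_lit 0x415415), (nat_lit 4), (nat_lit 0x550550), (nat_lit 4)⟩)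
(.lf ⟨(nat_lit 265), (nat_lit 2), (nat_lit 0x1b6585d65544903ce244), (nat_lit 13)⟩))
(.lf ⟨(nat_lit 0), (nat_lit 0), (nat_lit 0x643643), (nat_lit 4)⟩))
(.nd (.lf ⟨(nat_lit 0x49748a0925d2282), (nat_lit 10), (nat_lit 0x49748a0925d2282), (nat_lit 10)⟩)
(.lf ⟨(nat_lit 0x4d8), (nat_lit 2), (nat_lit 0x613), (nat_lit 2)⟩))))
(.nd (.nd (.nd (.nd (.lf ⟨(nat_lit 0xcb206), (nat_lit 4), (nat_lit 0x20b206203), (nat_lit 6)⟩)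
(.lf ⟨(nat_lit 0x1b44e44e), (nat_lit 5), (nat_lit 0x550215408), (nat_lit 6)⟩))
(.lf ⟨(nat_lit 0xf550), (nat_lit 3), (nat_lit 0x1540f), (nat_lit 3)⟩))
(.nd (.lf ⟨(nat_lit 722), (nat_lit 2), (nat_lit 0x48b), (nat_lit 2)⟩)
(.lf ⟨(nat_lit 0x29028d), (nat_lit 4), (nat_lit 0x34a40a), (nat_lit 4)⟩)))
(.nd (.nd (.lf ⟨(nat_lit 0x415), (nat_lit 2), (nat_lit 0x550), (nat_lit 2)⟩)
(.lf ⟨(nat_lit 0x764d2cd), (nat_lit 5), (nat_lit 0x51934b347), (nat_lit 6)⟩))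
(.nd (.lf ⟨(nat_lit 0x170572c85c8), (nat_lit 7), (nat_lit 0x172c85c85c1), (nat_lit 7)⟩)
(.lf ⟨(nat_lit 0x38c38c), (nat_lit 4), (nat_lit 0x38c38c), (nat_lit 4)⟩)))))
(.nd (.nd (.nd (.nd (.nd (.lf ⟨(nat_lit 215), (nat_lit 2), (nat_lit 0x1b5c3), (nat_lit 3)⟩)
(.lf ⟨(nat_lit 155), (nat_lit 2), (nat_lit 0x6ce30e302), (nat_lit 6)⟩))
(.lf ⟨(nat_lit 0x6d721b5c8), (nat_lit 6), (nat_lit 0x6c46c4), (nat_lit 4)⟩))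
(.nd (.lf ⟨(nat_lit 0x6c36c3), (nat_lit 4), (nat_lit 0), (nat_lit 0)⟩)
(.lf ⟨(nat_lit 0x35040d4), (nat_lit 5), (nat_lit 0x5040d4203), (nat_lit 6)⟩)))
(.nd (.nd (.lf ⟨(nat_lit 0x2ca2ca), (nat_lit 4), (nat_lit 0x28b28b), (nat_lit 4)⟩)
(.lf ⟨(nat_lit 655), (nat_lit 2), (nat_lit 970), (nat_lit 2)⟩))
(.nd (.lf ⟨(nat_lit 26), (nat_lit 1), (nat_lit 0x5c25c2), (nat_lit 4)⟩)
(.lf ⟨(nat_lit 0x59b5d9), (nat_lit 4), (nat_lit 0x6d96d765b5d66d96d7), (nat_lit 12)⟩))))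
(.nd (.nd (.nd (.nd (.lf ⟨(nat_lit 0x32c6), (nat_lit 3), (nat_lit 0xb18b0cb), (nat_lit 5)⟩)
(.lf ⟨(nat_lit 913), (nat_lit 2), (nat_lit 0x44e), (nat_lit 2)⟩))
(.lf ⟨(nat_lit 0x409406409190), (nat_lit 8), (nat_lit 0x250250190250250190), (nat_lit 12)⟩))
(.nd (.lf ⟨(nat_lit 10), (nat_lit 1), (nat_lit 0x47047), (nat_lit 4)⟩)
(.lf ⟨(nat_lit 0x19b5c66d7), (nat_lit 6), (nat_lit 0), (nat_lit 0)⟩)))
(.nd (.nd (.lf ⟨(nat_lit 261), (nat_lit 2), (nat_lit 0xa144), (nat_lit 3)⟩)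
(.lf ⟨(nat_lit 0x350350), (nat_lit 4), (nat_lit 0), (nat_lit 0)⟩))
(.nd (.lf ⟨(nat_lit 0x248248), (nat_lit 4), (nat_lit 0x209209), (nat_lit 4)⟩)
(.lf ⟨(nat_lit 0x558), (nat_lit 2), (nat_lit 0x615), (nat_lit 2)⟩)))))))
(.nd (.nd (.nd (.nd (.nd (.nd (.nd (.lf ⟨(nat_lit 17), (nat_lit 1), (nat_lit 0x10c10c), (nat_lit 4)⟩)
(.lf ⟨(nat_lit 0x1a290), (nat_lit 3), (nat_lit 0x30704c1c1), (nat_lit 6)⟩))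
(.lf ⟨(nat_lit 0x30b30b), (nat_lit 4), (nat_lit 0x3c83c8), (nat_lit 4)⟩))
(.nd (.lf ⟨(nat_lit 0x30214c085), (nat_lit 6), (nat_lit 0x14c085302), (nat_lit 6)⟩)
(.lf ⟨(nat_lit 0x296296), (nat_lit 4), (nat_lit 0x58a58a), (nat_lit 4)⟩)))
(.nd (.nd (.nd (.lf ⟨(nat_lit 0x501501), (nat_lit 4), (nat_lit 0x54054), (nat_lit 4)⟩)
(.lf ⟨(nat_lit 0), (nat_lit 0), (nat_lit 0x3ce3ce), (nat_lit 4)⟩))
(.lf ⟨(nat_lit 0x20e20520e205), (nat_lit 8), (nat_lit 0x20e20520e205), (nat_lit 8)⟩))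
(.nd (.lf ⟨(nat_lit 84), (nat_lit 2), (nat_lit 0x4d44c1), (nat_lit 4)⟩)
(.lf ⟨(nat_lit 0), (nat_lit 0), (nat_lit 0x682682), (nat_lit 4)⟩))))
(.nd (.nd (.nd (.nd (.lf ⟨(nat_lit 0x241241), (nat_lit 4), (nat_lit 0x49049), (nat_lit 4)⟩)
(.lf ⟨(nat_lit 0xf2c8), (nat_lit 3), (nat_lit 0x6d13913883cb), (nat_lit 8)⟩))
(.lf ⟨(nat_lit 0x44c28444c49745031228444c49745031244c28444c49745031228444c497450312), (nat_lit 44), (nat_lit 0x44c28444c49745031228444c49745031244c28444c49745031228444c497450312), (nat_lit 44)⟩))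
(.nd (.lf ⟨(nat_lit 0x181256246049589), (nat_lit 10), (nat_lit 0x256246049589181), (nat_lit 10)⟩)
(.lf ⟨(nat_lit 0x1a6c26c2), (nat_lit 5), (nat_lit 0x1b09b09a), (nat_lit 5)⟩)))
(.nd (.nd (.lf ⟨(nat_lit 261), (nat_lit 2), (nat_lit 0xa1c51c4), (nat_lit 5)⟩)
(.lf ⟨(nat_lit 0x29128c), (nat_lit 4), (nat_lit 0x55755740c290450290), (nat_lit 12)⟩))
(.nd (.lf ⟨(nat_lit 0x28844344a44344a2110d12910d128a2110d12910d128844344a44344a), (nat_lit 38), (nat_lit 0x28844344a44344a2110d12910d128a2110d12910d128844344a44344a), (nat_lit 38)⟩)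
(.lf ⟨(nat_lit 795), (nat_lit 2), (nat_lit 0x6d765b5d96cc), (nat_lit 8)⟩)))))
(.nd (.nd (.nd (.nd (.nd (.lf ⟨(nat_lit 0x596), (nat_lit 2), (nat_lit 0), (nat_lit 0)⟩)
(.lf ⟨(nat_lit 0xa44f), (nat_lit 3), (nat_lit 0xf291), (nat_lit 3)⟩))
(.lf ⟨(nat_lit 0xb244244), (nat_lit 5), (nat_lit 0x910910b), (nat_lit 5)⟩))
(.nd (.lf ⟨(nat_lit 398), (nat_lit 2), (nat_lit 902), (nat_lit 2)⟩)
(.lf ⟨(nat_lit 0x54c61560c), (nat_lit 6), (nat_lit 0x14c60c14c60c), (nat_lit 8)⟩)))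
(.nd (.nd (.lf ⟨(nat_lit 0x407407), (nat_lit 4), (nat_lit 0x1d01d0), (nat_lit 4)⟩)
(.lf ⟨(nat_lit 532), (nat_lit 2), (nat_lit 0x30b3142d130b44c2c8), (nat_lit 12)⟩))
(.nd (.lf ⟨(nat_lit 0), (nat_lit 0), (nat_lit 0x410), (nat_lit 2)⟩)
(.lf ⟨(nat_lit 665), (nat_lit 2), (nat_lit 0x39938a), (nat_lit 4)⟩))))
(.nd (.nd (.nd (.nd (.lf ⟨(nat_lit 0x3c23c2), (nat_lit 4), (nat_lit 0x8f08f), (nat_lit 4)⟩)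
(.lf ⟨(nat_lit 0x60d), (nat_lit 2), (nat_lit 0x4830920c2), (nat_lit 6)⟩))
(.lf ⟨(nat_lit 0x4d4), (nat_lit 2), (nat_lit 0x513), (nat_lit 2)⟩))
(.nd (.lf ⟨(nat_lit 0x6876971d76876971d7), (nat_lit 12), (nat_lit 0), (nat_lit 0)⟩)
(.lf ⟨(nat_lit 0x5d1257449), (nat_lit 6), (nat_lit 0x5d1257449), (nat_lit 6)⟩)))
(.nd (.nd (.lf ⟨(nat_lit 0x4347), (nat_lit 3), (nat_lit 0x720d3081c834c20710d), (nat_lit 13)⟩)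
(.lf ⟨(nat_lit 0x6d16d1), (nat_lit 4), (nat_lit 0), (nat_lit 0)⟩))
(.nd (.lf ⟨(nat_lit 0x174505d1417), (nat_lit 7), (nat_lit 0x114174505d7), (nat_lit 7)⟩)
(.lf ⟨(nat_lit 0x2409409), (nat_lit 5), (nat_lit 0x10250242), (nat_lit 5)⟩))))))
(.nd (.nd (.nd (.nd (.nd (.nd (.lf ⟨(nat_lit 72), (nat_lit 2), (nat_lit 0xb201), (nat_lit 3)⟩)
(.lf ⟨(nat_lit 0x30e590), (nat_lit 4), (nat_lit 0x39640e30e), (nat_lit 6)⟩))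
(.lf ⟨(nat_lit 0x10610d2cd184), (nat_lit 8), (nat_lit 0x18434b346104), (nat_lit 8)⟩))
(.nd (.lf ⟨(nat_lit 0x3cb3cb), (nat_lit 4), (nat_lit 0), (nat_lit 0)⟩)
(.lf ⟨(nat_lit 532), (nat_lit 2), (nat_lit 0x41445050f4505103d13cc2d13cb308), (nat_lit 20)⟩)))
(.nd (.nd (.nd (.lf ⟨(nat_lit 0x5c35c3), (nat_lit 4), (nat_lit 0xd70d7), (nat_lit 4)⟩)
(.lf ⟨(nat_lit 396), (nat_lit 2), (nat_lit 0x16306), (nat_lit 3)⟩))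
(.lf ⟨(nat_lit 0x68769a5ca44a1da5d11da1da697291287697447), (nat_lit 26), (nat_lit 0x68769a5ca44a1da5d11da1da697291287697447), (nat_lit 26)⟩))
(.nd (.lf ⟨(nat_lit 0x1d71d7), (nat_lit 4), (nat_lit 0x5c75c7), (nat_lit 4)⟩)
(.lf ⟨(nat_lit 536), (nat_lit 2), (nat_lit 0x608), (nat_lit 2)⟩))))
(.nd (.nd (.nd (.nd (.lf ⟨(nat_lit 0x244244), (nat_lit 4), (nat_lit 0x109109), (nat_lit 4)⟩)
(.lf ⟨(nat_lit 347), (nat_lit 2), (nat_lit 0x6d6490396490385), (nat_lit 10)⟩))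
(.lf ⟨(nat_lit 0x8f44f30b30b4423d13cc2cc2d1), (nat_lit 18), (nat_lit 0x8f44f30b30b4423d13cc2cc2d1), (nat_lit 18)⟩))
(.nd (.lf ⟨(nat_lit 0x382382), (nat_lit 4), (nat_lit 0x8e08e), (nat_lit 4)⟩)
(.lf ⟨(nat_lit 0x65348b34b28d28865348b34b28d288), (nat_lit 20), (nat_lit 0), (nat_lit 0)⟩)))
(.nd (.nd (.lf ⟨(nat_lit 91), (nat_lit 2), (nat_lit 0x19b5c65c1), (nat_lit 6)⟩)
(.lf ⟨(nat_lit 216), (nat_lit 2), (nat_lit 0x603), (nat_lit 2)⟩))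
(.nd (.lf ⟨(nat_lit 0x5d1157445), (nat_lit 6), (nat_lit 0x5d1157445), (nat_lit 6)⟩)
(.lf ⟨(nat_lit 0x25540f30b30b), (nat_lit 8), (nat_lit 0x5503cc2cc2c9), (nat_lit 8)⟩)))))
(.nd (.nd (.nd (.nd (.nd (.lf ⟨(nat_lit 325), (nat_lit 2), (nat_lit 0), (nat_lit 0)⟩)
(.lf ⟨(nat_lit 0xe592390), (nat_lit 5), (nat_lit 0x1039648e), (nat_lit 5)⟩))
(.lf ⟨(nat_lit 0), (nat_lit 0), (nat_lit 0x189189), (nat_lit 4)⟩))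
(.nd (.lf ⟨(nat_lit 0x285285), (nat_lit 4), (nat_lit 0), (nat_lit 0)⟩)
(.lf ⟨(nat_lit 0xb44f), (nat_lit 3), (nat_lit 0x113d12d1), (nat_lit 5)⟩)))
(.nd (.nd (.lf ⟨(nat_lit 70), (nat_lit 2), (nat_lit 0x20b18b2062c82c818b2062c620b2062c818b1882c818b2062c620b2062c818b20b2062c818b1882c818b201), (nat_lit 58)⟩)
(.lf ⟨(nat_lit 0xa454), (nat_lit 3), (nat_lit 0x174545d1291), (nat_lit 7)⟩))
(.nd (.lf ⟨(nat_lit 0x3db3c33db3c3), (nat_lit 8), (nat_lit 0x3db3c33db3c3), (nat_lit 8)⟩)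
(.lf ⟨(nat_lit 0xa58e), (nat_lit 3), (nat_lit 0xe58e58e296), (nat_lit 7)⟩))))
(.nd (.nd (.nd (.nd (.lf ⟨(nat_lit 0x18c18c), (nat_lit 4), (nat_lit 0x306306), (nat_lit 4)⟩)
(.lf ⟨(nat_lit 521), (nat_lit 2), (nat_lit 0x6d634b34c2c9308), (nat_lit 10)⟩))
(.lf ⟨(nat_lit 0x80d1), (nat_lit 3), (nat_lit 0x11203), (nat_lit 3)⟩))
(.nd (.lf ⟨(nat_lit 0x2c634f34f2c634f34f), (nat_lit 12), (nat_lit 0x2c634f34f2c634f34f), (nat_lit 12)⟩)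
(.lf ⟨(nat_lit 0xb350), (nat_lit 3), (nat_lit 0x164d64d02cd), (nat_lit 7)⟩)))
(.nd (.nd (.lf ⟨(nat_lit 0x1c41c4), (nat_lit 4), (nat_lit 0), (nat_lit 0)⟩)
(.lf ⟨(nat_lit 0x29128c), (nat_lit 4), (nat_lit 0x5d55d540c290450290), (nat_lit 12)⟩))
(.nd (.lf ⟨(nat_lit 0), (nat_lit 0), (nat_lit 0x4d3), (nat_lit 2)⟩)
(.lf ⟨(nat_lit 22), (nat_lit 1), (nat_lit 0xd2403490), (nat_lit 6)⟩))))))))
(.nd (.nd (.nd (.nd (.nd (.nd (.nd (.nd (.lf ⟨(nat_lit 8), (nat_lit 1), (nat_lit 0xc40c4), (nat_lit 4)⟩)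
(.lf ⟨(nat_lit 0x160c4), (nat_lit 3), (nat_lit 0x1b5972165cc2cc2c4583), (nat_lit 13)⟩))
(.lf ⟨(nat_lit 0x654d), (nat_lit 3), (nat_lit 0xd195), (nat_lit 3)⟩))
(.nd (.lf ⟨(nat_lit 0x834c20d), (nat_lit 5), (nat_lit 0xd20d308), (nat_lit 5)⟩)
(.lf ⟨(nat_lit 0x5871161c4), (nat_lit 6), (nat_lit 0x5871161c4), (nat_lit 6)⟩)))
(.nd (.nd (.nd (.lf ⟨(nat_lit 198), (nat_lit 2), (nat_lit 0x20b18b203), (nat_lit 6)⟩)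
(.lf ⟨(nat_lit 653), (nat_lit 2), (nat_lit 842), (nat_lit 2)⟩))
(.lf ⟨(nat_lit 0), (nat_lit 0), (nat_lit 0x181046041), (nat_lit 6)⟩))
(.nd (.lf ⟨(nat_lit 0x4cf2d030b4cf2d030b), (nat_lit 12), (nat_lit 0), (nat_lit 0)⟩)
(.lf ⟨(nat_lit 0xd40c40d45905164031035164145900c35031035164145900c40d4590516403), (nat_lit 42), (nat_lit 0xd40c40d45905164031035164145900c35031035164145900c40d4590516403), (nat_lit 42)⟩))))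
(.nd (.nd (.nd (.nd (.lf ⟨(nat_lit 0xc70c7), (nat_lit 4), (nat_lit 0x1c31c3), (nat_lit 4)⟩)
(.lf ⟨(nat_lit 0xe44e590), (nat_lit 5), (nat_lit 0x1640e44e), (nat_lit 5)⟩))
(.lf ⟨(nat_lit 408), (nat_lit 2), (nat_lit 0x612252246), (nat_lit 6)⟩))
(.nd (.lf ⟨(nat_lit 0x61b61811861b618118), (nat_lit 12), (nat_lit 0x6046186d86046186d8), (nat_lit 12)⟩)
(.lf ⟨(nat_lit 0x6c26c2), (nat_lit 4), (nat_lit 0x9b09b), (nat_lit 4)⟩)))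
(.nd (.nd (.lf ⟨(nat_lit 0x6349), (nat_lit 3), (nat_lit 0x918d), (nat_lit 3)⟩)
(.lf ⟨(nat_lit 855), (nat_lit 2), (nat_lit 0x5cd), (nat_lit 2)⟩))
(.nd (.lf ⟨(nat_lit 533), (nat_lit 2), (nat_lit 0x548), (nat_lit 2)⟩)
(.lf ⟨(nat_lit 525), (nat_lit 2), (nat_lit 0x1929128d44a35129128d288), (nat_lit 15)⟩)))))
(.nd (.nd (.nd (.nd (.nd (.lf ⟨(nat_lit 79), (nat_lit 2), (nat_lit 0x133c1), (nat_lit 3)⟩)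
(.lf ⟨(nat_lit 0x95cd), (nat_lit 3), (nat_lit 0xd257), (nat_lit 3)⟩))
(.lf ⟨(nat_lit 0x59159141645645), (nat_lit 10), (nat_lit 0x59159141645645), (nat_lit 10)⟩))
(.nd (.lf ⟨(nat_lit 0x2862890ca18a243), (nat_lit 10), (nat_lit 0x2432862890ca18a), (nat_lit 10)⟩)
(.lf ⟨(nat_lit 22), (nat_lit 1), (nat_lit 0xd02c340b), (nat_lit 6)⟩)))
(.nd (.nd (.lf ⟨(nat_lit 0x406406), (nat_lit 4), (nat_lit 0x190190), (nat_lit 4)⟩)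
(.lf ⟨(nat_lit 857), (nat_lit 2), (nat_lit 0x64d), (nat_lit 2)⟩))
(.nd (.lf ⟨(nat_lit 0x28d24a34928d24a349), (nat_lit 12), (nat_lit 0), (nat_lit 0)⟩)
(.lf ⟨(nat_lit 652), (nat_lit 2), (nat_lit 0x1a30a), (nat_lit 3)⟩))))
(.nd (.nd (.nd (.nd (.lf ⟨(nat_lit 0x441441), (nat_lit 4), (nat_lit 0x51051), (nat_lit 4)⟩)
(.lf ⟨(nat_lit 19), (nat_lit 1), (nat_lit 0x5b5534503ce44e05b5534503ce44e), (nat_lit 20)⟩))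
(.lf ⟨(nat_lit 0x29648a58a592296), (nat_lit 10), (nat_lit 0), (nat_lit 0)⟩))
(.nd (.lf ⟨(nat_lit 651), (nat_lit 2), (nat_lit 714), (nat_lit 2)⟩)
(.lf ⟨(nat_lit 0x88096402590202590096402202590096408096402590), (nat_lit 30), (nat_lit 0x88096402590202590096402202590096408096402590), (nat_lit 30)⟩)))
(.nd (.nd (.lf ⟨(nat_lit 267), (nat_lit 2), (nat_lit 708), (nat_lit 2)⟩)
(.lf ⟨(nat_lit 0x486486), (nat_lit 4), (nat_lit 0), (nat_lit 0)⟩))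
(.nd (.lf ⟨(nat_lit 0x5cf2d13d12d73cb44f44b), (nat_lit 14), (nat_lit 0x5cf2d13d12d73cb44f44b), (nat_lit 14)⟩)
(.lf ⟨(nat_lit 0x4db), (nat_lit 2), (nat_lit 0x6d3), (nat_lit 2)⟩))))))
(.nd (.nd (.nd (.nd (.nd (.nd (.lf ⟨(nat_lit 0x86086), (nat_lit 4), (nat_lit 0x182182), (nat_lit 4)⟩)
(.lf ⟨(nat_lit 0x458), (nat_lit 2), (nat_lit 0x611), (nat_lit 2)⟩))
(.lf ⟨(nat_lit 0x938d24e), (nat_lit 5), (nat_lit 0xd38d24e349), (nat_lit 7)⟩))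
(.nd (.lf ⟨(nat_lit 0x69969a65a), (nat_lit 6), (nat_lit 0), (nat_lit 0)⟩)
(.lf ⟨(nat_lit 0xb450), (nat_lit 3), (nat_lit 0x114112d1), (nat_lit 5)⟩)))
(.nd (.nd (.nd (.lf ⟨(nat_lit 0x401090042), (nat_lit 6), (nat_lit 0x90042401), (nat_lit 6)⟩)
(.lf ⟨(nat_lit 0x6d9), (nat_lit 2), (nat_lit 0x206350206350), (nat_lit 8)⟩))
(.lf ⟨(nat_lit 0), (nat_lit 0), (nat_lit 0x8c08c), (nat_lit 4)⟩))
(.nd (.lf ⟨(nat_lit 7), (nat_lit 1), (nat_lit 0x102102), (nat_lit 4)⟩)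
(.lf ⟨(nat_lit 0x15599), (nat_lit 3), (nat_lit 0x19556), (nat_lit 3)⟩))))
(.nd (.nd (.nd (.nd (.lf ⟨(nat_lit 0x181086042), (nat_lit 6), (nat_lit 0x86042181), (nat_lit 6)⟩)
(.lf ⟨(nat_lit 0x58e590390), (nat_lit 6), (nat_lit 0x6c56c5), (nat_lit 4)⟩))
(.lf ⟨(nat_lit 0x413), (nat_lit 2), (nat_lit 0x553550), (nat_lit 4)⟩))
(.nd (.lf ⟨(nat_lit 0), (nat_lit 0), (nat_lit 520), (nat_lit 2)⟩)
(.lf ⟨(nat_lit 0x29128c), (nat_lit 4), (nat_lit 0x40c291290), (nat_lit 6)⟩)))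
(.nd (.nd (.lf ⟨(nat_lit 148), (nat_lit 2), (nat_lit 0x50f1cf1c2), (nat_lit 6)⟩)
(.lf ⟨(nat_lit 409), (nat_lit 2), (nat_lit 0x646), (nat_lit 2)⟩))
(.nd (.lf ⟨(nat_lit 0x5ca1d71d1), (nat_lit 6), (nat_lit 0x5c75c74572875c7), (nat_lit 10)⟩)
(.lf ⟨(nat_lit 0x28d291), (nat_lit 4), (nat_lit 0x49b65b65244a34a), (nat_lit 10)⟩)))))
(.nd (.nd (.nd (.nd (.nd (.lf ⟨(nat_lit 70), (nat_lit 2), (nat_lit 0xc60c60c60c1), (nat_lit 8)⟩)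
(.lf ⟨(nat_lit 0xc396), (nat_lit 3), (nat_lit 0xe58e30e), (nat_lit 5)⟩))
(.lf ⟨(nat_lit 0x9b09b), (nat_lit 4), (nat_lit 0x6c26c2), (nat_lit 4)⟩))
(.nd (.lf ⟨(nat_lit 0x569715a), (nat_lit 5), (nat_lit 0x1a15a5c5), (nat_lit 5)⟩)
(.lf ⟨(nat_lit 0x20f2d524825520f2d52482552083cb5492095483cb549209548), (nat_lit 34), (nat_lit 0x20f2d524825520f2d52482552083cb5492095483cb549209548), (nat_lit 34)⟩)))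
(.nd (.nd (.lf ⟨(nat_lit 0x1013c404f), (nat_lit 6), (nat_lit 0x3c404f101), (nat_lit 6)⟩)
(.lf ⟨(nat_lit 661), (nat_lit 2), (nat_lit 0x54a), (nat_lit 2)⟩))
(.nd (.lf ⟨(nat_lit 0x550155405), (nat_lit 6), (nat_lit 0), (nat_lit 0)⟩)
(.lf ⟨(nat_lit 0xa34c), (nat_lit 3), (nat_lit 0x69549548c28d), (nat_lit 8)⟩))))
(.nd (.nd (.nd (.nd (.lf ⟨(nat_lit 0x10d10d), (nat_lit 4), (nat_lit 0x344344), (nat_lit 4)⟩)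
(.lf ⟨(nat_lit 278), (nat_lit 2), (nat_lit 0x584), (nat_lit 2)⟩))
(.lf ⟨(nat_lit 0x308348), (nat_lit 4), (nat_lit 0x880c2203), (nat_lit 6)⟩))
(.nd (.lf ⟨(nat_lit 0), (nat_lit 0), (nat_lit 195), (nat_lit 2)⟩)
(.lf ⟨(nat_lit 0), (nat_lit 0), (nat_lit 0x40d40d), (nat_lit 4)⟩)))
(.nd (.nd (.lf ⟨(nat_lit 90), (nat_lit 2), (nat_lit 0x5c5697141), (nat_lit 6)⟩)
(.lf ⟨(nat_lit 0x6d86db0db61b6c3), (nat_lit 10), (nat_lit 0x6c36d86db0db61b), (nat_lit 10)⟩))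
(.nd (.lf ⟨(nat_lit 0xc08b), (nat_lit 3), (nat_lit 0x3cc3cc3cc2cc2cb302), (nat_lit 12)⟩)
(.lf ⟨(nat_lit 0xa351291), (nat_lit 5), (nat_lit 0x1a5d434e68e5d444a35128d), (nat_lit 15)⟩)))))))
(.nd (.nd (.nd (.nd (.nd (.nd (.nd (.lf ⟨(nat_lit 24), (nat_lit 1), (nat_lit 0x92092), (nat_lit 4)⟩)
(.lf ⟨(nat_lit 0x390390), (nat_lit 4), (nat_lit 0x40e40e), (nat_lit 4)⟩))
(.lf ⟨(nat_lit 0), (nat_lit 0), (nat_lit 0x30b40c2d02cc2cc2d030b40b30b), (nat_lit 18)⟩))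
(.nd (.lf ⟨(nat_lit 0x1c41811c4181), (nat_lit 8), (nat_lit 0x1811c41811c4), (nat_lit 8)⟩)
(.lf ⟨(nat_lit 0x143c7), (nat_lit 3), (nat_lit 0x8b1022c4), (nat_lit 6)⟩)))
(.nd (.nd (.nd (.lf ⟨(nat_lit 0x38304e0c1), (nat_lit 6), (nat_lit 0x4e0c1383), (nat_lit 6)⟩)
(.lf ⟨(nat_lit 0x309309), (nat_lit 4), (nat_lit 0x41b58d2cd30b2506d634b34c2c9), (nat_lit 18)⟩))
(.lf ⟨(nat_lit 0), (nat_lit 0), (nat_lit 0x242242), (nat_lit 4)⟩))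
(.nd (.lf ⟨(nat_lit 0x34f34f), (nat_lit 4), (nat_lit 0x3cd3cd), (nat_lit 4)⟩)
(.lf ⟨(nat_lit 0), (nat_lit 0), (nat_lit 0x48d48d), (nat_lit 4)⟩))))
(.nd (.nd (.nd (.nd (.lf ⟨(nat_lit 780), (nat_lit 2), (nat_lit 0), (nat_lit 0)⟩)
(.lf ⟨(nat_lit 0), (nat_lit 0), (nat_lit 0x255149545), (nat_lit 6)⟩))
(.lf ⟨(nat_lit 0x5540c2d04cf30b40155030b4133cc2d0), (nat_lit 22), (nat_lit 0x5540c2d04cf30b40155030b4133cc2d0), (nat_lit 22)⟩))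
(.nd (.lf ⟨(nat_lit 0x664d2cd), (nat_lit 5), (nat_lit 0x131994cb), (nat_lit 5)⟩)
(.lf ⟨(nat_lit 26), (nat_lit 1), (nat_lit 0x5cd097342), (nat_lit 6)⟩)))
(.nd (.nd (.lf ⟨(nat_lit 784), (nat_lit 2), (nat_lit 0x40c), (nat_lit 2)⟩)
(.lf ⟨(nat_lit 0xb34f), (nat_lit 3), (nat_lit 0xf2cd), (nat_lit 3)⟩))
(.nd (.lf ⟨(nat_lit 23), (nat_lit 1), (nat_lit 0x5c1457051), (nat_lit 6)⟩)
(.lf ⟨(nat_lit 0x5d444a44a), (nat_lit 6), (nat_lit 0x29920a648), (nat_lit 6)⟩)))))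
(.nd (.nd (.nd (.nd (.nd (.lf ⟨(nat_lit 0xd30d3), (nat_lit 4), (nat_lit 0x4c34c3), (nat_lit 4)⟩)
(.lf ⟨(nat_lit 919), (nat_lit 2), (nat_lit 0x5ce), (nat_lit 2)⟩))
(.lf ⟨(nat_lit 0x22c72c7), (nat_lit 5), (nat_lit 0xb1cb1c2), (nat_lit 5)⟩))
(.nd (.lf ⟨(nat_lit 0x5d15d1), (nat_lit 4), (nat_lit 0), (nat_lit 0)⟩)
(.lf ⟨(nat_lit 0x654119504), (nat_lit 6), (nat_lit 0x654119504), (nat_lit 6)⟩)))
(.nd (.nd (.lf ⟨(nat_lit 0x242209088), (nat_lit 6), (nat_lit 0x209088242), (nat_lit 6)⟩)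
(.lf ⟨(nat_lit 338), (nat_lit 2), (nat_lit 0x48d28d285), (nat_lit 6)⟩))
(.nd (.lf ⟨(nat_lit 0x6d721721b5c85c8), (nat_lit 10), (nat_lit 0x1086c86d721720421b21b5c85c8), (nat_lit 18)⟩)
(.lf ⟨(nat_lit 0xb34e), (nat_lit 3), (nat_lit 0xe2cd), (nat_lit 3)⟩))))
(.nd (.nd (.nd (.nd (.lf ⟨(nat_lit 0x403403), (nat_lit 4), (nat_lit 0xd00d0), (nat_lit 4)⟩)
(.lf ⟨(nat_lit 917), (nat_lit 2), (nat_lit 0x54e), (nat_lit 2)⟩))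
(.lf ⟨(nat_lit 653), (nat_lit 2), (nat_lit 0x34e34e38238234a), (nat_lit 10)⟩))
(.nd (.lf ⟨(nat_lit 0), (nat_lit 0), (nat_lit 780), (nat_lit 2)⟩)
(.lf ⟨(nat_lit 0), (nat_lit 0), (nat_lit 0x28104a041), (nat_lit 6)⟩)))
(.nd (.nd (.lf ⟨(nat_lit 219), (nat_lit 2), (nat_lit 0x6c3), (nat_lit 2)⟩)
(.lf ⟨(nat_lit 0x5cd5cd), (nat_lit 4), (nat_lit 0), (nat_lit 0)⟩))
(.nd (.lf ⟨(nat_lit 0x28448b284), (nat_lit 6), (nat_lit 0x28418a106), (nat_lit 6)⟩)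
(.lf ⟨(nat_lit 0), (nat_lit 0), (nat_lit 0x545255149), (nat_lit 6)⟩))))))
(.nd (.nd (.nd (.nd (.nd (.nd (.lf ⟨(nat_lit 975), (nat_lit 2), (nat_lit 0), (nat_lit 0)⟩)
(.lf ⟨(nat_lit 923), (nat_lit 2), (nat_lit 0x6ce), (nat_lit 2)⟩))
(.lf ⟨(nat_lit 0x96088102582204), (nat_lit 10), (nat_lit 0x96088102582204), (nat_lit 10)⟩))
(.nd (.lf ⟨(nat_lit 0x2812c62812c6), (nat_lit 8), (nat_lit 0x2c62812c6281), (nat_lit 8)⟩)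
(.lf ⟨(nat_lit 0), (nat_lit 0), (nat_lit 0x18e24e246389389), (nat_lit 10)⟩)))
(.nd (.nd (.nd (.lf ⟨(nat_lit 0x4c44c4), (nat_lit 4), (nat_lit 0x113113), (nat_lit 4)⟩)
(.lf ⟨(nat_lit 0xc20c2), (nat_lit 4), (nat_lit 13), (nat_lit 1)⟩))
(.lf ⟨(nat_lit 0), (nat_lit 0), (nat_lit 0xda0da0c3683683), (nat_lit 10)⟩))
(.nd (.lf ⟨(nat_lit 0), (nat_lit 0), (nat_lit 0x108108), (nat_lit 4)⟩)
(.lf ⟨(nat_lit 0x291290), (nat_lit 4), (nat_lit 0x40a44a), (nat_lit 4)⟩))))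
(.nd (.nd (.nd (.nd (.lf ⟨(nat_lit 0x1c61c6), (nat_lit 4), (nat_lit 0x187187), (nat_lit 4)⟩)
(.lf ⟨(nat_lit 0x1820f), (nat_lit 3), (nat_lit 0x6d139138f608), (nat_lit 8)⟩))
(.lf ⟨(nat_lit 0x4d5), (nat_lit 2), (nat_lit 0x553), (nat_lit 2)⟩))
(.nd (.lf ⟨(nat_lit 338), (nat_lit 2), (nat_lit 0x485612158485), (nat_lit 8)⟩)
(.lf ⟨(nat_lit 15), (nat_lit 1), (nat_lit 0x34b34234b342), (nat_lit 8)⟩)))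
(.nd (.nd (.lf ⟨(nat_lit 395), (nat_lit 2), (nat_lit 710), (nat_lit 2)⟩)
(.lf ⟨(nat_lit 788), (nat_lit 2), (nat_lit 0x5113d13cc), (nat_lit 6)⟩))
(.nd (.lf ⟨(nat_lit 0x291291), (nat_lit 4), (nat_lit 0x44a44a), (nat_lit 4)⟩)
(.lf ⟨(nat_lit 0x40c29030a44f44f), (nat_lit 10), (nat_lit 0x44f44f40c29030a), (nat_lit 10)⟩)))))
(.nd (.nd (.nd (.nd (.nd (.lf ⟨(nat_lit 74), (nat_lit 2), (nat_lit 0x1ca1ca1ca1c1), (nat_lit 8)⟩)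
(.lf ⟨(nat_lit 0x24c1c9307), (nat_lit 6), (nat_lit 0x24c1c9307), (nat_lit 6)⟩))
(.lf ⟨(nat_lit 0x18a04c18c18a04c18c186281306306281306306), (nat_lit 26), (nat_lit 0x18a04c18c18a04c18c186281306306281306306), (nat_lit 26)⟩))
(.nd (.lf ⟨(nat_lit 0x21b20864821b208648), (nat_lit 12), (nat_lit 0x2192086c82192086c8), (nat_lit 12)⟩)
(.lf ⟨(nat_lit 0x10511414), (nat_lit 5), (nat_lit 0x14414450), (nat_lit 5)⟩)))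
(.nd (.nd (.lf ⟨(nat_lit 0x8a1c4), (nat_lit 4), (nat_lit 0x41c428710518d18918d246142), (nat_lit 17)⟩)
(.lf ⟨(nat_lit 665), (nat_lit 2), (nat_lit 0x3994ce4ca), (nat_lit 6)⟩))
(.nd (.lf ⟨(nat_lit 456), (nat_lit 2), (nat_lit 0x11207), (nat_lit 3)⟩)
(.lf ⟨(nat_lit 0x58d58d), (nat_lit 4), (nat_lit 0), (nat_lit 0)⟩))))
(.nd (.nd (.nd (.nd (.lf ⟨(nat_lit 0x1cb1cb), (nat_lit 4), (nat_lit 0x2c72c7), (nat_lit 4)⟩)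
(.lf ⟨(nat_lit 0xb206), (nat_lit 3), (nat_lit 0x1010c4043), (nat_lit 6)⟩))
(.lf ⟨(nat_lit 841), (nat_lit 2), (nat_lit 0x143143), (nat_lit 4)⟩))
(.nd (.lf ⟨(nat_lit 0xf353), (nat_lit 3), (nat_lit 0xd4cd3cd), (nat_lit 5)⟩)
(.lf ⟨(nat_lit 0xa55340f30b30b), (nat_lit 9), (nat_lit 0x154d03cc2cc2ca), (nat_lit 9)⟩)))
(.nd (.nd (.lf ⟨(nat_lit 0x520a), (nat_lit 3), (nat_lit 0x8288148), (nat_lit 5)⟩)
(.lf ⟨(nat_lit 0x3011d61c11d61cc047587047587), (nat_lit 18), (nat_lit 0x3011d61c11d61cc047587047587), (nat_lit 18)⟩))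
(.nd (.lf ⟨(nat_lit 0x34668668d), (nat_lit 6), (nat_lit 0x18d68d18d68d), (nat_lit 8)⟩)
(.lf ⟨(nat_lit 0x69725a5c9), (nat_lit 6), (nat_lit 0x19a19a), (nat_lit 4)⟩)))))))))
(.nd (.nd (.nd (.nd (.nd (.nd (.nd (.nd (.nd (.lf ⟨(nat_lit 0x83083), (nat_lit 4), (nat_lit 13), (nat_lit 1)⟩)
(.lf ⟨(nat_lit 0x15638a58a15638a58a), (nat_lit 12), (nat_lit 0x15638a58a15638a58a), (nat_lit 12)⟩))
(.lf ⟨(nat_lit 13), (nat_lit 1), (nat_lit 0x4d241349), (nat_lit 6)⟩))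
(.nd (.lf ⟨(nat_lit 0x2c808b202), (nat_lit 6), (nat_lit 0x8b2022c8), (nat_lit 6)⟩)
(.lf ⟨(nat_lit 0), (nat_lit 0), (nat_lit 0x11750b44b2912845d42d12ca44a), (nat_lit 18)⟩)))
(.nd (.nd (.nd (.lf ⟨(nat_lit 0x62c8188), (nat_lit 5), (nat_lit 0x818b206), (nat_lit 5)⟩)
(.lf ⟨(nat_lit 0), (nat_lit 0), (nat_lit 0x11a11a), (nat_lit 4)⟩))
(.lf ⟨(nat_lit 0x28c291), (nat_lit 4), (nat_lit 0x44a30a), (nat_lit 4)⟩))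
(.nd (.lf ⟨(nat_lit 0), (nat_lit 0), (nat_lit 0x20c20c), (nat_lit 4)⟩)
(.lf ⟨(nat_lit 0xd4590516403), (nat_lit 8), (nat_lit 0xd40d00d40d0), (nat_lit 8)⟩))))
(.nd (.nd (.nd (.nd (.lf ⟨(nat_lit 0x8a1c4), (nat_lit 4), (nat_lit 0x41c4287105085), (nat_lit 9)⟩)
(.lf ⟨(nat_lit 0), (nat_lit 0), (nat_lit 0x510510), (nat_lit 4)⟩))
(.lf ⟨(nat_lit 0x25224a), (nat_lit 4), (nat_lit 0x289489), (nat_lit 4)⟩))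
(.nd (.lf ⟨(nat_lit 0x682682), (nat_lit 4), (nat_lit 0), (nat_lit 0)⟩)
(.lf ⟨(nat_lit 0x2d12cc), (nat_lit 4), (nat_lit 0x30b44b), (nat_lit 4)⟩)))
(.nd (.nd (.lf ⟨(nat_lit 0x620b), (nat_lit 3), (nat_lit 0xb20b2062c8), (nat_lit 7)⟩)
(.lf ⟨(nat_lit 793), (nat_lit 2), (nat_lit 0x64c), (nat_lit 2)⟩))
(.nd (.lf ⟨(nat_lit 0x28854a54a21529528a21529528854a54a), (nat_lit 22), (nat_lit 0x28854a54a21529528a21529528854a54a), (nat_lit 22)⟩)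
(.lf ⟨(nat_lit 0x396396), (nat_lit 4), (nat_lit 0x58e58e), (nat_lit 4)⟩)))))
(.nd (.nd (.nd (.nd (.nd (.lf ⟨(nat_lit 0x492), (nat_lit 2), (nat_lit 0), (nat_lit 0)⟩)
(.lf ⟨(nat_lit 0x516), (nat_lit 2), (nat_lit 0x594), (nat_lit 2)⟩))
(.lf ⟨(nat_lit 0x642642), (nat_lit 4), (nat_lit 0x642642), (nat_lit 4)⟩))
(.nd (.lf ⟨(nat_lit 0x2591096), (nat_lit 5), (nat_lit 0x11591096442), (nat_lit 7)⟩)
(.lf ⟨(nat_lit 0xa40c291), (nat_lit 5), (nat_lit 0x1129030a), (nat_lit 5)⟩)))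
(.nd (.nd (.lf ⟨(nat_lit 0x445445), (nat_lit 4), (nat_lit 0x151151), (nat_lit 4)⟩)
(.lf ⟨(nat_lit 400), (nat_lit 2), (nat_lit 0x1635030b20d2cd24c20d246), (nat_lit 15)⟩))
(.nd (.lf ⟨(nat_lit 841), (nat_lit 2), (nat_lit 0xc50c5), (nat_lit 4)⟩)
(.lf ⟨(nat_lit 212), (nat_lit 2), (nat_lit 0x1b5ce5d444e51139b5ce51139b5ce443), (nat_lit 21)⟩))))
(.nd (.nd (.nd (.nd (.lf ⟨(nat_lit 0x410), (nat_lit 2), (nat_lit 0), (nat_lit 0)⟩)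
(.lf ⟨(nat_lit 662), (nat_lit 2), (nat_lit 0x59039038a), (nat_lit 6)⟩))
(.lf ⟨(nat_lit 0), (nat_lit 0), (nat_lit 0x196186586), (nat_lit 6)⟩))
(.nd (.lf ⟨(nat_lit 0x18538d38614614e34e185), (nat_lit 14), (nat_lit 0), (nat_lit 0)⟩)
(.lf ⟨(nat_lit 0x96402590), (nat_lit 6), (nat_lit 0x96402590), (nat_lit 6)⟩)))
(.nd (.nd (.lf ⟨(nat_lit 283), (nat_lit 2), (nat_lit 0x21b5c85c4), (nat_lit 6)⟩)
(.lf ⟨(nat_lit 730), (nat_lit 2), (nat_lit 0x3da5105103cb), (nat_lit 8)⟩))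
(.nd (.lf ⟨(nat_lit 0x44b44b), (nat_lit 4), (nat_lit 0x5c85c8), (nat_lit 4)⟩)
(.lf ⟨(nat_lit 0), (nat_lit 0), (nat_lit 0x11b11b), (nat_lit 4)⟩))))))
(.nd (.nd (.nd (.nd (.nd (.nd (.lf ⟨(nat_lit 132), (nat_lit 2), (nat_lit 0x7102), (nat_lit 3)⟩)
(.lf ⟨(nat_lit 0x65a), (nat_lit 2), (nat_lit 0x699), (nat_lit 2)⟩))
(.lf ⟨(nat_lit 11), (nat_lit 1), (nat_lit 0x184184), (nat_lit 4)⟩))
(.nd (.lf ⟨(nat_lit 84), (nat_lit 2), (nat_lit 0x5135084c8501), (nat_lit 8)⟩)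
(.lf ⟨(nat_lit 0), (nat_lit 0), (nat_lit 0x2c42c4), (nat_lit 4)⟩)))
(.nd (.nd (.nd (.lf ⟨(nat_lit 154), (nat_lit 2), (nat_lit 0x5da5da5da5c2), (nat_lit 8)⟩)
(.lf ⟨(nat_lit 11), (nat_lit 1), (nat_lit 0x48181206), (nat_lit 6)⟩))
(.lf ⟨(nat_lit 0x589589), (nat_lit 4), (nat_lit 0x256256), (nat_lit 4)⟩))
(.nd (.lf ⟨(nat_lit 0x49748449748a0925d22821125d228249748a0925d21125d228249748a08449748a0925d2282), (nat_lit 50), (nat_lit 0x49748449748a0925d22821125d228249748a0925d21125d228249748a08449748a0925d2282), (nat_lit 50)⟩)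
(.lf ⟨(nat_lit 0x518), (nat_lit 2), (nat_lit 0x614), (nat_lit 2)⟩))))
(.nd (.nd (.nd (.nd (.lf ⟨(nat_lit 143), (nat_lit 2), (nat_lit 0x2cf2cf2cf2c2), (nat_lit 8)⟩)
(.lf ⟨(nat_lit 0x1541b44e44e), (nat_lit 7), (nat_lit 0x1b44e44e550), (nat_lit 7)⟩))
(.lf ⟨(nat_lit 976), (nat_lit 2), (nat_lit 0x4d541354f), (nat_lit 6)⟩))
(.nd (.lf ⟨(nat_lit 0), (nat_lit 0), (nat_lit 0x204204), (nat_lit 4)⟩)
(.lf ⟨(nat_lit 0), (nat_lit 0), (nat_lit 0x54a54a), (nat_lit 4)⟩)))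
(.nd (.nd (.lf ⟨(nat_lit 0x498), (nat_lit 2), (nat_lit 0x612), (nat_lit 2)⟩)
(.lf ⟨(nat_lit 0x28c290), (nat_lit 4), (nat_lit 0x40a30a), (nat_lit 4)⟩))
(.nd (.lf ⟨(nat_lit 0x5cb217211), (nat_lit 6), (nat_lit 0x6d721721b4572c85c8), (nat_lit 12)⟩)
(.lf ⟨(nat_lit 0x38c38c38c38c), (nat_lit 8), (nat_lit 0), (nat_lit 0)⟩)))))
(.nd (.nd (.nd (.nd (.nd (.lf ⟨(nat_lit 0x81081), (nat_lit 4), (nat_lit 0x42042), (nat_lit 4)⟩)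
(.lf ⟨(nat_lit 0x58d60a58d60a), (nat_lit 8), (nat_lit 0x60a58d60a58d), (nat_lit 8)⟩))
(.lf ⟨(nat_lit 0x6c26d721b5c809b5c86d721b09b5c86d72026d721b5c8), (nat_lit 30), (nat_lit 0x6c26d721b5c809b5c86d721b09b5c86d72026d721b5c8), (nat_lit 30)⟩))
(.nd (.lf ⟨(nat_lit 0x754a1d5), (nat_lit 5), (nat_lit 0xa54a1d5287), (nat_lit 7)⟩)
(.lf ⟨(nat_lit 0), (nat_lit 0), (nat_lit 0x54954c2cc2d525530b30b), (nat_lit 14)⟩)))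
(.nd (.nd (.lf ⟨(nat_lit 0x2032880ca), (nat_lit 6), (nat_lit 0x2880ca203), (nat_lit 6)⟩)
(.lf ⟨(nat_lit 0x834b), (nat_lit 3), (nat_lit 0xd2cd20d), (nat_lit 5)⟩))
(.nd (.lf ⟨(nat_lit 0x1d5407545405), (nat_lit 8), (nat_lit 0x1d54051d5405), (nat_lit 8)⟩)
(.lf ⟨(nat_lit 795), (nat_lit 2), (nat_lit 0x6d759b65b65765b5d66d95cc), (nat_lit 16)⟩))))
(.nd (.nd (.nd (.nd (.lf ⟨(nat_lit 0x110110), (nat_lit 4), (nat_lit 0x404404), (nat_lit 4)⟩)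
(.lf ⟨(nat_lit 528), (nat_lit 2), (nat_lit 0x1b408), (nat_lit 3)⟩))
(.lf ⟨(nat_lit 0x25025034919035024640940940d24640d409190), (nat_lit 26), (nat_lit 0x25025034919035024640940940d24640d409190), (nat_lit 26)⟩))
(.nd (.lf ⟨(nat_lit 0x40a40a40a40a), (nat_lit 8), (nat_lit 0x5029028140a40a), (nat_lit 10)⟩)
(.lf ⟨(nat_lit 411), (nat_lit 2), (nat_lit 0x6c6), (nat_lit 2)⟩)))
(.nd (.nd (.lf ⟨(nat_lit 272), (nat_lit 2), (nat_lit 0x174505d1417450444), (nat_lit 11)⟩)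
(.lf ⟨(nat_lit 0x58a596296), (nat_lit 6), (nat_lit 0), (nat_lit 0)⟩))
(.nd (.lf ⟨(nat_lit 0xf30f30f30b30b), (nat_lit 9), (nat_lit 0x3022cc08b), (nat_lit 6)⟩)
(.lf ⟨(nat_lit 26), (nat_lit 1), (nat_lit 0x975112912825d444a44a), (nat_lit 14)⟩)))))))
(.nd (.nd (.nd (.nd (.nd (.nd (.nd (.lf ⟨(nat_lit 20), (nat_lit 1), (nat_lit 0x10f10f), (nat_lit 4)⟩)
(.lf ⟨(nat_lit 0x4e29038a40138a40e290), (nat_lit 14), (nat_lit 0x4e29038a40138a40e290), (nat_lit 14)⟩))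
(.lf ⟨(nat_lit 0x40b40b), (nat_lit 4), (nat_lit 0x2c140b050), (nat_lit 6)⟩))
(.nd (.lf ⟨(nat_lit 0x204141204141), (nat_lit 8), (nat_lit 0x141204141204), (nat_lit 8)⟩)
(.lf ⟨(nat_lit 0), (nat_lit 0), (nat_lit 0x60f60d2583d8349), (nat_lit 10)⟩)))
(.nd (.nd (.nd (.lf ⟨(nat_lit 0x5d7), (nat_lit 2), (nat_lit 0), (nat_lit 0)⟩)
(.lf ⟨(nat_lit 0x2ca2ca), (nat_lit 4), (nat_lit 0), (nat_lit 0)⟩))
(.lf ⟨(nat_lit 0x20e21120e20520e20544838814838814838844838814838815120e20520e205), (nat_lit 42), (nat_lit 0x20e21120e20520e20544838814838814838844838814838815120e20520e205), (nat_lit 42)⟩))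
(.nd (.lf ⟨(nat_lit 0), (nat_lit 0), (nat_lit 0x3c93c9), (nat_lit 4)⟩)
(.lf ⟨(nat_lit 90), (nat_lit 2), (nat_lit 0x690290281), (nat_lit 6)⟩))))
(.nd (.nd (.nd (.nd (.lf ⟨(nat_lit 0x1ca1ca), (nat_lit 4), (nat_lit 0x287287), (nat_lit 4)⟩)
(.lf ⟨(nat_lit 328), (nat_lit 2), (nat_lit 0x1b5534503ce44e205), (nat_lit 11)⟩))
(.lf ⟨(nat_lit 5), (nat_lit 1), (nat_lit 0x81081), (nat_lit 4)⟩))
(.nd (.lf ⟨(nat_lit 0x2453c914f), (nat_lit 6), (nat_lit 0x3c914f245), (nat_lit 6)⟩)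
(.lf ⟨(nat_lit 0), (nat_lit 0), (nat_lit 0x6c36c3), (nat_lit 4)⟩)))
(.nd (.nd (.lf ⟨(nat_lit 589), (nat_lit 2), (nat_lit 841), (nat_lit 2)⟩)
(.lf ⟨(nat_lit 86), (nat_lit 2), (nat_lit 0xd30b34b24c209201), (nat_lit 11)⟩))
(.nd (.lf ⟨(nat_lit 0x172c85c8), (nat_lit 5), (nat_lit 0x5c1217048), (nat_lit 6)⟩)
(.lf ⟨(nat_lit 795), (nat_lit 2), (nat_lit 0x65b5d95cc), (nat_lit 6)⟩)))))
(.nd (.nd (.nd (.nd (.nd (.lf ⟨(nat_lit 81), (nat_lit 2), (nat_lit 0x17441), (nat_lit 3)⟩)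
(.lf ⟨(nat_lit 347), (nat_lit 2), (nat_lit 0x6d758e59840e5985d6405), (nat_lit 14)⟩))
(.lf ⟨(nat_lit 0x92c72c7), (nat_lit 5), (nat_lit 0xb1cb1c9), (nat_lit 5)⟩))
(.nd (.lf ⟨(nat_lit 0x618), (nat_lit 2), (nat_lit 0), (nat_lit 0)⟩)
(.lf ⟨(nat_lit 0x14a54c61560c29531855830529531855830a54c61560c), (nat_lit 30), (nat_lit 0x14a54c61560c29531855830529531855830a54c61560c), (nat_lit 30)⟩)))
(.nd (.nd (.lf ⟨(nat_lit 0x388388), (nat_lit 4), (nat_lit 0x20e20e), (nat_lit 4)⟩)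
(.lf ⟨(nat_lit 0x24e28d), (nat_lit 4), (nat_lit 0x38a34a24a), (nat_lit 6)⟩))
(.nd (.lf ⟨(nat_lit 0x250250), (nat_lit 4), (nat_lit 0x409409), (nat_lit 4)⟩)
(.lf ⟨(nat_lit 786), (nat_lit 2), (nat_lit 0x48c), (nat_lit 2)⟩))))
(.nd (.nd (.nd (.nd (.lf ⟨(nat_lit 0x383383), (nat_lit 4), (nat_lit 0xce0ce), (nat_lit 4)⟩)
(.lf ⟨(nat_lit 0), (nat_lit 0), (nat_lit 0x4836520d9), (nat_lit 6)⟩))
(.lf ⟨(nat_lit 0xd382382), (nat_lit 5), (nat_lit 0xe08e08d), (nat_lit 5)⟩))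
(.nd (.lf ⟨(nat_lit 0), (nat_lit 0), (nat_lit 130), (nat_lit 2)⟩)
(.lf ⟨(nat_lit 0x5d125a25a5d125a25a), (nat_lit 12), (nat_lit 0x5d125a25a5d125a25a), (nat_lit 12)⟩)))
(.nd (.nd (.lf ⟨(nat_lit 152), (nat_lit 2), (nat_lit 0x602), (nat_lit 2)⟩)
(.lf ⟨(nat_lit 0x557557), (nat_lit 4), (nat_lit 0x5d55d5), (nat_lit 4)⟩))
(.nd (.lf ⟨(nat_lit 0x29129a), (nat_lit 4), (nat_lit 0x45a44a44a), (nat_lit 6)⟩)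
(.lf ⟨(nat_lit 342), (nat_lit 2), (nat_lit 0x34958d245), (nat_lit 6)⟩))))))
(.nd (.nd (.nd (.nd (.nd (.nd (.lf ⟨(nat_lit 0xca0ca), (nat_lit 4), (nat_lit 0x283283), (nat_lit 4)⟩)
(.lf ⟨(nat_lit 0x95d6), (nat_lit 3), (nat_lit 0xd39b5ca59039b2965ce29640e28d257), (nat_lit 21)⟩))
(.lf ⟨(nat_lit 659), (nat_lit 2), (nat_lit 0x4ca), (nat_lit 2)⟩))
(.nd (.lf ⟨(nat_lit 0x6db), (nat_lit 2), (nat_lit 0), (nat_lit 0)⟩)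
(.lf ⟨(nat_lit 0x34a34a), (nat_lit 4), (nat_lit 0x382382), (nat_lit 4)⟩)))
(.nd (.nd (.nd (.lf ⟨(nat_lit 0x56403), (nat_lit 4), (nat_lit 0x5830564082c62c8), (nat_lit 10)⟩)
(.lf ⟨(nat_lit 213), (nat_lit 2), (nat_lit 0x543), (nat_lit 2)⟩))
(.lf ⟨(nat_lit 0x1745a), (nat_lit 3), (nat_lit 0x1a5d1), (nat_lit 3)⟩))
(.nd (.lf ⟨(nat_lit 8), (nat_lit 1), (nat_lit 0x103103), (nat_lit 4)⟩)
(.lf ⟨(nat_lit 0x4db), (nat_lit 2), (nat_lit 0x65b5d95d3), (nat_lit 6)⟩))))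
(.nd (.nd (.nd (.nd (.lf ⟨(nat_lit 0x1c51c5), (nat_lit 4), (nat_lit 0x147147), (nat_lit 4)⟩)
(.lf ⟨(nat_lit 0x1b44e44e), (nat_lit 5), (nat_lit 0x6083d820f), (nat_lit 6)⟩))
(.lf ⟨(nat_lit 0x72c730b30b44c2cc2d1), (nat_lit 13), (nat_lit 0xc2cc2d130b30b4472c7), (nat_lit 13)⟩))
(.nd (.lf ⟨(nat_lit 0x8138238204e08e08204e08e081382382), (nat_lit 22), (nat_lit 0x8138238204e08e08204e08e081382382), (nat_lit 22)⟩)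
(.lf ⟨(nat_lit 0x487487), (nat_lit 4), (nat_lit 0), (nat_lit 0)⟩)))
(.nd (.nd (.lf ⟨(nat_lit 0x5697157), (nat_lit 5), (nat_lit 0x1715a5c5), (nat_lit 5)⟩)
(.lf ⟨(nat_lit 337), (nat_lit 2), (nat_lit 0x30a40c291405), (nat_lit 8)⟩))
(.nd (.lf ⟨(nat_lit 0x5d11174455d11445d11574455d11174455d11445d1157445), (nat_lit 32), (nat_lit 0x5d11174455d11445d11574455d11174455d11445d1157445), (nat_lit 32)⟩)
(.lf ⟨(nat_lit 0x44f44f), (nat_lit 4), (nat_lit 0x1cc2cc2c730b30b), (nat_lit 10)⟩)))))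
(.nd (.nd (.nd (.nd (.nd (.lf ⟨(nat_lit 0x181181), (nat_lit 4), (nat_lit 0x46046), (nat_lit 4)⟩)
(.lf ⟨(nat_lit 0x930e), (nat_lit 3), (nat_lit 0xc38c24c), (nat_lit 5)⟩))
(.lf ⟨(nat_lit 18), (nat_lit 1), (nat_lit 0x18a046281), (nat_lit 6)⟩))
(.nd (.lf ⟨(nat_lit 0x282282), (nat_lit 4), (nat_lit 0), (nat_lit 0)⟩)
(.lf ⟨(nat_lit 0x3504), (nat_lit 3), (nat_lit 0x2040d4), (nat_lit 4)⟩)))
(.nd (.nd (.lf ⟨(nat_lit 74), (nat_lit 2), (nat_lit 641), (nat_lit 2)⟩)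
(.lf ⟨(nat_lit 0xb454), (nat_lit 3), (nat_lit 0x174545d12d1), (nat_lit 7)⟩))
(.nd (.lf ⟨(nat_lit 0x3db3c73db3c33db3c31cf6cf0cf6cf0cf6cf1cf6cf0cf6cf0c73db3c33db3c3), (nat_lit 42), (nat_lit 0x3db3c73db3c33db3c31cf6cf0cf6cf0cf6cf1cf6cf0cf6cf0c73db3c33db3c3), (nat_lit 42)⟩)
(.lf ⟨(nat_lit 0x59b), (nat_lit 2), (nat_lit 0x6d6), (nat_lit 2)⟩))))
(.nd (.nd (.nd (.nd (.lf ⟨(nat_lit 0x31880c6), (nat_lit 5), (nat_lit 0x81880c6203), (nat_lit 7)⟩)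
(.lf ⟨(nat_lit 0), (nat_lit 0), (nat_lit 0x8c24c242309309), (nat_lit 10)⟩))
(.lf ⟨(nat_lit 0x47587047587), (nat_lit 8), (nat_lit 0x47587047587), (nat_lit 8)⟩))
(.nd (.lf ⟨(nat_lit 0x94cf253), (nat_lit 5), (nat_lit 0x132533c9), (nat_lit 5)⟩)
(.lf ⟨(nat_lit 0x34955340f30b30b), (nat_lit 10), (nat_lit 0x55340f30b30b349), (nat_lit 10)⟩)))
(.nd (.nd (.lf ⟨(nat_lit 332), (nat_lit 2), (nat_lit 0x15305), (nat_lit 3)⟩)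
(.lf ⟨(nat_lit 0xb34e), (nat_lit 3), (nat_lit 0x1334e64e4ce64d2cd), (nat_lit 11)⟩))
(.nd (.lf ⟨(nat_lit 467), (nat_lit 2), (nat_lit 0x4c7), (nat_lit 2)⟩)
(.lf ⟨(nat_lit 0x496), (nat_lit 2), (nat_lit 0x592), (nat_lit 2)⟩))))))))
(.nd (.nd (.nd (.nd (.nd (.nd (.nd (.nd (.lf ⟨(nat_lit 12), (nat_lit 1), (nat_lit 0x88088), (nat_lit 4)⟩)
(.lf ⟨(nat_lit 278), (nat_lit 2), (nat_lit 0x1b5d65cc2cc2c4), (nat_lit 9)⟩))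
(.lf ⟨(nat_lit 0x6549), (nat_lit 3), (nat_lit 0x9549549195), (nat_lit 7)⟩))
(.nd (.lf ⟨(nat_lit 0x30810c204), (nat_lit 6), (nat_lit 0x10c204308), (nat_lit 6)⟩)
(.lf ⟨(nat_lit 0x5815871161c40561c45871160561c45871015871161c4), (nat_lit 30), (nat_lit 0x5815871161c40561c45871160561c45871015871161c4), (nat_lit 30)⟩)))
(.nd (.nd (.nd (.lf ⟨(nat_lit 0x4d3), (nat_lit 2), (nat_lit 0), (nat_lit 0)⟩)
(.lf ⟨(nat_lit 334), (nat_lit 2), (nat_lit 0x18385), (nat_lit 3)⟩))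
(.lf ⟨(nat_lit 0x1934b34b), (nat_lit 5), (nat_lit 0xd2cd2d9), (nat_lit 5)⟩))
(.nd (.lf ⟨(nat_lit 275), (nat_lit 2), (nat_lit 0x4cf30b30f30b304), (nat_lit 10)⟩)
(.lf ⟨(nat_lit 0x10290285), (nat_lit 5), (nat_lit 0x68205a081), (nat_lit 6)⟩))))
(.nd (.nd (.nd (.nd (.lf ⟨(nat_lit 0x105105), (nat_lit 4), (nat_lit 0x144144), (nat_lit 4)⟩)
(.lf ⟨(nat_lit 0x34b34b), (nat_lit 4), (nat_lit 0xcf2c33cb), (nat_lit 6)⟩))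
(.lf ⟨(nat_lit 0x44c497450312), (nat_lit 8), (nat_lit 0x44c48144c481), (nat_lit 8)⟩))
(.nd (.lf ⟨(nat_lit 0x6d86db61b), (nat_lit 6), (nat_lit 0), (nat_lit 0)⟩)
(.lf ⟨(nat_lit 0x1735a), (nat_lit 3), (nat_lit 0x1a5cd), (nat_lit 3)⟩)))
(.nd (.nd (.lf ⟨(nat_lit 264), (nat_lit 2), (nat_lit 516), (nat_lit 2)⟩)
(.lf ⟨(nat_lit 0x41b), (nat_lit 2), (nat_lit 0x59b5d65d0), (nat_lit 6)⟩))
(.nd (.lf ⟨(nat_lit 0x44e28838a44a20a), (nat_lit 10), (nat_lit 0x44344a20a2110d1288288), (nat_lit 14)⟩)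
(.lf ⟨(nat_lit 410), (nat_lit 2), (nat_lit 0x5c9697246), (nat_lit 6)⟩)))))
(.nd (.nd (.nd (.nd (.nd (.lf ⟨(nat_lit 0x90090), (nat_lit 4), (nat_lit 0x402402), (nat_lit 4)⟩)
(.lf ⟨(nat_lit 0xa34c), (nat_lit 3), (nat_lit 0x68c28d), (nat_lit 4)⟩))
(.lf ⟨(nat_lit 0x244244), (nat_lit 4), (nat_lit 0x109109), (nat_lit 4)⟩))
(.nd (.lf ⟨(nat_lit 0x284284), (nat_lit 4), (nat_lit 0), (nat_lit 0)⟩)
(.lf ⟨(nat_lit 0x40b31640c2cc58c), (nat_lit 10), (nat_lit 0x40b58c58c40b58c58c), (nat_lit 12)⟩)))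
(.nd (.nd (.lf ⟨(nat_lit 0x30218c086), (nat_lit 6), (nat_lit 0x18c086302), (nat_lit 6)⟩)
(.lf ⟨(nat_lit 587), (nat_lit 2), (nat_lit 0xd2d9349), (nat_lit 5)⟩))
(.nd (.lf ⟨(nat_lit 22), (nat_lit 1), (nat_lit 0x403403), (nat_lit 4)⟩)
(.lf ⟨(nat_lit 410), (nat_lit 2), (nat_lit 0x25a5c95c6), (nat_lit 6)⟩))))
(.nd (.nd (.nd (.nd (.lf ⟨(nat_lit 0x24d24d), (nat_lit 4), (nat_lit 0x349349), (nat_lit 4)⟩)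
(.lf ⟨(nat_lit 0x9b44e44e), (nat_lit 6), (nat_lit 0x6d1391382), (nat_lit 6)⟩))
(.lf ⟨(nat_lit 787), (nat_lit 2), (nat_lit 0x4cc), (nat_lit 2)⟩))
(.nd (.lf ⟨(nat_lit 0), (nat_lit 0), (nat_lit 0x69a), (nat_lit 2)⟩)
(.lf ⟨(nat_lit 0x2590096), (nat_lit 5), (nat_lit 0x590096542), (nat_lit 6)⟩)))
(.nd (.nd (.lf ⟨(nat_lit 0xb34f), (nat_lit 3), (nat_lit 0xf34f34f2cd), (nat_lit 7)⟩)
(.lf ⟨(nat_lit 0x39a38e39a38e), (nat_lit 8), (nat_lit 0x38e68e38e68e), (nat_lit 8)⟩))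
(.nd (.lf ⟨(nat_lit 0x3cb44f44b3cb44f44b), (nat_lit 12), (nat_lit 0), (nat_lit 0)⟩)
(.lf ⟨(nat_lit 0), (nat_lit 0), (nat_lit 0x89089), (nat_lit 4)⟩))))))
(.nd (.nd (.nd (.nd (.nd (.nd (.lf ⟨(nat_lit 650), (nat_lit 2), (nat_lit 0), (nat_lit 0)⟩)
(.lf ⟨(nat_lit 919), (nat_lit 2), (nat_lit 0x6d739b), (nat_lit 4)⟩))
(.lf ⟨(nat_lit 19), (nat_lit 1), (nat_lit 0x14b14b), (nat_lit 4)⟩))
(.nd (.lf ⟨(nat_lit 0x21b2086c8), (nat_lit 6), (nat_lit 0), (nat_lit 0)⟩)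
(.lf ⟨(nat_lit 791), (nat_lit 2), (nat_lit 0x5cc), (nat_lit 2)⟩)))
(.nd (.nd (.nd (.lf ⟨(nat_lit 0x503503), (nat_lit 4), (nat_lit 0xd40d4), (nat_lit 4)⟩)
(.lf ⟨(nat_lit 207), (nat_lit 2), (nat_lit 963), (nat_lit 2)⟩))
(.lf ⟨(nat_lit 0x68769745a1da5d1), (nat_lit 10), (nat_lit 0x68769745a1da5d1), (nat_lit 10)⟩))
(.nd (.lf ⟨(nat_lit 0x5c7687697), (nat_lit 6), (nat_lit 0x9a5c76971c26971da5c7), (nat_lit 14)⟩)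
(.lf ⟨(nat_lit 0x2903d1), (nat_lit 4), (nat_lit 0x69440f4503da51140f4503d140f4503d129140f), (nat_lit 26)⟩))))
(.nd (.nd (.nd (.nd (.lf ⟨(nat_lit 0x283283), (nat_lit 4), (nat_lit 0xca0ca), (nat_lit 4)⟩)
(.lf ⟨(nat_lit 0x558e590390), (nat_lit 7), (nat_lit 0x1639640e405), (nat_lit 7)⟩))
(.lf ⟨(nat_lit 0x4472d12c7), (nat_lit 6), (nat_lit 0x1cb1c81cb1c8), (nat_lit 8)⟩))
(.nd (.lf ⟨(nat_lit 0), (nat_lit 0), (nat_lit 650), (nat_lit 2)⟩)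
(.lf ⟨(nat_lit 0x38a20e288), (nat_lit 6), (nat_lit 0x10e10e), (nat_lit 4)⟩)))
(.nd (.nd (.lf ⟨(nat_lit 0x5db), (nat_lit 2), (nat_lit 0x6d7), (nat_lit 2)⟩)
(.lf ⟨(nat_lit 729), (nat_lit 2), (nat_lit 0x64b), (nat_lit 2)⟩))
(.nd (.lf ⟨(nat_lit 0), (nat_lit 0), (nat_lit 0x282282), (nat_lit 4)⟩)
(.lf ⟨(nat_lit 0x1540f30b30b), (nat_lit 7), (nat_lit 0x14b2052c8), (nat_lit 6)⟩)))))
(.nd (.nd (.nd (.nd (.nd (.lf ⟨(nat_lit 0x102102), (nat_lit 4), (nat_lit 0x84084), (nat_lit 4)⟩)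
(.lf ⟨(nat_lit 0x598), (nat_lit 2), (nat_lit 0x616), (nat_lit 2)⟩))
(.lf ⟨(nat_lit 0x30a30a), (nat_lit 4), (nat_lit 0x30a30a), (nat_lit 4)⟩))
(.nd (.lf ⟨(nat_lit 0x2d12d1), (nat_lit 4), (nat_lit 0x44b44b), (nat_lit 4)⟩)
(.lf ⟨(nat_lit 0x503503), (nat_lit 4), (nat_lit 0xd40d4), (nat_lit 4)⟩)))
(.nd (.nd (.lf ⟨(nat_lit 0x203181203181), (nat_lit 8), (nat_lit 0x181203181203), (nat_lit 8)⟩)
(.lf ⟨(nat_lit 0x455), (nat_lit 2), (nat_lit 0x551), (nat_lit 2)⟩))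
(.nd (.lf ⟨(nat_lit 0x1540530a30a), (nat_lit 7), (nat_lit 0xc28c295405), (nat_lit 7)⟩)
(.lf ⟨(nat_lit 0x388388), (nat_lit 4), (nat_lit 0), (nat_lit 0)⟩))))
(.nd (.nd (.nd (.nd (.lf ⟨(nat_lit 0x31480c5), (nat_lit 5), (nat_lit 0x81480c5203), (nat_lit 7)⟩)
(.lf ⟨(nat_lit 0), (nat_lit 0), (nat_lit 0xd6483592), (nat_lit 6)⟩))
(.lf ⟨(nat_lit 0x348348), (nat_lit 4), (nat_lit 0x2033080cc), (nat_lit 6)⟩))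
(.nd (.lf ⟨(nat_lit 0x4cf2c94cf24b), (nat_lit 8), (nat_lit 0x4cf2c92d33cb24b), (nat_lit 10)⟩)
(.lf ⟨(nat_lit 0x830963560c2), (nat_lit 8), (nat_lit 0xc258d583082), (nat_lit 8)⟩)))
(.nd (.nd (.lf ⟨(nat_lit 0x540c), (nat_lit 3), (nat_lit 0x550305), (nat_lit 4)⟩)
(.lf ⟨(nat_lit 0xa34e), (nat_lit 3), (nat_lit 0xe28d), (nat_lit 3)⟩))
(.nd (.lf ⟨(nat_lit 0), (nat_lit 0), (nat_lit 0x113113), (nat_lit 4)⟩)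
(.lf ⟨(nat_lit 204), (nat_lit 2), (nat_lit 0x19303), (nat_lit 3)⟩)))))))
(.nd (.nd (.nd (.nd (.nd (.nd (.nd (.lf ⟨(nat_lit 0x42042), (nat_lit 4), (nat_lit 0x81081), (nat_lit 4)⟩)
(.lf ⟨(nat_lit 90), (nat_lit 2), (nat_lit 0x681), (nat_lit 2)⟩))
(.lf ⟨(nat_lit 0x548395388), (nat_lit 6), (nat_lit 0x548388548388), (nat_lit 8)⟩))
(.nd (.lf ⟨(nat_lit 0x213213), (nat_lit 4), (nat_lit 0x4c84c8), (nat_lit 4)⟩)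
(.lf ⟨(nat_lit 0), (nat_lit 0), (nat_lit 0x913d13c244f44f), (nat_lit 10)⟩)))
(.nd (.nd (.nd (.lf ⟨(nat_lit 279), (nat_lit 2), (nat_lit 0x457444), (nat_lit 4)⟩)
(.lf ⟨(nat_lit 588), (nat_lit 2), (nat_lit 777), (nat_lit 2)⟩))
(.lf ⟨(nat_lit 272), (nat_lit 2), (nat_lit 0x17404), (nat_lit 3)⟩))
(.nd (.lf ⟨(nat_lit 1), (nat_lit 1), (nat_lit 0x1335334d3cd3d3253241), (nat_lit 13)⟩)
(.lf ⟨(nat_lit 0xe653393), (nat_lit 5), (nat_lit 0x133994ce), (nat_lit 5)⟩))))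
(.nd (.nd (.nd (.nd (.lf ⟨(nat_lit 0x1c2047081), (nat_lit 6), (nat_lit 0x470811c2), (nat_lit 6)⟩)
(.lf ⟨(nat_lit 0x29128d), (nat_lit 4), (nat_lit 0x3513964503ce55349140e44e5954d23ca44a), (nat_lit 24)⟩))
(.lf ⟨(nat_lit 720), (nat_lit 2), (nat_lit 0x40b), (nat_lit 2)⟩))
(.nd (.lf ⟨(nat_lit 147), (nat_lit 2), (nat_lit 0x4c2), (nat_lit 2)⟩)
(.lf ⟨(nat_lit 0), (nat_lit 0), (nat_lit 0x5cd5cd), (nat_lit 4)⟩)))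
(.nd (.nd (.lf ⟨(nat_lit 0x638a), (nat_lit 3), (nat_lit 0x48e286), (nat_lit 4)⟩)
(.lf ⟨(nat_lit 0x24e24e), (nat_lit 4), (nat_lit 0x389389), (nat_lit 4)⟩))
(.nd (.lf ⟨(nat_lit 0x5ca1d71d72875c7), (nat_lit 10), (nat_lit 0), (nat_lit 0)⟩)
(.lf ⟨(nat_lit 0xa648), (nat_lit 3), (nat_lit 0x1751129129920a), (nat_lit 9)⟩)))))
(.nd (.nd (.nd (.nd (.nd (.lf ⟨(nat_lit 0x69a), (nat_lit 2), (nat_lit 0), (nat_lit 0)⟩)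
(.lf ⟨(nat_lit 0x96da), (nat_lit 3), (nat_lit 0x1a25b), (nat_lit 3)⟩))
(.lf ⟨(nat_lit 0x72c92c9), (nat_lit 5), (nat_lit 0xb24b247), (nat_lit 5)⟩))
(.nd (.lf ⟨(nat_lit 0x583583), (nat_lit 4), (nat_lit 0), (nat_lit 0)⟩)
(.lf ⟨(nat_lit 0x6436541195040d95046541190d9504654103654119504), (nat_lit 30), (nat_lit 0x6436541195040d95046541190d9504654103654119504), (nat_lit 30)⟩)))
(.nd (.nd (.lf ⟨(nat_lit 0x2c92c9), (nat_lit 4), (nat_lit 0x24b24b), (nat_lit 4)⟩)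
(.lf ⟨(nat_lit 0x948b), (nat_lit 3), (nat_lit 0x64d2cd252), (nat_lit 6)⟩))
(.nd (.lf ⟨(nat_lit 0x217217), (nat_lit 4), (nat_lit 0x6d721721b), (nat_lit 6)⟩)
(.lf ⟨(nat_lit 0x41a), (nat_lit 2), (nat_lit 0x690), (nat_lit 2)⟩))))
(.nd (.nd (.nd (.nd (.lf ⟨(nat_lit 0x242242), (nat_lit 4), (nat_lit 0), (nat_lit 0)⟩)
(.lf ⟨(nat_lit 347), (nat_lit 2), (nat_lit 0x6c5), (nat_lit 2)⟩))
(.lf ⟨(nat_lit 0x250249409), (nat_lit 6), (nat_lit 0), (nat_lit 0)⟩))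
(.nd (.lf ⟨(nat_lit 0x549555255), (nat_lit 6), (nat_lit 0), (nat_lit 0)⟩)
(.lf ⟨(nat_lit 0xe6d748e6d7), (nat_lit 7), (nat_lit 0x28119b5ca0466d7), (nat_lit 10)⟩)))
(.nd (.nd (.lf ⟨(nat_lit 131), (nat_lit 2), (nat_lit 0xd0c2), (nat_lit 3)⟩)
(.lf ⟨(nat_lit 0x383643383643), (nat_lit 8), (nat_lit 0x643383643383), (nat_lit 8)⟩))
(.nd (.lf ⟨(nat_lit 0), (nat_lit 0), (nat_lit 0x28a11228448a28448a112), (nat_lit 14)⟩)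
(.lf ⟨(nat_lit 0), (nat_lit 0), (nat_lit 0x545545), (nat_lit 4)⟩))))))
(.nd (.nd (.nd (.nd (.nd (.nd (.lf ⟨(nat_lit 76), (nat_lit 2), (nat_lit 0x10301), (nat_lit 3)⟩)
(.lf ⟨(nat_lit 0x69b), (nat_lit 2), (nat_lit 0x6da), (nat_lit 2)⟩))
(.lf ⟨(nat_lit 0x96456442), (nat_lit 6), (nat_lit 0x96091096091), (nat_lit 8)⟩))
(.nd (.lf ⟨(nat_lit 0x5b05b), (nat_lit 4), (nat_lit 0x6c16c1), (nat_lit 4)⟩)
(.lf ⟨(nat_lit 0x34958d409590), (nat_lit 8), (nat_lit 0x156156), (nat_lit 4)⟩)))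
(.nd (.nd (.nd (.lf ⟨(nat_lit 0x3c210f084), (nat_lit 6), (nat_lit 0x10f0843c2), (nat_lit 6)⟩)
(.lf ⟨(nat_lit 0x34a24614308134a246143081), (nat_lit 16), (nat_lit 0x12389185), (nat_lit 5)⟩))
(.lf ⟨(nat_lit 474), (nat_lit 2), (nat_lit 0x687), (nat_lit 2)⟩))
(.nd (.lf ⟨(nat_lit 11), (nat_lit 1), (nat_lit 0x201201), (nat_lit 4)⟩)
(.lf ⟨(nat_lit 0x412), (nat_lit 2), (nat_lit 0x490), (nat_lit 2)⟩))))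
(.nd (.nd (.nd (.nd (.lf ⟨(nat_lit 0x207207), (nat_lit 4), (nat_lit 0x1c81c8), (nat_lit 4)⟩)
(.lf ⟨(nat_lit 0x29128d), (nat_lit 4), (nat_lit 0x3513964503ce59140f39138a44a), (nat_lit 18)⟩))
(.lf ⟨(nat_lit 0x44b44b), (nat_lit 4), (nat_lit 0x5c8117204), (nat_lit 6)⟩))
(.nd (.lf ⟨(nat_lit 0x2c72c7), (nat_lit 4), (nat_lit 0x1cb1cb), (nat_lit 4)⟩)
(.lf ⟨(nat_lit 0), (nat_lit 0), (nat_lit 0x34b3523d23cd2cd48f48f), (nat_lit 14)⟩)))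
(.nd (.nd (.lf ⟨(nat_lit 392), (nat_lit 2), (nat_lit 518), (nat_lit 2)⟩)
(.lf ⟨(nat_lit 0x834c), (nat_lit 3), (nat_lit 0xc20d), (nat_lit 3)⟩))
(.nd (.lf ⟨(nat_lit 0x39139638a58a39139638a58a), (nat_lit 16), (nat_lit 0x39139638a58a39139638a58a), (nat_lit 16)⟩)
(.lf ⟨(nat_lit 0x482589589092096256242), (nat_lit 14), (nat_lit 0x482589589092096256242), (nat_lit 14)⟩)))))
(.nd (.nd (.nd (.nd (.nd (.lf ⟨(nat_lit 0x182182), (nat_lit 4), (nat_lit 0x86086), (nat_lit 4)⟩)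
(.lf ⟨(nat_lit 0x24424c1c930710930724c1c910930724c1c424c1c9307), (nat_lit 30), (nat_lit 0x24424c1c930710930724c1c910930724c1c424c1c9307), (nat_lit 30)⟩))
(.lf ⟨(nat_lit 0xa40c28c), (nat_lit 5), (nat_lit 0xc29030a), (nat_lit 5)⟩))
(.nd (.lf ⟨(nat_lit 0x307307), (nat_lit 4), (nat_lit 0), (nat_lit 0)⟩)
(.lf ⟨(nat_lit 532), (nat_lit 2), (nat_lit 0x51051140f45051140f30b44b308), (nat_lit 18)⟩)))
(.nd (.nd (.lf ⟨(nat_lit 206), (nat_lit 2), (nat_lit 899), (nat_lit 2)⟩)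
(.lf ⟨(nat_lit 0x930b), (nat_lit 3), (nat_lit 0x2cc64d2cd30b24c), (nat_lit 10)⟩))
(.nd (.lf ⟨(nat_lit 0xb54f2d5), (nat_lit 5), (nat_lit 0x154cf2d54cb), (nat_lit 7)⟩)
(.lf ⟨(nat_lit 0x101308101308), (nat_lit 8), (nat_lit 0x308101308101), (nat_lit 8)⟩))))
(.nd (.nd (.nd (.nd (.lf ⟨(nat_lit 0x6287187), (nat_lit 5), (nat_lit 0x718a1c6), (nat_lit 5)⟩)
(.lf ⟨(nat_lit 0x1c40470c70c40470c70c71011c31c31011c31c3), (nat_lit 26), (nat_lit 0x1c40470c70c40470c70c71011c31c31011c31c3), (nat_lit 26)⟩))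
(.lf ⟨(nat_lit 0x309309), (nat_lit 4), (nat_lit 0x8c18c182306306), (nat_lit 10)⟩))
(.nd (.lf ⟨(nat_lit 18), (nat_lit 1), (nat_lit 0x286286), (nat_lit 4)⟩)
(.lf ⟨(nat_lit 270), (nat_lit 2), (nat_lit 0x39750b44b291284), (nat_lit 10)⟩)))
(.nd (.nd (.lf ⟨(nat_lit 0x141141), (nat_lit 4), (nat_lit 0), (nat_lit 0)⟩)
(.lf ⟨(nat_lit 0x30758c58730758c587), (nat_lit 12), (nat_lit 0), (nat_lit 0)⟩))
(.nd (.lf ⟨(nat_lit 0x34668668d34668668d), (nat_lit 12), (nat_lit 0), (nat_lit 0)⟩)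
(.lf ⟨(nat_lit 0x5c95c95c95c9), (nat_lit 8), (nat_lit 0), (nat_lit 0)⟩))))))))))
(.nd (.nd (.nd (.nd (.nd (.nd (.nd (.nd (.nd (.nd (.lf ⟨(nat_lit 260), (nat_lit 2), (nat_lit 0), (nat_lit 0)⟩)
(.lf ⟨(nat_lit 0x15b5972165cc2cc2c56d65c859730b30b), (nat_lit 22), (nat_lit 0x15b5972165cc2cc2c56d65c859730b30b), (nat_lit 22)⟩))
(.lf ⟨(nat_lit 0xd52465460d5246546), (nat_lit 12), (nat_lit 0xd52465460d5246546), (nat_lit 12)⟩))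
(.nd (.lf ⟨(nat_lit 339), (nat_lit 2), (nat_lit 0x4c5), (nat_lit 2)⟩)
(.lf ⟨(nat_lit 0x5d42d12ca44a), (nat_lit 8), (nat_lit 0x288288), (nat_lit 4)⟩)))
(.nd (.nd (.nd (.lf ⟨(nat_lit 0x20a20a), (nat_lit 4), (nat_lit 0x288288), (nat_lit 4)⟩)
(.lf ⟨(nat_lit 522), (nat_lit 2), (nat_lit 0x5d4288), (nat_lit 4)⟩))
(.lf ⟨(nat_lit 0x144544545115115), (nat_lit 10), (nat_lit 0x144544545115115), (nat_lit 10)⟩))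
(.nd (.lf ⟨(nat_lit 0x4cf2d030b), (nat_lit 6), (nat_lit 0x142205088), (nat_lit 6)⟩)
(.lf ⟨(nat_lit 0xd40c3503), (nat_lit 6), (nat_lit 0), (nat_lit 0)⟩))))
(.nd (.nd (.nd (.nd (.lf ⟨(nat_lit 0x101101), (nat_lit 4), (nat_lit 0), (nat_lit 0)⟩)
(.lf ⟨(nat_lit 0), (nat_lit 0), (nat_lit 0xcb0cb), (nat_lit 4)⟩))
(.lf ⟨(nat_lit 664), (nat_lit 2), (nat_lit 0x60a), (nat_lit 2)⟩))
(.nd (.lf ⟨(nat_lit 0x284181284181), (nat_lit 8), (nat_lit 0x181284181284), (nat_lit 8)⟩)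
(.lf ⟨(nat_lit 0x644b), (nat_lit 3), (nat_lit 0x112d1191), (nat_lit 5)⟩)))
(.nd (.nd (.lf ⟨(nat_lit 214), (nat_lit 2), (nat_lit 0x583), (nat_lit 2)⟩)
(.lf ⟨(nat_lit 0x419), (nat_lit 2), (nat_lit 0x5994d64d0), (nat_lit 6)⟩))
(.nd (.lf ⟨(nat_lit 0x21529528854a54a), (nat_lit 10), (nat_lit 0x21529528854a54a), (nat_lit 10)⟩)
(.lf ⟨(nat_lit 535), (nat_lit 2), (nat_lit 0x5c8), (nat_lit 2)⟩)))))
(.nd (.nd (.nd (.nd (.nd (.lf ⟨(nat_lit 73), (nat_lit 2), (nat_lit 0xd241), (nat_lit 3)⟩)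
(.lf ⟨(nat_lit 0x96d7257), (nat_lit 5), (nat_lit 0x1b69725a5c9), (nat_lit 7)⟩))
(.lf ⟨(nat_lit 595), (nat_lit 2), (nat_lit 0x4cd3cd3c9), (nat_lit 6)⟩))
(.nd (.lf ⟨(nat_lit 0x442442), (nat_lit 4), (nat_lit 0), (nat_lit 0)⟩)
(.lf ⟨(nat_lit 0x585591096442156442591096156442591085591096442), (nat_lit 30), (nat_lit 0x585591096442156442591096156442591085591096442), (nat_lit 30)⟩)))
(.nd (.nd (.lf ⟨(nat_lit 0x405405), (nat_lit 4), (nat_lit 0x150150), (nat_lit 4)⟩)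
(.lf ⟨(nat_lit 0xf359), (nat_lit 3), (nat_lit 0xd64d3cd), (nat_lit 5)⟩))
(.nd (.lf ⟨(nat_lit 0x720a1c8), (nat_lit 5), (nat_lit 0xa20a1c8287), (nat_lit 7)⟩)
(.lf ⟨(nat_lit 0x51b), (nat_lit 2), (nat_lit 0x6d4), (nat_lit 2)⟩))))
(.nd (.nd (.nd (.nd (.lf ⟨(nat_lit 0x3c13c1), (nat_lit 4), (nat_lit 0x4f04f), (nat_lit 4)⟩)
(.lf ⟨(nat_lit 0x56c3), (nat_lit 3), (nat_lit 0xd40e40e25b0c5), (nat_lit 9)⟩))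
(.lf ⟨(nat_lit 0x586586), (nat_lit 4), (nat_lit 0), (nat_lit 0)⟩))
(.nd (.lf ⟨(nat_lit 0x34e34e34538d385), (nat_lit 10), (nat_lit 0x14614e34e18514614e34e185), (nat_lit 16)⟩)
(.lf ⟨(nat_lit 405), (nat_lit 2), (nat_lit 0x1334940f2cc2c82554d050f44c2d130b29128d44a3512ca4594ce6523933933943994d238b28d289308246), (nat_lit 57)⟩)))
(.nd (.nd (.lf ⟨(nat_lit 0x11350f), (nat_lit 4), (nat_lit 0x144d44cf113), (nat_lit 7)⟩)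
(.lf ⟨(nat_lit 532), (nat_lit 2), (nat_lit 0x41445050f4505103d141140c2d13d13cc2d130b44c2c8), (nat_lit 30)⟩))
(.nd (.lf ⟨(nat_lit 0xa58e296), (nat_lit 5), (nat_lit 0x1638a58a), (nat_lit 5)⟩)
(.lf ⟨(nat_lit 27), (nat_lit 1), (nat_lit 0x646443646443), (nat_lit 8)⟩))))))
(.nd (.nd (.nd (.nd (.nd (.nd (.lf ⟨(nat_lit 0x84084), (nat_lit 4), (nat_lit 0x102102), (nat_lit 4)⟩)
(.lf ⟨(nat_lit 0x495), (nat_lit 2), (nat_lit 0x552), (nat_lit 2)⟩))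
(.lf ⟨(nat_lit 0x548395388548395388), (nat_lit 12), (nat_lit 0), (nat_lit 0)⟩))
(.nd (.lf ⟨(nat_lit 266), (nat_lit 2), (nat_lit 644), (nat_lit 2)⟩)
(.lf ⟨(nat_lit 0), (nat_lit 0), (nat_lit 0x2c404b101), (nat_lit 6)⟩)))
(.nd (.nd (.nd (.lf ⟨(nat_lit 0x96096), (nat_lit 4), (nat_lit 0x582582), (nat_lit 4)⟩)
(.lf ⟨(nat_lit 457), (nat_lit 2), (nat_lit 0x1a615247), (nat_lit 5)⟩))
(.lf ⟨(nat_lit 272), (nat_lit 2), (nat_lit 0x17404), (nat_lit 3)⟩))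
(.nd (.lf ⟨(nat_lit 0x1125d228249748a08449748a0925d2282), (nat_lit 22), (nat_lit 0x1125d228249748a08449748a0925d2282), (nat_lit 22)⟩)
(.lf ⟨(nat_lit 0x4566d7), (nat_lit 4), (nat_lit 0x59b5d6456), (nat_lit 6)⟩))))
(.nd (.nd (.nd (.nd (.lf ⟨(nat_lit 0x189189), (nat_lit 4), (nat_lit 0x246246), (nat_lit 4)⟩)
(.lf ⟨(nat_lit 0x160db44e44e), (nat_lit 7), (nat_lit 0x1b44e44e583), (nat_lit 7)⟩))
(.lf ⟨(nat_lit 787), (nat_lit 2), (nat_lit 0x55354c), (nat_lit 4)⟩))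
(.nd (.lf ⟨(nat_lit 0x2153133cb40c2c8), (nat_lit 10), (nat_lit 0x148148), (nat_lit 4)⟩)
(.lf ⟨(nat_lit 0x54a115284), (nat_lit 6), (nat_lit 0x54a115284), (nat_lit 6)⟩)))
(.nd (.nd (.lf ⟨(nat_lit 272), (nat_lit 2), (nat_lit 0xc5d1411304), (nat_lit 7)⟩)
(.lf ⟨(nat_lit 0xb354), (nat_lit 3), (nat_lit 0x1935464d2cd), (nat_lit 7)⟩))
(.nd (.lf ⟨(nat_lit 0x5c16d721721b), (nat_lit 8), (nat_lit 0x6d721721b5c1), (nat_lit 8)⟩)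
(.lf ⟨(nat_lit 0x38c38c38c38c), (nat_lit 8), (nat_lit 0x20e30e30838c38c), (nat_lit 10)⟩)))))
(.nd (.nd (.nd (.nd (.nd (.lf ⟨(nat_lit 65), (nat_lit 2), (nat_lit 0), (nat_lit 0)⟩)
(.lf ⟨(nat_lit 0x3496d13496d1), (nat_lit 8), (nat_lit 0x6d13496d1349), (nat_lit 8)⟩))
(.lf ⟨(nat_lit 0x9b5c86d72026d721b5c8), (nat_lit 14), (nat_lit 0x9b5c86d72026d721b5c8), (nat_lit 14)⟩))
(.nd (.lf ⟨(nat_lit 0x545545), (nat_lit 4), (nat_lit 0), (nat_lit 0)⟩)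
(.lf ⟨(nat_lit 0x30b30b), (nat_lit 4), (nat_lit 0x3cb20f2c8), (nat_lit 6)⟩)))
(.nd (.nd (.lf ⟨(nat_lit 0x30a30a), (nat_lit 4), (nat_lit 0x28c28c), (nat_lit 4)⟩)
(.lf ⟨(nat_lit 281), (nat_lit 2), (nat_lit 0x143cb24764d2cd1d934b34764d2cd50f1c9644), (nat_lit 25)⟩))
(.nd (.lf ⟨(nat_lit 0x15405), (nat_lit 3), (nat_lit 0x30204c081), (nat_lit 6)⟩)
(.lf ⟨(nat_lit 0xa34f), (nat_lit 3), (nat_lit 0xf28d), (nat_lit 3)⟩))))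
(.nd (.nd (.nd (.nd (.lf ⟨(nat_lit 276), (nat_lit 2), (nat_lit 0x3d43d43d43c4), (nat_lit 8)⟩)
(.lf ⟨(nat_lit 270), (nat_lit 2), (nat_lit 0x5d444e291284), (nat_lit 8)⟩))
(.lf ⟨(nat_lit 0x40d24640d409190), (nat_lit 10), (nat_lit 0x150250190246405409406409190), (nat_lit 18)⟩))
(.nd (.lf ⟨(nat_lit 0x40a40a), (nat_lit 4), (nat_lit 0x40a40a), (nat_lit 4)⟩)
(.lf ⟨(nat_lit 0x1443), (nat_lit 3), (nat_lit 0x19b5d10c1), (nat_lit 6)⟩)))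
(.nd (.nd (.lf ⟨(nat_lit 326), (nat_lit 2), (nat_lit 0xd185), (nat_lit 3)⟩)
(.lf ⟨(nat_lit 0x646646), (nat_lit 4), (nat_lit 0), (nat_lit 0)⟩))
(.nd (.lf ⟨(nat_lit 11), (nat_lit 1), (nat_lit 0x106106), (nat_lit 4)⟩)
(.lf ⟨(nat_lit 0x34a34a), (nat_lit 4), (nat_lit 0x8e08e), (nat_lit 4)⟩)))))))
(.nd (.nd (.nd (.nd (.nd (.nd (.nd (.lf ⟨(nat_lit 18), (nat_lit 1), (nat_lit 0x4e04e), (nat_lit 4)⟩)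
(.lf ⟨(nat_lit 0x38a40e290), (nat_lit 6), (nat_lit 0x39a29039a290), (nat_lit 8)⟩))
(.lf ⟨(nat_lit 0), (nat_lit 0), (nat_lit 0x4b0412c1), (nat_lit 6)⟩))
(.nd (.lf ⟨(nat_lit 0x1832860ca), (nat_lit 6), (nat_lit 0x2860ca183), (nat_lit 6)⟩)
(.lf ⟨(nat_lit 0x34b34b), (nat_lit 4), (nat_lit 0xd83d80d83d8), (nat_lit 8)⟩)))
(.nd (.nd (.nd (.lf ⟨(nat_lit 0x555), (nat_lit 2), (nat_lit 0), (nat_lit 0)⟩)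
(.lf ⟨(nat_lit 462), (nat_lit 2), (nat_lit 0x1a387), (nat_lit 3)⟩))
(.lf ⟨(nat_lit 0x44838814838815120e20520e205), (nat_lit 18), (nat_lit 0x44838814838815120e20520e205), (nat_lit 18)⟩))
(.nd (.lf ⟨(nat_lit 0x854c), (nat_lit 3), (nat_lit 0x15308), (nat_lit 3)⟩)
(.lf ⟨(nat_lit 0x1a090290285), (nat_lit 7), (nat_lit 0x10290285682), (nat_lit 7)⟩))))
(.nd (.nd (.nd (.nd (.lf ⟨(nat_lit 650), (nat_lit 2), (nat_lit 0), (nat_lit 0)⟩)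
(.lf ⟨(nat_lit 528), (nat_lit 2), (nat_lit 0x1b450391388), (nat_lit 7)⟩))
(.lf ⟨(nat_lit 0x44c28c29130a30a), (nat_lit 10), (nat_lit 0), (nat_lit 0)⟩))
(.nd (.lf ⟨(nat_lit 0x1422c11422c1), (nat_lit 8), (nat_lit 0x2c11422c1142), (nat_lit 8)⟩)
(.lf ⟨(nat_lit 21), (nat_lit 1), (nat_lit 0x402402), (nat_lit 4)⟩)))
(.nd (.nd (.lf ⟨(nat_lit 262), (nat_lit 2), (nat_lit 0xb206204), (nat_lit 5)⟩)
(.lf ⟨(nat_lit 0xa40c290), (nat_lit 5), (nat_lit 0x1029030a), (nat_lit 5)⟩))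
(.nd (.lf ⟨(nat_lit 0x838a20e), (nat_lit 5), (nat_lit 0xe20e288), (nat_lit 5)⟩)
(.lf ⟨(nat_lit 0xa58e), (nat_lit 3), (nat_lit 0x16396296), (nat_lit 5)⟩)))))
(.nd (.nd (.nd (.nd (.nd (.lf ⟨(nat_lit 0x51051), (nat_lit 4), (nat_lit 0x441441), (nat_lit 4)⟩)
(.lf ⟨(nat_lit 0xe58d), (nat_lit 3), (nat_lit 0x1834e598), (nat_lit 5)⟩))
(.lf ⟨(nat_lit 0x2c72c7247247), (nat_lit 8), (nat_lit 0x2472472c72c7), (nat_lit 8)⟩))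
(.nd (.lf ⟨(nat_lit 0x4c53454c5345), (nat_lit 8), (nat_lit 0x3454c53454c5), (nat_lit 8)⟩)
(.lf ⟨(nat_lit 0x29531855830a54c61560c), (nat_lit 14), (nat_lit 0x29531855830a54c61560c), (nat_lit 14)⟩)))
(.nd (.nd (.lf ⟨(nat_lit 0x2c11cb047), (nat_lit 6), (nat_lit 0x1cb0472c1), (nat_lit 6)⟩)
(.lf ⟨(nat_lit 0x3d94cd), (nat_lit 4), (nat_lit 0x34f653), (nat_lit 4)⟩))
(.nd (.lf ⟨(nat_lit 0), (nat_lit 0), (nat_lit 585), (nat_lit 2)⟩)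
(.lf ⟨(nat_lit 0x41b), (nat_lit 2), (nat_lit 0x5d66d7590), (nat_lit 6)⟩))))
(.nd (.nd (.nd (.nd (.lf ⟨(nat_lit 0x402402), (nat_lit 4), (nat_lit 0x90090), (nat_lit 4)⟩)
(.lf ⟨(nat_lit 25), (nat_lit 1), (nat_lit 0x38860d38860d), (nat_lit 8)⟩))
(.lf ⟨(nat_lit 0), (nat_lit 0), (nat_lit 0x8a08a), (nat_lit 4)⟩))
(.nd (.lf ⟨(nat_lit 0x684), (nat_lit 2), (nat_lit 0x6876971d711a), (nat_lit 8)⟩)
(.lf ⟨(nat_lit 0x25a25a), (nat_lit 4), (nat_lit 0x25a25a), (nat_lit 4)⟩)))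
(.nd (.nd (.lf ⟨(nat_lit 0x4d44d4), (nat_lit 4), (nat_lit 0x513513), (nat_lit 4)⟩)
(.lf ⟨(nat_lit 0x54b54b), (nat_lit 4), (nat_lit 0), (nat_lit 0)⟩))
(.nd (.lf ⟨(nat_lit 791), (nat_lit 2), (nat_lit 0x4505d140c), (nat_lit 6)⟩)
(.lf ⟨(nat_lit 0x409409549549), (nat_lit 8), (nat_lit 0x549549409409), (nat_lit 8)⟩))))))
(.nd (.nd (.nd (.nd (.nd (.nd (.lf ⟨(nat_lit 780), (nat_lit 2), (nat_lit 0), (nat_lit 0)⟩)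
(.lf ⟨(nat_lit 0x61a), (nat_lit 2), (nat_lit 0x698), (nat_lit 2)⟩))
(.lf ⟨(nat_lit 851), (nat_lit 2), (nat_lit 0x4cd), (nat_lit 2)⟩))
(.nd (.lf ⟨(nat_lit 0x2d02d0), (nat_lit 4), (nat_lit 0x40b40b), (nat_lit 4)⟩)
(.lf ⟨(nat_lit 0x29128c), (nat_lit 4), (nat_lit 0x5d55d540c291290), (nat_lit 10)⟩)))
(.nd (.nd (.nd (.lf ⟨(nat_lit 0x3c23c2), (nat_lit 4), (nat_lit 0), (nat_lit 0)⟩)
(.lf ⟨(nat_lit 521), (nat_lit 2), (nat_lit 0x16248), (nat_lit 3)⟩))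
(.lf ⟨(nat_lit 0x2697291287697447), (nat_lit 11), (nat_lit 0x1a5ca44a1da5d11c2), (nat_lit 11)⟩))
(.nd (.lf ⟨(nat_lit 213), (nat_lit 2), (nat_lit 0x4cf30b40c2cc2554133d030b40c2c83495504cf40c2d030b2151504cf40c2d030b2095504cf40c2d030b20d2554133d030b40c2c85454133d030b40c2c834f2d540c4cb5504cf40c2d030b20d5454133d030b40c2c8143), (nat_lit 116)⟩)
(.lf ⟨(nat_lit 0x452), (nat_lit 2), (nat_lit 0x491), (nat_lit 2)⟩))))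
(.nd (.nd (.nd (.nd (.lf ⟨(nat_lit 0x304304), (nat_lit 4), (nat_lit 0x10c10c), (nat_lit 4)⟩)
(.lf ⟨(nat_lit 0x29128d), (nat_lit 4), (nat_lit 0x3513964503ce59140e44f38a44a), (nat_lit 18)⟩))
(.lf ⟨(nat_lit 0xf3d13cc2cc2d1), (nat_lit 9), (nat_lit 0xf44f30b30b44f), (nat_lit 9)⟩))
(.nd (.lf ⟨(nat_lit 0x4e08e081382382), (nat_lit 10), (nat_lit 0x4e08e081382382), (nat_lit 10)⟩)
(.lf ⟨(nat_lit 0xd0c4), (nat_lit 3), (nat_lit 0x194d22cd2ca34a204343), (nat_lit 13)⟩)))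
(.nd (.nd (.lf ⟨(nat_lit 201), (nat_lit 2), (nat_lit 0x34918d183), (nat_lit 6)⟩)
(.lf ⟨(nat_lit 281), (nat_lit 2), (nat_lit 0x50f2c91d934f2cd1d9244), (nat_lit 14)⟩))
(.nd (.lf ⟨(nat_lit 0x1174455d11445d1157445), (nat_lit 14), (nat_lit 0x1174455d11445d1157445), (nat_lit 14)⟩)
(.lf ⟨(nat_lit 0x40c29030a), (nat_lit 6), (nat_lit 0x1d01d0), (nat_lit 4)⟩)))))
(.nd (.nd (.nd (.nd (.nd (.lf ⟨(nat_lit 0x85085), (nat_lit 4), (nat_lit 0x142142), (nat_lit 4)⟩)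
(.lf ⟨(nat_lit 347), (nat_lit 2), (nat_lit 0x6d639640e405), (nat_lit 8)⟩))
(.lf ⟨(nat_lit 0x34f34f2c92cd24d3cd3cb24b349), (nat_lit 18), (nat_lit 0), (nat_lit 0)⟩))
(.nd (.lf ⟨(nat_lit 0x21540c), (nat_lit 4), (nat_lit 0x30b30f30b40c4cf2d530b213), (nat_lit 16)⟩)
(.lf ⟨(nat_lit 0x3508), (nat_lit 3), (nat_lit 0x1441445050f45051140f30b44b3080d4), (nat_lit 21)⟩)))
(.nd (.nd (.lf ⟨(nat_lit 200), (nat_lit 2), (nat_lit 515), (nat_lit 2)⟩)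
(.lf ⟨(nat_lit 666), (nat_lit 2), (nat_lit 0x68a), (nat_lit 2)⟩))
(.nd (.lf ⟨(nat_lit 0x1cf6cf0cf6cf0c73db3c33db3c3), (nat_lit 18), (nat_lit 0x1cf6cf0cf6cf0c73db3c33db3c3), (nat_lit 18)⟩)
(.lf ⟨(nat_lit 0x483483), (nat_lit 4), (nat_lit 0), (nat_lit 0)⟩))))
(.nd (.nd (.nd (.nd (.lf ⟨(nat_lit 0x61c9), (nat_lit 3), (nat_lit 0x7247187), (nat_lit 5)⟩)
(.lf ⟨(nat_lit 86), (nat_lit 2), (nat_lit 0x581), (nat_lit 2)⟩))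
(.lf ⟨(nat_lit 0xc20d211), (nat_lit 5), (nat_lit 0x11308348), (nat_lit 5)⟩))
(.nd (.lf ⟨(nat_lit 591), (nat_lit 2), (nat_lit 969), (nat_lit 2)⟩)
(.lf ⟨(nat_lit 0x258d), (nat_lit 3), (nat_lit 0xd096), (nat_lit 3)⟩)))
(.nd (.nd (.lf ⟨(nat_lit 0x10d308), (nat_lit 4), (nat_lit 0x20720734c20734720d3081c834c20710d), (nat_lit 22)⟩)
(.lf ⟨(nat_lit 0x938a), (nat_lit 3), (nat_lit 0x60e289), (nat_lit 4)⟩))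
(.nd (.lf ⟨(nat_lit 0x1d31d3), (nat_lit 4), (nat_lit 0x4c74c7), (nat_lit 4)⟩)
(.lf ⟨(nat_lit 0), (nat_lit 0), (nat_lit 0x490490), (nat_lit 4)⟩))))))))
(.nd (.nd (.nd (.nd (.nd (.nd (.nd (.nd (.lf ⟨(nat_lit 10), (nat_lit 1), (nat_lit 0x47047), (nat_lit 4)⟩)
(.lf ⟨(nat_lit 0x1634959638a58a), (nat_lit 9), (nat_lit 0x1638a58a58d256), (nat_lit 9)⟩))
(.lf ⟨(nat_lit 853), (nat_lit 2), (nat_lit 0x54d), (nat_lit 2)⟩))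
(.nd (.lf ⟨(nat_lit 0x246109184), (nat_lit 6), (nat_lit 0x109184246), (nat_lit 6)⟩)
(.lf ⟨(nat_lit 0x561c45871015871161c4), (nat_lit 14), (nat_lit 0x561c45871015871161c4), (nat_lit 14)⟩)))
(.nd (.nd (.nd (.lf ⟨(nat_lit 0x481481), (nat_lit 4), (nat_lit 0x52052), (nat_lit 4)⟩)
(.lf ⟨(nat_lit 269), (nat_lit 2), (nat_lit 0x4d22cd2c4), (nat_lit 6)⟩))
(.lf ⟨(nat_lit 0), (nat_lit 0), (nat_lit 0x1816531994c61816531994c6), (nat_lit 16)⟩))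
(.nd (.lf ⟨(nat_lit 0x84cf2d030b), (nat_lit 7), (nat_lit 0x133cb40c2c8), (nat_lit 7)⟩)
(.lf ⟨(nat_lit 0xd45905164030d4590516403), (nat_lit 16), (nat_lit 0), (nat_lit 0)⟩))))
(.nd (.nd (.nd (.nd (.lf ⟨(nat_lit 0x108108), (nat_lit 4), (nat_lit 0x204204), (nat_lit 4)⟩)
(.lf ⟨(nat_lit 0x391390), (nat_lit 4), (nat_lit 0x40e44e), (nat_lit 4)⟩))
(.lf ⟨(nat_lit 0x948a), (nat_lit 3), (nat_lit 0x612289), (nat_lit 4)⟩))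
(.nd (.lf ⟨(nat_lit 0x142444142444), (nat_lit 8), (nat_lit 0x444142444142), (nat_lit 8)⟩)
(.lf ⟨(nat_lit 0x309b35b0c2), (nat_lit 7), (nat_lit 0xdb09b0836c26c2), (nat_lit 10)⟩)))
(.nd (.nd (.lf ⟨(nat_lit 205), (nat_lit 2), (nat_lit 835), (nat_lit 2)⟩)
(.lf ⟨(nat_lit 405), (nat_lit 2), (nat_lit 0x4cd2503cb30b20955340f30b30b20d24c209206), (nat_lit 26)⟩))
(.nd (.lf ⟨(nat_lit 0), (nat_lit 0), (nat_lit 0x2110d12110d1), (nat_lit 8)⟩)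
(.lf ⟨(nat_lit 270), (nat_lit 2), (nat_lit 0x397511291284), (nat_lit 8)⟩)))))
(.nd (.nd (.nd (.nd (.nd (.lf ⟨(nat_lit 0x514), (nat_lit 2), (nat_lit 0), (nat_lit 0)⟩)
(.lf ⟨(nat_lit 667), (nat_lit 2), (nat_lit 0x6ca), (nat_lit 2)⟩))
(.lf ⟨(nat_lit 0x6531994c66531994c6), (nat_lit 12), (nat_lit 0), (nat_lit 0)⟩))
(.nd (.lf ⟨(nat_lit 0x346281346281), (nat_lit 8), (nat_lit 0x281346281346), (nat_lit 8)⟩)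
(.lf ⟨(nat_lit 0x58c58c), (nat_lit 4), (nat_lit 0x316316), (nat_lit 4)⟩)))
(.nd (.nd (.lf ⟨(nat_lit 0x446446), (nat_lit 4), (nat_lit 0x191191), (nat_lit 4)⟩)
(.lf ⟨(nat_lit 404), (nat_lit 2), (nat_lit 0x24724b24724b24724b2541c92c6), (nat_lit 18)⟩))
(.nd (.lf ⟨(nat_lit 0xe28d24a349), (nat_lit 7), (nat_lit 0xa34928d24e), (nat_lit 7)⟩)
(.lf ⟨(nat_lit 155), (nat_lit 2), (nat_lit 0x25b449442), (nat_lit 6)⟩))))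
(.nd (.nd (.nd (.nd (.lf ⟨(nat_lit 845), (nat_lit 2), (nat_lit 0), (nat_lit 0)⟩)
(.lf ⟨(nat_lit 0x15b5534503ce44e), (nat_lit 10), (nat_lit 0x6d54d140f391385), (nat_lit 10)⟩))
(.lf ⟨(nat_lit 0), (nat_lit 0), (nat_lit 0x96082582), (nat_lit 6)⟩))
(.nd (.lf ⟨(nat_lit 0), (nat_lit 0), (nat_lit 0x44044), (nat_lit 4)⟩)
(.lf ⟨(nat_lit 0x590088590216402216408590590088590216402216408590), (nat_lit 32), (nat_lit 0x590088590216402216408590590088590216402216408590), (nat_lit 32)⟩)))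
(.nd (.nd (.lf ⟨(nat_lit 133), (nat_lit 2), (nat_lit 322), (nat_lit 2)⟩)
(.lf ⟨(nat_lit 0xf48d3d2), (nat_lit 5), (nat_lit 0x1948d3d264f), (nat_lit 7)⟩))
(.nd (.lf ⟨(nat_lit 0x5cc), (nat_lit 2), (nat_lit 0x4505d1417317), (nat_lit 8)⟩)
(.lf ⟨(nat_lit 0x28d291), (nat_lit 4), (nat_lit 0x44a34a), (nat_lit 4)⟩))))))
(.nd (.nd (.nd (.nd (.nd (.nd (.lf ⟨(nat_lit 134), (nat_lit 2), (nat_lit 0x9182), (nat_lit 3)⟩)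
(.lf ⟨(nat_lit 0xe6d7394), (nat_lit 5), (nat_lit 0x1439b5ce), (nat_lit 5)⟩))
(.lf ⟨(nat_lit 334), (nat_lit 2), (nat_lit 0x28d24e28d245), (nat_lit 8)⟩))
(.nd (.lf ⟨(nat_lit 0x61b6186d8), (nat_lit 6), (nat_lit 0), (nat_lit 0)⟩)
(.lf ⟨(nat_lit 0x411), (nat_lit 2), (nat_lit 0x450), (nat_lit 2)⟩)))
(.nd (.nd (.nd (.lf ⟨(nat_lit 0x4c34c3), (nat_lit 4), (nat_lit 0xd30d3), (nat_lit 4)⟩)
(.lf ⟨(nat_lit 0x16d9), (nat_lit 3), (nat_lit 0x1b641), (nat_lit 3)⟩))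
(.lf ⟨(nat_lit 0), (nat_lit 0), (nat_lit 0x9a1da09a1da), (nat_lit 8)⟩))
(.nd (.lf ⟨(nat_lit 26), (nat_lit 1), (nat_lit 0x97097), (nat_lit 4)⟩)
(.lf ⟨(nat_lit 795), (nat_lit 2), (nat_lit 0x6d75915936d36d744c), (nat_lit 12)⟩))))
(.nd (.nd (.nd (.nd (.lf ⟨(nat_lit 0x2030880c2), (nat_lit 6), (nat_lit 0x880c2203), (nat_lit 6)⟩)
(.lf ⟨(nat_lit 0x5639640e40158e590390), (nat_lit 14), (nat_lit 0x5639640e40158e590390), (nat_lit 14)⟩))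
(.lf ⟨(nat_lit 0x1cb1c72c7), (nat_lit 6), (nat_lit 0), (nat_lit 0)⟩))
(.nd (.lf ⟨(nat_lit 328), (nat_lit 2), (nat_lit 0x2153133cb40c2c8205), (nat_lit 12)⟩)
(.lf ⟨(nat_lit 0x65348b34b28d288), (nat_lit 10), (nat_lit 0x34310d0c4), (nat_lit 6)⟩)))
(.nd (.nd (.lf ⟨(nat_lit 86), (nat_lit 2), (nat_lit 0x590190181), (nat_lit 6)⟩)
(.lf ⟨(nat_lit 404), (nat_lit 2), (nat_lit 0x506), (nat_lit 2)⟩))
(.nd (.lf ⟨(nat_lit 0x172c85c85c75c7), (nat_lit 9), (nat_lit 0x171d71d72c85c8), (nat_lit 9)⟩)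
(.lf ⟨(nat_lit 9), (nat_lit 1), (nat_lit 0x1460c5183), (nat_lit 6)⟩)))))
(.nd (.nd (.nd (.nd (.nd (.lf ⟨(nat_lit 141), (nat_lit 2), (nat_lit 834), (nat_lit 2)⟩)
(.lf ⟨(nat_lit 603), (nat_lit 2), (nat_lit 0x6175986d7589), (nat_lit 8)⟩))
(.lf ⟨(nat_lit 0x72cc), (nat_lit 3), (nat_lit 0xf44f2cc2d11cb), (nat_lit 9)⟩))
(.nd (.lf ⟨(nat_lit 0x76971da), (nat_lit 5), (nat_lit 0x1a1da5c7), (nat_lit 5)⟩)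
(.lf ⟨(nat_lit 0xb34c2cc), (nat_lit 5), (nat_lit 0xd30b34c2cd), (nat_lit 7)⟩)))
(.nd (.nd (.lf ⟨(nat_lit 0x101444051), (nat_lit 6), (nat_lit 0x444051101), (nat_lit 6)⟩)
(.lf ⟨(nat_lit 337), (nat_lit 2), (nat_lit 0x55330a40c291553405), (nat_lit 12)⟩))
(.nd (.lf ⟨(nat_lit 0x40c1d530754540540c1d5307545405), (nat_lit 20), (nat_lit 0), (nat_lit 0)⟩)
(.lf ⟨(nat_lit 155), (nat_lit 2), (nat_lit 0x4496d1242), (nat_lit 6)⟩))))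
(.nd (.nd (.nd (.nd (.lf ⟨(nat_lit 0x91304), (nat_lit 4), (nat_lit 0x311304091307), (nat_lit 8)⟩)
(.lf ⟨(nat_lit 6), (nat_lit 1), (nat_lit 0x2c10cb043), (nat_lit 6)⟩))
(.lf ⟨(nat_lit 0x2031c80c7), (nat_lit 6), (nat_lit 0x2031c80c7), (nat_lit 6)⟩))
(.nd (.lf ⟨(nat_lit 0x3cb24b), (nat_lit 4), (nat_lit 0x8b1822c6), (nat_lit 6)⟩)
(.lf ⟨(nat_lit 0x595595), (nat_lit 4), (nat_lit 0x416096090582582), (nat_lit 10)⟩)))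
(.nd (.nd (.lf ⟨(nat_lit 201), (nat_lit 2), (nat_lit 579), (nat_lit 2)⟩)
(.lf ⟨(nat_lit 408), (nat_lit 2), (nat_lit 0x606), (nat_lit 2)⟩))
(.nd (.lf ⟨(nat_lit 0x111cf30f30f30b30b), (nat_lit 11), (nat_lit 0xf30f30f30b30b447), (nat_lit 11)⟩)
(.lf ⟨(nat_lit 922), (nat_lit 2), (nat_lit 0x68e), (nat_lit 2)⟩)))))))
(.nd (.nd (.nd (.nd (.nd (.nd (.nd (.lf ⟨(nat_lit 26), (nat_lit 1), (nat_lit 0x97097), (nat_lit 4)⟩)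
(.lf ⟨(nat_lit 343), (nat_lit 2), (nat_lit 0x5c5), (nat_lit 2)⟩))
(.lf ⟨(nat_lit 0xb40c2d0), (nat_lit 5), (nat_lit 0x102d030b), (nat_lit 5)⟩))
(.nd (.lf ⟨(nat_lit 0x2031c42031c4), (nat_lit 8), (nat_lit 0x1c42031c4203), (nat_lit 8)⟩)
(.lf ⟨(nat_lit 0x44f44f), (nat_lit 4), (nat_lit 0x3143c73143c7), (nat_lit 8)⟩)))
(.nd (.nd (.nd (.lf ⟨(nat_lit 0x444444), (nat_lit 4), (nat_lit 0), (nat_lit 0)⟩)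
(.lf ⟨(nat_lit 0x206309309206309309), (nat_lit 12), (nat_lit 0x206309309206309309), (nat_lit 12)⟩))
(.lf ⟨(nat_lit 23), (nat_lit 1), (nat_lit 0x110110), (nat_lit 4)⟩))
(.nd (.lf ⟨(nat_lit 0), (nat_lit 0), (nat_lit 0x24d3cd3c934f34f), (nat_lit 10)⟩)
(.lf ⟨(nat_lit 0x619), (nat_lit 2), (nat_lit 0x658), (nat_lit 2)⟩))))
(.nd (.nd (.nd (.nd (.lf ⟨(nat_lit 80), (nat_lit 2), (nat_lit 0x310310310301), (nat_lit 8)⟩)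
(.lf ⟨(nat_lit 0x2096d54d140e44f3896d54d140e44f38825b5534503913ce25b5534503913ce), (nat_lit 42), (nat_lit 0x2096d54d140e44f3896d54d140e44f38825b5534503913ce25b5534503913ce), (nat_lit 42)⟩))
(.lf ⟨(nat_lit 783), (nat_lit 2), (nat_lit 972), (nat_lit 2)⟩))
(.nd (.lf ⟨(nat_lit 210), (nat_lit 2), (nat_lit 0x483), (nat_lit 2)⟩)
(.lf ⟨(nat_lit 0), (nat_lit 0), (nat_lit 0x98142605), (nat_lit 6)⟩)))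
(.nd (.nd (.lf ⟨(nat_lit 0x53cb308), (nat_lit 5), (nat_lit 0x1030b205), (nat_lit 5)⟩)
(.lf ⟨(nat_lit 399), (nat_lit 2), (nat_lit 0xf64d2cd2c6), (nat_lit 7)⟩))
(.nd (.lf ⟨(nat_lit 0x6d721721b), (nat_lit 6), (nat_lit 0x217217), (nat_lit 4)⟩)
(.lf ⟨(nat_lit 0x2835d444a44a0d751129128a0d75112912835d444a44a), (nat_lit 30), (nat_lit 0x2835d444a44a0d751129128a0d75112912835d444a44a), (nat_lit 30)⟩)))))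
(.nd (.nd (.nd (.nd (.nd (.lf ⟨(nat_lit 211), (nat_lit 2), (nat_lit 0x194c3), (nat_lit 3)⟩)
(.lf ⟨(nat_lit 0x25b5cd), (nat_lit 4), (nat_lit 0x6166163496d7), (nat_lit 8)⟩))
(.lf ⟨(nat_lit 139), (nat_lit 2), (nat_lit 0x2472472c72c72c92c91c61c62442442c2), (nat_lit 22)⟩))
(.nd (.lf ⟨(nat_lit 0x245245), (nat_lit 4), (nat_lit 0), (nat_lit 0)⟩)
(.lf ⟨(nat_lit 0xd9504654103654119504), (nat_lit 14), (nat_lit 0xd9504654103654119504), (nat_lit 14)⟩)))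
(.nd (.nd (.lf ⟨(nat_lit 0x289289), (nat_lit 4), (nat_lit 0x24a24a), (nat_lit 4)⟩)
(.lf ⟨(nat_lit 728), (nat_lit 2), (nat_lit 0x3d848f48b), (nat_lit 6)⟩))
(.nd (.lf ⟨(nat_lit 0x21b21b5c85c86d72172086c86d721721b5c85c8), (nat_lit 26), (nat_lit 0x21b21b5c85c86d72172086c86d721721b5c85c8), (nat_lit 26)⟩)
(.lf ⟨(nat_lit 0x96d125a), (nat_lit 5), (nat_lit 0x1b69b25b449), (nat_lit 7)⟩))))
(.nd (.nd (.nd (.nd (.lf ⟨(nat_lit 0x343343), (nat_lit 4), (nat_lit 0xcd0cd), (nat_lit 4)⟩)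
(.lf ⟨(nat_lit 662), (nat_lit 2), (nat_lit 0x58a), (nat_lit 2)⟩))
(.lf ⟨(nat_lit 0xa358), (nat_lit 3), (nat_lit 0xe34e60e34e28d), (nat_lit 9)⟩))
(.nd (.lf ⟨(nat_lit 13), (nat_lit 1), (nat_lit 0xc20c2), (nat_lit 4)⟩)
(.lf ⟨(nat_lit 0x66d7), (nat_lit 3), (nat_lit 0x510c1443), (nat_lit 6)⟩)))
(.nd (.nd (.lf ⟨(nat_lit 468), (nat_lit 2), (nat_lit 0x507), (nat_lit 2)⟩)
(.lf ⟨(nat_lit 0x285183285183), (nat_lit 8), (nat_lit 0x183285183285), (nat_lit 8)⟩))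
(.nd (.lf ⟨(nat_lit 0x28448a112), (nat_lit 6), (nat_lit 0x28448a112), (nat_lit 6)⟩)
(.lf ⟨(nat_lit 0), (nat_lit 0), (nat_lit 0x3ca3ca), (nat_lit 4)⟩))))))
(.nd (.nd (.nd (.nd (.nd (.nd (.lf ⟨(nat_lit 0x4c04c), (nat_lit 4), (nat_lit 0x301301), (nat_lit 4)⟩)
(.lf ⟨(nat_lit 0x2597), (nat_lit 3), (nat_lit 0x6d725125a55025b551409096), (nat_lit 16)⟩))
(.lf ⟨(nat_lit 17), (nat_lit 1), (nat_lit 0x2041c8107), (nat_lit 6)⟩))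
(.nd (.lf ⟨(nat_lit 0x346346), (nat_lit 4), (nat_lit 0), (nat_lit 0)⟩)
(.lf ⟨(nat_lit 590), (nat_lit 2), (nat_lit 905), (nat_lit 2)⟩)))
(.nd (.nd (.nd (.lf ⟨(nat_lit 0x504504), (nat_lit 4), (nat_lit 0x114114), (nat_lit 4)⟩)
(.lf ⟨(nat_lit 0xa04d), (nat_lit 3), (nat_lit 0xd281), (nat_lit 3)⟩))
(.lf ⟨(nat_lit 0xda0da), (nat_lit 4), (nat_lit 0x683683), (nat_lit 4)⟩))
(.nd (.lf ⟨(nat_lit 20), (nat_lit 1), (nat_lit 0x3c43c4), (nat_lit 4)⟩)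
(.lf ⟨(nat_lit 852), (nat_lit 2), (nat_lit 0x50d), (nat_lit 2)⟩))))
(.nd (.nd (.nd (.nd (.lf ⟨(nat_lit 0x206206), (nat_lit 4), (nat_lit 0x188188), (nat_lit 4)⟩)
(.lf ⟨(nat_lit 0x1821b44e44e), (nat_lit 7), (nat_lit 0x1b44e44e608), (nat_lit 7)⟩))
(.lf ⟨(nat_lit 27), (nat_lit 1), (nat_lit 0xd70d7), (nat_lit 4)⟩))
(.nd (.lf ⟨(nat_lit 0xe08e098), (nat_lit 5), (nat_lit 0x18382382), (nat_lit 5)⟩)
(.lf ⟨(nat_lit 0x48f48f), (nat_lit 4), (nat_lit 0x4873d21cf), (nat_lit 6)⟩)))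
(.nd (.nd (.lf ⟨(nat_lit 197), (nat_lit 2), (nat_lit 0x349143), (nat_lit 4)⟩)
(.lf ⟨(nat_lit 0x2cd590), (nat_lit 4), (nat_lit 0x4cd5933502cd), (nat_lit 8)⟩))
(.nd (.lf ⟨(nat_lit 0x1638a58a), (nat_lit 5), (nat_lit 0x5832960ca), (nat_lit 6)⟩)
(.lf ⟨(nat_lit 0x96612598482), (nat_lit 8), (nat_lit 0x96092096092), (nat_lit 8)⟩)))))
(.nd (.nd (.nd (.nd (.nd (.lf ⟨(nat_lit 0x201201), (nat_lit 4), (nat_lit 0x48048), (nat_lit 4)⟩)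
(.lf ⟨(nat_lit 0x10930724c1c424c1c9307), (nat_lit 14), (nat_lit 0x10930724c1c424c1c9307), (nat_lit 14)⟩))
(.lf ⟨(nat_lit 0x30629030a30629030a30c18a40c28c18a40c28c), (nat_lit 26), (nat_lit 0x30629030a30629030a30c18a40c28c18a40c28c), (nat_lit 26)⟩))
(.nd (.lf ⟨(nat_lit 0x2815c12815c1), (nat_lit 8), (nat_lit 0x5c12815c1281), (nat_lit 8)⟩)
(.lf ⟨(nat_lit 0x309308248), (nat_lit 6), (nat_lit 0x18c18c), (nat_lit 4)⟩)))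
(.nd (.nd (.lf ⟨(nat_lit 80), (nat_lit 2), (nat_lit 0x401), (nat_lit 2)⟩)
(.lf ⟨(nat_lit 0x928d), (nat_lit 3), (nat_lit 0xa34a24a), (nat_lit 5)⟩))
(.nd (.lf ⟨(nat_lit 199), (nat_lit 2), (nat_lit 0x44834c20710d103), (nat_lit 10)⟩)
(.lf ⟨(nat_lit 0x69725a5c9), (nat_lit 6), (nat_lit 0x25a5c9697), (nat_lit 6)⟩))))
(.nd (.nd (.nd (.nd (.lf ⟨(nat_lit 0x1cc1cc), (nat_lit 4), (nat_lit 0x307307), (nat_lit 4)⟩)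
(.lf ⟨(nat_lit 0x1011c31c31011c31c3), (nat_lit 12), (nat_lit 0x1011c31c31011c31c3), (nat_lit 12)⟩))
(.lf ⟨(nat_lit 283), (nat_lit 2), (nat_lit 0x6d12d12c4), (nat_lit 6)⟩))
(.nd (.lf ⟨(nat_lit 0x298298), (nat_lit 4), (nat_lit 0x29828a29828a), (nat_lit 8)⟩)
(.lf ⟨(nat_lit 0xe55340f30b30b), (nat_lit 9), (nat_lit 0x154d03cc2cc2ce), (nat_lit 9)⟩)))
(.nd (.nd (.lf ⟨(nat_lit 0x61cb), (nat_lit 3), (nat_lit 0x72c7187), (nat_lit 5)⟩)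
(.lf ⟨(nat_lit 0x4c0475870475873011d61c11d61c13011d61c11d61cc047587047587), (nat_lit 38), (nat_lit 0x4c0475870475873011d61c11d61c13011d61c11d61cc047587047587), (nat_lit 38)⟩))
(.nd (.lf ⟨(nat_lit 0x18234668668d08d19a19a34608d19a19a34234668668d), (nat_lit 30), (nat_lit 0x18234668668d08d19a19a34608d19a19a34234668668d), (nat_lit 30)⟩)
(.lf ⟨(nat_lit 0x6895c96895c9), (nat_lit 8), (nat_lit 0x5da5c969725769725a5c9), (nat_lit 14)⟩)))))))))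
(.nd (.nd (.nd (.nd (.nd (.nd (.nd (.nd (.nd (.lf ⟨(nat_lit 6), (nat_lit 1), (nat_lit 0x43043), (nat_lit 4)⟩)
(.lf ⟨(nat_lit 0x160c5), (nat_lit 3), (nat_lit 0x16349585583), (nat_lit 7)⟩))
(.lf ⟨(nat_lit 0x954d255), (nat_lit 5), (nat_lit 0xd54d255349), (nat_lit 7)⟩))
(.nd (.lf ⟨(nat_lit 0x287287), (nat_lit 4), (nat_lit 0), (nat_lit 0)⟩)
(.lf ⟨(nat_lit 0xa44e), (nat_lit 3), (nat_lit 0x1750b44e5d444b291), (nat_lit 11)⟩)))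
(.nd (.nd (.nd (.lf ⟨(nat_lit 0x440c), (nat_lit 3), (nat_lit 0x304411), (nat_lit 4)⟩)
(.lf ⟨(nat_lit 265), (nat_lit 2), (nat_lit 0x1b6585d65544903ce309304), (nat_lit 15)⟩))
(.lf ⟨(nat_lit 0x28c295), (nat_lit 4), (nat_lit 0x54a30a), (nat_lit 4)⟩))
(.nd (.lf ⟨(nat_lit 0), (nat_lit 0), (nat_lit 0x142142), (nat_lit 4)⟩)
(.lf ⟨(nat_lit 0x1035164145900c40d4590516403), (nat_lit 18), (nat_lit 0x1035164145900c40d4590516403), (nat_lit 18)⟩))))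
(.nd (.nd (.nd (.nd (.lf ⟨(nat_lit 0xc50c5), (nat_lit 4), (nat_lit 0x143143), (nat_lit 4)⟩)
(.lf ⟨(nat_lit 0xe591391), (nat_lit 5), (nat_lit 0x1139644e), (nat_lit 5)⟩))
(.lf ⟨(nat_lit 600), (nat_lit 2), (nat_lit 0x609), (nat_lit 2)⟩))
(.nd (.lf ⟨(nat_lit 0x285181285181), (nat_lit 8), (nat_lit 0x181285181285), (nat_lit 8)⟩)
(.lf ⟨(nat_lit 27), (nat_lit 1), (nat_lit 0xd73435cd), (nat_lit 6)⟩)))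
(.nd (.nd (.lf ⟨(nat_lit 69), (nat_lit 2), (nat_lit 0x14634624634918518d18918d246141), (nat_lit 20)⟩)
(.lf ⟨(nat_lit 586), (nat_lit 2), (nat_lit 0x1834e34e289), (nat_lit 7)⟩))
(.nd (.lf ⟨(nat_lit 0x54c28c29530a30a), (nat_lit 10), (nat_lit 0x54230a30a54230a30a), (nat_lit 12)⟩)
(.lf ⟨(nat_lit 522), (nat_lit 2), (nat_lit 0x5d444a448), (nat_lit 6)⟩)))))
(.nd (.nd (.nd (.nd (.nd (.lf ⟨(nat_lit 0x4f04f), (nat_lit 4), (nat_lit 0x3c13c1), (nat_lit 4)⟩)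
(.lf ⟨(nat_lit 788), (nat_lit 2), (nat_lit 0x50c), (nat_lit 2)⟩))
(.lf ⟨(nat_lit 0x645645), (nat_lit 4), (nat_lit 0x645645), (nat_lit 4)⟩))
(.nd (.lf ⟨(nat_lit 0x243243), (nat_lit 4), (nat_lit 0), (nat_lit 0)⟩)
(.lf ⟨(nat_lit 0x40b40b), (nat_lit 4), (nat_lit 0), (nat_lit 0)⟩)))
(.nd (.nd (.lf ⟨(nat_lit 0x386386), (nat_lit 4), (nat_lit 0x18e18e), (nat_lit 4)⟩)
(.lf ⟨(nat_lit 0x40d), (nat_lit 2), (nat_lit 848), (nat_lit 2)⟩))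
(.nd (.lf ⟨(nat_lit 0x28d24a349), (nat_lit 6), (nat_lit 0x28d24a349), (nat_lit 6)⟩)
(.lf ⟨(nat_lit 915), (nat_lit 2), (nat_lit 0x4ce), (nat_lit 2)⟩))))
(.nd (.nd (.nd (.nd (.lf ⟨(nat_lit 0x310310), (nat_lit 4), (nat_lit 0x40c40c), (nat_lit 4)⟩)
(.lf ⟨(nat_lit 347), (nat_lit 2), (nat_lit 0x6d0390385), (nat_lit 6)⟩))
(.lf ⟨(nat_lit 0x29229629629648a58a48a58a58a592296), (nat_lit 22), (nat_lit 0x29229629629648a58a48a58a58a592296), (nat_lit 22)⟩))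
(.nd (.lf ⟨(nat_lit 466), (nat_lit 2), (nat_lit 0x487), (nat_lit 2)⟩)
(.lf ⟨(nat_lit 0x202590096408096402590), (nat_lit 14), (nat_lit 0x202590096408096402590), (nat_lit 14)⟩)))
(.nd (.nd (.lf ⟨(nat_lit 0x10d207), (nat_lit 4), (nat_lit 0x1cc20d1cd3081c4348), (nat_lit 12)⟩)
(.lf ⟨(nat_lit 0x5d45d4), (nat_lit 4), (nat_lit 0), (nat_lit 0)⟩))
(.nd (.lf ⟨(nat_lit 0x3cb44f44b), (nat_lit 6), (nat_lit 0x912d12c244b44b), (nat_lit 10)⟩)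
(.lf ⟨(nat_lit 0x646443), (nat_lit 4), (nat_lit 0x1b443646), (nat_lit 5)⟩))))))
(.nd (.nd (.nd (.nd (.nd (.nd (.lf ⟨(nat_lit 520), (nat_lit 2), (nat_lit 0), (nat_lit 0)⟩)
(.lf ⟨(nat_lit 0x49b), (nat_lit 2), (nat_lit 0x6d2), (nat_lit 2)⟩))
(.lf ⟨(nat_lit 0x28d24e34938a), (nat_lit 8), (nat_lit 0xca34928d24328d24a349), (nat_lit 14)⟩))
(.nd (.lf ⟨(nat_lit 0x38a38a), (nat_lit 4), (nat_lit 0), (nat_lit 0)⟩)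
(.lf ⟨(nat_lit 0), (nat_lit 0), (nat_lit 0x57057), (nat_lit 4)⟩)))
(.nd (.nd (.nd (.lf ⟨(nat_lit 0x238308e), (nat_lit 5), (nat_lit 0x38308e342), (nat_lit 6)⟩)
(.lf ⟨(nat_lit 848), (nat_lit 2), (nat_lit 0x5634c2cd2c905634c2cd2c9), (nat_lit 16)⟩))
(.lf ⟨(nat_lit 0x10250256), (nat_lit 5), (nat_lit 0x10256250256256409409), (nat_lit 13)⟩))
(.nd (.lf ⟨(nat_lit 0x4971d74874971d7487), (nat_lit 12), (nat_lit 0), (nat_lit 0)⟩)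
(.lf ⟨(nat_lit 0x399393), (nat_lit 4), (nat_lit 0x4cf3993ce), (nat_lit 6)⟩))))
(.nd (.nd (.nd (.nd (.lf ⟨(nat_lit 0x20c20c), (nat_lit 4), (nat_lit 0x308308), (nat_lit 4)⟩)
(.lf ⟨(nat_lit 0x38c38c), (nat_lit 4), (nat_lit 0x6c26c2), (nat_lit 4)⟩))
(.lf ⟨(nat_lit 0xf553), (nat_lit 3), (nat_lit 0x133d5), (nat_lit 3)⟩))
(.nd (.lf ⟨(nat_lit 0), (nat_lit 0), (nat_lit 325), (nat_lit 2)⟩)
(.lf ⟨(nat_lit 0x557), (nat_lit 2), (nat_lit 0x5d5), (nat_lit 2)⟩)))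
(.nd (.nd (.lf ⟨(nat_lit 0x4d9), (nat_lit 2), (nat_lit 0x653), (nat_lit 2)⟩)
(.lf ⟨(nat_lit 0x20d216), (nat_lit 4), (nat_lit 0x34c58d308348), (nat_lit 8)⟩))
(.nd (.lf ⟨(nat_lit 0x5c15c75c7), (nat_lit 6), (nat_lit 0x5c75c75c1), (nat_lit 6)⟩)
(.lf ⟨(nat_lit 0x4db), (nat_lit 2), (nat_lit 0x65b653), (nat_lit 4)⟩)))))
(.nd (.nd (.nd (.nd (.nd (.lf ⟨(nat_lit 195), (nat_lit 2), (nat_lit 0), (nat_lit 0)⟩)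
(.lf ⟨(nat_lit 0x699699), (nat_lit 4), (nat_lit 0), (nat_lit 0)⟩))
(.lf ⟨(nat_lit 0x11b1db1c46c76c7), (nat_lit 10), (nat_lit 0x11b1db1c46c76c7), (nat_lit 10)⟩))
(.nd (.lf ⟨(nat_lit 0x5c15c1), (nat_lit 4), (nat_lit 0), (nat_lit 0)⟩)
(.lf ⟨(nat_lit 0), (nat_lit 0), (nat_lit 0x3cb3cb), (nat_lit 4)⟩)))
(.nd (.nd (.lf ⟨(nat_lit 0x30b30b), (nat_lit 4), (nat_lit 0x2cc2cc), (nat_lit 4)⟩)
(.lf ⟨(nat_lit 342), (nat_lit 2), (nat_lit 0x34958d409405), (nat_lit 8)⟩))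
(.nd (.lf ⟨(nat_lit 0x40c1d5307545405), (nat_lit 10), (nat_lit 0x3021d54075454053021d5407545405), (nat_lit 20)⟩)
(.lf ⟨(nat_lit 792), (nat_lit 2), (nat_lit 0x60c), (nat_lit 2)⟩))))
(.nd (.nd (.nd (.nd (.lf ⟨(nat_lit 0x311311), (nat_lit 4), (nat_lit 0x44c44c), (nat_lit 4)⟩)
(.lf ⟨(nat_lit 328), (nat_lit 2), (nat_lit 0x1b55340f205), (nat_lit 7)⟩))
(.lf ⟨(nat_lit 0x5409406409190), (nat_lit 9), (nat_lit 0x10349190350246410250190246405), (nat_lit 19)⟩))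
(.nd (.lf ⟨(nat_lit 0x28740a40728740a407), (nat_lit 12), (nat_lit 0), (nat_lit 0)⟩)
(.lf ⟨(nat_lit 407), (nat_lit 2), (nat_lit 0x5c6), (nat_lit 2)⟩)))
(.nd (.nd (.lf ⟨(nat_lit 88), (nat_lit 2), (nat_lit 0x485612141), (nat_lit 6)⟩)
(.lf ⟨(nat_lit 0xb34e), (nat_lit 3), (nat_lit 0x1334e64e4ce4d265348d2cd), (nat_lit 15)⟩))
(.nd (.lf ⟨(nat_lit 0x10f30f30f30b30b10f30f30f30b30b), (nat_lit 20), (nat_lit 0x10f30f30f30b30b10f30f30f30b30b), (nat_lit 20)⟩)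
(.lf ⟨(nat_lit 0x68e68e), (nat_lit 4), (nat_lit 0x39a39a), (nat_lit 4)⟩)))))))
(.nd (.nd (.nd (.nd (.nd (.nd (.nd (.lf ⟨(nat_lit 22), (nat_lit 1), (nat_lit 0xd00d0), (nat_lit 4)⟩)
(.lf ⟨(nat_lit 656), (nat_lit 2), (nat_lit 0x40a), (nat_lit 2)⟩))
(.lf ⟨(nat_lit 0), (nat_lit 0), (nat_lit 0x502d02c140b40b), (nat_lit 10)⟩))
(.nd (.lf ⟨(nat_lit 0x203142203142), (nat_lit 8), (nat_lit 0x142203142203), (nat_lit 8)⟩)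
(.lf ⟨(nat_lit 0xd83d8), (nat_lit 4), (nat_lit 0x34b34b60f603), (nat_lit 8)⟩)))
(.nd (.nd (.nd (.lf ⟨(nat_lit 0x457457), (nat_lit 4), (nat_lit 0x5d15d1), (nat_lit 4)⟩)
(.lf ⟨(nat_lit 0x6d634b34c2c9), (nat_lit 8), (nat_lit 0x206088182), (nat_lit 6)⟩))
(.lf ⟨(nat_lit 0x448391388448391388), (nat_lit 12), (nat_lit 0), (nat_lit 0)⟩))
(.nd (.lf ⟨(nat_lit 13), (nat_lit 1), (nat_lit 0x241241), (nat_lit 4)⟩)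
(.lf ⟨(nat_lit 0), (nat_lit 0), (nat_lit 0x4990d2643), (nat_lit 6)⟩))))
(.nd (.nd (.nd (.nd (.lf ⟨(nat_lit 0x2c12c1), (nat_lit 4), (nat_lit 0x4b04b), (nat_lit 4)⟩)
(.lf ⟨(nat_lit 278), (nat_lit 2), (nat_lit 0x591391384), (nat_lit 6)⟩))
(.lf ⟨(nat_lit 0x30b30b), (nat_lit 4), (nat_lit 0x20f20f), (nat_lit 4)⟩))
(.nd (.lf ⟨(nat_lit 0x29828a60a), (nat_lit 6), (nat_lit 0), (nat_lit 0)⟩)
(.lf ⟨(nat_lit 532), (nat_lit 2), (nat_lit 0x51051140f45051140f2d12c8), (nat_lit 16)⟩)))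
(.nd (.nd (.lf ⟨(nat_lit 654), (nat_lit 2), (nat_lit 906), (nat_lit 2)⟩)
(.lf ⟨(nat_lit 0x3d23d2), (nat_lit 4), (nat_lit 0x48f48f), (nat_lit 4)⟩))
(.nd (.lf ⟨(nat_lit 17), (nat_lit 1), (nat_lit 0x207207), (nat_lit 4)⟩)
(.lf ⟨(nat_lit 0x648648), (nat_lit 4), (nat_lit 0), (nat_lit 0)⟩)))))
(.nd (.nd (.nd (.nd (.nd (.lf ⟨(nat_lit 0x618), (nat_lit 2), (nat_lit 0), (nat_lit 0)⟩)
(.lf ⟨(nat_lit 0x49a), (nat_lit 2), (nat_lit 0x692), (nat_lit 2)⟩))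
(.lf ⟨(nat_lit 0xb247247), (nat_lit 5), (nat_lit 0x91c91cb), (nat_lit 5)⟩))
(.nd (.lf ⟨(nat_lit 0xb60f2d8), (nat_lit 5), (nat_lit 0xf60f2d83cb), (nat_lit 7)⟩)
(.lf ⟨(nat_lit 0x54c61560c54c61560c), (nat_lit 12), (nat_lit 0), (nat_lit 0)⟩)))
(.nd (.nd (.lf ⟨(nat_lit 0x348348), (nat_lit 4), (nat_lit 0x20d20d), (nat_lit 4)⟩)
(.lf ⟨(nat_lit 973), (nat_lit 2), (nat_lit 847), (nat_lit 2)⟩))
(.nd (.lf ⟨(nat_lit 0x256256), (nat_lit 4), (nat_lit 0x589589), (nat_lit 4)⟩)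
(.lf ⟨(nat_lit 730), (nat_lit 2), (nat_lit 0x69441440b), (nat_lit 6)⟩))))
(.nd (.nd (.nd (.nd (.lf ⟨(nat_lit 0x3c33c3), (nat_lit 4), (nat_lit 0xcf0cf), (nat_lit 4)⟩)
(.lf ⟨(nat_lit 0), (nat_lit 0), (nat_lit 0x99099), (nat_lit 4)⟩))
(.lf ⟨(nat_lit 0xa34e34e), (nat_lit 5), (nat_lit 0xd38d38a), (nat_lit 5)⟩))
(.nd (.lf ⟨(nat_lit 0x306306), (nat_lit 4), (nat_lit 0x18c18c), (nat_lit 4)⟩)
(.lf ⟨(nat_lit 0x25a25a), (nat_lit 4), (nat_lit 0x689689), (nat_lit 4)⟩)))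
(.nd (.nd (.lf ⟨(nat_lit 341), (nat_lit 2), (nat_lit 0x545), (nat_lit 2)⟩)
(.lf ⟨(nat_lit 0x2cc2d1), (nat_lit 4), (nat_lit 0x3d14142d14143d14143d141444f30b), (nat_lit 20)⟩))
(.nd (.lf ⟨(nat_lit 471), (nat_lit 2), (nat_lit 0x5d1291287), (nat_lit 6)⟩)
(.lf ⟨(nat_lit 0x3ca3ca), (nat_lit 4), (nat_lit 0), (nat_lit 0)⟩))))))
(.nd (.nd (.nd (.nd (.nd (.nd (.lf ⟨(nat_lit 202), (nat_lit 2), (nat_lit 0xe283), (nat_lit 3)⟩)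
(.lf ⟨(nat_lit 0xe44e6d7), (nat_lit 5), (nat_lit 0x1b5ce44e), (nat_lit 5)⟩))
(.lf ⟨(nat_lit 0x28610d2cd184), (nat_lit 8), (nat_lit 0x18434b34610a), (nat_lit 8)⟩))
(.nd (.lf ⟨(nat_lit 0x697697), (nat_lit 4), (nat_lit 0), (nat_lit 0)⟩)
(.lf ⟨(nat_lit 0x389389), (nat_lit 4), (nat_lit 0x389389), (nat_lit 4)⟩)))
(.nd (.nd (.nd (.lf ⟨(nat_lit 0x484484), (nat_lit 4), (nat_lit 0x112112), (nat_lit 4)⟩)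
(.lf ⟨(nat_lit 461), (nat_lit 2), (nat_lit 0x18347), (nat_lit 3)⟩))
(.lf ⟨(nat_lit 0x683683), (nat_lit 4), (nat_lit 0x683683), (nat_lit 4)⟩))
(.nd (.lf ⟨(nat_lit 0), (nat_lit 0), (nat_lit 0x583583), (nat_lit 4)⟩)
(.lf ⟨(nat_lit 0x559), (nat_lit 2), (nat_lit 0x655), (nat_lit 2)⟩))))
(.nd (.nd (.nd (.nd (.lf ⟨(nat_lit 0x205205), (nat_lit 4), (nat_lit 0x148148), (nat_lit 4)⟩)
(.lf ⟨(nat_lit 0), (nat_lit 0), (nat_lit 0x3cb34a34a3cb34a34a), (nat_lit 12)⟩))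
(.lf ⟨(nat_lit 976), (nat_lit 2), (nat_lit 0x40f), (nat_lit 2)⟩))
(.nd (.lf ⟨(nat_lit 0x485612158485612158), (nat_lit 12), (nat_lit 0), (nat_lit 0)⟩)
(.lf ⟨(nat_lit 0x48734b3521cd2cd), (nat_lit 10), (nat_lit 0x48734b3521cd2cd), (nat_lit 10)⟩)))
(.nd (.nd (.lf ⟨(nat_lit 0x66d7197), (nat_lit 5), (nat_lit 0x1719b5c6), (nat_lit 5)⟩)
(.lf ⟨(nat_lit 0x517), (nat_lit 2), (nat_lit 0x5d4), (nat_lit 2)⟩))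
(.nd (.lf ⟨(nat_lit 0x44a44a44a44a), (nat_lit 8), (nat_lit 0x15129128544a44a), (nat_lit 10)⟩)
(.lf ⟨(nat_lit 0), (nat_lit 0), (nat_lit 0x2113d13c844f44f), (nat_lit 10)⟩)))))
(.nd (.nd (.nd (.nd (.nd (.lf ⟨(nat_lit 455), (nat_lit 2), (nat_lit 0), (nat_lit 0)⟩)
(.lf ⟨(nat_lit 603), (nat_lit 2), (nat_lit 0x6c9), (nat_lit 2)⟩))
(.lf ⟨(nat_lit 0x281306306281306306), (nat_lit 12), (nat_lit 0x281306306281306306), (nat_lit 12)⟩))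
(.nd (.lf ⟨(nat_lit 0x14b1852c6), (nat_lit 6), (nat_lit 0x2c614b185), (nat_lit 6)⟩)
(.lf ⟨(nat_lit 532), (nat_lit 2), (nat_lit 0x41445050f45051140f30b44b308), (nat_lit 18)⟩)))
(.nd (.nd (.lf ⟨(nat_lit 137), (nat_lit 2), (nat_lit 578), (nat_lit 2)⟩)
(.lf ⟨(nat_lit 530), (nat_lit 2), (nat_lit 0x488), (nat_lit 2)⟩))
(.nd (.lf ⟨(nat_lit 0xcf6cf20734c20710d10f6cf20734c20710d1033db3c81cd3081c43443db3c81cd3081c4344), (nat_lit 50), (nat_lit 0xcf6cf20734c20710d10f6cf20734c20710d1033db3c81cd3081c43443db3c81cd3081c4344), (nat_lit 50)⟩)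
(.lf ⟨(nat_lit 0x5ce5c60d7397183), (nat_lit 10), (nat_lit 0x1835ce5c60d7397), (nat_lit 10)⟩))))
(.nd (.nd (.nd (.nd (.lf ⟨(nat_lit 0x1c91c9), (nat_lit 4), (nat_lit 0x247247), (nat_lit 4)⟩)
(.lf ⟨(nat_lit 0x34c34c), (nat_lit 4), (nat_lit 0), (nat_lit 0)⟩))
(.lf ⟨(nat_lit 0x8351), (nat_lit 3), (nat_lit 0x1120d), (nat_lit 3)⟩))
(.nd (.lf ⟨(nat_lit 399), (nat_lit 2), (nat_lit 0x3cb24b246), (nat_lit 6)⟩)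
(.lf ⟨(nat_lit 526), (nat_lit 2), (nat_lit 904), (nat_lit 2)⟩)))
(.nd (.nd (.lf ⟨(nat_lit 331), (nat_lit 2), (nat_lit 0x132c5), (nat_lit 3)⟩)
(.lf ⟨(nat_lit 0x30758c587), (nat_lit 6), (nat_lit 0x307587307587), (nat_lit 8)⟩))
(.nd (.lf ⟨(nat_lit 9), (nat_lit 1), (nat_lit 0x86086), (nat_lit 4)⟩)
(.lf ⟨(nat_lit 0), (nat_lit 0), (nat_lit 0x197197), (nat_lit 4)⟩))))))))
(.nd (.nd (.nd (.nd (.nd (.nd (.nd (.nd (.lf ⟨(nat_lit 15), (nat_lit 1), (nat_lit 0x8b08b), (nat_lit 4)⟩)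
(.lf ⟨(nat_lit 0x38c1ce307), (nat_lit 6), (nat_lit 0x38c1ce307), (nat_lit 6)⟩))
(.lf ⟨(nat_lit 0x255255), (nat_lit 4), (nat_lit 0x549549), (nat_lit 4)⟩))
(.nd (.lf ⟨(nat_lit 0x2c114b045), (nat_lit 6), (nat_lit 0x14b0452c1), (nat_lit 6)⟩)
(.lf ⟨(nat_lit 0x1c458a58a1c458a58a), (nat_lit 12), (nat_lit 0x1c458a58a1c458a58a), (nat_lit 12)⟩)))
(.nd (.nd (.nd (.lf ⟨(nat_lit 0x3d33d3), (nat_lit 4), (nat_lit 0x4cf4cf), (nat_lit 4)⟩)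
(.lf ⟨(nat_lit 23), (nat_lit 1), (nat_lit 0x10f3843ce), (nat_lit 6)⟩))
(.lf ⟨(nat_lit 0x448391388), (nat_lit 6), (nat_lit 0x448388448388), (nat_lit 8)⟩))
(.nd (.lf ⟨(nat_lit 0xb30f), (nat_lit 3), (nat_lit 0xc3cc2cc), (nat_lit 5)⟩)
(.lf ⟨(nat_lit 0), (nat_lit 0), (nat_lit 0x52052), (nat_lit 4)⟩))))
(.nd (.nd (.nd (.nd (.lf ⟨(nat_lit 0x106106), (nat_lit 4), (nat_lit 0x184184), (nat_lit 4)⟩)
(.lf ⟨(nat_lit 0), (nat_lit 0), (nat_lit 0x10d2cd2c434b34b), (nat_lit 10)⟩))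
(.lf ⟨(nat_lit 0x28444c49745031228444c497450312), (nat_lit 20), (nat_lit 0x28444c49745031228444c497450312), (nat_lit 20)⟩))
(.nd (.lf ⟨(nat_lit 0x2cc2d0), (nat_lit 4), (nat_lit 0x40b30b), (nat_lit 4)⟩)
(.lf ⟨(nat_lit 0x1735b), (nat_lit 3), (nat_lit 0x1b5cd), (nat_lit 3)⟩)))
(.nd (.nd (.lf ⟨(nat_lit 523), (nat_lit 2), (nat_lit 712), (nat_lit 2)⟩)
(.lf ⟨(nat_lit 794), (nat_lit 2), (nat_lit 0x68c), (nat_lit 2)⟩))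
(.nd (.lf ⟨(nat_lit 0x21138a20e29128828844e28838a44a20a), (nat_lit 22), (nat_lit 0x21138a20e29128828844e28838a44a20a), (nat_lit 22)⟩)
(.lf ⟨(nat_lit 532), (nat_lit 2), (nat_lit 0x508), (nat_lit 2)⟩)))))
(.nd (.nd (.nd (.nd (.nd (.lf ⟨(nat_lit 144), (nat_lit 2), (nat_lit 0x15402), (nat_lit 3)⟩)
(.lf ⟨(nat_lit 410), (nat_lit 2), (nat_lit 0x6da5c96d7246), (nat_lit 8)⟩))
(.lf ⟨(nat_lit 0x2c72c7), (nat_lit 4), (nat_lit 0x1071871841c61c6), (nat_lit 10)⟩))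
(.nd (.lf ⟨(nat_lit 0x28d28d), (nat_lit 4), (nat_lit 0x34a34a), (nat_lit 4)⟩)
(.lf ⟨(nat_lit 790), (nat_lit 2), (nat_lit 0x58c), (nat_lit 2)⟩)))
(.nd (.nd (.lf ⟨(nat_lit 0x3c73c7), (nat_lit 4), (nat_lit 0x1cf1cf), (nat_lit 4)⟩)
(.lf ⟨(nat_lit 729), (nat_lit 2), (nat_lit 0x3cd3d934b), (nat_lit 6)⟩))
(.nd (.lf ⟨(nat_lit 0), (nat_lit 0), (nat_lit 0xc90c9), (nat_lit 4)⟩)
(.lf ⟨(nat_lit 0x96d125b), (nat_lit 5), (nat_lit 0x1b25b449), (nat_lit 5)⟩))))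
(.nd (.nd (.nd (.nd (.lf ⟨(nat_lit 0x382382), (nat_lit 4), (nat_lit 0x8e08e), (nat_lit 4)⟩)
(.lf ⟨(nat_lit 155), (nat_lit 2), (nat_lit 0x6d5395382), (nat_lit 6)⟩))
(.lf ⟨(nat_lit 0x513513), (nat_lit 4), (nat_lit 0x54054), (nat_lit 4)⟩))
(.nd (.lf ⟨(nat_lit 0x6816876971d705a1da5c75da05a1da5c75c16876971d7), (nat_lit 30), (nat_lit 0x6816876971d705a1da5c75da05a1da5c75c16876971d7), (nat_lit 30)⟩)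
(.lf ⟨(nat_lit 712), (nat_lit 2), (nat_lit 0x1060c4183), (nat_lit 6)⟩)))
(.nd (.nd (.lf ⟨(nat_lit 465), (nat_lit 2), (nat_lit 0x447), (nat_lit 2)⟩)
(.lf ⟨(nat_lit 0x69968a1da65a287), (nat_lit 10), (nat_lit 0x28769968a1da65a), (nat_lit 10)⟩))
(.nd (.lf ⟨(nat_lit 0x244b44b), (nat_lit 5), (nat_lit 0xf2d13d12d12d12c2), (nat_lit 11)⟩)
(.lf ⟨(nat_lit 0), (nat_lit 0), (nat_lit 0x90250242409409), (nat_lit 10)⟩))))))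
(.nd (.nd (.nd (.nd (.nd (.nd (.lf ⟨(nat_lit 0x48048), (nat_lit 4), (nat_lit 0x201201), (nat_lit 4)⟩)
(.lf ⟨(nat_lit 218), (nat_lit 2), (nat_lit 0x68e30e303), (nat_lit 6)⟩))
(.lf ⟨(nat_lit 0x14d10d105344344), (nat_lit 10), (nat_lit 0x14d10d105344344), (nat_lit 10)⟩))
(.nd (.lf ⟨(nat_lit 0x3c23423c2342), (nat_lit 8), (nat_lit 0x3423c23423c2), (nat_lit 8)⟩)
(.lf ⟨(nat_lit 278), (nat_lit 2), (nat_lit 0x1b5d12d12c859744c2d130b204), (nat_lit 17)⟩)))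
(.nd (.nd (.nd (.lf ⟨(nat_lit 0x583583), (nat_lit 4), (nat_lit 0xd60d6), (nat_lit 4)⟩)
(.lf ⟨(nat_lit 587), (nat_lit 2), (nat_lit 0x192c9), (nat_lit 3)⟩))
(.lf ⟨(nat_lit 0x697291287697447), (nat_lit 10), (nat_lit 0x9a1da5d168769744268769745a1da5d1), (nat_lit 22)⟩))
(.nd (.lf ⟨(nat_lit 0x5c76876975c7687697), (nat_lit 12), (nat_lit 0), (nat_lit 0)⟩)
(.lf ⟨(nat_lit 0xb44e), (nat_lit 3), (nat_lit 0x1139444e6d739444e6d73912d1), (nat_lit 17)⟩))))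
(.nd (.nd (.nd (.nd (.lf ⟨(nat_lit 0x2c32c3), (nat_lit 4), (nat_lit 0xcb0cb), (nat_lit 4)⟩)
(.lf ⟨(nat_lit 662), (nat_lit 2), (nat_lit 0x49039649038a), (nat_lit 8)⟩))
(.lf ⟨(nat_lit 0x3d13cc2cc2d1), (nat_lit 8), (nat_lit 0x1cb1cc1cb1cc), (nat_lit 8)⟩))
(.nd (.lf ⟨(nat_lit 5), (nat_lit 1), (nat_lit 0x42042), (nat_lit 4)⟩)
(.lf ⟨(nat_lit 0x10d0ce28838a20d0ce28838a20434338a20e28834338a20e288), (nat_lit 34), (nat_lit 0x10d0ce28838a20d0ce28838a20434338a20e28834338a20e288), (nat_lit 34)⟩)))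
(.nd (.nd (.lf ⟨(nat_lit 89), (nat_lit 2), (nat_lit 0x1994c64c1), (nat_lit 6)⟩)
(.lf ⟨(nat_lit 532), (nat_lit 2), (nat_lit 0x5d051745050f4505103d141140c2d13d13cc2d130b44c2c8), (nat_lit 32)⟩))
(.nd (.lf ⟨(nat_lit 17), (nat_lit 1), (nat_lit 0x1c81c8), (nat_lit 4)⟩)
(.lf ⟨(nat_lit 0x11540f30b30b11540f30b30b), (nat_lit 16), (nat_lit 0x11540f30b30b11540f30b30b), (nat_lit 16)⟩)))))
(.nd (.nd (.nd (.nd (.nd (.lf ⟨(nat_lit 0x103103), (nat_lit 4), (nat_lit 0xc40c4), (nat_lit 4)⟩)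
(.lf ⟨(nat_lit 599), (nat_lit 2), (nat_lit 0x5d639640e409), (nat_lit 8)⟩))
(.lf ⟨(nat_lit 0xd3cd3cb24b349), (nat_lit 9), (nat_lit 0x3c518f146), (nat_lit 6)⟩))
(.nd (.lf ⟨(nat_lit 0x2c15422c1542), (nat_lit 8), (nat_lit 0x5422c15422c1), (nat_lit 8)⟩)
(.lf ⟨(nat_lit 0x44c2d12cc), (nat_lit 6), (nat_lit 0x10c2cc2c430b30b), (nat_lit 10)⟩)))
(.nd (.nd (.lf ⟨(nat_lit 131), (nat_lit 2), (nat_lit 0x3342), (nat_lit 3)⟩)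
(.lf ⟨(nat_lit 731), (nat_lit 2), (nat_lit 0x6cb), (nat_lit 2)⟩))
(.nd (.lf ⟨(nat_lit 0x3db3cf6cf), (nat_lit 6), (nat_lit 0), (nat_lit 0)⟩)
(.lf ⟨(nat_lit 0x5d05d0), (nat_lit 4), (nat_lit 0), (nat_lit 0)⟩))))
(.nd (.nd (.nd (.nd (.lf ⟨(nat_lit 0x18b18b), (nat_lit 4), (nat_lit 0x2c62c6), (nat_lit 4)⟩)
(.lf ⟨(nat_lit 0), (nat_lit 0), (nat_lit 0x592592), (nat_lit 4)⟩))
(.lf ⟨(nat_lit 0xd20d211), (nat_lit 5), (nat_lit 0x11348348), (nat_lit 5)⟩))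
(.nd (.lf ⟨(nat_lit 0x4cb24f25324f24b), (nat_lit 10), (nat_lit 0x933cb2533c92c24cf2c94cf24b), (nat_lit 18)⟩)
(.lf ⟨(nat_lit 3), (nat_lit 1), (nat_lit 0xc258d583083), (nat_lit 8)⟩)))
(.nd (.nd (.lf ⟨(nat_lit 0x204088102), (nat_lit 6), (nat_lit 0x88102204), (nat_lit 6)⟩)
(.lf ⟨(nat_lit 0x499), (nat_lit 2), (nat_lit 0x652), (nat_lit 2)⟩))
(.nd (.lf ⟨(nat_lit 0x4c74c7), (nat_lit 4), (nat_lit 0x4c74c7), (nat_lit 4)⟩)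
(.lf ⟨(nat_lit 25), (nat_lit 1), (nat_lit 0x303303), (nat_lit 4)⟩)))))))
(.nd (.nd (.nd (.nd (.nd (.nd (.nd (.lf ⟨(nat_lit 66), (nat_lit 2), (nat_lit 0x5081), (nat_lit 3)⟩)
(.lf ⟨(nat_lit 0x414), (nat_lit 2), (nat_lit 0x510), (nat_lit 2)⟩))
(.lf ⟨(nat_lit 0xd520e54e203548395388), (nat_lit 14), (nat_lit 0xd520e54e203548395388), (nat_lit 14)⟩))
(.nd (.lf ⟨(nat_lit 199), (nat_lit 2), (nat_lit 0x720734c20710d103), (nat_lit 11)⟩)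
(.lf ⟨(nat_lit 0x2c408c2d130b08c2d130b2c408c2d130b08c2d130b), (nat_lit 28), (nat_lit 0x2c408c2d130b08c2d130b2c408c2d130b08c2d130b), (nat_lit 28)⟩)))
(.nd (.nd (.nd (.lf ⟨(nat_lit 152), (nat_lit 2), (nat_lit 0x498498498482), (nat_lit 8)⟩)
(.lf ⟨(nat_lit 150), (nat_lit 2), (nat_lit 0x582), (nat_lit 2)⟩))
(.lf ⟨(nat_lit 0x417), (nat_lit 2), (nat_lit 0x5d0), (nat_lit 2)⟩))
(.nd (.lf ⟨(nat_lit 0x1125d21125d2), (nat_lit 8), (nat_lit 0x1125d21125d2), (nat_lit 8)⟩)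
(.lf ⟨(nat_lit 0x166d7597), (nat_lit 5), (nat_lit 0x1759b5d6), (nat_lit 5)⟩))))
(.nd (.nd (.nd (.nd (.lf ⟨(nat_lit 0x203203), (nat_lit 4), (nat_lit 0), (nat_lit 0)⟩)
(.lf ⟨(nat_lit 0x583550583550), (nat_lit 8), (nat_lit 0x583550583550), (nat_lit 8)⟩))
(.lf ⟨(nat_lit 725), (nat_lit 2), (nat_lit 0x54b), (nat_lit 2)⟩))
(.nd (.lf ⟨(nat_lit 0x252252), (nat_lit 4), (nat_lit 0x489489), (nat_lit 4)⟩)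
(.lf ⟨(nat_lit 0), (nat_lit 0), (nat_lit 0x605605), (nat_lit 4)⟩)))
(.nd (.nd (.lf ⟨(nat_lit 980), (nat_lit 2), (nat_lit 0x50f), (nat_lit 2)⟩)
(.lf ⟨(nat_lit 595), (nat_lit 2), (nat_lit 0x4c9), (nat_lit 2)⟩))
(.nd (.lf ⟨(nat_lit 0x6d721721b6d721721b), (nat_lit 12), (nat_lit 0), (nat_lit 0)⟩)
(.lf ⟨(nat_lit 0), (nat_lit 0), (nat_lit 0x388388), (nat_lit 4)⟩)))))
(.nd (.nd (.nd (.nd (.nd (.lf ⟨(nat_lit 0xd70d7), (nat_lit 4), (nat_lit 0x5c35c3), (nat_lit 4)⟩)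
(.lf ⟨(nat_lit 0x96d1), (nat_lit 3), (nat_lit 0x1b38c391309), (nat_lit 7)⟩))
(.lf ⟨(nat_lit 0x643643), (nat_lit 4), (nat_lit 0), (nat_lit 0)⟩))
(.nd (.lf ⟨(nat_lit 0x20e208388), (nat_lit 6), (nat_lit 0), (nat_lit 0)⟩)
(.lf ⟨(nat_lit 0x5046435040d41190d41035045046435040d41190d4103504), (nat_lit 32), (nat_lit 0x5046435040d41190d41035045046435040d41190d4103504), (nat_lit 32)⟩)))
(.nd (.nd (.lf ⟨(nat_lit 0x309309), (nat_lit 4), (nat_lit 0x24c24c), (nat_lit 4)⟩)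
(.lf ⟨(nat_lit 472), (nat_lit 2), (nat_lit 0x607), (nat_lit 2)⟩))
(.nd (.lf ⟨(nat_lit 0x86d7217), (nat_lit 5), (nat_lit 0x1721b5c8), (nat_lit 5)⟩)
(.lf ⟨(nat_lit 0xb350), (nat_lit 3), (nat_lit 0x102cd), (nat_lit 3)⟩))))
(.nd (.nd (.nd (.nd (.lf ⟨(nat_lit 0x2c12c1), (nat_lit 4), (nat_lit 0), (nat_lit 0)⟩)
(.lf ⟨(nat_lit 155), (nat_lit 2), (nat_lit 0x6c2), (nat_lit 2)⟩))
(.lf ⟨(nat_lit 0), (nat_lit 0), (nat_lit 0x149409149409), (nat_lit 8)⟩))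
(.nd (.lf ⟨(nat_lit 0), (nat_lit 0), (nat_lit 0x401401), (nat_lit 4)⟩)
(.lf ⟨(nat_lit 0x4e6d748e6d704e6d748e6d7), (nat_lit 16), (nat_lit 0x4e6d748e6d704e6d748e6d7), (nat_lit 16)⟩)))
(.nd (.nd (.lf ⟨(nat_lit 69), (nat_lit 2), (nat_lit 321), (nat_lit 2)⟩)
(.lf ⟨(nat_lit 0x58258d24558258d245), (nat_lit 12), (nat_lit 0x349156096349156096), (nat_lit 12)⟩))
(.nd (.lf ⟨(nat_lit 0xa106), (nat_lit 3), (nat_lit 0xa1122ca106284), (nat_lit 9)⟩)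
(.lf ⟨(nat_lit 0), (nat_lit 0), (nat_lit 0x258558549615615), (nat_lit 10)⟩))))))
(.nd (.nd (.nd (.nd (.nd (.nd (.lf ⟨(nat_lit 0x451), (nat_lit 2), (nat_lit 0), (nat_lit 0)⟩)
(.lf ⟨(nat_lit 0x556), (nat_lit 2), (nat_lit 0x595), (nat_lit 2)⟩))
(.lf ⟨(nat_lit 0x204096456442204096456442), (nat_lit 16), (nat_lit 0x204096456442204096456442), (nat_lit 16)⟩))
(.nd (.lf ⟨(nat_lit 0x308341308341), (nat_lit 8), (nat_lit 0x341308341308), (nat_lit 8)⟩)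
(.lf ⟨(nat_lit 0x44234958d40959044234958d409590), (nat_lit 20), (nat_lit 0x44234958d40959044234958d409590), (nat_lit 20)⟩)))
(.nd (.nd (.nd (.lf ⟨(nat_lit 0x385385), (nat_lit 4), (nat_lit 0x14e14e), (nat_lit 4)⟩)
(.lf ⟨(nat_lit 0x2810c22810c22810c22810c2), (nat_lit 16), (nat_lit 0x60d), (nat_lit 2)⟩))
(.lf ⟨(nat_lit 0x45b), (nat_lit 2), (nat_lit 0x6d1), (nat_lit 2)⟩))
(.nd (.lf ⟨(nat_lit 0x2072c72072c7), (nat_lit 8), (nat_lit 0x20b1cb1c82c72c7), (nat_lit 10)⟩)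
(.lf ⟨(nat_lit 473), (nat_lit 2), (nat_lit 0x65234f48d3c7), (nat_lit 8)⟩))))
(.nd (.nd (.nd (.nd (.lf ⟨(nat_lit 910), (nat_lit 2), (nat_lit 0), (nat_lit 0)⟩)
(.lf ⟨(nat_lit 0x1b5534503ce44e), (nat_lit 9), (nat_lit 0x205205), (nat_lit 4)⟩))
(.lf ⟨(nat_lit 0x5c344b44b0d12d12d70d12d12c344b44b), (nat_lit 22), (nat_lit 0x5c344b44b0d12d12d70d12d12c344b44b), (nat_lit 22)⟩))
(.nd (.lf ⟨(nat_lit 0), (nat_lit 0), (nat_lit 0x18e18e), (nat_lit 4)⟩)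
(.lf ⟨(nat_lit 0x248f48f), (nat_lit 5), (nat_lit 0x183d83d23d23c2), (nat_lit 9)⟩)))
(.nd (.nd (.lf ⟨(nat_lit 329), (nat_lit 2), (nat_lit 581), (nat_lit 2)⟩)
(.lf ⟨(nat_lit 461), (nat_lit 2), (nat_lit 0x1130834860d44c20d207), (nat_lit 13)⟩))
(.nd (.lf ⟨(nat_lit 0x58339139638a58a39139638a58a58339139638a58a39139638a58a), (nat_lit 36), (nat_lit 0x58339139638a58a39139638a58a58339139638a58a39139638a58a), (nat_lit 36)⟩)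
(.lf ⟨(nat_lit 0x96612598482096612598482), (nat_lit 16), (nat_lit 0), (nat_lit 0)⟩)))))
(.nd (.nd (.nd (.nd (.nd (.lf ⟨(nat_lit 0x1c21c2), (nat_lit 4), (nat_lit 0x87087), (nat_lit 4)⟩)
(.lf ⟨(nat_lit 0x30744e44e), (nat_lit 6), (nat_lit 0x44e44e307), (nat_lit 6)⟩))
(.lf ⟨(nat_lit 0x60a60a), (nat_lit 4), (nat_lit 0x298298), (nat_lit 4)⟩))
(.nd (.lf ⟨(nat_lit 0x253253), (nat_lit 4), (nat_lit 0x4c94c9), (nat_lit 4)⟩)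
(.lf ⟨(nat_lit 0x2c644b446), (nat_lit 6), (nat_lit 0x111191184446446), (nat_lit 10)⟩)))
(.nd (.nd (.lf ⟨(nat_lit 82), (nat_lit 2), (nat_lit 0x481), (nat_lit 2)⟩)
(.lf ⟨(nat_lit 0x4d7), (nat_lit 2), (nat_lit 0x5d3), (nat_lit 2)⟩))
(.nd (.lf ⟨(nat_lit 0x447), (nat_lit 2), (nat_lit 0x30210c084), (nat_lit 6)⟩)
(.lf ⟨(nat_lit 0x58a5996d958a5996d9), (nat_lit 12), (nat_lit 0x65b65629665b656296), (nat_lit 12)⟩))))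
(.nd (.nd (.nd (.nd (.lf ⟨(nat_lit 0x31c80c7), (nat_lit 5), (nat_lit 0x81c80c7203), (nat_lit 7)⟩)
(.lf ⟨(nat_lit 0x28b206), (nat_lit 4), (nat_lit 0x175122c818a), (nat_lit 7)⟩))
(.lf ⟨(nat_lit 396), (nat_lit 2), (nat_lit 0x24c209206), (nat_lit 6)⟩))
(.nd (.lf ⟨(nat_lit 0), (nat_lit 0), (nat_lit 0x298292298292), (nat_lit 8)⟩)
(.lf ⟨(nat_lit 0x58d256349), (nat_lit 6), (nat_lit 0x58d256349), (nat_lit 6)⟩)))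
(.nd (.nd (.lf ⟨(nat_lit 0x308308), (nat_lit 4), (nat_lit 0), (nat_lit 0)⟩)
(.lf ⟨(nat_lit 0x443443), (nat_lit 4), (nat_lit 0), (nat_lit 0)⟩))
(.nd (.lf ⟨(nat_lit 0xd5083542), (nat_lit 6), (nat_lit 0xd5083542), (nat_lit 6)⟩)
(.lf ⟨(nat_lit 0x66895c96895c9), (nat_lit 9), (nat_lit 0x1a25725a257246), (nat_lit 9)⟩))))))))))))

/-- Substitution. -/
def s0 : List (ℕ × ℕ) := [((nat_lit 194), (nat_lit 2)), ((nat_lit 641), (nat_lit 2)), ((nat_lit 13), (nat_lit 1))]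

/-- Context. -/
noncomputable def x0 : ℕ → ℕ × ℕ := rt (hy ++ ds)

set_option maxRecDepth 100000 in
/-- Facts. -/
noncomputable def d1 : Tr :=
(.nd (.nd (.nd (.nd (.lf ⟨(nat_lit 455), (nat_lit 2), (nat_lit 0), (nat_lit 0)⟩)
(.lf ⟨(nat_lit 131), (nat_lit 2), (nat_lit 0x180c2), (nat_lit 3)⟩))
(.lf ⟨(nat_lit 461), (nat_lit 2), (nat_lit 0x18347), (nat_lit 3)⟩))
(.nd (.nd (.lf ⟨(nat_lit 131), (nat_lit 2), (nat_lit 0xd0c2), (nat_lit 3)⟩)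
(.lf ⟨(nat_lit 131), (nat_lit 2), (nat_lit 194), (nat_lit 2)⟩))
(.lf ⟨(nat_lit 0x2810c22810c22810c22810c2), (nat_lit 16), (nat_lit 0), (nat_lit 0)⟩)))
(.nd (.nd (.nd (.lf ⟨(nat_lit 0x618), (nat_lit 2), (nat_lit 0), (nat_lit 0)⟩)
(.lf ⟨(nat_lit 24), (nat_lit 1), (nat_lit 0), (nat_lit 0)⟩))
(.lf ⟨(nat_lit 0x2810c22810c22810c22810c2), (nat_lit 16), (nat_lit 0x60d), (nat_lit 2)⟩))
(.nd (.lf ⟨(nat_lit 472), (nat_lit 2), (nat_lit 0x607), (nat_lit 2)⟩)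
(.lf ⟨(nat_lit 13), (nat_lit 1), (nat_lit 24), (nat_lit 1)⟩))))

/-- Context. -/
noncomputable def x1 : ℕ → ℕ × ℕ :=
  mkc d0 2368 s0 x0 (nth [] (Cl.alts (nsCl 1 [[1, 1], [0, 1], [0]])) 0)

set_option maxRecDepth 100000 in
/-- Facts. -/
noncomputable def d2 : Tr :=
(.nd (.nd (.nd (.nd (.nd (.nd (.nd (.lf ⟨(nat_lit 65), (nat_lit 2), (nat_lit 0), (nat_lit 0)⟩)
(.lf ⟨(nat_lit 586), (nat_lit 2), (nat_lit 649), (nat_lit 2)⟩))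
(.lf ⟨(nat_lit 131), (nat_lit 2), (nat_lit 0xd0c2), (nat_lit 3)⟩))
(.nd (.lf ⟨(nat_lit 845), (nat_lit 2), (nat_lit 0), (nat_lit 0)⟩)
(.lf ⟨(nat_lit 334), (nat_lit 2), (nat_lit 0x18385), (nat_lit 3)⟩)))
(.nd (.nd (.nd (.lf ⟨(nat_lit 715), (nat_lit 2), (nat_lit 0), (nat_lit 0)⟩)
(.lf ⟨(nat_lit 0x34b24614308134b246143081), (nat_lit 16), (nat_lit 0x133c9185), (nat_lit 5)⟩))
(.lf ⟨(nat_lit 591), (nat_lit 2), (nat_lit 969), (nat_lit 2)⟩))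
(.nd (.lf ⟨(nat_lit 979), (nat_lit 2), (nat_lit 0x4cf), (nat_lit 2)⟩)
(.lf ⟨(nat_lit 199), (nat_lit 2), (nat_lit 0x6584d244c1c3), (nat_lit 8)⟩))))
(.nd (.nd (.nd (.nd (.lf ⟨(nat_lit 66), (nat_lit 2), (nat_lit 0x5081), (nat_lit 3)⟩)
(.lf ⟨(nat_lit 199), (nat_lit 2), (nat_lit 0x194d244c1c3), (nat_lit 7)⟩))
(.lf ⟨(nat_lit 331), (nat_lit 2), (nat_lit 0x132c5), (nat_lit 3)⟩))
(.nd (.lf ⟨(nat_lit 205), (nat_lit 2), (nat_lit 835), (nat_lit 2)⟩)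
(.lf ⟨(nat_lit 207), (nat_lit 2), (nat_lit 963), (nat_lit 2)⟩)))
(.nd (.nd (.lf ⟨(nat_lit 73), (nat_lit 2), (nat_lit 0xd241), (nat_lit 3)⟩)
(.lf ⟨(nat_lit 601), (nat_lit 2), (nat_lit 0x649), (nat_lit 2)⟩))
(.nd (.lf ⟨(nat_lit 197), (nat_lit 2), (nat_lit 0x349143), (nat_lit 4)⟩)
(.lf ⟨(nat_lit 0x2810c22810c22810c22810c2), (nat_lit 16), (nat_lit 0x60d), (nat_lit 2)⟩)))))
(.nd (.nd (.nd (.nd (.nd (.lf ⟨(nat_lit 195), (nat_lit 2), (nat_lit 0), (nat_lit 0)⟩)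
(.lf ⟨(nat_lit 265), (nat_lit 2), (nat_lit 0x6d95d65544903ce244), (nat_lit 12)⟩))
(.lf ⟨(nat_lit 70), (nat_lit 2), (nat_lit 385), (nat_lit 2)⟩))
(.nd (.lf ⟨(nat_lit 75), (nat_lit 2), (nat_lit 705), (nat_lit 2)⟩)
(.lf ⟨(nat_lit 457), (nat_lit 2), (nat_lit 0x1a615247), (nat_lit 5)⟩)))
(.nd (.nd (.nd (.lf ⟨(nat_lit 139), (nat_lit 2), (nat_lit 0xf2c2), (nat_lit 3)⟩)
(.lf ⟨(nat_lit 0x2c10c22c10c22c10c22c10c2), (nat_lit 16), (nat_lit 0x64d), (nat_lit 2)⟩))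
(.lf ⟨(nat_lit 857), (nat_lit 2), (nat_lit 0x64d), (nat_lit 2)⟩))
(.nd (.lf ⟨(nat_lit 333), (nat_lit 2), (nat_lit 837), (nat_lit 2)⟩)
(.lf ⟨(nat_lit 0xc20c2), (nat_lit 4), (nat_lit 13), (nat_lit 1)⟩))))
(.nd (.nd (.nd (.nd (.lf ⟨(nat_lit 67), (nat_lit 2), (nat_lit 0x60c1), (nat_lit 3)⟩)
(.lf ⟨(nat_lit 0xb04d), (nat_lit 3), (nat_lit 0xd2c1), (nat_lit 3)⟩))
(.lf ⟨(nat_lit 723), (nat_lit 2), (nat_lit 0x4cb), (nat_lit 2)⟩))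
(.nd (.lf ⟨(nat_lit 589), (nat_lit 2), (nat_lit 841), (nat_lit 2)⟩)
(.lf ⟨(nat_lit 587), (nat_lit 2), (nat_lit 0x192c9), (nat_lit 3)⟩)))
(.nd (.nd (.lf ⟨(nat_lit 146), (nat_lit 2), (nat_lit 0x18482), (nat_lit 3)⟩)
(.lf ⟨(nat_lit 985), (nat_lit 2), (nat_lit 0x64f), (nat_lit 2)⟩))
(.nd (.lf ⟨(nat_lit 397), (nat_lit 2), (nat_lit 838), (nat_lit 2)⟩)
(.lf ⟨(nat_lit 24), (nat_lit 1), (nat_lit 0), (nat_lit 0)⟩))))))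
(.nd (.nd (.nd (.nd (.nd (.nd (.lf ⟨(nat_lit 130), (nat_lit 2), (nat_lit 0), (nat_lit 0)⟩)
(.lf ⟨(nat_lit 334), (nat_lit 2), (nat_lit 901), (nat_lit 2)⟩))
(.lf ⟨(nat_lit 69), (nat_lit 2), (nat_lit 321), (nat_lit 2)⟩))
(.nd (.lf ⟨(nat_lit 0x2c12c1), (nat_lit 4), (nat_lit 0), (nat_lit 0)⟩)
(.lf ⟨(nat_lit 265), (nat_lit 2), (nat_lit 0x1b6585d65544903ce244), (nat_lit 13)⟩)))
(.nd (.nd (.nd (.lf ⟨(nat_lit 975), (nat_lit 2), (nat_lit 0), (nat_lit 0)⟩)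
(.lf ⟨(nat_lit 0x4cf2461533c9185), (nat_lit 10), (nat_lit 0x64d), (nat_lit 2)⟩))
(.lf ⟨(nat_lit 851), (nat_lit 2), (nat_lit 0x4cd), (nat_lit 2)⟩))
(.nd (.lf ⟨(nat_lit 0x4d9), (nat_lit 2), (nat_lit 0x653), (nat_lit 2)⟩)
(.lf ⟨(nat_lit 461), (nat_lit 2), (nat_lit 0x18347), (nat_lit 3)⟩))))
(.nd (.nd (.nd (.nd (.lf ⟨(nat_lit 390), (nat_lit 2), (nat_lit 0), (nat_lit 0)⟩)
(.lf ⟨(nat_lit 461), (nat_lit 2), (nat_lit 839), (nat_lit 2)⟩))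
(.lf ⟨(nat_lit 339), (nat_lit 2), (nat_lit 0x4c5), (nat_lit 2)⟩))
(.nd (.lf ⟨(nat_lit 393), (nat_lit 2), (nat_lit 582), (nat_lit 2)⟩)
(.lf ⟨(nat_lit 403), (nat_lit 2), (nat_lit 0x4c6), (nat_lit 2)⟩)))
(.nd (.nd (.lf ⟨(nat_lit 0x4d3), (nat_lit 2), (nat_lit 0), (nat_lit 0)⟩)
(.lf ⟨(nat_lit 595), (nat_lit 2), (nat_lit 0x4c9), (nat_lit 2)⟩))
(.nd (.lf ⟨(nat_lit 329), (nat_lit 2), (nat_lit 581), (nat_lit 2)⟩)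
(.lf ⟨(nat_lit 0x2810c22810c22810c22810c2), (nat_lit 16), (nat_lit 13), (nat_lit 1)⟩)))))
(.nd (.nd (.nd (.nd (.nd (.lf ⟨(nat_lit 325), (nat_lit 2), (nat_lit 0), (nat_lit 0)⟩)
(.lf ⟨(nat_lit 457), (nat_lit 2), (nat_lit 0x695247), (nat_lit 4)⟩))
(.lf ⟨(nat_lit 326), (nat_lit 2), (nat_lit 0xd185), (nat_lit 3)⟩))
(.nd (.lf ⟨(nat_lit 77), (nat_lit 2), (nat_lit 833), (nat_lit 2)⟩)
(.lf ⟨(nat_lit 717), (nat_lit 2), (nat_lit 843), (nat_lit 2)⟩)))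
(.nd (.nd (.lf ⟨(nat_lit 845), (nat_lit 2), (nat_lit 0), (nat_lit 0)⟩)
(.lf ⟨(nat_lit 973), (nat_lit 2), (nat_lit 847), (nat_lit 2)⟩))
(.nd (.lf ⟨(nat_lit 395), (nat_lit 2), (nat_lit 710), (nat_lit 2)⟩)
(.lf ⟨(nat_lit 0x308d), (nat_lit 3), (nat_lit 0xd0c2), (nat_lit 3)⟩))))
(.nd (.nd (.nd (.nd (.lf ⟨(nat_lit 585), (nat_lit 2), (nat_lit 0), (nat_lit 0)⟩)
(.lf ⟨(nat_lit 0x2c10c2), (nat_lit 4), (nat_lit 0x34b246143081), (nat_lit 8)⟩))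
(.lf ⟨(nat_lit 335), (nat_lit 2), (nat_lit 965), (nat_lit 2)⟩))
(.nd (.lf ⟨(nat_lit 719), (nat_lit 2), (nat_lit 971), (nat_lit 2)⟩)
(.lf ⟨(nat_lit 399), (nat_lit 2), (nat_lit 0x193c6), (nat_lit 3)⟩)))
(.nd (.nd (.lf ⟨(nat_lit 0x659), (nat_lit 2), (nat_lit 0), (nat_lit 0)⟩)
(.lf ⟨(nat_lit 586), (nat_lit 2), (nat_lit 0x18289), (nat_lit 3)⟩))
(.nd (.lf ⟨(nat_lit 203), (nat_lit 2), (nat_lit 707), (nat_lit 2)⟩)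
(.lf ⟨(nat_lit 146), (nat_lit 2), (nat_lit 0x482), (nat_lit 2)⟩)))))))

/-- Substitution. -/
def s2 : List (ℕ × ℕ) := [((nat_lit 194), (nat_lit 2)), ((nat_lit 705), (nat_lit 2)), ((nat_lit 13), (nat_lit 1))]

/-- Context. -/
noncomputable def x2 : ℕ → ℕ × ℕ :=
  mkc d0 2368 s0 x0 (nth [] (Cl.alts (nsCl 1 [[1, 1], [0, 1], [0]])) 1)

set_option maxRecDepth 100000 in
/-- Facts. -/
noncomputable def d3 : Tr :=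
(.nd (.nd (.nd (.nd (.lf ⟨(nat_lit 520), (nat_lit 2), (nat_lit 0), (nat_lit 0)⟩)
(.lf ⟨(nat_lit 131), (nat_lit 2), (nat_lit 0x190c2), (nat_lit 3)⟩))
(.lf ⟨(nat_lit 525), (nat_lit 2), (nat_lit 0x19348), (nat_lit 3)⟩))
(.nd (.nd (.lf ⟨(nat_lit 131), (nat_lit 2), (nat_lit 0xd0c2), (nat_lit 3)⟩)
(.lf ⟨(nat_lit 131), (nat_lit 2), (nat_lit 194), (nat_lit 2)⟩))
(.lf ⟨(nat_lit 0x2c10c22c10c22c10c22c10c2), (nat_lit 16), (nat_lit 0), (nat_lit 0)⟩)))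
(.nd (.nd (.nd (.lf ⟨(nat_lit 0x659), (nat_lit 2), (nat_lit 0), (nat_lit 0)⟩)
(.lf ⟨(nat_lit 25), (nat_lit 1), (nat_lit 0), (nat_lit 0)⟩))
(.lf ⟨(nat_lit 0x2c10c22c10c22c10c22c10c2), (nat_lit 16), (nat_lit 0x64d), (nat_lit 2)⟩))
(.nd (.lf ⟨(nat_lit 537), (nat_lit 2), (nat_lit 0x648), (nat_lit 2)⟩)
(.lf ⟨(nat_lit 13), (nat_lit 1), (nat_lit 25), (nat_lit 1)⟩))))

/-- Context. -/
noncomputable def x3 : ℕ → ℕ × ℕ :=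
  mkc d2 75 s2 x2 (nth [] (Cl.alts (nsCl 1 [[1, 1], [0, 1], [0]])) 0)

set_option maxRecDepth 100000 in
/-- Facts. -/
noncomputable def d4 : Tr :=
(.nd (.nd (.nd (.nd (.nd (.nd (.nd (.lf ⟨(nat_lit 65), (nat_lit 2), (nat_lit 0), (nat_lit 0)⟩)
(.lf ⟨(nat_lit 598), (nat_lit 2), (nat_lit 0x589), (nat_lit 2)⟩))
(.nd (.lf ⟨(nat_lit 197), (nat_lit 2), (nat_lit 0x349143), (nat_lit 4)⟩)
(.lf ⟨(nat_lit 0x50c0c2054303081), (nat_lit 10), (nat_lit 0x6d654d409185), (nat_lit 8)⟩)))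
(.nd (.nd (.lf ⟨(nat_lit 0x596), (nat_lit 2), (nat_lit 0), (nat_lit 0)⟩)
(.lf ⟨(nat_lit 265), (nat_lit 2), (nat_lit 0x6d95d65544903ce244), (nat_lit 12)⟩))
(.lf ⟨(nat_lit 0x40d), (nat_lit 2), (nat_lit 848), (nat_lit 2)⟩)))
(.nd (.nd (.nd (.lf ⟨(nat_lit 134), (nat_lit 2), (nat_lit 0x9182), (nat_lit 3)⟩)
(.lf ⟨(nat_lit 347), (nat_lit 2), (nat_lit 0x6c5), (nat_lit 2)⟩))
(.lf ⟨(nat_lit 406), (nat_lit 2), (nat_lit 0x586), (nat_lit 2)⟩))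
(.nd (.nd (.lf ⟨(nat_lit 77), (nat_lit 2), (nat_lit 833), (nat_lit 2)⟩)
(.lf ⟨(nat_lit 587), (nat_lit 2), (nat_lit 713), (nat_lit 2)⟩))
(.lf ⟨(nat_lit 0x51b), (nat_lit 2), (nat_lit 0x6d4), (nat_lit 2)⟩))))
(.nd (.nd (.nd (.nd (.lf ⟨(nat_lit 66), (nat_lit 2), (nat_lit 0x5081), (nat_lit 3)⟩)
(.lf ⟨(nat_lit 788), (nat_lit 2), (nat_lit 0x50c), (nat_lit 2)⟩))
(.lf ⟨(nat_lit 781), (nat_lit 2), (nat_lit 844), (nat_lit 2)⟩))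
(.nd (.nd (.lf ⟨(nat_lit 65), (nat_lit 2), (nat_lit 0), (nat_lit 0)⟩)
(.lf ⟨(nat_lit 25), (nat_lit 1), (nat_lit 0), (nat_lit 0)⟩))
(.lf ⟨(nat_lit 411), (nat_lit 2), (nat_lit 0x6c6), (nat_lit 2)⟩)))
(.nd (.nd (.nd (.lf ⟨(nat_lit 845), (nat_lit 2), (nat_lit 0), (nat_lit 0)⟩)
(.lf ⟨(nat_lit 587), (nat_lit 2), (nat_lit 0x192c9), (nat_lit 3)⟩))
(.lf ⟨(nat_lit 336), (nat_lit 2), (nat_lit 0x405), (nat_lit 2)⟩))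
(.nd (.nd (.lf ⟨(nat_lit 784), (nat_lit 2), (nat_lit 0x40c), (nat_lit 2)⟩)
(.lf ⟨(nat_lit 0x16cd), (nat_lit 3), (nat_lit 0x1b341), (nat_lit 3)⟩))
(.lf ⟨(nat_lit 592), (nat_lit 2), (nat_lit 0x409), (nat_lit 2)⟩)))))
(.nd (.nd (.nd (.nd (.nd (.lf ⟨(nat_lit 195), (nat_lit 2), (nat_lit 0), (nat_lit 0)⟩)
(.lf ⟨(nat_lit 0x556), (nat_lit 2), (nat_lit 0x595), (nat_lit 2)⟩))
(.nd (.lf ⟨(nat_lit 397), (nat_lit 2), (nat_lit 838), (nat_lit 2)⟩)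
(.lf ⟨(nat_lit 0x50c0c205430308150c0c2054303081), (nat_lit 20), (nat_lit 13), (nat_lit 1)⟩)))
(.nd (.nd (.lf ⟨(nat_lit 211), (nat_lit 2), (nat_lit 0x194c3), (nat_lit 3)⟩)
(.lf ⟨(nat_lit 0x2c10c22c10c22c10c22c10c2), (nat_lit 16), (nat_lit 0x64d), (nat_lit 2)⟩))
(.lf ⟨(nat_lit 790), (nat_lit 2), (nat_lit 0x58c), (nat_lit 2)⟩)))
(.nd (.nd (.nd (.lf ⟨(nat_lit 0x410), (nat_lit 2), (nat_lit 0), (nat_lit 0)⟩)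
(.lf ⟨(nat_lit 212), (nat_lit 2), (nat_lit 0x1b503), (nat_lit 3)⟩))
(.lf ⟨(nat_lit 326), (nat_lit 2), (nat_lit 0xd185), (nat_lit 3)⟩))
(.nd (.nd (.lf ⟨(nat_lit 393), (nat_lit 2), (nat_lit 582), (nat_lit 2)⟩)
(.lf ⟨(nat_lit 265), (nat_lit 2), (nat_lit 0x1b5d65544903ce244), (nat_lit 11)⟩))
(.lf ⟨(nat_lit 0x6cd6cd), (nat_lit 4), (nat_lit 0), (nat_lit 0)⟩))))
(.nd (.nd (.nd (.nd (.lf ⟨(nat_lit 67), (nat_lit 2), (nat_lit 0x60c1), (nat_lit 3)⟩)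
(.lf ⟨(nat_lit 0x55b), (nat_lit 2), (nat_lit 0x6d5), (nat_lit 2)⟩))
(.lf ⟨(nat_lit 341), (nat_lit 2), (nat_lit 0x545), (nat_lit 2)⟩))
(.nd (.nd (.lf ⟨(nat_lit 137), (nat_lit 2), (nat_lit 578), (nat_lit 2)⟩)
(.lf ⟨(nat_lit 525), (nat_lit 2), (nat_lit 840), (nat_lit 2)⟩))
(.lf ⟨(nat_lit 91), (nat_lit 2), (nat_lit 0x6c1), (nat_lit 2)⟩)))
(.nd (.nd (.nd (.lf ⟨(nat_lit 0x555), (nat_lit 2), (nat_lit 0), (nat_lit 0)⟩)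
(.lf ⟨(nat_lit 213), (nat_lit 2), (nat_lit 0x543), (nat_lit 2)⟩))
(.lf ⟨(nat_lit 148), (nat_lit 2), (nat_lit 0x502), (nat_lit 2)⟩))
(.nd (.nd (.lf ⟨(nat_lit 0x416), (nat_lit 2), (nat_lit 0x590), (nat_lit 2)⟩)
(.lf ⟨(nat_lit 0x50c0c26cd), (nat_lit 6), (nat_lit 0x6cd50c0c2), (nat_lit 6)⟩))
(.lf ⟨(nat_lit 525), (nat_lit 2), (nat_lit 0x19348), (nat_lit 3)⟩))))))
(.nd (.nd (.nd (.nd (.nd (.nd (.lf ⟨(nat_lit 130), (nat_lit 2), (nat_lit 0), (nat_lit 0)⟩)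
(.lf ⟨(nat_lit 342), (nat_lit 2), (nat_lit 0x585), (nat_lit 2)⟩))
(.nd (.lf ⟨(nat_lit 329), (nat_lit 2), (nat_lit 581), (nat_lit 2)⟩)
(.lf ⟨(nat_lit 0x6d654d4091856d654d409185), (nat_lit 16), (nat_lit 13), (nat_lit 1)⟩)))
(.nd (.nd (.lf ⟨(nat_lit 208), (nat_lit 2), (nat_lit 0x16403), (nat_lit 3)⟩)
(.lf ⟨(nat_lit 199), (nat_lit 2), (nat_lit 0x194d244c1c3), (nat_lit 7)⟩))
(.lf ⟨(nat_lit 0x515), (nat_lit 2), (nat_lit 0x554), (nat_lit 2)⟩)))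
(.nd (.nd (.nd (.lf ⟨(nat_lit 780), (nat_lit 2), (nat_lit 0), (nat_lit 0)⟩)
(.lf ⟨(nat_lit 155), (nat_lit 2), (nat_lit 0x6c2), (nat_lit 2)⟩))
(.lf ⟨(nat_lit 131), (nat_lit 2), (nat_lit 0xd0c2), (nat_lit 3)⟩))
(.nd (.nd (.lf ⟨(nat_lit 205), (nat_lit 2), (nat_lit 835), (nat_lit 2)⟩)
(.lf ⟨(nat_lit 399), (nat_lit 2), (nat_lit 966), (nat_lit 2)⟩))
(.lf ⟨(nat_lit 0x59b), (nat_lit 2), (nat_lit 0x6d6), (nat_lit 2)⟩))))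
(.nd (.nd (.nd (.nd (.lf ⟨(nat_lit 390), (nat_lit 2), (nat_lit 0), (nat_lit 0)⟩)
(.lf ⟨(nat_lit 0x41b), (nat_lit 2), (nat_lit 0x6d0), (nat_lit 2)⟩))
(.lf ⟨(nat_lit 198), (nat_lit 2), (nat_lit 387), (nat_lit 2)⟩))
(.nd (.nd (.lf ⟨(nat_lit 141), (nat_lit 2), (nat_lit 834), (nat_lit 2)⟩)
(.lf ⟨(nat_lit 211), (nat_lit 2), (nat_lit 0x4c3), (nat_lit 2)⟩))
(.lf ⟨(nat_lit 854), (nat_lit 2), (nat_lit 0x58d), (nat_lit 2)⟩)))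
(.nd (.nd (.nd (.lf ⟨(nat_lit 0x514), (nat_lit 2), (nat_lit 0), (nat_lit 0)⟩)
(.lf ⟨(nat_lit 399), (nat_lit 2), (nat_lit 0x193c6), (nat_lit 3)⟩))
(.lf ⟨(nat_lit 853), (nat_lit 2), (nat_lit 0x54d), (nat_lit 2)⟩))
(.nd (.nd (.lf ⟨(nat_lit 0x415), (nat_lit 2), (nat_lit 0x550), (nat_lit 2)⟩)
(.lf ⟨(nat_lit 0x50c0c250c0c2), (nat_lit 8), (nat_lit 0x6cd), (nat_lit 2)⟩))
(.lf ⟨(nat_lit 597), (nat_lit 2), (nat_lit 0x549), (nat_lit 2)⟩)))))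
(.nd (.nd (.nd (.nd (.nd (.lf ⟨(nat_lit 325), (nat_lit 2), (nat_lit 0), (nat_lit 0)⟩)
(.lf ⟨(nat_lit 0x516), (nat_lit 2), (nat_lit 0x594), (nat_lit 2)⟩))
(.lf ⟨(nat_lit 133), (nat_lit 2), (nat_lit 322), (nat_lit 2)⟩))
(.nd (.nd (.lf ⟨(nat_lit 0x6db), (nat_lit 2), (nat_lit 0), (nat_lit 0)⟩)
(.lf ⟨(nat_lit 0x2c10c22c10c22c10c22c10c2), (nat_lit 16), (nat_lit 13), (nat_lit 1)⟩))
(.lf ⟨(nat_lit 859), (nat_lit 2), (nat_lit 0x6cd), (nat_lit 2)⟩)))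
(.nd (.nd (.nd (.lf ⟨(nat_lit 76), (nat_lit 2), (nat_lit 0x10301), (nat_lit 3)⟩)
(.lf ⟨(nat_lit 400), (nat_lit 2), (nat_lit 0x406), (nat_lit 2)⟩))
(.lf ⟨(nat_lit 789), (nat_lit 2), (nat_lit 0x54c), (nat_lit 2)⟩))
(.nd (.nd (.lf ⟨(nat_lit 589), (nat_lit 2), (nat_lit 841), (nat_lit 2)⟩)
(.lf ⟨(nat_lit 199), (nat_lit 2), (nat_lit 0x4d244c1c3), (nat_lit 6)⟩))
(.lf ⟨(nat_lit 795), (nat_lit 2), (nat_lit 0x6cc), (nat_lit 2)⟩))))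
(.nd (.nd (.nd (.nd (.lf ⟨(nat_lit 585), (nat_lit 2), (nat_lit 0), (nat_lit 0)⟩)
(.lf ⟨(nat_lit 603), (nat_lit 2), (nat_lit 0x6c9), (nat_lit 2)⟩))
(.lf ⟨(nat_lit 219), (nat_lit 2), (nat_lit 0x6c3), (nat_lit 2)⟩))
(.nd (.nd (.lf ⟨(nat_lit 140), (nat_lit 2), (nat_lit 770), (nat_lit 2)⟩)
(.lf ⟨(nat_lit 204), (nat_lit 2), (nat_lit 771), (nat_lit 2)⟩))
(.lf ⟨(nat_lit 852), (nat_lit 2), (nat_lit 0x50d), (nat_lit 2)⟩)))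
(.nd (.nd (.nd (.lf ⟨(nat_lit 144), (nat_lit 2), (nat_lit 0x15402), (nat_lit 3)⟩)
(.lf ⟨(nat_lit 405), (nat_lit 2), (nat_lit 0x546), (nat_lit 2)⟩))
(.lf ⟨(nat_lit 84), (nat_lit 2), (nat_lit 0x501), (nat_lit 2)⟩))
(.nd (.nd (.lf ⟨(nat_lit 333), (nat_lit 2), (nat_lit 837), (nat_lit 2)⟩)
(.lf ⟨(nat_lit 0x14303081), (nat_lit 5), (nat_lit 0x14303081), (nat_lit 5)⟩))
(.lf ⟨(nat_lit 204), (nat_lit 2), (nat_lit 0x19303), (nat_lit 3)⟩)))))))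

/-- Substitution. -/
def s4 : List (ℕ × ℕ) := [((nat_lit 1), (nat_lit 1)), ((nat_lit 0x50c0c2), (nat_lit 4)), ((nat_lit 0x6cd), (nat_lit 2))]

/-- Context. -/
noncomputable def x4 : ℕ → ℕ × ℕ :=
  mkc d2 75 s2 x2 (nth [] (Cl.alts (nsCl 1 [[1, 1], [0, 1], [0]])) 1)

set_option maxRecDepth 100000 in
/-- Facts. -/
noncomputable def d5 : Tr :=
(.nd (.nd (.nd (.lf ⟨(nat_lit 131), (nat_lit 2), (nat_lit 0xd0c2), (nat_lit 3)⟩)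
(.lf ⟨(nat_lit 131), (nat_lit 2), (nat_lit 194), (nat_lit 2)⟩))
(.lf ⟨(nat_lit 0x50c0c205430308150c0c2054303081), (nat_lit 20), (nat_lit 0), (nat_lit 0)⟩))
(.nd (.lf ⟨(nat_lit 0x50c0c205430308150c0c2054303081), (nat_lit 20), (nat_lit 13), (nat_lit 1)⟩)
(.lf ⟨(nat_lit 13), (nat_lit 1), (nat_lit 0), (nat_lit 0)⟩)))

/-- Context. -/
noncomputable def x5 : ℕ → ℕ × ℕ :=
  mkc d4 99 s4 x4 (nth [] (Cl.alts (nsCl 1 [[0, 1], [1, 1], [0]])) 0)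

set_option maxRecDepth 100000 in
/-- Facts. -/
noncomputable def d6 : Tr :=
(.nd (.nd (.nd (.nd (.nd (.nd (.nd (.lf ⟨(nat_lit 65), (nat_lit 2), (nat_lit 0), (nat_lit 0)⟩)
(.lf ⟨(nat_lit 0x50c0c205430308150c0c2054303081), (nat_lit 20), (nat_lit 13), (nat_lit 1)⟩))
(.lf ⟨(nat_lit 397), (nat_lit 2), (nat_lit 838), (nat_lit 2)⟩))
(.nd (.nd (.lf ⟨(nat_lit 215), (nat_lit 2), (nat_lit 0x1b5c3), (nat_lit 3)⟩)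
(.lf ⟨(nat_lit 0x14148d), (nat_lit 4), (nat_lit 0x48d141), (nat_lit 4)⟩))
(.lf ⟨(nat_lit 909), (nat_lit 2), (nat_lit 846), (nat_lit 2)⟩)))
(.nd (.nd (.nd (.lf ⟨(nat_lit 134), (nat_lit 2), (nat_lit 0x9182), (nat_lit 3)⟩)
(.lf ⟨(nat_lit 328), (nat_lit 2), (nat_lit 0x55340f205), (nat_lit 6)⟩))
(.lf ⟨(nat_lit 138), (nat_lit 2), (nat_lit 642), (nat_lit 2)⟩))
(.nd (.lf ⟨(nat_lit 393), (nat_lit 2), (nat_lit 582), (nat_lit 2)⟩)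
(.lf ⟨(nat_lit 142), (nat_lit 2), (nat_lit 898), (nat_lit 2)⟩))))
(.nd (.nd (.nd (.nd (.lf ⟨(nat_lit 66), (nat_lit 2), (nat_lit 0x5081), (nat_lit 3)⟩)
(.lf ⟨(nat_lit 212), (nat_lit 2), (nat_lit 0x503), (nat_lit 2)⟩))
(.lf ⟨(nat_lit 131), (nat_lit 2), (nat_lit 0xd0c2), (nat_lit 3)⟩))
(.nd (.nd (.lf ⟨(nat_lit 77), (nat_lit 2), (nat_lit 833), (nat_lit 2)⟩)
(.lf ⟨(nat_lit 0x389185389185), (nat_lit 8), (nat_lit 13), (nat_lit 1)⟩))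
(.lf ⟨(nat_lit 528), (nat_lit 2), (nat_lit 0x1b408), (nat_lit 3)⟩)))
(.nd (.nd (.nd (.lf ⟨(nat_lit 845), (nat_lit 2), (nat_lit 0), (nat_lit 0)⟩)
(.lf ⟨(nat_lit 0x48d38948d), (nat_lit 6), (nat_lit 0x48d48d389), (nat_lit 6)⟩))
(.lf ⟨(nat_lit 394), (nat_lit 2), (nat_lit 0x12286), (nat_lit 3)⟩))
(.nd (.lf ⟨(nat_lit 333), (nat_lit 2), (nat_lit 837), (nat_lit 2)⟩)
(.lf ⟨(nat_lit 146), (nat_lit 2), (nat_lit 0x482), (nat_lit 2)⟩)))))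
(.nd (.nd (.nd (.nd (.nd (.lf ⟨(nat_lit 195), (nat_lit 2), (nat_lit 0), (nat_lit 0)⟩)
(.lf ⟨(nat_lit 27), (nat_lit 1), (nat_lit 0), (nat_lit 0)⟩))
(.lf ⟨(nat_lit 133), (nat_lit 2), (nat_lit 322), (nat_lit 2)⟩))
(.nd (.nd (.lf ⟨(nat_lit 74), (nat_lit 2), (nat_lit 641), (nat_lit 2)⟩)
(.lf ⟨(nat_lit 0x1412860c2), (nat_lit 6), (nat_lit 0x34a243081), (nat_lit 6)⟩))
(.lf ⟨(nat_lit 212), (nat_lit 2), (nat_lit 0x1b503), (nat_lit 3)⟩)))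
(.nd (.nd (.nd (.lf ⟨(nat_lit 910), (nat_lit 2), (nat_lit 0), (nat_lit 0)⟩)
(.lf ⟨(nat_lit 265), (nat_lit 2), (nat_lit 0x5d65544903ce244), (nat_lit 10)⟩))
(.lf ⟨(nat_lit 658), (nat_lit 2), (nat_lit 0x48a), (nat_lit 2)⟩))
(.nd (.lf ⟨(nat_lit 654), (nat_lit 2), (nat_lit 906), (nat_lit 2)⟩)
(.lf ⟨(nat_lit 0x48d48d), (nat_lit 4), (nat_lit 0), (nat_lit 0)⟩))))
(.nd (.nd (.nd (.nd (.lf ⟨(nat_lit 67), (nat_lit 2), (nat_lit 0x60c1), (nat_lit 3)⟩)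
(.lf ⟨(nat_lit 528), (nat_lit 2), (nat_lit 0x408), (nat_lit 2)⟩))
(.lf ⟨(nat_lit 326), (nat_lit 2), (nat_lit 0xd185), (nat_lit 3)⟩))
(.nd (.lf ⟨(nat_lit 82), (nat_lit 2), (nat_lit 0x481), (nat_lit 2)⟩)
(.lf ⟨(nat_lit 328), (nat_lit 2), (nat_lit 0x1b55340f205), (nat_lit 7)⟩)))
(.nd (.nd (.nd (.lf ⟨(nat_lit 0x492), (nat_lit 2), (nat_lit 0), (nat_lit 0)⟩)
(.lf ⟨(nat_lit 0x2860c248d), (nat_lit 6), (nat_lit 0x48d2860c2), (nat_lit 6)⟩))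
(.lf ⟨(nat_lit 850), (nat_lit 2), (nat_lit 0x48d), (nat_lit 2)⟩))
(.nd (.lf ⟨(nat_lit 329), (nat_lit 2), (nat_lit 581), (nat_lit 2)⟩)
(.lf ⟨(nat_lit 334), (nat_lit 2), (nat_lit 901), (nat_lit 2)⟩))))))
(.nd (.nd (.nd (.nd (.nd (.nd (.lf ⟨(nat_lit 130), (nat_lit 2), (nat_lit 0), (nat_lit 0)⟩)
(.lf ⟨(nat_lit 0x50c0c205430308150c0c2054303081), (nat_lit 20), (nat_lit 0x6cd), (nat_lit 2)⟩))
(.lf ⟨(nat_lit 330), (nat_lit 2), (nat_lit 645), (nat_lit 2)⟩))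
(.nd (.nd (.lf ⟨(nat_lit 141), (nat_lit 2), (nat_lit 834), (nat_lit 2)⟩)
(.lf ⟨(nat_lit 0x14148d389), (nat_lit 6), (nat_lit 0x48d48d389141), (nat_lit 8)⟩))
(.lf ⟨(nat_lit 590), (nat_lit 2), (nat_lit 905), (nat_lit 2)⟩)))
(.nd (.nd (.nd (.lf ⟨(nat_lit 650), (nat_lit 2), (nat_lit 0), (nat_lit 0)⟩)
(.lf ⟨(nat_lit 391), (nat_lit 2), (nat_lit 0x69759240e1c6), (nat_lit 8)⟩))
(.lf ⟨(nat_lit 0x141141), (nat_lit 4), (nat_lit 0), (nat_lit 0)⟩))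
(.nd (.lf ⟨(nat_lit 589), (nat_lit 2), (nat_lit 841), (nat_lit 2)⟩)
(.lf ⟨(nat_lit 338), (nat_lit 2), (nat_lit 0x485), (nat_lit 2)⟩))))
(.nd (.nd (.nd (.nd (.lf ⟨(nat_lit 390), (nat_lit 2), (nat_lit 0), (nat_lit 0)⟩)
(.lf ⟨(nat_lit 716), (nat_lit 2), (nat_lit 779), (nat_lit 2)⟩))
(.lf ⟨(nat_lit 70), (nat_lit 2), (nat_lit 385), (nat_lit 2)⟩))
(.nd (.nd (.lf ⟨(nat_lit 206), (nat_lit 2), (nat_lit 899), (nat_lit 2)⟩)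
(.lf ⟨(nat_lit 0x1412860c21412860c21412860c21412860c2), (nat_lit 24), (nat_lit 13), (nat_lit 1)⟩))
(.lf ⟨(nat_lit 527), (nat_lit 2), (nat_lit 0x1b3c8), (nat_lit 3)⟩)))
(.nd (.nd (.nd (.lf ⟨(nat_lit 73), (nat_lit 2), (nat_lit 0xd241), (nat_lit 3)⟩)
(.lf ⟨(nat_lit 0x2860c22860c2), (nat_lit 8), (nat_lit 0x48d389), (nat_lit 4)⟩))
(.lf ⟨(nat_lit 210), (nat_lit 2), (nat_lit 0x483), (nat_lit 2)⟩))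
(.nd (.lf ⟨(nat_lit 197), (nat_lit 2), (nat_lit 0x349143), (nat_lit 4)⟩)
(.lf ⟨(nat_lit 586), (nat_lit 2), (nat_lit 649), (nat_lit 2)⟩)))))
(.nd (.nd (.nd (.nd (.nd (.lf ⟨(nat_lit 325), (nat_lit 2), (nat_lit 0), (nat_lit 0)⟩)
(.lf ⟨(nat_lit 215), (nat_lit 2), (nat_lit 0x5c3), (nat_lit 2)⟩))
(.lf ⟨(nat_lit 198), (nat_lit 2), (nat_lit 387), (nat_lit 2)⟩))
(.nd (.nd (.lf ⟨(nat_lit 137), (nat_lit 2), (nat_lit 578), (nat_lit 2)⟩)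
(.lf ⟨(nat_lit 0x34a24308134a243081), (nat_lit 12), (nat_lit 0x389185), (nat_lit 4)⟩))
(.lf ⟨(nat_lit 716), (nat_lit 2), (nat_lit 0x1b30b), (nat_lit 3)⟩)))
(.nd (.nd (.nd (.lf ⟨(nat_lit 202), (nat_lit 2), (nat_lit 0xe283), (nat_lit 3)⟩)
(.lf ⟨(nat_lit 0x48d38948d389), (nat_lit 8), (nat_lit 0), (nat_lit 0)⟩))
(.lf ⟨(nat_lit 398), (nat_lit 2), (nat_lit 902), (nat_lit 2)⟩))
(.nd (.lf ⟨(nat_lit 914), (nat_lit 2), (nat_lit 0x48e), (nat_lit 2)⟩)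
(.lf ⟨(nat_lit 391), (nat_lit 2), (nat_lit 0x1b69759240e1c6), (nat_lit 9)⟩))))
(.nd (.nd (.nd (.nd (.lf ⟨(nat_lit 585), (nat_lit 2), (nat_lit 0), (nat_lit 0)⟩)
(.lf ⟨(nat_lit 527), (nat_lit 2), (nat_lit 968), (nat_lit 2)⟩))
(.lf ⟨(nat_lit 201), (nat_lit 2), (nat_lit 579), (nat_lit 2)⟩))
(.nd (.lf ⟨(nat_lit 205), (nat_lit 2), (nat_lit 835), (nat_lit 2)⟩)
(.lf ⟨(nat_lit 653), (nat_lit 2), (nat_lit 842), (nat_lit 2)⟩)))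
(.nd (.nd (.nd (.lf ⟨(nat_lit 78), (nat_lit 2), (nat_lit 0x12381), (nat_lit 3)⟩)
(.lf ⟨(nat_lit 0x2860c248d389), (nat_lit 8), (nat_lit 0x48d3892860c2), (nat_lit 8)⟩))
(.lf ⟨(nat_lit 594), (nat_lit 2), (nat_lit 0x489), (nat_lit 2)⟩))
(.nd (.lf ⟨(nat_lit 402), (nat_lit 2), (nat_lit 0x486), (nat_lit 2)⟩)
(.lf ⟨(nat_lit 265), (nat_lit 2), (nat_lit 0x1b5d65544903ce244), (nat_lit 11)⟩)))))))

/-- Substitution. -/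
def s6 : List (ℕ × ℕ) := [((nat_lit 0x2860c2), (nat_lit 4)), ((nat_lit 321), (nat_lit 2)), ((nat_lit 0x48d), (nat_lit 2)), ((nat_lit 0x48d389), (nat_lit 4))]

/-- Context. -/
noncomputable def x6 : ℕ → ℕ × ℕ :=
  mkc d4 99 s4 x4 (nth [] (Cl.alts (nsCl 1 [[0, 1], [1, 1], [0]])) 1)

set_option maxRecDepth 100000 in
/-- Facts. -/
noncomputable def d7 : Tr :=
(.nd (.nd (.nd (.lf ⟨(nat_lit 131), (nat_lit 2), (nat_lit 0xd0c2), (nat_lit 3)⟩)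
(.lf ⟨(nat_lit 131), (nat_lit 2), (nat_lit 194), (nat_lit 2)⟩))
(.lf ⟨(nat_lit 0x1412860c21412860c21412860c21412860c2), (nat_lit 24), (nat_lit 0), (nat_lit 0)⟩))
(.nd (.lf ⟨(nat_lit 0x1412860c21412860c21412860c21412860c2), (nat_lit 24), (nat_lit 13), (nat_lit 1)⟩)
(.lf ⟨(nat_lit 13), (nat_lit 1), (nat_lit 0), (nat_lit 0)⟩)))

/-- Context. -/
noncomputable def x7 : ℕ → ℕ × ℕ :=
  mkc d6 86 s6 x6 (nth [] (Cl.alts (nsCl 2 [[2, 1, 2], [0, 1, 3], [0], [0, 1]])) 0)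

set_option maxRecDepth 100000 in
/-- Facts. -/
noncomputable def d8 : Tr :=
(.nd (.nd (.nd (.nd (.nd (.nd (.lf ⟨(nat_lit 65), (nat_lit 2), (nat_lit 0), (nat_lit 0)⟩)
(.lf ⟨(nat_lit 138), (nat_lit 2), (nat_lit 642), (nat_lit 2)⟩))
(.nd (.lf ⟨(nat_lit 74), (nat_lit 2), (nat_lit 641), (nat_lit 2)⟩)
(.lf ⟨(nat_lit 394), (nat_lit 2), (nat_lit 646), (nat_lit 2)⟩)))
(.nd (.nd (.lf ⟨(nat_lit 134), (nat_lit 2), (nat_lit 0x9182), (nat_lit 3)⟩)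
(.lf ⟨(nat_lit 334), (nat_lit 2), (nat_lit 901), (nat_lit 2)⟩))
(.nd (.lf ⟨(nat_lit 333), (nat_lit 2), (nat_lit 837), (nat_lit 2)⟩)
(.lf ⟨(nat_lit 0xa0c234e), (nat_lit 5), (nat_lit 0xd38a0c2), (nat_lit 5)⟩))))
(.nd (.nd (.nd (.lf ⟨(nat_lit 66), (nat_lit 2), (nat_lit 0x5081), (nat_lit 3)⟩)
(.lf ⟨(nat_lit 590), (nat_lit 2), (nat_lit 905), (nat_lit 2)⟩))
(.nd (.lf ⟨(nat_lit 205), (nat_lit 2), (nat_lit 835), (nat_lit 2)⟩)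
(.lf ⟨(nat_lit 265), (nat_lit 2), (nat_lit 0x175955103ce244), (nat_lit 9)⟩)))
(.nd (.nd (.lf ⟨(nat_lit 845), (nat_lit 2), (nat_lit 0), (nat_lit 0)⟩)
(.lf ⟨(nat_lit 0x1412860c21412860c21412860c21412860c2), (nat_lit 24), (nat_lit 13), (nat_lit 1)⟩))
(.nd (.lf ⟨(nat_lit 133), (nat_lit 2), (nat_lit 322), (nat_lit 2)⟩)
(.lf ⟨(nat_lit 0x283081283081283081283081), (nat_lit 16), (nat_lit 13), (nat_lit 1)⟩)))))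
(.nd (.nd (.nd (.nd (.lf ⟨(nat_lit 195), (nat_lit 2), (nat_lit 0), (nat_lit 0)⟩)
(.lf ⟨(nat_lit 394), (nat_lit 2), (nat_lit 0x12286), (nat_lit 3)⟩))
(.nd (.lf ⟨(nat_lit 77), (nat_lit 2), (nat_lit 833), (nat_lit 2)⟩)
(.lf ⟨(nat_lit 199), (nat_lit 2), (nat_lit 0x1344c1c3), (nat_lit 5)⟩)))
(.nd (.nd (.lf ⟨(nat_lit 910), (nat_lit 2), (nat_lit 0), (nat_lit 0)⟩)
(.lf ⟨(nat_lit 391), (nat_lit 2), (nat_lit 0x69759240e1c6), (nat_lit 8)⟩))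
(.nd (.lf ⟨(nat_lit 329), (nat_lit 2), (nat_lit 581), (nat_lit 2)⟩)
(.lf ⟨(nat_lit 0x283081283081), (nat_lit 8), (nat_lit 0xd389185), (nat_lit 5)⟩))))
(.nd (.nd (.nd (.lf ⟨(nat_lit 67), (nat_lit 2), (nat_lit 0x60c1), (nat_lit 3)⟩)
(.lf ⟨(nat_lit 142), (nat_lit 2), (nat_lit 898), (nat_lit 2)⟩))
(.nd (.lf ⟨(nat_lit 589), (nat_lit 2), (nat_lit 841), (nat_lit 2)⟩)
(.lf ⟨(nat_lit 0x134e), (nat_lit 3), (nat_lit 0xd381), (nat_lit 3)⟩)))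
(.nd (.nd (.lf ⟨(nat_lit 65), (nat_lit 2), (nat_lit 0), (nat_lit 0)⟩)
(.lf ⟨(nat_lit 18), (nat_lit 1), (nat_lit 0), (nat_lit 0)⟩))
(.lf ⟨(nat_lit 131), (nat_lit 2), (nat_lit 0xd0c2), (nat_lit 3)⟩)))))
(.nd (.nd (.nd (.nd (.nd (.lf ⟨(nat_lit 130), (nat_lit 2), (nat_lit 0), (nat_lit 0)⟩)
(.lf ⟨(nat_lit 398), (nat_lit 2), (nat_lit 902), (nat_lit 2)⟩))
(.nd (.lf ⟨(nat_lit 137), (nat_lit 2), (nat_lit 578), (nat_lit 2)⟩)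
(.lf ⟨(nat_lit 269), (nat_lit 2), (nat_lit 0x13344), (nat_lit 3)⟩)))
(.nd (.nd (.lf ⟨(nat_lit 650), (nat_lit 2), (nat_lit 0), (nat_lit 0)⟩)
(.lf ⟨(nat_lit 199), (nat_lit 2), (nat_lit 0x4d244c1c3), (nat_lit 6)⟩))
(.nd (.lf ⟨(nat_lit 197), (nat_lit 2), (nat_lit 0x349143), (nat_lit 4)⟩)
(.lf ⟨(nat_lit 0x283081), (nat_lit 4), (nat_lit 0x283081), (nat_lit 4)⟩))))
(.nd (.nd (.nd (.lf ⟨(nat_lit 390), (nat_lit 2), (nat_lit 0), (nat_lit 0)⟩)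
(.lf ⟨(nat_lit 653), (nat_lit 2), (nat_lit 842), (nat_lit 2)⟩))
(.nd (.lf ⟨(nat_lit 393), (nat_lit 2), (nat_lit 582), (nat_lit 2)⟩)
(.lf ⟨(nat_lit 0x34e34e), (nat_lit 4), (nat_lit 0), (nat_lit 0)⟩)))
(.nd (.nd (.lf ⟨(nat_lit 78), (nat_lit 2), (nat_lit 0x12381), (nat_lit 3)⟩)
(.lf ⟨(nat_lit 0x1412860c21412860c21412860c21412860c2), (nat_lit 24), (nat_lit 0x48d), (nat_lit 2)⟩))
(.lf ⟨(nat_lit 198), (nat_lit 2), (nat_lit 387), (nat_lit 2)⟩))))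
(.nd (.nd (.nd (.nd (.lf ⟨(nat_lit 325), (nat_lit 2), (nat_lit 0), (nat_lit 0)⟩)
(.lf ⟨(nat_lit 909), (nat_lit 2), (nat_lit 846), (nat_lit 2)⟩))
(.nd (.lf ⟨(nat_lit 206), (nat_lit 2), (nat_lit 899), (nat_lit 2)⟩)
(.lf ⟨(nat_lit 391), (nat_lit 2), (nat_lit 0x1a5d640e1c6), (nat_lit 7)⟩)))
(.nd (.nd (.lf ⟨(nat_lit 202), (nat_lit 2), (nat_lit 0xe283), (nat_lit 3)⟩)
(.lf ⟨(nat_lit 265), (nat_lit 2), (nat_lit 0x5d65544903ce244), (nat_lit 10)⟩))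
(.nd (.lf ⟨(nat_lit 397), (nat_lit 2), (nat_lit 838), (nat_lit 2)⟩)
(.lf ⟨(nat_lit 0x34e24614d389185), (nat_lit 10), (nat_lit 13), (nat_lit 1)⟩))))
(.nd (.nd (.nd (.lf ⟨(nat_lit 585), (nat_lit 2), (nat_lit 0), (nat_lit 0)⟩)
(.lf ⟨(nat_lit 269), (nat_lit 2), (nat_lit 0x4d2344), (nat_lit 4)⟩))
(.nd (.lf ⟨(nat_lit 654), (nat_lit 2), (nat_lit 906), (nat_lit 2)⟩)
(.lf ⟨(nat_lit 0x28308a0c2), (nat_lit 6), (nat_lit 846), (nat_lit 2)⟩)))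
(.nd (.nd (.lf ⟨(nat_lit 141), (nat_lit 2), (nat_lit 834), (nat_lit 2)⟩)
(.lf ⟨(nat_lit 78), (nat_lit 2), (nat_lit 897), (nat_lit 2)⟩))
(.lf ⟨(nat_lit 326), (nat_lit 2), (nat_lit 0xd185), (nat_lit 3)⟩))))))

/-- Substitution. -/
def s8 : List (ℕ × ℕ) := [((nat_lit 1), (nat_lit 1)), ((nat_lit 0xa0c2), (nat_lit 3)), ((nat_lit 846), (nat_lit 2))]

/-- Context. -/
noncomputable def x8 : ℕ → ℕ × ℕ :=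
  mkc d6 86 s6 x6 (nth [] (Cl.alts (nsCl 2 [[2, 1, 2], [0, 1, 3], [0], [0, 1]])) 1)

set_option maxRecDepth 100000 in
/-- Facts. -/
noncomputable def d9 : Tr :=
(.nd (.nd (.nd (.lf ⟨(nat_lit 131), (nat_lit 2), (nat_lit 0xd0c2), (nat_lit 3)⟩)
(.lf ⟨(nat_lit 131), (nat_lit 2), (nat_lit 194), (nat_lit 2)⟩))
(.lf ⟨(nat_lit 0x283081283081283081283081), (nat_lit 16), (nat_lit 0), (nat_lit 0)⟩))
(.nd (.lf ⟨(nat_lit 0x283081283081283081283081), (nat_lit 16), (nat_lit 13), (nat_lit 1)⟩)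
(.lf ⟨(nat_lit 13), (nat_lit 1), (nat_lit 0), (nat_lit 0)⟩)))

/-- Context. -/
noncomputable def x9 : ℕ → ℕ × ℕ :=
  mkc d8 61 s8 x8 (nth [] (Cl.alts (nsCl 1 [[0, 1], [1, 1], [0]])) 0)

set_option maxRecDepth 100000 in
/-- Facts. -/
noncomputable def d10 : Tr :=
(.nd (.nd (.nd (.nd (.nd (.nd (.nd (.lf ⟨(nat_lit 65), (nat_lit 2), (nat_lit 0), (nat_lit 0)⟩)
(.lf ⟨(nat_lit 405), (nat_lit 2), (nat_lit 0x546), (nat_lit 2)⟩))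
(.lf ⟨(nat_lit 333), (nat_lit 2), (nat_lit 837), (nat_lit 2)⟩))
(.nd (.nd (.lf ⟨(nat_lit 144), (nat_lit 2), (nat_lit 0x15402), (nat_lit 3)⟩)
(.lf ⟨(nat_lit 652), (nat_lit 2), (nat_lit 778), (nat_lit 2)⟩))
(.lf ⟨(nat_lit 854), (nat_lit 2), (nat_lit 0x58d), (nat_lit 2)⟩)))
(.nd (.nd (.nd (.lf ⟨(nat_lit 455), (nat_lit 2), (nat_lit 0), (nat_lit 0)⟩)
(.lf ⟨(nat_lit 20), (nat_lit 1), (nat_lit 23), (nat_lit 1)⟩))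
(.lf ⟨(nat_lit 70), (nat_lit 2), (nat_lit 385), (nat_lit 2)⟩))
(.nd (.nd (.lf ⟨(nat_lit 80), (nat_lit 2), (nat_lit 0x401), (nat_lit 2)⟩)
(.lf ⟨(nat_lit 0x350246143081350246143081), (nat_lit 16), (nat_lit 0x16549185), (nat_lit 5)⟩))
(.lf ⟨(nat_lit 0x556), (nat_lit 2), (nat_lit 0x595), (nat_lit 2)⟩))))
(.nd (.nd (.nd (.nd (.lf ⟨(nat_lit 325), (nat_lit 2), (nat_lit 0), (nat_lit 0)⟩)
(.lf ⟨(nat_lit 0x283081283081283081283081), (nat_lit 16), (nat_lit 13), (nat_lit 1)⟩))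
(.lf ⟨(nat_lit 341), (nat_lit 2), (nat_lit 0x545), (nat_lit 2)⟩))
(.nd (.nd (.lf ⟨(nat_lit 151), (nat_lit 2), (nat_lit 0x1a5c2), (nat_lit 3)⟩)
(.lf ⟨(nat_lit 0x4030900c2), (nat_lit 6), (nat_lit 0x1654d), (nat_lit 3)⟩))
(.lf ⟨(nat_lit 598), (nat_lit 2), (nat_lit 0x589), (nat_lit 2)⟩)))
(.nd (.nd (.nd (.lf ⟨(nat_lit 845), (nat_lit 2), (nat_lit 0), (nat_lit 0)⟩)
(.lf ⟨(nat_lit 265), (nat_lit 2), (nat_lit 0x59540f244), (nat_lit 6)⟩))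
(.lf ⟨(nat_lit 853), (nat_lit 2), (nat_lit 0x54d), (nat_lit 2)⟩))
(.nd (.lf ⟨(nat_lit 393), (nat_lit 2), (nat_lit 582), (nat_lit 2)⟩)
(.lf ⟨(nat_lit 270), (nat_lit 2), (nat_lit 0x5d4384), (nat_lit 4)⟩)))))
(.nd (.nd (.nd (.nd (.nd (.lf ⟨(nat_lit 195), (nat_lit 2), (nat_lit 0), (nat_lit 0)⟩)
(.lf ⟨(nat_lit 391), (nat_lit 2), (nat_lit 0x1a5d640e1c6), (nat_lit 7)⟩))
(.lf ⟨(nat_lit 329), (nat_lit 2), (nat_lit 581), (nat_lit 2)⟩))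
(.nd (.nd (.lf ⟨(nat_lit 208), (nat_lit 2), (nat_lit 0x16403), (nat_lit 3)⟩)
(.lf ⟨(nat_lit 522), (nat_lit 2), (nat_lit 648), (nat_lit 2)⟩))
(.lf ⟨(nat_lit 592), (nat_lit 2), (nat_lit 0x409), (nat_lit 2)⟩)))
(.nd (.nd (.nd (.lf ⟨(nat_lit 202), (nat_lit 2), (nat_lit 0xe283), (nat_lit 3)⟩)
(.lf ⟨(nat_lit 457), (nat_lit 2), (nat_lit 0x15247), (nat_lit 3)⟩))
(.lf ⟨(nat_lit 336), (nat_lit 2), (nat_lit 0x405), (nat_lit 2)⟩))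
(.nd (.nd (.lf ⟨(nat_lit 214), (nat_lit 2), (nat_lit 0x583), (nat_lit 2)⟩)
(.lf ⟨(nat_lit 0x500c20500c20500c20500c2), (nat_lit 16), (nat_lit 13), (nat_lit 1)⟩))
(.lf ⟨(nat_lit 400), (nat_lit 2), (nat_lit 0x406), (nat_lit 2)⟩))))
(.nd (.nd (.nd (.nd (.lf ⟨(nat_lit 390), (nat_lit 2), (nat_lit 0), (nat_lit 0)⟩)
(.lf ⟨(nat_lit 14), (nat_lit 1), (nat_lit 0), (nat_lit 0)⟩))
(.lf ⟨(nat_lit 131), (nat_lit 2), (nat_lit 0xd0c2), (nat_lit 3)⟩))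
(.nd (.nd (.lf ⟨(nat_lit 141), (nat_lit 2), (nat_lit 834), (nat_lit 2)⟩)
(.lf ⟨(nat_lit 0x5654d), (nat_lit 4), (nat_lit 0x595341), (nat_lit 4)⟩))
(.lf ⟨(nat_lit 464), (nat_lit 2), (nat_lit 0x1a407), (nat_lit 3)⟩)))
(.nd (.nd (.nd (.lf ⟨(nat_lit 271), (nat_lit 2), (nat_lit 0x143c4), (nat_lit 3)⟩)
(.lf ⟨(nat_lit 151), (nat_lit 2), (nat_lit 0x5c2), (nat_lit 2)⟩))
(.lf ⟨(nat_lit 0x40d), (nat_lit 2), (nat_lit 848), (nat_lit 2)⟩))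
(.nd (.lf ⟨(nat_lit 0x415), (nat_lit 2), (nat_lit 0x550), (nat_lit 2)⟩)
(.lf ⟨(nat_lit 150), (nat_lit 2), (nat_lit 0x582), (nat_lit 2)⟩))))))
(.nd (.nd (.nd (.nd (.nd (.nd (.lf ⟨(nat_lit 130), (nat_lit 2), (nat_lit 0), (nat_lit 0)⟩)
(.lf ⟨(nat_lit 457), (nat_lit 2), (nat_lit 0x695247), (nat_lit 4)⟩))
(.lf ⟨(nat_lit 197), (nat_lit 2), (nat_lit 0x349143), (nat_lit 4)⟩))
(.nd (.nd (.lf ⟨(nat_lit 0x596), (nat_lit 2), (nat_lit 0), (nat_lit 0)⟩)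
(.lf ⟨(nat_lit 464), (nat_lit 2), (nat_lit 0x407), (nat_lit 2)⟩))
(.lf ⟨(nat_lit 652), (nat_lit 2), (nat_lit 0x1a30a), (nat_lit 3)⟩)))
(.nd (.nd (.nd (.lf ⟨(nat_lit 585), (nat_lit 2), (nat_lit 0), (nat_lit 0)⟩)
(.lf ⟨(nat_lit 26), (nat_lit 1), (nat_lit 0), (nat_lit 0)⟩))
(.lf ⟨(nat_lit 326), (nat_lit 2), (nat_lit 0xd185), (nat_lit 3)⟩))
(.nd (.nd (.lf ⟨(nat_lit 149), (nat_lit 2), (nat_lit 0x542), (nat_lit 2)⟩)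
(.lf ⟨(nat_lit 0x595246156549185), (nat_lit 10), (nat_lit 13), (nat_lit 1)⟩))
(.lf ⟨(nat_lit 86), (nat_lit 2), (nat_lit 0x581), (nat_lit 2)⟩))))
(.nd (.nd (.nd (.nd (.lf ⟨(nat_lit 66), (nat_lit 2), (nat_lit 0x5081), (nat_lit 3)⟩)
(.lf ⟨(nat_lit 0x283081283081283081283081), (nat_lit 16), (nat_lit 846), (nat_lit 2)⟩))
(.lf ⟨(nat_lit 406), (nat_lit 2), (nat_lit 0x586), (nat_lit 2)⟩))
(.nd (.nd (.lf ⟨(nat_lit 65), (nat_lit 2), (nat_lit 0), (nat_lit 0)⟩)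
(.lf ⟨(nat_lit 0x40309654d), (nat_lit 6), (nat_lit 0x5953500c2), (nat_lit 6)⟩))
(.lf ⟨(nat_lit 342), (nat_lit 2), (nat_lit 0x585), (nat_lit 2)⟩)))
(.nd (.nd (.nd (.lf ⟨(nat_lit 73), (nat_lit 2), (nat_lit 0xd241), (nat_lit 3)⟩)
(.lf ⟨(nat_lit 271), (nat_lit 2), (nat_lit 0x173c4), (nat_lit 3)⟩))
(.lf ⟨(nat_lit 459), (nat_lit 2), (nat_lit 0x142c7), (nat_lit 3)⟩))
(.nd (.lf ⟨(nat_lit 589), (nat_lit 2), (nat_lit 841), (nat_lit 2)⟩)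
(.lf ⟨(nat_lit 462), (nat_lit 2), (nat_lit 0x1a387), (nat_lit 3)⟩)))))
(.nd (.nd (.nd (.nd (.nd (.lf ⟨(nat_lit 260), (nat_lit 2), (nat_lit 0), (nat_lit 0)⟩)
(.lf ⟨(nat_lit 265), (nat_lit 2), (nat_lit 0x175955103ce244), (nat_lit 9)⟩))
(.lf ⟨(nat_lit 397), (nat_lit 2), (nat_lit 838), (nat_lit 2)⟩))
(.nd (.nd (.lf ⟨(nat_lit 0x5d7), (nat_lit 2), (nat_lit 0), (nat_lit 0)⟩)
(.lf ⟨(nat_lit 0x59535654d), (nat_lit 6), (nat_lit 0), (nat_lit 0)⟩))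
(.lf ⟨(nat_lit 597), (nat_lit 2), (nat_lit 0x549), (nat_lit 2)⟩)))
(.nd (.nd (.nd (.lf ⟨(nat_lit 0x410), (nat_lit 2), (nat_lit 0), (nat_lit 0)⟩)
(.lf ⟨(nat_lit 391), (nat_lit 2), (nat_lit 0x175901c6), (nat_lit 5)⟩))
(.lf ⟨(nat_lit 85), (nat_lit 2), (nat_lit 0x541), (nat_lit 2)⟩))
(.nd (.lf ⟨(nat_lit 205), (nat_lit 2), (nat_lit 835), (nat_lit 2)⟩)
(.lf ⟨(nat_lit 522), (nat_lit 2), (nat_lit 0x5d4288), (nat_lit 4)⟩))))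
(.nd (.nd (.nd (.nd (.lf ⟨(nat_lit 67), (nat_lit 2), (nat_lit 0x60c1), (nat_lit 3)⟩)
(.lf ⟨(nat_lit 202), (nat_lit 2), (nat_lit 643), (nat_lit 2)⟩))
(.lf ⟨(nat_lit 69), (nat_lit 2), (nat_lit 321), (nat_lit 2)⟩))
(.nd (.nd (.lf ⟨(nat_lit 77), (nat_lit 2), (nat_lit 833), (nat_lit 2)⟩)
(.lf ⟨(nat_lit 0x500c2), (nat_lit 4), (nat_lit 0x350246143081), (nat_lit 8)⟩))
(.lf ⟨(nat_lit 0x597), (nat_lit 2), (nat_lit 0x5d6), (nat_lit 2)⟩)))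
(.nd (.nd (.nd (.lf ⟨(nat_lit 0x555), (nat_lit 2), (nat_lit 0), (nat_lit 0)⟩)
(.lf ⟨(nat_lit 459), (nat_lit 2), (nat_lit 0x172c7), (nat_lit 3)⟩))
(.lf ⟨(nat_lit 0x557), (nat_lit 2), (nat_lit 0x5d5), (nat_lit 2)⟩))
(.nd (.lf ⟨(nat_lit 0x416), (nat_lit 2), (nat_lit 0x590), (nat_lit 2)⟩)
(.lf ⟨(nat_lit 213), (nat_lit 2), (nat_lit 0x543), (nat_lit 2)⟩)))))))

/-- Substitution. -/
def s10 : List (ℕ × ℕ) := [((nat_lit 0x100c2), (nat_lit 3)), ((nat_lit 1), (nat_lit 1)), ((nat_lit 0x1654d), (nat_lit 3))]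

/-- Context. -/
noncomputable def x10 : ℕ → ℕ × ℕ :=
  mkc d8 61 s8 x8 (nth [] (Cl.alts (nsCl 1 [[0, 1], [1, 1], [0]])) 1)

set_option maxRecDepth 100000 in
/-- Facts. -/
noncomputable def d11 : Tr :=
(.nd (.nd (.nd (.lf ⟨(nat_lit 131), (nat_lit 2), (nat_lit 0xd0c2), (nat_lit 3)⟩)
(.lf ⟨(nat_lit 131), (nat_lit 2), (nat_lit 194), (nat_lit 2)⟩))
(.lf ⟨(nat_lit 0x500c20500c20500c20500c2), (nat_lit 16), (nat_lit 0), (nat_lit 0)⟩))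
(.nd (.lf ⟨(nat_lit 0x500c20500c20500c20500c2), (nat_lit 16), (nat_lit 13), (nat_lit 1)⟩)
(.lf ⟨(nat_lit 13), (nat_lit 1), (nat_lit 0), (nat_lit 0)⟩)))

/-- Context. -/
noncomputable def x11 : ℕ → ℕ × ℕ :=
  mkc d10 91 s10 x10 (nth [] (Cl.alts (nsCl 1 [[1, 1], [0, 1], [0]])) 0)

set_option maxRecDepth 100000 in
/-- Facts. -/
noncomputable def d12 : Tr :=
(.nd (.nd (.nd (.nd (.nd (.nd (.nd (.lf ⟨(nat_lit 65), (nat_lit 2), (nat_lit 0), (nat_lit 0)⟩)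
(.lf ⟨(nat_lit 653), (nat_lit 2), (nat_lit 842), (nat_lit 2)⟩))
(.nd (.lf ⟨(nat_lit 719), (nat_lit 2), (nat_lit 971), (nat_lit 2)⟩)
(.lf ⟨(nat_lit 0x5cb2860c20572ca183081), (nat_lit 14), (nat_lit 0x34f185), (nat_lit 4)⟩)))
(.nd (.nd (.lf ⟨(nat_lit 79), (nat_lit 2), (nat_lit 0x133c1), (nat_lit 3)⟩)
(.lf ⟨(nat_lit 0x500c20500c20500c20500c2), (nat_lit 16), (nat_lit 0x1654d), (nat_lit 3)⟩))
(.lf ⟨(nat_lit 335), (nat_lit 2), (nat_lit 965), (nat_lit 2)⟩)))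
(.nd (.nd (.nd (.lf ⟨(nat_lit 134), (nat_lit 2), (nat_lit 0x9182), (nat_lit 3)⟩)
(.lf ⟨(nat_lit 215), (nat_lit 2), (nat_lit 0x5c3), (nat_lit 2)⟩))
(.lf ⟨(nat_lit 203), (nat_lit 2), (nat_lit 707), (nat_lit 2)⟩))
(.nd (.nd (.lf ⟨(nat_lit 137), (nat_lit 2), (nat_lit 578), (nat_lit 2)⟩)
(.lf ⟨(nat_lit 0x34f24d3c9), (nat_lit 6), (nat_lit 0), (nat_lit 0)⟩))
(.lf ⟨(nat_lit 973), (nat_lit 2), (nat_lit 847), (nat_lit 2)⟩))))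
(.nd (.nd (.nd (.nd (.lf ⟨(nat_lit 66), (nat_lit 2), (nat_lit 0x5081), (nat_lit 3)⟩)
(.lf ⟨(nat_lit 586), (nat_lit 2), (nat_lit 649), (nat_lit 2)⟩))
(.lf ⟨(nat_lit 197), (nat_lit 2), (nat_lit 0x349143), (nat_lit 4)⟩))
(.nd (.nd (.lf ⟨(nat_lit 141), (nat_lit 2), (nat_lit 834), (nat_lit 2)⟩)
(.lf ⟨(nat_lit 328), (nat_lit 2), (nat_lit 0x59340f205), (nat_lit 6)⟩))
(.lf ⟨(nat_lit 727), (nat_lit 2), (nat_lit 0x5cb), (nat_lit 2)⟩)))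
(.nd (.nd (.nd (.lf ⟨(nat_lit 139), (nat_lit 2), (nat_lit 0xf2c2), (nat_lit 3)⟩)
(.lf ⟨(nat_lit 457), (nat_lit 2), (nat_lit 0x15247), (nat_lit 3)⟩))
(.lf ⟨(nat_lit 201), (nat_lit 2), (nat_lit 579), (nat_lit 2)⟩))
(.nd (.nd (.lf ⟨(nat_lit 87), (nat_lit 2), (nat_lit 0x5c1), (nat_lit 2)⟩)
(.lf ⟨(nat_lit 0x5cb1830972c60c2), (nat_lit 10), (nat_lit 0xd3c9), (nat_lit 3)⟩))
(.lf ⟨(nat_lit 595), (nat_lit 2), (nat_lit 0x4c9), (nat_lit 2)⟩)))))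
(.nd (.nd (.nd (.nd (.nd (.lf ⟨(nat_lit 195), (nat_lit 2), (nat_lit 0), (nat_lit 0)⟩)
(.lf ⟨(nat_lit 207), (nat_lit 2), (nat_lit 963), (nat_lit 2)⟩))
(.nd (.lf ⟨(nat_lit 333), (nat_lit 2), (nat_lit 837), (nat_lit 2)⟩)
(.lf ⟨(nat_lit 0x5cb18308a0572c60c22815cb18308a0572c60c2281), (nat_lit 28), (nat_lit 13), (nat_lit 1)⟩)))
(.nd (.nd (.lf ⟨(nat_lit 0x596), (nat_lit 2), (nat_lit 0), (nat_lit 0)⟩)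
(.lf ⟨(nat_lit 144), (nat_lit 2), (nat_lit 0x16402), (nat_lit 3)⟩))
(.lf ⟨(nat_lit 651), (nat_lit 2), (nat_lit 714), (nat_lit 2)⟩)))
(.nd (.nd (.nd (.lf ⟨(nat_lit 715), (nat_lit 2), (nat_lit 0), (nat_lit 0)⟩)
(.lf ⟨(nat_lit 394), (nat_lit 2), (nat_lit 646), (nat_lit 2)⟩))
(.lf ⟨(nat_lit 70), (nat_lit 2), (nat_lit 385), (nat_lit 2)⟩))
(.nd (.nd (.lf ⟨(nat_lit 143), (nat_lit 2), (nat_lit 962), (nat_lit 2)⟩)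
(.lf ⟨(nat_lit 0x2814cd), (nat_lit 4), (nat_lit 0x4cd281), (nat_lit 4)⟩))
(.lf ⟨(nat_lit 0x4d7), (nat_lit 2), (nat_lit 0x5d3), (nat_lit 2)⟩))))
(.nd (.nd (.nd (.nd (.lf ⟨(nat_lit 67), (nat_lit 2), (nat_lit 0x60c1), (nat_lit 3)⟩)
(.lf ⟨(nat_lit 587), (nat_lit 2), (nat_lit 713), (nat_lit 2)⟩))
(.lf ⟨(nat_lit 133), (nat_lit 2), (nat_lit 322), (nat_lit 2)⟩))
(.nd (.nd (.lf ⟨(nat_lit 74), (nat_lit 2), (nat_lit 641), (nat_lit 2)⟩)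
(.lf ⟨(nat_lit 265), (nat_lit 2), (nat_lit 0x40f244), (nat_lit 4)⟩))
(.lf ⟨(nat_lit 851), (nat_lit 2), (nat_lit 0x4cd), (nat_lit 2)⟩)))
(.nd (.nd (.nd (.lf ⟨(nat_lit 73), (nat_lit 2), (nat_lit 0xd241), (nat_lit 3)⟩)
(.lf ⟨(nat_lit 151), (nat_lit 2), (nat_lit 0x5c2), (nat_lit 2)⟩))
(.lf ⟨(nat_lit 332), (nat_lit 2), (nat_lit 0x15305), (nat_lit 3)⟩))
(.nd (.nd (.lf ⟨(nat_lit 393), (nat_lit 2), (nat_lit 582), (nat_lit 2)⟩)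
(.lf ⟨(nat_lit 0x5cb18308d3c9), (nat_lit 8), (nat_lit 0x34f2572c60c2), (nat_lit 8)⟩))
(.lf ⟨(nat_lit 983), (nat_lit 2), (nat_lit 0x5cf), (nat_lit 2)⟩))))))
(.nd (.nd (.nd (.nd (.nd (.nd (.lf ⟨(nat_lit 130), (nat_lit 2), (nat_lit 0), (nat_lit 0)⟩)
(.lf ⟨(nat_lit 717), (nat_lit 2), (nat_lit 843), (nat_lit 2)⟩))
(.nd (.lf ⟨(nat_lit 979), (nat_lit 2), (nat_lit 0x4cf), (nat_lit 2)⟩)
(.lf ⟨(nat_lit 0x34f18534f185), (nat_lit 8), (nat_lit 13), (nat_lit 1)⟩)))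
(.nd (.nd (.lf ⟨(nat_lit 144), (nat_lit 2), (nat_lit 0x15402), (nat_lit 3)⟩)
(.lf ⟨(nat_lit 21), (nat_lit 1), (nat_lit 22), (nat_lit 1)⟩))
(.lf ⟨(nat_lit 147), (nat_lit 2), (nat_lit 0x4c2), (nat_lit 2)⟩)))
(.nd (.nd (.nd (.lf ⟨(nat_lit 650), (nat_lit 2), (nat_lit 0), (nat_lit 0)⟩)
(.lf ⟨(nat_lit 328), (nat_lit 2), (nat_lit 0x55340f205), (nat_lit 6)⟩))
(.lf ⟨(nat_lit 131), (nat_lit 2), (nat_lit 0xd0c2), (nat_lit 3)⟩))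
(.nd (.nd (.lf ⟨(nat_lit 77), (nat_lit 2), (nat_lit 833), (nat_lit 2)⟩)
(.lf ⟨(nat_lit 0xd3c94cd), (nat_lit 5), (nat_lit 0x1334d3c9), (nat_lit 5)⟩))
(.lf ⟨(nat_lit 655), (nat_lit 2), (nat_lit 970), (nat_lit 2)⟩))))
(.nd (.nd (.nd (.nd (.lf ⟨(nat_lit 390), (nat_lit 2), (nat_lit 0), (nat_lit 0)⟩)
(.lf ⟨(nat_lit 211), (nat_lit 2), (nat_lit 0x4c3), (nat_lit 2)⟩))
(.lf ⟨(nat_lit 397), (nat_lit 2), (nat_lit 838), (nat_lit 2)⟩))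
(.nd (.nd (.lf ⟨(nat_lit 0x281281), (nat_lit 4), (nat_lit 0), (nat_lit 0)⟩)
(.lf ⟨(nat_lit 457), (nat_lit 2), (nat_lit 0x16247), (nat_lit 3)⟩))
(.lf ⟨(nat_lit 663), (nat_lit 2), (nat_lit 0x5ca), (nat_lit 2)⟩)))
(.nd (.nd (.nd (.lf ⟨(nat_lit 845), (nat_lit 2), (nat_lit 0), (nat_lit 0)⟩)
(.lf ⟨(nat_lit 265), (nat_lit 2), (nat_lit 0x59540f244), (nat_lit 6)⟩))
(.lf ⟨(nat_lit 138), (nat_lit 2), (nat_lit 642), (nat_lit 2)⟩))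
(.nd (.nd (.lf ⟨(nat_lit 205), (nat_lit 2), (nat_lit 835), (nat_lit 2)⟩)
(.lf ⟨(nat_lit 0x172c60c24cd), (nat_lit 7), (nat_lit 0x133572c60c2), (nat_lit 7)⟩))
(.lf ⟨(nat_lit 407), (nat_lit 2), (nat_lit 0x5c6), (nat_lit 2)⟩)))))
(.nd (.nd (.nd (.nd (.nd (.lf ⟨(nat_lit 325), (nat_lit 2), (nat_lit 0), (nat_lit 0)⟩)
(.lf ⟨(nat_lit 403), (nat_lit 2), (nat_lit 0x4c6), (nat_lit 2)⟩))
(.lf ⟨(nat_lit 395), (nat_lit 2), (nat_lit 710), (nat_lit 2)⟩))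
(.nd (.nd (.lf ⟨(nat_lit 0x5d7), (nat_lit 2), (nat_lit 0), (nat_lit 0)⟩)
(.lf ⟨(nat_lit 332), (nat_lit 2), (nat_lit 0x16305), (nat_lit 3)⟩))
(.lf ⟨(nat_lit 591), (nat_lit 2), (nat_lit 969), (nat_lit 2)⟩)))
(.nd (.nd (.nd (.lf ⟨(nat_lit 975), (nat_lit 2), (nat_lit 0), (nat_lit 0)⟩)
(.lf ⟨(nat_lit 202), (nat_lit 2), (nat_lit 643), (nat_lit 2)⟩))
(.lf ⟨(nat_lit 326), (nat_lit 2), (nat_lit 0xd185), (nat_lit 3)⟩))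
(.nd (.nd (.lf ⟨(nat_lit 83), (nat_lit 2), (nat_lit 0x4c1), (nat_lit 2)⟩)
(.lf ⟨(nat_lit 0xa04d3c9), (nat_lit 5), (nat_lit 0x1334d3c9281), (nat_lit 7)⟩))
(.lf ⟨(nat_lit 855), (nat_lit 2), (nat_lit 0x5cd), (nat_lit 2)⟩))))
(.nd (.nd (.nd (.nd (.lf ⟨(nat_lit 585), (nat_lit 2), (nat_lit 0), (nat_lit 0)⟩)
(.lf ⟨(nat_lit 399), (nat_lit 2), (nat_lit 966), (nat_lit 2)⟩))
(.lf ⟨(nat_lit 198), (nat_lit 2), (nat_lit 387), (nat_lit 2)⟩))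
(.nd (.nd (.lf ⟨(nat_lit 75), (nat_lit 2), (nat_lit 705), (nat_lit 2)⟩)
(.lf ⟨(nat_lit 0x4cd4cd), (nat_lit 4), (nat_lit 0), (nat_lit 0)⟩))
(.lf ⟨(nat_lit 659), (nat_lit 2), (nat_lit 0x4ca), (nat_lit 2)⟩)))
(.nd (.nd (.nd (.lf ⟨(nat_lit 0x4d3), (nat_lit 2), (nat_lit 0), (nat_lit 0)⟩)
(.lf ⟨(nat_lit 0x500c20500c20500c20500c2), (nat_lit 16), (nat_lit 13), (nat_lit 1)⟩))
(.lf ⟨(nat_lit 723), (nat_lit 2), (nat_lit 0x4cb), (nat_lit 2)⟩))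
(.nd (.nd (.lf ⟨(nat_lit 589), (nat_lit 2), (nat_lit 841), (nat_lit 2)⟩)
(.lf ⟨(nat_lit 0x172c60c2281), (nat_lit 7), (nat_lit 0x172ca183081), (nat_lit 7)⟩))
(.lf ⟨(nat_lit 599), (nat_lit 2), (nat_lit 0x5c9), (nat_lit 2)⟩)))))))

/-- Substitution. -/
def s12 : List (ℕ × ℕ) := [((nat_lit 641), (nat_lit 2)), ((nat_lit 0x172c60c2), (nat_lit 5)), ((nat_lit 0x4cd), (nat_lit 2)), ((nat_lit 0xd3c9), (nat_lit 3))]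

/-- Context. -/
noncomputable def x12 : ℕ → ℕ × ℕ :=
  mkc d10 91 s10 x10 (nth [] (Cl.alts (nsCl 1 [[1, 1], [0, 1], [0]])) 1)

set_option maxRecDepth 100000 in
/-- Facts. -/
noncomputable def d13 : Tr :=
(.nd (.nd (.nd (.lf ⟨(nat_lit 131), (nat_lit 2), (nat_lit 0xd0c2), (nat_lit 3)⟩)
(.lf ⟨(nat_lit 131), (nat_lit 2), (nat_lit 194), (nat_lit 2)⟩))
(.lf ⟨(nat_lit 0x5cb18308a0572c60c22815cb18308a0572c60c2281), (nat_lit 28), (nat_lit 0), (nat_lit 0)⟩))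
(.nd (.lf ⟨(nat_lit 0x5cb18308a0572c60c22815cb18308a0572c60c2281), (nat_lit 28), (nat_lit 13), (nat_lit 1)⟩)
(.lf ⟨(nat_lit 13), (nat_lit 1), (nat_lit 0), (nat_lit 0)⟩)))

/-- Context. -/
noncomputable def x13 : ℕ → ℕ × ℕ :=
  mkc d12 99 s12 x12 (nth [] (Cl.alts (nsCl 2 [[0, 1, 3], [2, 1, 2], [0], [0, 1]])) 0)

set_option maxRecDepth 100000 in
/-- Facts. -/
noncomputable def d14 : Tr :=
(.nd (.nd (.nd (.nd (.nd (.nd (.lf ⟨(nat_lit 65), (nat_lit 2), (nat_lit 0), (nat_lit 0)⟩)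
(.lf ⟨(nat_lit 326), (nat_lit 2), (nat_lit 0xd185), (nat_lit 3)⟩))
(.nd (.lf ⟨(nat_lit 75), (nat_lit 2), (nat_lit 705), (nat_lit 2)⟩)
(.lf ⟨(nat_lit 331), (nat_lit 2), (nat_lit 709), (nat_lit 2)⟩)))
(.nd (.nd (.lf ⟨(nat_lit 134), (nat_lit 2), (nat_lit 0x9182), (nat_lit 3)⟩)
(.lf ⟨(nat_lit 399), (nat_lit 2), (nat_lit 966), (nat_lit 2)⟩))
(.nd (.lf ⟨(nat_lit 333), (nat_lit 2), (nat_lit 837), (nat_lit 2)⟩)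
(.lf ⟨(nat_lit 0x34b0c204d2c3081), (nat_lit 10), (nat_lit 0xd3c9185), (nat_lit 5)⟩))))
(.nd (.nd (.nd (.lf ⟨(nat_lit 66), (nat_lit 2), (nat_lit 0x5081), (nat_lit 3)⟩)
(.lf ⟨(nat_lit 973), (nat_lit 2), (nat_lit 847), (nat_lit 2)⟩))
(.nd (.lf ⟨(nat_lit 205), (nat_lit 2), (nat_lit 835), (nat_lit 2)⟩)
(.lf ⟨(nat_lit 0x134f), (nat_lit 3), (nat_lit 0xd3c1), (nat_lit 3)⟩)))
(.nd (.nd (.lf ⟨(nat_lit 845), (nat_lit 2), (nat_lit 0), (nat_lit 0)⟩)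
(.lf ⟨(nat_lit 0x5cb18308a0572c60c22815cb18308a0572c60c2281), (nat_lit 28), (nat_lit 13), (nat_lit 1)⟩))
(.lf ⟨(nat_lit 133), (nat_lit 2), (nat_lit 322), (nat_lit 2)⟩))))
(.nd (.nd (.nd (.nd (.lf ⟨(nat_lit 195), (nat_lit 2), (nat_lit 0), (nat_lit 0)⟩)
(.lf ⟨(nat_lit 335), (nat_lit 2), (nat_lit 965), (nat_lit 2)⟩))
(.nd (.lf ⟨(nat_lit 77), (nat_lit 2), (nat_lit 833), (nat_lit 2)⟩)
(.lf ⟨(nat_lit 199), (nat_lit 2), (nat_lit 0x44c1c3), (nat_lit 4)⟩)))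
(.nd (.nd (.lf ⟨(nat_lit 975), (nat_lit 2), (nat_lit 0), (nat_lit 0)⟩)
(.lf ⟨(nat_lit 199), (nat_lit 2), (nat_lit 0x1344c1c3), (nat_lit 5)⟩))
(.nd (.lf ⟨(nat_lit 329), (nat_lit 2), (nat_lit 581), (nat_lit 2)⟩)
(.lf ⟨(nat_lit 0x34b0c204d2c308134b0c204d2c3081), (nat_lit 20), (nat_lit 13), (nat_lit 1)⟩))))
(.nd (.nd (.nd (.lf ⟨(nat_lit 67), (nat_lit 2), (nat_lit 0x60c1), (nat_lit 3)⟩)
(.lf ⟨(nat_lit 717), (nat_lit 2), (nat_lit 843), (nat_lit 2)⟩))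
(.nd (.lf ⟨(nat_lit 589), (nat_lit 2), (nat_lit 841), (nat_lit 2)⟩)
(.lf ⟨(nat_lit 0x34b0c234f), (nat_lit 6), (nat_lit 0x34f34b0c2), (nat_lit 6)⟩)))
(.nd (.nd (.lf ⟨(nat_lit 65), (nat_lit 2), (nat_lit 0), (nat_lit 0)⟩)
(.lf ⟨(nat_lit 19), (nat_lit 1), (nat_lit 0), (nat_lit 0)⟩))
(.lf ⟨(nat_lit 203), (nat_lit 2), (nat_lit 707), (nat_lit 2)⟩)))))
(.nd (.nd (.nd (.nd (.nd (.lf ⟨(nat_lit 130), (nat_lit 2), (nat_lit 0), (nat_lit 0)⟩)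
(.lf ⟨(nat_lit 331), (nat_lit 2), (nat_lit 0x132c5), (nat_lit 3)⟩))
(.nd (.lf ⟨(nat_lit 137), (nat_lit 2), (nat_lit 578), (nat_lit 2)⟩)
(.lf ⟨(nat_lit 269), (nat_lit 2), (nat_lit 836), (nat_lit 2)⟩)))
(.nd (.nd (.lf ⟨(nat_lit 715), (nat_lit 2), (nat_lit 0), (nat_lit 0)⟩)
(.lf ⟨(nat_lit 269), (nat_lit 2), (nat_lit 0x13344), (nat_lit 3)⟩))
(.nd (.lf ⟨(nat_lit 197), (nat_lit 2), (nat_lit 0x349143), (nat_lit 4)⟩)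
(.lf ⟨(nat_lit 0x34f24614d3c9185), (nat_lit 10), (nat_lit 13), (nat_lit 1)⟩))))
(.nd (.nd (.nd (.lf ⟨(nat_lit 390), (nat_lit 2), (nat_lit 0), (nat_lit 0)⟩)
(.lf ⟨(nat_lit 0x34f34f), (nat_lit 4), (nat_lit 0), (nat_lit 0)⟩))
(.nd (.lf ⟨(nat_lit 393), (nat_lit 2), (nat_lit 582), (nat_lit 2)⟩)
(.lf ⟨(nat_lit 0x34b0c234b0c2), (nat_lit 8), (nat_lit 847), (nat_lit 2)⟩)))
(.nd (.nd (.lf ⟨(nat_lit 79), (nat_lit 2), (nat_lit 0x133c1), (nat_lit 3)⟩)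
(.lf ⟨(nat_lit 0x5cb18308a0572c60c22815cb18308a0572c60c2281), (nat_lit 28), (nat_lit 0x4cd), (nat_lit 2)⟩))
(.lf ⟨(nat_lit 198), (nat_lit 2), (nat_lit 387), (nat_lit 2)⟩))))
(.nd (.nd (.nd (.nd (.lf ⟨(nat_lit 325), (nat_lit 2), (nat_lit 0), (nat_lit 0)⟩)
(.lf ⟨(nat_lit 591), (nat_lit 2), (nat_lit 969), (nat_lit 2)⟩))
(.nd (.lf ⟨(nat_lit 143), (nat_lit 2), (nat_lit 962), (nat_lit 2)⟩)
(.lf ⟨(nat_lit 328), (nat_lit 2), (nat_lit 0x1640f205), (nat_lit 5)⟩)))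
(.nd (.nd (.lf ⟨(nat_lit 139), (nat_lit 2), (nat_lit 0xf2c2), (nat_lit 3)⟩)
(.lf ⟨(nat_lit 328), (nat_lit 2), (nat_lit 0x59340f205), (nat_lit 6)⟩))
(.lf ⟨(nat_lit 397), (nat_lit 2), (nat_lit 838), (nat_lit 2)⟩)))
(.nd (.nd (.nd (.lf ⟨(nat_lit 585), (nat_lit 2), (nat_lit 0), (nat_lit 0)⟩)
(.lf ⟨(nat_lit 207), (nat_lit 2), (nat_lit 963), (nat_lit 2)⟩))
(.nd (.lf ⟨(nat_lit 719), (nat_lit 2), (nat_lit 971), (nat_lit 2)⟩)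
(.lf ⟨(nat_lit 0xd2c3081), (nat_lit 5), (nat_lit 0xd2c3081), (nat_lit 5)⟩)))
(.nd (.nd (.lf ⟨(nat_lit 141), (nat_lit 2), (nat_lit 834), (nat_lit 2)⟩)
(.lf ⟨(nat_lit 79), (nat_lit 2), (nat_lit 961), (nat_lit 2)⟩))
(.lf ⟨(nat_lit 131), (nat_lit 2), (nat_lit 0xd0c2), (nat_lit 3)⟩))))))

/-- Substitution. -/
def s14 : List (ℕ × ℕ) := [((nat_lit 1), (nat_lit 1)), ((nat_lit 0x34b0c2), (nat_lit 4)), ((nat_lit 847), (nat_lit 2))]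

/-- Context. -/
noncomputable def x14 : ℕ → ℕ × ℕ :=
  mkc d12 99 s12 x12 (nth [] (Cl.alts (nsCl 2 [[0, 1, 3], [2, 1, 2], [0], [0, 1]])) 1)

set_option maxRecDepth 100000 in
/-- Facts. -/
noncomputable def d15 : Tr :=
(.nd (.nd (.nd (.lf ⟨(nat_lit 131), (nat_lit 2), (nat_lit 0xd0c2), (nat_lit 3)⟩)
(.lf ⟨(nat_lit 131), (nat_lit 2), (nat_lit 194), (nat_lit 2)⟩))
(.lf ⟨(nat_lit 0x34b0c204d2c308134b0c204d2c3081), (nat_lit 20), (nat_lit 0), (nat_lit 0)⟩))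
(.nd (.lf ⟨(nat_lit 0x34b0c204d2c308134b0c204d2c3081), (nat_lit 20), (nat_lit 13), (nat_lit 1)⟩)
(.lf ⟨(nat_lit 13), (nat_lit 1), (nat_lit 0), (nat_lit 0)⟩)))

/-- Context. -/
noncomputable def x15 : ℕ → ℕ × ℕ :=
  mkc d14 59 s14 x14 (nth [] (Cl.alts (nsCl 1 [[0, 1], [1, 1], [0]])) 0)

set_option maxRecDepth 100000 in
/-- Facts. -/
noncomputable def d16 : Tr :=
(.nd (.nd (.nd (.nd (.nd (.nd (.nd (.lf ⟨(nat_lit 65), (nat_lit 2), (nat_lit 0), (nat_lit 0)⟩)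
(.lf ⟨(nat_lit 400), (nat_lit 2), (nat_lit 0x406), (nat_lit 2)⟩))
(.nd (.lf ⟨(nat_lit 589), (nat_lit 2), (nat_lit 841), (nat_lit 2)⟩)
(.lf ⟨(nat_lit 137), (nat_lit 2), (nat_lit 578), (nat_lit 2)⟩)))
(.nd (.nd (.lf ⟨(nat_lit 0x410), (nat_lit 2), (nat_lit 0), (nat_lit 0)⟩)
(.lf ⟨(nat_lit 331), (nat_lit 2), (nat_lit 709), (nat_lit 2)⟩))
(.lf ⟨(nat_lit 326), (nat_lit 2), (nat_lit 0xd185), (nat_lit 3)⟩)))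
(.nd (.nd (.nd (.lf ⟨(nat_lit 520), (nat_lit 2), (nat_lit 0), (nat_lit 0)⟩)
(.lf ⟨(nat_lit 587), (nat_lit 2), (nat_lit 713), (nat_lit 2)⟩))
(.nd (.lf ⟨(nat_lit 397), (nat_lit 2), (nat_lit 838), (nat_lit 2)⟩)
(.lf ⟨(nat_lit 0x58d40c2c615635030b185), (nat_lit 14), (nat_lit 13), (nat_lit 1)⟩)))
(.nd (.nd (.lf ⟨(nat_lit 75), (nat_lit 2), (nat_lit 705), (nat_lit 2)⟩)
(.lf ⟨(nat_lit 265), (nat_lit 2), (nat_lit 0x10244), (nat_lit 3)⟩))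
(.lf ⟨(nat_lit 790), (nat_lit 2), (nat_lit 0x58c), (nat_lit 2)⟩))))
(.nd (.nd (.nd (.nd (.lf ⟨(nat_lit 325), (nat_lit 2), (nat_lit 0), (nat_lit 0)⟩)
(.lf ⟨(nat_lit 396), (nat_lit 2), (nat_lit 0x16306), (nat_lit 3)⟩))
(.nd (.lf ⟨(nat_lit 395), (nat_lit 2), (nat_lit 710), (nat_lit 2)⟩)
(.lf ⟨(nat_lit 0x203049), (nat_lit 4), (nat_lit 0x58d2480c1), (nat_lit 6)⟩)))
(.nd (.nd (.lf ⟨(nat_lit 130), (nat_lit 2), (nat_lit 0), (nat_lit 0)⟩)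
(.lf ⟨(nat_lit 15), (nat_lit 1), (nat_lit 0), (nat_lit 0)⟩))
(.lf ⟨(nat_lit 720), (nat_lit 2), (nat_lit 0x40b), (nat_lit 2)⟩)))
(.nd (.nd (.nd (.lf ⟨(nat_lit 72), (nat_lit 2), (nat_lit 0xb201), (nat_lit 3)⟩)
(.lf ⟨(nat_lit 271), (nat_lit 2), (nat_lit 0x173c4), (nat_lit 3)⟩))
(.lf ⟨(nat_lit 203), (nat_lit 2), (nat_lit 707), (nat_lit 2)⟩))
(.nd (.nd (.lf ⟨(nat_lit 205), (nat_lit 2), (nat_lit 835), (nat_lit 2)⟩)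
(.lf ⟨(nat_lit 0x958d), (nat_lit 3), (nat_lit 0x16349), (nat_lit 3)⟩))
(.lf ⟨(nat_lit 598), (nat_lit 2), (nat_lit 0x589), (nat_lit 2)⟩)))))
(.nd (.nd (.nd (.nd (.nd (.lf ⟨(nat_lit 195), (nat_lit 2), (nat_lit 0), (nat_lit 0)⟩)
(.lf ⟨(nat_lit 150), (nat_lit 2), (nat_lit 0x582), (nat_lit 2)⟩))
(.nd (.lf ⟨(nat_lit 0x416), (nat_lit 2), (nat_lit 0x590), (nat_lit 2)⟩)
(.lf ⟨(nat_lit 0x2030480c1), (nat_lit 6), (nat_lit 710), (nat_lit 2)⟩)))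
(.nd (.nd (.lf ⟨(nat_lit 73), (nat_lit 2), (nat_lit 0xd241), (nat_lit 3)⟩)
(.lf ⟨(nat_lit 0x34b0c204d2c308134b0c204d2c3081), (nat_lit 20), (nat_lit 13), (nat_lit 1)⟩))
(.lf ⟨(nat_lit 0x2c62c6), (nat_lit 4), (nat_lit 0), (nat_lit 0)⟩)))
(.nd (.nd (.nd (.lf ⟨(nat_lit 134), (nat_lit 2), (nat_lit 0x9182), (nat_lit 3)⟩)
(.lf ⟨(nat_lit 528), (nat_lit 2), (nat_lit 0x408), (nat_lit 2)⟩))
(.lf ⟨(nat_lit 198), (nat_lit 2), (nat_lit 387), (nat_lit 2)⟩))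
(.nd (.nd (.lf ⟨(nat_lit 77), (nat_lit 2), (nat_lit 833), (nat_lit 2)⟩)
(.lf ⟨(nat_lit 272), (nat_lit 2), (nat_lit 0x404), (nat_lit 2)⟩))
(.lf ⟨(nat_lit 0x58d58d), (nat_lit 4), (nat_lit 0), (nat_lit 0)⟩))))
(.nd (.nd (.nd (.nd (.lf ⟨(nat_lit 390), (nat_lit 2), (nat_lit 0), (nat_lit 0)⟩)
(.lf ⟨(nat_lit 525), (nat_lit 2), (nat_lit 840), (nat_lit 2)⟩))
(.nd (.lf ⟨(nat_lit 392), (nat_lit 2), (nat_lit 518), (nat_lit 2)⟩)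
(.lf ⟨(nat_lit 0x203042), (nat_lit 4), (nat_lit 0x58d248143081), (nat_lit 8)⟩)))
(.nd (.nd (.lf ⟨(nat_lit 585), (nat_lit 2), (nat_lit 0), (nat_lit 0)⟩)
(.lf ⟨(nat_lit 23), (nat_lit 1), (nat_lit 0), (nat_lit 0)⟩))
(.lf ⟨(nat_lit 0x40d), (nat_lit 2), (nat_lit 848), (nat_lit 2)⟩)))
(.nd (.nd (.nd (.lf ⟨(nat_lit 136), (nat_lit 2), (nat_lit 0xc202), (nat_lit 3)⟩)
(.lf ⟨(nat_lit 332), (nat_lit 2), (nat_lit 0x16305), (nat_lit 3)⟩))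
(.lf ⟨(nat_lit 69), (nat_lit 2), (nat_lit 321), (nat_lit 2)⟩))
(.nd (.nd (.lf ⟨(nat_lit 523), (nat_lit 2), (nat_lit 712), (nat_lit 2)⟩)
(.lf ⟨(nat_lit 0xb189), (nat_lit 3), (nat_lit 0x92c6), (nat_lit 3)⟩))
(.lf ⟨(nat_lit 342), (nat_lit 2), (nat_lit 0x585), (nat_lit 2)⟩))))))
(.nd (.nd (.nd (.nd (.nd (.nd (.lf ⟨(nat_lit 130), (nat_lit 2), (nat_lit 0), (nat_lit 0)⟩)
(.lf ⟨(nat_lit 588), (nat_lit 2), (nat_lit 777), (nat_lit 2)⟩))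
(.nd (.lf ⟨(nat_lit 784), (nat_lit 2), (nat_lit 0x40c), (nat_lit 2)⟩)
(.lf ⟨(nat_lit 0x22c6), (nat_lit 3), (nat_lit 0x24b182), (nat_lit 4)⟩)))
(.nd (.nd (.lf ⟨(nat_lit 845), (nat_lit 2), (nat_lit 0), (nat_lit 0)⟩)
(.lf ⟨(nat_lit 328), (nat_lit 2), (nat_lit 0x1640f205), (nat_lit 5)⟩))
(.lf ⟨(nat_lit 201), (nat_lit 2), (nat_lit 579), (nat_lit 2)⟩)))
(.nd (.nd (.nd (.lf ⟨(nat_lit 585), (nat_lit 2), (nat_lit 0), (nat_lit 0)⟩)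
(.lf ⟨(nat_lit 716), (nat_lit 2), (nat_lit 779), (nat_lit 2)⟩))
(.nd (.lf ⟨(nat_lit 781), (nat_lit 2), (nat_lit 844), (nat_lit 2)⟩)
(.lf ⟨(nat_lit 0x203042203042203042203042), (nat_lit 16), (nat_lit 13), (nat_lit 1)⟩)))
(.nd (.nd (.lf ⟨(nat_lit 137), (nat_lit 2), (nat_lit 578), (nat_lit 2)⟩)
(.lf ⟨(nat_lit 328), (nat_lit 2), (nat_lit 0x590205), (nat_lit 4)⟩))
(.lf ⟨(nat_lit 854), (nat_lit 2), (nat_lit 0x58d), (nat_lit 2)⟩))))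
(.nd (.nd (.nd (.nd (.lf ⟨(nat_lit 66), (nat_lit 2), (nat_lit 0x5081), (nat_lit 3)⟩)
(.lf ⟨(nat_lit 521), (nat_lit 2), (nat_lit 0x16248), (nat_lit 3)⟩))
(.nd (.lf ⟨(nat_lit 197), (nat_lit 2), (nat_lit 0x349143), (nat_lit 4)⟩)
(.lf ⟨(nat_lit 0x80c12c6), (nat_lit 5), (nat_lit 0xb1880c1), (nat_lit 5)⟩)))
(.nd (.nd (.lf ⟨(nat_lit 141), (nat_lit 2), (nat_lit 834), (nat_lit 2)⟩)
(.lf ⟨(nat_lit 139), (nat_lit 2), (nat_lit 706), (nat_lit 2)⟩))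
(.lf ⟨(nat_lit 272), (nat_lit 2), (nat_lit 0x17404), (nat_lit 3)⟩)))
(.nd (.nd (.nd (.lf ⟨(nat_lit 780), (nat_lit 2), (nat_lit 0), (nat_lit 0)⟩)
(.lf ⟨(nat_lit 459), (nat_lit 2), (nat_lit 0x172c7), (nat_lit 3)⟩))
(.lf ⟨(nat_lit 131), (nat_lit 2), (nat_lit 0xd0c2), (nat_lit 3)⟩))
(.nd (.nd (.lf ⟨(nat_lit 393), (nat_lit 2), (nat_lit 582), (nat_lit 2)⟩)
(.lf ⟨(nat_lit 0x2c658d), (nat_lit 4), (nat_lit 0x58d2c6), (nat_lit 4)⟩))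
(.lf ⟨(nat_lit 534), (nat_lit 2), (nat_lit 0x588), (nat_lit 2)⟩)))))
(.nd (.nd (.nd (.nd (.nd (.lf ⟨(nat_lit 260), (nat_lit 2), (nat_lit 0), (nat_lit 0)⟩)
(.lf ⟨(nat_lit 717), (nat_lit 2), (nat_lit 843), (nat_lit 2)⟩))
(.nd (.lf ⟨(nat_lit 333), (nat_lit 2), (nat_lit 837), (nat_lit 2)⟩)
(.lf ⟨(nat_lit 0x80c158d), (nat_lit 5), (nat_lit 0x163480c1), (nat_lit 5)⟩)))
(.nd (.nd (.lf ⟨(nat_lit 0x596), (nat_lit 2), (nat_lit 0), (nat_lit 0)⟩)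
(.lf ⟨(nat_lit 0x34b0c204d2c308134b0c204d2c3081), (nat_lit 20), (nat_lit 847), (nat_lit 2)⟩))
(.lf ⟨(nat_lit 336), (nat_lit 2), (nat_lit 0x405), (nat_lit 2)⟩)))
(.nd (.nd (.nd (.lf ⟨(nat_lit 715), (nat_lit 2), (nat_lit 0), (nat_lit 0)⟩)
(.lf ⟨(nat_lit 391), (nat_lit 2), (nat_lit 0x175901c6), (nat_lit 5)⟩))
(.lf ⟨(nat_lit 406), (nat_lit 2), (nat_lit 0x586), (nat_lit 2)⟩))
(.nd (.nd (.lf ⟨(nat_lit 214), (nat_lit 2), (nat_lit 0x583), (nat_lit 2)⟩)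
(.lf ⟨(nat_lit 391), (nat_lit 2), (nat_lit 0x5901c6), (nat_lit 4)⟩))
(.lf ⟨(nat_lit 592), (nat_lit 2), (nat_lit 0x409), (nat_lit 2)⟩))))
(.nd (.nd (.nd (.nd (.lf ⟨(nat_lit 67), (nat_lit 2), (nat_lit 0x60c1), (nat_lit 3)⟩)
(.lf ⟨(nat_lit 204), (nat_lit 2), (nat_lit 771), (nat_lit 2)⟩))
(.nd (.lf ⟨(nat_lit 329), (nat_lit 2), (nat_lit 581), (nat_lit 2)⟩)
(.lf ⟨(nat_lit 0x58d24814308158d248143081), (nat_lit 16), (nat_lit 0x1635030b185), (nat_lit 7)⟩)))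
(.nd (.nd (.lf ⟨(nat_lit 200), (nat_lit 2), (nat_lit 515), (nat_lit 2)⟩)
(.lf ⟨(nat_lit 459), (nat_lit 2), (nat_lit 711), (nat_lit 2)⟩))
(.lf ⟨(nat_lit 726), (nat_lit 2), (nat_lit 0x58b), (nat_lit 2)⟩)))
(.nd (.nd (.nd (.lf ⟨(nat_lit 139), (nat_lit 2), (nat_lit 0xf2c2), (nat_lit 3)⟩)
(.lf ⟨(nat_lit 265), (nat_lit 2), (nat_lit 0x40f244), (nat_lit 4)⟩))
(.lf ⟨(nat_lit 70), (nat_lit 2), (nat_lit 385), (nat_lit 2)⟩))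
(.nd (.nd (.lf ⟨(nat_lit 524), (nat_lit 2), (nat_lit 776), (nat_lit 2)⟩)
(.lf ⟨(nat_lit 0x258d), (nat_lit 3), (nat_lit 0x16342), (nat_lit 3)⟩))
(.lf ⟨(nat_lit 86), (nat_lit 2), (nat_lit 0x581), (nat_lit 2)⟩)))))))

/-- Substitution. -/
def s16 : List (ℕ × ℕ) := [((nat_lit 2), (nat_lit 1)), ((nat_lit 0x80c1), (nat_lit 3)), ((nat_lit 0x58d), (nat_lit 2)), ((nat_lit 9), (nat_lit 1)), ((nat_lit 710), (nat_lit 2))]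

/-- Context. -/
noncomputable def x16 : ℕ → ℕ × ℕ :=
  mkc d14 59 s14 x14 (nth [] (Cl.alts (nsCl 1 [[0, 1], [1, 1], [0]])) 1)

set_option maxRecDepth 100000 in
/-- Facts. -/
noncomputable def d17 : Tr :=
(.nd (.nd (.nd (.lf ⟨(nat_lit 131), (nat_lit 2), (nat_lit 0xd0c2), (nat_lit 3)⟩)
(.lf ⟨(nat_lit 131), (nat_lit 2), (nat_lit 194), (nat_lit 2)⟩))
(.lf ⟨(nat_lit 0x203042203042203042203042), (nat_lit 16), (nat_lit 0), (nat_lit 0)⟩))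
(.nd (.lf ⟨(nat_lit 0x203042203042203042203042), (nat_lit 16), (nat_lit 13), (nat_lit 1)⟩)
(.lf ⟨(nat_lit 13), (nat_lit 1), (nat_lit 0), (nat_lit 0)⟩)))

/-- Context. -/
noncomputable def x17 : ℕ → ℕ × ℕ :=
  mkc d16 106 s16 x16 (nth [] (Cl.alts (nsCl 3 [[0, 1, 2, 6], [4, 1, 3, 4], [0], [0, 1], [0, 1, 2]])) 0)

set_option maxRecDepth 100000 in
/-- Facts. -/
noncomputable def d18 : Tr :=
(.nd (.nd (.nd (.nd (.nd (.nd (.lf ⟨(nat_lit 130), (nat_lit 2), (nat_lit 0), (nat_lit 0)⟩)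
(.lf ⟨(nat_lit 332), (nat_lit 2), (nat_lit 0x16305), (nat_lit 3)⟩))
(.nd (.lf ⟨(nat_lit 140), (nat_lit 2), (nat_lit 770), (nat_lit 2)⟩)
(.lf ⟨(nat_lit 391), (nat_lit 2), (nat_lit 0x101c6), (nat_lit 3)⟩)))
(.nd (.nd (.lf ⟨(nat_lit 136), (nat_lit 2), (nat_lit 0xc202), (nat_lit 3)⟩)
(.lf ⟨(nat_lit 22), (nat_lit 1), (nat_lit 0), (nat_lit 0)⟩))
(.lf ⟨(nat_lit 456), (nat_lit 2), (nat_lit 0x11207), (nat_lit 3)⟩)))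
(.nd (.nd (.nd (.lf ⟨(nat_lit 132), (nat_lit 2), (nat_lit 0x7102), (nat_lit 3)⟩)
(.lf ⟨(nat_lit 328), (nat_lit 2), (nat_lit 0x590205), (nat_lit 4)⟩))
(.nd (.lf ⟨(nat_lit 781), (nat_lit 2), (nat_lit 844), (nat_lit 2)⟩)
(.lf ⟨(nat_lit 0x34c20734c207), (nat_lit 8), (nat_lit 17), (nat_lit 1)⟩)))
(.nd (.nd (.lf ⟨(nat_lit 260), (nat_lit 2), (nat_lit 0), (nat_lit 0)⟩)
(.lf ⟨(nat_lit 144), (nat_lit 2), (nat_lit 0x402), (nat_lit 2)⟩))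
(.lf ⟨(nat_lit 0x308d), (nat_lit 3), (nat_lit 0xd0c2), (nat_lit 3)⟩))))
(.nd (.nd (.nd (.nd (.lf ⟨(nat_lit 260), (nat_lit 2), (nat_lit 0), (nat_lit 0)⟩)
(.lf ⟨(nat_lit 269), (nat_lit 2), (nat_lit 836), (nat_lit 2)⟩))
(.nd (.lf ⟨(nat_lit 524), (nat_lit 2), (nat_lit 776), (nat_lit 2)⟩)
(.lf ⟨(nat_lit 0x3084), (nat_lit 3), (nat_lit 0x3081c40c2), (nat_lit 6)⟩)))
(.nd (.nd (.lf ⟨(nat_lit 845), (nat_lit 2), (nat_lit 0), (nat_lit 0)⟩)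
(.lf ⟨(nat_lit 396), (nat_lit 2), (nat_lit 774), (nat_lit 2)⟩))
(.lf ⟨(nat_lit 521), (nat_lit 2), (nat_lit 0x16248), (nat_lit 3)⟩)))
(.nd (.nd (.nd (.lf ⟨(nat_lit 196), (nat_lit 2), (nat_lit 0x8103), (nat_lit 3)⟩)
(.lf ⟨(nat_lit 0x203042203042203042203042), (nat_lit 16), (nat_lit 13), (nat_lit 1)⟩))
(.lf ⟨(nat_lit 460), (nat_lit 2), (nat_lit 775), (nat_lit 2)⟩))
(.nd (.nd (.lf ⟨(nat_lit 135), (nat_lit 2), (nat_lit 450), (nat_lit 2)⟩)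
(.lf ⟨(nat_lit 457), (nat_lit 2), (nat_lit 583), (nat_lit 2)⟩))
(.lf ⟨(nat_lit 525), (nat_lit 2), (nat_lit 840), (nat_lit 2)⟩)))))
(.nd (.nd (.nd (.nd (.nd (.lf ⟨(nat_lit 195), (nat_lit 2), (nat_lit 0), (nat_lit 0)⟩)
(.lf ⟨(nat_lit 457), (nat_lit 2), (nat_lit 0x16247), (nat_lit 3)⟩))
(.nd (.lf ⟨(nat_lit 205), (nat_lit 2), (nat_lit 835), (nat_lit 2)⟩)
(.lf ⟨(nat_lit 269), (nat_lit 2), (nat_lit 836), (nat_lit 2)⟩)))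
(.nd (.nd (.lf ⟨(nat_lit 0x451), (nat_lit 2), (nat_lit 0), (nat_lit 0)⟩)
(.lf ⟨(nat_lit 208), (nat_lit 2), (nat_lit 0x403), (nat_lit 2)⟩))
(.lf ⟨(nat_lit 396), (nat_lit 2), (nat_lit 0x16306), (nat_lit 3)⟩)))
(.nd (.nd (.nd (.lf ⟨(nat_lit 520), (nat_lit 2), (nat_lit 0), (nat_lit 0)⟩)
(.lf ⟨(nat_lit 391), (nat_lit 2), (nat_lit 0x5901c6), (nat_lit 4)⟩))
(.nd (.lf ⟨(nat_lit 131), (nat_lit 2), (nat_lit 0xd0c2), (nat_lit 3)⟩)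
(.lf ⟨(nat_lit 0xc21030840c2103084), (nat_lit 12), (nat_lit 17), (nat_lit 1)⟩)))
(.nd (.nd (.lf ⟨(nat_lit 845), (nat_lit 2), (nat_lit 0), (nat_lit 0)⟩)
(.lf ⟨(nat_lit 332), (nat_lit 2), (nat_lit 773), (nat_lit 2)⟩))
(.lf ⟨(nat_lit 461), (nat_lit 2), (nat_lit 839), (nat_lit 2)⟩))))
(.nd (.nd (.nd (.nd (.lf ⟨(nat_lit 455), (nat_lit 2), (nat_lit 0), (nat_lit 0)⟩)
(.lf ⟨(nat_lit 199), (nat_lit 2), (nat_lit 0x44c1c3), (nat_lit 4)⟩))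
(.nd (.lf ⟨(nat_lit 785), (nat_lit 2), (nat_lit 0x44c), (nat_lit 2)⟩)
(.lf ⟨(nat_lit 0x3081c40c23081c40c2), (nat_lit 12), (nat_lit 0x34c207), (nat_lit 4)⟩)))
(.nd (.nd (.lf ⟨(nat_lit 208), (nat_lit 2), (nat_lit 0x16403), (nat_lit 3)⟩)
(.lf ⟨(nat_lit 521), (nat_lit 2), (nat_lit 584), (nat_lit 2)⟩))
(.lf ⟨(nat_lit 0xc20c2), (nat_lit 4), (nat_lit 13), (nat_lit 1)⟩)))
(.nd (.nd (.nd (.lf ⟨(nat_lit 780), (nat_lit 2), (nat_lit 0), (nat_lit 0)⟩)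
(.lf ⟨(nat_lit 0x203042203042203042203042), (nat_lit 16), (nat_lit 0x58d), (nat_lit 2)⟩))
(.lf ⟨(nat_lit 529), (nat_lit 2), (nat_lit 0x448), (nat_lit 2)⟩))
(.nd (.nd (.lf ⟨(nat_lit 200), (nat_lit 2), (nat_lit 515), (nat_lit 2)⟩)
(.lf ⟨(nat_lit 328), (nat_lit 2), (nat_lit 0x10205), (nat_lit 3)⟩))
(.lf ⟨(nat_lit 144), (nat_lit 2), (nat_lit 0x16402), (nat_lit 3)⟩))))))

/-- Substitution. -/
def s18 : List (ℕ × ℕ) := [((nat_lit 4), (nat_lit 1)), ((nat_lit 194), (nat_lit 2)), ((nat_lit 13), (nat_lit 1))]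

/-- Context. -/
noncomputable def x18 : ℕ → ℕ × ℕ :=
  mkc d16 106 s16 x16 (nth [] (Cl.alts (nsCl 3 [[0, 1, 2, 6], [4, 1, 3, 4], [0], [0, 1], [0, 1, 2]])) 1)

set_option maxRecDepth 100000 in
/-- Facts. -/
noncomputable def d19 : Tr :=
(.nd (.nd (.nd (.nd (.nd (.nd (.nd (.lf ⟨(nat_lit 65), (nat_lit 2), (nat_lit 0), (nat_lit 0)⟩)
(.lf ⟨(nat_lit 0x350350), (nat_lit 4), (nat_lit 0), (nat_lit 0)⟩))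
(.nd (.lf ⟨(nat_lit 77), (nat_lit 2), (nat_lit 833), (nat_lit 2)⟩)
(.lf ⟨(nat_lit 199), (nat_lit 2), (nat_lit 0xc1c3), (nat_lit 3)⟩)))
(.nd (.nd (.lf ⟨(nat_lit 71), (nat_lit 2), (nat_lit 0xa1c1), (nat_lit 3)⟩)
(.lf ⟨(nat_lit 199), (nat_lit 2), (nat_lit 0x44c1c3), (nat_lit 4)⟩))
(.lf ⟨(nat_lit 133), (nat_lit 2), (nat_lit 322), (nat_lit 2)⟩)))
(.nd (.nd (.nd (.lf ⟨(nat_lit 67), (nat_lit 2), (nat_lit 0x60c1), (nat_lit 3)⟩)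
(.lf ⟨(nat_lit 525), (nat_lit 2), (nat_lit 840), (nat_lit 2)⟩))
(.nd (.lf ⟨(nat_lit 784), (nat_lit 2), (nat_lit 0x40c), (nat_lit 2)⟩)
(.lf ⟨(nat_lit 0x40c2071440c20503081c5103081), (nat_lit 18), (nat_lit 0x1030b207185), (nat_lit 7)⟩)))
(.nd (.nd (.lf ⟨(nat_lit 73), (nat_lit 2), (nat_lit 0xd241), (nat_lit 3)⟩)
(.lf ⟨(nat_lit 332), (nat_lit 2), (nat_lit 773), (nat_lit 2)⟩))
(.lf ⟨(nat_lit 326), (nat_lit 2), (nat_lit 0xd185), (nat_lit 3)⟩))))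
(.nd (.nd (.nd (.nd (.lf ⟨(nat_lit 68), (nat_lit 2), (nat_lit 257), (nat_lit 2)⟩)
(.lf ⟨(nat_lit 588), (nat_lit 2), (nat_lit 777), (nat_lit 2)⟩))
(.nd (.lf ⟨(nat_lit 523), (nat_lit 2), (nat_lit 712), (nat_lit 2)⟩)
(.lf ⟨(nat_lit 0x1430850c2), (nat_lit 6), (nat_lit 9), (nat_lit 1)⟩)))
(.nd (.nd (.lf ⟨(nat_lit 136), (nat_lit 2), (nat_lit 0xc202), (nat_lit 3)⟩)
(.lf ⟨(nat_lit 208), (nat_lit 2), (nat_lit 0x403), (nat_lit 2)⟩))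
(.lf ⟨(nat_lit 327), (nat_lit 2), (nat_lit 453), (nat_lit 2)⟩)))
(.nd (.nd (.nd (.lf ⟨(nat_lit 196), (nat_lit 2), (nat_lit 0x8103), (nat_lit 3)⟩)
(.lf ⟨(nat_lit 394), (nat_lit 2), (nat_lit 646), (nat_lit 2)⟩))
(.lf ⟨(nat_lit 392), (nat_lit 2), (nat_lit 518), (nat_lit 2)⟩))
(.nd (.nd (.lf ⟨(nat_lit 135), (nat_lit 2), (nat_lit 450), (nat_lit 2)⟩)
(.lf ⟨(nat_lit 0xc21030840c2103084), (nat_lit 12), (nat_lit 17), (nat_lit 1)⟩))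
(.lf ⟨(nat_lit 336), (nat_lit 2), (nat_lit 0x405), (nat_lit 2)⟩)))))
(.nd (.nd (.nd (.nd (.nd (.lf ⟨(nat_lit 195), (nat_lit 2), (nat_lit 0), (nat_lit 0)⟩)
(.lf ⟨(nat_lit 656), (nat_lit 2), (nat_lit 0x40a), (nat_lit 2)⟩))
(.nd (.lf ⟨(nat_lit 205), (nat_lit 2), (nat_lit 835), (nat_lit 2)⟩)
(.lf ⟨(nat_lit 0x101350), (nat_lit 4), (nat_lit 0x350101), (nat_lit 4)⟩)))
(.nd (.nd (.lf ⟨(nat_lit 72), (nat_lit 2), (nat_lit 0xb201), (nat_lit 3)⟩)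
(.lf ⟨(nat_lit 265), (nat_lit 2), (nat_lit 0x10244), (nat_lit 3)⟩))
(.lf ⟨(nat_lit 198), (nat_lit 2), (nat_lit 387), (nat_lit 2)⟩)))
(.nd (.nd (.nd (.lf ⟨(nat_lit 132), (nat_lit 2), (nat_lit 0x7102), (nat_lit 3)⟩)
(.lf ⟨(nat_lit 716), (nat_lit 2), (nat_lit 779), (nat_lit 2)⟩))
(.nd (.lf ⟨(nat_lit 395), (nat_lit 2), (nat_lit 710), (nat_lit 2)⟩)
(.lf ⟨(nat_lit 0x1430840450c21011430840450c2101), (nat_lit 20), (nat_lit 13), (nat_lit 1)⟩)))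
(.nd (.nd (.lf ⟨(nat_lit 0x101101), (nat_lit 4), (nat_lit 0), (nat_lit 0)⟩)
(.lf ⟨(nat_lit 328), (nat_lit 2), (nat_lit 0x10205), (nat_lit 3)⟩))
(.lf ⟨(nat_lit 460), (nat_lit 2), (nat_lit 775), (nat_lit 2)⟩))))
(.nd (.nd (.nd (.nd (.lf ⟨(nat_lit 66), (nat_lit 2), (nat_lit 0x5081), (nat_lit 3)⟩)
(.lf ⟨(nat_lit 586), (nat_lit 2), (nat_lit 649), (nat_lit 2)⟩))
(.nd (.lf ⟨(nat_lit 524), (nat_lit 2), (nat_lit 776), (nat_lit 2)⟩)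
(.lf ⟨(nat_lit 0x143089), (nat_lit 4), (nat_lit 0x2450c2), (nat_lit 4)⟩)))
(.nd (.nd (.lf ⟨(nat_lit 76), (nat_lit 2), (nat_lit 0x10301), (nat_lit 3)⟩)
(.lf ⟨(nat_lit 521), (nat_lit 2), (nat_lit 584), (nat_lit 2)⟩))
(.lf ⟨(nat_lit 261), (nat_lit 2), (nat_lit 0xa144), (nat_lit 3)⟩)))
(.nd (.nd (.nd (.lf ⟨(nat_lit 134), (nat_lit 2), (nat_lit 0x9182), (nat_lit 3)⟩)
(.lf ⟨(nat_lit 331), (nat_lit 2), (nat_lit 709), (nat_lit 2)⟩))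
(.lf ⟨(nat_lit 397), (nat_lit 2), (nat_lit 838), (nat_lit 2)⟩))
(.nd (.nd (.lf ⟨(nat_lit 137), (nat_lit 2), (nat_lit 578), (nat_lit 2)⟩)
(.lf ⟨(nat_lit 17), (nat_lit 1), (nat_lit 0), (nat_lit 0)⟩))
(.lf ⟨(nat_lit 720), (nat_lit 2), (nat_lit 0x40b), (nat_lit 2)⟩))))))
(.nd (.nd (.nd (.nd (.nd (.nd (.lf ⟨(nat_lit 130), (nat_lit 2), (nat_lit 0), (nat_lit 0)⟩)
(.lf ⟨(nat_lit 592), (nat_lit 2), (nat_lit 0x409), (nat_lit 2)⟩))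
(.nd (.lf ⟨(nat_lit 80), (nat_lit 2), (nat_lit 0x401), (nat_lit 2)⟩)
(.lf ⟨(nat_lit 0x9350), (nat_lit 3), (nat_lit 0xd409), (nat_lit 3)⟩)))
(.nd (.nd (.lf ⟨(nat_lit 715), (nat_lit 2), (nat_lit 0), (nat_lit 0)⟩)
(.lf ⟨(nat_lit 459), (nat_lit 2), (nat_lit 711), (nat_lit 2)⟩))
(.lf ⟨(nat_lit 781), (nat_lit 2), (nat_lit 844), (nat_lit 2)⟩)))
(.nd (.nd (.nd (.lf ⟨(nat_lit 455), (nat_lit 2), (nat_lit 0), (nat_lit 0)⟩)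
(.lf ⟨(nat_lit 587), (nat_lit 2), (nat_lit 713), (nat_lit 2)⟩))
(.nd (.lf ⟨(nat_lit 333), (nat_lit 2), (nat_lit 837), (nat_lit 2)⟩)
(.lf ⟨(nat_lit 0x40c2c81c615030b207185), (nat_lit 14), (nat_lit 13), (nat_lit 1)⟩)))
(.nd (.nd (.lf ⟨(nat_lit 141), (nat_lit 2), (nat_lit 834), (nat_lit 2)⟩)
(.lf ⟨(nat_lit 457), (nat_lit 2), (nat_lit 583), (nat_lit 2)⟩))
(.lf ⟨(nat_lit 201), (nat_lit 2), (nat_lit 579), (nat_lit 2)⟩))))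
(.nd (.nd (.nd (.nd (.lf ⟨(nat_lit 325), (nat_lit 2), (nat_lit 0), (nat_lit 0)⟩)
(.lf ⟨(nat_lit 717), (nat_lit 2), (nat_lit 843), (nat_lit 2)⟩))
(.nd (.lf ⟨(nat_lit 458), (nat_lit 2), (nat_lit 647), (nat_lit 2)⟩)
(.lf ⟨(nat_lit 0x50c2350), (nat_lit 5), (nat_lit 0xd4050c2), (nat_lit 5)⟩)))
(.nd (.nd (.lf ⟨(nat_lit 0x410), (nat_lit 2), (nat_lit 0), (nat_lit 0)⟩)
(.lf ⟨(nat_lit 396), (nat_lit 2), (nat_lit 774), (nat_lit 2)⟩))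
(.lf ⟨(nat_lit 69), (nat_lit 2), (nat_lit 321), (nat_lit 2)⟩)))
(.nd (.nd (.nd (.lf ⟨(nat_lit 585), (nat_lit 2), (nat_lit 0), (nat_lit 0)⟩)
(.lf ⟨(nat_lit 464), (nat_lit 2), (nat_lit 0x407), (nat_lit 2)⟩))
(.lf ⟨(nat_lit 329), (nat_lit 2), (nat_lit 581), (nat_lit 2)⟩))
(.nd (.nd (.lf ⟨(nat_lit 200), (nat_lit 2), (nat_lit 515), (nat_lit 2)⟩)
(.lf ⟨(nat_lit 0xc21030840c2103084), (nat_lit 12), (nat_lit 0), (nat_lit 0)⟩))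
(.lf ⟨(nat_lit 456), (nat_lit 2), (nat_lit 0x11207), (nat_lit 3)⟩)))))
(.nd (.nd (.nd (.nd (.nd (.lf ⟨(nat_lit 260), (nat_lit 2), (nat_lit 0), (nat_lit 0)⟩)
(.lf ⟨(nat_lit 653), (nat_lit 2), (nat_lit 842), (nat_lit 2)⟩))
(.nd (.lf ⟨(nat_lit 393), (nat_lit 2), (nat_lit 582), (nat_lit 2)⟩)
(.lf ⟨(nat_lit 0x4049), (nat_lit 3), (nat_lit 0xd409101), (nat_lit 5)⟩)))
(.nd (.nd (.lf ⟨(nat_lit 780), (nat_lit 2), (nat_lit 0), (nat_lit 0)⟩)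
(.lf ⟨(nat_lit 272), (nat_lit 2), (nat_lit 0x404), (nat_lit 2)⟩))
(.lf ⟨(nat_lit 131), (nat_lit 2), (nat_lit 0xd0c2), (nat_lit 3)⟩)))
(.nd (.nd (.nd (.lf ⟨(nat_lit 520), (nat_lit 2), (nat_lit 0), (nat_lit 0)⟩)
(.lf ⟨(nat_lit 528), (nat_lit 2), (nat_lit 0x408), (nat_lit 2)⟩))
(.lf ⟨(nat_lit 197), (nat_lit 2), (nat_lit 0x349143), (nat_lit 4)⟩))
(.nd (.nd (.lf ⟨(nat_lit 585), (nat_lit 2), (nat_lit 0), (nat_lit 0)⟩)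
(.lf ⟨(nat_lit 391), (nat_lit 2), (nat_lit 0x101c6), (nat_lit 3)⟩))
(.lf ⟨(nat_lit 651), (nat_lit 2), (nat_lit 714), (nat_lit 2)⟩))))
(.nd (.nd (.nd (.nd (.lf ⟨(nat_lit 390), (nat_lit 2), (nat_lit 0), (nat_lit 0)⟩)
(.lf ⟨(nat_lit 461), (nat_lit 2), (nat_lit 839), (nat_lit 2)⟩))
(.nd (.lf ⟨(nat_lit 589), (nat_lit 2), (nat_lit 841), (nat_lit 2)⟩)
(.lf ⟨(nat_lit 0x50c2101), (nat_lit 5), (nat_lit 0x103081c5103081), (nat_lit 9)⟩)))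
(.nd (.nd (.lf ⟨(nat_lit 845), (nat_lit 2), (nat_lit 0), (nat_lit 0)⟩)
(.lf ⟨(nat_lit 144), (nat_lit 2), (nat_lit 0x402), (nat_lit 2)⟩))
(.lf ⟨(nat_lit 262), (nat_lit 2), (nat_lit 0xb184), (nat_lit 3)⟩)))
(.nd (.nd (.nd (.lf ⟨(nat_lit 650), (nat_lit 2), (nat_lit 0), (nat_lit 0)⟩)
(.lf ⟨(nat_lit 269), (nat_lit 2), (nat_lit 836), (nat_lit 2)⟩))
(.lf ⟨(nat_lit 330), (nat_lit 2), (nat_lit 645), (nat_lit 2)⟩))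
(.nd (.nd (.lf ⟨(nat_lit 140), (nat_lit 2), (nat_lit 770), (nat_lit 2)⟩)
(.lf ⟨(nat_lit 456), (nat_lit 2), (nat_lit 519), (nat_lit 2)⟩))
(.lf ⟨(nat_lit 0x40d), (nat_lit 2), (nat_lit 848), (nat_lit 2)⟩)))))))

/-- Substitution. -/
def s19 : List (ℕ × ℕ) := [((nat_lit 257), (nat_lit 2)), ((nat_lit 0x50c2), (nat_lit 3)), ((nat_lit 848), (nat_lit 2)), ((nat_lit 9), (nat_lit 1))]

/-- Context. -/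
noncomputable def x19 : ℕ → ℕ × ℕ :=
  mkc d18 54 s18 x18 (nth [] (Cl.alts (nsCl 1 [[0, 1], [1, 1], [0]])) 0)

set_option maxRecDepth 100000 in
/-- Facts. -/
noncomputable def d20 : Tr :=
(.nd (.nd (.nd (.lf ⟨(nat_lit 131), (nat_lit 2), (nat_lit 0xd0c2), (nat_lit 3)⟩)
(.lf ⟨(nat_lit 131), (nat_lit 2), (nat_lit 194), (nat_lit 2)⟩))
(.lf ⟨(nat_lit 0x1430840450c21011430840450c2101), (nat_lit 20), (nat_lit 0), (nat_lit 0)⟩))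
(.nd (.lf ⟨(nat_lit 0x1430840450c21011430840450c2101), (nat_lit 20), (nat_lit 13), (nat_lit 1)⟩)
(.lf ⟨(nat_lit 13), (nat_lit 1), (nat_lit 0), (nat_lit 0)⟩)))

/-- Context. -/
noncomputable def x20 : ℕ → ℕ × ℕ :=
  mkc d19 107 s19 x19 (nth [] (Cl.alts (nsCl 2 [[0, 1, 3], [2, 1, 2], [0], [0, 1]])) 0)

set_option maxRecDepth 100000 in
/-- Facts. -/
noncomputable def d21 : Tr :=
(.nd (.nd (.nd (.nd (.nd (.nd (.nd (.lf ⟨(nat_lit 65), (nat_lit 2), (nat_lit 0), (nat_lit 0)⟩)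
(.lf ⟨(nat_lit 0x480c20480c20480c20480c2), (nat_lit 16), (nat_lit 13), (nat_lit 1)⟩))
(.lf ⟨(nat_lit 781), (nat_lit 2), (nat_lit 844), (nat_lit 2)⟩))
(.nd (.lf ⟨(nat_lit 65), (nat_lit 2), (nat_lit 0), (nat_lit 0)⟩)
(.lf ⟨(nat_lit 332), (nat_lit 2), (nat_lit 773), (nat_lit 2)⟩)))
(.nd (.nd (.lf ⟨(nat_lit 585), (nat_lit 2), (nat_lit 0), (nat_lit 0)⟩)
(.lf ⟨(nat_lit 525), (nat_lit 2), (nat_lit 840), (nat_lit 2)⟩))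
(.nd (.lf ⟨(nat_lit 524), (nat_lit 2), (nat_lit 776), (nat_lit 2)⟩)
(.lf ⟨(nat_lit 328), (nat_lit 2), (nat_lit 517), (nat_lit 2)⟩))))
(.nd (.nd (.nd (.lf ⟨(nat_lit 66), (nat_lit 2), (nat_lit 0x5081), (nat_lit 3)⟩)
(.lf ⟨(nat_lit 326), (nat_lit 2), (nat_lit 0xd185), (nat_lit 3)⟩))
(.nd (.lf ⟨(nat_lit 140), (nat_lit 2), (nat_lit 770), (nat_lit 2)⟩)
(.lf ⟨(nat_lit 0x1430840450c21011430840450c2101), (nat_lit 20), (nat_lit 848), (nat_lit 2)⟩)))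
(.nd (.nd (.lf ⟨(nat_lit 136), (nat_lit 2), (nat_lit 0xc202), (nat_lit 3)⟩)
(.lf ⟨(nat_lit 331), (nat_lit 2), (nat_lit 709), (nat_lit 2)⟩))
(.nd (.lf ⟨(nat_lit 197), (nat_lit 2), (nat_lit 0x349143), (nat_lit 4)⟩)
(.lf ⟨(nat_lit 0x134c), (nat_lit 3), (nat_lit 0xd301), (nat_lit 3)⟩)))))
(.nd (.nd (.nd (.nd (.lf ⟨(nat_lit 195), (nat_lit 2), (nat_lit 0), (nat_lit 0)⟩)
(.lf ⟨(nat_lit 69), (nat_lit 2), (nat_lit 321), (nat_lit 2)⟩))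
(.nd (.lf ⟨(nat_lit 200), (nat_lit 2), (nat_lit 515), (nat_lit 2)⟩)
(.lf ⟨(nat_lit 391), (nat_lit 2), (nat_lit 0x101c6), (nat_lit 3)⟩)))
(.nd (.nd (.lf ⟨(nat_lit 72), (nat_lit 2), (nat_lit 0xb201), (nat_lit 3)⟩)
(.lf ⟨(nat_lit 587), (nat_lit 2), (nat_lit 713), (nat_lit 2)⟩))
(.nd (.lf ⟨(nat_lit 333), (nat_lit 2), (nat_lit 837), (nat_lit 2)⟩)
(.lf ⟨(nat_lit 0x2030880c2), (nat_lit 6), (nat_lit 844), (nat_lit 2)⟩))))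
(.nd (.nd (.nd (.lf ⟨(nat_lit 67), (nat_lit 2), (nat_lit 0x60c1), (nat_lit 3)⟩)
(.lf ⟨(nat_lit 588), (nat_lit 2), (nat_lit 777), (nat_lit 2)⟩))
(.nd (.lf ⟨(nat_lit 205), (nat_lit 2), (nat_lit 835), (nat_lit 2)⟩)
(.lf ⟨(nat_lit 76), (nat_lit 2), (nat_lit 769), (nat_lit 2)⟩)))
(.nd (.nd (.lf ⟨(nat_lit 845), (nat_lit 2), (nat_lit 0), (nat_lit 0)⟩)
(.lf ⟨(nat_lit 396), (nat_lit 2), (nat_lit 774), (nat_lit 2)⟩))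
(.nd (.lf ⟨(nat_lit 329), (nat_lit 2), (nat_lit 581), (nat_lit 2)⟩)
(.lf ⟨(nat_lit 0x34b2481850c204d2c9206143081), (nat_lit 18), (nat_lit 0xc2c9185), (nat_lit 5)⟩))))))
(.nd (.nd (.nd (.nd (.nd (.lf ⟨(nat_lit 130), (nat_lit 2), (nat_lit 0), (nat_lit 0)⟩)
(.lf ⟨(nat_lit 131), (nat_lit 2), (nat_lit 0xd0c2), (nat_lit 3)⟩))
(.nd (.lf ⟨(nat_lit 141), (nat_lit 2), (nat_lit 834), (nat_lit 2)⟩)
(.lf ⟨(nat_lit 328), (nat_lit 2), (nat_lit 0x10205), (nat_lit 3)⟩)))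
(.nd (.nd (.lf ⟨(nat_lit 715), (nat_lit 2), (nat_lit 0), (nat_lit 0)⟩)
(.lf ⟨(nat_lit 204), (nat_lit 2), (nat_lit 771), (nat_lit 2)⟩))
(.nd (.lf ⟨(nat_lit 589), (nat_lit 2), (nat_lit 841), (nat_lit 2)⟩)
(.lf ⟨(nat_lit 391), (nat_lit 2), (nat_lit 454), (nat_lit 2)⟩))))
(.nd (.nd (.nd (.lf ⟨(nat_lit 390), (nat_lit 2), (nat_lit 0), (nat_lit 0)⟩)
(.lf ⟨(nat_lit 0x34c34c), (nat_lit 4), (nat_lit 0), (nat_lit 0)⟩))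
(.nd (.lf ⟨(nat_lit 77), (nat_lit 2), (nat_lit 833), (nat_lit 2)⟩)
(.lf ⟨(nat_lit 16), (nat_lit 1), (nat_lit 0), (nat_lit 0)⟩)))
(.nd (.nd (.lf ⟨(nat_lit 76), (nat_lit 2), (nat_lit 0x10301), (nat_lit 3)⟩)
(.lf ⟨(nat_lit 265), (nat_lit 2), (nat_lit 0x10244), (nat_lit 3)⟩))
(.nd (.lf ⟨(nat_lit 392), (nat_lit 2), (nat_lit 518), (nat_lit 2)⟩)
(.lf ⟨(nat_lit 0x480c2), (nat_lit 4), (nat_lit 0xd2c9206143081), (nat_lit 9)⟩)))))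
(.nd (.nd (.nd (.nd (.lf ⟨(nat_lit 325), (nat_lit 2), (nat_lit 0), (nat_lit 0)⟩)
(.lf ⟨(nat_lit 70), (nat_lit 2), (nat_lit 385), (nat_lit 2)⟩))
(.nd (.lf ⟨(nat_lit 75), (nat_lit 2), (nat_lit 705), (nat_lit 2)⟩)
(.lf ⟨(nat_lit 0x1430840450c21011430840450c2101), (nat_lit 20), (nat_lit 13), (nat_lit 1)⟩)))
(.nd (.nd (.lf ⟨(nat_lit 780), (nat_lit 2), (nat_lit 0), (nat_lit 0)⟩)
(.lf ⟨(nat_lit 716), (nat_lit 2), (nat_lit 779), (nat_lit 2)⟩))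
(.nd (.lf ⟨(nat_lit 395), (nat_lit 2), (nat_lit 710), (nat_lit 2)⟩)
(.lf ⟨(nat_lit 0x80c234c), (nat_lit 5), (nat_lit 0xd3080c2), (nat_lit 5)⟩))))
(.nd (.nd (.nd (.lf ⟨(nat_lit 520), (nat_lit 2), (nat_lit 0), (nat_lit 0)⟩)
(.lf ⟨(nat_lit 717), (nat_lit 2), (nat_lit 843), (nat_lit 2)⟩))
(.nd (.lf ⟨(nat_lit 393), (nat_lit 2), (nat_lit 582), (nat_lit 2)⟩)
(.lf ⟨(nat_lit 265), (nat_lit 2), (nat_lit 580), (nat_lit 2)⟩)))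
(.nd (.nd (.lf ⟨(nat_lit 73), (nat_lit 2), (nat_lit 0xd241), (nat_lit 3)⟩)
(.lf ⟨(nat_lit 521), (nat_lit 2), (nat_lit 584), (nat_lit 2)⟩))
(.nd (.lf ⟨(nat_lit 397), (nat_lit 2), (nat_lit 838), (nat_lit 2)⟩)
(.lf ⟨(nat_lit 0x30b24614c2c9185), (nat_lit 10), (nat_lit 13), (nat_lit 1)⟩)))))))

/-- Substitution. -/
def s21 : List (ℕ × ℕ) := [((nat_lit 0x80c2), (nat_lit 3)), ((nat_lit 1), (nat_lit 1)), ((nat_lit 844), (nat_lit 2))]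

/-- Context. -/
noncomputable def x21 : ℕ → ℕ × ℕ :=
  mkc d19 107 s19 x19 (nth [] (Cl.alts (nsCl 2 [[0, 1, 3], [2, 1, 2], [0], [0, 1]])) 1)

set_option maxRecDepth 100000 in
/-- Facts. -/
noncomputable def d22 : Tr :=
(.nd (.nd (.nd (.lf ⟨(nat_lit 131), (nat_lit 2), (nat_lit 0xd0c2), (nat_lit 3)⟩)
(.lf ⟨(nat_lit 131), (nat_lit 2), (nat_lit 194), (nat_lit 2)⟩))
(.lf ⟨(nat_lit 0x480c20480c20480c20480c2), (nat_lit 16), (nat_lit 0), (nat_lit 0)⟩))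
(.nd (.lf ⟨(nat_lit 0x480c20480c20480c20480c2), (nat_lit 16), (nat_lit 13), (nat_lit 1)⟩)
(.lf ⟨(nat_lit 13), (nat_lit 1), (nat_lit 0), (nat_lit 0)⟩)))

/-- Context. -/
noncomputable def x22 : ℕ → ℕ × ℕ :=
  mkc d21 65 s21 x21 (nth [] (Cl.alts (nsCl 1 [[1, 1], [0, 1], [0]])) 0)

set_option maxRecDepth 100000 in
/-- Facts. -/
noncomputable def d23 : Tr :=
(.nd (.nd (.nd (.nd (.nd (.nd (.nd (.lf ⟨(nat_lit 65), (nat_lit 2), (nat_lit 0), (nat_lit 0)⟩)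
(.lf ⟨(nat_lit 139), (nat_lit 2), (nat_lit 706), (nat_lit 2)⟩))
(.lf ⟨(nat_lit 393), (nat_lit 2), (nat_lit 582), (nat_lit 2)⟩))
(.nd (.nd (.lf ⟨(nat_lit 71), (nat_lit 2), (nat_lit 0xa1c1), (nat_lit 3)⟩)
(.lf ⟨(nat_lit 0x12ca), (nat_lit 3), (nat_lit 0xb281), (nat_lit 3)⟩))
(.lf ⟨(nat_lit 262), (nat_lit 2), (nat_lit 0xb184), (nat_lit 3)⟩)))
(.nd (.nd (.nd (.lf ⟨(nat_lit 67), (nat_lit 2), (nat_lit 0x60c1), (nat_lit 3)⟩)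
(.lf ⟨(nat_lit 391), (nat_lit 2), (nat_lit 454), (nat_lit 2)⟩))
(.lf ⟨(nat_lit 397), (nat_lit 2), (nat_lit 838), (nat_lit 2)⟩))
(.nd (.nd (.lf ⟨(nat_lit 200), (nat_lit 2), (nat_lit 515), (nat_lit 2)⟩)
(.lf ⟨(nat_lit 0x103081103081103081103081), (nat_lit 16), (nat_lit 13), (nat_lit 1)⟩))
(.lf ⟨(nat_lit 586), (nat_lit 2), (nat_lit 649), (nat_lit 2)⟩))))
(.nd (.nd (.nd (.nd (.lf ⟨(nat_lit 68), (nat_lit 2), (nat_lit 257), (nat_lit 2)⟩)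
(.lf ⟨(nat_lit 456), (nat_lit 2), (nat_lit 519), (nat_lit 2)⟩))
(.lf ⟨(nat_lit 333), (nat_lit 2), (nat_lit 837), (nat_lit 2)⟩))
(.nd (.nd (.lf ⟨(nat_lit 845), (nat_lit 2), (nat_lit 0), (nat_lit 0)⟩)
(.lf ⟨(nat_lit 0x10308d207), (nat_lit 6), (nat_lit 0x3481c40c2), (nat_lit 6)⟩))
(.lf ⟨(nat_lit 651), (nat_lit 2), (nat_lit 714), (nat_lit 2)⟩)))
(.nd (.nd (.nd (.lf ⟨(nat_lit 196), (nat_lit 2), (nat_lit 0x8103), (nat_lit 3)⟩)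
(.lf ⟨(nat_lit 136), (nat_lit 2), (nat_lit 514), (nat_lit 2)⟩))
(.lf ⟨(nat_lit 203), (nat_lit 2), (nat_lit 707), (nat_lit 2)⟩))
(.nd (.lf ⟨(nat_lit 77), (nat_lit 2), (nat_lit 833), (nat_lit 2)⟩)
(.lf ⟨(nat_lit 394), (nat_lit 2), (nat_lit 646), (nat_lit 2)⟩)))))
(.nd (.nd (.nd (.nd (.nd (.lf ⟨(nat_lit 195), (nat_lit 2), (nat_lit 0), (nat_lit 0)⟩)
(.lf ⟨(nat_lit 521), (nat_lit 2), (nat_lit 584), (nat_lit 2)⟩))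
(.lf ⟨(nat_lit 458), (nat_lit 2), (nat_lit 647), (nat_lit 2)⟩))
(.nd (.nd (.lf ⟨(nat_lit 72), (nat_lit 2), (nat_lit 0xb201), (nat_lit 3)⟩)
(.lf ⟨(nat_lit 0x1030840c2), (nat_lit 6), (nat_lit 0xd207), (nat_lit 3)⟩))
(.lf ⟨(nat_lit 138), (nat_lit 2), (nat_lit 642), (nat_lit 2)⟩)))
(.nd (.nd (.nd (.lf ⟨(nat_lit 132), (nat_lit 2), (nat_lit 0x7102), (nat_lit 3)⟩)
(.lf ⟨(nat_lit 0x480c20480c20480c20480c2), (nat_lit 16), (nat_lit 844), (nat_lit 2)⟩))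
(.lf ⟨(nat_lit 133), (nat_lit 2), (nat_lit 322), (nat_lit 2)⟩))
(.nd (.lf ⟨(nat_lit 75), (nat_lit 2), (nat_lit 705), (nat_lit 2)⟩)
(.lf ⟨(nat_lit 525), (nat_lit 2), (nat_lit 840), (nat_lit 2)⟩))))
(.nd (.nd (.nd (.nd (.lf ⟨(nat_lit 66), (nat_lit 2), (nat_lit 0x5081), (nat_lit 3)⟩)
(.lf ⟨(nat_lit 265), (nat_lit 2), (nat_lit 580), (nat_lit 2)⟩))
(.lf ⟨(nat_lit 392), (nat_lit 2), (nat_lit 518), (nat_lit 2)⟩))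
(.nd (.nd (.lf ⟨(nat_lit 141), (nat_lit 2), (nat_lit 834), (nat_lit 2)⟩)
(.lf ⟨(nat_lit 0x103081103081), (nat_lit 8), (nat_lit 0x349207185), (nat_lit 6)⟩))
(.lf ⟨(nat_lit 0x2ca2ca), (nat_lit 4), (nat_lit 0), (nat_lit 0)⟩)))
(.nd (.nd (.nd (.lf ⟨(nat_lit 134), (nat_lit 2), (nat_lit 0x9182), (nat_lit 3)⟩)
(.lf ⟨(nat_lit 0x3481cd207), (nat_lit 6), (nat_lit 0), (nat_lit 0)⟩))
(.lf ⟨(nat_lit 327), (nat_lit 2), (nat_lit 453), (nat_lit 2)⟩))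
(.nd (.lf ⟨(nat_lit 263), (nat_lit 2), (nat_lit 452), (nat_lit 2)⟩)
(.lf ⟨(nat_lit 522), (nat_lit 2), (nat_lit 648), (nat_lit 2)⟩))))))
(.nd (.nd (.nd (.nd (.nd (.nd (.lf ⟨(nat_lit 130), (nat_lit 2), (nat_lit 0), (nat_lit 0)⟩)
(.lf ⟨(nat_lit 459), (nat_lit 2), (nat_lit 711), (nat_lit 2)⟩))
(.lf ⟨(nat_lit 523), (nat_lit 2), (nat_lit 712), (nat_lit 2)⟩))
(.nd (.nd (.lf ⟨(nat_lit 715), (nat_lit 2), (nat_lit 0), (nat_lit 0)⟩)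
(.lf ⟨(nat_lit 0x4d207), (nat_lit 4), (nat_lit 0x2ca3481c1), (nat_lit 6)⟩))
(.lf ⟨(nat_lit 326), (nat_lit 2), (nat_lit 0xd185), (nat_lit 3)⟩)))
(.nd (.nd (.nd (.lf ⟨(nat_lit 455), (nat_lit 2), (nat_lit 0), (nat_lit 0)⟩)
(.lf ⟨(nat_lit 0x480c20480c20480c20480c2), (nat_lit 16), (nat_lit 13), (nat_lit 1)⟩))
(.lf ⟨(nat_lit 267), (nat_lit 2), (nat_lit 708), (nat_lit 2)⟩))
(.nd (.lf ⟨(nat_lit 74), (nat_lit 2), (nat_lit 641), (nat_lit 2)⟩)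
(.lf ⟨(nat_lit 461), (nat_lit 2), (nat_lit 839), (nat_lit 2)⟩))))
(.nd (.nd (.nd (.nd (.lf ⟨(nat_lit 325), (nat_lit 2), (nat_lit 0), (nat_lit 0)⟩)
(.lf ⟨(nat_lit 199), (nat_lit 2), (nat_lit 0xc1c3), (nat_lit 3)⟩))
(.lf ⟨(nat_lit 197), (nat_lit 2), (nat_lit 0x349143), (nat_lit 4)⟩))
(.nd (.nd (.lf ⟨(nat_lit 65), (nat_lit 2), (nat_lit 0), (nat_lit 0)⟩)
(.lf ⟨(nat_lit 0x103081), (nat_lit 4), (nat_lit 0x103081), (nat_lit 4)⟩))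
(.lf ⟨(nat_lit 653), (nat_lit 2), (nat_lit 842), (nat_lit 2)⟩)))
(.nd (.nd (.nd (.lf ⟨(nat_lit 585), (nat_lit 2), (nat_lit 0), (nat_lit 0)⟩)
(.lf ⟨(nat_lit 199), (nat_lit 2), (nat_lit 451), (nat_lit 2)⟩))
(.lf ⟨(nat_lit 131), (nat_lit 2), (nat_lit 0xd0c2), (nat_lit 3)⟩))
(.nd (.lf ⟨(nat_lit 205), (nat_lit 2), (nat_lit 835), (nat_lit 2)⟩)
(.lf ⟨(nat_lit 202), (nat_lit 2), (nat_lit 643), (nat_lit 2)⟩)))))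
(.nd (.nd (.nd (.nd (.nd (.lf ⟨(nat_lit 260), (nat_lit 2), (nat_lit 0), (nat_lit 0)⟩)
(.lf ⟨(nat_lit 457), (nat_lit 2), (nat_lit 583), (nat_lit 2)⟩))
(.lf ⟨(nat_lit 589), (nat_lit 2), (nat_lit 841), (nat_lit 2)⟩))
(.nd (.nd (.lf ⟨(nat_lit 136), (nat_lit 2), (nat_lit 0xc202), (nat_lit 3)⟩)
(.lf ⟨(nat_lit 0x40c22ca), (nat_lit 5), (nat_lit 0xb2840c2), (nat_lit 5)⟩))
(.lf ⟨(nat_lit 266), (nat_lit 2), (nat_lit 644), (nat_lit 2)⟩)))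
(.nd (.nd (.nd (.lf ⟨(nat_lit 520), (nat_lit 2), (nat_lit 0), (nat_lit 0)⟩)
(.lf ⟨(nat_lit 12), (nat_lit 1), (nat_lit 0), (nat_lit 0)⟩))
(.lf ⟨(nat_lit 198), (nat_lit 2), (nat_lit 387), (nat_lit 2)⟩))
(.nd (.lf ⟨(nat_lit 137), (nat_lit 2), (nat_lit 578), (nat_lit 2)⟩)
(.lf ⟨(nat_lit 587), (nat_lit 2), (nat_lit 713), (nat_lit 2)⟩))))
(.nd (.nd (.nd (.nd (.lf ⟨(nat_lit 390), (nat_lit 2), (nat_lit 0), (nat_lit 0)⟩)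
(.lf ⟨(nat_lit 328), (nat_lit 2), (nat_lit 517), (nat_lit 2)⟩))
(.lf ⟨(nat_lit 329), (nat_lit 2), (nat_lit 581), (nat_lit 2)⟩))
(.nd (.nd (.lf ⟨(nat_lit 135), (nat_lit 2), (nat_lit 450), (nat_lit 2)⟩)
(.lf ⟨(nat_lit 0x349207185349207185), (nat_lit 12), (nat_lit 13), (nat_lit 1)⟩))
(.lf ⟨(nat_lit 717), (nat_lit 2), (nat_lit 843), (nat_lit 2)⟩)))
(.nd (.nd (.nd (.lf ⟨(nat_lit 650), (nat_lit 2), (nat_lit 0), (nat_lit 0)⟩)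
(.lf ⟨(nat_lit 0xd2072ca), (nat_lit 5), (nat_lit 0xb28d207), (nat_lit 5)⟩))
(.lf ⟨(nat_lit 261), (nat_lit 2), (nat_lit 0xa144), (nat_lit 3)⟩))
(.nd (.lf ⟨(nat_lit 264), (nat_lit 2), (nat_lit 516), (nat_lit 2)⟩)
(.lf ⟨(nat_lit 269), (nat_lit 2), (nat_lit 836), (nat_lit 2)⟩)))))))

/-- Substitution. -/
def s23 : List (ℕ × ℕ) := [((nat_lit 1), (nat_lit 1)), ((nat_lit 0x40c2), (nat_lit 3)), ((nat_lit 714), (nat_lit 2)), ((nat_lit 0xd207), (nat_lit 3))]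

/-- Context. -/
noncomputable def x23 : ℕ → ℕ × ℕ :=
  mkc d21 65 s21 x21 (nth [] (Cl.alts (nsCl 1 [[1, 1], [0, 1], [0]])) 1)

set_option maxRecDepth 100000 in
/-- Facts. -/
noncomputable def d24 : Tr :=
(.nd (.nd (.nd (.lf ⟨(nat_lit 131), (nat_lit 2), (nat_lit 0xd0c2), (nat_lit 3)⟩)
(.lf ⟨(nat_lit 131), (nat_lit 2), (nat_lit 194), (nat_lit 2)⟩))
(.lf ⟨(nat_lit 0x103081103081103081103081), (nat_lit 16), (nat_lit 0), (nat_lit 0)⟩))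
(.nd (.lf ⟨(nat_lit 0x103081103081103081103081), (nat_lit 16), (nat_lit 13), (nat_lit 1)⟩)
(.lf ⟨(nat_lit 13), (nat_lit 1), (nat_lit 0), (nat_lit 0)⟩)))

/-- Context. -/
noncomputable def x24 : ℕ → ℕ × ℕ :=
  mkc d23 89 s23 x23 (nth [] (Cl.alts (nsCl 2 [[0, 1, 3], [2, 1, 2], [0], [0, 1]])) 0)

set_option maxRecDepth 100000 in
/-- Facts. -/
noncomputable def d25 : Tr :=
(.nd (.nd (.nd (.nd (.nd (.nd (.nd (.lf ⟨(nat_lit 65), (nat_lit 2), (nat_lit 0), (nat_lit 0)⟩)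
(.lf ⟨(nat_lit 199), (nat_lit 2), (nat_lit 451), (nat_lit 2)⟩))
(.lf ⟨(nat_lit 589), (nat_lit 2), (nat_lit 841), (nat_lit 2)⟩))
(.nd (.lf ⟨(nat_lit 715), (nat_lit 2), (nat_lit 0), (nat_lit 0)⟩)
(.lf ⟨(nat_lit 201), (nat_lit 2), (nat_lit 579), (nat_lit 2)⟩)))
(.nd (.nd (.nd (.lf ⟨(nat_lit 67), (nat_lit 2), (nat_lit 0x60c1), (nat_lit 3)⟩)
(.lf ⟨(nat_lit 0x1840c21840c2), (nat_lit 8), (nat_lit 0xd2c9207), (nat_lit 5)⟩))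
(.lf ⟨(nat_lit 198), (nat_lit 2), (nat_lit 387), (nat_lit 2)⟩))
(.nd (.lf ⟨(nat_lit 75), (nat_lit 2), (nat_lit 705), (nat_lit 2)⟩)
(.lf ⟨(nat_lit 459), (nat_lit 2), (nat_lit 711), (nat_lit 2)⟩))))
(.nd (.nd (.nd (.nd (.lf ⟨(nat_lit 68), (nat_lit 2), (nat_lit 257), (nat_lit 2)⟩)
(.lf ⟨(nat_lit 71), (nat_lit 2), (nat_lit 0x34b1c1), (nat_lit 4)⟩))
(.lf ⟨(nat_lit 392), (nat_lit 2), (nat_lit 518), (nat_lit 2)⟩))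
(.nd (.lf ⟨(nat_lit 65), (nat_lit 2), (nat_lit 0), (nat_lit 0)⟩)
(.lf ⟨(nat_lit 587), (nat_lit 2), (nat_lit 713), (nat_lit 2)⟩)))
(.nd (.nd (.nd (.lf ⟨(nat_lit 196), (nat_lit 2), (nat_lit 0x8103), (nat_lit 3)⟩)
(.lf ⟨(nat_lit 0x34b20718534b207185), (nat_lit 12), (nat_lit 13), (nat_lit 1)⟩))
(.lf ⟨(nat_lit 70), (nat_lit 2), (nat_lit 385), (nat_lit 2)⟩))
(.nd (.lf ⟨(nat_lit 263), (nat_lit 2), (nat_lit 452), (nat_lit 2)⟩)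
(.lf ⟨(nat_lit 265), (nat_lit 2), (nat_lit 580), (nat_lit 2)⟩)))))
(.nd (.nd (.nd (.nd (.nd (.lf ⟨(nat_lit 195), (nat_lit 2), (nat_lit 0), (nat_lit 0)⟩)
(.lf ⟨(nat_lit 0x103081103081103081103081), (nat_lit 16), (nat_lit 714), (nat_lit 2)⟩))
(.lf ⟨(nat_lit 395), (nat_lit 2), (nat_lit 710), (nat_lit 2)⟩))
(.nd (.lf ⟨(nat_lit 845), (nat_lit 2), (nat_lit 0), (nat_lit 0)⟩)
(.lf ⟨(nat_lit 461), (nat_lit 2), (nat_lit 839), (nat_lit 2)⟩)))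
(.nd (.nd (.nd (.lf ⟨(nat_lit 132), (nat_lit 2), (nat_lit 0x7102), (nat_lit 3)⟩)
(.lf ⟨(nat_lit 0x6103081), (nat_lit 5), (nat_lit 0x6103081), (nat_lit 5)⟩))
(.lf ⟨(nat_lit 131), (nat_lit 2), (nat_lit 0xd0c2), (nat_lit 3)⟩))
(.nd (.lf ⟨(nat_lit 77), (nat_lit 2), (nat_lit 833), (nat_lit 2)⟩)
(.lf ⟨(nat_lit 457), (nat_lit 2), (nat_lit 583), (nat_lit 2)⟩))))
(.nd (.nd (.nd (.nd (.lf ⟨(nat_lit 66), (nat_lit 2), (nat_lit 0x5081), (nat_lit 3)⟩)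
(.lf ⟨(nat_lit 0x34b2481cd2c9207), (nat_lit 10), (nat_lit 0), (nat_lit 0)⟩))
(.lf ⟨(nat_lit 267), (nat_lit 2), (nat_lit 708), (nat_lit 2)⟩))
(.nd (.lf ⟨(nat_lit 135), (nat_lit 2), (nat_lit 450), (nat_lit 2)⟩)
(.lf ⟨(nat_lit 269), (nat_lit 2), (nat_lit 836), (nat_lit 2)⟩)))
(.nd (.nd (.lf ⟨(nat_lit 134), (nat_lit 2), (nat_lit 0x9182), (nat_lit 3)⟩)
(.lf ⟨(nat_lit 262), (nat_lit 2), (nat_lit 0xb184), (nat_lit 3)⟩))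
(.nd (.lf ⟨(nat_lit 393), (nat_lit 2), (nat_lit 582), (nat_lit 2)⟩)
(.lf ⟨(nat_lit 391), (nat_lit 2), (nat_lit 454), (nat_lit 2)⟩))))))
(.nd (.nd (.nd (.nd (.nd (.nd (.lf ⟨(nat_lit 130), (nat_lit 2), (nat_lit 0), (nat_lit 0)⟩)
(.lf ⟨(nat_lit 0x103081103081103081103081), (nat_lit 16), (nat_lit 13), (nat_lit 1)⟩))
(.lf ⟨(nat_lit 333), (nat_lit 2), (nat_lit 837), (nat_lit 2)⟩))
(.nd (.lf ⟨(nat_lit 72), (nat_lit 2), (nat_lit 0xb201), (nat_lit 3)⟩)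
(.lf ⟨(nat_lit 717), (nat_lit 2), (nat_lit 843), (nat_lit 2)⟩)))
(.nd (.nd (.nd (.lf ⟨(nat_lit 455), (nat_lit 2), (nat_lit 0), (nat_lit 0)⟩)
(.lf ⟨(nat_lit 0x610308d2c9207), (nat_lit 9), (nat_lit 0xd2c92071840c2), (nat_lit 9)⟩))
(.lf ⟨(nat_lit 203), (nat_lit 2), (nat_lit 707), (nat_lit 2)⟩))
(.nd (.lf ⟨(nat_lit 137), (nat_lit 2), (nat_lit 578), (nat_lit 2)⟩)
(.lf ⟨(nat_lit 521), (nat_lit 2), (nat_lit 584), (nat_lit 2)⟩))))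
(.nd (.nd (.nd (.nd (.lf ⟨(nat_lit 325), (nat_lit 2), (nat_lit 0), (nat_lit 0)⟩)
(.lf ⟨(nat_lit 261), (nat_lit 2), (nat_lit 0x34b144), (nat_lit 4)⟩))
(.lf ⟨(nat_lit 397), (nat_lit 2), (nat_lit 838), (nat_lit 2)⟩))
(.nd (.lf ⟨(nat_lit 141), (nat_lit 2), (nat_lit 834), (nat_lit 2)⟩)
(.lf ⟨(nat_lit 331), (nat_lit 2), (nat_lit 709), (nat_lit 2)⟩)))
(.nd (.nd (.nd (.lf ⟨(nat_lit 585), (nat_lit 2), (nat_lit 0), (nat_lit 0)⟩)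
(.lf ⟨(nat_lit 0x1840c20461030811840c2046103081), (nat_lit 20), (nat_lit 13), (nat_lit 1)⟩))
(.lf ⟨(nat_lit 261), (nat_lit 2), (nat_lit 0xa144), (nat_lit 3)⟩))
(.nd (.lf ⟨(nat_lit 264), (nat_lit 2), (nat_lit 516), (nat_lit 2)⟩)
(.lf ⟨(nat_lit 328), (nat_lit 2), (nat_lit 517), (nat_lit 2)⟩)))))
(.nd (.nd (.nd (.nd (.nd (.lf ⟨(nat_lit 260), (nat_lit 2), (nat_lit 0), (nat_lit 0)⟩)
(.lf ⟨(nat_lit 10), (nat_lit 1), (nat_lit 843), (nat_lit 2)⟩))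
(.lf ⟨(nat_lit 197), (nat_lit 2), (nat_lit 0x349143), (nat_lit 4)⟩))
(.nd (.lf ⟨(nat_lit 73), (nat_lit 2), (nat_lit 0xd241), (nat_lit 3)⟩)
(.lf ⟨(nat_lit 525), (nat_lit 2), (nat_lit 840), (nat_lit 2)⟩)))
(.nd (.nd (.nd (.lf ⟨(nat_lit 520), (nat_lit 2), (nat_lit 0), (nat_lit 0)⟩)
(.lf ⟨(nat_lit 0x1840c2046103081), (nat_lit 10), (nat_lit 0x34b207185), (nat_lit 6)⟩))
(.lf ⟨(nat_lit 327), (nat_lit 2), (nat_lit 453), (nat_lit 2)⟩))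
(.nd (.lf ⟨(nat_lit 205), (nat_lit 2), (nat_lit 835), (nat_lit 2)⟩)
(.lf ⟨(nat_lit 456), (nat_lit 2), (nat_lit 519), (nat_lit 2)⟩))))
(.nd (.nd (.nd (.nd (.lf ⟨(nat_lit 390), (nat_lit 2), (nat_lit 0), (nat_lit 0)⟩)
(.lf ⟨(nat_lit 0x4d2c9207), (nat_lit 6), (nat_lit 0x34b2481c1), (nat_lit 6)⟩))
(.lf ⟨(nat_lit 133), (nat_lit 2), (nat_lit 322), (nat_lit 2)⟩))
(.nd (.lf ⟨(nat_lit 200), (nat_lit 2), (nat_lit 515), (nat_lit 2)⟩)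
(.lf ⟨(nat_lit 139), (nat_lit 2), (nat_lit 706), (nat_lit 2)⟩)))
(.nd (.nd (.lf ⟨(nat_lit 71), (nat_lit 2), (nat_lit 0xa1c1), (nat_lit 3)⟩)
(.lf ⟨(nat_lit 326), (nat_lit 2), (nat_lit 0xd185), (nat_lit 3)⟩))
(.nd (.lf ⟨(nat_lit 523), (nat_lit 2), (nat_lit 712), (nat_lit 2)⟩)
(.lf ⟨(nat_lit 136), (nat_lit 2), (nat_lit 514), (nat_lit 2)⟩)))))))

/-- Substitution. -/
def s25 : List (ℕ × ℕ) := [((nat_lit 1), (nat_lit 1)), ((nat_lit 0x1840c2), (nat_lit 4)), ((nat_lit 0xd2c9207), (nat_lit 5))]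

/-- Context. -/
noncomputable def x25 : ℕ → ℕ × ℕ :=
  mkc d23 89 s23 x23 (nth [] (Cl.alts (nsCl 2 [[0, 1, 3], [2, 1, 2], [0], [0, 1]])) 1)

set_option maxRecDepth 100000 in
/-- Facts. -/
noncomputable def d26 : Tr :=
(.nd (.nd (.nd (.lf ⟨(nat_lit 131), (nat_lit 2), (nat_lit 0xd0c2), (nat_lit 3)⟩)
(.lf ⟨(nat_lit 131), (nat_lit 2), (nat_lit 194), (nat_lit 2)⟩))
(.lf ⟨(nat_lit 0x1840c20461030811840c2046103081), (nat_lit 20), (nat_lit 0), (nat_lit 0)⟩))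
(.nd (.lf ⟨(nat_lit 0x1840c20461030811840c2046103081), (nat_lit 20), (nat_lit 13), (nat_lit 1)⟩)
(.lf ⟨(nat_lit 13), (nat_lit 1), (nat_lit 0), (nat_lit 0)⟩)))

/-- Context. -/
noncomputable def x26 : ℕ → ℕ × ℕ :=
  mkc d25 78 s25 x25 (nth [] (Cl.alts (nsCl 1 [[0, 1], [1, 1], [0]])) 0)

set_option maxRecDepth 100000 in
/-- Facts. -/
noncomputable def d27 : Tr :=
(.nd (.lf ⟨(nat_lit 10), (nat_lit 1), (nat_lit 843), (nat_lit 2)⟩)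
(.lf ⟨(nat_lit 10), (nat_lit 1), (nat_lit 843), (nat_lit 2)⟩))

/-- Context. -/
noncomputable def x27 : ℕ → ℕ × ℕ :=
  mkc d25 78 s25 x25 (nth [] (Cl.alts (nsCl 1 [[0, 1], [1, 1], [0]])) 1)

set_option maxRecDepth 100000 in
/-- Facts. -/
noncomputable def d28 : Tr :=
(.nd (.nd (.nd (.nd (.nd (.lf ⟨(nat_lit 65), (nat_lit 2), (nat_lit 0), (nat_lit 0)⟩)
(.lf ⟨(nat_lit 0x103081103081103081103081), (nat_lit 16), (nat_lit 0xd207), (nat_lit 3)⟩))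
(.nd (.lf ⟨(nat_lit 331), (nat_lit 2), (nat_lit 709), (nat_lit 2)⟩)
(.lf ⟨(nat_lit 521), (nat_lit 2), (nat_lit 584), (nat_lit 2)⟩)))
(.nd (.nd (.lf ⟨(nat_lit 845), (nat_lit 2), (nat_lit 0), (nat_lit 0)⟩)
(.lf ⟨(nat_lit 525), (nat_lit 2), (nat_lit 840), (nat_lit 2)⟩))
(.nd (.lf ⟨(nat_lit 265), (nat_lit 2), (nat_lit 580), (nat_lit 2)⟩)
(.lf ⟨(nat_lit 7), (nat_lit 1), (nat_lit 8), (nat_lit 1)⟩))))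
(.nd (.nd (.nd (.lf ⟨(nat_lit 71), (nat_lit 2), (nat_lit 0xa1c1), (nat_lit 3)⟩)
(.lf ⟨(nat_lit 10), (nat_lit 1), (nat_lit 11), (nat_lit 1)⟩))
(.nd (.lf ⟨(nat_lit 521), (nat_lit 2), (nat_lit 584), (nat_lit 2)⟩)
(.lf ⟨(nat_lit 328), (nat_lit 2), (nat_lit 517), (nat_lit 2)⟩)))
(.nd (.nd (.lf ⟨(nat_lit 525), (nat_lit 2), (nat_lit 840), (nat_lit 2)⟩)
(.lf ⟨(nat_lit 331), (nat_lit 2), (nat_lit 709), (nat_lit 2)⟩))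
(.lf ⟨(nat_lit 12), (nat_lit 1), (nat_lit 0), (nat_lit 0)⟩))))
(.nd (.nd (.nd (.nd (.lf ⟨(nat_lit 520), (nat_lit 2), (nat_lit 0), (nat_lit 0)⟩)
(.lf ⟨(nat_lit 7), (nat_lit 1), (nat_lit 8), (nat_lit 1)⟩))
(.nd (.lf ⟨(nat_lit 139), (nat_lit 2), (nat_lit 706), (nat_lit 2)⟩)
(.lf ⟨(nat_lit 265), (nat_lit 2), (nat_lit 580), (nat_lit 2)⟩)))
(.nd (.nd (.lf ⟨(nat_lit 717), (nat_lit 2), (nat_lit 843), (nat_lit 2)⟩)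
(.lf ⟨(nat_lit 587), (nat_lit 2), (nat_lit 713), (nat_lit 2)⟩))
(.nd (.lf ⟨(nat_lit 328), (nat_lit 2), (nat_lit 517), (nat_lit 2)⟩)
(.lf ⟨(nat_lit 10), (nat_lit 1), (nat_lit 11), (nat_lit 1)⟩))))
(.nd (.nd (.nd (.lf ⟨(nat_lit 72), (nat_lit 2), (nat_lit 0xb201), (nat_lit 3)⟩)
(.lf ⟨(nat_lit 717), (nat_lit 2), (nat_lit 843), (nat_lit 2)⟩))
(.nd (.lf ⟨(nat_lit 269), (nat_lit 2), (nat_lit 836), (nat_lit 2)⟩)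
(.lf ⟨(nat_lit 12), (nat_lit 1), (nat_lit 0), (nat_lit 0)⟩)))
(.nd (.nd (.lf ⟨(nat_lit 587), (nat_lit 2), (nat_lit 713), (nat_lit 2)⟩)
(.lf ⟨(nat_lit 139), (nat_lit 2), (nat_lit 706), (nat_lit 2)⟩))
(.lf ⟨(nat_lit 0x103081103081103081103081), (nat_lit 16), (nat_lit 13), (nat_lit 1)⟩)))))

/-- Context. -/
noncomputable def x28 : ℕ → ℕ × ℕ :=
  mkc d23 89 s23 x23 (nth [] (Cl.alts (nsCl 2 [[0, 1, 3], [2, 1, 2], [0], [0, 1]])) 2)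

set_option maxRecDepth 100000 in
/-- Facts. -/
noncomputable def d29 : Tr :=
(.nd (.nd (.nd (.nd (.nd (.nd (.lf ⟨(nat_lit 65), (nat_lit 2), (nat_lit 0), (nat_lit 0)⟩)
(.lf ⟨(nat_lit 139), (nat_lit 2), (nat_lit 706), (nat_lit 2)⟩))
(.lf ⟨(nat_lit 331), (nat_lit 2), (nat_lit 709), (nat_lit 2)⟩))
(.nd (.lf ⟨(nat_lit 75), (nat_lit 2), (nat_lit 705), (nat_lit 2)⟩)
(.lf ⟨(nat_lit 0x103081103081103081103081), (nat_lit 16), (nat_lit 0xb28d207), (nat_lit 5)⟩)))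
(.nd (.nd (.nd (.lf ⟨(nat_lit 715), (nat_lit 2), (nat_lit 0), (nat_lit 0)⟩)
(.lf ⟨(nat_lit 12), (nat_lit 1), (nat_lit 0), (nat_lit 0)⟩))
(.lf ⟨(nat_lit 265), (nat_lit 2), (nat_lit 580), (nat_lit 2)⟩))
(.nd (.lf ⟨(nat_lit 717), (nat_lit 2), (nat_lit 843), (nat_lit 2)⟩)
(.lf ⟨(nat_lit 717), (nat_lit 2), (nat_lit 843), (nat_lit 2)⟩))))
(.nd (.nd (.nd (.nd (.lf ⟨(nat_lit 650), (nat_lit 2), (nat_lit 0), (nat_lit 0)⟩)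
(.lf ⟨(nat_lit 265), (nat_lit 2), (nat_lit 580), (nat_lit 2)⟩))
(.lf ⟨(nat_lit 521), (nat_lit 2), (nat_lit 584), (nat_lit 2)⟩))
(.nd (.lf ⟨(nat_lit 651), (nat_lit 2), (nat_lit 714), (nat_lit 2)⟩)
(.lf ⟨(nat_lit 10), (nat_lit 1), (nat_lit 11), (nat_lit 1)⟩)))
(.nd (.nd (.nd (.lf ⟨(nat_lit 845), (nat_lit 2), (nat_lit 0), (nat_lit 0)⟩)
(.lf ⟨(nat_lit 10), (nat_lit 1), (nat_lit 11), (nat_lit 1)⟩))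
(.lf ⟨(nat_lit 12), (nat_lit 1), (nat_lit 0), (nat_lit 0)⟩))
(.nd (.lf ⟨(nat_lit 587), (nat_lit 2), (nat_lit 713), (nat_lit 2)⟩)
(.lf ⟨(nat_lit 587), (nat_lit 2), (nat_lit 713), (nat_lit 2)⟩)))))
(.nd (.nd (.nd (.nd (.nd (.lf ⟨(nat_lit 520), (nat_lit 2), (nat_lit 0), (nat_lit 0)⟩)
(.lf ⟨(nat_lit 521), (nat_lit 2), (nat_lit 584), (nat_lit 2)⟩))
(.lf ⟨(nat_lit 139), (nat_lit 2), (nat_lit 706), (nat_lit 2)⟩))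
(.nd (.lf ⟨(nat_lit 523), (nat_lit 2), (nat_lit 712), (nat_lit 2)⟩)
(.lf ⟨(nat_lit 7), (nat_lit 1), (nat_lit 0xb288), (nat_lit 3)⟩)))
(.nd (.nd (.nd (.lf ⟨(nat_lit 72), (nat_lit 2), (nat_lit 0xb201), (nat_lit 3)⟩)
(.lf ⟨(nat_lit 7), (nat_lit 1), (nat_lit 8), (nat_lit 1)⟩))
(.lf ⟨(nat_lit 328), (nat_lit 2), (nat_lit 517), (nat_lit 2)⟩))
(.nd (.lf ⟨(nat_lit 525), (nat_lit 2), (nat_lit 840), (nat_lit 2)⟩)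
(.lf ⟨(nat_lit 525), (nat_lit 2), (nat_lit 840), (nat_lit 2)⟩))))
(.nd (.nd (.nd (.nd (.lf ⟨(nat_lit 71), (nat_lit 2), (nat_lit 0xa1c1), (nat_lit 3)⟩)
(.lf ⟨(nat_lit 328), (nat_lit 2), (nat_lit 517), (nat_lit 2)⟩))
(.lf ⟨(nat_lit 269), (nat_lit 2), (nat_lit 836), (nat_lit 2)⟩))
(.nd (.lf ⟨(nat_lit 653), (nat_lit 2), (nat_lit 842), (nat_lit 2)⟩)
(.lf ⟨(nat_lit 7), (nat_lit 1), (nat_lit 8), (nat_lit 1)⟩)))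
(.nd (.nd (.lf ⟨(nat_lit 74), (nat_lit 2), (nat_lit 641), (nat_lit 2)⟩)
(.lf ⟨(nat_lit 0x103081103081103081103081), (nat_lit 16), (nat_lit 13), (nat_lit 1)⟩))
(.nd (.lf ⟨(nat_lit 522), (nat_lit 2), (nat_lit 648), (nat_lit 2)⟩)
(.lf ⟨(nat_lit 331), (nat_lit 2), (nat_lit 709), (nat_lit 2)⟩))))))

/-- Context. -/
noncomputable def x29 : ℕ → ℕ × ℕ :=
  mkc d23 89 s23 x23 (nth [] (Cl.alts (nsCl 2 [[0, 1, 3], [2, 1, 2], [0], [0, 1]])) 3)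

set_option maxRecDepth 100000 in
/-- Facts. -/
noncomputable def d30 : Tr :=
(.nd (.nd (.nd (.nd (.lf ⟨(nat_lit 65), (nat_lit 2), (nat_lit 0), (nat_lit 0)⟩)
(.lf ⟨(nat_lit 13), (nat_lit 1), (nat_lit 0), (nat_lit 0)⟩))
(.lf ⟨(nat_lit 131), (nat_lit 2), (nat_lit 0xd0c2), (nat_lit 3)⟩))
(.nd (.nd (.lf ⟨(nat_lit 73), (nat_lit 2), (nat_lit 0xd241), (nat_lit 3)⟩)
(.lf ⟨(nat_lit 131), (nat_lit 2), (nat_lit 194), (nat_lit 2)⟩))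
(.lf ⟨(nat_lit 0x1430840450c21011430840450c2101), (nat_lit 20), (nat_lit 9), (nat_lit 1)⟩)))
(.nd (.nd (.nd (.lf ⟨(nat_lit 845), (nat_lit 2), (nat_lit 0), (nat_lit 0)⟩)
(.lf ⟨(nat_lit 131), (nat_lit 2), (nat_lit 194), (nat_lit 2)⟩))
(.lf ⟨(nat_lit 0x1430840450c21011430840450c2101), (nat_lit 20), (nat_lit 13), (nat_lit 1)⟩))
(.nd (.lf ⟨(nat_lit 77), (nat_lit 2), (nat_lit 833), (nat_lit 2)⟩)
(.lf ⟨(nat_lit 9), (nat_lit 1), (nat_lit 13), (nat_lit 1)⟩))))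

/-- Context. -/
noncomputable def x30 : ℕ → ℕ × ℕ :=
  mkc d19 107 s19 x19 (nth [] (Cl.alts (nsCl 2 [[0, 1, 3], [2, 1, 2], [0], [0, 1]])) 2)

set_option maxRecDepth 100000 in
/-- Facts. -/
noncomputable def d31 : Tr :=
(.nd (.nd (.nd (.nd (.lf ⟨(nat_lit 65), (nat_lit 2), (nat_lit 0), (nat_lit 0)⟩)
(.lf ⟨(nat_lit 9), (nat_lit 1), (nat_lit 16), (nat_lit 1)⟩))
(.lf ⟨(nat_lit 80), (nat_lit 2), (nat_lit 0x401), (nat_lit 2)⟩))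
(.nd (.nd (.lf ⟨(nat_lit 845), (nat_lit 2), (nat_lit 0), (nat_lit 0)⟩)
(.lf ⟨(nat_lit 131), (nat_lit 2), (nat_lit 194), (nat_lit 2)⟩))
(.lf ⟨(nat_lit 0x1430840450c21011430840450c2101), (nat_lit 20), (nat_lit 13), (nat_lit 1)⟩)))
(.nd (.nd (.nd (.lf ⟨(nat_lit 0x410), (nat_lit 2), (nat_lit 0), (nat_lit 0)⟩)
(.lf ⟨(nat_lit 13), (nat_lit 1), (nat_lit 0), (nat_lit 0)⟩))
(.lf ⟨(nat_lit 131), (nat_lit 2), (nat_lit 0xd0c2), (nat_lit 3)⟩))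
(.nd (.nd (.lf ⟨(nat_lit 73), (nat_lit 2), (nat_lit 0xd241), (nat_lit 3)⟩)
(.lf ⟨(nat_lit 131), (nat_lit 2), (nat_lit 194), (nat_lit 2)⟩))
(.lf ⟨(nat_lit 0x1430840450c21011430840450c2101), (nat_lit 20), (nat_lit 0xd409), (nat_lit 3)⟩))))

/-- Context. -/
noncomputable def x31 : ℕ → ℕ × ℕ :=
  mkc d19 107 s19 x19 (nth [] (Cl.alts (nsCl 2 [[0, 1, 3], [2, 1, 2], [0], [0, 1]])) 3)

set_option maxRecDepth 100000 in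
/-- Facts. -/
noncomputable def d32 : Tr :=
(.nd (.nd (.nd (.nd (.nd (.nd (.nd (.lf ⟨(nat_lit 65), (nat_lit 2), (nat_lit 0), (nat_lit 0)⟩)
(.lf ⟨(nat_lit 17), (nat_lit 1), (nat_lit 13), (nat_lit 1)⟩))
(.lf ⟨(nat_lit 397), (nat_lit 2), (nat_lit 838), (nat_lit 2)⟩))
(.nd (.lf ⟨(nat_lit 73), (nat_lit 2), (nat_lit 0xd241), (nat_lit 3)⟩)
(.lf ⟨(nat_lit 588), (nat_lit 2), (nat_lit 777), (nat_lit 2)⟩)))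
(.nd (.nd (.nd (.lf ⟨(nat_lit 585), (nat_lit 2), (nat_lit 0), (nat_lit 0)⟩)
(.lf ⟨(nat_lit 80), (nat_lit 2), (nat_lit 0x401), (nat_lit 2)⟩))
(.lf ⟨(nat_lit 460), (nat_lit 2), (nat_lit 775), (nat_lit 2)⟩))
(.nd (.lf ⟨(nat_lit 80), (nat_lit 2), (nat_lit 0x401), (nat_lit 2)⟩)
(.lf ⟨(nat_lit 208), (nat_lit 2), (nat_lit 0x403), (nat_lit 2)⟩))))
(.nd (.nd (.nd (.nd (.lf ⟨(nat_lit 66), (nat_lit 2), (nat_lit 0x5081), (nat_lit 3)⟩)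
(.lf ⟨(nat_lit 784), (nat_lit 2), (nat_lit 0x40c), (nat_lit 2)⟩))
(.lf ⟨(nat_lit 327), (nat_lit 2), (nat_lit 453), (nat_lit 2)⟩))
(.nd (.lf ⟨(nat_lit 135), (nat_lit 2), (nat_lit 450), (nat_lit 2)⟩)
(.lf ⟨(nat_lit 394), (nat_lit 2), (nat_lit 646), (nat_lit 2)⟩)))
(.nd (.nd (.nd (.lf ⟨(nat_lit 0x410), (nat_lit 2), (nat_lit 0), (nat_lit 0)⟩)
(.lf ⟨(nat_lit 0x35030a24614d40c289185), (nat_lit 14), (nat_lit 13), (nat_lit 1)⟩))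
(.lf ⟨(nat_lit 592), (nat_lit 2), (nat_lit 0x409), (nat_lit 2)⟩))
(.nd (.lf ⟨(nat_lit 784), (nat_lit 2), (nat_lit 0x40c), (nat_lit 2)⟩)
(.lf ⟨(nat_lit 457), (nat_lit 2), (nat_lit 583), (nat_lit 2)⟩)))))
(.nd (.nd (.nd (.nd (.nd (.lf ⟨(nat_lit 195), (nat_lit 2), (nat_lit 0), (nat_lit 0)⟩)
(.lf ⟨(nat_lit 456), (nat_lit 2), (nat_lit 0xd207), (nat_lit 3)⟩))
(.lf ⟨(nat_lit 781), (nat_lit 2), (nat_lit 844), (nat_lit 2)⟩))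
(.nd (.lf ⟨(nat_lit 780), (nat_lit 2), (nat_lit 0), (nat_lit 0)⟩)
(.lf ⟨(nat_lit 461), (nat_lit 2), (nat_lit 839), (nat_lit 2)⟩)))
(.nd (.nd (.nd (.lf ⟨(nat_lit 71), (nat_lit 2), (nat_lit 0xa1c1), (nat_lit 3)⟩)
(.lf ⟨(nat_lit 0x470c2), (nat_lit 4), (nat_lit 0xd2891c6143081), (nat_lit 9)⟩))
(.lf ⟨(nat_lit 456), (nat_lit 2), (nat_lit 0x11207), (nat_lit 3)⟩))
(.nd (.lf ⟨(nat_lit 393), (nat_lit 2), (nat_lit 582), (nat_lit 2)⟩)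
(.lf ⟨(nat_lit 144), (nat_lit 2), (nat_lit 0x402), (nat_lit 2)⟩))))
(.nd (.nd (.nd (.nd (.lf ⟨(nat_lit 67), (nat_lit 2), (nat_lit 0x60c1), (nat_lit 3)⟩)
(.lf ⟨(nat_lit 0x1c3090), (nat_lit 4), (nat_lit 0x4070c2), (nat_lit 4)⟩))
(.lf ⟨(nat_lit 70), (nat_lit 2), (nat_lit 385), (nat_lit 2)⟩))
(.nd (.lf ⟨(nat_lit 140), (nat_lit 2), (nat_lit 770), (nat_lit 2)⟩)
(.lf ⟨(nat_lit 464), (nat_lit 2), (nat_lit 0x407), (nat_lit 2)⟩)))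
(.nd (.nd (.lf ⟨(nat_lit 268), (nat_lit 2), (nat_lit 0x11304), (nat_lit 3)⟩)
(.lf ⟨(nat_lit 400), (nat_lit 2), (nat_lit 0x406), (nat_lit 2)⟩))
(.nd (.lf ⟨(nat_lit 197), (nat_lit 2), (nat_lit 0x349143), (nat_lit 4)⟩)
(.lf ⟨(nat_lit 0xc21030840c2103084), (nat_lit 12), (nat_lit 17), (nat_lit 1)⟩))))))
(.nd (.nd (.nd (.nd (.nd (.nd (.lf ⟨(nat_lit 130), (nat_lit 2), (nat_lit 0), (nat_lit 0)⟩)
(.lf ⟨(nat_lit 268), (nat_lit 2), (nat_lit 0xd304), (nat_lit 3)⟩))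
(.lf ⟨(nat_lit 330), (nat_lit 2), (nat_lit 645), (nat_lit 2)⟩))
(.nd (.lf ⟨(nat_lit 65), (nat_lit 2), (nat_lit 0), (nat_lit 0)⟩)
(.lf ⟨(nat_lit 586), (nat_lit 2), (nat_lit 649), (nat_lit 2)⟩)))
(.nd (.nd (.nd (.lf ⟨(nat_lit 650), (nat_lit 2), (nat_lit 0), (nat_lit 0)⟩)
(.lf ⟨(nat_lit 76), (nat_lit 2), (nat_lit 0x10301), (nat_lit 3)⟩))
(.lf ⟨(nat_lit 336), (nat_lit 2), (nat_lit 0x405), (nat_lit 2)⟩))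
(.nd (.lf ⟨(nat_lit 205), (nat_lit 2), (nat_lit 835), (nat_lit 2)⟩)
(.lf ⟨(nat_lit 396), (nat_lit 2), (nat_lit 774), (nat_lit 2)⟩))))
(.nd (.nd (.nd (.nd (.lf ⟨(nat_lit 390), (nat_lit 2), (nat_lit 0), (nat_lit 0)⟩)
(.lf ⟨(nat_lit 0x1c30870c2), (nat_lit 6), (nat_lit 12), (nat_lit 1)⟩))
(.lf ⟨(nat_lit 69), (nat_lit 2), (nat_lit 321), (nat_lit 2)⟩))
(.nd (.lf ⟨(nat_lit 74), (nat_lit 2), (nat_lit 641), (nat_lit 2)⟩)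
(.lf ⟨(nat_lit 652), (nat_lit 2), (nat_lit 778), (nat_lit 2)⟩)))
(.nd (.nd (.nd (.lf ⟨(nat_lit 76), (nat_lit 2), (nat_lit 0x10301), (nat_lit 3)⟩)
(.lf ⟨(nat_lit 0x470c20470c20470c20470c2), (nat_lit 16), (nat_lit 13), (nat_lit 1)⟩))
(.lf ⟨(nat_lit 656), (nat_lit 2), (nat_lit 0x40a), (nat_lit 2)⟩))
(.nd (.lf ⟨(nat_lit 333), (nat_lit 2), (nat_lit 837), (nat_lit 2)⟩)
(.lf ⟨(nat_lit 391), (nat_lit 2), (nat_lit 0x101c6), (nat_lit 3)⟩)))))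
(.nd (.nd (.nd (.nd (.nd (.lf ⟨(nat_lit 325), (nat_lit 2), (nat_lit 0), (nat_lit 0)⟩)
(.lf ⟨(nat_lit 199), (nat_lit 2), (nat_lit 0x34c1c3), (nat_lit 4)⟩))
(.lf ⟨(nat_lit 131), (nat_lit 2), (nat_lit 0xd0c2), (nat_lit 3)⟩))
(.nd (.lf ⟨(nat_lit 0x410), (nat_lit 2), (nat_lit 0), (nat_lit 0)⟩)
(.lf ⟨(nat_lit 204), (nat_lit 2), (nat_lit 771), (nat_lit 2)⟩)))
(.nd (.nd (.nd (.lf ⟨(nat_lit 780), (nat_lit 2), (nat_lit 0), (nat_lit 0)⟩)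
(.lf ⟨(nat_lit 0x34a2471850c204d2891c6143081), (nat_lit 18), (nat_lit 0xd40c289185), (nat_lit 7)⟩))
(.lf ⟨(nat_lit 0x40d), (nat_lit 2), (nat_lit 848), (nat_lit 2)⟩))
(.nd (.lf ⟨(nat_lit 589), (nat_lit 2), (nat_lit 841), (nat_lit 2)⟩)
(.lf ⟨(nat_lit 332), (nat_lit 2), (nat_lit 773), (nat_lit 2)⟩))))
(.nd (.nd (.nd (.nd (.lf ⟨(nat_lit 455), (nat_lit 2), (nat_lit 0), (nat_lit 0)⟩)
(.lf ⟨(nat_lit 0x1c308c), (nat_lit 4), (nat_lit 0x3070c2), (nat_lit 4)⟩))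
(.lf ⟨(nat_lit 326), (nat_lit 2), (nat_lit 0xd185), (nat_lit 3)⟩))
(.nd (.lf ⟨(nat_lit 77), (nat_lit 2), (nat_lit 833), (nat_lit 2)⟩)
(.lf ⟨(nat_lit 199), (nat_lit 2), (nat_lit 0x44c1c3), (nat_lit 4)⟩)))
(.nd (.nd (.lf ⟨(nat_lit 845), (nat_lit 2), (nat_lit 0), (nat_lit 0)⟩)
(.lf ⟨(nat_lit 653), (nat_lit 2), (nat_lit 842), (nat_lit 2)⟩))
(.nd (.lf ⟨(nat_lit 329), (nat_lit 2), (nat_lit 581), (nat_lit 2)⟩)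
(.lf ⟨(nat_lit 0xc21030840c2103084), (nat_lit 12), (nat_lit 13), (nat_lit 1)⟩)))))))

/-- Substitution. -/
def s32 : List (ℕ × ℕ) := [((nat_lit 0x70c2), (nat_lit 3)), ((nat_lit 1), (nat_lit 1)), ((nat_lit 16), (nat_lit 1)), ((nat_lit 12), (nat_lit 1))]

/-- Context. -/
noncomputable def x32 : ℕ → ℕ × ℕ :=
  mkc d18 54 s18 x18 (nth [] (Cl.alts (nsCl 1 [[0, 1], [1, 1], [0]])) 1)

set_option maxRecDepth 100000 in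
/-- Facts. -/
noncomputable def d33 : Tr :=
(.nd (.nd (.nd (.lf ⟨(nat_lit 131), (nat_lit 2), (nat_lit 0xd0c2), (nat_lit 3)⟩)
(.lf ⟨(nat_lit 131), (nat_lit 2), (nat_lit 194), (nat_lit 2)⟩))
(.lf ⟨(nat_lit 0x470c20470c20470c20470c2), (nat_lit 16), (nat_lit 0), (nat_lit 0)⟩))
(.nd (.lf ⟨(nat_lit 0x470c20470c20470c20470c2), (nat_lit 16), (nat_lit 13), (nat_lit 1)⟩)
(.lf ⟨(nat_lit 13), (nat_lit 1), (nat_lit 0), (nat_lit 0)⟩)))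

/-- Context. -/
noncomputable def x33 : ℕ → ℕ × ℕ :=
  mkc d32 78 s32 x32 (nth [] (Cl.alts (nsCl 2 [[2, 1, 2], [0, 1, 3], [0], [0, 1]])) 0)

set_option maxRecDepth 100000 in
/-- Facts. -/
noncomputable def d34 : Tr :=
(.nd (.nd (.nd (.nd (.nd (.nd (.nd (.lf ⟨(nat_lit 130), (nat_lit 2), (nat_lit 0), (nat_lit 0)⟩)
(.lf ⟨(nat_lit 0x344344), (nat_lit 4), (nat_lit 0), (nat_lit 0)⟩))
(.lf ⟨(nat_lit 201), (nat_lit 2), (nat_lit 579), (nat_lit 2)⟩))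
(.nd (.lf ⟨(nat_lit 137), (nat_lit 2), (nat_lit 578), (nat_lit 2)⟩)
(.lf ⟨(nat_lit 457), (nat_lit 2), (nat_lit 583), (nat_lit 2)⟩)))
(.nd (.nd (.lf ⟨(nat_lit 585), (nat_lit 2), (nat_lit 0), (nat_lit 0)⟩)
(.lf ⟨(nat_lit 204), (nat_lit 2), (nat_lit 771), (nat_lit 2)⟩))
(.nd (.lf ⟨(nat_lit 333), (nat_lit 2), (nat_lit 837), (nat_lit 2)⟩)
(.lf ⟨(nat_lit 16), (nat_lit 1), (nat_lit 13), (nat_lit 1)⟩))))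
(.nd (.nd (.nd (.nd (.lf ⟨(nat_lit 455), (nat_lit 2), (nat_lit 0), (nat_lit 0)⟩)
(.lf ⟨(nat_lit 0x289207289207), (nat_lit 8), (nat_lit 13), (nat_lit 1)⟩))
(.lf ⟨(nat_lit 588), (nat_lit 2), (nat_lit 777), (nat_lit 2)⟩))
(.nd (.lf ⟨(nat_lit 264), (nat_lit 2), (nat_lit 516), (nat_lit 2)⟩)
(.lf ⟨(nat_lit 456), (nat_lit 2), (nat_lit 0xd207), (nat_lit 3)⟩)))
(.nd (.nd (.lf ⟨(nat_lit 76), (nat_lit 2), (nat_lit 0x10301), (nat_lit 3)⟩)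
(.lf ⟨(nat_lit 269), (nat_lit 2), (nat_lit 836), (nat_lit 2)⟩))
(.nd (.lf ⟨(nat_lit 781), (nat_lit 2), (nat_lit 844), (nat_lit 2)⟩)
(.lf ⟨(nat_lit 391), (nat_lit 2), (nat_lit 0xd1c6), (nat_lit 3)⟩)))))
(.nd (.nd (.nd (.nd (.nd (.lf ⟨(nat_lit 260), (nat_lit 2), (nat_lit 0), (nat_lit 0)⟩)
(.lf ⟨(nat_lit 0x3442050c2), (nat_lit 6), (nat_lit 0xd2881440c2), (nat_lit 7)⟩))
(.lf ⟨(nat_lit 266), (nat_lit 2), (nat_lit 644), (nat_lit 2)⟩))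
(.nd (.lf ⟨(nat_lit 205), (nat_lit 2), (nat_lit 835), (nat_lit 2)⟩)
(.lf ⟨(nat_lit 391), (nat_lit 2), (nat_lit 0x101c6), (nat_lit 3)⟩)))
(.nd (.nd (.lf ⟨(nat_lit 780), (nat_lit 2), (nat_lit 0), (nat_lit 0)⟩)
(.lf ⟨(nat_lit 652), (nat_lit 2), (nat_lit 778), (nat_lit 2)⟩))
(.nd (.lf ⟨(nat_lit 329), (nat_lit 2), (nat_lit 581), (nat_lit 2)⟩)
(.lf ⟨(nat_lit 265), (nat_lit 2), (nat_lit 0xd244), (nat_lit 3)⟩))))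
(.nd (.nd (.nd (.lf ⟨(nat_lit 520), (nat_lit 2), (nat_lit 0), (nat_lit 0)⟩)
(.lf ⟨(nat_lit 461), (nat_lit 2), (nat_lit 839), (nat_lit 2)⟩))
(.nd (.lf ⟨(nat_lit 524), (nat_lit 2), (nat_lit 776), (nat_lit 2)⟩)
(.lf ⟨(nat_lit 0x470c20470c20470c20470c2), (nat_lit 16), (nat_lit 13), (nat_lit 1)⟩)))
(.nd (.nd (.lf ⟨(nat_lit 141), (nat_lit 2), (nat_lit 834), (nat_lit 2)⟩)
(.lf ⟨(nat_lit 521), (nat_lit 2), (nat_lit 584), (nat_lit 2)⟩))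
(.nd (.lf ⟨(nat_lit 327), (nat_lit 2), (nat_lit 453), (nat_lit 2)⟩)
(.lf ⟨(nat_lit 0x2050c22050c2), (nat_lit 8), (nat_lit 0xd309), (nat_lit 3)⟩))))))
(.nd (.nd (.nd (.nd (.nd (.nd (.lf ⟨(nat_lit 195), (nat_lit 2), (nat_lit 0), (nat_lit 0)⟩)
(.lf ⟨(nat_lit 0xd10d309), (nat_lit 5), (nat_lit 0xd309344), (nat_lit 5)⟩))
(.lf ⟨(nat_lit 138), (nat_lit 2), (nat_lit 642), (nat_lit 2)⟩))
(.nd (.lf ⟨(nat_lit 140), (nat_lit 2), (nat_lit 770), (nat_lit 2)⟩)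
(.lf ⟨(nat_lit 328), (nat_lit 2), (nat_lit 0x10205), (nat_lit 3)⟩)))
(.nd (.nd (.lf ⟨(nat_lit 650), (nat_lit 2), (nat_lit 0), (nat_lit 0)⟩)
(.lf ⟨(nat_lit 202), (nat_lit 2), (nat_lit 643), (nat_lit 2)⟩))
(.nd (.lf ⟨(nat_lit 197), (nat_lit 2), (nat_lit 0x349143), (nat_lit 4)⟩)
(.lf ⟨(nat_lit 76), (nat_lit 2), (nat_lit 0xd301), (nat_lit 3)⟩))))
(.nd (.nd (.nd (.nd (.lf ⟨(nat_lit 132), (nat_lit 2), (nat_lit 0x7102), (nat_lit 3)⟩)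
(.lf ⟨(nat_lit 0x3442050c23442050c23442050c23442050c2), (nat_lit 24), (nat_lit 13), (nat_lit 1)⟩))
(.lf ⟨(nat_lit 586), (nat_lit 2), (nat_lit 649), (nat_lit 2)⟩))
(.nd (.lf ⟨(nat_lit 458), (nat_lit 2), (nat_lit 647), (nat_lit 2)⟩)
(.lf ⟨(nat_lit 199), (nat_lit 2), (nat_lit 0x34c1c3), (nat_lit 4)⟩)))
(.nd (.nd (.lf ⟨(nat_lit 845), (nat_lit 2), (nat_lit 0), (nat_lit 0)⟩)
(.lf ⟨(nat_lit 265), (nat_lit 2), (nat_lit 0x10244), (nat_lit 3)⟩))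
(.nd (.lf ⟨(nat_lit 131), (nat_lit 2), (nat_lit 0xd0c2), (nat_lit 3)⟩)
(.lf ⟨(nat_lit 0x34c24d309), (nat_lit 6), (nat_lit 0), (nat_lit 0)⟩)))))
(.nd (.nd (.nd (.nd (.nd (.lf ⟨(nat_lit 325), (nat_lit 2), (nat_lit 0), (nat_lit 0)⟩)
(.lf ⟨(nat_lit 0x34a20510308d2881440c2), (nat_lit 14), (nat_lit 0x289207), (nat_lit 4)⟩))
(.lf ⟨(nat_lit 653), (nat_lit 2), (nat_lit 842), (nat_lit 2)⟩))
(.nd (.lf ⟨(nat_lit 263), (nat_lit 2), (nat_lit 452), (nat_lit 2)⟩)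
(.lf ⟨(nat_lit 268), (nat_lit 2), (nat_lit 0xd304), (nat_lit 3)⟩)))
(.nd (.nd (.lf ⟨(nat_lit 136), (nat_lit 2), (nat_lit 0xc202), (nat_lit 3)⟩)
(.lf ⟨(nat_lit 522), (nat_lit 2), (nat_lit 648), (nat_lit 2)⟩))
(.nd (.lf ⟨(nat_lit 133), (nat_lit 2), (nat_lit 322), (nat_lit 2)⟩)
(.lf ⟨(nat_lit 328), (nat_lit 2), (nat_lit 0xd205), (nat_lit 3)⟩))))
(.nd (.nd (.nd (.lf ⟨(nat_lit 196), (nat_lit 2), (nat_lit 0x8103), (nat_lit 3)⟩)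
(.lf ⟨(nat_lit 525), (nat_lit 2), (nat_lit 840), (nat_lit 2)⟩))
(.nd (.lf ⟨(nat_lit 589), (nat_lit 2), (nat_lit 841), (nat_lit 2)⟩)
(.lf ⟨(nat_lit 0x470c20470c20470c20470c2), (nat_lit 16), (nat_lit 16), (nat_lit 1)⟩)))
(.nd (.nd (.lf ⟨(nat_lit 200), (nat_lit 2), (nat_lit 515), (nat_lit 2)⟩)
(.lf ⟨(nat_lit 332), (nat_lit 2), (nat_lit 773), (nat_lit 2)⟩))
(.nd (.lf ⟨(nat_lit 261), (nat_lit 2), (nat_lit 0xa144), (nat_lit 3)⟩)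
(.lf ⟨(nat_lit 0x814308d309), (nat_lit 7), (nat_lit 0xd3092050c2), (nat_lit 7)⟩)))))))

/-- Substitution. -/
def s34 : List (ℕ × ℕ) := [((nat_lit 0x2050c2), (nat_lit 4)), ((nat_lit 836), (nat_lit 2)), ((nat_lit 0xd309), (nat_lit 3))]

/-- Context. -/
noncomputable def x34 : ℕ → ℕ × ℕ :=
  mkc d32 78 s32 x32 (nth [] (Cl.alts (nsCl 2 [[2, 1, 2], [0, 1, 3], [0], [0, 1]])) 1)

set_option maxRecDepth 100000 in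
/-- Facts. -/
noncomputable def d35 : Tr :=
(.nd (.nd (.nd (.lf ⟨(nat_lit 131), (nat_lit 2), (nat_lit 0xd0c2), (nat_lit 3)⟩)
(.lf ⟨(nat_lit 131), (nat_lit 2), (nat_lit 194), (nat_lit 2)⟩))
(.lf ⟨(nat_lit 0x3442050c23442050c23442050c23442050c2), (nat_lit 24), (nat_lit 0), (nat_lit 0)⟩))
(.nd (.lf ⟨(nat_lit 0x3442050c23442050c23442050c23442050c2), (nat_lit 24), (nat_lit 13), (nat_lit 1)⟩)
(.lf ⟨(nat_lit 13), (nat_lit 1), (nat_lit 0), (nat_lit 0)⟩)))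

/-- Context. -/
noncomputable def x35 : ℕ → ℕ × ℕ :=
  mkc d34 70 s34 x34 (nth [] (Cl.alts (nsCl 1 [[1, 1], [0, 1], [0]])) 0)

set_option maxRecDepth 100000 in
/-- Facts. -/
noncomputable def d36 : Tr :=
(.nd (.nd (.nd (.nd (.nd (.nd (.nd (.lf ⟨(nat_lit 65), (nat_lit 2), (nat_lit 0), (nat_lit 0)⟩)
(.lf ⟨(nat_lit 652), (nat_lit 2), (nat_lit 778), (nat_lit 2)⟩))
(.lf ⟨(nat_lit 458), (nat_lit 2), (nat_lit 647), (nat_lit 2)⟩))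
(.nd (.nd (.lf ⟨(nat_lit 715), (nat_lit 2), (nat_lit 0), (nat_lit 0)⟩)
(.lf ⟨(nat_lit 9), (nat_lit 1), (nat_lit 12), (nat_lit 1)⟩))
(.lf ⟨(nat_lit 70), (nat_lit 2), (nat_lit 385), (nat_lit 2)⟩)))
(.nd (.nd (.nd (.lf ⟨(nat_lit 67), (nat_lit 2), (nat_lit 0x60c1), (nat_lit 3)⟩)
(.lf ⟨(nat_lit 268), (nat_lit 2), (nat_lit 0xd304), (nat_lit 3)⟩))
(.lf ⟨(nat_lit 330), (nat_lit 2), (nat_lit 645), (nat_lit 2)⟩))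
(.nd (.nd (.lf ⟨(nat_lit 200), (nat_lit 2), (nat_lit 515), (nat_lit 2)⟩)
(.lf ⟨(nat_lit 0x1030812ca), (nat_lit 6), (nat_lit 0x2ca103081), (nat_lit 6)⟩))
(.lf ⟨(nat_lit 653), (nat_lit 2), (nat_lit 842), (nat_lit 2)⟩))))
(.nd (.nd (.nd (.nd (.lf ⟨(nat_lit 68), (nat_lit 2), (nat_lit 257), (nat_lit 2)⟩)
(.lf ⟨(nat_lit 139), (nat_lit 2), (nat_lit 706), (nat_lit 2)⟩))
(.lf ⟨(nat_lit 197), (nat_lit 2), (nat_lit 0x349143), (nat_lit 4)⟩))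
(.nd (.nd (.lf ⟨(nat_lit 845), (nat_lit 2), (nat_lit 0), (nat_lit 0)⟩)
(.lf ⟨(nat_lit 0x2071852ca), (nat_lit 6), (nat_lit 0x2ca207185), (nat_lit 6)⟩))
(.lf ⟨(nat_lit 138), (nat_lit 2), (nat_lit 642), (nat_lit 2)⟩)))
(.nd (.nd (.nd (.lf ⟨(nat_lit 196), (nat_lit 2), (nat_lit 0x8103), (nat_lit 3)⟩)
(.lf ⟨(nat_lit 328), (nat_lit 2), (nat_lit 0xd205), (nat_lit 3)⟩))
(.lf ⟨(nat_lit 203), (nat_lit 2), (nat_lit 707), (nat_lit 2)⟩))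
(.nd (.nd (.lf ⟨(nat_lit 77), (nat_lit 2), (nat_lit 833), (nat_lit 2)⟩)
(.lf ⟨(nat_lit 0x30b28614c2ca185), (nat_lit 10), (nat_lit 13), (nat_lit 1)⟩))
(.lf ⟨(nat_lit 525), (nat_lit 2), (nat_lit 840), (nat_lit 2)⟩)))))
(.nd (.nd (.nd (.nd (.nd (.lf ⟨(nat_lit 195), (nat_lit 2), (nat_lit 0), (nat_lit 0)⟩)
(.lf ⟨(nat_lit 331), (nat_lit 2), (nat_lit 709), (nat_lit 2)⟩))
(.lf ⟨(nat_lit 333), (nat_lit 2), (nat_lit 837), (nat_lit 2)⟩))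
(.nd (.nd (.lf ⟨(nat_lit 780), (nat_lit 2), (nat_lit 0), (nat_lit 0)⟩)
(.lf ⟨(nat_lit 197), (nat_lit 2), (nat_lit 0x34c143), (nat_lit 4)⟩))
(.lf ⟨(nat_lit 262), (nat_lit 2), (nat_lit 0xb184), (nat_lit 3)⟩)))
(.nd (.nd (.nd (.lf ⟨(nat_lit 132), (nat_lit 2), (nat_lit 0x7102), (nat_lit 3)⟩)
(.lf ⟨(nat_lit 199), (nat_lit 2), (nat_lit 0x34c1c3), (nat_lit 4)⟩))
(.lf ⟨(nat_lit 781), (nat_lit 2), (nat_lit 844), (nat_lit 2)⟩))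
(.nd (.nd (.lf ⟨(nat_lit 75), (nat_lit 2), (nat_lit 705), (nat_lit 2)⟩)
(.lf ⟨(nat_lit 0x40c2044), (nat_lit 5), (nat_lit 0xd3081c3081), (nat_lit 7)⟩))
(.lf ⟨(nat_lit 717), (nat_lit 2), (nat_lit 843), (nat_lit 2)⟩))))
(.nd (.nd (.nd (.nd (.lf ⟨(nat_lit 66), (nat_lit 2), (nat_lit 0x5081), (nat_lit 3)⟩)
(.lf ⟨(nat_lit 396), (nat_lit 2), (nat_lit 774), (nat_lit 2)⟩))
(.lf ⟨(nat_lit 397), (nat_lit 2), (nat_lit 838), (nat_lit 2)⟩))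
(.nd (.nd (.lf ⟨(nat_lit 260), (nat_lit 2), (nat_lit 0), (nat_lit 0)⟩)
(.lf ⟨(nat_lit 0x4207185), (nat_lit 5), (nat_lit 0xb2881c6144), (nat_lit 7)⟩))
(.lf ⟨(nat_lit 266), (nat_lit 2), (nat_lit 644), (nat_lit 2)⟩)))
(.nd (.nd (.nd (.lf ⟨(nat_lit 650), (nat_lit 2), (nat_lit 0), (nat_lit 0)⟩)
(.lf ⟨(nat_lit 0x3442050c23442050c23442050c23442050c2), (nat_lit 24), (nat_lit 13), (nat_lit 1)⟩))
(.lf ⟨(nat_lit 327), (nat_lit 2), (nat_lit 453), (nat_lit 2)⟩))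
(.nd (.lf ⟨(nat_lit 264), (nat_lit 2), (nat_lit 516), (nat_lit 2)⟩)
(.lf ⟨(nat_lit 394), (nat_lit 2), (nat_lit 646), (nat_lit 2)⟩))))))
(.nd (.nd (.nd (.nd (.nd (.nd (.lf ⟨(nat_lit 130), (nat_lit 2), (nat_lit 0), (nat_lit 0)⟩)
(.lf ⟨(nat_lit 522), (nat_lit 2), (nat_lit 648), (nat_lit 2)⟩))
(.lf ⟨(nat_lit 524), (nat_lit 2), (nat_lit 776), (nat_lit 2)⟩))
(.nd (.nd (.lf ⟨(nat_lit 72), (nat_lit 2), (nat_lit 0xb201), (nat_lit 3)⟩)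
(.lf ⟨(nat_lit 134), (nat_lit 2), (nat_lit 0xc182), (nat_lit 3)⟩))
(.lf ⟨(nat_lit 261), (nat_lit 2), (nat_lit 0xa144), (nat_lit 3)⟩)))
(.nd (.nd (.nd (.lf ⟨(nat_lit 455), (nat_lit 2), (nat_lit 0), (nat_lit 0)⟩)
(.lf ⟨(nat_lit 456), (nat_lit 2), (nat_lit 0xd207), (nat_lit 3)⟩))
(.lf ⟨(nat_lit 133), (nat_lit 2), (nat_lit 322), (nat_lit 2)⟩))
(.nd (.nd (.lf ⟨(nat_lit 74), (nat_lit 2), (nat_lit 641), (nat_lit 2)⟩)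
(.lf ⟨(nat_lit 0x103081207185), (nat_lit 8), (nat_lit 0x207185103081), (nat_lit 8)⟩))
(.lf ⟨(nat_lit 0x2ca2ca), (nat_lit 4), (nat_lit 0), (nat_lit 0)⟩))))
(.nd (.nd (.nd (.nd (.lf ⟨(nat_lit 325), (nat_lit 2), (nat_lit 0), (nat_lit 0)⟩)
(.lf ⟨(nat_lit 459), (nat_lit 2), (nat_lit 711), (nat_lit 2)⟩))
(.lf ⟨(nat_lit 392), (nat_lit 2), (nat_lit 518), (nat_lit 2)⟩))
(.nd (.nd (.lf ⟨(nat_lit 141), (nat_lit 2), (nat_lit 834), (nat_lit 2)⟩)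
(.lf ⟨(nat_lit 0x42ca), (nat_lit 3), (nat_lit 0xb284), (nat_lit 3)⟩))
(.lf ⟨(nat_lit 460), (nat_lit 2), (nat_lit 775), (nat_lit 2)⟩)))
(.nd (.nd (.nd (.lf ⟨(nat_lit 134), (nat_lit 2), (nat_lit 0x9182), (nat_lit 3)⟩)
(.lf ⟨(nat_lit 391), (nat_lit 2), (nat_lit 0xd1c6), (nat_lit 3)⟩))
(.lf ⟨(nat_lit 131), (nat_lit 2), (nat_lit 0xd0c2), (nat_lit 3)⟩))
(.nd (.nd (.lf ⟨(nat_lit 263), (nat_lit 2), (nat_lit 452), (nat_lit 2)⟩)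
(.lf ⟨(nat_lit 0x1030811040c20441030811040c2044), (nat_lit 20), (nat_lit 13), (nat_lit 1)⟩))
(.lf ⟨(nat_lit 716), (nat_lit 2), (nat_lit 779), (nat_lit 2)⟩)))))
(.nd (.nd (.nd (.nd (.nd (.lf ⟨(nat_lit 260), (nat_lit 2), (nat_lit 0), (nat_lit 0)⟩)
(.lf ⟨(nat_lit 269), (nat_lit 2), (nat_lit 836), (nat_lit 2)⟩))
(.lf ⟨(nat_lit 395), (nat_lit 2), (nat_lit 710), (nat_lit 2)⟩))
(.nd (.nd (.lf ⟨(nat_lit 136), (nat_lit 2), (nat_lit 0xc202), (nat_lit 3)⟩)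
(.lf ⟨(nat_lit 0x207185207185), (nat_lit 8), (nat_lit 0), (nat_lit 0)⟩))
(.lf ⟨(nat_lit 326), (nat_lit 2), (nat_lit 0xd185), (nat_lit 3)⟩)))
(.nd (.nd (.nd (.lf ⟨(nat_lit 520), (nat_lit 2), (nat_lit 0), (nat_lit 0)⟩)
(.lf ⟨(nat_lit 76), (nat_lit 2), (nat_lit 0xd301), (nat_lit 3)⟩))
(.lf ⟨(nat_lit 198), (nat_lit 2), (nat_lit 387), (nat_lit 2)⟩))
(.nd (.nd (.lf ⟨(nat_lit 140), (nat_lit 2), (nat_lit 770), (nat_lit 2)⟩)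
(.lf ⟨(nat_lit 0x34c2070c204d3081c3081), (nat_lit 14), (nat_lit 0xc2ca185), (nat_lit 5)⟩))
(.lf ⟨(nat_lit 461), (nat_lit 2), (nat_lit 839), (nat_lit 2)⟩))))
(.nd (.nd (.nd (.nd (.lf ⟨(nat_lit 390), (nat_lit 2), (nat_lit 0), (nat_lit 0)⟩)
(.lf ⟨(nat_lit 332), (nat_lit 2), (nat_lit 773), (nat_lit 2)⟩))
(.lf ⟨(nat_lit 267), (nat_lit 2), (nat_lit 708), (nat_lit 2)⟩))
(.nd (.nd (.lf ⟨(nat_lit 135), (nat_lit 2), (nat_lit 450), (nat_lit 2)⟩)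
(.lf ⟨(nat_lit 0x103081103081), (nat_lit 8), (nat_lit 0x207185), (nat_lit 4)⟩))
(.lf ⟨(nat_lit 651), (nat_lit 2), (nat_lit 714), (nat_lit 2)⟩)))
(.nd (.nd (.nd (.lf ⟨(nat_lit 71), (nat_lit 2), (nat_lit 0xa1c1), (nat_lit 3)⟩)
(.lf ⟨(nat_lit 0x3442050c23442050c23442050c23442050c2), (nat_lit 24), (nat_lit 0xd309), (nat_lit 3)⟩))
(.lf ⟨(nat_lit 69), (nat_lit 2), (nat_lit 321), (nat_lit 2)⟩))
(.nd (.lf ⟨(nat_lit 523), (nat_lit 2), (nat_lit 712), (nat_lit 2)⟩)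
(.lf ⟨(nat_lit 202), (nat_lit 2), (nat_lit 643), (nat_lit 2)⟩)))))))

/-- Substitution. -/
def s36 : List (ℕ × ℕ) := [((nat_lit 4), (nat_lit 1)), ((nat_lit 0x103081), (nat_lit 4)), ((nat_lit 714), (nat_lit 2)), ((nat_lit 0x207185), (nat_lit 4))]

/-- Context. -/
noncomputable def x36 : ℕ → ℕ × ℕ :=
  mkc d34 70 s34 x34 (nth [] (Cl.alts (nsCl 1 [[1, 1], [0, 1], [0]])) 1)

set_option maxRecDepth 100000 in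
/-- Facts. -/
noncomputable def d37 : Tr :=
(.nd (.nd (.nd (.lf ⟨(nat_lit 131), (nat_lit 2), (nat_lit 0xd0c2), (nat_lit 3)⟩)
(.lf ⟨(nat_lit 131), (nat_lit 2), (nat_lit 194), (nat_lit 2)⟩))
(.lf ⟨(nat_lit 0x1030811040c20441030811040c2044), (nat_lit 20), (nat_lit 0), (nat_lit 0)⟩))
(.nd (.lf ⟨(nat_lit 0x1030811040c20441030811040c2044), (nat_lit 20), (nat_lit 13), (nat_lit 1)⟩)
(.lf ⟨(nat_lit 13), (nat_lit 1), (nat_lit 0), (nat_lit 0)⟩)))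

/-- Context. -/
noncomputable def x37 : ℕ → ℕ × ℕ :=
  mkc d36 94 s36 x36 (nth [] (Cl.alts (nsCl 2 [[0, 1, 3], [2, 1, 2], [0], [0, 1]])) 0)

set_option maxRecDepth 100000 in
/-- Facts. -/
noncomputable def d38 : Tr :=
(.nd (.nd (.nd (.nd (.nd (.nd (.nd (.lf ⟨(nat_lit 65), (nat_lit 2), (nat_lit 0), (nat_lit 0)⟩)
(.lf ⟨(nat_lit 391), (nat_lit 2), (nat_lit 0xd1c6), (nat_lit 3)⟩))
(.lf ⟨(nat_lit 392), (nat_lit 2), (nat_lit 518), (nat_lit 2)⟩))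
(.nd (.lf ⟨(nat_lit 780), (nat_lit 2), (nat_lit 0), (nat_lit 0)⟩)
(.lf ⟨(nat_lit 717), (nat_lit 2), (nat_lit 843), (nat_lit 2)⟩)))
(.nd (.nd (.nd (.lf ⟨(nat_lit 67), (nat_lit 2), (nat_lit 0x60c1), (nat_lit 3)⟩)
(.lf ⟨(nat_lit 0x34c2c81c614d30b207185), (nat_lit 14), (nat_lit 0), (nat_lit 0)⟩))
(.lf ⟨(nat_lit 327), (nat_lit 2), (nat_lit 453), (nat_lit 2)⟩))
(.nd (.lf ⟨(nat_lit 77), (nat_lit 2), (nat_lit 833), (nat_lit 2)⟩)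
(.lf ⟨(nat_lit 459), (nat_lit 2), (nat_lit 711), (nat_lit 2)⟩))))
(.nd (.nd (.nd (.nd (.lf ⟨(nat_lit 68), (nat_lit 2), (nat_lit 257), (nat_lit 2)⟩)
(.lf ⟨(nat_lit 0x1030811040c20441030811040c2044), (nat_lit 20), (nat_lit 714), (nat_lit 2)⟩))
(.lf ⟨(nat_lit 781), (nat_lit 2), (nat_lit 844), (nat_lit 2)⟩))
(.nd (.lf ⟨(nat_lit 135), (nat_lit 2), (nat_lit 450), (nat_lit 2)⟩)
(.lf ⟨(nat_lit 716), (nat_lit 2), (nat_lit 779), (nat_lit 2)⟩)))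
(.nd (.nd (.nd (.lf ⟨(nat_lit 196), (nat_lit 2), (nat_lit 0x8103), (nat_lit 3)⟩)
(.lf ⟨(nat_lit 0x8103081141), (nat_lit 7), (nat_lit 0x34c2c81440c2), (nat_lit 8)⟩))
(.lf ⟨(nat_lit 262), (nat_lit 2), (nat_lit 0xb184), (nat_lit 3)⟩))
(.nd (.lf ⟨(nat_lit 523), (nat_lit 2), (nat_lit 712), (nat_lit 2)⟩)
(.lf ⟨(nat_lit 456), (nat_lit 2), (nat_lit 0xd207), (nat_lit 3)⟩)))))
(.nd (.nd (.nd (.nd (.nd (.lf ⟨(nat_lit 195), (nat_lit 2), (nat_lit 0), (nat_lit 0)⟩)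
(.lf ⟨(nat_lit 197), (nat_lit 2), (nat_lit 0x34c143), (nat_lit 4)⟩))
(.lf ⟨(nat_lit 267), (nat_lit 2), (nat_lit 708), (nat_lit 2)⟩))
(.nd (.lf ⟨(nat_lit 845), (nat_lit 2), (nat_lit 0), (nat_lit 0)⟩)
(.lf ⟨(nat_lit 525), (nat_lit 2), (nat_lit 840), (nat_lit 2)⟩)))
(.nd (.nd (.nd (.lf ⟨(nat_lit 132), (nat_lit 2), (nat_lit 0x7102), (nat_lit 3)⟩)
(.lf ⟨(nat_lit 0x2040c2048103081), (nat_lit 10), (nat_lit 0xd30b207185), (nat_lit 7)⟩))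
(.lf ⟨(nat_lit 70), (nat_lit 2), (nat_lit 385), (nat_lit 2)⟩))
(.nd (.lf ⟨(nat_lit 263), (nat_lit 2), (nat_lit 452), (nat_lit 2)⟩)
(.lf ⟨(nat_lit 332), (nat_lit 2), (nat_lit 773), (nat_lit 2)⟩))))
(.nd (.nd (.nd (.nd (.lf ⟨(nat_lit 66), (nat_lit 2), (nat_lit 0x5081), (nat_lit 3)⟩)
(.lf ⟨(nat_lit 71), (nat_lit 2), (nat_lit 0x34b1c1), (nat_lit 4)⟩))
(.lf ⟨(nat_lit 203), (nat_lit 2), (nat_lit 707), (nat_lit 2)⟩))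
(.nd (.lf ⟨(nat_lit 75), (nat_lit 2), (nat_lit 705), (nat_lit 2)⟩)
(.lf ⟨(nat_lit 269), (nat_lit 2), (nat_lit 836), (nat_lit 2)⟩)))
(.nd (.nd (.nd (.lf ⟨(nat_lit 715), (nat_lit 2), (nat_lit 0), (nat_lit 0)⟩)
(.lf ⟨(nat_lit 0x30b20730b207), (nat_lit 8), (nat_lit 13), (nat_lit 1)⟩))
(.lf ⟨(nat_lit 460), (nat_lit 2), (nat_lit 775), (nat_lit 2)⟩))
(.nd (.lf ⟨(nat_lit 333), (nat_lit 2), (nat_lit 837), (nat_lit 2)⟩)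
(.lf ⟨(nat_lit 76), (nat_lit 2), (nat_lit 0xd301), (nat_lit 3)⟩))))))
(.nd (.nd (.nd (.nd (.nd (.nd (.lf ⟨(nat_lit 130), (nat_lit 2), (nat_lit 0), (nat_lit 0)⟩)
(.lf ⟨(nat_lit 134), (nat_lit 2), (nat_lit 0xc182), (nat_lit 3)⟩))
(.lf ⟨(nat_lit 397), (nat_lit 2), (nat_lit 838), (nat_lit 2)⟩))
(.nd (.lf ⟨(nat_lit 136), (nat_lit 2), (nat_lit 0xc202), (nat_lit 3)⟩)
(.lf ⟨(nat_lit 461), (nat_lit 2), (nat_lit 839), (nat_lit 2)⟩)))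
(.nd (.nd (.nd (.lf ⟨(nat_lit 455), (nat_lit 2), (nat_lit 0), (nat_lit 0)⟩)
(.lf ⟨(nat_lit 0x504d30b207185), (nat_lit 9), (nat_lit 0xd30b207185141), (nat_lit 9)⟩))
(.lf ⟨(nat_lit 69), (nat_lit 2), (nat_lit 321), (nat_lit 2)⟩))
(.nd (.lf ⟨(nat_lit 205), (nat_lit 2), (nat_lit 835), (nat_lit 2)⟩)
(.lf ⟨(nat_lit 396), (nat_lit 2), (nat_lit 774), (nat_lit 2)⟩))))
(.nd (.nd (.nd (.nd (.lf ⟨(nat_lit 325), (nat_lit 2), (nat_lit 0), (nat_lit 0)⟩)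
(.lf ⟨(nat_lit 10), (nat_lit 1), (nat_lit 843), (nat_lit 2)⟩))
(.lf ⟨(nat_lit 198), (nat_lit 2), (nat_lit 387), (nat_lit 2)⟩))
(.nd (.lf ⟨(nat_lit 200), (nat_lit 2), (nat_lit 515), (nat_lit 2)⟩)
(.lf ⟨(nat_lit 331), (nat_lit 2), (nat_lit 709), (nat_lit 2)⟩)))
(.nd (.nd (.nd (.lf ⟨(nat_lit 71), (nat_lit 2), (nat_lit 0xa1c1), (nat_lit 3)⟩)
(.lf ⟨(nat_lit 0x34c2c81440c234c2c81440c2), (nat_lit 16), (nat_lit 0x30b207), (nat_lit 4)⟩))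
(.lf ⟨(nat_lit 326), (nat_lit 2), (nat_lit 0xd185), (nat_lit 3)⟩))
(.nd (.lf ⟨(nat_lit 524), (nat_lit 2), (nat_lit 776), (nat_lit 2)⟩)
(.lf ⟨(nat_lit 199), (nat_lit 2), (nat_lit 0x34c1c3), (nat_lit 4)⟩)))))
(.nd (.nd (.nd (.nd (.nd (.lf ⟨(nat_lit 260), (nat_lit 2), (nat_lit 0), (nat_lit 0)⟩)
(.lf ⟨(nat_lit 0x1030811040c20441030811040c2044), (nat_lit 20), (nat_lit 13), (nat_lit 1)⟩))
(.lf ⟨(nat_lit 133), (nat_lit 2), (nat_lit 322), (nat_lit 2)⟩))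
(.nd (.lf ⟨(nat_lit 141), (nat_lit 2), (nat_lit 834), (nat_lit 2)⟩)
(.lf ⟨(nat_lit 204), (nat_lit 2), (nat_lit 771), (nat_lit 2)⟩)))
(.nd (.nd (.nd (.lf ⟨(nat_lit 520), (nat_lit 2), (nat_lit 0), (nat_lit 0)⟩)
(.lf ⟨(nat_lit 0x2040c204d30b207185), (nat_lit 12), (nat_lit 0x34c2c81c6148103081), (nat_lit 12)⟩))
(.lf ⟨(nat_lit 261), (nat_lit 2), (nat_lit 0xa144), (nat_lit 3)⟩))
(.nd (.lf ⟨(nat_lit 264), (nat_lit 2), (nat_lit 516), (nat_lit 2)⟩)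
(.lf ⟨(nat_lit 268), (nat_lit 2), (nat_lit 0xd304), (nat_lit 3)⟩))))
(.nd (.nd (.nd (.nd (.lf ⟨(nat_lit 390), (nat_lit 2), (nat_lit 0), (nat_lit 0)⟩)
(.lf ⟨(nat_lit 261), (nat_lit 2), (nat_lit 0x34b144), (nat_lit 4)⟩))
(.lf ⟨(nat_lit 131), (nat_lit 2), (nat_lit 0xd0c2), (nat_lit 3)⟩))
(.nd (.lf ⟨(nat_lit 140), (nat_lit 2), (nat_lit 770), (nat_lit 2)⟩)
(.lf ⟨(nat_lit 139), (nat_lit 2), (nat_lit 706), (nat_lit 2)⟩)))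
(.nd (.nd (.nd (.lf ⟨(nat_lit 72), (nat_lit 2), (nat_lit 0xb201), (nat_lit 3)⟩)
(.lf ⟨(nat_lit 0x2040c20450481030811412040c2045048103081141), (nat_lit 28), (nat_lit 13), (nat_lit 1)⟩))
(.lf ⟨(nat_lit 0x141141), (nat_lit 4), (nat_lit 0), (nat_lit 0)⟩))
(.nd (.lf ⟨(nat_lit 395), (nat_lit 2), (nat_lit 710), (nat_lit 2)⟩)
(.lf ⟨(nat_lit 328), (nat_lit 2), (nat_lit 0xd205), (nat_lit 3)⟩)))))))

/-- Substitution. -/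
def s38 : List (ℕ × ℕ) := [((nat_lit 321), (nat_lit 2)), ((nat_lit 0x8103081), (nat_lit 5)), ((nat_lit 0xd30b207185), (nat_lit 7))]

/-- Context. -/
noncomputable def x38 : ℕ → ℕ × ℕ :=
  mkc d36 94 s36 x36 (nth [] (Cl.alts (nsCl 2 [[0, 1, 3], [2, 1, 2], [0], [0, 1]])) 1)

set_option maxRecDepth 100000 in
/-- Facts. -/
noncomputable def d39 : Tr :=
(.nd (.nd (.nd (.lf ⟨(nat_lit 131), (nat_lit 2), (nat_lit 0xd0c2), (nat_lit 3)⟩)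
(.lf ⟨(nat_lit 131), (nat_lit 2), (nat_lit 194), (nat_lit 2)⟩))
(.lf ⟨(nat_lit 0x2040c20450481030811412040c2045048103081141), (nat_lit 28), (nat_lit 0), (nat_lit 0)⟩))
(.nd (.lf ⟨(nat_lit 0x2040c20450481030811412040c2045048103081141), (nat_lit 28), (nat_lit 13), (nat_lit 1)⟩)
(.lf ⟨(nat_lit 13), (nat_lit 1), (nat_lit 0), (nat_lit 0)⟩)))

/-- Context. -/
noncomputable def x39 : ℕ → ℕ × ℕ :=
  mkc d38 80 s38 x38 (nth [] (Cl.alts (nsCl 1 [[0, 1], [1, 1], [0]])) 0)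

set_option maxRecDepth 100000 in
/-- Facts. -/
noncomputable def d40 : Tr :=
(.nd (.lf ⟨(nat_lit 10), (nat_lit 1), (nat_lit 843), (nat_lit 2)⟩)
(.lf ⟨(nat_lit 10), (nat_lit 1), (nat_lit 843), (nat_lit 2)⟩))

/-- Context. -/
noncomputable def x40 : ℕ → ℕ × ℕ :=
  mkc d38 80 s38 x38 (nth [] (Cl.alts (nsCl 1 [[0, 1], [1, 1], [0]])) 1)

set_option maxRecDepth 100000 in
/-- Facts. -/
noncomputable def d41 : Tr :=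
(.nd (.nd (.nd (.nd (.nd (.nd (.lf ⟨(nat_lit 65), (nat_lit 2), (nat_lit 0), (nat_lit 0)⟩)
(.lf ⟨(nat_lit 716), (nat_lit 2), (nat_lit 779), (nat_lit 2)⟩))
(.lf ⟨(nat_lit 522), (nat_lit 2), (nat_lit 648), (nat_lit 2)⟩))
(.nd (.nd (.lf ⟨(nat_lit 77), (nat_lit 2), (nat_lit 833), (nat_lit 2)⟩)
(.lf ⟨(nat_lit 10), (nat_lit 1), (nat_lit 11), (nat_lit 1)⟩))
(.lf ⟨(nat_lit 9), (nat_lit 1), (nat_lit 12), (nat_lit 1)⟩)))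
(.nd (.nd (.nd (.lf ⟨(nat_lit 71), (nat_lit 2), (nat_lit 0xa1c1), (nat_lit 3)⟩)
(.lf ⟨(nat_lit 76), (nat_lit 2), (nat_lit 0xd301), (nat_lit 3)⟩))
(.lf ⟨(nat_lit 268), (nat_lit 2), (nat_lit 0xd304), (nat_lit 3)⟩))
(.nd (.lf ⟨(nat_lit 717), (nat_lit 2), (nat_lit 843), (nat_lit 2)⟩)
(.lf ⟨(nat_lit 10), (nat_lit 1), (nat_lit 11), (nat_lit 1)⟩))))
(.nd (.nd (.nd (.nd (.lf ⟨(nat_lit 455), (nat_lit 2), (nat_lit 0), (nat_lit 0)⟩)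
(.lf ⟨(nat_lit 459), (nat_lit 2), (nat_lit 711), (nat_lit 2)⟩))
(.lf ⟨(nat_lit 459), (nat_lit 2), (nat_lit 711), (nat_lit 2)⟩))
(.nd (.lf ⟨(nat_lit 69), (nat_lit 2), (nat_lit 321), (nat_lit 2)⟩)
(.lf ⟨(nat_lit 0x1030811040c20441030811040c2044), (nat_lit 20), (nat_lit 0x207185), (nat_lit 4)⟩)))
(.nd (.nd (.nd (.lf ⟨(nat_lit 72), (nat_lit 2), (nat_lit 0xb201), (nat_lit 3)⟩)
(.lf ⟨(nat_lit 9), (nat_lit 1), (nat_lit 12), (nat_lit 1)⟩))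
(.lf ⟨(nat_lit 76), (nat_lit 2), (nat_lit 0xd301), (nat_lit 3)⟩))
(.nd (.lf ⟨(nat_lit 525), (nat_lit 2), (nat_lit 840), (nat_lit 2)⟩)
(.lf ⟨(nat_lit 461), (nat_lit 2), (nat_lit 839), (nat_lit 2)⟩)))))
(.nd (.nd (.nd (.nd (.nd (.lf ⟨(nat_lit 390), (nat_lit 2), (nat_lit 0), (nat_lit 0)⟩)
(.lf ⟨(nat_lit 139), (nat_lit 2), (nat_lit 706), (nat_lit 2)⟩))
(.lf ⟨(nat_lit 139), (nat_lit 2), (nat_lit 706), (nat_lit 2)⟩))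
(.nd (.lf ⟨(nat_lit 392), (nat_lit 2), (nat_lit 518), (nat_lit 2)⟩)
(.lf ⟨(nat_lit 0x1030811040c20441030811040c2044), (nat_lit 20), (nat_lit 13), (nat_lit 1)⟩)))
(.nd (.nd (.nd (.lf ⟨(nat_lit 715), (nat_lit 2), (nat_lit 0), (nat_lit 0)⟩)
(.lf ⟨(nat_lit 391), (nat_lit 2), (nat_lit 0xd1c6), (nat_lit 3)⟩))
(.lf ⟨(nat_lit 456), (nat_lit 2), (nat_lit 0xd207), (nat_lit 3)⟩))
(.nd (.lf ⟨(nat_lit 461), (nat_lit 2), (nat_lit 839), (nat_lit 2)⟩)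
(.lf ⟨(nat_lit 717), (nat_lit 2), (nat_lit 843), (nat_lit 2)⟩))))
(.nd (.nd (.nd (.nd (.lf ⟨(nat_lit 520), (nat_lit 2), (nat_lit 0), (nat_lit 0)⟩)
(.lf ⟨(nat_lit 268), (nat_lit 2), (nat_lit 0xd304), (nat_lit 3)⟩))
(.lf ⟨(nat_lit 269), (nat_lit 2), (nat_lit 836), (nat_lit 2)⟩))
(.nd (.lf ⟨(nat_lit 70), (nat_lit 2), (nat_lit 385), (nat_lit 2)⟩)
(.lf ⟨(nat_lit 5), (nat_lit 1), (nat_lit 0x3481c6), (nat_lit 4)⟩)))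
(.nd (.nd (.nd (.lf ⟨(nat_lit 845), (nat_lit 2), (nat_lit 0), (nat_lit 0)⟩)
(.lf ⟨(nat_lit 5), (nat_lit 1), (nat_lit 0x3481c6), (nat_lit 4)⟩))
(.lf ⟨(nat_lit 391), (nat_lit 2), (nat_lit 0xd1c6), (nat_lit 3)⟩))
(.nd (.lf ⟨(nat_lit 716), (nat_lit 2), (nat_lit 779), (nat_lit 2)⟩)
(.lf ⟨(nat_lit 525), (nat_lit 2), (nat_lit 840), (nat_lit 2)⟩))))))

/-- Context. -/
noncomputable def x41 : ℕ → ℕ × ℕ :=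
  mkc d36 94 s36 x36 (nth [] (Cl.alts (nsCl 2 [[0, 1, 3], [2, 1, 2], [0], [0, 1]])) 2)

set_option maxRecDepth 100000 in
/-- Facts. -/
noncomputable def d42 : Tr :=
(.nd (.nd (.nd (.nd (.nd (.nd (.lf ⟨(nat_lit 65), (nat_lit 2), (nat_lit 0), (nat_lit 0)⟩)
(.lf ⟨(nat_lit 391), (nat_lit 2), (nat_lit 0xd1c6), (nat_lit 3)⟩))
(.nd (.lf ⟨(nat_lit 69), (nat_lit 2), (nat_lit 321), (nat_lit 2)⟩)
(.lf ⟨(nat_lit 9), (nat_lit 1), (nat_lit 12), (nat_lit 1)⟩)))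
(.nd (.nd (.lf ⟨(nat_lit 845), (nat_lit 2), (nat_lit 0), (nat_lit 0)⟩)
(.lf ⟨(nat_lit 461), (nat_lit 2), (nat_lit 839), (nat_lit 2)⟩))
(.lf ⟨(nat_lit 394), (nat_lit 2), (nat_lit 646), (nat_lit 2)⟩)))
(.nd (.nd (.nd (.lf ⟨(nat_lit 650), (nat_lit 2), (nat_lit 0), (nat_lit 0)⟩)
(.lf ⟨(nat_lit 5), (nat_lit 1), (nat_lit 0x34b2881c6), (nat_lit 6)⟩))
(.lf ⟨(nat_lit 717), (nat_lit 2), (nat_lit 843), (nat_lit 2)⟩))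
(.nd (.nd (.lf ⟨(nat_lit 523), (nat_lit 2), (nat_lit 712), (nat_lit 2)⟩)
(.lf ⟨(nat_lit 459), (nat_lit 2), (nat_lit 711), (nat_lit 2)⟩))
(.lf ⟨(nat_lit 269), (nat_lit 2), (nat_lit 836), (nat_lit 2)⟩))))
(.nd (.nd (.nd (.nd (.lf ⟨(nat_lit 455), (nat_lit 2), (nat_lit 0), (nat_lit 0)⟩)
(.lf ⟨(nat_lit 0x1030811040c20441030811040c2044), (nat_lit 20), (nat_lit 13), (nat_lit 1)⟩))
(.nd (.lf ⟨(nat_lit 651), (nat_lit 2), (nat_lit 714), (nat_lit 2)⟩)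
(.lf ⟨(nat_lit 10), (nat_lit 1), (nat_lit 11), (nat_lit 1)⟩)))
(.nd (.nd (.lf ⟨(nat_lit 75), (nat_lit 2), (nat_lit 705), (nat_lit 2)⟩)
(.lf ⟨(nat_lit 716), (nat_lit 2), (nat_lit 779), (nat_lit 2)⟩))
(.lf ⟨(nat_lit 139), (nat_lit 2), (nat_lit 706), (nat_lit 2)⟩)))
(.nd (.nd (.nd (.lf ⟨(nat_lit 715), (nat_lit 2), (nat_lit 0), (nat_lit 0)⟩)
(.lf ⟨(nat_lit 5), (nat_lit 1), (nat_lit 0x3481c6), (nat_lit 4)⟩))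
(.lf ⟨(nat_lit 525), (nat_lit 2), (nat_lit 840), (nat_lit 2)⟩))
(.nd (.nd (.lf ⟨(nat_lit 395), (nat_lit 2), (nat_lit 710), (nat_lit 2)⟩)
(.lf ⟨(nat_lit 76), (nat_lit 2), (nat_lit 0xd301), (nat_lit 3)⟩))
(.lf ⟨(nat_lit 456), (nat_lit 2), (nat_lit 0xd207), (nat_lit 3)⟩)))))
(.nd (.nd (.nd (.nd (.nd (.lf ⟨(nat_lit 390), (nat_lit 2), (nat_lit 0), (nat_lit 0)⟩)
(.lf ⟨(nat_lit 9), (nat_lit 1), (nat_lit 12), (nat_lit 1)⟩))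
(.nd (.lf ⟨(nat_lit 70), (nat_lit 2), (nat_lit 385), (nat_lit 2)⟩)
(.lf ⟨(nat_lit 5), (nat_lit 1), (nat_lit 0x3481c6), (nat_lit 4)⟩)))
(.nd (.nd (.lf ⟨(nat_lit 74), (nat_lit 2), (nat_lit 641), (nat_lit 2)⟩)
(.lf ⟨(nat_lit 525), (nat_lit 2), (nat_lit 840), (nat_lit 2)⟩))
(.lf ⟨(nat_lit 522), (nat_lit 2), (nat_lit 648), (nat_lit 2)⟩)))
(.nd (.nd (.nd (.lf ⟨(nat_lit 71), (nat_lit 2), (nat_lit 0xa1c1), (nat_lit 3)⟩)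
(.lf ⟨(nat_lit 10), (nat_lit 1), (nat_lit 11), (nat_lit 1)⟩))
(.lf ⟨(nat_lit 461), (nat_lit 2), (nat_lit 839), (nat_lit 2)⟩))
(.nd (.nd (.lf ⟨(nat_lit 458), (nat_lit 2), (nat_lit 647), (nat_lit 2)⟩)
(.lf ⟨(nat_lit 268), (nat_lit 2), (nat_lit 0xd304), (nat_lit 3)⟩))
(.lf ⟨(nat_lit 268), (nat_lit 2), (nat_lit 0xd304), (nat_lit 3)⟩))))
(.nd (.nd (.nd (.nd (.lf ⟨(nat_lit 520), (nat_lit 2), (nat_lit 0), (nat_lit 0)⟩)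
(.lf ⟨(nat_lit 0x1030811040c20441030811040c2044), (nat_lit 20), (nat_lit 0x2ca207185), (nat_lit 6)⟩))
(.lf ⟨(nat_lit 653), (nat_lit 2), (nat_lit 842), (nat_lit 2)⟩))
(.nd (.nd (.lf ⟨(nat_lit 77), (nat_lit 2), (nat_lit 833), (nat_lit 2)⟩)
(.lf ⟨(nat_lit 139), (nat_lit 2), (nat_lit 706), (nat_lit 2)⟩))
(.lf ⟨(nat_lit 459), (nat_lit 2), (nat_lit 711), (nat_lit 2)⟩)))
(.nd (.nd (.nd (.lf ⟨(nat_lit 72), (nat_lit 2), (nat_lit 0xb201), (nat_lit 3)⟩)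
(.lf ⟨(nat_lit 717), (nat_lit 2), (nat_lit 843), (nat_lit 2)⟩))
(.lf ⟨(nat_lit 716), (nat_lit 2), (nat_lit 779), (nat_lit 2)⟩))
(.nd (.nd (.lf ⟨(nat_lit 392), (nat_lit 2), (nat_lit 518), (nat_lit 2)⟩)
(.lf ⟨(nat_lit 391), (nat_lit 2), (nat_lit 0xd1c6), (nat_lit 3)⟩))
(.lf ⟨(nat_lit 76), (nat_lit 2), (nat_lit 0xd301), (nat_lit 3)⟩))))))

/-- Context. -/
noncomputable def x42 : ℕ → ℕ × ℕ :=
  mkc d36 94 s36 x36 (nth [] (Cl.alts (nsCl 2 [[0, 1, 3], [2, 1, 2], [0], [0, 1]])) 3)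

set_option maxRecDepth 100000 in
/-- Facts. -/
noncomputable def d43 : Tr :=
(.nd (.nd (.nd (.nd (.lf ⟨(nat_lit 260), (nat_lit 2), (nat_lit 0), (nat_lit 0)⟩)
(.lf ⟨(nat_lit 13), (nat_lit 1), (nat_lit 0), (nat_lit 0)⟩))
(.lf ⟨(nat_lit 268), (nat_lit 2), (nat_lit 0xd304), (nat_lit 3)⟩))
(.nd (.lf ⟨(nat_lit 131), (nat_lit 2), (nat_lit 0xd0c2), (nat_lit 3)⟩)
(.lf ⟨(nat_lit 0x470c20470c20470c20470c2), (nat_lit 16), (nat_lit 12), (nat_lit 1)⟩)))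
(.nd (.nd (.nd (.lf ⟨(nat_lit 845), (nat_lit 2), (nat_lit 0), (nat_lit 0)⟩)
(.lf ⟨(nat_lit 131), (nat_lit 2), (nat_lit 194), (nat_lit 2)⟩))
(.lf ⟨(nat_lit 0x470c20470c20470c20470c2), (nat_lit 16), (nat_lit 13), (nat_lit 1)⟩))
(.nd (.lf ⟨(nat_lit 269), (nat_lit 2), (nat_lit 836), (nat_lit 2)⟩)
(.lf ⟨(nat_lit 12), (nat_lit 1), (nat_lit 13), (nat_lit 1)⟩))))

/-- Context. -/
noncomputable def x43 : ℕ → ℕ × ℕ :=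
  mkc d32 78 s32 x32 (nth [] (Cl.alts (nsCl 2 [[2, 1, 2], [0, 1, 3], [0], [0, 1]])) 2)

set_option maxRecDepth 100000 in
/-- Facts. -/
noncomputable def d44 : Tr :=
(.nd (.nd (.nd (.nd (.nd (.lf ⟨(nat_lit 65), (nat_lit 2), (nat_lit 0), (nat_lit 0)⟩)
(.lf ⟨(nat_lit 131), (nat_lit 2), (nat_lit 194), (nat_lit 2)⟩))
(.lf ⟨(nat_lit 0x40d), (nat_lit 2), (nat_lit 848), (nat_lit 2)⟩))
(.nd (.lf ⟨(nat_lit 845), (nat_lit 2), (nat_lit 0), (nat_lit 0)⟩)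
(.lf ⟨(nat_lit 0x470c20470c20470c20470c2), (nat_lit 16), (nat_lit 0x40c), (nat_lit 2)⟩)))
(.nd (.nd (.lf ⟨(nat_lit 0x410), (nat_lit 2), (nat_lit 0), (nat_lit 0)⟩)
(.lf ⟨(nat_lit 268), (nat_lit 2), (nat_lit 0xd304), (nat_lit 3)⟩))
(.nd (.lf ⟨(nat_lit 80), (nat_lit 2), (nat_lit 0x401), (nat_lit 2)⟩)
(.lf ⟨(nat_lit 16), (nat_lit 1), (nat_lit 0), (nat_lit 0)⟩))))
(.nd (.nd (.nd (.lf ⟨(nat_lit 260), (nat_lit 2), (nat_lit 0), (nat_lit 0)⟩)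
(.lf ⟨(nat_lit 269), (nat_lit 2), (nat_lit 836), (nat_lit 2)⟩))
(.nd (.lf ⟨(nat_lit 77), (nat_lit 2), (nat_lit 833), (nat_lit 2)⟩)
(.lf ⟨(nat_lit 12), (nat_lit 1), (nat_lit 848), (nat_lit 2)⟩)))
(.nd (.nd (.lf ⟨(nat_lit 76), (nat_lit 2), (nat_lit 0x10301), (nat_lit 3)⟩)
(.lf ⟨(nat_lit 0x470c20470c20470c20470c2), (nat_lit 16), (nat_lit 13), (nat_lit 1)⟩))
(.nd (.lf ⟨(nat_lit 131), (nat_lit 2), (nat_lit 0xd0c2), (nat_lit 3)⟩)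
(.lf ⟨(nat_lit 13), (nat_lit 1), (nat_lit 0), (nat_lit 0)⟩)))))

/-- Context. -/
noncomputable def x44 : ℕ → ℕ × ℕ :=
  mkc d32 78 s32 x32 (nth [] (Cl.alts (nsCl 2 [[2, 1, 2], [0, 1, 3], [0], [0, 1]])) 3)

set_option maxRecDepth 100000 in
/-- Facts. -/
noncomputable def d45 : Tr :=
(.nd (.nd (.nd (.nd (.lf ⟨(nat_lit 65), (nat_lit 2), (nat_lit 0), (nat_lit 0)⟩)
(.lf ⟨(nat_lit 13), (nat_lit 1), (nat_lit 0), (nat_lit 0)⟩))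
(.lf ⟨(nat_lit 131), (nat_lit 2), (nat_lit 0xd0c2), (nat_lit 3)⟩))
(.nd (.nd (.lf ⟨(nat_lit 73), (nat_lit 2), (nat_lit 0xd241), (nat_lit 3)⟩)
(.lf ⟨(nat_lit 131), (nat_lit 2), (nat_lit 194), (nat_lit 2)⟩))
(.lf ⟨(nat_lit 0x203042203042203042203042), (nat_lit 16), (nat_lit 9), (nat_lit 1)⟩)))
(.nd (.nd (.nd (.lf ⟨(nat_lit 845), (nat_lit 2), (nat_lit 0), (nat_lit 0)⟩)
(.lf ⟨(nat_lit 131), (nat_lit 2), (nat_lit 194), (nat_lit 2)⟩))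
(.lf ⟨(nat_lit 0x203042203042203042203042), (nat_lit 16), (nat_lit 13), (nat_lit 1)⟩))
(.nd (.lf ⟨(nat_lit 77), (nat_lit 2), (nat_lit 833), (nat_lit 2)⟩)
(.lf ⟨(nat_lit 9), (nat_lit 1), (nat_lit 13), (nat_lit 1)⟩))))

/-- Context. -/
noncomputable def x45 : ℕ → ℕ × ℕ :=
  mkc d16 106 s16 x16 (nth [] (Cl.alts (nsCl 3 [[0, 1, 2, 6], [4, 1, 3, 4], [0], [0, 1], [0, 1, 2]])) 2)

set_option maxRecDepth 100000 in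
/-- Facts. -/
noncomputable def d46 : Tr :=
(.nd (.nd (.nd (.nd (.lf ⟨(nat_lit 65), (nat_lit 2), (nat_lit 0), (nat_lit 0)⟩)
(.lf ⟨(nat_lit 0x203042203042203042203042), (nat_lit 16), (nat_lit 0x16349), (nat_lit 3)⟩))
(.nd (.lf ⟨(nat_lit 131), (nat_lit 2), (nat_lit 0xd0c2), (nat_lit 3)⟩)
(.lf ⟨(nat_lit 131), (nat_lit 2), (nat_lit 194), (nat_lit 2)⟩)))
(.nd (.nd (.lf ⟨(nat_lit 73), (nat_lit 2), (nat_lit 0xd241), (nat_lit 3)⟩)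
(.lf ⟨(nat_lit 13), (nat_lit 1), (nat_lit 0), (nat_lit 0)⟩))
(.lf ⟨(nat_lit 86), (nat_lit 2), (nat_lit 0x581), (nat_lit 2)⟩)))
(.nd (.nd (.nd (.lf ⟨(nat_lit 845), (nat_lit 2), (nat_lit 0), (nat_lit 0)⟩)
(.lf ⟨(nat_lit 9), (nat_lit 1), (nat_lit 22), (nat_lit 1)⟩))
(.lf ⟨(nat_lit 854), (nat_lit 2), (nat_lit 0x58d), (nat_lit 2)⟩))
(.nd (.nd (.lf ⟨(nat_lit 0x596), (nat_lit 2), (nat_lit 0), (nat_lit 0)⟩)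
(.lf ⟨(nat_lit 131), (nat_lit 2), (nat_lit 194), (nat_lit 2)⟩))
(.lf ⟨(nat_lit 0x203042203042203042203042), (nat_lit 16), (nat_lit 13), (nat_lit 1)⟩))))

/-- Context. -/
noncomputable def x46 : ℕ → ℕ × ℕ :=
  mkc d16 106 s16 x16 (nth [] (Cl.alts (nsCl 3 [[0, 1, 2, 6], [4, 1, 3, 4], [0], [0, 1], [0, 1, 2]])) 3)

set_option maxRecDepth 100000 in
/-- Facts. -/
noncomputable def d47 : Tr :=
(.nd (.nd (.nd (.nd (.nd (.lf ⟨(nat_lit 65), (nat_lit 2), (nat_lit 0), (nat_lit 0)⟩)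
(.lf ⟨(nat_lit 13), (nat_lit 1), (nat_lit 0), (nat_lit 0)⟩))
(.lf ⟨(nat_lit 131), (nat_lit 2), (nat_lit 0xd0c2), (nat_lit 3)⟩))
(.nd (.lf ⟨(nat_lit 845), (nat_lit 2), (nat_lit 0), (nat_lit 0)⟩)
(.lf ⟨(nat_lit 0x203042203042203042203042), (nat_lit 16), (nat_lit 13), (nat_lit 1)⟩)))
(.nd (.nd (.nd (.lf ⟨(nat_lit 134), (nat_lit 2), (nat_lit 0x9182), (nat_lit 3)⟩)
(.lf ⟨(nat_lit 131), (nat_lit 2), (nat_lit 194), (nat_lit 2)⟩))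
(.lf ⟨(nat_lit 587), (nat_lit 2), (nat_lit 713), (nat_lit 2)⟩))
(.nd (.lf ⟨(nat_lit 141), (nat_lit 2), (nat_lit 834), (nat_lit 2)⟩)
(.lf ⟨(nat_lit 6), (nat_lit 1), (nat_lit 843), (nat_lit 2)⟩))))
(.nd (.nd (.nd (.nd (.lf ⟨(nat_lit 130), (nat_lit 2), (nat_lit 0), (nat_lit 0)⟩)
(.lf ⟨(nat_lit 131), (nat_lit 2), (nat_lit 194), (nat_lit 2)⟩))
(.lf ⟨(nat_lit 717), (nat_lit 2), (nat_lit 843), (nat_lit 2)⟩))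
(.nd (.lf ⟨(nat_lit 73), (nat_lit 2), (nat_lit 0xd241), (nat_lit 3)⟩)
(.lf ⟨(nat_lit 0x203042203042203042203042), (nat_lit 16), (nat_lit 710), (nat_lit 2)⟩)))
(.nd (.nd (.lf ⟨(nat_lit 715), (nat_lit 2), (nat_lit 0), (nat_lit 0)⟩)
(.lf ⟨(nat_lit 139), (nat_lit 2), (nat_lit 706), (nat_lit 2)⟩))
(.nd (.lf ⟨(nat_lit 589), (nat_lit 2), (nat_lit 841), (nat_lit 2)⟩)
(.lf ⟨(nat_lit 9), (nat_lit 1), (nat_lit 0), (nat_lit 0)⟩)))))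

/-- Context. -/
noncomputable def x47 : ℕ → ℕ × ℕ :=
  mkc d16 106 s16 x16 (nth [] (Cl.alts (nsCl 3 [[0, 1, 2, 6], [4, 1, 3, 4], [0], [0, 1], [0, 1, 2]])) 4)

set_option maxRecDepth 100000 in
/-- Facts. -/
noncomputable def d48 : Tr :=
(.nd (.nd (.nd (.nd (.nd (.lf ⟨(nat_lit 65), (nat_lit 2), (nat_lit 0), (nat_lit 0)⟩)
(.lf ⟨(nat_lit 6), (nat_lit 1), (nat_lit 0x58b), (nat_lit 2)⟩))
(.lf ⟨(nat_lit 726), (nat_lit 2), (nat_lit 0x58b), (nat_lit 2)⟩))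
(.nd (.nd (.lf ⟨(nat_lit 845), (nat_lit 2), (nat_lit 0), (nat_lit 0)⟩)
(.lf ⟨(nat_lit 131), (nat_lit 2), (nat_lit 194), (nat_lit 2)⟩))
(.lf ⟨(nat_lit 587), (nat_lit 2), (nat_lit 713), (nat_lit 2)⟩)))
(.nd (.nd (.nd (.lf ⟨(nat_lit 134), (nat_lit 2), (nat_lit 0x9182), (nat_lit 3)⟩)
(.lf ⟨(nat_lit 13), (nat_lit 1), (nat_lit 0), (nat_lit 0)⟩))
(.lf ⟨(nat_lit 598), (nat_lit 2), (nat_lit 0x589), (nat_lit 2)⟩))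
(.nd (.lf ⟨(nat_lit 0x596), (nat_lit 2), (nat_lit 0), (nat_lit 0)⟩)
(.lf ⟨(nat_lit 0x203042203042203042203042), (nat_lit 16), (nat_lit 13), (nat_lit 1)⟩))))
(.nd (.nd (.nd (.nd (.lf ⟨(nat_lit 130), (nat_lit 2), (nat_lit 0), (nat_lit 0)⟩)
(.lf ⟨(nat_lit 9), (nat_lit 1), (nat_lit 0), (nat_lit 0)⟩))
(.lf ⟨(nat_lit 854), (nat_lit 2), (nat_lit 0x58d), (nat_lit 2)⟩))
(.nd (.lf ⟨(nat_lit 73), (nat_lit 2), (nat_lit 0xd241), (nat_lit 3)⟩)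
(.lf ⟨(nat_lit 139), (nat_lit 2), (nat_lit 706), (nat_lit 2)⟩)))
(.nd (.nd (.nd (.lf ⟨(nat_lit 715), (nat_lit 2), (nat_lit 0), (nat_lit 0)⟩)
(.lf ⟨(nat_lit 131), (nat_lit 2), (nat_lit 194), (nat_lit 2)⟩))
(.lf ⟨(nat_lit 150), (nat_lit 2), (nat_lit 0x582), (nat_lit 2)⟩))
(.nd (.lf ⟨(nat_lit 131), (nat_lit 2), (nat_lit 0xd0c2), (nat_lit 3)⟩)
(.lf ⟨(nat_lit 0x203042203042203042203042), (nat_lit 16), (nat_lit 0x58d2c6), (nat_lit 4)⟩)))))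

/-- Context. -/
noncomputable def x48 : ℕ → ℕ × ℕ :=
  mkc d16 106 s16 x16 (nth [] (Cl.alts (nsCl 3 [[0, 1, 2, 6], [4, 1, 3, 4], [0], [0, 1], [0, 1, 2]])) 5)

set_option maxRecDepth 100000 in
/-- Facts. -/
noncomputable def d49 : Tr :=
(.nd (.nd (.nd (.nd (.nd (.lf ⟨(nat_lit 65), (nat_lit 2), (nat_lit 0), (nat_lit 0)⟩)
(.lf ⟨(nat_lit 6), (nat_lit 1), (nat_lit 0xd2c9), (nat_lit 3)⟩))
(.lf ⟨(nat_lit 137), (nat_lit 2), (nat_lit 578), (nat_lit 2)⟩))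
(.nd (.nd (.lf ⟨(nat_lit 715), (nat_lit 2), (nat_lit 0), (nat_lit 0)⟩)
(.lf ⟨(nat_lit 131), (nat_lit 2), (nat_lit 194), (nat_lit 2)⟩))
(.lf ⟨(nat_lit 587), (nat_lit 2), (nat_lit 713), (nat_lit 2)⟩)))
(.nd (.nd (.nd (.lf ⟨(nat_lit 585), (nat_lit 2), (nat_lit 0), (nat_lit 0)⟩)
(.lf ⟨(nat_lit 13), (nat_lit 1), (nat_lit 0), (nat_lit 0)⟩))
(.lf ⟨(nat_lit 131), (nat_lit 2), (nat_lit 0xd0c2), (nat_lit 3)⟩))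
(.nd (.lf ⟨(nat_lit 73), (nat_lit 2), (nat_lit 0xd241), (nat_lit 3)⟩)
(.lf ⟨(nat_lit 0x203042203042203042203042), (nat_lit 16), (nat_lit 13), (nat_lit 1)⟩))))
(.nd (.nd (.nd (.nd (.lf ⟨(nat_lit 130), (nat_lit 2), (nat_lit 0), (nat_lit 0)⟩)
(.lf ⟨(nat_lit 9), (nat_lit 1), (nat_lit 0), (nat_lit 0)⟩))
(.lf ⟨(nat_lit 589), (nat_lit 2), (nat_lit 841), (nat_lit 2)⟩))
(.nd (.lf ⟨(nat_lit 845), (nat_lit 2), (nat_lit 0), (nat_lit 0)⟩)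
(.lf ⟨(nat_lit 139), (nat_lit 2), (nat_lit 706), (nat_lit 2)⟩)))
(.nd (.nd (.nd (.lf ⟨(nat_lit 134), (nat_lit 2), (nat_lit 0x9182), (nat_lit 3)⟩)
(.lf ⟨(nat_lit 131), (nat_lit 2), (nat_lit 194), (nat_lit 2)⟩))
(.lf ⟨(nat_lit 717), (nat_lit 2), (nat_lit 843), (nat_lit 2)⟩))
(.nd (.lf ⟨(nat_lit 141), (nat_lit 2), (nat_lit 834), (nat_lit 2)⟩)
(.lf ⟨(nat_lit 0x203042203042203042203042), (nat_lit 16), (nat_lit 0x92c6), (nat_lit 3)⟩)))))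

/-- Context. -/
noncomputable def x49 : ℕ → ℕ × ℕ :=
  mkc d16 106 s16 x16 (nth [] (Cl.alts (nsCl 3 [[0, 1, 2, 6], [4, 1, 3, 4], [0], [0, 1], [0, 1, 2]])) 6)

set_option maxRecDepth 100000 in
/-- Facts. -/
noncomputable def d50 : Tr :=
(.nd (.nd (.nd (.nd (.nd (.lf ⟨(nat_lit 65), (nat_lit 2), (nat_lit 0), (nat_lit 0)⟩)
(.lf ⟨(nat_lit 0x203042203042203042203042), (nat_lit 16), (nat_lit 13), (nat_lit 1)⟩))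
(.lf ⟨(nat_lit 137), (nat_lit 2), (nat_lit 578), (nat_lit 2)⟩))
(.nd (.nd (.lf ⟨(nat_lit 715), (nat_lit 2), (nat_lit 0), (nat_lit 0)⟩)
(.lf ⟨(nat_lit 13), (nat_lit 1), (nat_lit 0), (nat_lit 0)⟩))
(.lf ⟨(nat_lit 598), (nat_lit 2), (nat_lit 0x589), (nat_lit 2)⟩)))
(.nd (.nd (.nd (.lf ⟨(nat_lit 585), (nat_lit 2), (nat_lit 0), (nat_lit 0)⟩)
(.lf ⟨(nat_lit 6), (nat_lit 1), (nat_lit 0x162c9), (nat_lit 3)⟩))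
(.lf ⟨(nat_lit 726), (nat_lit 2), (nat_lit 0x58b), (nat_lit 2)⟩))
(.nd (.nd (.lf ⟨(nat_lit 73), (nat_lit 2), (nat_lit 0xd241), (nat_lit 3)⟩)
(.lf ⟨(nat_lit 131), (nat_lit 2), (nat_lit 194), (nat_lit 2)⟩))
(.lf ⟨(nat_lit 587), (nat_lit 2), (nat_lit 713), (nat_lit 2)⟩))))
(.nd (.nd (.nd (.nd (.lf ⟨(nat_lit 130), (nat_lit 2), (nat_lit 0), (nat_lit 0)⟩)
(.lf ⟨(nat_lit 0x203042203042203042203042), (nat_lit 16), (nat_lit 0x163492c6), (nat_lit 5)⟩))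
(.lf ⟨(nat_lit 131), (nat_lit 2), (nat_lit 0xd0c2), (nat_lit 3)⟩))
(.nd (.nd (.lf ⟨(nat_lit 845), (nat_lit 2), (nat_lit 0), (nat_lit 0)⟩)
(.lf ⟨(nat_lit 131), (nat_lit 2), (nat_lit 194), (nat_lit 2)⟩))
(.lf ⟨(nat_lit 150), (nat_lit 2), (nat_lit 0x582), (nat_lit 2)⟩)))
(.nd (.nd (.nd (.lf ⟨(nat_lit 134), (nat_lit 2), (nat_lit 0x9182), (nat_lit 3)⟩)
(.lf ⟨(nat_lit 9), (nat_lit 1), (nat_lit 0), (nat_lit 0)⟩))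
(.lf ⟨(nat_lit 854), (nat_lit 2), (nat_lit 0x58d), (nat_lit 2)⟩))
(.nd (.lf ⟨(nat_lit 0x596), (nat_lit 2), (nat_lit 0), (nat_lit 0)⟩)
(.lf ⟨(nat_lit 139), (nat_lit 2), (nat_lit 706), (nat_lit 2)⟩)))))

/-- Context. -/
noncomputable def x50 : ℕ → ℕ × ℕ :=
  mkc d16 106 s16 x16 (nth [] (Cl.alts (nsCl 3 [[0, 1, 2, 6], [4, 1, 3, 4], [0], [0, 1], [0, 1, 2]])) 7)

set_option maxRecDepth 100000 in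
/-- Facts. -/
noncomputable def d51 : Tr :=
(.nd (.nd (.nd (.nd (.nd (.lf ⟨(nat_lit 65), (nat_lit 2), (nat_lit 0), (nat_lit 0)⟩)
(.lf ⟨(nat_lit 131), (nat_lit 2), (nat_lit 194), (nat_lit 2)⟩))
(.lf ⟨(nat_lit 275), (nat_lit 2), (nat_lit 0x4c4), (nat_lit 2)⟩))
(.nd (.lf ⟨(nat_lit 73), (nat_lit 2), (nat_lit 0xd241), (nat_lit 3)⟩)
(.lf ⟨(nat_lit 9), (nat_lit 1), (nat_lit 15), (nat_lit 1)⟩)))
(.nd (.nd (.lf ⟨(nat_lit 975), (nat_lit 2), (nat_lit 0), (nat_lit 0)⟩)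
(.lf ⟨(nat_lit 0x5cb18308a0572c60c22815cb18308a0572c60c2281), (nat_lit 28), (nat_lit 13), (nat_lit 1)⟩))
(.nd (.lf ⟨(nat_lit 79), (nat_lit 2), (nat_lit 0x133c1), (nat_lit 3)⟩)
(.lf ⟨(nat_lit 131), (nat_lit 2), (nat_lit 0x130c2), (nat_lit 3)⟩))))
(.nd (.nd (.nd (.lf ⟨(nat_lit 260), (nat_lit 2), (nat_lit 0), (nat_lit 0)⟩)
(.lf ⟨(nat_lit 269), (nat_lit 2), (nat_lit 0x13344), (nat_lit 3)⟩))
(.nd (.lf ⟨(nat_lit 0x4d3), (nat_lit 2), (nat_lit 0), (nat_lit 0)⟩)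
(.lf ⟨(nat_lit 13), (nat_lit 1), (nat_lit 19), (nat_lit 1)⟩)))
(.nd (.nd (.lf ⟨(nat_lit 845), (nat_lit 2), (nat_lit 0), (nat_lit 0)⟩)
(.lf ⟨(nat_lit 0x5cb18308a0572c60c22815cb18308a0572c60c2281), (nat_lit 28), (nat_lit 0xd3c9), (nat_lit 3)⟩))
(.nd (.lf ⟨(nat_lit 131), (nat_lit 2), (nat_lit 0xd0c2), (nat_lit 3)⟩)
(.lf ⟨(nat_lit 19), (nat_lit 1), (nat_lit 0), (nat_lit 0)⟩)))))

/-- Context. -/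
noncomputable def x51 : ℕ → ℕ × ℕ :=
  mkc d12 99 s12 x12 (nth [] (Cl.alts (nsCl 2 [[0, 1, 3], [2, 1, 2], [0], [0, 1]])) 2)

set_option maxRecDepth 100000 in
/-- Facts. -/
noncomputable def d52 : Tr :=
(.nd (.nd (.nd (.nd (.nd (.lf ⟨(nat_lit 65), (nat_lit 2), (nat_lit 0), (nat_lit 0)⟩)
(.lf ⟨(nat_lit 0x5cb18308a0572c60c22815cb18308a0572c60c2281), (nat_lit 28), (nat_lit 0x1334d3c9), (nat_lit 5)⟩))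
(.lf ⟨(nat_lit 83), (nat_lit 2), (nat_lit 0x4c1), (nat_lit 2)⟩))
(.nd (.nd (.lf ⟨(nat_lit 73), (nat_lit 2), (nat_lit 0xd241), (nat_lit 3)⟩)
(.lf ⟨(nat_lit 19), (nat_lit 1), (nat_lit 0), (nat_lit 0)⟩))
(.lf ⟨(nat_lit 851), (nat_lit 2), (nat_lit 0x4cd), (nat_lit 2)⟩)))
(.nd (.nd (.nd (.lf ⟨(nat_lit 975), (nat_lit 2), (nat_lit 0), (nat_lit 0)⟩)
(.lf ⟨(nat_lit 13), (nat_lit 1), (nat_lit 19), (nat_lit 1)⟩))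
(.lf ⟨(nat_lit 131), (nat_lit 2), (nat_lit 0xd0c2), (nat_lit 3)⟩))
(.nd (.lf ⟨(nat_lit 79), (nat_lit 2), (nat_lit 0x133c1), (nat_lit 3)⟩)
(.lf ⟨(nat_lit 269), (nat_lit 2), (nat_lit 0x13344), (nat_lit 3)⟩))))
(.nd (.nd (.nd (.nd (.lf ⟨(nat_lit 260), (nat_lit 2), (nat_lit 0), (nat_lit 0)⟩)
(.lf ⟨(nat_lit 9), (nat_lit 1), (nat_lit 0x1334f), (nat_lit 3)⟩))
(.lf ⟨(nat_lit 979), (nat_lit 2), (nat_lit 0x4cf), (nat_lit 2)⟩))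
(.nd (.nd (.lf ⟨(nat_lit 0x4d3), (nat_lit 2), (nat_lit 0), (nat_lit 0)⟩)
(.lf ⟨(nat_lit 131), (nat_lit 2), (nat_lit 194), (nat_lit 2)⟩))
(.lf ⟨(nat_lit 973), (nat_lit 2), (nat_lit 847), (nat_lit 2)⟩)))
(.nd (.nd (.nd (.lf ⟨(nat_lit 845), (nat_lit 2), (nat_lit 0), (nat_lit 0)⟩)
(.lf ⟨(nat_lit 131), (nat_lit 2), (nat_lit 0x130c2), (nat_lit 3)⟩))
(.lf ⟨(nat_lit 275), (nat_lit 2), (nat_lit 0x4c4), (nat_lit 2)⟩))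
(.nd (.lf ⟨(nat_lit 77), (nat_lit 2), (nat_lit 833), (nat_lit 2)⟩)
(.lf ⟨(nat_lit 0x5cb18308a0572c60c22815cb18308a0572c60c2281), (nat_lit 28), (nat_lit 13), (nat_lit 1)⟩)))))

/-- Context. -/
noncomputable def x52 : ℕ → ℕ × ℕ :=
  mkc d12 99 s12 x12 (nth [] (Cl.alts (nsCl 2 [[0, 1, 3], [2, 1, 2], [0], [0, 1]])) 3)

set_option maxRecDepth 100000 in
/-- Facts. -/
noncomputable def d53 : Tr :=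
(.nd (.nd (.nd (.nd (.nd (.nd (.nd (.lf ⟨(nat_lit 65), (nat_lit 2), (nat_lit 0), (nat_lit 0)⟩)
(.lf ⟨(nat_lit 328), (nat_lit 2), (nat_lit 0x55340f205), (nat_lit 6)⟩))
(.lf ⟨(nat_lit 266), (nat_lit 2), (nat_lit 644), (nat_lit 2)⟩))
(.nd (.nd (.lf ⟨(nat_lit 0x4d3), (nat_lit 2), (nat_lit 0), (nat_lit 0)⟩)
(.lf ⟨(nat_lit 394), (nat_lit 2), (nat_lit 0x13286), (nat_lit 3)⟩))
(.lf ⟨(nat_lit 526), (nat_lit 2), (nat_lit 904), (nat_lit 2)⟩)))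
(.nd (.nd (.nd (.lf ⟨(nat_lit 910), (nat_lit 2), (nat_lit 0), (nat_lit 0)⟩)
(.lf ⟨(nat_lit 326), (nat_lit 2), (nat_lit 0x12185), (nat_lit 3)⟩))
(.lf ⟨(nat_lit 659), (nat_lit 2), (nat_lit 0x4ca), (nat_lit 2)⟩))
(.nd (.nd (.lf ⟨(nat_lit 914), (nat_lit 2), (nat_lit 0x48e), (nat_lit 2)⟩)
(.lf ⟨(nat_lit 0x2850c42850c42850c42850c4), (nat_lit 16), (nat_lit 0x5d4), (nat_lit 2)⟩))
(.lf ⟨(nat_lit 462), (nat_lit 2), (nat_lit 0x1a387), (nat_lit 3)⟩))))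
(.nd (.nd (.nd (.nd (.lf ⟨(nat_lit 455), (nat_lit 2), (nat_lit 0), (nat_lit 0)⟩)
(.lf ⟨(nat_lit 9), (nat_lit 1), (nat_lit 0x48e), (nat_lit 2)⟩))
(.lf ⟨(nat_lit 275), (nat_lit 2), (nat_lit 0x4c4), (nat_lit 2)⟩))
(.nd (.nd (.lf ⟨(nat_lit 0x69a), (nat_lit 2), (nat_lit 0), (nat_lit 0)⟩)
(.lf ⟨(nat_lit 0x2850ca143), (nat_lit 6), (nat_lit 0), (nat_lit 0)⟩))
(.lf ⟨(nat_lit 0x414), (nat_lit 2), (nat_lit 0x510), (nat_lit 2)⟩)))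
(.nd (.nd (.nd (.lf ⟨(nat_lit 845), (nat_lit 2), (nat_lit 0), (nat_lit 0)⟩)
(.lf ⟨(nat_lit 328), (nat_lit 2), (nat_lit 0x1340f205), (nat_lit 5)⟩))
(.lf ⟨(nat_lit 0x417), (nat_lit 2), (nat_lit 0x5d0), (nat_lit 2)⟩))
(.nd (.lf ⟨(nat_lit 330), (nat_lit 2), (nat_lit 645), (nat_lit 2)⟩)
(.lf ⟨(nat_lit 457), (nat_lit 2), (nat_lit 0x695247), (nat_lit 4)⟩)))))
(.nd (.nd (.nd (.nd (.nd (.lf ⟨(nat_lit 260), (nat_lit 2), (nat_lit 0), (nat_lit 0)⟩)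
(.lf ⟨(nat_lit 0x1412860c21412860c21412860c21412860c2), (nat_lit 24), (nat_lit 13), (nat_lit 1)⟩))
(.lf ⟨(nat_lit 850), (nat_lit 2), (nat_lit 0x48d), (nat_lit 2)⟩))
(.nd (.nd (.lf ⟨(nat_lit 208), (nat_lit 2), (nat_lit 0x16403), (nat_lit 3)⟩)
(.lf ⟨(nat_lit 131), (nat_lit 2), (nat_lit 0x130c2), (nat_lit 3)⟩))
(.lf ⟨(nat_lit 915), (nat_lit 2), (nat_lit 0x4ce), (nat_lit 2)⟩)))
(.nd (.nd (.nd (.lf ⟨(nat_lit 975), (nat_lit 2), (nat_lit 0), (nat_lit 0)⟩)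
(.lf ⟨(nat_lit 22), (nat_lit 1), (nat_lit 0), (nat_lit 0)⟩))
(.lf ⟨(nat_lit 0x413), (nat_lit 2), (nat_lit 0x4d0), (nat_lit 2)⟩))
(.nd (.lf ⟨(nat_lit 980), (nat_lit 2), (nat_lit 0x50f), (nat_lit 2)⟩)
(.lf ⟨(nat_lit 269), (nat_lit 2), (nat_lit 0x4d2344), (nat_lit 4)⟩))))
(.nd (.nd (.nd (.nd (.lf ⟨(nat_lit 196), (nat_lit 2), (nat_lit 0x8103), (nat_lit 3)⟩)
(.lf ⟨(nat_lit 197), (nat_lit 2), (nat_lit 0xe143), (nat_lit 3)⟩))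
(.lf ⟨(nat_lit 274), (nat_lit 2), (nat_lit 0x484), (nat_lit 2)⟩))
(.nd (.nd (.lf ⟨(nat_lit 200), (nat_lit 2), (nat_lit 515), (nat_lit 2)⟩)
(.lf ⟨(nat_lit 0x4d03ca2051034d03ca205103), (nat_lit 16), (nat_lit 0x1340f288), (nat_lit 5)⟩))
(.lf ⟨(nat_lit 522), (nat_lit 2), (nat_lit 0x5d4288), (nat_lit 4)⟩)))
(.nd (.nd (.nd (.lf ⟨(nat_lit 0x492), (nat_lit 2), (nat_lit 0), (nat_lit 0)⟩)
(.lf ⟨(nat_lit 202), (nat_lit 2), (nat_lit 0x1340f283), (nat_lit 5)⟩))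
(.lf ⟨(nat_lit 655), (nat_lit 2), (nat_lit 970), (nat_lit 2)⟩))
(.nd (.lf ⟨(nat_lit 261), (nat_lit 2), (nat_lit 0xa144), (nat_lit 3)⟩)
(.lf ⟨(nat_lit 528), (nat_lit 2), (nat_lit 0x408), (nat_lit 2)⟩))))))
(.nd (.nd (.nd (.nd (.nd (.nd (.lf ⟨(nat_lit 195), (nat_lit 2), (nat_lit 0), (nat_lit 0)⟩)
(.lf ⟨(nat_lit 265), (nat_lit 2), (nat_lit 0x5d65544903ce244), (nat_lit 10)⟩))
(.lf ⟨(nat_lit 394), (nat_lit 2), (nat_lit 0x12286), (nat_lit 3)⟩))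
(.nd (.nd (.lf ⟨(nat_lit 0x514), (nat_lit 2), (nat_lit 0), (nat_lit 0)⟩)
(.lf ⟨(nat_lit 197), (nat_lit 2), (nat_lit 0x1340f143), (nat_lit 5)⟩))
(.lf ⟨(nat_lit 0x4da), (nat_lit 2), (nat_lit 0x693), (nat_lit 2)⟩)))
(.nd (.nd (.nd (.lf ⟨(nat_lit 202), (nat_lit 2), (nat_lit 0xe283), (nat_lit 3)⟩)
(.lf ⟨(nat_lit 18), (nat_lit 1), (nat_lit 19), (nat_lit 1)⟩))
(.lf ⟨(nat_lit 976), (nat_lit 2), (nat_lit 0x40f), (nat_lit 2)⟩))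
(.nd (.lf ⟨(nat_lit 979), (nat_lit 2), (nat_lit 0x4cf), (nat_lit 2)⟩)
(.lf ⟨(nat_lit 207), (nat_lit 2), (nat_lit 963), (nat_lit 2)⟩))))
(.nd (.nd (.nd (.nd (.lf ⟨(nat_lit 520), (nat_lit 2), (nat_lit 0), (nat_lit 0)⟩)
(.lf ⟨(nat_lit 13), (nat_lit 1), (nat_lit 18), (nat_lit 1)⟩))
(.lf ⟨(nat_lit 663), (nat_lit 2), (nat_lit 0x5ca), (nat_lit 2)⟩))
(.nd (.nd (.lf ⟨(nat_lit 260), (nat_lit 2), (nat_lit 0), (nat_lit 0)⟩)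
(.lf ⟨(nat_lit 0x2850c4), (nat_lit 4), (nat_lit 0x4d03ca205103), (nat_lit 8)⟩))
(.lf ⟨(nat_lit 983), (nat_lit 2), (nat_lit 0x5cf), (nat_lit 2)⟩)))
(.nd (.nd (.nd (.lf ⟨(nat_lit 73), (nat_lit 2), (nat_lit 0xd241), (nat_lit 3)⟩)
(.lf ⟨(nat_lit 14), (nat_lit 1), (nat_lit 0x1340f), (nat_lit 3)⟩))
(.lf ⟨(nat_lit 660), (nat_lit 2), (nat_lit 0x50a), (nat_lit 2)⟩))
(.nd (.lf ⟨(nat_lit 131), (nat_lit 2), (nat_lit 0xd0c2), (nat_lit 3)⟩)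
(.lf ⟨(nat_lit 211), (nat_lit 2), (nat_lit 0x4c3), (nat_lit 2)⟩)))))
(.nd (.nd (.nd (.nd (.nd (.lf ⟨(nat_lit 325), (nat_lit 2), (nat_lit 0), (nat_lit 0)⟩)
(.lf ⟨(nat_lit 0x1412860c21412860c21412860c21412860c2), (nat_lit 24), (nat_lit 0x48d389), (nat_lit 4)⟩))
(.lf ⟨(nat_lit 531), (nat_lit 2), (nat_lit 0x4c8), (nat_lit 2)⟩))
(.nd (.nd (.lf ⟨(nat_lit 0x5d7), (nat_lit 2), (nat_lit 0), (nat_lit 0)⟩)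
(.lf ⟨(nat_lit 326), (nat_lit 2), (nat_lit 0x13185), (nat_lit 3)⟩))
(.lf ⟨(nat_lit 656), (nat_lit 2), (nat_lit 0x40a), (nat_lit 2)⟩)))
(.nd (.nd (.nd (.lf ⟨(nat_lit 0x410), (nat_lit 2), (nat_lit 0), (nat_lit 0)⟩)
(.lf ⟨(nat_lit 21), (nat_lit 1), (nat_lit 0), (nat_lit 0)⟩))
(.lf ⟨(nat_lit 0x4d4), (nat_lit 2), (nat_lit 0x513), (nat_lit 2)⟩))
(.nd (.lf ⟨(nat_lit 197), (nat_lit 2), (nat_lit 0x349143), (nat_lit 4)⟩)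
(.lf ⟨(nat_lit 521), (nat_lit 2), (nat_lit 0x16248), (nat_lit 3)⟩))))
(.nd (.nd (.nd (.nd (.lf ⟨(nat_lit 650), (nat_lit 2), (nat_lit 0), (nat_lit 0)⟩)
(.lf ⟨(nat_lit 131), (nat_lit 2), (nat_lit 0x120c2), (nat_lit 3)⟩))
(.lf ⟨(nat_lit 467), (nat_lit 2), (nat_lit 0x4c7), (nat_lit 2)⟩))
(.nd (.nd (.lf ⟨(nat_lit 82), (nat_lit 2), (nat_lit 0x481), (nat_lit 2)⟩)
(.lf ⟨(nat_lit 0x4d03ca21340f288), (nat_lit 10), (nat_lit 0x5d4), (nat_lit 2)⟩))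
(.lf ⟨(nat_lit 270), (nat_lit 2), (nat_lit 0x5d4384), (nat_lit 4)⟩)))
(.nd (.nd (.nd (.lf ⟨(nat_lit 78), (nat_lit 2), (nat_lit 0x12381), (nat_lit 3)⟩)
(.lf ⟨(nat_lit 208), (nat_lit 2), (nat_lit 0x403), (nat_lit 2)⟩))
(.lf ⟨(nat_lit 0x4d7), (nat_lit 2), (nat_lit 0x5d3), (nat_lit 2)⟩))
(.nd (.lf ⟨(nat_lit 326), (nat_lit 2), (nat_lit 0xd185), (nat_lit 3)⟩)
(.lf ⟨(nat_lit 527), (nat_lit 2), (nat_lit 968), (nat_lit 2)⟩)))))))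

/-- Substitution. -/
def s53 : List (ℕ × ℕ) := [((nat_lit 4), (nat_lit 1)), ((nat_lit 0xa143), (nat_lit 3))]

/-- Context. -/
noncomputable def x53 : ℕ → ℕ × ℕ :=
  mkc d6 86 s6 x6 (nth [] (Cl.alts (nsCl 2 [[2, 1, 2], [0, 1, 3], [0], [0, 1]])) 2)

set_option maxRecDepth 100000 in
/-- Facts. -/
noncomputable def d54 : Tr :=
(.nd (.nd (.nd (.nd (.nd (.nd (.lf ⟨(nat_lit 65), (nat_lit 2), (nat_lit 0), (nat_lit 0)⟩)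
(.lf ⟨(nat_lit 723), (nat_lit 2), (nat_lit 0x4cb), (nat_lit 2)⟩))
(.nd (.lf ⟨(nat_lit 0x5d7), (nat_lit 2), (nat_lit 0), (nat_lit 0)⟩)
(.lf ⟨(nat_lit 527), (nat_lit 2), (nat_lit 968), (nat_lit 2)⟩)))
(.nd (.nd (.lf ⟨(nat_lit 196), (nat_lit 2), (nat_lit 0x8103), (nat_lit 3)⟩)
(.lf ⟨(nat_lit 655), (nat_lit 2), (nat_lit 970), (nat_lit 2)⟩))
(.nd (.lf ⟨(nat_lit 979), (nat_lit 2), (nat_lit 0x4cf), (nat_lit 2)⟩)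
(.lf ⟨(nat_lit 0x2850c42850c42850c42850c4), (nat_lit 16), (nat_lit 0x5d4), (nat_lit 2)⟩))))
(.nd (.nd (.nd (.lf ⟨(nat_lit 325), (nat_lit 2), (nat_lit 0), (nat_lit 0)⟩)
(.lf ⟨(nat_lit 659), (nat_lit 2), (nat_lit 0x4ca), (nat_lit 2)⟩))
(.nd (.lf ⟨(nat_lit 80), (nat_lit 2), (nat_lit 0x401), (nat_lit 2)⟩)
(.lf ⟨(nat_lit 394), (nat_lit 2), (nat_lit 0x13286), (nat_lit 3)⟩)))
(.nd (.nd (.lf ⟨(nat_lit 975), (nat_lit 2), (nat_lit 0), (nat_lit 0)⟩)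
(.lf ⟨(nat_lit 207), (nat_lit 2), (nat_lit 963), (nat_lit 2)⟩))
(.nd (.lf ⟨(nat_lit 69), (nat_lit 2), (nat_lit 321), (nat_lit 2)⟩)
(.lf ⟨(nat_lit 0xa143101), (nat_lit 5), (nat_lit 0x1340f2881440c1), (nat_lit 9)⟩)))))
(.nd (.nd (.nd (.nd (.lf ⟨(nat_lit 260), (nat_lit 2), (nat_lit 0), (nat_lit 0)⟩)
(.lf ⟨(nat_lit 651), (nat_lit 2), (nat_lit 714), (nat_lit 2)⟩))
(.nd (.lf ⟨(nat_lit 200), (nat_lit 2), (nat_lit 515), (nat_lit 2)⟩)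
(.lf ⟨(nat_lit 202), (nat_lit 2), (nat_lit 0x1340f283), (nat_lit 5)⟩)))
(.nd (.nd (.lf ⟨(nat_lit 715), (nat_lit 2), (nat_lit 0), (nat_lit 0)⟩)
(.lf ⟨(nat_lit 400), (nat_lit 2), (nat_lit 0x406), (nat_lit 2)⟩))
(.nd (.lf ⟨(nat_lit 392), (nat_lit 2), (nat_lit 518), (nat_lit 2)⟩)
(.lf ⟨(nat_lit 20), (nat_lit 1), (nat_lit 23), (nat_lit 1)⟩))))
(.nd (.nd (.nd (.lf ⟨(nat_lit 67), (nat_lit 2), (nat_lit 0x60c1), (nat_lit 3)⟩)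
(.lf ⟨(nat_lit 976), (nat_lit 2), (nat_lit 0x40f), (nat_lit 2)⟩))
(.nd (.lf ⟨(nat_lit 523), (nat_lit 2), (nat_lit 712), (nat_lit 2)⟩)
(.lf ⟨(nat_lit 326), (nat_lit 2), (nat_lit 0x13185), (nat_lit 3)⟩)))
(.nd (.nd (.lf ⟨(nat_lit 0x4d3), (nat_lit 2), (nat_lit 0), (nat_lit 0)⟩)
(.lf ⟨(nat_lit 399), (nat_lit 2), (nat_lit 966), (nat_lit 2)⟩))
(.nd (.lf ⟨(nat_lit 262), (nat_lit 2), (nat_lit 0xb184), (nat_lit 3)⟩)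
(.lf ⟨(nat_lit 0x4d03cb28819340f2ca206), (nat_lit 14), (nat_lit 19), (nat_lit 1)⟩))))))
(.nd (.nd (.nd (.nd (.nd (.lf ⟨(nat_lit 195), (nat_lit 2), (nat_lit 0), (nat_lit 0)⟩)
(.lf ⟨(nat_lit 266), (nat_lit 2), (nat_lit 644), (nat_lit 2)⟩))
(.nd (.lf ⟨(nat_lit 0x101101), (nat_lit 4), (nat_lit 0), (nat_lit 0)⟩)
(.lf ⟨(nat_lit 328), (nat_lit 2), (nat_lit 0x1340f205), (nat_lit 5)⟩)))
(.nd (.nd (.lf ⟨(nat_lit 650), (nat_lit 2), (nat_lit 0), (nat_lit 0)⟩)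
(.lf ⟨(nat_lit 656), (nat_lit 2), (nat_lit 0x40a), (nat_lit 2)⟩))
(.nd (.lf ⟨(nat_lit 395), (nat_lit 2), (nat_lit 710), (nat_lit 2)⟩)
(.lf ⟨(nat_lit 0x2850c42850c42850c42850c4), (nat_lit 16), (nat_lit 0), (nat_lit 0)⟩))))
(.nd (.nd (.nd (.lf ⟨(nat_lit 390), (nat_lit 2), (nat_lit 0), (nat_lit 0)⟩)
(.lf ⟨(nat_lit 720), (nat_lit 2), (nat_lit 0x40b), (nat_lit 2)⟩))
(.nd (.lf ⟨(nat_lit 83), (nat_lit 2), (nat_lit 0x4c1), (nat_lit 2)⟩)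
(.lf ⟨(nat_lit 197), (nat_lit 2), (nat_lit 0x1340f143), (nat_lit 5)⟩)))
(.nd (.nd (.lf ⟨(nat_lit 0x410), (nat_lit 2), (nat_lit 0), (nat_lit 0)⟩)
(.lf ⟨(nat_lit 403), (nat_lit 2), (nat_lit 0x4c6), (nat_lit 2)⟩))
(.nd (.lf ⟨(nat_lit 261), (nat_lit 2), (nat_lit 0xa144), (nat_lit 3)⟩)
(.lf ⟨(nat_lit 0x4d03ca20510305340f2881440c1), (nat_lit 18), (nat_lit 0x1340f2ca206), (nat_lit 7)⟩)))))
(.nd (.nd (.nd (.nd (.lf ⟨(nat_lit 68), (nat_lit 2), (nat_lit 257), (nat_lit 2)⟩)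
(.lf ⟨(nat_lit 275), (nat_lit 2), (nat_lit 0x4c4), (nat_lit 2)⟩))
(.nd (.lf ⟨(nat_lit 74), (nat_lit 2), (nat_lit 641), (nat_lit 2)⟩)
(.lf ⟨(nat_lit 208), (nat_lit 2), (nat_lit 0x403), (nat_lit 2)⟩)))
(.nd (.nd (.lf ⟨(nat_lit 72), (nat_lit 2), (nat_lit 0xb201), (nat_lit 3)⟩)
(.lf ⟨(nat_lit 522), (nat_lit 2), (nat_lit 0x5d4288), (nat_lit 4)⟩))
(.nd (.lf ⟨(nat_lit 198), (nat_lit 2), (nat_lit 387), (nat_lit 2)⟩)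
(.lf ⟨(nat_lit 522), (nat_lit 2), (nat_lit 648), (nat_lit 2)⟩))))
(.nd (.nd (.nd (.lf ⟨(nat_lit 520), (nat_lit 2), (nat_lit 0), (nat_lit 0)⟩)
(.lf ⟨(nat_lit 0x413), (nat_lit 2), (nat_lit 0x4d0), (nat_lit 2)⟩))
(.nd (.lf ⟨(nat_lit 719), (nat_lit 2), (nat_lit 971), (nat_lit 2)⟩)
(.lf ⟨(nat_lit 0x2850ca143), (nat_lit 6), (nat_lit 0), (nat_lit 0)⟩)))
(.nd (.nd (.lf ⟨(nat_lit 79), (nat_lit 2), (nat_lit 0x133c1), (nat_lit 3)⟩)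
(.lf ⟨(nat_lit 528), (nat_lit 2), (nat_lit 0x408), (nat_lit 2)⟩))
(.nd (.lf ⟨(nat_lit 331), (nat_lit 2), (nat_lit 0x132c5), (nat_lit 3)⟩)
(.lf ⟨(nat_lit 0x2850c404a1431012850c404a143101), (nat_lit 20), (nat_lit 19), (nat_lit 1)⟩)))))))

/-- Substitution. -/
def s54 : List (ℕ × ℕ) := [((nat_lit 257), (nat_lit 2)), ((nat_lit 0xa143), (nat_lit 3))]

/-- Context. -/
noncomputable def x54 : ℕ → ℕ × ℕ :=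
  mkc d53 89 s53 x53 (nth [] (Cl.alts (nsCl 0 [[0], [0]])) 0)

set_option maxRecDepth 100000 in
/-- Facts. -/
noncomputable def d55 : Tr :=
(.nd (.nd (.nd (.lf ⟨(nat_lit 131), (nat_lit 2), (nat_lit 0x130c2), (nat_lit 3)⟩)
(.lf ⟨(nat_lit 131), (nat_lit 2), (nat_lit 194), (nat_lit 2)⟩))
(.lf ⟨(nat_lit 0x2850c404a1431012850c404a143101), (nat_lit 20), (nat_lit 0), (nat_lit 0)⟩))
(.nd (.lf ⟨(nat_lit 0x2850c404a1431012850c404a143101), (nat_lit 20), (nat_lit 19), (nat_lit 1)⟩)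
(.lf ⟨(nat_lit 19), (nat_lit 1), (nat_lit 0), (nat_lit 0)⟩)))

/-- Context. -/
noncomputable def x55 : ℕ → ℕ × ℕ :=
  mkc d54 64 s54 x54 (nth [] (Cl.alts (nsCl 0 [[0], [0]])) 0)

set_option maxRecDepth 100000 in
/-- Facts. -/
noncomputable def d56 : Tr :=
(.nd (.nd (.nd (.nd (.nd (.nd (.nd (.lf ⟨(nat_lit 65), (nat_lit 2), (nat_lit 0), (nat_lit 0)⟩)
(.lf ⟨(nat_lit 269), (nat_lit 2), (nat_lit 0x4d2344), (nat_lit 4)⟩))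
(.lf ⟨(nat_lit 326), (nat_lit 2), (nat_lit 0xd185), (nat_lit 3)⟩))
(.nd (.nd (.lf ⟨(nat_lit 0x4d3), (nat_lit 2), (nat_lit 0), (nat_lit 0)⟩)
(.lf ⟨(nat_lit 18), (nat_lit 1), (nat_lit 19), (nat_lit 1)⟩))
(.lf ⟨(nat_lit 272), (nat_lit 2), (nat_lit 0x17404), (nat_lit 3)⟩)))
(.nd (.nd (.nd (.lf ⟨(nat_lit 910), (nat_lit 2), (nat_lit 0), (nat_lit 0)⟩)
(.lf ⟨(nat_lit 265), (nat_lit 2), (nat_lit 0x5d65544903ce244), (nat_lit 10)⟩))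
(.lf ⟨(nat_lit 336), (nat_lit 2), (nat_lit 0x405), (nat_lit 2)⟩))
(.nd (.nd (.lf ⟨(nat_lit 276), (nat_lit 2), (nat_lit 0x504), (nat_lit 2)⟩)
(.lf ⟨(nat_lit 131), (nat_lit 2), (nat_lit 0x130c2), (nat_lit 3)⟩))
(.lf ⟨(nat_lit 535), (nat_lit 2), (nat_lit 0x5c8), (nat_lit 2)⟩))))
(.nd (.nd (.nd (.nd (.lf ⟨(nat_lit 455), (nat_lit 2), (nat_lit 0), (nat_lit 0)⟩)
(.lf ⟨(nat_lit 212), (nat_lit 2), (nat_lit 0x503), (nat_lit 2)⟩))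
(.lf ⟨(nat_lit 394), (nat_lit 2), (nat_lit 0x12286), (nat_lit 3)⟩))
(.nd (.nd (.lf ⟨(nat_lit 0x69a), (nat_lit 2), (nat_lit 0), (nat_lit 0)⟩)
(.lf ⟨(nat_lit 14), (nat_lit 1), (nat_lit 0x1340f), (nat_lit 3)⟩))
(.lf ⟨(nat_lit 909), (nat_lit 2), (nat_lit 846), (nat_lit 2)⟩)))
(.nd (.nd (.nd (.lf ⟨(nat_lit 845), (nat_lit 2), (nat_lit 0), (nat_lit 0)⟩)
(.lf ⟨(nat_lit 13), (nat_lit 1), (nat_lit 18), (nat_lit 1)⟩))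
(.lf ⟨(nat_lit 976), (nat_lit 2), (nat_lit 0x40f), (nat_lit 2)⟩))
(.nd (.nd (.lf ⟨(nat_lit 980), (nat_lit 2), (nat_lit 0x50f), (nat_lit 2)⟩)
(.lf ⟨(nat_lit 0x5d42881440d750a205103), (nat_lit 14), (nat_lit 0x1751340f288), (nat_lit 7)⟩))
(.lf ⟨(nat_lit 983), (nat_lit 2), (nat_lit 0x5cf), (nat_lit 2)⟩)))))
(.nd (.nd (.nd (.nd (.nd (.lf ⟨(nat_lit 260), (nat_lit 2), (nat_lit 0), (nat_lit 0)⟩)
(.lf ⟨(nat_lit 457), (nat_lit 2), (nat_lit 0x695247), (nat_lit 4)⟩))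
(.lf ⟨(nat_lit 266), (nat_lit 2), (nat_lit 644), (nat_lit 2)⟩))
(.nd (.nd (.lf ⟨(nat_lit 271), (nat_lit 2), (nat_lit 0x143c4), (nat_lit 3)⟩)
(.lf ⟨(nat_lit 21), (nat_lit 1), (nat_lit 0), (nat_lit 0)⟩))
(.lf ⟨(nat_lit 0x4d7), (nat_lit 2), (nat_lit 0x5d3), (nat_lit 2)⟩)))
(.nd (.nd (.nd (.lf ⟨(nat_lit 975), (nat_lit 2), (nat_lit 0), (nat_lit 0)⟩)
(.lf ⟨(nat_lit 0x1412860c21412860c21412860c21412860c2), (nat_lit 24), (nat_lit 0x48d48d389), (nat_lit 6)⟩))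
(.lf ⟨(nat_lit 467), (nat_lit 2), (nat_lit 0x4c7), (nat_lit 2)⟩))
(.nd (.nd (.lf ⟨(nat_lit 264), (nat_lit 2), (nat_lit 516), (nat_lit 2)⟩)
(.lf ⟨(nat_lit 0x2050c8143), (nat_lit 6), (nat_lit 0), (nat_lit 0)⟩))
(.lf ⟨(nat_lit 656), (nat_lit 2), (nat_lit 0x40a), (nat_lit 2)⟩))))
(.nd (.nd (.nd (.nd (.lf ⟨(nat_lit 196), (nat_lit 2), (nat_lit 0x8103), (nat_lit 3)⟩)
(.lf ⟨(nat_lit 527), (nat_lit 2), (nat_lit 968), (nat_lit 2)⟩))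
(.lf ⟨(nat_lit 531), (nat_lit 2), (nat_lit 0x4c8), (nat_lit 2)⟩))
(.nd (.nd (.lf ⟨(nat_lit 200), (nat_lit 2), (nat_lit 515), (nat_lit 2)⟩)
(.lf ⟨(nat_lit 394), (nat_lit 2), (nat_lit 0x13286), (nat_lit 3)⟩))
(.lf ⟨(nat_lit 0x4da), (nat_lit 2), (nat_lit 0x693), (nat_lit 2)⟩)))
(.nd (.nd (.nd (.lf ⟨(nat_lit 0x492), (nat_lit 2), (nat_lit 0), (nat_lit 0)⟩)
(.lf ⟨(nat_lit 131), (nat_lit 2), (nat_lit 0x120c2), (nat_lit 3)⟩))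
(.lf ⟨(nat_lit 0x4d4), (nat_lit 2), (nat_lit 0x513), (nat_lit 2)⟩))
(.nd (.nd (.lf ⟨(nat_lit 131), (nat_lit 2), (nat_lit 0xd0c2), (nat_lit 3)⟩)
(.lf ⟨(nat_lit 0x108143108143108143108143), (nat_lit 16), (nat_lit 0x5d4), (nat_lit 2)⟩))
(.lf ⟨(nat_lit 270), (nat_lit 2), (nat_lit 0x5d4384), (nat_lit 4)⟩))))))
(.nd (.nd (.nd (.nd (.nd (.nd (.lf ⟨(nat_lit 195), (nat_lit 2), (nat_lit 0), (nat_lit 0)⟩)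
(.lf ⟨(nat_lit 521), (nat_lit 2), (nat_lit 0x16248), (nat_lit 3)⟩))
(.lf ⟨(nat_lit 339), (nat_lit 2), (nat_lit 0x4c5), (nat_lit 2)⟩))
(.nd (.nd (.lf ⟨(nat_lit 0x514), (nat_lit 2), (nat_lit 0), (nat_lit 0)⟩)
(.lf ⟨(nat_lit 22), (nat_lit 1), (nat_lit 0), (nat_lit 0)⟩))
(.lf ⟨(nat_lit 655), (nat_lit 2), (nat_lit 970), (nat_lit 2)⟩)))
(.nd (.nd (.nd (.lf ⟨(nat_lit 202), (nat_lit 2), (nat_lit 0xe283), (nat_lit 3)⟩)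
(.lf ⟨(nat_lit 0x1412860c21412860c21412860c21412860c2), (nat_lit 24), (nat_lit 13), (nat_lit 1)⟩))
(.lf ⟨(nat_lit 274), (nat_lit 2), (nat_lit 0x484), (nat_lit 2)⟩))
(.nd (.nd (.lf ⟨(nat_lit 279), (nat_lit 2), (nat_lit 0x5c4), (nat_lit 2)⟩)
(.lf ⟨(nat_lit 326), (nat_lit 2), (nat_lit 0x13185), (nat_lit 3)⟩))
(.lf ⟨(nat_lit 532), (nat_lit 2), (nat_lit 0x508), (nat_lit 2)⟩))))
(.nd (.nd (.nd (.nd (.lf ⟨(nat_lit 520), (nat_lit 2), (nat_lit 0), (nat_lit 0)⟩)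
(.lf ⟨(nat_lit 528), (nat_lit 2), (nat_lit 0x408), (nat_lit 2)⟩))
(.lf ⟨(nat_lit 850), (nat_lit 2), (nat_lit 0x48d), (nat_lit 2)⟩))
(.nd (.nd (.lf ⟨(nat_lit 260), (nat_lit 2), (nat_lit 0), (nat_lit 0)⟩)
(.lf ⟨(nat_lit 202), (nat_lit 2), (nat_lit 0x1340f283), (nat_lit 5)⟩))
(.lf ⟨(nat_lit 526), (nat_lit 2), (nat_lit 904), (nat_lit 2)⟩)))
(.nd (.nd (.nd (.lf ⟨(nat_lit 73), (nat_lit 2), (nat_lit 0xd241), (nat_lit 3)⟩)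
(.lf ⟨(nat_lit 197), (nat_lit 2), (nat_lit 0xe143), (nat_lit 3)⟩))
(.lf ⟨(nat_lit 0x413), (nat_lit 2), (nat_lit 0x4d0), (nat_lit 2)⟩))
(.nd (.nd (.lf ⟨(nat_lit 197), (nat_lit 2), (nat_lit 0x349143), (nat_lit 4)⟩)
(.lf ⟨(nat_lit 0x5d44d03ca21751340f288), (nat_lit 14), (nat_lit 0x5d4), (nat_lit 2)⟩))
(.lf ⟨(nat_lit 522), (nat_lit 2), (nat_lit 0x5d4288), (nat_lit 4)⟩)))))
(.nd (.nd (.nd (.nd (.nd (.lf ⟨(nat_lit 325), (nat_lit 2), (nat_lit 0), (nat_lit 0)⟩)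
(.lf ⟨(nat_lit 215), (nat_lit 2), (nat_lit 0x5c3), (nat_lit 2)⟩))
(.lf ⟨(nat_lit 335), (nat_lit 2), (nat_lit 965), (nat_lit 2)⟩))
(.nd (.nd (.lf ⟨(nat_lit 0x5d7), (nat_lit 2), (nat_lit 0), (nat_lit 0)⟩)
(.lf ⟨(nat_lit 328), (nat_lit 2), (nat_lit 0x1340f205), (nat_lit 5)⟩))
(.lf ⟨(nat_lit 0x517), (nat_lit 2), (nat_lit 0x5d4), (nat_lit 2)⟩)))
(.nd (.nd (.nd (.lf ⟨(nat_lit 0x410), (nat_lit 2), (nat_lit 0), (nat_lit 0)⟩)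
(.lf ⟨(nat_lit 9), (nat_lit 1), (nat_lit 846), (nat_lit 2)⟩))
(.lf ⟨(nat_lit 659), (nat_lit 2), (nat_lit 0x4ca), (nat_lit 2)⟩))
(.nd (.nd (.lf ⟨(nat_lit 979), (nat_lit 2), (nat_lit 0x4cf), (nat_lit 2)⟩)
(.lf ⟨(nat_lit 0x108143), (nat_lit 4), (nat_lit 0x1750a205103), (nat_lit 7)⟩))
(.lf ⟨(nat_lit 0x414), (nat_lit 2), (nat_lit 0x510), (nat_lit 2)⟩))))
(.nd (.nd (.nd (.nd (.lf ⟨(nat_lit 650), (nat_lit 2), (nat_lit 0), (nat_lit 0)⟩)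
(.lf ⟨(nat_lit 328), (nat_lit 2), (nat_lit 0x55340f205), (nat_lit 6)⟩))
(.lf ⟨(nat_lit 275), (nat_lit 2), (nat_lit 0x4c4), (nat_lit 2)⟩))
(.nd (.nd (.lf ⟨(nat_lit 77), (nat_lit 2), (nat_lit 833), (nat_lit 2)⟩)
(.lf ⟨(nat_lit 197), (nat_lit 2), (nat_lit 0x1340f143), (nat_lit 5)⟩))
(.lf ⟨(nat_lit 915), (nat_lit 2), (nat_lit 0x4ce), (nat_lit 2)⟩)))
(.nd (.nd (.nd (.lf ⟨(nat_lit 78), (nat_lit 2), (nat_lit 0x12381), (nat_lit 3)⟩)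
(.lf ⟨(nat_lit 326), (nat_lit 2), (nat_lit 0x12185), (nat_lit 3)⟩))
(.lf ⟨(nat_lit 0x417), (nat_lit 2), (nat_lit 0x5d0), (nat_lit 2)⟩))
(.nd (.lf ⟨(nat_lit 261), (nat_lit 2), (nat_lit 0xa144), (nat_lit 3)⟩)
(.lf ⟨(nat_lit 462), (nat_lit 2), (nat_lit 0x1a387), (nat_lit 3)⟩)))))))

/-- Substitution. -/
def s56 : List (ℕ × ℕ) := [((nat_lit 0x8143), (nat_lit 3)), ((nat_lit 4), (nat_lit 1))]

/-- Context. -/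
noncomputable def x56 : ℕ → ℕ × ℕ :=
  mkc d6 86 s6 x6 (nth [] (Cl.alts (nsCl 2 [[2, 1, 2], [0, 1, 3], [0], [0, 1]])) 3)

set_option maxRecDepth 100000 in
/-- Facts. -/
noncomputable def d57 : Tr :=
(.nd (.nd (.nd (.nd (.nd (.nd (.lf ⟨(nat_lit 65), (nat_lit 2), (nat_lit 0), (nat_lit 0)⟩)
(.lf ⟨(nat_lit 651), (nat_lit 2), (nat_lit 714), (nat_lit 2)⟩))
(.nd (.lf ⟨(nat_lit 74), (nat_lit 2), (nat_lit 641), (nat_lit 2)⟩)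
(.lf ⟨(nat_lit 202), (nat_lit 2), (nat_lit 0x1340f283), (nat_lit 5)⟩)))
(.nd (.nd (.lf ⟨(nat_lit 196), (nat_lit 2), (nat_lit 0x8103), (nat_lit 3)⟩)
(.lf ⟨(nat_lit 656), (nat_lit 2), (nat_lit 0x40a), (nat_lit 2)⟩))
(.nd (.lf ⟨(nat_lit 330), (nat_lit 2), (nat_lit 645), (nat_lit 2)⟩)
(.lf ⟨(nat_lit 0x2850ca143), (nat_lit 6), (nat_lit 0), (nat_lit 0)⟩))))
(.nd (.nd (.nd (.lf ⟨(nat_lit 325), (nat_lit 2), (nat_lit 0), (nat_lit 0)⟩)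
(.lf ⟨(nat_lit 720), (nat_lit 2), (nat_lit 0x40b), (nat_lit 2)⟩))
(.nd (.lf ⟨(nat_lit 719), (nat_lit 2), (nat_lit 971), (nat_lit 2)⟩)
(.lf ⟨(nat_lit 0x108143108143108143108143), (nat_lit 16), (nat_lit 0x5d4), (nat_lit 2)⟩)))
(.nd (.nd (.lf ⟨(nat_lit 0x410), (nat_lit 2), (nat_lit 0), (nat_lit 0)⟩)
(.lf ⟨(nat_lit 399), (nat_lit 2), (nat_lit 966), (nat_lit 2)⟩))
(.nd (.lf ⟨(nat_lit 262), (nat_lit 2), (nat_lit 0xb184), (nat_lit 3)⟩)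
(.lf ⟨(nat_lit 0x1012850c404a1431012850c404a143), (nat_lit 20), (nat_lit 19), (nat_lit 1)⟩)))))
(.nd (.nd (.nd (.nd (.lf ⟨(nat_lit 260), (nat_lit 2), (nat_lit 0), (nat_lit 0)⟩)
(.lf ⟨(nat_lit 275), (nat_lit 2), (nat_lit 0x4c4), (nat_lit 2)⟩))
(.nd (.lf ⟨(nat_lit 264), (nat_lit 2), (nat_lit 516), (nat_lit 2)⟩)
(.lf ⟨(nat_lit 197), (nat_lit 2), (nat_lit 0x1340f143), (nat_lit 5)⟩)))
(.nd (.nd (.lf ⟨(nat_lit 715), (nat_lit 2), (nat_lit 0), (nat_lit 0)⟩)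
(.lf ⟨(nat_lit 522), (nat_lit 2), (nat_lit 0x5d4288), (nat_lit 4)⟩))
(.nd (.lf ⟨(nat_lit 70), (nat_lit 2), (nat_lit 385), (nat_lit 2)⟩)
(.lf ⟨(nat_lit 0x2c61440c12c61440c1), (nat_lit 12), (nat_lit 0x40f2ca206), (nat_lit 6)⟩))))
(.nd (.nd (.nd (.lf ⟨(nat_lit 67), (nat_lit 2), (nat_lit 0x60c1), (nat_lit 3)⟩)
(.lf ⟨(nat_lit 0x413), (nat_lit 2), (nat_lit 0x4d0), (nat_lit 2)⟩))
(.nd (.lf ⟨(nat_lit 395), (nat_lit 2), (nat_lit 710), (nat_lit 2)⟩)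
(.lf ⟨(nat_lit 20), (nat_lit 1), (nat_lit 23), (nat_lit 1)⟩)))
(.nd (.nd (.lf ⟨(nat_lit 0x5d7), (nat_lit 2), (nat_lit 0), (nat_lit 0)⟩)
(.lf ⟨(nat_lit 527), (nat_lit 2), (nat_lit 968), (nat_lit 2)⟩))
(.lf ⟨(nat_lit 723), (nat_lit 2), (nat_lit 0x4cb), (nat_lit 2)⟩)))))
(.nd (.nd (.nd (.nd (.nd (.lf ⟨(nat_lit 195), (nat_lit 2), (nat_lit 0), (nat_lit 0)⟩)
(.lf ⟨(nat_lit 531), (nat_lit 2), (nat_lit 0x4c8), (nat_lit 2)⟩))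
(.nd (.lf ⟨(nat_lit 75), (nat_lit 2), (nat_lit 705), (nat_lit 2)⟩)
(.lf ⟨(nat_lit 394), (nat_lit 2), (nat_lit 0x13286), (nat_lit 3)⟩)))
(.nd (.nd (.lf ⟨(nat_lit 650), (nat_lit 2), (nat_lit 0), (nat_lit 0)⟩)
(.lf ⟨(nat_lit 400), (nat_lit 2), (nat_lit 0x406), (nat_lit 2)⟩))
(.nd (.lf ⟨(nat_lit 69), (nat_lit 2), (nat_lit 321), (nat_lit 2)⟩)
(.lf ⟨(nat_lit 0x404a143), (nat_lit 5), (nat_lit 0x2c61440c1), (nat_lit 6)⟩))))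
(.nd (.nd (.nd (.lf ⟨(nat_lit 390), (nat_lit 2), (nat_lit 0), (nat_lit 0)⟩)
(.lf ⟨(nat_lit 976), (nat_lit 2), (nat_lit 0x40f), (nat_lit 2)⟩))
(.nd (.lf ⟨(nat_lit 979), (nat_lit 2), (nat_lit 0x4cf), (nat_lit 2)⟩)
(.lf ⟨(nat_lit 0x108143108143108143108143), (nat_lit 16), (nat_lit 0), (nat_lit 0)⟩)))
(.nd (.nd (.lf ⟨(nat_lit 0x4d3), (nat_lit 2), (nat_lit 0), (nat_lit 0)⟩)
(.lf ⟨(nat_lit 528), (nat_lit 2), (nat_lit 0x408), (nat_lit 2)⟩))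
(.lf ⟨(nat_lit 331), (nat_lit 2), (nat_lit 0x132c5), (nat_lit 3)⟩))))
(.nd (.nd (.nd (.nd (.lf ⟨(nat_lit 68), (nat_lit 2), (nat_lit 257), (nat_lit 2)⟩)
(.lf ⟨(nat_lit 659), (nat_lit 2), (nat_lit 0x4ca), (nat_lit 2)⟩))
(.nd (.lf ⟨(nat_lit 523), (nat_lit 2), (nat_lit 712), (nat_lit 2)⟩)
(.lf ⟨(nat_lit 326), (nat_lit 2), (nat_lit 0x13185), (nat_lit 3)⟩)))
(.nd (.nd (.lf ⟨(nat_lit 975), (nat_lit 2), (nat_lit 0), (nat_lit 0)⟩)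
(.lf ⟨(nat_lit 403), (nat_lit 2), (nat_lit 0x4c6), (nat_lit 2)⟩))
(.nd (.lf ⟨(nat_lit 261), (nat_lit 2), (nat_lit 0xa144), (nat_lit 3)⟩)
(.lf ⟨(nat_lit 0x40f2ca20640f2ca206), (nat_lit 12), (nat_lit 19), (nat_lit 1)⟩))))
(.nd (.nd (.nd (.lf ⟨(nat_lit 520), (nat_lit 2), (nat_lit 0), (nat_lit 0)⟩)
(.lf ⟨(nat_lit 655), (nat_lit 2), (nat_lit 970), (nat_lit 2)⟩))
(.nd (.lf ⟨(nat_lit 392), (nat_lit 2), (nat_lit 518), (nat_lit 2)⟩)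
(.lf ⟨(nat_lit 522), (nat_lit 2), (nat_lit 648), (nat_lit 2)⟩)))
(.nd (.nd (.lf ⟨(nat_lit 0x101101), (nat_lit 4), (nat_lit 0), (nat_lit 0)⟩)
(.lf ⟨(nat_lit 328), (nat_lit 2), (nat_lit 0x1340f205), (nat_lit 5)⟩))
(.lf ⟨(nat_lit 266), (nat_lit 2), (nat_lit 644), (nat_lit 2)⟩))))))

/-- Substitution. -/
def s57 : List (ℕ × ℕ) := [((nat_lit 0xa143), (nat_lit 3)), ((nat_lit 257), (nat_lit 2))]

/-- Context. -/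
noncomputable def x57 : ℕ → ℕ × ℕ :=
  mkc d56 95 s56 x56 (nth [] (Cl.alts (nsCl 0 [[0], [0]])) 0)

set_option maxRecDepth 100000 in
/-- Facts. -/
noncomputable def d58 : Tr :=
(.nd (.nd (.nd (.lf ⟨(nat_lit 131), (nat_lit 2), (nat_lit 0x130c2), (nat_lit 3)⟩)
(.lf ⟨(nat_lit 131), (nat_lit 2), (nat_lit 194), (nat_lit 2)⟩))
(.lf ⟨(nat_lit 0x1012850c404a1431012850c404a143), (nat_lit 20), (nat_lit 0), (nat_lit 0)⟩))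
(.nd (.lf ⟨(nat_lit 0x1012850c404a1431012850c404a143), (nat_lit 20), (nat_lit 19), (nat_lit 1)⟩)
(.lf ⟨(nat_lit 19), (nat_lit 1), (nat_lit 0), (nat_lit 0)⟩)))

/-- Context. -/
noncomputable def x58 : ℕ → ℕ × ℕ :=
  mkc d57 61 s57 x57 (nth [] (Cl.alts (nsCl 0 [[0], [0]])) 0)

end Pool.Agent.Lib.MP_3b0e0c_al.D.H1
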