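import Pool.Agent.Lib.MP_3b0e0c_al.D.H3D

namespace Pool.Agent.Lib.MP_3b0e0c_al.D.H3

open S

set_option maxRecDepth 100000 in
/-- Justifications. -/
noncomputable def J40_0 : List Js := [
.h (nat_lit 0x13029),
.h (nat_lit 0x1302f),
.h (nat_lit 0x131c3),
.h (nat_lit 0x137c5),
.h (nat_lit 0x1384d),
.h (nat_lit 0xb046),
.h (nat_lit 0x903e),
.h (nat_lit 0x9041),
.h (nat_lit 0x9042),
.h (nat_lit 0x9043),
.h (nat_lit 0x505d),
.h (nat_lit 0x5062),
.h (nat_lit 0x3045),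
.h (nat_lit 0x103f),
.h (nat_lit 0x1041),
.h (nat_lit 0x1049),
.h (nat_lit 0),
.c (nat_lit 7) (nat_lit 0x1804008000080000f0000840800602001),
.c (nat_lit 1) (nat_lit 6),
.c (nat_lit 1) (nat_lit 8),
.c (nat_lit 1) (nat_lit 10),
.c (nat_lit 1) (nat_lit 12),
.c (nat_lit 1) (nat_lit 14),
.c (nat_lit 1) (nat_lit 16),
.c (nat_lit 1) (nat_lit 18),
.c (nat_lit 1) (nat_lit 20),
.c (nat_lit 1) (nat_lit 22),
.c (nat_lit 1) (nat_lit 24),
.c (nat_lit 1) (nat_lit 26),
.c (nat_lit 1) (nat_lit 28),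
.c (nat_lit 1) (nat_lit 34)]

theorem c40_0 : ck d40 x40 ths 31 J40_0 0 = true := by decide +kernel

set_option maxRecDepth 100000 in
/-- Justifications. -/
noncomputable def J41_0 : List Js := [
.h (nat_lit 0x12000),
.h (nat_lit 0x11033),
.h (nat_lit 0x11044),
.h (nat_lit 0x703e),
.h (nat_lit 0x7043),
.h (nat_lit 0x305d),
.h (nat_lit 0x3062),
.h (nat_lit 0x1047),
.h (nat_lit 0x1051),
.h (nat_lit 0),
.c (nat_lit 4) (nat_lit 0x20000400002602005),
.c (nat_lit 5) (nat_lit 0x100a00800c0802a00001),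
.c (nat_lit 2) (nat_lit 0xc02c0000e),
.c (nat_lit 1) (nat_lit 6),
.c (nat_lit 1) (nat_lit 8),
.c (nat_lit 1) (nat_lit 10),
.c (nat_lit 1) (nat_lit 12),
.c (nat_lit 1) (nat_lit 20),
.c (nat_lit 1) (nat_lit 22),
.c (nat_lit 1) (nat_lit 24)]

theorem c41_0 : ck d41 x41 ths 20 J41_0 0 = true := by decide +kernel

set_option maxRecDepth 100000 in
/-- Justifications. -/
noncomputable def J42_0 : List Js := [
.h (nat_lit 0x12000),
.h (nat_lit 0x11032),
.h (nat_lit 0x11033),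
.h (nat_lit 0x11044),
.h (nat_lit 0x1117c),
.h (nat_lit 0x1134d),
.h (nat_lit 0x703e),
.h (nat_lit 0x7043),
.h (nat_lit 0x305d),
.h (nat_lit 0x3062),
.h (nat_lit 0x1047),
.h (nat_lit 0x1051),
.h (nat_lit 0),
.c (nat_lit 6) (nat_lit 0xc000160000c80802c0800e02003),
.c (nat_lit 7) (nat_lit 0x80040401a0100200806c0401200001),
.c (nat_lit 2) (nat_lit 0xc03800014),
.c (nat_lit 2) (nat_lit 0x380001a),
.c (nat_lit 1) (nat_lit 12),
.c (nat_lit 1) (nat_lit 14),
.c (nat_lit 1) (nat_lit 16),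
.c (nat_lit 1) (nat_lit 18),
.c (nat_lit 1) (nat_lit 32),
.c (nat_lit 1) (nat_lit 28),
.c (nat_lit 1) (nat_lit 30)]

theorem c42_0 : ck d42 x42 ths 24 J42_0 0 = true := by decide +kernel

set_option maxRecDepth 100000 in
/-- Justifications. -/
noncomputable def J43_0 : List Js := [
.h (nat_lit 0x10000),
.h (nat_lit 0xf02f),
.h (nat_lit 0xf032),
.h (nat_lit 0xf044),
.h (nat_lit 0xf045),
.h (nat_lit 0xf17c),
.h (nat_lit 0xf181),
.h (nat_lit 0xf207),
.h (nat_lit 0xf34d),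
.h (nat_lit 0xf3dd),
.h (nat_lit 0xf84d),
.h (nat_lit 0x1065),
.h (nat_lit 0x1076),
.h (nat_lit 0),
.c (nat_lit 7) (nat_lit 0x4804028000100000c00006c0800a02003),
.c (nat_lit 13) (nat_lit 0x4010010100001800c0801c030040180741401a0800b0300b8100040400600005),
.c (nat_lit 2) (nat_lit 0x803c0000e),
.c (nat_lit 1) (nat_lit 32)]

theorem c43_0 : ck d43 x43 ths 18 J43_0 0 = true := by decide +kernel

set_option maxRecDepth 100000 in
/-- Justifications. -/
noncomputable def J44_0 : List Js := [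
.h (nat_lit 0x10000),
.h (nat_lit 0xf02f),
.h (nat_lit 0xf032),
.h (nat_lit 0xf03e),
.h (nat_lit 0xf044),
.h (nat_lit 0xf045),
.h (nat_lit 0xf17c),
.h (nat_lit 0xf1ca),
.h (nat_lit 0xf207),
.h (nat_lit 0xf208),
.h (nat_lit 0xf379),
.h (nat_lit 0xf3dd),
.h (nat_lit 0x1065),
.h (nat_lit 0x1076),
.h (nat_lit 0),
.c (nat_lit 10) (nat_lit 0x2c0201400007000020000340001d0400481801c0800a02003),
.c (nat_lit 14) (nat_lit 0xc0200402001018000100300a00c06009020078100160a01f0300081000c0400a00007),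
.c (nat_lit 2) (nat_lit 0x804000010),
.c (nat_lit 1) (nat_lit 34)]

theorem c44_0 : ck d44 x44 ths 19 J44_0 0 = true := by decide +kernel

set_option maxRecDepth 100000 in
/-- Justifications. -/
noncomputable def J45_0 : List Js := [
.h (nat_lit 0x10000),
.h (nat_lit 0x10001),
.h (nat_lit 0xf02a),
.h (nat_lit 0xf044),
.h (nat_lit 0xf045),
.h (nat_lit 0xf06a),
.h (nat_lit 0xf1c3),
.h (nat_lit 0xf207),
.h (nat_lit 0x1076),
.h (nat_lit 0),
.c (nat_lit 2) (nat_lit 0x2000013),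
.c (nat_lit 9) (nat_lit 0x20200300802804028020050200a8100340c00e00003),
.c (nat_lit 5) (nat_lit 0x100b0080240802e00001),
.c (nat_lit 2) (nat_lit 0x80300000e),
.c (nat_lit 1) (nat_lit 26)]

theorem c45_0 : ck d45 x45 ths 15 J45_0 0 = true := by decide +kernel

set_option maxRecDepth 100000 in
/-- Justifications. -/
noncomputable def J46_0 : List Js := [
.h (nat_lit 0x10000),
.h (nat_lit 0x10001),
.h (nat_lit 0xf02a),
.h (nat_lit 0xf03e),
.h (nat_lit 0xf044),
.h (nat_lit 0xf045),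
.h (nat_lit 0xf207),
.h (nat_lit 0xf840),
.h (nat_lit 0xf873),
.h (nat_lit 0x1076),
.h (nat_lit 0),
.c (nat_lit 5) (nat_lit 0x8000090000540801202007),
.c (nat_lit 9) (nat_lit 0x2020030080400402c020050200b81003c0c00e00003),
.c (nat_lit 5) (nat_lit 0x100c00802c0803200001),
.c (nat_lit 2) (nat_lit 0x80340000c),
.c (nat_lit 1) (nat_lit 28)]

theorem c46_0 : ck d46 x46 ths 16 J46_0 0 = true := by decide +kernel

set_option maxRecDepth 100000 in
/-- Justifications. -/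
noncomputable def J47_0 : List Js := [
.h (nat_lit 0x10000),
.h (nat_lit 0x10001),
.h (nat_lit 0xf029),
.h (nat_lit 0xf02a),
.h (nat_lit 0xf02f),
.h (nat_lit 0xf032),
.h (nat_lit 0xf03e),
.h (nat_lit 0xf044),
.h (nat_lit 0xf045),
.h (nat_lit 0xf06a),
.h (nat_lit 0xf17e),
.h (nat_lit 0xf1c3),
.h (nat_lit 0xf1ca),
.h (nat_lit 0xf207),
.h (nat_lit 0xf208),
.h (nat_lit 0xf34d),
.h (nat_lit 0xf379),
.h (nat_lit 0xf3dd),
.h (nat_lit 0xf7c5),
.h (nat_lit 0xf84d),
.h (nat_lit 0xf870),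
.h (nat_lit 0x5043),
.h (nat_lit 0x3046),
.h (nat_lit 0x1076),
.h (nat_lit 0),
.c (nat_lit 11) (nat_lit 0x900405004016000110080980003c0002e0001881802c0801202005),
.c (nat_lit 22) (nat_lit 0x40400803010018028100300800e02002018090100500a016020190080180406608013030168100ac0402a0c00f0500682002c0c01200003),
.c (nat_lit 8) (nat_lit 0x60080000803804034020088180d4040020000d),
.c (nat_lit 2) (nat_lit 0x806c0001a),
.c (nat_lit 1) (nat_lit 56)]

theorem c47_0 : ck d47 x47 ths 30 J47_0 0 = true := by decide +kernel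

set_option maxRecDepth 100000 in
/-- Justifications. -/
noncomputable def J48_0 : List Js := [
.h (nat_lit 0x10000),
.h (nat_lit 0x10001),
.h (nat_lit 0xf029),
.h (nat_lit 0xf02a),
.h (nat_lit 0xf02f),
.h (nat_lit 0xf032),
.h (nat_lit 0xf03e),
.h (nat_lit 0xf044),
.h (nat_lit 0xf045),
.h (nat_lit 0xf17e),
.h (nat_lit 0xf1ca),
.h (nat_lit 0xf207),
.h (nat_lit 0xf208),
.h (nat_lit 0xf379),
.h (nat_lit 0xf3dd),
.h (nat_lit 0xf7c5),
.h (nat_lit 0xf840),
.h (nat_lit 0xf870),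
.h (nat_lit 0xf873),
.h (nat_lit 0x5043),
.h (nat_lit 0x3046),
.h (nat_lit 0x1076),
.h (nat_lit 0),
.c (nat_lit 14) (nat_lit 0x3c02022020100000700403400014000070000a80005a0a00f0400681802c0801202005),
.c (nat_lit 20) (nat_lit 0x10100200c0340600a0400a0100100c03c08022050100100b80400c0202f040128180a40804e020130500682002c0c01200003),
.c (nat_lit 8) (nat_lit 0x60080000803004030020088180c4040020000d),
.c (nat_lit 2) (nat_lit 0x806400016),
.c (nat_lit 1) (nat_lit 52)]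

theorem c48_0 : ck d48 x48 ths 28 J48_0 0 = true := by decide +kernel

set_option maxRecDepth 100000 in
/-- Justifications. -/
noncomputable def J49_0 : List Js := [
.h (nat_lit 0xe000),
.h (nat_lit 0xe001),
.h (nat_lit 0xe002),
.h (nat_lit 0xe003),
.h (nat_lit 0xe004),
.h (nat_lit 0xd01d),
.h (nat_lit 0xd01e),
.h (nat_lit 0xd020),
.h (nat_lit 0xd021),
.h (nat_lit 0xd023),
.h (nat_lit 0xd024),
.h (nat_lit 0xd026),
.h (nat_lit 0xd027),
.h (nat_lit 0xd029),
.h (nat_lit 0xd02a),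
.h (nat_lit 0xd02d),
.h (nat_lit 0xd02f),
.h (nat_lit 0xd030),
.h (nat_lit 0xd032),
.h (nat_lit 0xd033),
.h (nat_lit 0xd035),
.h (nat_lit 0xd036),
.h (nat_lit 0xd03e),
.h (nat_lit 0xd03f),
.h (nat_lit 0xd042),
.h (nat_lit 0xd044),
.h (nat_lit 0xd05f),
.h (nat_lit 0xd06a),
.h (nat_lit 0xd090),
.h (nat_lit 0xd17a),
.h (nat_lit 0xd17c),
.h (nat_lit 0xd17e),
.h (nat_lit 0xd180),
.h (nat_lit 0xd181),
.h (nat_lit 0xd182),
.h (nat_lit 0xd186),
.h (nat_lit 0xd1b5),
.h (nat_lit 0xd1b6),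
.h (nat_lit 0xd1bc),
.h (nat_lit 0xd1bd),
.h (nat_lit 0xd1c0),
.h (nat_lit 0xd1c3),
.h (nat_lit 0xd1c5),
.h (nat_lit 0xd1dc),
.h (nat_lit 0xd1dd),
.h (nat_lit 0xd1de),
.h (nat_lit 0xd1e1),
.h (nat_lit 0xd1e2),
.h (nat_lit 0xd1f0),
.h (nat_lit 0xd1f7),
.h (nat_lit 0xd207),
.h (nat_lit 0xd20a),
.h (nat_lit 0xd20f),
.h (nat_lit 0xd212),
.h (nat_lit 0xd21c),
.h (nat_lit 0xd242),
.h (nat_lit 0xd246),
.h (nat_lit 0xd260),
.h (nat_lit 0xd266),
.h (nat_lit 0xd29c),
.h (nat_lit 0xd2a3),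
.h (nat_lit 0xd2a6),
.h (nat_lit 0xd344),
.h (nat_lit 0xd34d),
.h (nat_lit 0xd3db),
.h (nat_lit 0xd423),
.h (nat_lit 0xd448),
.h (nat_lit 0xd47c),
.h (nat_lit 0xd47f),
.h (nat_lit 0xd48f),
.h (nat_lit 0xd496),
.h (nat_lit 0xd56d),
.h (nat_lit 0xd7c5),
.h (nat_lit 0xd840),
.h (nat_lit 0xd84d),
.h (nat_lit 0xd866),
.h (nat_lit 0xd870),
.h (nat_lit 0x5046),
.h (nat_lit 0x303e),
.h (nat_lit 0x303f),
.h (nat_lit 0x3042),
.h (nat_lit 0x1046),
.h (nat_lit 0x1047),
.h (nat_lit 0x1048),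
.h (nat_lit 0x1053),
.h (nat_lit 0),
.c (nat_lit 8) (nat_lit 0x2a0000c800150000ab020478180cc0805202021),
.c (nat_lit 2) (nat_lit 0x81580001e),
.c (nat_lit 2) (nat_lit 0x815800056),
.c (nat_lit 12) (nat_lit 0x140080800800c080ac0302f0182b41010a060870504081001c0404200029),
.c (nat_lit 10) (nat_lit 0x4002000040140100a80c088040ac020348182b40400200021),
.c (nat_lit 2) (nat_lit 0x81640006c),
.c (nat_lit 2) (nat_lit 0x816800078),
.c (nat_lit 2) (nat_lit 0x816400086),
.c (nat_lit 3) (nat_lit 0x282c81016800088),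
.c (nat_lit 2) (nat_lit 0x4168000ac),
.c (nat_lit 2) (nat_lit 0x81680002a),
.c (nat_lit 2) (nat_lit 0x816400030),
.c (nat_lit 2) (nat_lit 0xc168000ae),
.c (nat_lit 2) (nat_lit 0xc168000b0),
.c (nat_lit 2) (nat_lit 0x40fe00050),
.c (nat_lit 1) (nat_lit 60),
.c (nat_lit 3) (nat_lit 0x101fc0004c02042),
.c (nat_lit 10) (nat_lit 0xc0204a0204e00001004030040620104e000008040c804008),
.c (nat_lit 5) (nat_lit 0x40c2030160080b80808c000a2),
.c (nat_lit 6) (nat_lit 0x80940609c0101d0101880013c02036),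
.c (nat_lit 0) (nat_lit 0),
.c (nat_lit 85) (nat_lit 0xa0240601602026014124060500403d0101c00c10404020010370000180418c040bc03024020128141480c0c20704e0380b0200e80e0740603f0300801c1280c0940305b020280141340a02c040490101d80c09c080720502d0182480414c000040100c0102300c0cc08022050200300b81c08c100320703a0301f8140340c09007029030250101400a09a04029018168080b00209c0000100819008010060600400e0283101807c0e0a20801b028280180e00e09a07016028260181240a020040370103180c178080a40504e018138100b40208c000000080300802006014),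
.c (nat_lit 25) (nat_lit 0x1a0000b00825800024020b6020500180b0081240000e0105c0101d80c09c0807205019018248100a40607402026008268000140208a02035018298100b80a058),
.c (nat_lit 7) (nat_lit 0x360181ac000d60c06a040350101a8000d4)]

theorem c49_0 : ck d49 x49 ths 110 J49_0 0 = true := by decide +kernel

set_option maxRecDepth 100000 in
/-- Justifications. -/
noncomputable def J50_0 : List Js := [
.h (nat_lit 0xf207),
.h (nat_lit 0x106d),
.h (nat_lit 0),
.c (nat_lit 2) (nat_lit 0x800003),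
.c (nat_lit 2) (nat_lit 0x800c00000)]

theorem c50_0 : ck d50 x50 ths 5 J50_0 0 = true := by decide +kernel

set_option maxRecDepth 100000 in
/-- Justifications. -/
noncomputable def J51_0 : List Js := [
.h (nat_lit 0x10000),
.h (nat_lit 0x10001),
.h (nat_lit 0x10002),
.h (nat_lit 0x10003),
.h (nat_lit 0x10004),
.h (nat_lit 0xf01d),
.h (nat_lit 0xf01e),
.h (nat_lit 0xf020),
.h (nat_lit 0xf021),
.h (nat_lit 0xf023),
.h (nat_lit 0xf024),
.h (nat_lit 0xf026),
.h (nat_lit 0xf027),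
.h (nat_lit 0xf029),
.h (nat_lit 0xf02a),
.h (nat_lit 0xf02f),
.h (nat_lit 0xf033),
.h (nat_lit 0xf03f),
.h (nat_lit 0xf044),
.h (nat_lit 0xf045),
.h (nat_lit 0xf05f),
.h (nat_lit 0xf179),
.h (nat_lit 0xf17a),
.h (nat_lit 0xf17e),
.h (nat_lit 0xf180),
.h (nat_lit 0xf1b6),
.h (nat_lit 0xf1bc),
.h (nat_lit 0xf1bd),
.h (nat_lit 0xf1bf),
.h (nat_lit 0xf1c3),
.h (nat_lit 0xf1dd),
.h (nat_lit 0xf1de),
.h (nat_lit 0xf1e1),
.h (nat_lit 0xf1f7),
.h (nat_lit 0xf207),
.h (nat_lit 0xf20a),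
.h (nat_lit 0xf20e),
.h (nat_lit 0xf212),
.h (nat_lit 0xf242),
.h (nat_lit 0xf266),
.h (nat_lit 0xf298),
.h (nat_lit 0xf29c),
.h (nat_lit 0xf477),
.h (nat_lit 0xf48f),
.h (nat_lit 0xf496),
.h (nat_lit 0xf787),
.h (nat_lit 0xf7c5),
.h (nat_lit 0xf84d),
.h (nat_lit 0xf866),
.h (nat_lit 0x7046),
.h (nat_lit 0x503e),
.h (nat_lit 0x503f),
.h (nat_lit 0x5041),
.h (nat_lit 0x5042),
.h (nat_lit 0x5043),
.h (nat_lit 0x3047),
.h (nat_lit 0x3048),
.h (nat_lit 0x105b),
.h (nat_lit 0x105c),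
.h (nat_lit 0x105d),
.h (nat_lit 0x105e),
.h (nat_lit 0x1060),
.h (nat_lit 0x1063),
.h (nat_lit 0x106d),
.h (nat_lit 0),
.c (nat_lit 2) (nat_lit 0xfc00081),
.c (nat_lit 2) (nat_lit 0x810400020),
.c (nat_lit 9) (nat_lit 0x40201200810804104020230204181013c0c04a00005),
.c (nat_lit 2) (nat_lit 0x810c00052),
.c (nat_lit 2) (nat_lit 0x810c0006e),
.c (nat_lit 2) (nat_lit 0x810c00070),
.c (nat_lit 3) (nat_lit 0x202180c10400078),
.c (nat_lit 6) (nat_lit 0x3c0001a0102e000058040c004054),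
.c (nat_lit 27) (nat_lit 0x38041100403603026020090080b80603a0102a0100d00000c0208e02019018228100c802088000020080600808c0605a040210180e80807c0206400001008110080100601c),
.c (nat_lit 12) (nat_lit 0x30440200d81409804032030450201d8040580405a030180001980405c0406c),
.c (nat_lit 5) (nat_lit 0x60240201d0002100404c0407a),
.c (nat_lit 19) (nat_lit 0x28038180e80e03606035038090180740c01e050260181f01011c0a08a060320200d81407c04058000060080400802806050),
.c (nat_lit 68) (nat_lit 0x400d0281701807404072030350200e0140c40805e0301d0100d0000ac0208c020200181a0100480405c0301d0081500806800006010470100c80c114080640104400001004030040460302d0201080c0740403e0103200000804088040080300e020090100340a03a040090281a8180c40a03a04031018028100ac0a04a060200281a8180480a03a0500f020130080f80608e040450281900c06c0803e0102c00000004018040100300a020120140540c026),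
.c (nat_lit 20) (nat_lit 0xf000058040a800012010390100e00001c0207402044018130100480605e0201a008188000140205602025018230100d00a03c),
.c (nat_lit 7) (nat_lit 0x270181340009a1504c0702601c13000098)]

theorem c51_0 : ck d51 x51 ths 80 J51_0 0 = true := by decide +kernel

set_option maxRecDepth 100000 in
/-- Justifications. -/
noncomputable def J52_0 : List Js := [
.h (nat_lit 0x11207),
.h (nat_lit 0x104f),
.h (nat_lit 0),
.c (nat_lit 2) (nat_lit 0x800003),
.c (nat_lit 2) (nat_lit 0x800c00000)]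

theorem c52_0 : ck d52 x52 ths 5 J52_0 0 = true := by decide +kernel

set_option maxRecDepth 100000 in
/-- Justifications. -/
noncomputable def J53_0 : List Js := [
.h (nat_lit 0x11029),
.h (nat_lit 0x1102f),
.h (nat_lit 0x111c3),
.h (nat_lit 0x117c5),
.h (nat_lit 0x1184d),
.h (nat_lit 0x9046),
.h (nat_lit 0x703e),
.h (nat_lit 0x7041),
.h (nat_lit 0x7042),
.h (nat_lit 0x7043),
.h (nat_lit 0x305c),
.h (nat_lit 0x305f),
.h (nat_lit 0x1041),
.h (nat_lit 0x1045),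
.h (nat_lit 0x1047),
.h (nat_lit 0x104f),
.h (nat_lit 0),
.c (nat_lit 7) (nat_lit 0x1804008000080000f0000840800602001),
.c (nat_lit 1) (nat_lit 6),
.c (nat_lit 1) (nat_lit 8),
.c (nat_lit 1) (nat_lit 10),
.c (nat_lit 1) (nat_lit 12),
.c (nat_lit 1) (nat_lit 14),
.c (nat_lit 1) (nat_lit 16),
.c (nat_lit 1) (nat_lit 18),
.c (nat_lit 1) (nat_lit 22),
.c (nat_lit 1) (nat_lit 20),
.c (nat_lit 1) (nat_lit 26),
.c (nat_lit 1) (nat_lit 24),
.c (nat_lit 1) (nat_lit 28),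
.c (nat_lit 1) (nat_lit 34)]

theorem c53_0 : ck d53 x53 ths 31 J53_0 0 = true := by decide +kernel

set_option maxRecDepth 100000 in
/-- Justifications. -/
noncomputable def J54_0 : List Js := [
.h (nat_lit 0x10000),
.h (nat_lit 0x10002),
.h (nat_lit 0xf033),
.h (nat_lit 0xf03f),
.h (nat_lit 0xf044),
.h (nat_lit 0x503e),
.h (nat_lit 0x5043),
.h (nat_lit 0x105c),
.h (nat_lit 0x105e),
.h (nat_lit 0x105f),
.h (nat_lit 0x106d),
.h (nat_lit 0),
.c (nat_lit 4) (nat_lit 0x40000500002e02009),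
.c (nat_lit 5) (nat_lit 0x100c0080140803200001),
.c (nat_lit 5) (nat_lit 0x20100d00801c0803600003),
.c (nat_lit 3) (nat_lit 0x180700c03400010),
.c (nat_lit 1) (nat_lit 10),
.c (nat_lit 1) (nat_lit 12),
.c (nat_lit 1) (nat_lit 18),
.c (nat_lit 1) (nat_lit 14),
.c (nat_lit 1) (nat_lit 24),
.c (nat_lit 1) (nat_lit 26),
.c (nat_lit 1) (nat_lit 30)]

theorem c54_0 : ck d54 x54 ths 23 J54_0 0 = true := by decide +kernel

set_option maxRecDepth 100000 in
/-- Justifications. -/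
noncomputable def J55_0 : List Js := [
.h (nat_lit 0x10000),
.h (nat_lit 0x10002),
.h (nat_lit 0xf032),
.h (nat_lit 0xf033),
.h (nat_lit 0xf03f),
.h (nat_lit 0xf044),
.h (nat_lit 0xf17c),
.h (nat_lit 0xf34d),
.h (nat_lit 0x503e),
.h (nat_lit 0x5043),
.h (nat_lit 0x105c),
.h (nat_lit 0x105e),
.h (nat_lit 0x105f),
.h (nat_lit 0x106d),
.h (nat_lit 0),
.c (nat_lit 6) (nat_lit 0x140001a0000e80803c0801602005),
.c (nat_lit 7) (nat_lit 0x80080401e0100300807c0401a00001),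
.c (nat_lit 5) (nat_lit 0x2010100080240804200003),
.c (nat_lit 3) (nat_lit 0x180880c04000016),
.c (nat_lit 2) (nat_lit 0x400001e),
.c (nat_lit 1) (nat_lit 16),
.c (nat_lit 1) (nat_lit 18),
.c (nat_lit 1) (nat_lit 24),
.c (nat_lit 1) (nat_lit 20),
.c (nat_lit 1) (nat_lit 38),
.c (nat_lit 1) (nat_lit 32),
.c (nat_lit 1) (nat_lit 36)]

theorem c55_0 : ck d55 x55 ths 27 J55_0 0 = true := by decide +kernel

set_option maxRecDepth 100000 in
/-- Justifications. -/
noncomputable def J56_0 : List Js := [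
.h (nat_lit 0x8000),
.h (nat_lit 0x7023),
.h (nat_lit 0x7044),
.h (nat_lit 0x7045),
.h (nat_lit 0x7047),
.h (nat_lit 0x7050),
.h (nat_lit 0x7051),
.h (nat_lit 0x7181),
.h (nat_lit 0x71d3),
.h (nat_lit 0x7207),
.h (nat_lit 0x74c6),
.h (nat_lit 0x7575),
.h (nat_lit 0x757f),
.h (nat_lit 0x1068),
.h (nat_lit 0),
.c (nat_lit 3) (nat_lit 0x680003a02009),
.c (nat_lit 13) (nat_lit 0x200401804008008060180200f0080180403e0400d0100782002c0c01200001),
.c (nat_lit 2) (nat_lit 0x804000012),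
.c (nat_lit 7) (nat_lit 0x808014040200100b0080840402a00003),
.c (nat_lit 2) (nat_lit 0x804800022)]

theorem c56_0 : ck d56 x56 ths 20 J56_0 0 = true := by decide +kernel

set_option maxRecDepth 100000 in
/-- Justifications. -/
noncomputable def J57_0 : List Js := [
.h (nat_lit 0x8000),
.h (nat_lit 0x7023),
.h (nat_lit 0x7044),
.h (nat_lit 0x7045),
.h (nat_lit 0x7047),
.h (nat_lit 0x7050),
.h (nat_lit 0x7051),
.h (nat_lit 0x71d3),
.h (nat_lit 0x71f8),
.h (nat_lit 0x7207),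
.h (nat_lit 0x74c6),
.h (nat_lit 0x751e),
.h (nat_lit 0x7575),
.h (nat_lit 0x757f),
.h (nat_lit 0x1068),
.h (nat_lit 0),
.c (nat_lit 10) (nat_lit 0x80201a0200b008038000380001f0100d81802c0801202005),
.c (nat_lit 14) (nat_lit 0x40080300701802804018040100101000801c08042060170200d82002c0c01200001),
.c (nat_lit 2) (nat_lit 0x804400012),
.c (nat_lit 7) (nat_lit 0x808014040220100c00808c0402a00003),
.c (nat_lit 2) (nat_lit 0x804c00024)]

theorem c57_0 : ck d57 x57 ths 21 J57_0 0 = true := by decide +kernel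

set_option maxRecDepth 100000 in
/-- Justifications. -/
noncomputable def J58_0 : List Js := [
.h (nat_lit 0x4000),
.h (nat_lit 0x3023),
.h (nat_lit 0x3044),
.h (nat_lit 0x3045),
.h (nat_lit 0x3047),
.h (nat_lit 0x3050),
.h (nat_lit 0x3051),
.h (nat_lit 0x3056),
.h (nat_lit 0x3059),
.h (nat_lit 0x3181),
.h (nat_lit 0x31d3),
.h (nat_lit 0x31f9),
.h (nat_lit 0x3207),
.h (nat_lit 0x34c6),
.h (nat_lit 0x3575),
.h (nat_lit 0x357f),
.h (nat_lit 0x3679),
.h (nat_lit 0x36d3),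
.h (nat_lit 0x37b7),
.h (nat_lit 0x1099),
.h (nat_lit 0),
.c (nat_lit 2) (nat_lit 0x4c00029),
.c (nat_lit 21) (nat_lit 0x20040180500c01c0801002002018078100480a02002015008018040560801703011810034040260c0110500782002c0c01200001),
.c (nat_lit 2) (nat_lit 0x805800018),
.c (nat_lit 7) (nat_lit 0x8080140402c0100e0080b40403600003),
.c (nat_lit 2) (nat_lit 0x80600002e)]

theorem c58_0 : ck d58 x58 ths 26 J58_0 0 = true := by decide +kernel

set_option maxRecDepth 100000 in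
/-- Justifications. -/
noncomputable def J59_0 : List Js := [
.h (nat_lit 0x4000),
.h (nat_lit 0x3044),
.h (nat_lit 0x3045),
.h (nat_lit 0x3047),
.h (nat_lit 0x304a),
.h (nat_lit 0x3050),
.h (nat_lit 0x3056),
.h (nat_lit 0x3059),
.h (nat_lit 0x3188),
.h (nat_lit 0x31d3),
.h (nat_lit 0x31d6),
.h (nat_lit 0x31f8),
.h (nat_lit 0x31f9),
.h (nat_lit 0x3207),
.h (nat_lit 0x3501),
.h (nat_lit 0x351e),
.h (nat_lit 0x3633),
.h (nat_lit 0x3643),
.h (nat_lit 0x3679),
.h (nat_lit 0x367d),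
.h (nat_lit 0x36b5),
.h (nat_lit 0x36c5),
.h (nat_lit 0x36d3),
.h (nat_lit 0x3792),
.h (nat_lit 0x37b3),
.h (nat_lit 0x37b7),
.h (nat_lit 0x1099),
.h (nat_lit 0),
.c (nat_lit 21) (nat_lit 0x20100e0100780c06408024010030100a80c0240802e050140100980c02808020020180180880006800037040058180240800e02003),
.c (nat_lit 21) (nat_lit 0x2004018028100180a00e010080100580c058080180101c008014080720a0250401981807c0803a0c00f0500682002c0c01200001),
.c (nat_lit 2) (nat_lit 0x80740001a),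
.c (nat_lit 1) (nat_lit 60)]

theorem c59_0 : ck d59 x59 ths 32 J59_0 0 = true := by decide +kernel

end Pool.Agent.Lib.MP_3b0e0c_al.D.H3
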