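import Pool.Agent.Lib.MP_3b0e0c_al.D.NS

namespace Pool.Agent.Lib.MP_3b0e0c_al.D.H3

open S

/-- Hypotheses. -/
def hy : List (List ℕ × List ℕ) := [([0, 0], []),
  ([1, 1], []),
  ([2, 2], []),
  ([3, 3], []),
  ([3, 1], [1, 3]),
  ([2, 1, 2, 1], [12]),
  ([4], [1, 0, 1, 0]),
  ([5], [2, 0, 2, 0]),
  ([6], [3, 0, 3, 0]),
  ([7], [3, 2, 3, 2]),
  ([8], [5, 1, 5, 1]),
  ([9], [6, 1, 6, 1]),
  ([10], [6, 2, 6, 2]),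
  ([11], [7, 0, 7, 0]),
  ([12], [8, 0, 8, 0])]

/-- Definitions. -/
def ds : List (List ℕ × List ℕ) := [([13], [10, 0, 10, 0]),
  ([14], [10, 1, 10, 1]),
  ([15], [11, 1, 11, 1]),
  ([16], [11, 2, 11, 2]),
  ([17], [11, 3, 11, 3]),
  ([18], [13, 1, 13, 1]),
  ([19], [14, 0, 14, 0]),
  ([20], [17, 1, 17, 1]),
  ([21], [18, 0, 18, 0]),
  ([22], [19, 1, 19, 1]),
  ([23], [19, 3, 19, 3]),
  ([24], [20, 0, 20, 0]),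
  ([25], [21, 2, 21, 2])]

/-- Alternatives. -/
def alts : List (List (List ℕ × List ℕ)) := [[([2, 1], [1, 2])],
  [([12, 10], [10, 12]),
  ([10, 9], [9, 10]),
  ([12, 6], [6, 12]),
  ([9, 5], [5, 9]),
  ([9, 2], [2, 9]),
  ([10, 4], [4, 10]),
  ([10, 1], [1, 10]),
  ([10, 0], [0, 10, 12]),
  ([8], [9, 10, 12]),
  ([4, 2], [2, 4, 9, 10]),
  ([11], [12]),
  ([5, 3], [3, 5, 10]),
  ([7], [10, 12])],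
  [([12, 10], [10, 12]),
  ([10, 9], [9, 10]),
  ([9, 5], [5, 9]),
  ([10, 4], [4, 10]),
  ([10, 1], [1, 10]),
  ([10, 0], [0, 10, 12]),
  ([8], [9, 10, 12]),
  ([4, 2], [2, 4, 9, 10]),
  ([7], [12]),
  ([11], []),
  ([5, 3], [3, 5, 10, 12])],
  [([10, 8], [8, 10]),
  ([12, 10], [10, 12]),
  ([12, 6], [6, 12]),
  ([12, 3], [3, 12]),
  ([10, 4], [4, 10]),
  ([8, 6], [6, 8]),
  ([10, 1], [1, 10]),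
  ([9], [10]),
  ([6, 5], [5, 6]),
  ([8, 3], [3, 8]),
  ([11], [12]),
  ([5, 3], [3, 5, 10, 12]),
  ([7], [8, 10, 12])],
  [([12, 3], [3, 12]),
  ([10, 1], [1, 10]),
  ([9], [10]),
  ([6, 5], [5, 6]),
  ([7], []),
  ([11], []),
  ([5, 3], [3, 5, 10])]]

/-- The clause. -/
def cl : Cl := ⟨hy, alts⟩

/-- The theories used. -/
def ths : List Th := [R2, T3.th]

set_option maxRecDepth 100000 in
/-- Facts. -/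
noncomputable def d0 : Tr :=
(.nd (.nd (.nd (.nd (.nd (.nd (.nd (.nd (.nd (.nd (.nd (.nd (.lf ⟨(nat_lit 65), (nat_lit 2), (nat_lit 0), (nat_lit 0)⟩)
(.lf ⟨(nat_lit 0x530f), (nat_lit 3), (nat_lit 0x5cc3cc14c), (nat_lit 6)⟩))
(.lf ⟨(nat_lit 522), (nat_lit 2), (nat_lit 0x1548a488), (nat_lit 5)⟩))
(.nd (.lf ⟨(nat_lit 343), (nat_lit 2), (nat_lit 0x5c5), (nat_lit 2)⟩)
(.lf ⟨(nat_lit 0), (nat_lit 0), (nat_lit 0x4c24c2), (nat_lit 4)⟩)))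
(.nd (.nd (.lf ⟨(nat_lit 0x4c14c1), (nat_lit 4), (nat_lit 0x53053), (nat_lit 4)⟩)
(.lf ⟨(nat_lit 0xb34e), (nat_lit 3), (nat_lit 0xd38d2cd), (nat_lit 5)⟩))
(.nd (.lf ⟨(nat_lit 215), (nat_lit 2), (nat_lit 0xb5933943ce2cd2451973d64ce50f38b3491461482461512061482461512091973d64ce50f38b3495861464ce50f38b3573d64ce50f38b143), (nat_lit 75)⟩)
(.lf ⟨(nat_lit 0x48a48a), (nat_lit 4), (nat_lit 0), (nat_lit 0)⟩))))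
(.nd (.nd (.nd (.nd (.lf ⟨(nat_lit 0x1c31c3), (nat_lit 4), (nat_lit 0xc70c7), (nat_lit 4)⟩)
(.lf ⟨(nat_lit 0xc22810c22810c22810c2281), (nat_lit 16), (nat_lit 0x5cd), (nat_lit 2)⟩))
(.lf ⟨(nat_lit 0x4246), (nat_lit 3), (nat_lit 0x18425244e30b), (nat_lit 8)⟩))
(.nd (.lf ⟨(nat_lit 0x1c1547055), (nat_lit 6), (nat_lit 0x5470551c1), (nat_lit 6)⟩)
(.lf ⟨(nat_lit 0x1093cb), (nat_lit 4), (nat_lit 0x1155349348e30948f68e2c944c109), (nat_lit 19)⟩)))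
(.nd (.nd (.lf ⟨(nat_lit 203), (nat_lit 2), (nat_lit 707), (nat_lit 2)⟩)
(.lf ⟨(nat_lit 730), (nat_lit 2), (nat_lit 0x4d75164d751a58b), (nat_lit 10)⟩))
(.nd (.lf ⟨(nat_lit 25), (nat_lit 1), (nat_lit 0x59552652059552652), (nat_lit 12)⟩)
(.lf ⟨(nat_lit 0x1c80d92036472036480d9), (nat_lit 14), (nat_lit 0x1c80d92036472036480d9), (nat_lit 14)⟩)))))
(.nd (.nd (.nd (.nd (.nd (.lf ⟨(nat_lit 0x10c10c), (nat_lit 4), (nat_lit 0x304304), (nat_lit 4)⟩)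
(.lf ⟨(nat_lit 593), (nat_lit 2), (nat_lit 0x449), (nat_lit 2)⟩))
(.lf ⟨(nat_lit 16), (nat_lit 1), (nat_lit 0x8c08c), (nat_lit 4)⟩))
(.nd (.lf ⟨(nat_lit 396), (nat_lit 2), (nat_lit 774), (nat_lit 2)⟩)
(.lf ⟨(nat_lit 0), (nat_lit 0), (nat_lit 0x219219), (nat_lit 4)⟩)))
(.nd (.nd (.lf ⟨(nat_lit 0x448448), (nat_lit 4), (nat_lit 0x211211), (nat_lit 4)⟩)
(.lf ⟨(nat_lit 0x3d23d2), (nat_lit 4), (nat_lit 0x48f48f), (nat_lit 4)⟩))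
(.nd (.lf ⟨(nat_lit 0x148185185206146145206146148185185), (nat_lit 22), (nat_lit 0x148185185206146145206146148185185), (nat_lit 22)⟩)
(.lf ⟨(nat_lit 0x2913d13ca2913d13ca), (nat_lit 12), (nat_lit 0), (nat_lit 0)⟩))))
(.nd (.nd (.nd (.lf ⟨(nat_lit 0x341341), (nat_lit 4), (nat_lit 0x4d04d), (nat_lit 4)⟩)
(.lf ⟨(nat_lit 0x5c21975975865d65d65c21975975865d65d6), (nat_lit 24), (nat_lit 0x5c21975975865d65d65c21975975865d65d6), (nat_lit 24)⟩))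
(.nd (.lf ⟨(nat_lit 0xa48c28c), (nat_lit 5), (nat_lit 0xc29230a), (nat_lit 5)⟩)
(.lf ⟨(nat_lit 787), (nat_lit 2), (nat_lit 0x4cc), (nat_lit 2)⟩)))
(.nd (.nd (.lf ⟨(nat_lit 524), (nat_lit 2), (nat_lit 776), (nat_lit 2)⟩)
(.lf ⟨(nat_lit 0x5c15425c1542), (nat_lit 8), (nat_lit 0x5425c15425c1), (nat_lit 8)⟩))
(.nd (.lf ⟨(nat_lit 0x219219), (nat_lit 4), (nat_lit 0x648648), (nat_lit 4)⟩)
(.lf ⟨(nat_lit 408), (nat_lit 2), (nat_lit 0x606), (nat_lit 2)⟩))))))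
(.nd (.nd (.nd (.nd (.nd (.nd (.lf ⟨(nat_lit 390), (nat_lit 2), (nat_lit 0), (nat_lit 0)⟩)
(.lf ⟨(nat_lit 0xd54d030f30910910355340c3cc244244), (nat_lit 22), (nat_lit 0xd54d030f30910910355340c3cc244244), (nat_lit 22)⟩))
(.lf ⟨(nat_lit 0), (nat_lit 0), (nat_lit 0x211211), (nat_lit 4)⟩))
(.nd (.lf ⟨(nat_lit 0x1c41c4), (nat_lit 4), (nat_lit 0), (nat_lit 0)⟩)
(.lf ⟨(nat_lit 0x985155123d23c261455448f48f), (nat_lit 18), (nat_lit 0x985155123d23c261455448f48f), (nat_lit 18)⟩)))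
(.nd (.nd (.lf ⟨(nat_lit 0x504504), (nat_lit 4), (nat_lit 0x114114), (nat_lit 4)⟩)
(.lf ⟨(nat_lit 0x40d), (nat_lit 2), (nat_lit 848), (nat_lit 2)⟩))
(.nd (.lf ⟨(nat_lit 0x3098343602), (nat_lit 7), (nat_lit 0xc26020c2602), (nat_lit 8)⟩)
(.lf ⟨(nat_lit 0x5cf1485cf148), (nat_lit 8), (nat_lit 0x14f2053c8), (nat_lit 6)⟩))))
(.nd (.nd (.nd (.lf ⟨(nat_lit 0x181086042), (nat_lit 6), (nat_lit 0x86042181), (nat_lit 6)⟩)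
(.lf ⟨(nat_lit 0x141287246287246141287246287246), (nat_lit 20), (nat_lit 0x141287246287246141287246287246), (nat_lit 20)⟩))
(.nd (.lf ⟨(nat_lit 281), (nat_lit 2), (nat_lit 0x5476551c4), (nat_lit 6)⟩)
(.lf ⟨(nat_lit 723), (nat_lit 2), (nat_lit 0x4cb), (nat_lit 2)⟩)))
(.nd (.nd (.lf ⟨(nat_lit 0xc3d030f), (nat_lit 5), (nat_lit 0xf40c3cc), (nat_lit 5)⟩)
(.lf ⟨(nat_lit 0x38740e1d0), (nat_lit 6), (nat_lit 0x40e1d0387), (nat_lit 6)⟩))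
(.nd (.lf ⟨(nat_lit 0x4c34c14c34c84c34c80530d32130d32130d30530d32130d32014c34c84c34c8), (nat_lit 42), (nat_lit 0x4c34c14c34c84c34c80530d32130d32130d30530d32130d32014c34c84c34c8), (nat_lit 42)⟩)
(.lf ⟨(nat_lit 0x457), (nat_lit 2), (nat_lit 0x5d1), (nat_lit 2)⟩)))))
(.nd (.nd (.nd (.nd (.nd (.lf ⟨(nat_lit 130), (nat_lit 2), (nat_lit 0), (nat_lit 0)⟩)
(.lf ⟨(nat_lit 17), (nat_lit 1), (nat_lit 0x2033080cc), (nat_lit 6)⟩))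
(.lf ⟨(nat_lit 0x7352), (nat_lit 3), (nat_lit 0xa3cb54d54d48d48a48a2cd2ca34f2ca34a3cb34a34f2ca1cd), (nat_lit 33)⟩))
(.nd (.lf ⟨(nat_lit 401), (nat_lit 2), (nat_lit 0x446), (nat_lit 2)⟩)
(.lf ⟨(nat_lit 22), (nat_lit 1), (nat_lit 0x524d20524d2), (nat_lit 8)⟩)))
(.nd (.nd (.lf ⟨(nat_lit 0x838c), (nat_lit 3), (nat_lit 0xe30e20e), (nat_lit 5)⟩)
(.lf ⟨(nat_lit 0x291291), (nat_lit 4), (nat_lit 0x5523d23d12915523d23ca), (nat_lit 14)⟩))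
(.nd (.lf ⟨(nat_lit 0), (nat_lit 0), (nat_lit 0x4a58a04a58a), (nat_lit 8)⟩)
(.lf ⟨(nat_lit 17), (nat_lit 1), (nat_lit 0x18c206308), (nat_lit 6)⟩))))
(.nd (.nd (.nd (.lf ⟨(nat_lit 0x111111), (nat_lit 4), (nat_lit 0x444444), (nat_lit 4)⟩)
(.lf ⟨(nat_lit 0x497657657657652), (nat_lit 10), (nat_lit 0x525d95d9481497657652), (nat_lit 14)⟩))
(.nd (.lf ⟨(nat_lit 0x411210448), (nat_lit 6), (nat_lit 0x448411210), (nat_lit 6)⟩)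
(.lf ⟨(nat_lit 0x58d58d), (nat_lit 4), (nat_lit 0), (nat_lit 0)⟩)))
(.nd (.nd (.lf ⟨(nat_lit 0x191308), (nat_lit 4), (nat_lit 0xc206), (nat_lit 3)⟩)
(.lf ⟨(nat_lit 0x692692692692), (nat_lit 8), (nat_lit 0), (nat_lit 0)⟩))
(.nd (.lf ⟨(nat_lit 0xc50c5), (nat_lit 4), (nat_lit 0xc50c5), (nat_lit 4)⟩)
(.lf ⟨(nat_lit 0), (nat_lit 0), (nat_lit 0x1d71d7), (nat_lit 4)⟩)))))))
(.nd (.nd (.nd (.nd (.nd (.nd (.nd (.lf ⟨(nat_lit 16), (nat_lit 1), (nat_lit 0x8c08c), (nat_lit 4)⟩)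
(.lf ⟨(nat_lit 0x449449), (nat_lit 4), (nat_lit 0x343445445343445445), (nat_lit 12)⟩))
(.lf ⟨(nat_lit 0x4348), (nat_lit 3), (nat_lit 0x3521d030840c1cd10d), (nat_lit 12)⟩))
(.nd (.lf ⟨(nat_lit 207), (nat_lit 2), (nat_lit 0x34f2cd2c3), (nat_lit 6)⟩)
(.lf ⟨(nat_lit 0x4d9), (nat_lit 2), (nat_lit 0x699693), (nat_lit 4)⟩)))
(.nd (.nd (.lf ⟨(nat_lit 151), (nat_lit 2), (nat_lit 0x517517517502), (nat_lit 8)⟩)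
(.lf ⟨(nat_lit 922), (nat_lit 2), (nat_lit 0x68e), (nat_lit 2)⟩))
(.nd (.lf ⟨(nat_lit 0xc648c20e2d12060c648c20e2d1206), (nat_lit 20), (nat_lit 0xc648c20e2d12060c648c20e2d1206), (nat_lit 20)⟩)
(.lf ⟨(nat_lit 0x51a), (nat_lit 2), (nat_lit 0x694), (nat_lit 2)⟩))))
(.nd (.nd (.nd (.lf ⟨(nat_lit 780), (nat_lit 2), (nat_lit 0), (nat_lit 0)⟩)
(.lf ⟨(nat_lit 5), (nat_lit 1), (nat_lit 0x5c2057081), (nat_lit 6)⟩))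
(.nd (.lf ⟨(nat_lit 0x3c21c13c21c1), (nat_lit 8), (nat_lit 0x1c13c21c13c2), (nat_lit 8)⟩)
(.lf ⟨(nat_lit 978), (nat_lit 2), (nat_lit 0x48f), (nat_lit 2)⟩)))
(.nd (.nd (.lf ⟨(nat_lit 0x1d41d4), (nat_lit 4), (nat_lit 0x507507), (nat_lit 4)⟩)
(.lf ⟨(nat_lit 0x4da), (nat_lit 2), (nat_lit 0x693), (nat_lit 2)⟩))
(.nd (.lf ⟨(nat_lit 0x116496484116496484), (nat_lit 12), (nat_lit 0), (nat_lit 0)⟩)
(.lf ⟨(nat_lit 856), (nat_lit 2), (nat_lit 0x69961a64d), (nat_lit 6)⟩)))))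
(.nd (.nd (.nd (.nd (.nd (.lf ⟨(nat_lit 0x596), (nat_lit 2), (nat_lit 0), (nat_lit 0)⟩)
(.lf ⟨(nat_lit 457), (nat_lit 2), (nat_lit 0x17513247), (nat_lit 5)⟩))
(.lf ⟨(nat_lit 0x28d3cb28734b1d548a48a), (nat_lit 14), (nat_lit 0x55229228a34f2ca1cd2c7), (nat_lit 14)⟩))
(.nd (.lf ⟨(nat_lit 983), (nat_lit 2), (nat_lit 0x5cf), (nat_lit 2)⟩)
(.lf ⟨(nat_lit 0x497), (nat_lit 2), (nat_lit 0x657655515512), (nat_lit 8)⟩)))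
(.nd (.nd (.lf ⟨(nat_lit 0x30b30b), (nat_lit 4), (nat_lit 0x2cc2cc), (nat_lit 4)⟩)
(.lf ⟨(nat_lit 0x456), (nat_lit 2), (nat_lit 0x591), (nat_lit 2)⟩))
(.nd (.lf ⟨(nat_lit 0x31a19a306), (nat_lit 6), (nat_lit 0x31a30631a306), (nat_lit 8)⟩)
(.lf ⟨(nat_lit 216), (nat_lit 2), (nat_lit 0x1a64d488185448151205449489209151205448151205457209198697143), (nat_lit 39)⟩))))
(.nd (.nd (.nd (.lf ⟨(nat_lit 0x50302), (nat_lit 4), (nat_lit 0x402050306346246349185), (nat_lit 14)⟩)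
(.lf ⟨(nat_lit 0x1638b6962c6), (nat_lit 7), (nat_lit 0x5812c35812c3), (nat_lit 8)⟩))
(.nd (.lf ⟨(nat_lit 0x585585), (nat_lit 4), (nat_lit 0), (nat_lit 0)⟩)
(.lf ⟨(nat_lit 538), (nat_lit 2), (nat_lit 0x688), (nat_lit 2)⟩)))
(.nd (.nd (.lf ⟨(nat_lit 80), (nat_lit 2), (nat_lit 0x40c14c141), (nat_lit 6)⟩)
(.lf ⟨(nat_lit 0xc3d2), (nat_lit 3), (nat_lit 0xf48f30f), (nat_lit 5)⟩))
(.nd (.lf ⟨(nat_lit 0x610949130838b204), (nat_lit 11), (nat_lit 0x425244c20e2c8106), (nat_lit 11)⟩)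
(.lf ⟨(nat_lit 0x544f), (nat_lit 3), (nat_lit 0x58944f44c3cc2505134175944cc3cc151), (nat_lit 22)⟩))))))
(.nd (.nd (.nd (.nd (.nd (.nd (.lf ⟨(nat_lit 199), (nat_lit 2), (nat_lit 0xb1c3), (nat_lit 3)⟩)
(.lf ⟨(nat_lit 265), (nat_lit 2), (nat_lit 0x55340f251248248151144), (nat_lit 14)⟩))
(.lf ⟨(nat_lit 0x3893865c65ce24e197197), (nat_lit 14), (nat_lit 0x3893865c65ce24e197197), (nat_lit 14)⟩))
(.nd (.lf ⟨(nat_lit 0x308308), (nat_lit 4), (nat_lit 0), (nat_lit 0)⟩)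
(.lf ⟨(nat_lit 0x3d93d93d93d9), (nat_lit 8), (nat_lit 0), (nat_lit 0)⟩)))
(.nd (.nd (.lf ⟨(nat_lit 0x486486), (nat_lit 4), (nat_lit 0x192192), (nat_lit 4)⟩)
(.lf ⟨(nat_lit 0xa48c), (nat_lit 3), (nat_lit 0x65241240c292), (nat_lit 8)⟩))
(.nd (.lf ⟨(nat_lit 0x73491cd1c9), (nat_lit 7), (nat_lit 0xd247347247), (nat_lit 7)⟩)
(.lf ⟨(nat_lit 404), (nat_lit 2), (nat_lit 0x506), (nat_lit 2)⟩))))
(.nd (.nd (.nd (.lf ⟨(nat_lit 0x146146), (nat_lit 4), (nat_lit 0x185185), (nat_lit 4)⟩)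
(.lf ⟨(nat_lit 0), (nat_lit 0), (nat_lit 0x34914d245), (nat_lit 6)⟩))
(.nd (.lf ⟨(nat_lit 215), (nat_lit 2), (nat_lit 0xb5933943ce2cd2451973d64ce50f38b3491461482461512061482461512091973d64ce50f38b3491851964ce50f38b3573d64ce50f38b143), (nat_lit 75)⟩)
(.lf ⟨(nat_lit 469), (nat_lit 2), (nat_lit 0x547), (nat_lit 2)⟩)))
(.nd (.nd (.lf ⟨(nat_lit 0x1484), (nat_lit 3), (nat_lit 0x1d2107481487), (nat_lit 8)⟩)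
(.lf ⟨(nat_lit 0x55354c2154d5308), (nat_lit 10), (nat_lit 0x30855354c2154d5), (nat_lit 10)⟩))
(.nd (.lf ⟨(nat_lit 0), (nat_lit 0), (nat_lit 0xd20d2), (nat_lit 4)⟩)
(.lf ⟨(nat_lit 145), (nat_lit 2), (nat_lit 0x5532442513d03cc3cc102), (nat_lit 14)⟩)))))
(.nd (.nd (.nd (.nd (.nd (.lf ⟨(nat_lit 390), (nat_lit 2), (nat_lit 0), (nat_lit 0)⟩)
(.lf ⟨(nat_lit 588), (nat_lit 2), (nat_lit 777), (nat_lit 2)⟩))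
(.lf ⟨(nat_lit 0xa347347), (nat_lit 5), (nat_lit 0xd1cd1ca), (nat_lit 5)⟩))
(.nd (.lf ⟨(nat_lit 0x415), (nat_lit 2), (nat_lit 0x550), (nat_lit 2)⟩)
(.lf ⟨(nat_lit 0x12699699), (nat_lit 5), (nat_lit 0x1a65a652), (nat_lit 5)⟩)))
(.nd (.nd (.lf ⟨(nat_lit 0x1486052), (nat_lit 5), (nat_lit 0x6486052181), (nat_lit 7)⟩)
(.lf ⟨(nat_lit 919), (nat_lit 2), (nat_lit 0x4d75164d75164d751350e), (nat_lit 14)⟩))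
(.nd (.lf ⟨(nat_lit 0), (nat_lit 0), (nat_lit 0xc80c8), (nat_lit 4)⟩)
(.lf ⟨(nat_lit 0x425130b), (nat_lit 5), (nat_lit 0x944c2c9109), (nat_lit 7)⟩))))
(.nd (.nd (.nd (.lf ⟨(nat_lit 0x1c91c9), (nat_lit 4), (nat_lit 0x247247), (nat_lit 4)⟩)
(.lf ⟨(nat_lit 0xb5cf), (nat_lit 3), (nat_lit 0xe50f5933973ce50f38f38f4ce3ce3ce2d6), (nat_lit 23)⟩))
(.nd (.lf ⟨(nat_lit 341), (nat_lit 2), (nat_lit 0x545), (nat_lit 2)⟩)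
(.lf ⟨(nat_lit 0x44f4513113d144c), (nat_lit 10), (nat_lit 0x44c44f4513113d1), (nat_lit 10)⟩)))
(.nd (.nd (.lf ⟨(nat_lit 133), (nat_lit 2), (nat_lit 322), (nat_lit 2)⟩)
(.lf ⟨(nat_lit 0x3884cd38810d10e21334e204344), (nat_lit 18), (nat_lit 0), (nat_lit 0)⟩))
(.nd (.lf ⟨(nat_lit 0x3645), (nat_lit 3), (nat_lit 0x6491992461466491466450d9), (nat_lit 16)⟩)
(.lf ⟨(nat_lit 0x40f40c3cc2503d030f309), (nat_lit 14), (nat_lit 0), (nat_lit 0)⟩))))))))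
(.nd (.nd (.nd (.nd (.nd (.nd (.nd (.nd (.lf ⟨(nat_lit 7), (nat_lit 1), (nat_lit 0x44044), (nat_lit 4)⟩)
(.lf ⟨(nat_lit 0x4248248), (nat_lit 5), (nat_lit 0x9209204), (nat_lit 5)⟩))
(.lf ⟨(nat_lit 0x2d62da), (nat_lit 4), (nat_lit 0x68b58b), (nat_lit 4)⟩))
(.nd (.lf ⟨(nat_lit 81), (nat_lit 2), (nat_lit 0x441), (nat_lit 2)⟩)
(.lf ⟨(nat_lit 0x54435954d259109), (nat_lit 10), (nat_lit 0x544255109), (nat_lit 6)⟩)))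
(.nd (.nd (.lf ⟨(nat_lit 0x3c23c2), (nat_lit 4), (nat_lit 0), (nat_lit 0)⟩)
(.lf ⟨(nat_lit 729), (nat_lit 2), (nat_lit 0x4d43d64d44d43ce3ce5cf6525cf59350e3d238b), (nat_lit 26)⟩))
(.nd (.lf ⟨(nat_lit 0x1cd28d24a24734a349289), (nat_lit 14), (nat_lit 0x1cd28d24a24734a349289), (nat_lit 14)⟩)
(.lf ⟨(nat_lit 0x1a58f2ca2ca), (nat_lit 7), (nat_lit 0xca0ca), (nat_lit 4)⟩))))
(.nd (.nd (.nd (.lf ⟨(nat_lit 0x184184), (nat_lit 4), (nat_lit 0x106106), (nat_lit 4)⟩)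
(.lf ⟨(nat_lit 0x10347347), (nat_lit 5), (nat_lit 0xd1cd1d0), (nat_lit 5)⟩))
(.nd (.lf ⟨(nat_lit 0x3c21413c2141), (nat_lit 8), (nat_lit 0x1413c21413c2), (nat_lit 8)⟩)
(.lf ⟨(nat_lit 0x25224c), (nat_lit 4), (nat_lit 0x309489), (nat_lit 4)⟩)))
(.nd (.nd (.lf ⟨(nat_lit 84), (nat_lit 2), (nat_lit 0x501), (nat_lit 2)⟩)
(.lf ⟨(nat_lit 281), (nat_lit 2), (nat_lit 0x6523d23c4), (nat_lit 6)⟩))
(.nd (.lf ⟨(nat_lit 0), (nat_lit 0), (nat_lit 0x84584084584), (nat_lit 8)⟩)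
(.lf ⟨(nat_lit 536), (nat_lit 2), (nat_lit 0x608), (nat_lit 2)⟩)))))
(.nd (.nd (.nd (.nd (.nd (.lf ⟨(nat_lit 142), (nat_lit 2), (nat_lit 0x13382), (nat_lit 3)⟩)
(.lf ⟨(nat_lit 0x6975944cd2c96975944cd2c9), (nat_lit 16), (nat_lit 0), (nat_lit 0)⟩))
(.lf ⟨(nat_lit 270), (nat_lit 2), (nat_lit 900), (nat_lit 2)⟩))
(.nd (.lf ⟨(nat_lit 342), (nat_lit 2), (nat_lit 0x585), (nat_lit 2)⟩)
(.lf ⟨(nat_lit 0x2c82c8), (nat_lit 4), (nat_lit 0), (nat_lit 0)⟩)))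
(.nd (.nd (.lf ⟨(nat_lit 0x2c92c9), (nat_lit 4), (nat_lit 0x24b24b), (nat_lit 4)⟩)
(.lf ⟨(nat_lit 0xa48f), (nat_lit 3), (nat_lit 0x123d2292), (nat_lit 5)⟩))
(.nd (.lf ⟨(nat_lit 0), (nat_lit 0), (nat_lit 0x18c18c), (nat_lit 4)⟩)
(.lf ⟨(nat_lit 0x6564894890d83c3), (nat_lit 10), (nat_lit 0x4c32930ca), (nat_lit 6)⟩))))
(.nd (.nd (.nd (.lf ⟨(nat_lit 0x310310), (nat_lit 4), (nat_lit 0x40c40c), (nat_lit 4)⟩)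
(.lf ⟨(nat_lit 0x12292), (nat_lit 3), (nat_lit 0x1d5087542), (nat_lit 6)⟩))
(.nd (.lf ⟨(nat_lit 0x1492c91492c9), (nat_lit 8), (nat_lit 0x24b24524b245), (nat_lit 8)⟩)
(.lf ⟨(nat_lit 794), (nat_lit 2), (nat_lit 0x68c), (nat_lit 2)⟩)))
(.nd (.nd (.lf ⟨(nat_lit 202), (nat_lit 2), (nat_lit 0xd3cb28734b1c3), (nat_lit 9)⟩)
(.lf ⟨(nat_lit 0x85d4217), (nat_lit 5), (nat_lit 0x175085d43cc50f308), (nat_lit 11)⟩))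
(.nd (.lf ⟨(nat_lit 0xa1c5), (nat_lit 3), (nat_lit 0x44081102), (nat_lit 6)⟩)
(.lf ⟨(nat_lit 217), (nat_lit 2), (nat_lit 0x64f44c3cc291283), (nat_lit 10)⟩))))))
(.nd (.nd (.nd (.nd (.nd (.nd (.lf ⟨(nat_lit 0x86086), (nat_lit 4), (nat_lit 0x182182), (nat_lit 4)⟩)
(.lf ⟨(nat_lit 0x4250), (nat_lit 3), (nat_lit 0x549409109), (nat_lit 6)⟩))
(.lf ⟨(nat_lit 0), (nat_lit 0), (nat_lit 0x4b1da58b58704b1da58b587), (nat_lit 16)⟩))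
(.nd (.lf ⟨(nat_lit 0x141141), (nat_lit 4), (nat_lit 0), (nat_lit 0)⟩)
(.lf ⟨(nat_lit 984), (nat_lit 2), (nat_lit 0x61551550f), (nat_lit 6)⟩)))
(.nd (.nd (.lf ⟨(nat_lit 0x485485), (nat_lit 4), (nat_lit 0x152152), (nat_lit 4)⟩)
(.lf ⟨(nat_lit 602), (nat_lit 2), (nat_lit 0x689), (nat_lit 2)⟩))
(.nd (.lf ⟨(nat_lit 13), (nat_lit 1), (nat_lit 0x241241), (nat_lit 4)⟩)
(.lf ⟨(nat_lit 20), (nat_lit 1), (nat_lit 0x5a58f2ca2ca05a58f2ca2ca), (nat_lit 16)⟩))))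
(.nd (.nd (.nd (.lf ⟨(nat_lit 0x1c11c1), (nat_lit 4), (nat_lit 0), (nat_lit 0)⟩)
(.lf ⟨(nat_lit 0x1155229244a), (nat_lit 7), (nat_lit 0x44829120a), (nat_lit 6)⟩))
(.nd (.lf ⟨(nat_lit 0x14c1d0), (nat_lit 4), (nat_lit 0x30740c1c5307), (nat_lit 8)⟩)
(.lf ⟨(nat_lit 331), (nat_lit 2), (nat_lit 0x5d65132c5), (nat_lit 6)⟩)))
(.nd (.nd (.lf ⟨(nat_lit 0xc50f30f), (nat_lit 5), (nat_lit 0xf3143cc), (nat_lit 5)⟩)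
(.lf ⟨(nat_lit 0xc50f314), (nat_lit 5), (nat_lit 0x193d23d950f49448f49448f4943d250f64f48f64f3143cc), (nat_lit 31)⟩))
(.nd (.lf ⟨(nat_lit 0x109185185109185185), (nat_lit 12), (nat_lit 0x109185185109185185), (nat_lit 12)⟩)
(.lf ⟨(nat_lit 217), (nat_lit 2), (nat_lit 0x1130f29130f283), (nat_lit 9)⟩)))))
(.nd (.nd (.nd (.nd (.nd (.lf ⟨(nat_lit 71), (nat_lit 2), (nat_lit 0x107107107101), (nat_lit 8)⟩)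
(.lf ⟨(nat_lit 783), (nat_lit 2), (nat_lit 972), (nat_lit 2)⟩))
(.lf ⟨(nat_lit 0x734b), (nat_lit 3), (nat_lit 0xa2cd28f2ca3cb34b28f2cd2ca34a3cb34b28b28d3cb34b28f2cd2ca1cd), (nat_lit 39)⟩))
(.nd (.lf ⟨(nat_lit 0x3cb04f2c1), (nat_lit 6), (nat_lit 0x4f2c13cb), (nat_lit 6)⟩)
(.lf ⟨(nat_lit 0), (nat_lit 0), (nat_lit 0x481481), (nat_lit 4)⟩)))
(.nd (.nd (.lf ⟨(nat_lit 0x940c24c), (nat_lit 5), (nat_lit 0xc250309), (nat_lit 5)⟩)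
(.lf ⟨(nat_lit 0xb34e), (nat_lit 3), (nat_lit 0xe2cd), (nat_lit 3)⟩))
(.nd (.lf ⟨(nat_lit 262), (nat_lit 2), (nat_lit 0x1245245244c20e2c8184), (nat_lit 13)⟩)
(.lf ⟨(nat_lit 0x151308), (nat_lit 4), (nat_lit 0x590450250309205), (nat_lit 10)⟩))))
(.nd (.nd (.nd (.lf ⟨(nat_lit 0x14c14c), (nat_lit 4), (nat_lit 0x305305), (nat_lit 4)⟩)
(.lf ⟨(nat_lit 0x155d9557), (nat_lit 5), (nat_lit 0x195d9557655), (nat_lit 7)⟩))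
(.nd (.lf ⟨(nat_lit 0x483483), (nat_lit 4), (nat_lit 0), (nat_lit 0)⟩)
(.lf ⟨(nat_lit 0x246484246484), (nat_lit 8), (nat_lit 0x484246484246), (nat_lit 8)⟩)))
(.nd (.nd (.lf ⟨(nat_lit 153), (nat_lit 2), (nat_lit 0x159545542), (nat_lit 6)⟩)
(.lf ⟨(nat_lit 0xf493), (nat_lit 3), (nat_lit 0x124d54935533d2), (nat_lit 9)⟩))
(.nd (.lf ⟨(nat_lit 0xd90d9), (nat_lit 4), (nat_lit 0x643643), (nat_lit 4)⟩)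
(.lf ⟨(nat_lit 10), (nat_lit 1), (nat_lit 0x5421c55421c5), (nat_lit 8)⟩)))))))
(.nd (.nd (.nd (.nd (.nd (.nd (.nd (.lf ⟨(nat_lit 23), (nat_lit 1), (nat_lit 0x94094), (nat_lit 4)⟩)
(.lf ⟨(nat_lit 0x944c), (nat_lit 3), (nat_lit 0x6913cc3c9), (nat_lit 6)⟩))
(.lf ⟨(nat_lit 5), (nat_lit 1), (nat_lit 0x42042), (nat_lit 4)⟩))
(.nd (.lf ⟨(nat_lit 0x550f), (nat_lit 3), (nat_lit 0x5d43c5), (nat_lit 4)⟩)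
(.lf ⟨(nat_lit 0x68e247247), (nat_lit 6), (nat_lit 0x1c9187246), (nat_lit 6)⟩)))
(.nd (.nd (.lf ⟨(nat_lit 0x381381), (nat_lit 4), (nat_lit 0), (nat_lit 0)⟩)
(.lf ⟨(nat_lit 211), (nat_lit 2), (nat_lit 0x3564cd583), (nat_lit 6)⟩))
(.nd (.lf ⟨(nat_lit 0x18648c20e2d1206), (nat_lit 10), (nat_lit 0x19230838b448186), (nat_lit 10)⟩)
(.lf ⟨(nat_lit 12), (nat_lit 1), (nat_lit 0x641219048), (nat_lit 6)⟩))))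
(.nd (.nd (.nd (.lf ⟨(nat_lit 650), (nat_lit 2), (nat_lit 0), (nat_lit 0)⟩)
(.lf ⟨(nat_lit 0x3645), (nat_lit 3), (nat_lit 0x1924664d2592466450d9), (nat_lit 13)⟩))
(.nd (.lf ⟨(nat_lit 70), (nat_lit 2), (nat_lit 385), (nat_lit 2)⟩)
(.lf ⟨(nat_lit 536), (nat_lit 2), (nat_lit 0x318308), (nat_lit 4)⟩)))
(.nd (.nd (.lf ⟨(nat_lit 0x28f28f), (nat_lit 4), (nat_lit 0x3ca3ca), (nat_lit 4)⟩)
(.lf ⟨(nat_lit 0x259259), (nat_lit 4), (nat_lit 0x649649), (nat_lit 4)⟩))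
(.nd (.lf ⟨(nat_lit 0x205205), (nat_lit 4), (nat_lit 0x148148), (nat_lit 4)⟩)
(.lf ⟨(nat_lit 0x9291), (nat_lit 3), (nat_lit 0x65830f29160c3ca44944f44c3d130a), (nat_lit 20)⟩)))))
(.nd (.nd (.nd (.nd (.nd (.lf ⟨(nat_lit 0x55055), (nat_lit 4), (nat_lit 0x541541), (nat_lit 4)⟩)
(.lf ⟨(nat_lit 265), (nat_lit 2), (nat_lit 0x55340c3cc209204), (nat_lit 10)⟩))
(.lf ⟨(nat_lit 473), (nat_lit 2), (nat_lit 0x647), (nat_lit 2)⟩))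
(.nd (.lf ⟨(nat_lit 0x43c710f), (nat_lit 5), (nat_lit 0xf2ca2ca10f1c4), (nat_lit 9)⟩)
(.lf ⟨(nat_lit 0x413), (nat_lit 2), (nat_lit 0x4d0), (nat_lit 2)⟩)))
(.nd (.nd (.lf ⟨(nat_lit 0x57502), (nat_lit 4), (nat_lit 0x517517517502057506346246349185), (nat_lit 20)⟩)
(.lf ⟨(nat_lit 0x434c), (nat_lit 3), (nat_lit 0x48c10d), (nat_lit 4)⟩))
(.nd (.lf ⟨(nat_lit 0x28b28a2ca), (nat_lit 6), (nat_lit 0), (nat_lit 0)⟩)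
(.lf ⟨(nat_lit 11), (nat_lit 1), (nat_lit 0xd51c3547), (nat_lit 6)⟩))))
(.nd (.nd (.nd (.lf ⟨(nat_lit 0x282282), (nat_lit 4), (nat_lit 0), (nat_lit 0)⟩)
(.lf ⟨(nat_lit 0x58d58d58d58d), (nat_lit 8), (nat_lit 0), (nat_lit 0)⟩))
(.nd (.lf ⟨(nat_lit 0x251251), (nat_lit 4), (nat_lit 0x449449), (nat_lit 4)⟩)
(.lf ⟨(nat_lit 468), (nat_lit 2), (nat_lit 0x507), (nat_lit 2)⟩)))
(.nd (.nd (.lf ⟨(nat_lit 0x59a), (nat_lit 2), (nat_lit 0x696), (nat_lit 2)⟩)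
(.lf ⟨(nat_lit 0), (nat_lit 0), (nat_lit 715), (nat_lit 2)⟩))
(.nd (.lf ⟨(nat_lit 0x4882c809220e48809220e4884882c809220e48809220e488), (nat_lit 32), (nat_lit 0x4882c809220e48809220e4884882c809220e48809220e488), (nat_lit 32)⟩)
(.lf ⟨(nat_lit 405), (nat_lit 2), (nat_lit 0x54f30f306), (nat_lit 6)⟩))))))
(.nd (.nd (.nd (.nd (.nd (.nd (.lf ⟨(nat_lit 975), (nat_lit 2), (nat_lit 0), (nat_lit 0)⟩)
(.lf ⟨(nat_lit 0), (nat_lit 0), (nat_lit 0x31115114c445445), (nat_lit 10)⟩))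
(.lf ⟨(nat_lit 0x81c9488247), (nat_lit 7), (nat_lit 0x207247207247), (nat_lit 8)⟩))
(.nd (.lf ⟨(nat_lit 0x246246), (nat_lit 4), (nat_lit 0), (nat_lit 0)⟩)
(.lf ⟨(nat_lit 0x619), (nat_lit 2), (nat_lit 0x658), (nat_lit 2)⟩)))
(.nd (.nd (.lf ⟨(nat_lit 0x347347), (nat_lit 4), (nat_lit 0x1cd1cd), (nat_lit 4)⟩)
(.lf ⟨(nat_lit 660), (nat_lit 2), (nat_lit 0x50a), (nat_lit 2)⟩))
(.nd (.lf ⟨(nat_lit 0x391391), (nat_lit 4), (nat_lit 0x452391392), (nat_lit 6)⟩)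
(.lf ⟨(nat_lit 0x2913d13ca), (nat_lit 6), (nat_lit 0x29128b0ca44a2c3), (nat_lit 10)⟩))))
(.nd (.nd (.nd (.lf ⟨(nat_lit 975), (nat_lit 2), (nat_lit 0), (nat_lit 0)⟩)
(.lf ⟨(nat_lit 201), (nat_lit 2), (nat_lit 0x34824615120919548a48a20954d54d48a48d48a48955229234a248246151205448246143), (nat_lit 48)⟩))
(.nd (.lf ⟨(nat_lit 0x6072181c8), (nat_lit 6), (nat_lit 0x2181c8607), (nat_lit 6)⟩)
(.lf ⟨(nat_lit 0x8252), (nat_lit 3), (nat_lit 0x9489209), (nat_lit 5)⟩)))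
(.nd (.nd (.lf ⟨(nat_lit 74), (nat_lit 2), (nat_lit 0x1ca1c4146346246349185101), (nat_lit 16)⟩)
(.lf ⟨(nat_lit 0x402487402487), (nat_lit 8), (nat_lit 0x487402487402), (nat_lit 8)⟩))
(.nd (.lf ⟨(nat_lit 0x344344), (nat_lit 4), (nat_lit 0x202202), (nat_lit 4)⟩)
(.lf ⟨(nat_lit 594), (nat_lit 2), (nat_lit 0x4913d13cc3d130a44f289), (nat_lit 14)⟩)))))
(.nd (.nd (.nd (.nd (.nd (.lf ⟨(nat_lit 76), (nat_lit 2), (nat_lit 0x20c20c20c201), (nat_lit 8)⟩)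
(.lf ⟨(nat_lit 216), (nat_lit 2), (nat_lit 0x603), (nat_lit 2)⟩))
(.lf ⟨(nat_lit 202), (nat_lit 2), (nat_lit 0xf2cd28b1cd1c3), (nat_lit 9)⟩))
(.nd (.lf ⟨(nat_lit 0x5c2117084), (nat_lit 6), (nat_lit 0x1170845c2), (nat_lit 6)⟩)
(.lf ⟨(nat_lit 0x6617), (nat_lit 3), (nat_lit 0x950d3cb25750f38f38b34b24f2c9198), (nat_lit 21)⟩)))
(.nd (.nd (.lf ⟨(nat_lit 69), (nat_lit 2), (nat_lit 0x18d18918d24614918d24624634918518d18918d246141), (nat_lit 30)⟩)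
(.lf ⟨(nat_lit 217), (nat_lit 2), (nat_lit 0x64d64d259489483), (nat_lit 10)⟩))
(.nd (.lf ⟨(nat_lit 0), (nat_lit 0), (nat_lit 260), (nat_lit 2)⟩)
(.lf ⟨(nat_lit 0x60120960d25820960d25860120960d25820960d258), (nat_lit 28), (nat_lit 0x60120960d25820960d25860120960d25820960d258), (nat_lit 28)⟩))))
(.nd (.nd (.nd (.lf ⟨(nat_lit 0x20a20a), (nat_lit 4), (nat_lit 0x288288), (nat_lit 4)⟩)
(.lf ⟨(nat_lit 726), (nat_lit 2), (nat_lit 0x3943d64ce5cf58e5cf5933943cb), (nat_lit 18)⟩))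
(.nd (.lf ⟨(nat_lit 0x29128a44a), (nat_lit 6), (nat_lit 0), (nat_lit 0)⟩)
(.lf ⟨(nat_lit 212), (nat_lit 2), (nat_lit 0x1a38b2543ce24f24b243), (nat_lit 13)⟩)))
(.nd (.nd (.lf ⟨(nat_lit 86), (nat_lit 2), (nat_lit 0x581), (nat_lit 2)⟩)
(.lf ⟨(nat_lit 0xf493), (nat_lit 3), (nat_lit 0x124d23d2), (nat_lit 5)⟩))
(.nd (.lf ⟨(nat_lit 469), (nat_lit 2), (nat_lit 0x552292287), (nat_lit 6)⟩)
(.lf ⟨(nat_lit 0), (nat_lit 0), (nat_lit 0x3c240f090), (nat_lit 6)⟩)))))))))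
(.nd (.nd (.nd (.nd (.nd (.nd (.nd (.nd (.nd (.lf ⟨(nat_lit 132), (nat_lit 2), (nat_lit 258), (nat_lit 2)⟩)
(.lf ⟨(nat_lit 0x4832920ca), (nat_lit 6), (nat_lit 0x4832920ca), (nat_lit 6)⟩))
(.lf ⟨(nat_lit 0x4758b6962c704758b6962c7), (nat_lit 16), (nat_lit 0x4758b6962c704758b6962c7), (nat_lit 16)⟩))
(.nd (.lf ⟨(nat_lit 0x53051d0), (nat_lit 5), (nat_lit 0xc1d01cc14c147), (nat_lit 9)⟩)
(.lf ⟨(nat_lit 0x493493), (nat_lit 4), (nat_lit 0x4d24d2), (nat_lit 4)⟩)))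
(.nd (.nd (.lf ⟨(nat_lit 0x3d43d4), (nat_lit 4), (nat_lit 0x50f50f), (nat_lit 4)⟩)
(.lf ⟨(nat_lit 468), (nat_lit 2), (nat_lit 0x2ca2ca5d42ca50f38f38a51350f59351351651350f3974d42933ce3cb287), (nat_lit 40)⟩))
(.nd (.lf ⟨(nat_lit 0x8d2473491c23491cd247), (nat_lit 14), (nat_lit 0x8d2473491c23491cd247), (nat_lit 14)⟩)
(.lf ⟨(nat_lit 0), (nat_lit 0), (nat_lit 0x48a48a), (nat_lit 4)⟩))))
(.nd (.nd (.nd (.lf ⟨(nat_lit 0x1020c4083), (nat_lit 6), (nat_lit 0xc4083102), (nat_lit 6)⟩)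
(.lf ⟨(nat_lit 0x7348), (nat_lit 3), (nat_lit 0x34f2cd28b54d29234a48d48a48f2cd2ca2d52922c81cd), (nat_lit 30)⟩))
(.nd (.lf ⟨(nat_lit 0x204548115), (nat_lit 6), (nat_lit 0x548115204), (nat_lit 6)⟩)
(.lf ⟨(nat_lit 664), (nat_lit 2), (nat_lit 0x60a), (nat_lit 2)⟩)))
(.nd (.nd (.lf ⟨(nat_lit 143), (nat_lit 2), (nat_lit 962), (nat_lit 2)⟩)
(.lf ⟨(nat_lit 407), (nat_lit 2), (nat_lit 0x25434f2c95d43ce3ce2cd2c93cb246), (nat_lit 20)⟩))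
(.nd (.lf ⟨(nat_lit 0x499), (nat_lit 2), (nat_lit 0x652), (nat_lit 2)⟩)
(.lf ⟨(nat_lit 0x151209), (nat_lit 4), (nat_lit 0x449449209205448), (nat_lit 10)⟩)))))
(.nd (.nd (.nd (.nd (.nd (.lf ⟨(nat_lit 845), (nat_lit 2), (nat_lit 0), (nat_lit 0)⟩)
(.lf ⟨(nat_lit 0x1634e), (nat_lit 3), (nat_lit 0x1c5187146), (nat_lit 6)⟩))
(.lf ⟨(nat_lit 0xd10d110), (nat_lit 5), (nat_lit 0x10344344), (nat_lit 5)⟩))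
(.nd (.lf ⟨(nat_lit 0x7351), (nat_lit 3), (nat_lit 0xd44d1cd), (nat_lit 5)⟩)
(.lf ⟨(nat_lit 921), (nat_lit 2), (nat_lit 0x64e), (nat_lit 2)⟩)))
(.nd (.nd (.lf ⟨(nat_lit 0x348348), (nat_lit 4), (nat_lit 0x20d20d), (nat_lit 4)⟩)
(.lf ⟨(nat_lit 0x940c250), (nat_lit 5), (nat_lit 0x10250309), (nat_lit 5)⟩))
(.nd (.lf ⟨(nat_lit 0x348348), (nat_lit 4), (nat_lit 0), (nat_lit 0)⟩)
(.lf ⟨(nat_lit 202), (nat_lit 2), (nat_lit 0x1a65660f283), (nat_lit 7)⟩))))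
(.nd (.nd (.nd (.lf ⟨(nat_lit 147), (nat_lit 2), (nat_lit 0x393393393382), (nat_lit 8)⟩)
(.lf ⟨(nat_lit 598), (nat_lit 2), (nat_lit 0x589), (nat_lit 2)⟩))
(.nd (.lf ⟨(nat_lit 0x1c51c5), (nat_lit 4), (nat_lit 0), (nat_lit 0)⟩)
(.lf ⟨(nat_lit 0x6617), (nat_lit 3), (nat_lit 0x950d3cb25750b34b24f2c9198), (nat_lit 17)⟩)))
(.nd (.nd (.lf ⟨(nat_lit 0x5287), (nat_lit 3), (nat_lit 0xa1c5), (nat_lit 3)⟩)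
(.lf ⟨(nat_lit 0xe3d2), (nat_lit 3), (nat_lit 0xf48f38f), (nat_lit 5)⟩))
(.nd (.lf ⟨(nat_lit 17), (nat_lit 1), (nat_lit 0xd230348c), (nat_lit 6)⟩)
(.lf ⟨(nat_lit 399), (nat_lit 2), (nat_lit 0x3cb24b246), (nat_lit 6)⟩))))))
(.nd (.nd (.nd (.nd (.nd (.nd (.lf ⟨(nat_lit 68), (nat_lit 2), (nat_lit 0x7101), (nat_lit 3)⟩)
(.lf ⟨(nat_lit 0x411), (nat_lit 2), (nat_lit 0x450), (nat_lit 2)⟩))
(.lf ⟨(nat_lit 0x705120e2c838b), (nat_lit 9), (nat_lit 0x111d11d120e2c838b1c1), (nat_lit 13)⟩))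
(.nd (.lf ⟨(nat_lit 0x204148105), (nat_lit 6), (nat_lit 0x148105204), (nat_lit 6)⟩)
(.lf ⟨(nat_lit 0x50f5c45c450f5c45c4), (nat_lit 12), (nat_lit 0x50f5c45c450f5c45c4), (nat_lit 12)⟩)))
(.nd (.nd (.lf ⟨(nat_lit 0x34110d044), (nat_lit 6), (nat_lit 0x10d044341), (nat_lit 6)⟩)
(.lf ⟨(nat_lit 405), (nat_lit 2), (nat_lit 0x489552246), (nat_lit 6)⟩))
(.nd (.lf ⟨(nat_lit 0xc20c260d0d80820c260d0d8083083098343602083098343602), (nat_lit 34), (nat_lit 0xc20c260d0d80820c260d0d8083083098343602083098343602), (nat_lit 34)⟩)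
(.lf ⟨(nat_lit 0x3c81523d12c93cb2521523d12c93cb2523c81523d12c93cb2521523d12c93cb252), (nat_lit 44), (nat_lit 0x3c81523d12c93cb2521523d12c93cb2523c81523d12c93cb2521523d12c93cb252), (nat_lit 44)⟩))))
(.nd (.nd (.nd (.lf ⟨(nat_lit 0x2c32c3), (nat_lit 4), (nat_lit 0xcb0cb), (nat_lit 4)⟩)
(.lf ⟨(nat_lit 201), (nat_lit 2), (nat_lit 0x34824615120919548a48a20955229234a209148185448246143), (nat_lit 34)⟩))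
(.nd (.lf ⟨(nat_lit 789), (nat_lit 2), (nat_lit 0x55241240c), (nat_lit 6)⟩)
(.lf ⟨(nat_lit 409), (nat_lit 2), (nat_lit 0x646), (nat_lit 2)⟩)))
(.nd (.nd (.lf ⟨(nat_lit 0xa4ce28e), (nat_lit 5), (nat_lit 0xe29338a), (nat_lit 5)⟩)
(.lf ⟨(nat_lit 0x501214048), (nat_lit 6), (nat_lit 0x214048501), (nat_lit 6)⟩))
(.nd (.lf ⟨(nat_lit 410), (nat_lit 2), (nat_lit 0x686), (nat_lit 2)⟩)
(.lf ⟨(nat_lit 394), (nat_lit 2), (nat_lit 0x14286), (nat_lit 3)⟩)))))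
(.nd (.nd (.nd (.nd (.nd (.lf ⟨(nat_lit 0xc10c1), (nat_lit 4), (nat_lit 0x43043), (nat_lit 4)⟩)
(.lf ⟨(nat_lit 332), (nat_lit 2), (nat_lit 0x19305), (nat_lit 3)⟩))
(.lf ⟨(nat_lit 0x344344), (nat_lit 4), (nat_lit 0x10a34a10a34a), (nat_lit 8)⟩))
(.nd (.lf ⟨(nat_lit 0x424a), (nat_lit 3), (nat_lit 0x9289109), (nat_lit 5)⟩)
(.lf ⟨(nat_lit 0), (nat_lit 0), (nat_lit 0x38448f48f28e1123d23ca), (nat_lit 14)⟩)))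
(.nd (.nd (.lf ⟨(nat_lit 0x328b0ca), (nat_lit 5), (nat_lit 0xb28b0ca2c3), (nat_lit 7)⟩)
(.lf ⟨(nat_lit 208), (nat_lit 2), (nat_lit 0x1535224425244e30b34810d4ce3d22c810d44c103), (nat_lit 27)⟩))
(.nd (.lf ⟨(nat_lit 0x5309), (nat_lit 3), (nat_lit 0x1034930940d30914c), (nat_lit 11)⟩)
(.lf ⟨(nat_lit 0x450450), (nat_lit 4), (nat_lit 0x30840c25030930840c250309), (nat_lit 16)⟩))))
(.nd (.nd (.nd (.lf ⟨(nat_lit 0x10d10d), (nat_lit 4), (nat_lit 0x344344), (nat_lit 4)⟩)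
(.lf ⟨(nat_lit 0x557557), (nat_lit 4), (nat_lit 0x5d55d5), (nat_lit 4)⟩))
(.nd (.lf ⟨(nat_lit 0x1d9047641), (nat_lit 6), (nat_lit 0x6411d9047), (nat_lit 6)⟩)
(.lf ⟨(nat_lit 0x660a), (nat_lit 3), (nat_lit 0x50a198), (nat_lit 4)⟩)))
(.nd (.nd (.lf ⟨(nat_lit 0xb34f), (nat_lit 3), (nat_lit 0xf2cd), (nat_lit 3)⟩)
(.lf ⟨(nat_lit 18), (nat_lit 1), (nat_lit 0x38b10e2c4), (nat_lit 6)⟩))
(.nd (.lf ⟨(nat_lit 0xd20431431520431431434810c50c54810c50c5), (nat_lit 26), (nat_lit 0xd20431431520431431434810c50c54810c50c5), (nat_lit 26)⟩)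
(.lf ⟨(nat_lit 457), (nat_lit 2), (nat_lit 0x697513247), (nat_lit 6)⟩)))))))
(.nd (.nd (.nd (.nd (.nd (.nd (.nd (.lf ⟨(nat_lit 19), (nat_lit 1), (nat_lit 0x8e08e), (nat_lit 4)⟩)
(.lf ⟨(nat_lit 145), (nat_lit 2), (nat_lit 0x55341130f309109102), (nat_lit 12)⟩))
(.lf ⟨(nat_lit 0x20834434420d10d10820d10d108344344), (nat_lit 22), (nat_lit 0x20834434420d10d10820d10d108344344), (nat_lit 22)⟩))
(.nd (.lf ⟨(nat_lit 0x53cb), (nat_lit 3), (nat_lit 0x3964d43ce2c5), (nat_lit 8)⟩)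
(.lf ⟨(nat_lit 0x151206), (nat_lit 4), (nat_lit 0x54d4892c93cb2522c93cb35954d6494892c93cb2522c93cb246148), (nat_lit 36)⟩)))
(.nd (.nd (.lf ⟨(nat_lit 0x484092102), (nat_lit 6), (nat_lit 0x92102484), (nat_lit 6)⟩)
(.lf ⟨(nat_lit 727), (nat_lit 2), (nat_lit 0x5cb), (nat_lit 2)⟩))
(.nd (.lf ⟨(nat_lit 0x19230838b44818648c20e2d1206), (nat_lit 18), (nat_lit 0), (nat_lit 0)⟩)
(.lf ⟨(nat_lit 0x6617), (nat_lit 3), (nat_lit 0x69725434f2c950d24f2c9198), (nat_lit 16)⟩))))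
(.nd (.nd (.nd (.lf ⟨(nat_lit 0x2030480c1), (nat_lit 6), (nat_lit 0x480c1203), (nat_lit 6)⟩)
(.lf ⟨(nat_lit 0x170972465c6), (nat_lit 7), (nat_lit 0x172465c65c2), (nat_lit 7)⟩))
(.nd (.lf ⟨(nat_lit 0x301282301282), (nat_lit 8), (nat_lit 0x282301282301), (nat_lit 8)⟩)
(.lf ⟨(nat_lit 538), (nat_lit 2), (nat_lit 0x69245349039030f38f45340e40e308), (nat_lit 20)⟩)))
(.nd (.nd (.lf ⟨(nat_lit 0x24f24f), (nat_lit 4), (nat_lit 0x3c93c9), (nat_lit 4)⟩)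
(.lf ⟨(nat_lit 0x5206), (nat_lit 3), (nat_lit 0x1548f48f2482553523d23c9209185448), (nat_lit 21)⟩))
(.nd (.lf ⟨(nat_lit 665), (nat_lit 2), (nat_lit 0x64a), (nat_lit 2)⟩)
(.lf ⟨(nat_lit 594), (nat_lit 2), (nat_lit 0x45848f29160c3cc289), (nat_lit 12)⟩)))))
(.nd (.nd (.nd (.nd (.nd (.lf ⟨(nat_lit 148), (nat_lit 2), (nat_lit 0x17502), (nat_lit 3)⟩)
(.lf ⟨(nat_lit 592), (nat_lit 2), (nat_lit 0x409), (nat_lit 2)⟩))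
(.lf ⟨(nat_lit 25), (nat_lit 1), (nat_lit 0x152152), (nat_lit 4)⟩))
(.nd (.lf ⟨(nat_lit 0x6209188), (nat_lit 5), (nat_lit 0x9209188246), (nat_lit 7)⟩)
(.lf ⟨(nat_lit 0x1104d039038441340e40e), (nat_lit 14), (nat_lit 0x1104d039038441340e40e), (nat_lit 14)⟩)))
(.nd (.nd (.lf ⟨(nat_lit 0x102484092), (nat_lit 6), (nat_lit 0x484092102), (nat_lit 6)⟩)
(.lf ⟨(nat_lit 213), (nat_lit 2), (nat_lit 0x543), (nat_lit 2)⟩))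
(.nd (.lf ⟨(nat_lit 0x31a19a30631a19a306), (nat_lit 12), (nat_lit 0), (nat_lit 0)⟩)
(.lf ⟨(nat_lit 0x2866995983c66995983ca19a65660f19a65660f), (nat_lit 26), (nat_lit 0x2866995983c66995983ca19a65660f19a65660f), (nat_lit 26)⟩))))
(.nd (.nd (.nd (.lf ⟨(nat_lit 0x311311), (nat_lit 4), (nat_lit 0x44c44c), (nat_lit 4)⟩)
(.lf ⟨(nat_lit 0x58134b34b58134b34b), (nat_lit 12), (nat_lit 0x58134b34b58134b34b), (nat_lit 12)⟩))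
(.nd (.lf ⟨(nat_lit 0x34221520d088548), (nat_lit 10), (nat_lit 0x21520d088548342), (nat_lit 10)⟩)
(.lf ⟨(nat_lit 202), (nat_lit 2), (nat_lit 0x58d3cb34a2c3), (nat_lit 8)⟩)))
(.nd (.nd (.lf ⟨(nat_lit 0x54ce), (nat_lit 3), (nat_lit 0x593385), (nat_lit 4)⟩)
(.lf ⟨(nat_lit 0x390390), (nat_lit 4), (nat_lit 0x40e40e), (nat_lit 4)⟩))
(.nd (.lf ⟨(nat_lit 0x1220e488), (nat_lit 5), (nat_lit 0x4882c805220b201), (nat_lit 10)⟩)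
(.lf ⟨(nat_lit 0x246486246486), (nat_lit 8), (nat_lit 0x486246486246), (nat_lit 8)⟩))))))
(.nd (.nd (.nd (.nd (.nd (.nd (.lf ⟨(nat_lit 0x4b04b), (nat_lit 4), (nat_lit 0x2c12c1), (nat_lit 4)⟩)
(.lf ⟨(nat_lit 0x8250), (nat_lit 3), (nat_lit 0x9409209), (nat_lit 5)⟩))
(.lf ⟨(nat_lit 0x197197197197), (nat_lit 8), (nat_lit 0), (nat_lit 0)⟩))
(.nd (.lf ⟨(nat_lit 334), (nat_lit 2), (nat_lit 0x16385), (nat_lit 3)⟩)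
(.lf ⟨(nat_lit 0x51548f48f), (nat_lit 6), (nat_lit 0x3d93d95523d23d4), (nat_lit 10)⟩)))
(.nd (.nd (.lf ⟨(nat_lit 0x447447), (nat_lit 4), (nat_lit 0x1d11d1), (nat_lit 4)⟩)
(.lf ⟨(nat_lit 275), (nat_lit 2), (nat_lit 0x4c4), (nat_lit 2)⟩))
(.nd (.lf ⟨(nat_lit 0x392391), (nat_lit 4), (nat_lit 0x48e452392), (nat_lit 6)⟩)
(.lf ⟨(nat_lit 535), (nat_lit 2), (nat_lit 0x5c8), (nat_lit 2)⟩))))
(.nd (.nd (.nd (.lf ⟨(nat_lit 0x1c81c8), (nat_lit 4), (nat_lit 0x207207), (nat_lit 4)⟩)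
(.lf ⟨(nat_lit 0), (nat_lit 0), (nat_lit 0x349349349349), (nat_lit 8)⟩))
(.nd (.lf ⟨(nat_lit 0x285285), (nat_lit 4), (nat_lit 0), (nat_lit 0)⟩)
(.lf ⟨(nat_lit 917), (nat_lit 2), (nat_lit 0x54e), (nat_lit 2)⟩)))
(.nd (.nd (.lf ⟨(nat_lit 0x140c349), (nat_lit 5), (nat_lit 0x24d30940c34940140c), (nat_lit 12)⟩)
(.lf ⟨(nat_lit 597), (nat_lit 2), (nat_lit 0x35954d259), (nat_lit 6)⟩))
(.nd (.lf ⟨(nat_lit 0x12355), (nat_lit 3), (nat_lit 0xd54d48d), (nat_lit 5)⟩)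
(.lf ⟨(nat_lit 202), (nat_lit 2), (nat_lit 0x1a65858f283), (nat_lit 7)⟩)))))
(.nd (.nd (.nd (.nd (.nd (.lf ⟨(nat_lit 0x1c11c1), (nat_lit 4), (nat_lit 0x47047), (nat_lit 4)⟩)
(.lf ⟨(nat_lit 265), (nat_lit 2), (nat_lit 0x55340f244), (nat_lit 6)⟩))
(.lf ⟨(nat_lit 0xf347347), (nat_lit 5), (nat_lit 0xd1cd1cf), (nat_lit 5)⟩))
(.nd (.lf ⟨(nat_lit 218), (nat_lit 2), (nat_lit 0x19a183), (nat_lit 4)⟩)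
(.lf ⟨(nat_lit 0x85d4), (nat_lit 3), (nat_lit 0xf3143cc217), (nat_lit 7)⟩)))
(.nd (.nd (.lf ⟨(nat_lit 0x34880d2), (nat_lit 5), (nat_lit 0x84880d2203), (nat_lit 7)⟩)
(.lf ⟨(nat_lit 394), (nat_lit 2), (nat_lit 0xd4da34e24a68e1c91c6), (nat_lit 13)⟩))
(.nd (.lf ⟨(nat_lit 0x172465c6), (nat_lit 5), (nat_lit 0x5c2197086), (nat_lit 6)⟩)
(.lf ⟨(nat_lit 0x258318258318), (nat_lit 8), (nat_lit 0x258318258318), (nat_lit 8)⟩))))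
(.nd (.nd (.nd (.lf ⟨(nat_lit 0x720b), (nat_lit 3), (nat_lit 0x82c81c8), (nat_lit 5)⟩)
(.lf ⟨(nat_lit 0x412412), (nat_lit 4), (nat_lit 0x490490), (nat_lit 4)⟩))
(.nd (.lf ⟨(nat_lit 0x364d64d), (nat_lit 5), (nat_lit 0xd0d9359), (nat_lit 5)⟩)
(.lf ⟨(nat_lit 467), (nat_lit 2), (nat_lit 0x4c7), (nat_lit 2)⟩)))
(.nd (.nd (.lf ⟨(nat_lit 789), (nat_lit 2), (nat_lit 0x55241549054c), (nat_lit 8)⟩)
(.lf ⟨(nat_lit 0x693289287247), (nat_lit 8), (nat_lit 0x286286), (nat_lit 4)⟩))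
(.nd (.lf ⟨(nat_lit 0x547547), (nat_lit 4), (nat_lit 0x1d51d5), (nat_lit 4)⟩)
(.lf ⟨(nat_lit 720), (nat_lit 2), (nat_lit 0x40f30f30b), (nat_lit 6)⟩))))))))
(.nd (.nd (.nd (.nd (.nd (.nd (.nd (.nd (.lf ⟨(nat_lit 11), (nat_lit 1), (nat_lit 0xc70c7), (nat_lit 4)⟩)
(.lf ⟨(nat_lit 17), (nat_lit 1), (nat_lit 0x44c34344c343), (nat_lit 8)⟩))
(.lf ⟨(nat_lit 0x146288), (nat_lit 4), (nat_lit 0x24655229228918544818a), (nat_lit 14)⟩))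
(.nd (.lf ⟨(nat_lit 0x292292), (nat_lit 4), (nat_lit 0x48a48a), (nat_lit 4)⟩)
(.lf ⟨(nat_lit 0x5444c454435954d2591094c454435954d2591095444c454435954d2591094c454435954d259109), (nat_lit 52), (nat_lit 0x5444c454435954d2591094c454435954d2591095444c454435954d2591094c454435954d259109), (nat_lit 52)⟩)))
(.nd (.nd (.lf ⟨(nat_lit 0x1484052), (nat_lit 5), (nat_lit 0x484052107101), (nat_lit 8)⟩)
(.lf ⟨(nat_lit 399), (nat_lit 2), (nat_lit 0x2c93cb246), (nat_lit 6)⟩))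
(.nd (.lf ⟨(nat_lit 0), (nat_lit 0), (nat_lit 0xc60c6), (nat_lit 4)⟩)
(.lf ⟨(nat_lit 0x15a58f2ca2ca), (nat_lit 8), (nat_lit 0x176963cb28b285), (nat_lit 9)⟩))))
(.nd (.nd (.nd (.lf ⟨(nat_lit 77), (nat_lit 2), (nat_lit 0x24d24d24d241), (nat_lit 8)⟩)
(.lf ⟨(nat_lit 0), (nat_lit 0), (nat_lit 0x46146141185185), (nat_lit 10)⟩))
(.nd (.lf ⟨(nat_lit 0x484142484142), (nat_lit 8), (nat_lit 0x142484142484), (nat_lit 8)⟩)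
(.lf ⟨(nat_lit 0x515), (nat_lit 2), (nat_lit 0x554), (nat_lit 2)⟩)))
(.nd (.nd (.lf ⟨(nat_lit 0xca20d), (nat_lit 4), (nat_lit 0x288348283288), (nat_lit 8)⟩)
(.lf ⟨(nat_lit 471), (nat_lit 2), (nat_lit 0x5c7), (nat_lit 2)⟩))
(.nd (.lf ⟨(nat_lit 0x84592592102116496484), (nat_lit 14), (nat_lit 0x84592592102116496484), (nat_lit 14)⟩)
(.lf ⟨(nat_lit 0x602602), (nat_lit 4), (nat_lit 0x99602658), (nat_lit 6)⟩)))))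
(.nd (.nd (.nd (.nd (.nd (.lf ⟨(nat_lit 0x92092), (nat_lit 4), (nat_lit 0x482482), (nat_lit 4)⟩)
(.lf ⟨(nat_lit 403), (nat_lit 2), (nat_lit 0x4c6), (nat_lit 2)⟩))
(.lf ⟨(nat_lit 145), (nat_lit 2), (nat_lit 0x55224425244e3082cd10d3d33ce3cb40d30810d102), (nat_lit 28)⟩))
(.nd (.lf ⟨(nat_lit 0x354d), (nat_lit 3), (nat_lit 0x153550d5), (nat_lit 5)⟩)
(.lf ⟨(nat_lit 0x3c92c93c92c9), (nat_lit 8), (nat_lit 0x2cf2c93cb24b3cb24f2c9), (nat_lit 14)⟩)))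
(.nd (.nd (.lf ⟨(nat_lit 0x2ca2ca), (nat_lit 4), (nat_lit 0x28b28b), (nat_lit 4)⟩)
(.lf ⟨(nat_lit 789), (nat_lit 2), (nat_lit 0x54c), (nat_lit 2)⟩))
(.nd (.lf ⟨(nat_lit 0xd201), (nat_lit 3), (nat_lit 0x301348), (nat_lit 4)⟩)
(.lf ⟨(nat_lit 0x4c30d959225224360f0c36564894890d83c34c30d959225224360f0c36564894890d83c3), (nat_lit 48), (nat_lit 0x4c30d959225224360f0c36564894890d83c34c30d959225224360f0c36564894890d83c3), (nat_lit 48)⟩))))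
(.nd (.nd (.nd (.lf ⟨(nat_lit 0x2c308b0c2), (nat_lit 6), (nat_lit 0x8b0c22c3), (nat_lit 6)⟩)
(.lf ⟨(nat_lit 0x5421d52465461d52465465421d52465461d5246546), (nat_lit 28), (nat_lit 0x5421d52465461d52465465421d52465461d5246546), (nat_lit 28)⟩))
(.nd (.lf ⟨(nat_lit 0x74ce), (nat_lit 3), (nat_lit 0xa2ca5164ce5cf58f29438f38f28b5d42ca2ca1d4), (nat_lit 27)⟩)
(.lf ⟨(nat_lit 0x7252), (nat_lit 3), (nat_lit 0xf28b25224f2ca1c9), (nat_lit 11)⟩)))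
(.nd (.nd (.lf ⟨(nat_lit 915), (nat_lit 2), (nat_lit 0x4ce), (nat_lit 2)⟩)
(.lf ⟨(nat_lit 532), (nat_lit 2), (nat_lit 0x3cc50f308), (nat_lit 6)⟩))
(.nd (.lf ⟨(nat_lit 0x10204425244c20e2c810110949130838b20410204425244c20e2c810110949130838b204), (nat_lit 48), (nat_lit 0x10204425244c20e2c810110949130838b20410204425244c20e2c810110949130838b204), (nat_lit 48)⟩)
(.lf ⟨(nat_lit 594), (nat_lit 2), (nat_lit 0x4913d130f309), (nat_lit 8)⟩))))))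
(.nd (.nd (.nd (.nd (.nd (.nd (.lf ⟨(nat_lit 650), (nat_lit 2), (nat_lit 0), (nat_lit 0)⟩)
(.lf ⟨(nat_lit 0x15244e30b), (nat_lit 6), (nat_lit 0x1869434434449138c2c5), (nat_lit 13)⟩))
(.lf ⟨(nat_lit 0), (nat_lit 0), (nat_lit 0x389386389386), (nat_lit 8)⟩))
(.nd (.lf ⟨(nat_lit 0x3c204f081), (nat_lit 6), (nat_lit 0x4f0813c2), (nat_lit 6)⟩)
(.lf ⟨(nat_lit 25), (nat_lit 1), (nat_lit 0x5548f48f05548f48f), (nat_lit 12)⟩)))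
(.nd (.nd (.lf ⟨(nat_lit 0x3c63c6), (nat_lit 4), (nat_lit 0x18f18f), (nat_lit 4)⟩)
(.lf ⟨(nat_lit 921), (nat_lit 2), (nat_lit 0x59949648e), (nat_lit 6)⟩))
(.nd (.lf ⟨(nat_lit 0x247247), (nat_lit 4), (nat_lit 0x247247), (nat_lit 4)⟩)
(.lf ⟨(nat_lit 596), (nat_lit 2), (nat_lit 0x509), (nat_lit 2)⟩))))
(.nd (.nd (.nd (.lf ⟨(nat_lit 0x109109), (nat_lit 4), (nat_lit 0x244244), (nat_lit 4)⟩)
(.lf ⟨(nat_lit 0x28445548a49128445548a49128a11155229244a11155229244a), (nat_lit 34), (nat_lit 0x28445548a49128445548a49128a11155229244a11155229244a), (nat_lit 34)⟩))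
(.nd (.lf ⟨(nat_lit 331), (nat_lit 2), (nat_lit 0x5cf5933943ce2c5), (nat_lit 10)⟩)
(.lf ⟨(nat_lit 725), (nat_lit 2), (nat_lit 0x54b), (nat_lit 2)⟩)))
(.nd (.nd (.lf ⟨(nat_lit 0x28d28d), (nat_lit 4), (nat_lit 0x34a34a), (nat_lit 4)⟩)
(.lf ⟨(nat_lit 0x544301544301), (nat_lit 8), (nat_lit 0x301544301544), (nat_lit 8)⟩))
(.nd (.lf ⟨(nat_lit 0x9185185288288), (nat_lit 9), (nat_lit 0xa20a209185185), (nat_lit 9)⟩)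
(.lf ⟨(nat_lit 0x454), (nat_lit 2), (nat_lit 0x511), (nat_lit 2)⟩)))))
(.nd (.nd (.nd (.nd (.nd (.lf ⟨(nat_lit 200), (nat_lit 2), (nat_lit 0x108108108103), (nat_lit 8)⟩)
(.lf ⟨(nat_lit 405), (nat_lit 2), (nat_lit 0x546), (nat_lit 2)⟩))
(.lf ⟨(nat_lit 15), (nat_lit 1), (nat_lit 0x8b08b), (nat_lit 4)⟩))
(.nd (.lf ⟨(nat_lit 723), (nat_lit 2), (nat_lit 0x4cf38f38b), (nat_lit 6)⟩)
(.lf ⟨(nat_lit 0x699699), (nat_lit 4), (nat_lit 0x68265a099), (nat_lit 6)⟩)))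
(.nd (.nd (.lf ⟨(nat_lit 0x750f1cf), (nat_lit 5), (nat_lit 0xf1d43c7), (nat_lit 5)⟩)
(.lf ⟨(nat_lit 403), (nat_lit 2), (nat_lit 0x16253696246), (nat_lit 7)⟩))
(.nd (.lf ⟨(nat_lit 402), (nat_lit 2), (nat_lit 0x452446), (nat_lit 4)⟩)
(.lf ⟨(nat_lit 0x38409244e30b09244e30b38409244e30b09244e30b), (nat_lit 28), (nat_lit 0x38409244e30b09244e30b38409244e30b09244e30b), (nat_lit 28)⟩))))
(.nd (.nd (.nd (.lf ⟨(nat_lit 0x18a18a), (nat_lit 4), (nat_lit 0x286286), (nat_lit 4)⟩)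
(.lf ⟨(nat_lit 0x2d92d9), (nat_lit 4), (nat_lit 0x2d92d9), (nat_lit 4)⟩))
(.nd (.lf ⟨(nat_lit 0x7256), (nat_lit 3), (nat_lit 0x95891c9), (nat_lit 5)⟩)
(.lf ⟨(nat_lit 0x3c83c8), (nat_lit 4), (nat_lit 0), (nat_lit 0)⟩)))
(.nd (.nd (.lf ⟨(nat_lit 212), (nat_lit 2), (nat_lit 0x34650f38d38b34b18f2cd2c3), (nat_lit 16)⟩)
(.lf ⟨(nat_lit 0x38828e20a), (nat_lit 6), (nat_lit 0x38828e20a), (nat_lit 6)⟩))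
(.nd (.lf ⟨(nat_lit 0x3649185), (nat_lit 5), (nat_lit 0x2461466491466450d9), (nat_lit 12)⟩)
(.lf ⟨(nat_lit 19), (nat_lit 1), (nat_lit 0x54258d39509634e), (nat_lit 10)⟩)))))))
(.nd (.nd (.nd (.nd (.nd (.nd (.nd (.lf ⟨(nat_lit 0x42042), (nat_lit 4), (nat_lit 0x81081), (nat_lit 4)⟩)
(.lf ⟨(nat_lit 0x244251), (nat_lit 4), (nat_lit 0x449109), (nat_lit 4)⟩))
(.lf ⟨(nat_lit 0xe2c6), (nat_lit 3), (nat_lit 0xc70431c1), (nat_lit 6)⟩))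
(.nd (.lf ⟨(nat_lit 456), (nat_lit 2), (nat_lit 0x12207), (nat_lit 3)⟩)
(.lf ⟨(nat_lit 0xb68e247247), (nat_lit 7), (nat_lit 0x1a3891c91cb), (nat_lit 7)⟩)))
(.nd (.nd (.lf ⟨(nat_lit 0x34840d2), (nat_lit 5), (nat_lit 0x4840d2108103), (nat_lit 8)⟩)
(.lf ⟨(nat_lit 982), (nat_lit 2), (nat_lit 0x5d64d74cf), (nat_lit 6)⟩))
(.nd (.lf ⟨(nat_lit 0x19230838b448191), (nat_lit 10), (nat_lit 0x44648c20e2d1206), (nat_lit 10)⟩)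
(.lf ⟨(nat_lit 0), (nat_lit 0), (nat_lit 0x216216), (nat_lit 4)⟩))))
(.nd (.nd (.nd (.lf ⟨(nat_lit 143), (nat_lit 2), (nat_lit 0x2cf2cf2cf2c2), (nat_lit 8)⟩)
(.lf ⟨(nat_lit 582), (nat_lit 2), (nat_lit 0x1410c5043), (nat_lit 6)⟩))
(.nd (.lf ⟨(nat_lit 392), (nat_lit 2), (nat_lit 0x11206), (nat_lit 3)⟩)
(.lf ⟨(nat_lit 0x65a), (nat_lit 2), (nat_lit 0x699), (nat_lit 2)⟩)))
(.nd (.nd (.lf ⟨(nat_lit 0x2d12d1), (nat_lit 4), (nat_lit 0x44b44b), (nat_lit 4)⟩)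
(.lf ⟨(nat_lit 0x7259), (nat_lit 3), (nat_lit 0x1a4ca25969324a1c9), (nat_lit 11)⟩))
(.nd (.lf ⟨(nat_lit 0x4c34c84c34c8), (nat_lit 8), (nat_lit 0x4c34c84c34c8), (nat_lit 8)⟩)
(.lf ⟨(nat_lit 0x3d03d0), (nat_lit 4), (nat_lit 0x40f40f), (nat_lit 4)⟩)))))
(.nd (.nd (.nd (.nd (.nd (.lf ⟨(nat_lit 0x69a), (nat_lit 2), (nat_lit 0), (nat_lit 0)⟩)
(.lf ⟨(nat_lit 0x11306), (nat_lit 3), (nat_lit 0x2030480c1), (nat_lit 6)⟩))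
(.lf ⟨(nat_lit 0x1548a48a), (nat_lit 5), (nat_lit 0x108148144205205), (nat_lit 10)⟩))
(.nd (.lf ⟨(nat_lit 0x43cb287), (nat_lit 5), (nat_lit 0x2c710f2ca4882c8), (nat_lit 10)⟩)
(.lf ⟨(nat_lit 208), (nat_lit 2), (nat_lit 0x1535224425245340e40c3ce3cb34810d3d22c810d44c103), (nat_lit 31)⟩)))
(.nd (.nd (.lf ⟨(nat_lit 0x58504), (nat_lit 4), (nat_lit 0x518504058507), (nat_lit 8)⟩)
(.lf ⟨(nat_lit 534), (nat_lit 2), (nat_lit 0x3d25d64d74cf488), (nat_lit 10)⟩))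
(.nd (.lf ⟨(nat_lit 0), (nat_lit 0), (nat_lit 0x28b28a2ca), (nat_lit 6)⟩)
(.lf ⟨(nat_lit 0x5470d90d95470d90d9), (nat_lit 12), (nat_lit 0x5470d90d95470d90d9), (nat_lit 12)⟩))))
(.nd (.nd (.nd (.lf ⟨(nat_lit 0x10f10f), (nat_lit 4), (nat_lit 0x3c43c4), (nat_lit 4)⟩)
(.lf ⟨(nat_lit 0), (nat_lit 0), (nat_lit 0x525d20525d2), (nat_lit 8)⟩))
(.nd (.lf ⟨(nat_lit 0x1c12461c1246), (nat_lit 8), (nat_lit 0x2461c12461c1), (nat_lit 8)⟩)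
(.lf ⟨(nat_lit 0x54a54a), (nat_lit 4), (nat_lit 0), (nat_lit 0)⟩)))
(.nd (.nd (.lf ⟨(nat_lit 261), (nat_lit 2), (nat_lit 0xa144), (nat_lit 3)⟩)
(.lf ⟨(nat_lit 0), (nat_lit 0), (nat_lit 0x6811da047), (nat_lit 6)⟩))
(.nd (.lf ⟨(nat_lit 10), (nat_lit 1), (nat_lit 0x105105), (nat_lit 4)⟩)
(.lf ⟨(nat_lit 0x544f), (nat_lit 3), (nat_lit 0x5905134175944cf151), (nat_lit 12)⟩))))))
(.nd (.nd (.nd (.nd (.nd (.nd (.lf ⟨(nat_lit 140), (nat_lit 2), (nat_lit 0x10302), (nat_lit 3)⟩)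
(.lf ⟨(nat_lit 588), (nat_lit 2), (nat_lit 0x1a3cc3c9), (nat_lit 5)⟩))
(.lf ⟨(nat_lit 0x2120481c94882474812072522091c84812072522091d20481c9488247), (nat_lit 38), (nat_lit 0x2120481c94882474812072522091c84812072522091d20481c9488247), (nat_lit 38)⟩))
(.nd (.lf ⟨(nat_lit 0x4247109), (nat_lit 5), (nat_lit 0x72471091c4), (nat_lit 7)⟩)
(.lf ⟨(nat_lit 18), (nat_lit 1), (nat_lit 0x20e1c8387), (nat_lit 6)⟩)))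
(.nd (.nd (.lf ⟨(nat_lit 0x388388), (nat_lit 4), (nat_lit 0x20e20e), (nat_lit 4)⟩)
(.lf ⟨(nat_lit 532), (nat_lit 2), (nat_lit 0x48f3143d2308), (nat_lit 8)⟩))
(.nd (.lf ⟨(nat_lit 0x185185), (nat_lit 4), (nat_lit 0x146146), (nat_lit 4)⟩)
(.lf ⟨(nat_lit 0x29128b0c52c314a44a2c314b0c5), (nat_lit 18), (nat_lit 0x29128b0c52c314a44a2c314b0c5), (nat_lit 18)⟩))))
(.nd (.nd (.nd (.lf ⟨(nat_lit 0x492), (nat_lit 2), (nat_lit 0), (nat_lit 0)⟩)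
(.lf ⟨(nat_lit 0x5d65d6), (nat_lit 4), (nat_lit 0x5c25825c2582), (nat_lit 8)⟩))
(.nd (.lf ⟨(nat_lit 0x281281), (nat_lit 4), (nat_lit 0), (nat_lit 0)⟩)
(.lf ⟨(nat_lit 0x557), (nat_lit 2), (nat_lit 0x5d5), (nat_lit 2)⟩)))
(.nd (.nd (.lf ⟨(nat_lit 525), (nat_lit 2), (nat_lit 840), (nat_lit 2)⟩)
(.lf ⟨(nat_lit 0x4c44024c4402), (nat_lit 8), (nat_lit 0x4024c44024c4), (nat_lit 8)⟩))
(.nd (.lf ⟨(nat_lit 0x20864834434421920d10d10821920d10d108648344344), (nat_lit 30), (nat_lit 0x20864834434421920d10d10821920d10d108648344344), (nat_lit 30)⟩)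
(.lf ⟨(nat_lit 0xc3ce), (nat_lit 3), (nat_lit 0xe30f), (nat_lit 3)⟩)))))
(.nd (.nd (.nd (.nd (.nd (.lf ⟨(nat_lit 0x182182), (nat_lit 4), (nat_lit 0x86086), (nat_lit 4)⟩)
(.lf ⟨(nat_lit 0x308d), (nat_lit 3), (nat_lit 0xd0c2), (nat_lit 3)⟩))
(.lf ⟨(nat_lit 267), (nat_lit 2), (nat_lit 0x122c4), (nat_lit 3)⟩))
(.nd (.lf ⟨(nat_lit 0x38128e04a), (nat_lit 6), (nat_lit 0x28e04a381), (nat_lit 6)⟩)
(.lf ⟨(nat_lit 920), (nat_lit 2), (nat_lit 0x60e), (nat_lit 2)⟩)))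
(.nd (.nd (.lf ⟨(nat_lit 76), (nat_lit 2), (nat_lit 769), (nat_lit 2)⟩)
(.lf ⟨(nat_lit 652), (nat_lit 2), (nat_lit 0xf48f64c3d23ca), (nat_lit 9)⟩))
(.nd (.lf ⟨(nat_lit 0x642642), (nat_lit 4), (nat_lit 0), (nat_lit 0)⟩)
(.lf ⟨(nat_lit 25), (nat_lit 1), (nat_lit 0x1c81481c8148), (nat_lit 8)⟩))))
(.nd (.nd (.nd (.lf ⟨(nat_lit 0x440c), (nat_lit 3), (nat_lit 0x304412), (nat_lit 4)⟩)
(.lf ⟨(nat_lit 467), (nat_lit 2), (nat_lit 0x38a2ca5135cf5935135163ce2943ce3ce28b5d42ca2ca1d4), (nat_lit 32)⟩))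
(.nd (.lf ⟨(nat_lit 0x193193), (nat_lit 4), (nat_lit 0x4c64c6), (nat_lit 4)⟩)
(.lf ⟨(nat_lit 0x6617), (nat_lit 3), (nat_lit 0x25769750d3cb25750d24f2c9198), (nat_lit 18)⟩)))
(.nd (.nd (.lf ⟨(nat_lit 280), (nat_lit 2), (nat_lit 0x604), (nat_lit 2)⟩)
(.lf ⟨(nat_lit 0xe413), (nat_lit 3), (nat_lit 0x104d0390), (nat_lit 5)⟩))
(.nd (.lf ⟨(nat_lit 0x4352), (nat_lit 3), (nat_lit 0xd48d10d), (nat_lit 5)⟩)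
(.lf ⟨(nat_lit 0x3c25d64175944d0513), (nat_lit 12), (nat_lit 0x5d64175944d05133c2), (nat_lit 12)⟩))))))))))
(.nd (.nd (.nd (.nd (.nd (.nd (.nd (.nd (.nd (.nd (.lf ⟨(nat_lit 195), (nat_lit 2), (nat_lit 0), (nat_lit 0)⟩)
(.lf ⟨(nat_lit 0x1934f30f309), (nat_lit 7), (nat_lit 0x1520c5483), (nat_lit 6)⟩))
(.lf ⟨(nat_lit 0), (nat_lit 0), (nat_lit 0x1d61c11d61c1), (nat_lit 8)⟩))
(.nd (.lf ⟨(nat_lit 0x548a), (nat_lit 3), (nat_lit 0x12292152), (nat_lit 5)⟩)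
(.lf ⟨(nat_lit 0x4d24d24d24d2), (nat_lit 8), (nat_lit 0x2154d24d22154d24d2), (nat_lit 12)⟩)))
(.nd (.nd (.lf ⟨(nat_lit 0x514), (nat_lit 2), (nat_lit 0), (nat_lit 0)⟩)
(.lf ⟨(nat_lit 855), (nat_lit 2), (nat_lit 0x5cd), (nat_lit 2)⟩))
(.nd (.lf ⟨(nat_lit 0x3491cd247), (nat_lit 6), (nat_lit 0x3491cd247), (nat_lit 6)⟩)
(.lf ⟨(nat_lit 0), (nat_lit 0), (nat_lit 0x5228148a), (nat_lit 6)⟩))))
(.nd (.nd (.nd (.lf ⟨(nat_lit 0x203203), (nat_lit 4), (nat_lit 0xc80c8), (nat_lit 4)⟩)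
(.lf ⟨(nat_lit 145), (nat_lit 2), (nat_lit 0x55224425244e30b34810d3d33ce3cb40d30810d102), (nat_lit 28)⟩))
(.nd (.lf ⟨(nat_lit 0x1c4547115), (nat_lit 6), (nat_lit 0x5471151c4), (nat_lit 6)⟩)
(.lf ⟨(nat_lit 0x530f), (nat_lit 3), (nat_lit 0x5905133ce3ce40c3cc5d65133ce3ce14c), (nat_lit 22)⟩)))
(.nd (.nd (.lf ⟨(nat_lit 78), (nat_lit 2), (nat_lit 897), (nat_lit 2)⟩)
(.lf ⟨(nat_lit 654), (nat_lit 2), (nat_lit 906), (nat_lit 2)⟩))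
(.nd (.lf ⟨(nat_lit 0), (nat_lit 0), (nat_lit 0x642659099), (nat_lit 6)⟩)
(.lf ⟨(nat_lit 0x2052073461512054482461cd1854481512091881481cd185448151209187346151205448246), (nat_lit 50), (nat_lit 0x2052073461512054482461cd1854481512091881481cd185448151209187346151205448246), (nat_lit 50)⟩)))))
(.nd (.nd (.nd (.nd (.nd (.lf ⟨(nat_lit 268), (nat_lit 2), (nat_lit 0x12304), (nat_lit 3)⟩)
(.lf ⟨(nat_lit 265), (nat_lit 2), (nat_lit 0x5534503c8248151144), (nat_lit 12)⟩))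
(.lf ⟨(nat_lit 0), (nat_lit 0), (nat_lit 0x210210), (nat_lit 4)⟩))
(.nd (.lf ⟨(nat_lit 395), (nat_lit 2), (nat_lit 710), (nat_lit 2)⟩)
(.lf ⟨(nat_lit 0x16152), (nat_lit 3), (nat_lit 0x652585), (nat_lit 4)⟩)))
(.nd (.nd (.lf ⟨(nat_lit 0x488488), (nat_lit 4), (nat_lit 0x212212), (nat_lit 4)⟩)
(.lf ⟨(nat_lit 0x4347), (nat_lit 3), (nat_lit 0x58710d), (nat_lit 4)⟩))
(.nd (.lf ⟨(nat_lit 0x8148151), (nat_lit 5), (nat_lit 0x8151148151151205205), (nat_lit 13)⟩)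
(.lf ⟨(nat_lit 651), (nat_lit 2), (nat_lit 0x6582ca), (nat_lit 4)⟩))))
(.nd (.nd (.nd (.lf ⟨(nat_lit 0x2c32c3), (nat_lit 4), (nat_lit 0), (nat_lit 0)⟩)
(.lf ⟨(nat_lit 0x5972572565c95c9), (nat_lit 10), (nat_lit 0x5825c95c95825c95c9), (nat_lit 12)⟩))
(.nd (.lf ⟨(nat_lit 0x28928a04a24a281), (nat_lit 10), (nat_lit 0x28128928a04a24a), (nat_lit 10)⟩)
(.lf ⟨(nat_lit 145), (nat_lit 2), (nat_lit 0x55324425130b34810d3cb35030810d102), (nat_lit 22)⟩)))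
(.nd (.nd (.lf ⟨(nat_lit 136), (nat_lit 2), (nat_lit 0x34810d102), (nat_lit 6)⟩)
(.lf ⟨(nat_lit 0x454451511), (nat_lit 6), (nat_lit 0), (nat_lit 0)⟩))
(.nd (.lf ⟨(nat_lit 218), (nat_lit 2), (nat_lit 0x683), (nat_lit 2)⟩)
(.lf ⟨(nat_lit 0x2c32422c3242), (nat_lit 8), (nat_lit 0x2422c32422c3), (nat_lit 8)⟩))))))
(.nd (.nd (.nd (.nd (.nd (.nd (.lf ⟨(nat_lit 0x44044), (nat_lit 4), (nat_lit 0x101101), (nat_lit 4)⟩)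
(.lf ⟨(nat_lit 0x44355340c3cc2442440d54d030f3091091110d54d030f30910910355340c3cc244244), (nat_lit 46), (nat_lit 0x44355340c3cc2442440d54d030f3091091110d54d030f30910910355340c3cc244244), (nat_lit 46)⟩))
(.lf ⟨(nat_lit 0xe2c648c), (nat_lit 5), (nat_lit 0x111d11d230e2c6), (nat_lit 9)⟩))
(.nd (.lf ⟨(nat_lit 210), (nat_lit 2), (nat_lit 0x483), (nat_lit 2)⟩)
(.lf ⟨(nat_lit 0x10261455448f48f0985155123d23c40985155123d23c261455448f48f), (nat_lit 38), (nat_lit 0x10261455448f48f0985155123d23c40985155123d23c261455448f48f), (nat_lit 38)⟩)))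
(.nd (.nd (.lf ⟨(nat_lit 0x4431110c4), (nat_lit 6), (nat_lit 0x1110c4443), (nat_lit 6)⟩)
(.lf ⟨(nat_lit 790), (nat_lit 2), (nat_lit 0x58c), (nat_lit 2)⟩))
(.nd (.lf ⟨(nat_lit 0x83098343602083098343602), (nat_lit 16), (nat_lit 0x83098343602083098343602), (nat_lit 16)⟩)
(.lf ⟨(nat_lit 0), (nat_lit 0), (nat_lit 0x3c834f20d), (nat_lit 6)⟩))))
(.nd (.nd (.nd (.lf ⟨(nat_lit 0x283283), (nat_lit 4), (nat_lit 0xca0ca), (nat_lit 4)⟩)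
(.lf ⟨(nat_lit 0x3246), (nat_lit 3), (nat_lit 0x9183), (nat_lit 3)⟩))
(.nd (.lf ⟨(nat_lit 270), (nat_lit 2), (nat_lit 0xc3871922cc20648c20b1d1304), (nat_lit 17)⟩)
(.lf ⟨(nat_lit 0x4246), (nat_lit 3), (nat_lit 0x44948e25118425130b), (nat_lit 12)⟩)))
(.nd (.nd (.lf ⟨(nat_lit 0x30d30d), (nat_lit 4), (nat_lit 0x34c34c), (nat_lit 4)⟩)
(.lf ⟨(nat_lit 0x346346), (nat_lit 4), (nat_lit 0), (nat_lit 0)⟩))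
(.nd (.lf ⟨(nat_lit 0x2130d33130d33084c34cc4c34cc), (nat_lit 18), (nat_lit 0x2130d33130d33084c34cc4c34cc), (nat_lit 18)⟩)
(.lf ⟨(nat_lit 0x24f38b), (nat_lit 4), (nat_lit 0x1a3ce2c9), (nat_lit 5)⟩)))))
(.nd (.nd (.nd (.nd (.nd (.lf ⟨(nat_lit 69), (nat_lit 2), (nat_lit 0x85085085081), (nat_lit 8)⟩)
(.lf ⟨(nat_lit 0x1022032871480ca1c51022032871480ca1c5), (nat_lit 24), (nat_lit 0x1022032871480ca1c51022032871480ca1c5), (nat_lit 24)⟩))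
(.lf ⟨(nat_lit 0xa34a), (nat_lit 3), (nat_lit 0x4a24a04a24a), (nat_lit 8)⟩))
(.nd (.lf ⟨(nat_lit 0x1cd24a), (nat_lit 4), (nat_lit 0x24a247349), (nat_lit 6)⟩)
(.lf ⟨(nat_lit 0x595595), (nat_lit 4), (nat_lit 0x542595096), (nat_lit 6)⟩)))
(.nd (.nd (.lf ⟨(nat_lit 0x834c), (nat_lit 3), (nat_lit 0xd30d20d), (nat_lit 5)⟩)
(.lf ⟨(nat_lit 201), (nat_lit 2), (nat_lit 0x348185448151205448246143), (nat_lit 16)⟩))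
(.nd (.lf ⟨(nat_lit 0x2d62d6), (nat_lit 4), (nat_lit 0x58b58b), (nat_lit 4)⟩)
(.lf ⟨(nat_lit 0x40c250309), (nat_lit 6), (nat_lit 0x196406590), (nat_lit 6)⟩))))
(.nd (.nd (.nd (.lf ⟨(nat_lit 0x312312), (nat_lit 4), (nat_lit 0x48c48c), (nat_lit 4)⟩)
(.lf ⟨(nat_lit 0x814975575520525d55d54820525d55d5481497557552), (nat_lit 30), (nat_lit 0x814975575520525d55d54820525d55d5481497557552), (nat_lit 30)⟩))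
(.nd (.lf ⟨(nat_lit 0x595596556), (nat_lit 6), (nat_lit 0), (nat_lit 0)⟩)
(.lf ⟨(nat_lit 0xc612), (nat_lit 3), (nat_lit 0x18491612458458491318), (nat_lit 13)⟩)))
(.nd (.nd (.lf ⟨(nat_lit 266), (nat_lit 2), (nat_lit 644), (nat_lit 2)⟩)
(.lf ⟨(nat_lit 9), (nat_lit 1), (nat_lit 0x86086), (nat_lit 4)⟩))
(.nd (.lf ⟨(nat_lit 0x4810c50c54810c50c5), (nat_lit 12), (nat_lit 0x4810c50c54810c50c5), (nat_lit 12)⟩)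
(.lf ⟨(nat_lit 586), (nat_lit 2), (nat_lit 0x17289), (nat_lit 3)⟩)))))))
(.nd (.nd (.nd (.nd (.nd (.nd (.nd (.lf ⟨(nat_lit 18), (nat_lit 1), (nat_lit 0x10c10c), (nat_lit 4)⟩)
(.lf ⟨(nat_lit 0x544c14c), (nat_lit 5), (nat_lit 0x1130544c151), (nat_lit 7)⟩))
(.lf ⟨(nat_lit 0), (nat_lit 0), (nat_lit 0x208208), (nat_lit 4)⟩))
(.nd (.lf ⟨(nat_lit 327), (nat_lit 2), (nat_lit 453), (nat_lit 2)⟩)
(.lf ⟨(nat_lit 405), (nat_lit 2), (nat_lit 0x35954d652252246), (nat_lit 10)⟩)))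
(.nd (.nd (.lf ⟨(nat_lit 0x495495), (nat_lit 4), (nat_lit 0x552552), (nat_lit 4)⟩)
(.lf ⟨(nat_lit 0xf593513), (nat_lit 5), (nat_lit 0x144d43d64d4), (nat_lit 7)⟩))
(.nd (.lf ⟨(nat_lit 0x18319230838b44818319230838b4481860c648c20e2d12060c648c20e2d1206), (nat_lit 42), (nat_lit 0x18319230838b44818319230838b4481860c648c20e2d12060c648c20e2d1206), (nat_lit 42)⟩)
(.lf ⟨(nat_lit 0x7252), (nat_lit 3), (nat_lit 0xa25224a1c9), (nat_lit 7)⟩))))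
(.nd (.nd (.nd (.lf ⟨(nat_lit 0x20c20c), (nat_lit 4), (nat_lit 0x308308), (nat_lit 4)⟩)
(.lf ⟨(nat_lit 0), (nat_lit 0), (nat_lit 0x5c25c2), (nat_lit 4)⟩))
(.nd (.lf ⟨(nat_lit 0x341204341204), (nat_lit 8), (nat_lit 0x204341204341), (nat_lit 8)⟩)
(.lf ⟨(nat_lit 0x252251), (nat_lit 4), (nat_lit 0x652459489489), (nat_lit 8)⟩)))
(.nd (.nd (.lf ⟨(nat_lit 0x2215088), (nat_lit 5), (nat_lit 0x15215088542), (nat_lit 7)⟩)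
(.lf ⟨(nat_lit 145), (nat_lit 2), (nat_lit 0x55224425244e41339038c3ce3cb34810d3cb35030810d102), (nat_lit 32)⟩))
(.nd (.lf ⟨(nat_lit 0x116556544116556544), (nat_lit 12), (nat_lit 0), (nat_lit 0)⟩)
(.lf ⟨(nat_lit 0x4d8), (nat_lit 2), (nat_lit 0x613), (nat_lit 2)⟩)))))
(.nd (.nd (.nd (.nd (.nd (.lf ⟨(nat_lit 0x94094), (nat_lit 4), (nat_lit 0x502502), (nat_lit 4)⟩)
(.lf ⟨(nat_lit 136), (nat_lit 2), (nat_lit 0x6585d344c20544c142), (nat_lit 12)⟩))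
(.lf ⟨(nat_lit 0), (nat_lit 0), (nat_lit 0x147147), (nat_lit 4)⟩))
(.nd (.lf ⟨(nat_lit 0x724e), (nat_lit 3), (nat_lit 0x93891c9), (nat_lit 5)⟩)
(.lf ⟨(nat_lit 18), (nat_lit 1), (nat_lit 0x38c10e304), (nat_lit 6)⟩)))
(.nd (.nd (.lf ⟨(nat_lit 0x2033080cc), (nat_lit 6), (nat_lit 0x3080cc203), (nat_lit 6)⟩)
(.lf ⟨(nat_lit 0x94da253), (nat_lit 5), (nat_lit 0x164c94da589), (nat_lit 7)⟩))
(.nd (.lf ⟨(nat_lit 0), (nat_lit 0), (nat_lit 0x4c68668c18131a19a306), (nat_lit 14)⟩)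
(.lf ⟨(nat_lit 0x1a65660f), (nat_lit 5), (nat_lit 0x283283), (nat_lit 4)⟩))))
(.nd (.nd (.nd (.lf ⟨(nat_lit 0xce0ce), (nat_lit 4), (nat_lit 0x383383), (nat_lit 4)⟩)
(.lf ⟨(nat_lit 0x34b34b), (nat_lit 4), (nat_lit 0x2c334b0cd), (nat_lit 6)⟩))
(.nd (.lf ⟨(nat_lit 0x215208548), (nat_lit 6), (nat_lit 0), (nat_lit 0)⟩)
(.lf ⟨(nat_lit 0x7250), (nat_lit 3), (nat_lit 0x68e25038c24a24c24a1c9), (nat_lit 14)⟩)))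
(.nd (.nd (.lf ⟨(nat_lit 272), (nat_lit 2), (nat_lit 0xc552412304), (nat_lit 7)⟩)
(.lf ⟨(nat_lit 0x5209), (nat_lit 3), (nat_lit 0x8248148), (nat_lit 5)⟩))
(.nd (.lf ⟨(nat_lit 0x9220b2024882c8), (nat_lit 10), (nat_lit 0x9220b2024882c8), (nat_lit 10)⟩)
(.lf ⟨(nat_lit 977), (nat_lit 2), (nat_lit 0x44f), (nat_lit 2)⟩))))))
(.nd (.nd (.nd (.nd (.nd (.nd (.lf ⟨(nat_lit 780), (nat_lit 2), (nat_lit 0), (nat_lit 0)⟩)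
(.lf ⟨(nat_lit 0x250251), (nat_lit 4), (nat_lit 0x449409), (nat_lit 4)⟩))
(.lf ⟨(nat_lit 0x18e24e1971973893865c65c63893865c65ce24e197197), (nat_lit 30), (nat_lit 0x18e24e1971973893865c65c63893865c65ce24e197197), (nat_lit 30)⟩))
(.nd (.lf ⟨(nat_lit 0x4352308), (nat_lit 5), (nat_lit 0x35021030d10d), (nat_lit 8)⟩)
(.lf ⟨(nat_lit 0x519), (nat_lit 2), (nat_lit 0x654), (nat_lit 2)⟩)))
(.nd (.nd (.lf ⟨(nat_lit 0x407407), (nat_lit 4), (nat_lit 0x1d01d0), (nat_lit 4)⟩)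
(.lf ⟨(nat_lit 0xa490), (nat_lit 3), (nat_lit 0x12412292), (nat_lit 5)⟩))
(.nd (.lf ⟨(nat_lit 0xe452391), (nat_lit 5), (nat_lit 0x1245239148e), (nat_lit 7)⟩)
(.lf ⟨(nat_lit 0x814815a58f2ca2ca), (nat_lit 11), (nat_lit 0x1a58f2ca2ca205205), (nat_lit 11)⟩))))
(.nd (.nd (.nd (.lf ⟨(nat_lit 0x148148), (nat_lit 4), (nat_lit 0x205205), (nat_lit 4)⟩)
(.lf ⟨(nat_lit 841), (nat_lit 2), (nat_lit 0x143143), (nat_lit 4)⟩))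
(.nd (.lf ⟨(nat_lit 0xb44e), (nat_lit 3), (nat_lit 0xe2d1), (nat_lit 3)⟩)
(.lf ⟨(nat_lit 281), (nat_lit 2), (nat_lit 0x644), (nat_lit 2)⟩)))
(.nd (.nd (.lf ⟨(nat_lit 0x3484), (nat_lit 3), (nat_lit 0x212108483488), (nat_lit 8)⟩)
(.lf ⟨(nat_lit 0x4c34c3), (nat_lit 4), (nat_lit 0), (nat_lit 0)⟩))
(.nd (.lf ⟨(nat_lit 0x54d54d), (nat_lit 4), (nat_lit 0x950d50c2543543), (nat_lit 10)⟩)
(.lf ⟨(nat_lit 0x4349), (nat_lit 3), (nat_lit 0x69961634f28824a148144), (nat_lit 14)⟩)))))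
(.nd (.nd (.nd (.nd (.nd (.lf ⟨(nat_lit 0xc60c6), (nat_lit 4), (nat_lit 0x183183), (nat_lit 4)⟩)
(.lf ⟨(nat_lit 400), (nat_lit 2), (nat_lit 0x406), (nat_lit 2)⟩))
(.lf ⟨(nat_lit 655), (nat_lit 2), (nat_lit 970), (nat_lit 2)⟩))
(.nd (.lf ⟨(nat_lit 0x581581), (nat_lit 4), (nat_lit 0), (nat_lit 0)⟩)
(.lf ⟨(nat_lit 0x49a552699), (nat_lit 6), (nat_lit 0x65269549a), (nat_lit 6)⟩)))
(.nd (.nd (.lf ⟨(nat_lit 0x1487052), (nat_lit 5), (nat_lit 0x74870521c1), (nat_lit 7)⟩)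
(.lf ⟨(nat_lit 0x95523d2), (nat_lit 5), (nat_lit 0x1548f48f24f), (nat_lit 7)⟩))
(.nd (.lf ⟨(nat_lit 0), (nat_lit 0), (nat_lit 195), (nat_lit 2)⟩)
(.lf ⟨(nat_lit 0x18318), (nat_lit 3), (nat_lit 0x218048601), (nat_lit 6)⟩))))
(.nd (.nd (.nd (.lf ⟨(nat_lit 0x1cc1cc), (nat_lit 4), (nat_lit 0x307307), (nat_lit 4)⟩)
(.lf ⟨(nat_lit 208), (nat_lit 2), (nat_lit 0xd55224425244e30b34810d3d33ce3d22c810d44c103), (nat_lit 29)⟩))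
(.nd (.lf ⟨(nat_lit 0xd90c3643), (nat_lit 6), (nat_lit 0), (nat_lit 0)⟩)
(.lf ⟨(nat_lit 0x30f30f), (nat_lit 4), (nat_lit 0x40f40f40f40c3cc), (nat_lit 10)⟩)))
(.nd (.nd (.lf ⟨(nat_lit 391), (nat_lit 2), (nat_lit 0xe1cc35134c211206), (nat_lit 11)⟩)
(.lf ⟨(nat_lit 0x3884cd38810d115), (nat_lit 10), (nat_lit 0x54e21334e204344), (nat_lit 10)⟩))
(.nd (.lf ⟨(nat_lit 18), (nat_lit 1), (nat_lit 0x1c81c8), (nat_lit 4)⟩)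
(.lf ⟨(nat_lit 0x542686), (nat_lit 4), (nat_lit 0x103d030f309686542), (nat_lit 11)⟩))))))))
(.nd (.nd (.nd (.nd (.nd (.nd (.nd (.nd (.lf ⟨(nat_lit 9), (nat_lit 1), (nat_lit 0x86086), (nat_lit 4)⟩)
(.lf ⟨(nat_lit 0x15130544c), (nat_lit 6), (nat_lit 0x15130544c), (nat_lit 6)⟩))
(.lf ⟨(nat_lit 0x2da58e), (nat_lit 4), (nat_lit 0x38b696), (nat_lit 4)⟩))
(.nd (.lf ⟨(nat_lit 198), (nat_lit 2), (nat_lit 387), (nat_lit 2)⟩)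
(.lf ⟨(nat_lit 0x4c454435954d2591094c454435954d259109), (nat_lit 24), (nat_lit 0x4c454435954d2591094c454435954d259109), (nat_lit 24)⟩)))
(.nd (.nd (.lf ⟨(nat_lit 0x484484), (nat_lit 4), (nat_lit 0), (nat_lit 0)⟩)
(.lf ⟨(nat_lit 909), (nat_lit 2), (nat_lit 0x58d58e), (nat_lit 4)⟩))
(.nd (.lf ⟨(nat_lit 0x73491cd), (nat_lit 5), (nat_lit 0xd1cd247), (nat_lit 5)⟩)
(.lf ⟨(nat_lit 0xd70d7), (nat_lit 4), (nat_lit 0xd70d7), (nat_lit 4)⟩))))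
(.nd (.nd (.nd (.lf ⟨(nat_lit 585), (nat_lit 2), (nat_lit 0), (nat_lit 0)⟩)
(.lf ⟨(nat_lit 13), (nat_lit 1), (nat_lit 0x49185185049185185), (nat_lit 12)⟩))
(.nd (.lf ⟨(nat_lit 0x381142381142), (nat_lit 8), (nat_lit 0x142381142381), (nat_lit 8)⟩)
(.lf ⟨(nat_lit 0x45a), (nat_lit 2), (nat_lit 0x691), (nat_lit 2)⟩)))
(.nd (.nd (.lf ⟨(nat_lit 149), (nat_lit 2), (nat_lit 0x542), (nat_lit 2)⟩)
(.lf ⟨(nat_lit 666), (nat_lit 2), (nat_lit 0x68a), (nat_lit 2)⟩))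
(.nd (.lf ⟨(nat_lit 0x116496484), (nat_lit 6), (nat_lit 0x116112116112), (nat_lit 8)⟩)
(.lf ⟨(nat_lit 0), (nat_lit 0), (nat_lit 0x1cb1cb), (nat_lit 4)⟩)))))
(.nd (.nd (.nd (.nd (.nd (.lf ⟨(nat_lit 0x514), (nat_lit 2), (nat_lit 0), (nat_lit 0)⟩)
(.lf ⟨(nat_lit 214), (nat_lit 2), (nat_lit 0x583), (nat_lit 2)⟩))
(.lf ⟨(nat_lit 0x4246), (nat_lit 3), (nat_lit 0x18425244e3082c8), (nat_lit 10)⟩))
(.nd (.lf ⟨(nat_lit 345), (nat_lit 2), (nat_lit 0x645), (nat_lit 2)⟩)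
(.lf ⟨(nat_lit 0x3cb24f2c9), (nat_lit 6), (nat_lit 0x18f18f), (nat_lit 4)⟩)))
(.nd (.nd (.lf ⟨(nat_lit 0x1c1247049), (nat_lit 6), (nat_lit 0x2470491c1), (nat_lit 6)⟩)
(.lf ⟨(nat_lit 471), (nat_lit 2), (nat_lit 0x5ca38f38b28e3ce28b287), (nat_lit 14)⟩))
(.nd (.lf ⟨(nat_lit 0), (nat_lit 0), (nat_lit 390), (nat_lit 2)⟩)
(.lf ⟨(nat_lit 0xd959225224360f0c36564894890d83c3), (nat_lit 22), (nat_lit 0xd959225224360f0c36564894890d83c3), (nat_lit 22)⟩))))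
(.nd (.nd (.nd (.lf ⟨(nat_lit 0x482482), (nat_lit 4), (nat_lit 0x92092), (nat_lit 4)⟩)
(.lf ⟨(nat_lit 0x1d52465461d5246546), (nat_lit 12), (nat_lit 0x1d52465461d5246546), (nat_lit 12)⟩))
(.nd (.lf ⟨(nat_lit 0x659), (nat_lit 2), (nat_lit 0), (nat_lit 0)⟩)
(.lf ⟨(nat_lit 728), (nat_lit 2), (nat_lit 0x60b), (nat_lit 2)⟩)))
(.nd (.nd (.lf ⟨(nat_lit 785), (nat_lit 2), (nat_lit 0x44c), (nat_lit 2)⟩)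
(.lf ⟨(nat_lit 405), (nat_lit 2), (nat_lit 0x35954d489652246), (nat_lit 10)⟩))
(.nd (.lf ⟨(nat_lit 0), (nat_lit 0), (nat_lit 0x102102), (nat_lit 4)⟩)
(.lf ⟨(nat_lit 657), (nat_lit 2), (nat_lit 0x44a), (nat_lit 2)⟩))))))
(.nd (.nd (.nd (.nd (.nd (.nd (.lf ⟨(nat_lit 134), (nat_lit 2), (nat_lit 0x9182), (nat_lit 3)⟩)
(.lf ⟨(nat_lit 26), (nat_lit 1), (nat_lit 0x18d10d106344344), (nat_lit 10)⟩))
(.lf ⟨(nat_lit 0x4b1da58b587), (nat_lit 8), (nat_lit 0x2c76962d61c1), (nat_lit 8)⟩))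
(.nd (.lf ⟨(nat_lit 0x2c704b1c1), (nat_lit 6), (nat_lit 0x4b1c12c7), (nat_lit 6)⟩)
(.lf ⟨(nat_lit 0x1548f48f), (nat_lit 5), (nat_lit 0x10f10f), (nat_lit 4)⟩)))
(.nd (.nd (.lf ⟨(nat_lit 0x386386), (nat_lit 4), (nat_lit 0x18e18e), (nat_lit 4)⟩)
(.lf ⟨(nat_lit 853), (nat_lit 2), (nat_lit 0x54d), (nat_lit 2)⟩))
(.nd (.lf ⟨(nat_lit 7), (nat_lit 1), (nat_lit 0x44044), (nat_lit 4)⟩)
(.lf ⟨(nat_lit 0), (nat_lit 0), (nat_lit 0x294294), (nat_lit 4)⟩))))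
(.nd (.nd (.nd (.lf ⟨(nat_lit 0x338b1c6), (nat_lit 5), (nat_lit 0x1cb1ce2c7183), (nat_lit 8)⟩)
(.lf ⟨(nat_lit 0x11155229244a11155229244a), (nat_lit 16), (nat_lit 0x11155229244a11155229244a), (nat_lit 16)⟩))
(.nd (.lf ⟨(nat_lit 0x10d548), (nat_lit 4), (nat_lit 0x355215344355), (nat_lit 8)⟩)
(.lf ⟨(nat_lit 527), (nat_lit 2), (nat_lit 968), (nat_lit 2)⟩)))
(.nd (.nd (.lf ⟨(nat_lit 0x9552252), (nat_lit 5), (nat_lit 0x12255489), (nat_lit 5)⟩)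
(.lf ⟨(nat_lit 0x408408), (nat_lit 4), (nat_lit 0), (nat_lit 0)⟩))
(.nd (.lf ⟨(nat_lit 0x288288), (nat_lit 4), (nat_lit 0x108148144205205), (nat_lit 10)⟩)
(.lf ⟨(nat_lit 0x1093cb), (nat_lit 4), (nat_lit 0x55238c3ca44f38c3cc29130b109), (nat_lit 18)⟩)))))
(.nd (.nd (.nd (.nd (.nd (.lf ⟨(nat_lit 141), (nat_lit 2), (nat_lit 834), (nat_lit 2)⟩)
(.lf ⟨(nat_lit 328), (nat_lit 2), (nat_lit 0x19590205), (nat_lit 5)⟩))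
(.lf ⟨(nat_lit 0x28f2cd), (nat_lit 4), (nat_lit 0x3cb34b28b), (nat_lit 6)⟩))
(.nd (.lf ⟨(nat_lit 0x38b38b), (nat_lit 4), (nat_lit 0), (nat_lit 0)⟩)
(.lf ⟨(nat_lit 0), (nat_lit 0), (nat_lit 0x682682), (nat_lit 4)⟩)))
(.nd (.nd (.lf ⟨(nat_lit 0xb44c2cc), (nat_lit 5), (nat_lit 0xc2d130b), (nat_lit 5)⟩)
(.lf ⟨(nat_lit 278), (nat_lit 2), (nat_lit 0x58e28e284), (nat_lit 6)⟩))
(.nd (.lf ⟨(nat_lit 270), (nat_lit 2), (nat_lit 0x1230838744e20e1d1304), (nat_lit 13)⟩)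
(.lf ⟨(nat_lit 0x1244e30b), (nat_lit 5), (nat_lit 0x38418e106), (nat_lit 6)⟩))))
(.nd (.nd (.nd (.lf ⟨(nat_lit 0x31480c5), (nat_lit 5), (nat_lit 0x81480c5203), (nat_lit 7)⟩)
(.lf ⟨(nat_lit 18), (nat_lit 1), (nat_lit 0x2c42c4), (nat_lit 4)⟩))
(.nd (.lf ⟨(nat_lit 0x38938e24e), (nat_lit 6), (nat_lit 0), (nat_lit 0)⟩)
(.lf ⟨(nat_lit 0x408346408346), (nat_lit 8), (nat_lit 0x346408346408), (nat_lit 8)⟩)))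
(.nd (.nd (.lf ⟨(nat_lit 267), (nat_lit 2), (nat_lit 0x20b1c81c4), (nat_lit 6)⟩)
(.lf ⟨(nat_lit 0xe21334e204344), (nat_lit 9), (nat_lit 0x38808e202), (nat_lit 6)⟩))
(.nd (.lf ⟨(nat_lit 0x3646), (nat_lit 3), (nat_lit 0x191990d9), (nat_lit 5)⟩)
(.lf ⟨(nat_lit 0x1634e), (nat_lit 3), (nat_lit 0x1c56861c5686), (nat_lit 8)⟩)))))))
(.nd (.nd (.nd (.nd (.nd (.nd (.nd (.lf ⟨(nat_lit 25), (nat_lit 1), (nat_lit 0x55055), (nat_lit 4)⟩)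
(.lf ⟨(nat_lit 0x1244e30b), (nat_lit 5), (nat_lit 0x189109189109), (nat_lit 8)⟩))
(.lf ⟨(nat_lit 0x4348), (nat_lit 3), (nat_lit 0x810d), (nat_lit 3)⟩))
(.nd (.lf ⟨(nat_lit 0x204204), (nat_lit 4), (nat_lit 0), (nat_lit 0)⟩)
(.lf ⟨(nat_lit 0), (nat_lit 0), (nat_lit 0x14168e24724714168e247247), (nat_lit 16)⟩)))
(.nd (.nd (.lf ⟨(nat_lit 0x3386), (nat_lit 3), (nat_lit 0xe18e0ce), (nat_lit 5)⟩)
(.lf ⟨(nat_lit 461), (nat_lit 2), (nat_lit 0xd587), (nat_lit 3)⟩))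
(.nd (.lf ⟨(nat_lit 0x10648c20e2d1206), (nat_lit 10), (nat_lit 0x19230838b448184), (nat_lit 10)⟩)
(.lf ⟨(nat_lit 0x305305), (nat_lit 4), (nat_lit 0x641419050), (nat_lit 6)⟩))))
(.nd (.nd (.nd (.lf ⟨(nat_lit 0x1ca1ca), (nat_lit 4), (nat_lit 0x287287), (nat_lit 4)⟩)
(.lf ⟨(nat_lit 0), (nat_lit 0), (nat_lit 0x287141287141), (nat_lit 8)⟩))
(.nd (.lf ⟨(nat_lit 82), (nat_lit 2), (nat_lit 0x481), (nat_lit 2)⟩)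
(.lf ⟨(nat_lit 912), (nat_lit 2), (nat_lit 0x40e), (nat_lit 2)⟩)))
(.nd (.nd (.lf ⟨(nat_lit 0x429210a), (nat_lit 5), (nat_lit 0x1229210a484), (nat_lit 7)⟩)
(.lf ⟨(nat_lit 211), (nat_lit 2), (nat_lit 0x4c3), (nat_lit 2)⟩))
(.nd (.lf ⟨(nat_lit 0x4c34d30d3), (nat_lit 6), (nat_lit 0), (nat_lit 0)⟩)
(.lf ⟨(nat_lit 0xa44e), (nat_lit 3), (nat_lit 0x1838a458), (nat_lit 5)⟩)))))
(.nd (.nd (.nd (.nd (.nd (.lf ⟨(nat_lit 85), (nat_lit 2), (nat_lit 0x19541), (nat_lit 3)⟩)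
(.lf ⟨(nat_lit 136), (nat_lit 2), (nat_lit 0x6585d33cc3c814c142), (nat_lit 12)⟩))
(.lf ⟨(nat_lit 0xa34f2ca1cd2c7), (nat_lit 9), (nat_lit 0xca0ca), (nat_lit 4)⟩))
(.nd (.lf ⟨(nat_lit 0x5552152), (nat_lit 5), (nat_lit 0x12155485), (nat_lit 5)⟩)
(.lf ⟨(nat_lit 534), (nat_lit 2), (nat_lit 0x6576575545545935d34935d33d23c8), (nat_lit 20)⟩)))
(.nd (.nd (.lf ⟨(nat_lit 0x542542), (nat_lit 4), (nat_lit 0), (nat_lit 0)⟩)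
(.lf ⟨(nat_lit 527), (nat_lit 2), (nat_lit 0x48f488), (nat_lit 4)⟩))
(.nd (.lf ⟨(nat_lit 0), (nat_lit 0), (nat_lit 0x141141), (nat_lit 4)⟩)
(.lf ⟨(nat_lit 0x69228948e24a), (nat_lit 8), (nat_lit 0x5471951c6), (nat_lit 6)⟩))))
(.nd (.nd (.nd (.lf ⟨(nat_lit 0x328334a), (nat_lit 5), (nat_lit 0xa0cd283), (nat_lit 5)⟩)
(.lf ⟨(nat_lit 215), (nat_lit 2), (nat_lit 0x2d64ce50f38b2463d339750f58e5cf5933943ce2cd24544824544824655229228825535535229235229225548a48d2892091854481512091973d64ce50f38b58d58d25339750f58e5cf5933943ce3cb35339750f58e5cf5933943ce2c3), (nat_lit 124)⟩))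
(.nd (.lf ⟨(nat_lit 0x50f50f), (nat_lit 4), (nat_lit 0), (nat_lit 0)⟩)
(.lf ⟨(nat_lit 0x547547), (nat_lit 4), (nat_lit 0), (nat_lit 0)⟩)))
(.nd (.nd (.lf ⟨(nat_lit 88), (nat_lit 2), (nat_lit 0x6141d41c1), (nat_lit 6)⟩)
(.lf ⟨(nat_lit 0), (nat_lit 0), (nat_lit 0x191151146445445), (nat_lit 10)⟩))
(.nd (.lf ⟨(nat_lit 0x1220b201), (nat_lit 5), (nat_lit 0x4883922014882c8), (nat_lit 10)⟩)
(.lf ⟨(nat_lit 0x4246), (nat_lit 3), (nat_lit 0x1a48f38c3cc25130b246109), (nat_lit 15)⟩))))))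
(.nd (.nd (.nd (.nd (.nd (.nd (.lf ⟨(nat_lit 0x8c08c), (nat_lit 4), (nat_lit 0x302302), (nat_lit 4)⟩)
(.lf ⟨(nat_lit 0), (nat_lit 0), (nat_lit 0xcc24c243309309), (nat_lit 10)⟩))
(.lf ⟨(nat_lit 0x4812072522091d20481c9488247), (nat_lit 18), (nat_lit 0x4812072522091d20481c9488247), (nat_lit 18)⟩))
(.nd (.lf ⟨(nat_lit 722), (nat_lit 2), (nat_lit 0x48b), (nat_lit 2)⟩)
(.lf ⟨(nat_lit 0x585216148), (nat_lit 6), (nat_lit 0x585216148), (nat_lit 6)⟩)))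
(.nd (.nd (.lf ⟨(nat_lit 0x2421c9087), (nat_lit 6), (nat_lit 0x1c9087242), (nat_lit 6)⟩)
(.lf ⟨(nat_lit 981), (nat_lit 2), (nat_lit 0x54f), (nat_lit 2)⟩))
(.nd (.lf ⟨(nat_lit 0x205205), (nat_lit 4), (nat_lit 0x205205), (nat_lit 4)⟩)
(.lf ⟨(nat_lit 0x2c314b0c5), (nat_lit 6), (nat_lit 0x2c314b0c5), (nat_lit 6)⟩))))
(.nd (.nd (.nd (.lf ⟨(nat_lit 84), (nat_lit 2), (nat_lit 0x3d43d43d43c1), (nat_lit 8)⟩)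
(.lf ⟨(nat_lit 0x582582), (nat_lit 4), (nat_lit 0), (nat_lit 0)⟩))
(.nd (.lf ⟨(nat_lit 0x246146246146), (nat_lit 8), (nat_lit 0), (nat_lit 0)⟩)
(.lf ⟨(nat_lit 0x724b), (nat_lit 3), (nat_lit 0x92c91c9), (nat_lit 5)⟩)))
(.nd (.nd (.lf ⟨(nat_lit 0x3484), (nat_lit 3), (nat_lit 0x488488103488), (nat_lit 8)⟩)
(.lf ⟨(nat_lit 0x682682), (nat_lit 4), (nat_lit 0), (nat_lit 0)⟩))
(.nd (.lf ⟨(nat_lit 0x21920d10d108648344344), (nat_lit 14), (nat_lit 0x21920d10d108648344344), (nat_lit 14)⟩)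
(.lf ⟨(nat_lit 0x93cb), (nat_lit 3), (nat_lit 0xc3d13cc3d12c9), (nat_lit 9)⟩)))))
(.nd (.nd (.nd (.nd (.nd (.lf ⟨(nat_lit 0x102044081), (nat_lit 6), (nat_lit 0x44081102), (nat_lit 6)⟩)
(.lf ⟨(nat_lit 0xa04d), (nat_lit 3), (nat_lit 0xd281), (nat_lit 3)⟩))
(.lf ⟨(nat_lit 0x1cd3cb), (nat_lit 4), (nat_lit 0x34f2cd2ca2ca1cd), (nat_lit 10)⟩))
(.nd (.lf ⟨(nat_lit 0x542155085), (nat_lit 6), (nat_lit 0x155085542), (nat_lit 6)⟩)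
(.lf ⟨(nat_lit 0x4d4), (nat_lit 2), (nat_lit 0x5975164d7), (nat_lit 6)⟩)))
(.nd (.nd (.lf ⟨(nat_lit 200), (nat_lit 2), (nat_lit 515), (nat_lit 2)⟩)
(.lf ⟨(nat_lit 921), (nat_lit 2), (nat_lit 0x59958e), (nat_lit 4)⟩))
(.nd (.lf ⟨(nat_lit 262), (nat_lit 2), (nat_lit 0x1244c20e2c8184), (nat_lit 9)⟩)
(.lf ⟨(nat_lit 792), (nat_lit 2), (nat_lit 0x60c), (nat_lit 2)⟩))))
(.nd (.nd (.nd (.lf ⟨(nat_lit 0x20b20b), (nat_lit 4), (nat_lit 0x2c82c8), (nat_lit 4)⟩)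
(.lf ⟨(nat_lit 0x3973d6), (nat_lit 4), (nat_lit 0x5973d64d44d458f38f), (nat_lit 12)⟩))
(.nd (.lf ⟨(nat_lit 0x838c), (nat_lit 3), (nat_lit 0xc20e), (nat_lit 3)⟩)
(.lf ⟨(nat_lit 145), (nat_lit 2), (nat_lit 0x55324425140f40f40c3cc102), (nat_lit 16)⟩)))
(.nd (.nd (.lf ⟨(nat_lit 151), (nat_lit 2), (nat_lit 0x5c2), (nat_lit 2)⟩)
(.lf ⟨(nat_lit 145), (nat_lit 2), (nat_lit 0x5522442524504ce40c3ce3cb34810d3cb35030810d102), (nat_lit 30)⟩))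
(.nd (.lf ⟨(nat_lit 0x4355), (nat_lit 3), (nat_lit 0xd54d10d), (nat_lit 5)⟩)
(.lf ⟨(nat_lit 0x575905d65134144c15d64175944d0513), (nat_lit 22), (nat_lit 0x575905d65134144c15d64175944d0513), (nat_lit 22)⟩)))))))))
(.nd (.nd (.nd (.nd (.nd (.nd (.nd (.nd (.nd (.lf ⟨(nat_lit 5), (nat_lit 1), (nat_lit 0x42042), (nat_lit 4)⟩)
(.lf ⟨(nat_lit 0x248248), (nat_lit 4), (nat_lit 0x483205205483205205), (nat_lit 12)⟩))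
(.lf ⟨(nat_lit 0x1d61c11d62da58b1c11d62da58b1c758704758b6962c704758b6962c7), (nat_lit 38), (nat_lit 0x1d61c11d62da58b1c11d62da58b1c758704758b6962c704758b6962c7), (nat_lit 38)⟩))
(.nd (.lf ⟨(nat_lit 0x5d8), (nat_lit 2), (nat_lit 0x617), (nat_lit 2)⟩)
(.lf ⟨(nat_lit 0), (nat_lit 0), (nat_lit 0x4c45444c4544), (nat_lit 8)⟩)))
(.nd (.nd (.lf ⟨(nat_lit 0x541541), (nat_lit 4), (nat_lit 0x55055), (nat_lit 4)⟩)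
(.lf ⟨(nat_lit 278), (nat_lit 2), (nat_lit 0x29638a384), (nat_lit 6)⟩))
(.nd (.lf ⟨(nat_lit 0x34908d2473491c23491cd24734908d2473491c23491cd247), (nat_lit 32), (nat_lit 0x34908d2473491c23491cd24734908d2473491c23491cd247), (nat_lit 32)⟩)
(.lf ⟨(nat_lit 0x94893cb), (nat_lit 5), (nat_lit 0xf2c9489), (nat_lit 5)⟩))))
(.nd (.nd (.nd (.lf ⟨(nat_lit 0x144144), (nat_lit 4), (nat_lit 0x105105), (nat_lit 4)⟩)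
(.lf ⟨(nat_lit 0x305305), (nat_lit 4), (nat_lit 0x50050), (nat_lit 4)⟩))
(.nd (.lf ⟨(nat_lit 0x501102501102), (nat_lit 8), (nat_lit 0x102501102501), (nat_lit 8)⟩)
(.lf ⟨(nat_lit 728), (nat_lit 2), (nat_lit 0x4984d24cb), (nat_lit 6)⟩)))
(.nd (.nd (.lf ⟨(nat_lit 209), (nat_lit 2), (nat_lit 0x443), (nat_lit 2)⟩)
(.lf ⟨(nat_lit 469), (nat_lit 2), (nat_lit 0x5523d23c7), (nat_lit 6)⟩))
(.nd (.lf ⟨(nat_lit 0x485), (nat_lit 2), (nat_lit 0x19152), (nat_lit 3)⟩)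
(.lf ⟨(nat_lit 0x5449), (nat_lit 3), (nat_lit 0x11251151), (nat_lit 5)⟩)))))
(.nd (.nd (.nd (.nd (.nd (.lf ⟨(nat_lit 0x8e08e), (nat_lit 4), (nat_lit 0x382382), (nat_lit 4)⟩)
(.lf ⟨(nat_lit 26), (nat_lit 1), (nat_lit 0xd634e0d634e), (nat_lit 8)⟩))
(.lf ⟨(nat_lit 0xc344344), (nat_lit 5), (nat_lit 0xd10d10c), (nat_lit 5)⟩))
(.nd (.lf ⟨(nat_lit 460), (nat_lit 2), (nat_lit 775), (nat_lit 2)⟩)
(.lf ⟨(nat_lit 0x557), (nat_lit 2), (nat_lit 0x657655), (nat_lit 4)⟩)))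
(.nd (.nd (.lf ⟨(nat_lit 0x289289), (nat_lit 4), (nat_lit 0x24a24a), (nat_lit 4)⟩)
(.lf ⟨(nat_lit 212), (nat_lit 2), (nat_lit 0x34650d3cb34b24f2cd24b183), (nat_lit 16)⟩))
(.nd (.lf ⟨(nat_lit 12), (nat_lit 1), (nat_lit 0x34804d201), (nat_lit 6)⟩)
(.lf ⟨(nat_lit 535), (nat_lit 2), (nat_lit 0x5c8), (nat_lit 2)⟩))))
(.nd (.nd (.nd (.lf ⟨(nat_lit 0x2cf2cf), (nat_lit 4), (nat_lit 0x3cb3cb), (nat_lit 4)⟩)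
(.lf ⟨(nat_lit 470), (nat_lit 2), (nat_lit 0x587), (nat_lit 2)⟩))
(.nd (.lf ⟨(nat_lit 406), (nat_lit 2), (nat_lit 0x586), (nat_lit 2)⟩)
(.lf ⟨(nat_lit 404), (nat_lit 2), (nat_lit 0x38b34950e2cd2c92c6), (nat_lit 12)⟩)))
(.nd (.nd (.lf ⟨(nat_lit 719), (nat_lit 2), (nat_lit 971), (nat_lit 2)⟩)
(.lf ⟨(nat_lit 0x419), (nat_lit 2), (nat_lit 0x650), (nat_lit 2)⟩))
(.nd (.lf ⟨(nat_lit 0x10d24710d2472442443491c43491c9109), (nat_lit 22), (nat_lit 0x10d24710d2472442443491c43491c9109), (nat_lit 22)⟩)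
(.lf ⟨(nat_lit 532), (nat_lit 2), (nat_lit 0x50f30f308), (nat_lit 6)⟩))))))
(.nd (.nd (.nd (.nd (.nd (.nd (.lf ⟨(nat_lit 520), (nat_lit 2), (nat_lit 0), (nat_lit 0)⟩)
(.lf ⟨(nat_lit 0x151308), (nat_lit 4), (nat_lit 0x591250309205), (nat_lit 8)⟩))
(.lf ⟨(nat_lit 0), (nat_lit 0), (nat_lit 0x47587047587), (nat_lit 8)⟩))
(.nd (.lf ⟨(nat_lit 0x2041c8107), (nat_lit 6), (nat_lit 0x1c8107204), (nat_lit 6)⟩)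
(.lf ⟨(nat_lit 0x558), (nat_lit 2), (nat_lit 0x615), (nat_lit 2)⟩)))
(.nd (.nd (.lf ⟨(nat_lit 0x445445), (nat_lit 4), (nat_lit 0x151151), (nat_lit 4)⟩)
(.lf ⟨(nat_lit 217), (nat_lit 2), (nat_lit 0x34964d489483), (nat_lit 8)⟩))
(.nd (.lf ⟨(nat_lit 0x602602602602), (nat_lit 8), (nat_lit 0), (nat_lit 0)⟩)
(.lf ⟨(nat_lit 0x5cf1485cf1485cf1485cf148), (nat_lit 16), (nat_lit 0), (nat_lit 0)⟩))))
(.nd (.nd (.nd (.lf ⟨(nat_lit 0x303303), (nat_lit 4), (nat_lit 0xcc0cc), (nat_lit 4)⟩)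
(.lf ⟨(nat_lit 0), (nat_lit 0), (nat_lit 0x111204448), (nat_lit 6)⟩))
(.nd (.lf ⟨(nat_lit 529), (nat_lit 2), (nat_lit 0x448), (nat_lit 2)⟩)
(.lf ⟨(nat_lit 212), (nat_lit 2), (nat_lit 0x34e2cd2543ce24f24b243), (nat_lit 14)⟩)))
(.nd (.nd (.lf ⟨(nat_lit 0x83482cd), (nat_lit 5), (nat_lit 0xb34b20d20b), (nat_lit 7)⟩)
(.lf ⟨(nat_lit 0x686686), (nat_lit 4), (nat_lit 0), (nat_lit 0)⟩))
(.nd (.lf ⟨(nat_lit 8), (nat_lit 1), (nat_lit 0x103103), (nat_lit 4)⟩)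
(.lf ⟨(nat_lit 0xa44c3cc), (nat_lit 5), (nat_lit 0x64f30f29130f), (nat_lit 8)⟩)))))
(.nd (.nd (.nd (.nd (.nd (.lf ⟨(nat_lit 260), (nat_lit 2), (nat_lit 0), (nat_lit 0)⟩)
(.lf ⟨(nat_lit 521), (nat_lit 2), (nat_lit 584), (nat_lit 2)⟩))
(.lf ⟨(nat_lit 0x28928d24710d24724424a24a3491c43491c9109), (nat_lit 26), (nat_lit 0x28928d24710d24724424a24a3491c43491c9109), (nat_lit 26)⟩))
(.nd (.lf ⟨(nat_lit 0x44d), (nat_lit 2), (nat_lit 849), (nat_lit 2)⟩)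
(.lf ⟨(nat_lit 0x556), (nat_lit 2), (nat_lit 0x595), (nat_lit 2)⟩)))
(.nd (.nd (.lf ⟨(nat_lit 0x93cb24b), (nat_lit 5), (nat_lit 0xb24f2c9), (nat_lit 5)⟩)
(.lf ⟨(nat_lit 154), (nat_lit 2), (nat_lit 0x682), (nat_lit 2)⟩))
(.nd (.lf ⟨(nat_lit 721), (nat_lit 2), (nat_lit 0x49148b), (nat_lit 4)⟩)
(.lf ⟨(nat_lit 0x5450), (nat_lit 3), (nat_lit 0x11411151), (nat_lit 5)⟩))))
(.nd (.nd (.nd (.lf ⟨(nat_lit 0x52304), (nat_lit 4), (nat_lit 0x312304052307), (nat_lit 8)⟩)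
(.lf ⟨(nat_lit 0x5d95d9), (nat_lit 4), (nat_lit 0x657657), (nat_lit 4)⟩))
(.nd (.lf ⟨(nat_lit 0x488388488388), (nat_lit 8), (nat_lit 0x20e21220e212), (nat_lit 8)⟩)
(.lf ⟨(nat_lit 0x40c48f40c48f), (nat_lit 8), (nat_lit 0x48f40c48f40c), (nat_lit 8)⟩)))
(.nd (.nd (.lf ⟨(nat_lit 0x3488), (nat_lit 3), (nat_lit 0x122120d2), (nat_lit 5)⟩)
(.lf ⟨(nat_lit 0x38b54e2d5), (nat_lit 6), (nat_lit 0x38b54e2d5), (nat_lit 6)⟩))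
(.nd (.lf ⟨(nat_lit 0x1436436450d90d9), (nat_lit 10), (nat_lit 0x1436436450d90d9), (nat_lit 10)⟩)
(.lf ⟨(nat_lit 0x4349), (nat_lit 3), (nat_lit 0x69961759534f209148144), (nat_lit 14)⟩)))))))
(.nd (.nd (.nd (.nd (.nd (.nd (.nd (.lf ⟨(nat_lit 21), (nat_lit 1), (nat_lit 0x92092), (nat_lit 4)⟩)
(.lf ⟨(nat_lit 0x434610d), (nat_lit 5), (nat_lit 0x35218435138c2c4), (nat_lit 10)⟩))
(.lf ⟨(nat_lit 0x8344344), (nat_lit 5), (nat_lit 0xd10d108), (nat_lit 5)⟩))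
(.nd (.lf ⟨(nat_lit 90), (nat_lit 2), (nat_lit 0x19a586581), (nat_lit 6)⟩)
(.lf ⟨(nat_lit 0), (nat_lit 0), (nat_lit 0x1c5047141), (nat_lit 6)⟩)))
(.nd (.nd (.lf ⟨(nat_lit 0x543543), (nat_lit 4), (nat_lit 0xd50d5), (nat_lit 4)⟩)
(.lf ⟨(nat_lit 0x34c5), (nat_lit 3), (nat_lit 0xd2450d3), (nat_lit 5)⟩))
(.nd (.lf ⟨(nat_lit 388), (nat_lit 2), (nat_lit 0x648c20e2d1206106), (nat_lit 11)⟩)
(.lf ⟨(nat_lit 0), (nat_lit 0), (nat_lit 0x3c23c2), (nat_lit 4)⟩))))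
(.nd (.nd (.nd (.lf ⟨(nat_lit 0x242242), (nat_lit 4), (nat_lit 0x89089), (nat_lit 4)⟩)
(.lf ⟨(nat_lit 197), (nat_lit 2), (nat_lit 0x349143), (nat_lit 4)⟩))
(.nd (.lf ⟨(nat_lit 0x3012c33012c3), (nat_lit 8), (nat_lit 0x2c33012c3301), (nat_lit 8)⟩)
(.lf ⟨(nat_lit 0x724c), (nat_lit 3), (nat_lit 0x64a25039038c24a1c9), (nat_lit 12)⟩)))
(.nd (.nd (.lf ⟨(nat_lit 0x250250), (nat_lit 4), (nat_lit 0x409409), (nat_lit 4)⟩)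
(.lf ⟨(nat_lit 278), (nat_lit 2), (nat_lit 0x584), (nat_lit 2)⟩))
(.nd (.lf ⟨(nat_lit 10), (nat_lit 1), (nat_lit 0x1c21c2), (nat_lit 4)⟩)
(.lf ⟨(nat_lit 457), (nat_lit 2), (nat_lit 0x1a513289287), (nat_lit 7)⟩)))))
(.nd (.nd (.nd (.nd (.nd (.lf ⟨(nat_lit 0x618), (nat_lit 2), (nat_lit 0), (nat_lit 0)⟩)
(.lf ⟨(nat_lit 400), (nat_lit 2), (nat_lit 0x40f30f306), (nat_lit 6)⟩))
(.lf ⟨(nat_lit 0x647647), (nat_lit 4), (nat_lit 0x1d91d9), (nat_lit 4)⟩))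
(.nd (.lf ⟨(nat_lit 0x8292), (nat_lit 3), (nat_lit 0xa48a20a), (nat_lit 5)⟩)
(.lf ⟨(nat_lit 0x38c1104d039038441340e40e38c1104d039038441340e40e), (nat_lit 32), (nat_lit 0x38c1104d039038441340e40e38c1104d039038441340e40e), (nat_lit 32)⟩)))
(.nd (.nd (.lf ⟨(nat_lit 0x501501), (nat_lit 4), (nat_lit 0), (nat_lit 0)⟩)
(.lf ⟨(nat_lit 0x4352), (nat_lit 3), (nat_lit 0x1210d), (nat_lit 3)⟩))
(.nd (.lf ⟨(nat_lit 0), (nat_lit 0), (nat_lit 455), (nat_lit 2)⟩)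
(.lf ⟨(nat_lit 0x598), (nat_lit 2), (nat_lit 0x69961a656), (nat_lit 6)⟩))))
(.nd (.nd (.nd (.lf ⟨(nat_lit 0xd20d2), (nat_lit 4), (nat_lit 0x483483), (nat_lit 4)⟩)
(.lf ⟨(nat_lit 0x2c358134b34b58134b34b2c358134b34b58134b34b), (nat_lit 28), (nat_lit 0x2c358134b34b58134b34b2c358134b34b58134b34b), (nat_lit 28)⟩))
(.nd (.lf ⟨(nat_lit 0x611618458), (nat_lit 6), (nat_lit 0), (nat_lit 0)⟩)
(.lf ⟨(nat_lit 726), (nat_lit 2), (nat_lit 0x58b), (nat_lit 2)⟩)))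
(.nd (.nd (.lf ⟨(nat_lit 0x518), (nat_lit 2), (nat_lit 0x614), (nat_lit 2)⟩)
(.lf ⟨(nat_lit 0x3d23d9), (nat_lit 4), (nat_lit 0x64f48f), (nat_lit 4)⟩))
(.nd (.lf ⟨(nat_lit 0x9220e48809220e488), (nat_lit 12), (nat_lit 0x9220e48809220e488), (nat_lit 12)⟩)
(.lf ⟨(nat_lit 208), (nat_lit 2), (nat_lit 0x6996165533523c928824a14815130f10d44c103), (nat_lit 26)⟩))))))
(.nd (.nd (.nd (.nd (.nd (.nd (.lf ⟨(nat_lit 75), (nat_lit 2), (nat_lit 0xe2c1), (nat_lit 3)⟩)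
(.lf ⟨(nat_lit 17), (nat_lit 1), (nat_lit 0x303303), (nat_lit 4)⟩))
(.lf ⟨(nat_lit 12), (nat_lit 1), (nat_lit 0x481212048), (nat_lit 6)⟩))
(.nd (.lf ⟨(nat_lit 0x2870ca1c3), (nat_lit 6), (nat_lit 0xca1c3287), (nat_lit 6)⟩)
(.lf ⟨(nat_lit 0x183d93d9), (nat_lit 5), (nat_lit 0xf64f658), (nat_lit 5)⟩)))
(.nd (.nd (.lf ⟨(nat_lit 0x487487), (nat_lit 4), (nat_lit 0x1d21d2), (nat_lit 4)⟩)
(.lf ⟨(nat_lit 0x1da58d), (nat_lit 4), (nat_lit 0xa4cd4ca1da), (nat_lit 7)⟩))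
(.nd (.lf ⟨(nat_lit 716), (nat_lit 2), (nat_lit 0x44e45239230b), (nat_lit 8)⟩)
(.lf ⟨(nat_lit 279), (nat_lit 2), (nat_lit 0x5c4), (nat_lit 2)⟩))))
(.nd (.nd (.nd (.lf ⟨(nat_lit 0x381381), (nat_lit 4), (nat_lit 0x4e04e), (nat_lit 4)⟩)
(.lf ⟨(nat_lit 0x3349), (nat_lit 3), (nat_lit 0xd243), (nat_lit 3)⟩))
(.nd (.lf ⟨(nat_lit 0x5d45d4), (nat_lit 4), (nat_lit 0), (nat_lit 0)⟩)
(.lf ⟨(nat_lit 597), (nat_lit 2), (nat_lit 0x549), (nat_lit 2)⟩)))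
(.nd (.nd (.lf ⟨(nat_lit 264), (nat_lit 2), (nat_lit 516), (nat_lit 2)⟩)
(.lf ⟨(nat_lit 0x204285204285), (nat_lit 8), (nat_lit 0x285204285204), (nat_lit 8)⟩))
(.nd (.lf ⟨(nat_lit 213), (nat_lit 2), (nat_lit 0x35548d483), (nat_lit 6)⟩)
(.lf ⟨(nat_lit 0x4246), (nat_lit 3), (nat_lit 0x1a4913d13ce30f44c2913ca25130b246109), (nat_lit 23)⟩)))))
(.nd (.nd (.nd (.nd (.nd (.lf ⟨(nat_lit 520), (nat_lit 2), (nat_lit 0), (nat_lit 0)⟩)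
(.lf ⟨(nat_lit 136), (nat_lit 2), (nat_lit 0x185d3202), (nat_lit 5)⟩))
(.lf ⟨(nat_lit 523), (nat_lit 2), (nat_lit 712), (nat_lit 2)⟩))
(.nd (.lf ⟨(nat_lit 0x349349), (nat_lit 4), (nat_lit 0), (nat_lit 0)⟩)
(.lf ⟨(nat_lit 0x8696), (nat_lit 3), (nat_lit 0x195d95d55155164d74d24d74cf48f21a), (nat_lit 21)⟩)))
(.nd (.nd (.lf ⟨(nat_lit 0x45d45d4), (nat_lit 5), (nat_lit 0x5185176145d4614117517), (nat_lit 14)⟩)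
(.lf ⟨(nat_lit 0x9655), (nat_lit 3), (nat_lit 0x1954d64d259), (nat_lit 7)⟩))
(.nd (.lf ⟨(nat_lit 0), (nat_lit 0), (nat_lit 0x84084), (nat_lit 4)⟩)
(.lf ⟨(nat_lit 0x20960c60960c608258318258318), (nat_lit 18), (nat_lit 0x20960c60960c608258318258318), (nat_lit 18)⟩))))
(.nd (.nd (.nd (.lf ⟨(nat_lit 0x209209), (nat_lit 4), (nat_lit 0x248248), (nat_lit 4)⟩)
(.lf ⟨(nat_lit 0x4350), (nat_lit 3), (nat_lit 0x35540d10d), (nat_lit 6)⟩))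
(.nd (.lf ⟨(nat_lit 0x34338d0ce), (nat_lit 6), (nat_lit 0x38d0ce343), (nat_lit 6)⟩)
(.lf ⟨(nat_lit 0x318318), (nat_lit 4), (nat_lit 0x60c60c), (nat_lit 4)⟩)))
(.nd (.nd (.lf ⟨(nat_lit 201), (nat_lit 2), (nat_lit 0x20918518814824614644c34c21130d30914621130d30844c34c183), (nat_lit 36)⟩)
(.lf ⟨(nat_lit 0xe413), (nat_lit 3), (nat_lit 0x13413413390), (nat_lit 7)⟩))
(.nd (.lf ⟨(nat_lit 0x434a), (nat_lit 3), (nat_lit 0xd28d10d), (nat_lit 5)⟩)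
(.lf ⟨(nat_lit 0x940f), (nat_lit 3), (nat_lit 0xf250), (nat_lit 3)⟩))))))))
(.nd (.nd (.nd (.nd (.nd (.nd (.nd (.nd (.lf ⟨(nat_lit 14), (nat_lit 1), (nat_lit 0x4b04b), (nat_lit 4)⟩)
(.lf ⟨(nat_lit 0x15130944c24544c251309), (nat_lit 14), (nat_lit 0x15130944c24544c251309), (nat_lit 14)⟩))
(.lf ⟨(nat_lit 145), (nat_lit 2), (nat_lit 0x55224425244c20e2cd2043483d33ce3cb55234810d41241240c102), (nat_lit 36)⟩))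
(.nd (.lf ⟨(nat_lit 69), (nat_lit 2), (nat_lit 321), (nat_lit 2)⟩)
(.lf ⟨(nat_lit 0x15109), (nat_lit 3), (nat_lit 0x1510d655349644249544), (nat_lit 13)⟩)))
(.nd (.nd (.lf ⟨(nat_lit 0x393393), (nat_lit 4), (nat_lit 0x4ce4ce), (nat_lit 4)⟩)
(.lf ⟨(nat_lit 346), (nat_lit 2), (nat_lit 0x349696356245), (nat_lit 8)⟩))
(.nd (.lf ⟨(nat_lit 0x648c20e2d1206), (nat_lit 9), (nat_lit 0x184184), (nat_lit 4)⟩)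
(.lf ⟨(nat_lit 0xd257), (nat_lit 3), (nat_lit 0x17349), (nat_lit 3)⟩))))
(.nd (.nd (.nd (.lf ⟨(nat_lit 0x2c12c1), (nat_lit 4), (nat_lit 0x4b04b), (nat_lit 4)⟩)
(.lf ⟨(nat_lit 3), (nat_lit 1), (nat_lit 0x185185343), (nat_lit 6)⟩))
(.nd (.lf ⟨(nat_lit 0x2461c12461c1), (nat_lit 8), (nat_lit 0x1c12461c1246), (nat_lit 8)⟩)
(.lf ⟨(nat_lit 0x51a), (nat_lit 2), (nat_lit 0x5da5d4), (nat_lit 4)⟩)))
(.nd (.nd (.lf ⟨(nat_lit 198), (nat_lit 2), (nat_lit 0x20c44d30d20d44830d20c348348183), (nat_lit 20)⟩)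
(.lf ⟨(nat_lit 793), (nat_lit 2), (nat_lit 0x64c), (nat_lit 2)⟩))
(.nd (.lf ⟨(nat_lit 0x116102116496484084592592104584084592592102116496484), (nat_lit 34), (nat_lit 0x116102116496484084592592104584084592592102116496484), (nat_lit 34)⟩)
(.lf ⟨(nat_lit 152), (nat_lit 2), (nat_lit 0x602), (nat_lit 2)⟩)))))
(.nd (.nd (.nd (.nd (.nd (.lf ⟨(nat_lit 146), (nat_lit 2), (nat_lit 0x15482), (nat_lit 3)⟩)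
(.lf ⟨(nat_lit 207), (nat_lit 2), (nat_lit 963), (nat_lit 2)⟩))
(.lf ⟨(nat_lit 0xd548a48a0d548a48a), (nat_lit 12), (nat_lit 0xd548a48a0d548a48a), (nat_lit 12)⟩))
(.nd (.lf ⟨(nat_lit 918), (nat_lit 2), (nat_lit 0x58e), (nat_lit 2)⟩)
(.lf ⟨(nat_lit 0x24b24f), (nat_lit 4), (nat_lit 0x3c92c9), (nat_lit 4)⟩)))
(.nd (.nd (.lf ⟨(nat_lit 0x30a30a), (nat_lit 4), (nat_lit 0x28c28c), (nat_lit 4)⟩)
(.lf ⟨(nat_lit 331), (nat_lit 2), (nat_lit 0x5935d43ce3ce2c5), (nat_lit 10)⟩))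
(.nd (.lf ⟨(nat_lit 0x31a30c68c), (nat_lit 6), (nat_lit 0), (nat_lit 0)⟩)
(.lf ⟨(nat_lit 0x2930d959225224360f0d30d959225224360f0ca4c36564894890d83c34c36564894890d83c3), (nat_lit 50), (nat_lit 0x2930d959225224360f0d30d959225224360f0ca4c36564894890d83c34c36564894890d83c3), (nat_lit 50)⟩))))
(.nd (.nd (.nd (.lf ⟨(nat_lit 0x301301), (nat_lit 4), (nat_lit 0), (nat_lit 0)⟩)
(.lf ⟨(nat_lit 0x48a4954ce54e), (nat_lit 8), (nat_lit 0x553395392292), (nat_lit 8)⟩))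
(.nd (.lf ⟨(nat_lit 0x4882c84882c8), (nat_lit 8), (nat_lit 0), (nat_lit 0)⟩)
(.lf ⟨(nat_lit 0x252251), (nat_lit 4), (nat_lit 0x449489), (nat_lit 4)⟩)))
(.nd (.nd (.lf ⟨(nat_lit 0x2cd2cd), (nat_lit 4), (nat_lit 0x3cd2cd3cb), (nat_lit 6)⟩)
(.lf ⟨(nat_lit 0x96523d2), (nat_lit 5), (nat_lit 0xd64d48f48f24f), (nat_lit 9)⟩))
(.nd (.lf ⟨(nat_lit 0x10210949130838b204), (nat_lit 12), (nat_lit 0x10949130838b204102), (nat_lit 12)⟩)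
(.lf ⟨(nat_lit 0x48e48e), (nat_lit 4), (nat_lit 0), (nat_lit 0)⟩))))))
(.nd (.nd (.nd (.nd (.nd (.nd (.lf ⟨(nat_lit 0xc70c7), (nat_lit 4), (nat_lit 0x1c31c3), (nat_lit 4)⟩)
(.lf ⟨(nat_lit 136), (nat_lit 2), (nat_lit 0x1a6585d344c20544c142), (nat_lit 13)⟩))
(.lf ⟨(nat_lit 0x197197), (nat_lit 4), (nat_lit 0x1970465c1), (nat_lit 6)⟩))
(.nd (.lf ⟨(nat_lit 0x2c708b1c2), (nat_lit 6), (nat_lit 0x8b1c22c7), (nat_lit 6)⟩)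
(.lf ⟨(nat_lit 0x48f48f), (nat_lit 4), (nat_lit 0x119119), (nat_lit 4)⟩)))
(.nd (.nd (.lf ⟨(nat_lit 0x406406), (nat_lit 4), (nat_lit 0x190190), (nat_lit 4)⟩)
(.lf ⟨(nat_lit 537), (nat_lit 2), (nat_lit 0x319490490308), (nat_lit 8)⟩))
(.nd (.lf ⟨(nat_lit 0x3491cd1c9), (nat_lit 6), (nat_lit 0x491c91c1247247), (nat_lit 10)⟩)
(.lf ⟨(nat_lit 407), (nat_lit 2), (nat_lit 0x5c6), (nat_lit 2)⟩))))
(.nd (.nd (.nd (.lf ⟨(nat_lit 274), (nat_lit 2), (nat_lit 0x312312312304), (nat_lit 8)⟩)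
(.lf ⟨(nat_lit 0xa491291), (nat_lit 5), (nat_lit 0x15491291552292), (nat_lit 9)⟩))
(.nd (.lf ⟨(nat_lit 0x7351), (nat_lit 3), (nat_lit 0x111cd), (nat_lit 3)⟩)
(.lf ⟨(nat_lit 730), (nat_lit 2), (nat_lit 0x68b), (nat_lit 2)⟩)))
(.nd (.nd (.lf ⟨(nat_lit 0x34c80d3), (nat_lit 5), (nat_lit 0x84c80d3203), (nat_lit 7)⟩)
(.lf ⟨(nat_lit 0x681681), (nat_lit 4), (nat_lit 0), (nat_lit 0)⟩))
(.nd (.lf ⟨(nat_lit 0x3288288), (nat_lit 5), (nat_lit 0xa20a203), (nat_lit 5)⟩)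
(.lf ⟨(nat_lit 0xc3d0), (nat_lit 3), (nat_lit 0xf40f30f), (nat_lit 5)⟩)))))
(.nd (.nd (.nd (.nd (.nd (.lf ⟨(nat_lit 0x141141), (nat_lit 4), (nat_lit 0x45045), (nat_lit 4)⟩)
(.lf ⟨(nat_lit 594), (nat_lit 2), (nat_lit 0x489), (nat_lit 2)⟩))
(.lf ⟨(nat_lit 0), (nat_lit 0), (nat_lit 0x8d1cd1c2347347), (nat_lit 10)⟩))
(.nd (.lf ⟨(nat_lit 0x48c48c), (nat_lit 4), (nat_lit 0), (nat_lit 0)⟩)
(.lf ⟨(nat_lit 0x49a55269269549a), (nat_lit 10), (nat_lit 0), (nat_lit 0)⟩)))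
(.nd (.nd (.lf ⟨(nat_lit 0x1407050), (nat_lit 5), (nat_lit 0x74070501c1), (nat_lit 7)⟩)
(.lf ⟨(nat_lit 346), (nat_lit 2), (nat_lit 0x685), (nat_lit 2)⟩))
(.nd (.lf ⟨(nat_lit 273), (nat_lit 2), (nat_lit 0x3922c839238c2c838744c1c4), (nat_lit 16)⟩)
(.lf ⟨(nat_lit 0x19a24424419a244244), (nat_lit 12), (nat_lit 0x19a24424419a244244), (nat_lit 12)⟩))))
(.nd (.nd (.nd (.lf ⟨(nat_lit 0x18b18b), (nat_lit 4), (nat_lit 0x2c62c6), (nat_lit 4)⟩)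
(.lf ⟨(nat_lit 0x48b29228b), (nat_lit 6), (nat_lit 0x10b28b2842ca2ca), (nat_lit 10)⟩))
(.nd (.lf ⟨(nat_lit 0x481481), (nat_lit 4), (nat_lit 0), (nat_lit 0)⟩)
(.lf ⟨(nat_lit 0x458458), (nat_lit 4), (nat_lit 0x611611), (nat_lit 4)⟩)))
(.nd (.nd (.lf ⟨(nat_lit 330), (nat_lit 2), (nat_lit 645), (nat_lit 2)⟩)
(.lf ⟨(nat_lit 0x8e20a38828238828e20a), (nat_lit 14), (nat_lit 0x8e20a38828238828e20a), (nat_lit 14)⟩))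
(.nd (.lf ⟨(nat_lit 0x3649), (nat_lit 3), (nat_lit 0x192590d9), (nat_lit 5)⟩)
(.lf ⟨(nat_lit 0), (nat_lit 0), (nat_lit 0x1c54c7153), (nat_lit 6)⟩)))))))
(.nd (.nd (.nd (.nd (.nd (.nd (.nd (.lf ⟨(nat_lit 66), (nat_lit 2), (nat_lit 0x5081), (nat_lit 3)⟩)
(.lf ⟨(nat_lit 0x4250), (nat_lit 3), (nat_lit 0x549450449109), (nat_lit 8)⟩))
(.lf ⟨(nat_lit 0x1120e2c838b), (nat_lit 7), (nat_lit 0x20e2c620e2c6), (nat_lit 8)⟩))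
(.nd (.lf ⟨(nat_lit 0x434810d), (nat_lit 5), (nat_lit 0xd10d204), (nat_lit 5)⟩)
(.lf ⟨(nat_lit 0x61455448f48f), (nat_lit 8), (nat_lit 0x1143c450f), (nat_lit 6)⟩)))
(.nd (.nd (.lf ⟨(nat_lit 0x3410cd043), (nat_lit 6), (nat_lit 0xcd043341), (nat_lit 6)⟩)
(.lf ⟨(nat_lit 854), (nat_lit 2), (nat_lit 0x58d), (nat_lit 2)⟩))
(.nd (.lf ⟨(nat_lit 13), (nat_lit 1), (nat_lit 0x83083), (nat_lit 4)⟩)
(.lf ⟨(nat_lit 0x5308), (nat_lit 3), (nat_lit 0x1640c205), (nat_lit 5)⟩))))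
(.nd (.nd (.nd (.lf ⟨(nat_lit 144), (nat_lit 2), (nat_lit 0x310310310302), (nat_lit 8)⟩)
(.lf ⟨(nat_lit 0x287246287246), (nat_lit 8), (nat_lit 0x287246287246), (nat_lit 8)⟩))
(.nd (.lf ⟨(nat_lit 150), (nat_lit 2), (nat_lit 0x582), (nat_lit 2)⟩)
(.lf ⟨(nat_lit 0x41a), (nat_lit 2), (nat_lit 0x690), (nat_lit 2)⟩)))
(.nd (.nd (.lf ⟨(nat_lit 0xb34e2cd), (nat_lit 5), (nat_lit 0xd38b34b), (nat_lit 5)⟩)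
(.lf ⟨(nat_lit 652), (nat_lit 2), (nat_lit 0x1930a), (nat_lit 3)⟩))
(.nd (.lf ⟨(nat_lit 0x530d32130d32014c34c84c34c8), (nat_lit 18), (nat_lit 0x530d32130d32014c34c84c34c8), (nat_lit 18)⟩)
(.lf ⟨(nat_lit 408), (nat_lit 2), (nat_lit 0x511611506), (nat_lit 6)⟩)))))
(.nd (.nd (.nd (.nd (.nd (.lf ⟨(nat_lit 131), (nat_lit 2), (nat_lit 0x308d), (nat_lit 3)⟩)
(.lf ⟨(nat_lit 12), (nat_lit 1), (nat_lit 0x4d201348), (nat_lit 6)⟩))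
(.lf ⟨(nat_lit 0x73522c8), (nat_lit 5), (nat_lit 0xa3cb35548a48a3483cb28734b), (nat_lit 17)⟩))
(.nd (.lf ⟨(nat_lit 215), (nat_lit 2), (nat_lit 0x2d73c52cd24614b34918520918518814824614620914b34918518f2cd2c3), (nat_lit 40)⟩)
(.lf ⟨(nat_lit 0x124d2), (nat_lit 3), (nat_lit 0x542384542384), (nat_lit 8)⟩)))
(.nd (.nd (.lf ⟨(nat_lit 0x4152105), (nat_lit 5), (nat_lit 0x12152105484), (nat_lit 7)⟩)
(.lf ⟨(nat_lit 0x151206), (nat_lit 4), (nat_lit 0x2522553522522c93cb2522c93cb2554892c93cb2522c93cb246148), (nat_lit 36)⟩))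
(.nd (.lf ⟨(nat_lit 0), (nat_lit 0), (nat_lit 325), (nat_lit 2)⟩)
(.lf ⟨(nat_lit 0x54769228948e24a), (nat_lit 10), (nat_lit 0x69228948e24a547), (nat_lit 10)⟩))))
(.nd (.nd (.nd (.lf ⟨(nat_lit 0x110110), (nat_lit 4), (nat_lit 0x404404), (nat_lit 4)⟩)
(.lf ⟨(nat_lit 0x497657652), (nat_lit 6), (nat_lit 0x497485497485), (nat_lit 8)⟩))
(.nd (.lf ⟨(nat_lit 0x116104584), (nat_lit 6), (nat_lit 0), (nat_lit 0)⟩)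
(.lf ⟨(nat_lit 717), (nat_lit 2), (nat_lit 0x1a34b), (nat_lit 3)⟩)))
(.nd (.nd (.lf ⟨(nat_lit 397), (nat_lit 2), (nat_lit 838), (nat_lit 2)⟩)
(.lf ⟨(nat_lit 0x21a49a488692692), (nat_lit 10), (nat_lit 0x21a49a488692692), (nat_lit 10)⟩))
(.nd (.lf ⟨(nat_lit 273), (nat_lit 2), (nat_lit 0x38c2c82c838744c1c4), (nat_lit 12)⟩)
(.lf ⟨(nat_lit 0x1a513289289), (nat_lit 7), (nat_lit 0x1c91c9), (nat_lit 4)⟩))))))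
(.nd (.nd (.nd (.nd (.nd (.nd (.lf ⟨(nat_lit 0x451), (nat_lit 2), (nat_lit 0), (nat_lit 0)⟩)
(.lf ⟨(nat_lit 0x14c151), (nat_lit 4), (nat_lit 0x445305), (nat_lit 4)⟩))
(.lf ⟨(nat_lit 0x4873494891d21cd252247), (nat_lit 14), (nat_lit 0), (nat_lit 0)⟩))
(.nd (.lf ⟨(nat_lit 398), (nat_lit 2), (nat_lit 902), (nat_lit 2)⟩)
(.lf ⟨(nat_lit 25), (nat_lit 1), (nat_lit 0x585496152), (nat_lit 6)⟩)))
(.nd (.nd (.lf ⟨(nat_lit 0x408408), (nat_lit 4), (nat_lit 0x210210), (nat_lit 4)⟩)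
(.lf ⟨(nat_lit 0x412), (nat_lit 2), (nat_lit 0x490), (nat_lit 2)⟩))
(.nd (.lf ⟨(nat_lit 0x206146148185185), (nat_lit 10), (nat_lit 0x206146148185185), (nat_lit 10)⟩)
(.lf ⟨(nat_lit 0x2c329128b0c52c314a44a2c314b0c52c329128b0c52c314a44a2c314b0c5), (nat_lit 40), (nat_lit 0x2c329128b0c52c314a44a2c314b0c52c329128b0c52c314a44a2c314b0c5), (nat_lit 40)⟩))))
(.nd (.nd (.nd (.lf ⟨(nat_lit 0x52052), (nat_lit 4), (nat_lit 0x481481), (nat_lit 4)⟩)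
(.lf ⟨(nat_lit 0x1975975865d65d6), (nat_lit 10), (nat_lit 0x1975975865d65d6), (nat_lit 10)⟩))
(.nd (.lf ⟨(nat_lit 0x284284), (nat_lit 4), (nat_lit 0), (nat_lit 0)⟩)
(.lf ⟨(nat_lit 0x151206), (nat_lit 4), (nat_lit 0x3523cb25224f2c948f2c94893cb246148), (nat_lit 22)⟩)))
(.nd (.nd (.lf ⟨(nat_lit 458), (nat_lit 2), (nat_lit 647), (nat_lit 2)⟩)
(.lf ⟨(nat_lit 0x487281487281), (nat_lit 8), (nat_lit 0x281487281487), (nat_lit 8)⟩))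
(.nd (.lf ⟨(nat_lit 0x88219202219202208648088648082208648088648088219202219202), (nat_lit 38), (nat_lit 0x88219202219202208648088648082208648088648088219202219202), (nat_lit 38)⟩)
(.lf ⟨(nat_lit 788), (nat_lit 2), (nat_lit 0x50c), (nat_lit 2)⟩)))))
(.nd (.nd (.nd (.nd (.nd (.lf ⟨(nat_lit 0x1c21c2), (nat_lit 4), (nat_lit 0x87087), (nat_lit 4)⟩)
(.lf ⟨(nat_lit 0x65858f28308165858f283081), (nat_lit 16), (nat_lit 0x6585d650d3c9185), (nat_lit 10)⟩))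
(.lf ⟨(nat_lit 527), (nat_lit 2), (nat_lit 0x48f2cd48d2c8), (nat_lit 8)⟩))
(.nd (.lf ⟨(nat_lit 0x1814c6053), (nat_lit 6), (nat_lit 0x4c6053181), (nat_lit 6)⟩)
(.lf ⟨(nat_lit 0x597), (nat_lit 2), (nat_lit 0x5d6), (nat_lit 2)⟩)))
(.nd (.nd (.lf ⟨(nat_lit 137), (nat_lit 2), (nat_lit 578), (nat_lit 2)⟩)
(.lf ⟨(nat_lit 0x434e), (nat_lit 3), (nat_lit 0xd21334e204353), (nat_lit 9)⟩))
(.nd (.lf ⟨(nat_lit 0x19552652), (nat_lit 5), (nat_lit 0x642499092), (nat_lit 6)⟩)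
(.lf ⟨(nat_lit 0x2036480d9), (nat_lit 6), (nat_lit 0x2036480d9), (nat_lit 6)⟩))))
(.nd (.nd (.nd (.lf ⟨(nat_lit 205), (nat_lit 2), (nat_lit 0x20d203), (nat_lit 4)⟩)
(.lf ⟨(nat_lit 0xb696), (nat_lit 3), (nat_lit 0x143d64d44cf2da), (nat_lit 9)⟩))
(.nd (.lf ⟨(nat_lit 153), (nat_lit 2), (nat_lit 0x642), (nat_lit 2)⟩)
(.lf ⟨(nat_lit 202), (nat_lit 2), (nat_lit 0x1a58f2ca2c3), (nat_lit 7)⟩)))
(.nd (.nd (.lf ⟨(nat_lit 0xc351), (nat_lit 3), (nat_lit 0x1135135130d), (nat_lit 7)⟩)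
(.lf ⟨(nat_lit 0x344344), (nat_lit 4), (nat_lit 0x4c2213088), (nat_lit 6)⟩))
(.nd (.lf ⟨(nat_lit 533), (nat_lit 2), (nat_lit 0x548), (nat_lit 2)⟩)
(.lf ⟨(nat_lit 0x175055d64175944d0513), (nat_lit 13), (nat_lit 0x175905d65134144d7505), (nat_lit 13)⟩)))))))))))
(.nd (.nd (.nd (.nd (.nd (.nd (.nd (.nd (.nd (.nd (.nd (.lf ⟨(nat_lit 130), (nat_lit 2), (nat_lit 0), (nat_lit 0)⟩)
(.lf ⟨(nat_lit 0x544f), (nat_lit 3), (nat_lit 0x5cf151), (nat_lit 4)⟩))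
(.lf ⟨(nat_lit 0x1d61c7587), (nat_lit 6), (nat_lit 0), (nat_lit 0)⟩))
(.nd (.lf ⟨(nat_lit 472), (nat_lit 2), (nat_lit 0x607), (nat_lit 2)⟩)
(.lf ⟨(nat_lit 0x1d54d24d21d54d24d2), (nat_lit 12), (nat_lit 0x1d54d24d21d54d24d2), (nat_lit 12)⟩)))
(.nd (.nd (.lf ⟨(nat_lit 86), (nat_lit 2), (nat_lit 0x4d64d64d64c1), (nat_lit 8)⟩)
(.lf ⟨(nat_lit 852), (nat_lit 2), (nat_lit 0x50d), (nat_lit 2)⟩))
(.nd (.lf ⟨(nat_lit 0), (nat_lit 0), (nat_lit 0x34908d242), (nat_lit 6)⟩)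
(.lf ⟨(nat_lit 0x693289287247), (nat_lit 8), (nat_lit 0x19228648a), (nat_lit 6)⟩))))
(.nd (.nd (.nd (.lf ⟨(nat_lit 203), (nat_lit 2), (nat_lit 0x1cb1cb1cb1c3), (nat_lit 8)⟩)
(.lf ⟨(nat_lit 273), (nat_lit 2), (nat_lit 0x444), (nat_lit 2)⟩))
(.nd (.lf ⟨(nat_lit 0x76551d5), (nat_lit 5), (nat_lit 0x151d9547), (nat_lit 5)⟩)
(.lf ⟨(nat_lit 794), (nat_lit 2), (nat_lit 0x45a44c), (nat_lit 4)⟩)))
(.nd (.nd (.lf ⟨(nat_lit 77), (nat_lit 2), (nat_lit 833), (nat_lit 2)⟩)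
(.lf ⟨(nat_lit 0x381102381102), (nat_lit 8), (nat_lit 0x102381102381), (nat_lit 8)⟩))
(.nd (.lf ⟨(nat_lit 0), (nat_lit 0), (nat_lit 0x642642), (nat_lit 4)⟩)
(.lf ⟨(nat_lit 0x2031cd1854481512091873461512054482462031cd185448151209187346151205448246), (nat_lit 48), (nat_lit 0x2031cd1854481512091873461512054482462031cd185448151209187346151205448246), (nat_lit 48)⟩)))))
(.nd (.nd (.nd (.nd (.nd (.lf ⟨(nat_lit 0x492), (nat_lit 2), (nat_lit 0), (nat_lit 0)⟩)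
(.lf ⟨(nat_lit 0x151209), (nat_lit 4), (nat_lit 0x209205448), (nat_lit 6)⟩))
(.lf ⟨(nat_lit 0), (nat_lit 0), (nat_lit 0x20c20c), (nat_lit 4)⟩))
(.nd (.lf ⟨(nat_lit 0x1c11831c1183), (nat_lit 8), (nat_lit 0x1831c11831c1), (nat_lit 8)⟩)
(.lf ⟨(nat_lit 0x599599), (nat_lit 4), (nat_lit 0x38764e1d9), (nat_lit 6)⟩)))
(.nd (.nd (.lf ⟨(nat_lit 0x211211), (nat_lit 4), (nat_lit 0x448448), (nat_lit 4)⟩)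
(.lf ⟨(nat_lit 0x768e24a), (nat_lit 5), (nat_lit 0xa4ce24a25338a1da389), (nat_lit 13)⟩))
(.nd (.lf ⟨(nat_lit 0x188185185206146146206146148185185), (nat_lit 22), (nat_lit 0x188185185206146146206146148185185), (nat_lit 22)⟩)
(.lf ⟨(nat_lit 0x3d13d1), (nat_lit 4), (nat_lit 0x44f44f), (nat_lit 4)⟩))))
(.nd (.nd (.nd (.lf ⟨(nat_lit 0x24d24d), (nat_lit 4), (nat_lit 0x349349), (nat_lit 4)⟩)
(.lf ⟨(nat_lit 0x5c95c95c95c9), (nat_lit 8), (nat_lit 0x1972572465c95c9), (nat_lit 10)⟩))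
(.nd (.lf ⟨(nat_lit 0x28928a24a), (nat_lit 6), (nat_lit 0), (nat_lit 0)⟩)
(.lf ⟨(nat_lit 534), (nat_lit 2), (nat_lit 0x588), (nat_lit 2)⟩)))
(.nd (.nd (.lf ⟨(nat_lit 262), (nat_lit 2), (nat_lit 0x1cc2062c7204), (nat_lit 8)⟩)
(.lf ⟨(nat_lit 0x155d9), (nat_lit 3), (nat_lit 0x17657557), (nat_lit 5)⟩))
(.nd (.lf ⟨(nat_lit 0x48d48d), (nat_lit 4), (nat_lit 0x352352), (nat_lit 4)⟩)
(.lf ⟨(nat_lit 0xc3d1), (nat_lit 3), (nat_lit 0xf44f30f), (nat_lit 5)⟩))))))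
(.nd (.nd (.nd (.nd (.nd (.nd (.lf ⟨(nat_lit 67), (nat_lit 2), (nat_lit 0x60c1), (nat_lit 3)⟩)
(.lf ⟨(nat_lit 0x8355340c3cc2442440d54d030f3091091020d54d030f30910910355340c3cc244244), (nat_lit 46), (nat_lit 0x8355340c3cc2442440d54d030f3091091020d54d030f30910910355340c3cc244244), (nat_lit 46)⟩))
(.lf ⟨(nat_lit 0x447447), (nat_lit 4), (nat_lit 0x1c1447051), (nat_lit 6)⟩))
(.nd (.lf ⟨(nat_lit 0x1c40c7103), (nat_lit 6), (nat_lit 0xc71031c4), (nat_lit 6)⟩)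
(.lf ⟨(nat_lit 0x5c45c4), (nat_lit 4), (nat_lit 0x117117), (nat_lit 4)⟩)))
(.nd (.nd (.lf ⟨(nat_lit 280), (nat_lit 2), (nat_lit 0x518518518504), (nat_lit 8)⟩)
(.lf ⟨(nat_lit 0x48d), (nat_lit 2), (nat_lit 850), (nat_lit 2)⟩))
(.nd (.lf ⟨(nat_lit 0xd8098083602602), (nat_lit 10), (nat_lit 0xd8098083602602), (nat_lit 10)⟩)
(.lf ⟨(nat_lit 0x123d12c93cb252), (nat_lit 9), (nat_lit 0x3c818f206), (nat_lit 6)⟩))))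
(.nd (.nd (.nd (.lf ⟨(nat_lit 133), (nat_lit 2), (nat_lit 0x18d18918d246142), (nat_lit 10)⟩)
(.lf ⟨(nat_lit 0xca1c918a1c9183287246287246), (nat_lit 18), (nat_lit 0xca1c918a1c9183287246287246), (nat_lit 18)⟩))
(.nd (.lf ⟨(nat_lit 267), (nat_lit 2), (nat_lit 0x1220b204), (nat_lit 5)⟩)
(.lf ⟨(nat_lit 0x318318), (nat_lit 4), (nat_lit 0x61231848c), (nat_lit 6)⟩)))
(.nd (.nd (.lf ⟨(nat_lit 0x34130d04c), (nat_lit 6), (nat_lit 0x30d04c341), (nat_lit 6)⟩)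
(.lf ⟨(nat_lit 0xe419390), (nat_lit 5), (nat_lit 0x1039064e), (nat_lit 5)⟩))
(.nd (.lf ⟨(nat_lit 0x530d33130d33014c34cc4c34cc), (nat_lit 18), (nat_lit 0x530d33130d33014c34cc4c34cc), (nat_lit 18)⟩)
(.lf ⟨(nat_lit 0x93cb24a), (nat_lit 5), (nat_lit 0x69960e2893ce2c9), (nat_lit 10)⟩)))))
(.nd (.nd (.nd (.nd (.nd (.lf ⟨(nat_lit 0x81081), (nat_lit 4), (nat_lit 0x42042), (nat_lit 4)⟩)
(.lf ⟨(nat_lit 0x480ca1c52032871412032871480ca1c5), (nat_lit 22), (nat_lit 0x480ca1c52032871412032871480ca1c5), (nat_lit 22)⟩))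
(.lf ⟨(nat_lit 0x1cd2c8), (nat_lit 4), (nat_lit 0x28f2cd28d3cb28d28f2cd28b34b29228d55234a48a3483cb28734b), (nat_lit 36)⟩))
(.nd (.lf ⟨(nat_lit 0x2421c12421c1), (nat_lit 8), (nat_lit 0x1c12421c1242), (nat_lit 8)⟩)
(.lf ⟨(nat_lit 0x123d23ca), (nat_lit 5), (nat_lit 0x5421d5087), (nat_lit 6)⟩)))
(.nd (.nd (.lf ⟨(nat_lit 0x34120d048), (nat_lit 6), (nat_lit 0x20d048341), (nat_lit 6)⟩)
(.lf ⟨(nat_lit 0x5206), (nat_lit 3), (nat_lit 0x95523d23c82553523d23c9209185448), (nat_lit 21)⟩))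
(.nd (.lf ⟨(nat_lit 0x28b58b58a28b58b58a), (nat_lit 12), (nat_lit 0), (nat_lit 0)⟩)
(.lf ⟨(nat_lit 0x590), (nat_lit 2), (nat_lit 0x14c205308), (nat_lit 6)⟩))))
(.nd (.nd (.nd (.lf ⟨(nat_lit 0x484484), (nat_lit 4), (nat_lit 0x112112), (nat_lit 4)⟩)
(.lf ⟨(nat_lit 0x4974814975575520525d55d54925d20525d55d5481497557552), (nat_lit 34), (nat_lit 0x4974814975575520525d55d54925d20525d55d5481497557552), (nat_lit 34)⟩))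
(.nd (.lf ⟨(nat_lit 0x8411210), (nat_lit 5), (nat_lit 0x11411210448), (nat_lit 7)⟩)
(.lf ⟨(nat_lit 0x318318458318318458), (nat_lit 12), (nat_lit 0x61160c60c61160c60c), (nat_lit 12)⟩)))
(.nd (.nd (.lf ⟨(nat_lit 329), (nat_lit 2), (nat_lit 581), (nat_lit 2)⟩)
(.lf ⟨(nat_lit 0x49a49a), (nat_lit 4), (nat_lit 0x692692), (nat_lit 4)⟩))
(.nd (.lf ⟨(nat_lit 25), (nat_lit 1), (nat_lit 0x481152045), (nat_lit 6)⟩)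
(.lf ⟨(nat_lit 0), (nat_lit 0), (nat_lit 0x257257), (nat_lit 4)⟩)))))))
(.nd (.nd (.nd (.nd (.nd (.nd (.nd (.lf ⟨(nat_lit 17), (nat_lit 1), (nat_lit 0xcc0cc), (nat_lit 4)⟩)
(.lf ⟨(nat_lit 0x544c151311), (nat_lit 7), (nat_lit 0xc15114c15115115130544c), (nat_lit 15)⟩))
(.lf ⟨(nat_lit 145), (nat_lit 2), (nat_lit 0x1548910944c20e2c81d030840c1cd10d3d33ce3cb55234810d41241240c102), (nat_lit 41)⟩))
(.nd (.lf ⟨(nat_lit 262), (nat_lit 2), (nat_lit 0x730838b1c6204), (nat_lit 9)⟩)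
(.lf ⟨(nat_lit 597), (nat_lit 2), (nat_lit 0x35954d649), (nat_lit 6)⟩)))
(.nd (.nd (.lf ⟨(nat_lit 0x542542), (nat_lit 4), (nat_lit 0x95095), (nat_lit 4)⟩)
(.lf ⟨(nat_lit 0x35a356), (nat_lit 4), (nat_lit 0x58d68d), (nat_lit 4)⟩))
(.nd (.lf ⟨(nat_lit 0), (nat_lit 0), (nat_lit 0xd10d1), (nat_lit 4)⟩)
(.lf ⟨(nat_lit 0x151206), (nat_lit 4), (nat_lit 0x346148), (nat_lit 4)⟩))))
(.nd (.nd (.nd (.lf ⟨(nat_lit 0x301301), (nat_lit 4), (nat_lit 0x4c04c), (nat_lit 4)⟩)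
(.lf ⟨(nat_lit 13), (nat_lit 1), (nat_lit 0x185185), (nat_lit 4)⟩))
(.nd (.lf ⟨(nat_lit 471), (nat_lit 2), (nat_lit 0x2942ca2d750b28b287), (nat_lit 12)⟩)
(.lf ⟨(nat_lit 0x4252), (nat_lit 3), (nat_lit 0x11252251109), (nat_lit 7)⟩)))
(.nd (.nd (.lf ⟨(nat_lit 0x542215088), (nat_lit 6), (nat_lit 0x215088542), (nat_lit 6)⟩)
(.lf ⟨(nat_lit 0x964d), (nat_lit 3), (nat_lit 0x19359259), (nat_lit 5)⟩))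
(.nd (.lf ⟨(nat_lit 0x496496), (nat_lit 4), (nat_lit 0x592592), (nat_lit 4)⟩)
(.lf ⟨(nat_lit 0x61a), (nat_lit 2), (nat_lit 0x698), (nat_lit 2)⟩)))))
(.nd (.nd (.nd (.nd (.nd (.lf ⟨(nat_lit 83), (nat_lit 2), (nat_lit 0x164c1), (nat_lit 3)⟩)
(.lf ⟨(nat_lit 269), (nat_lit 2), (nat_lit 0x6585d335130544c144), (nat_lit 12)⟩))
(.lf ⟨(nat_lit 0x1cd2d5), (nat_lit 4), (nat_lit 0x28f2cd55229228d3cb28734b), (nat_lit 16)⟩))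
(.nd (.lf ⟨(nat_lit 0x2461c9187), (nat_lit 6), (nat_lit 0x1c9187246), (nat_lit 6)⟩)
(.lf ⟨(nat_lit 0x38c38c), (nat_lit 4), (nat_lit 0), (nat_lit 0)⟩)))
(.nd (.nd (.lf ⟨(nat_lit 0x2cc2cc), (nat_lit 4), (nat_lit 0x30b30b), (nat_lit 4)⟩)
(.lf ⟨(nat_lit 0x948964d), (nat_lit 5), (nat_lit 0xd64d64d252259), (nat_lit 9)⟩))
(.nd (.lf ⟨(nat_lit 0), (nat_lit 0), (nat_lit 0x46046), (nat_lit 4)⟩)
(.lf ⟨(nat_lit 463), (nat_lit 2), (nat_lit 0x6583c7), (nat_lit 4)⟩))))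
(.nd (.nd (.nd (.lf ⟨(nat_lit 0x383383), (nat_lit 4), (nat_lit 0xce0ce), (nat_lit 4)⟩)
(.lf ⟨(nat_lit 0x58d58d), (nat_lit 4), (nat_lit 0x58135604d), (nat_lit 6)⟩))
(.nd (.lf ⟨(nat_lit 0x386386), (nat_lit 4), (nat_lit 0), (nat_lit 0)⟩)
(.lf ⟨(nat_lit 0x724c), (nat_lit 3), (nat_lit 0x64a24c24a1c9), (nat_lit 8)⟩)))
(.nd (.nd (.lf ⟨(nat_lit 82), (nat_lit 2), (nat_lit 0x48c1cc1c1), (nat_lit 6)⟩)
(.lf ⟨(nat_lit 464), (nat_lit 2), (nat_lit 0x19407), (nat_lit 3)⟩))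
(.nd (.lf ⟨(nat_lit 0x4246), (nat_lit 3), (nat_lit 0x18425244c20e2c8), (nat_lit 10)⟩)
(.lf ⟨(nat_lit 0x1836460d9), (nat_lit 6), (nat_lit 0x6460d9183), (nat_lit 6)⟩))))))
(.nd (.nd (.nd (.nd (.nd (.nd (.lf ⟨(nat_lit 0x48048), (nat_lit 4), (nat_lit 0x201201), (nat_lit 4)⟩)
(.lf ⟨(nat_lit 0x544c14c), (nat_lit 5), (nat_lit 0xc151305), (nat_lit 5)⟩))
(.lf ⟨(nat_lit 0x38938638939738d24e5c638939738d24e5ce24e18e24e5ce34939718e24e5ce349397), (nat_lit 46), (nat_lit 0x38938638939738d24e5c638939738d24e5ce24e18e24e5ce34939718e24e5ce349397), (nat_lit 46)⟩))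
(.nd (.lf ⟨(nat_lit 0x30808c202), (nat_lit 6), (nat_lit 0x8c202308), (nat_lit 6)⟩)
(.lf ⟨(nat_lit 0x3d93d9), (nat_lit 4), (nat_lit 0x64f64f), (nat_lit 4)⟩)))
(.nd (.nd (.lf ⟨(nat_lit 0x192192), (nat_lit 4), (nat_lit 0x486486), (nat_lit 4)⟩)
(.lf ⟨(nat_lit 0x20940c), (nat_lit 4), (nat_lit 0x44940c251209), (nat_lit 8)⟩))
(.nd (.lf ⟨(nat_lit 0x1cd1c9), (nat_lit 4), (nat_lit 0x247347), (nat_lit 4)⟩)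
(.lf ⟨(nat_lit 21), (nat_lit 1), (nat_lit 0x11a58f2ca2ca11a58f2ca2ca), (nat_lit 16)⟩))))
(.nd (.nd (.nd (.lf ⟨(nat_lit 0x205205), (nat_lit 4), (nat_lit 0x148148), (nat_lit 4)⟩)
(.lf ⟨(nat_lit 0x3490cd243), (nat_lit 6), (nat_lit 0x3490cd243), (nat_lit 6)⟩))
(.nd (.lf ⟨(nat_lit 344), (nat_lit 2), (nat_lit 0x60a50b28b5d42ca3cb1d43ca5d42ca2ca1c5), (nat_lit 24)⟩)
(.lf ⟨(nat_lit 522), (nat_lit 2), (nat_lit 0x15288), (nat_lit 3)⟩)))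
(.nd (.nd (.lf ⟨(nat_lit 0x484203484203), (nat_lit 8), (nat_lit 0x203484203484), (nat_lit 8)⟩)
(.lf ⟨(nat_lit 0x84cc213), (nat_lit 5), (nat_lit 0x104ce40e213308), (nat_lit 9)⟩))
(.nd (.lf ⟨(nat_lit 0x543543), (nat_lit 4), (nat_lit 0xd50d5), (nat_lit 4)⟩)
(.lf ⟨(nat_lit 212), (nat_lit 2), (nat_lit 0x503), (nat_lit 2)⟩)))))
(.nd (.nd (.nd (.nd (.nd (.lf ⟨(nat_lit 0x181181), (nat_lit 4), (nat_lit 0x46046), (nat_lit 4)⟩)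
(.lf ⟨(nat_lit 337), (nat_lit 2), (nat_lit 0x445), (nat_lit 2)⟩))
(.lf ⟨(nat_lit 653), (nat_lit 2), (nat_lit 842), (nat_lit 2)⟩))
(.nd (.lf ⟨(nat_lit 0x40c40c), (nat_lit 4), (nat_lit 0), (nat_lit 0)⟩)
(.lf ⟨(nat_lit 0x12699), (nat_lit 3), (nat_lit 0x1a65a49a), (nat_lit 5)⟩)))
(.nd (.nd (.lf ⟨(nat_lit 0x1c1487052), (nat_lit 6), (nat_lit 0x4870521c1), (nat_lit 6)⟩)
(.lf ⟨(nat_lit 595), (nat_lit 2), (nat_lit 0x353349), (nat_lit 4)⟩))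
(.nd (.lf ⟨(nat_lit 0), (nat_lit 0), (nat_lit 650), (nat_lit 2)⟩)
(.lf ⟨(nat_lit 0x4246), (nat_lit 3), (nat_lit 0x25244e30b246109), (nat_lit 10)⟩))))
(.nd (.nd (.nd (.lf ⟨(nat_lit 0x307307), (nat_lit 4), (nat_lit 0x1cc1cc), (nat_lit 4)⟩)
(.lf ⟨(nat_lit 0xf48d), (nat_lit 3), (nat_lit 0x123523d2), (nat_lit 5)⟩))
(.nd (.lf ⟨(nat_lit 0x1c91c7247), (nat_lit 6), (nat_lit 0), (nat_lit 0)⟩)
(.lf ⟨(nat_lit 0xc3d130f), (nat_lit 5), (nat_lit 0x113d130f44c), (nat_lit 7)⟩)))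
(.nd (.nd (.lf ⟨(nat_lit 0x1cd2ca), (nat_lit 4), (nat_lit 0x28f2cd28d3cb28734b), (nat_lit 12)⟩)
(.lf ⟨(nat_lit 531), (nat_lit 2), (nat_lit 0x4c8), (nat_lit 2)⟩))
(.nd (.lf ⟨(nat_lit 0), (nat_lit 0), (nat_lit 0x284284), (nat_lit 4)⟩)
(.lf ⟨(nat_lit 0x940f), (nat_lit 3), (nat_lit 0x103d0250), (nat_lit 5)⟩))))))))
(.nd (.nd (.nd (.nd (.nd (.nd (.nd (.nd (.lf ⟨(nat_lit 8), (nat_lit 1), (nat_lit 0xc40c4), (nat_lit 4)⟩)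
(.lf ⟨(nat_lit 0x4248), (nat_lit 3), (nat_lit 0x9209109), (nat_lit 5)⟩))
(.lf ⟨(nat_lit 0x1d62da58b1c6), (nat_lit 8), (nat_lit 0x18758b6962c7), (nat_lit 8)⟩))
(.nd (.lf ⟨(nat_lit 0x734b1cd), (nat_lit 5), (nat_lit 0xa3cb28d28f2ca1cd2c7), (nat_lit 13)⟩)
(.lf ⟨(nat_lit 0x544244244544244244), (nat_lit 12), (nat_lit 0x544244244544244244), (nat_lit 12)⟩)))
(.nd (.nd (.lf ⟨(nat_lit 0x402402), (nat_lit 4), (nat_lit 0), (nat_lit 0)⟩)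
(.lf ⟨(nat_lit 403), (nat_lit 2), (nat_lit 0x1625338d69638d246), (nat_lit 11)⟩))
(.nd (.lf ⟨(nat_lit 0x3491cd2473491cd247), (nat_lit 12), (nat_lit 0), (nat_lit 0)⟩)
(.lf ⟨(nat_lit 23), (nat_lit 1), (nat_lit 0x15a58f2ca2ca15a58f2ca2ca), (nat_lit 16)⟩))))
(.nd (.nd (.nd (.lf ⟨(nat_lit 0x106106), (nat_lit 4), (nat_lit 0x184184), (nat_lit 4)⟩)
(.lf ⟨(nat_lit 0x1cd1d0), (nat_lit 4), (nat_lit 0x350347347), (nat_lit 6)⟩))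
(.nd (.lf ⟨(nat_lit 340), (nat_lit 2), (nat_lit 0x505), (nat_lit 2)⟩)
(.lf ⟨(nat_lit 0x117594), (nat_lit 4), (nat_lit 0x195d65545523d23cb28b284), (nat_lit 15)⟩)))
(.nd (.nd (.lf ⟨(nat_lit 147), (nat_lit 2), (nat_lit 0x4c2), (nat_lit 2)⟩)
(.lf ⟨(nat_lit 464), (nat_lit 2), (nat_lit 0x10647), (nat_lit 3)⟩))
(.nd (.lf ⟨(nat_lit 21), (nat_lit 1), (nat_lit 0x92092), (nat_lit 4)⟩)
(.lf ⟨(nat_lit 216), (nat_lit 2), (nat_lit 0x68d489488185448151205448151205448151205457209198697143), (nat_lit 36)⟩)))))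
(.nd (.nd (.nd (.nd (.nd (.lf ⟨(nat_lit 0x4f04f), (nat_lit 4), (nat_lit 0x3c13c1), (nat_lit 4)⟩)
(.lf ⟨(nat_lit 26), (nat_lit 1), (nat_lit 0), (nat_lit 0)⟩))
(.lf ⟨(nat_lit 262), (nat_lit 2), (nat_lit 0x1244e3082c8184), (nat_lit 9)⟩))
(.nd (.lf ⟨(nat_lit 0x542055081), (nat_lit 6), (nat_lit 0x55081542), (nat_lit 6)⟩)
(.lf ⟨(nat_lit 0), (nat_lit 0), (nat_lit 0x18b18b), (nat_lit 4)⟩)))
(.nd (.nd (.lf ⟨(nat_lit 0x24b24b), (nat_lit 4), (nat_lit 0x2c92c9), (nat_lit 4)⟩)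
(.lf ⟨(nat_lit 724), (nat_lit 2), (nat_lit 0x50f38f38b), (nat_lit 6)⟩))
(.nd (.lf ⟨(nat_lit 0), (nat_lit 0), (nat_lit 0x348348), (nat_lit 4)⟩)
(.lf ⟨(nat_lit 0x6564894890d83c3), (nat_lit 10), (nat_lit 0xca0ca), (nat_lit 4)⟩))))
(.nd (.nd (.nd (.lf ⟨(nat_lit 0x451), (nat_lit 2), (nat_lit 0), (nat_lit 0)⟩)
(.lf ⟨(nat_lit 0x154ce54e), (nat_lit 5), (nat_lit 0x54239508e), (nat_lit 6)⟩))
(.nd (.lf ⟨(nat_lit 0x2d750f), (nat_lit 4), (nat_lit 0x3ce3d33ce50f5933973ce2d6), (nat_lit 16)⟩)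
(.lf ⟨(nat_lit 0x530f), (nat_lit 3), (nat_lit 0x59051340c3cc5d651314c), (nat_lit 14)⟩)))
(.nd (.nd (.lf ⟨(nat_lit 784), (nat_lit 2), (nat_lit 0x40c), (nat_lit 2)⟩)
(.lf ⟨(nat_lit 0x9652252), (nat_lit 5), (nat_lit 0x12259489), (nat_lit 5)⟩))
(.nd (.lf ⟨(nat_lit 0x10949130838b204), (nat_lit 10), (nat_lit 0x102184086), (nat_lit 6)⟩)
(.lf ⟨(nat_lit 600), (nat_lit 2), (nat_lit 0x609), (nat_lit 2)⟩))))))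
(.nd (.nd (.nd (.nd (.nd (.nd (.lf ⟨(nat_lit 585), (nat_lit 2), (nat_lit 0), (nat_lit 0)⟩)
(.lf ⟨(nat_lit 20), (nat_lit 1), (nat_lit 0x18a18a), (nat_lit 4)⟩))
(.lf ⟨(nat_lit 0), (nat_lit 0), (nat_lit 0x1d61c7587), (nat_lit 6)⟩))
(.nd (.lf ⟨(nat_lit 0x2c72c7), (nat_lit 4), (nat_lit 0), (nat_lit 0)⟩)
(.lf ⟨(nat_lit 20), (nat_lit 1), (nat_lit 0x4f04f), (nat_lit 4)⟩)))
(.nd (.nd (.lf ⟨(nat_lit 0x152152), (nat_lit 4), (nat_lit 0x485485), (nat_lit 4)⟩)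
(.lf ⟨(nat_lit 858), (nat_lit 2), (nat_lit 0x68d), (nat_lit 2)⟩))
(.nd (.lf ⟨(nat_lit 0x244244), (nat_lit 4), (nat_lit 0x244244), (nat_lit 4)⟩)
(.lf ⟨(nat_lit 0xd40d4), (nat_lit 4), (nat_lit 0xd40d4), (nat_lit 4)⟩))))
(.nd (.nd (.nd (.lf ⟨(nat_lit 0x1c10c7043), (nat_lit 6), (nat_lit 0xc70431c1), (nat_lit 6)⟩)
(.lf ⟨(nat_lit 0), (nat_lit 0), (nat_lit 0x448448), (nat_lit 4)⟩))
(.nd (.lf ⟨(nat_lit 782), (nat_lit 2), (nat_lit 908), (nat_lit 2)⟩)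
(.lf ⟨(nat_lit 658), (nat_lit 2), (nat_lit 0x48a), (nat_lit 2)⟩)))
(.nd (.nd (.lf ⟨(nat_lit 0x242489092), (nat_lit 6), (nat_lit 0x489092242), (nat_lit 6)⟩)
(.lf ⟨(nat_lit 0x550550), (nat_lit 4), (nat_lit 0), (nat_lit 0)⟩))
(.nd (.lf ⟨(nat_lit 0x144246146144246146145109185185109185185), (nat_lit 26), (nat_lit 0x144246146144246146145109185185109185185), (nat_lit 26)⟩)
(.lf ⟨(nat_lit 0x92ca24a), (nat_lit 5), (nat_lit 0x1928960b289), (nat_lit 7)⟩)))))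
(.nd (.nd (.nd (.nd (.nd (.lf ⟨(nat_lit 0xc20c2), (nat_lit 4), (nat_lit 0x83083), (nat_lit 4)⟩)
(.lf ⟨(nat_lit 80), (nat_lit 2), (nat_lit 0x19401), (nat_lit 3)⟩))
(.lf ⟨(nat_lit 0xa24a347347), (nat_lit 7), (nat_lit 0xd1cd1ca24a), (nat_lit 7)⟩))
(.nd (.lf ⟨(nat_lit 724), (nat_lit 2), (nat_lit 0x50e3ce3cb), (nat_lit 6)⟩)
(.lf ⟨(nat_lit 5), (nat_lit 1), (nat_lit 0x68205a081), (nat_lit 6)⟩)))
(.nd (.nd (.lf ⟨(nat_lit 0x2c330b0cc), (nat_lit 6), (nat_lit 0x30b0cc2c3), (nat_lit 6)⟩)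
(.lf ⟨(nat_lit 590), (nat_lit 2), (nat_lit 0x1a389), (nat_lit 3)⟩))
(.nd (.lf ⟨(nat_lit 0x452452), (nat_lit 4), (nat_lit 0x491491), (nat_lit 4)⟩)
(.lf ⟨(nat_lit 19), (nat_lit 1), (nat_lit 0x38408e102), (nat_lit 6)⟩))))
(.nd (.nd (.nd (.lf ⟨(nat_lit 0x2031480c5), (nat_lit 6), (nat_lit 0x1480c5203), (nat_lit 6)⟩)
(.lf ⟨(nat_lit 0x2d73d64ce50f38b), (nat_lit 10), (nat_lit 0x2c52c5), (nat_lit 4)⟩))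
(.nd (.lf ⟨(nat_lit 0x219208648), (nat_lit 6), (nat_lit 0), (nat_lit 0)⟩)
(.lf ⟨(nat_lit 0x948e251), (nat_lit 5), (nat_lit 0x11252389), (nat_lit 5)⟩)))
(.nd (.nd (.lf ⟨(nat_lit 281), (nat_lit 2), (nat_lit 0x1d9547544), (nat_lit 6)⟩)
(.lf ⟨(nat_lit 0x388388), (nat_lit 4), (nat_lit 0), (nat_lit 0)⟩))
(.nd (.lf ⟨(nat_lit 0x60d90d9), (nat_lit 5), (nat_lit 0x3643646), (nat_lit 5)⟩)
(.lf ⟨(nat_lit 0x103d030f309), (nat_lit 7), (nat_lit 0x542686542686), (nat_lit 8)⟩)))))))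
(.nd (.nd (.nd (.nd (.nd (.nd (.nd (.lf ⟨(nat_lit 24), (nat_lit 1), (nat_lit 0x114114), (nat_lit 4)⟩)
(.lf ⟨(nat_lit 0), (nat_lit 0), (nat_lit 0x209109209109), (nat_lit 8)⟩))
(.lf ⟨(nat_lit 0x411411), (nat_lit 4), (nat_lit 0x450450), (nat_lit 4)⟩))
(.nd (.lf ⟨(nat_lit 0x7308), (nat_lit 3), (nat_lit 0x48c207), (nat_lit 4)⟩)
(.lf ⟨(nat_lit 0x1c504b1412c71412c504b), (nat_lit 14), (nat_lit 0x1c504b1412c71412c504b), (nat_lit 14)⟩)))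
(.nd (.nd (.lf ⟨(nat_lit 0x3810ce043), (nat_lit 6), (nat_lit 0xce043381), (nat_lit 6)⟩)
(.lf ⟨(nat_lit 394), (nat_lit 2), (nat_lit 0x25338a1cd68d3891c6), (nat_lit 12)⟩))
(.nd (.lf ⟨(nat_lit 0x82d1), (nat_lit 3), (nat_lit 0x1139238c2cc2d120e44e48b), (nat_lit 15)⟩)
(.lf ⟨(nat_lit 22), (nat_lit 1), (nat_lit 0x641344344641344344), (nat_lit 12)⟩))))
(.nd (.nd (.nd (.lf ⟨(nat_lit 0x282282), (nat_lit 4), (nat_lit 0x8a08a), (nat_lit 4)⟩)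
(.lf ⟨(nat_lit 0x151206), (nat_lit 4), (nat_lit 0x24655229234a25548a48a148), (nat_lit 16)⟩))
(.nd (.lf ⟨(nat_lit 0x750b28b), (nat_lit 5), (nat_lit 0xf1d43ca), (nat_lit 5)⟩)
(.lf ⟨(nat_lit 0x7250), (nat_lit 3), (nat_lit 0x64e25069938c24a25039038c24a1c9), (nat_lit 20)⟩)))
(.nd (.nd (.lf ⟨(nat_lit 0x48429210a), (nat_lit 6), (nat_lit 0x29210a484), (nat_lit 6)⟩)
(.lf ⟨(nat_lit 595), (nat_lit 2), (nat_lit 0x4c9), (nat_lit 2)⟩))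
(.nd (.lf ⟨(nat_lit 0x9185185), (nat_lit 5), (nat_lit 0x143143), (nat_lit 4)⟩)
(.lf ⟨(nat_lit 0xc3ce), (nat_lit 3), (nat_lit 0x1845844e30f), (nat_lit 7)⟩)))))
(.nd (.nd (.nd (.nd (.nd (.lf ⟨(nat_lit 0x659), (nat_lit 2), (nat_lit 0), (nat_lit 0)⟩)
(.lf ⟨(nat_lit 269), (nat_lit 2), (nat_lit 0x6585d334f30f14c144), (nat_lit 12)⟩))
(.lf ⟨(nat_lit 281), (nat_lit 2), (nat_lit 0x652292284), (nat_lit 6)⟩))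
(.nd (.lf ⟨(nat_lit 0x142485092), (nat_lit 6), (nat_lit 0x485092142), (nat_lit 6)⟩)
(.lf ⟨(nat_lit 787), (nat_lit 2), (nat_lit 0x4d039038c), (nat_lit 6)⟩)))
(.nd (.nd (.lf ⟨(nat_lit 0x4c24c2), (nat_lit 4), (nat_lit 0), (nat_lit 0)⟩)
(.lf ⟨(nat_lit 658), (nat_lit 2), (nat_lit 0x3d23ca), (nat_lit 4)⟩))
(.nd (.lf ⟨(nat_lit 0x14a2ca14a2ca), (nat_lit 8), (nat_lit 0x14a2ca14a2ca), (nat_lit 8)⟩)
(.lf ⟨(nat_lit 25), (nat_lit 1), (nat_lit 0x5470551c1), (nat_lit 6)⟩))))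
(.nd (.nd (.nd (.lf ⟨(nat_lit 0x2820ca083), (nat_lit 6), (nat_lit 0xca083282), (nat_lit 6)⟩)
(.lf ⟨(nat_lit 0x356356), (nat_lit 4), (nat_lit 0x58d58d), (nat_lit 4)⟩))
(.nd (.lf ⟨(nat_lit 0x387387), (nat_lit 4), (nat_lit 0), (nat_lit 0)⟩)
(.lf ⟨(nat_lit 729), (nat_lit 2), (nat_lit 0x64b), (nat_lit 2)⟩)))
(.nd (.nd (.lf ⟨(nat_lit 87), (nat_lit 2), (nat_lit 0x5c5505501), (nat_lit 6)⟩)
(.lf ⟨(nat_lit 13), (nat_lit 1), (nat_lit 0x146146), (nat_lit 4)⟩))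
(.nd (.lf ⟨(nat_lit 0x4248839220248839220109220e48809220e488), (nat_lit 26), (nat_lit 0x4248839220248839220109220e48809220e488), (nat_lit 26)⟩)
(.lf ⟨(nat_lit 217), (nat_lit 2), (nat_lit 0x64f30f303), (nat_lit 6)⟩))))))
(.nd (.nd (.nd (.nd (.nd (.nd (.lf ⟨(nat_lit 139), (nat_lit 2), (nat_lit 0xf2c2), (nat_lit 3)⟩)
(.lf ⟨(nat_lit 0x14c24c245309309), (nat_lit 10), (nat_lit 0x14c24c245309309), (nat_lit 10)⟩))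
(.lf ⟨(nat_lit 0x2121cd2522472121cd252247), (nat_lit 16), (nat_lit 0x2121cd2522472121cd252247), (nat_lit 16)⟩))
(.nd (.lf ⟨(nat_lit 0x2c710b1c4), (nat_lit 6), (nat_lit 0x10b1c42c7), (nat_lit 6)⟩)
(.lf ⟨(nat_lit 0x619), (nat_lit 2), (nat_lit 0x658), (nat_lit 2)⟩)))
(.nd (.nd (.lf ⟨(nat_lit 0x1cd1cd), (nat_lit 4), (nat_lit 0x347347), (nat_lit 4)⟩)
(.lf ⟨(nat_lit 663), (nat_lit 2), (nat_lit 0x5ca), (nat_lit 2)⟩))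
(.nd (.lf ⟨(nat_lit 273), (nat_lit 2), (nat_lit 0x45239139238b20e45239230b20e1d120e49148e4883922c839245239148c20e45230b1d1304), (nat_lit 50)⟩)
(.lf ⟨(nat_lit 0x291151285), (nat_lit 6), (nat_lit 0x291285291285), (nat_lit 8)⟩))))
(.nd (.nd (.nd (.lf ⟨(nat_lit 0x3c13c1), (nat_lit 4), (nat_lit 0x4f04f), (nat_lit 4)⟩)
(.lf ⟨(nat_lit 215), (nat_lit 2), (nat_lit 0x2d64ce50f38b2463d339750f58e5cf5933943ce2cd24544824544824655229228825535535229235229225548a48d2892091854481512091973d64ce50f38b34958d59339750f58e5cf5933943ce3cb35339750f58e5cf5933943ce2c3), (nat_lit 124)⟩))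
(.nd (.lf ⟨(nat_lit 0x8612218), (nat_lit 5), (nat_lit 0x18488608), (nat_lit 5)⟩)
(.lf ⟨(nat_lit 217), (nat_lit 2), (nat_lit 0x652252243), (nat_lit 6)⟩)))
(.nd (.nd (.lf ⟨(nat_lit 207), (nat_lit 2), (nat_lit 0x2cf34b20d203), (nat_lit 8)⟩)
(.lf ⟨(nat_lit 0x125d4), (nat_lit 3), (nat_lit 0x155d4552), (nat_lit 5)⟩))
(.nd (.lf ⟨(nat_lit 0x219202219202), (nat_lit 8), (nat_lit 0x219202219202), (nat_lit 8)⟩)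
(.lf ⟨(nat_lit 0xa44f), (nat_lit 3), (nat_lit 0x1130f44f30f291), (nat_lit 9)⟩)))))
(.nd (.nd (.nd (.nd (.nd (.lf ⟨(nat_lit 0x102102), (nat_lit 4), (nat_lit 0), (nat_lit 0)⟩)
(.lf ⟨(nat_lit 208), (nat_lit 2), (nat_lit 0x403), (nat_lit 2)⟩))
(.lf ⟨(nat_lit 0x734a), (nat_lit 3), (nat_lit 0xa1cd), (nat_lit 3)⟩))
(.nd (.lf ⟨(nat_lit 0x117117), (nat_lit 4), (nat_lit 0x5c45c4), (nat_lit 4)⟩)
(.lf ⟨(nat_lit 857), (nat_lit 2), (nat_lit 0x64d), (nat_lit 2)⟩)))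
(.nd (.nd (.lf ⟨(nat_lit 71), (nat_lit 2), (nat_lit 449), (nat_lit 2)⟩)
(.lf ⟨(nat_lit 0x7259), (nat_lit 3), (nat_lit 0x68d4cd38a38965368d38929a34e1c9), (nat_lit 20)⟩))
(.nd (.lf ⟨(nat_lit 721), (nat_lit 2), (nat_lit 0x44b), (nat_lit 2)⟩)
(.lf ⟨(nat_lit 0x8601), (nat_lit 3), (nat_lit 0x60c618048), (nat_lit 6)⟩))))
(.nd (.nd (.nd (.lf ⟨(nat_lit 0x2c82c8), (nat_lit 4), (nat_lit 0x20b20b), (nat_lit 4)⟩)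
(.lf ⟨(nat_lit 916), (nat_lit 2), (nat_lit 0x50e), (nat_lit 2)⟩))
(.nd (.lf ⟨(nat_lit 0x5c15c1), (nat_lit 4), (nat_lit 0), (nat_lit 0)⟩)
(.lf ⟨(nat_lit 407), (nat_lit 2), (nat_lit 0x95da5d434f2c95d43493cb246), (nat_lit 17)⟩)))
(.nd (.nd (.lf ⟨(nat_lit 89), (nat_lit 2), (nat_lit 0x641), (nat_lit 2)⟩)
(.lf ⟨(nat_lit 0x9244e30b09244e30b), (nat_lit 12), (nat_lit 0x9244e30b09244e30b), (nat_lit 12)⟩))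
(.nd (.lf ⟨(nat_lit 0xd10d115), (nat_lit 5), (nat_lit 0x15344344), (nat_lit 5)⟩)
(.lf ⟨(nat_lit 0x5d64175944d0513), (nat_lit 10), (nat_lit 0x3c23053053c2305305), (nat_lit 12)⟩)))))))))
(.nd (.nd (.nd (.nd (.nd (.nd (.nd (.nd (.nd (.lf ⟨(nat_lit 0x83083), (nat_lit 4), (nat_lit 13), (nat_lit 1)⟩)
(.lf ⟨(nat_lit 0x1520ca4832854832920ca), (nat_lit 14), (nat_lit 0x1520ca4832854832920ca), (nat_lit 14)⟩))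
(.lf ⟨(nat_lit 0), (nat_lit 0), (nat_lit 0x1d61c61d61c6), (nat_lit 8)⟩))
(.nd (.lf ⟨(nat_lit 0x6486307), (nat_lit 5), (nat_lit 0x30730719238718c), (nat_lit 10)⟩)
(.lf ⟨(nat_lit 0x1244e30b), (nat_lit 5), (nat_lit 0x184184), (nat_lit 4)⟩)))
(.nd (.nd (.lf ⟨(nat_lit 0x555), (nat_lit 2), (nat_lit 0), (nat_lit 0)⟩)
(.lf ⟨(nat_lit 590), (nat_lit 2), (nat_lit 0x1635a58e349), (nat_lit 7)⟩))
(.nd (.lf ⟨(nat_lit 0x34a349289), (nat_lit 6), (nat_lit 0x34928d24a), (nat_lit 6)⟩)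
(.lf ⟨(nat_lit 0x648a), (nat_lit 3), (nat_lit 0x1a4ca24a1c91d2286), (nat_lit 11)⟩))))
(.nd (.nd (.nd (.lf ⟨(nat_lit 0x88103), (nat_lit 4), (nat_lit 0x20308810d), (nat_lit 6)⟩)
(.lf ⟨(nat_lit 0x734b), (nat_lit 3), (nat_lit 0xd2cd1cd), (nat_lit 5)⟩))
(.nd (.lf ⟨(nat_lit 0x215215), (nat_lit 4), (nat_lit 0x548548), (nat_lit 4)⟩)
(.lf ⟨(nat_lit 0x5d9), (nat_lit 2), (nat_lit 0x657), (nat_lit 2)⟩)))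
(.nd (.nd (.lf ⟨(nat_lit 144), (nat_lit 2), (nat_lit 0x402), (nat_lit 2)⟩)
(.lf ⟨(nat_lit 0xc3d2), (nat_lit 3), (nat_lit 0x193d23cc64f), (nat_lit 7)⟩))
(.nd (.lf ⟨(nat_lit 0x499), (nat_lit 2), (nat_lit 0x652), (nat_lit 2)⟩)
(.lf ⟨(nat_lit 0x80c8148), (nat_lit 5), (nat_lit 0xd185448151209188148203), (nat_lit 15)⟩)))))
(.nd (.nd (.nd (.nd (.nd (.lf ⟨(nat_lit 73), (nat_lit 2), (nat_lit 0xd241), (nat_lit 3)⟩)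
(.lf ⟨(nat_lit 0), (nat_lit 0), (nat_lit 0x1c51c5), (nat_lit 4)⟩))
(.lf ⟨(nat_lit 0x4350490), (nat_lit 5), (nat_lit 0x35549048d10d412), (nat_lit 10)⟩))
(.nd (.lf ⟨(nat_lit 0x2041c12041c1), (nat_lit 8), (nat_lit 0x1c12041c1204), (nat_lit 8)⟩)
(.lf ⟨(nat_lit 0x497), (nat_lit 2), (nat_lit 0x657657554557554557554557512), (nat_lit 18)⟩)))
(.nd (.nd (.lf ⟨(nat_lit 0x20d20d), (nat_lit 4), (nat_lit 0x348348), (nat_lit 4)⟩)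
(.lf ⟨(nat_lit 0x84cd213), (nat_lit 5), (nat_lit 0xd4cd213348), (nat_lit 7)⟩))
(.nd (.lf ⟨(nat_lit 17), (nat_lit 1), (nat_lit 0x34818d206), (nat_lit 6)⟩)
(.lf ⟨(nat_lit 0x4349), (nat_lit 3), (nat_lit 0x69958d60f28824a148144), (nat_lit 14)⟩))))
(.nd (.nd (.nd (.lf ⟨(nat_lit 0x3c23c2), (nat_lit 4), (nat_lit 0x8f08f), (nat_lit 4)⟩)
(.lf ⟨(nat_lit 0x15246546), (nat_lit 5), (nat_lit 0x542195086), (nat_lit 6)⟩))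
(.nd (.lf ⟨(nat_lit 0x1811c51811c5), (nat_lit 8), (nat_lit 0x1c51811c5181), (nat_lit 8)⟩)
(.lf ⟨(nat_lit 0x4d4), (nat_lit 2), (nat_lit 0x513), (nat_lit 2)⟩)))
(.nd (.nd (.lf ⟨(nat_lit 718), (nat_lit 2), (nat_lit 907), (nat_lit 2)⟩)
(.lf ⟨(nat_lit 0x550281550281), (nat_lit 8), (nat_lit 0x281550281550), (nat_lit 8)⟩))
(.nd (.lf ⟨(nat_lit 0x344344), (nat_lit 4), (nat_lit 0x10d10d), (nat_lit 4)⟩)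
(.lf ⟨(nat_lit 587), (nat_lit 2), (nat_lit 713), (nat_lit 2)⟩))))))
(.nd (.nd (.nd (.nd (.nd (.nd (.lf ⟨(nat_lit 0xc40c4), (nat_lit 4), (nat_lit 0x103103), (nat_lit 4)⟩)
(.lf ⟨(nat_lit 0x5450), (nat_lit 3), (nat_lit 0x10151), (nat_lit 3)⟩))
(.lf ⟨(nat_lit 526), (nat_lit 2), (nat_lit 904), (nat_lit 2)⟩))
(.nd (.lf ⟨(nat_lit 0x520a), (nat_lit 3), (nat_lit 0x8288148), (nat_lit 5)⟩)
(.lf ⟨(nat_lit 0x461455448f48f), (nat_lit 9), (nat_lit 0x185155123d23c4), (nat_lit 9)⟩)))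
(.nd (.nd (.lf ⟨(nat_lit 0x4347), (nat_lit 3), (nat_lit 0xd1cd10d), (nat_lit 5)⟩)
(.lf ⟨(nat_lit 409), (nat_lit 2), (nat_lit 0x359346), (nat_lit 4)⟩))
(.nd (.lf ⟨(nat_lit 0x980820c260d0d80820c260d0d8082602083098343602083098343602), (nat_lit 38), (nat_lit 0x980820c260d0d80820c260d0d8082602083098343602083098343602), (nat_lit 38)⟩)
(.lf ⟨(nat_lit 0x18548f44b24f2c948548f44b24f2c94861523d12c93cb2521523d12c93cb252), (nat_lit 42), (nat_lit 0x18548f44b24f2c948548f44b24f2c94861523d12c93cb2521523d12c93cb252), (nat_lit 42)⟩))))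
(.nd (.nd (.nd (.lf ⟨(nat_lit 0x1cb1cb), (nat_lit 4), (nat_lit 0x2c72c7), (nat_lit 4)⟩)
(.lf ⟨(nat_lit 215), (nat_lit 2), (nat_lit 0x2d64ce50f38b2463d339750f58e5cf5933943ce2cd24544824544824655229228825548a48d2882452061512091973d64ce50f38b34958d59339750f58e5cf5933943ce3cb35339750f58e5cf5933943ce2c3), (nat_lit 110)⟩))
(.nd (.lf ⟨(nat_lit 201), (nat_lit 2), (nat_lit 0x209185448185209185448246143), (nat_lit 18)⟩)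
(.lf ⟨(nat_lit 271), (nat_lit 2), (nat_lit 0x153c4), (nat_lit 3)⟩)))
(.nd (.nd (.lf ⟨(nat_lit 0x2c33cb0cf), (nat_lit 6), (nat_lit 0x3cb0cf2c3), (nat_lit 6)⟩)
(.lf ⟨(nat_lit 0x3143d2), (nat_lit 4), (nat_lit 0x3d251250f64f48f64c50f), (nat_lit 14)⟩))
(.nd (.lf ⟨(nat_lit 0x344344), (nat_lit 4), (nat_lit 0x88088), (nat_lit 4)⟩)
(.lf ⟨(nat_lit 532), (nat_lit 2), (nat_lit 0x45444f30f308), (nat_lit 8)⟩)))))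
(.nd (.nd (.nd (.nd (.nd (.lf ⟨(nat_lit 70), (nat_lit 2), (nat_lit 0xc60c60c60c1), (nat_lit 8)⟩)
(.lf ⟨(nat_lit 0x4091), (nat_lit 3), (nat_lit 0x11102), (nat_lit 3)⟩))
(.lf ⟨(nat_lit 0x347347), (nat_lit 4), (nat_lit 0x4d10d101344344), (nat_lit 10)⟩))
(.nd (.lf ⟨(nat_lit 0x301203301203), (nat_lit 8), (nat_lit 0x203301203301), (nat_lit 8)⟩)
(.lf ⟨(nat_lit 0x191524d2), (nat_lit 5), (nat_lit 0x165565524d2645), (nat_lit 9)⟩)))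
(.nd (.nd (.lf ⟨(nat_lit 0x2422c908b), (nat_lit 6), (nat_lit 0x2c908b242), (nat_lit 6)⟩)
(.lf ⟨(nat_lit 0x38f38f), (nat_lit 4), (nat_lit 0x3ce3ce), (nat_lit 4)⟩))
(.nd (.lf ⟨(nat_lit 0x4352308), (nat_lit 5), (nat_lit 0x35021034c10d), (nat_lit 8)⟩)
(.lf ⟨(nat_lit 0x590445445), (nat_lit 6), (nat_lit 0x445445590), (nat_lit 6)⟩))))
(.nd (.nd (.nd (.lf ⟨(nat_lit 0x30110c044), (nat_lit 6), (nat_lit 0x10c044301), (nat_lit 6)⟩)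
(.lf ⟨(nat_lit 0x497657652497657652), (nat_lit 12), (nat_lit 0), (nat_lit 0)⟩))
(.nd (.lf ⟨(nat_lit 0x1d91d9), (nat_lit 4), (nat_lit 0x647647), (nat_lit 4)⟩)
(.lf ⟨(nat_lit 0x48f48f), (nat_lit 4), (nat_lit 0), (nat_lit 0)⟩)))
(.nd (.nd (.lf ⟨(nat_lit 0x15750f), (nat_lit 4), (nat_lit 0x143c5), (nat_lit 3)⟩)
(.lf ⟨(nat_lit 0), (nat_lit 0), (nat_lit 0x38b38b), (nat_lit 4)⟩))
(.nd (.lf ⟨(nat_lit 0x4810d90d94810d90d9), (nat_lit 12), (nat_lit 0x4810d90d94810d90d9), (nat_lit 12)⟩)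
(.lf ⟨(nat_lit 0x105d4), (nat_lit 3), (nat_lit 0x17510), (nat_lit 3)⟩)))))))
(.nd (.nd (.nd (.nd (.nd (.nd (.nd (.lf ⟨(nat_lit 20), (nat_lit 1), (nat_lit 0x4f04f), (nat_lit 4)⟩)
(.lf ⟨(nat_lit 0x10d184346), (nat_lit 6), (nat_lit 0x34610d184), (nat_lit 6)⟩))
(.lf ⟨(nat_lit 0x8834434420d10d10220d10d108344344), (nat_lit 22), (nat_lit 0x8834434420d10d10220d10d108344344), (nat_lit 22)⟩))
(.nd (.lf ⟨(nat_lit 272), (nat_lit 2), (nat_lit 0x15490552415490484), (nat_lit 11)⟩)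
(.lf ⟨(nat_lit 217), (nat_lit 2), (nat_lit 0x359352252243), (nat_lit 8)⟩)))
(.nd (.nd (.lf ⟨(nat_lit 277), (nat_lit 2), (nat_lit 0x495484), (nat_lit 4)⟩)
(.lf ⟨(nat_lit 919), (nat_lit 2), (nat_lit 0x4d43d64d75164d44d43ce), (nat_lit 14)⟩))
(.nd (.lf ⟨(nat_lit 0xb45238c), (nat_lit 5), (nat_lit 0xe49130b), (nat_lit 5)⟩)
(.lf ⟨(nat_lit 404), (nat_lit 2), (nat_lit 0x34e2c950d3892c6), (nat_lit 10)⟩))))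
(.nd (.nd (.nd (.lf ⟨(nat_lit 81), (nat_lit 2), (nat_lit 0x20c21130818319130844c0c1), (nat_lit 16)⟩)
(.lf ⟨(nat_lit 0x65c9), (nat_lit 3), (nat_lit 0x17257197), (nat_lit 5)⟩))
(.nd (.lf ⟨(nat_lit 0x530a), (nat_lit 3), (nat_lit 0x1028c29030a14c), (nat_lit 9)⟩)
(.lf ⟨(nat_lit 0x459), (nat_lit 2), (nat_lit 0x651), (nat_lit 2)⟩)))
(.nd (.nd (.lf ⟨(nat_lit 0x402250089), (nat_lit 6), (nat_lit 0x250089402), (nat_lit 6)⟩)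
(.lf ⟨(nat_lit 208), (nat_lit 2), (nat_lit 0x1535224425244e41339038c3ce3cb34810d3d22c810d44c103), (nat_lit 33)⟩))
(.nd (.lf ⟨(nat_lit 0), (nat_lit 0), (nat_lit 0x4a04a), (nat_lit 4)⟩)
(.lf ⟨(nat_lit 0x6615), (nat_lit 3), (nat_lit 0x154916123ca45830f30a198), (nat_lit 15)⟩)))))
(.nd (.nd (.nd (.nd (.nd (.lf ⟨(nat_lit 0x114114), (nat_lit 4), (nat_lit 0x504504), (nat_lit 4)⟩)
(.lf ⟨(nat_lit 337), (nat_lit 2), (nat_lit 0x44f30f305), (nat_lit 6)⟩))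
(.lf ⟨(nat_lit 0x648648), (nat_lit 4), (nat_lit 0x219219), (nat_lit 4)⟩))
(.nd (.lf ⟨(nat_lit 0x28720a1c8), (nat_lit 6), (nat_lit 0x20a1c8287), (nat_lit 6)⟩)
(.lf ⟨(nat_lit 0), (nat_lit 0), (nat_lit 0x38c38c), (nat_lit 4)⟩)))
(.nd (.nd (.lf ⟨(nat_lit 0x495), (nat_lit 2), (nat_lit 0x552), (nat_lit 2)⟩)
(.lf ⟨(nat_lit 0x964d), (nat_lit 3), (nat_lit 0xd64d64d259), (nat_lit 7)⟩))
(.nd (.lf ⟨(nat_lit 0x19a19a), (nat_lit 4), (nat_lit 0x686686), (nat_lit 4)⟩)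
(.lf ⟨(nat_lit 0x6995983da65660f), (nat_lit 10), (nat_lit 0), (nat_lit 0)⟩))))
(.nd (.nd (.nd (.lf ⟨(nat_lit 0x483483), (nat_lit 4), (nat_lit 0xd20d2), (nat_lit 4)⟩)
(.lf ⟨(nat_lit 0x5812c358d58d2c358d58d5812c358d58d2c358d58d), (nat_lit 28), (nat_lit 0x5812c358d58d2c358d58d5812c358d58d2c358d58d), (nat_lit 28)⟩))
(.nd (.lf ⟨(nat_lit 0x355355), (nat_lit 4), (nat_lit 0x54d54d), (nat_lit 4)⟩)
(.lf ⟨(nat_lit 344), (nat_lit 2), (nat_lit 0x605), (nat_lit 2)⟩)))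
(.nd (.nd (.lf ⟨(nat_lit 0x517), (nat_lit 2), (nat_lit 0x5d4), (nat_lit 2)⟩)
(.lf ⟨(nat_lit 0xc50f314), (nat_lit 5), (nat_lit 0x143143cc), (nat_lit 5)⟩))
(.nd (.lf ⟨(nat_lit 0x4882c815220b205), (nat_lit 10), (nat_lit 0x4882c815220b205), (nat_lit 10)⟩)
(.lf ⟨(nat_lit 0x930f), (nat_lit 3), (nat_lit 0xc3cc24c), (nat_lit 5)⟩))))))
(.nd (.nd (.nd (.nd (.nd (.nd (.lf ⟨(nat_lit 910), (nat_lit 2), (nat_lit 0), (nat_lit 0)⟩)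
(.lf ⟨(nat_lit 0x305305), (nat_lit 4), (nat_lit 0x305305), (nat_lit 4)⟩))
(.lf ⟨(nat_lit 0x197197), (nat_lit 4), (nat_lit 0x5c65c6), (nat_lit 4)⟩))
(.nd (.lf ⟨(nat_lit 0x287287), (nat_lit 4), (nat_lit 0), (nat_lit 0)⟩)
(.lf ⟨(nat_lit 985), (nat_lit 2), (nat_lit 0x65455454f), (nat_lit 6)⟩)))
(.nd (.nd (.lf ⟨(nat_lit 0x1d11d1), (nat_lit 4), (nat_lit 0x447447), (nat_lit 4)⟩)
(.lf ⟨(nat_lit 0x496), (nat_lit 2), (nat_lit 0x592), (nat_lit 2)⟩))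
(.nd (.lf ⟨(nat_lit 270), (nat_lit 2), (nat_lit 0x123083921d138c2cc2c839120e49138b30b20b30b1d1304), (nat_lit 31)⟩)
(.lf ⟨(nat_lit 0xc5cc50f), (nat_lit 5), (nat_lit 0x143cc5cc), (nat_lit 5)⟩))))
(.nd (.nd (.nd (.lf ⟨(nat_lit 910), (nat_lit 2), (nat_lit 0), (nat_lit 0)⟩)
(.lf ⟨(nat_lit 0x34914d2433490c53490cd24334914d2433490c53490cd243), (nat_lit 32), (nat_lit 0x34914d2433490c53490cd24334914d2433490c53490cd243), (nat_lit 32)⟩))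
(.nd (.lf ⟨(nat_lit 0x185186146), (nat_lit 6), (nat_lit 0), (nat_lit 0)⟩)
(.lf ⟨(nat_lit 0x4d9), (nat_lit 2), (nat_lit 0x653), (nat_lit 2)⟩)))
(.nd (.nd (.lf ⟨(nat_lit 263), (nat_lit 2), (nat_lit 452), (nat_lit 2)⟩)
(.lf ⟨(nat_lit 0x34914d245), (nat_lit 6), (nat_lit 0), (nat_lit 0)⟩))
(.nd (.lf ⟨(nat_lit 0x48d), (nat_lit 2), (nat_lit 0x54d54d543543352), (nat_lit 10)⟩)
(.lf ⟨(nat_lit 0xa44c), (nat_lit 3), (nat_lit 0x65130f44a44f), (nat_lit 8)⟩)))))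
(.nd (.nd (.nd (.nd (.nd (.lf ⟨(nat_lit 0x107107), (nat_lit 4), (nat_lit 0x1c41c4), (nat_lit 4)⟩)
(.lf ⟨(nat_lit 269), (nat_lit 2), (nat_lit 0x185d3344), (nat_lit 5)⟩))
(.lf ⟨(nat_lit 0xa2cd), (nat_lit 3), (nat_lit 0xb34b28b), (nat_lit 5)⟩))
(.nd (.lf ⟨(nat_lit 0x641641), (nat_lit 4), (nat_lit 0), (nat_lit 0)⟩)
(.lf ⟨(nat_lit 0x8614), (nat_lit 3), (nat_lit 0xf3143cc218), (nat_lit 7)⟩)))
(.nd (.nd (.lf ⟨(nat_lit 0x102504094), (nat_lit 6), (nat_lit 0x504094102), (nat_lit 6)⟩)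
(.lf ⟨(nat_lit 461), (nat_lit 2), (nat_lit 0x16347), (nat_lit 3)⟩))
(.nd (.lf ⟨(nat_lit 0), (nat_lit 0), (nat_lit 0x183183), (nat_lit 4)⟩)
(.lf ⟨(nat_lit 0x20960d25820960d258), (nat_lit 12), (nat_lit 0x20960d25820960d258), (nat_lit 12)⟩))))
(.nd (.nd (.nd (.lf ⟨(nat_lit 0x248248), (nat_lit 4), (nat_lit 0x209209), (nat_lit 4)⟩)
(.lf ⟨(nat_lit 154), (nat_lit 2), (nat_lit 0x35a58d582), (nat_lit 6)⟩))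
(.nd (.lf ⟨(nat_lit 0x343343), (nat_lit 4), (nat_lit 0), (nat_lit 0)⟩)
(.lf ⟨(nat_lit 0x20940c), (nat_lit 4), (nat_lit 0x450450250309209), (nat_lit 10)⟩)))
(.nd (.nd (.lf ⟨(nat_lit 466), (nat_lit 2), (nat_lit 0x487), (nat_lit 2)⟩)
(.lf ⟨(nat_lit 917), (nat_lit 2), (nat_lit 0x55349348e), (nat_lit 6)⟩))
(.nd (.lf ⟨(nat_lit 0xa344344), (nat_lit 5), (nat_lit 0xd10d10a), (nat_lit 5)⟩)
(.lf ⟨(nat_lit 145), (nat_lit 2), (nat_lit 0x55324425140c3cc102), (nat_lit 12)⟩))))))))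
(.nd (.nd (.nd (.nd (.nd (.nd (.nd (.nd (.lf ⟨(nat_lit 12), (nat_lit 1), (nat_lit 0x48048), (nat_lit 4)⟩)
(.lf ⟨(nat_lit 0x44c251309), (nat_lit 6), (nat_lit 0x44c34944c349), (nat_lit 8)⟩))
(.lf ⟨(nat_lit 0x83ca2cd), (nat_lit 5), (nat_lit 0x48b34a3ca34f2ca3cb34b55220b), (nat_lit 18)⟩))
(.nd (.lf ⟨(nat_lit 0x5309), (nat_lit 3), (nat_lit 0x1034930940c34914c), (nat_lit 11)⟩)
(.lf ⟨(nat_lit 0x25311510d65534964425311510d6553496442494c454435954d2591094c454435954d259109), (nat_lit 50), (nat_lit 0x25311510d65534964425311510d6553496442494c454435954d2591094c454435954d259109), (nat_lit 50)⟩)))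
(.nd (.nd (.lf ⟨(nat_lit 0x4c24c2), (nat_lit 4), (nat_lit 0x93093), (nat_lit 4)⟩)
(.lf ⟨(nat_lit 464), (nat_lit 2), (nat_lit 0x40c28c287), (nat_lit 6)⟩))
(.nd (.lf ⟨(nat_lit 8), (nat_lit 1), (nat_lit 0xc40c4), (nat_lit 4)⟩)
(.lf ⟨(nat_lit 0x5da), (nat_lit 2), (nat_lit 0x697), (nat_lit 2)⟩))))
(.nd (.nd (.nd (.lf ⟨(nat_lit 715), (nat_lit 2), (nat_lit 0), (nat_lit 0)⟩)
(.lf ⟨(nat_lit 0), (nat_lit 0), (nat_lit 0xc6146143185185), (nat_lit 10)⟩))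
(.nd (.lf ⟨(nat_lit 0x15548a), (nat_lit 4), (nat_lit 0x48a485552), (nat_lit 6)⟩)
(.lf ⟨(nat_lit 986), (nat_lit 2), (nat_lit 0x68f), (nat_lit 2)⟩)))
(.nd (.nd (.lf ⟨(nat_lit 277), (nat_lit 2), (nat_lit 0x544), (nat_lit 2)⟩)
(.lf ⟨(nat_lit 0x530a), (nat_lit 3), (nat_lit 0x64a14c), (nat_lit 4)⟩))
(.nd (.lf ⟨(nat_lit 0x116556556556544), (nat_lit 10), (nat_lit 0x84595595102116556544), (nat_lit 14)⟩)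
(.lf ⟨(nat_lit 655), (nat_lit 2), (nat_lit 0x6026023ca), (nat_lit 6)⟩)))))
(.nd (.nd (.nd (.nd (.nd (.lf ⟨(nat_lit 0x555), (nat_lit 2), (nat_lit 0), (nat_lit 0)⟩)
(.lf ⟨(nat_lit 717), (nat_lit 2), (nat_lit 843), (nat_lit 2)⟩))
(.lf ⟨(nat_lit 0x1548a48a), (nat_lit 5), (nat_lit 0x288288), (nat_lit 4)⟩))
(.nd (.lf ⟨(nat_lit 0x38114e045), (nat_lit 6), (nat_lit 0x14e045381), (nat_lit 6)⟩)
(.lf ⟨(nat_lit 0x3cb24f2c93cb24f24b), (nat_lit 12), (nat_lit 0x3cb24f24b3cb24f2c9), (nat_lit 12)⟩)))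
(.nd (.nd (.lf ⟨(nat_lit 0x28b28b), (nat_lit 4), (nat_lit 0x2ca2ca), (nat_lit 4)⟩)
(.lf ⟨(nat_lit 0x28c292), (nat_lit 4), (nat_lit 0x48a30a), (nat_lit 4)⟩))
(.nd (.lf ⟨(nat_lit 781), (nat_lit 2), (nat_lit 844), (nat_lit 2)⟩)
(.lf ⟨(nat_lit 0xd30d959225224360f0d30d959225224360f0c34c36564894890d83c34c36564894890d83c3), (nat_lit 50), (nat_lit 0xd30d959225224360f0d30d959225224360f0c34c36564894890d83c34c36564894890d83c3), (nat_lit 50)⟩))))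
(.nd (.nd (.nd (.lf ⟨(nat_lit 0x33cb0cd), (nat_lit 5), (nat_lit 0xb3cb0cd2c3), (nat_lit 7)⟩)
(.lf ⟨(nat_lit 0x1875491951875491951861d52465461d5246546), (nat_lit 26), (nat_lit 0x1875491951875491951861d52465461d5246546), (nat_lit 26)⟩))
(.nd (.lf ⟨(nat_lit 0x205208148), (nat_lit 6), (nat_lit 0), (nat_lit 0)⟩)
(.lf ⟨(nat_lit 0x4252), (nat_lit 3), (nat_lit 0x9489109), (nat_lit 5)⟩)))
(.nd (.nd (.lf ⟨(nat_lit 980), (nat_lit 2), (nat_lit 0x50f), (nat_lit 2)⟩)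
(.lf ⟨(nat_lit 0x151206), (nat_lit 4), (nat_lit 0x54d6496494892c93cb2522c93cb35954d2594892c93cb2522c93cb246148), (nat_lit 40)⟩))
(.nd (.lf ⟨(nat_lit 0x18110949130838b20404425244c20e2c810604425244c20e2c810110949130838b204), (nat_lit 46), (nat_lit 0x18110949130838b20404425244c20e2c810604425244c20e2c810110949130838b204), (nat_lit 46)⟩)
(.lf ⟨(nat_lit 0x25130f), (nat_lit 4), (nat_lit 0x44f44f30f30944c), (nat_lit 10)⟩))))))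
(.nd (.nd (.nd (.nd (.nd (.nd (.lf ⟨(nat_lit 135), (nat_lit 2), (nat_lit 0xa1c2), (nat_lit 3)⟩)
(.lf ⟨(nat_lit 269), (nat_lit 2), (nat_lit 0x1a6585d335130544c144), (nat_lit 13)⟩))
(.lf ⟨(nat_lit 0xe24e5ce349397), (nat_lit 9), (nat_lit 0x38939704e24e5c1), (nat_lit 10)⟩))
(.nd (.lf ⟨(nat_lit 335), (nat_lit 2), (nat_lit 0x173c5), (nat_lit 3)⟩)
(.lf ⟨(nat_lit 0x58058), (nat_lit 4), (nat_lit 0x58058), (nat_lit 4)⟩)))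
(.nd (.nd (.lf ⟨(nat_lit 0x18f18f), (nat_lit 4), (nat_lit 0x3c63c6), (nat_lit 4)⟩)
(.lf ⟨(nat_lit 720), (nat_lit 2), (nat_lit 0x3d030f30b), (nat_lit 6)⟩))
(.nd (.lf ⟨(nat_lit 0x24d24710d2472442493491c43491c9109), (nat_lit 22), (nat_lit 0x24d24710d2472442493491c43491c9109), (nat_lit 22)⟩)
(.lf ⟨(nat_lit 212), (nat_lit 2), (nat_lit 0x1a50e2c93ce24f24b243), (nat_lit 13)⟩))))
(.nd (.nd (.nd (.lf ⟨(nat_lit 0x304304), (nat_lit 4), (nat_lit 0x10c10c), (nat_lit 4)⟩)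
(.lf ⟨(nat_lit 0x1121155229244a), (nat_lit 9), (nat_lit 0x1155229244a448), (nat_lit 9)⟩))
(.nd (.lf ⟨(nat_lit 272), (nat_lit 2), (nat_lit 0x15490490490484), (nat_lit 9)⟩)
(.lf ⟨(nat_lit 919), (nat_lit 2), (nat_lit 0x5ce), (nat_lit 2)⟩)))
(.nd (.nd (.lf ⟨(nat_lit 0x2034c80d3), (nat_lit 6), (nat_lit 0x4c80d3203), (nat_lit 6)⟩)
(.lf ⟨(nat_lit 0x3d23d9), (nat_lit 4), (nat_lit 0x6543d250f), (nat_lit 6)⟩))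
(.nd (.lf ⟨(nat_lit 0x146288), (nat_lit 4), (nat_lit 0x918a20a20918544818a), (nat_lit 13)⟩)
(.lf ⟨(nat_lit 0x24a24c), (nat_lit 4), (nat_lit 0x195134144cc24a250), (nat_lit 11)⟩)))))
(.nd (.nd (.nd (.nd (.nd (.lf ⟨(nat_lit 325), (nat_lit 2), (nat_lit 0), (nat_lit 0)⟩)
(.lf ⟨(nat_lit 217), (nat_lit 2), (nat_lit 0x643), (nat_lit 2)⟩))
(.lf ⟨(nat_lit 0x2ca2ca), (nat_lit 4), (nat_lit 0x1cf1cf), (nat_lit 4)⟩))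
(.nd (.lf ⟨(nat_lit 0x44c44c), (nat_lit 4), (nat_lit 0), (nat_lit 0)⟩)
(.lf ⟨(nat_lit 0), (nat_lit 0), (nat_lit 0x59059), (nat_lit 4)⟩)))
(.nd (.nd (.lf ⟨(nat_lit 0x1c1407050), (nat_lit 6), (nat_lit 0x4070501c1), (nat_lit 6)⟩)
(.lf ⟨(nat_lit 909), (nat_lit 2), (nat_lit 846), (nat_lit 2)⟩))
(.nd (.lf ⟨(nat_lit 0x452), (nat_lit 2), (nat_lit 0x491), (nat_lit 2)⟩)
(.lf ⟨(nat_lit 0), (nat_lit 0), (nat_lit 0x9a24424409a244244), (nat_lit 12)⟩))))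
(.nd (.nd (.nd (.lf ⟨(nat_lit 0x2c62c6), (nat_lit 4), (nat_lit 0x18b18b), (nat_lit 4)⟩)
(.lf ⟨(nat_lit 0x14b28b2852ca2ca), (nat_lit 10), (nat_lit 0x14b28b2852ca2ca), (nat_lit 10)⟩))
(.nd (.lf ⟨(nat_lit 0x487487), (nat_lit 4), (nat_lit 0), (nat_lit 0)⟩)
(.lf ⟨(nat_lit 0x31830c04c60c301), (nat_lit 10), (nat_lit 0x30131830c04c60c), (nat_lit 10)⟩)))
(.nd (.nd (.lf ⟨(nat_lit 973), (nat_lit 2), (nat_lit 847), (nat_lit 2)⟩)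
(.lf ⟨(nat_lit 0x38854e215), (nat_lit 6), (nat_lit 0x38854e215), (nat_lit 6)⟩))
(.nd (.lf ⟨(nat_lit 0x61436436450d90d9), (nat_lit 11), (nat_lit 0x50d90d9143643646), (nat_lit 11)⟩)
(.lf ⟨(nat_lit 0x5421c540f40c3cc2471503d030f3095421c540f40c3cc2471503d030f309), (nat_lit 40), (nat_lit 0x5421c540f40c3cc2471503d030f3095421c540f40c3cc2471503d030f309), (nat_lit 40)⟩)))))))
(.nd (.nd (.nd (.nd (.nd (.nd (.nd (.lf ⟨(nat_lit 325), (nat_lit 2), (nat_lit 0), (nat_lit 0)⟩)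
(.lf ⟨(nat_lit 0x4251), (nat_lit 3), (nat_lit 0x9449109), (nat_lit 5)⟩))
(.lf ⟨(nat_lit 0x48c), (nat_lit 2), (nat_lit 0x2070481c1), (nat_lit 6)⟩))
(.nd (.lf ⟨(nat_lit 0x204088102), (nat_lit 6), (nat_lit 0x88102204), (nat_lit 6)⟩)
(.lf ⟨(nat_lit 0x724b), (nat_lit 3), (nat_lit 0x1a2575164d75164d75164d75164d75164d751a5932c91c9), (nat_lit 31)⟩)))
(.nd (.nd (.lf ⟨(nat_lit 0x341341), (nat_lit 4), (nat_lit 0), (nat_lit 0)⟩)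
(.lf ⟨(nat_lit 0x5307), (nat_lit 3), (nat_lit 0x1031948a49031929230a48c28714c), (nat_lit 19)⟩))
(.nd (.lf ⟨(nat_lit 721), (nat_lit 2), (nat_lit 0x48e44e48b), (nat_lit 6)⟩)
(.lf ⟨(nat_lit 517), (nat_lit 2), (nat_lit 0x305305590148), (nat_lit 8)⟩))))
(.nd (.nd (.nd (.lf ⟨(nat_lit 0x302302), (nat_lit 4), (nat_lit 0x8c08c), (nat_lit 4)⟩)
(.lf ⟨(nat_lit 0x14134f2c734714134f2c7347), (nat_lit 16), (nat_lit 0x14134f2c734714134f2c7347), (nat_lit 16)⟩))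
(.nd (.lf ⟨(nat_lit 206), (nat_lit 2), (nat_lit 899), (nat_lit 2)⟩)
(.lf ⟨(nat_lit 0x55a), (nat_lit 2), (nat_lit 0x695), (nat_lit 2)⟩)))
(.nd (.nd (.lf ⟨(nat_lit 0x3412cd04b), (nat_lit 6), (nat_lit 0x2cd04b341), (nat_lit 6)⟩)
(.lf ⟨(nat_lit 537), (nat_lit 2), (nat_lit 0x648), (nat_lit 2)⟩))
(.nd (.lf ⟨(nat_lit 12), (nat_lit 1), (nat_lit 0x48048), (nat_lit 4)⟩)
(.lf ⟨(nat_lit 791), (nat_lit 2), (nat_lit 0x45744c), (nat_lit 4)⟩)))))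
(.nd (.nd (.nd (.nd (.nd (.lf ⟨(nat_lit 214), (nat_lit 2), (nat_lit 0x1a583), (nat_lit 3)⟩)
(.lf ⟨(nat_lit 840), (nat_lit 2), (nat_lit 0x203102203102), (nat_lit 8)⟩))
(.lf ⟨(nat_lit 0x20a34f2ca1cd2c7), (nat_lit 10), (nat_lit 0x28d3cb28734b1c8), (nat_lit 10)⟩))
(.nd (.lf ⟨(nat_lit 0x2c31422c3142), (nat_lit 8), (nat_lit 0x1422c31422c3), (nat_lit 8)⟩)
(.lf ⟨(nat_lit 0x645), (nat_lit 2), (nat_lit 0x542055081), (nat_lit 6)⟩)))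
(.nd (.nd (.lf ⟨(nat_lit 0x484152105), (nat_lit 6), (nat_lit 0x152105484), (nat_lit 6)⟩)
(.lf ⟨(nat_lit 0x416), (nat_lit 2), (nat_lit 0x590), (nat_lit 2)⟩))
(.nd (.lf ⟨(nat_lit 0xa58a), (nat_lit 3), (nat_lit 0x14a38a14a38a), (nat_lit 8)⟩)
(.lf ⟨(nat_lit 0x436436410d90d9), (nat_lit 10), (nat_lit 0x436436410d90d9), (nat_lit 10)⟩))))
(.nd (.nd (.nd (.lf ⟨(nat_lit 0x404404), (nat_lit 4), (nat_lit 0x110110), (nat_lit 4)⟩)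
(.lf ⟨(nat_lit 0x497557552), (nat_lit 6), (nat_lit 0x497482497482), (nat_lit 8)⟩))
(.nd (.lf ⟨(nat_lit 0x24e24e), (nat_lit 4), (nat_lit 0x389389), (nat_lit 4)⟩)
(.lf ⟨(nat_lit 0x54354a54354a), (nat_lit 8), (nat_lit 0x54a54354a543), (nat_lit 8)⟩)))
(.nd (.nd (.lf ⟨(nat_lit 333), (nat_lit 2), (nat_lit 837), (nat_lit 2)⟩)
(.lf ⟨(nat_lit 0x692692), (nat_lit 4), (nat_lit 0x68149a052), (nat_lit 6)⟩))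
(.nd (.lf ⟨(nat_lit 716), (nat_lit 2), (nat_lit 779), (nat_lit 2)⟩)
(.lf ⟨(nat_lit 0), (nat_lit 0), (nat_lit 0x89089), (nat_lit 4)⟩))))))
(.nd (.nd (.nd (.nd (.nd (.nd (.lf ⟨(nat_lit 0xcc0cc), (nat_lit 4), (nat_lit 0x303303), (nat_lit 4)⟩)
(.lf ⟨(nat_lit 0xc14c151), (nat_lit 5), (nat_lit 0x11305305), (nat_lit 5)⟩))
(.lf ⟨(nat_lit 0x1c91d20481c94882474812072522091c72474812072522091d20481c9488247), (nat_lit 42), (nat_lit 0x1c91d20481c94882474812072522091c72474812072522091d20481c9488247), (nat_lit 42)⟩))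
(.nd (.lf ⟨(nat_lit 0x1c11811c1181), (nat_lit 8), (nat_lit 0x1811c11811c1), (nat_lit 8)⟩)
(.lf ⟨(nat_lit 0x216216), (nat_lit 4), (nat_lit 0x216216), (nat_lit 4)⟩)))
(.nd (.nd (.lf ⟨(nat_lit 0x20e20e), (nat_lit 4), (nat_lit 0x388388), (nat_lit 4)⟩)
(.lf ⟨(nat_lit 0x2093cb), (nat_lit 4), (nat_lit 0x49124f2c9491209), (nat_lit 10)⟩))
(.nd (.lf ⟨(nat_lit 0x445445), (nat_lit 4), (nat_lit 0x151151), (nat_lit 4)⟩)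
(.lf ⟨(nat_lit 0x29128b0ca44544a14b0ca44544a14a44a2c32911512852c3291151285), (nat_lit 38), (nat_lit 0x29128b0ca44544a14b0ca44544a14a44a2c32911512852c3291151285), (nat_lit 38)⟩))))
(.nd (.nd (.nd (.lf ⟨(nat_lit 0x481481), (nat_lit 4), (nat_lit 0x52052), (nat_lit 4)⟩)
(.lf ⟨(nat_lit 9), (nat_lit 1), (nat_lit 0x196086582), (nat_lit 6)⟩))
(.nd (.lf ⟨(nat_lit 0x148145205), (nat_lit 6), (nat_lit 0), (nat_lit 0)⟩)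
(.lf ⟨(nat_lit 985), (nat_lit 2), (nat_lit 0x64f), (nat_lit 2)⟩)))
(.nd (.nd (.lf ⟨(nat_lit 393), (nat_lit 2), (nat_lit 582), (nat_lit 2)⟩)
(.lf ⟨(nat_lit 0x104d5413), (nat_lit 5), (nat_lit 0x135504d0), (nat_lit 5)⟩))
(.nd (.lf ⟨(nat_lit 0x219208219202219202208648088648088648208648088648088219202219202), (nat_lit 42), (nat_lit 0x219208219202219202208648088648088648208648088648088219202219202), (nat_lit 42)⟩)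
(.lf ⟨(nat_lit 0xa44e), (nat_lit 3), (nat_lit 0xe291), (nat_lit 3)⟩)))))
(.nd (.nd (.nd (.nd (.nd (.lf ⟨(nat_lit 137), (nat_lit 2), (nat_lit 0x189189189182), (nat_lit 8)⟩)
(.lf ⟨(nat_lit 0xc2281), (nat_lit 4), (nat_lit 0x65858f283081), (nat_lit 8)⟩))
(.lf ⟨(nat_lit 344), (nat_lit 2), (nat_lit 0x60a50f2ca38f4cf3943d64ce5cf38b58b28b1d43ca5d42ca2ca1c5), (nat_lit 36)⟩))
(.nd (.lf ⟨(nat_lit 0x28e28e), (nat_lit 4), (nat_lit 0x38a38a), (nat_lit 4)⟩)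
(.lf ⟨(nat_lit 0x516), (nat_lit 2), (nat_lit 0x594), (nat_lit 2)⟩)))
(.nd (.nd (.lf ⟨(nat_lit 74), (nat_lit 2), (nat_lit 0x10710a1c41463462463491851c41c1), (nat_lit 20)⟩)
(.lf ⟨(nat_lit 0x3d23d0), (nat_lit 4), (nat_lit 0x40f48f), (nat_lit 4)⟩))
(.nd (.lf ⟨(nat_lit 5), (nat_lit 1), (nat_lit 0x642059081), (nat_lit 6)⟩)
(.lf ⟨(nat_lit 0x346151205448246), (nat_lit 10), (nat_lit 0x2032052080c8148), (nat_lit 10)⟩))))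
(.nd (.nd (.nd (.lf ⟨(nat_lit 0x203102203102), (nat_lit 8), (nat_lit 0x102203102203), (nat_lit 8)⟩)
(.lf ⟨(nat_lit 0xe3d6), (nat_lit 3), (nat_lit 0x144d43d64d44d44cf38f), (nat_lit 13)⟩))
(.nd (.lf ⟨(nat_lit 661), (nat_lit 2), (nat_lit 0x54a), (nat_lit 2)⟩)
(.lf ⟨(nat_lit 404), (nat_lit 2), (nat_lit 0x68d38b25769750d3892c6), (nat_lit 14)⟩)))
(.nd (.nd (.lf ⟨(nat_lit 0x4448), (nat_lit 3), (nat_lit 0x1130d44d308111), (nat_lit 9)⟩)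
(.lf ⟨(nat_lit 0x4c21d3087), (nat_lit 6), (nat_lit 0x4c21d3087), (nat_lit 6)⟩))
(.nd (.lf ⟨(nat_lit 533), (nat_lit 2), (nat_lit 0x548), (nat_lit 2)⟩)
(.lf ⟨(nat_lit 0x414), (nat_lit 2), (nat_lit 0x510), (nat_lit 2)⟩))))))))))
(.nd (.nd (.nd (.nd (.nd (.nd (.nd (.nd (.nd (.nd (.lf ⟨(nat_lit 260), (nat_lit 2), (nat_lit 0), (nat_lit 0)⟩)
(.lf ⟨(nat_lit 8), (nat_lit 1), (nat_lit 0x4831120c4), (nat_lit 6)⟩))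
(.lf ⟨(nat_lit 0x758b6962c7), (nat_lit 7), (nat_lit 0x1d61c31d61c3), (nat_lit 8)⟩))
(.nd (.lf ⟨(nat_lit 0x734a), (nat_lit 3), (nat_lit 0xa3cb34b28f2cd2ca1cd), (nat_lit 13)⟩)
(.lf ⟨(nat_lit 0x5534934954d24d2), (nat_lit 10), (nat_lit 0), (nat_lit 0)⟩)))
(.nd (.nd (.lf ⟨(nat_lit 0x501501), (nat_lit 4), (nat_lit 0x54054), (nat_lit 4)⟩)
(.lf ⟨(nat_lit 656), (nat_lit 2), (nat_lit 0x40a), (nat_lit 2)⟩))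
(.nd (.lf ⟨(nat_lit 10), (nat_lit 1), (nat_lit 0x87087), (nat_lit 4)⟩)
(.lf ⟨(nat_lit 0), (nat_lit 0), (nat_lit 0x5a4ca24a1c91c1693289287247), (nat_lit 18)⟩))))
(.nd (.nd (.nd (.lf ⟨(nat_lit 0x108108), (nat_lit 4), (nat_lit 0x204204), (nat_lit 4)⟩)
(.lf ⟨(nat_lit 0x7355), (nat_lit 3), (nat_lit 0xf2cd28b5522923cb34a2ca1cd), (nat_lit 17)⟩))
(.nd (.lf ⟨(nat_lit 0x1d51d5), (nat_lit 4), (nat_lit 0x547547), (nat_lit 4)⟩)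
(.lf ⟨(nat_lit 0x49a), (nat_lit 2), (nat_lit 0x692), (nat_lit 2)⟩)))
(.nd (.nd (.lf ⟨(nat_lit 81), (nat_lit 2), (nat_lit 0x20c21130818831134c34835120c34830d20d206308301), (nat_lit 30)⟩)
(.lf ⟨(nat_lit 0x3c21813c2181), (nat_lit 8), (nat_lit 0x1813c21813c2), (nat_lit 8)⟩))
(.nd (.lf ⟨(nat_lit 0), (nat_lit 0), (nat_lit 0x492), (nat_lit 2)⟩)
(.lf ⟨(nat_lit 0x346151205448246346151205448246), (nat_lit 20), (nat_lit 0), (nat_lit 0)⟩)))))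
(.nd (.nd (.nd (.nd (.nd (.lf ⟨(nat_lit 0x49049), (nat_lit 4), (nat_lit 0x241241), (nat_lit 4)⟩)
(.lf ⟨(nat_lit 0x6975944cd2c9), (nat_lit 8), (nat_lit 0x1c50c7143), (nat_lit 6)⟩))
(.lf ⟨(nat_lit 0), (nat_lit 0), (nat_lit 780), (nat_lit 2)⟩))
(.nd (.lf ⟨(nat_lit 0x2031c12031c1), (nat_lit 8), (nat_lit 0x1c12031c1203), (nat_lit 8)⟩)
(.lf ⟨(nat_lit 0x599), (nat_lit 2), (nat_lit 0x656), (nat_lit 2)⟩)))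
(.nd (.nd (.lf ⟨(nat_lit 0x212212), (nat_lit 4), (nat_lit 0x488488), (nat_lit 4)⟩)
(.lf ⟨(nat_lit 0x93cb24f), (nat_lit 5), (nat_lit 0xf24f2c9), (nat_lit 5)⟩))
(.nd (.lf ⟨(nat_lit 0x5448148), (nat_lit 5), (nat_lit 0x11205448151), (nat_lit 7)⟩)
(.lf ⟨(nat_lit 208), (nat_lit 2), (nat_lit 0x6995954cd48960f28824a14815130f10d44c103), (nat_lit 26)⟩))))
(.nd (.nd (.nd (.lf ⟨(nat_lit 0x382382), (nat_lit 4), (nat_lit 0x8e08e), (nat_lit 4)⟩)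
(.lf ⟨(nat_lit 0x6582), (nat_lit 3), (nat_lit 0x256086), (nat_lit 4)⟩))
(.nd (.lf ⟨(nat_lit 0x928d), (nat_lit 3), (nat_lit 0xa34a24a), (nat_lit 5)⟩)
(.lf ⟨(nat_lit 208), (nat_lit 2), (nat_lit 0x154cd48910944c2cd20434f2c810d44c103), (nat_lit 23)⟩)))
(.nd (.nd (.lf ⟨(nat_lit 589), (nat_lit 2), (nat_lit 841), (nat_lit 2)⟩)
(.lf ⟨(nat_lit 0x4544522d151148b), (nat_lit 10), (nat_lit 0x48b4544522d1511), (nat_lit 10)⟩))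
(.nd (.lf ⟨(nat_lit 90), (nat_lit 2), (nat_lit 0x681), (nat_lit 2)⟩)
(.lf ⟨(nat_lit 591), (nat_lit 2), (nat_lit 969), (nat_lit 2)⟩))))))
(.nd (.nd (.nd (.nd (.nd (.nd (.lf ⟨(nat_lit 455), (nat_lit 2), (nat_lit 0), (nat_lit 0)⟩)
(.lf ⟨(nat_lit 0x55340c3cc24424455340c3cc244244), (nat_lit 20), (nat_lit 0), (nat_lit 0)⟩))
(.lf ⟨(nat_lit 465), (nat_lit 2), (nat_lit 0x447), (nat_lit 2)⟩))
(.nd (.lf ⟨(nat_lit 0x183183), (nat_lit 4), (nat_lit 0), (nat_lit 0)⟩)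
(.lf ⟨(nat_lit 0), (nat_lit 0), (nat_lit 0x971171025c45c4), (nat_lit 10)⟩)))
(.nd (.nd (.lf ⟨(nat_lit 0x4448), (nat_lit 3), (nat_lit 0x11211111), (nat_lit 5)⟩)
(.lf ⟨(nat_lit 0x944e), (nat_lit 3), (nat_lit 0x58d69634e251), (nat_lit 8)⟩))
(.nd (.lf ⟨(nat_lit 0x836026020d80980820d8098083602602), (nat_lit 22), (nat_lit 0x836026020d80980820d8098083602602), (nat_lit 22)⟩)
(.lf ⟨(nat_lit 0x1523d12c93cb2521523d12c93cb252), (nat_lit 20), (nat_lit 0x1523d12c93cb2521523d12c93cb252), (nat_lit 20)⟩))))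
(.nd (.nd (.nd (.lf ⟨(nat_lit 0xca0ca), (nat_lit 4), (nat_lit 0x283283), (nat_lit 4)⟩)
(.lf ⟨(nat_lit 0x5209), (nat_lit 3), (nat_lit 0xd25548a48a20955229234a209148), (nat_lit 19)⟩))
(.nd (.lf ⟨(nat_lit 391), (nat_lit 2), (nat_lit 0xe1c6), (nat_lit 3)⟩)
(.lf ⟨(nat_lit 982), (nat_lit 2), (nat_lit 0x58f), (nat_lit 2)⟩)))
(.nd (.nd (.lf ⟨(nat_lit 0x28238a08e), (nat_lit 6), (nat_lit 0x38a08e282), (nat_lit 6)⟩)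
(.lf ⟨(nat_lit 0x5535554d5), (nat_lit 6), (nat_lit 0), (nat_lit 0)⟩))
(.nd (.lf ⟨(nat_lit 0x59319a59359319a593), (nat_lit 12), (nat_lit 0), (nat_lit 0)⟩)
(.lf ⟨(nat_lit 0xf454), (nat_lit 3), (nat_lit 0x115113d1), (nat_lit 5)⟩)))))
(.nd (.nd (.nd (.nd (.nd (.lf ⟨(nat_lit 195), (nat_lit 2), (nat_lit 0), (nat_lit 0)⟩)
(.lf ⟨(nat_lit 0x28714c), (nat_lit 4), (nat_lit 0x30a1c5), (nat_lit 4)⟩))
(.lf ⟨(nat_lit 0x244244), (nat_lit 4), (nat_lit 0x10a24a10a24a), (nat_lit 8)⟩))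
(.nd (.lf ⟨(nat_lit 0x2421c42421c4), (nat_lit 8), (nat_lit 0x1c42421c4242), (nat_lit 8)⟩)
(.lf ⟨(nat_lit 0), (nat_lit 0), (nat_lit 0x523d23ca0523d23ca), (nat_lit 12)⟩)))
(.nd (.nd (.lf ⟨(nat_lit 0x2c328b0ca), (nat_lit 6), (nat_lit 0x28b0ca2c3), (nat_lit 6)⟩)
(.lf ⟨(nat_lit 659), (nat_lit 2), (nat_lit 0x4ca), (nat_lit 2)⟩))
(.nd (.lf ⟨(nat_lit 913), (nat_lit 2), (nat_lit 0x44e), (nat_lit 2)⟩)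
(.lf ⟨(nat_lit 0), (nat_lit 0), (nat_lit 0x15030940c24540c250309), (nat_lit 14)⟩))))
(.nd (.nd (.nd (.lf ⟨(nat_lit 0x344344), (nat_lit 4), (nat_lit 0x10d10d), (nat_lit 4)⟩)
(.lf ⟨(nat_lit 0x497557552497557552), (nat_lit 12), (nat_lit 0), (nat_lit 0)⟩))
(.nd (.lf ⟨(nat_lit 0x48b48b), (nat_lit 4), (nat_lit 0), (nat_lit 0)⟩)
(.lf ⟨(nat_lit 0x28160360a0580d8), (nat_lit 10), (nat_lit 0x60360a0580d8281), (nat_lit 10)⟩)))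
(.nd (.nd (.lf ⟨(nat_lit 206), (nat_lit 2), (nat_lit 0x18e2c62c3), (nat_lit 6)⟩)
(.lf ⟨(nat_lit 0x4ce3ce), (nat_lit 4), (nat_lit 0x38b08e2c2), (nat_lit 6)⟩))
(.nd (.lf ⟨(nat_lit 0xd90d9), (nat_lit 4), (nat_lit 0xd90d9), (nat_lit 4)⟩)
(.lf ⟨(nat_lit 586), (nat_lit 2), (nat_lit 0x17289), (nat_lit 3)⟩)))))))
(.nd (.nd (.nd (.nd (.nd (.nd (.nd (.lf ⟨(nat_lit 13), (nat_lit 1), (nat_lit 0x49049), (nat_lit 4)⟩)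
(.lf ⟨(nat_lit 0x109450), (nat_lit 4), (nat_lit 0x15250449109), (nat_lit 7)⟩))
(.lf ⟨(nat_lit 0x20d10d108344344), (nat_lit 10), (nat_lit 0x20d10d108344344), (nat_lit 10)⟩))
(.nd (.lf ⟨(nat_lit 0x2cd2cd), (nat_lit 4), (nat_lit 0x34b34b), (nat_lit 4)⟩)
(.lf ⟨(nat_lit 0x8252), (nat_lit 3), (nat_lit 0x19359551655359252251209), (nat_lit 15)⟩)))
(.nd (.nd (.lf ⟨(nat_lit 0x443443), (nat_lit 4), (nat_lit 0), (nat_lit 0)⟩)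
(.lf ⟨(nat_lit 0x1158d), (nat_lit 3), (nat_lit 0x16356456), (nat_lit 5)⟩))
(.nd (.lf ⟨(nat_lit 0x10319230838b44818319230838b4481840c648c20e2d12060c648c20e2d1206), (nat_lit 42), (nat_lit 0x10319230838b44818319230838b4481840c648c20e2d12060c648c20e2d1206), (nat_lit 42)⟩)
(.lf ⟨(nat_lit 407), (nat_lit 2), (nat_lit 0x1a5c950d3cb2543493cb246), (nat_lit 15)⟩))))
(.nd (.nd (.nd (.lf ⟨(nat_lit 0x203203), (nat_lit 4), (nat_lit 0), (nat_lit 0)⟩)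
(.lf ⟨(nat_lit 0x5cd5cd), (nat_lit 4), (nat_lit 0x5c235708d), (nat_lit 6)⟩))
(.nd (.lf ⟨(nat_lit 0x434c207), (nat_lit 5), (nat_lit 0xd307344348), (nat_lit 7)⟩)
(.lf ⟨(nat_lit 282), (nat_lit 2), (nat_lit 0x21a204), (nat_lit 4)⟩)))
(.nd (.nd (.lf ⟨(nat_lit 0x3c224f089), (nat_lit 6), (nat_lit 0x24f0893c2), (nat_lit 6)⟩)
(.lf ⟨(nat_lit 0x5209), (nat_lit 3), (nat_lit 0x153523d23c920954d48f48f209148), (nat_lit 19)⟩))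
(.nd (.lf ⟨(nat_lit 0x556556), (nat_lit 4), (nat_lit 0x595595), (nat_lit 4)⟩)
(.lf ⟨(nat_lit 0x418), (nat_lit 2), (nat_lit 0x610), (nat_lit 2)⟩)))))
(.nd (.nd (.nd (.nd (.nd (.lf ⟨(nat_lit 0x5d7), (nat_lit 2), (nat_lit 0), (nat_lit 0)⟩)
(.lf ⟨(nat_lit 588), (nat_lit 2), (nat_lit 0x3cc3c9), (nat_lit 4)⟩))
(.lf ⟨(nat_lit 18), (nat_lit 1), (nat_lit 0x207207), (nat_lit 4)⟩))
(.nd (.lf ⟨(nat_lit 0x246209188), (nat_lit 6), (nat_lit 0x209188246), (nat_lit 6)⟩)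
(.lf ⟨(nat_lit 0x41340e40e), (nat_lit 6), (nat_lit 0x38c08e302), (nat_lit 6)⟩)))
(.nd (.nd (.lf ⟨(nat_lit 0x844c20c), (nat_lit 5), (nat_lit 0xc211308), (nat_lit 5)⟩)
(.lf ⟨(nat_lit 0x5309), (nat_lit 3), (nat_lit 0x1024c25030914c), (nat_lit 9)⟩))
(.nd (.lf ⟨(nat_lit 0), (nat_lit 0), (nat_lit 0x31a30c68c), (nat_lit 6)⟩)
(.lf ⟨(nat_lit 0x19a65660f19a65660f), (nat_lit 12), (nat_lit 0x19a65660f19a65660f), (nat_lit 12)⟩))))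
(.nd (.nd (.nd (.lf ⟨(nat_lit 0x443443), (nat_lit 4), (nat_lit 0xd10d1), (nat_lit 4)⟩)
(.lf ⟨(nat_lit 0x2c358d58d2c358d58d), (nat_lit 12), (nat_lit 0x2c358d58d2c358d58d), (nat_lit 12)⟩))
(.nd (.lf ⟨(nat_lit 0x342342), (nat_lit 4), (nat_lit 0), (nat_lit 0)⟩)
(.lf ⟨(nat_lit 88), (nat_lit 2), (nat_lit 0x601), (nat_lit 2)⟩)))
(.nd (.nd (.lf ⟨(nat_lit 0x4d6), (nat_lit 2), (nat_lit 0x593), (nat_lit 2)⟩)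
(.lf ⟨(nat_lit 0x5206), (nat_lit 3), (nat_lit 0xd185448), (nat_lit 5)⟩))
(.nd (.lf ⟨(nat_lit 5), (nat_lit 1), (nat_lit 0x81081), (nat_lit 4)⟩)
(.lf ⟨(nat_lit 0x486486), (nat_lit 4), (nat_lit 0), (nat_lit 0)⟩))))))
(.nd (.nd (.nd (.nd (.nd (.nd (.lf ⟨(nat_lit 72), (nat_lit 2), (nat_lit 0xc201), (nat_lit 3)⟩)
(.lf ⟨(nat_lit 145), (nat_lit 2), (nat_lit 0x40f30f309408248151142), (nat_lit 14)⟩))
(.lf ⟨(nat_lit 0x5c13893865c65ce24e1971975c13893865c65ce24e197197), (nat_lit 32), (nat_lit 0x5c13893865c65ce24e1971975c13893865c65ce24e197197), (nat_lit 32)⟩))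
(.nd (.lf ⟨(nat_lit 0x38108e042), (nat_lit 6), (nat_lit 0x8e042381), (nat_lit 6)⟩)
(.lf ⟨(nat_lit 0x519), (nat_lit 2), (nat_lit 0x654), (nat_lit 2)⟩)))
(.nd (.nd (.lf ⟨(nat_lit 0x1d01d0), (nat_lit 4), (nat_lit 0x407407), (nat_lit 4)⟩)
(.lf ⟨(nat_lit 0x10d113), (nat_lit 4), (nat_lit 0x3484cd38810d384), (nat_lit 10)⟩))
(.nd (.lf ⟨(nat_lit 262), (nat_lit 2), (nat_lit 0x123083923913922c8184), (nat_lit 13)⟩)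
(.lf ⟨(nat_lit 535), (nat_lit 2), (nat_lit 0x3143cc5cc50f308), (nat_lit 10)⟩))))
(.nd (.nd (.nd (.lf ⟨(nat_lit 0x207207), (nat_lit 4), (nat_lit 0x1c81c8), (nat_lit 4)⟩)
(.lf ⟨(nat_lit 0x14d2433490c53490cd243), (nat_lit 14), (nat_lit 0x14d2433490c53490cd243), (nat_lit 14)⟩))
(.nd (.lf ⟨(nat_lit 0x544544), (nat_lit 4), (nat_lit 0), (nat_lit 0)⟩)
(.lf ⟨(nat_lit 0x217217), (nat_lit 4), (nat_lit 0x3143cc5d43143cc2173cc50f308), (nat_lit 18)⟩)))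
(.nd (.nd (.lf ⟨(nat_lit 0x301242301242), (nat_lit 8), (nat_lit 0x242301242301), (nat_lit 8)⟩)
(.lf ⟨(nat_lit 0x181595586056556), (nat_lit 10), (nat_lit 0x595586056556181), (nat_lit 10)⟩))
(.nd (.lf ⟨(nat_lit 0x1254d54d), (nat_lit 5), (nat_lit 0x15355352), (nat_lit 5)⟩)
(.lf ⟨(nat_lit 0x598), (nat_lit 2), (nat_lit 0x616), (nat_lit 2)⟩)))))
(.nd (.nd (.nd (.nd (.nd (.lf ⟨(nat_lit 455), (nat_lit 2), (nat_lit 0), (nat_lit 0)⟩)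
(.lf ⟨(nat_lit 145), (nat_lit 2), (nat_lit 0x442), (nat_lit 2)⟩))
(.lf ⟨(nat_lit 655), (nat_lit 2), (nat_lit 970), (nat_lit 2)⟩))
(.nd (.lf ⟨(nat_lit 0x5810d6043), (nat_lit 6), (nat_lit 0xd6043581), (nat_lit 6)⟩)
(.lf ⟨(nat_lit 0x15699), (nat_lit 3), (nat_lit 0x1a65a55a), (nat_lit 5)⟩)))
(.nd (.nd (.lf ⟨(nat_lit 0x2034880d2), (nat_lit 6), (nat_lit 0x4880d2203), (nat_lit 6)⟩)
(.lf ⟨(nat_lit 211), (nat_lit 2), (nat_lit 0x353343), (nat_lit 4)⟩))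
(.nd (.lf ⟨(nat_lit 14), (nat_lit 1), (nat_lit 0x1c61c6), (nat_lit 4)⟩)
(.lf ⟨(nat_lit 0x960d258), (nat_lit 5), (nat_lit 0x258049601), (nat_lit 6)⟩))))
(.nd (.nd (.nd (.lf ⟨(nat_lit 0x2031c80c7), (nat_lit 6), (nat_lit 0x1c80c7203), (nat_lit 6)⟩)
(.lf ⟨(nat_lit 0x38f38f), (nat_lit 4), (nat_lit 0x4cf38f4ce), (nat_lit 6)⟩))
(.nd (.lf ⟨(nat_lit 0x343643343643), (nat_lit 8), (nat_lit 0xd90cd0d90cd), (nat_lit 8)⟩)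
(.lf ⟨(nat_lit 207), (nat_lit 2), (nat_lit 0x1a3c3), (nat_lit 3)⟩)))
(.nd (.nd (.lf ⟨(nat_lit 336), (nat_lit 2), (nat_lit 0x405), (nat_lit 2)⟩)
(.lf ⟨(nat_lit 0x4d5), (nat_lit 2), (nat_lit 0x553), (nat_lit 2)⟩))
(.nd (.lf ⟨(nat_lit 0), (nat_lit 0), (nat_lit 0x1cd10d107344344), (nat_lit 10)⟩)
(.lf ⟨(nat_lit 976), (nat_lit 2), (nat_lit 0x40f), (nat_lit 2)⟩))))))))
(.nd (.nd (.nd (.nd (.nd (.nd (.nd (.nd (.lf ⟨(nat_lit 10), (nat_lit 1), (nat_lit 0x87087), (nat_lit 4)⟩)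
(.lf ⟨(nat_lit 841), (nat_lit 2), (nat_lit 0x14d0c5343), (nat_lit 6)⟩))
(.lf ⟨(nat_lit 0x10d308), (nat_lit 4), (nat_lit 0xd49021034c10d), (nat_lit 9)⟩))
(.nd (.lf ⟨(nat_lit 0x10d548), (nat_lit 4), (nat_lit 0x34854854d204355), (nat_lit 10)⟩)
(.lf ⟨(nat_lit 0x4c45442442445442442444c4544244244544244244), (nat_lit 28), (nat_lit 0x4c45442442445442442444c4544244244544244244), (nat_lit 28)⟩)))
(.nd (.nd (.lf ⟨(nat_lit 0x484052101), (nat_lit 6), (nat_lit 0x52101484), (nat_lit 6)⟩)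
(.lf ⟨(nat_lit 400), (nat_lit 2), (nat_lit 0x30940c246), (nat_lit 6)⟩))
(.nd (.lf ⟨(nat_lit 0), (nat_lit 0), (nat_lit 520), (nat_lit 2)⟩)
(.lf ⟨(nat_lit 0), (nat_lit 0), (nat_lit 0x297297), (nat_lit 4)⟩))))
(.nd (.nd (.nd (.lf ⟨(nat_lit 0x241241), (nat_lit 4), (nat_lit 0x49049), (nat_lit 4)⟩)
(.lf ⟨(nat_lit 0), (nat_lit 0), (nat_lit 0x14d14d), (nat_lit 4)⟩))
(.nd (.lf ⟨(nat_lit 339), (nat_lit 2), (nat_lit 0x4c5), (nat_lit 2)⟩)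
(.lf ⟨(nat_lit 0x7252), (nat_lit 3), (nat_lit 0x1a4cf28b25224f6933ce3ce2ca1c9), (nat_lit 19)⟩)))
(.nd (.nd (.lf ⟨(nat_lit 207), (nat_lit 2), (nat_lit 0x2cf2c83482cd2c3), (nat_lit 10)⟩)
(.lf ⟨(nat_lit 0x84cd213), (nat_lit 5), (nat_lit 0x13213348), (nat_lit 5)⟩))
(.nd (.lf ⟨(nat_lit 0x116556544), (nat_lit 6), (nat_lit 0x116115116115), (nat_lit 8)⟩)
(.lf ⟨(nat_lit 0x658), (nat_lit 2), (nat_lit 0x1cf1cf), (nat_lit 4)⟩)))))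
(.nd (.nd (.nd (.nd (.nd (.lf ⟨(nat_lit 79), (nat_lit 2), (nat_lit 0x143c1), (nat_lit 3)⟩)
(.lf ⟨(nat_lit 590), (nat_lit 2), (nat_lit 905), (nat_lit 2)⟩))
(.lf ⟨(nat_lit 273), (nat_lit 2), (nat_lit 0x44b20b204), (nat_lit 6)⟩))
(.nd (.lf ⟨(nat_lit 0x5420d5083), (nat_lit 6), (nat_lit 0xd5083542), (nat_lit 6)⟩)
(.lf ⟨(nat_lit 0x3cb24f24b), (nat_lit 6), (nat_lit 0x8f2c93cb2423cb24f2c9), (nat_lit 14)⟩)))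
(.nd (.nd (.lf ⟨(nat_lit 0x73491c9), (nat_lit 5), (nat_lit 0x91cd247), (nat_lit 5)⟩)
(.lf ⟨(nat_lit 0x530a), (nat_lit 3), (nat_lit 0xc28c14c), (nat_lit 5)⟩))
(.nd (.lf ⟨(nat_lit 0), (nat_lit 0), (nat_lit 65), (nat_lit 2)⟩)
(.lf ⟨(nat_lit 0x4c36564894890d83c34c36564894890d83c3), (nat_lit 24), (nat_lit 0x4c36564894890d83c34c36564894890d83c3), (nat_lit 24)⟩))))
(.nd (.nd (.nd (.lf ⟨(nat_lit 149), (nat_lit 2), (nat_lit 0x495495495482), (nat_lit 8)⟩)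
(.lf ⟨(nat_lit 0x1d54ce54e1d54ce54e), (nat_lit 12), (nat_lit 0x1d54ce54e1d54ce54e), (nat_lit 12)⟩))
(.nd (.lf ⟨(nat_lit 0x18518b1c61462c7), (nat_lit 10), (nat_lit 0x2c718518b1c6146), (nat_lit 10)⟩)
(.lf ⟨(nat_lit 0x117594), (nat_lit 4), (nat_lit 0x195d650b28b284), (nat_lit 9)⟩)))
(.nd (.nd (.lf ⟨(nat_lit 786), (nat_lit 2), (nat_lit 0x48c), (nat_lit 2)⟩)
(.lf ⟨(nat_lit 0x209652), (nat_lit 4), (nat_lit 0x359551655349652251209), (nat_lit 14)⟩))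
(.nd (.lf ⟨(nat_lit 0x4425244c20e2c810110949130838b204), (nat_lit 22), (nat_lit 0x4425244c20e2c810110949130838b204), (nat_lit 22)⟩)
(.lf ⟨(nat_lit 0x4246), (nat_lit 3), (nat_lit 0x1a4913d138c3cc25130b246109), (nat_lit 17)⟩))))))
(.nd (.nd (.nd (.nd (.nd (.nd (.lf ⟨(nat_lit 0x87087), (nat_lit 4), (nat_lit 0x1c21c2), (nat_lit 4)⟩)
(.lf ⟨(nat_lit 0), (nat_lit 0), (nat_lit 0x154154), (nat_lit 4)⟩))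
(.lf ⟨(nat_lit 0x1da58e), (nat_lit 4), (nat_lit 0x387696), (nat_lit 4)⟩))
(.nd (.lf ⟨(nat_lit 462), (nat_lit 2), (nat_lit 903), (nat_lit 2)⟩)
(.lf ⟨(nat_lit 24), (nat_lit 1), (nat_lit 0x114114), (nat_lit 4)⟩)))
(.nd (.nd (.lf ⟨(nat_lit 0x18e18e), (nat_lit 4), (nat_lit 0x386386), (nat_lit 4)⟩)
(.lf ⟨(nat_lit 917), (nat_lit 2), (nat_lit 0x4d549348e), (nat_lit 6)⟩))
(.nd (.lf ⟨(nat_lit 0x3491c43491c9109), (nat_lit 10), (nat_lit 0x49109101244244), (nat_lit 10)⟩)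
(.lf ⟨(nat_lit 404), (nat_lit 2), (nat_lit 0x506), (nat_lit 2)⟩))))
(.nd (.nd (.nd (.lf ⟨(nat_lit 0x244244), (nat_lit 4), (nat_lit 0x109109), (nat_lit 4)⟩)
(.lf ⟨(nat_lit 0x44811155229244a11155229244a44811155229244a11155229244a), (nat_lit 36), (nat_lit 0x44811155229244a11155229244a44811155229244a11155229244a), (nat_lit 36)⟩))
(.nd (.lf ⟨(nat_lit 262), (nat_lit 2), (nat_lit 0x1230838b448184), (nat_lit 9)⟩)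
(.lf ⟨(nat_lit 0x291291), (nat_lit 4), (nat_lit 0x44a44a), (nat_lit 4)⟩)))
(.nd (.nd (.lf ⟨(nat_lit 0x28234a08d), (nat_lit 6), (nat_lit 0x34a08d282), (nat_lit 6)⟩)
(.lf ⟨(nat_lit 0x244249109), (nat_lit 6), (nat_lit 0), (nat_lit 0)⟩))
(.nd (.lf ⟨(nat_lit 0xc8148143205205), (nat_lit 10), (nat_lit 0xc8148143205205), (nat_lit 10)⟩)
(.lf ⟨(nat_lit 0x530f), (nat_lit 3), (nat_lit 0x5905134175944cc3cc14c), (nat_lit 14)⟩)))))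
(.nd (.nd (.nd (.nd (.nd (.lf ⟨(nat_lit 0x103103), (nat_lit 4), (nat_lit 0xc40c4), (nat_lit 4)⟩)
(.lf ⟨(nat_lit 532), (nat_lit 2), (nat_lit 0x508), (nat_lit 2)⟩))
(.lf ⟨(nat_lit 11), (nat_lit 1), (nat_lit 0x1c31c3), (nat_lit 4)⟩))
(.nd (.lf ⟨(nat_lit 0x38b08e2c2), (nat_lit 6), (nat_lit 0x8e2c238b), (nat_lit 6)⟩)
(.lf ⟨(nat_lit 25), (nat_lit 1), (nat_lit 0x485485), (nat_lit 4)⟩)))
(.nd (.nd (.lf ⟨(nat_lit 0x1c13c704f), (nat_lit 6), (nat_lit 0x3c704f1c1), (nat_lit 6)⟩)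
(.lf ⟨(nat_lit 725), (nat_lit 2), (nat_lit 0x5523d23cb), (nat_lit 6)⟩))
(.nd (.lf ⟨(nat_lit 716), (nat_lit 2), (nat_lit 0x48e48e30b), (nat_lit 6)⟩)
(.lf ⟨(nat_lit 0x1a244244), (nat_lit 5), (nat_lit 0x38424e109), (nat_lit 6)⟩))))
(.nd (.nd (.nd (.lf ⟨(nat_lit 0x286286), (nat_lit 4), (nat_lit 0x18a18a), (nat_lit 4)⟩)
(.lf ⟨(nat_lit 0x2ca2ca), (nat_lit 4), (nat_lit 0x2ca2ca), (nat_lit 4)⟩))
(.nd (.lf ⟨(nat_lit 0x2461461c52461461c5), (nat_lit 12), (nat_lit 0x1c52461461c5246146), (nat_lit 12)⟩)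
(.lf ⟨(nat_lit 0x940c251), (nat_lit 5), (nat_lit 0x10450250309), (nat_lit 7)⟩)))
(.nd (.nd (.lf ⟨(nat_lit 0x1d2308), (nat_lit 4), (nat_lit 0xc207), (nat_lit 3)⟩)
(.lf ⟨(nat_lit 18), (nat_lit 1), (nat_lit 0x3881ce207), (nat_lit 6)⟩))
(.nd (.lf ⟨(nat_lit 0x31436436450d90d9), (nat_lit 11), (nat_lit 0x50d90d9143643643), (nat_lit 11)⟩)
(.lf ⟨(nat_lit 0x1c540f40c3cc2471503d030f309), (nat_lit 18), (nat_lit 0x1c540f40c3cc2471503d030f309), (nat_lit 18)⟩)))))))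
(.nd (.nd (.nd (.nd (.nd (.nd (.nd (.lf ⟨(nat_lit 26), (nat_lit 1), (nat_lit 0xd60d6), (nat_lit 4)⟩)
(.lf ⟨(nat_lit 0), (nat_lit 0), (nat_lit 0x21244e30b21244e30b), (nat_lit 12)⟩))
(.lf ⟨(nat_lit 145), (nat_lit 2), (nat_lit 0x55224425244c20e2cd10d3d33ce3cb55234810d41241240c102), (nat_lit 34)⟩))
(.nd (.lf ⟨(nat_lit 0x204048101), (nat_lit 6), (nat_lit 0x48101204), (nat_lit 6)⟩)
(.lf ⟨(nat_lit 0xda3891c91c368e247247), (nat_lit 14), (nat_lit 0xda3891c91c368e247247), (nat_lit 14)⟩)))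
(.nd (.nd (.lf ⟨(nat_lit 0x4840d2103), (nat_lit 6), (nat_lit 0xd2103484), (nat_lit 6)⟩)
(.lf ⟨(nat_lit 787), (nat_lit 2), (nat_lit 0x41339038c), (nat_lit 6)⟩))
(.nd (.lf ⟨(nat_lit 273), (nat_lit 2), (nat_lit 0x44e2c82cc20e1d120e48e2cc2d130838b20e48e2cc2d120e2cc1d1304), (nat_lit 38)⟩)
(.lf ⟨(nat_lit 0), (nat_lit 0), (nat_lit 0x96096), (nat_lit 4)⟩))))
(.nd (.nd (.nd (.lf ⟨(nat_lit 0x2c22c2), (nat_lit 4), (nat_lit 0x8b08b), (nat_lit 4)⟩)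
(.lf ⟨(nat_lit 0x34f2c7347), (nat_lit 6), (nat_lit 0x2870ca1c3), (nat_lit 6)⟩))
(.nd (.lf ⟨(nat_lit 87), (nat_lit 2), (nat_lit 0x5c1), (nat_lit 2)⟩)
(.lf ⟨(nat_lit 911), (nat_lit 2), (nat_lit 974), (nat_lit 2)⟩)))
(.nd (.nd (.lf ⟨(nat_lit 0x4432d10cb), (nat_lit 6), (nat_lit 0x2d10cb443), (nat_lit 6)⟩)
(.lf ⟨(nat_lit 394), (nat_lit 2), (nat_lit 0x69324a1c91c6), (nat_lit 8)⟩))
(.nd (.lf ⟨(nat_lit 0x59319a593), (nat_lit 6), (nat_lit 0x4c34c14c34c1), (nat_lit 8)⟩)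
(.lf ⟨(nat_lit 788), (nat_lit 2), (nat_lit 0x61151160c), (nat_lit 6)⟩)))))
(.nd (.nd (.nd (.nd (.nd (.lf ⟨(nat_lit 0xd60d6), (nat_lit 4), (nat_lit 0x583583), (nat_lit 4)⟩)
(.lf ⟨(nat_lit 0x4c94c9), (nat_lit 4), (nat_lit 0), (nat_lit 0)⟩))
(.lf ⟨(nat_lit 0x14a34f2ca1cd2c714a34f2ca1cd2c7), (nat_lit 20), (nat_lit 0x14a34f2ca1cd2c714a34f2ca1cd2c7), (nat_lit 20)⟩))
(.nd (.lf ⟨(nat_lit 0x2c71022c7102), (nat_lit 8), (nat_lit 0x1022c71022c7), (nat_lit 8)⟩)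
(.lf ⟨(nat_lit 145), (nat_lit 2), (nat_lit 0x55224425245340e40c3ce3cb34810d3cb35030810d102), (nat_lit 30)⟩)))
(.nd (.nd (.lf ⟨(nat_lit 0x501114044), (nat_lit 6), (nat_lit 0x114044501), (nat_lit 6)⟩)
(.lf ⟨(nat_lit 145), (nat_lit 2), (nat_lit 0x55224425244e30b34810d4ce3cb35030810d102), (nat_lit 26)⟩))
(.nd (.lf ⟨(nat_lit 0xa38a), (nat_lit 3), (nat_lit 0x28b28128b281), (nat_lit 8)⟩)
(.lf ⟨(nat_lit 0xda48a25238928369228948e24a), (nat_lit 18), (nat_lit 0xda48a25238928369228948e24a), (nat_lit 18)⟩))))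
(.nd (.nd (.nd (.lf ⟨(nat_lit 0x3c43c4), (nat_lit 4), (nat_lit 0x10f10f), (nat_lit 4)⟩)
(.lf ⟨(nat_lit 0x4974925d2), (nat_lit 6), (nat_lit 0), (nat_lit 0)⟩))
(.nd (.lf ⟨(nat_lit 0x6036180d8), (nat_lit 6), (nat_lit 0), (nat_lit 0)⟩)
(.lf ⟨(nat_lit 0x601601), (nat_lit 4), (nat_lit 0), (nat_lit 0)⟩)))
(.nd (.nd (.lf ⟨(nat_lit 90), (nat_lit 2), (nat_lit 0x19a58844c34c21130d306581), (nat_lit 16)⟩)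
(.lf ⟨(nat_lit 0x868c21a), (nat_lit 5), (nat_lit 0x21a048681), (nat_lit 6)⟩))
(.nd (.lf ⟨(nat_lit 914), (nat_lit 2), (nat_lit 0x48e), (nat_lit 2)⟩)
(.lf ⟨(nat_lit 594), (nat_lit 2), (nat_lit 0x48f30f309), (nat_lit 6)⟩))))))
(.nd (.nd (.nd (.nd (.nd (.nd (.lf ⟨(nat_lit 0x410), (nat_lit 2), (nat_lit 0), (nat_lit 0)⟩)
(.lf ⟨(nat_lit 0x3309309), (nat_lit 5), (nat_lit 0xc24c243), (nat_lit 5)⟩))
(.lf ⟨(nat_lit 0x4812121cd2522472121cd2522474812121cd2522472121cd252247), (nat_lit 36), (nat_lit 0x4812121cd2522472121cd2522474812121cd2522472121cd252247), (nat_lit 36)⟩))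
(.nd (.lf ⟨(nat_lit 0x1c4247109), (nat_lit 6), (nat_lit 0x2471091c4), (nat_lit 6)⟩)
(.lf ⟨(nat_lit 22), (nat_lit 1), (nat_lit 0x585387585387), (nat_lit 8)⟩)))
(.nd (.nd (.lf ⟨(nat_lit 0x724a), (nat_lit 3), (nat_lit 0x92891c9), (nat_lit 5)⟩)
(.lf ⟨(nat_lit 271), (nat_lit 2), (nat_lit 0x1548f484), (nat_lit 5)⟩))
(.nd (.lf ⟨(nat_lit 17), (nat_lit 1), (nat_lit 0x206206), (nat_lit 4)⟩)
(.lf ⟨(nat_lit 0x2c32911512852c3291151285), (nat_lit 16), (nat_lit 0x2c32911512852c3291151285), (nat_lit 16)⟩))))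
(.nd (.nd (.nd (.lf ⟨(nat_lit 0x410), (nat_lit 2), (nat_lit 0), (nat_lit 0)⟩)
(.lf ⟨(nat_lit 0x95c95c95c65c6), (nat_lit 9), (nat_lit 0x5c2197086), (nat_lit 6)⟩))
(.nd (.lf ⟨(nat_lit 0x98082602), (nat_lit 6), (nat_lit 0), (nat_lit 0)⟩)
(.lf ⟨(nat_lit 984), (nat_lit 2), (nat_lit 0x60f), (nat_lit 2)⟩)))
(.nd (.nd (.lf ⟨(nat_lit 0x6349), (nat_lit 3), (nat_lit 0x918d), (nat_lit 3)⟩)
(.lf ⟨(nat_lit 0x4c44c4), (nat_lit 4), (nat_lit 0), (nat_lit 0)⟩))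
(.nd (.lf ⟨(nat_lit 0x208648088648088219202219202), (nat_lit 18), (nat_lit 0x208648088648088219202219202), (nat_lit 18)⟩)
(.lf ⟨(nat_lit 0x9291), (nat_lit 3), (nat_lit 0x113d130f44c29128944f44c3d130a), (nat_lit 19)⟩)))))
(.nd (.nd (.nd (.nd (.nd (.lf ⟨(nat_lit 74), (nat_lit 2), (nat_lit 0x10710a1c414214a1c4287081), (nat_lit 16)⟩)
(.lf ⟨(nat_lit 0xc20c2), (nat_lit 4), (nat_lit 13), (nat_lit 1)⟩))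
(.lf ⟨(nat_lit 0x43cb287), (nat_lit 5), (nat_lit 0x2c710f2ca48b), (nat_lit 8)⟩))
(.nd (.lf ⟨(nat_lit 0x155155), (nat_lit 4), (nat_lit 0x545545), (nat_lit 4)⟩)
(.lf ⟨(nat_lit 0x4d7), (nat_lit 2), (nat_lit 0x5d3), (nat_lit 2)⟩)))
(.nd (.nd (.lf ⟨(nat_lit 0x5246349), (nat_lit 5), (nat_lit 0x624d18918d18518d), (nat_lit 11)⟩)
(.lf ⟨(nat_lit 537), (nat_lit 2), (nat_lit 0x319308), (nat_lit 4)⟩))
(.nd (.lf ⟨(nat_lit 402), (nat_lit 2), (nat_lit 0x486), (nat_lit 2)⟩)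
(.lf ⟨(nat_lit 0x48b), (nat_lit 2), (nat_lit 0x1c80c7203), (nat_lit 6)⟩))))
(.nd (.nd (.nd (.lf ⟨(nat_lit 0x10230408c), (nat_lit 6), (nat_lit 0x30408c102), (nat_lit 6)⟩)
(.lf ⟨(nat_lit 0xb352), (nat_lit 3), (nat_lit 0xd48d2cd), (nat_lit 5)⟩))
(.nd (.lf ⟨(nat_lit 90), (nat_lit 2), (nat_lit 0x19a181), (nat_lit 4)⟩)
(.lf ⟨(nat_lit 208), (nat_lit 2), (nat_lit 0x69655335224f2ca2c824a14815130f10d44c103), (nat_lit 26)⟩)))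
(.nd (.nd (.lf ⟨(nat_lit 529), (nat_lit 2), (nat_lit 0x30d44d308), (nat_lit 6)⟩)
(.lf ⟨(nat_lit 208), (nat_lit 2), (nat_lit 0x153522442524504ce40c3ce3cb34810d3d22c810d44c103), (nat_lit 31)⟩))
(.nd (.lf ⟨(nat_lit 0x12344344), (nat_lit 5), (nat_lit 0xd10d112), (nat_lit 5)⟩)
(.lf ⟨(nat_lit 0), (nat_lit 0), (nat_lit 0x410), (nat_lit 2)⟩)))))))))
(.nd (.nd (.nd (.nd (.nd (.nd (.nd (.nd (.nd (.lf ⟨(nat_lit 6), (nat_lit 1), (nat_lit 0x43043), (nat_lit 4)⟩)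
(.lf ⟨(nat_lit 21), (nat_lit 1), (nat_lit 0x108148144205205), (nat_lit 10)⟩))
(.lf ⟨(nat_lit 0x1d62da58b1c758b6962c7), (nat_lit 14), (nat_lit 0), (nat_lit 0)⟩))
(.nd (.lf ⟨(nat_lit 131), (nat_lit 2), (nat_lit 0xd0c2), (nat_lit 3)⟩)
(.lf ⟨(nat_lit 0x244244), (nat_lit 4), (nat_lit 0x4c4253109), (nat_lit 6)⟩)))
(.nd (.nd (.lf ⟨(nat_lit 89), (nat_lit 2), (nat_lit 0x559559559541), (nat_lit 8)⟩)
(.lf ⟨(nat_lit 725), (nat_lit 2), (nat_lit 0x3d548f48b), (nat_lit 6)⟩))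
(.nd (.lf ⟨(nat_lit 0), (nat_lit 0), (nat_lit 0x8d28d24a24234a349289), (nat_lit 14)⟩)
(.lf ⟨(nat_lit 0), (nat_lit 0), (nat_lit 0x14a14a), (nat_lit 4)⟩))))
(.nd (.nd (.nd (.lf ⟨(nat_lit 0x105105), (nat_lit 4), (nat_lit 0x144144), (nat_lit 4)⟩)
(.lf ⟨(nat_lit 0x20d1cd1c8347347), (nat_lit 10), (nat_lit 0x20d1cd1c8347347), (nat_lit 10)⟩))
(.nd (.lf ⟨(nat_lit 344), (nat_lit 2), (nat_lit 0x6075c75c5), (nat_lit 6)⟩)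
(.lf ⟨(nat_lit 0x455), (nat_lit 2), (nat_lit 0x551), (nat_lit 2)⟩)))
(.nd (.nd (.lf ⟨(nat_lit 274), (nat_lit 2), (nat_lit 0x484), (nat_lit 2)⟩)
(.lf ⟨(nat_lit 522), (nat_lit 2), (nat_lit 0x1548f48f288), (nat_lit 7)⟩))
(.nd (.lf ⟨(nat_lit 338), (nat_lit 2), (nat_lit 0x19485), (nat_lit 3)⟩)
(.lf ⟨(nat_lit 201), (nat_lit 2), (nat_lit 579), (nat_lit 2)⟩)))))
(.nd (.nd (.nd (.nd (.nd (.lf ⟨(nat_lit 0x4d3), (nat_lit 2), (nat_lit 0), (nat_lit 0)⟩)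
(.lf ⟨(nat_lit 0), (nat_lit 0), (nat_lit 0x5634e05634e), (nat_lit 8)⟩))
(.lf ⟨(nat_lit 0x434c), (nat_lit 3), (nat_lit 0x35234c10d), (nat_lit 6)⟩))
(.nd (.lf ⟨(nat_lit 0x4c2053081), (nat_lit 6), (nat_lit 0x530814c2), (nat_lit 6)⟩)
(.lf ⟨(nat_lit 985), (nat_lit 2), (nat_lit 0x65551550f), (nat_lit 6)⟩)))
(.nd (.nd (.lf ⟨(nat_lit 0x24a24a), (nat_lit 4), (nat_lit 0x289289), (nat_lit 4)⟩)
(.lf ⟨(nat_lit 474), (nat_lit 2), (nat_lit 0x687), (nat_lit 2)⟩))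
(.nd (.lf ⟨(nat_lit 0), (nat_lit 0), (nat_lit 0x181181), (nat_lit 4)⟩)
(.lf ⟨(nat_lit 0), (nat_lit 0), (nat_lit 0x4c30d30c3), (nat_lit 6)⟩))))
(.nd (.nd (.nd (.lf ⟨(nat_lit 0x402402), (nat_lit 4), (nat_lit 0x90090), (nat_lit 4)⟩)
(.lf ⟨(nat_lit 215), (nat_lit 2), (nat_lit 0x2d64ce50f38b2463d339750f58e5cf5933943ce2cd24544824544824655229228825535535229235229225548a48d2892091854481512091973d64ce50f38b35635625339750f58e5cf5933943ce3cb35339750f58e5cf5933943ce2c3), (nat_lit 124)⟩))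
(.nd (.lf ⟨(nat_lit 0x24b2492c9), (nat_lit 6), (nat_lit 0), (nat_lit 0)⟩)
(.lf ⟨(nat_lit 0x1093cb), (nat_lit 4), (nat_lit 0x1a55138c2523ce2c944c109), (nat_lit 15)⟩)))
(.nd (.nd (.lf ⟨(nat_lit 0x62c7), (nat_lit 3), (nat_lit 0x38b1c6), (nat_lit 4)⟩)
(.lf ⟨(nat_lit 0x1481575052055d4), (nat_lit 10), (nat_lit 0x5d4148157505205), (nat_lit 10)⟩))
(.nd (.lf ⟨(nat_lit 6), (nat_lit 1), (nat_lit 0x43043), (nat_lit 4)⟩)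
(.lf ⟨(nat_lit 405), (nat_lit 2), (nat_lit 0x54f44c3cc291286), (nat_lit 10)⟩))))))
(.nd (.nd (.nd (.nd (.nd (.nd (.lf ⟨(nat_lit 196), (nat_lit 2), (nat_lit 0x8103), (nat_lit 3)⟩)
(.lf ⟨(nat_lit 145), (nat_lit 2), (nat_lit 0x55345030f309109102), (nat_lit 12)⟩))
(.lf ⟨(nat_lit 0xb1da58b587), (nat_lit 7), (nat_lit 0xc75870c7587), (nat_lit 8)⟩))
(.nd (.lf ⟨(nat_lit 530), (nat_lit 2), (nat_lit 0x488), (nat_lit 2)⟩)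
(.lf ⟨(nat_lit 0x50f61455448f48f), (nat_lit 10), (nat_lit 0x61455448f48f50f), (nat_lit 10)⟩)))
(.nd (.nd (.lf ⟨(nat_lit 0x151151), (nat_lit 4), (nat_lit 0x445445), (nat_lit 4)⟩)
(.lf ⟨(nat_lit 0x7696259), (nat_lit 5), (nat_lit 0x1634e29334e2593494ce29634e1da589), (nat_lit 21)⟩))
(.nd (.lf ⟨(nat_lit 0x98098), (nat_lit 4), (nat_lit 0x602602), (nat_lit 4)⟩)
(.lf ⟨(nat_lit 0x5217), (nat_lit 3), (nat_lit 0x173cc50f31750c50f3085cc50f308148), (nat_lit 21)⟩))))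
(.nd (.nd (.nd (.lf ⟨(nat_lit 209), (nat_lit 2), (nat_lit 0x311311311303), (nat_lit 8)⟩)
(.lf ⟨(nat_lit 0), (nat_lit 0), (nat_lit 0x10a10a), (nat_lit 4)⟩))
(.nd (.lf ⟨(nat_lit 0x4448), (nat_lit 3), (nat_lit 0x8111), (nat_lit 3)⟩)
(.lf ⟨(nat_lit 724), (nat_lit 2), (nat_lit 0x50b), (nat_lit 2)⟩)))
(.nd (.nd (.lf ⟨(nat_lit 0x3013cc04f), (nat_lit 6), (nat_lit 0x3cc04f301), (nat_lit 6)⟩)
(.lf ⟨(nat_lit 0x48c50f48c50f), (nat_lit 8), (nat_lit 0x50f48c50f48c), (nat_lit 8)⟩))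
(.nd (.lf ⟨(nat_lit 10), (nat_lit 1), (nat_lit 0x144144), (nat_lit 4)⟩)
(.lf ⟨(nat_lit 405), (nat_lit 2), (nat_lit 0x1955130f29130f286), (nat_lit 11)⟩)))))
(.nd (.nd (.nd (.nd (.nd (.lf ⟨(nat_lit 0x101101), (nat_lit 4), (nat_lit 0x44044), (nat_lit 4)⟩)
(.lf ⟨(nat_lit 0x287151), (nat_lit 4), (nat_lit 0x44a1c5), (nat_lit 4)⟩))
(.lf ⟨(nat_lit 0x1ca34a), (nat_lit 4), (nat_lit 0x34734728d287), (nat_lit 8)⟩))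
(.nd (.lf ⟨(nat_lit 0x3cb3cb), (nat_lit 4), (nat_lit 0), (nat_lit 0)⟩)
(.lf ⟨(nat_lit 0x1269549a), (nat_lit 5), (nat_lit 0x49a092682), (nat_lit 6)⟩)))
(.nd (.nd (.lf ⟨(nat_lit 0x24230908c), (nat_lit 6), (nat_lit 0x30908c242), (nat_lit 6)⟩)
(.lf ⟨(nat_lit 0xb352), (nat_lit 3), (nat_lit 0x122cd), (nat_lit 3)⟩))
(.nd (.lf ⟨(nat_lit 0xe491), (nat_lit 3), (nat_lit 0x11491491392), (nat_lit 7)⟩)
(.lf ⟨(nat_lit 0xc20d), (nat_lit 3), (nat_lit 0x1141141030940c25115114d308), (nat_lit 17)⟩))))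
(.nd (.nd (.nd (.lf ⟨(nat_lit 0x305305), (nat_lit 4), (nat_lit 0x14c14c), (nat_lit 4)⟩)
(.lf ⟨(nat_lit 0x497557552497657652), (nat_lit 12), (nat_lit 0x497657652497557552), (nat_lit 12)⟩))
(.nd (.lf ⟨(nat_lit 0x392392), (nat_lit 4), (nat_lit 0x48e48e), (nat_lit 4)⟩)
(.lf ⟨(nat_lit 0xc3d0), (nat_lit 3), (nat_lit 0x103d03d030f), (nat_lit 7)⟩)))
(.nd (.nd (.lf ⟨(nat_lit 150), (nat_lit 2), (nat_lit 0x1564c54c2), (nat_lit 6)⟩)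
(.lf ⟨(nat_lit 0x1338f395), (nat_lit 5), (nat_lit 0x154ce3ce), (nat_lit 5)⟩))
(.nd (.lf ⟨(nat_lit 0xd90d90d90d9), (nat_lit 8), (nat_lit 0), (nat_lit 0)⟩)
(.lf ⟨(nat_lit 208), (nat_lit 2), (nat_lit 0x6996175933523c920914815130f10d44c103), (nat_lit 24)⟩)))))))
(.nd (.nd (.nd (.nd (.nd (.nd (.nd (.lf ⟨(nat_lit 22), (nat_lit 1), (nat_lit 0x53053), (nat_lit 4)⟩)
(.lf ⟨(nat_lit 0x24424e189109386), (nat_lit 10), (nat_lit 0x38624424e189109), (nat_lit 10)⟩))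
(.lf ⟨(nat_lit 528), (nat_lit 2), (nat_lit 0x408), (nat_lit 2)⟩))
(.nd (.lf ⟨(nat_lit 197), (nat_lit 2), (nat_lit 0x9185183), (nat_lit 5)⟩)
(.lf ⟨(nat_lit 0x1412c504b), (nat_lit 6), (nat_lit 0x1412c504b), (nat_lit 6)⟩)))
(.nd (.nd (.lf ⟨(nat_lit 0xd50d5), (nat_lit 4), (nat_lit 0x543543), (nat_lit 4)⟩)
(.lf ⟨(nat_lit 0x9552292), (nat_lit 5), (nat_lit 0xd55229234a24a), (nat_lit 9)⟩))
(.nd (.lf ⟨(nat_lit 402), (nat_lit 2), (nat_lit 0x44839238b30b44c206), (nat_lit 12)⟩)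
(.lf ⟨(nat_lit 5), (nat_lit 1), (nat_lit 0x641099042), (nat_lit 6)⟩))))
(.nd (.nd (.nd (.lf ⟨(nat_lit 0x189189), (nat_lit 4), (nat_lit 0x246246), (nat_lit 4)⟩)
(.lf ⟨(nat_lit 215), (nat_lit 2), (nat_lit 0x2d64ce50f38b2463d339750f58e5cf5933943ce2c91512091512061482461512091973d64ce50f38b34958d59339750f58e5cf5933943ce3cb35339750f58e5cf5933943ce2c3), (nat_lit 94)⟩))
(.nd (.lf ⟨(nat_lit 0x2d130e), (nat_lit 4), (nat_lit 0x30e30b44c), (nat_lit 6)⟩)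
(.lf ⟨(nat_lit 0x498), (nat_lit 2), (nat_lit 0x612), (nat_lit 2)⟩)))
(.nd (.nd (.lf ⟨(nat_lit 0x3c228f08a), (nat_lit 6), (nat_lit 0x28f08a3c2), (nat_lit 6)⟩)
(.lf ⟨(nat_lit 403), (nat_lit 2), (nat_lit 0x1a4c6), (nat_lit 3)⟩))
(.nd (.lf ⟨(nat_lit 0x347347), (nat_lit 4), (nat_lit 0x1cd1cd), (nat_lit 4)⟩)
(.lf ⟨(nat_lit 0x66123ca), (nat_lit 5), (nat_lit 0x6123ca45830f31430b24f2c9306611), (nat_lit 20)⟩)))))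
(.nd (.nd (.nd (.nd (.nd (.lf ⟨(nat_lit 276), (nat_lit 2), (nat_lit 0x18504), (nat_lit 3)⟩)
(.lf ⟨(nat_lit 145), (nat_lit 2), (nat_lit 0x449209202), (nat_lit 6)⟩))
(.lf ⟨(nat_lit 18), (nat_lit 1), (nat_lit 0x191d91d2), (nat_lit 5)⟩))
(.nd (.lf ⟨(nat_lit 0x1c43c710f), (nat_lit 6), (nat_lit 0x3c710f1c4), (nat_lit 6)⟩)
(.lf ⟨(nat_lit 0x41340e40e41340e40e), (nat_lit 12), (nat_lit 0), (nat_lit 0)⟩)))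
(.nd (.nd (.lf ⟨(nat_lit 0x501094042), (nat_lit 6), (nat_lit 0x94042501), (nat_lit 6)⟩)
(.lf ⟨(nat_lit 0x252252), (nat_lit 4), (nat_lit 0x489489), (nat_lit 4)⟩))
(.nd (.lf ⟨(nat_lit 9), (nat_lit 1), (nat_lit 0x182182), (nat_lit 4)⟩)
(.lf ⟨(nat_lit 202), (nat_lit 2), (nat_lit 0x1869958f283), (nat_lit 7)⟩))))
(.nd (.nd (.nd (.lf ⟨(nat_lit 0x242242), (nat_lit 4), (nat_lit 0), (nat_lit 0)⟩)
(.lf ⟨(nat_lit 0x35604d2cd2d604d2cd2cd58134b34b58134b34b), (nat_lit 26), (nat_lit 0x35604d2cd2d604d2cd2cd58134b34b58134b34b), (nat_lit 26)⟩))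
(.nd (.lf ⟨(nat_lit 0x251251), (nat_lit 4), (nat_lit 0x449449), (nat_lit 4)⟩)
(.lf ⟨(nat_lit 0x4349), (nat_lit 3), (nat_lit 0x163cb34a2c824a148144), (nat_lit 13)⟩)))
(.nd (.nd (.lf ⟨(nat_lit 0x559), (nat_lit 2), (nat_lit 0x655), (nat_lit 2)⟩)
(.lf ⟨(nat_lit 0x384384), (nat_lit 4), (nat_lit 0), (nat_lit 0)⟩))
(.nd (.lf ⟨(nat_lit 0x9220b2054882c81424882c815220b205), (nat_lit 22), (nat_lit 0x9220b2054882c81424882c815220b205), (nat_lit 22)⟩)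
(.lf ⟨(nat_lit 399), (nat_lit 2), (nat_lit 966), (nat_lit 2)⟩))))))
(.nd (.nd (.nd (.nd (.nd (.nd (.lf ⟨(nat_lit 0x8b08b), (nat_lit 4), (nat_lit 0x2c22c2), (nat_lit 4)⟩)
(.lf ⟨(nat_lit 0x309309), (nat_lit 4), (nat_lit 0x30d24c349), (nat_lit 6)⟩))
(.lf ⟨(nat_lit 0x121cd252247), (nat_lit 7), (nat_lit 0x4811c91d2047247), (nat_lit 10)⟩))
(.nd (.lf ⟨(nat_lit 0x1cd3cb), (nat_lit 4), (nat_lit 0x28b28f2cd2ca34a3cb34b28f2cd2ca1cd), (nat_lit 22)⟩)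
(.lf ⟨(nat_lit 0x515515), (nat_lit 4), (nat_lit 0x554554), (nat_lit 4)⟩)))
(.nd (.nd (.lf ⟨(nat_lit 0x1d21d2), (nat_lit 4), (nat_lit 0x487487), (nat_lit 4)⟩)
(.lf ⟨(nat_lit 662), (nat_lit 2), (nat_lit 0x58a), (nat_lit 2)⟩))
(.nd (.lf ⟨(nat_lit 402), (nat_lit 2), (nat_lit 0x448392452392206), (nat_lit 10)⟩)
(.lf ⟨(nat_lit 279), (nat_lit 2), (nat_lit 0x5c4), (nat_lit 2)⟩))))
(.nd (.nd (.nd (.lf ⟨(nat_lit 0x2ce2ce), (nat_lit 4), (nat_lit 0x38b38b), (nat_lit 4)⟩)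
(.lf ⟨(nat_lit 0x5206), (nat_lit 3), (nat_lit 0x955229228825548a48d289209185448), (nat_lit 21)⟩))
(.nd (.lf ⟨(nat_lit 0x607607), (nat_lit 4), (nat_lit 0), (nat_lit 0)⟩)
(.lf ⟨(nat_lit 405), (nat_lit 2), (nat_lit 0x552252246), (nat_lit 6)⟩)))
(.nd (.nd (.lf ⟨(nat_lit 69), (nat_lit 2), (nat_lit 0x14634624634918518d18918d246141), (nat_lit 20)⟩)
(.lf ⟨(nat_lit 0x3d9497), (nat_lit 4), (nat_lit 0x5d93d2), (nat_lit 4)⟩))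
(.nd (.lf ⟨(nat_lit 0x648648), (nat_lit 4), (nat_lit 0x208648208648), (nat_lit 8)⟩)
(.lf ⟨(nat_lit 856), (nat_lit 2), (nat_lit 0x60d), (nat_lit 2)⟩)))))
(.nd (.nd (.nd (.nd (.nd (.lf ⟨(nat_lit 0x201201), (nat_lit 4), (nat_lit 0x48048), (nat_lit 4)⟩)
(.lf ⟨(nat_lit 215), (nat_lit 2), (nat_lit 0x5c3), (nat_lit 2)⟩))
(.lf ⟨(nat_lit 523), (nat_lit 2), (nat_lit 712), (nat_lit 2)⟩))
(.nd (.lf ⟨(nat_lit 0x5c25c2), (nat_lit 4), (nat_lit 0), (nat_lit 0)⟩)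
(.lf ⟨(nat_lit 0x24f2cd), (nat_lit 4), (nat_lit 0x2cd2c93cb), (nat_lit 6)⟩)))
(.nd (.nd (.lf ⟨(nat_lit 131), (nat_lit 2), (nat_lit 0x83480c2), (nat_lit 5)⟩)
(.lf ⟨(nat_lit 0x944e), (nat_lit 3), (nat_lit 0x68e251), (nat_lit 4)⟩))
(.nd (.lf ⟨(nat_lit 0), (nat_lit 0), (nat_lit 130), (nat_lit 2)⟩)
(.lf ⟨(nat_lit 0x24825834960825834960920960d25820960d258), (nat_lit 26), (nat_lit 0x24825834960825834960920960d25820960d258), (nat_lit 26)⟩))))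
(.nd (.nd (.nd (.lf ⟨(nat_lit 0x288288), (nat_lit 4), (nat_lit 0x20a20a), (nat_lit 4)⟩)
(.lf ⟨(nat_lit 979), (nat_lit 2), (nat_lit 0x4cf), (nat_lit 2)⟩))
(.nd (.lf ⟨(nat_lit 0x38d38d), (nat_lit 4), (nat_lit 0x34e34e), (nat_lit 4)⟩)
(.lf ⟨(nat_lit 0x4246), (nat_lit 3), (nat_lit 0x25238918425130b), (nat_lit 10)⟩)))
(.nd (.nd (.lf ⟨(nat_lit 205), (nat_lit 2), (nat_lit 835), (nat_lit 2)⟩)
(.lf ⟨(nat_lit 0x413413), (nat_lit 4), (nat_lit 0x4d04d0), (nat_lit 4)⟩))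
(.nd (.lf ⟨(nat_lit 658), (nat_lit 2), (nat_lit 0x54754748a), (nat_lit 6)⟩)
(.lf ⟨(nat_lit 0x17505), (nat_lit 3), (nat_lit 0x4f0813c2), (nat_lit 6)⟩))))))))
(.nd (.nd (.nd (.nd (.nd (.nd (.nd (.nd (.lf ⟨(nat_lit 15), (nat_lit 1), (nat_lit 0x8b08b), (nat_lit 4)⟩)
(.lf ⟨(nat_lit 0x305445305445), (nat_lit 8), (nat_lit 0x44c44544544c445445), (nat_lit 12)⟩))
(.lf ⟨(nat_lit 0x248248), (nat_lit 4), (nat_lit 0x209209), (nat_lit 4)⟩))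
(.nd (.lf ⟨(nat_lit 74), (nat_lit 2), (nat_lit 641), (nat_lit 2)⟩)
(.lf ⟨(nat_lit 601), (nat_lit 2), (nat_lit 0x649), (nat_lit 2)⟩)))
(.nd (.nd (.lf ⟨(nat_lit 0x502502), (nat_lit 4), (nat_lit 0x94094), (nat_lit 4)⟩)
(.lf ⟨(nat_lit 0x199349), (nat_lit 4), (nat_lit 0x259349649199), (nat_lit 8)⟩))
(.nd (.lf ⟨(nat_lit 17), (nat_lit 1), (nat_lit 0x188188), (nat_lit 4)⟩)
(.lf ⟨(nat_lit 599), (nat_lit 2), (nat_lit 0x5c9), (nat_lit 2)⟩))))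
(.nd (.nd (.nd (.lf ⟨(nat_lit 78), (nat_lit 2), (nat_lit 0x2ce2ce2ce2c1), (nat_lit 8)⟩)
(.lf ⟨(nat_lit 326), (nat_lit 2), (nat_lit 0xd185), (nat_lit 3)⟩))
(.nd (.lf ⟨(nat_lit 0x1cd24e), (nat_lit 4), (nat_lit 0x24e247349), (nat_lit 6)⟩)
(.lf ⟨(nat_lit 0x493), (nat_lit 2), (nat_lit 0x4d2), (nat_lit 2)⟩)))
(.nd (.nd (.lf ⟨(nat_lit 0x5011d4047), (nat_lit 6), (nat_lit 0x1d4047501), (nat_lit 6)⟩)
(.lf ⟨(nat_lit 0x359359), (nat_lit 4), (nat_lit 0x64d64d), (nat_lit 4)⟩))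
(.nd (.lf ⟨(nat_lit 0x482116496484084592592112084592592102116496484), (nat_lit 30), (nat_lit 0x482116496484084592592112084592592102116496484), (nat_lit 30)⟩)
(.lf ⟨(nat_lit 0x93ce24f), (nat_lit 5), (nat_lit 0xf24f389), (nat_lit 5)⟩)))))
(.nd (.nd (.nd (.nd (.nd (.lf ⟨(nat_lit 0x53053), (nat_lit 4), (nat_lit 0x4c14c1), (nat_lit 4)⟩)
(.lf ⟨(nat_lit 202), (nat_lit 2), (nat_lit 0x65858f283), (nat_lit 6)⟩))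
(.lf ⟨(nat_lit 0), (nat_lit 0), (nat_lit 0x11548a48a11548a48a), (nat_lit 12)⟩))
(.nd (.lf ⟨(nat_lit 0x3c214f085), (nat_lit 6), (nat_lit 0x14f0853c2), (nat_lit 6)⟩)
(.lf ⟨(nat_lit 0x151206), (nat_lit 4), (nat_lit 0x54d48f2c94893cb35954d64948f2c94893cb246148), (nat_lit 28)⟩)))
(.nd (.nd (.lf ⟨(nat_lit 0x28c28c), (nat_lit 4), (nat_lit 0x30a30a), (nat_lit 4)⟩)
(.lf ⟨(nat_lit 272), (nat_lit 2), (nat_lit 0x15404), (nat_lit 3)⟩))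
(.nd (.lf ⟨(nat_lit 0x31a19a306), (nat_lit 6), (nat_lit 0x31a30131a301), (nat_lit 8)⟩)
(.lf ⟨(nat_lit 0x36564894890d83c3), (nat_lit 11), (nat_lit 0x1959225224360f0c3), (nat_lit 11)⟩))))
(.nd (.nd (.nd (.lf ⟨(nat_lit 0x30108c042), (nat_lit 6), (nat_lit 0x8c042301), (nat_lit 6)⟩)
(.lf ⟨(nat_lit 0xa493395), (nat_lit 5), (nat_lit 0x124ce55238a48e), (nat_lit 9)⟩))
(.nd (.lf ⟨(nat_lit 0x20e208388), (nat_lit 6), (nat_lit 0), (nat_lit 0)⟩)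
(.lf ⟨(nat_lit 282), (nat_lit 2), (nat_lit 0x684), (nat_lit 2)⟩)))
(.nd (.nd (.lf ⟨(nat_lit 0x54ce3cb), (nat_lit 5), (nat_lit 0x143ce2c5), (nat_lit 5)⟩)
(.lf ⟨(nat_lit 217), (nat_lit 2), (nat_lit 0x64d64d489652243), (nat_lit 10)⟩))
(.nd (.lf ⟨(nat_lit 145), (nat_lit 2), (nat_lit 0x55224425244c20e2cd2043483d33ce3cb34810d55241241240c102), (nat_lit 36)⟩)
(.lf ⟨(nat_lit 0x34915238d24548e), (nat_lit 10), (nat_lit 0x48e34915238d245), (nat_lit 10)⟩))))))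
(.nd (.nd (.nd (.nd (.nd (.nd (.lf ⟨(nat_lit 715), (nat_lit 2), (nat_lit 0), (nat_lit 0)⟩)
(.lf ⟨(nat_lit 0x544c151), (nat_lit 5), (nat_lit 0x11151305), (nat_lit 5)⟩))
(.lf ⟨(nat_lit 0x18e24e5ce34939718e24e5ce349397), (nat_lit 20), (nat_lit 0x18e24e5ce34939718e24e5ce349397), (nat_lit 20)⟩))
(.nd (.lf ⟨(nat_lit 463), (nat_lit 2), (nat_lit 0x3cb28b287), (nat_lit 6)⟩)
(.lf ⟨(nat_lit 0x3d93d9), (nat_lit 4), (nat_lit 0x3d93d9), (nat_lit 4)⟩)))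
(.nd (.nd (.lf ⟨(nat_lit 0x190190), (nat_lit 4), (nat_lit 0x406406), (nat_lit 4)⟩)
(.lf ⟨(nat_lit 0x209552), (nat_lit 4), (nat_lit 0x449552251209), (nat_lit 8)⟩))
(.nd (.lf ⟨(nat_lit 0x1091c91c4247247), (nat_lit 10), (nat_lit 0x1091c91c4247247), (nat_lit 10)⟩)
(.lf ⟨(nat_lit 0x6617), (nat_lit 3), (nat_lit 0x17198), (nat_lit 3)⟩))))
(.nd (.nd (.nd (.lf ⟨(nat_lit 0x185185), (nat_lit 4), (nat_lit 0x146146), (nat_lit 4)⟩)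
(.lf ⟨(nat_lit 6), (nat_lit 1), (nat_lit 0xc10c1), (nat_lit 4)⟩))
(.nd (.lf ⟨(nat_lit 0x8251), (nat_lit 3), (nat_lit 0x9449209), (nat_lit 5)⟩)
(.lf ⟨(nat_lit 407), (nat_lit 2), (nat_lit 0x25434f2c95d42cd2c93cb246), (nat_lit 16)⟩)))
(.nd (.nd (.lf ⟨(nat_lit 0x4841c14841c1), (nat_lit 8), (nat_lit 0x1c14841c1484), (nat_lit 8)⟩)
(.lf ⟨(nat_lit 0x543543), (nat_lit 4), (nat_lit 0), (nat_lit 0)⟩))
(.nd (.lf ⟨(nat_lit 0x83ca2cd), (nat_lit 5), (nat_lit 0x122cd28f28d3cb28f2cd2ca48828b), (nat_lit 19)⟩)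
(.lf ⟨(nat_lit 0x30f30f), (nat_lit 4), (nat_lit 0x3cc3cc), (nat_lit 4)⟩)))))
(.nd (.nd (.nd (.nd (.nd (.lf ⟨(nat_lit 0x85085), (nat_lit 4), (nat_lit 0x142142), (nat_lit 4)⟩)
(.lf ⟨(nat_lit 720), (nat_lit 2), (nat_lit 0x40b), (nat_lit 2)⟩))
(.lf ⟨(nat_lit 0xcd1cd1c3347347), (nat_lit 10), (nat_lit 0xcd1cd1c3347347), (nat_lit 10)⟩))
(.nd (.lf ⟨(nat_lit 0x48c092302), (nat_lit 6), (nat_lit 0x9230248c), (nat_lit 6)⟩)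
(.lf ⟨(nat_lit 0x12695), (nat_lit 3), (nat_lit 0x1a55a49a), (nat_lit 5)⟩)))
(.nd (.nd (.lf ⟨(nat_lit 0x181486052), (nat_lit 6), (nat_lit 0x486052181), (nat_lit 6)⟩)
(.lf ⟨(nat_lit 0x259259), (nat_lit 4), (nat_lit 0x359359359349649), (nat_lit 10)⟩))
(.nd (.lf ⟨(nat_lit 0xa34f2ca1cd2c7), (nat_lit 9), (nat_lit 0x283283), (nat_lit 4)⟩)
(.lf ⟨(nat_lit 0x49138c2da244244), (nat_lit 10), (nat_lit 0x68910911244e30b), (nat_lit 10)⟩))))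
(.nd (.nd (.nd (.lf ⟨(nat_lit 0x247247), (nat_lit 4), (nat_lit 0x1c91c9), (nat_lit 4)⟩)
(.lf ⟨(nat_lit 709), (nat_lit 2), (nat_lit 0x2d73d64ce50f38b14b), (nat_lit 12)⟩))
(.nd (.lf ⟨(nat_lit 0x542481542481), (nat_lit 8), (nat_lit 0x481542481542), (nat_lit 8)⟩)
(.lf ⟨(nat_lit 0x44f4513d1), (nat_lit 6), (nat_lit 0), (nat_lit 0)⟩)))
(.nd (.nd (.lf ⟨(nat_lit 270), (nat_lit 2), (nat_lit 0x73061ce2cc20718730838b1c61cc20e2c738b1c6204), (nat_lit 29)⟩)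
(.lf ⟨(nat_lit 0x1ce20a38828738828e20a), (nat_lit 14), (nat_lit 0x1ce20a38828738828e20a), (nat_lit 14)⟩))
(.nd (.lf ⟨(nat_lit 13), (nat_lit 1), (nat_lit 0xc20c2), (nat_lit 4)⟩)
(.lf ⟨(nat_lit 26), (nat_lit 1), (nat_lit 0x6864da193), (nat_lit 6)⟩)))))))
(.nd (.nd (.nd (.nd (.nd (.nd (.nd (.lf ⟨(nat_lit 0x43043), (nat_lit 4), (nat_lit 0xc10c1), (nat_lit 4)⟩)
(.lf ⟨(nat_lit 0x55340c3cc244244), (nat_lit 10), (nat_lit 0x91091), (nat_lit 4)⟩))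
(.lf ⟨(nat_lit 0xd120e2c838b0d120e2c838b), (nat_lit 16), (nat_lit 0xd120e2c838b0d120e2c838b), (nat_lit 16)⟩))
(.nd (.lf ⟨(nat_lit 0x142142), (nat_lit 4), (nat_lit 0), (nat_lit 0)⟩)
(.lf ⟨(nat_lit 23), (nat_lit 1), (nat_lit 0x943c250f), (nat_lit 6)⟩)))
(.nd (.nd (.lf ⟨(nat_lit 198), (nat_lit 2), (nat_lit 0x20c44834c44834834c20d308183), (nat_lit 18)⟩)
(.lf ⟨(nat_lit 0x965548d), (nat_lit 5), (nat_lit 0xd54d48d489652), (nat_lit 9)⟩))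
(.nd (.lf ⟨(nat_lit 0x602602), (nat_lit 4), (nat_lit 0x82602082602), (nat_lit 8)⟩)
(.lf ⟨(nat_lit 0), (nat_lit 0), (nat_lit 0x244249109), (nat_lit 6)⟩))))
(.nd (.nd (.nd (.lf ⟨(nat_lit 0x181181), (nat_lit 4), (nat_lit 0), (nat_lit 0)⟩)
(.lf ⟨(nat_lit 0x28714134f2c734714134f2c734728714134f2c734714134f2c7347), (nat_lit 36), (nat_lit 0x28714134f2c734714134f2c734728714134f2c734714134f2c7347), (nat_lit 36)⟩))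
(.nd (.lf ⟨(nat_lit 153), (nat_lit 2), (nat_lit 0x655155142), (nat_lit 6)⟩)
(.lf ⟨(nat_lit 0x453), (nat_lit 2), (nat_lit 0x4d1), (nat_lit 2)⟩)))
(.nd (.nd (.lf ⟨(nat_lit 0x3c230f08c), (nat_lit 6), (nat_lit 0x30f08c3c2), (nat_lit 6)⟩)
(.lf ⟨(nat_lit 0x434e), (nat_lit 3), (nat_lit 0xd21334e21310d), (nat_lit 9)⟩))
(.nd (.lf ⟨(nat_lit 0x4c34cc4c34cc), (nat_lit 8), (nat_lit 0x4c34cc4c34cc), (nat_lit 8)⟩)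
(.lf ⟨(nat_lit 0x458), (nat_lit 2), (nat_lit 0x611), (nat_lit 2)⟩)))))
(.nd (.nd (.nd (.nd (.nd (.lf ⟨(nat_lit 65), (nat_lit 2), (nat_lit 0), (nat_lit 0)⟩)
(.lf ⟨(nat_lit 0x2032871480ca1c5), (nat_lit 10), (nat_lit 0x2032871480ca1c5), (nat_lit 10)⟩))
(.lf ⟨(nat_lit 0xd548a48a), (nat_lit 6), (nat_lit 0x552292283), (nat_lit 6)⟩))
(.nd (.lf ⟨(nat_lit 0x301183301183), (nat_lit 8), (nat_lit 0x183301183301), (nat_lit 8)⟩)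
(.lf ⟨(nat_lit 7), (nat_lit 1), (nat_lit 0x4e101384), (nat_lit 6)⟩)))
(.nd (.nd (.lf ⟨(nat_lit 0x38120e048), (nat_lit 6), (nat_lit 0x20e048381), (nat_lit 6)⟩)
(.lf ⟨(nat_lit 0x5209), (nat_lit 3), (nat_lit 0xd25548f48f20954d48f48f209148), (nat_lit 19)⟩))
(.nd (.lf ⟨(nat_lit 0x28b58b58a), (nat_lit 6), (nat_lit 0x28b28a58a28b28a58a), (nat_lit 12)⟩)
(.lf ⟨(nat_lit 0x948e24a), (nat_lit 5), (nat_lit 0xa252389), (nat_lit 5)⟩))))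
(.nd (.nd (.nd (.lf ⟨(nat_lit 0x444444), (nat_lit 4), (nat_lit 0x111111), (nat_lit 4)⟩)
(.lf ⟨(nat_lit 0x525d55d5481497557552), (nat_lit 14), (nat_lit 0x525d55d5481497557552), (nat_lit 14)⟩))
(.nd (.lf ⟨(nat_lit 0x448448), (nat_lit 4), (nat_lit 0), (nat_lit 0)⟩)
(.lf ⟨(nat_lit 0x31830c60c), (nat_lit 6), (nat_lit 0), (nat_lit 0)⟩)))
(.nd (.nd (.lf ⟨(nat_lit 197), (nat_lit 2), (nat_lit 0x6149183), (nat_lit 5)⟩)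
(.lf ⟨(nat_lit 0), (nat_lit 0), (nat_lit 0x681681), (nat_lit 4)⟩))
(.nd (.lf ⟨(nat_lit 6), (nat_lit 1), (nat_lit 0xd2043481), (nat_lit 6)⟩)
(.lf ⟨(nat_lit 23), (nat_lit 1), (nat_lit 0x9a51328928909a513289289), (nat_lit 16)⟩))))))
(.nd (.nd (.nd (.nd (.nd (.nd (.lf ⟨(nat_lit 204), (nat_lit 2), (nat_lit 0x11303), (nat_lit 3)⟩)
(.lf ⟨(nat_lit 0x11349), (nat_lit 3), (nat_lit 0xd251), (nat_lit 3)⟩))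
(.lf ⟨(nat_lit 0x948d252), (nat_lit 5), (nat_lit 0x12349489), (nat_lit 5)⟩))
(.nd (.lf ⟨(nat_lit 0x203181203181), (nat_lit 8), (nat_lit 0x181203181203), (nat_lit 8)⟩)
(.lf ⟨(nat_lit 0x585216216585216216), (nat_lit 12), (nat_lit 0x585216216585216216), (nat_lit 12)⟩)))
(.nd (.nd (.lf ⟨(nat_lit 0x210210), (nat_lit 4), (nat_lit 0x408408), (nat_lit 4)⟩)
(.lf ⟨(nat_lit 0x7696), (nat_lit 3), (nat_lit 0x175164d75132da2c7), (nat_lit 11)⟩))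
(.nd (.lf ⟨(nat_lit 0x205445205445), (nat_lit 8), (nat_lit 0x211151148445445), (nat_lit 10)⟩)
(.lf ⟨(nat_lit 0x14a44a2c314b0c529128b0c52c314529128b0c52c314a44a2c314b0c5), (nat_lit 38), (nat_lit 0x14a44a2c314b0c529128b0c52c314529128b0c52c314a44a2c314b0c5), (nat_lit 38)⟩))))
(.nd (.nd (.nd (.lf ⟨(nat_lit 845), (nat_lit 2), (nat_lit 0), (nat_lit 0)⟩)
(.lf ⟨(nat_lit 0x5c95c9), (nat_lit 4), (nat_lit 0x5c2257089), (nat_lit 6)⟩))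
(.nd (.lf ⟨(nat_lit 0x30a10c284), (nat_lit 6), (nat_lit 0x28430a10c), (nat_lit 6)⟩)
(.lf ⟨(nat_lit 0x497), (nat_lit 2), (nat_lit 0x5d2), (nat_lit 2)⟩)))
(.nd (.nd (.lf ⟨(nat_lit 459), (nat_lit 2), (nat_lit 711), (nat_lit 2)⟩)
(.lf ⟨(nat_lit 0x494), (nat_lit 2), (nat_lit 0x512), (nat_lit 2)⟩))
(.nd (.lf ⟨(nat_lit 0x648648648648), (nat_lit 8), (nat_lit 0), (nat_lit 0)⟩)
(.lf ⟨(nat_lit 791), (nat_lit 2), (nat_lit 0x5cc), (nat_lit 2)⟩)))))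
(.nd (.nd (.nd (.nd (.nd (.lf ⟨(nat_lit 138), (nat_lit 2), (nat_lit 0x1ca1ca1ca1c2), (nat_lit 8)⟩)
(.lf ⟨(nat_lit 0x6585d650d3c91856585d650d3c9185), (nat_lit 20), (nat_lit 0x5cd), (nat_lit 2)⟩))
(.lf ⟨(nat_lit 262), (nat_lit 2), (nat_lit 0x1244e30b184), (nat_lit 7)⟩))
(.nd (.lf ⟨(nat_lit 0x6593193), (nat_lit 5), (nat_lit 0x131964c6), (nat_lit 5)⟩)
(.lf ⟨(nat_lit 404), (nat_lit 2), (nat_lit 0x38b34950f38f2cd2c92c6), (nat_lit 14)⟩)))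
(.nd (.nd (.lf ⟨(nat_lit 138), (nat_lit 2), (nat_lit 642), (nat_lit 2)⟩)
(.lf ⟨(nat_lit 851), (nat_lit 2), (nat_lit 0x4cd), (nat_lit 2)⟩))
(.nd (.lf ⟨(nat_lit 0), (nat_lit 0), (nat_lit 0x52052), (nat_lit 4)⟩)
(.lf ⟨(nat_lit 0x1cd185448151209187346151205448246), (nat_lit 22), (nat_lit 0x1cd185448151209187346151205448246), (nat_lit 22)⟩))))
(.nd (.nd (.nd (.lf ⟨(nat_lit 0x4d3), (nat_lit 2), (nat_lit 0), (nat_lit 0)⟩)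
(.lf ⟨(nat_lit 0x4349), (nat_lit 3), (nat_lit 0x3523cb3552922c824f2cd28b5522923cb34a2c7347148144), (nat_lit 32)⟩))
(.nd (.lf ⟨(nat_lit 270), (nat_lit 2), (nat_lit 0xe3071922cc20648c20b1d1304), (nat_lit 17)⟩)
(.lf ⟨(nat_lit 0x4349), (nat_lit 3), (nat_lit 0x69634f2ca2c824a148144), (nat_lit 14)⟩)))
(.nd (.nd (.lf ⟨(nat_lit 0x44d44d), (nat_lit 4), (nat_lit 0x351351), (nat_lit 4)⟩)
(.lf ⟨(nat_lit 0x154d24d2), (nat_lit 5), (nat_lit 0x4c2493092), (nat_lit 6)⟩))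
(.nd (.lf ⟨(nat_lit 522), (nat_lit 2), (nat_lit 0x151d51d5288), (nat_lit 7)⟩)
(.lf ⟨(nat_lit 0x417), (nat_lit 2), (nat_lit 0x5d0), (nat_lit 2)⟩))))))))))))

/-- Substitution. -/
def s0 : List (ℕ × ℕ) := [((nat_lit 641), (nat_lit 2)), ((nat_lit 194), (nat_lit 2)), ((nat_lit 13), (nat_lit 1))]

/-- Context. -/
noncomputable def x0 : ℕ → ℕ × ℕ := rt (hy ++ ds)

set_option maxRecDepth 100000 in
/-- Facts. -/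
noncomputable def d1 : Tr :=
(.nd (.nd (.nd (.nd (.nd (.nd (.lf ⟨(nat_lit 65), (nat_lit 2), (nat_lit 0), (nat_lit 0)⟩)
(.lf ⟨(nat_lit 131), (nat_lit 2), (nat_lit 0x170c2), (nat_lit 3)⟩))
(.lf ⟨(nat_lit 0x517), (nat_lit 2), (nat_lit 0x5d4), (nat_lit 2)⟩))
(.nd (.lf ⟨(nat_lit 134), (nat_lit 2), (nat_lit 0x9182), (nat_lit 3)⟩)
(.lf ⟨(nat_lit 197), (nat_lit 2), (nat_lit 0x349143), (nat_lit 4)⟩)))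
(.nd (.nd (.nd (.lf ⟨(nat_lit 66), (nat_lit 2), (nat_lit 0x5081), (nat_lit 3)⟩)
(.lf ⟨(nat_lit 0x503081), (nat_lit 4), (nat_lit 0x503081), (nat_lit 4)⟩))
(.lf ⟨(nat_lit 343), (nat_lit 2), (nat_lit 0x5c5), (nat_lit 2)⟩))
(.nd (.lf ⟨(nat_lit 65), (nat_lit 2), (nat_lit 0), (nat_lit 0)⟩)
(.lf ⟨(nat_lit 215), (nat_lit 2), (nat_lit 0x5c3), (nat_lit 2)⟩))))
(.nd (.nd (.nd (.nd (.lf ⟨(nat_lit 195), (nat_lit 2), (nat_lit 0), (nat_lit 0)⟩)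
(.lf ⟨(nat_lit 197), (nat_lit 2), (nat_lit 0x5c9143), (nat_lit 4)⟩))
(.lf ⟨(nat_lit 133), (nat_lit 2), (nat_lit 322), (nat_lit 2)⟩))
(.nd (.lf ⟨(nat_lit 0x5d7), (nat_lit 2), (nat_lit 0), (nat_lit 0)⟩)
(.lf ⟨(nat_lit 407), (nat_lit 2), (nat_lit 0x5c6), (nat_lit 2)⟩)))
(.nd (.nd (.nd (.lf ⟨(nat_lit 67), (nat_lit 2), (nat_lit 0x60c1), (nat_lit 3)⟩)
(.lf ⟨(nat_lit 0x246149185), (nat_lit 6), (nat_lit 23), (nat_lit 1)⟩))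
(.lf ⟨(nat_lit 198), (nat_lit 2), (nat_lit 387), (nat_lit 2)⟩))
(.nd (.lf ⟨(nat_lit 84), (nat_lit 2), (nat_lit 0x501), (nat_lit 2)⟩)
(.lf ⟨(nat_lit 0xc22810c22810c22810c2281), (nat_lit 16), (nat_lit 0), (nat_lit 0)⟩)))))
(.nd (.nd (.nd (.nd (.nd (.lf ⟨(nat_lit 130), (nat_lit 2), (nat_lit 0), (nat_lit 0)⟩)
(.lf ⟨(nat_lit 326), (nat_lit 2), (nat_lit 0x17185), (nat_lit 3)⟩))
(.lf ⟨(nat_lit 329), (nat_lit 2), (nat_lit 581), (nat_lit 2)⟩))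
(.nd (.lf ⟨(nat_lit 0x514), (nat_lit 2), (nat_lit 0), (nat_lit 0)⟩)
(.lf ⟨(nat_lit 599), (nat_lit 2), (nat_lit 0x5c9), (nat_lit 2)⟩)))
(.nd (.nd (.nd (.lf ⟨(nat_lit 390), (nat_lit 2), (nat_lit 0), (nat_lit 0)⟩)
(.lf ⟨(nat_lit 0x503081503081), (nat_lit 8), (nat_lit 0x9185), (nat_lit 3)⟩))
(.lf ⟨(nat_lit 131), (nat_lit 2), (nat_lit 0xd0c2), (nat_lit 3)⟩))
(.nd (.lf ⟨(nat_lit 137), (nat_lit 2), (nat_lit 578), (nat_lit 2)⟩)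
(.lf ⟨(nat_lit 0xc22810c22810c22810c2281), (nat_lit 16), (nat_lit 0x5cd), (nat_lit 2)⟩))))
(.nd (.nd (.nd (.nd (.lf ⟨(nat_lit 325), (nat_lit 2), (nat_lit 0), (nat_lit 0)⟩)
(.lf ⟨(nat_lit 0x5030940c2), (nat_lit 6), (nat_lit 0), (nat_lit 0)⟩))
(.lf ⟨(nat_lit 151), (nat_lit 2), (nat_lit 0x5c2), (nat_lit 2)⟩))
(.nd (.lf ⟨(nat_lit 148), (nat_lit 2), (nat_lit 0x17502), (nat_lit 3)⟩)
(.lf ⟨(nat_lit 212), (nat_lit 2), (nat_lit 0x503), (nat_lit 2)⟩)))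
(.nd (.nd (.nd (.lf ⟨(nat_lit 585), (nat_lit 2), (nat_lit 0), (nat_lit 0)⟩)
(.lf ⟨(nat_lit 0x503081503081503081503081), (nat_lit 16), (nat_lit 23), (nat_lit 1)⟩))
(.lf ⟨(nat_lit 326), (nat_lit 2), (nat_lit 0xd185), (nat_lit 3)⟩))
(.nd (.lf ⟨(nat_lit 393), (nat_lit 2), (nat_lit 582), (nat_lit 2)⟩)
(.lf ⟨(nat_lit 13), (nat_lit 1), (nat_lit 23), (nat_lit 1)⟩))))))

/-- Substitution. -/
def s1 : List (ℕ × ℕ) := [((nat_lit 1), (nat_lit 1)), ((nat_lit 0x140c2), (nat_lit 3))]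

/-- Context. -/
noncomputable def x1 : ℕ → ℕ × ℕ :=
  mkc d0 2177 s0 x0 (nth [] (Cl.alts (nsCl 1 [[0, 1], [1, 1], [0]])) 0)

set_option maxRecDepth 100000 in
/-- Facts. -/
noncomputable def d2 : Tr :=
(.nd (.nd (.nd (.lf ⟨(nat_lit 131), (nat_lit 2), (nat_lit 0x170c2), (nat_lit 3)⟩)
(.lf ⟨(nat_lit 131), (nat_lit 2), (nat_lit 194), (nat_lit 2)⟩))
(.lf ⟨(nat_lit 0x503081503081503081503081), (nat_lit 16), (nat_lit 0), (nat_lit 0)⟩))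
(.nd (.lf ⟨(nat_lit 0x503081503081503081503081), (nat_lit 16), (nat_lit 23), (nat_lit 1)⟩)
(.lf ⟨(nat_lit 23), (nat_lit 1), (nat_lit 0), (nat_lit 0)⟩)))

/-- Context. -/
noncomputable def x2 : ℕ → ℕ × ℕ :=
  mkc d1 40 s1 x1 (nth [] (Cl.alts (nsCl 0 [[0], [0]])) 0)

set_option maxRecDepth 100000 in
/-- Facts. -/
noncomputable def d3 : Tr :=
(.nd (.nd (.nd (.nd (.nd (.nd (.nd (.nd (.lf ⟨(nat_lit 65), (nat_lit 2), (nat_lit 0), (nat_lit 0)⟩)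
(.lf ⟨(nat_lit 717), (nat_lit 2), (nat_lit 843), (nat_lit 2)⟩))
(.lf ⟨(nat_lit 391), (nat_lit 2), (nat_lit 0xe1c6), (nat_lit 3)⟩))
(.nd (.lf ⟨(nat_lit 393), (nat_lit 2), (nat_lit 582), (nat_lit 2)⟩)
(.lf ⟨(nat_lit 723), (nat_lit 2), (nat_lit 0x4cb), (nat_lit 2)⟩)))
(.nd (.nd (.nd (.lf ⟨(nat_lit 73), (nat_lit 2), (nat_lit 0xd241), (nat_lit 3)⟩)
(.lf ⟨(nat_lit 0x95944cd), (nat_lit 5), (nat_lit 0x16513349), (nat_lit 5)⟩))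
(.lf ⟨(nat_lit 909), (nat_lit 2), (nat_lit 846), (nat_lit 2)⟩))
(.nd (.lf ⟨(nat_lit 205), (nat_lit 2), (nat_lit 835), (nat_lit 2)⟩)
(.lf ⟨(nat_lit 463), (nat_lit 2), (nat_lit 0x6583c7), (nat_lit 4)⟩))))
(.nd (.nd (.nd (.nd (.lf ⟨(nat_lit 585), (nat_lit 2), (nat_lit 0), (nat_lit 0)⟩)
(.lf ⟨(nat_lit 148), (nat_lit 2), (nat_lit 0x502), (nat_lit 2)⟩))
(.lf ⟨(nat_lit 470), (nat_lit 2), (nat_lit 0x587), (nat_lit 2)⟩))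
(.nd (.lf ⟨(nat_lit 0x4d6), (nat_lit 2), (nat_lit 0x593), (nat_lit 2)⟩)
(.lf ⟨(nat_lit 0x4d4), (nat_lit 2), (nat_lit 0x513), (nat_lit 2)⟩)))
(.nd (.nd (.nd (.lf ⟨(nat_lit 141), (nat_lit 2), (nat_lit 834), (nat_lit 2)⟩)
(.lf ⟨(nat_lit 0x6585933ce2ca1856585933ce2ca185), (nat_lit 20), (nat_lit 0x6584cd), (nat_lit 4)⟩))
(.lf ⟨(nat_lit 0x619), (nat_lit 2), (nat_lit 0x658), (nat_lit 2)⟩))
(.nd (.lf ⟨(nat_lit 395), (nat_lit 2), (nat_lit 710), (nat_lit 2)⟩)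
(.lf ⟨(nat_lit 591), (nat_lit 2), (nat_lit 969), (nat_lit 2)⟩)))))
(.nd (.nd (.nd (.nd (.nd (.lf ⟨(nat_lit 66), (nat_lit 2), (nat_lit 0x5081), (nat_lit 3)⟩)
(.lf ⟨(nat_lit 136), (nat_lit 2), (nat_lit 0x185d3202), (nat_lit 5)⟩))
(.lf ⟨(nat_lit 655), (nat_lit 2), (nat_lit 970), (nat_lit 2)⟩))
(.nd (.lf ⟨(nat_lit 718), (nat_lit 2), (nat_lit 907), (nat_lit 2)⟩)
(.lf ⟨(nat_lit 331), (nat_lit 2), (nat_lit 0x5d65132c5), (nat_lit 6)⟩)))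
(.nd (.nd (.nd (.lf ⟨(nat_lit 83), (nat_lit 2), (nat_lit 0x164c1), (nat_lit 3)⟩)
(.lf ⟨(nat_lit 0x1c15944cd), (nat_lit 6), (nat_lit 0x5944cd1c1), (nat_lit 6)⟩))
(.lf ⟨(nat_lit 595), (nat_lit 2), (nat_lit 0x4c9), (nat_lit 2)⟩))
(.nd (.lf ⟨(nat_lit 462), (nat_lit 2), (nat_lit 903), (nat_lit 2)⟩)
(.lf ⟨(nat_lit 212), (nat_lit 2), (nat_lit 0x503), (nat_lit 2)⟩))))
(.nd (.nd (.nd (.nd (.lf ⟨(nat_lit 199), (nat_lit 2), (nat_lit 0xb1c3), (nat_lit 3)⟩)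
(.lf ⟨(nat_lit 457), (nat_lit 2), (nat_lit 0x513247), (nat_lit 4)⟩))
(.lf ⟨(nat_lit 854), (nat_lit 2), (nat_lit 0x58d), (nat_lit 2)⟩))
(.nd (.lf ⟨(nat_lit 329), (nat_lit 2), (nat_lit 581), (nat_lit 2)⟩)
(.lf ⟨(nat_lit 467), (nat_lit 2), (nat_lit 0x4c7), (nat_lit 2)⟩)))
(.nd (.nd (.lf ⟨(nat_lit 137), (nat_lit 2), (nat_lit 578), (nat_lit 2)⟩)
(.lf ⟨(nat_lit 920), (nat_lit 2), (nat_lit 0x60e), (nat_lit 2)⟩))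
(.nd (.lf ⟨(nat_lit 340), (nat_lit 2), (nat_lit 0x505), (nat_lit 2)⟩)
(.lf ⟨(nat_lit 586), (nat_lit 2), (nat_lit 0x17289), (nat_lit 3)⟩))))))
(.nd (.nd (.nd (.nd (.nd (.nd (.lf ⟨(nat_lit 195), (nat_lit 2), (nat_lit 0), (nat_lit 0)⟩)
(.lf ⟨(nat_lit 457), (nat_lit 2), (nat_lit 0x17513247), (nat_lit 5)⟩))
(.lf ⟨(nat_lit 665), (nat_lit 2), (nat_lit 0x64a), (nat_lit 2)⟩))
(.nd (.lf ⟨(nat_lit 459), (nat_lit 2), (nat_lit 711), (nat_lit 2)⟩)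
(.lf ⟨(nat_lit 409), (nat_lit 2), (nat_lit 0x646), (nat_lit 2)⟩)))
(.nd (.nd (.nd (.lf ⟨(nat_lit 0x514), (nat_lit 2), (nat_lit 0), (nat_lit 0)⟩)
(.lf ⟨(nat_lit 0x50c25944cd), (nat_lit 7), (nat_lit 0x165133450c2), (nat_lit 7)⟩))
(.lf ⟨(nat_lit 851), (nat_lit 2), (nat_lit 0x4cd), (nat_lit 2)⟩))
(.nd (.lf ⟨(nat_lit 131), (nat_lit 2), (nat_lit 0xd0c2), (nat_lit 3)⟩)
(.lf ⟨(nat_lit 0x4d8), (nat_lit 2), (nat_lit 0x613), (nat_lit 2)⟩))))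
(.nd (.nd (.nd (.nd (.lf ⟨(nat_lit 135), (nat_lit 2), (nat_lit 0xa1c2), (nat_lit 3)⟩)
(.lf ⟨(nat_lit 331), (nat_lit 2), (nat_lit 0x165132c5), (nat_lit 5)⟩))
(.lf ⟨(nat_lit 916), (nat_lit 2), (nat_lit 0x50e), (nat_lit 2)⟩))
(.nd (.lf ⟨(nat_lit 333), (nat_lit 2), (nat_lit 837), (nat_lit 2)⟩)
(.lf ⟨(nat_lit 726), (nat_lit 2), (nat_lit 0x58b), (nat_lit 2)⟩)))
(.nd (.nd (.lf ⟨(nat_lit 0x1c11c1), (nat_lit 4), (nat_lit 0), (nat_lit 0)⟩)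
(.lf ⟨(nat_lit 921), (nat_lit 2), (nat_lit 0x64e), (nat_lit 2)⟩))
(.nd (.lf ⟨(nat_lit 345), (nat_lit 2), (nat_lit 0x645), (nat_lit 2)⟩)
(.lf ⟨(nat_lit 600), (nat_lit 2), (nat_lit 0x609), (nat_lit 2)⟩)))))
(.nd (.nd (.nd (.nd (.nd (.lf ⟨(nat_lit 67), (nat_lit 2), (nat_lit 0x60c1), (nat_lit 3)⟩)
(.lf ⟨(nat_lit 0xc22810c22810c22810c2281), (nat_lit 16), (nat_lit 13), (nat_lit 1)⟩))
(.lf ⟨(nat_lit 197), (nat_lit 2), (nat_lit 0x349143), (nat_lit 4)⟩))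
(.nd (.lf ⟨(nat_lit 915), (nat_lit 2), (nat_lit 0x4ce), (nat_lit 2)⟩)
(.lf ⟨(nat_lit 984), (nat_lit 2), (nat_lit 0x60f), (nat_lit 2)⟩)))
(.nd (.nd (.nd (.lf ⟨(nat_lit 0x618), (nat_lit 2), (nat_lit 0), (nat_lit 0)⟩)
(.lf ⟨(nat_lit 0x70450c2), (nat_lit 5), (nat_lit 0x513247183081), (nat_lit 8)⟩))
(.lf ⟨(nat_lit 601), (nat_lit 2), (nat_lit 0x649), (nat_lit 2)⟩))
(.nd (.lf ⟨(nat_lit 334), (nat_lit 2), (nat_lit 0x16385), (nat_lit 3)⟩)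
(.lf ⟨(nat_lit 856), (nat_lit 2), (nat_lit 0x60d), (nat_lit 2)⟩))))
(.nd (.nd (.nd (.nd (.lf ⟨(nat_lit 975), (nat_lit 2), (nat_lit 0), (nat_lit 0)⟩)
(.lf ⟨(nat_lit 136), (nat_lit 2), (nat_lit 0x613202), (nat_lit 4)⟩))
(.lf ⟨(nat_lit 660), (nat_lit 2), (nat_lit 0x50a), (nat_lit 2)⟩))
(.nd (.lf ⟨(nat_lit 330), (nat_lit 2), (nat_lit 645), (nat_lit 2)⟩)
(.lf ⟨(nat_lit 404), (nat_lit 2), (nat_lit 0x506), (nat_lit 2)⟩)))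
(.nd (.nd (.lf ⟨(nat_lit 84), (nat_lit 2), (nat_lit 0x501), (nat_lit 2)⟩)
(.lf ⟨(nat_lit 664), (nat_lit 2), (nat_lit 0x60a), (nat_lit 2)⟩))
(.nd (.lf ⟨(nat_lit 70), (nat_lit 2), (nat_lit 385), (nat_lit 2)⟩)
(.lf ⟨(nat_lit 590), (nat_lit 2), (nat_lit 905), (nat_lit 2)⟩)))))))
(.nd (.nd (.nd (.nd (.nd (.nd (.nd (.lf ⟨(nat_lit 130), (nat_lit 2), (nat_lit 0), (nat_lit 0)⟩)
(.lf ⟨(nat_lit 202), (nat_lit 2), (nat_lit 0x65858f283), (nat_lit 6)⟩))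
(.lf ⟨(nat_lit 406), (nat_lit 2), (nat_lit 0x586), (nat_lit 2)⟩))
(.nd (.lf ⟨(nat_lit 458), (nat_lit 2), (nat_lit 647), (nat_lit 2)⟩)
(.lf ⟨(nat_lit 982), (nat_lit 2), (nat_lit 0x58f), (nat_lit 2)⟩)))
(.nd (.nd (.nd (.lf ⟨(nat_lit 0x4d3), (nat_lit 2), (nat_lit 0), (nat_lit 0)⟩)
(.lf ⟨(nat_lit 0x1430850c2), (nat_lit 6), (nat_lit 9), (nat_lit 1)⟩))
(.lf ⟨(nat_lit 461), (nat_lit 2), (nat_lit 0x16347), (nat_lit 3)⟩))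
(.nd (.lf ⟨(nat_lit 86), (nat_lit 2), (nat_lit 0x581), (nat_lit 2)⟩)
(.lf ⟨(nat_lit 201), (nat_lit 2), (nat_lit 579), (nat_lit 2)⟩))))
(.nd (.nd (.nd (.nd (.lf ⟨(nat_lit 650), (nat_lit 2), (nat_lit 0), (nat_lit 0)⟩)
(.lf ⟨(nat_lit 335), (nat_lit 2), (nat_lit 965), (nat_lit 2)⟩))
(.lf ⟨(nat_lit 979), (nat_lit 2), (nat_lit 0x4cf), (nat_lit 2)⟩))
(.nd (.lf ⟨(nat_lit 0x518), (nat_lit 2), (nat_lit 0x614), (nat_lit 2)⟩)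
(.lf ⟨(nat_lit 344), (nat_lit 2), (nat_lit 0x605), (nat_lit 2)⟩)))
(.nd (.nd (.nd (.lf ⟨(nat_lit 585), (nat_lit 2), (nat_lit 0), (nat_lit 0)⟩)
(.lf ⟨(nat_lit 0x1c11430870450c21c11430870450c2), (nat_lit 20), (nat_lit 0x6584cd), (nat_lit 4)⟩))
(.lf ⟨(nat_lit 0x599), (nat_lit 2), (nat_lit 0x656), (nat_lit 2)⟩))
(.nd (.lf ⟨(nat_lit 342), (nat_lit 2), (nat_lit 0x585), (nat_lit 2)⟩)
(.lf ⟨(nat_lit 587), (nat_lit 2), (nat_lit 713), (nat_lit 2)⟩)))))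
(.nd (.nd (.nd (.nd (.nd (.lf ⟨(nat_lit 390), (nat_lit 2), (nat_lit 0), (nat_lit 0)⟩)
(.lf ⟨(nat_lit 0xc22810c22810c22810c2281), (nat_lit 16), (nat_lit 0x5cd), (nat_lit 2)⟩))
(.lf ⟨(nat_lit 326), (nat_lit 2), (nat_lit 0xd185), (nat_lit 3)⟩))
(.nd (.lf ⟨(nat_lit 719), (nat_lit 2), (nat_lit 971), (nat_lit 2)⟩)
(.lf ⟨(nat_lit 0x4d9), (nat_lit 2), (nat_lit 0x653), (nat_lit 2)⟩)))
(.nd (.nd (.nd (.lf ⟨(nat_lit 148), (nat_lit 2), (nat_lit 0x17502), (nat_lit 3)⟩)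
(.lf ⟨(nat_lit 0x7049), (nat_lit 3), (nat_lit 0x165133491c1), (nat_lit 7)⟩))
(.lf ⟨(nat_lit 211), (nat_lit 2), (nat_lit 0x4c3), (nat_lit 2)⟩))
(.nd (.lf ⟨(nat_lit 335), (nat_lit 2), (nat_lit 0x173c5), (nat_lit 3)⟩)
(.lf ⟨(nat_lit 0x598), (nat_lit 2), (nat_lit 0x616), (nat_lit 2)⟩))))
(.nd (.nd (.nd (.nd (.lf ⟨(nat_lit 910), (nat_lit 2), (nat_lit 0), (nat_lit 0)⟩)
(.lf ⟨(nat_lit 269), (nat_lit 2), (nat_lit 0x613344), (nat_lit 4)⟩))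
(.lf ⟨(nat_lit 662), (nat_lit 2), (nat_lit 0x58a), (nat_lit 2)⟩))
(.nd (.lf ⟨(nat_lit 973), (nat_lit 2), (nat_lit 847), (nat_lit 2)⟩)
(.lf ⟨(nat_lit 596), (nat_lit 2), (nat_lit 0x509), (nat_lit 2)⟩)))
(.nd (.nd (.lf ⟨(nat_lit 77), (nat_lit 2), (nat_lit 833), (nat_lit 2)⟩)
(.lf ⟨(nat_lit 0x516), (nat_lit 2), (nat_lit 0x594), (nat_lit 2)⟩))
(.nd (.lf ⟨(nat_lit 339), (nat_lit 2), (nat_lit 0x4c5), (nat_lit 2)⟩)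
(.lf ⟨(nat_lit 214), (nat_lit 2), (nat_lit 0x583), (nat_lit 2)⟩))))))
(.nd (.nd (.nd (.nd (.nd (.nd (.lf ⟨(nat_lit 325), (nat_lit 2), (nat_lit 0), (nat_lit 0)⟩)
(.lf ⟨(nat_lit 269), (nat_lit 2), (nat_lit 0x185d3344), (nat_lit 5)⟩))
(.lf ⟨(nat_lit 653), (nat_lit 2), (nat_lit 842), (nat_lit 2)⟩))
(.nd (.lf ⟨(nat_lit 589), (nat_lit 2), (nat_lit 841), (nat_lit 2)⟩)
(.lf ⟨(nat_lit 724), (nat_lit 2), (nat_lit 0x50b), (nat_lit 2)⟩)))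
(.nd (.nd (.nd (.lf ⟨(nat_lit 0x596), (nat_lit 2), (nat_lit 0), (nat_lit 0)⟩)
(.lf ⟨(nat_lit 0x143089), (nat_lit 4), (nat_lit 0x2450c2), (nat_lit 4)⟩))
(.lf ⟨(nat_lit 654), (nat_lit 2), (nat_lit 906), (nat_lit 2)⟩))
(.nd (.lf ⟨(nat_lit 69), (nat_lit 2), (nat_lit 321), (nat_lit 2)⟩)
(.lf ⟨(nat_lit 394), (nat_lit 2), (nat_lit 0x14286), (nat_lit 3)⟩))))
(.nd (.nd (.nd (.nd (.lf ⟨(nat_lit 715), (nat_lit 2), (nat_lit 0), (nat_lit 0)⟩)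
(.lf ⟨(nat_lit 586), (nat_lit 2), (nat_lit 649), (nat_lit 2)⟩))
(.lf ⟨(nat_lit 852), (nat_lit 2), (nat_lit 0x50d), (nat_lit 2)⟩))
(.nd (.lf ⟨(nat_lit 397), (nat_lit 2), (nat_lit 838), (nat_lit 2)⟩)
(.lf ⟨(nat_lit 468), (nat_lit 2), (nat_lit 0x507), (nat_lit 2)⟩)))
(.nd (.nd (.lf ⟨(nat_lit 71), (nat_lit 2), (nat_lit 449), (nat_lit 2)⟩)
(.lf ⟨(nat_lit 857), (nat_lit 2), (nat_lit 0x64d), (nat_lit 2)⟩))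
(.nd (.lf ⟨(nat_lit 918), (nat_lit 2), (nat_lit 0x58e), (nat_lit 2)⟩)
(.lf ⟨(nat_lit 399), (nat_lit 2), (nat_lit 966), (nat_lit 2)⟩)))))
(.nd (.nd (.nd (.nd (.nd (.lf ⟨(nat_lit 455), (nat_lit 2), (nat_lit 0), (nat_lit 0)⟩)
(.lf ⟨(nat_lit 23), (nat_lit 1), (nat_lit 0), (nat_lit 0)⟩))
(.lf ⟨(nat_lit 598), (nat_lit 2), (nat_lit 0x589), (nat_lit 2)⟩))
(.nd (.lf ⟨(nat_lit 980), (nat_lit 2), (nat_lit 0x50f), (nat_lit 2)⟩)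
(.lf ⟨(nat_lit 985), (nat_lit 2), (nat_lit 0x64f), (nat_lit 2)⟩)))
(.nd (.nd (.nd (.lf ⟨(nat_lit 0x659), (nat_lit 2), (nat_lit 0), (nat_lit 0)⟩)
(.lf ⟨(nat_lit 0x513247183081513247183081), (nat_lit 16), (nat_lit 0x6585933ce2ca185), (nat_lit 10)⟩))
(.lf ⟨(nat_lit 0x519), (nat_lit 2), (nat_lit 0x654), (nat_lit 2)⟩))
(.nd (.lf ⟨(nat_lit 398), (nat_lit 2), (nat_lit 902), (nat_lit 2)⟩)
(.lf ⟨(nat_lit 408), (nat_lit 2), (nat_lit 0x606), (nat_lit 2)⟩))))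
(.nd (.nd (.nd (.nd (.lf ⟨(nat_lit 845), (nat_lit 2), (nat_lit 0), (nat_lit 0)⟩)
(.lf ⟨(nat_lit 0x5944cd5944cd), (nat_lit 8), (nat_lit 0), (nat_lit 0)⟩))
(.lf ⟨(nat_lit 659), (nat_lit 2), (nat_lit 0x4ca), (nat_lit 2)⟩))
(.nd (.lf ⟨(nat_lit 133), (nat_lit 2), (nat_lit 322), (nat_lit 2)⟩)
(.lf ⟨(nat_lit 651), (nat_lit 2), (nat_lit 0x6582ca), (nat_lit 4)⟩)))
(.nd (.nd (.lf ⟨(nat_lit 147), (nat_lit 2), (nat_lit 0x4c2), (nat_lit 2)⟩)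
(.lf ⟨(nat_lit 911), (nat_lit 2), (nat_lit 974), (nat_lit 2)⟩))
(.nd (.lf ⟨(nat_lit 150), (nat_lit 2), (nat_lit 0x582), (nat_lit 2)⟩)
(.lf ⟨(nat_lit 403), (nat_lit 2), (nat_lit 0x4c6), (nat_lit 2)⟩))))))))

/-- Substitution. -/
def s3 : List (ℕ × ℕ) := [((nat_lit 0x50c2), (nat_lit 3)), ((nat_lit 449), (nat_lit 2)), ((nat_lit 0x5944cd), (nat_lit 4)), ((nat_lit 9), (nat_lit 1))]

/-- Context. -/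
noncomputable def x3 : ℕ → ℕ × ℕ :=
  mkc d0 2177 s0 x0 (nth [] (Cl.alts (nsCl 1 [[0, 1], [1, 1], [0]])) 1)

set_option maxRecDepth 100000 in
/-- Facts. -/
noncomputable def d4 : Tr :=
(.nd (.nd (.nd (.nd (.nd (.nd (.lf ⟨(nat_lit 65), (nat_lit 2), (nat_lit 0), (nat_lit 0)⟩)
(.lf ⟨(nat_lit 0x1c11430870450c21c11430870450c2), (nat_lit 20), (nat_lit 0), (nat_lit 0)⟩))
(.lf ⟨(nat_lit 133), (nat_lit 2), (nat_lit 322), (nat_lit 2)⟩))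
(.nd (.nd (.lf ⟨(nat_lit 0x410), (nat_lit 2), (nat_lit 0), (nat_lit 0)⟩)
(.lf ⟨(nat_lit 0x202048081), (nat_lit 6), (nat_lit 0x10305), (nat_lit 3)⟩))
(.lf ⟨(nat_lit 0x619), (nat_lit 2), (nat_lit 0x658), (nat_lit 2)⟩)))
(.nd (.nd (.nd (.lf ⟨(nat_lit 66), (nat_lit 2), (nat_lit 0x5081), (nat_lit 3)⟩)
(.lf ⟨(nat_lit 136), (nat_lit 2), (nat_lit 514), (nat_lit 2)⟩))
(.lf ⟨(nat_lit 528), (nat_lit 2), (nat_lit 0x408), (nat_lit 2)⟩))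
(.nd (.lf ⟨(nat_lit 0x659), (nat_lit 2), (nat_lit 0), (nat_lit 0)⟩)
(.lf ⟨(nat_lit 332), (nat_lit 2), (nat_lit 0x19305), (nat_lit 3)⟩))))
(.nd (.nd (.nd (.nd (.lf ⟨(nat_lit 260), (nat_lit 2), (nat_lit 0), (nat_lit 0)⟩)
(.lf ⟨(nat_lit 131), (nat_lit 2), (nat_lit 0x196130c2), (nat_lit 5)⟩))
(.lf ⟨(nat_lit 280), (nat_lit 2), (nat_lit 0x604), (nat_lit 2)⟩))
(.nd (.nd (.lf ⟨(nat_lit 0x4d3), (nat_lit 2), (nat_lit 0), (nat_lit 0)⟩)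
(.lf ⟨(nat_lit 0x202048081202048081), (nat_lit 12), (nat_lit 25), (nat_lit 1)⟩))
(.lf ⟨(nat_lit 0x4d9), (nat_lit 2), (nat_lit 0x653), (nat_lit 2)⟩)))
(.nd (.nd (.nd (.lf ⟨(nat_lit 780), (nat_lit 2), (nat_lit 0), (nat_lit 0)⟩)
(.lf ⟨(nat_lit 0x202202), (nat_lit 4), (nat_lit 0), (nat_lit 0)⟩))
(.lf ⟨(nat_lit 793), (nat_lit 2), (nat_lit 0x64c), (nat_lit 2)⟩))
(.nd (.lf ⟨(nat_lit 524), (nat_lit 2), (nat_lit 776), (nat_lit 2)⟩)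
(.lf ⟨(nat_lit 136), (nat_lit 2), (nat_lit 0x613202), (nat_lit 4)⟩)))))
(.nd (.nd (.nd (.nd (.nd (.lf ⟨(nat_lit 130), (nat_lit 2), (nat_lit 0), (nat_lit 0)⟩)
(.lf ⟨(nat_lit 13), (nat_lit 1), (nat_lit 0x19613), (nat_lit 3)⟩))
(.lf ⟨(nat_lit 336), (nat_lit 2), (nat_lit 0x405), (nat_lit 2)⟩))
(.nd (.nd (.lf ⟨(nat_lit 140), (nat_lit 2), (nat_lit 0x10302), (nat_lit 3)⟩)
(.lf ⟨(nat_lit 0x40c150305), (nat_lit 6), (nat_lit 25), (nat_lit 1)⟩))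
(.lf ⟨(nat_lit 281), (nat_lit 2), (nat_lit 0x644), (nat_lit 2)⟩)))
(.nd (.nd (.nd (.lf ⟨(nat_lit 520), (nat_lit 2), (nat_lit 0), (nat_lit 0)⟩)
(.lf ⟨(nat_lit 131), (nat_lit 2), (nat_lit 0x190c2), (nat_lit 3)⟩))
(.lf ⟨(nat_lit 275), (nat_lit 2), (nat_lit 0x4c4), (nat_lit 2)⟩))
(.nd (.lf ⟨(nat_lit 65), (nat_lit 2), (nat_lit 0), (nat_lit 0)⟩)
(.lf ⟨(nat_lit 269), (nat_lit 2), (nat_lit 0x613344), (nat_lit 4)⟩))))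
(.nd (.nd (.nd (.nd (.lf ⟨(nat_lit 325), (nat_lit 2), (nat_lit 0), (nat_lit 0)⟩)
(.lf ⟨(nat_lit 19), (nat_lit 1), (nat_lit 24), (nat_lit 1)⟩))
(.lf ⟨(nat_lit 131), (nat_lit 2), (nat_lit 0xd0c2), (nat_lit 3)⟩))
(.nd (.lf ⟨(nat_lit 0x618), (nat_lit 2), (nat_lit 0), (nat_lit 0)⟩)
(.lf ⟨(nat_lit 0x4d8), (nat_lit 2), (nat_lit 0x613), (nat_lit 2)⟩)))
(.nd (.nd (.nd (.lf ⟨(nat_lit 72), (nat_lit 2), (nat_lit 0xc201), (nat_lit 3)⟩)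
(.lf ⟨(nat_lit 0x8081), (nat_lit 3), (nat_lit 0x8081), (nat_lit 3)⟩))
(.lf ⟨(nat_lit 0x419), (nat_lit 2), (nat_lit 0x650), (nat_lit 2)⟩))
(.nd (.lf ⟨(nat_lit 784), (nat_lit 2), (nat_lit 0x40c), (nat_lit 2)⟩)
(.lf ⟨(nat_lit 0x1c11430870450c21c11430870450c2), (nat_lit 20), (nat_lit 0x6584cd), (nat_lit 4)⟩))))))

/-- Substitution. -/
def s4 : List (ℕ × ℕ) := [((nat_lit 1), (nat_lit 1)), ((nat_lit 514), (nat_lit 2))]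

/-- Context. -/
noncomputable def x4 : ℕ → ℕ × ℕ :=
  mkc d3 154 s3 x3 (nth [] (Cl.alts (nsCl 2 [[2, 1, 2], [0, 1, 3], [0], [0, 1]])) 0)

set_option maxRecDepth 100000 in
/-- Facts. -/
noncomputable def d5 : Tr :=
(.nd (.nd (.nd (.lf ⟨(nat_lit 131), (nat_lit 2), (nat_lit 0x190c2), (nat_lit 3)⟩)
(.lf ⟨(nat_lit 131), (nat_lit 2), (nat_lit 194), (nat_lit 2)⟩))
(.lf ⟨(nat_lit 0x202048081202048081), (nat_lit 12), (nat_lit 0), (nat_lit 0)⟩))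
(.nd (.lf ⟨(nat_lit 0x202048081202048081), (nat_lit 12), (nat_lit 25), (nat_lit 1)⟩)
(.lf ⟨(nat_lit 25), (nat_lit 1), (nat_lit 0), (nat_lit 0)⟩)))

/-- Context. -/
noncomputable def x5 : ℕ → ℕ × ℕ :=
  mkc d4 43 s4 x4 (nth [] (Cl.alts (nsCl 0 [[0], [0]])) 0)

set_option maxRecDepth 100000 in
/-- Facts. -/
noncomputable def d6 : Tr :=
(.nd (.nd (.nd (.nd (.nd (.nd (.nd (.nd (.lf ⟨(nat_lit 65), (nat_lit 2), (nat_lit 0), (nat_lit 0)⟩)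
(.lf ⟨(nat_lit 977), (nat_lit 2), (nat_lit 0x44f), (nat_lit 2)⟩))
(.lf ⟨(nat_lit 392), (nat_lit 2), (nat_lit 0x11206), (nat_lit 3)⟩))
(.nd (.nd (.lf ⟨(nat_lit 77), (nat_lit 2), (nat_lit 833), (nat_lit 2)⟩)
(.lf ⟨(nat_lit 394), (nat_lit 2), (nat_lit 0x656286), (nat_lit 4)⟩))
(.lf ⟨(nat_lit 595), (nat_lit 2), (nat_lit 0x4c9), (nat_lit 2)⟩)))
(.nd (.nd (.nd (.lf ⟨(nat_lit 845), (nat_lit 2), (nat_lit 0), (nat_lit 0)⟩)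
(.lf ⟨(nat_lit 588), (nat_lit 2), (nat_lit 777), (nat_lit 2)⟩))
(.lf ⟨(nat_lit 979), (nat_lit 2), (nat_lit 0x4cf), (nat_lit 2)⟩))
(.nd (.lf ⟨(nat_lit 336), (nat_lit 2), (nat_lit 0x405), (nat_lit 2)⟩)
(.lf ⟨(nat_lit 982), (nat_lit 2), (nat_lit 0x58f), (nat_lit 2)⟩))))
(.nd (.nd (.nd (.nd (.lf ⟨(nat_lit 520), (nat_lit 2), (nat_lit 0), (nat_lit 0)⟩)
(.lf ⟨(nat_lit 202), (nat_lit 2), (nat_lit 0x65858f283), (nat_lit 6)⟩))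
(.lf ⟨(nat_lit 665), (nat_lit 2), (nat_lit 0x64a), (nat_lit 2)⟩))
(.nd (.nd (.lf ⟨(nat_lit 785), (nat_lit 2), (nat_lit 0x44c), (nat_lit 2)⟩)
(.lf ⟨(nat_lit 0x2880c22880c2), (nat_lit 8), (nat_lit 0x65655334f), (nat_lit 6)⟩))
(.lf ⟨(nat_lit 0x619), (nat_lit 2), (nat_lit 0x658), (nat_lit 2)⟩)))
(.nd (.nd (.nd (.lf ⟨(nat_lit 276), (nat_lit 2), (nat_lit 0x18504), (nat_lit 3)⟩)
(.lf ⟨(nat_lit 136), (nat_lit 2), (nat_lit 0x613202), (nat_lit 4)⟩))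
(.lf ⟨(nat_lit 789), (nat_lit 2), (nat_lit 0x54c), (nat_lit 2)⟩))
(.nd (.lf ⟨(nat_lit 396), (nat_lit 2), (nat_lit 774), (nat_lit 2)⟩)
(.lf ⟨(nat_lit 787), (nat_lit 2), (nat_lit 0x4cc), (nat_lit 2)⟩)))))
(.nd (.nd (.nd (.nd (.nd (.lf ⟨(nat_lit 325), (nat_lit 2), (nat_lit 0), (nat_lit 0)⟩)
(.lf ⟨(nat_lit 593), (nat_lit 2), (nat_lit 0x449), (nat_lit 2)⟩))
(.lf ⟨(nat_lit 341), (nat_lit 2), (nat_lit 0x545), (nat_lit 2)⟩))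
(.nd (.nd (.lf ⟨(nat_lit 525), (nat_lit 2), (nat_lit 840), (nat_lit 2)⟩)
(.lf ⟨(nat_lit 269), (nat_lit 2), (nat_lit 0x13344), (nat_lit 3)⟩))
(.lf ⟨(nat_lit 0x419), (nat_lit 2), (nat_lit 0x650), (nat_lit 2)⟩)))
(.nd (.nd (.nd (.lf ⟨(nat_lit 0x555), (nat_lit 2), (nat_lit 0), (nat_lit 0)⟩)
(.lf ⟨(nat_lit 331), (nat_lit 2), (nat_lit 0x165132c5), (nat_lit 5)⟩))
(.lf ⟨(nat_lit 790), (nat_lit 2), (nat_lit 0x58c), (nat_lit 2)⟩))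
(.nd (.lf ⟨(nat_lit 280), (nat_lit 2), (nat_lit 0x604), (nat_lit 2)⟩)
(.lf ⟨(nat_lit 281), (nat_lit 2), (nat_lit 0x644), (nat_lit 2)⟩))))
(.nd (.nd (.nd (.nd (.lf ⟨(nat_lit 72), (nat_lit 2), (nat_lit 0xc201), (nat_lit 3)⟩)
(.lf ⟨(nat_lit 783), (nat_lit 2), (nat_lit 972), (nat_lit 2)⟩))
(.lf ⟨(nat_lit 655), (nat_lit 2), (nat_lit 970), (nat_lit 2)⟩))
(.nd (.nd (.lf ⟨(nat_lit 397), (nat_lit 2), (nat_lit 838), (nat_lit 2)⟩)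
(.lf ⟨(nat_lit 0x64d30a2481850c205934c289206143081), (nat_lit 22), (nat_lit 0x5954d140f309185), (nat_lit 10)⟩))
(.lf ⟨(nat_lit 857), (nat_lit 2), (nat_lit 0x64d), (nat_lit 2)⟩)))
(.nd (.nd (.nd (.lf ⟨(nat_lit 141), (nat_lit 2), (nat_lit 834), (nat_lit 2)⟩)
(.lf ⟨(nat_lit 79), (nat_lit 2), (nat_lit 0x196163c1), (nat_lit 5)⟩))
(.lf ⟨(nat_lit 659), (nat_lit 2), (nat_lit 0x4ca), (nat_lit 2)⟩))
(.nd (.lf ⟨(nat_lit 0x44d), (nat_lit 2), (nat_lit 849), (nat_lit 2)⟩)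
(.lf ⟨(nat_lit 394), (nat_lit 2), (nat_lit 0x14286), (nat_lit 3)⟩))))))
(.nd (.nd (.nd (.nd (.nd (.nd (.lf ⟨(nat_lit 195), (nat_lit 2), (nat_lit 0), (nat_lit 0)⟩)
(.lf ⟨(nat_lit 976), (nat_lit 2), (nat_lit 0x40f), (nat_lit 2)⟩))
(.lf ⟨(nat_lit 529), (nat_lit 2), (nat_lit 0x448), (nat_lit 2)⟩))
(.nd (.nd (.lf ⟨(nat_lit 147), (nat_lit 2), (nat_lit 0x4c2), (nat_lit 2)⟩)
(.lf ⟨(nat_lit 331), (nat_lit 2), (nat_lit 0x6532c5), (nat_lit 4)⟩))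
(.lf ⟨(nat_lit 537), (nat_lit 2), (nat_lit 0x648), (nat_lit 2)⟩)))
(.nd (.nd (.nd (.lf ⟨(nat_lit 0x4d3), (nat_lit 2), (nat_lit 0), (nat_lit 0)⟩)
(.lf ⟨(nat_lit 400), (nat_lit 2), (nat_lit 0x406), (nat_lit 2)⟩))
(.lf ⟨(nat_lit 854), (nat_lit 2), (nat_lit 0x58d), (nat_lit 2)⟩))
(.nd (.lf ⟨(nat_lit 86), (nat_lit 2), (nat_lit 0x581), (nat_lit 2)⟩)
(.lf ⟨(nat_lit 527), (nat_lit 2), (nat_lit 968), (nat_lit 2)⟩))))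
(.nd (.nd (.nd (.nd (.lf ⟨(nat_lit 650), (nat_lit 2), (nat_lit 0), (nat_lit 0)⟩)
(.lf ⟨(nat_lit 332), (nat_lit 2), (nat_lit 0x19305), (nat_lit 3)⟩))
(.lf ⟨(nat_lit 528), (nat_lit 2), (nat_lit 0x408), (nat_lit 2)⟩))
(.nd (.nd (.lf ⟨(nat_lit 0x559), (nat_lit 2), (nat_lit 0x655), (nat_lit 2)⟩)
(.lf ⟨(nat_lit 0x165655334f), (nat_lit 7), (nat_lit 0x195954cd3c1), (nat_lit 7)⟩))
(.lf ⟨(nat_lit 0x413), (nat_lit 2), (nat_lit 0x4d0), (nat_lit 2)⟩)))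
(.nd (.nd (.nd (.lf ⟨(nat_lit 85), (nat_lit 2), (nat_lit 0x19541), (nat_lit 3)⟩)
(.lf ⟨(nat_lit 0x1c11430870450c21c11430870450c2), (nat_lit 20), (nat_lit 0x5944cd), (nat_lit 4)⟩))
(.lf ⟨(nat_lit 213), (nat_lit 2), (nat_lit 0x543), (nat_lit 2)⟩))
(.nd (.lf ⟨(nat_lit 345), (nat_lit 2), (nat_lit 0x645), (nat_lit 2)⟩)
(.lf ⟨(nat_lit 651), (nat_lit 2), (nat_lit 0x6582ca), (nat_lit 4)⟩)))))
(.nd (.nd (.nd (.nd (.nd (.lf ⟨(nat_lit 390), (nat_lit 2), (nat_lit 0), (nat_lit 0)⟩)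
(.lf ⟨(nat_lit 403), (nat_lit 2), (nat_lit 0x4c6), (nat_lit 2)⟩))
(.lf ⟨(nat_lit 153), (nat_lit 2), (nat_lit 0x642), (nat_lit 2)⟩))
(.nd (.nd (.lf ⟨(nat_lit 589), (nat_lit 2), (nat_lit 841), (nat_lit 2)⟩)
(.lf ⟨(nat_lit 79), (nat_lit 2), (nat_lit 0x6563c1), (nat_lit 4)⟩))
(.lf ⟨(nat_lit 0x4d5), (nat_lit 2), (nat_lit 0x553), (nat_lit 2)⟩)))
(.nd (.nd (.nd (.lf ⟨(nat_lit 83), (nat_lit 2), (nat_lit 0x164c1), (nat_lit 3)⟩)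
(.lf ⟨(nat_lit 457), (nat_lit 2), (nat_lit 0x513247), (nat_lit 4)⟩))
(.lf ⟨(nat_lit 662), (nat_lit 2), (nat_lit 0x58a), (nat_lit 2)⟩))
(.nd (.lf ⟨(nat_lit 69), (nat_lit 2), (nat_lit 321), (nat_lit 2)⟩)
(.lf ⟨(nat_lit 597), (nat_lit 2), (nat_lit 0x549), (nat_lit 2)⟩))))
(.nd (.nd (.nd (.nd (.lf ⟨(nat_lit 0x410), (nat_lit 2), (nat_lit 0), (nat_lit 0)⟩)
(.lf ⟨(nat_lit 405), (nat_lit 2), (nat_lit 0x546), (nat_lit 2)⟩))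
(.lf ⟨(nat_lit 197), (nat_lit 2), (nat_lit 0x349143), (nat_lit 4)⟩))
(.nd (.nd (.lf ⟨(nat_lit 973), (nat_lit 2), (nat_lit 847), (nat_lit 2)⟩)
(.lf ⟨(nat_lit 0x4a2030812880c204a2030812880c2), (nat_lit 20), (nat_lit 0x64d), (nat_lit 2)⟩))
(.lf ⟨(nat_lit 0x459), (nat_lit 2), (nat_lit 0x651), (nat_lit 2)⟩)))
(.nd (.nd (.nd (.lf ⟨(nat_lit 76), (nat_lit 2), (nat_lit 769), (nat_lit 2)⟩)
(.lf ⟨(nat_lit 651), (nat_lit 2), (nat_lit 0x192ca), (nat_lit 3)⟩))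
(.lf ⟨(nat_lit 793), (nat_lit 2), (nat_lit 0x64c), (nat_lit 2)⟩))
(.nd (.lf ⟨(nat_lit 339), (nat_lit 2), (nat_lit 0x4c5), (nat_lit 2)⟩)
(.lf ⟨(nat_lit 591), (nat_lit 2), (nat_lit 969), (nat_lit 2)⟩)))))))
(.nd (.nd (.nd (.nd (.nd (.nd (.nd (.lf ⟨(nat_lit 130), (nat_lit 2), (nat_lit 0), (nat_lit 0)⟩)
(.lf ⟨(nat_lit 399), (nat_lit 2), (nat_lit 966), (nat_lit 2)⟩))
(.lf ⟨(nat_lit 150), (nat_lit 2), (nat_lit 0x582), (nat_lit 2)⟩))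
(.nd (.nd (.lf ⟨(nat_lit 143), (nat_lit 2), (nat_lit 962), (nat_lit 2)⟩)
(.lf ⟨(nat_lit 202), (nat_lit 2), (nat_lit 0x1958f283), (nat_lit 5)⟩))
(.lf ⟨(nat_lit 211), (nat_lit 2), (nat_lit 0x4c3), (nat_lit 2)⟩)))
(.nd (.nd (.nd (.lf ⟨(nat_lit 73), (nat_lit 2), (nat_lit 0xd241), (nat_lit 3)⟩)
(.lf ⟨(nat_lit 337), (nat_lit 2), (nat_lit 0x445), (nat_lit 2)⟩))
(.lf ⟨(nat_lit 656), (nat_lit 2), (nat_lit 0x40a), (nat_lit 2)⟩))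
(.nd (.lf ⟨(nat_lit 205), (nat_lit 2), (nat_lit 835), (nat_lit 2)⟩)
(.lf ⟨(nat_lit 409), (nat_lit 2), (nat_lit 0x646), (nat_lit 2)⟩))))
(.nd (.nd (.nd (.nd (.lf ⟨(nat_lit 585), (nat_lit 2), (nat_lit 0), (nat_lit 0)⟩)
(.lf ⟨(nat_lit 592), (nat_lit 2), (nat_lit 0x409), (nat_lit 2)⟩))
(.lf ⟨(nat_lit 533), (nat_lit 2), (nat_lit 0x548), (nat_lit 2)⟩))
(.nd (.nd (.lf ⟨(nat_lit 0x4d6), (nat_lit 2), (nat_lit 0x593), (nat_lit 2)⟩)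
(.lf ⟨(nat_lit 0x2880c265655334f), (nat_lit 10), (nat_lit 0x65655334f2880c2), (nat_lit 10)⟩))
(.lf ⟨(nat_lit 0x599), (nat_lit 2), (nat_lit 0x656), (nat_lit 2)⟩)))
(.nd (.nd (.nd (.lf ⟨(nat_lit 0x659), (nat_lit 2), (nat_lit 0), (nat_lit 0)⟩)
(.lf ⟨(nat_lit 0x1c11430870450c21c11430870450c2), (nat_lit 20), (nat_lit 0x6584cd), (nat_lit 4)⟩))
(.lf ⟨(nat_lit 0x456), (nat_lit 2), (nat_lit 0x591), (nat_lit 2)⟩))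
(.nd (.lf ⟨(nat_lit 342), (nat_lit 2), (nat_lit 0x585), (nat_lit 2)⟩)
(.lf ⟨(nat_lit 534), (nat_lit 2), (nat_lit 0x588), (nat_lit 2)⟩)))))
(.nd (.nd (.nd (.nd (.nd (.lf ⟨(nat_lit 66), (nat_lit 2), (nat_lit 0x5081), (nat_lit 3)⟩)
(.lf ⟨(nat_lit 214), (nat_lit 2), (nat_lit 0x583), (nat_lit 2)⟩))
(.lf ⟨(nat_lit 661), (nat_lit 2), (nat_lit 0x54a), (nat_lit 2)⟩))
(.nd (.nd (.lf ⟨(nat_lit 393), (nat_lit 2), (nat_lit 582), (nat_lit 2)⟩)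
(.lf ⟨(nat_lit 136), (nat_lit 2), (nat_lit 0x13202), (nat_lit 3)⟩))
(.lf ⟨(nat_lit 531), (nat_lit 2), (nat_lit 0x4c8), (nat_lit 2)⟩)))
(.nd (.nd (.nd (.lf ⟨(nat_lit 0x596), (nat_lit 2), (nat_lit 0), (nat_lit 0)⟩)
(.lf ⟨(nat_lit 586), (nat_lit 2), (nat_lit 649), (nat_lit 2)⟩))
(.lf ⟨(nat_lit 853), (nat_lit 2), (nat_lit 0x54d), (nat_lit 2)⟩))
(.nd (.lf ⟨(nat_lit 131), (nat_lit 2), (nat_lit 0xd0c2), (nat_lit 3)⟩)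
(.lf ⟨(nat_lit 0x4d9), (nat_lit 2), (nat_lit 0x653), (nat_lit 2)⟩))))
(.nd (.nd (.nd (.nd (.lf ⟨(nat_lit 975), (nat_lit 2), (nat_lit 0), (nat_lit 0)⟩)
(.lf ⟨(nat_lit 328), (nat_lit 2), (nat_lit 0x19590205), (nat_lit 5)⟩))
(.lf ⟨(nat_lit 326), (nat_lit 2), (nat_lit 0xd185), (nat_lit 3)⟩))
(.nd (.nd (.lf ⟨(nat_lit 329), (nat_lit 2), (nat_lit 581), (nat_lit 2)⟩)
(.lf ⟨(nat_lit 0x5954d140f3091855954d140f309185), (nat_lit 20), (nat_lit 0x64d), (nat_lit 2)⟩))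
(.lf ⟨(nat_lit 0x455), (nat_lit 2), (nat_lit 0x551), (nat_lit 2)⟩)))
(.nd (.nd (.nd (.lf ⟨(nat_lit 200), (nat_lit 2), (nat_lit 515), (nat_lit 2)⟩)
(.lf ⟨(nat_lit 24), (nat_lit 1), (nat_lit 0), (nat_lit 0)⟩))
(.lf ⟨(nat_lit 851), (nat_lit 2), (nat_lit 0x4cd), (nat_lit 2)⟩))
(.nd (.lf ⟨(nat_lit 0x415), (nat_lit 2), (nat_lit 0x550), (nat_lit 2)⟩)
(.lf ⟨(nat_lit 0x598), (nat_lit 2), (nat_lit 0x616), (nat_lit 2)⟩))))))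
(.nd (.nd (.nd (.nd (.nd (.nd (.lf ⟨(nat_lit 260), (nat_lit 2), (nat_lit 0), (nat_lit 0)⟩)
(.lf ⟨(nat_lit 0x411), (nat_lit 2), (nat_lit 0x450), (nat_lit 2)⟩))
(.lf ⟨(nat_lit 406), (nat_lit 2), (nat_lit 0x586), (nat_lit 2)⟩))
(.nd (.nd (.lf ⟨(nat_lit 149), (nat_lit 2), (nat_lit 0x542), (nat_lit 2)⟩)
(.lf ⟨(nat_lit 457), (nat_lit 2), (nat_lit 0x19593247), (nat_lit 5)⟩))
(.lf ⟨(nat_lit 652), (nat_lit 2), (nat_lit 0x1930a), (nat_lit 3)⟩)))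
(.nd (.nd (.nd (.lf ⟨(nat_lit 79), (nat_lit 2), (nat_lit 0x143c1), (nat_lit 3)⟩)
(.lf ⟨(nat_lit 335), (nat_lit 2), (nat_lit 965), (nat_lit 2)⟩))
(.lf ⟨(nat_lit 0x40d), (nat_lit 2), (nat_lit 848), (nat_lit 2)⟩))
(.nd (.lf ⟨(nat_lit 89), (nat_lit 2), (nat_lit 0x641), (nat_lit 2)⟩)
(.lf ⟨(nat_lit 522), (nat_lit 2), (nat_lit 0x15288), (nat_lit 3)⟩))))
(.nd (.nd (.nd (.nd (.lf ⟨(nat_lit 780), (nat_lit 2), (nat_lit 0), (nat_lit 0)⟩)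
(.lf ⟨(nat_lit 521), (nat_lit 2), (nat_lit 584), (nat_lit 2)⟩))
(.lf ⟨(nat_lit 653), (nat_lit 2), (nat_lit 842), (nat_lit 2)⟩))
(.nd (.nd (.lf ⟨(nat_lit 333), (nat_lit 2), (nat_lit 837), (nat_lit 2)⟩)
(.lf ⟨(nat_lit 0x12880c2), (nat_lit 5), (nat_lit 0x1934c289206143081), (nat_lit 11)⟩))
(.lf ⟨(nat_lit 0x556), (nat_lit 2), (nat_lit 0x595), (nat_lit 2)⟩)))
(.nd (.nd (.nd (.lf ⟨(nat_lit 65), (nat_lit 2), (nat_lit 0), (nat_lit 0)⟩)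
(.lf ⟨(nat_lit 20), (nat_lit 1), (nat_lit 0x19616), (nat_lit 3)⟩))
(.lf ⟨(nat_lit 0x416), (nat_lit 2), (nat_lit 0x590), (nat_lit 2)⟩))
(.nd (.lf ⟨(nat_lit 401), (nat_lit 2), (nat_lit 0x446), (nat_lit 2)⟩)
(.lf ⟨(nat_lit 463), (nat_lit 2), (nat_lit 0x6583c7), (nat_lit 4)⟩)))))
(.nd (.nd (.nd (.nd (.nd (.lf ⟨(nat_lit 67), (nat_lit 2), (nat_lit 0x60c1), (nat_lit 3)⟩)
(.lf ⟨(nat_lit 207), (nat_lit 2), (nat_lit 963), (nat_lit 2)⟩))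
(.lf ⟨(nat_lit 781), (nat_lit 2), (nat_lit 844), (nat_lit 2)⟩))
(.nd (.nd (.lf ⟨(nat_lit 784), (nat_lit 2), (nat_lit 0x40c), (nat_lit 2)⟩)
(.lf ⟨(nat_lit 0x65655334f65655334f), (nat_lit 12), (nat_lit 0), (nat_lit 0)⟩))
(.lf ⟨(nat_lit 601), (nat_lit 2), (nat_lit 0x649), (nat_lit 2)⟩)))
(.nd (.nd (.nd (.lf ⟨(nat_lit 0x618), (nat_lit 2), (nat_lit 0), (nat_lit 0)⟩)
(.lf ⟨(nat_lit 269), (nat_lit 2), (nat_lit 0x613344), (nat_lit 4)⟩))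
(.lf ⟨(nat_lit 981), (nat_lit 2), (nat_lit 0x54f), (nat_lit 2)⟩))
(.nd (.lf ⟨(nat_lit 74), (nat_lit 2), (nat_lit 641), (nat_lit 2)⟩)
(.lf ⟨(nat_lit 985), (nat_lit 2), (nat_lit 0x64f), (nat_lit 2)⟩))))
(.nd (.nd (.nd (.nd (.lf ⟨(nat_lit 0x451), (nat_lit 2), (nat_lit 0), (nat_lit 0)⟩)
(.lf ⟨(nat_lit 217), (nat_lit 2), (nat_lit 0x643), (nat_lit 2)⟩))
(.lf ⟨(nat_lit 598), (nat_lit 2), (nat_lit 0x589), (nat_lit 2)⟩))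
(.nd (.lf ⟨(nat_lit 330), (nat_lit 2), (nat_lit 645), (nat_lit 2)⟩)
(.lf ⟨(nat_lit 0x453), (nat_lit 2), (nat_lit 0x4d1), (nat_lit 2)⟩)))
(.nd (.nd (.nd (.lf ⟨(nat_lit 138), (nat_lit 2), (nat_lit 642), (nat_lit 2)⟩)
(.lf ⟨(nat_lit 463), (nat_lit 2), (nat_lit 0x193c7), (nat_lit 3)⟩))
(.lf ⟨(nat_lit 278), (nat_lit 2), (nat_lit 0x584), (nat_lit 2)⟩))
(.nd (.lf ⟨(nat_lit 70), (nat_lit 2), (nat_lit 385), (nat_lit 2)⟩)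
(.lf ⟨(nat_lit 657), (nat_lit 2), (nat_lit 0x44a), (nat_lit 2)⟩))))))))

/-- Substitution. -/
def s6 : List (ℕ × ℕ) := [((nat_lit 0x2880c2), (nat_lit 4)), ((nat_lit 1), (nat_lit 1)), ((nat_lit 0x65655334f), (nat_lit 6))]

/-- Context. -/
noncomputable def x6 : ℕ → ℕ × ℕ :=
  mkc d3 154 s3 x3 (nth [] (Cl.alts (nsCl 2 [[2, 1, 2], [0, 1, 3], [0], [0, 1]])) 1)

set_option maxRecDepth 100000 in
/-- Facts. -/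
noncomputable def d7 : Tr :=
(.nd (.nd (.nd (.nd (.nd (.nd (.lf ⟨(nat_lit 65), (nat_lit 2), (nat_lit 0), (nat_lit 0)⟩)
(.lf ⟨(nat_lit 0x4a2030812880c204a2030812880c2), (nat_lit 20), (nat_lit 0), (nat_lit 0)⟩))
(.lf ⟨(nat_lit 69), (nat_lit 2), (nat_lit 321), (nat_lit 2)⟩))
(.nd (.nd (.lf ⟨(nat_lit 72), (nat_lit 2), (nat_lit 0xc201), (nat_lit 3)⟩)
(.lf ⟨(nat_lit 0x1202), (nat_lit 3), (nat_lit 0xc205081), (nat_lit 5)⟩))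
(.lf ⟨(nat_lit 0x599), (nat_lit 2), (nat_lit 0x656), (nat_lit 2)⟩)))
(.nd (.nd (.nd (.lf ⟨(nat_lit 66), (nat_lit 2), (nat_lit 0x5081), (nat_lit 3)⟩)
(.lf ⟨(nat_lit 328), (nat_lit 2), (nat_lit 0x650205), (nat_lit 4)⟩))
(.lf ⟨(nat_lit 461), (nat_lit 2), (nat_lit 0x16347), (nat_lit 3)⟩))
(.nd (.lf ⟨(nat_lit 76), (nat_lit 2), (nat_lit 769), (nat_lit 2)⟩)
(.lf ⟨(nat_lit 328), (nat_lit 2), (nat_lit 0x19590205), (nat_lit 5)⟩))))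
(.nd (.nd (.nd (.nd (.lf ⟨(nat_lit 260), (nat_lit 2), (nat_lit 0), (nat_lit 0)⟩)
(.lf ⟨(nat_lit 131), (nat_lit 2), (nat_lit 0x190c2), (nat_lit 3)⟩))
(.lf ⟨(nat_lit 528), (nat_lit 2), (nat_lit 0x408), (nat_lit 2)⟩))
(.nd (.nd (.lf ⟨(nat_lit 0x659), (nat_lit 2), (nat_lit 0), (nat_lit 0)⟩)
(.lf ⟨(nat_lit 0x650305650305), (nat_lit 8), (nat_lit 25), (nat_lit 1)⟩))
(.lf ⟨(nat_lit 0x4d9), (nat_lit 2), (nat_lit 0x653), (nat_lit 2)⟩)))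
(.nd (.nd (.nd (.lf ⟨(nat_lit 520), (nat_lit 2), (nat_lit 0), (nat_lit 0)⟩)
(.lf ⟨(nat_lit 136), (nat_lit 2), (nat_lit 514), (nat_lit 2)⟩))
(.lf ⟨(nat_lit 537), (nat_lit 2), (nat_lit 0x648), (nat_lit 2)⟩))
(.nd (.lf ⟨(nat_lit 336), (nat_lit 2), (nat_lit 0x405), (nat_lit 2)⟩)
(.lf ⟨(nat_lit 136), (nat_lit 2), (nat_lit 0x13202), (nat_lit 3)⟩)))))
(.nd (.nd (.nd (.nd (.nd (.lf ⟨(nat_lit 130), (nat_lit 2), (nat_lit 0), (nat_lit 0)⟩)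
(.lf ⟨(nat_lit 13), (nat_lit 1), (nat_lit 25), (nat_lit 1)⟩))
(.lf ⟨(nat_lit 345), (nat_lit 2), (nat_lit 0x645), (nat_lit 2)⟩))
(.nd (.nd (.lf ⟨(nat_lit 0x410), (nat_lit 2), (nat_lit 0), (nat_lit 0)⟩)
(.lf ⟨(nat_lit 0x30814204c205081), (nat_lit 10), (nat_lit 0x650305), (nat_lit 4)⟩))
(.lf ⟨(nat_lit 281), (nat_lit 2), (nat_lit 0x644), (nat_lit 2)⟩)))
(.nd (.nd (.nd (.lf ⟨(nat_lit 455), (nat_lit 2), (nat_lit 0), (nat_lit 0)⟩)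
(.lf ⟨(nat_lit 19), (nat_lit 1), (nat_lit 0), (nat_lit 0)⟩))
(.lf ⟨(nat_lit 793), (nat_lit 2), (nat_lit 0x64c), (nat_lit 2)⟩))
(.nd (.lf ⟨(nat_lit 784), (nat_lit 2), (nat_lit 0x40c), (nat_lit 2)⟩)
(.lf ⟨(nat_lit 269), (nat_lit 2), (nat_lit 0x13344), (nat_lit 3)⟩))))
(.nd (.nd (.nd (.nd (.lf ⟨(nat_lit 325), (nat_lit 2), (nat_lit 0), (nat_lit 0)⟩)
(.lf ⟨(nat_lit 22), (nat_lit 1), (nat_lit 0), (nat_lit 0)⟩))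
(.lf ⟨(nat_lit 473), (nat_lit 2), (nat_lit 0x647), (nat_lit 2)⟩))
(.nd (.nd (.lf ⟨(nat_lit 65), (nat_lit 2), (nat_lit 0), (nat_lit 0)⟩)
(.lf ⟨(nat_lit 0x48081202048081202), (nat_lit 12), (nat_lit 25), (nat_lit 1)⟩))
(.lf ⟨(nat_lit 332), (nat_lit 2), (nat_lit 0x19305), (nat_lit 3)⟩)))
(.nd (.nd (.nd (.lf ⟨(nat_lit 780), (nat_lit 2), (nat_lit 0), (nat_lit 0)⟩)
(.lf ⟨(nat_lit 0x202202), (nat_lit 4), (nat_lit 0), (nat_lit 0)⟩))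
(.lf ⟨(nat_lit 0x419), (nat_lit 2), (nat_lit 0x650), (nat_lit 2)⟩))
(.nd (.lf ⟨(nat_lit 131), (nat_lit 2), (nat_lit 0xd0c2), (nat_lit 3)⟩)
(.lf ⟨(nat_lit 0x4a2030812880c204a2030812880c2), (nat_lit 20), (nat_lit 0x64d), (nat_lit 2)⟩))))))

/-- Substitution. -/
def s7 : List (ℕ × ℕ) := [((nat_lit 514), (nat_lit 2)), ((nat_lit 1), (nat_lit 1))]

/-- Context. -/
noncomputable def x7 : ℕ → ℕ × ℕ :=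
  mkc d6 175 s6 x6 (nth [] (Cl.alts (nsCl 1 [[1, 1], [0, 1], [0]])) 0)

set_option maxRecDepth 100000 in
/-- Facts. -/
noncomputable def d8 : Tr :=
(.nd (.nd (.nd (.lf ⟨(nat_lit 131), (nat_lit 2), (nat_lit 0x190c2), (nat_lit 3)⟩)
(.lf ⟨(nat_lit 131), (nat_lit 2), (nat_lit 194), (nat_lit 2)⟩))
(.lf ⟨(nat_lit 0x48081202048081202), (nat_lit 12), (nat_lit 0), (nat_lit 0)⟩))
(.nd (.lf ⟨(nat_lit 0x48081202048081202), (nat_lit 12), (nat_lit 25), (nat_lit 1)⟩)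
(.lf ⟨(nat_lit 25), (nat_lit 1), (nat_lit 0), (nat_lit 0)⟩)))

/-- Context. -/
noncomputable def x8 : ℕ → ℕ × ℕ :=
  mkc d7 44 s7 x7 (nth [] (Cl.alts (nsCl 0 [[0], [0]])) 0)

set_option maxRecDepth 100000 in
/-- Facts. -/
noncomputable def d9 : Tr :=
(.nd (.nd (.nd (.nd (.nd (.nd (.nd (.lf ⟨(nat_lit 65), (nat_lit 2), (nat_lit 0), (nat_lit 0)⟩)
(.lf ⟨(nat_lit 201), (nat_lit 2), (nat_lit 579), (nat_lit 2)⟩))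
(.nd (.lf ⟨(nat_lit 329), (nat_lit 2), (nat_lit 581), (nat_lit 2)⟩)
(.lf ⟨(nat_lit 0x158d), (nat_lit 3), (nat_lit 0x16341), (nat_lit 3)⟩)))
(.nd (.nd (.lf ⟨(nat_lit 0x555), (nat_lit 2), (nat_lit 0), (nat_lit 0)⟩)
(.lf ⟨(nat_lit 0x4a2030812880c204a2030812880c2), (nat_lit 20), (nat_lit 0x65655334f), (nat_lit 6)⟩))
(.lf ⟨(nat_lit 470), (nat_lit 2), (nat_lit 0x587), (nat_lit 2)⟩)))
(.nd (.nd (.nd (.lf ⟨(nat_lit 455), (nat_lit 2), (nat_lit 0), (nat_lit 0)⟩)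
(.lf ⟨(nat_lit 586), (nat_lit 2), (nat_lit 649), (nat_lit 2)⟩))
(.nd (.lf ⟨(nat_lit 74), (nat_lit 2), (nat_lit 641), (nat_lit 2)⟩)
(.lf ⟨(nat_lit 0x2850c204a1430812850c204a143081), (nat_lit 20), (nat_lit 13), (nat_lit 1)⟩)))
(.nd (.nd (.lf ⟨(nat_lit 77), (nat_lit 2), (nat_lit 833), (nat_lit 2)⟩)
(.lf ⟨(nat_lit 331), (nat_lit 2), (nat_lit 0x132c5), (nat_lit 3)⟩))
(.lf ⟨(nat_lit 278), (nat_lit 2), (nat_lit 0x584), (nat_lit 2)⟩))))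
(.nd (.nd (.nd (.nd (.lf ⟨(nat_lit 325), (nat_lit 2), (nat_lit 0), (nat_lit 0)⟩)
(.lf ⟨(nat_lit 332), (nat_lit 2), (nat_lit 0x19305), (nat_lit 3)⟩))
(.nd (.lf ⟨(nat_lit 86), (nat_lit 2), (nat_lit 0x581), (nat_lit 2)⟩)
(.lf ⟨(nat_lit 0x2850c24c9), (nat_lit 6), (nat_lit 0x4c92850c2), (nat_lit 6)⟩)))
(.nd (.nd (.lf ⟨(nat_lit 65), (nat_lit 2), (nat_lit 0), (nat_lit 0)⟩)
(.lf ⟨(nat_lit 265), (nat_lit 2), (nat_lit 0x590244), (nat_lit 4)⟩))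
(.lf ⟨(nat_lit 662), (nat_lit 2), (nat_lit 0x58a), (nat_lit 2)⟩)))
(.nd (.nd (.nd (.lf ⟨(nat_lit 139), (nat_lit 2), (nat_lit 0xf2c2), (nat_lit 3)⟩)
(.lf ⟨(nat_lit 202), (nat_lit 2), (nat_lit 0x1958f283), (nat_lit 5)⟩))
(.lf ⟨(nat_lit 653), (nat_lit 2), (nat_lit 842), (nat_lit 2)⟩))
(.nd (.nd (.lf ⟨(nat_lit 589), (nat_lit 2), (nat_lit 841), (nat_lit 2)⟩)
(.lf ⟨(nat_lit 328), (nat_lit 2), (nat_lit 0x590205), (nat_lit 4)⟩))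
(.lf ⟨(nat_lit 0x556), (nat_lit 2), (nat_lit 0x595), (nat_lit 2)⟩)))))
(.nd (.nd (.nd (.nd (.nd (.lf ⟨(nat_lit 195), (nat_lit 2), (nat_lit 0), (nat_lit 0)⟩)
(.lf ⟨(nat_lit 403), (nat_lit 2), (nat_lit 0x4c6), (nat_lit 2)⟩))
(.nd (.lf ⟨(nat_lit 133), (nat_lit 2), (nat_lit 322), (nat_lit 2)⟩)
(.lf ⟨(nat_lit 0x2850c22850c2), (nat_lit 8), (nat_lit 0x4c9), (nat_lit 2)⟩)))
(.nd (.nd (.lf ⟨(nat_lit 83), (nat_lit 2), (nat_lit 0x164c1), (nat_lit 3)⟩)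
(.lf ⟨(nat_lit 139), (nat_lit 2), (nat_lit 0x165532c2), (nat_lit 5)⟩))
(.lf ⟨(nat_lit 853), (nat_lit 2), (nat_lit 0x54d), (nat_lit 2)⟩)))
(.nd (.nd (.nd (.lf ⟨(nat_lit 134), (nat_lit 2), (nat_lit 0x9182), (nat_lit 3)⟩)
(.lf ⟨(nat_lit 463), (nat_lit 2), (nat_lit 0x193c7), (nat_lit 3)⟩))
(.lf ⟨(nat_lit 339), (nat_lit 2), (nat_lit 0x4c5), (nat_lit 2)⟩))
(.nd (.nd (.lf ⟨(nat_lit 277), (nat_lit 2), (nat_lit 0x544), (nat_lit 2)⟩)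
(.lf ⟨(nat_lit 332), (nat_lit 2), (nat_lit 773), (nat_lit 2)⟩))
(.lf ⟨(nat_lit 0x4d5), (nat_lit 2), (nat_lit 0x553), (nat_lit 2)⟩))))
(.nd (.nd (.nd (.nd (.lf ⟨(nat_lit 390), (nat_lit 2), (nat_lit 0), (nat_lit 0)⟩)
(.lf ⟨(nat_lit 328), (nat_lit 2), (nat_lit 0x19590205), (nat_lit 5)⟩))
(.nd (.lf ⟨(nat_lit 198), (nat_lit 2), (nat_lit 387), (nat_lit 2)⟩)
(.lf ⟨(nat_lit 0x2850c204a143081), (nat_lit 10), (nat_lit 0x13185), (nat_lit 3)⟩)))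
(.nd (.nd (.lf ⟨(nat_lit 137), (nat_lit 2), (nat_lit 578), (nat_lit 2)⟩)
(.lf ⟨(nat_lit 394), (nat_lit 2), (nat_lit 0x16286), (nat_lit 3)⟩))
(.lf ⟨(nat_lit 659), (nat_lit 2), (nat_lit 0x4ca), (nat_lit 2)⟩)))
(.nd (.nd (.nd (.lf ⟨(nat_lit 73), (nat_lit 2), (nat_lit 0xd241), (nat_lit 3)⟩)
(.lf ⟨(nat_lit 457), (nat_lit 2), (nat_lit 0x19593247), (nat_lit 5)⟩))
(.lf ⟨(nat_lit 197), (nat_lit 2), (nat_lit 0x349143), (nat_lit 4)⟩))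
(.nd (.nd (.lf ⟨(nat_lit 333), (nat_lit 2), (nat_lit 837), (nat_lit 2)⟩)
(.lf ⟨(nat_lit 139), (nat_lit 2), (nat_lit 0x5932c2), (nat_lit 4)⟩))
(.lf ⟨(nat_lit 0x58d58d), (nat_lit 4), (nat_lit 0), (nat_lit 0)⟩))))))
(.nd (.nd (.nd (.nd (.nd (.nd (.lf ⟨(nat_lit 130), (nat_lit 2), (nat_lit 0), (nat_lit 0)⟩)
(.lf ⟨(nat_lit 214), (nat_lit 2), (nat_lit 0x583), (nat_lit 2)⟩))
(.nd (.lf ⟨(nat_lit 330), (nat_lit 2), (nat_lit 645), (nat_lit 2)⟩)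
(.lf ⟨(nat_lit 0x14c9), (nat_lit 3), (nat_lit 0x16353241), (nat_lit 5)⟩)))
(.nd (.nd (.lf ⟨(nat_lit 0x596), (nat_lit 2), (nat_lit 0), (nat_lit 0)⟩)
(.lf ⟨(nat_lit 15), (nat_lit 1), (nat_lit 0x16553), (nat_lit 3)⟩))
(.lf ⟨(nat_lit 854), (nat_lit 2), (nat_lit 0x58d), (nat_lit 2)⟩)))
(.nd (.nd (.nd (.lf ⟨(nat_lit 585), (nat_lit 2), (nat_lit 0), (nat_lit 0)⟩)
(.lf ⟨(nat_lit 651), (nat_lit 2), (nat_lit 0x192ca), (nat_lit 3)⟩))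
(.lf ⟨(nat_lit 342), (nat_lit 2), (nat_lit 0x585), (nat_lit 2)⟩))
(.nd (.nd (.lf ⟨(nat_lit 147), (nat_lit 2), (nat_lit 0x4c2), (nat_lit 2)⟩)
(.lf ⟨(nat_lit 457), (nat_lit 2), (nat_lit 0x593247), (nat_lit 4)⟩))
(.lf ⟨(nat_lit 211), (nat_lit 2), (nat_lit 0x4c3), (nat_lit 2)⟩))))
(.nd (.nd (.nd (.nd (.lf ⟨(nat_lit 66), (nat_lit 2), (nat_lit 0x5081), (nat_lit 3)⟩)
(.lf ⟨(nat_lit 80), (nat_lit 2), (nat_lit 0x19401), (nat_lit 3)⟩))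
(.nd (.lf ⟨(nat_lit 131), (nat_lit 2), (nat_lit 0xd0c2), (nat_lit 3)⟩)
(.lf ⟨(nat_lit 0xa143081), (nat_lit 5), (nat_lit 0xa143081), (nat_lit 5)⟩)))
(.nd (.nd (.lf ⟨(nat_lit 141), (nat_lit 2), (nat_lit 834), (nat_lit 2)⟩)
(.lf ⟨(nat_lit 25), (nat_lit 1), (nat_lit 0), (nat_lit 0)⟩))
(.lf ⟨(nat_lit 0x416), (nat_lit 2), (nat_lit 0x590), (nat_lit 2)⟩)))
(.nd (.nd (.nd (.lf ⟨(nat_lit 845), (nat_lit 2), (nat_lit 0), (nat_lit 0)⟩)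
(.lf ⟨(nat_lit 331), (nat_lit 2), (nat_lit 0x6532c5), (nat_lit 4)⟩))
(.lf ⟨(nat_lit 326), (nat_lit 2), (nat_lit 0xd185), (nat_lit 3)⟩))
(.nd (.nd (.lf ⟨(nat_lit 0x4d6), (nat_lit 2), (nat_lit 0x593), (nat_lit 2)⟩)
(.lf ⟨(nat_lit 651), (nat_lit 2), (nat_lit 714), (nat_lit 2)⟩))
(.lf ⟨(nat_lit 271), (nat_lit 2), (nat_lit 0x153c4), (nat_lit 3)⟩)))))
(.nd (.nd (.nd (.nd (.nd (.lf ⟨(nat_lit 260), (nat_lit 2), (nat_lit 0), (nat_lit 0)⟩)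
(.lf ⟨(nat_lit 0x4c94c9), (nat_lit 4), (nat_lit 0), (nat_lit 0)⟩))
(.nd (.lf ⟨(nat_lit 205), (nat_lit 2), (nat_lit 835), (nat_lit 2)⟩)
(.lf ⟨(nat_lit 0x2850c258d), (nat_lit 6), (nat_lit 0x58d2850c2), (nat_lit 6)⟩)))
(.nd (.nd (.lf ⟨(nat_lit 0x659), (nat_lit 2), (nat_lit 0), (nat_lit 0)⟩)
(.lf ⟨(nat_lit 21), (nat_lit 1), (nat_lit 0), (nat_lit 0)⟩))
(.lf ⟨(nat_lit 275), (nat_lit 2), (nat_lit 0x4c4), (nat_lit 2)⟩)))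
(.nd (.nd (.nd (.lf ⟨(nat_lit 650), (nat_lit 2), (nat_lit 0), (nat_lit 0)⟩)
(.lf ⟨(nat_lit 394), (nat_lit 2), (nat_lit 0x656286), (nat_lit 4)⟩))
(.lf ⟨(nat_lit 150), (nat_lit 2), (nat_lit 0x582), (nat_lit 2)⟩))
(.nd (.nd (.lf ⟨(nat_lit 393), (nat_lit 2), (nat_lit 582), (nat_lit 2)⟩)
(.lf ⟨(nat_lit 80), (nat_lit 2), (nat_lit 0x401), (nat_lit 2)⟩))
(.lf ⟨(nat_lit 0x413), (nat_lit 2), (nat_lit 0x4d0), (nat_lit 2)⟩))))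
(.nd (.nd (.nd (.nd (.lf ⟨(nat_lit 67), (nat_lit 2), (nat_lit 0x60c1), (nat_lit 3)⟩)
(.lf ⟨(nat_lit 265), (nat_lit 2), (nat_lit 0x55340f244), (nat_lit 6)⟩))
(.nd (.lf ⟨(nat_lit 69), (nat_lit 2), (nat_lit 321), (nat_lit 2)⟩)
(.lf ⟨(nat_lit 0x4c6153185), (nat_lit 6), (nat_lit 13), (nat_lit 1)⟩)))
(.nd (.nd (.lf ⟨(nat_lit 138), (nat_lit 2), (nat_lit 642), (nat_lit 2)⟩)
(.lf ⟨(nat_lit 202), (nat_lit 2), (nat_lit 0x13283), (nat_lit 3)⟩))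
(.lf ⟨(nat_lit 851), (nat_lit 2), (nat_lit 0x4cd), (nat_lit 2)⟩)))
(.nd (.nd (.nd (.lf ⟨(nat_lit 0x4d3), (nat_lit 2), (nat_lit 0), (nat_lit 0)⟩)
(.lf ⟨(nat_lit 0x4a2030812880c204a2030812880c2), (nat_lit 20), (nat_lit 0x64d), (nat_lit 2)⟩))
(.lf ⟨(nat_lit 598), (nat_lit 2), (nat_lit 0x589), (nat_lit 2)⟩))
(.nd (.nd (.lf ⟨(nat_lit 397), (nat_lit 2), (nat_lit 838), (nat_lit 2)⟩)
(.lf ⟨(nat_lit 0x4c958d), (nat_lit 4), (nat_lit 0x58d4c9), (nat_lit 4)⟩))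
(.lf ⟨(nat_lit 467), (nat_lit 2), (nat_lit 0x4c7), (nat_lit 2)⟩)))))))

/-- Substitution. -/
def s9 : List (ℕ × ℕ) := [((nat_lit 1), (nat_lit 1)), ((nat_lit 0x2850c2), (nat_lit 4)), ((nat_lit 0x58d), (nat_lit 2)), ((nat_lit 0x4c9), (nat_lit 2))]

/-- Context. -/
noncomputable def x9 : ℕ → ℕ × ℕ :=
  mkc d6 175 s6 x6 (nth [] (Cl.alts (nsCl 1 [[1, 1], [0, 1], [0]])) 1)

set_option maxRecDepth 100000 in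
/-- Facts. -/
noncomputable def d10 : Tr :=
(.nd (.nd (.nd (.lf ⟨(nat_lit 131), (nat_lit 2), (nat_lit 0xd0c2), (nat_lit 3)⟩)
(.lf ⟨(nat_lit 131), (nat_lit 2), (nat_lit 194), (nat_lit 2)⟩))
(.lf ⟨(nat_lit 0x2850c204a1430812850c204a143081), (nat_lit 20), (nat_lit 0), (nat_lit 0)⟩))
(.nd (.lf ⟨(nat_lit 0x2850c204a1430812850c204a143081), (nat_lit 20), (nat_lit 13), (nat_lit 1)⟩)
(.lf ⟨(nat_lit 13), (nat_lit 1), (nat_lit 0), (nat_lit 0)⟩)))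

/-- Context. -/
noncomputable def x10 : ℕ → ℕ × ℕ :=
  mkc d9 105 s9 x9 (nth [] (Cl.alts (nsCl 2 [[0, 1, 3], [2, 1, 2], [0], [0, 1]])) 0)

set_option maxRecDepth 100000 in
/-- Facts. -/
noncomputable def d11 : Tr :=
(.nd (.nd (.nd (.nd (.nd (.nd (.nd (.lf ⟨(nat_lit 65), (nat_lit 2), (nat_lit 0), (nat_lit 0)⟩)
(.lf ⟨(nat_lit 139), (nat_lit 2), (nat_lit 0x5932c2), (nat_lit 4)⟩))
(.lf ⟨(nat_lit 205), (nat_lit 2), (nat_lit 835), (nat_lit 2)⟩))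
(.nd (.nd (.lf ⟨(nat_lit 0x4d3), (nat_lit 2), (nat_lit 0), (nat_lit 0)⟩)
(.lf ⟨(nat_lit 0x1c10c21c10c21c10c21c10c2), (nat_lit 16), (nat_lit 0x4cd), (nat_lit 2)⟩))
(.lf ⟨(nat_lit 851), (nat_lit 2), (nat_lit 0x4cd), (nat_lit 2)⟩)))
(.nd (.nd (.nd (.lf ⟨(nat_lit 585), (nat_lit 2), (nat_lit 0), (nat_lit 0)⟩)
(.lf ⟨(nat_lit 394), (nat_lit 2), (nat_lit 646), (nat_lit 2)⟩))
(.lf ⟨(nat_lit 339), (nat_lit 2), (nat_lit 0x4c5), (nat_lit 2)⟩))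
(.nd (.lf ⟨(nat_lit 459), (nat_lit 2), (nat_lit 711), (nat_lit 2)⟩)
(.lf ⟨(nat_lit 586), (nat_lit 2), (nat_lit 649), (nat_lit 2)⟩))))
(.nd (.nd (.nd (.nd (.lf ⟨(nat_lit 66), (nat_lit 2), (nat_lit 0x5081), (nat_lit 3)⟩)
(.lf ⟨(nat_lit 83), (nat_lit 2), (nat_lit 0x4c1), (nat_lit 2)⟩))
(.lf ⟨(nat_lit 462), (nat_lit 2), (nat_lit 903), (nat_lit 2)⟩))
(.nd (.lf ⟨(nat_lit 71), (nat_lit 2), (nat_lit 449), (nat_lit 2)⟩)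
(.lf ⟨(nat_lit 590), (nat_lit 2), (nat_lit 905), (nat_lit 2)⟩)))
(.nd (.nd (.nd (.lf ⟨(nat_lit 199), (nat_lit 2), (nat_lit 0xb1c3), (nat_lit 3)⟩)
(.lf ⟨(nat_lit 0x704d), (nat_lit 3), (nat_lit 0xd1c1), (nat_lit 3)⟩))
(.lf ⟨(nat_lit 326), (nat_lit 2), (nat_lit 0xd185), (nat_lit 3)⟩))
(.nd (.lf ⟨(nat_lit 333), (nat_lit 2), (nat_lit 837), (nat_lit 2)⟩)
(.lf ⟨(nat_lit 331), (nat_lit 2), (nat_lit 0x132c5), (nat_lit 3)⟩)))))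
(.nd (.nd (.nd (.nd (.nd (.lf ⟨(nat_lit 195), (nat_lit 2), (nat_lit 0), (nat_lit 0)⟩)
(.lf ⟨(nat_lit 0x2850c204a1430812850c204a143081), (nat_lit 20), (nat_lit 0x58d), (nat_lit 2)⟩))
(.lf ⟨(nat_lit 69), (nat_lit 2), (nat_lit 321), (nat_lit 2)⟩))
(.nd (.lf ⟨(nat_lit 0x1c11c1), (nat_lit 4), (nat_lit 0), (nat_lit 0)⟩)
(.lf ⟨(nat_lit 595), (nat_lit 2), (nat_lit 0x4c9), (nat_lit 2)⟩)))
(.nd (.nd (.nd (.lf ⟨(nat_lit 135), (nat_lit 2), (nat_lit 0xa1c2), (nat_lit 3)⟩)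
(.lf ⟨(nat_lit 328), (nat_lit 2), (nat_lit 0x10205), (nat_lit 3)⟩))
(.lf ⟨(nat_lit 391), (nat_lit 2), (nat_lit 0xe1c6), (nat_lit 3)⟩))
(.nd (.lf ⟨(nat_lit 718), (nat_lit 2), (nat_lit 907), (nat_lit 2)⟩)
(.lf ⟨(nat_lit 394), (nat_lit 2), (nat_lit 0x16286), (nat_lit 3)⟩))))
(.nd (.nd (.nd (.nd (.lf ⟨(nat_lit 67), (nat_lit 2), (nat_lit 0x60c1), (nat_lit 3)⟩)
(.lf ⟨(nat_lit 461), (nat_lit 2), (nat_lit 839), (nat_lit 2)⟩))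
(.lf ⟨(nat_lit 398), (nat_lit 2), (nat_lit 902), (nat_lit 2)⟩))
(.nd (.lf ⟨(nat_lit 393), (nat_lit 2), (nat_lit 582), (nat_lit 2)⟩)
(.lf ⟨(nat_lit 0xc20c2), (nat_lit 4), (nat_lit 13), (nat_lit 1)⟩)))
(.nd (.nd (.nd (.lf ⟨(nat_lit 845), (nat_lit 2), (nat_lit 0), (nat_lit 0)⟩)
(.lf ⟨(nat_lit 0x4cd2471850c20533491c6143081), (nat_lit 18), (nat_lit 0x1338b289185), (nat_lit 7)⟩))
(.lf ⟨(nat_lit 909), (nat_lit 2), (nat_lit 846), (nat_lit 2)⟩))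
(.nd (.lf ⟨(nat_lit 329), (nat_lit 2), (nat_lit 581), (nat_lit 2)⟩)
(.lf ⟨(nat_lit 328), (nat_lit 2), (nat_lit 0x590205), (nat_lit 4)⟩))))))
(.nd (.nd (.nd (.nd (.nd (.nd (.lf ⟨(nat_lit 130), (nat_lit 2), (nat_lit 0), (nat_lit 0)⟩)
(.lf ⟨(nat_lit 0x2850c204a1430812850c204a143081), (nat_lit 20), (nat_lit 13), (nat_lit 1)⟩))
(.lf ⟨(nat_lit 131), (nat_lit 2), (nat_lit 0xd0c2), (nat_lit 3)⟩))
(.nd (.lf ⟨(nat_lit 83), (nat_lit 2), (nat_lit 0x164c1), (nat_lit 3)⟩)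
(.lf ⟨(nat_lit 654), (nat_lit 2), (nat_lit 906), (nat_lit 2)⟩)))
(.nd (.nd (.nd (.lf ⟨(nat_lit 650), (nat_lit 2), (nat_lit 0), (nat_lit 0)⟩)
(.lf ⟨(nat_lit 457), (nat_lit 2), (nat_lit 0x13247), (nat_lit 3)⟩))
(.lf ⟨(nat_lit 70), (nat_lit 2), (nat_lit 385), (nat_lit 2)⟩))
(.nd (.lf ⟨(nat_lit 589), (nat_lit 2), (nat_lit 841), (nat_lit 2)⟩)
(.lf ⟨(nat_lit 265), (nat_lit 2), (nat_lit 0x590244), (nat_lit 4)⟩))))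
(.nd (.nd (.nd (.nd (.lf ⟨(nat_lit 390), (nat_lit 2), (nat_lit 0), (nat_lit 0)⟩)
(.lf ⟨(nat_lit 334), (nat_lit 2), (nat_lit 901), (nat_lit 2)⟩))
(.lf ⟨(nat_lit 334), (nat_lit 2), (nat_lit 0x16385), (nat_lit 3)⟩))
(.nd (.lf ⟨(nat_lit 77), (nat_lit 2), (nat_lit 833), (nat_lit 2)⟩)
(.lf ⟨(nat_lit 717), (nat_lit 2), (nat_lit 843), (nat_lit 2)⟩)))
(.nd (.nd (.nd (.lf ⟨(nat_lit 910), (nat_lit 2), (nat_lit 0), (nat_lit 0)⟩)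
(.lf ⟨(nat_lit 0x1c10c2), (nat_lit 4), (nat_lit 0x133491c6143081), (nat_lit 9)⟩))
(.lf ⟨(nat_lit 197), (nat_lit 2), (nat_lit 0x349143), (nat_lit 4)⟩))
(.nd (.lf ⟨(nat_lit 397), (nat_lit 2), (nat_lit 838), (nat_lit 2)⟩)
(.lf ⟨(nat_lit 457), (nat_lit 2), (nat_lit 0x593247), (nat_lit 4)⟩)))))
(.nd (.nd (.nd (.nd (.nd (.lf ⟨(nat_lit 325), (nat_lit 2), (nat_lit 0), (nat_lit 0)⟩)
(.lf ⟨(nat_lit 22), (nat_lit 1), (nat_lit 0), (nat_lit 0)⟩))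
(.lf ⟨(nat_lit 327), (nat_lit 2), (nat_lit 453), (nat_lit 2)⟩))
(.nd (.lf ⟨(nat_lit 845), (nat_lit 2), (nat_lit 0), (nat_lit 0)⟩)
(.lf ⟨(nat_lit 587), (nat_lit 2), (nat_lit 713), (nat_lit 2)⟩)))
(.nd (.nd (.nd (.lf ⟨(nat_lit 715), (nat_lit 2), (nat_lit 0), (nat_lit 0)⟩)
(.lf ⟨(nat_lit 139), (nat_lit 2), (nat_lit 0x132c2), (nat_lit 3)⟩))
(.lf ⟨(nat_lit 653), (nat_lit 2), (nat_lit 842), (nat_lit 2)⟩))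
(.nd (.lf ⟨(nat_lit 915), (nat_lit 2), (nat_lit 0x4ce), (nat_lit 2)⟩)
(.lf ⟨(nat_lit 202), (nat_lit 2), (nat_lit 0x13283), (nat_lit 3)⟩))))
(.nd (.nd (.nd (.nd (.lf ⟨(nat_lit 455), (nat_lit 2), (nat_lit 0), (nat_lit 0)⟩)
(.lf ⟨(nat_lit 265), (nat_lit 2), (nat_lit 0x10244), (nat_lit 3)⟩))
(.lf ⟨(nat_lit 395), (nat_lit 2), (nat_lit 710), (nat_lit 2)⟩))
(.nd (.lf ⟨(nat_lit 458), (nat_lit 2), (nat_lit 647), (nat_lit 2)⟩)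
(.lf ⟨(nat_lit 0x308d), (nat_lit 3), (nat_lit 0xd0c2), (nat_lit 3)⟩)))
(.nd (.nd (.nd (.lf ⟨(nat_lit 73), (nat_lit 2), (nat_lit 0xd241), (nat_lit 3)⟩)
(.lf ⟨(nat_lit 0x4ce2ca24615338b289185), (nat_lit 14), (nat_lit 0x4cd), (nat_lit 2)⟩))
(.lf ⟨(nat_lit 461), (nat_lit 2), (nat_lit 0x16347), (nat_lit 3)⟩))
(.nd (.lf ⟨(nat_lit 330), (nat_lit 2), (nat_lit 645), (nat_lit 2)⟩)
(.lf ⟨(nat_lit 651), (nat_lit 2), (nat_lit 714), (nat_lit 2)⟩)))))))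

/-- Substitution. -/
def s11 : List (ℕ × ℕ) := [((nat_lit 194), (nat_lit 2)), ((nat_lit 449), (nat_lit 2)), ((nat_lit 13), (nat_lit 1))]

/-- Context. -/
noncomputable def x11 : ℕ → ℕ × ℕ :=
  mkc d9 105 s9 x9 (nth [] (Cl.alts (nsCl 2 [[0, 1, 3], [2, 1, 2], [0], [0, 1]])) 1)

set_option maxRecDepth 100000 in
/-- Facts. -/
noncomputable def d12 : Tr :=
(.nd (.nd (.nd (.nd (.lf ⟨(nat_lit 260), (nat_lit 2), (nat_lit 0), (nat_lit 0)⟩)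
(.lf ⟨(nat_lit 131), (nat_lit 2), (nat_lit 0x130c2), (nat_lit 3)⟩))
(.lf ⟨(nat_lit 269), (nat_lit 2), (nat_lit 0x13344), (nat_lit 3)⟩))
(.nd (.nd (.lf ⟨(nat_lit 131), (nat_lit 2), (nat_lit 0xd0c2), (nat_lit 3)⟩)
(.lf ⟨(nat_lit 131), (nat_lit 2), (nat_lit 194), (nat_lit 2)⟩))
(.lf ⟨(nat_lit 0x1c10c21c10c21c10c21c10c2), (nat_lit 16), (nat_lit 0), (nat_lit 0)⟩)))
(.nd (.nd (.nd (.lf ⟨(nat_lit 0x4d3), (nat_lit 2), (nat_lit 0), (nat_lit 0)⟩)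
(.lf ⟨(nat_lit 19), (nat_lit 1), (nat_lit 0), (nat_lit 0)⟩))
(.lf ⟨(nat_lit 0x1c10c21c10c21c10c21c10c2), (nat_lit 16), (nat_lit 0x4cd), (nat_lit 2)⟩))
(.nd (.lf ⟨(nat_lit 275), (nat_lit 2), (nat_lit 0x4c4), (nat_lit 2)⟩)
(.lf ⟨(nat_lit 13), (nat_lit 1), (nat_lit 19), (nat_lit 1)⟩))))

/-- Context. -/
noncomputable def x12 : ℕ → ℕ × ℕ :=
  mkc d11 81 s11 x11 (nth [] (Cl.alts (nsCl 1 [[1, 1], [0, 1], [0]])) 0)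

set_option maxRecDepth 100000 in
/-- Facts. -/
noncomputable def d13 : Tr :=
(.nd (.nd (.nd (.nd (.nd (.nd (.nd (.lf ⟨(nat_lit 65), (nat_lit 2), (nat_lit 0), (nat_lit 0)⟩)
(.lf ⟨(nat_lit 202), (nat_lit 2), (nat_lit 643), (nat_lit 2)⟩))
(.lf ⟨(nat_lit 81), (nat_lit 2), (nat_lit 0x441), (nat_lit 2)⟩))
(.nd (.lf ⟨(nat_lit 65), (nat_lit 2), (nat_lit 0), (nat_lit 0)⟩)
(.lf ⟨(nat_lit 145), (nat_lit 2), (nat_lit 0x442), (nat_lit 2)⟩)))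
(.nd (.nd (.nd (.lf ⟨(nat_lit 780), (nat_lit 2), (nat_lit 0), (nat_lit 0)⟩)
(.lf ⟨(nat_lit 0x4c0c2), (nat_lit 4), (nat_lit 0x34c246143081), (nat_lit 8)⟩))
(.lf ⟨(nat_lit 197), (nat_lit 2), (nat_lit 0x349143), (nat_lit 4)⟩))
(.nd (.lf ⟨(nat_lit 784), (nat_lit 2), (nat_lit 0x40c), (nat_lit 2)⟩)
(.lf ⟨(nat_lit 457), (nat_lit 2), (nat_lit 0x13247), (nat_lit 3)⟩))))
(.nd (.nd (.nd (.nd (.lf ⟨(nat_lit 66), (nat_lit 2), (nat_lit 0x5081), (nat_lit 3)⟩)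
(.lf ⟨(nat_lit 0x35140d450), (nat_lit 6), (nat_lit 0), (nat_lit 0)⟩))
(.lf ⟨(nat_lit 0x44d), (nat_lit 2), (nat_lit 849), (nat_lit 2)⟩))
(.nd (.lf ⟨(nat_lit 144), (nat_lit 2), (nat_lit 0x402), (nat_lit 2)⟩)
(.lf ⟨(nat_lit 202), (nat_lit 2), (nat_lit 0x13283), (nat_lit 3)⟩)))
(.nd (.nd (.lf ⟨(nat_lit 204), (nat_lit 2), (nat_lit 0x11303), (nat_lit 3)⟩)
(.lf ⟨(nat_lit 592), (nat_lit 2), (nat_lit 0x409), (nat_lit 2)⟩))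
(.nd (.lf ⟨(nat_lit 329), (nat_lit 2), (nat_lit 581), (nat_lit 2)⟩)
(.lf ⟨(nat_lit 19), (nat_lit 1), (nat_lit 0), (nat_lit 0)⟩)))))
(.nd (.nd (.nd (.nd (.nd (.lf ⟨(nat_lit 195), (nat_lit 2), (nat_lit 0), (nat_lit 0)⟩)
(.lf ⟨(nat_lit 457), (nat_lit 2), (nat_lit 583), (nat_lit 2)⟩))
(.lf ⟨(nat_lit 396), (nat_lit 2), (nat_lit 774), (nat_lit 2)⟩))
(.nd (.lf ⟨(nat_lit 76), (nat_lit 2), (nat_lit 769), (nat_lit 2)⟩)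
(.lf ⟨(nat_lit 269), (nat_lit 2), (nat_lit 0x13344), (nat_lit 3)⟩)))
(.nd (.nd (.nd (.lf ⟨(nat_lit 140), (nat_lit 2), (nat_lit 0x10302), (nat_lit 3)⟩)
(.lf ⟨(nat_lit 0x450246151409185), (nat_lit 10), (nat_lit 13), (nat_lit 1)⟩))
(.lf ⟨(nat_lit 0x411), (nat_lit 2), (nat_lit 0x450), (nat_lit 2)⟩))
(.nd (.lf ⟨(nat_lit 333), (nat_lit 2), (nat_lit 837), (nat_lit 2)⟩)
(.lf ⟨(nat_lit 0x1c10c21c10c21c10c21c10c2), (nat_lit 16), (nat_lit 0x4cd), (nat_lit 2)⟩))))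
(.nd (.nd (.nd (.nd (.lf ⟨(nat_lit 67), (nat_lit 2), (nat_lit 0x60c1), (nat_lit 3)⟩)
(.lf ⟨(nat_lit 0x30308d450), (nat_lit 6), (nat_lit 0x35140c0c2), (nat_lit 6)⟩))
(.lf ⟨(nat_lit 781), (nat_lit 2), (nat_lit 844), (nat_lit 2)⟩))
(.nd (.lf ⟨(nat_lit 393), (nat_lit 2), (nat_lit 582), (nat_lit 2)⟩)
(.lf ⟨(nat_lit 332), (nat_lit 2), (nat_lit 773), (nat_lit 2)⟩)))
(.nd (.nd (.lf ⟨(nat_lit 73), (nat_lit 2), (nat_lit 0xd241), (nat_lit 3)⟩)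
(.lf ⟨(nat_lit 337), (nat_lit 2), (nat_lit 0x445), (nat_lit 2)⟩))
(.nd (.lf ⟨(nat_lit 205), (nat_lit 2), (nat_lit 835), (nat_lit 2)⟩)
(.lf ⟨(nat_lit 269), (nat_lit 2), (nat_lit 836), (nat_lit 2)⟩))))))
(.nd (.nd (.nd (.nd (.nd (.nd (.lf ⟨(nat_lit 130), (nat_lit 2), (nat_lit 0), (nat_lit 0)⟩)
(.lf ⟨(nat_lit 331), (nat_lit 2), (nat_lit 709), (nat_lit 2)⟩))
(.lf ⟨(nat_lit 69), (nat_lit 2), (nat_lit 321), (nat_lit 2)⟩))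
(.nd (.lf ⟨(nat_lit 141), (nat_lit 2), (nat_lit 834), (nat_lit 2)⟩)
(.lf ⟨(nat_lit 208), (nat_lit 2), (nat_lit 0x403), (nat_lit 2)⟩)))
(.nd (.nd (.nd (.lf ⟨(nat_lit 0x410), (nat_lit 2), (nat_lit 0), (nat_lit 0)⟩)
(.lf ⟨(nat_lit 0x34c24614308134c246143081), (nat_lit 16), (nat_lit 0x11409185), (nat_lit 5)⟩))
(.lf ⟨(nat_lit 0x40d), (nat_lit 2), (nat_lit 848), (nat_lit 2)⟩))
(.nd (.lf ⟨(nat_lit 785), (nat_lit 2), (nat_lit 0x44c), (nat_lit 2)⟩)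
(.lf ⟨(nat_lit 139), (nat_lit 2), (nat_lit 0x132c2), (nat_lit 3)⟩))))
(.nd (.nd (.nd (.nd (.lf ⟨(nat_lit 390), (nat_lit 2), (nat_lit 0), (nat_lit 0)⟩)
(.lf ⟨(nat_lit 0x30308c0c2), (nat_lit 6), (nat_lit 0xd450), (nat_lit 3)⟩))
(.lf ⟨(nat_lit 70), (nat_lit 2), (nat_lit 385), (nat_lit 2)⟩))
(.nd (.lf ⟨(nat_lit 209), (nat_lit 2), (nat_lit 0x443), (nat_lit 2)⟩)
(.lf ⟨(nat_lit 331), (nat_lit 2), (nat_lit 0x132c5), (nat_lit 3)⟩)))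
(.nd (.nd (.lf ⟨(nat_lit 845), (nat_lit 2), (nat_lit 0), (nat_lit 0)⟩)
(.lf ⟨(nat_lit 588), (nat_lit 2), (nat_lit 777), (nat_lit 2)⟩))
(.nd (.lf ⟨(nat_lit 336), (nat_lit 2), (nat_lit 0x405), (nat_lit 2)⟩)
(.lf ⟨(nat_lit 142), (nat_lit 2), (nat_lit 898), (nat_lit 2)⟩)))))
(.nd (.nd (.nd (.nd (.nd (.lf ⟨(nat_lit 325), (nat_lit 2), (nat_lit 0), (nat_lit 0)⟩)
(.lf ⟨(nat_lit 139), (nat_lit 2), (nat_lit 706), (nat_lit 2)⟩))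
(.lf ⟨(nat_lit 401), (nat_lit 2), (nat_lit 0x446), (nat_lit 2)⟩))
(.nd (.lf ⟨(nat_lit 77), (nat_lit 2), (nat_lit 833), (nat_lit 2)⟩)
(.lf ⟨(nat_lit 136), (nat_lit 2), (nat_lit 0x13202), (nat_lit 3)⟩)))
(.nd (.nd (.nd (.lf ⟨(nat_lit 0x451), (nat_lit 2), (nat_lit 0), (nat_lit 0)⟩)
(.lf ⟨(nat_lit 0x4c0c204c0c204c0c204c0c2), (nat_lit 16), (nat_lit 13), (nat_lit 1)⟩))
(.lf ⟨(nat_lit 593), (nat_lit 2), (nat_lit 0x449), (nat_lit 2)⟩))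
(.nd (.lf ⟨(nat_lit 397), (nat_lit 2), (nat_lit 838), (nat_lit 2)⟩)
(.lf ⟨(nat_lit 0x1c10c21c10c21c10c21c10c2), (nat_lit 16), (nat_lit 13), (nat_lit 1)⟩))))
(.nd (.nd (.nd (.nd (.lf ⟨(nat_lit 585), (nat_lit 2), (nat_lit 0), (nat_lit 0)⟩)
(.lf ⟨(nat_lit 0x4d450), (nat_lit 4), (nat_lit 0x351401), (nat_lit 4)⟩))
(.lf ⟨(nat_lit 326), (nat_lit 2), (nat_lit 0xd185), (nat_lit 3)⟩))
(.nd (.lf ⟨(nat_lit 589), (nat_lit 2), (nat_lit 841), (nat_lit 2)⟩)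
(.lf ⟨(nat_lit 80), (nat_lit 2), (nat_lit 0x401), (nat_lit 2)⟩)))
(.nd (.nd (.lf ⟨(nat_lit 142), (nat_lit 2), (nat_lit 0x13382), (nat_lit 3)⟩)
(.lf ⟨(nat_lit 400), (nat_lit 2), (nat_lit 0x406), (nat_lit 2)⟩))
(.nd (.lf ⟨(nat_lit 131), (nat_lit 2), (nat_lit 0xd0c2), (nat_lit 3)⟩)
(.lf ⟨(nat_lit 136), (nat_lit 2), (nat_lit 514), (nat_lit 2)⟩)))))))

/-- Substitution. -/
def s13 : List (ℕ × ℕ) := [((nat_lit 0xc0c2), (nat_lit 3)), ((nat_lit 1), (nat_lit 1)), ((nat_lit 0xd450), (nat_lit 3))]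

/-- Context. -/
noncomputable def x13 : ℕ → ℕ × ℕ :=
  mkc d11 81 s11 x11 (nth [] (Cl.alts (nsCl 1 [[1, 1], [0, 1], [0]])) 1)

set_option maxRecDepth 100000 in
/-- Facts. -/
noncomputable def d14 : Tr :=
(.nd (.nd (.nd (.lf ⟨(nat_lit 131), (nat_lit 2), (nat_lit 0xd0c2), (nat_lit 3)⟩)
(.lf ⟨(nat_lit 131), (nat_lit 2), (nat_lit 194), (nat_lit 2)⟩))
(.lf ⟨(nat_lit 0x4c0c204c0c204c0c204c0c2), (nat_lit 16), (nat_lit 0), (nat_lit 0)⟩))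
(.nd (.lf ⟨(nat_lit 0x4c0c204c0c204c0c204c0c2), (nat_lit 16), (nat_lit 13), (nat_lit 1)⟩)
(.lf ⟨(nat_lit 13), (nat_lit 1), (nat_lit 0), (nat_lit 0)⟩)))

/-- Context. -/
noncomputable def x14 : ℕ → ℕ × ℕ :=
  mkc d13 76 s13 x13 (nth [] (Cl.alts (nsCl 1 [[1, 1], [0, 1], [0]])) 0)

set_option maxRecDepth 100000 in
/-- Facts. -/
noncomputable def d15 : Tr :=
(.nd (.nd (.nd (.nd (.nd (.nd (.nd (.lf ⟨(nat_lit 65), (nat_lit 2), (nat_lit 0), (nat_lit 0)⟩)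
(.lf ⟨(nat_lit 331), (nat_lit 2), (nat_lit 709), (nat_lit 2)⟩))
(.lf ⟨(nat_lit 333), (nat_lit 2), (nat_lit 837), (nat_lit 2)⟩))
(.nd (.nd (.lf ⟨(nat_lit 0x451), (nat_lit 2), (nat_lit 0), (nat_lit 0)⟩)
(.lf ⟨(nat_lit 0x470c2), (nat_lit 4), (nat_lit 0x3491c6143081), (nat_lit 8)⟩))
(.lf ⟨(nat_lit 326), (nat_lit 2), (nat_lit 0xd185), (nat_lit 3)⟩)))
(.nd (.nd (.nd (.lf ⟨(nat_lit 585), (nat_lit 2), (nat_lit 0), (nat_lit 0)⟩)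
(.lf ⟨(nat_lit 328), (nat_lit 2), (nat_lit 0x11205), (nat_lit 3)⟩))
(.lf ⟨(nat_lit 327), (nat_lit 2), (nat_lit 453), (nat_lit 2)⟩))
(.nd (.lf ⟨(nat_lit 203), (nat_lit 2), (nat_lit 707), (nat_lit 2)⟩)
(.lf ⟨(nat_lit 651), (nat_lit 2), (nat_lit 714), (nat_lit 2)⟩))))
(.nd (.nd (.nd (.nd (.lf ⟨(nat_lit 66), (nat_lit 2), (nat_lit 0x5081), (nat_lit 3)⟩)
(.lf ⟨(nat_lit 0x4c0c204c0c204c0c204c0c2), (nat_lit 16), (nat_lit 0xd450), (nat_lit 3)⟩))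
(.lf ⟨(nat_lit 205), (nat_lit 2), (nat_lit 835), (nat_lit 2)⟩))
(.nd (.lf ⟨(nat_lit 141), (nat_lit 2), (nat_lit 834), (nat_lit 2)⟩)
(.lf ⟨(nat_lit 587), (nat_lit 2), (nat_lit 713), (nat_lit 2)⟩)))
(.nd (.nd (.nd (.lf ⟨(nat_lit 199), (nat_lit 2), (nat_lit 0xb1c3), (nat_lit 3)⟩)
(.lf ⟨(nat_lit 0x1c308e), (nat_lit 4), (nat_lit 0x3870c2), (nat_lit 4)⟩))
(.lf ⟨(nat_lit 70), (nat_lit 2), (nat_lit 385), (nat_lit 2)⟩))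
(.nd (.lf ⟨(nat_lit 458), (nat_lit 2), (nat_lit 647), (nat_lit 2)⟩)
(.lf ⟨(nat_lit 394), (nat_lit 2), (nat_lit 646), (nat_lit 2)⟩)))))
(.nd (.nd (.nd (.nd (.nd (.lf ⟨(nat_lit 195), (nat_lit 2), (nat_lit 0), (nat_lit 0)⟩)
(.lf ⟨(nat_lit 139), (nat_lit 2), (nat_lit 706), (nat_lit 2)⟩))
(.lf ⟨(nat_lit 329), (nat_lit 2), (nat_lit 581), (nat_lit 2)⟩))
(.nd (.nd (.lf ⟨(nat_lit 73), (nat_lit 2), (nat_lit 0xd241), (nat_lit 3)⟩)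
(.lf ⟨(nat_lit 0x38b28918538b289185), (nat_lit 12), (nat_lit 13), (nat_lit 1)⟩))
(.lf ⟨(nat_lit 909), (nat_lit 2), (nat_lit 846), (nat_lit 2)⟩)))
(.nd (.nd (.nd (.lf ⟨(nat_lit 135), (nat_lit 2), (nat_lit 0xa1c2), (nat_lit 3)⟩)
(.lf ⟨(nat_lit 0x34b28e), (nat_lit 4), (nat_lit 0x38d2ca), (nat_lit 4)⟩))
(.lf ⟨(nat_lit 398), (nat_lit 2), (nat_lit 902), (nat_lit 2)⟩))
(.nd (.lf ⟨(nat_lit 78), (nat_lit 2), (nat_lit 897), (nat_lit 2)⟩)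
(.lf ⟨(nat_lit 461), (nat_lit 2), (nat_lit 839), (nat_lit 2)⟩))))
(.nd (.nd (.nd (.nd (.lf ⟨(nat_lit 67), (nat_lit 2), (nat_lit 0x60c1), (nat_lit 3)⟩)
(.lf ⟨(nat_lit 140), (nat_lit 2), (nat_lit 0x11302), (nat_lit 3)⟩))
(.lf ⟨(nat_lit 69), (nat_lit 2), (nat_lit 321), (nat_lit 2)⟩))
(.nd (.lf ⟨(nat_lit 71), (nat_lit 2), (nat_lit 449), (nat_lit 2)⟩)
(.lf ⟨(nat_lit 717), (nat_lit 2), (nat_lit 843), (nat_lit 2)⟩)))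
(.nd (.nd (.nd (.lf ⟨(nat_lit 75), (nat_lit 2), (nat_lit 0xe2c1), (nat_lit 3)⟩)
(.lf ⟨(nat_lit 78), (nat_lit 2), (nat_lit 897), (nat_lit 2)⟩))
(.lf ⟨(nat_lit 391), (nat_lit 2), (nat_lit 0xe1c6), (nat_lit 3)⟩))
(.nd (.lf ⟨(nat_lit 589), (nat_lit 2), (nat_lit 841), (nat_lit 2)⟩)
(.lf ⟨(nat_lit 142), (nat_lit 2), (nat_lit 898), (nat_lit 2)⟩))))))
(.nd (.nd (.nd (.nd (.nd (.nd (.lf ⟨(nat_lit 130), (nat_lit 2), (nat_lit 0), (nat_lit 0)⟩)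
(.lf ⟨(nat_lit 457), (nat_lit 2), (nat_lit 583), (nat_lit 2)⟩))
(.lf ⟨(nat_lit 397), (nat_lit 2), (nat_lit 838), (nat_lit 2)⟩))
(.nd (.nd (.lf ⟨(nat_lit 845), (nat_lit 2), (nat_lit 0), (nat_lit 0)⟩)
(.lf ⟨(nat_lit 0x3491c61430813491c6143081), (nat_lit 16), (nat_lit 0x38b289185), (nat_lit 6)⟩))
(.lf ⟨(nat_lit 197), (nat_lit 2), (nat_lit 0x349143), (nat_lit 4)⟩)))
(.nd (.nd (.nd (.lf ⟨(nat_lit 650), (nat_lit 2), (nat_lit 0), (nat_lit 0)⟩)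
(.lf ⟨(nat_lit 0x34b28d2ca), (nat_lit 6), (nat_lit 0), (nat_lit 0)⟩))
(.lf ⟨(nat_lit 462), (nat_lit 2), (nat_lit 903), (nat_lit 2)⟩))
(.nd (.lf ⟨(nat_lit 77), (nat_lit 2), (nat_lit 833), (nat_lit 2)⟩)
(.lf ⟨(nat_lit 334), (nat_lit 2), (nat_lit 901), (nat_lit 2)⟩))))
(.nd (.nd (.nd (.nd (.lf ⟨(nat_lit 390), (nat_lit 2), (nat_lit 0), (nat_lit 0)⟩)
(.lf ⟨(nat_lit 16), (nat_lit 1), (nat_lit 17), (nat_lit 1)⟩))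
(.lf ⟨(nat_lit 131), (nat_lit 2), (nat_lit 0xd0c2), (nat_lit 3)⟩))
(.nd (.lf ⟨(nat_lit 910), (nat_lit 2), (nat_lit 0), (nat_lit 0)⟩)
(.lf ⟨(nat_lit 590), (nat_lit 2), (nat_lit 905), (nat_lit 2)⟩)))
(.nd (.nd (.nd (.lf ⟨(nat_lit 910), (nat_lit 2), (nat_lit 0), (nat_lit 0)⟩)
(.lf ⟨(nat_lit 0x1c308d2ca), (nat_lit 6), (nat_lit 0x34b2870c2), (nat_lit 6)⟩))
(.lf ⟨(nat_lit 206), (nat_lit 2), (nat_lit 899), (nat_lit 2)⟩))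
(.nd (.lf ⟨(nat_lit 459), (nat_lit 2), (nat_lit 711), (nat_lit 2)⟩)
(.lf ⟨(nat_lit 328), (nat_lit 2), (nat_lit 0x10205), (nat_lit 3)⟩)))))
(.nd (.nd (.nd (.nd (.nd (.lf ⟨(nat_lit 325), (nat_lit 2), (nat_lit 0), (nat_lit 0)⟩)
(.lf ⟨(nat_lit 0x4c0c204c0c204c0c204c0c2), (nat_lit 16), (nat_lit 13), (nat_lit 1)⟩))
(.lf ⟨(nat_lit 330), (nat_lit 2), (nat_lit 645), (nat_lit 2)⟩))
(.nd (.nd (.lf ⟨(nat_lit 65), (nat_lit 2), (nat_lit 0), (nat_lit 0)⟩)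
(.lf ⟨(nat_lit 0x470c20470c20470c20470c2), (nat_lit 16), (nat_lit 13), (nat_lit 1)⟩))
(.lf ⟨(nat_lit 654), (nat_lit 2), (nat_lit 906), (nat_lit 2)⟩)))
(.nd (.nd (.nd (.lf ⟨(nat_lit 715), (nat_lit 2), (nat_lit 0), (nat_lit 0)⟩)
(.lf ⟨(nat_lit 0x1c30870c2), (nat_lit 6), (nat_lit 0xd2ca), (nat_lit 3)⟩))
(.lf ⟨(nat_lit 395), (nat_lit 2), (nat_lit 710), (nat_lit 2)⟩))
(.nd (.lf ⟨(nat_lit 393), (nat_lit 2), (nat_lit 582), (nat_lit 2)⟩)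
(.lf ⟨(nat_lit 265), (nat_lit 2), (nat_lit 0x10244), (nat_lit 3)⟩))))
(.nd (.nd (.nd (.nd (.lf ⟨(nat_lit 455), (nat_lit 2), (nat_lit 0), (nat_lit 0)⟩)
(.lf ⟨(nat_lit 265), (nat_lit 2), (nat_lit 0x11244), (nat_lit 3)⟩))
(.lf ⟨(nat_lit 74), (nat_lit 2), (nat_lit 641), (nat_lit 2)⟩))
(.nd (.lf ⟨(nat_lit 138), (nat_lit 2), (nat_lit 642), (nat_lit 2)⟩)
(.lf ⟨(nat_lit 586), (nat_lit 2), (nat_lit 649), (nat_lit 2)⟩)))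
(.nd (.nd (.nd (.lf ⟨(nat_lit 140), (nat_lit 2), (nat_lit 0x10302), (nat_lit 3)⟩)
(.lf ⟨(nat_lit 0x4d2ca), (nat_lit 4), (nat_lit 0xe34b281), (nat_lit 5)⟩))
(.lf ⟨(nat_lit 653), (nat_lit 2), (nat_lit 842), (nat_lit 2)⟩))
(.nd (.lf ⟨(nat_lit 718), (nat_lit 2), (nat_lit 907), (nat_lit 2)⟩)
(.lf ⟨(nat_lit 202), (nat_lit 2), (nat_lit 643), (nat_lit 2)⟩)))))))

/-- Substitution. -/
def s15 : List (ℕ × ℕ) := [((nat_lit 0x70c2), (nat_lit 3)), ((nat_lit 1), (nat_lit 1)), ((nat_lit 14), (nat_lit 1)), ((nat_lit 0xd2ca), (nat_lit 3))]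

/-- Context. -/
noncomputable def x15 : ℕ → ℕ × ℕ :=
  mkc d13 76 s13 x13 (nth [] (Cl.alts (nsCl 1 [[1, 1], [0, 1], [0]])) 1)

set_option maxRecDepth 100000 in
/-- Facts. -/
noncomputable def d16 : Tr :=
(.nd (.nd (.nd (.lf ⟨(nat_lit 131), (nat_lit 2), (nat_lit 0xd0c2), (nat_lit 3)⟩)
(.lf ⟨(nat_lit 131), (nat_lit 2), (nat_lit 194), (nat_lit 2)⟩))
(.lf ⟨(nat_lit 0x470c20470c20470c20470c2), (nat_lit 16), (nat_lit 0), (nat_lit 0)⟩))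
(.nd (.lf ⟨(nat_lit 0x470c20470c20470c20470c2), (nat_lit 16), (nat_lit 13), (nat_lit 1)⟩)
(.lf ⟨(nat_lit 13), (nat_lit 1), (nat_lit 0), (nat_lit 0)⟩)))

/-- Context. -/
noncomputable def x16 : ℕ → ℕ × ℕ :=
  mkc d15 84 s15 x15 (nth [] (Cl.alts (nsCl 2 [[2, 1, 2], [0, 1, 3], [0], [0, 1]])) 0)

set_option maxRecDepth 100000 in
/-- Facts. -/
noncomputable def d17 : Tr :=
(.nd (.nd (.nd (.nd (.nd (.nd (.nd (.lf ⟨(nat_lit 65), (nat_lit 2), (nat_lit 0), (nat_lit 0)⟩)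
(.lf ⟨(nat_lit 0x4b289), (nat_lit 4), (nat_lit 0x2ca241), (nat_lit 4)⟩))
(.lf ⟨(nat_lit 69), (nat_lit 2), (nat_lit 321), (nat_lit 2)⟩))
(.nd (.lf ⟨(nat_lit 65), (nat_lit 2), (nat_lit 0), (nat_lit 0)⟩)
(.lf ⟨(nat_lit 651), (nat_lit 2), (nat_lit 714), (nat_lit 2)⟩)))
(.nd (.nd (.lf ⟨(nat_lit 585), (nat_lit 2), (nat_lit 0), (nat_lit 0)⟩)
(.lf ⟨(nat_lit 262), (nat_lit 2), (nat_lit 0x1244e30b184), (nat_lit 7)⟩))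
(.nd (.lf ⟨(nat_lit 589), (nat_lit 2), (nat_lit 841), (nat_lit 2)⟩)
(.lf ⟨(nat_lit 0x470c20470c20470c20470c2), (nat_lit 16), (nat_lit 14), (nat_lit 1)⟩))))
(.nd (.nd (.nd (.nd (.lf ⟨(nat_lit 66), (nat_lit 2), (nat_lit 0x5081), (nat_lit 3)⟩)
(.lf ⟨(nat_lit 0x471430811c50c20471430811c50c2), (nat_lit 20), (nat_lit 13), (nat_lit 1)⟩))
(.lf ⟨(nat_lit 0x44d), (nat_lit 2), (nat_lit 849), (nat_lit 2)⟩))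
(.nd (.lf ⟨(nat_lit 203), (nat_lit 2), (nat_lit 707), (nat_lit 2)⟩)
(.lf ⟨(nat_lit 331), (nat_lit 2), (nat_lit 709), (nat_lit 2)⟩)))
(.nd (.nd (.lf ⟨(nat_lit 199), (nat_lit 2), (nat_lit 0xb1c3), (nat_lit 3)⟩)
(.lf ⟨(nat_lit 201), (nat_lit 2), (nat_lit 579), (nat_lit 2)⟩))
(.nd (.lf ⟨(nat_lit 330), (nat_lit 2), (nat_lit 645), (nat_lit 2)⟩)
(.lf ⟨(nat_lit 262), (nat_lit 2), (nat_lit 0xd49130b184), (nat_lit 7)⟩)))))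
(.nd (.nd (.nd (.nd (.nd (.lf ⟨(nat_lit 195), (nat_lit 2), (nat_lit 0), (nat_lit 0)⟩)
(.lf ⟨(nat_lit 0x247183081247183081), (nat_lit 12), (nat_lit 0xd2ca185), (nat_lit 5)⟩))
(.lf ⟨(nat_lit 327), (nat_lit 2), (nat_lit 453), (nat_lit 2)⟩))
(.nd (.lf ⟨(nat_lit 137), (nat_lit 2), (nat_lit 578), (nat_lit 2)⟩)
(.lf ⟨(nat_lit 394), (nat_lit 2), (nat_lit 646), (nat_lit 2)⟩)))
(.nd (.nd (.lf ⟨(nat_lit 135), (nat_lit 2), (nat_lit 0xa1c2), (nat_lit 3)⟩)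
(.lf ⟨(nat_lit 197), (nat_lit 2), (nat_lit 0x349143), (nat_lit 4)⟩))
(.nd (.lf ⟨(nat_lit 397), (nat_lit 2), (nat_lit 838), (nat_lit 2)⟩)
(.lf ⟨(nat_lit 75), (nat_lit 2), (nat_lit 0xd2c1), (nat_lit 3)⟩))))
(.nd (.nd (.nd (.lf ⟨(nat_lit 67), (nat_lit 2), (nat_lit 0x60c1), (nat_lit 3)⟩)
(.lf ⟨(nat_lit 391), (nat_lit 2), (nat_lit 0xe1c6), (nat_lit 3)⟩))
(.nd (.lf ⟨(nat_lit 458), (nat_lit 2), (nat_lit 647), (nat_lit 2)⟩)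
(.lf ⟨(nat_lit 139), (nat_lit 2), (nat_lit 706), (nat_lit 2)⟩)))
(.nd (.nd (.lf ⟨(nat_lit 845), (nat_lit 2), (nat_lit 0), (nat_lit 0)⟩)
(.lf ⟨(nat_lit 717), (nat_lit 2), (nat_lit 843), (nat_lit 2)⟩))
(.nd (.lf ⟨(nat_lit 205), (nat_lit 2), (nat_lit 835), (nat_lit 2)⟩)
(.lf ⟨(nat_lit 0x1c50c21c50c2), (nat_lit 8), (nat_lit 0xb289), (nat_lit 3)⟩))))))
(.nd (.nd (.nd (.nd (.nd (.nd (.lf ⟨(nat_lit 130), (nat_lit 2), (nat_lit 0), (nat_lit 0)⟩)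
(.lf ⟨(nat_lit 0x11c50c2), (nat_lit 5), (nat_lit 0x247183081), (nat_lit 6)⟩))
(.lf ⟨(nat_lit 74), (nat_lit 2), (nat_lit 641), (nat_lit 2)⟩))
(.nd (.lf ⟨(nat_lit 71), (nat_lit 2), (nat_lit 449), (nat_lit 2)⟩)
(.lf ⟨(nat_lit 461), (nat_lit 2), (nat_lit 839), (nat_lit 2)⟩)))
(.nd (.nd (.lf ⟨(nat_lit 650), (nat_lit 2), (nat_lit 0), (nat_lit 0)⟩)
(.lf ⟨(nat_lit 326), (nat_lit 2), (nat_lit 0xd185), (nat_lit 3)⟩))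
(.nd (.lf ⟨(nat_lit 333), (nat_lit 2), (nat_lit 837), (nat_lit 2)⟩)
(.lf ⟨(nat_lit 14), (nat_lit 1), (nat_lit 13), (nat_lit 1)⟩))))
(.nd (.nd (.nd (.lf ⟨(nat_lit 390), (nat_lit 2), (nat_lit 0), (nat_lit 0)⟩)
(.lf ⟨(nat_lit 70), (nat_lit 2), (nat_lit 385), (nat_lit 2)⟩))
(.nd (.lf ⟨(nat_lit 393), (nat_lit 2), (nat_lit 582), (nat_lit 2)⟩)
(.lf ⟨(nat_lit 457), (nat_lit 2), (nat_lit 583), (nat_lit 2)⟩)))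
(.nd (.nd (.lf ⟨(nat_lit 75), (nat_lit 2), (nat_lit 0xe2c1), (nat_lit 3)⟩)
(.lf ⟨(nat_lit 587), (nat_lit 2), (nat_lit 713), (nat_lit 2)⟩))
(.nd (.lf ⟨(nat_lit 133), (nat_lit 2), (nat_lit 322), (nat_lit 2)⟩)
(.lf ⟨(nat_lit 0x2ca24b289), (nat_lit 6), (nat_lit 0), (nat_lit 0)⟩)))))
(.nd (.nd (.nd (.nd (.nd (.lf ⟨(nat_lit 325), (nat_lit 2), (nat_lit 0), (nat_lit 0)⟩)
(.lf ⟨(nat_lit 0x34b28614d2ca185), (nat_lit 10), (nat_lit 13), (nat_lit 1)⟩))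
(.lf ⟨(nat_lit 395), (nat_lit 2), (nat_lit 710), (nat_lit 2)⟩))
(.nd (.lf ⟨(nat_lit 138), (nat_lit 2), (nat_lit 642), (nat_lit 2)⟩)
(.lf ⟨(nat_lit 202), (nat_lit 2), (nat_lit 643), (nat_lit 2)⟩)))
(.nd (.nd (.lf ⟨(nat_lit 715), (nat_lit 2), (nat_lit 0), (nat_lit 0)⟩)
(.lf ⟨(nat_lit 0x48d), (nat_lit 2), (nat_lit 850), (nat_lit 2)⟩))
(.nd (.lf ⟨(nat_lit 329), (nat_lit 2), (nat_lit 581), (nat_lit 2)⟩)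
(.lf ⟨(nat_lit 391), (nat_lit 2), (nat_lit 0xd1c6), (nat_lit 3)⟩))))
(.nd (.nd (.nd (.lf ⟨(nat_lit 455), (nat_lit 2), (nat_lit 0), (nat_lit 0)⟩)
(.lf ⟨(nat_lit 653), (nat_lit 2), (nat_lit 842), (nat_lit 2)⟩))
(.nd (.lf ⟨(nat_lit 459), (nat_lit 2), (nat_lit 711), (nat_lit 2)⟩)
(.lf ⟨(nat_lit 0x470c20470c20470c20470c2), (nat_lit 16), (nat_lit 13), (nat_lit 1)⟩)))
(.nd (.nd (.lf ⟨(nat_lit 73), (nat_lit 2), (nat_lit 0xd241), (nat_lit 3)⟩)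
(.lf ⟨(nat_lit 586), (nat_lit 2), (nat_lit 649), (nat_lit 2)⟩))
(.nd (.lf ⟨(nat_lit 131), (nat_lit 2), (nat_lit 0xd0c2), (nat_lit 3)⟩)
(.lf ⟨(nat_lit 0x714308b289), (nat_lit 7), (nat_lit 0xb2891c50c2), (nat_lit 7)⟩)))))))

/-- Substitution. -/
def s17 : List (ℕ × ℕ) := [((nat_lit 0x1c50c2), (nat_lit 4)), ((nat_lit 1), (nat_lit 1)), ((nat_lit 0xb289), (nat_lit 3))]

/-- Context. -/
noncomputable def x17 : ℕ → ℕ × ℕ :=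
  mkc d15 84 s15 x15 (nth [] (Cl.alts (nsCl 2 [[2, 1, 2], [0, 1, 3], [0], [0, 1]])) 1)

set_option maxRecDepth 100000 in
/-- Facts. -/
noncomputable def d18 : Tr :=
(.nd (.nd (.nd (.lf ⟨(nat_lit 131), (nat_lit 2), (nat_lit 0xd0c2), (nat_lit 3)⟩)
(.lf ⟨(nat_lit 131), (nat_lit 2), (nat_lit 194), (nat_lit 2)⟩))
(.lf ⟨(nat_lit 0x471430811c50c20471430811c50c2), (nat_lit 20), (nat_lit 0), (nat_lit 0)⟩))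
(.nd (.lf ⟨(nat_lit 0x471430811c50c20471430811c50c2), (nat_lit 20), (nat_lit 13), (nat_lit 1)⟩)
(.lf ⟨(nat_lit 13), (nat_lit 1), (nat_lit 0), (nat_lit 0)⟩)))

/-- Context. -/
noncomputable def x18 : ℕ → ℕ × ℕ :=
  mkc d17 69 s17 x17 (nth [] (Cl.alts (nsCl 1 [[1, 1], [0, 1], [0]])) 0)

set_option maxRecDepth 100000 in
/-- Facts. -/
noncomputable def d19 : Tr :=
(.nd (.nd (.nd (.nd (.nd (.nd (.nd (.lf ⟨(nat_lit 65), (nat_lit 2), (nat_lit 0), (nat_lit 0)⟩)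
(.lf ⟨(nat_lit 204), (nat_lit 2), (nat_lit 0x12303), (nat_lit 3)⟩))
(.lf ⟨(nat_lit 205), (nat_lit 2), (nat_lit 835), (nat_lit 2)⟩))
(.nd (.nd (.lf ⟨(nat_lit 845), (nat_lit 2), (nat_lit 0), (nat_lit 0)⟩)
(.lf ⟨(nat_lit 0xc40431010c4043101), (nat_lit 12), (nat_lit 13), (nat_lit 1)⟩))
(.lf ⟨(nat_lit 197), (nat_lit 2), (nat_lit 0x349143), (nat_lit 4)⟩)))
(.nd (.nd (.nd (.lf ⟨(nat_lit 196), (nat_lit 2), (nat_lit 0x8103), (nat_lit 3)⟩)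
(.lf ⟨(nat_lit 0x404b), (nat_lit 3), (nat_lit 0xd48b101), (nat_lit 5)⟩))
(.lf ⟨(nat_lit 0x44d), (nat_lit 2), (nat_lit 849), (nat_lit 2)⟩))
(.nd (.lf ⟨(nat_lit 274), (nat_lit 2), (nat_lit 0x484), (nat_lit 2)⟩)
(.lf ⟨(nat_lit 391), (nat_lit 2), (nat_lit 0xd1c6), (nat_lit 3)⟩))))
(.nd (.nd (.nd (.nd (.lf ⟨(nat_lit 67), (nat_lit 2), (nat_lit 0x60c1), (nat_lit 3)⟩)
(.lf ⟨(nat_lit 0x7352), (nat_lit 3), (nat_lit 0xd487), (nat_lit 3)⟩))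
(.lf ⟨(nat_lit 722), (nat_lit 2), (nat_lit 0x48b), (nat_lit 2)⟩))
(.nd (.lf ⟨(nat_lit 71), (nat_lit 2), (nat_lit 449), (nat_lit 2)⟩)
(.lf ⟨(nat_lit 461), (nat_lit 2), (nat_lit 839), (nat_lit 2)⟩)))
(.nd (.nd (.nd (.lf ⟨(nat_lit 780), (nat_lit 2), (nat_lit 0), (nat_lit 0)⟩)
(.lf ⟨(nat_lit 199), (nat_lit 2), (nat_lit 0xb1c3), (nat_lit 3)⟩))
(.lf ⟨(nat_lit 716), (nat_lit 2), (nat_lit 779), (nat_lit 2)⟩))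
(.nd (.lf ⟨(nat_lit 524), (nat_lit 2), (nat_lit 776), (nat_lit 2)⟩)
(.lf ⟨(nat_lit 9), (nat_lit 1), (nat_lit 0xd2ca), (nat_lit 3)⟩)))))
(.nd (.nd (.nd (.nd (.nd (.lf ⟨(nat_lit 260), (nat_lit 2), (nat_lit 0), (nat_lit 0)⟩)
(.lf ⟨(nat_lit 0x352352), (nat_lit 4), (nat_lit 0), (nat_lit 0)⟩))
(.lf ⟨(nat_lit 456), (nat_lit 2), (nat_lit 0x12207), (nat_lit 3)⟩))
(.nd (.lf ⟨(nat_lit 455), (nat_lit 2), (nat_lit 0), (nat_lit 0)⟩)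
(.lf ⟨(nat_lit 717), (nat_lit 2), (nat_lit 843), (nat_lit 2)⟩)))
(.nd (.nd (.nd (.lf ⟨(nat_lit 715), (nat_lit 2), (nat_lit 0), (nat_lit 0)⟩)
(.lf ⟨(nat_lit 0x3352), (nat_lit 3), (nat_lit 0xd483), (nat_lit 3)⟩))
(.lf ⟨(nat_lit 392), (nat_lit 2), (nat_lit 0x11206), (nat_lit 3)⟩))
(.nd (.lf ⟨(nat_lit 525), (nat_lit 2), (nat_lit 840), (nat_lit 2)⟩)
(.lf ⟨(nat_lit 0x471430811c50c20471430811c50c2), (nat_lit 20), (nat_lit 13), (nat_lit 1)⟩))))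
(.nd (.nd (.nd (.nd (.lf ⟨(nat_lit 68), (nat_lit 2), (nat_lit 0x7101), (nat_lit 3)⟩)
(.lf ⟨(nat_lit 0x101101), (nat_lit 4), (nat_lit 7), (nat_lit 1)⟩))
(.lf ⟨(nat_lit 395), (nat_lit 2), (nat_lit 710), (nat_lit 2)⟩))
(.nd (.lf ⟨(nat_lit 203), (nat_lit 2), (nat_lit 707), (nat_lit 2)⟩)
(.lf ⟨(nat_lit 265), (nat_lit 2), (nat_lit 0x11244), (nat_lit 3)⟩)))
(.nd (.nd (.nd (.lf ⟨(nat_lit 204), (nat_lit 2), (nat_lit 0x11303), (nat_lit 3)⟩)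
(.lf ⟨(nat_lit 0x2040c12040c1), (nat_lit 8), (nat_lit 0xc2c81c6), (nat_lit 5)⟩))
(.lf ⟨(nat_lit 523), (nat_lit 2), (nat_lit 712), (nat_lit 2)⟩))
(.nd (.lf ⟨(nat_lit 266), (nat_lit 2), (nat_lit 644), (nat_lit 2)⟩)
(.lf ⟨(nat_lit 17), (nat_lit 1), (nat_lit 18), (nat_lit 1)⟩))))))
(.nd (.nd (.nd (.nd (.nd (.nd (.lf ⟨(nat_lit 195), (nat_lit 2), (nat_lit 0), (nat_lit 0)⟩)
(.lf ⟨(nat_lit 392), (nat_lit 2), (nat_lit 0x12206), (nat_lit 3)⟩))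
(.lf ⟨(nat_lit 198), (nat_lit 2), (nat_lit 387), (nat_lit 2)⟩))
(.nd (.lf ⟨(nat_lit 195), (nat_lit 2), (nat_lit 0), (nat_lit 0)⟩)
(.lf ⟨(nat_lit 0x48d), (nat_lit 2), (nat_lit 850), (nat_lit 2)⟩)))
(.nd (.nd (.nd (.lf ⟨(nat_lit 650), (nat_lit 2), (nat_lit 0), (nat_lit 0)⟩)
(.lf ⟨(nat_lit 0x4047), (nat_lit 3), (nat_lit 0x7101), (nat_lit 3)⟩))
(.lf ⟨(nat_lit 82), (nat_lit 2), (nat_lit 0x481), (nat_lit 2)⟩))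
(.nd (.lf ⟨(nat_lit 263), (nat_lit 2), (nat_lit 452), (nat_lit 2)⟩)
(.lf ⟨(nat_lit 262), (nat_lit 2), (nat_lit 0xd49130b184), (nat_lit 7)⟩))))
(.nd (.nd (.nd (.nd (.lf ⟨(nat_lit 455), (nat_lit 2), (nat_lit 0), (nat_lit 0)⟩)
(.lf ⟨(nat_lit 459), (nat_lit 2), (nat_lit 711), (nat_lit 2)⟩))
(.lf ⟨(nat_lit 396), (nat_lit 2), (nat_lit 774), (nat_lit 2)⟩))
(.nd (.lf ⟨(nat_lit 200), (nat_lit 2), (nat_lit 515), (nat_lit 2)⟩)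
(.lf ⟨(nat_lit 269), (nat_lit 2), (nat_lit 836), (nat_lit 2)⟩)))
(.nd (.nd (.nd (.lf ⟨(nat_lit 72), (nat_lit 2), (nat_lit 0xc201), (nat_lit 3)⟩)
(.lf ⟨(nat_lit 0x3101), (nat_lit 3), (nat_lit 0x2040c1), (nat_lit 4)⟩))
(.lf ⟨(nat_lit 653), (nat_lit 2), (nat_lit 842), (nat_lit 2)⟩))
(.nd (.lf ⟨(nat_lit 786), (nat_lit 2), (nat_lit 0x48c), (nat_lit 2)⟩)
(.lf ⟨(nat_lit 197), (nat_lit 2), (nat_lit 0x2ca143), (nat_lit 4)⟩)))))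
(.nd (.nd (.nd (.nd (.nd (.lf ⟨(nat_lit 390), (nat_lit 2), (nat_lit 0), (nat_lit 0)⟩)
(.lf ⟨(nat_lit 0xb352), (nat_lit 3), (nat_lit 0xd48b), (nat_lit 3)⟩))
(.lf ⟨(nat_lit 210), (nat_lit 2), (nat_lit 0x483), (nat_lit 2)⟩))
(.nd (.lf ⟨(nat_lit 715), (nat_lit 2), (nat_lit 0), (nat_lit 0)⟩)
(.lf ⟨(nat_lit 651), (nat_lit 2), (nat_lit 714), (nat_lit 2)⟩)))
(.nd (.nd (.nd (.lf ⟨(nat_lit 199), (nat_lit 2), (nat_lit 0xb1c3), (nat_lit 3)⟩)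
(.lf ⟨(nat_lit 203), (nat_lit 2), (nat_lit 707), (nat_lit 2)⟩))
(.lf ⟨(nat_lit 781), (nat_lit 2), (nat_lit 844), (nat_lit 2)⟩))
(.nd (.lf ⟨(nat_lit 459), (nat_lit 2), (nat_lit 711), (nat_lit 2)⟩)
(.lf ⟨(nat_lit 0x471430811c50c20471430811c50c2), (nat_lit 20), (nat_lit 0xb289), (nat_lit 3)⟩))))
(.nd (.nd (.nd (.nd (.lf ⟨(nat_lit 520), (nat_lit 2), (nat_lit 0), (nat_lit 0)⟩)
(.lf ⟨(nat_lit 0x101352), (nat_lit 4), (nat_lit 0x352101), (nat_lit 4)⟩))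
(.lf ⟨(nat_lit 460), (nat_lit 2), (nat_lit 775), (nat_lit 2)⟩))
(.nd (.lf ⟨(nat_lit 77), (nat_lit 2), (nat_lit 833), (nat_lit 2)⟩)
(.lf ⟨(nat_lit 75), (nat_lit 2), (nat_lit 0xd2c1), (nat_lit 3)⟩)))
(.nd (.nd (.nd (.lf ⟨(nat_lit 0x492), (nat_lit 2), (nat_lit 0), (nat_lit 0)⟩)
(.lf ⟨(nat_lit 0x30b20718c2c81c6), (nat_lit 10), (nat_lit 13), (nat_lit 1)⟩))
(.lf ⟨(nat_lit 267), (nat_lit 2), (nat_lit 0x122c4), (nat_lit 3)⟩))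
(.nd (.lf ⟨(nat_lit 466), (nat_lit 2), (nat_lit 0x487), (nat_lit 2)⟩)
(.lf ⟨(nat_lit 262), (nat_lit 2), (nat_lit 0xd30b184), (nat_lit 5)⟩)))))))

/-- Substitution. -/
def s19 : List (ℕ × ℕ) := [((nat_lit 257), (nat_lit 2)), ((nat_lit 3), (nat_lit 1)), ((nat_lit 850), (nat_lit 2)), ((nat_lit 11), (nat_lit 1)), ((nat_lit 7), (nat_lit 1))]

/-- Context. -/
noncomputable def x19 : ℕ → ℕ × ℕ :=
  mkc d17 69 s17 x17 (nth [] (Cl.alts (nsCl 1 [[1, 1], [0, 1], [0]])) 1)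

set_option maxRecDepth 100000 in
/-- Facts. -/
noncomputable def d20 : Tr :=
(.nd (.nd (.nd (.lf ⟨(nat_lit 131), (nat_lit 2), (nat_lit 0xd0c2), (nat_lit 3)⟩)
(.lf ⟨(nat_lit 131), (nat_lit 2), (nat_lit 194), (nat_lit 2)⟩))
(.lf ⟨(nat_lit 0xc40431010c4043101), (nat_lit 12), (nat_lit 0), (nat_lit 0)⟩))
(.nd (.lf ⟨(nat_lit 0xc40431010c4043101), (nat_lit 12), (nat_lit 13), (nat_lit 1)⟩)
(.lf ⟨(nat_lit 13), (nat_lit 1), (nat_lit 0), (nat_lit 0)⟩)))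

/-- Context. -/
noncomputable def x20 : ℕ → ℕ × ℕ :=
  mkc d19 81 s19 x19 (nth [] (Cl.alts (nsCl 3 [[4, 1, 3, 4], [0, 1, 2, 6], [0], [0, 1], [0, 1, 2]])) 0)

set_option maxRecDepth 100000 in
/-- Facts. -/
noncomputable def d21 : Tr :=
(.nd (.nd (.nd (.nd (.nd (.nd (.lf ⟨(nat_lit 65), (nat_lit 2), (nat_lit 0), (nat_lit 0)⟩)
(.lf ⟨(nat_lit 523), (nat_lit 2), (nat_lit 712), (nat_lit 2)⟩))
(.nd (.lf ⟨(nat_lit 520), (nat_lit 2), (nat_lit 0), (nat_lit 0)⟩)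
(.lf ⟨(nat_lit 392), (nat_lit 2), (nat_lit 518), (nat_lit 2)⟩)))
(.nd (.nd (.lf ⟨(nat_lit 196), (nat_lit 2), (nat_lit 0x8103), (nat_lit 3)⟩)
(.lf ⟨(nat_lit 392), (nat_lit 2), (nat_lit 0x12206), (nat_lit 3)⟩))
(.nd (.lf ⟨(nat_lit 459), (nat_lit 2), (nat_lit 711), (nat_lit 2)⟩)
(.lf ⟨(nat_lit 0x1030440c1), (nat_lit 6), (nat_lit 0x2c81c6), (nat_lit 4)⟩))))
(.nd (.nd (.nd (.lf ⟨(nat_lit 67), (nat_lit 2), (nat_lit 0x60c1), (nat_lit 3)⟩)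
(.lf ⟨(nat_lit 269), (nat_lit 2), (nat_lit 836), (nat_lit 2)⟩))
(.nd (.lf ⟨(nat_lit 203), (nat_lit 2), (nat_lit 707), (nat_lit 2)⟩)
(.lf ⟨(nat_lit 0x103103), (nat_lit 4), (nat_lit 8), (nat_lit 1)⟩)))
(.nd (.nd (.lf ⟨(nat_lit 72), (nat_lit 2), (nat_lit 0xc201), (nat_lit 3)⟩)
(.lf ⟨(nat_lit 268), (nat_lit 2), (nat_lit 772), (nat_lit 2)⟩))
(.lf ⟨(nat_lit 456), (nat_lit 2), (nat_lit 0x12207), (nat_lit 3)⟩))))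
(.nd (.nd (.nd (.nd (.lf ⟨(nat_lit 260), (nat_lit 2), (nat_lit 0), (nat_lit 0)⟩)
(.lf ⟨(nat_lit 717), (nat_lit 2), (nat_lit 843), (nat_lit 2)⟩))
(.nd (.lf ⟨(nat_lit 200), (nat_lit 2), (nat_lit 515), (nat_lit 2)⟩)
(.lf ⟨(nat_lit 76), (nat_lit 2), (nat_lit 769), (nat_lit 2)⟩)))
(.nd (.nd (.lf ⟨(nat_lit 199), (nat_lit 2), (nat_lit 0xb1c3), (nat_lit 3)⟩)
(.lf ⟨(nat_lit 0xc40431010c4043101), (nat_lit 12), (nat_lit 850), (nat_lit 2)⟩))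
(.nd (.lf ⟨(nat_lit 205), (nat_lit 2), (nat_lit 835), (nat_lit 2)⟩)
(.lf ⟨(nat_lit 0x1030440c11030440c1), (nat_lit 12), (nat_lit 13), (nat_lit 1)⟩))))
(.nd (.nd (.nd (.lf ⟨(nat_lit 68), (nat_lit 2), (nat_lit 0x7101), (nat_lit 3)⟩)
(.lf ⟨(nat_lit 262), (nat_lit 2), (nat_lit 0xd30b184), (nat_lit 5)⟩))
(.nd (.lf ⟨(nat_lit 264), (nat_lit 2), (nat_lit 516), (nat_lit 2)⟩)
(.lf ⟨(nat_lit 0x40c8), (nat_lit 3), (nat_lit 0x8103), (nat_lit 3)⟩)))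
(.nd (.nd (.lf ⟨(nat_lit 845), (nat_lit 2), (nat_lit 0), (nat_lit 0)⟩)
(.lf ⟨(nat_lit 267), (nat_lit 2), (nat_lit 708), (nat_lit 2)⟩))
(.lf ⟨(nat_lit 460), (nat_lit 2), (nat_lit 775), (nat_lit 2)⟩)))))
(.nd (.nd (.nd (.nd (.nd (.lf ⟨(nat_lit 195), (nat_lit 2), (nat_lit 0), (nat_lit 0)⟩)
(.lf ⟨(nat_lit 267), (nat_lit 2), (nat_lit 0x122c4), (nat_lit 3)⟩))
(.nd (.lf ⟨(nat_lit 780), (nat_lit 2), (nat_lit 0), (nat_lit 0)⟩)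
(.lf ⟨(nat_lit 524), (nat_lit 2), (nat_lit 776), (nat_lit 2)⟩)))
(.nd (.nd (.lf ⟨(nat_lit 715), (nat_lit 2), (nat_lit 0), (nat_lit 0)⟩)
(.lf ⟨(nat_lit 0xc40431010c4043101), (nat_lit 12), (nat_lit 13), (nat_lit 1)⟩))
(.nd (.lf ⟨(nat_lit 524), (nat_lit 2), (nat_lit 776), (nat_lit 2)⟩)
(.lf ⟨(nat_lit 0x2c81c62c81c6), (nat_lit 8), (nat_lit 13), (nat_lit 1)⟩))))
(.nd (.nd (.nd (.lf ⟨(nat_lit 455), (nat_lit 2), (nat_lit 0), (nat_lit 0)⟩)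
(.lf ⟨(nat_lit 391), (nat_lit 2), (nat_lit 0xd1c6), (nat_lit 3)⟩))
(.nd (.lf ⟨(nat_lit 263), (nat_lit 2), (nat_lit 452), (nat_lit 2)⟩)
(.lf ⟨(nat_lit 0x40cc), (nat_lit 3), (nat_lit 0xc103), (nat_lit 3)⟩)))
(.nd (.nd (.lf ⟨(nat_lit 268), (nat_lit 2), (nat_lit 0x12304), (nat_lit 3)⟩)
(.lf ⟨(nat_lit 456), (nat_lit 2), (nat_lit 519), (nat_lit 2)⟩))
(.lf ⟨(nat_lit 395), (nat_lit 2), (nat_lit 710), (nat_lit 2)⟩))))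
(.nd (.nd (.nd (.nd (.lf ⟨(nat_lit 390), (nat_lit 2), (nat_lit 0), (nat_lit 0)⟩)
(.lf ⟨(nat_lit 461), (nat_lit 2), (nat_lit 839), (nat_lit 2)⟩))
(.nd (.lf ⟨(nat_lit 76), (nat_lit 2), (nat_lit 769), (nat_lit 2)⟩)
(.lf ⟨(nat_lit 72), (nat_lit 2), (nat_lit 0xc201), (nat_lit 3)⟩)))
(.nd (.nd (.lf ⟨(nat_lit 780), (nat_lit 2), (nat_lit 0), (nat_lit 0)⟩)
(.lf ⟨(nat_lit 18), (nat_lit 1), (nat_lit 0), (nat_lit 0)⟩))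
(.lf ⟨(nat_lit 198), (nat_lit 2), (nat_lit 387), (nat_lit 2)⟩)))
(.nd (.nd (.nd (.lf ⟨(nat_lit 520), (nat_lit 2), (nat_lit 0), (nat_lit 0)⟩)
(.lf ⟨(nat_lit 204), (nat_lit 2), (nat_lit 0x12303), (nat_lit 3)⟩))
(.nd (.lf ⟨(nat_lit 525), (nat_lit 2), (nat_lit 840), (nat_lit 2)⟩)
(.lf ⟨(nat_lit 0x40c1), (nat_lit 3), (nat_lit 0x40c1), (nat_lit 3)⟩)))
(.nd (.nd (.lf ⟨(nat_lit 65), (nat_lit 2), (nat_lit 0), (nat_lit 0)⟩)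
(.lf ⟨(nat_lit 204), (nat_lit 2), (nat_lit 771), (nat_lit 2)⟩))
(.lf ⟨(nat_lit 781), (nat_lit 2), (nat_lit 844), (nat_lit 2)⟩))))))

/-- Substitution. -/
def s21 : List (ℕ × ℕ) := [((nat_lit 1), (nat_lit 1)), ((nat_lit 259), (nat_lit 2)), ((nat_lit 12), (nat_lit 1)), ((nat_lit 8), (nat_lit 1))]

/-- Context. -/
noncomputable def x21 : ℕ → ℕ × ℕ :=
  mkc d19 81 s19 x19 (nth [] (Cl.alts (nsCl 3 [[4, 1, 3, 4], [0, 1, 2, 6], [0], [0, 1], [0, 1, 2]])) 1)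

set_option maxRecDepth 100000 in
/-- Facts. -/
noncomputable def d22 : Tr :=
(.nd (.nd (.nd (.lf ⟨(nat_lit 131), (nat_lit 2), (nat_lit 0xd0c2), (nat_lit 3)⟩)
(.lf ⟨(nat_lit 131), (nat_lit 2), (nat_lit 194), (nat_lit 2)⟩))
(.lf ⟨(nat_lit 0x1030440c11030440c1), (nat_lit 12), (nat_lit 0), (nat_lit 0)⟩))
(.nd (.lf ⟨(nat_lit 0x1030440c11030440c1), (nat_lit 12), (nat_lit 13), (nat_lit 1)⟩)
(.lf ⟨(nat_lit 13), (nat_lit 1), (nat_lit 0), (nat_lit 0)⟩)))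

/-- Context. -/
noncomputable def x22 : ℕ → ℕ × ℕ :=
  mkc d21 59 s21 x21 (nth [] (Cl.alts (nsCl 2 [[0, 1, 3], [2, 1, 2], [0], [0, 1]])) 0)

set_option maxRecDepth 100000 in
/-- Facts. -/
noncomputable def d23 : Tr :=
(.nd (.nd (.nd (.nd (.nd (.nd (.lf ⟨(nat_lit 65), (nat_lit 2), (nat_lit 0), (nat_lit 0)⟩)
(.lf ⟨(nat_lit 0x1030440c11030440c1), (nat_lit 12), (nat_lit 13), (nat_lit 1)⟩))
(.lf ⟨(nat_lit 203), (nat_lit 2), (nat_lit 707), (nat_lit 2)⟩))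
(.nd (.nd (.lf ⟨(nat_lit 196), (nat_lit 2), (nat_lit 0x8103), (nat_lit 3)⟩)
(.lf ⟨(nat_lit 0x1c40c1), (nat_lit 4), (nat_lit 0x1c40c1), (nat_lit 4)⟩))
(.lf ⟨(nat_lit 717), (nat_lit 2), (nat_lit 843), (nat_lit 2)⟩)))
(.nd (.nd (.nd (.lf ⟨(nat_lit 67), (nat_lit 2), (nat_lit 0x60c1), (nat_lit 3)⟩)
(.lf ⟨(nat_lit 262), (nat_lit 2), (nat_lit 0xb184), (nat_lit 3)⟩))
(.lf ⟨(nat_lit 459), (nat_lit 2), (nat_lit 711), (nat_lit 2)⟩))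
(.nd (.lf ⟨(nat_lit 845), (nat_lit 2), (nat_lit 0), (nat_lit 0)⟩)
(.lf ⟨(nat_lit 262), (nat_lit 2), (nat_lit 0xd30b184), (nat_lit 5)⟩))))
(.nd (.nd (.nd (.nd (.lf ⟨(nat_lit 260), (nat_lit 2), (nat_lit 0), (nat_lit 0)⟩)
(.lf ⟨(nat_lit 12), (nat_lit 1), (nat_lit 13), (nat_lit 1)⟩))
(.lf ⟨(nat_lit 264), (nat_lit 2), (nat_lit 516), (nat_lit 2)⟩))
(.nd (.nd (.lf ⟨(nat_lit 199), (nat_lit 2), (nat_lit 0xb1c3), (nat_lit 3)⟩)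
(.lf ⟨(nat_lit 0x2071881c6), (nat_lit 6), (nat_lit 13), (nat_lit 1)⟩))
(.lf ⟨(nat_lit 75), (nat_lit 2), (nat_lit 0xd2c1), (nat_lit 3)⟩)))
(.nd (.nd (.nd (.lf ⟨(nat_lit 68), (nat_lit 2), (nat_lit 0x7101), (nat_lit 3)⟩)
(.lf ⟨(nat_lit 0x1c40c7103), (nat_lit 6), (nat_lit 712), (nat_lit 2)⟩))
(.lf ⟨(nat_lit 523), (nat_lit 2), (nat_lit 712), (nat_lit 2)⟩))
(.nd (.lf ⟨(nat_lit 71), (nat_lit 2), (nat_lit 449), (nat_lit 2)⟩)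
(.lf ⟨(nat_lit 267), (nat_lit 2), (nat_lit 708), (nat_lit 2)⟩)))))
(.nd (.nd (.nd (.nd (.nd (.lf ⟨(nat_lit 195), (nat_lit 2), (nat_lit 0), (nat_lit 0)⟩)
(.lf ⟨(nat_lit 0x1030440c11030440c1), (nat_lit 12), (nat_lit 12), (nat_lit 1)⟩))
(.lf ⟨(nat_lit 263), (nat_lit 2), (nat_lit 452), (nat_lit 2)⟩))
(.nd (.nd (.lf ⟨(nat_lit 715), (nat_lit 2), (nat_lit 0), (nat_lit 0)⟩)
(.lf ⟨(nat_lit 0x1c40c11c40c1), (nat_lit 8), (nat_lit 0x81c6), (nat_lit 3)⟩))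
(.lf ⟨(nat_lit 461), (nat_lit 2), (nat_lit 839), (nat_lit 2)⟩)))
(.nd (.nd (.nd (.lf ⟨(nat_lit 455), (nat_lit 2), (nat_lit 0), (nat_lit 0)⟩)
(.lf ⟨(nat_lit 0x12c8), (nat_lit 3), (nat_lit 0xb201), (nat_lit 3)⟩))
(.lf ⟨(nat_lit 198), (nat_lit 2), (nat_lit 387), (nat_lit 2)⟩))
(.nd (.lf ⟨(nat_lit 65), (nat_lit 2), (nat_lit 0), (nat_lit 0)⟩)
(.lf ⟨(nat_lit 456), (nat_lit 2), (nat_lit 519), (nat_lit 2)⟩))))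
(.nd (.nd (.nd (.nd (.lf ⟨(nat_lit 390), (nat_lit 2), (nat_lit 0), (nat_lit 0)⟩)
(.lf ⟨(nat_lit 72), (nat_lit 2), (nat_lit 0xd201), (nat_lit 3)⟩))
(.lf ⟨(nat_lit 525), (nat_lit 2), (nat_lit 840), (nat_lit 2)⟩))
(.nd (.nd (.lf ⟨(nat_lit 72), (nat_lit 2), (nat_lit 0xc201), (nat_lit 3)⟩)
(.lf ⟨(nat_lit 0x1c40c11c40c11c40c11c40c1), (nat_lit 16), (nat_lit 13), (nat_lit 1)⟩))
(.lf ⟨(nat_lit 391), (nat_lit 2), (nat_lit 0xd1c6), (nat_lit 3)⟩)))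
(.nd (.nd (.nd (.lf ⟨(nat_lit 520), (nat_lit 2), (nat_lit 0), (nat_lit 0)⟩)
(.lf ⟨(nat_lit 0x71032c8), (nat_lit 5), (nat_lit 0xb207103), (nat_lit 5)⟩))
(.lf ⟨(nat_lit 0x2c82c8), (nat_lit 4), (nat_lit 0), (nat_lit 0)⟩))
(.nd (.lf ⟨(nat_lit 200), (nat_lit 2), (nat_lit 515), (nat_lit 2)⟩)
(.lf ⟨(nat_lit 392), (nat_lit 2), (nat_lit 518), (nat_lit 2)⟩))))))

/-- Substitution. -/
def s23 : List (ℕ × ℕ) := [((nat_lit 1), (nat_lit 1)), ((nat_lit 0x7103), (nat_lit 3)), ((nat_lit 712), (nat_lit 2))]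

/-- Context. -/
noncomputable def x23 : ℕ → ℕ × ℕ :=
  mkc d21 59 s21 x21 (nth [] (Cl.alts (nsCl 2 [[0, 1, 3], [2, 1, 2], [0], [0, 1]])) 1)

set_option maxRecDepth 100000 in
/-- Facts. -/
noncomputable def d24 : Tr :=
(.nd (.nd (.nd (.lf ⟨(nat_lit 131), (nat_lit 2), (nat_lit 0xd0c2), (nat_lit 3)⟩)
(.lf ⟨(nat_lit 131), (nat_lit 2), (nat_lit 194), (nat_lit 2)⟩))
(.lf ⟨(nat_lit 0x1c40c11c40c11c40c11c40c1), (nat_lit 16), (nat_lit 0), (nat_lit 0)⟩))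
(.nd (.lf ⟨(nat_lit 0x1c40c11c40c11c40c11c40c1), (nat_lit 16), (nat_lit 13), (nat_lit 1)⟩)
(.lf ⟨(nat_lit 13), (nat_lit 1), (nat_lit 0), (nat_lit 0)⟩)))

/-- Context. -/
noncomputable def x24 : ℕ → ℕ × ℕ :=
  mkc d23 44 s23 x23 (nth [] (Cl.alts (nsCl 1 [[0, 1], [1, 1], [0]])) 0)

set_option maxRecDepth 100000 in
/-- Facts. -/
noncomputable def d25 : Tr :=
(.nd (.nd (.nd (.nd (.nd (.lf ⟨(nat_lit 715), (nat_lit 2), (nat_lit 0), (nat_lit 0)⟩)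
(.lf ⟨(nat_lit 717), (nat_lit 2), (nat_lit 843), (nat_lit 2)⟩))
(.nd (.lf ⟨(nat_lit 75), (nat_lit 2), (nat_lit 0xd2c1), (nat_lit 3)⟩)
(.lf ⟨(nat_lit 9), (nat_lit 1), (nat_lit 0xd2ca), (nat_lit 3)⟩)))
(.nd (.nd (.lf ⟨(nat_lit 394), (nat_lit 2), (nat_lit 646), (nat_lit 2)⟩)
(.lf ⟨(nat_lit 202), (nat_lit 2), (nat_lit 643), (nat_lit 2)⟩))
(.nd (.lf ⟨(nat_lit 262), (nat_lit 2), (nat_lit 0xb184), (nat_lit 3)⟩)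
(.lf ⟨(nat_lit 8), (nat_lit 1), (nat_lit 843), (nat_lit 2)⟩))))
(.nd (.nd (.nd (.lf ⟨(nat_lit 651), (nat_lit 2), (nat_lit 714), (nat_lit 2)⟩)
(.lf ⟨(nat_lit 461), (nat_lit 2), (nat_lit 839), (nat_lit 2)⟩))
(.nd (.lf ⟨(nat_lit 197), (nat_lit 2), (nat_lit 0x2ca143), (nat_lit 4)⟩)
(.lf ⟨(nat_lit 12), (nat_lit 1), (nat_lit 13), (nat_lit 1)⟩)))
(.nd (.nd (.lf ⟨(nat_lit 331), (nat_lit 2), (nat_lit 709), (nat_lit 2)⟩)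
(.lf ⟨(nat_lit 139), (nat_lit 2), (nat_lit 706), (nat_lit 2)⟩))
(.lf ⟨(nat_lit 0x1c40c11c40c11c40c11c40c1), (nat_lit 16), (nat_lit 712), (nat_lit 2)⟩))))
(.nd (.nd (.nd (.nd (.lf ⟨(nat_lit 717), (nat_lit 2), (nat_lit 843), (nat_lit 2)⟩)
(.lf ⟨(nat_lit 651), (nat_lit 2), (nat_lit 714), (nat_lit 2)⟩))
(.nd (.lf ⟨(nat_lit 9), (nat_lit 1), (nat_lit 0xd2ca), (nat_lit 3)⟩)
(.lf ⟨(nat_lit 197), (nat_lit 2), (nat_lit 0x2ca143), (nat_lit 4)⟩)))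
(.nd (.nd (.lf ⟨(nat_lit 202), (nat_lit 2), (nat_lit 643), (nat_lit 2)⟩)
(.lf ⟨(nat_lit 331), (nat_lit 2), (nat_lit 709), (nat_lit 2)⟩))
(.lf ⟨(nat_lit 0x1c40c11c40c11c40c11c40c1), (nat_lit 16), (nat_lit 13), (nat_lit 1)⟩)))
(.nd (.nd (.nd (.lf ⟨(nat_lit 461), (nat_lit 2), (nat_lit 839), (nat_lit 2)⟩)
(.lf ⟨(nat_lit 394), (nat_lit 2), (nat_lit 646), (nat_lit 2)⟩))
(.nd (.lf ⟨(nat_lit 12), (nat_lit 1), (nat_lit 13), (nat_lit 1)⟩)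
(.lf ⟨(nat_lit 262), (nat_lit 2), (nat_lit 0xb184), (nat_lit 3)⟩)))
(.nd (.nd (.lf ⟨(nat_lit 139), (nat_lit 2), (nat_lit 706), (nat_lit 2)⟩)
(.lf ⟨(nat_lit 75), (nat_lit 2), (nat_lit 0xd2c1), (nat_lit 3)⟩))
(.lf ⟨(nat_lit 8), (nat_lit 1), (nat_lit 843), (nat_lit 2)⟩)))))

/-- Context. -/
noncomputable def x25 : ℕ → ℕ × ℕ :=
  mkc d23 44 s23 x23 (nth [] (Cl.alts (nsCl 1 [[0, 1], [1, 1], [0]])) 1)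

set_option maxRecDepth 100000 in
/-- Facts. -/
noncomputable def d26 : Tr :=
(.nd (.nd (.nd (.nd (.nd (.lf ⟨(nat_lit 65), (nat_lit 2), (nat_lit 0), (nat_lit 0)⟩)
(.lf ⟨(nat_lit 8), (nat_lit 1), (nat_lit 13), (nat_lit 1)⟩))
(.nd (.lf ⟨(nat_lit 331), (nat_lit 2), (nat_lit 709), (nat_lit 2)⟩)
(.lf ⟨(nat_lit 75), (nat_lit 2), (nat_lit 0xd2c1), (nat_lit 3)⟩)))
(.nd (.nd (.lf ⟨(nat_lit 781), (nat_lit 2), (nat_lit 844), (nat_lit 2)⟩)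
(.lf ⟨(nat_lit 651), (nat_lit 2), (nat_lit 714), (nat_lit 2)⟩))
(.nd (.lf ⟨(nat_lit 197), (nat_lit 2), (nat_lit 0x2ca143), (nat_lit 4)⟩)
(.lf ⟨(nat_lit 12), (nat_lit 1), (nat_lit 0), (nat_lit 0)⟩))))
(.nd (.nd (.nd (.lf ⟨(nat_lit 845), (nat_lit 2), (nat_lit 0), (nat_lit 0)⟩)
(.lf ⟨(nat_lit 262), (nat_lit 2), (nat_lit 0x34b184), (nat_lit 4)⟩))
(.nd (.lf ⟨(nat_lit 75), (nat_lit 2), (nat_lit 0xd2c1), (nat_lit 3)⟩)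
(.lf ⟨(nat_lit 197), (nat_lit 2), (nat_lit 0x2ca143), (nat_lit 4)⟩)))
(.nd (.nd (.lf ⟨(nat_lit 651), (nat_lit 2), (nat_lit 714), (nat_lit 2)⟩)
(.lf ⟨(nat_lit 331), (nat_lit 2), (nat_lit 709), (nat_lit 2)⟩))
(.lf ⟨(nat_lit 0x1030440c11030440c1), (nat_lit 12), (nat_lit 13), (nat_lit 1)⟩))))
(.nd (.nd (.nd (.nd (.lf ⟨(nat_lit 72), (nat_lit 2), (nat_lit 0xc201), (nat_lit 3)⟩)
(.lf ⟨(nat_lit 12), (nat_lit 1), (nat_lit 0), (nat_lit 0)⟩))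
(.nd (.lf ⟨(nat_lit 139), (nat_lit 2), (nat_lit 706), (nat_lit 2)⟩)
(.lf ⟨(nat_lit 9), (nat_lit 1), (nat_lit 0xd2ca), (nat_lit 3)⟩)))
(.nd (.nd (.lf ⟨(nat_lit 717), (nat_lit 2), (nat_lit 843), (nat_lit 2)⟩)
(.lf ⟨(nat_lit 394), (nat_lit 2), (nat_lit 646), (nat_lit 2)⟩))
(.nd (.lf ⟨(nat_lit 262), (nat_lit 2), (nat_lit 0xd30b184), (nat_lit 5)⟩)
(.lf ⟨(nat_lit 262), (nat_lit 2), (nat_lit 0x34b184), (nat_lit 4)⟩))))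
(.nd (.nd (.nd (.lf ⟨(nat_lit 77), (nat_lit 2), (nat_lit 833), (nat_lit 2)⟩)
(.lf ⟨(nat_lit 717), (nat_lit 2), (nat_lit 843), (nat_lit 2)⟩))
(.nd (.lf ⟨(nat_lit 9), (nat_lit 1), (nat_lit 0xd2ca), (nat_lit 3)⟩)
(.lf ⟨(nat_lit 8), (nat_lit 1), (nat_lit 13), (nat_lit 1)⟩)))
(.nd (.nd (.lf ⟨(nat_lit 394), (nat_lit 2), (nat_lit 646), (nat_lit 2)⟩)
(.lf ⟨(nat_lit 139), (nat_lit 2), (nat_lit 706), (nat_lit 2)⟩))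
(.lf ⟨(nat_lit 0x1030440c11030440c1), (nat_lit 12), (nat_lit 8), (nat_lit 1)⟩)))))

/-- Context. -/
noncomputable def x26 : ℕ → ℕ × ℕ :=
  mkc d21 59 s21 x21 (nth [] (Cl.alts (nsCl 2 [[0, 1, 3], [2, 1, 2], [0], [0, 1]])) 2)

set_option maxRecDepth 100000 in
/-- Facts. -/
noncomputable def d27 : Tr :=
(.nd (.nd (.nd (.nd (.nd (.nd (.lf ⟨(nat_lit 65), (nat_lit 2), (nat_lit 0), (nat_lit 0)⟩)
(.lf ⟨(nat_lit 262), (nat_lit 2), (nat_lit 0x34b184), (nat_lit 4)⟩))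
(.lf ⟨(nat_lit 0x1030440c11030440c1), (nat_lit 12), (nat_lit 13), (nat_lit 1)⟩))
(.nd (.lf ⟨(nat_lit 651), (nat_lit 2), (nat_lit 714), (nat_lit 2)⟩)
(.lf ⟨(nat_lit 394), (nat_lit 2), (nat_lit 646), (nat_lit 2)⟩)))
(.nd (.nd (.lf ⟨(nat_lit 76), (nat_lit 2), (nat_lit 769), (nat_lit 2)⟩)
(.lf ⟨(nat_lit 262), (nat_lit 2), (nat_lit 0x34b184), (nat_lit 4)⟩))
(.nd (.lf ⟨(nat_lit 75), (nat_lit 2), (nat_lit 0xd2c1), (nat_lit 3)⟩)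
(.lf ⟨(nat_lit 9), (nat_lit 1), (nat_lit 0xd2ca), (nat_lit 3)⟩))))
(.nd (.nd (.nd (.lf ⟨(nat_lit 72), (nat_lit 2), (nat_lit 0xc201), (nat_lit 3)⟩)
(.lf ⟨(nat_lit 8), (nat_lit 1), (nat_lit 844), (nat_lit 2)⟩))
(.nd (.lf ⟨(nat_lit 331), (nat_lit 2), (nat_lit 709), (nat_lit 2)⟩)
(.lf ⟨(nat_lit 139), (nat_lit 2), (nat_lit 706), (nat_lit 2)⟩)))
(.nd (.nd (.lf ⟨(nat_lit 781), (nat_lit 2), (nat_lit 844), (nat_lit 2)⟩)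
(.lf ⟨(nat_lit 717), (nat_lit 2), (nat_lit 843), (nat_lit 2)⟩))
(.nd (.lf ⟨(nat_lit 197), (nat_lit 2), (nat_lit 0x2ca143), (nat_lit 4)⟩)
(.lf ⟨(nat_lit 8), (nat_lit 1), (nat_lit 13), (nat_lit 1)⟩)))))
(.nd (.nd (.nd (.nd (.lf ⟨(nat_lit 780), (nat_lit 2), (nat_lit 0), (nat_lit 0)⟩)
(.lf ⟨(nat_lit 0x1030440c11030440c1), (nat_lit 12), (nat_lit 776), (nat_lit 2)⟩))
(.nd (.lf ⟨(nat_lit 394), (nat_lit 2), (nat_lit 646), (nat_lit 2)⟩)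
(.lf ⟨(nat_lit 331), (nat_lit 2), (nat_lit 709), (nat_lit 2)⟩)))
(.nd (.nd (.lf ⟨(nat_lit 77), (nat_lit 2), (nat_lit 833), (nat_lit 2)⟩)
(.lf ⟨(nat_lit 8), (nat_lit 1), (nat_lit 13), (nat_lit 1)⟩))
(.nd (.lf ⟨(nat_lit 9), (nat_lit 1), (nat_lit 0xd2ca), (nat_lit 3)⟩)
(.lf ⟨(nat_lit 197), (nat_lit 2), (nat_lit 0x2ca143), (nat_lit 4)⟩))))
(.nd (.nd (.nd (.lf ⟨(nat_lit 845), (nat_lit 2), (nat_lit 0), (nat_lit 0)⟩)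
(.lf ⟨(nat_lit 12), (nat_lit 1), (nat_lit 0), (nat_lit 0)⟩))
(.nd (.lf ⟨(nat_lit 139), (nat_lit 2), (nat_lit 706), (nat_lit 2)⟩)
(.lf ⟨(nat_lit 75), (nat_lit 2), (nat_lit 0xd2c1), (nat_lit 3)⟩)))
(.nd (.nd (.lf ⟨(nat_lit 717), (nat_lit 2), (nat_lit 843), (nat_lit 2)⟩)
(.lf ⟨(nat_lit 651), (nat_lit 2), (nat_lit 714), (nat_lit 2)⟩))
(.nd (.lf ⟨(nat_lit 262), (nat_lit 2), (nat_lit 0xd30b184), (nat_lit 5)⟩)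
(.lf ⟨(nat_lit 12), (nat_lit 1), (nat_lit 0), (nat_lit 0)⟩))))))

/-- Context. -/
noncomputable def x27 : ℕ → ℕ × ℕ :=
  mkc d21 59 s21 x21 (nth [] (Cl.alts (nsCl 2 [[0, 1, 3], [2, 1, 2], [0], [0, 1]])) 3)

set_option maxRecDepth 100000 in
/-- Facts. -/
noncomputable def d28 : Tr :=
(.nd (.nd (.nd (.nd (.lf ⟨(nat_lit 65), (nat_lit 2), (nat_lit 0), (nat_lit 0)⟩)
(.lf ⟨(nat_lit 13), (nat_lit 1), (nat_lit 0), (nat_lit 0)⟩))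
(.lf ⟨(nat_lit 75), (nat_lit 2), (nat_lit 0xd2c1), (nat_lit 3)⟩))
(.nd (.lf ⟨(nat_lit 77), (nat_lit 2), (nat_lit 833), (nat_lit 2)⟩)
(.lf ⟨(nat_lit 0xc40431010c4043101), (nat_lit 12), (nat_lit 11), (nat_lit 1)⟩)))
(.nd (.nd (.nd (.lf ⟨(nat_lit 845), (nat_lit 2), (nat_lit 0), (nat_lit 0)⟩)
(.lf ⟨(nat_lit 131), (nat_lit 2), (nat_lit 194), (nat_lit 2)⟩))
(.lf ⟨(nat_lit 0xc40431010c4043101), (nat_lit 12), (nat_lit 13), (nat_lit 1)⟩))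
(.nd (.lf ⟨(nat_lit 131), (nat_lit 2), (nat_lit 0xd0c2), (nat_lit 3)⟩)
(.lf ⟨(nat_lit 11), (nat_lit 1), (nat_lit 13), (nat_lit 1)⟩))))

/-- Context. -/
noncomputable def x28 : ℕ → ℕ × ℕ :=
  mkc d19 81 s19 x19 (nth [] (Cl.alts (nsCl 3 [[4, 1, 3, 4], [0, 1, 2, 6], [0], [0, 1], [0, 1, 2]])) 2)

set_option maxRecDepth 100000 in
/-- Facts. -/
noncomputable def d29 : Tr :=
(.nd (.nd (.nd (.nd (.lf ⟨(nat_lit 65), (nat_lit 2), (nat_lit 0), (nat_lit 0)⟩)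
(.lf ⟨(nat_lit 0xc40431010c4043101), (nat_lit 12), (nat_lit 13), (nat_lit 1)⟩))
(.nd (.lf ⟨(nat_lit 274), (nat_lit 2), (nat_lit 0x484), (nat_lit 2)⟩)
(.lf ⟨(nat_lit 13), (nat_lit 1), (nat_lit 0), (nat_lit 0)⟩)))
(.nd (.nd (.lf ⟨(nat_lit 0x492), (nat_lit 2), (nat_lit 0), (nat_lit 0)⟩)
(.lf ⟨(nat_lit 11), (nat_lit 1), (nat_lit 18), (nat_lit 1)⟩))
(.lf ⟨(nat_lit 267), (nat_lit 2), (nat_lit 0x122c4), (nat_lit 3)⟩)))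
(.nd (.nd (.nd (.lf ⟨(nat_lit 260), (nat_lit 2), (nat_lit 0), (nat_lit 0)⟩)
(.lf ⟨(nat_lit 0xc40431010c4043101), (nat_lit 12), (nat_lit 0xd48b), (nat_lit 3)⟩))
(.nd (.lf ⟨(nat_lit 131), (nat_lit 2), (nat_lit 0xd0c2), (nat_lit 3)⟩)
(.lf ⟨(nat_lit 131), (nat_lit 2), (nat_lit 194), (nat_lit 2)⟩)))
(.nd (.nd (.lf ⟨(nat_lit 845), (nat_lit 2), (nat_lit 0), (nat_lit 0)⟩)
(.lf ⟨(nat_lit 18), (nat_lit 1), (nat_lit 0), (nat_lit 0)⟩))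
(.lf ⟨(nat_lit 75), (nat_lit 2), (nat_lit 0xd2c1), (nat_lit 3)⟩))))

/-- Context. -/
noncomputable def x29 : ℕ → ℕ × ℕ :=
  mkc d19 81 s19 x19 (nth [] (Cl.alts (nsCl 3 [[4, 1, 3, 4], [0, 1, 2, 6], [0], [0, 1], [0, 1, 2]])) 3)

set_option maxRecDepth 100000 in
/-- Facts. -/
noncomputable def d30 : Tr :=
(.nd (.nd (.nd (.nd (.lf ⟨(nat_lit 65), (nat_lit 2), (nat_lit 0), (nat_lit 0)⟩)
(.lf ⟨(nat_lit 0xc40431010c4043101), (nat_lit 12), (nat_lit 13), (nat_lit 1)⟩))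
(.nd (.lf ⟨(nat_lit 205), (nat_lit 2), (nat_lit 835), (nat_lit 2)⟩)
(.lf ⟨(nat_lit 13), (nat_lit 1), (nat_lit 0), (nat_lit 0)⟩)))
(.nd (.nd (.lf ⟨(nat_lit 199), (nat_lit 2), (nat_lit 0xb1c3), (nat_lit 3)⟩)
(.lf ⟨(nat_lit 7), (nat_lit 1), (nat_lit 13), (nat_lit 1)⟩))
(.lf ⟨(nat_lit 717), (nat_lit 2), (nat_lit 843), (nat_lit 2)⟩)))
(.nd (.nd (.nd (.lf ⟨(nat_lit 195), (nat_lit 2), (nat_lit 0), (nat_lit 0)⟩)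
(.lf ⟨(nat_lit 0xc40431010c4043101), (nat_lit 12), (nat_lit 7), (nat_lit 1)⟩))
(.nd (.lf ⟨(nat_lit 131), (nat_lit 2), (nat_lit 0xd0c2), (nat_lit 3)⟩)
(.lf ⟨(nat_lit 131), (nat_lit 2), (nat_lit 194), (nat_lit 2)⟩)))
(.nd (.nd (.lf ⟨(nat_lit 845), (nat_lit 2), (nat_lit 0), (nat_lit 0)⟩)
(.lf ⟨(nat_lit 11), (nat_lit 1), (nat_lit 0), (nat_lit 0)⟩))
(.lf ⟨(nat_lit 75), (nat_lit 2), (nat_lit 0xd2c1), (nat_lit 3)⟩))))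

/-- Context. -/
noncomputable def x30 : ℕ → ℕ × ℕ :=
  mkc d19 81 s19 x19 (nth [] (Cl.alts (nsCl 3 [[4, 1, 3, 4], [0, 1, 2, 6], [0], [0, 1], [0, 1, 2]])) 4)

set_option maxRecDepth 100000 in
/-- Facts. -/
noncomputable def d31 : Tr :=
(.nd (.nd (.nd (.nd (.lf ⟨(nat_lit 65), (nat_lit 2), (nat_lit 0), (nat_lit 0)⟩)
(.lf ⟨(nat_lit 75), (nat_lit 2), (nat_lit 0xd2c1), (nat_lit 3)⟩))
(.nd (.lf ⟨(nat_lit 845), (nat_lit 2), (nat_lit 0), (nat_lit 0)⟩)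
(.lf ⟨(nat_lit 11), (nat_lit 1), (nat_lit 0), (nat_lit 0)⟩)))
(.nd (.nd (.lf ⟨(nat_lit 199), (nat_lit 2), (nat_lit 0xb1c3), (nat_lit 3)⟩)
(.lf ⟨(nat_lit 0xc40431010c4043101), (nat_lit 12), (nat_lit 0xd487), (nat_lit 3)⟩))
(.nd (.lf ⟨(nat_lit 210), (nat_lit 2), (nat_lit 0x483), (nat_lit 2)⟩)
(.lf ⟨(nat_lit 131), (nat_lit 2), (nat_lit 194), (nat_lit 2)⟩))))
(.nd (.nd (.nd (.lf ⟨(nat_lit 195), (nat_lit 2), (nat_lit 0), (nat_lit 0)⟩)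
(.lf ⟨(nat_lit 0xc40431010c4043101), (nat_lit 12), (nat_lit 13), (nat_lit 1)⟩))
(.nd (.lf ⟨(nat_lit 131), (nat_lit 2), (nat_lit 0xd0c2), (nat_lit 3)⟩)
(.lf ⟨(nat_lit 13), (nat_lit 1), (nat_lit 0), (nat_lit 0)⟩)))
(.nd (.nd (.lf ⟨(nat_lit 0x492), (nat_lit 2), (nat_lit 0), (nat_lit 0)⟩)
(.lf ⟨(nat_lit 7), (nat_lit 1), (nat_lit 18), (nat_lit 1)⟩))
(.lf ⟨(nat_lit 722), (nat_lit 2), (nat_lit 0x48b), (nat_lit 2)⟩))))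

/-- Context. -/
noncomputable def x31 : ℕ → ℕ × ℕ :=
  mkc d19 81 s19 x19 (nth [] (Cl.alts (nsCl 3 [[4, 1, 3, 4], [0, 1, 2, 6], [0], [0, 1], [0, 1, 2]])) 5)

set_option maxRecDepth 100000 in
/-- Facts. -/
noncomputable def d32 : Tr :=
(.nd (.nd (.nd (.nd (.lf ⟨(nat_lit 65), (nat_lit 2), (nat_lit 0), (nat_lit 0)⟩)
(.lf ⟨(nat_lit 717), (nat_lit 2), (nat_lit 843), (nat_lit 2)⟩))
(.nd (.lf ⟨(nat_lit 845), (nat_lit 2), (nat_lit 0), (nat_lit 0)⟩)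
(.lf ⟨(nat_lit 7), (nat_lit 1), (nat_lit 843), (nat_lit 2)⟩)))
(.nd (.nd (.lf ⟨(nat_lit 715), (nat_lit 2), (nat_lit 0), (nat_lit 0)⟩)
(.lf ⟨(nat_lit 0xc40431010c4043101), (nat_lit 12), (nat_lit 13), (nat_lit 1)⟩))
(.nd (.lf ⟨(nat_lit 205), (nat_lit 2), (nat_lit 835), (nat_lit 2)⟩)
(.lf ⟨(nat_lit 13), (nat_lit 1), (nat_lit 0), (nat_lit 0)⟩))))
(.nd (.nd (.nd (.lf ⟨(nat_lit 195), (nat_lit 2), (nat_lit 0), (nat_lit 0)⟩)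
(.lf ⟨(nat_lit 75), (nat_lit 2), (nat_lit 0xd2c1), (nat_lit 3)⟩))
(.nd (.lf ⟨(nat_lit 203), (nat_lit 2), (nat_lit 707), (nat_lit 2)⟩)
(.lf ⟨(nat_lit 11), (nat_lit 1), (nat_lit 0), (nat_lit 0)⟩)))
(.nd (.nd (.lf ⟨(nat_lit 199), (nat_lit 2), (nat_lit 0xb1c3), (nat_lit 3)⟩)
(.lf ⟨(nat_lit 0xc40431010c4043101), (nat_lit 12), (nat_lit 711), (nat_lit 2)⟩))
(.nd (.lf ⟨(nat_lit 131), (nat_lit 2), (nat_lit 0xd0c2), (nat_lit 3)⟩)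
(.lf ⟨(nat_lit 131), (nat_lit 2), (nat_lit 194), (nat_lit 2)⟩)))))

/-- Context. -/
noncomputable def x32 : ℕ → ℕ × ℕ :=
  mkc d19 81 s19 x19 (nth [] (Cl.alts (nsCl 3 [[4, 1, 3, 4], [0, 1, 2, 6], [0], [0, 1], [0, 1, 2]])) 6)

set_option maxRecDepth 100000 in
/-- Facts. -/
noncomputable def d33 : Tr :=
(.nd (.nd (.nd (.nd (.nd (.lf ⟨(nat_lit 65), (nat_lit 2), (nat_lit 0), (nat_lit 0)⟩)
(.lf ⟨(nat_lit 131), (nat_lit 2), (nat_lit 194), (nat_lit 2)⟩))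
(.lf ⟨(nat_lit 210), (nat_lit 2), (nat_lit 0x483), (nat_lit 2)⟩))
(.nd (.lf ⟨(nat_lit 0x492), (nat_lit 2), (nat_lit 0), (nat_lit 0)⟩)
(.lf ⟨(nat_lit 0xc40431010c4043101), (nat_lit 12), (nat_lit 0x3522c7), (nat_lit 4)⟩)))
(.nd (.nd (.lf ⟨(nat_lit 715), (nat_lit 2), (nat_lit 0), (nat_lit 0)⟩)
(.lf ⟨(nat_lit 75), (nat_lit 2), (nat_lit 0xd2c1), (nat_lit 3)⟩))
(.nd (.lf ⟨(nat_lit 203), (nat_lit 2), (nat_lit 707), (nat_lit 2)⟩)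
(.lf ⟨(nat_lit 11), (nat_lit 1), (nat_lit 0), (nat_lit 0)⟩))))
(.nd (.nd (.nd (.lf ⟨(nat_lit 195), (nat_lit 2), (nat_lit 0), (nat_lit 0)⟩)
(.lf ⟨(nat_lit 722), (nat_lit 2), (nat_lit 0x48b), (nat_lit 2)⟩))
(.nd (.lf ⟨(nat_lit 845), (nat_lit 2), (nat_lit 0), (nat_lit 0)⟩)
(.lf ⟨(nat_lit 7), (nat_lit 1), (nat_lit 0x48b), (nat_lit 2)⟩)))
(.nd (.nd (.lf ⟨(nat_lit 199), (nat_lit 2), (nat_lit 0xb1c3), (nat_lit 3)⟩)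
(.lf ⟨(nat_lit 0xc40431010c4043101), (nat_lit 12), (nat_lit 13), (nat_lit 1)⟩))
(.nd (.lf ⟨(nat_lit 131), (nat_lit 2), (nat_lit 0xd0c2), (nat_lit 3)⟩)
(.lf ⟨(nat_lit 13), (nat_lit 1), (nat_lit 0), (nat_lit 0)⟩)))))

/-- Context. -/
noncomputable def x33 : ℕ → ℕ × ℕ :=
  mkc d19 81 s19 x19 (nth [] (Cl.alts (nsCl 3 [[4, 1, 3, 4], [0, 1, 2, 6], [0], [0, 1], [0, 1, 2]])) 7)

set_option maxRecDepth 100000 in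
/-- Facts. -/
noncomputable def d34 : Tr :=
(.nd (.nd (.nd (.nd (.nd (.nd (.nd (.lf ⟨(nat_lit 65), (nat_lit 2), (nat_lit 0), (nat_lit 0)⟩)
(.lf ⟨(nat_lit 721), (nat_lit 2), (nat_lit 0x44b), (nat_lit 2)⟩))
(.nd (.lf ⟨(nat_lit 203), (nat_lit 2), (nat_lit 707), (nat_lit 2)⟩)
(.lf ⟨(nat_lit 14), (nat_lit 1), (nat_lit 0), (nat_lit 0)⟩)))
(.nd (.nd (.lf ⟨(nat_lit 199), (nat_lit 2), (nat_lit 0xb1c3), (nat_lit 3)⟩)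
(.lf ⟨(nat_lit 145), (nat_lit 2), (nat_lit 0x442), (nat_lit 2)⟩))
(.nd (.lf ⟨(nat_lit 81), (nat_lit 2), (nat_lit 0x441), (nat_lit 2)⟩)
(.lf ⟨(nat_lit 0xc1351), (nat_lit 4), (nat_lit 0x3510c1), (nat_lit 4)⟩))))
(.nd (.nd (.nd (.lf ⟨(nat_lit 67), (nat_lit 2), (nat_lit 0x60c1), (nat_lit 3)⟩)
(.lf ⟨(nat_lit 197), (nat_lit 2), (nat_lit 0x349143), (nat_lit 4)⟩))
(.nd (.lf ⟨(nat_lit 785), (nat_lit 2), (nat_lit 0x44c), (nat_lit 2)⟩)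
(.lf ⟨(nat_lit 0x30b24c2c9), (nat_lit 6), (nat_lit 0), (nat_lit 0)⟩)))
(.nd (.nd (.lf ⟨(nat_lit 73), (nat_lit 2), (nat_lit 0xd241), (nat_lit 3)⟩)
(.lf ⟨(nat_lit 140), (nat_lit 2), (nat_lit 0x11302), (nat_lit 3)⟩))
(.lf ⟨(nat_lit 460), (nat_lit 2), (nat_lit 775), (nat_lit 2)⟩))))
(.nd (.nd (.nd (.nd (.lf ⟨(nat_lit 132), (nat_lit 2), (nat_lit 258), (nat_lit 2)⟩)
(.lf ⟨(nat_lit 267), (nat_lit 2), (nat_lit 0x122c4), (nat_lit 3)⟩))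
(.nd (.lf ⟨(nat_lit 393), (nat_lit 2), (nat_lit 582), (nat_lit 2)⟩)
(.lf ⟨(nat_lit 262), (nat_lit 2), (nat_lit 0x1130b184), (nat_lit 5)⟩)))
(.nd (.nd (.lf ⟨(nat_lit 0x451), (nat_lit 2), (nat_lit 0), (nat_lit 0)⟩)
(.lf ⟨(nat_lit 136), (nat_lit 2), (nat_lit 514), (nat_lit 2)⟩))
(.nd (.lf ⟨(nat_lit 327), (nat_lit 2), (nat_lit 453), (nat_lit 2)⟩)
(.lf ⟨(nat_lit 0x3512481c51030813512481c5103081), (nat_lit 20), (nat_lit 0x35130b207185), (nat_lit 8)⟩))))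
(.nd (.nd (.nd (.lf ⟨(nat_lit 196), (nat_lit 2), (nat_lit 0x8103), (nat_lit 3)⟩)
(.lf ⟨(nat_lit 717), (nat_lit 2), (nat_lit 843), (nat_lit 2)⟩))
(.nd (.lf ⟨(nat_lit 329), (nat_lit 2), (nat_lit 581), (nat_lit 2)⟩)
(.lf ⟨(nat_lit 0x102351), (nat_lit 4), (nat_lit 0x351102), (nat_lit 4)⟩)))
(.nd (.nd (.lf ⟨(nat_lit 71), (nat_lit 2), (nat_lit 449), (nat_lit 2)⟩)
(.lf ⟨(nat_lit 0x470c20470c20470c20470c2), (nat_lit 16), (nat_lit 0xd2ca), (nat_lit 3)⟩))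
(.lf ⟨(nat_lit 392), (nat_lit 2), (nat_lit 0x11206), (nat_lit 3)⟩)))))
(.nd (.nd (.nd (.nd (.nd (.lf ⟨(nat_lit 195), (nat_lit 2), (nat_lit 0), (nat_lit 0)⟩)
(.lf ⟨(nat_lit 465), (nat_lit 2), (nat_lit 0x447), (nat_lit 2)⟩))
(.nd (.lf ⟨(nat_lit 209), (nat_lit 2), (nat_lit 0x443), (nat_lit 2)⟩)
(.lf ⟨(nat_lit 391), (nat_lit 2), (nat_lit 454), (nat_lit 2)⟩)))
(.nd (.nd (.lf ⟨(nat_lit 72), (nat_lit 2), (nat_lit 0xc201), (nat_lit 3)⟩)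
(.lf ⟨(nat_lit 461), (nat_lit 2), (nat_lit 839), (nat_lit 2)⟩))
(.nd (.lf ⟨(nat_lit 69), (nat_lit 2), (nat_lit 321), (nat_lit 2)⟩)
(.lf ⟨(nat_lit 0x3046), (nat_lit 3), (nat_lit 0x60c1), (nat_lit 3)⟩))))
(.nd (.nd (.nd (.lf ⟨(nat_lit 68), (nat_lit 2), (nat_lit 0x7101), (nat_lit 3)⟩)
(.lf ⟨(nat_lit 587), (nat_lit 2), (nat_lit 713), (nat_lit 2)⟩))
(.nd (.lf ⟨(nat_lit 333), (nat_lit 2), (nat_lit 837), (nat_lit 2)⟩)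
(.lf ⟨(nat_lit 0x6351), (nat_lit 3), (nat_lit 0xd446), (nat_lit 3)⟩)))
(.nd (.nd (.lf ⟨(nat_lit 390), (nat_lit 2), (nat_lit 0), (nat_lit 0)⟩)
(.lf ⟨(nat_lit 328), (nat_lit 2), (nat_lit 0x11205), (nat_lit 3)⟩))
(.lf ⟨(nat_lit 0x44d), (nat_lit 2), (nat_lit 849), (nat_lit 2)⟩))))
(.nd (.nd (.nd (.nd (.lf ⟨(nat_lit 66), (nat_lit 2), (nat_lit 0x5081), (nat_lit 3)⟩)
(.lf ⟨(nat_lit 273), (nat_lit 2), (nat_lit 0x444), (nat_lit 2)⟩))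
(.nd (.lf ⟨(nat_lit 524), (nat_lit 2), (nat_lit 776), (nat_lit 2)⟩)
(.lf ⟨(nat_lit 268), (nat_lit 2), (nat_lit 772), (nat_lit 2)⟩)))
(.nd (.nd (.lf ⟨(nat_lit 268), (nat_lit 2), (nat_lit 0x12304), (nat_lit 3)⟩)
(.lf ⟨(nat_lit 457), (nat_lit 2), (nat_lit 583), (nat_lit 2)⟩))
(.nd (.lf ⟨(nat_lit 396), (nat_lit 2), (nat_lit 774), (nat_lit 2)⟩)
(.lf ⟨(nat_lit 0xc11020c11020c11020c1102), (nat_lit 16), (nat_lit 13), (nat_lit 1)⟩))))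
(.nd (.nd (.nd (.lf ⟨(nat_lit 134), (nat_lit 2), (nat_lit 0x9182), (nat_lit 3)⟩)
(.lf ⟨(nat_lit 588), (nat_lit 2), (nat_lit 777), (nat_lit 2)⟩))
(.nd (.lf ⟨(nat_lit 205), (nat_lit 2), (nat_lit 835), (nat_lit 2)⟩)
(.lf ⟨(nat_lit 0x4086), (nat_lit 3), (nat_lit 0x30b246102), (nat_lit 6)⟩)))
(.nd (.nd (.lf ⟨(nat_lit 76), (nat_lit 2), (nat_lit 769), (nat_lit 2)⟩)
(.lf ⟨(nat_lit 261), (nat_lit 2), (nat_lit 0xb144), (nat_lit 3)⟩))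
(.lf ⟨(nat_lit 529), (nat_lit 2), (nat_lit 0x448), (nat_lit 2)⟩))))))
(.nd (.nd (.nd (.nd (.nd (.nd (.lf ⟨(nat_lit 130), (nat_lit 2), (nat_lit 0), (nat_lit 0)⟩)
(.lf ⟨(nat_lit 716), (nat_lit 2), (nat_lit 779), (nat_lit 2)⟩))
(.nd (.lf ⟨(nat_lit 77), (nat_lit 2), (nat_lit 833), (nat_lit 2)⟩)
(.lf ⟨(nat_lit 456), (nat_lit 2), (nat_lit 519), (nat_lit 2)⟩)))
(.nd (.nd (.lf ⟨(nat_lit 780), (nat_lit 2), (nat_lit 0), (nat_lit 0)⟩)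
(.lf ⟨(nat_lit 332), (nat_lit 2), (nat_lit 773), (nat_lit 2)⟩))
(.nd (.lf ⟨(nat_lit 198), (nat_lit 2), (nat_lit 387), (nat_lit 2)⟩)
(.lf ⟨(nat_lit 0x304c2c9), (nat_lit 5), (nat_lit 0xd44c2c90c1), (nat_lit 7)⟩))))
(.nd (.nd (.nd (.lf ⟨(nat_lit 455), (nat_lit 2), (nat_lit 0), (nat_lit 0)⟩)
(.lf ⟨(nat_lit 201), (nat_lit 2), (nat_lit 579), (nat_lit 2)⟩))
(.nd (.lf ⟨(nat_lit 261), (nat_lit 2), (nat_lit 0xa144), (nat_lit 3)⟩)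
(.lf ⟨(nat_lit 0xc2c9351), (nat_lit 5), (nat_lit 0xd44c2c9), (nat_lit 5)⟩)))
(.nd (.nd (.lf ⟨(nat_lit 141), (nat_lit 2), (nat_lit 834), (nat_lit 2)⟩)
(.lf ⟨(nat_lit 265), (nat_lit 2), (nat_lit 0x11244), (nat_lit 3)⟩))
(.lf ⟨(nat_lit 401), (nat_lit 2), (nat_lit 0x446), (nat_lit 2)⟩))))
(.nd (.nd (.nd (.nd (.lf ⟨(nat_lit 325), (nat_lit 2), (nat_lit 0), (nat_lit 0)⟩)
(.lf ⟨(nat_lit 262), (nat_lit 2), (nat_lit 0x1244e30b184), (nat_lit 7)⟩))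
(.nd (.lf ⟨(nat_lit 459), (nat_lit 2), (nat_lit 711), (nat_lit 2)⟩)
(.lf ⟨(nat_lit 75), (nat_lit 2), (nat_lit 705), (nat_lit 2)⟩)))
(.nd (.nd (.lf ⟨(nat_lit 204), (nat_lit 2), (nat_lit 0x11303), (nat_lit 3)⟩)
(.lf ⟨(nat_lit 331), (nat_lit 2), (nat_lit 709), (nat_lit 2)⟩))
(.nd (.lf ⟨(nat_lit 456), (nat_lit 2), (nat_lit 0x12207), (nat_lit 3)⟩)
(.lf ⟨(nat_lit 0x35130b20718535130b207185), (nat_lit 16), (nat_lit 13), (nat_lit 1)⟩))))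
(.nd (.nd (.nd (.lf ⟨(nat_lit 585), (nat_lit 2), (nat_lit 0), (nat_lit 0)⟩)
(.lf ⟨(nat_lit 521), (nat_lit 2), (nat_lit 584), (nat_lit 2)⟩))
(.nd (.lf ⟨(nat_lit 266), (nat_lit 2), (nat_lit 644), (nat_lit 2)⟩)
(.lf ⟨(nat_lit 0x408c2c9), (nat_lit 5), (nat_lit 0xc2c9102), (nat_lit 5)⟩)))
(.nd (.nd (.lf ⟨(nat_lit 200), (nat_lit 2), (nat_lit 515), (nat_lit 2)⟩)
(.lf ⟨(nat_lit 10), (nat_lit 1), (nat_lit 11), (nat_lit 1)⟩))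
(.lf ⟨(nat_lit 391), (nat_lit 2), (nat_lit 0xe1c6), (nat_lit 3)⟩)))))
(.nd (.nd (.nd (.nd (.nd (.lf ⟨(nat_lit 260), (nat_lit 2), (nat_lit 0), (nat_lit 0)⟩)
(.lf ⟨(nat_lit 523), (nat_lit 2), (nat_lit 712), (nat_lit 2)⟩))
(.nd (.lf ⟨(nat_lit 525), (nat_lit 2), (nat_lit 840), (nat_lit 2)⟩)
(.lf ⟨(nat_lit 267), (nat_lit 2), (nat_lit 708), (nat_lit 2)⟩)))
(.nd (.nd (.lf ⟨(nat_lit 75), (nat_lit 2), (nat_lit 0xe2c1), (nat_lit 3)⟩)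
(.lf ⟨(nat_lit 269), (nat_lit 2), (nat_lit 836), (nat_lit 2)⟩))
(.nd (.lf ⟨(nat_lit 74), (nat_lit 2), (nat_lit 641), (nat_lit 2)⟩)
(.lf ⟨(nat_lit 0xc1102), (nat_lit 4), (nat_lit 0x3512481c5103081), (nat_lit 10)⟩))))
(.nd (.nd (.nd (.lf ⟨(nat_lit 520), (nat_lit 2), (nat_lit 0), (nat_lit 0)⟩)
(.lf ⟨(nat_lit 593), (nat_lit 2), (nat_lit 0x449), (nat_lit 2)⟩))
(.nd (.lf ⟨(nat_lit 397), (nat_lit 2), (nat_lit 838), (nat_lit 2)⟩)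
(.lf ⟨(nat_lit 0x18c2c9), (nat_lit 4), (nat_lit 0x30b246), (nat_lit 4)⟩)))
(.nd (.nd (.lf ⟨(nat_lit 0x102102), (nat_lit 4), (nat_lit 0), (nat_lit 0)⟩)
(.lf ⟨(nat_lit 0x470c20470c20470c20470c2), (nat_lit 16), (nat_lit 13), (nat_lit 1)⟩))
(.lf ⟨(nat_lit 70), (nat_lit 2), (nat_lit 385), (nat_lit 2)⟩))))
(.nd (.nd (.nd (.nd (.lf ⟨(nat_lit 390), (nat_lit 2), (nat_lit 0), (nat_lit 0)⟩)
(.lf ⟨(nat_lit 326), (nat_lit 2), (nat_lit 0xd185), (nat_lit 3)⟩))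
(.nd (.lf ⟨(nat_lit 589), (nat_lit 2), (nat_lit 841), (nat_lit 2)⟩)
(.lf ⟨(nat_lit 0x351351), (nat_lit 4), (nat_lit 0), (nat_lit 0)⟩)))
(.nd (.nd (.lf ⟨(nat_lit 845), (nat_lit 2), (nat_lit 0), (nat_lit 0)⟩)
(.lf ⟨(nat_lit 139), (nat_lit 2), (nat_lit 706), (nat_lit 2)⟩))
(.lf ⟨(nat_lit 395), (nat_lit 2), (nat_lit 710), (nat_lit 2)⟩)))
(.nd (.nd (.nd (.lf ⟨(nat_lit 715), (nat_lit 2), (nat_lit 0), (nat_lit 0)⟩)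
(.lf ⟨(nat_lit 337), (nat_lit 2), (nat_lit 0x445), (nat_lit 2)⟩))
(.nd (.lf ⟨(nat_lit 131), (nat_lit 2), (nat_lit 0xd0c2), (nat_lit 3)⟩)
(.lf ⟨(nat_lit 0xc10c1), (nat_lit 4), (nat_lit 6), (nat_lit 1)⟩)))
(.nd (.nd (.lf ⟨(nat_lit 137), (nat_lit 2), (nat_lit 578), (nat_lit 2)⟩)
(.lf ⟨(nat_lit 18), (nat_lit 1), (nat_lit 0), (nat_lit 0)⟩))
(.lf ⟨(nat_lit 781), (nat_lit 2), (nat_lit 844), (nat_lit 2)⟩)))))))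

/-- Substitution. -/
def s34 : List (ℕ × ℕ) := [((nat_lit 258), (nat_lit 2)), ((nat_lit 193), (nat_lit 2)), ((nat_lit 849), (nat_lit 2)), ((nat_lit 0xc2c9), (nat_lit 3)), ((nat_lit 6), (nat_lit 1))]

/-- Context. -/
noncomputable def x34 : ℕ → ℕ × ℕ :=
  mkc d15 84 s15 x15 (nth [] (Cl.alts (nsCl 2 [[2, 1, 2], [0, 1, 3], [0], [0, 1]])) 2)

set_option maxRecDepth 100000 in
/-- Facts. -/
noncomputable def d35 : Tr :=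
(.nd (.nd (.nd (.lf ⟨(nat_lit 131), (nat_lit 2), (nat_lit 0xd0c2), (nat_lit 3)⟩)
(.lf ⟨(nat_lit 131), (nat_lit 2), (nat_lit 194), (nat_lit 2)⟩))
(.lf ⟨(nat_lit 0xc11020c11020c11020c1102), (nat_lit 16), (nat_lit 0), (nat_lit 0)⟩))
(.nd (.lf ⟨(nat_lit 0xc11020c11020c11020c1102), (nat_lit 16), (nat_lit 13), (nat_lit 1)⟩)
(.lf ⟨(nat_lit 13), (nat_lit 1), (nat_lit 0), (nat_lit 0)⟩)))

/-- Context. -/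
noncomputable def x35 : ℕ → ℕ × ℕ :=
  mkc d34 119 s34 x34 (nth [] (Cl.alts (nsCl 3 [[0, 1, 2, 6], [4, 1, 3, 4], [0], [0, 1], [0, 1, 2]])) 0)

set_option maxRecDepth 100000 in
/-- Facts. -/
noncomputable def d36 : Tr :=
(.nd (.nd (.nd (.nd (.nd (.nd (.nd (.lf ⟨(nat_lit 65), (nat_lit 2), (nat_lit 0), (nat_lit 0)⟩)
(.lf ⟨(nat_lit 0xc11020c11020c11020c1102), (nat_lit 16), (nat_lit 849), (nat_lit 2)⟩))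
(.lf ⟨(nat_lit 333), (nat_lit 2), (nat_lit 837), (nat_lit 2)⟩))
(.nd (.nd (.lf ⟨(nat_lit 72), (nat_lit 2), (nat_lit 0xc201), (nat_lit 3)⟩)
(.lf ⟨(nat_lit 0x309207185309207185), (nat_lit 12), (nat_lit 13), (nat_lit 1)⟩))
(.lf ⟨(nat_lit 521), (nat_lit 2), (nat_lit 584), (nat_lit 2)⟩)))
(.nd (.nd (.nd (.lf ⟨(nat_lit 67), (nat_lit 2), (nat_lit 0x60c1), (nat_lit 3)⟩)
(.lf ⟨(nat_lit 0xd20c), (nat_lit 3), (nat_lit 0xc348), (nat_lit 3)⟩))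
(.lf ⟨(nat_lit 395), (nat_lit 2), (nat_lit 710), (nat_lit 2)⟩))
(.nd (.lf ⟨(nat_lit 200), (nat_lit 2), (nat_lit 515), (nat_lit 2)⟩)
(.lf ⟨(nat_lit 265), (nat_lit 2), (nat_lit 0x11244), (nat_lit 3)⟩))))
(.nd (.nd (.nd (.nd (.lf ⟨(nat_lit 132), (nat_lit 2), (nat_lit 258), (nat_lit 2)⟩)
(.lf ⟨(nat_lit 140), (nat_lit 2), (nat_lit 770), (nat_lit 2)⟩))
(.lf ⟨(nat_lit 131), (nat_lit 2), (nat_lit 0xd0c2), (nat_lit 3)⟩))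
(.nd (.lf ⟨(nat_lit 65), (nat_lit 2), (nat_lit 0), (nat_lit 0)⟩)
(.lf ⟨(nat_lit 269), (nat_lit 2), (nat_lit 836), (nat_lit 2)⟩)))
(.nd (.nd (.nd (.lf ⟨(nat_lit 196), (nat_lit 2), (nat_lit 0x8103), (nat_lit 3)⟩)
(.lf ⟨(nat_lit 76), (nat_lit 2), (nat_lit 769), (nat_lit 2)⟩))
(.lf ⟨(nat_lit 0x348348), (nat_lit 4), (nat_lit 0), (nat_lit 0)⟩))
(.nd (.lf ⟨(nat_lit 525), (nat_lit 2), (nat_lit 840), (nat_lit 2)⟩)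
(.lf ⟨(nat_lit 391), (nat_lit 2), (nat_lit 454), (nat_lit 2)⟩)))))
(.nd (.nd (.nd (.nd (.nd (.lf ⟨(nat_lit 195), (nat_lit 2), (nat_lit 0), (nat_lit 0)⟩)
(.lf ⟨(nat_lit 204), (nat_lit 2), (nat_lit 771), (nat_lit 2)⟩))
(.lf ⟨(nat_lit 329), (nat_lit 2), (nat_lit 581), (nat_lit 2)⟩))
(.nd (.lf ⟨(nat_lit 845), (nat_lit 2), (nat_lit 0), (nat_lit 0)⟩)
(.lf ⟨(nat_lit 332), (nat_lit 2), (nat_lit 773), (nat_lit 2)⟩)))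
(.nd (.nd (.nd (.lf ⟨(nat_lit 68), (nat_lit 2), (nat_lit 0x7101), (nat_lit 3)⟩)
(.lf ⟨(nat_lit 0x10308c), (nat_lit 4), (nat_lit 0x3040c2), (nat_lit 4)⟩))
(.lf ⟨(nat_lit 70), (nat_lit 2), (nat_lit 385), (nat_lit 2)⟩))
(.nd (.lf ⟨(nat_lit 77), (nat_lit 2), (nat_lit 833), (nat_lit 2)⟩)
(.lf ⟨(nat_lit 261), (nat_lit 2), (nat_lit 0xb144), (nat_lit 3)⟩))))
(.nd (.nd (.nd (.nd (.lf ⟨(nat_lit 66), (nat_lit 2), (nat_lit 0x5081), (nat_lit 3)⟩)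
(.lf ⟨(nat_lit 328), (nat_lit 2), (nat_lit 517), (nat_lit 2)⟩))
(.lf ⟨(nat_lit 327), (nat_lit 2), (nat_lit 453), (nat_lit 2)⟩))
(.nd (.lf ⟨(nat_lit 780), (nat_lit 2), (nat_lit 0), (nat_lit 0)⟩)
(.lf ⟨(nat_lit 457), (nat_lit 2), (nat_lit 583), (nat_lit 2)⟩)))
(.nd (.nd (.nd (.lf ⟨(nat_lit 715), (nat_lit 2), (nat_lit 0), (nat_lit 0)⟩)
(.lf ⟨(nat_lit 0x440c2), (nat_lit 4), (nat_lit 0x34c247185103081), (nat_lit 10)⟩))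
(.lf ⟨(nat_lit 326), (nat_lit 2), (nat_lit 0xd185), (nat_lit 3)⟩))
(.nd (.lf ⟨(nat_lit 524), (nat_lit 2), (nat_lit 776), (nat_lit 2)⟩)
(.lf ⟨(nat_lit 268), (nat_lit 2), (nat_lit 772), (nat_lit 2)⟩))))))
(.nd (.nd (.nd (.nd (.nd (.nd (.lf ⟨(nat_lit 130), (nat_lit 2), (nat_lit 0), (nat_lit 0)⟩)
(.lf ⟨(nat_lit 17), (nat_lit 1), (nat_lit 0), (nat_lit 0)⟩))
(.lf ⟨(nat_lit 397), (nat_lit 2), (nat_lit 838), (nat_lit 2)⟩))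
(.nd (.nd (.lf ⟨(nat_lit 204), (nat_lit 2), (nat_lit 0x11303), (nat_lit 3)⟩)
(.lf ⟨(nat_lit 0x440c20440c20440c20440c2), (nat_lit 16), (nat_lit 13), (nat_lit 1)⟩))
(.lf ⟨(nat_lit 588), (nat_lit 2), (nat_lit 777), (nat_lit 2)⟩)))
(.nd (.nd (.nd (.lf ⟨(nat_lit 455), (nat_lit 2), (nat_lit 0), (nat_lit 0)⟩)
(.lf ⟨(nat_lit 0x1030840c2), (nat_lit 6), (nat_lit 840), (nat_lit 2)⟩))
(.lf ⟨(nat_lit 460), (nat_lit 2), (nat_lit 775), (nat_lit 2)⟩))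
(.nd (.lf ⟨(nat_lit 76), (nat_lit 2), (nat_lit 769), (nat_lit 2)⟩)
(.lf ⟨(nat_lit 328), (nat_lit 2), (nat_lit 0x11205), (nat_lit 3)⟩))))
(.nd (.nd (.nd (.nd (.lf ⟨(nat_lit 325), (nat_lit 2), (nat_lit 0), (nat_lit 0)⟩)
(.lf ⟨(nat_lit 265), (nat_lit 2), (nat_lit 580), (nat_lit 2)⟩))
(.lf ⟨(nat_lit 69), (nat_lit 2), (nat_lit 321), (nat_lit 2)⟩))
(.nd (.lf ⟨(nat_lit 141), (nat_lit 2), (nat_lit 834), (nat_lit 2)⟩)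
(.lf ⟨(nat_lit 136), (nat_lit 2), (nat_lit 514), (nat_lit 2)⟩)))
(.nd (.nd (.nd (.lf ⟨(nat_lit 585), (nat_lit 2), (nat_lit 0), (nat_lit 0)⟩)
(.lf ⟨(nat_lit 0x1348), (nat_lit 3), (nat_lit 0x30d201), (nat_lit 4)⟩))
(.lf ⟨(nat_lit 781), (nat_lit 2), (nat_lit 844), (nat_lit 2)⟩))
(.nd (.lf ⟨(nat_lit 393), (nat_lit 2), (nat_lit 582), (nat_lit 2)⟩)
(.lf ⟨(nat_lit 262), (nat_lit 2), (nat_lit 0x1130b184), (nat_lit 5)⟩)))))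
(.nd (.nd (.nd (.nd (.nd (.lf ⟨(nat_lit 260), (nat_lit 2), (nat_lit 0), (nat_lit 0)⟩)
(.lf ⟨(nat_lit 392), (nat_lit 2), (nat_lit 518), (nat_lit 2)⟩))
(.lf ⟨(nat_lit 205), (nat_lit 2), (nat_lit 835), (nat_lit 2)⟩))
(.nd (.lf ⟨(nat_lit 73), (nat_lit 2), (nat_lit 0xd241), (nat_lit 3)⟩)
(.lf ⟨(nat_lit 461), (nat_lit 2), (nat_lit 839), (nat_lit 2)⟩)))
(.nd (.nd (.nd (.lf ⟨(nat_lit 520), (nat_lit 2), (nat_lit 0), (nat_lit 0)⟩)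
(.lf ⟨(nat_lit 0x40c2348), (nat_lit 5), (nat_lit 0xd2040c2), (nat_lit 5)⟩))
(.lf ⟨(nat_lit 392), (nat_lit 2), (nat_lit 0x11206), (nat_lit 3)⟩))
(.nd (.lf ⟨(nat_lit 264), (nat_lit 2), (nat_lit 516), (nat_lit 2)⟩)
(.lf ⟨(nat_lit 456), (nat_lit 2), (nat_lit 519), (nat_lit 2)⟩))))
(.nd (.nd (.nd (.nd (.lf ⟨(nat_lit 390), (nat_lit 2), (nat_lit 0), (nat_lit 0)⟩)
(.lf ⟨(nat_lit 262), (nat_lit 2), (nat_lit 0x30b184), (nat_lit 4)⟩))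
(.lf ⟨(nat_lit 396), (nat_lit 2), (nat_lit 774), (nat_lit 2)⟩))
(.nd (.lf ⟨(nat_lit 71), (nat_lit 2), (nat_lit 449), (nat_lit 2)⟩)
(.lf ⟨(nat_lit 140), (nat_lit 2), (nat_lit 0x11302), (nat_lit 3)⟩)))
(.nd (.nd (.nd (.lf ⟨(nat_lit 780), (nat_lit 2), (nat_lit 0), (nat_lit 0)⟩)
(.lf ⟨(nat_lit 0x34c24718510308134c247185103081), (nat_lit 20), (nat_lit 0x309207185), (nat_lit 6)⟩))
(.lf ⟨(nat_lit 197), (nat_lit 2), (nat_lit 0x349143), (nat_lit 4)⟩))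
(.nd (.lf ⟨(nat_lit 589), (nat_lit 2), (nat_lit 841), (nat_lit 2)⟩)
(.lf ⟨(nat_lit 0xc11020c11020c11020c1102), (nat_lit 16), (nat_lit 13), (nat_lit 1)⟩)))))))

/-- Substitution. -/
def s36 : List (ℕ × ℕ) := [((nat_lit 0x40c2), (nat_lit 3)), ((nat_lit 1), (nat_lit 1)), ((nat_lit 12), (nat_lit 1)), ((nat_lit 840), (nat_lit 2))]

/-- Context. -/
noncomputable def x36 : ℕ → ℕ × ℕ :=
  mkc d34 119 s34 x34 (nth [] (Cl.alts (nsCl 3 [[0, 1, 2, 6], [4, 1, 3, 4], [0], [0, 1], [0, 1, 2]])) 1)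

set_option maxRecDepth 100000 in
/-- Facts. -/
noncomputable def d37 : Tr :=
(.nd (.nd (.nd (.lf ⟨(nat_lit 131), (nat_lit 2), (nat_lit 0xd0c2), (nat_lit 3)⟩)
(.lf ⟨(nat_lit 131), (nat_lit 2), (nat_lit 194), (nat_lit 2)⟩))
(.lf ⟨(nat_lit 0x440c20440c20440c20440c2), (nat_lit 16), (nat_lit 0), (nat_lit 0)⟩))
(.nd (.lf ⟨(nat_lit 0x440c20440c20440c20440c2), (nat_lit 16), (nat_lit 13), (nat_lit 1)⟩)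
(.lf ⟨(nat_lit 13), (nat_lit 1), (nat_lit 0), (nat_lit 0)⟩)))

/-- Context. -/
noncomputable def x37 : ℕ → ℕ × ℕ :=
  mkc d36 82 s36 x36 (nth [] (Cl.alts (nsCl 2 [[2, 1, 2], [0, 1, 3], [0], [0, 1]])) 0)

set_option maxRecDepth 100000 in
/-- Facts. -/
noncomputable def d38 : Tr :=
(.nd (.nd (.nd (.nd (.nd (.nd (.nd (.lf ⟨(nat_lit 65), (nat_lit 2), (nat_lit 0), (nat_lit 0)⟩)
(.lf ⟨(nat_lit 72), (nat_lit 2), (nat_lit 0xd201), (nat_lit 3)⟩))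
(.lf ⟨(nat_lit 133), (nat_lit 2), (nat_lit 322), (nat_lit 2)⟩))
(.nd (.lf ⟨(nat_lit 845), (nat_lit 2), (nat_lit 0), (nat_lit 0)⟩)
(.lf ⟨(nat_lit 136), (nat_lit 2), (nat_lit 514), (nat_lit 2)⟩)))
(.nd (.nd (.nd (.lf ⟨(nat_lit 67), (nat_lit 2), (nat_lit 0x60c1), (nat_lit 3)⟩)
(.lf ⟨(nat_lit 0x34b20718534b207185), (nat_lit 12), (nat_lit 13), (nat_lit 1)⟩))
(.lf ⟨(nat_lit 326), (nat_lit 2), (nat_lit 0xd185), (nat_lit 3)⟩))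
(.nd (.lf ⟨(nat_lit 264), (nat_lit 2), (nat_lit 516), (nat_lit 2)⟩)
(.lf ⟨(nat_lit 75), (nat_lit 2), (nat_lit 705), (nat_lit 2)⟩))))
(.nd (.nd (.nd (.nd (.lf ⟨(nat_lit 132), (nat_lit 2), (nat_lit 258), (nat_lit 2)⟩)
(.lf ⟨(nat_lit 0x510308b248), (nat_lit 7), (nat_lit 0xb2481440c2), (nat_lit 7)⟩))
(.lf ⟨(nat_lit 327), (nat_lit 2), (nat_lit 453), (nat_lit 2)⟩))
(.nd (.lf ⟨(nat_lit 200), (nat_lit 2), (nat_lit 515), (nat_lit 2)⟩)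
(.lf ⟨(nat_lit 261), (nat_lit 2), (nat_lit 0xb144), (nat_lit 3)⟩)))
(.nd (.nd (.lf ⟨(nat_lit 196), (nat_lit 2), (nat_lit 0x8103), (nat_lit 3)⟩)
(.lf ⟨(nat_lit 717), (nat_lit 2), (nat_lit 843), (nat_lit 2)⟩))
(.nd (.lf ⟨(nat_lit 589), (nat_lit 2), (nat_lit 841), (nat_lit 2)⟩)
(.lf ⟨(nat_lit 262), (nat_lit 2), (nat_lit 0x30b184), (nat_lit 4)⟩)))))
(.nd (.nd (.nd (.nd (.nd (.lf ⟨(nat_lit 195), (nat_lit 2), (nat_lit 0), (nat_lit 0)⟩)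
(.lf ⟨(nat_lit 0x2c920b248), (nat_lit 6), (nat_lit 0), (nat_lit 0)⟩))
(.lf ⟨(nat_lit 131), (nat_lit 2), (nat_lit 0xd0c2), (nat_lit 3)⟩))
(.nd (.lf ⟨(nat_lit 65), (nat_lit 2), (nat_lit 0), (nat_lit 0)⟩)
(.lf ⟨(nat_lit 457), (nat_lit 2), (nat_lit 583), (nat_lit 2)⟩)))
(.nd (.nd (.lf ⟨(nat_lit 68), (nat_lit 2), (nat_lit 0x7101), (nat_lit 3)⟩)
(.lf ⟨(nat_lit 201), (nat_lit 2), (nat_lit 579), (nat_lit 2)⟩))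
(.nd (.lf ⟨(nat_lit 393), (nat_lit 2), (nat_lit 582), (nat_lit 2)⟩)
(.lf ⟨(nat_lit 265), (nat_lit 2), (nat_lit 580), (nat_lit 2)⟩))))
(.nd (.nd (.nd (.nd (.lf ⟨(nat_lit 66), (nat_lit 2), (nat_lit 0x5081), (nat_lit 3)⟩)
(.lf ⟨(nat_lit 0x11440c2), (nat_lit 5), (nat_lit 0x3491c6103081), (nat_lit 8)⟩))
(.lf ⟨(nat_lit 70), (nat_lit 2), (nat_lit 385), (nat_lit 2)⟩))
(.nd (.lf ⟨(nat_lit 203), (nat_lit 2), (nat_lit 707), (nat_lit 2)⟩)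
(.lf ⟨(nat_lit 391), (nat_lit 2), (nat_lit 454), (nat_lit 2)⟩)))
(.nd (.nd (.lf ⟨(nat_lit 715), (nat_lit 2), (nat_lit 0), (nat_lit 0)⟩)
(.lf ⟨(nat_lit 461), (nat_lit 2), (nat_lit 839), (nat_lit 2)⟩))
(.nd (.lf ⟨(nat_lit 397), (nat_lit 2), (nat_lit 838), (nat_lit 2)⟩)
(.lf ⟨(nat_lit 0x440c20440c20440c20440c2), (nat_lit 16), (nat_lit 12), (nat_lit 1)⟩))))))
(.nd (.nd (.nd (.nd (.nd (.nd (.lf ⟨(nat_lit 130), (nat_lit 2), (nat_lit 0), (nat_lit 0)⟩)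
(.lf ⟨(nat_lit 262), (nat_lit 2), (nat_lit 0x34b184), (nat_lit 4)⟩))
(.lf ⟨(nat_lit 205), (nat_lit 2), (nat_lit 835), (nat_lit 2)⟩))
(.nd (.lf ⟨(nat_lit 73), (nat_lit 2), (nat_lit 0xd241), (nat_lit 3)⟩)
(.lf ⟨(nat_lit 331), (nat_lit 2), (nat_lit 709), (nat_lit 2)⟩)))
(.nd (.nd (.nd (.lf ⟨(nat_lit 455), (nat_lit 2), (nat_lit 0), (nat_lit 0)⟩)
(.lf ⟨(nat_lit 0x451030811440c20451030811440c2), (nat_lit 20), (nat_lit 13), (nat_lit 1)⟩))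
(.lf ⟨(nat_lit 197), (nat_lit 2), (nat_lit 0x349143), (nat_lit 4)⟩))
(.nd (.lf ⟨(nat_lit 525), (nat_lit 2), (nat_lit 840), (nat_lit 2)⟩)
(.lf ⟨(nat_lit 392), (nat_lit 2), (nat_lit 518), (nat_lit 2)⟩))))
(.nd (.nd (.nd (.nd (.lf ⟨(nat_lit 325), (nat_lit 2), (nat_lit 0), (nat_lit 0)⟩)
(.lf ⟨(nat_lit 0x4b248), (nat_lit 4), (nat_lit 0x2c9201), (nat_lit 4)⟩))
(.lf ⟨(nat_lit 395), (nat_lit 2), (nat_lit 710), (nat_lit 2)⟩))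
(.nd (.lf ⟨(nat_lit 137), (nat_lit 2), (nat_lit 578), (nat_lit 2)⟩)
(.lf ⟨(nat_lit 456), (nat_lit 2), (nat_lit 519), (nat_lit 2)⟩)))
(.nd (.nd (.lf ⟨(nat_lit 585), (nat_lit 2), (nat_lit 0), (nat_lit 0)⟩)
(.lf ⟨(nat_lit 521), (nat_lit 2), (nat_lit 584), (nat_lit 2)⟩))
(.nd (.lf ⟨(nat_lit 333), (nat_lit 2), (nat_lit 837), (nat_lit 2)⟩)
(.lf ⟨(nat_lit 0x440c20440c20440c20440c2), (nat_lit 16), (nat_lit 13), (nat_lit 1)⟩)))))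
(.nd (.nd (.nd (.nd (.nd (.lf ⟨(nat_lit 260), (nat_lit 2), (nat_lit 0), (nat_lit 0)⟩)
(.lf ⟨(nat_lit 0x1440c21440c2), (nat_lit 8), (nat_lit 0xb248), (nat_lit 3)⟩))
(.lf ⟨(nat_lit 69), (nat_lit 2), (nat_lit 321), (nat_lit 2)⟩))
(.nd (.lf ⟨(nat_lit 71), (nat_lit 2), (nat_lit 449), (nat_lit 2)⟩)
(.lf ⟨(nat_lit 139), (nat_lit 2), (nat_lit 706), (nat_lit 2)⟩)))
(.nd (.nd (.lf ⟨(nat_lit 520), (nat_lit 2), (nat_lit 0), (nat_lit 0)⟩)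
(.lf ⟨(nat_lit 587), (nat_lit 2), (nat_lit 713), (nat_lit 2)⟩))
(.nd (.lf ⟨(nat_lit 459), (nat_lit 2), (nat_lit 711), (nat_lit 2)⟩)
(.lf ⟨(nat_lit 328), (nat_lit 2), (nat_lit 517), (nat_lit 2)⟩))))
(.nd (.nd (.nd (.nd (.lf ⟨(nat_lit 390), (nat_lit 2), (nat_lit 0), (nat_lit 0)⟩)
(.lf ⟨(nat_lit 0x3491c61030813491c6103081), (nat_lit 16), (nat_lit 0x34b207185), (nat_lit 6)⟩))
(.lf ⟨(nat_lit 523), (nat_lit 2), (nat_lit 712), (nat_lit 2)⟩))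
(.nd (.lf ⟨(nat_lit 77), (nat_lit 2), (nat_lit 833), (nat_lit 2)⟩)
(.lf ⟨(nat_lit 267), (nat_lit 2), (nat_lit 708), (nat_lit 2)⟩)))
(.nd (.nd (.lf ⟨(nat_lit 72), (nat_lit 2), (nat_lit 0xc201), (nat_lit 3)⟩)
(.lf ⟨(nat_lit 269), (nat_lit 2), (nat_lit 836), (nat_lit 2)⟩))
(.nd (.lf ⟨(nat_lit 329), (nat_lit 2), (nat_lit 581), (nat_lit 2)⟩)
(.lf ⟨(nat_lit 12), (nat_lit 1), (nat_lit 13), (nat_lit 1)⟩)))))))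

/-- Substitution. -/
def s38 : List (ℕ × ℕ) := [((nat_lit 0x1440c2), (nat_lit 4)), ((nat_lit 1), (nat_lit 1)), ((nat_lit 0xb248), (nat_lit 3))]

/-- Context. -/
noncomputable def x38 : ℕ → ℕ × ℕ :=
  mkc d36 82 s36 x36 (nth [] (Cl.alts (nsCl 2 [[2, 1, 2], [0, 1, 3], [0], [0, 1]])) 1)

set_option maxRecDepth 100000 in
/-- Facts. -/
noncomputable def d39 : Tr :=
(.nd (.nd (.nd (.lf ⟨(nat_lit 131), (nat_lit 2), (nat_lit 0xd0c2), (nat_lit 3)⟩)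
(.lf ⟨(nat_lit 131), (nat_lit 2), (nat_lit 194), (nat_lit 2)⟩))
(.lf ⟨(nat_lit 0x451030811440c20451030811440c2), (nat_lit 20), (nat_lit 0), (nat_lit 0)⟩))
(.nd (.lf ⟨(nat_lit 0x451030811440c20451030811440c2), (nat_lit 20), (nat_lit 13), (nat_lit 1)⟩)
(.lf ⟨(nat_lit 13), (nat_lit 1), (nat_lit 0), (nat_lit 0)⟩)))

/-- Context. -/
noncomputable def x39 : ℕ → ℕ × ℕ :=
  mkc d38 74 s38 x38 (nth [] (Cl.alts (nsCl 1 [[1, 1], [0, 1], [0]])) 0)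

set_option maxRecDepth 100000 in
/-- Facts. -/
noncomputable def d40 : Tr :=
(.nd (.nd (.nd (.nd (.nd (.lf ⟨(nat_lit 585), (nat_lit 2), (nat_lit 0), (nat_lit 0)⟩)
(.lf ⟨(nat_lit 0x451030811440c20451030811440c2), (nat_lit 20), (nat_lit 0xb248), (nat_lit 3)⟩))
(.nd (.lf ⟨(nat_lit 457), (nat_lit 2), (nat_lit 583), (nat_lit 2)⟩)
(.lf ⟨(nat_lit 139), (nat_lit 2), (nat_lit 706), (nat_lit 2)⟩)))
(.nd (.nd (.lf ⟨(nat_lit 717), (nat_lit 2), (nat_lit 843), (nat_lit 2)⟩)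
(.lf ⟨(nat_lit 461), (nat_lit 2), (nat_lit 839), (nat_lit 2)⟩))
(.nd (.lf ⟨(nat_lit 265), (nat_lit 2), (nat_lit 580), (nat_lit 2)⟩)
(.lf ⟨(nat_lit 12), (nat_lit 1), (nat_lit 13), (nat_lit 1)⟩))))
(.nd (.nd (.nd (.lf ⟨(nat_lit 589), (nat_lit 2), (nat_lit 841), (nat_lit 2)⟩)
(.lf ⟨(nat_lit 587), (nat_lit 2), (nat_lit 713), (nat_lit 2)⟩))
(.nd (.lf ⟨(nat_lit 10), (nat_lit 1), (nat_lit 11), (nat_lit 1)⟩)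
(.lf ⟨(nat_lit 391), (nat_lit 2), (nat_lit 454), (nat_lit 2)⟩)))
(.nd (.nd (.lf ⟨(nat_lit 269), (nat_lit 2), (nat_lit 836), (nat_lit 2)⟩)
(.lf ⟨(nat_lit 331), (nat_lit 2), (nat_lit 709), (nat_lit 2)⟩))
(.nd (.lf ⟨(nat_lit 262), (nat_lit 2), (nat_lit 0x34b184), (nat_lit 4)⟩)
(.lf ⟨(nat_lit 8), (nat_lit 1), (nat_lit 0xd2c9), (nat_lit 3)⟩)))))
(.nd (.nd (.nd (.nd (.lf ⟨(nat_lit 715), (nat_lit 2), (nat_lit 0), (nat_lit 0)⟩)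
(.lf ⟨(nat_lit 8), (nat_lit 1), (nat_lit 0xd2c9), (nat_lit 3)⟩))
(.nd (.lf ⟨(nat_lit 139), (nat_lit 2), (nat_lit 706), (nat_lit 2)⟩)
(.lf ⟨(nat_lit 10), (nat_lit 1), (nat_lit 11), (nat_lit 1)⟩)))
(.nd (.nd (.lf ⟨(nat_lit 461), (nat_lit 2), (nat_lit 839), (nat_lit 2)⟩)
(.lf ⟨(nat_lit 269), (nat_lit 2), (nat_lit 836), (nat_lit 2)⟩))
(.nd (.lf ⟨(nat_lit 12), (nat_lit 1), (nat_lit 13), (nat_lit 1)⟩)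
(.lf ⟨(nat_lit 262), (nat_lit 2), (nat_lit 0x34b184), (nat_lit 4)⟩))))
(.nd (.nd (.nd (.lf ⟨(nat_lit 587), (nat_lit 2), (nat_lit 713), (nat_lit 2)⟩)
(.lf ⟨(nat_lit 717), (nat_lit 2), (nat_lit 843), (nat_lit 2)⟩))
(.nd (.lf ⟨(nat_lit 391), (nat_lit 2), (nat_lit 454), (nat_lit 2)⟩)
(.lf ⟨(nat_lit 265), (nat_lit 2), (nat_lit 580), (nat_lit 2)⟩)))
(.nd (.nd (.lf ⟨(nat_lit 331), (nat_lit 2), (nat_lit 709), (nat_lit 2)⟩)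
(.lf ⟨(nat_lit 457), (nat_lit 2), (nat_lit 583), (nat_lit 2)⟩))
(.lf ⟨(nat_lit 0x451030811440c20451030811440c2), (nat_lit 20), (nat_lit 13), (nat_lit 1)⟩)))))

/-- Context. -/
noncomputable def x40 : ℕ → ℕ × ℕ :=
  mkc d38 74 s38 x38 (nth [] (Cl.alts (nsCl 1 [[1, 1], [0, 1], [0]])) 1)

set_option maxRecDepth 100000 in
/-- Facts. -/
noncomputable def d41 : Tr :=
(.nd (.nd (.nd (.nd (.nd (.lf ⟨(nat_lit 65), (nat_lit 2), (nat_lit 0), (nat_lit 0)⟩)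
(.lf ⟨(nat_lit 391), (nat_lit 2), (nat_lit 454), (nat_lit 2)⟩))
(.lf ⟨(nat_lit 0x440c20440c20440c20440c2), (nat_lit 16), (nat_lit 13), (nat_lit 1)⟩))
(.nd (.lf ⟨(nat_lit 139), (nat_lit 2), (nat_lit 706), (nat_lit 2)⟩)
(.lf ⟨(nat_lit 262), (nat_lit 2), (nat_lit 0xb184), (nat_lit 3)⟩)))
(.nd (.nd (.nd (.lf ⟨(nat_lit 845), (nat_lit 2), (nat_lit 0), (nat_lit 0)⟩)
(.lf ⟨(nat_lit 12), (nat_lit 1), (nat_lit 0), (nat_lit 0)⟩))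
(.lf ⟨(nat_lit 8), (nat_lit 1), (nat_lit 0), (nat_lit 0)⟩))
(.nd (.lf ⟨(nat_lit 391), (nat_lit 2), (nat_lit 454), (nat_lit 2)⟩)
(.lf ⟨(nat_lit 139), (nat_lit 2), (nat_lit 706), (nat_lit 2)⟩))))
(.nd (.nd (.nd (.nd (.lf ⟨(nat_lit 72), (nat_lit 2), (nat_lit 0xc201), (nat_lit 3)⟩)
(.lf ⟨(nat_lit 8), (nat_lit 1), (nat_lit 0), (nat_lit 0)⟩))
(.lf ⟨(nat_lit 0x440c20440c20440c20440c2), (nat_lit 16), (nat_lit 840), (nat_lit 2)⟩))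
(.nd (.lf ⟨(nat_lit 10), (nat_lit 1), (nat_lit 11), (nat_lit 1)⟩)
(.lf ⟨(nat_lit 269), (nat_lit 2), (nat_lit 836), (nat_lit 2)⟩)))
(.nd (.nd (.nd (.lf ⟨(nat_lit 269), (nat_lit 2), (nat_lit 836), (nat_lit 2)⟩)
(.lf ⟨(nat_lit 262), (nat_lit 2), (nat_lit 0xb184), (nat_lit 3)⟩))
(.lf ⟨(nat_lit 12), (nat_lit 1), (nat_lit 0), (nat_lit 0)⟩))
(.nd (.lf ⟨(nat_lit 262), (nat_lit 2), (nat_lit 0x30b184), (nat_lit 4)⟩)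
(.lf ⟨(nat_lit 10), (nat_lit 1), (nat_lit 11), (nat_lit 1)⟩)))))

/-- Context. -/
noncomputable def x41 : ℕ → ℕ × ℕ :=
  mkc d36 82 s36 x36 (nth [] (Cl.alts (nsCl 2 [[2, 1, 2], [0, 1, 3], [0], [0, 1]])) 2)

set_option maxRecDepth 100000 in
/-- Facts. -/
noncomputable def d42 : Tr :=
(.nd (.nd (.nd (.nd (.nd (.lf ⟨(nat_lit 65), (nat_lit 2), (nat_lit 0), (nat_lit 0)⟩)
(.lf ⟨(nat_lit 8), (nat_lit 1), (nat_lit 0), (nat_lit 0)⟩))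
(.lf ⟨(nat_lit 10), (nat_lit 1), (nat_lit 11), (nat_lit 1)⟩))
(.nd (.nd (.lf ⟨(nat_lit 76), (nat_lit 2), (nat_lit 769), (nat_lit 2)⟩)
(.lf ⟨(nat_lit 391), (nat_lit 2), (nat_lit 454), (nat_lit 2)⟩))
(.lf ⟨(nat_lit 0x440c20440c20440c20440c2), (nat_lit 16), (nat_lit 0xc348), (nat_lit 3)⟩)))
(.nd (.nd (.nd (.lf ⟨(nat_lit 72), (nat_lit 2), (nat_lit 0xc201), (nat_lit 3)⟩)
(.lf ⟨(nat_lit 139), (nat_lit 2), (nat_lit 706), (nat_lit 2)⟩))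
(.lf ⟨(nat_lit 262), (nat_lit 2), (nat_lit 0x30b184), (nat_lit 4)⟩))
(.nd (.nd (.lf ⟨(nat_lit 269), (nat_lit 2), (nat_lit 836), (nat_lit 2)⟩)
(.lf ⟨(nat_lit 12), (nat_lit 1), (nat_lit 0), (nat_lit 0)⟩))
(.lf ⟨(nat_lit 12), (nat_lit 1), (nat_lit 0), (nat_lit 0)⟩))))
(.nd (.nd (.nd (.nd (.lf ⟨(nat_lit 780), (nat_lit 2), (nat_lit 0), (nat_lit 0)⟩)
(.lf ⟨(nat_lit 269), (nat_lit 2), (nat_lit 836), (nat_lit 2)⟩))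
(.lf ⟨(nat_lit 391), (nat_lit 2), (nat_lit 454), (nat_lit 2)⟩))
(.nd (.nd (.lf ⟨(nat_lit 781), (nat_lit 2), (nat_lit 844), (nat_lit 2)⟩)
(.lf ⟨(nat_lit 8), (nat_lit 1), (nat_lit 0), (nat_lit 0)⟩))
(.lf ⟨(nat_lit 8), (nat_lit 1), (nat_lit 12), (nat_lit 1)⟩)))
(.nd (.nd (.nd (.lf ⟨(nat_lit 845), (nat_lit 2), (nat_lit 0), (nat_lit 0)⟩)
(.lf ⟨(nat_lit 10), (nat_lit 1), (nat_lit 11), (nat_lit 1)⟩))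
(.lf ⟨(nat_lit 0x440c20440c20440c20440c2), (nat_lit 16), (nat_lit 13), (nat_lit 1)⟩))
(.nd (.nd (.lf ⟨(nat_lit 139), (nat_lit 2), (nat_lit 706), (nat_lit 2)⟩)
(.lf ⟨(nat_lit 262), (nat_lit 2), (nat_lit 0xb184), (nat_lit 3)⟩))
(.lf ⟨(nat_lit 262), (nat_lit 2), (nat_lit 0xb184), (nat_lit 3)⟩)))))

/-- Context. -/
noncomputable def x42 : ℕ → ℕ × ℕ :=
  mkc d36 82 s36 x36 (nth [] (Cl.alts (nsCl 2 [[2, 1, 2], [0, 1, 3], [0], [0, 1]])) 3)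

set_option maxRecDepth 100000 in
/-- Facts. -/
noncomputable def d43 : Tr :=
(.nd (.nd (.nd (.nd (.nd (.lf ⟨(nat_lit 65), (nat_lit 2), (nat_lit 0), (nat_lit 0)⟩)
(.lf ⟨(nat_lit 131), (nat_lit 2), (nat_lit 194), (nat_lit 2)⟩))
(.lf ⟨(nat_lit 781), (nat_lit 2), (nat_lit 844), (nat_lit 2)⟩))
(.nd (.lf ⟨(nat_lit 73), (nat_lit 2), (nat_lit 0xd241), (nat_lit 3)⟩)
(.lf ⟨(nat_lit 0xc11020c11020c11020c1102), (nat_lit 16), (nat_lit 13), (nat_lit 1)⟩)))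
(.nd (.nd (.lf ⟨(nat_lit 780), (nat_lit 2), (nat_lit 0), (nat_lit 0)⟩)
(.lf ⟨(nat_lit 717), (nat_lit 2), (nat_lit 843), (nat_lit 2)⟩))
(.nd (.lf ⟨(nat_lit 77), (nat_lit 2), (nat_lit 833), (nat_lit 2)⟩)
(.lf ⟨(nat_lit 9), (nat_lit 1), (nat_lit 0xd30b), (nat_lit 3)⟩))))
(.nd (.nd (.nd (.nd (.lf ⟨(nat_lit 715), (nat_lit 2), (nat_lit 0), (nat_lit 0)⟩)
(.lf ⟨(nat_lit 131), (nat_lit 2), (nat_lit 194), (nat_lit 2)⟩))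
(.lf ⟨(nat_lit 716), (nat_lit 2), (nat_lit 779), (nat_lit 2)⟩))
(.nd (.lf ⟨(nat_lit 76), (nat_lit 2), (nat_lit 769), (nat_lit 2)⟩)
(.lf ⟨(nat_lit 0xc11020c11020c11020c1102), (nat_lit 16), (nat_lit 0xc2c9), (nat_lit 3)⟩)))
(.nd (.nd (.lf ⟨(nat_lit 845), (nat_lit 2), (nat_lit 0), (nat_lit 0)⟩)
(.lf ⟨(nat_lit 75), (nat_lit 2), (nat_lit 705), (nat_lit 2)⟩))
(.nd (.lf ⟨(nat_lit 131), (nat_lit 2), (nat_lit 0xd0c2), (nat_lit 3)⟩)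
(.lf ⟨(nat_lit 13), (nat_lit 1), (nat_lit 0), (nat_lit 0)⟩)))))

/-- Context. -/
noncomputable def x43 : ℕ → ℕ × ℕ :=
  mkc d34 119 s34 x34 (nth [] (Cl.alts (nsCl 3 [[0, 1, 2, 6], [4, 1, 3, 4], [0], [0, 1], [0, 1, 2]])) 2)

set_option maxRecDepth 100000 in
/-- Facts. -/
noncomputable def d44 : Tr :=
(.nd (.nd (.nd (.nd (.nd (.lf ⟨(nat_lit 65), (nat_lit 2), (nat_lit 0), (nat_lit 0)⟩)
(.lf ⟨(nat_lit 13), (nat_lit 1), (nat_lit 0), (nat_lit 0)⟩))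
(.lf ⟨(nat_lit 131), (nat_lit 2), (nat_lit 0xd0c2), (nat_lit 3)⟩))
(.nd (.lf ⟨(nat_lit 845), (nat_lit 2), (nat_lit 0), (nat_lit 0)⟩)
(.lf ⟨(nat_lit 75), (nat_lit 2), (nat_lit 705), (nat_lit 2)⟩)))
(.nd (.nd (.nd (.lf ⟨(nat_lit 780), (nat_lit 2), (nat_lit 0), (nat_lit 0)⟩)
(.lf ⟨(nat_lit 131), (nat_lit 2), (nat_lit 194), (nat_lit 2)⟩))
(.lf ⟨(nat_lit 721), (nat_lit 2), (nat_lit 0x44b), (nat_lit 2)⟩))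
(.nd (.lf ⟨(nat_lit 76), (nat_lit 2), (nat_lit 769), (nat_lit 2)⟩)
(.lf ⟨(nat_lit 0xc11020c11020c11020c1102), (nat_lit 16), (nat_lit 0xd44c2c9), (nat_lit 5)⟩))))
(.nd (.nd (.nd (.nd (.lf ⟨(nat_lit 715), (nat_lit 2), (nat_lit 0), (nat_lit 0)⟩)
(.lf ⟨(nat_lit 131), (nat_lit 2), (nat_lit 194), (nat_lit 2)⟩))
(.lf ⟨(nat_lit 81), (nat_lit 2), (nat_lit 0x441), (nat_lit 2)⟩))
(.nd (.lf ⟨(nat_lit 73), (nat_lit 2), (nat_lit 0xd241), (nat_lit 3)⟩)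
(.lf ⟨(nat_lit 0xc11020c11020c11020c1102), (nat_lit 16), (nat_lit 13), (nat_lit 1)⟩)))
(.nd (.nd (.lf ⟨(nat_lit 0x451), (nat_lit 2), (nat_lit 0), (nat_lit 0)⟩)
(.lf ⟨(nat_lit 716), (nat_lit 2), (nat_lit 779), (nat_lit 2)⟩))
(.nd (.lf ⟨(nat_lit 785), (nat_lit 2), (nat_lit 0x44c), (nat_lit 2)⟩)
(.lf ⟨(nat_lit 9), (nat_lit 1), (nat_lit 0x1130b), (nat_lit 3)⟩)))))

/-- Context. -/
noncomputable def x44 : ℕ → ℕ × ℕ :=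
  mkc d34 119 s34 x34 (nth [] (Cl.alts (nsCl 3 [[0, 1, 2, 6], [4, 1, 3, 4], [0], [0, 1], [0, 1, 2]])) 3)

set_option maxRecDepth 100000 in
/-- Facts. -/
noncomputable def d45 : Tr :=
(.nd (.nd (.nd (.nd (.lf ⟨(nat_lit 65), (nat_lit 2), (nat_lit 0), (nat_lit 0)⟩)
(.lf ⟨(nat_lit 0xc11020c11020c11020c1102), (nat_lit 16), (nat_lit 13), (nat_lit 1)⟩))
(.nd (.lf ⟨(nat_lit 73), (nat_lit 2), (nat_lit 0xd241), (nat_lit 3)⟩)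
(.lf ⟨(nat_lit 13), (nat_lit 1), (nat_lit 0), (nat_lit 0)⟩)))
(.nd (.nd (.lf ⟨(nat_lit 134), (nat_lit 2), (nat_lit 0x9182), (nat_lit 3)⟩)
(.lf ⟨(nat_lit 6), (nat_lit 1), (nat_lit 13), (nat_lit 1)⟩))
(.nd (.lf ⟨(nat_lit 589), (nat_lit 2), (nat_lit 841), (nat_lit 2)⟩)
(.lf ⟨(nat_lit 131), (nat_lit 2), (nat_lit 194), (nat_lit 2)⟩))))
(.nd (.nd (.nd (.lf ⟨(nat_lit 130), (nat_lit 2), (nat_lit 0), (nat_lit 0)⟩)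
(.lf ⟨(nat_lit 0xc11020c11020c11020c1102), (nat_lit 16), (nat_lit 6), (nat_lit 1)⟩))
(.nd (.lf ⟨(nat_lit 141), (nat_lit 2), (nat_lit 834), (nat_lit 2)⟩)
(.lf ⟨(nat_lit 131), (nat_lit 2), (nat_lit 194), (nat_lit 2)⟩)))
(.nd (.nd (.lf ⟨(nat_lit 845), (nat_lit 2), (nat_lit 0), (nat_lit 0)⟩)
(.lf ⟨(nat_lit 9), (nat_lit 1), (nat_lit 0), (nat_lit 0)⟩))
(.lf ⟨(nat_lit 131), (nat_lit 2), (nat_lit 0xd0c2), (nat_lit 3)⟩))))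

/-- Context. -/
noncomputable def x45 : ℕ → ℕ × ℕ :=
  mkc d34 119 s34 x34 (nth [] (Cl.alts (nsCl 3 [[0, 1, 2, 6], [4, 1, 3, 4], [0], [0, 1], [0, 1, 2]])) 4)

set_option maxRecDepth 100000 in
/-- Facts. -/
noncomputable def d46 : Tr :=
(.nd (.nd (.nd (.nd (.lf ⟨(nat_lit 65), (nat_lit 2), (nat_lit 0), (nat_lit 0)⟩)
(.lf ⟨(nat_lit 145), (nat_lit 2), (nat_lit 0x442), (nat_lit 2)⟩))
(.nd (.lf ⟨(nat_lit 845), (nat_lit 2), (nat_lit 0), (nat_lit 0)⟩)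
(.lf ⟨(nat_lit 9), (nat_lit 1), (nat_lit 0), (nat_lit 0)⟩)))
(.nd (.nd (.lf ⟨(nat_lit 134), (nat_lit 2), (nat_lit 0x9182), (nat_lit 3)⟩)
(.lf ⟨(nat_lit 0xc11020c11020c11020c1102), (nat_lit 16), (nat_lit 0xd446), (nat_lit 3)⟩))
(.nd (.lf ⟨(nat_lit 131), (nat_lit 2), (nat_lit 0xd0c2), (nat_lit 3)⟩)
(.lf ⟨(nat_lit 131), (nat_lit 2), (nat_lit 194), (nat_lit 2)⟩))))
(.nd (.nd (.nd (.lf ⟨(nat_lit 130), (nat_lit 2), (nat_lit 0), (nat_lit 0)⟩)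
(.lf ⟨(nat_lit 0xc11020c11020c11020c1102), (nat_lit 16), (nat_lit 13), (nat_lit 1)⟩))
(.nd (.lf ⟨(nat_lit 73), (nat_lit 2), (nat_lit 0xd241), (nat_lit 3)⟩)
(.lf ⟨(nat_lit 13), (nat_lit 1), (nat_lit 0), (nat_lit 0)⟩)))
(.nd (.nd (.lf ⟨(nat_lit 0x451), (nat_lit 2), (nat_lit 0), (nat_lit 0)⟩)
(.lf ⟨(nat_lit 6), (nat_lit 1), (nat_lit 17), (nat_lit 1)⟩))
(.nd (.lf ⟨(nat_lit 593), (nat_lit 2), (nat_lit 0x449), (nat_lit 2)⟩)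
(.lf ⟨(nat_lit 131), (nat_lit 2), (nat_lit 194), (nat_lit 2)⟩)))))

/-- Context. -/
noncomputable def x46 : ℕ → ℕ × ℕ :=
  mkc d34 119 s34 x34 (nth [] (Cl.alts (nsCl 3 [[0, 1, 2, 6], [4, 1, 3, 4], [0], [0, 1], [0, 1, 2]])) 5)

set_option maxRecDepth 100000 in
/-- Facts. -/
noncomputable def d47 : Tr :=
(.nd (.nd (.nd (.nd (.nd (.lf ⟨(nat_lit 65), (nat_lit 2), (nat_lit 0), (nat_lit 0)⟩)
(.lf ⟨(nat_lit 721), (nat_lit 2), (nat_lit 0x44b), (nat_lit 2)⟩))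
(.nd (.lf ⟨(nat_lit 73), (nat_lit 2), (nat_lit 0xd241), (nat_lit 3)⟩)
(.lf ⟨(nat_lit 0xc11020c11020c11020c1102), (nat_lit 16), (nat_lit 0x30b246), (nat_lit 4)⟩)))
(.nd (.nd (.lf ⟨(nat_lit 715), (nat_lit 2), (nat_lit 0), (nat_lit 0)⟩)
(.lf ⟨(nat_lit 588), (nat_lit 2), (nat_lit 777), (nat_lit 2)⟩))
(.nd (.lf ⟨(nat_lit 785), (nat_lit 2), (nat_lit 0x44c), (nat_lit 2)⟩)
(.lf ⟨(nat_lit 131), (nat_lit 2), (nat_lit 194), (nat_lit 2)⟩))))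
(.nd (.nd (.nd (.lf ⟨(nat_lit 585), (nat_lit 2), (nat_lit 0), (nat_lit 0)⟩)
(.lf ⟨(nat_lit 587), (nat_lit 2), (nat_lit 713), (nat_lit 2)⟩))
(.nd (.lf ⟨(nat_lit 137), (nat_lit 2), (nat_lit 578), (nat_lit 2)⟩)
(.lf ⟨(nat_lit 9), (nat_lit 1), (nat_lit 17), (nat_lit 1)⟩)))
(.nd (.nd (.lf ⟨(nat_lit 0x451), (nat_lit 2), (nat_lit 0), (nat_lit 0)⟩)
(.lf ⟨(nat_lit 140), (nat_lit 2), (nat_lit 0x11302), (nat_lit 3)⟩))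
(.lf ⟨(nat_lit 81), (nat_lit 2), (nat_lit 0x441), (nat_lit 2)⟩))))
(.nd (.nd (.nd (.nd (.lf ⟨(nat_lit 130), (nat_lit 2), (nat_lit 0), (nat_lit 0)⟩)
(.lf ⟨(nat_lit 716), (nat_lit 2), (nat_lit 779), (nat_lit 2)⟩))
(.nd (.lf ⟨(nat_lit 141), (nat_lit 2), (nat_lit 834), (nat_lit 2)⟩)
(.lf ⟨(nat_lit 6), (nat_lit 1), (nat_lit 0x34c2c9), (nat_lit 4)⟩)))
(.nd (.nd (.lf ⟨(nat_lit 780), (nat_lit 2), (nat_lit 0), (nat_lit 0)⟩)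
(.lf ⟨(nat_lit 139), (nat_lit 2), (nat_lit 706), (nat_lit 2)⟩))
(.nd (.lf ⟨(nat_lit 131), (nat_lit 2), (nat_lit 0xd0c2), (nat_lit 3)⟩)
(.lf ⟨(nat_lit 131), (nat_lit 2), (nat_lit 194), (nat_lit 2)⟩))))
(.nd (.nd (.nd (.lf ⟨(nat_lit 134), (nat_lit 2), (nat_lit 0x9182), (nat_lit 3)⟩)
(.lf ⟨(nat_lit 717), (nat_lit 2), (nat_lit 843), (nat_lit 2)⟩))
(.nd (.lf ⟨(nat_lit 589), (nat_lit 2), (nat_lit 841), (nat_lit 2)⟩)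
(.lf ⟨(nat_lit 13), (nat_lit 1), (nat_lit 0), (nat_lit 0)⟩)))
(.nd (.nd (.lf ⟨(nat_lit 845), (nat_lit 2), (nat_lit 0), (nat_lit 0)⟩)
(.lf ⟨(nat_lit 0xc11020c11020c11020c1102), (nat_lit 16), (nat_lit 13), (nat_lit 1)⟩))
(.lf ⟨(nat_lit 781), (nat_lit 2), (nat_lit 844), (nat_lit 2)⟩)))))

/-- Context. -/
noncomputable def x47 : ℕ → ℕ × ℕ :=
  mkc d34 119 s34 x34 (nth [] (Cl.alts (nsCl 3 [[0, 1, 2, 6], [4, 1, 3, 4], [0], [0, 1], [0, 1, 2]])) 6)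

set_option maxRecDepth 100000 in
/-- Facts. -/
noncomputable def d48 : Tr :=
(.nd (.nd (.nd (.nd (.nd (.lf ⟨(nat_lit 65), (nat_lit 2), (nat_lit 0), (nat_lit 0)⟩)
(.lf ⟨(nat_lit 593), (nat_lit 2), (nat_lit 0x449), (nat_lit 2)⟩))
(.nd (.lf ⟨(nat_lit 73), (nat_lit 2), (nat_lit 0xd241), (nat_lit 3)⟩)
(.lf ⟨(nat_lit 9), (nat_lit 1), (nat_lit 17), (nat_lit 1)⟩)))
(.nd (.nd (.lf ⟨(nat_lit 715), (nat_lit 2), (nat_lit 0), (nat_lit 0)⟩)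
(.lf ⟨(nat_lit 140), (nat_lit 2), (nat_lit 0x11302), (nat_lit 3)⟩))
(.lf ⟨(nat_lit 81), (nat_lit 2), (nat_lit 0x441), (nat_lit 2)⟩)))
(.nd (.nd (.nd (.lf ⟨(nat_lit 585), (nat_lit 2), (nat_lit 0), (nat_lit 0)⟩)
(.lf ⟨(nat_lit 145), (nat_lit 2), (nat_lit 0x442), (nat_lit 2)⟩))
(.nd (.lf ⟨(nat_lit 785), (nat_lit 2), (nat_lit 0x44c), (nat_lit 2)⟩)
(.lf ⟨(nat_lit 131), (nat_lit 2), (nat_lit 194), (nat_lit 2)⟩)))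
(.nd (.nd (.lf ⟨(nat_lit 0x451), (nat_lit 2), (nat_lit 0), (nat_lit 0)⟩)
(.lf ⟨(nat_lit 0xc11020c11020c11020c1102), (nat_lit 16), (nat_lit 0x35130b246), (nat_lit 6)⟩))
(.lf ⟨(nat_lit 716), (nat_lit 2), (nat_lit 779), (nat_lit 2)⟩))))
(.nd (.nd (.nd (.nd (.lf ⟨(nat_lit 130), (nat_lit 2), (nat_lit 0), (nat_lit 0)⟩)
(.lf ⟨(nat_lit 588), (nat_lit 2), (nat_lit 777), (nat_lit 2)⟩))
(.nd (.lf ⟨(nat_lit 137), (nat_lit 2), (nat_lit 578), (nat_lit 2)⟩)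
(.lf ⟨(nat_lit 13), (nat_lit 1), (nat_lit 0), (nat_lit 0)⟩)))
(.nd (.nd (.lf ⟨(nat_lit 780), (nat_lit 2), (nat_lit 0), (nat_lit 0)⟩)
(.lf ⟨(nat_lit 0xc11020c11020c11020c1102), (nat_lit 16), (nat_lit 13), (nat_lit 1)⟩))
(.lf ⟨(nat_lit 721), (nat_lit 2), (nat_lit 0x44b), (nat_lit 2)⟩)))
(.nd (.nd (.nd (.lf ⟨(nat_lit 134), (nat_lit 2), (nat_lit 0x9182), (nat_lit 3)⟩)
(.lf ⟨(nat_lit 139), (nat_lit 2), (nat_lit 706), (nat_lit 2)⟩))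
(.nd (.lf ⟨(nat_lit 131), (nat_lit 2), (nat_lit 0xd0c2), (nat_lit 3)⟩)
(.lf ⟨(nat_lit 131), (nat_lit 2), (nat_lit 194), (nat_lit 2)⟩)))
(.nd (.nd (.lf ⟨(nat_lit 845), (nat_lit 2), (nat_lit 0), (nat_lit 0)⟩)
(.lf ⟨(nat_lit 6), (nat_lit 1), (nat_lit 0x44c2c9), (nat_lit 4)⟩))
(.lf ⟨(nat_lit 587), (nat_lit 2), (nat_lit 713), (nat_lit 2)⟩)))))

/-- Context. -/
noncomputable def x48 : ℕ → ℕ × ℕ :=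
  mkc d34 119 s34 x34 (nth [] (Cl.alts (nsCl 3 [[0, 1, 2, 6], [4, 1, 3, 4], [0], [0, 1], [0, 1, 2]])) 7)

set_option maxRecDepth 100000 in
/-- Facts. -/
noncomputable def d49 : Tr :=
(.nd (.nd (.nd (.nd (.nd (.nd (.nd (.lf ⟨(nat_lit 65), (nat_lit 2), (nat_lit 0), (nat_lit 0)⟩)
(.lf ⟨(nat_lit 914), (nat_lit 2), (nat_lit 0x48e), (nat_lit 2)⟩))
(.nd (.lf ⟨(nat_lit 203), (nat_lit 2), (nat_lit 707), (nat_lit 2)⟩)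
(.lf ⟨(nat_lit 75), (nat_lit 2), (nat_lit 705), (nat_lit 2)⟩)))
(.nd (.nd (.lf ⟨(nat_lit 715), (nat_lit 2), (nat_lit 0), (nat_lit 0)⟩)
(.lf ⟨(nat_lit 457), (nat_lit 2), (nat_lit 583), (nat_lit 2)⟩))
(.lf ⟨(nat_lit 133), (nat_lit 2), (nat_lit 322), (nat_lit 2)⟩)))
(.nd (.nd (.nd (.lf ⟨(nat_lit 67), (nat_lit 2), (nat_lit 0x60c1), (nat_lit 3)⟩)
(.lf ⟨(nat_lit 587), (nat_lit 2), (nat_lit 713), (nat_lit 2)⟩))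
(.nd (.lf ⟨(nat_lit 524), (nat_lit 2), (nat_lit 776), (nat_lit 2)⟩)
(.lf ⟨(nat_lit 0x10308c), (nat_lit 4), (nat_lit 0x3040c2), (nat_lit 4)⟩)))
(.nd (.nd (.lf ⟨(nat_lit 268), (nat_lit 2), (nat_lit 0x12304), (nat_lit 3)⟩)
(.lf ⟨(nat_lit 261), (nat_lit 2), (nat_lit 0x38b144), (nat_lit 4)⟩))
(.lf ⟨(nat_lit 460), (nat_lit 2), (nat_lit 775), (nat_lit 2)⟩))))
(.nd (.nd (.nd (.nd (.lf ⟨(nat_lit 132), (nat_lit 2), (nat_lit 258), (nat_lit 2)⟩)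
(.lf ⟨(nat_lit 262), (nat_lit 2), (nat_lit 0x1244e30b184), (nat_lit 7)⟩))
(.nd (.lf ⟨(nat_lit 263), (nat_lit 2), (nat_lit 452), (nat_lit 2)⟩)
(.lf ⟨(nat_lit 0xd20c), (nat_lit 3), (nat_lit 0xc348), (nat_lit 3)⟩)))
(.nd (.nd (.lf ⟨(nat_lit 910), (nat_lit 2), (nat_lit 0), (nat_lit 0)⟩)
(.lf ⟨(nat_lit 0x470c20470c20470c20470c2), (nat_lit 16), (nat_lit 13), (nat_lit 1)⟩))
(.lf ⟨(nat_lit 74), (nat_lit 2), (nat_lit 641), (nat_lit 2)⟩)))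
(.nd (.nd (.nd (.lf ⟨(nat_lit 196), (nat_lit 2), (nat_lit 0x8103), (nat_lit 3)⟩)
(.lf ⟨(nat_lit 588), (nat_lit 2), (nat_lit 777), (nat_lit 2)⟩))
(.nd (.lf ⟨(nat_lit 333), (nat_lit 2), (nat_lit 837), (nat_lit 2)⟩)
(.lf ⟨(nat_lit 0x349207185349207185), (nat_lit 12), (nat_lit 13), (nat_lit 1)⟩)))
(.nd (.nd (.lf ⟨(nat_lit 780), (nat_lit 2), (nat_lit 0), (nat_lit 0)⟩)
(.lf ⟨(nat_lit 391), (nat_lit 2), (nat_lit 454), (nat_lit 2)⟩))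
(.lf ⟨(nat_lit 391), (nat_lit 2), (nat_lit 0xe1c6), (nat_lit 3)⟩)))))
(.nd (.nd (.nd (.nd (.nd (.lf ⟨(nat_lit 195), (nat_lit 2), (nat_lit 0), (nat_lit 0)⟩)
(.lf ⟨(nat_lit 270), (nat_lit 2), (nat_lit 900), (nat_lit 2)⟩))
(.nd (.lf ⟨(nat_lit 78), (nat_lit 2), (nat_lit 897), (nat_lit 2)⟩)
(.lf ⟨(nat_lit 135), (nat_lit 2), (nat_lit 0xb1c2), (nat_lit 3)⟩)))
(.nd (.nd (.lf ⟨(nat_lit 780), (nat_lit 2), (nat_lit 0), (nat_lit 0)⟩)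
(.lf ⟨(nat_lit 265), (nat_lit 2), (nat_lit 0x11244), (nat_lit 3)⟩))
(.lf ⟨(nat_lit 131), (nat_lit 2), (nat_lit 0xd0c2), (nat_lit 3)⟩)))
(.nd (.nd (.nd (.lf ⟨(nat_lit 68), (nat_lit 2), (nat_lit 0x7101), (nat_lit 3)⟩)
(.lf ⟨(nat_lit 717), (nat_lit 2), (nat_lit 843), (nat_lit 2)⟩))
(.nd (.lf ⟨(nat_lit 718), (nat_lit 2), (nat_lit 907), (nat_lit 2)⟩)
(.lf ⟨(nat_lit 0x103081), (nat_lit 4), (nat_lit 0x103081), (nat_lit 4)⟩)))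
(.nd (.nd (.lf ⟨(nat_lit 65), (nat_lit 2), (nat_lit 0), (nat_lit 0)⟩)
(.lf ⟨(nat_lit 14), (nat_lit 1), (nat_lit 0), (nat_lit 0)⟩))
(.lf ⟨(nat_lit 0x44d), (nat_lit 2), (nat_lit 849), (nat_lit 2)⟩))))
(.nd (.nd (.nd (.nd (.lf ⟨(nat_lit 66), (nat_lit 2), (nat_lit 0x5081), (nat_lit 3)⟩)
(.lf ⟨(nat_lit 197), (nat_lit 2), (nat_lit 0x349143), (nat_lit 4)⟩))
(.nd (.lf ⟨(nat_lit 525), (nat_lit 2), (nat_lit 840), (nat_lit 2)⟩)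
(.lf ⟨(nat_lit 0x1348), (nat_lit 3), (nat_lit 0x30d201), (nat_lit 4)⟩)))
(.nd (.nd (.lf ⟨(nat_lit 0x451), (nat_lit 2), (nat_lit 0), (nat_lit 0)⟩)
(.lf ⟨(nat_lit 10), (nat_lit 1), (nat_lit 907), (nat_lit 2)⟩))
(.lf ⟨(nat_lit 456), (nat_lit 2), (nat_lit 0x12207), (nat_lit 3)⟩)))
(.nd (.nd (.nd (.lf ⟨(nat_lit 134), (nat_lit 2), (nat_lit 0x9182), (nat_lit 3)⟩)
(.lf ⟨(nat_lit 269), (nat_lit 2), (nat_lit 836), (nat_lit 2)⟩))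
(.lf ⟨(nat_lit 329), (nat_lit 2), (nat_lit 581), (nat_lit 2)⟩))
(.nd (.nd (.lf ⟨(nat_lit 76), (nat_lit 2), (nat_lit 769), (nat_lit 2)⟩)
(.lf ⟨(nat_lit 262), (nat_lit 2), (nat_lit 0x1130b184), (nat_lit 5)⟩))
(.lf ⟨(nat_lit 0x348348), (nat_lit 4), (nat_lit 0), (nat_lit 0)⟩))))))
(.nd (.nd (.nd (.nd (.nd (.nd (.lf ⟨(nat_lit 130), (nat_lit 2), (nat_lit 0), (nat_lit 0)⟩)
(.lf ⟨(nat_lit 465), (nat_lit 2), (nat_lit 0x447), (nat_lit 2)⟩))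
(.nd (.lf ⟨(nat_lit 77), (nat_lit 2), (nat_lit 833), (nat_lit 2)⟩)
(.lf ⟨(nat_lit 268), (nat_lit 2), (nat_lit 772), (nat_lit 2)⟩)))
(.nd (.nd (.lf ⟨(nat_lit 199), (nat_lit 2), (nat_lit 0xb1c3), (nat_lit 3)⟩)
(.lf ⟨(nat_lit 140), (nat_lit 2), (nat_lit 0x11302), (nat_lit 3)⟩))
(.lf ⟨(nat_lit 205), (nat_lit 2), (nat_lit 835), (nat_lit 2)⟩)))
(.nd (.nd (.nd (.lf ⟨(nat_lit 455), (nat_lit 2), (nat_lit 0), (nat_lit 0)⟩)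
(.lf ⟨(nat_lit 593), (nat_lit 2), (nat_lit 0x449), (nat_lit 2)⟩))
(.nd (.lf ⟨(nat_lit 589), (nat_lit 2), (nat_lit 841), (nat_lit 2)⟩)
(.lf ⟨(nat_lit 0x40c2348), (nat_lit 5), (nat_lit 0xd2040c2), (nat_lit 5)⟩)))
(.nd (.nd (.lf ⟨(nat_lit 845), (nat_lit 2), (nat_lit 0), (nat_lit 0)⟩)
(.lf ⟨(nat_lit 18), (nat_lit 1), (nat_lit 0), (nat_lit 0)⟩))
(.lf ⟨(nat_lit 401), (nat_lit 2), (nat_lit 0x446), (nat_lit 2)⟩))))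
(.nd (.nd (.nd (.nd (.lf ⟨(nat_lit 325), (nat_lit 2), (nat_lit 0), (nat_lit 0)⟩)
(.lf ⟨(nat_lit 326), (nat_lit 2), (nat_lit 0xd185), (nat_lit 3)⟩))
(.nd (.lf ⟨(nat_lit 264), (nat_lit 2), (nat_lit 516), (nat_lit 2)⟩)
(.lf ⟨(nat_lit 76), (nat_lit 2), (nat_lit 769), (nat_lit 2)⟩)))
(.nd (.nd (.lf ⟨(nat_lit 75), (nat_lit 2), (nat_lit 0xe2c1), (nat_lit 3)⟩)
(.lf ⟨(nat_lit 0x470c20470c20470c20470c2), (nat_lit 16), (nat_lit 0x38d2ca), (nat_lit 4)⟩))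
(.lf ⟨(nat_lit 327), (nat_lit 2), (nat_lit 453), (nat_lit 2)⟩)))
(.nd (.nd (.nd (.lf ⟨(nat_lit 585), (nat_lit 2), (nat_lit 0), (nat_lit 0)⟩)
(.lf ⟨(nat_lit 461), (nat_lit 2), (nat_lit 839), (nat_lit 2)⟩))
(.nd (.lf ⟨(nat_lit 397), (nat_lit 2), (nat_lit 838), (nat_lit 2)⟩)
(.lf ⟨(nat_lit 0x103081103081103081103081), (nat_lit 16), (nat_lit 13), (nat_lit 1)⟩)))
(.nd (.nd (.lf ⟨(nat_lit 200), (nat_lit 2), (nat_lit 515), (nat_lit 2)⟩)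
(.lf ⟨(nat_lit 267), (nat_lit 2), (nat_lit 708), (nat_lit 2)⟩))
(.lf ⟨(nat_lit 529), (nat_lit 2), (nat_lit 0x448), (nat_lit 2)⟩)))))
(.nd (.nd (.nd (.nd (.nd (.lf ⟨(nat_lit 260), (nat_lit 2), (nat_lit 0), (nat_lit 0)⟩)
(.lf ⟨(nat_lit 267), (nat_lit 2), (nat_lit 0x122c4), (nat_lit 3)⟩))
(.nd (.lf ⟨(nat_lit 209), (nat_lit 2), (nat_lit 0x443), (nat_lit 2)⟩)
(.lf ⟨(nat_lit 261), (nat_lit 2), (nat_lit 0xb144), (nat_lit 3)⟩)))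
(.nd (.nd (.lf ⟨(nat_lit 72), (nat_lit 2), (nat_lit 0xc201), (nat_lit 3)⟩)
(.lf ⟨(nat_lit 328), (nat_lit 2), (nat_lit 0x11205), (nat_lit 3)⟩))
(.lf ⟨(nat_lit 198), (nat_lit 2), (nat_lit 387), (nat_lit 2)⟩)))
(.nd (.nd (.nd (.lf ⟨(nat_lit 520), (nat_lit 2), (nat_lit 0), (nat_lit 0)⟩)
(.lf ⟨(nat_lit 521), (nat_lit 2), (nat_lit 584), (nat_lit 2)⟩))
(.nd (.lf ⟨(nat_lit 261), (nat_lit 2), (nat_lit 0xa144), (nat_lit 3)⟩)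
(.lf ⟨(nat_lit 0x103081103081), (nat_lit 8), (nat_lit 0x349207185), (nat_lit 6)⟩)))
(.nd (.nd (.lf ⟨(nat_lit 141), (nat_lit 2), (nat_lit 834), (nat_lit 2)⟩)
(.lf ⟨(nat_lit 456), (nat_lit 2), (nat_lit 519), (nat_lit 2)⟩))
(.lf ⟨(nat_lit 392), (nat_lit 2), (nat_lit 0x11206), (nat_lit 3)⟩))))
(.nd (.nd (.nd (.nd (.lf ⟨(nat_lit 390), (nat_lit 2), (nat_lit 0), (nat_lit 0)⟩)
(.lf ⟨(nat_lit 909), (nat_lit 2), (nat_lit 846), (nat_lit 2)⟩))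
(.nd (.lf ⟨(nat_lit 393), (nat_lit 2), (nat_lit 582), (nat_lit 2)⟩)
(.lf ⟨(nat_lit 0x1030840c2), (nat_lit 6), (nat_lit 840), (nat_lit 2)⟩)))
(.nd (.nd (.lf ⟨(nat_lit 204), (nat_lit 2), (nat_lit 0x11303), (nat_lit 3)⟩)
(.lf ⟨(nat_lit 135), (nat_lit 2), (nat_lit 0x38b1c2), (nat_lit 4)⟩))
(.lf ⟨(nat_lit 395), (nat_lit 2), (nat_lit 710), (nat_lit 2)⟩)))
(.nd (.nd (.nd (.lf ⟨(nat_lit 135), (nat_lit 2), (nat_lit 0xa1c2), (nat_lit 3)⟩)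
(.lf ⟨(nat_lit 136), (nat_lit 2), (nat_lit 514), (nat_lit 2)⟩))
(.lf ⟨(nat_lit 266), (nat_lit 2), (nat_lit 644), (nat_lit 2)⟩))
(.nd (.nd (.lf ⟨(nat_lit 137), (nat_lit 2), (nat_lit 578), (nat_lit 2)⟩)
(.lf ⟨(nat_lit 10), (nat_lit 1), (nat_lit 11), (nat_lit 1)⟩))
(.lf ⟨(nat_lit 781), (nat_lit 2), (nat_lit 844), (nat_lit 2)⟩)))))))

/-- Substitution. -/
def s49 : List (ℕ × ℕ) := [((nat_lit 1), (nat_lit 1)), ((nat_lit 0x40c2), (nat_lit 3)), ((nat_lit 12), (nat_lit 1)), ((nat_lit 840), (nat_lit 2))]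

/-- Context. -/
noncomputable def x49 : ℕ → ℕ × ℕ :=
  mkc d15 84 s15 x15 (nth [] (Cl.alts (nsCl 2 [[2, 1, 2], [0, 1, 3], [0], [0, 1]])) 3)

set_option maxRecDepth 100000 in
/-- Facts. -/
noncomputable def d50 : Tr :=
(.nd (.nd (.nd (.lf ⟨(nat_lit 131), (nat_lit 2), (nat_lit 0xd0c2), (nat_lit 3)⟩)
(.lf ⟨(nat_lit 131), (nat_lit 2), (nat_lit 194), (nat_lit 2)⟩))
(.lf ⟨(nat_lit 0x103081103081103081103081), (nat_lit 16), (nat_lit 0), (nat_lit 0)⟩))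
(.nd (.lf ⟨(nat_lit 0x103081103081103081103081), (nat_lit 16), (nat_lit 13), (nat_lit 1)⟩)
(.lf ⟨(nat_lit 13), (nat_lit 1), (nat_lit 0), (nat_lit 0)⟩)))

/-- Context. -/
noncomputable def x50 : ℕ → ℕ × ℕ :=
  mkc d49 110 s49 x49 (nth [] (Cl.alts (nsCl 2 [[0, 1, 3], [2, 1, 2], [0], [0, 1]])) 0)

set_option maxRecDepth 100000 in
/-- Facts. -/
noncomputable def d51 : Tr :=
(.nd (.nd (.nd (.nd (.nd (.nd (.nd (.lf ⟨(nat_lit 65), (nat_lit 2), (nat_lit 0), (nat_lit 0)⟩)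
(.lf ⟨(nat_lit 0x103081103081103081103081), (nat_lit 16), (nat_lit 12), (nat_lit 1)⟩))
(.lf ⟨(nat_lit 329), (nat_lit 2), (nat_lit 581), (nat_lit 2)⟩))
(.nd (.lf ⟨(nat_lit 72), (nat_lit 2), (nat_lit 0xc201), (nat_lit 3)⟩)
(.lf ⟨(nat_lit 521), (nat_lit 2), (nat_lit 584), (nat_lit 2)⟩)))
(.nd (.nd (.nd (.lf ⟨(nat_lit 67), (nat_lit 2), (nat_lit 0x60c1), (nat_lit 3)⟩)
(.lf ⟨(nat_lit 0x2c920b248), (nat_lit 6), (nat_lit 0), (nat_lit 0)⟩))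
(.lf ⟨(nat_lit 70), (nat_lit 2), (nat_lit 385), (nat_lit 2)⟩))
(.nd (.lf ⟨(nat_lit 203), (nat_lit 2), (nat_lit 707), (nat_lit 2)⟩)
(.lf ⟨(nat_lit 328), (nat_lit 2), (nat_lit 0x11205), (nat_lit 3)⟩))))
(.nd (.nd (.nd (.nd (.lf ⟨(nat_lit 132), (nat_lit 2), (nat_lit 258), (nat_lit 2)⟩)
(.lf ⟨(nat_lit 392), (nat_lit 2), (nat_lit 518), (nat_lit 2)⟩))
(.lf ⟨(nat_lit 69), (nat_lit 2), (nat_lit 321), (nat_lit 2)⟩))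
(.nd (.lf ⟨(nat_lit 65), (nat_lit 2), (nat_lit 0), (nat_lit 0)⟩)
(.lf ⟨(nat_lit 331), (nat_lit 2), (nat_lit 709), (nat_lit 2)⟩)))
(.nd (.nd (.nd (.lf ⟨(nat_lit 196), (nat_lit 2), (nat_lit 0x8103), (nat_lit 3)⟩)
(.lf ⟨(nat_lit 0x11840c2), (nat_lit 5), (nat_lit 0x91c5103081), (nat_lit 7)⟩))
(.lf ⟨(nat_lit 197), (nat_lit 2), (nat_lit 0x349143), (nat_lit 4)⟩))
(.nd (.lf ⟨(nat_lit 459), (nat_lit 2), (nat_lit 711), (nat_lit 2)⟩)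
(.lf ⟨(nat_lit 262), (nat_lit 2), (nat_lit 0x1130b184), (nat_lit 5)⟩)))))
(.nd (.nd (.nd (.nd (.nd (.lf ⟨(nat_lit 195), (nat_lit 2), (nat_lit 0), (nat_lit 0)⟩)
(.lf ⟨(nat_lit 72), (nat_lit 2), (nat_lit 0xd201), (nat_lit 3)⟩))
(.lf ⟨(nat_lit 131), (nat_lit 2), (nat_lit 0xd0c2), (nat_lit 3)⟩))
(.nd (.lf ⟨(nat_lit 845), (nat_lit 2), (nat_lit 0), (nat_lit 0)⟩)
(.lf ⟨(nat_lit 269), (nat_lit 2), (nat_lit 836), (nat_lit 2)⟩)))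
(.nd (.nd (.nd (.lf ⟨(nat_lit 68), (nat_lit 2), (nat_lit 0x7101), (nat_lit 3)⟩)
(.lf ⟨(nat_lit 0x610308b248), (nat_lit 7), (nat_lit 0xb2481840c2), (nat_lit 7)⟩))
(.lf ⟨(nat_lit 523), (nat_lit 2), (nat_lit 712), (nat_lit 2)⟩))
(.nd (.lf ⟨(nat_lit 525), (nat_lit 2), (nat_lit 840), (nat_lit 2)⟩)
(.lf ⟨(nat_lit 391), (nat_lit 2), (nat_lit 454), (nat_lit 2)⟩))))
(.nd (.nd (.nd (.nd (.lf ⟨(nat_lit 66), (nat_lit 2), (nat_lit 0x5081), (nat_lit 3)⟩)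
(.lf ⟨(nat_lit 328), (nat_lit 2), (nat_lit 517), (nat_lit 2)⟩))
(.lf ⟨(nat_lit 395), (nat_lit 2), (nat_lit 710), (nat_lit 2)⟩))
(.nd (.lf ⟨(nat_lit 200), (nat_lit 2), (nat_lit 515), (nat_lit 2)⟩)
(.lf ⟨(nat_lit 139), (nat_lit 2), (nat_lit 706), (nat_lit 2)⟩)))
(.nd (.nd (.nd (.lf ⟨(nat_lit 134), (nat_lit 2), (nat_lit 0x9182), (nat_lit 3)⟩)
(.lf ⟨(nat_lit 0x34b20718534b207185), (nat_lit 12), (nat_lit 13), (nat_lit 1)⟩))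
(.lf ⟨(nat_lit 587), (nat_lit 2), (nat_lit 713), (nat_lit 2)⟩))
(.nd (.lf ⟨(nat_lit 333), (nat_lit 2), (nat_lit 837), (nat_lit 2)⟩)
(.lf ⟨(nat_lit 261), (nat_lit 2), (nat_lit 0xb144), (nat_lit 3)⟩))))))
(.nd (.nd (.nd (.nd (.nd (.nd (.lf ⟨(nat_lit 130), (nat_lit 2), (nat_lit 0), (nat_lit 0)⟩)
(.lf ⟨(nat_lit 12), (nat_lit 1), (nat_lit 13), (nat_lit 1)⟩))
(.lf ⟨(nat_lit 205), (nat_lit 2), (nat_lit 835), (nat_lit 2)⟩))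
(.nd (.lf ⟨(nat_lit 204), (nat_lit 2), (nat_lit 0x11303), (nat_lit 3)⟩)
(.lf ⟨(nat_lit 461), (nat_lit 2), (nat_lit 839), (nat_lit 2)⟩)))
(.nd (.nd (.nd (.lf ⟨(nat_lit 455), (nat_lit 2), (nat_lit 0), (nat_lit 0)⟩)
(.lf ⟨(nat_lit 0x1840c21840c2), (nat_lit 8), (nat_lit 0xb248), (nat_lit 3)⟩))
(.lf ⟨(nat_lit 392), (nat_lit 2), (nat_lit 0x11206), (nat_lit 3)⟩))
(.nd (.lf ⟨(nat_lit 264), (nat_lit 2), (nat_lit 516), (nat_lit 2)⟩)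
(.lf ⟨(nat_lit 456), (nat_lit 2), (nat_lit 519), (nat_lit 2)⟩))))
(.nd (.nd (.nd (.nd (.lf ⟨(nat_lit 325), (nat_lit 2), (nat_lit 0), (nat_lit 0)⟩)
(.lf ⟨(nat_lit 265), (nat_lit 2), (nat_lit 580), (nat_lit 2)⟩))
(.lf ⟨(nat_lit 327), (nat_lit 2), (nat_lit 453), (nat_lit 2)⟩))
(.nd (.lf ⟨(nat_lit 71), (nat_lit 2), (nat_lit 449), (nat_lit 2)⟩)
(.lf ⟨(nat_lit 457), (nat_lit 2), (nat_lit 583), (nat_lit 2)⟩)))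
(.nd (.nd (.nd (.lf ⟨(nat_lit 585), (nat_lit 2), (nat_lit 0), (nat_lit 0)⟩)
(.lf ⟨(nat_lit 0x2471440c20491c5103081), (nat_lit 14), (nat_lit 0x34b207185), (nat_lit 6)⟩))
(.lf ⟨(nat_lit 201), (nat_lit 2), (nat_lit 579), (nat_lit 2)⟩))
(.nd (.lf ⟨(nat_lit 589), (nat_lit 2), (nat_lit 841), (nat_lit 2)⟩)
(.lf ⟨(nat_lit 75), (nat_lit 2), (nat_lit 705), (nat_lit 2)⟩)))))
(.nd (.nd (.nd (.nd (.nd (.lf ⟨(nat_lit 260), (nat_lit 2), (nat_lit 0), (nat_lit 0)⟩)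
(.lf ⟨(nat_lit 17), (nat_lit 1), (nat_lit 0), (nat_lit 0)⟩))
(.lf ⟨(nat_lit 198), (nat_lit 2), (nat_lit 387), (nat_lit 2)⟩))
(.nd (.lf ⟨(nat_lit 73), (nat_lit 2), (nat_lit 0xd241), (nat_lit 3)⟩)
(.lf ⟨(nat_lit 136), (nat_lit 2), (nat_lit 514), (nat_lit 2)⟩)))
(.nd (.nd (.nd (.lf ⟨(nat_lit 520), (nat_lit 2), (nat_lit 0), (nat_lit 0)⟩)
(.lf ⟨(nat_lit 0x4b248), (nat_lit 4), (nat_lit 0x2c9201), (nat_lit 4)⟩))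
(.lf ⟨(nat_lit 326), (nat_lit 2), (nat_lit 0xd185), (nat_lit 3)⟩))
(.nd (.lf ⟨(nat_lit 393), (nat_lit 2), (nat_lit 582), (nat_lit 2)⟩)
(.lf ⟨(nat_lit 267), (nat_lit 2), (nat_lit 708), (nat_lit 2)⟩))))
(.nd (.nd (.nd (.nd (.lf ⟨(nat_lit 390), (nat_lit 2), (nat_lit 0), (nat_lit 0)⟩)
(.lf ⟨(nat_lit 262), (nat_lit 2), (nat_lit 0x34b184), (nat_lit 4)⟩))
(.lf ⟨(nat_lit 0x44d), (nat_lit 2), (nat_lit 849), (nat_lit 2)⟩))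
(.nd (.lf ⟨(nat_lit 137), (nat_lit 2), (nat_lit 578), (nat_lit 2)⟩)
(.lf ⟨(nat_lit 265), (nat_lit 2), (nat_lit 0x11244), (nat_lit 3)⟩)))
(.nd (.nd (.nd (.lf ⟨(nat_lit 715), (nat_lit 2), (nat_lit 0), (nat_lit 0)⟩)
(.lf ⟨(nat_lit 0x461030811840c20461030811840c2), (nat_lit 20), (nat_lit 13), (nat_lit 1)⟩))
(.lf ⟨(nat_lit 717), (nat_lit 2), (nat_lit 843), (nat_lit 2)⟩))
(.nd (.lf ⟨(nat_lit 397), (nat_lit 2), (nat_lit 838), (nat_lit 2)⟩)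
(.lf ⟨(nat_lit 0x103081103081103081103081), (nat_lit 16), (nat_lit 13), (nat_lit 1)⟩)))))))

/-- Substitution. -/
def s51 : List (ℕ × ℕ) := [((nat_lit 0x1840c2), (nat_lit 4)), ((nat_lit 1), (nat_lit 1)), ((nat_lit 0xb248), (nat_lit 3))]

/-- Context. -/
noncomputable def x51 : ℕ → ℕ × ℕ :=
  mkc d49 110 s49 x49 (nth [] (Cl.alts (nsCl 2 [[0, 1, 3], [2, 1, 2], [0], [0, 1]])) 1)

set_option maxRecDepth 100000 in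
/-- Facts. -/
noncomputable def d52 : Tr :=
(.nd (.nd (.nd (.lf ⟨(nat_lit 131), (nat_lit 2), (nat_lit 0xd0c2), (nat_lit 3)⟩)
(.lf ⟨(nat_lit 131), (nat_lit 2), (nat_lit 194), (nat_lit 2)⟩))
(.lf ⟨(nat_lit 0x461030811840c20461030811840c2), (nat_lit 20), (nat_lit 0), (nat_lit 0)⟩))
(.nd (.lf ⟨(nat_lit 0x461030811840c20461030811840c2), (nat_lit 20), (nat_lit 13), (nat_lit 1)⟩)
(.lf ⟨(nat_lit 13), (nat_lit 1), (nat_lit 0), (nat_lit 0)⟩)))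

/-- Context. -/
noncomputable def x52 : ℕ → ℕ × ℕ :=
  mkc d51 80 s51 x51 (nth [] (Cl.alts (nsCl 1 [[1, 1], [0, 1], [0]])) 0)

set_option maxRecDepth 100000 in
/-- Facts. -/
noncomputable def d53 : Tr :=
(.nd (.nd (.nd (.nd (.nd (.lf ⟨(nat_lit 585), (nat_lit 2), (nat_lit 0), (nat_lit 0)⟩)
(.lf ⟨(nat_lit 0x461030811840c20461030811840c2), (nat_lit 20), (nat_lit 0xb248), (nat_lit 3)⟩))
(.nd (.lf ⟨(nat_lit 457), (nat_lit 2), (nat_lit 583), (nat_lit 2)⟩)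
(.lf ⟨(nat_lit 139), (nat_lit 2), (nat_lit 706), (nat_lit 2)⟩)))
(.nd (.nd (.lf ⟨(nat_lit 717), (nat_lit 2), (nat_lit 843), (nat_lit 2)⟩)
(.lf ⟨(nat_lit 461), (nat_lit 2), (nat_lit 839), (nat_lit 2)⟩))
(.nd (.lf ⟨(nat_lit 12), (nat_lit 1), (nat_lit 13), (nat_lit 1)⟩)
(.lf ⟨(nat_lit 12), (nat_lit 1), (nat_lit 13), (nat_lit 1)⟩))))
(.nd (.nd (.nd (.lf ⟨(nat_lit 589), (nat_lit 2), (nat_lit 841), (nat_lit 2)⟩)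
(.lf ⟨(nat_lit 587), (nat_lit 2), (nat_lit 713), (nat_lit 2)⟩))
(.nd (.lf ⟨(nat_lit 391), (nat_lit 2), (nat_lit 454), (nat_lit 2)⟩)
(.lf ⟨(nat_lit 391), (nat_lit 2), (nat_lit 454), (nat_lit 2)⟩)))
(.nd (.nd (.lf ⟨(nat_lit 269), (nat_lit 2), (nat_lit 836), (nat_lit 2)⟩)
(.lf ⟨(nat_lit 331), (nat_lit 2), (nat_lit 709), (nat_lit 2)⟩))
(.nd (.lf ⟨(nat_lit 262), (nat_lit 2), (nat_lit 0x34b184), (nat_lit 4)⟩)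
(.lf ⟨(nat_lit 8), (nat_lit 1), (nat_lit 0xd2c9), (nat_lit 3)⟩)))))
(.nd (.nd (.nd (.nd (.lf ⟨(nat_lit 715), (nat_lit 2), (nat_lit 0), (nat_lit 0)⟩)
(.lf ⟨(nat_lit 8), (nat_lit 1), (nat_lit 0xd2c9), (nat_lit 3)⟩))
(.nd (.lf ⟨(nat_lit 139), (nat_lit 2), (nat_lit 706), (nat_lit 2)⟩)
(.lf ⟨(nat_lit 10), (nat_lit 1), (nat_lit 11), (nat_lit 1)⟩)))
(.nd (.nd (.lf ⟨(nat_lit 461), (nat_lit 2), (nat_lit 839), (nat_lit 2)⟩)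
(.lf ⟨(nat_lit 269), (nat_lit 2), (nat_lit 836), (nat_lit 2)⟩))
(.nd (.lf ⟨(nat_lit 265), (nat_lit 2), (nat_lit 580), (nat_lit 2)⟩)
(.lf ⟨(nat_lit 262), (nat_lit 2), (nat_lit 0x34b184), (nat_lit 4)⟩))))
(.nd (.nd (.nd (.lf ⟨(nat_lit 587), (nat_lit 2), (nat_lit 713), (nat_lit 2)⟩)
(.lf ⟨(nat_lit 717), (nat_lit 2), (nat_lit 843), (nat_lit 2)⟩))
(.nd (.lf ⟨(nat_lit 10), (nat_lit 1), (nat_lit 11), (nat_lit 1)⟩)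
(.lf ⟨(nat_lit 265), (nat_lit 2), (nat_lit 580), (nat_lit 2)⟩)))
(.nd (.nd (.lf ⟨(nat_lit 331), (nat_lit 2), (nat_lit 709), (nat_lit 2)⟩)
(.lf ⟨(nat_lit 457), (nat_lit 2), (nat_lit 583), (nat_lit 2)⟩))
(.lf ⟨(nat_lit 0x461030811840c20461030811840c2), (nat_lit 20), (nat_lit 13), (nat_lit 1)⟩)))))

/-- Context. -/
noncomputable def x53 : ℕ → ℕ × ℕ :=
  mkc d51 80 s51 x51 (nth [] (Cl.alts (nsCl 1 [[1, 1], [0, 1], [0]])) 1)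

set_option maxRecDepth 100000 in
/-- Facts. -/
noncomputable def d54 : Tr :=
(.nd (.nd (.nd (.nd (.nd (.lf ⟨(nat_lit 65), (nat_lit 2), (nat_lit 0), (nat_lit 0)⟩)
(.lf ⟨(nat_lit 269), (nat_lit 2), (nat_lit 836), (nat_lit 2)⟩))
(.lf ⟨(nat_lit 262), (nat_lit 2), (nat_lit 0x1130b184), (nat_lit 5)⟩))
(.nd (.nd (.lf ⟨(nat_lit 845), (nat_lit 2), (nat_lit 0), (nat_lit 0)⟩)
(.lf ⟨(nat_lit 8), (nat_lit 1), (nat_lit 0), (nat_lit 0)⟩))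
(.lf ⟨(nat_lit 8), (nat_lit 1), (nat_lit 0), (nat_lit 0)⟩)))
(.nd (.nd (.nd (.lf ⟨(nat_lit 72), (nat_lit 2), (nat_lit 0xc201), (nat_lit 3)⟩)
(.lf ⟨(nat_lit 10), (nat_lit 1), (nat_lit 11), (nat_lit 1)⟩))
(.lf ⟨(nat_lit 0x103081103081103081103081), (nat_lit 16), (nat_lit 13), (nat_lit 1)⟩))
(.nd (.nd (.lf ⟨(nat_lit 139), (nat_lit 2), (nat_lit 706), (nat_lit 2)⟩)
(.lf ⟨(nat_lit 262), (nat_lit 2), (nat_lit 0xb184), (nat_lit 3)⟩))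
(.lf ⟨(nat_lit 17), (nat_lit 1), (nat_lit 0), (nat_lit 0)⟩))))
(.nd (.nd (.nd (.nd (.lf ⟨(nat_lit 195), (nat_lit 2), (nat_lit 0), (nat_lit 0)⟩)
(.lf ⟨(nat_lit 139), (nat_lit 2), (nat_lit 706), (nat_lit 2)⟩))
(.lf ⟨(nat_lit 10), (nat_lit 1), (nat_lit 11), (nat_lit 1)⟩))
(.nd (.nd (.lf ⟨(nat_lit 269), (nat_lit 2), (nat_lit 836), (nat_lit 2)⟩)
(.lf ⟨(nat_lit 12), (nat_lit 1), (nat_lit 0), (nat_lit 0)⟩))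
(.lf ⟨(nat_lit 12), (nat_lit 1), (nat_lit 0), (nat_lit 0)⟩)))
(.nd (.nd (.nd (.lf ⟨(nat_lit 204), (nat_lit 2), (nat_lit 0x11303), (nat_lit 3)⟩)
(.lf ⟨(nat_lit 391), (nat_lit 2), (nat_lit 454), (nat_lit 2)⟩))
(.lf ⟨(nat_lit 0x103081103081103081103081), (nat_lit 16), (nat_lit 840), (nat_lit 2)⟩))
(.nd (.lf ⟨(nat_lit 391), (nat_lit 2), (nat_lit 454), (nat_lit 2)⟩)
(.lf ⟨(nat_lit 262), (nat_lit 2), (nat_lit 0xb184), (nat_lit 3)⟩)))))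

/-- Context. -/
noncomputable def x54 : ℕ → ℕ × ℕ :=
  mkc d49 110 s49 x49 (nth [] (Cl.alts (nsCl 2 [[0, 1, 3], [2, 1, 2], [0], [0, 1]])) 2)

set_option maxRecDepth 100000 in
/-- Facts. -/
noncomputable def d55 : Tr :=
(.nd (.nd (.nd (.nd (.nd (.lf ⟨(nat_lit 65), (nat_lit 2), (nat_lit 0), (nat_lit 0)⟩)
(.lf ⟨(nat_lit 12), (nat_lit 1), (nat_lit 0), (nat_lit 0)⟩))
(.nd (.lf ⟨(nat_lit 269), (nat_lit 2), (nat_lit 836), (nat_lit 2)⟩)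
(.lf ⟨(nat_lit 8), (nat_lit 1), (nat_lit 0), (nat_lit 0)⟩)))
(.nd (.nd (.lf ⟨(nat_lit 204), (nat_lit 2), (nat_lit 0x11303), (nat_lit 3)⟩)
(.lf ⟨(nat_lit 269), (nat_lit 2), (nat_lit 836), (nat_lit 2)⟩))
(.lf ⟨(nat_lit 10), (nat_lit 1), (nat_lit 11), (nat_lit 1)⟩)))
(.nd (.nd (.nd (.lf ⟨(nat_lit 780), (nat_lit 2), (nat_lit 0), (nat_lit 0)⟩)
(.lf ⟨(nat_lit 262), (nat_lit 2), (nat_lit 0xb184), (nat_lit 3)⟩))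
(.nd (.lf ⟨(nat_lit 391), (nat_lit 2), (nat_lit 454), (nat_lit 2)⟩)
(.lf ⟨(nat_lit 262), (nat_lit 2), (nat_lit 0xb184), (nat_lit 3)⟩)))
(.nd (.nd (.lf ⟨(nat_lit 76), (nat_lit 2), (nat_lit 769), (nat_lit 2)⟩)
(.lf ⟨(nat_lit 10), (nat_lit 1), (nat_lit 11), (nat_lit 1)⟩))
(.lf ⟨(nat_lit 0x103081103081103081103081), (nat_lit 16), (nat_lit 0xc348), (nat_lit 3)⟩))))
(.nd (.nd (.nd (.nd (.lf ⟨(nat_lit 195), (nat_lit 2), (nat_lit 0), (nat_lit 0)⟩)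
(.lf ⟨(nat_lit 17), (nat_lit 1), (nat_lit 0), (nat_lit 0)⟩))
(.nd (.lf ⟨(nat_lit 139), (nat_lit 2), (nat_lit 706), (nat_lit 2)⟩)
(.lf ⟨(nat_lit 12), (nat_lit 1), (nat_lit 0), (nat_lit 0)⟩)))
(.nd (.nd (.lf ⟨(nat_lit 845), (nat_lit 2), (nat_lit 0), (nat_lit 0)⟩)
(.lf ⟨(nat_lit 139), (nat_lit 2), (nat_lit 706), (nat_lit 2)⟩))
(.lf ⟨(nat_lit 0x103081103081103081103081), (nat_lit 16), (nat_lit 13), (nat_lit 1)⟩)))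
(.nd (.nd (.nd (.lf ⟨(nat_lit 72), (nat_lit 2), (nat_lit 0xc201), (nat_lit 3)⟩)
(.lf ⟨(nat_lit 8), (nat_lit 1), (nat_lit 0), (nat_lit 0)⟩))
(.lf ⟨(nat_lit 262), (nat_lit 2), (nat_lit 0x1130b184), (nat_lit 5)⟩))
(.nd (.nd (.lf ⟨(nat_lit 781), (nat_lit 2), (nat_lit 844), (nat_lit 2)⟩)
(.lf ⟨(nat_lit 391), (nat_lit 2), (nat_lit 454), (nat_lit 2)⟩))
(.lf ⟨(nat_lit 8), (nat_lit 1), (nat_lit 12), (nat_lit 1)⟩)))))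

/-- Context. -/
noncomputable def x55 : ℕ → ℕ × ℕ :=
  mkc d49 110 s49 x49 (nth [] (Cl.alts (nsCl 2 [[0, 1, 3], [2, 1, 2], [0], [0, 1]])) 3)

set_option maxRecDepth 100000 in
/-- Facts. -/
noncomputable def d56 : Tr :=
(.nd (.nd (.nd (.nd (.nd (.lf ⟨(nat_lit 65), (nat_lit 2), (nat_lit 0), (nat_lit 0)⟩)
(.lf ⟨(nat_lit 13), (nat_lit 1), (nat_lit 22), (nat_lit 1)⟩))
(.lf ⟨(nat_lit 0x4d6), (nat_lit 2), (nat_lit 0x593), (nat_lit 2)⟩))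
(.nd (.lf ⟨(nat_lit 0x4d3), (nat_lit 2), (nat_lit 0), (nat_lit 0)⟩)
(.lf ⟨(nat_lit 851), (nat_lit 2), (nat_lit 0x4cd), (nat_lit 2)⟩)))
(.nd (.nd (.nd (.lf ⟨(nat_lit 845), (nat_lit 2), (nat_lit 0), (nat_lit 0)⟩)
(.lf ⟨(nat_lit 22), (nat_lit 1), (nat_lit 0), (nat_lit 0)⟩))
(.lf ⟨(nat_lit 470), (nat_lit 2), (nat_lit 0x587), (nat_lit 2)⟩))
(.nd (.lf ⟨(nat_lit 83), (nat_lit 2), (nat_lit 0x164c1), (nat_lit 3)⟩)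
(.lf ⟨(nat_lit 0x2850c204a1430812850c204a143081), (nat_lit 20), (nat_lit 0x4c9), (nat_lit 2)⟩))))
(.nd (.nd (.nd (.nd (.lf ⟨(nat_lit 455), (nat_lit 2), (nat_lit 0), (nat_lit 0)⟩)
(.lf ⟨(nat_lit 131), (nat_lit 2), (nat_lit 0x160c2), (nat_lit 3)⟩))
(.lf ⟨(nat_lit 131), (nat_lit 2), (nat_lit 0xd0c2), (nat_lit 3)⟩))
(.nd (.lf ⟨(nat_lit 0x596), (nat_lit 2), (nat_lit 0), (nat_lit 0)⟩)
(.lf ⟨(nat_lit 0x2850c204a1430812850c204a143081), (nat_lit 20), (nat_lit 13), (nat_lit 1)⟩)))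
(.nd (.nd (.nd (.lf ⟨(nat_lit 73), (nat_lit 2), (nat_lit 0xd241), (nat_lit 3)⟩)
(.lf ⟨(nat_lit 131), (nat_lit 2), (nat_lit 194), (nat_lit 2)⟩))
(.lf ⟨(nat_lit 461), (nat_lit 2), (nat_lit 0x16347), (nat_lit 3)⟩))
(.nd (.lf ⟨(nat_lit 77), (nat_lit 2), (nat_lit 833), (nat_lit 2)⟩)
(.lf ⟨(nat_lit 9), (nat_lit 1), (nat_lit 0x4cd), (nat_lit 2)⟩)))))

/-- Context. -/
noncomputable def x56 : ℕ → ℕ × ℕ :=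
  mkc d9 105 s9 x9 (nth [] (Cl.alts (nsCl 2 [[0, 1, 3], [2, 1, 2], [0], [0, 1]])) 2)

set_option maxRecDepth 100000 in
/-- Facts. -/
noncomputable def d57 : Tr :=
(.nd (.nd (.nd (.nd (.nd (.lf ⟨(nat_lit 65), (nat_lit 2), (nat_lit 0), (nat_lit 0)⟩)
(.lf ⟨(nat_lit 9), (nat_lit 1), (nat_lit 0x593), (nat_lit 2)⟩))
(.lf ⟨(nat_lit 86), (nat_lit 2), (nat_lit 0x581), (nat_lit 2)⟩))
(.nd (.nd (.lf ⟨(nat_lit 0x4d3), (nat_lit 2), (nat_lit 0), (nat_lit 0)⟩)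
(.lf ⟨(nat_lit 131), (nat_lit 2), (nat_lit 194), (nat_lit 2)⟩))
(.lf ⟨(nat_lit 461), (nat_lit 2), (nat_lit 0x16347), (nat_lit 3)⟩)))
(.nd (.nd (.nd (.lf ⟨(nat_lit 845), (nat_lit 2), (nat_lit 0), (nat_lit 0)⟩)
(.lf ⟨(nat_lit 131), (nat_lit 2), (nat_lit 0x160c2), (nat_lit 3)⟩))
(.lf ⟨(nat_lit 470), (nat_lit 2), (nat_lit 0x587), (nat_lit 2)⟩))
(.nd (.lf ⟨(nat_lit 83), (nat_lit 2), (nat_lit 0x164c1), (nat_lit 3)⟩)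
(.lf ⟨(nat_lit 0x2850c204a1430812850c204a143081), (nat_lit 20), (nat_lit 13), (nat_lit 1)⟩))))
(.nd (.nd (.nd (.nd (.lf ⟨(nat_lit 455), (nat_lit 2), (nat_lit 0), (nat_lit 0)⟩)
(.lf ⟨(nat_lit 13), (nat_lit 1), (nat_lit 22), (nat_lit 1)⟩))
(.lf ⟨(nat_lit 131), (nat_lit 2), (nat_lit 0xd0c2), (nat_lit 3)⟩))
(.nd (.lf ⟨(nat_lit 0x596), (nat_lit 2), (nat_lit 0), (nat_lit 0)⟩)
(.lf ⟨(nat_lit 851), (nat_lit 2), (nat_lit 0x4cd), (nat_lit 2)⟩)))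
(.nd (.nd (.nd (.lf ⟨(nat_lit 73), (nat_lit 2), (nat_lit 0xd241), (nat_lit 3)⟩)
(.lf ⟨(nat_lit 22), (nat_lit 1), (nat_lit 0), (nat_lit 0)⟩))
(.lf ⟨(nat_lit 854), (nat_lit 2), (nat_lit 0x58d), (nat_lit 2)⟩))
(.nd (.lf ⟨(nat_lit 0x4d6), (nat_lit 2), (nat_lit 0x593), (nat_lit 2)⟩)
(.lf ⟨(nat_lit 0x2850c204a1430812850c204a143081), (nat_lit 20), (nat_lit 0x58d4c9), (nat_lit 4)⟩)))))

/-- Context. -/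
noncomputable def x57 : ℕ → ℕ × ℕ :=
  mkc d9 105 s9 x9 (nth [] (Cl.alts (nsCl 2 [[0, 1, 3], [2, 1, 2], [0], [0, 1]])) 3)

set_option maxRecDepth 100000 in
/-- Facts. -/
noncomputable def d58 : Tr :=
(.nd (.nd (.nd (.nd (.nd (.lf ⟨(nat_lit 65), (nat_lit 2), (nat_lit 0), (nat_lit 0)⟩)
(.lf ⟨(nat_lit 857), (nat_lit 2), (nat_lit 0x64d), (nat_lit 2)⟩))
(.nd (.lf ⟨(nat_lit 0x659), (nat_lit 2), (nat_lit 0), (nat_lit 0)⟩)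
(.lf ⟨(nat_lit 22), (nat_lit 1), (nat_lit 0), (nat_lit 0)⟩)))
(.nd (.nd (.lf ⟨(nat_lit 0x4d3), (nat_lit 2), (nat_lit 0), (nat_lit 0)⟩)
(.lf ⟨(nat_lit 0x1c11430870450c21c11430870450c2), (nat_lit 20), (nat_lit 9), (nat_lit 1)⟩))
(.lf ⟨(nat_lit 131), (nat_lit 2), (nat_lit 0xd0c2), (nat_lit 3)⟩)))
(.nd (.nd (.nd (.lf ⟨(nat_lit 845), (nat_lit 2), (nat_lit 0), (nat_lit 0)⟩)
(.lf ⟨(nat_lit 856), (nat_lit 2), (nat_lit 0x60d), (nat_lit 2)⟩))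
(.lf ⟨(nat_lit 0x4d6), (nat_lit 2), (nat_lit 0x593), (nat_lit 2)⟩))
(.nd (.nd (.lf ⟨(nat_lit 83), (nat_lit 2), (nat_lit 0x164c1), (nat_lit 3)⟩)
(.lf ⟨(nat_lit 13), (nat_lit 1), (nat_lit 22), (nat_lit 1)⟩))
(.lf ⟨(nat_lit 461), (nat_lit 2), (nat_lit 0x16347), (nat_lit 3)⟩))))
(.nd (.nd (.nd (.nd (.lf ⟨(nat_lit 455), (nat_lit 2), (nat_lit 0), (nat_lit 0)⟩)
(.lf ⟨(nat_lit 88), (nat_lit 2), (nat_lit 0x601), (nat_lit 2)⟩))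
(.nd (.lf ⟨(nat_lit 77), (nat_lit 2), (nat_lit 833), (nat_lit 2)⟩)
(.lf ⟨(nat_lit 131), (nat_lit 2), (nat_lit 194), (nat_lit 2)⟩)))
(.nd (.nd (.lf ⟨(nat_lit 0x596), (nat_lit 2), (nat_lit 0), (nat_lit 0)⟩)
(.lf ⟨(nat_lit 9), (nat_lit 1), (nat_lit 0x6584cd), (nat_lit 4)⟩))
(.lf ⟨(nat_lit 470), (nat_lit 2), (nat_lit 0x587), (nat_lit 2)⟩)))
(.nd (.nd (.nd (.lf ⟨(nat_lit 73), (nat_lit 2), (nat_lit 0xd241), (nat_lit 3)⟩)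
(.lf ⟨(nat_lit 0x1c11430870450c21c11430870450c2), (nat_lit 20), (nat_lit 0x6584cd), (nat_lit 4)⟩))
(.lf ⟨(nat_lit 89), (nat_lit 2), (nat_lit 0x641), (nat_lit 2)⟩))
(.nd (.nd (.lf ⟨(nat_lit 0x618), (nat_lit 2), (nat_lit 0), (nat_lit 0)⟩)
(.lf ⟨(nat_lit 131), (nat_lit 2), (nat_lit 0x160c2), (nat_lit 3)⟩))
(.lf ⟨(nat_lit 851), (nat_lit 2), (nat_lit 0x4cd), (nat_lit 2)⟩)))))

/-- Context. -/
noncomputable def x58 : ℕ → ℕ × ℕ :=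
  mkc d3 154 s3 x3 (nth [] (Cl.alts (nsCl 2 [[2, 1, 2], [0, 1, 3], [0], [0, 1]])) 2)

set_option maxRecDepth 100000 in
/-- Facts. -/
noncomputable def d59 : Tr :=
(.nd (.nd (.nd (.nd (.nd (.lf ⟨(nat_lit 65), (nat_lit 2), (nat_lit 0), (nat_lit 0)⟩)
(.lf ⟨(nat_lit 0x519), (nat_lit 2), (nat_lit 0x654), (nat_lit 2)⟩))
(.nd (.lf ⟨(nat_lit 84), (nat_lit 2), (nat_lit 0x501), (nat_lit 2)⟩)
(.lf ⟨(nat_lit 0x598), (nat_lit 2), (nat_lit 0x616), (nat_lit 2)⟩)))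
(.nd (.nd (.lf ⟨(nat_lit 0x514), (nat_lit 2), (nat_lit 0), (nat_lit 0)⟩)
(.lf ⟨(nat_lit 0x4d9), (nat_lit 2), (nat_lit 0x653), (nat_lit 2)⟩))
(.nd (.lf ⟨(nat_lit 89), (nat_lit 2), (nat_lit 0x641), (nat_lit 2)⟩)
(.lf ⟨(nat_lit 9), (nat_lit 1), (nat_lit 0x658594), (nat_lit 4)⟩))))
(.nd (.nd (.nd (.lf ⟨(nat_lit 73), (nat_lit 2), (nat_lit 0xd241), (nat_lit 3)⟩)
(.lf ⟨(nat_lit 857), (nat_lit 2), (nat_lit 0x64d), (nat_lit 2)⟩))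
(.nd (.lf ⟨(nat_lit 0x518), (nat_lit 2), (nat_lit 0x614), (nat_lit 2)⟩)
(.lf ⟨(nat_lit 0x1c11430870450c21c11430870450c2), (nat_lit 20), (nat_lit 0x6584cd), (nat_lit 4)⟩)))
(.nd (.nd (.lf ⟨(nat_lit 0x618), (nat_lit 2), (nat_lit 0), (nat_lit 0)⟩)
(.lf ⟨(nat_lit 88), (nat_lit 2), (nat_lit 0x601), (nat_lit 2)⟩))
(.nd (.lf ⟨(nat_lit 852), (nat_lit 2), (nat_lit 0x50d), (nat_lit 2)⟩)
(.lf ⟨(nat_lit 131), (nat_lit 2), (nat_lit 194), (nat_lit 2)⟩)))))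
(.nd (.nd (.nd (.nd (.lf ⟨(nat_lit 845), (nat_lit 2), (nat_lit 0), (nat_lit 0)⟩)
(.lf ⟨(nat_lit 0x599), (nat_lit 2), (nat_lit 0x656), (nat_lit 2)⟩))
(.nd (.lf ⟨(nat_lit 0x4d6), (nat_lit 2), (nat_lit 0x593), (nat_lit 2)⟩)
(.lf ⟨(nat_lit 856), (nat_lit 2), (nat_lit 0x60d), (nat_lit 2)⟩)))
(.nd (.nd (.lf ⟨(nat_lit 0x596), (nat_lit 2), (nat_lit 0), (nat_lit 0)⟩)
(.lf ⟨(nat_lit 0x4d4), (nat_lit 2), (nat_lit 0x513), (nat_lit 2)⟩))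
(.nd (.lf ⟨(nat_lit 131), (nat_lit 2), (nat_lit 0xd0c2), (nat_lit 3)⟩)
(.lf ⟨(nat_lit 13), (nat_lit 1), (nat_lit 0), (nat_lit 0)⟩))))
(.nd (.nd (.nd (.lf ⟨(nat_lit 0x4d3), (nat_lit 2), (nat_lit 0), (nat_lit 0)⟩)
(.lf ⟨(nat_lit 0x516), (nat_lit 2), (nat_lit 0x594), (nat_lit 2)⟩))
(.nd (.lf ⟨(nat_lit 86), (nat_lit 2), (nat_lit 0x581), (nat_lit 2)⟩)
(.lf ⟨(nat_lit 0x1c11430870450c21c11430870450c2), (nat_lit 20), (nat_lit 0x16513349), (nat_lit 5)⟩)))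
(.nd (.nd (.lf ⟨(nat_lit 0x659), (nat_lit 2), (nat_lit 0), (nat_lit 0)⟩)
(.lf ⟨(nat_lit 0x4d8), (nat_lit 2), (nat_lit 0x613), (nat_lit 2)⟩))
(.nd (.lf ⟨(nat_lit 854), (nat_lit 2), (nat_lit 0x58d), (nat_lit 2)⟩)
(.lf ⟨(nat_lit 131), (nat_lit 2), (nat_lit 194), (nat_lit 2)⟩))))))

/-- Context. -/
noncomputable def x59 : ℕ → ℕ × ℕ :=
  mkc d3 154 s3 x3 (nth [] (Cl.alts (nsCl 2 [[2, 1, 2], [0, 1, 3], [0], [0, 1]])) 3)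

end Pool.Agent.Lib.MP_3b0e0c_al.D.H3
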