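import Pool.Agent.Lib.MP_3b0e0c_al.S.KB

/-! A checker for derivations with case distinctions. -/

namespace Pool.Agent.Lib.MP_3b0e0c_al.D

open S

variable {G : Type*} [Monoid G]

/-- A clause: hypotheses and alternative lists of conclusions. -/
structure Cl where
  hy : List (List ℕ × List ℕ)
  alts : List (List (List ℕ × List ℕ))

/-- One of the alternatives holds. -/
def Goal (g : ℕ → G) (alts : List (List (List ℕ × List ℕ))) : Prop :=
  ∃ a ∈ alts, ∀ e ∈ a, Eqn g e

variable (G) in
/-- The clause holds in `G`. -/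
def ValidC (c : Cl) : Prop := ∀ g : ℕ → G, (∀ e ∈ c.hy, Eqn g e) → Goal g c.alts

/-- All equations of a context hold. -/
def Ok (g : ℕ → G) (x : ℕ → ℕ × ℕ) : Prop := ∀ k, ev g (x k).1 = ev g (x k).2

noncomputable def ck1 (db : Tr) (x : ℕ → ℕ × ℕ) (ths : List Th) (i : ℕ) (J : Js) : Bool :=
  Fc.rec (motive := fun _ => Bool) (fun l kl r kr =>
    Nat.blt l (Nat.pow 64 kl) && Nat.blt r (Nat.pow 64 kr) &&
    Js.rec (motive := fun _ => Bool)
      (fun k => Prod.rec (motive := fun _ => Bool) (fun a b => Nat.beq a l && Nat.beq b r) (x k))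
      (fun n code => run db i r n code l)
      (fun t ci σ code => allL (fun p => Nat.blt p.1 (Nat.pow 64 p.2)) σ &&
        hyps db i σ (nth ⟨[], []⟩ ths t).hy code &&
        Nat.beq (sb σ (nth ([], []) (nth ⟨[], []⟩ ths t).co ci).1) l &&
        Nat.beq (sb σ (nth ([], []) (nth ⟨[], []⟩ ths t).co ci).2) r) J) (db.get i)

lemma ck1_ok {g : ℕ → G} {db : Tr} {x : ℕ → ℕ × ℕ} {ths : List Th} {i : ℕ} {J : Js}
    (hx : Ok g x) (ht : ∀ t ∈ ths, Valid G t) (H : ∀ j < i, (db.get j).ok g)
    (h : ck1 db x ths i J = true) : (db.get i).ok g := by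
  unfold ck1 at h
  generalize db.get i = f at h
  obtain ⟨l, kl, r, kr⟩ := f
  simp only [Bool.and_eq_true] at h
  refine ⟨?_, blt_lt h.1.1, blt_lt h.1.2⟩
  have h := h.2
  cases J with
  | h k =>
    have := hx k
    dsimp only at h
    generalize x k = p at h this
    obtain ⟨a, b⟩ := p
    simp only [Bool.and_eq_true] at h
    rwa [Nat.eq_of_beq_eq_true h.1, Nat.eq_of_beq_eq_true h.2] at this
  | c n code => exact run_ok H n code l h
  | i t ci σ code =>
    simp only [Bool.and_eq_true] at h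
    obtain ⟨⟨⟨h1, h2⟩, h3⟩, h4⟩ := h
    have hv : Valid G (nth ⟨[], []⟩ ths t) := by
      rcases nth_mem ⟨[], []⟩ ths t with e | e
      · rw [e]; intro _ _ _ h; simp at h
      · exact ht _ e
    have := hv (fun c => ev g (nth (0, 0) σ c).1) fun e he => by
      have := hyps_ok H _ _ h2 e he
      rwa [sb_ok g h1, sb_ok g h1] at this
    show ev g l = ev g r
    rw [← Nat.eq_of_beq_eq_true h3, ← Nat.eq_of_beq_eq_true h4, sb_ok g h1, sb_ok g h1]
    rcases nth_mem ([], []) (nth ⟨[], []⟩ ths t).co ci with e | e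
    · rw [e]
    · exact this _ e

/-- Check the facts `i, i+1, ...` and end at `m`. -/
noncomputable def ck (db : Tr) (x : ℕ → ℕ × ℕ) (ths : List Th) (m : ℕ) (Jl : List Js) :
    ℕ → Bool :=
  List.rec (motive := fun _ => ℕ → Bool) (fun i => Nat.beq i m)
    (fun J _ ih i => cond (ck1 db x ths i J) (frc (Nat.succ i) ih) false) Jl

lemma ck_ok {g : ℕ → G} {db : Tr} {x : ℕ → ℕ × ℕ} {ths : List Th} {m : ℕ}
    (ht : ∀ t ∈ ths, Valid G t) (hx : Ok g x) {Jl : List Js} :
    ∀ {i}, ck db x ths m Jl i = true → (∀ j < i, (db.get j).ok g) → ∀ j < m, (db.get j).ok g := by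
  induction Jl with
  | nil => intro i h H; rwa [← Nat.eq_of_beq_eq_true h]
  | cons J Jl ih =>
    intro i h H
    change cond _ _ _ = true at h
    obtain ⟨h1, h2⟩ := Bool.and_eq_true_iff.1 (by rwa [Bool.cond_false_right] at h)
    rw [frc_eq] at h2
    refine ih h2 fun j hj => ?_
    rcases Nat.lt_succ_iff_lt_or_eq.1 hj with e | rfl
    · exact H j e
    · exact ck1_ok hx ht H h1

lemma all0 {P : ℕ → Prop} : ∀ i < 0, P i := fun _ h => absurd h (Nat.not_lt_zero _)

lemma allS {P : ℕ → Prop} (n : ℕ) (h : ∀ i < n, P i) (k : P n) : ∀ i < n + 1, P i := by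
  intro i hi
  rcases Nat.lt_succ_iff_lt_or_eq.1 hi with e | rfl
  exacts [h i e, k]

lemma nth_lt {β : Type} (d : β) (l : List β) : ∀ k < l.length, nth d l k ∈ l := by
  induction l with
  | nil => simp
  | cons a l ih =>
    intro k hk
    cases k with
    | zero => exact List.mem_cons_self
    | succ k => exact List.mem_cons_of_mem _ (ih k (by simpa using hk))

lemma nth_of_mem {β : Type} (d : β) {l : List β} {a : β} (h : a ∈ l) :
    ∃ i < l.length, nth d l i = a := by
  induction l with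
  | nil => simp at h
  | cons b l ih =>
    rcases List.mem_cons.1 h with rfl | h
    · exact ⟨0, by simp, rfl⟩
    · obtain ⟨i, h1, h2⟩ := ih h
      exact ⟨i + 1, by simpa using h1, h2⟩

/-- The root context. -/
noncomputable def rt (hy : List (List ℕ × List ℕ)) (k : ℕ) : ℕ × ℕ :=
  (enc (nth ([], []) hy k).1, enc (nth ([], []) hy k).2)

lemma rt_ok {g : ℕ → G} {hy : List (List ℕ × List ℕ)}
    (h : allL (fun e => allL (fun c => Nat.blt c 63) e.1 && allL (fun c => Nat.blt c 63) e.2) hy
      = true) (hh : ∀ e ∈ hy, Eqn g e) : Ok g (rt hy) := by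
  intro k
  rcases nth_mem ([], []) hy k with e | e
  · rw [rt, e]
  · have := Bool.and_eq_true_iff.1 (allL_ok h _ e)
    exact (enc_ok g this.1).trans ((hh _ e).trans (enc_ok g this.2).symm)

/-- The context of a case: its equations, the facts of the parent, the context of the parent. -/
noncomputable def mkc (db : Tr) (m : ℕ) (σ : List (ℕ × ℕ)) (x : ℕ → ℕ × ℕ)
    (a : List (List ℕ × List ℕ)) (k : ℕ) : ℕ × ℕ :=
  cond (Nat.blt k 4096) (sb σ (nth ([], []) a k).1, sb σ (nth ([], []) a k).2)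
    (cond (Nat.blt k (Nat.add 4096 m)) ((db.get (Nat.sub k 4096)).l, (db.get (Nat.sub k 4096)).r)
      (x (Nat.sub k 8192)))

lemma close_ok {g : ℕ → G} {db : Tr} {m : ℕ} (H : ∀ j < m, (db.get j).ok g)
    {alts : List (List (List ℕ × List ℕ))} (k : ℕ) (f : List ℕ)
    (h : (Nat.blt k alts.length && (Nat.beq (nth [] alts k).length f.length &&
      allL (fun p => Nat.blt p.2 m && isE (db.get p.2) p.1) ((nth [] alts k).zip f))) = true) :
    Goal g alts := by
  rw [Bool.and_eq_true] at h
  exact ⟨_, nth_lt [] alts k (blt_lt h.1), fin_ok H _ _ h.2⟩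

lemma br_ok {g : ℕ → G} {db : Tr} {m : ℕ} {x : ℕ → ℕ × ℕ} {P : Prop} (hx : Ok g x)
    (H : ∀ j < m, (db.get j).ok g) {c : Cl} (hc : ValidC G c) (σ : List (ℕ × ℕ)) (code n : ℕ)
    (h : (allL (fun p => Nat.blt p.1 (Nat.pow 64 p.2)) σ && hyps db m σ c.hy code &&
      Nat.beq c.alts.length n) = true)
    (kids : ∀ i < n, Ok g (mkc db m σ x (nth [] c.alts i)) → P) : P := by
  simp only [Bool.and_eq_true] at h
  obtain ⟨⟨h1, h2⟩, h3⟩ := h
  obtain ⟨a, ha, hb⟩ := hc (fun c => ev g (nth (0, 0) σ c).1) fun e he => by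
    have := hyps_ok H _ _ h2 e he
    rwa [sb_ok g h1, sb_ok g h1] at this
  obtain ⟨i, hi, rfl⟩ := nth_of_mem [] ha
  refine kids i (Nat.eq_of_beq_eq_true h3 ▸ hi) fun k => ?_
  unfold mkc
  cases h5 : Nat.blt k 4096 with
  | true =>
    simp only [cond_true]
    rw [sb_ok g h1, sb_ok g h1]
    rcases nth_mem ([], []) (nth [] c.alts i) k with e | e
    · rw [e]
    · exact hb _ e
  | false =>
    simp only [cond_false]
    cases h4 : Nat.blt k (Nat.add 4096 m) with
    | true =>
      have h6 : k < 4096 + m := blt_lt h4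
      have h7 : ¬ k < 4096 := fun h => by rw [← Nat.blt_eq, h5] at h; cases h
      exact (H (k - 4096) (by omega)).1
    | false => exact hx _

/-- The products of subsets of the letters `r + 1, ..., 2`. -/
def subs : ℕ → List (List ℕ)
  | 0 => [[]]
  | r + 1 => subs r ++ (subs r).map fun w => (r + 2) :: w

/-- The letter `a` normalizes the group generated by `2, ..., i + 1` and squares into it. -/
noncomputable def lvl (a i : ℕ) (M : List ℕ) : List (List ℕ × List ℕ) :=
  ([a, a], nth [] (subs i) (nth 0 M 0)) ::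
    (List.range i).map fun j => ([j + 2, a], a :: nth [] (subs i) (nth 0 M (j + 1)))

/-- The case distinction for a dihedral section. -/
noncomputable def nsCl (r : ℕ) (M : List (List ℕ)) : Cl :=
  ⟨lvl 0 r (nth [] M 0) ++ lvl 1 r (nth [] M 1) ++
    (List.range r).flatMap fun i => lvl (i + 2) i (nth [] M (i + 2)),
    (subs r).map fun w => [([0, 1, 0, 1, 0, 1, 0, 1], w)]⟩

end Pool.Agent.Lib.MP_3b0e0c_al.D
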