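import Pool.Agent.Lib.MP_3b0e0c_al.D.SDC0
import Pool.Agent.Lib.MP_3b0e0c_al.D.SDC1
import Pool.Agent.Lib.MP_3b0e0c_al.D.SDC2
import Pool.Agent.Lib.MP_3b0e0c_al.D.SDC3
import Pool.Agent.Lib.MP_3b0e0c_al.D.SDC4

namespace Pool.Agent.Lib.MP_3b0e0c_al.D.SD

open S

variable {G : Type*} [Group G] {g : ℕ → G}

variable (G) in
/-- What is used. -/
def Env : Prop := (∀ t ∈ ths, Valid G t) ∧ NS G ∧ ValidC G H1.cl ∧ ValidC G H3.cl

theorem t32 (E : Env G) (hx : Ok g x32) : Goal g alts :=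
  close_ok (ck_ok E.1 hx c32_0 all0) 0
    [34] (by decide +kernel)

theorem t31 (E : Env G) (hx : Ok g x31) : Goal g alts :=
  close_ok (ck_ok E.1 hx c31_0 all0) 0
    [111] (by decide +kernel)

theorem t30 (E : Env G) (hx : Ok g x30) : Goal g alts :=
  close_ok (ck_ok E.1 hx c30_2 (ck_ok E.1 hx c30_1 (ck_ok E.1 hx c30_0 all0))) 0
    [658] (by decide +kernel)

theorem t29 (E : Env G) (hx : Ok g x29) : Goal g alts :=
  close_ok (ck_ok E.1 hx c29_0 all0) 0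
    [42] (by decide +kernel)

theorem t28 (E : Env G) (hx : Ok g x28) : Goal g alts :=
  close_ok (ck_ok E.1 hx c28_0 all0) 0
    [45] (by decide +kernel)

theorem t27 (E : Env G) (hx : Ok g x27) : Goal g alts :=
  close_ok (ck_ok E.1 hx c27_0 all0) 0
    [48] (by decide +kernel)

theorem t26 (E : Env G) (hx : Ok g x26) : Goal g alts :=
  close_ok (ck_ok E.1 hx c26_0 all0) 0
    [144] (by decide +kernel)

theorem t25 (E : Env G) (hx : Ok g x25) : Goal g alts :=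
  close_ok (ck_ok E.1 hx c25_0 all0) 0
    [118] (by decide +kernel)

theorem t24 (E : Env G) (hx : Ok g x24) : Goal g alts :=
  br_ok hx (ck_ok E.1 hx c24_3 (ck_ok E.1 hx c24_2 (ck_ok E.1 hx c24_1 (ck_ok E.1 hx c24_0 all0)))) (c := H3.cl) E.2.2.2 s24 (nat_lit 0xdc0c90cf0bc0c70b90b30b70b20db0da05804a04b049) 5 (by decide +kernel)
    (allS 4 (allS 3 (allS 2 (allS 1 (allS 0 all0 (t25 E)) (t26 E)) (t27 E)) (t28 E)) (t29 E))

theorem t23 (E : Env G) (hx : Ok g x23) : Goal g alts :=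
  close_ok (ck_ok E.1 hx c23_0 all0) 0
    [37] (by decide +kernel)

theorem t22 (E : Env G) (hx : Ok g x22) : Goal g alts :=
  br_ok hx (ck_ok E.1 hx c22_3 (ck_ok E.1 hx c22_2 (ck_ok E.1 hx c22_1 (ck_ok E.1 hx c22_0 all0)))) (c := H3.cl) E.2.2.2 s22 (nat_lit 0x14414714611c10713b11b10810c14314506005004f04e) 5 (by decide +kernel)
    (allS 4 (allS 3 (allS 2 (allS 1 (allS 0 all0 (t23 E)) (t24 E)) (t30 E)) (t31 E)) (t32 E))

theorem t21 (E : Env G) (hx : Ok g x21) : Goal g alts :=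
  close_ok (ck_ok E.1 hx c21_0 all0) 0
    [38] (by decide +kernel)

theorem t20 (E : Env G) (hx : Ok g x20) : Goal g alts :=
  close_ok (ck_ok E.1 hx c20_0 all0) 0
    [22] (by decide +kernel)

theorem t19 (E : Env G) (hx : Ok g x19) : Goal g alts :=
  close_ok (ck_ok E.1 hx c19_0 all0) 0
    [23] (by decide +kernel)

theorem t18 (E : Env G) (hx : Ok g x18) : Goal g alts :=
  close_ok (ck_ok E.1 hx c18_0 all0) 0
    [27] (by decide +kernel)

theorem t17 (E : Env G) (hx : Ok g x17) : Goal g alts :=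
  close_ok (ck_ok E.1 hx c17_0 all0) 0
    [31] (by decide +kernel)

theorem t16 (E : Env G) (hx : Ok g x16) : Goal g alts :=
  close_ok (ck_ok E.1 hx c16_0 all0) 0
    [18] (by decide +kernel)

theorem t15 (E : Env G) (hx : Ok g x15) : Goal g alts :=
  br_ok hx (ck_ok E.1 hx c15_0 all0) (c := H3.cl) E.2.2.2 s15 (nat_lit 0x6505705d05205505104f05004e06406302c024025023) 5 (by decide +kernel)
    (allS 4 (allS 3 (allS 2 (allS 1 (allS 0 all0 (t16 E)) (t17 E)) (t18 E)) (t19 E)) (t20 E))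

theorem t14 (E : Env G) (hx : Ok g x14) : Goal g alts :=
  close_ok (ck_ok E.1 hx c14_0 all0) 0
    [102] (by decide +kernel)

theorem t13 (E : Env G) (hx : Ok g x13) : Goal g alts :=
  close_ok (ck_ok E.1 hx c13_0 all0) 0
    [61] (by decide +kernel)

theorem t12 (E : Env G) (hx : Ok g x12) : Goal g alts :=
  close_ok (ck_ok E.1 hx c12_0 all0) 0
    [52] (by decide +kernel)

theorem t11 (E : Env G) (hx : Ok g x11) : Goal g alts :=
  close_ok (ck_ok E.1 hx c11_0 all0) 0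
    [65] (by decide +kernel)

theorem t10 (E : Env G) (hx : Ok g x10) : Goal g alts :=
  close_ok (ck_ok E.1 hx c10_0 all0) 0
    [86] (by decide +kernel)

theorem t9 (E : Env G) (hx : Ok g x9) : Goal g alts :=
  br_ok hx (ck_ok E.1 hx c9_1 (ck_ok E.1 hx c9_0 all0)) (c := H3.cl) E.2.2.2 s9 (nat_lit 0x7006506805e06405c05a05b05906f06e02e02902a028) 5 (by decide +kernel)
    (allS 4 (allS 3 (allS 2 (allS 1 (allS 0 all0 (t10 E)) (t11 E)) (t12 E)) (t13 E)) (t14 E))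

theorem t8 (E : Env G) (hx : Ok g x8) : Goal g alts :=
  close_ok (ck_ok E.1 hx c8_0 all0) 0
    [60] (by decide +kernel)

theorem t7 (E : Env G) (hx : Ok g x7) : Goal g alts :=
  close_ok (ck_ok E.1 hx c7_0 all0) 0
    [25] (by decide +kernel)

theorem t6 (E : Env G) (hx : Ok g x6) : Goal g alts :=
  close_ok (ck_ok E.1 hx c6_0 all0) 0
    [25] (by decide +kernel)

theorem t5 (E : Env G) (hx : Ok g x5) : Goal g alts :=
  br_ok hx (ck_ok E.1 hx c5_1 (ck_ok E.1 hx c5_0 all0)) (c := (nsCl 1 [[0, 1], [1, 1], [0]])) (ns_valid E.2.1 _ _) s5 (nat_lit 0x11f122121120029) 2 (by decide +kernel)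
    (allS 1 (allS 0 all0 (t6 E)) (t7 E))

theorem t4 (E : Env G) (hx : Ok g x4) : Goal g alts :=
  close_ok (ck_ok E.1 hx c4_0 all0) 0
    [26] (by decide +kernel)

theorem t3 (E : Env G) (hx : Ok g x3) : Goal g alts :=
  br_ok hx (ck_ok E.1 hx c3_3 (ck_ok E.1 hx c3_2 (ck_ok E.1 hx c3_1 (ck_ok E.1 hx c3_0 all0)))) (c := H3.cl) E.2.2.2 s3 (nat_lit 0x12712a1291030f31201020f50f9126128053043042041) 5 (by decide +kernel)
    (allS 4 (allS 3 (allS 2 (allS 1 (allS 0 all0 (t4 E)) (t5 E)) (t8 E)) (t9 E)) (t15 E))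

theorem t2 (E : Env G) (hx : Ok g x2) : Goal g alts :=
  close_ok (ck_ok E.1 hx c2_0 all0) 0
    [38] (by decide +kernel)

theorem t1 (E : Env G) (hx : Ok g x1) : Goal g alts :=
  close_ok (ck_ok E.1 hx c1_0 all0) 0
    [26] (by decide +kernel)

theorem t0 (E : Env G) (hx : Ok g x0) : Goal g alts :=
  br_ok hx (ck_ok E.1 hx c0_5 (ck_ok E.1 hx c0_4 (ck_ok E.1 hx c0_3 (ck_ok E.1 hx c0_2 (ck_ok E.1 hx c0_1 (ck_ok E.1 hx c0_0 all0)))))) (c := H1.cl) E.2.2.1 s0 (nat_lit 0x4bb40746842137b4664053863aa4ba4b91060b40b30b2) 5 (by decide +kernel)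
    (allS 4 (allS 3 (allS 2 (allS 1 (allS 0 all0 (t1 E)) (t2 E)) (t3 E)) (t21 E)) (t22 E))

theorem valid (E : Env G) : ValidC G cl :=
  ext_ok (ds := ds) 7 (fun _ hh => t0 E (rt_ok (by decide +kernel) hh)) (by decide +kernel)

end Pool.Agent.Lib.MP_3b0e0c_al.D.SD
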