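import Pool.Agent.Lib.MP_3b0e0c_al.D.TTC0

namespace Pool.Agent.Lib.MP_3b0e0c_al.D.TT

open S

variable {G : Type*} [Group G] {g : ℕ → G}

variable (G) in
/-- What is used. -/
def Env : Prop := (∀ t ∈ ths, Valid G t) ∧ NS G

theorem t30 (E : Env G) (hx : Ok g x30) : Goal g alts :=
  close_ok (ck_ok E.1 hx c30_0 all0) 0
    [53] (by decide +kernel)

theorem t29 (E : Env G) (hx : Ok g x29) : Goal g alts :=
  close_ok (ck_ok E.1 hx c29_0 all0) 0
    [57] (by decide +kernel)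

theorem t28 (E : Env G) (hx : Ok g x28) : Goal g alts :=
  close_ok (ck_ok E.1 hx c28_0 all0) 0
    [50] (by decide +kernel)

theorem t27 (E : Env G) (hx : Ok g x27) : Goal g alts :=
  close_ok (ck_ok E.1 hx c27_0 all0) 0
    [55] (by decide +kernel)

theorem t26 (E : Env G) (hx : Ok g x26) : Goal g alts :=
  close_ok (ck_ok E.1 hx c26_0 all0) 0
    [41] (by decide +kernel)

theorem t25 (E : Env G) (hx : Ok g x25) : Goal g alts :=
  close_ok (ck_ok E.1 hx c25_0 all0) 0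
    [26] (by decide +kernel)

theorem t24 (E : Env G) (hx : Ok g x24) : Goal g alts :=
  br_ok hx (ck_ok E.1 hx c24_0 all0) (c := (nsCl 1 [[0, 1], [1, 1], [0]])) (ns_valid E.2 _ _) s24 (nat_lit 0x24034033032012) 2 (by decide +kernel)
    (allS 1 (allS 0 all0 (t25 E)) (t26 E))

theorem t23 (E : Env G) (hx : Ok g x23) : Goal g alts :=
  close_ok (ck_ok E.1 hx c23_0 all0) 0
    [41] (by decide +kernel)

theorem t22 (E : Env G) (hx : Ok g x22) : Goal g alts :=
  close_ok (ck_ok E.1 hx c22_0 all0) 0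
    [26] (by decide +kernel)

theorem t21 (E : Env G) (hx : Ok g x21) : Goal g alts :=
  br_ok hx (ck_ok E.1 hx c21_0 all0) (c := (nsCl 1 [[1, 1], [0, 1], [0]])) (ns_valid E.2 _ _) s21 (nat_lit 0x26038011037036) 2 (by decide +kernel)
    (allS 1 (allS 0 all0 (t22 E)) (t23 E))

theorem t20 (E : Env G) (hx : Ok g x20) : Goal g alts :=
  close_ok (ck_ok E.1 hx c20_0 all0) 0
    [54] (by decide +kernel)

theorem t19 (E : Env G) (hx : Ok g x19) : Goal g alts :=
  close_ok (ck_ok E.1 hx c19_0 all0) 0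
    [57] (by decide +kernel)

theorem t18 (E : Env G) (hx : Ok g x18) : Goal g alts :=
  close_ok (ck_ok E.1 hx c18_0 all0) 0
    [51] (by decide +kernel)

theorem t17 (E : Env G) (hx : Ok g x17) : Goal g alts :=
  close_ok (ck_ok E.1 hx c17_0 all0) 0
    [55] (by decide +kernel)

theorem t16 (E : Env G) (hx : Ok g x16) : Goal g alts :=
  close_ok (ck_ok E.1 hx c16_0 all0) 0
    [40] (by decide +kernel)

theorem t15 (E : Env G) (hx : Ok g x15) : Goal g alts :=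
  close_ok (ck_ok E.1 hx c15_0 all0) 0
    [26] (by decide +kernel)

theorem t14 (E : Env G) (hx : Ok g x14) : Goal g alts :=
  br_ok hx (ck_ok E.1 hx c14_0 all0) (c := (nsCl 1 [[1, 1], [0, 1], [0]])) (ns_valid E.2 _ _) s14 (nat_lit 0x2203001002f02e) 2 (by decide +kernel)
    (allS 1 (allS 0 all0 (t15 E)) (t16 E))

theorem t13 (E : Env G) (hx : Ok g x13) : Goal g alts :=
  close_ok (ck_ok E.1 hx c13_0 all0) 0
    [40] (by decide +kernel)

theorem t12 (E : Env G) (hx : Ok g x12) : Goal g alts :=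
  close_ok (ck_ok E.1 hx c12_0 all0) 0
    [26] (by decide +kernel)

theorem t11 (E : Env G) (hx : Ok g x11) : Goal g alts :=
  br_ok hx (ck_ok E.1 hx c11_0 all0) (c := (nsCl 1 [[0, 1], [1, 1], [0]])) (ns_valid E.2 _ _) s11 (nat_lit 0x1f02f02e02d00f) 2 (by decide +kernel)
    (allS 1 (allS 0 all0 (t12 E)) (t13 E))

theorem t10 (E : Env G) (hx : Ok g x10) : Goal g alts :=
  close_ok (ck_ok E.1 hx c10_0 all0) 0
    [48] (by decide +kernel)

theorem t9 (E : Env G) (hx : Ok g x9) : Goal g alts :=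
  close_ok (ck_ok E.1 hx c9_0 all0) 0
    [45] (by decide +kernel)

theorem t8 (E : Env G) (hx : Ok g x8) : Goal g alts :=
  close_ok (ck_ok E.1 hx c8_0 all0) 0
    [42] (by decide +kernel)

theorem t7 (E : Env G) (hx : Ok g x7) : Goal g alts :=
  close_ok (ck_ok E.1 hx c7_0 all0) 0
    [24] (by decide +kernel)

theorem t6 (E : Env G) (hx : Ok g x6) : Goal g alts :=
  br_ok hx (ck_ok E.1 hx c6_0 all0) (c := (nsCl 1 [[1, 1], [0, 1], [0]])) (ns_valid E.2 _ _) s6 (nat_lit 0x1b02800d027026) 2 (by decide +kernel)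
    (allS 1 (allS 0 all0 (t7 E)) (t8 E))

theorem t5 (E : Env G) (hx : Ok g x5) : Goal g alts :=
  close_ok (ck_ok E.1 hx c5_0 all0) 0
    [33] (by decide +kernel)

theorem t4 (E : Env G) (hx : Ok g x4) : Goal g alts :=
  br_ok hx (ck_ok E.1 hx c4_0 all0) (c := (nsCl 2 [[2, 1, 2], [0, 1, 3], [0], [0, 1]])) (ns_valid E.2 _ _) s4 (nat_lit 0x2c00e02b03103000b02f02e02d) 4 (by decide +kernel)
    (allS 3 (allS 2 (allS 1 (allS 0 all0 (t5 E)) (t6 E)) (t9 E)) (t10 E))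

theorem t3 (E : Env G) (hx : Ok g x3) : Goal g alts :=
  close_ok (ck_ok E.1 hx c3_0 all0) 0
    [37] (by decide +kernel)

theorem t2 (E : Env G) (hx : Ok g x2) : Goal g alts :=
  br_ok hx (ck_ok E.1 hx c2_0 all0) (c := (nsCl 3 [[0, 1, 2, 6], [4, 1, 3, 4], [0], [0, 1], [0, 1, 2]])) (ns_valid E.2 _ _) s2 (nat_lit 0x3a03901403801501604104003f03e03d03c03b00f) 8 (by decide +kernel)
    (allS 7 (allS 6 (allS 5 (allS 4 (allS 3 (allS 2 (allS 1 (allS 0 all0 (t3 E)) (t4 E)) (t11 E)) (t14 E)) (t17 E)) (t18 E)) (t19 E)) (t20 E))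

theorem t1 (E : Env G) (hx : Ok g x1) : Goal g alts :=
  close_ok (ck_ok E.1 hx c1_0 all0) 0
    [45] (by decide +kernel)

theorem t0 (E : Env G) (hx : Ok g x0) : Goal g alts :=
  br_ok hx (ck_ok E.1 hx c0_1 (ck_ok E.1 hx c0_0 all0)) (c := (nsCl 3 [[0, 1, 2, 6], [4, 1, 3, 4], [0], [0, 1], [0, 1, 2]])) (ns_valid E.2 _ _) s0 (nat_lit 0xeb0ea03a0e90460e80f20f10f00ef0ee0ed0ec023) 8 (by decide +kernel)
    (allS 7 (allS 6 (allS 5 (allS 4 (allS 3 (allS 2 (allS 1 (allS 0 all0 (t1 E)) (t2 E)) (t21 E)) (t24 E)) (t27 E)) (t28 E)) (t29 E)) (t30 E))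

theorem valid (E : Env G) : ValidC G cl :=
  ext_ok (ds := ds) 3 (fun _ hh => t0 E (rt_ok (by decide +kernel) hh)) (by decide +kernel)

end Pool.Agent.Lib.MP_3b0e0c_al.D.TT
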