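import Pool.Agent.Lib.MP_3b0e0c_al.D.H1
import Pool.Agent.Lib.MP_3b0e0c_al.D.H3
import Pool.Agent.Lib.MP_3b0e0c_al.D.SD
import Pool.Agent.Lib.MP_3b0e0c_al.D.TT

/-! A 2-group without finite sections dihedral of order 16 is locally finite. -/

namespace Pool.Agent.Lib.MP_3b0e0c_al.D

open S Subgroup

variable {G : Type*} [Group G]

lemma NS.r2 (h : NS G) (a b : G) (ha : a * a = 1) (hb : b * b = 1) : (a * b) ^ 4 = 1 :=
  h ⊥ a b (by simp) ha hb (by simp) (by simp)

/-- The central involution of the exceptional subgroup commutes with every involution. -/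
lemma central (h : NS G) {g : ℕ → G} (hh : ∀ e ∈ NoS.hy, Eqn g e) {d : G} (hd : d * d = 1) :
    Commute (cm (g 2) (g 1)) d := by
  have v2 := valid_R2 h.r2
  have v3 := T3.valid (G := G) (by simpa [T3.ths] using v2)
  have := SD.valid (G := G) ⟨by simpa [SD.ths] using ⟨v2, v3⟩, h,
    H1.valid ⟨by simpa [H1.ths] using ⟨v2, v3⟩, h⟩, H3.valid ⟨by simpa [H3.ths] using ⟨v2, v3⟩, h⟩⟩
    (fun i => [g 0, g 1, g 2, d, g 3, g 4, g 5].getD i 1)
    (by simpa [SD.cl, SD.hy, NoS, Eqn, evL, hd] using hh)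
  simpa [Goal, SD.cl, SD.alts, Eqn, evL, Commute, SemiconjBy, cm, mul_assoc] using this

lemma r3 (h : NS G) (hs : Valid G NoS) (a b c : G) (ha : a * a = 1) (hb : b * b = 1)
    (hc : c * c = 1) : (a * b * c) ^ 4 = 1 := by
  have v2 := valid_R2 h.r2
  have v3 := T3.valid (G := G) (by simpa [T3.ths] using v2)
  have := TT.valid (G := G) ⟨by simpa [TT.ths] using ⟨v2, v3, hs⟩, h⟩
    (fun i => [a, b, c].getD i 1) (by simp [TT.cl, TT.hy, Eqn, evL, ha, hb, hc])
  rw [show 4 = 2 + 2 from rfl, pow_add, mul_eq_one_iff_eq_inv, ← inv_pow, mul_inv_rev, mul_inv_rev,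
    inv_eq_of_mul_eq_one_right ha, inv_eq_of_mul_eq_one_right hb, inv_eq_of_mul_eq_one_right hc]
  simpa [Goal, TT.cl, TT.alts, Eqn, evL, pow_two, mul_assoc] using this

theorem LF_of_ND (h2 : IsPGroup 2 G) (h : ND G) : LF (⊤ : Subgroup G) := by
  have hq := h2.to_quotient (rad G)
  have ns := (h.quot (QuotientGroup.mk' (rad G)) (QuotientGroup.mk'_surjective _)
    (by rw [QuotientGroup.ker_mk']; exact LF_rad)).ns hq
  have cj : ∀ a g : G ⧸ rad G, a * a = 1 → g * a * g⁻¹ * (g * a * g⁻¹) = 1 := fun a g ha => by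
    rw [conj_mul, ha]; simp
  obtain ⟨N, _, hN, hc⟩ := comm_lf (r3 ns fun g hh => by
    have h1 : g 1 * g 1 = 1 := by simpa [Eqn, evL] using hh ([1, 1], []) (by decide)
    have h2 : g 2 * g 2 = 1 := by simpa [Eqn, evL] using hh ([2, 2], []) (by decide)
    have h3 : cm (g 2) (g 1) * cm (g 2) (g 1) = 1 := by
      simpa [cm, pow_succ, mul_assoc] using ns.r2 _ _ h2 h1
    have := (cm_eq_one h2 h1).1 (quot_triv (LF_normalClosure (tors hq) fun y =>
      central ns hh (cj _ y h3)) (subset_normalClosure rfl))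
    simpa [NoS, Eqn, evL] using this.eq)
  have inv : ∀ a : G ⧸ rad G, a ^ 2 = 1 → a = 1 := by
    intro a ha
    rw [pow_two] at ha
    exact quot_triv (LF_normalClosure (tors hq) fun g => (cm_eq_one ha (cj a g ha)).1
      (quot_triv hN (hc _ _ ha (cj a g ha)))) (subset_normalClosure rfl)
  have all : ∀ u : G ⧸ rad G, u = 1 := fun u => by
    obtain ⟨k, hk⟩ := hq u
    simpa using descend (c := 1) (fun j e => inv _ (by rw [← pow_mul, mul_comm, e])) hk
  exact LF_rad.mono fun y _ => (QuotientGroup.eq_one_iff y).1 (all _)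

end Pool.Agent.Lib.MP_3b0e0c_al.D
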