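import Pool.Agent.Lib.MP_3b0e0c_al.D.KT
import Pool.Agent.Lib.MP_3b0e0c_al.S.Main
import Mathlib.GroupTheory.SpecificGroups.Dihedral

/-! Groups without finite sections isomorphic to the dihedral group of order 16. -/

namespace Pool.Agent.Lib.MP_3b0e0c_al.D

open S Subgroup

variable {G : Type*} [Group G]

variable (G) in
/-- Modulo a finite subgroup, products of two involutions have order dividing 4. -/
def NS : Prop := ∀ (K : Subgroup G) (u v : G), (K : Set G).Finite → u * u ∈ K → v * v ∈ K →
  (∀ k ∈ K, u⁻¹ * k * u ∈ K) → (∀ k ∈ K, v⁻¹ * k * v ∈ K) → (u * v) ^ 4 ∈ K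

lemma ext2 {S : Set G} {a : G} (h1 : a * a ∈ closure S)
    (h2 : ∀ k ∈ closure S, a⁻¹ * k * a ∈ closure S) :
    ∀ x ∈ closure (insert a S), x ∈ closure S ∨ a⁻¹ * x ∈ closure S := by
  have key : ∀ s ∈ closure S, ∀ y, y ∈ closure S ∨ a⁻¹ * y ∈ closure S →
      s * y ∈ closure S ∨ a⁻¹ * (s * y) ∈ closure S := fun s hs y =>
    Or.imp (mul_mem hs) fun h => by simpa [mul_assoc] using mul_mem (h2 s hs) h
  intro x hx
  induction hx using closure_induction_left with
  | one => exact Or.inl (one_mem _)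
  | mul_left x hx y _ ih =>
    rcases hx with rfl | hx
    · rcases ih with h | h
      · exact Or.inr (by simpa using h)
      · exact Or.inl (by simpa [mul_assoc] using mul_mem h1 h)
    · exact key x (subset_closure hx) y ih
  | inv_mul_cancel x hx y _ ih =>
    rcases hx with rfl | hx
    · rcases ih with h | h
      · exact Or.inr (by simpa [mul_assoc] using mul_mem (inv_mem h1) h)
      · exact Or.inl h
    · exact key _ (inv_mem (subset_closure hx)) y ih

/-- The generators of the finite subgroup. -/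
def gens (g : ℕ → G) (i : ℕ) : Set G := (fun j => g (j + 2)) '' Set.Iio i

omit [Group G] in
lemma gens_succ (g : ℕ → G) (i : ℕ) : gens g (i + 1) = insert (g (i + 2)) (gens g i) := by
  rw [gens, gens, ← Set.image_insert_eq (f := fun j => g (j + 2))]
  congr 1
  ext t
  simp only [Set.mem_Iio, Set.mem_insert_iff]
  omega

lemma subs_mem (g : ℕ → G) (i : ℕ) : ∀ w ∈ subs i, evL g w ∈ closure (gens g i) := by
  induction i with
  | zero => simp [subs, evL]
  | succ i ih =>
    have h : closure (gens g i) ≤ closure (gens g (i + 1)) :=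
      closure_mono (by rw [gens_succ]; exact Set.subset_insert _ _)
    intro w hw
    rcases List.mem_append.1 hw with hw | hw
    · exact h (ih w hw)
    · obtain ⟨w, h1, rfl⟩ := List.mem_map.1 hw
      exact mul_mem (subset_closure (by rw [gens_succ]; exact Set.mem_insert _ _)) (h (ih w h1))

lemma lvl_ok {g : ℕ → G} {a i : ℕ} {M : List ℕ} (h : ∀ e ∈ lvl a i M, Eqn g e) :
    g a * g a ∈ closure (gens g i) ∧
      ∀ k ∈ closure (gens g i), (g a)⁻¹ * k * g a ∈ closure (gens g i) := by
  have hn : ∀ n, evL g (nth [] (subs i) n) ∈ closure (gens g i) := fun n => by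
    rcases nth_mem [] (subs i) n with e | e
    · rw [e]; exact one_mem _
    · exact subs_mem g i _ e
  obtain ⟨h1, h2⟩ := List.forall_mem_cons.1 h
  change g a * (g a * 1) = evL g _ at h1
  refine ⟨by rw [← mul_one (g a * g a), mul_assoc, h1]; exact hn _, fun k hk => ?_⟩
  induction hk using closure_induction with
  | mem x hx =>
    obtain ⟨j, hj, rfl⟩ := hx
    have := h2 _ (List.mem_map.2 ⟨j, List.mem_range.2 hj, rfl⟩)
    change g (j + 2) * (g a * 1) = g a * evL g _ at this
    rw [mul_one] at this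
    rw [mul_assoc, this, inv_mul_cancel_left]
    exact hn _
  | one => simp
  | mul x y _ _ i1 i2 => simpa [mul_assoc] using mul_mem i1 i2
  | inv x _ i1 => simpa [mul_assoc] using inv_mem i1

lemma ns_valid (h : NS G) (r : ℕ) (M : List (List ℕ)) : ValidC G (nsCl r M) := by
  intro g hh
  simp only [nsCl, List.forall_mem_append, List.forall_mem_flatMap, List.mem_range] at hh
  obtain ⟨⟨h0, h1⟩, h2⟩ := hh
  have en : ∀ i ≤ r, ∀ x ∈ closure (gens g i), ∃ w ∈ subs i, x = evL g w := by
    intro i
    induction i with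
    | zero => intro _ x hx; exact ⟨[], by simp [subs], by simpa [gens, evL] using hx⟩
    | succ i ih =>
      intro hi x hx
      rw [gens_succ] at hx
      have := lvl_ok (h2 i hi)
      rcases ext2 this.1 this.2 x hx with e | e
      · obtain ⟨w, w1, w2⟩ := ih (by omega) _ e
        exact ⟨w, List.mem_append_left _ w1, w2⟩
      · obtain ⟨w, w1, w2⟩ := ih (by omega) _ e
        exact ⟨(i + 2) :: w, List.mem_append_right _ (List.mem_map_of_mem w1),
          inv_mul_eq_iff_eq_mul.1 w2⟩
  have hf : (closure (gens g r) : Set G).Finite :=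
    ((subs r).finite_toSet.image (evL g)).subset fun x hx => by
      obtain ⟨w, w1, w2⟩ := en r le_rfl x hx
      exact ⟨w, w1, w2.symm⟩
  obtain ⟨w, w1, w2⟩ := en r le_rfl _
    (h _ _ _ hf (lvl_ok h0).1 (lvl_ok h1).1 (lvl_ok h0).2 (lvl_ok h1).2)
  refine ⟨_, List.mem_map_of_mem w1, ?_⟩
  rw [List.forall_mem_singleton, Eqn, ← w2]
  simp [evL, pow_succ, mul_assoc]

/-- Only letters below `n` occur. -/
def allE (n : ℕ) (es : List (List ℕ × List ℕ)) : Bool :=
  es.all fun e => e.1.all (· < n) && e.2.all (· < n)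

lemma ext_ok {hy ds : List (List ℕ × List ℕ)} {alts : List (List (List ℕ × List ℕ))} (n : ℕ)
    (h : ValidC G ⟨hy ++ ds, alts⟩) (hd : (defsOK n ds && allE n hy && alts.all (allE n)) = true) :
    ValidC G ⟨hy, alts⟩ := by
  intro g0 hh
  simp only [Bool.and_eq_true, List.all_eq_true] at hd
  obtain ⟨g, h1, h2⟩ := exists_ext ds n g0 hd.1.1
  have key : ∀ es, allE n es = true → ∀ e ∈ es, (Eqn g e ↔ Eqn g0 e) := by
    intro es hs e he
    simp only [allE, Bool.and_eq_true, List.all_eq_true, decide_eq_true_eq] at hs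
    rw [Eqn, Eqn, evL, evL, List.map_congr_left fun c hc => h1 c ((hs e he).1 c hc),
      List.map_congr_left fun c hc => h1 c ((hs e he).2 c hc), evL, evL]
  obtain ⟨a, ha, hb⟩ := h g (List.forall_mem_append.2
    ⟨fun e he => (key _ hd.1.2 e he).2 (hh e he), h2⟩)
  exact ⟨a, ha, fun e he => (key _ (hd.2 a ha) e he).1 (hb e he)⟩

/-- The subgroup of order 128 does not occur. -/
def NoS : Th := ⟨[([0, 0], []), ([1, 1], []), ([2, 2], []), ([2, 1, 2, 1], [5]),
  ([3], [2, 0, 2, 0]), ([4], [3, 1, 3, 1]), ([5], [4, 0, 4, 0])], [([2, 1], [1, 2])]⟩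

variable (G) in
/-- No finite subgroup maps onto the dihedral group of order 16. -/
def ND : Prop := ∀ H : Subgroup G, Finite H → ∀ f : H →* DihedralGroup 8, ¬ Function.Surjective f

lemma ND.sub (h : ND G) (N : Subgroup G) : ND N := fun H _ f hf =>
  h (H.map N.subtype) (Finite.of_equiv _ (H.equivMapOfInjective _ N.subtype_injective).toEquiv)
    (f.comp (H.equivMapOfInjective _ N.subtype_injective).symm.toMonoidHom)
    (hf.comp (MulEquiv.surjective _))

lemma ND.quot {Q : Type*} [Group Q] (h : ND G) (p : G →* Q) (hp : Function.Surjective p)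
    (hk : LF p.ker) : ND Q := by
  intro H hH f hf
  choose q hq using hp
  have hF := LF.comap p hk (S := H) (fun t _ ht => (Set.toFinite (H : Set Q)).subset
    ((closure_le _).2 ht)) (q '' H) ((Set.toFinite _).image _)
    (by rintro _ ⟨y, hy, rfl⟩; rwa [SetLike.mem_coe, mem_comap, hq])
  have hle : closure (q '' H) ≤ H.comap p :=
    (closure_le _).2 (by rintro _ ⟨y, hy, rfl⟩; rwa [SetLike.mem_coe, mem_comap, hq])
  refine h _ hF (f.comp ((p.comp (closure (q '' H)).subtype).codRestrict H fun x => hle x.2))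
    (hf.comp fun y => ⟨⟨q y, subset_closure ⟨y, y.2, rfl⟩⟩, Subtype.ext (hq y)⟩)

lemma ND.r2 (h : ND G) (h2 : IsPGroup 2 G) {a b : G} (ha : a * a = 1) (hb : b * b = 1) :
    (a * b) ^ 4 = 1 := by
  by_contra h4
  obtain ⟨m, hm⟩ := IsPGroup.iff_orderOf.1 h2 (a * b)
  set x := a * b with hx
  have h8 : 8 ∣ orderOf x := by
    rw [hm]
    refine pow_dvd_pow 2 (show 3 ≤ m from not_lt.1 fun h3 => h4 ?_)
    rw [← orderOf_dvd_iff_pow_eq_one, hm]
    exact pow_dvd_pow 2 (show m ≤ 2 by omega)
  have : NeZero (orderOf x) := ⟨by rw [hm]; positivity⟩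
  let e : ZMod (orderOf x) → G := fun i => x ^ i.val
  have e1 : ∀ i j, e (i + j) = e i * e j := fun i j => by
    simp only [e, ZMod.val_add, pow_mod_orderOf, pow_add]
  have e0 : e 0 = 1 := by simp [e]
  have e2 : ∀ i, e (-i) = (e i)⁻¹ := fun i => eq_inv_of_mul_eq_one_left (by
    rw [← e1, neg_add_cancel, e0])
  have s1 : SemiconjBy a x⁻¹ x := by
    rw [SemiconjBy, hx, mul_inv_rev, inv_eq_of_mul_eq_one_right ha, inv_eq_of_mul_eq_one_right hb,
      mul_assoc]
  have e3 : ∀ i, e i * a = a * e (-i) := fun i => by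
    rw [e2, ← inv_pow]; exact (s1.pow_right _).eq.symm
  let ψ : DihedralGroup (orderOf x) →* G := MonoidHom.mk'
    (fun y => match y with | .r i => e i | .sr i => a * e i) (by
      rintro (i | i) (j | j)
      · exact e1 i j
      · show a * e (j - i) = e i * (a * e j)
        rw [← mul_assoc, e3, mul_assoc, ← e1, neg_add_eq_sub]
      · show a * e (i + j) = a * e i * e j
        rw [e1, mul_assoc]
      · show e (j - i) = a * e i * (a * e j)
        rw [mul_assoc, ← mul_assoc (e i), e3, ← mul_assoc, ← mul_assoc, ha, one_mul, ← e1,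
          neg_add_eq_sub])
  have hi : Function.Injective ψ := by
    refine (injective_iff_map_eq_one ψ).2 ?_
    rintro (i | i) hi
    · have : orderOf x ∣ i.val := orderOf_dvd_of_pow_eq_one hi
      rw [(ZMod.val_eq_zero i).1 (Nat.eq_zero_of_dvd_of_lt this i.val_lt)]; rfl
    · have h5 : a = (x ^ i.val)⁻¹ := eq_inv_of_mul_eq_one_left hi
      have h6 : a * x = x * a := by rw [h5]; exact ((Commute.refl x).pow_left _).inv_left
      have h7 : x⁻¹ = x := mul_left_cancel (s1.eq.trans h6.symm)
      exact absurd (by rw [show 4 = 2 * 2 from rfl, pow_mul, pow_two x, mul_eq_one_iff_inv_eq.2 h7,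
        one_pow]) h4
  let c := ZMod.castHom h8 (ZMod 8)
  let φ : DihedralGroup (orderOf x) →* DihedralGroup 8 := MonoidHom.mk'
    (fun y => match y with | .r i => .r (c i) | .sr i => .sr (c i)) (by
      rintro (i | i) (j | j) <;> simp)
  refine h ψ.range (Finite.of_equiv _ (MonoidHom.ofInjective hi).toEquiv)
    (φ.comp (MonoidHom.ofInjective hi).symm.toMonoidHom)
    (Function.Surjective.comp (g := φ) ?_ (MonoidHom.ofInjective hi).symm.surjective)
  rintro (i | i) <;> obtain ⟨j, rfl⟩ := ZMod.castHom_surjective h8 i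
  exacts [⟨.r j, rfl⟩, ⟨.sr j, rfl⟩]

lemma ND.ns (h : ND G) (h2 : IsPGroup 2 G) : NS G := by
  intro K u v hK hu hv ku kv
  have nm : ∀ u : G, u * u ∈ K → (∀ k ∈ K, u⁻¹ * k * u ∈ K) → u ∈ normalizer (K : Set G) := by
    intro u hu ku
    refine mem_normalizer_iff.2 fun k => ⟨fun hk => ?_, fun hk => by simpa [mul_assoc] using ku _ hk⟩
    simpa [mul_assoc] using mul_mem (mul_mem hu (ku k hk)) (inv_mem hu)
  let N := normalizer (K : Set G)
  let p := QuotientGroup.mk' (K.subgroupOf N)
  have hk : LF p.ker := by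
    rw [QuotientGroup.ker_mk']
    exact fun t _ ht => (hK.preimage Subtype.val_injective.injOn).subset ((closure_le _).2 ht)
  have := ((h.sub N).quot p (QuotientGroup.mk'_surjective _) hk).r2
    ((h2.to_subgroup N).to_quotient _) (a := p ⟨u, nm u hu ku⟩) (b := p ⟨v, nm v hv kv⟩)
    (by rw [← map_mul]; exact (QuotientGroup.eq_one_iff _).2 hu)
    (by rw [← map_mul]; exact (QuotientGroup.eq_one_iff _).2 hv)
  rw [← map_mul, ← map_pow] at this
  exact (QuotientGroup.eq_one_iff (N := K.subgroupOf N) _).1 this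

end Pool.Agent.Lib.MP_3b0e0c_al.D
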