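import Pool.Agent.Lib.MP_3b0e0c_al.D.H1D
import Pool.Agent.Lib.MP_3b0e0c_al.D.H3D

namespace Pool.Agent.Lib.MP_3b0e0c_al.D.SD

open S

/-- Hypotheses. -/
def hy : List (List ℕ × List ℕ) := [([0, 0], []),
  ([1, 1], []),
  ([2, 2], []),
  ([3, 3], []),
  ([2, 1, 2, 1], [6]),
  ([4], [2, 0, 2, 0]),
  ([5], [4, 1, 4, 1]),
  ([6], [5, 0, 5, 0])]

/-- Definitions. -/
def ds : List (List ℕ × List ℕ) := [([7], [1, 0, 1, 0]),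
  ([8], [3, 0, 3, 0]),
  ([9], [3, 1, 3, 1]),
  ([10], [3, 2, 3, 2]),
  ([11], [9, 2, 9, 2]),
  ([12], [8, 1, 8, 1]),
  ([13], [8, 2, 8, 2]),
  ([14], [9, 0, 9, 0]),
  ([15], [10, 0, 10, 0]),
  ([16], [10, 1, 10, 1]),
  ([17], [11, 0, 11, 0]),
  ([18], [12, 0, 12, 0]),
  ([19], [13, 0, 13, 0]),
  ([20], [13, 1, 13, 1]),
  ([21], [14, 1, 14, 1]),
  ([22], [14, 2, 14, 2]),
  ([23], [14, 3, 14, 3]),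
  ([24], [15, 1, 15, 1]),
  ([25], [15, 2, 15, 2]),
  ([26], [15, 3, 15, 3]),
  ([27], [16, 0, 16, 0]),
  ([28], [16, 3, 16, 3]),
  ([29], [22, 0, 22, 0]),
  ([30], [23, 2, 23, 2]),
  ([31], [24, 0, 24, 0]),
  ([32], [24, 3, 24, 3]),
  ([33], [26, 1, 26, 1]),
  ([34], [27, 3, 27, 3]),
  ([35], [28, 0, 28, 0]),
  ([36], [30, 0, 30, 0]),
  ([37], [33, 0, 33, 0]),
  ([38], [33, 3, 33, 3]),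
  ([39], [34, 0, 34, 0]),
  ([40], [35, 3, 35, 3]),
  ([41], [36, 3, 36, 3]),
  ([42], [37, 3, 37, 3]),
  ([43], [38, 0, 38, 0]),
  ([44], [40, 1, 40, 1]),
  ([45], [40, 2, 40, 2]),
  ([46], [43, 1, 43, 1]),
  ([47], [43, 2, 43, 2])]

/-- Alternatives. -/
def alts : List (List (List ℕ × List ℕ)) := [[([2, 1, 2, 1, 3], [3, 2, 1, 2, 1])]]

/-- The clause. -/
def cl : Cl := ⟨hy, alts⟩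

/-- The theories used. -/
def ths : List Th := [R2, T3.th]

set_option maxRecDepth 100000 in
/-- Facts. -/
noncomputable def d0 : Tr :=
(.nd (.nd (.nd (.nd (.nd (.nd (.nd (.nd (.nd (.nd (.nd (.lf ⟨(nat_lit 65), (nat_lit 2), (nat_lit 0), (nat_lit 0)⟩)
(.lf ⟨(nat_lit 0x2d82c19412d82c1941), (nat_lit 12), (nat_lit 0x2d82c19412d82c1941), (nat_lit 12)⟩))
(.lf ⟨(nat_lit 0x6040d8103), (nat_lit 6), (nat_lit 0xd8103604), (nat_lit 6)⟩))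
(.nd (.lf ⟨(nat_lit 715), (nat_lit 2), (nat_lit 0), (nat_lit 0)⟩)
(.lf ⟨(nat_lit 0x2820ca083), (nat_lit 6), (nat_lit 0xca083282), (nat_lit 6)⟩)))
(.nd (.nd (.nd (.lf ⟨(nat_lit 0x7df), (nat_lit 2), (nat_lit 0), (nat_lit 0)⟩)
(.lf ⟨(nat_lit 0x6027d81c2), (nat_lit 6), (nat_lit 0x6020d8083), (nat_lit 6)⟩))
(.lf ⟨(nat_lit 0x98dc), (nat_lit 3), (nat_lit 0xa23709), (nat_lit 4)⟩))
(.nd (.lf ⟨(nat_lit 94), (nat_lit 2), (nat_lit 0x5de5de5de5c1), (nat_lit 8)⟩)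
(.lf ⟨(nat_lit 0xe40c20e41641430839059050c39030839059050c20e4164143), (nat_lit 34), (nat_lit 0xe40c20e41641430839059050c39030839059050c20e4164143), (nat_lit 34)⟩))))
(.nd (.nd (.nd (.nd (.lf ⟨(nat_lit 0xca0ca), (nat_lit 4), (nat_lit 0x283283), (nat_lit 4)⟩)
(.lf ⟨(nat_lit 0), (nat_lit 0), (nat_lit 0x486c80486c8), (nat_lit 8)⟩))
(.lf ⟨(nat_lit 0x9751251), (nat_lit 5), (nat_lit 0x1125d449), (nat_lit 5)⟩))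
(.nd (.lf ⟨(nat_lit 0x2d12d1), (nat_lit 4), (nat_lit 0x44b44b), (nat_lit 4)⟩)
(.lf ⟨(nat_lit 0x2016c12016c1), (nat_lit 8), (nat_lit 0x6c12016c1201), (nat_lit 8)⟩)))
(.nd (.nd (.nd (.lf ⟨(nat_lit 197), (nat_lit 2), (nat_lit 323), (nat_lit 2)⟩)
(.lf ⟨(nat_lit 0xc20c2), (nat_lit 4), (nat_lit 7), (nat_lit 1)⟩))
(.lf ⟨(nat_lit 268), (nat_lit 2), (nat_lit 0x1d304), (nat_lit 3)⟩))
(.nd (.lf ⟨(nat_lit 0xa2cc), (nat_lit 3), (nat_lit 0xc2cc2cc28b), (nat_lit 7)⟩)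
(.lf ⟨(nat_lit 0), (nat_lit 0), (nat_lit 0xd60d61d61d61d61c3583587587587587), (nat_lit 22)⟩)))))
(.nd (.nd (.nd (.nd (.nd (.lf ⟨(nat_lit 32), (nat_lit 1), (nat_lit 0x59059), (nat_lit 4)⟩)
(.lf ⟨(nat_lit 598), (nat_lit 2), (nat_lit 0x589), (nat_lit 2)⟩))
(.lf ⟨(nat_lit 92), (nat_lit 2), (nat_lit 0x701), (nat_lit 2)⟩))
(.nd (.lf ⟨(nat_lit 0x28f28f), (nat_lit 4), (nat_lit 0x3ca3ca), (nat_lit 4)⟩)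
(.lf ⟨(nat_lit 263), (nat_lit 2), (nat_lit 0x7512ca1dd30b284), (nat_lit 10)⟩)))
(.nd (.nd (.nd (.lf ⟨(nat_lit 0x125125), (nat_lit 4), (nat_lit 0x944944), (nat_lit 4)⟩)
(.lf ⟨(nat_lit 0x1ca1ca), (nat_lit 4), (nat_lit 0x8c08c), (nat_lit 4)⟩))
(.lf ⟨(nat_lit 213), (nat_lit 2), (nat_lit 0x1d5387383), (nat_lit 6)⟩))
(.nd (.lf ⟨(nat_lit 162), (nat_lit 2), (nat_lit 0x6e26e26e26c2), (nat_lit 8)⟩)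
(.lf ⟨(nat_lit 278), (nat_lit 2), (nat_lit 0x1660f34f34a2564d63d33d33d334f34f34f34a244), (nat_lit 27)⟩))))
(.nd (.nd (.nd (.nd (.lf ⟨(nat_lit 142), (nat_lit 2), (nat_lit 0x15382), (nat_lit 3)⟩)
(.lf ⟨(nat_lit 0x10448448), (nat_lit 5), (nat_lit 0x11211210), (nat_lit 5)⟩))
(.lf ⟨(nat_lit 0x419), (nat_lit 2), (nat_lit 0x650), (nat_lit 2)⟩))
(.nd (.lf ⟨(nat_lit 285), (nat_lit 2), (nat_lit 0x45d45d45d444), (nat_lit 8)⟩)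
(.lf ⟨(nat_lit 0x1581c66061581c6606), (nat_lit 12), (nat_lit 0x1581c66061581c6606), (nat_lit 12)⟩)))
(.nd (.nd (.lf ⟨(nat_lit 0xc12453890c10c12453890c1), (nat_lit 16), (nat_lit 0), (nat_lit 0)⟩)
(.lf ⟨(nat_lit 264), (nat_lit 2), (nat_lit 0x93ca21834a244), (nat_lit 9)⟩))
(.nd (.lf ⟨(nat_lit 0x530a14a), (nat_lit 5), (nat_lit 0xa14c285), (nat_lit 5)⟩)
(.lf ⟨(nat_lit 0x4185), (nat_lit 3), (nat_lit 0x51b6902ce2c5106), (nat_lit 10)⟩))))))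
(.nd (.nd (.nd (.nd (.nd (.nd (.lf ⟨(nat_lit 17), (nat_lit 1), (nat_lit 0x8b08b), (nat_lit 4)⟩)
(.lf ⟨(nat_lit 11), (nat_lit 1), (nat_lit 0xc40c4), (nat_lit 4)⟩))
(.lf ⟨(nat_lit 0xb191), (nat_lit 3), (nat_lit 0x64462c6), (nat_lit 5)⟩))
(.nd (.lf ⟨(nat_lit 0x144144), (nat_lit 4), (nat_lit 0x105105), (nat_lit 4)⟩)
(.lf ⟨(nat_lit 297), (nat_lit 2), (nat_lit 0x329749a4ca5d24ca5d24ca5d244), (nat_lit 18)⟩)))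
(.nd (.nd (.nd (.lf ⟨(nat_lit 93), (nat_lit 2), (nat_lit 0x24741), (nat_lit 3)⟩)
(.lf ⟨(nat_lit 0x163146142a060a81458c51850a8182a05), (nat_lit 22), (nat_lit 0x163146142a060a81458c51850a8182a05), (nat_lit 22)⟩))
(.lf ⟨(nat_lit 603), (nat_lit 2), (nat_lit 0x38b6cb39b2db2c9), (nat_lit 10)⟩))
(.nd (.lf ⟨(nat_lit 0x303303), (nat_lit 4), (nat_lit 0), (nat_lit 0)⟩)
(.lf ⟨(nat_lit 261), (nat_lit 2), (nat_lit 0x102ce69b2d4144), (nat_lit 9)⟩))))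
(.nd (.nd (.nd (.nd (.lf ⟨(nat_lit 0x410), (nat_lit 2), (nat_lit 0), (nat_lit 0)⟩)
(.lf ⟨(nat_lit 28), (nat_lit 1), (nat_lit 0x51051), (nat_lit 4)⟩))
(.lf ⟨(nat_lit 720), (nat_lit 2), (nat_lit 0x40b), (nat_lit 2)⟩))
(.nd (.lf ⟨(nat_lit 157), (nat_lit 2), (nat_lit 0x2d12dd2d12c2), (nat_lit 8)⟩)
(.lf ⟨(nat_lit 0x7440dd103), (nat_lit 6), (nat_lit 0x7440dd103), (nat_lit 6)⟩)))
(.nd (.nd (.lf ⟨(nat_lit 68), (nat_lit 2), (nat_lit 0x244049101101), (nat_lit 8)⟩)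
(.lf ⟨(nat_lit 105), (nat_lit 2), (nat_lit 0xa41), (nat_lit 2)⟩))
(.nd (.lf ⟨(nat_lit 0x251251), (nat_lit 4), (nat_lit 0x449449), (nat_lit 4)⟩)
(.lf ⟨(nat_lit 0x69b), (nat_lit 2), (nat_lit 0x6da), (nat_lit 2)⟩)))))
(.nd (.nd (.nd (.nd (.nd (.lf ⟨(nat_lit 48), (nat_lit 1), (nat_lit 0xec0ec), (nat_lit 4)⟩)
(.lf ⟨(nat_lit 454), (nat_lit 2), (nat_lit 0xc80c8), (nat_lit 4)⟩))
(.lf ⟨(nat_lit 0x94cd24d), (nat_lit 5), (nat_lit 0xd253349), (nat_lit 5)⟩))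
(.nd (.lf ⟨(nat_lit 0x2c42c4), (nat_lit 4), (nat_lit 0), (nat_lit 0)⟩)
(.lf ⟨(nat_lit 0x241149045), (nat_lit 6), (nat_lit 0x149045241), (nat_lit 6)⟩)))
(.nd (.nd (.nd (.lf ⟨(nat_lit 236), (nat_lit 2), (nat_lit 0x30b03), (nat_lit 3)⟩)
(.lf ⟨(nat_lit 0x1c621e1c6788), (nat_lit 8), (nat_lit 0xc87880c8788), (nat_lit 8)⟩))
(.lf ⟨(nat_lit 664), (nat_lit 2), (nat_lit 0x60a), (nat_lit 2)⟩))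
(.nd (.lf ⟨(nat_lit 222), (nat_lit 2), (nat_lit 0x3d73de3d73c3), (nat_lit 8)⟩)
(.lf ⟨(nat_lit 0x49989), (nat_lit 4), (nat_lit 0x266241), (nat_lit 4)⟩))))
(.nd (.nd (.nd (.nd (.lf ⟨(nat_lit 0x110110), (nat_lit 4), (nat_lit 0x404404), (nat_lit 4)⟩)
(.lf ⟨(nat_lit 32), (nat_lit 1), (nat_lit 0x59059), (nat_lit 4)⟩))
(.lf ⟨(nat_lit 0x5690), (nat_lit 3), (nat_lit 0x1a405), (nat_lit 3)⟩))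
(.nd (.lf ⟨(nat_lit 0x24b24b), (nat_lit 4), (nat_lit 0x2c92c9), (nat_lit 4)⟩)
(.lf ⟨(nat_lit 0x6607), (nat_lit 3), (nat_lit 0x181d8198), (nat_lit 5)⟩)))
(.nd (.nd (.lf ⟨(nat_lit 0xc20cb0c20cb0c30832c30832c3), (nat_lit 18), (nat_lit 0xc20cb0c20cb0c30832c30832c3), (nat_lit 18)⟩)
(.lf ⟨(nat_lit 657), (nat_lit 2), (nat_lit 0x44a), (nat_lit 2)⟩))
(.nd (.lf ⟨(nat_lit 596), (nat_lit 2), (nat_lit 0x394389), (nat_lit 4)⟩)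
(.lf ⟨(nat_lit 0x38b38b), (nat_lit 4), (nat_lit 0x114114), (nat_lit 4)⟩)))))))
(.nd (.nd (.nd (.nd (.nd (.nd (.nd (.lf ⟨(nat_lit 10), (nat_lit 1), (nat_lit 0x84084), (nat_lit 4)⟩)
(.lf ⟨(nat_lit 0x1cd1cd), (nat_lit 4), (nat_lit 0x872472421c91c9), (nat_lit 10)⟩))
(.lf ⟨(nat_lit 0x68311a0c4), (nat_lit 6), (nat_lit 0x11a0c4683), (nat_lit 6)⟩))
(.nd (.lf ⟨(nat_lit 141), (nat_lit 2), (nat_lit 0x24d24d24d242), (nat_lit 8)⟩)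
(.lf ⟨(nat_lit 0x40b40b), (nat_lit 4), (nat_lit 0), (nat_lit 0)⟩)))
(.nd (.nd (.nd (.lf ⟨(nat_lit 0x9b09b), (nat_lit 4), (nat_lit 0x6c26c2), (nat_lit 4)⟩)
(.lf ⟨(nat_lit 159), (nat_lit 2), (nat_lit 0x7c7607602), (nat_lit 6)⟩))
(.lf ⟨(nat_lit 0x9a64), (nat_lit 3), (nat_lit 0x29909), (nat_lit 3)⟩))
(.nd (.lf ⟨(nat_lit 0x701701), (nat_lit 4), (nat_lit 0x5c05c), (nat_lit 4)⟩)
(.lf ⟨(nat_lit 0x105105), (nat_lit 4), (nat_lit 0x105105), (nat_lit 4)⟩))))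
(.nd (.nd (.nd (.nd (.lf ⟨(nat_lit 137), (nat_lit 2), (nat_lit 0xd242), (nat_lit 3)⟩)
(.lf ⟨(nat_lit 0x86c89a2), (nat_lit 5), (nat_lit 0x1b9a26c86c8), (nat_lit 7)⟩))
(.lf ⟨(nat_lit 198), (nat_lit 2), (nat_lit 387), (nat_lit 2)⟩))
(.nd (.lf ⟨(nat_lit 0x241089042), (nat_lit 6), (nat_lit 0x89042241), (nat_lit 6)⟩)
(.lf ⟨(nat_lit 0x844844), (nat_lit 4), (nat_lit 0), (nat_lit 0)⟩)))
(.nd (.nd (.lf ⟨(nat_lit 0x1201), (nat_lit 3), (nat_lit 0x42042), (nat_lit 4)⟩)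
(.lf ⟨(nat_lit 100), (nat_lit 2), (nat_lit 0x901), (nat_lit 2)⟩))
(.nd (.lf ⟨(nat_lit 0x14c14c), (nat_lit 4), (nat_lit 0x305305), (nat_lit 4)⟩)
(.lf ⟨(nat_lit 0), (nat_lit 0), (nat_lit 130), (nat_lit 2)⟩)))))
(.nd (.nd (.nd (.nd (.nd (.lf ⟨(nat_lit 40), (nat_lit 1), (nat_lit 0x63063), (nat_lit 4)⟩)
(.lf ⟨(nat_lit 0x4d6), (nat_lit 2), (nat_lit 0x593), (nat_lit 2)⟩))
(.lf ⟨(nat_lit 283), (nat_lit 2), (nat_lit 0x6c4), (nat_lit 2)⟩))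
(.nd (.lf ⟨(nat_lit 0x28204a081), (nat_lit 6), (nat_lit 0x4a081282), (nat_lit 6)⟩)
(.lf ⟨(nat_lit 0x3e23cf88f), (nat_lit 6), (nat_lit 0), (nat_lit 0)⟩)))
(.nd (.nd (.nd (.lf ⟨(nat_lit 103), (nat_lit 2), (nat_lit 0x2c9c1), (nat_lit 3)⟩)
(.lf ⟨(nat_lit 0x803803), (nat_lit 4), (nat_lit 0xc38030c3803), (nat_lit 8)⟩))
(.lf ⟨(nat_lit 346), (nat_lit 2), (nat_lit 0x685), (nat_lit 2)⟩))
(.nd (.lf ⟨(nat_lit 0xd60d6), (nat_lit 4), (nat_lit 0x583583), (nat_lit 4)⟩)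
(.lf ⟨(nat_lit 0x9989), (nat_lit 3), (nat_lit 0x262241262241), (nat_lit 8)⟩))))
(.nd (.nd (.nd (.nd (.lf ⟨(nat_lit 0x618), (nat_lit 2), (nat_lit 0), (nat_lit 0)⟩)
(.lf ⟨(nat_lit 20), (nat_lit 1), (nat_lit 0x4e04e), (nat_lit 4)⟩))
(.lf ⟨(nat_lit 0x5de), (nat_lit 2), (nat_lit 0x797), (nat_lit 2)⟩))
(.nd (.lf ⟨(nat_lit 0x20b20b), (nat_lit 4), (nat_lit 0x2c82c8), (nat_lit 4)⟩)
(.lf ⟨(nat_lit 0x6607198), (nat_lit 5), (nat_lit 0x181c6606), (nat_lit 5)⟩)))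
(.nd (.nd (.lf ⟨(nat_lit 0x30c12453890c1), (nat_lit 9), (nat_lit 0x304914e243043), (nat_lit 9)⟩)
(.lf ⟨(nat_lit 335), (nat_lit 2), (nat_lit 0x1e3c5), (nat_lit 3)⟩))
(.nd (.lf ⟨(nat_lit 0x2cf2cf), (nat_lit 4), (nat_lit 0x3cb3cb), (nat_lit 4)⟩)
(.lf ⟨(nat_lit 0xc91c91c3247247), (nat_lit 10), (nat_lit 0xc91c91c3247247), (nat_lit 10)⟩))))))
(.nd (.nd (.nd (.nd (.nd (.nd (.lf ⟨(nat_lit 25), (nat_lit 1), (nat_lit 0x90090), (nat_lit 4)⟩)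
(.lf ⟨(nat_lit 0x108108), (nat_lit 4), (nat_lit 0x108108), (nat_lit 4)⟩))
(.lf ⟨(nat_lit 80), (nat_lit 2), (nat_lit 0x401), (nat_lit 2)⟩))
(.nd (.lf ⟨(nat_lit 845), (nat_lit 2), (nat_lit 0), (nat_lit 0)⟩)
(.lf ⟨(nat_lit 521), (nat_lit 2), (nat_lit 0x13248), (nat_lit 3)⟩)))
(.nd (.nd (.nd (.lf ⟨(nat_lit 0x9e7), (nat_lit 2), (nat_lit 0), (nat_lit 0)⟩)
(.lf ⟨(nat_lit 0xa7d621f288), (nat_lit 7), (nat_lit 0x29f28829f288), (nat_lit 8)⟩))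
(.lf ⟨(nat_lit 274), (nat_lit 2), (nat_lit 0x948c40b91d40b24c2dd2c4), (nat_lit 15)⟩))
(.nd (.lf ⟨(nat_lit 156), (nat_lit 2), (nat_lit 0x45c448448442), (nat_lit 8)⟩)
(.lf ⟨(nat_lit 0xc44c41c44c41c3113107113107), (nat_lit 18), (nat_lit 0xc44c41c44c41c3113107113107), (nat_lit 18)⟩))))
(.nd (.nd (.nd (.nd (.lf ⟨(nat_lit 0x4d04d), (nat_lit 4), (nat_lit 0x341341), (nat_lit 4)⟩)
(.lf ⟨(nat_lit 0x720), (nat_lit 2), (nat_lit 0x81c), (nat_lit 2)⟩))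
(.lf ⟨(nat_lit 851), (nat_lit 2), (nat_lit 0x4cd), (nat_lit 2)⟩))
(.nd (.lf ⟨(nat_lit 268), (nat_lit 2), (nat_lit 0x30b28b284), (nat_lit 6)⟩)
(.lf ⟨(nat_lit 0x76991d25da64749), (nat_lit 10), (nat_lit 0), (nat_lit 0)⟩)))
(.nd (.nd (.lf ⟨(nat_lit 0x2c40cb103), (nat_lit 6), (nat_lit 0xc40c4), (nat_lit 4)⟩)
(.lf ⟨(nat_lit 210), (nat_lit 2), (nat_lit 0x48c14c143), (nat_lit 6)⟩))
(.nd (.lf ⟨(nat_lit 0x28d28d), (nat_lit 4), (nat_lit 0x34a34a), (nat_lit 4)⟩)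
(.lf ⟨(nat_lit 0x1426da40b38b5026da40b38b50509b6902ce2d409b6902ce2d4), (nat_lit 34), (nat_lit 0x1426da40b38b5026da40b38b50509b6902ce2d409b6902ce2d4), (nat_lit 34)⟩)))))
(.nd (.nd (.nd (.nd (.nd (.lf ⟨(nat_lit 585), (nat_lit 2), (nat_lit 0), (nat_lit 0)⟩)
(.lf ⟨(nat_lit 0x19e19e19e19e), (nat_lit 8), (nat_lit 0), (nat_lit 0)⟩))
(.lf ⟨(nat_lit 0xb5cf2cf), (nat_lit 5), (nat_lit 0xf2d73cb), (nat_lit 5)⟩))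
(.nd (.lf ⟨(nat_lit 0x24d24d), (nat_lit 4), (nat_lit 0x349349), (nat_lit 4)⟩)
(.lf ⟨(nat_lit 0x38508e142), (nat_lit 6), (nat_lit 0x8e142385), (nat_lit 6)⟩)))
(.nd (.nd (.nd (.lf ⟨(nat_lit 0x850c11430421430450c1), (nat_lit 14), (nat_lit 0x850c11430421430450c1), (nat_lit 14)⟩)
(.lf ⟨(nat_lit 0x1de1de), (nat_lit 4), (nat_lit 0x787787), (nat_lit 4)⟩))
(.lf ⟨(nat_lit 0x5509), (nat_lit 3), (nat_lit 0x50e24550e), (nat_lit 6)⟩))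
(.nd (.lf ⟨(nat_lit 0x11a11a), (nat_lit 4), (nat_lit 0x684684), (nat_lit 4)⟩)
(.lf ⟨(nat_lit 477), (nat_lit 2), (nat_lit 0x747), (nat_lit 2)⟩))))
(.nd (.nd (.nd (.nd (.lf ⟨(nat_lit 273), (nat_lit 2), (nat_lit 0x1d444), (nat_lit 3)⟩)
(.lf ⟨(nat_lit 0x414), (nat_lit 2), (nat_lit 0x510), (nat_lit 2)⟩))
(.lf ⟨(nat_lit 221), (nat_lit 2), (nat_lit 0x2dd44a44b1cc44b1cc2911cb1c3), (nat_lit 18)⟩))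
(.nd (.lf ⟨(nat_lit 0x353353), (nat_lit 4), (nat_lit 0x4cd4cd), (nat_lit 4)⟩)
(.lf ⟨(nat_lit 0), (nat_lit 0), (nat_lit 195), (nat_lit 2)⟩)))
(.nd (.nd (.lf ⟨(nat_lit 0xc32c3), (nat_lit 4), (nat_lit 0xcb0c3), (nat_lit 4)⟩)
(.lf ⟨(nat_lit 525), (nat_lit 2), (nat_lit 840), (nat_lit 2)⟩))
(.nd (.lf ⟨(nat_lit 0x604604), (nat_lit 4), (nat_lit 0), (nat_lit 0)⟩)
(.lf ⟨(nat_lit 0xa1dd30b), (nat_lit 5), (nat_lit 0x2c77512c774c44b287), (nat_lit 12)⟩))))))))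
(.nd (.nd (.nd (.nd (.nd (.nd (.nd (.nd (.lf ⟨(nat_lit 0x83083), (nat_lit 4), (nat_lit 7), (nat_lit 1)⟩)
(.lf ⟨(nat_lit 101), (nat_lit 2), (nat_lit 0x941), (nat_lit 2)⟩))
(.lf ⟨(nat_lit 0x582116084), (nat_lit 6), (nat_lit 0x116084582), (nat_lit 6)⟩))
(.nd (.lf ⟨(nat_lit 0x142142), (nat_lit 4), (nat_lit 0x85085), (nat_lit 4)⟩)
(.lf ⟨(nat_lit 0x547), (nat_lit 2), (nat_lit 469), (nat_lit 2)⟩)))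
(.nd (.nd (.nd (.lf ⟨(nat_lit 89), (nat_lit 2), (nat_lit 0x20641), (nat_lit 3)⟩)
(.lf ⟨(nat_lit 0xc56027d81c215809f60708315809f6070856027d81c2), (nat_lit 30), (nat_lit 0xc56027d81c215809f60708315809f6070856027d81c2), (nat_lit 30)⟩))
(.lf ⟨(nat_lit 0x9ec), (nat_lit 2), (nat_lit 0xb27), (nat_lit 2)⟩))
(.nd (.lf ⟨(nat_lit 96), (nat_lit 2), (nat_lit 0x660660660641), (nat_lit 8)⟩)
(.lf ⟨(nat_lit 9), (nat_lit 1), (nat_lit 0x101101), (nat_lit 4)⟩))))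
(.nd (.nd (.nd (.nd (.lf ⟨(nat_lit 390), (nat_lit 2), (nat_lit 0), (nat_lit 0)⟩)
(.lf ⟨(nat_lit 0), (nat_lit 0), (nat_lit 0x5b21b2016c86c8), (nat_lit 10)⟩))
(.lf ⟨(nat_lit 653), (nat_lit 2), (nat_lit 842), (nat_lit 2)⟩))
(.nd (.lf ⟨(nat_lit 0x143143), (nat_lit 4), (nat_lit 0), (nat_lit 0)⟩)
(.lf ⟨(nat_lit 0x48c48c), (nat_lit 4), (nat_lit 0), (nat_lit 0)⟩)))
(.nd (.nd (.lf ⟨(nat_lit 199), (nat_lit 2), (nat_lit 451), (nat_lit 2)⟩)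
(.lf ⟨(nat_lit 730), (nat_lit 2), (nat_lit 0x68b), (nat_lit 2)⟩))
(.nd (.lf ⟨(nat_lit 0x210210), (nat_lit 4), (nat_lit 0x408408), (nat_lit 4)⟩)
(.lf ⟨(nat_lit 8), (nat_lit 1), (nat_lit 0x81081), (nat_lit 4)⟩)))))
(.nd (.nd (.nd (.nd (.nd (.lf ⟨(nat_lit 36), (nat_lit 1), (nat_lit 0x5d05d), (nat_lit 4)⟩)
(.lf ⟨(nat_lit 275), (nat_lit 2), (nat_lit 0x4c4), (nat_lit 2)⟩))
(.lf ⟨(nat_lit 269), (nat_lit 2), (nat_lit 0x24d289284), (nat_lit 6)⟩))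
(.nd (.lf ⟨(nat_lit 0x451), (nat_lit 2), (nat_lit 0), (nat_lit 0)⟩)
(.lf ⟨(nat_lit 0x28774b), (nat_lit 4), (nat_lit 0x73112c730a1d1), (nat_lit 9)⟩)))
(.nd (.nd (.nd (.lf ⟨(nat_lit 0xaeb), (nat_lit 2), (nat_lit 0), (nat_lit 0)⟩)
(.lf ⟨(nat_lit 221), (nat_lit 2), (nat_lit 0x743), (nat_lit 2)⟩))
(.lf ⟨(nat_lit 540), (nat_lit 2), (nat_lit 0x708), (nat_lit 2)⟩))
(.nd (.lf ⟨(nat_lit 160), (nat_lit 2), (nat_lit 0x419420419402), (nat_lit 8)⟩)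
(.lf ⟨(nat_lit 0), (nat_lit 0), (nat_lit 260), (nat_lit 2)⟩))))
(.nd (.nd (.nd (.nd (.lf ⟨(nat_lit 0xcf0cf), (nat_lit 4), (nat_lit 0x3c33c3), (nat_lit 4)⟩)
(.lf ⟨(nat_lit 732), (nat_lit 2), (nat_lit 0x71141140b), (nat_lit 6)⟩))
(.lf ⟨(nat_lit 0xb1d1), (nat_lit 3), (nat_lit 0x74472c7), (nat_lit 5)⟩))
(.nd (.lf ⟨(nat_lit 0x414b), (nat_lit 3), (nat_lit 0x52c5105), (nat_lit 5)⟩)
(.lf ⟨(nat_lit 0x158158), (nat_lit 4), (nat_lit 0x605605), (nat_lit 4)⟩)))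
(.nd (.nd (.lf ⟨(nat_lit 0x41141), (nat_lit 4), (nat_lit 0x45041), (nat_lit 4)⟩)
(.lf ⟨(nat_lit 517), (nat_lit 2), (nat_lit 0x7148), (nat_lit 3)⟩))
(.nd (.lf ⟨(nat_lit 0x2c62c6), (nat_lit 4), (nat_lit 0x18b18b), (nat_lit 4)⟩)
(.lf ⟨(nat_lit 13), (nat_lit 1), (nat_lit 0x242242), (nat_lit 4)⟩))))))
(.nd (.nd (.nd (.nd (.nd (.nd (.lf ⟨(nat_lit 21), (nat_lit 1), (nat_lit 0x8e08e), (nat_lit 4)⟩)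
(.lf ⟨(nat_lit 0x3cb3c360f2d82cf0d83cb60b3cf2cf0d83cb60b3c360f2d82cf), (nat_lit 34), (nat_lit 0x3cb3c360f2d82cf0d83cb60b3cf2cf0d83cb60b3c360f2d82cf), (nat_lit 34)⟩))
(.lf ⟨(nat_lit 206), (nat_lit 2), (nat_lit 0x38c38c24c38c243), (nat_lit 10)⟩))
(.nd (.lf ⟨(nat_lit 82), (nat_lit 2), (nat_lit 0x312312312301), (nat_lit 8)⟩)
(.lf ⟨(nat_lit 990), (nat_lit 2), (nat_lit 0x78f), (nat_lit 2)⟩)))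
(.nd (.nd (.nd (.lf ⟨(nat_lit 0x62062), (nat_lit 4), (nat_lit 0x881881), (nat_lit 4)⟩)
(.lf ⟨(nat_lit 0x29f28a7ca), (nat_lit 6), (nat_lit 0), (nat_lit 0)⟩))
(.lf ⟨(nat_lit 522), (nat_lit 2), (nat_lit 0x16288), (nat_lit 3)⟩))
(.nd (.lf ⟨(nat_lit 0x182046081), (nat_lit 6), (nat_lit 0x46081182), (nat_lit 6)⟩)
(.lf ⟨(nat_lit 0x844cb0d31030844cb0d3103), (nat_lit 16), (nat_lit 0x844cb0d31030844cb0d3103), (nat_lit 16)⟩))))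
(.nd (.nd (.nd (.nd (.lf ⟨(nat_lit 139), (nat_lit 2), (nat_lit 0x112c2), (nat_lit 3)⟩)
(.lf ⟨(nat_lit 0x411411411411), (nat_lit 8), (nat_lit 0), (nat_lit 0)⟩))
(.lf ⟨(nat_lit 786), (nat_lit 2), (nat_lit 0x48c), (nat_lit 2)⟩))
(.nd (.lf ⟨(nat_lit 218), (nat_lit 2), (nat_lit 0x41a41a41a403), (nat_lit 8)⟩)
(.lf ⟨(nat_lit 0x74415d105), (nat_lit 6), (nat_lit 0x74415d105), (nat_lit 6)⟩)))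
(.nd (.nd (.lf ⟨(nat_lit 0x41201), (nat_lit 4), (nat_lit 0x48041), (nat_lit 4)⟩)
(.lf ⟨(nat_lit 673), (nat_lit 2), (nat_lit 0x84a), (nat_lit 2)⟩))
(.nd (.lf ⟨(nat_lit 0x5245389), (nat_lit 5), (nat_lit 0xe2452ce2c92ce2c5), (nat_lit 11)⟩)
(.lf ⟨(nat_lit 0x1b6902ce2d4), (nat_lit 7), (nat_lit 0x144144), (nat_lit 4)⟩)))))
(.nd (.nd (.nd (.nd (.nd (.lf ⟨(nat_lit 0x43043), (nat_lit 4), (nat_lit 0xc10c1), (nat_lit 4)⟩)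
(.lf ⟨(nat_lit 0x9e09e), (nat_lit 4), (nat_lit 0x9e09e), (nat_lit 4)⟩))
(.lf ⟨(nat_lit 916), (nat_lit 2), (nat_lit 0x50e), (nat_lit 2)⟩))
(.nd (.lf ⟨(nat_lit 0x8c08c), (nat_lit 4), (nat_lit 0x302302), (nat_lit 4)⟩)
(.lf ⟨(nat_lit 0x642182642182), (nat_lit 8), (nat_lit 0x182642182642), (nat_lit 8)⟩)))
(.nd (.nd (.nd (.lf ⟨(nat_lit 195), (nat_lit 2), (nat_lit 0), (nat_lit 0)⟩)
(.lf ⟨(nat_lit 0xc878778720321e1de1c8), (nat_lit 14), (nat_lit 0xc878778720321e1de1c8), (nat_lit 14)⟩))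
(.lf ⟨(nat_lit 0x287291), (nat_lit 4), (nat_lit 0xc1d12c730a1dd2ca), (nat_lit 11)⟩))
(.nd (.lf ⟨(nat_lit 0x3d83d8), (nat_lit 4), (nat_lit 0x60f60f), (nat_lit 4)⟩)
(.lf ⟨(nat_lit 0x107107), (nat_lit 4), (nat_lit 0x107107), (nat_lit 4)⟩))))
(.nd (.nd (.nd (.nd (.lf ⟨(nat_lit 0x71c), (nat_lit 2), (nat_lit 0), (nat_lit 0)⟩)
(.lf ⟨(nat_lit 270), (nat_lit 2), (nat_lit 0x1b384), (nat_lit 3)⟩))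
(.lf ⟨(nat_lit 0x723), (nat_lit 2), (nat_lit 0x8dc), (nat_lit 2)⟩))
(.nd (.lf ⟨(nat_lit 0x481481), (nat_lit 4), (nat_lit 0x52052), (nat_lit 4)⟩)
(.lf ⟨(nat_lit 278), (nat_lit 2), (nat_lit 0x1660f34f34a2563d334f3563d334f34a244), (nat_lit 23)⟩)))
(.nd (.nd (.lf ⟨(nat_lit 0xc2282), (nat_lit 4), (nat_lit 0xc228730a0c208a083), (nat_lit 12)⟩)
(.lf ⟨(nat_lit 603), (nat_lit 2), (nat_lit 0x6c9), (nat_lit 2)⟩))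
(.nd (.lf ⟨(nat_lit 0x38908e242), (nat_lit 6), (nat_lit 0x8e242389), (nat_lit 6)⟩)
(.lf ⟨(nat_lit 0x138b38b), (nat_lit 5), (nat_lit 0xe2ce2c1), (nat_lit 5)⟩)))))))
(.nd (.nd (.nd (.nd (.nd (.nd (.nd (.lf ⟨(nat_lit 13), (nat_lit 1), (nat_lit 0x89089), (nat_lit 4)⟩)
(.lf ⟨(nat_lit 0x34e34e), (nat_lit 4), (nat_lit 0x38d38d), (nat_lit 4)⟩))
(.lf ⟨(nat_lit 0x1c11c1), (nat_lit 4), (nat_lit 0), (nat_lit 0)⟩))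
(.nd (.lf ⟨(nat_lit 0x283283), (nat_lit 4), (nat_lit 0xca0ca), (nat_lit 4)⟩)
(.lf ⟨(nat_lit 0x3ca0cf283), (nat_lit 6), (nat_lit 0xcf2833ca), (nat_lit 6)⟩)))
(.nd (.nd (.nd (.lf ⟨(nat_lit 0x8e3), (nat_lit 2), (nat_lit 0), (nat_lit 0)⟩)
(.lf ⟨(nat_lit 0x5a05), (nat_lit 3), (nat_lit 0x163141163141), (nat_lit 8)⟩))
(.lf ⟨(nat_lit 586), (nat_lit 2), (nat_lit 0x18289), (nat_lit 3)⟩))
(.nd (.lf ⟨(nat_lit 100), (nat_lit 2), (nat_lit 0x764764764741), (nat_lit 8)⟩)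
(.lf ⟨(nat_lit 347), (nat_lit 2), (nat_lit 0x6c5), (nat_lit 2)⟩))))
(.nd (.nd (.nd (.nd (.lf ⟨(nat_lit 0x4a04a), (nat_lit 4), (nat_lit 0x281281), (nat_lit 4)⟩)
(.lf ⟨(nat_lit 550), (nat_lit 2), (nat_lit 0x988), (nat_lit 2)⟩))
(.lf ⟨(nat_lit 269), (nat_lit 2), (nat_lit 0x34a24a244), (nat_lit 6)⟩))
(.nd (.lf ⟨(nat_lit 269), (nat_lit 2), (nat_lit 0x24d24a24a244), (nat_lit 8)⟩)
(.lf ⟨(nat_lit 0xa04a04), (nat_lit 4), (nat_lit 0), (nat_lit 0)⟩)))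
(.nd (.nd (.lf ⟨(nat_lit 0x4a10228408128408a102), (nat_lit 14), (nat_lit 0x4a10228408128408a102), (nat_lit 14)⟩)
(.lf ⟨(nat_lit 223), (nat_lit 2), (nat_lit 0x7c3), (nat_lit 2)⟩))
(.nd (.lf ⟨(nat_lit 0x5286), (nat_lit 3), (nat_lit 0xa18a14a), (nat_lit 5)⟩)
(.lf ⟨(nat_lit 0x278509e), (nat_lit 5), (nat_lit 0x78509e182), (nat_lit 6)⟩)))))
(.nd (.nd (.nd (.nd (.nd (.lf ⟨(nat_lit 44), (nat_lit 1), (nat_lit 0x67067), (nat_lit 4)⟩)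
(.lf ⟨(nat_lit 659), (nat_lit 2), (nat_lit 0x4ca), (nat_lit 2)⟩))
(.lf ⟨(nat_lit 0xa2cc), (nat_lit 3), (nat_lit 0xb30b28b), (nat_lit 5)⟩))
(.nd (.lf ⟨(nat_lit 88), (nat_lit 2), (nat_lit 0x28f29828f281), (nat_lit 8)⟩)
(.lf ⟨(nat_lit 0x801801), (nat_lit 4), (nat_lit 0), (nat_lit 0)⟩)))
(.nd (.nd (.nd (.lf ⟨(nat_lit 0xe90e9), (nat_lit 4), (nat_lit 0xa43a43), (nat_lit 4)⟩)
(.lf ⟨(nat_lit 0), (nat_lit 0), (nat_lit 0xe00c3803), (nat_lit 6)⟩))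
(.lf ⟨(nat_lit 667), (nat_lit 2), (nat_lit 0x276ca), (nat_lit 3)⟩))
(.nd (.lf ⟨(nat_lit 223), (nat_lit 2), (nat_lit 0x61f61f61f603), (nat_lit 8)⟩)
(.lf ⟨(nat_lit 0x9893222248), (nat_lit 7), (nat_lit 0x262248262248), (nat_lit 8)⟩))))
(.nd (.nd (.nd (.nd (.lf ⟨(nat_lit 144), (nat_lit 2), (nat_lit 0x19402), (nat_lit 3)⟩)
(.lf ⟨(nat_lit 0x51b), (nat_lit 2), (nat_lit 0x6d4), (nat_lit 2)⟩))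
(.lf ⟨(nat_lit 279), (nat_lit 2), (nat_lit 0xb7d85cf2d83c4), (nat_lit 9)⟩))
(.nd (.lf ⟨(nat_lit 0x14b14b), (nat_lit 4), (nat_lit 0x2c52c5), (nat_lit 4)⟩)
(.lf ⟨(nat_lit 0x5607), (nat_lit 3), (nat_lit 0x181d8158), (nat_lit 5)⟩)))
(.nd (.nd (.lf ⟨(nat_lit 0x32c3), (nat_lit 3), (nat_lit 0xc40c4), (nat_lit 4)⟩)
(.lf ⟨(nat_lit 336), (nat_lit 2), (nat_lit 0x405), (nat_lit 2)⟩))
(.nd (.lf ⟨(nat_lit 0x30a04c281), (nat_lit 6), (nat_lit 0x4c28130a), (nat_lit 6)⟩)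
(.lf ⟨(nat_lit 0xd247247), (nat_lit 5), (nat_lit 0x91c91cd), (nat_lit 5)⟩))))))
(.nd (.nd (.nd (.nd (.nd (.nd (.lf ⟨(nat_lit 29), (nat_lit 1), (nat_lit 0x111111), (nat_lit 4)⟩)
(.lf ⟨(nat_lit 22), (nat_lit 1), (nat_lit 0x8f08f), (nat_lit 4)⟩))
(.lf ⟨(nat_lit 82), (nat_lit 2), (nat_lit 0x481), (nat_lit 2)⟩))
(.nd (.lf ⟨(nat_lit 0x381381), (nat_lit 4), (nat_lit 0x4e04e), (nat_lit 4)⟩)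
(.lf ⟨(nat_lit 282), (nat_lit 2), (nat_lit 0x1a6d02c915b39015b38b244), (nat_lit 15)⟩)))
(.nd (.nd (.nd (.lf ⟨(nat_lit 99), (nat_lit 2), (nat_lit 0x288c1), (nat_lit 3)⟩)
(.lf ⟨(nat_lit 0xa1d81d828a7d621f288), (nat_lit 13), (nat_lit 0xa7d621f28828760760a), (nat_lit 13)⟩))
(.lf ⟨(nat_lit 229), (nat_lit 2), (nat_lit 0x1657c57c3), (nat_lit 6)⟩))
(.nd (.lf ⟨(nat_lit 0x3d63d6), (nat_lit 4), (nat_lit 0x58f58f), (nat_lit 4)⟩)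
(.lf ⟨(nat_lit 0xd3d3), (nat_lit 3), (nat_lit 0x133d33d334f), (nat_lit 7)⟩))))
(.nd (.nd (.nd (.nd (.lf ⟨(nat_lit 0x514), (nat_lit 2), (nat_lit 0), (nat_lit 0)⟩)
(.lf ⟨(nat_lit 0x20411411), (nat_lit 5), (nat_lit 0x10450460), (nat_lit 5)⟩))
(.lf ⟨(nat_lit 0x930e), (nat_lit 3), (nat_lit 0xc38c24c), (nat_lit 5)⟩))
(.nd (.lf ⟨(nat_lit 280), (nat_lit 2), (nat_lit 0x3d83d83d83c4), (nat_lit 8)⟩)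
(.lf ⟨(nat_lit 6), (nat_lit 1), (nat_lit 0x142142), (nat_lit 4)⟩)))
(.nd (.nd (.lf ⟨(nat_lit 0xc12c40cb10304b1032c40c304b1032c40c12c40cb103), (nat_lit 30), (nat_lit 0xc12c40cb10304b1032c40c304b1032c40c12c40cb103), (nat_lit 30)⟩)
(.lf ⟨(nat_lit 0x469), (nat_lit 2), (nat_lit 0xa51), (nat_lit 2)⟩))
(.nd (.lf ⟨(nat_lit 0x290290), (nat_lit 4), (nat_lit 0x40a40a), (nat_lit 4)⟩)
(.lf ⟨(nat_lit 324), (nat_lit 2), (nat_lit 0x1b6902ce2d4105), (nat_lit 9)⟩)))))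
(.nd (.nd (.nd (.nd (.nd (.lf ⟨(nat_lit 132), (nat_lit 2), (nat_lit 0xa102), (nat_lit 3)⟩)
(.lf ⟨(nat_lit 0x3c119e19e), (nat_lit 6), (nat_lit 0x19e19e3c1), (nat_lit 6)⟩))
(.lf ⟨(nat_lit 0xa6d0290), (nat_lit 5), (nat_lit 0x1029b40a), (nat_lit 5)⟩))
(.nd (.lf ⟨(nat_lit 150), (nat_lit 2), (nat_lit 0x3d63d63d63c2), (nat_lit 8)⟩)
(.lf ⟨(nat_lit 0x5587156), (nat_lit 5), (nat_lit 0x161c5585), (nat_lit 5)⟩)))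
(.nd (.nd (.nd (.lf ⟨(nat_lit 0xc11c11c3047047), (nat_lit 10), (nat_lit 0xc11c11c3047047), (nat_lit 10)⟩)
(.lf ⟨(nat_lit 138), (nat_lit 2), (nat_lit 642), (nat_lit 2)⟩))
(.lf ⟨(nat_lit 90), (nat_lit 2), (nat_lit 0x681), (nat_lit 2)⟩))
(.nd (.lf ⟨(nat_lit 291), (nat_lit 2), (nat_lit 0x723723723704), (nat_lit 8)⟩)
(.lf ⟨(nat_lit 0x587587), (nat_lit 4), (nat_lit 0x83583083583), (nat_lit 8)⟩))))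
(.nd (.nd (.nd (.nd (.lf ⟨(nat_lit 0x57057), (nat_lit 4), (nat_lit 0x5c15c1), (nat_lit 4)⟩)
(.lf ⟨(nat_lit 0), (nat_lit 0), (nat_lit 715), (nat_lit 2)⟩))
(.lf ⟨(nat_lit 0x8a6), (nat_lit 2), (nat_lit 0x9a2), (nat_lit 2)⟩))
(.nd (.lf ⟨(nat_lit 0x555), (nat_lit 2), (nat_lit 0), (nat_lit 0)⟩)
(.lf ⟨(nat_lit 0xe4164143), (nat_lit 6), (nat_lit 0xe40c50e40c5), (nat_lit 8)⟩)))
(.nd (.nd (.lf ⟨(nat_lit 204), (nat_lit 2), (nat_lit 0x1cc28728730a1cc283), (nat_lit 12)⟩)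
(.lf ⟨(nat_lit 0x2410c9043), (nat_lit 6), (nat_lit 0xc9043241), (nat_lit 6)⟩))
(.nd (.lf ⟨(nat_lit 167), (nat_lit 2), (nat_lit 0x6e26e76e26c2), (nat_lit 8)⟩)
(.lf ⟨(nat_lit 0xd02d84182c340b61060b), (nat_lit 14), (nat_lit 0xd02d84182c340b61060b), (nat_lit 14)⟩)))))))))
(.nd (.nd (.nd (.nd (.nd (.nd (.nd (.nd (.nd (.lf ⟨(nat_lit 195), (nat_lit 2), (nat_lit 0), (nat_lit 0)⟩)
(.lf ⟨(nat_lit 0x418418), (nat_lit 4), (nat_lit 0x610610), (nat_lit 4)⟩))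
(.lf ⟨(nat_lit 0x642642), (nat_lit 4), (nat_lit 0), (nat_lit 0)⟩))
(.nd (.lf ⟨(nat_lit 80), (nat_lit 2), (nat_lit 0x2d02d02d02c1), (nat_lit 8)⟩)
(.lf ⟨(nat_lit 0x383383), (nat_lit 4), (nat_lit 0), (nat_lit 0)⟩)))
(.nd (.nd (.nd (.lf ⟨(nat_lit 0x59059), (nat_lit 4), (nat_lit 0x641641), (nat_lit 4)⟩)
(.lf ⟨(nat_lit 0x15809f6070856027d81c2), (nat_lit 14), (nat_lit 0x15809f6070856027d81c2), (nat_lit 14)⟩))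
(.lf ⟨(nat_lit 0x96a), (nat_lit 2), (nat_lit 0xaa5), (nat_lit 2)⟩))
(.nd (.lf ⟨(nat_lit 0x659), (nat_lit 2), (nat_lit 0), (nat_lit 0)⟩)
(.lf ⟨(nat_lit 0xe41641430e4164143), (nat_lit 12), (nat_lit 0), (nat_lit 0)⟩))))
(.nd (.nd (.nd (.nd (.lf ⟨(nat_lit 202), (nat_lit 2), (nat_lit 0xc283), (nat_lit 3)⟩)
(.lf ⟨(nat_lit 0x6c86c8), (nat_lit 4), (nat_lit 0x21b20821b208), (nat_lit 8)⟩))
(.lf ⟨(nat_lit 0x2c72c7), (nat_lit 4), (nat_lit 0x1cb1cb), (nat_lit 4)⟩))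
(.nd (.lf ⟨(nat_lit 0x141085042), (nat_lit 6), (nat_lit 0x85042141), (nat_lit 6)⟩)
(.lf ⟨(nat_lit 0x744241744241), (nat_lit 8), (nat_lit 0x241744241744), (nat_lit 8)⟩)))
(.nd (.nd (.lf ⟨(nat_lit 135), (nat_lit 2), (nat_lit 0xc70c2), (nat_lit 4)⟩)
(.lf ⟨(nat_lit 282), (nat_lit 2), (nat_lit 0x68940b14e6d014e6cb244), (nat_lit 14)⟩))
(.nd (.lf ⟨(nat_lit 0x418a), (nat_lit 3), (nat_lit 0x6286106), (nat_lit 5)⟩)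
(.lf ⟨(nat_lit 0x587587), (nat_lit 4), (nat_lit 0x1d61d6), (nat_lit 4)⟩)))))
(.nd (.nd (.nd (.nd (.nd (.lf ⟨(nat_lit 34), (nat_lit 1), (nat_lit 0x9b09b), (nat_lit 4)⟩)
(.lf ⟨(nat_lit 979), (nat_lit 2), (nat_lit 0x4cf), (nat_lit 2)⟩))
(.lf ⟨(nat_lit 150), (nat_lit 2), (nat_lit 0x582), (nat_lit 2)⟩))
(.nd (.lf ⟨(nat_lit 0x401401), (nat_lit 4), (nat_lit 0x50050), (nat_lit 4)⟩)
(.lf ⟨(nat_lit 0x844b), (nat_lit 3), (nat_lit 0x81941c4502c8), (nat_lit 8)⟩)))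
(.nd (.nd (.nd (.lf ⟨(nat_lit 293), (nat_lit 2), (nat_lit 0x2a944), (nat_lit 3)⟩)
(.lf ⟨(nat_lit 0x44c), (nat_lit 2), (nat_lit 785), (nat_lit 2)⟩))
(.lf ⟨(nat_lit 518), (nat_lit 2), (nat_lit 392), (nat_lit 2)⟩))
(.nd (.lf ⟨(nat_lit 0x401401), (nat_lit 4), (nat_lit 0), (nat_lit 0)⟩)
(.lf ⟨(nat_lit 0), (nat_lit 0), (nat_lit 585), (nat_lit 2)⟩))))
(.nd (.nd (.nd (.nd (.lf ⟨(nat_lit 0x596), (nat_lit 2), (nat_lit 0), (nat_lit 0)⟩)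
(.lf ⟨(nat_lit 0x2411411), (nat_lit 5), (nat_lit 0x10450442), (nat_lit 5)⟩))
(.lf ⟨(nat_lit 0x41b), (nat_lit 2), (nat_lit 0x6d0), (nat_lit 2)⟩))
(.nd (.lf ⟨(nat_lit 0x420a), (nat_lit 3), (nat_lit 0x8288108), (nat_lit 5)⟩)
(.lf ⟨(nat_lit 0), (nat_lit 0), (nat_lit 0x87087), (nat_lit 4)⟩)))
(.nd (.nd (.lf ⟨(nat_lit 0xc1241), (nat_lit 4), (nat_lit 0xc12453890c1049043), (nat_lit 12)⟩)
(.lf ⟨(nat_lit 263), (nat_lit 2), (nat_lit 0xa44b1dd30b284), (nat_lit 9)⟩))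
(.nd (.lf ⟨(nat_lit 0x2cc2cc), (nat_lit 4), (nat_lit 0x30b30b), (nat_lit 4)⟩)
(.lf ⟨(nat_lit 261), (nat_lit 2), (nat_lit 0x146da40b38b144), (nat_lit 9)⟩))))))
(.nd (.nd (.nd (.nd (.nd (.nd (.lf ⟨(nat_lit 19), (nat_lit 1), (nat_lit 0x4d04d), (nat_lit 4)⟩)
(.lf ⟨(nat_lit 0), (nat_lit 0), (nat_lit 0x3cb3cb3cb3cb), (nat_lit 8)⟩))
(.lf ⟨(nat_lit 0xb3d0), (nat_lit 3), (nat_lit 0xf40f2cf), (nat_lit 5)⟩))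
(.nd (.lf ⟨(nat_lit 780), (nat_lit 2), (nat_lit 0), (nat_lit 0)⟩)
(.lf ⟨(nat_lit 602), (nat_lit 2), (nat_lit 0x689), (nat_lit 2)⟩)))
(.nd (.nd (.nd (.lf ⟨(nat_lit 0x965), (nat_lit 2), (nat_lit 0), (nat_lit 0)⟩)
(.lf ⟨(nat_lit 0x45a05), (nat_lit 4), (nat_lit 0x168141), (nat_lit 4)⟩))
(.lf ⟨(nat_lit 669), (nat_lit 2), (nat_lit 0x2dd2dd2dd2ca), (nat_lit 8)⟩))
(.nd (.lf ⟨(nat_lit 210), (nat_lit 2), (nat_lit 0x312305305303), (nat_lit 8)⟩)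
(.lf ⟨(nat_lit 0x1133d334f344), (nat_lit 8), (nat_lit 0x113102113102), (nat_lit 8)⟩))))
(.nd (.nd (.nd (.nd (.lf ⟨(nat_lit 0x8b08b), (nat_lit 4), (nat_lit 0x2c22c2), (nat_lit 4)⟩)
(.lf ⟨(nat_lit 0x411411), (nat_lit 4), (nat_lit 0x2dc2dc), (nat_lit 4)⟩))
(.lf ⟨(nat_lit 261), (nat_lit 2), (nat_lit 0x2502c53892c4), (nat_lit 8)⟩))
(.nd (.lf ⟨(nat_lit 215), (nat_lit 2), (nat_lit 0x3d73d73d73c3), (nat_lit 8)⟩)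
(.lf ⟨(nat_lit 5), (nat_lit 1), (nat_lit 0xc10c1), (nat_lit 4)⟩)))
(.nd (.nd (.lf ⟨(nat_lit 132), (nat_lit 2), (nat_lit 0x28408a102102), (nat_lit 8)⟩)
(.lf ⟨(nat_lit 167), (nat_lit 2), (nat_lit 0x9c2), (nat_lit 2)⟩))
(.nd (.lf ⟨(nat_lit 0x928d), (nat_lit 3), (nat_lit 0xa34a24a), (nat_lit 5)⟩)
(.lf ⟨(nat_lit 912), (nat_lit 2), (nat_lit 0x40e), (nat_lit 2)⟩)))))
(.nd (.nd (.nd (.nd (.nd (.lf ⟨(nat_lit 520), (nat_lit 2), (nat_lit 0), (nat_lit 0)⟩)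
(.lf ⟨(nat_lit 30), (nat_lit 1), (nat_lit 0x14f0453c1), (nat_lit 6)⟩))
(.lf ⟨(nat_lit 589), (nat_lit 2), (nat_lit 841), (nat_lit 2)⟩))
(.nd (.lf ⟨(nat_lit 91), (nat_lit 2), (nat_lit 0x2d02db2d02c1), (nat_lit 8)⟩)
(.lf ⟨(nat_lit 0x21b2086c8), (nat_lit 6), (nat_lit 0), (nat_lit 0)⟩)))
(.nd (.nd (.nd (.lf ⟨(nat_lit 65), (nat_lit 2), (nat_lit 0), (nat_lit 0)⟩)
(.lf ⟨(nat_lit 0x21e1de1c8), (nat_lit 6), (nat_lit 0x21e20721e207), (nat_lit 8)⟩))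
(.lf ⟨(nat_lit 856), (nat_lit 2), (nat_lit 0x60d), (nat_lit 2)⟩))
(.nd (.lf ⟨(nat_lit 0x116116), (nat_lit 4), (nat_lit 0x584584), (nat_lit 4)⟩)
(.lf ⟨(nat_lit 10), (nat_lit 1), (nat_lit 0x102102), (nat_lit 4)⟩))))
(.nd (.nd (.nd (.nd (.lf ⟨(nat_lit 272), (nat_lit 2), (nat_lit 0x1b404), (nat_lit 3)⟩)
(.lf ⟨(nat_lit 0x65c), (nat_lit 2), (nat_lit 0x719), (nat_lit 2)⟩))
(.lf ⟨(nat_lit 0x96d0), (nat_lit 3), (nat_lit 0x1b409), (nat_lit 3)⟩))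
(.nd (.lf ⟨(nat_lit 0x28b28b), (nat_lit 4), (nat_lit 0x2ca2ca), (nat_lit 4)⟩)
(.lf ⟨(nat_lit 593), (nat_lit 2), (nat_lit 0xa5d7288e475c449), (nat_lit 10)⟩)))
(.nd (.nd (.lf ⟨(nat_lit 0xc228730a0c20c228730a0c2), (nat_lit 16), (nat_lit 0), (nat_lit 0)⟩)
(.lf ⟨(nat_lit 270), (nat_lit 2), (nat_lit 0x1b2ce2c4), (nat_lit 5)⟩))
(.nd (.lf ⟨(nat_lit 0x74405d101), (nat_lit 6), (nat_lit 0x5d101744), (nat_lit 6)⟩)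
(.lf ⟨(nat_lit 276), (nat_lit 2), (nat_lit 0x38b38b504), (nat_lit 6)⟩)))))))
(.nd (.nd (.nd (.nd (.nd (.nd (.nd (.lf ⟨(nat_lit 12), (nat_lit 1), (nat_lit 0xca0ca), (nat_lit 4)⟩)
(.lf ⟨(nat_lit 0x1ce1ce), (nat_lit 4), (nat_lit 0xd50d5), (nat_lit 4)⟩))
(.lf ⟨(nat_lit 0x70111c044), (nat_lit 6), (nat_lit 0x11c044701), (nat_lit 6)⟩))
(.nd (.lf ⟨(nat_lit 145), (nat_lit 2), (nat_lit 0x2d12d12d12c2), (nat_lit 8)⟩)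
(.lf ⟨(nat_lit 729), (nat_lit 2), (nat_lit 0x65141140b), (nat_lit 6)⟩)))
(.nd (.nd (.nd (.lf ⟨(nat_lit 155), (nat_lit 2), (nat_lit 0x226c2), (nat_lit 3)⟩)
(.lf ⟨(nat_lit 0x1631458c5), (nat_lit 6), (nat_lit 0), (nat_lit 0)⟩))
(.lf ⟨(nat_lit 519), (nat_lit 2), (nat_lit 456), (nat_lit 2)⟩))
(.nd (.lf ⟨(nat_lit 0x75d), (nat_lit 2), (nat_lit 0), (nat_lit 0)⟩)
(.lf ⟨(nat_lit 0x44144141105105), (nat_lit 10), (nat_lit 0x44144141105105), (nat_lit 10)⟩))))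
(.nd (.nd (.nd (.nd (.lf ⟨(nat_lit 910), (nat_lit 2), (nat_lit 0), (nat_lit 0)⟩)
(.lf ⟨(nat_lit 0x6e6), (nat_lit 2), (nat_lit 0x99b), (nat_lit 2)⟩))
(.lf ⟨(nat_lit 209), (nat_lit 2), (nat_lit 0x2d11cb1c3), (nat_lit 6)⟩))
(.nd (.lf ⟨(nat_lit 0x244244), (nat_lit 4), (nat_lit 0), (nat_lit 0)⟩)
(.lf ⟨(nat_lit 0x2cb60b2cb60b), (nat_lit 8), (nat_lit 0x2d82cb2d82cb), (nat_lit 8)⟩)))
(.nd (.nd (.lf ⟨(nat_lit 0x28408a102), (nat_lit 6), (nat_lit 0x84084), (nat_lit 4)⟩)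
(.lf ⟨(nat_lit 160), (nat_lit 2), (nat_lit 0x802), (nat_lit 2)⟩))
(.nd (.lf ⟨(nat_lit 0x14f14f), (nat_lit 4), (nat_lit 0x3c53c5), (nat_lit 4)⟩)
(.lf ⟨(nat_lit 0), (nat_lit 0), (nat_lit 0x785785), (nat_lit 4)⟩)))))
(.nd (.nd (.nd (.nd (.nd (.lf ⟨(nat_lit 42), (nat_lit 1), (nat_lit 0x125125), (nat_lit 4)⟩)
(.lf ⟨(nat_lit 847), (nat_lit 2), (nat_lit 973), (nat_lit 2)⟩))
(.lf ⟨(nat_lit 210), (nat_lit 2), (nat_lit 0x31214c143), (nat_lit 6)⟩))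
(.nd (.lf ⟨(nat_lit 0x284284), (nat_lit 4), (nat_lit 0), (nat_lit 0)⟩)
(.lf ⟨(nat_lit 295), (nat_lit 2), (nat_lit 0x6099e2609898267898267884), (nat_lit 16)⟩)))
(.nd (.nd (.nd (.lf ⟨(nat_lit 0xb6d), (nat_lit 2), (nat_lit 0), (nat_lit 0)⟩)
(.lf ⟨(nat_lit 0x2e00e00cb803803), (nat_lit 10), (nat_lit 0x2e00e00cb803803), (nat_lit 10)⟩))
(.lf ⟨(nat_lit 287), (nat_lit 2), (nat_lit 0x2df60b604), (nat_lit 6)⟩))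
(.nd (.lf ⟨(nat_lit 0x3d73d7), (nat_lit 4), (nat_lit 0x5cf5cf), (nat_lit 4)⟩)
(.lf ⟨(nat_lit 8), (nat_lit 1), (nat_lit 0x42042), (nat_lit 4)⟩))))
(.nd (.nd (.nd (.nd (.lf ⟨(nat_lit 0x90090), (nat_lit 4), (nat_lit 0x402402), (nat_lit 4)⟩)
(.lf ⟨(nat_lit 718), (nat_lit 2), (nat_lit 907), (nat_lit 2)⟩))
(.lf ⟨(nat_lit 0x61f), (nat_lit 2), (nat_lit 0x7d8), (nat_lit 2)⟩))
(.nd (.lf ⟨(nat_lit 0x14a14a), (nat_lit 4), (nat_lit 0x285285), (nat_lit 4)⟩)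
(.lf ⟨(nat_lit 0x607607), (nat_lit 4), (nat_lit 0x1d81d8), (nat_lit 4)⟩)))
(.nd (.nd (.lf ⟨(nat_lit 206), (nat_lit 2), (nat_lit 0x14e24524538914e243), (nat_lit 12)⟩)
(.lf ⟨(nat_lit 279), (nat_lit 2), (nat_lit 0x1f2d85cf2d83c4), (nat_lit 9)⟩))
(.nd (.lf ⟨(nat_lit 0x840b20b), (nat_lit 5), (nat_lit 0xb2102c8), (nat_lit 5)⟩)
(.lf ⟨(nat_lit 0x247247247247), (nat_lit 8), (nat_lit 0), (nat_lit 0)⟩))))))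
(.nd (.nd (.nd (.nd (.nd (.nd (.lf ⟨(nat_lit 27), (nat_lit 1), (nat_lit 0x110110), (nat_lit 4)⟩)
(.lf ⟨(nat_lit 0x44204201108108), (nat_lit 10), (nat_lit 0x44204201108108), (nat_lit 10)⟩))
(.lf ⟨(nat_lit 141), (nat_lit 2), (nat_lit 834), (nat_lit 2)⟩))
(.nd (.lf ⟨(nat_lit 83), (nat_lit 2), (nat_lit 0x353353353341), (nat_lit 8)⟩)
(.lf ⟨(nat_lit 0xa1cc), (nat_lit 3), (nat_lit 0xc287), (nat_lit 3)⟩)))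
(.nd (.nd (.nd (.lf ⟨(nat_lit 0x63063), (nat_lit 4), (nat_lit 0x8c18c1), (nat_lit 4)⟩)
(.lf ⟨(nat_lit 0x8a7d621f28808a7d621f288), (nat_lit 16), (nat_lit 0x8a7d621f28808a7d621f288), (nat_lit 16)⟩))
(.lf ⟨(nat_lit 166), (nat_lit 2), (nat_lit 0x226888882), (nat_lit 6)⟩))
(.nd (.lf ⟨(nat_lit 0x395395), (nat_lit 4), (nat_lit 0x54e54e), (nat_lit 4)⟩)
(.lf ⟨(nat_lit 0xd3d334f), (nat_lit 5), (nat_lit 0x133d334f4cd), (nat_lit 7)⟩))))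
(.nd (.nd (.nd (.nd (.lf ⟨(nat_lit 77), (nat_lit 2), (nat_lit 0x13341), (nat_lit 3)⟩)
(.lf ⟨(nat_lit 0x20448448), (nat_lit 5), (nat_lit 0x11211220), (nat_lit 5)⟩))
(.lf ⟨(nat_lit 917), (nat_lit 2), (nat_lit 0x54e), (nat_lit 2)⟩))
(.nd (.lf ⟨(nat_lit 0x106106), (nat_lit 4), (nat_lit 0x184184), (nat_lit 4)⟩)
(.lf ⟨(nat_lit 0x601601), (nat_lit 4), (nat_lit 0), (nat_lit 0)⟩)))
(.nd (.nd (.lf ⟨(nat_lit 0x4b1032c40c12c40cb103), (nat_lit 14), (nat_lit 0x4b1032c40c12c40cb103), (nat_lit 14)⟩)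
(.lf ⟨(nat_lit 923), (nat_lit 2), (nat_lit 0x6ce), (nat_lit 2)⟩))
(.nd (.lf ⟨(nat_lit 0x28e28e), (nat_lit 4), (nat_lit 0x38a38a), (nat_lit 4)⟩)
(.lf ⟨(nat_lit 0x6da40b38b51b6902ce2d4), (nat_lit 14), (nat_lit 0), (nat_lit 0)⟩)))))
(.nd (.nd (.nd (.nd (.nd (.lf ⟨(nat_lit 0x84084), (nat_lit 4), (nat_lit 0x102102), (nat_lit 4)⟩)
(.lf ⟨(nat_lit 0x1961c5585), (nat_lit 6), (nat_lit 0x587156146), (nat_lit 6)⟩))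
(.lf ⟨(nat_lit 0xb60f2cf), (nat_lit 5), (nat_lit 0xf2d83cb), (nat_lit 5)⟩))
(.nd (.lf ⟨(nat_lit 149), (nat_lit 2), (nat_lit 0x395395395382), (nat_lit 8)⟩)
(.lf ⟨(nat_lit 0x588588), (nat_lit 4), (nat_lit 0), (nat_lit 0)⟩)))
(.nd (.nd (.nd (.lf ⟨(nat_lit 0x421430450c10850c11430410850c11430421430450c1), (nat_lit 30), (nat_lit 0x421430450c10850c11430410850c11430421430450c1), (nat_lit 30)⟩)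
(.lf ⟨(nat_lit 0x83083), (nat_lit 4), (nat_lit 7), (nat_lit 1)⟩))
(.lf ⟨(nat_lit 86), (nat_lit 2), (nat_lit 0x581), (nat_lit 2)⟩))
(.nd (.lf ⟨(nat_lit 0x41b41b), (nat_lit 4), (nat_lit 0x6d06d0), (nat_lit 4)⟩)
(.lf ⟨(nat_lit 0xd60c3583), (nat_lit 6), (nat_lit 0), (nat_lit 0)⟩))))
(.nd (.nd (.nd (.nd (.lf ⟨(nat_lit 455), (nat_lit 2), (nat_lit 0), (nat_lit 0)⟩)
(.lf ⟨(nat_lit 0x844b), (nat_lit 3), (nat_lit 0x81c6504502c8), (nat_lit 8)⟩))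
(.lf ⟨(nat_lit 0x57d8), (nat_lit 3), (nat_lit 0x95f605), (nat_lit 4)⟩))
(.nd (.lf ⟨(nat_lit 0x501501), (nat_lit 4), (nat_lit 0x54054), (nat_lit 4)⟩)
(.lf ⟨(nat_lit 0x83903083903), (nat_lit 8), (nat_lit 0x83903083903), (nat_lit 8)⟩)))
(.nd (.nd (.lf ⟨(nat_lit 0x30c228730a0c2), (nat_lit 9), (nat_lit 0x308a1cc283083), (nat_lit 9)⟩)
(.lf ⟨(nat_lit 0x28774b), (nat_lit 4), (nat_lit 0xc1d12c730a1d1), (nat_lit 9)⟩))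
(.nd (.lf ⟨(nat_lit 0x6c46c4), (nat_lit 4), (nat_lit 0), (nat_lit 0)⟩)
(.lf ⟨(nat_lit 0x40b61060b), (nat_lit 6), (nat_lit 0x4b60b04b60b), (nat_lit 8)⟩))))))))
(.nd (.nd (.nd (.nd (.nd (.nd (.nd (.nd (.lf ⟨(nat_lit 5), (nat_lit 1), (nat_lit 0x43043), (nat_lit 4)⟩)
(.lf ⟨(nat_lit 0x1c91c9), (nat_lit 4), (nat_lit 0x247247), (nat_lit 4)⟩))
(.lf ⟨(nat_lit 0x642119084), (nat_lit 6), (nat_lit 0x119084642), (nat_lit 6)⟩))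
(.nd (.lf ⟨(nat_lit 585), (nat_lit 2), (nat_lit 0), (nat_lit 0)⟩)
(.lf ⟨(nat_lit 0x44b0512c1), (nat_lit 6), (nat_lit 0x512c144b), (nat_lit 6)⟩)))
(.nd (.nd (.nd (.lf ⟨(nat_lit 0x861), (nat_lit 2), (nat_lit 0), (nat_lit 0)⟩)
(.lf ⟨(nat_lit 479), (nat_lit 2), (nat_lit 0x7c7), (nat_lit 2)⟩))
(.lf ⟨(nat_lit 0xa6d), (nat_lit 2), (nat_lit 0xb69), (nat_lit 2)⟩))
(.nd (.lf ⟨(nat_lit 0x6db), (nat_lit 2), (nat_lit 0), (nat_lit 0)⟩)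
(.lf ⟨(nat_lit 5), (nat_lit 1), (nat_lit 0x43043), (nat_lit 4)⟩))))
(.nd (.nd (.nd (.nd (.lf ⟨(nat_lit 0x89089), (nat_lit 4), (nat_lit 0x242242), (nat_lit 4)⟩)
(.lf ⟨(nat_lit 0x886e66c80886e66c8), (nat_lit 12), (nat_lit 0x886e66c80886e66c8), (nat_lit 12)⟩))
(.lf ⟨(nat_lit 716), (nat_lit 2), (nat_lit 779), (nat_lit 2)⟩))
(.nd (.lf ⟨(nat_lit 198), (nat_lit 2), (nat_lit 0x146147147143), (nat_lit 8)⟩)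
(.lf ⟨(nat_lit 0xb3dd), (nat_lit 3), (nat_lit 0xf74f2cf), (nat_lit 5)⟩)))
(.nd (.nd (.lf ⟨(nat_lit 135), (nat_lit 2), (nat_lit 450), (nat_lit 2)⟩)
(.lf ⟨(nat_lit 94), (nat_lit 2), (nat_lit 0x781), (nat_lit 2)⟩))
(.nd (.lf ⟨(nat_lit 0x211211), (nat_lit 4), (nat_lit 0x448448), (nat_lit 4)⟩)
(.lf ⟨(nat_lit 0), (nat_lit 0), (nat_lit 0x5e141785), (nat_lit 6)⟩)))))
(.nd (.nd (.nd (.nd (.nd (.lf ⟨(nat_lit 38), (nat_lit 1), (nat_lit 0x62062), (nat_lit 4)⟩)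
(.lf ⟨(nat_lit 0x4d8), (nat_lit 2), (nat_lit 0x613), (nat_lit 2)⟩))
(.lf ⟨(nat_lit 218), (nat_lit 2), (nat_lit 0x683), (nat_lit 2)⟩))
(.nd (.lf ⟨(nat_lit 92), (nat_lit 2), (nat_lit 0x45c45c45c441), (nat_lit 8)⟩)
(.lf ⟨(nat_lit 0x42940b0d0a502c3), (nat_lit 10), (nat_lit 0x2c342940b0d0a50), (nat_lit 10)⟩)))
(.nd (.nd (.nd (.lf ⟨(nat_lit 0x67067), (nat_lit 4), (nat_lit 0x9c19c1), (nat_lit 4)⟩)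
(.lf ⟨(nat_lit 263), (nat_lit 2), (nat_lit 0x72c775130b287284), (nat_lit 11)⟩))
(.lf ⟨(nat_lit 537), (nat_lit 2), (nat_lit 0x648), (nat_lit 2)⟩))
(.nd (.lf ⟨(nat_lit 0xd50d5), (nat_lit 4), (nat_lit 0x543543), (nat_lit 4)⟩)
(.lf ⟨(nat_lit 278), (nat_lit 2), (nat_lit 0x1660f34f34a2564d64ca244), (nat_lit 15)⟩))))
(.nd (.nd (.nd (.nd (.lf ⟨(nat_lit 207), (nat_lit 2), (nat_lit 0x173c3), (nat_lit 3)⟩)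
(.lf ⟨(nat_lit 14), (nat_lit 1), (nat_lit 0xc90c9), (nat_lit 4)⟩))
(.lf ⟨(nat_lit 0x865044b), (nat_lit 5), (nat_lit 0x1c4502c8), (nat_lit 5)⟩))
(.nd (.lf ⟨(nat_lit 0x20a20a), (nat_lit 4), (nat_lit 0x288288), (nat_lit 4)⟩)
(.lf ⟨(nat_lit 536), (nat_lit 2), (nat_lit 0x608), (nat_lit 2)⟩)))
(.nd (.nd (.lf ⟨(nat_lit 0x41241), (nat_lit 4), (nat_lit 0x49041), (nat_lit 4)⟩)
(.lf ⟨(nat_lit 0x21044b), (nat_lit 4), (nat_lit 0x65c4502c8), (nat_lit 6)⟩))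
(.nd (.lf ⟨(nat_lit 0x2ce2ce), (nat_lit 4), (nat_lit 0x38b38b), (nat_lit 4)⟩)
(.lf ⟨(nat_lit 0x247247), (nat_lit 4), (nat_lit 0x247247), (nat_lit 4)⟩))))))
(.nd (.nd (.nd (.nd (.nd (.nd (.lf ⟨(nat_lit 23), (nat_lit 1), (nat_lit 0xcf0cf), (nat_lit 4)⟩)
(.lf ⟨(nat_lit 0x5cf2d72cf5cf2d72cf), (nat_lit 12), (nat_lit 0), (nat_lit 0)⟩))
(.lf ⟨(nat_lit 204), (nat_lit 2), (nat_lit 771), (nat_lit 2)⟩))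
(.nd (.lf ⟨(nat_lit 0x181181), (nat_lit 4), (nat_lit 0x46046), (nat_lit 4)⟩)
(.lf ⟨(nat_lit 736), (nat_lit 2), (nat_lit 0x80b), (nat_lit 2)⟩)))
(.nd (.nd (.nd (.lf ⟨(nat_lit 98), (nat_lit 2), (nat_lit 0x26881), (nat_lit 3)⟩)
(.lf ⟨(nat_lit 0xa7cf95f3ca), (nat_lit 7), (nat_lit 0x29f28129f281), (nat_lit 8)⟩))
(.lf ⟨(nat_lit 0x447), (nat_lit 2), (nat_lit 465), (nat_lit 2)⟩))
(.nd (.lf ⟨(nat_lit 0x442442), (nat_lit 4), (nat_lit 0), (nat_lit 0)⟩)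
(.lf ⟨(nat_lit 0x1131021132c34c40c21132c34c40c44c40844cb0d31030844cb0d3103), (nat_lit 38), (nat_lit 0x1131021132c34c40c21132c34c40c44c40844cb0d31030844cb0d3103), (nat_lit 38)⟩))))
(.nd (.nd (.nd (.nd (.lf ⟨(nat_lit 0x492), (nat_lit 2), (nat_lit 0), (nat_lit 0)⟩)
(.lf ⟨(nat_lit 0x1411411), (nat_lit 5), (nat_lit 0x10450441), (nat_lit 5)⟩))
(.lf ⟨(nat_lit 140), (nat_lit 2), (nat_lit 0x1cc287282), (nat_lit 6)⟩))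
(.nd (.lf ⟨(nat_lit 0x202202), (nat_lit 4), (nat_lit 0), (nat_lit 0)⟩)
(.lf ⟨(nat_lit 0xdd10574414374415d105), (nat_lit 14), (nat_lit 0xdd10574414374415d105), (nat_lit 14)⟩)))
(.nd (.nd (.lf ⟨(nat_lit 0x1141), (nat_lit 3), (nat_lit 0x43043), (nat_lit 4)⟩)
(.lf ⟨(nat_lit 212), (nat_lit 2), (nat_lit 0x14e154383), (nat_lit 6)⟩))
(.nd (.lf ⟨(nat_lit 0x286286), (nat_lit 4), (nat_lit 0x18a18a), (nat_lit 4)⟩)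
(.lf ⟨(nat_lit 0x9b6902ce2d409b6902ce2d4), (nat_lit 16), (nat_lit 0x9b6902ce2d409b6902ce2d4), (nat_lit 16)⟩)))))
(.nd (.nd (.nd (.nd (.nd (.lf ⟨(nat_lit 67), (nat_lit 2), (nat_lit 0x50c1), (nat_lit 3)⟩)
(.lf ⟨(nat_lit 0x19e19e), (nat_lit 4), (nat_lit 0x14278278509e09e), (nat_lit 10)⟩))
(.lf ⟨(nat_lit 0x438b10e), (nat_lit 5), (nat_lit 0xb38b10e2c4), (nat_lit 7)⟩))
(.nd (.lf ⟨(nat_lit 0x146146), (nat_lit 4), (nat_lit 0x185185), (nat_lit 4)⟩)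
(.lf ⟨(nat_lit 0xe00c3803), (nat_lit 6), (nat_lit 0), (nat_lit 0)⟩)))
(.nd (.nd (.nd (.lf ⟨(nat_lit 0x1430450c1), (nat_lit 6), (nat_lit 0x43043), (nat_lit 4)⟩)
(.lf ⟨(nat_lit 0x8321e09e2020c87827880820c878278808321e09e202), (nat_lit 30), (nat_lit 0x8321e09e2020c87827880820c878278808321e09e202), (nat_lit 30)⟩))
(.lf ⟨(nat_lit 0x4185), (nat_lit 3), (nat_lit 0x2502c539b2c9106), (nat_lit 10)⟩))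
(.nd (.lf ⟨(nat_lit 289), (nat_lit 2), (nat_lit 0x661661661644), (nat_lit 8)⟩)
(.lf ⟨(nat_lit 0x841c41c2107107), (nat_lit 10), (nat_lit 0x841c41c2107107), (nat_lit 10)⟩))))
(.nd (.nd (.nd (.nd (.lf ⟨(nat_lit 0x111111), (nat_lit 4), (nat_lit 0x444444), (nat_lit 4)⟩)
(.lf ⟨(nat_lit 0x4185), (nat_lit 3), (nat_lit 0x6da510385106), (nat_lit 8)⟩))
(.lf ⟨(nat_lit 0x98dc751), (nat_lit 5), (nat_lit 0x2475c449), (nat_lit 5)⟩))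
(.nd (.lf ⟨(nat_lit 0x4d3), (nat_lit 2), (nat_lit 0), (nat_lit 0)⟩)
(.lf ⟨(nat_lit 0x198198), (nat_lit 4), (nat_lit 0x606606), (nat_lit 4)⟩)))
(.nd (.nd (.lf ⟨(nat_lit 0x82282), (nat_lit 4), (nat_lit 0x8a082), (nat_lit 4)⟩)
(.lf ⟨(nat_lit 274), (nat_lit 2), (nat_lit 0x2523102e47502e9749304), (nat_lit 14)⟩))
(.nd (.lf ⟨(nat_lit 0x481481), (nat_lit 4), (nat_lit 0), (nat_lit 0)⟩)
(.lf ⟨(nat_lit 0x1cb1cb), (nat_lit 4), (nat_lit 0xd10d1), (nat_lit 4)⟩)))))))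
(.nd (.nd (.nd (.nd (.nd (.nd (.nd (.lf ⟨(nat_lit 15), (nat_lit 1), (nat_lit 0x4a04a), (nat_lit 4)⟩)
(.lf ⟨(nat_lit 0x3cb3cf2cf), (nat_lit 6), (nat_lit 0), (nat_lit 0)⟩))
(.lf ⟨(nat_lit 0x92ce), (nat_lit 3), (nat_lit 0xb38b30e30930e30b), (nat_lit 11)⟩))
(.nd (.lf ⟨(nat_lit 0x204204), (nat_lit 4), (nat_lit 0x108108), (nat_lit 4)⟩)
(.lf ⟨(nat_lit 0x185185), (nat_lit 4), (nat_lit 0), (nat_lit 0)⟩)))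
(.nd (.nd (.nd (.lf ⟨(nat_lit 0x5d05d), (nat_lit 4), (nat_lit 0x741741), (nat_lit 4)⟩)
(.lf ⟨(nat_lit 0x1850a8182a05), (nat_lit 8), (nat_lit 0x85a05085a05), (nat_lit 8)⟩))
(.lf ⟨(nat_lit 651), (nat_lit 2), (nat_lit 0x1d2ca), (nat_lit 3)⟩))
(.nd (.lf ⟨(nat_lit 0x1c11c1), (nat_lit 4), (nat_lit 0x47047), (nat_lit 4)⟩)
(.lf ⟨(nat_lit 0x4185), (nat_lit 3), (nat_lit 0x40b39a6cb505106), (nat_lit 10)⟩))))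
(.nd (.nd (.nd (.nd (.lf ⟨(nat_lit 74), (nat_lit 2), (nat_lit 0xf281), (nat_lit 3)⟩)
(.lf ⟨(nat_lit 17), (nat_lit 1), (nat_lit 0x2c22c2), (nat_lit 4)⟩))
(.lf ⟨(nat_lit 655), (nat_lit 2), (nat_lit 970), (nat_lit 2)⟩))
(.nd (.lf ⟨(nat_lit 209), (nat_lit 2), (nat_lit 0x2d12c72c72c3), (nat_lit 8)⟩)
(.lf ⟨(nat_lit 164), (nat_lit 2), (nat_lit 0x74891d202), (nat_lit 6)⟩)))
(.nd (.nd (.lf ⟨(nat_lit 0x8128408a10204a10228408204a10228408128408a102), (nat_lit 30), (nat_lit 0x8128408a10204a10228408204a10228408128408a102), (nat_lit 30)⟩)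
(.lf ⟨(nat_lit 289), (nat_lit 2), (nat_lit 0x844), (nat_lit 2)⟩))
(.nd (.lf ⟨(nat_lit 0x24c24c), (nat_lit 4), (nat_lit 0x309309), (nat_lit 4)⟩)
(.lf ⟨(nat_lit 26), (nat_lit 1), (nat_lit 0xd00d0), (nat_lit 4)⟩)))))
(.nd (.nd (.nd (.nd (.nd (.lf ⟨(nat_lit 46), (nat_lit 1), (nat_lit 0xe90e9), (nat_lit 4)⟩)
(.lf ⟨(nat_lit 854), (nat_lit 2), (nat_lit 0x58d), (nat_lit 2)⟩))
(.lf ⟨(nat_lit 327), (nat_lit 2), (nat_lit 453), (nat_lit 2)⟩))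
(.nd (.lf ⟨(nat_lit 0x2c304b0c1), (nat_lit 6), (nat_lit 0x4b0c12c3), (nat_lit 6)⟩)
(.lf ⟨(nat_lit 0x891d21d), (nat_lit 5), (nat_lit 0x1d224748), (nat_lit 5)⟩)))
(.nd (.nd (.nd (.lf ⟨(nat_lit 233), (nat_lit 2), (nat_lit 0x2ea43), (nat_lit 3)⟩)
(.lf ⟨(nat_lit 0xe00e0), (nat_lit 4), (nat_lit 0x803803), (nat_lit 4)⟩))
(.lf ⟨(nat_lit 733), (nat_lit 2), (nat_lit 0x74b), (nat_lit 2)⟩))
(.nd (.lf ⟨(nat_lit 0x41a41a), (nat_lit 4), (nat_lit 0x690690), (nat_lit 4)⟩)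
(.lf ⟨(nat_lit 0x49893222248049893222248), (nat_lit 16), (nat_lit 0x49893222248049893222248), (nat_lit 16)⟩))))
(.nd (.nd (.nd (.nd (.lf ⟨(nat_lit 0x69a), (nat_lit 2), (nat_lit 0), (nat_lit 0)⟩)
(.lf ⟨(nat_lit 0x51a), (nat_lit 2), (nat_lit 0x694), (nat_lit 2)⟩))
(.lf ⟨(nat_lit 0x661), (nat_lit 2), (nat_lit 0x859), (nat_lit 2)⟩))
(.nd (.lf ⟨(nat_lit 0x24a24a), (nat_lit 4), (nat_lit 0x289289), (nat_lit 4)⟩)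
(.lf ⟨(nat_lit 0x5606158), (nat_lit 5), (nat_lit 0x18198198158185), (nat_lit 9)⟩)))
(.nd (.nd (.lf ⟨(nat_lit 0x832c30832c3), (nat_lit 8), (nat_lit 0x832c30832c3), (nat_lit 8)⟩)
(.lf ⟨(nat_lit 0x2996d0), (nat_lit 4), (nat_lit 0x8626d940a), (nat_lit 6)⟩))
(.nd (.lf ⟨(nat_lit 0x389389), (nat_lit 4), (nat_lit 0), (nat_lit 0)⟩)
(.lf ⟨(nat_lit 0), (nat_lit 0), (nat_lit 0x141141), (nat_lit 4)⟩))))))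
(.nd (.nd (.nd (.nd (.nd (.nd (.lf ⟨(nat_lit 30), (nat_lit 1), (nat_lit 0x57057), (nat_lit 4)⟩)
(.lf ⟨(nat_lit 0x598), (nat_lit 2), (nat_lit 0x616), (nat_lit 2)⟩))
(.lf ⟨(nat_lit 83), (nat_lit 2), (nat_lit 0x4c1), (nat_lit 2)⟩))
(.nd (.lf ⟨(nat_lit 975), (nat_lit 2), (nat_lit 0), (nat_lit 0)⟩)
(.lf ⟨(nat_lit 264), (nat_lit 2), (nat_lit 0x60f28921834a244), (nat_lit 10)⟩)))
(.nd (.nd (.nd (.lf ⟨(nat_lit 0xa69), (nat_lit 2), (nat_lit 0), (nat_lit 0)⟩)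
(.lf ⟨(nat_lit 0x1b69440e), (nat_lit 5), (nat_lit 0x144144), (nat_lit 4)⟩))
(.lf ⟨(nat_lit 0x9a23), (nat_lit 3), (nat_lit 0x288c9), (nat_lit 3)⟩))
(.nd (.lf ⟨(nat_lit 0x419419), (nat_lit 4), (nat_lit 0x650650), (nat_lit 4)⟩)
(.lf ⟨(nat_lit 854), (nat_lit 2), (nat_lit 0x4d64cd), (nat_lit 4)⟩))))
(.nd (.nd (.nd (.nd (.lf ⟨(nat_lit 0x8e08e), (nat_lit 4), (nat_lit 0x382382), (nat_lit 4)⟩)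
(.lf ⟨(nat_lit 0xb20b21c), (nat_lit 5), (nat_lit 0x1c2c82c8), (nat_lit 5)⟩))
(.lf ⟨(nat_lit 983), (nat_lit 2), (nat_lit 0x5cf), (nat_lit 2)⟩))
(.nd (.lf ⟨(nat_lit 283), (nat_lit 2), (nat_lit 0x41b41b41b404), (nat_lit 8)⟩)
(.lf ⟨(nat_lit 0x181c6606), (nat_lit 5), (nat_lit 0x601198046), (nat_lit 6)⟩)))
(.nd (.nd (.lf ⟨(nat_lit 196), (nat_lit 2), (nat_lit 0x2c40cb103103), (nat_lit 8)⟩)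
(.lf ⟨(nat_lit 209), (nat_lit 2), (nat_lit 0x1d12c72c3), (nat_lit 6)⟩))
(.nd (.lf ⟨(nat_lit 0x53ca14a), (nat_lit 5), (nat_lit 0xa14f285), (nat_lit 5)⟩)
(.lf ⟨(nat_lit 0x11b6902ce2d4), (nat_lit 8), (nat_lit 0x6da40b38b504), (nat_lit 8)⟩)))))
(.nd (.nd (.nd (.nd (.nd (.lf ⟨(nat_lit 715), (nat_lit 2), (nat_lit 0), (nat_lit 0)⟩)
(.lf ⟨(nat_lit 0), (nat_lit 0), (nat_lit 0x284284), (nat_lit 4)⟩))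
(.lf ⟨(nat_lit 0x9711251), (nat_lit 5), (nat_lit 0x1125c449), (nat_lit 5)⟩))
(.nd (.lf ⟨(nat_lit 153), (nat_lit 2), (nat_lit 0x419419419402), (nat_lit 8)⟩)
(.lf ⟨(nat_lit 0xa398), (nat_lit 3), (nat_lit 0xe60e28e), (nat_lit 5)⟩)))
(.nd (.nd (.nd (.lf ⟨(nat_lit 136), (nat_lit 2), (nat_lit 514), (nat_lit 2)⟩)
(.lf ⟨(nat_lit 18), (nat_lit 1), (nat_lit 0x4c04c), (nat_lit 4)⟩))
(.lf ⟨(nat_lit 0xa1cc), (nat_lit 3), (nat_lit 0xc1cc1cc287), (nat_lit 7)⟩))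
(.nd (.lf ⟨(nat_lit 0x45d45d), (nat_lit 4), (nat_lit 0x751751), (nat_lit 4)⟩)
(.lf ⟨(nat_lit 0x587587587587), (nat_lit 8), (nat_lit 0xd61d61c3587587), (nat_lit 10)⟩))))
(.nd (.nd (.nd (.nd (.lf ⟨(nat_lit 87), (nat_lit 2), (nat_lit 0x1e5c1), (nat_lit 3)⟩)
(.lf ⟨(nat_lit 0x602602), (nat_lit 4), (nat_lit 0), (nat_lit 0)⟩))
(.lf ⟨(nat_lit 0x889b), (nat_lit 3), (nat_lit 0x9a26c8), (nat_lit 4)⟩))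
(.nd (.lf ⟨(nat_lit 0x5d7), (nat_lit 2), (nat_lit 0), (nat_lit 0)⟩)
(.lf ⟨(nat_lit 0x839059050c20e4164143), (nat_lit 14), (nat_lit 0x839059050c20e4164143), (nat_lit 14)⟩)))
(.nd (.nd (.lf ⟨(nat_lit 0x281281), (nat_lit 4), (nat_lit 0x4a04a), (nat_lit 4)⟩)
(.lf ⟨(nat_lit 0x2440c9103), (nat_lit 6), (nat_lit 0xc9103244), (nat_lit 6)⟩))
(.nd (.lf ⟨(nat_lit 0x5820d6083), (nat_lit 6), (nat_lit 0xd6083582), (nat_lit 6)⟩)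
(.lf ⟨(nat_lit 0x4340b61060b0d02d84182c10d02d84182c340b61060b), (nat_lit 30), (nat_lit 0x4340b61060b0d02d84182c10d02d84182c340b61060b), (nat_lit 30)⟩))))))))))
(.nd (.nd (.nd (.nd (.nd (.nd (.nd (.nd (.nd (.nd (.lf ⟨(nat_lit 130), (nat_lit 2), (nat_lit 0), (nat_lit 0)⟩)
(.lf ⟨(nat_lit 0x40b61060b40b61060b), (nat_lit 12), (nat_lit 0), (nat_lit 0)⟩))
(.lf ⟨(nat_lit 0x11f60b), (nat_lit 4), (nat_lit 0x61f60b6047d87d87d87d8), (nat_lit 14)⟩))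
(.nd (.lf ⟨(nat_lit 0x2c12c1), (nat_lit 4), (nat_lit 0x4b04b), (nat_lit 4)⟩)
(.lf ⟨(nat_lit 775), (nat_lit 2), (nat_lit 460), (nat_lit 2)⟩)))
(.nd (.nd (.nd (.lf ⟨(nat_lit 216), (nat_lit 2), (nat_lit 0x1f603), (nat_lit 3)⟩)
(.lf ⟨(nat_lit 0), (nat_lit 0), (nat_lit 0x602602), (nat_lit 4)⟩))
(.lf ⟨(nat_lit 0x929), (nat_lit 2), (nat_lit 0xa64), (nat_lit 2)⟩))
(.nd (.lf ⟨(nat_lit 0x618), (nat_lit 2), (nat_lit 0), (nat_lit 0)⟩)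
(.lf ⟨(nat_lit 0x1420e41641430839059050c50839059050c20e4164143), (nat_lit 30), (nat_lit 0x1420e41641430839059050c50839059050c20e4164143), (nat_lit 30)⟩))))
(.nd (.nd (.nd (.nd (.lf ⟨(nat_lit 780), (nat_lit 2), (nat_lit 0), (nat_lit 0)⟩)
(.lf ⟨(nat_lit 0x21b22689b), (nat_lit 6), (nat_lit 0x21b20221b202), (nat_lit 8)⟩))
(.lf ⟨(nat_lit 0x2c344b0d1), (nat_lit 6), (nat_lit 0x44b0d12c3), (nat_lit 6)⟩))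
(.nd (.lf ⟨(nat_lit 0x141141), (nat_lit 4), (nat_lit 0), (nat_lit 0)⟩)
(.lf ⟨(nat_lit 0x21b21b), (nat_lit 4), (nat_lit 0x6c86c8), (nat_lit 4)⟩)))
(.nd (.nd (.nd (.lf ⟨(nat_lit 131), (nat_lit 2), (nat_lit 0x70c2), (nat_lit 3)⟩)
(.lf ⟨(nat_lit 7), (nat_lit 1), (nat_lit 0x471811c6), (nat_lit 6)⟩))
(.lf ⟨(nat_lit 278), (nat_lit 2), (nat_lit 0x5893ca21834f21834a244), (nat_lit 14)⟩))
(.nd (.lf ⟨(nat_lit 0x182106084), (nat_lit 6), (nat_lit 0x106084182), (nat_lit 6)⟩)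
(.lf ⟨(nat_lit 0x587587587587), (nat_lit 8), (nat_lit 0), (nat_lit 0)⟩)))))
(.nd (.nd (.nd (.nd (.nd (.lf ⟨(nat_lit 33), (nat_lit 1), (nat_lit 0x119119), (nat_lit 4)⟩)
(.lf ⟨(nat_lit 19), (nat_lit 1), (nat_lit 0x4d04d), (nat_lit 4)⟩))
(.lf ⟨(nat_lit 149), (nat_lit 2), (nat_lit 0x542), (nat_lit 2)⟩))
(.nd (.lf ⟨(nat_lit 0x410), (nat_lit 2), (nat_lit 0), (nat_lit 0)⟩)
(.lf ⟨(nat_lit 0x530a), (nat_lit 3), (nat_lit 0x79748f30f285), (nat_lit 8)⟩)))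
(.nd (.nd (.nd (.lf ⟨(nat_lit 0xaaa), (nat_lit 2), (nat_lit 0), (nat_lit 0)⟩)
(.lf ⟨(nat_lit 29), (nat_lit 1), (nat_lit 0x10c10c), (nat_lit 4)⟩))
(.lf ⟨(nat_lit 338), (nat_lit 2), (nat_lit 0x485), (nat_lit 2)⟩))
(.nd (.lf ⟨(nat_lit 0x3c13c1), (nat_lit 4), (nat_lit 0), (nat_lit 0)⟩)
(.lf ⟨(nat_lit 0x34f34f), (nat_lit 4), (nat_lit 0x4cf4cf4cf4cd3cd), (nat_lit 10)⟩))))
(.nd (.nd (.nd (.nd (.lf ⟨(nat_lit 0x8f08f), (nat_lit 4), (nat_lit 0x3c23c2), (nat_lit 4)⟩)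
(.lf ⟨(nat_lit 0x460), (nat_lit 2), (nat_lit 0x811), (nat_lit 2)⟩))
(.lf ⟨(nat_lit 0x41a), (nat_lit 2), (nat_lit 0x690), (nat_lit 2)⟩))
(.nd (.lf ⟨(nat_lit 0x202108084), (nat_lit 6), (nat_lit 0x108084202), (nat_lit 6)⟩)
(.lf ⟨(nat_lit 0x607607), (nat_lit 4), (nat_lit 0x6011d8047), (nat_lit 6)⟩)))
(.nd (.nd (.lf ⟨(nat_lit 206), (nat_lit 2), (nat_lit 0x14938524524e14e243), (nat_lit 12)⟩)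
(.lf ⟨(nat_lit 261), (nat_lit 2), (nat_lit 0x940b15b38b244), (nat_lit 9)⟩))
(.nd (.lf ⟨(nat_lit 0x30b30b), (nat_lit 4), (nat_lit 0x2cc2cc), (nat_lit 4)⟩)
(.lf ⟨(nat_lit 282), (nat_lit 2), (nat_lit 0x684), (nat_lit 2)⟩))))))
(.nd (.nd (.nd (.nd (.nd (.nd (.lf ⟨(nat_lit 18), (nat_lit 1), (nat_lit 0x4c04c), (nat_lit 4)⟩)
(.lf ⟨(nat_lit 0x60f2d82cf), (nat_lit 6), (nat_lit 0x3cb3c43cb3c4), (nat_lit 8)⟩))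
(.lf ⟨(nat_lit 0x3c12cf04b), (nat_lit 6), (nat_lit 0x2cf04b3c1), (nat_lit 6)⟩))
(.nd (.lf ⟨(nat_lit 0x105105), (nat_lit 4), (nat_lit 0x144144), (nat_lit 4)⟩)
(.lf ⟨(nat_lit 0x2c32412c3241), (nat_lit 8), (nat_lit 0x2412c32412c3), (nat_lit 8)⟩)))
(.nd (.nd (.nd (.lf ⟨(nat_lit 0x5f05f), (nat_lit 4), (nat_lit 0x7c17c1), (nat_lit 4)⟩)
(.lf ⟨(nat_lit 0x46142a060a81411850a8182a05), (nat_lit 18), (nat_lit 0x46142a060a81411850a8182a05), (nat_lit 18)⟩))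
(.lf ⟨(nat_lit 978), (nat_lit 2), (nat_lit 0x48f), (nat_lit 2)⟩))
(.nd (.lf ⟨(nat_lit 0x30304c0c1), (nat_lit 6), (nat_lit 0x4c0c1303), (nat_lit 6)⟩)
(.lf ⟨(nat_lit 0x1131044c4), (nat_lit 6), (nat_lit 0), (nat_lit 0)⟩))))
(.nd (.nd (.nd (.nd (.lf ⟨(nat_lit 75), (nat_lit 2), (nat_lit 0x102c1), (nat_lit 3)⟩)
(.lf ⟨(nat_lit 32), (nat_lit 1), (nat_lit 0x4b20b2012c82c8), (nat_lit 10)⟩))
(.lf ⟨(nat_lit 721), (nat_lit 2), (nat_lit 0x44b), (nat_lit 2)⟩))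
(.nd (.lf ⟨(nat_lit 0x3c33c3), (nat_lit 4), (nat_lit 0xcf0cf), (nat_lit 4)⟩)
(.lf ⟨(nat_lit 0x1da64749), (nat_lit 5), (nat_lit 0x74405d101), (nat_lit 6)⟩)))
(.nd (.nd (.lf ⟨(nat_lit 265), (nat_lit 2), (nat_lit 580), (nat_lit 2)⟩)
(.lf ⟨(nat_lit 853), (nat_lit 2), (nat_lit 0x54d), (nat_lit 2)⟩))
(.nd (.lf ⟨(nat_lit 0x28224a089), (nat_lit 6), (nat_lit 0x24a089282), (nat_lit 6)⟩)
(.lf ⟨(nat_lit 282), (nat_lit 2), (nat_lit 0x684), (nat_lit 2)⟩)))))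
(.nd (.nd (.nd (.nd (.nd (.lf ⟨(nat_lit 0x42042), (nat_lit 4), (nat_lit 0x81081), (nat_lit 4)⟩)
(.lf ⟨(nat_lit 0x588), (nat_lit 2), (nat_lit 0x8f0423c1), (nat_lit 6)⟩))
(.lf ⟨(nat_lit 0x28434a10d), (nat_lit 6), (nat_lit 0x34a10d284), (nat_lit 6)⟩))
(.nd (.lf ⟨(nat_lit 0x2c404b101), (nat_lit 6), (nat_lit 0x4b1012c4), (nat_lit 6)⟩)
(.lf ⟨(nat_lit 340), (nat_lit 2), (nat_lit 0x505), (nat_lit 2)⟩)))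
(.nd (.nd (.nd (.lf ⟨(nat_lit 131), (nat_lit 2), (nat_lit 0x3087), (nat_lit 3)⟩)
(.lf ⟨(nat_lit 0x21e09e202), (nat_lit 6), (nat_lit 0x21e20221e202), (nat_lit 8)⟩))
(.lf ⟨(nat_lit 659), (nat_lit 2), (nat_lit 0x3d334f34a), (nat_lit 6)⟩))
(.nd (.lf ⟨(nat_lit 0x584584), (nat_lit 4), (nat_lit 0x116116), (nat_lit 4)⟩)
(.lf ⟨(nat_lit 102), (nat_lit 2), (nat_lit 0x981), (nat_lit 2)⟩))))
(.nd (.nd (.nd (.nd (.lf ⟨(nat_lit 0x6db), (nat_lit 2), (nat_lit 0), (nat_lit 0)⟩)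
(.lf ⟨(nat_lit 0x450450), (nat_lit 4), (nat_lit 0x2dc2dc), (nat_lit 4)⟩))
(.lf ⟨(nat_lit 0x6e2), (nat_lit 2), (nat_lit 0x89b), (nat_lit 2)⟩))
(.nd (.lf ⟨(nat_lit 0x2ca2ca), (nat_lit 4), (nat_lit 0x28b28b), (nat_lit 4)⟩)
(.lf ⟨(nat_lit 14), (nat_lit 1), (nat_lit 0x243243), (nat_lit 4)⟩)))
(.nd (.nd (.lf ⟨(nat_lit 0x1020cb0c20cb0c40832c30832c3), (nat_lit 18), (nat_lit 0x1020cb0c20cb0c40832c30832c3), (nat_lit 18)⟩)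
(.lf ⟨(nat_lit 200), (nat_lit 2), (nat_lit 0x1c6203), (nat_lit 4)⟩))
(.nd (.lf ⟨(nat_lit 0x744744), (nat_lit 4), (nat_lit 0), (nat_lit 0)⟩)
(.lf ⟨(nat_lit 0), (nat_lit 0), (nat_lit 325), (nat_lit 2)⟩)))))))
(.nd (.nd (.nd (.nd (.nd (.nd (.nd (.lf ⟨(nat_lit 11), (nat_lit 1), (nat_lit 0xc40c4), (nat_lit 4)⟩)
(.lf ⟨(nat_lit 0x34e34e), (nat_lit 4), (nat_lit 0x255255), (nat_lit 4)⟩))
(.lf ⟨(nat_lit 0x468b), (nat_lit 3), (nat_lit 0x1a2da11a), (nat_lit 5)⟩))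
(.nd (.lf ⟨(nat_lit 0x2c22c2), (nat_lit 4), (nat_lit 0x8b08b), (nat_lit 4)⟩)
(.lf ⟨(nat_lit 0x40b0902c2), (nat_lit 6), (nat_lit 0x902c240b), (nat_lit 6)⟩)))
(.nd (.nd (.nd (.lf ⟨(nat_lit 0x8a2), (nat_lit 2), (nat_lit 0), (nat_lit 0)⟩)
(.lf ⟨(nat_lit 12), (nat_lit 1), (nat_lit 0xca0ca), (nat_lit 4)⟩))
(.lf ⟨(nat_lit 200), (nat_lit 2), (nat_lit 0x71481c6143), (nat_lit 7)⟩))
(.nd (.lf ⟨(nat_lit 0x45c45c), (nat_lit 4), (nat_lit 0x711711), (nat_lit 4)⟩)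
(.lf ⟨(nat_lit 27), (nat_lit 1), (nat_lit 0x110110), (nat_lit 4)⟩))))
(.nd (.nd (.nd (.nd (.lf ⟨(nat_lit 0xc90c9), (nat_lit 4), (nat_lit 0x243243), (nat_lit 4)⟩)
(.lf ⟨(nat_lit 0x21b202), (nat_lit 4), (nat_lit 0x21b22689b0886c8), (nat_lit 10)⟩))
(.lf ⟨(nat_lit 147), (nat_lit 2), (nat_lit 0x353342), (nat_lit 4)⟩))
(.nd (.lf ⟨(nat_lit 147), (nat_lit 2), (nat_lit 0x24d25324d242), (nat_lit 8)⟩)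
(.lf ⟨(nat_lit 0x2d82cb60b), (nat_lit 6), (nat_lit 0), (nat_lit 0)⟩)))
(.nd (.nd (.lf ⟨(nat_lit 0x244049101), (nat_lit 6), (nat_lit 0x44044), (nat_lit 4)⟩)
(.lf ⟨(nat_lit 162), (nat_lit 2), (nat_lit 0x882), (nat_lit 2)⟩))
(.nd (.lf ⟨(nat_lit 0x3c53c5), (nat_lit 4), (nat_lit 0x14f14f), (nat_lit 4)⟩)
(.lf ⟨(nat_lit 0x8109e14278504278509e14204278509e14109e142785), (nat_lit 30), (nat_lit 0x8109e14278504278509e14204278509e14109e142785), (nat_lit 30)⟩)))))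
(.nd (.nd (.nd (.nd (.nd (.lf ⟨(nat_lit 41), (nat_lit 1), (nat_lit 0x124124), (nat_lit 4)⟩)
(.lf ⟨(nat_lit 0x4d6), (nat_lit 2), (nat_lit 0x593), (nat_lit 2)⟩))
(.lf ⟨(nat_lit 285), (nat_lit 2), (nat_lit 0x744), (nat_lit 2)⟩))
(.nd (.lf ⟨(nat_lit 86), (nat_lit 2), (nat_lit 0x28f29628f281), (nat_lit 8)⟩)
(.lf ⟨(nat_lit 0x3e23c910f88f244), (nat_lit 10), (nat_lit 0x2443e23c910f88f), (nat_lit 10)⟩)))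
(.nd (.nd (.nd (.lf ⟨(nat_lit 0xa90a9), (nat_lit 4), (nat_lit 0xa42a42), (nat_lit 4)⟩)
(.lf ⟨(nat_lit 0), (nat_lit 0), (nat_lit 0x2c38032c3803), (nat_lit 8)⟩))
(.lf ⟨(nat_lit 600), (nat_lit 2), (nat_lit 0x609), (nat_lit 2)⟩))
(.nd (.lf ⟨(nat_lit 0x5c35c3), (nat_lit 4), (nat_lit 0xd70d7), (nat_lit 4)⟩)
(.lf ⟨(nat_lit 0x262362349), (nat_lit 6), (nat_lit 0x262242262242), (nat_lit 8)⟩))))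
(.nd (.nd (.nd (.nd (.lf ⟨(nat_lit 271), (nat_lit 2), (nat_lit 0x183c4), (nat_lit 3)⟩)
(.lf ⟨(nat_lit 718), (nat_lit 2), (nat_lit 907), (nat_lit 2)⟩))
(.lf ⟨(nat_lit 0x55cf), (nat_lit 3), (nat_lit 0x7973c5), (nat_lit 4)⟩))
(.nd (.lf ⟨(nat_lit 0x285285), (nat_lit 4), (nat_lit 0x14a14a), (nat_lit 4)⟩)
(.lf ⟨(nat_lit 0x607607607607), (nat_lit 8), (nat_lit 0), (nat_lit 0)⟩)))
(.nd (.nd (.lf ⟨(nat_lit 212), (nat_lit 2), (nat_lit 0x14e24538914914e25414e24524538914e243), (nat_lit 24)⟩)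
(.lf ⟨(nat_lit 591), (nat_lit 2), (nat_lit 969), (nat_lit 2)⟩))
(.nd (.lf ⟨(nat_lit 0x2012c804b), (nat_lit 6), (nat_lit 0x2c804b201), (nat_lit 6)⟩)
(.lf ⟨(nat_lit 0x891c91c2247247), (nat_lit 10), (nat_lit 0x891c91c2247247), (nat_lit 10)⟩))))))
(.nd (.nd (.nd (.nd (.nd (.nd (.lf ⟨(nat_lit 26), (nat_lit 1), (nat_lit 0xd00d0), (nat_lit 4)⟩)
(.lf ⟨(nat_lit 15), (nat_lit 1), (nat_lit 0x4a04a), (nat_lit 4)⟩))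
(.lf ⟨(nat_lit 134), (nat_lit 2), (nat_lit 386), (nat_lit 2)⟩))
(.nd (.lf ⟨(nat_lit 0x341341), (nat_lit 4), (nat_lit 0x4d04d), (nat_lit 4)⟩)
(.lf ⟨(nat_lit 329), (nat_lit 2), (nat_lit 0x14245), (nat_lit 3)⟩)))
(.nd (.nd (.nd (.lf ⟨(nat_lit 290), (nat_lit 2), (nat_lit 0x27884), (nat_lit 3)⟩)
(.lf ⟨(nat_lit 0x29f28229f3e57cf28229f3e57cf28a7ca08a7cf95f3ca08a7cf95f3ca), (nat_lit 38), (nat_lit 0x29f28229f3e57cf28229f3e57cf28a7ca08a7cf95f3ca08a7cf95f3ca), (nat_lit 38)⟩))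
(.lf ⟨(nat_lit 0xa1d12c7), (nat_lit 5), (nat_lit 0xc1d13112c72ca44b), (nat_lit 11)⟩))
(.nd (.lf ⟨(nat_lit 0x542542), (nat_lit 4), (nat_lit 0x95095), (nat_lit 4)⟩)
(.lf ⟨(nat_lit 0x1133d334f3441133d334f344), (nat_lit 16), (nat_lit 0), (nat_lit 0)⟩))))
(.nd (.nd (.nd (.nd (.lf ⟨(nat_lit 0x4d3), (nat_lit 2), (nat_lit 0), (nat_lit 0)⟩)
(.lf ⟨(nat_lit 0x720), (nat_lit 2), (nat_lit 0x81c), (nat_lit 2)⟩))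
(.lf ⟨(nat_lit 0x8349), (nat_lit 3), (nat_lit 0x4cd248), (nat_lit 4)⟩))
(.nd (.lf ⟨(nat_lit 0x184184), (nat_lit 4), (nat_lit 0x106106), (nat_lit 4)⟩)
(.lf ⟨(nat_lit 0x769), (nat_lit 2), (nat_lit 0xa5d), (nat_lit 2)⟩)))
(.nd (.nd (.lf ⟨(nat_lit 0xc12453890c1), (nat_lit 8), (nat_lit 0xc12410c1241), (nat_lit 8)⟩)
(.lf ⟨(nat_lit 156), (nat_lit 2), (nat_lit 0x711211202), (nat_lit 6)⟩))
(.nd (.lf ⟨(nat_lit 0x38a38a), (nat_lit 4), (nat_lit 0x28e28e), (nat_lit 4)⟩)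
(.lf ⟨(nat_lit 0x1026da40b38b5026da40b38b50409b6902ce2d409b6902ce2d4), (nat_lit 34), (nat_lit 0x1026da40b38b5026da40b38b50409b6902ce2d409b6902ce2d4), (nat_lit 34)⟩)))))
(.nd (.nd (.nd (.nd (.nd (.lf ⟨(nat_lit 68), (nat_lit 2), (nat_lit 0x9101), (nat_lit 3)⟩)
(.lf ⟨(nat_lit 0x19e19e), (nat_lit 4), (nat_lit 0x786786), (nat_lit 4)⟩))
(.lf ⟨(nat_lit 0x2c43cb10f), (nat_lit 6), (nat_lit 0x3cb10f2c4), (nat_lit 6)⟩))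
(.nd (.lf ⟨(nat_lit 0x382382), (nat_lit 4), (nat_lit 0x8e08e), (nat_lit 4)⟩)
(.lf ⟨(nat_lit 341), (nat_lit 2), (nat_lit 0x546386385), (nat_lit 6)⟩)))
(.nd (.nd (.nd (.lf ⟨(nat_lit 0x47047), (nat_lit 4), (nat_lit 0x47047), (nat_lit 4)⟩)
(.lf ⟨(nat_lit 73), (nat_lit 2), (nat_lit 577), (nat_lit 2)⟩))
(.lf ⟨(nat_lit 152), (nat_lit 2), (nat_lit 0x602), (nat_lit 2)⟩))
(.nd (.lf ⟨(nat_lit 0x6c46c4), (nat_lit 4), (nat_lit 0x11b11b), (nat_lit 4)⟩)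
(.lf ⟨(nat_lit 0x747), (nat_lit 2), (nat_lit 477), (nat_lit 2)⟩))))
(.nd (.nd (.nd (.nd (.lf ⟨(nat_lit 0x46046), (nat_lit 4), (nat_lit 0x181181), (nat_lit 4)⟩)
(.lf ⟨(nat_lit 724), (nat_lit 2), (nat_lit 0x50b), (nat_lit 2)⟩))
(.lf ⟨(nat_lit 0x7e5), (nat_lit 2), (nat_lit 0x95f), (nat_lit 2)⟩))
(.nd (.lf ⟨(nat_lit 0x514), (nat_lit 2), (nat_lit 0), (nat_lit 0)⟩)
(.lf ⟨(nat_lit 0xe40c3903), (nat_lit 6), (nat_lit 0), (nat_lit 0)⟩)))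
(.nd (.nd (.lf ⟨(nat_lit 203), (nat_lit 2), (nat_lit 707), (nat_lit 2)⟩)
(.lf ⟨(nat_lit 287), (nat_lit 2), (nat_lit 0x7cb60b604), (nat_lit 6)⟩))
(.nd (.lf ⟨(nat_lit 0x683683), (nat_lit 4), (nat_lit 0), (nat_lit 0)⟩)
(.lf ⟨(nat_lit 263), (nat_lit 2), (nat_lit 0x72c774c44b287284), (nat_lit 11)⟩))))))))
(.nd (.nd (.nd (.nd (.nd (.nd (.nd (.nd (.lf ⟨(nat_lit 8), (nat_lit 1), (nat_lit 0x42042), (nat_lit 4)⟩)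
(.lf ⟨(nat_lit 13), (nat_lit 1), (nat_lit 0x89089), (nat_lit 4)⟩))
(.lf ⟨(nat_lit 0x458a), (nat_lit 3), (nat_lit 0x16296116), (nat_lit 5)⟩))
(.nd (.lf ⟨(nat_lit 134), (nat_lit 2), (nat_lit 0x146146146142), (nat_lit 8)⟩)
(.lf ⟨(nat_lit 0x44b44b), (nat_lit 4), (nat_lit 0), (nat_lit 0)⟩)))
(.nd (.nd (.nd (.lf ⟨(nat_lit 0x119119), (nat_lit 4), (nat_lit 0x644644), (nat_lit 4)⟩)
(.lf ⟨(nat_lit 0x6027d81c26027d81c2), (nat_lit 12), (nat_lit 0), (nat_lit 0)⟩))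
(.lf ⟨(nat_lit 0xa9e2), (nat_lit 3), (nat_lit 0x2788a), (nat_lit 3)⟩))
(.nd (.lf ⟨(nat_lit 0x69a), (nat_lit 2), (nat_lit 0), (nat_lit 0)⟩)
(.lf ⟨(nat_lit 11), (nat_lit 1), (nat_lit 0x103103), (nat_lit 4)⟩))))
(.nd (.nd (.nd (.nd (.lf ⟨(nat_lit 133), (nat_lit 2), (nat_lit 0x6142), (nat_lit 3)⟩)
(.lf ⟨(nat_lit 0x2266e66c8), (nat_lit 6), (nat_lit 0x21b2086e66c821b2086e66c8), (nat_lit 16)⟩))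
(.lf ⟨(nat_lit 0x2c32842c3284), (nat_lit 8), (nat_lit 0x2842c32842c3), (nat_lit 8)⟩))
(.nd (.lf ⟨(nat_lit 0x1430850c2), (nat_lit 6), (nat_lit 0x850c2143), (nat_lit 6)⟩)
(.lf ⟨(nat_lit 0x2cf28b3ca), (nat_lit 6), (nat_lit 0x3ca2cf28b), (nat_lit 6)⟩)))
(.nd (.nd (.lf ⟨(nat_lit 131), (nat_lit 2), (nat_lit 0x70c2), (nat_lit 3)⟩)
(.lf ⟨(nat_lit 731), (nat_lit 2), (nat_lit 0x6cb), (nat_lit 2)⟩))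
(.nd (.lf ⟨(nat_lit 0x448448), (nat_lit 4), (nat_lit 0x211211), (nat_lit 4)⟩)
(.lf ⟨(nat_lit 0x9e142785), (nat_lit 6), (nat_lit 0x9e142785), (nat_lit 6)⟩)))))
(.nd (.nd (.nd (.nd (.nd (.lf ⟨(nat_lit 37), (nat_lit 1), (nat_lit 0x5f05f), (nat_lit 4)⟩)
(.lf ⟨(nat_lit 275), (nat_lit 2), (nat_lit 0x4c4), (nat_lit 2)⟩))
(.lf ⟨(nat_lit 215), (nat_lit 2), (nat_lit 0x5c3), (nat_lit 2)⟩))
(.nd (.lf ⟨(nat_lit 0x441441), (nat_lit 4), (nat_lit 0x51051), (nat_lit 4)⟩)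
(.lf ⟨(nat_lit 0x429410a50), (nat_lit 6), (nat_lit 0), (nat_lit 0)⟩)))
(.nd (.nd (.nd (.lf ⟨(nat_lit 294), (nat_lit 2), (nat_lit 0x2b984), (nat_lit 3)⟩)
(.lf ⟨(nat_lit 0x28774b), (nat_lit 4), (nat_lit 0x744c2c730a1d1), (nat_lit 9)⟩))
(.lf ⟨(nat_lit 534), (nat_lit 2), (nat_lit 0x588), (nat_lit 2)⟩))
(.nd (.lf ⟨(nat_lit 0x543543), (nat_lit 4), (nat_lit 0xd50d5), (nat_lit 4)⟩)
(.lf ⟨(nat_lit 7), (nat_lit 1), (nat_lit 0xc20c2), (nat_lit 4)⟩))))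
(.nd (.nd (.nd (.nd (.lf ⟨(nat_lit 0x5d7), (nat_lit 2), (nat_lit 0), (nat_lit 0)⟩)
(.lf ⟨(nat_lit 0x844b), (nat_lit 3), (nat_lit 0x8197104502c8), (nat_lit 8)⟩))
(.lf ⟨(nat_lit 0x45d), (nat_lit 2), (nat_lit 0x751), (nat_lit 2)⟩))
(.nd (.lf ⟨(nat_lit 0x288288), (nat_lit 4), (nat_lit 0x20a20a), (nat_lit 4)⟩)
(.lf ⟨(nat_lit 0x18042), (nat_lit 3), (nat_lit 0x202601), (nat_lit 4)⟩)))
(.nd (.nd (.lf ⟨(nat_lit 69), (nat_lit 2), (nat_lit 321), (nat_lit 2)⟩)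
(.lf ⟨(nat_lit 0xb1d1), (nat_lit 3), (nat_lit 0x112c7), (nat_lit 3)⟩))
(.nd (.lf ⟨(nat_lit 0x38b38b), (nat_lit 4), (nat_lit 0x2ce2ce), (nat_lit 4)⟩)
(.lf ⟨(nat_lit 0xcd0cd), (nat_lit 4), (nat_lit 0xcd0cd), (nat_lit 4)⟩))))))
(.nd (.nd (.nd (.nd (.nd (.nd (.lf ⟨(nat_lit 22), (nat_lit 1), (nat_lit 0x8f08f), (nat_lit 4)⟩)
(.lf ⟨(nat_lit 0x10360f2d82cf0d83cb60b3c40d83cb60b3c360f2d82cf), (nat_lit 30), (nat_lit 0x10360f2d82cf0d83cb60b3c40d83cb60b3c360f2d82cf), (nat_lit 30)⟩))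
(.lf ⟨(nat_lit 0x8c283), (nat_lit 4), (nat_lit 0x30a1ca1cc1cc28728308c287), (nat_lit 16)⟩))
(.nd (.lf ⟨(nat_lit 390), (nat_lit 2), (nat_lit 0), (nat_lit 0)⟩)
(.lf ⟨(nat_lit 670), (nat_lit 2), (nat_lit 0x78a), (nat_lit 2)⟩)))
(.nd (.nd (.nd (.lf ⟨(nat_lit 0x9a6), (nat_lit 2), (nat_lit 0), (nat_lit 0)⟩)
(.lf ⟨(nat_lit 0x28760760a), (nat_lit 6), (nat_lit 0x29f28229f282), (nat_lit 8)⟩))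
(.lf ⟨(nat_lit 331), (nat_lit 2), (nat_lit 0x1a2c5), (nat_lit 3)⟩))
(.nd (.lf ⟨(nat_lit 391), (nat_lit 2), (nat_lit 454), (nat_lit 2)⟩)
(.lf ⟨(nat_lit 0x113107113107), (nat_lit 8), (nat_lit 0x113107113107), (nat_lit 8)⟩))))
(.nd (.nd (.nd (.nd (.lf ⟨(nat_lit 0x4c04c), (nat_lit 4), (nat_lit 0x301301), (nat_lit 4)⟩)
(.lf ⟨(nat_lit 0x411411), (nat_lit 4), (nat_lit 0x450450), (nat_lit 4)⟩))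
(.lf ⟨(nat_lit 0x55cf30a), (nat_lit 5), (nat_lit 0x1230f285), (nat_lit 5)⟩))
(.nd (.lf ⟨(nat_lit 0x201201), (nat_lit 4), (nat_lit 0), (nat_lit 0)⟩)
(.lf ⟨(nat_lit 0x7440dda647490dda647497440dda647490dda64749), (nat_lit 28), (nat_lit 0x7440dda647490dda647497440dda647490dda64749), (nat_lit 28)⟩)))
(.nd (.nd (.lf ⟨(nat_lit 72), (nat_lit 2), (nat_lit 513), (nat_lit 2)⟩)
(.lf ⟨(nat_lit 296), (nat_lit 2), (nat_lit 0xa04), (nat_lit 2)⟩))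
(.nd (.lf ⟨(nat_lit 0x18a18a), (nat_lit 4), (nat_lit 0x286286), (nat_lit 4)⟩)
(.lf ⟨(nat_lit 0x285285), (nat_lit 4), (nat_lit 0x14a14a), (nat_lit 4)⟩)))))
(.nd (.nd (.nd (.nd (.nd (.lf ⟨(nat_lit 325), (nat_lit 2), (nat_lit 0), (nat_lit 0)⟩)
(.lf ⟨(nat_lit 0x961c55850961c5585), (nat_lit 12), (nat_lit 0x961c55850961c5585), (nat_lit 12)⟩))
(.lf ⟨(nat_lit 0x2c438b10e), (nat_lit 6), (nat_lit 0x38b10e2c4), (nat_lit 6)⟩))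
(.nd (.lf ⟨(nat_lit 0x182182), (nat_lit 4), (nat_lit 0x86086), (nat_lit 4)⟩)
(.lf ⟨(nat_lit 0x199199), (nat_lit 4), (nat_lit 0x646646), (nat_lit 4)⟩)))
(.nd (.nd (.nd (.lf ⟨(nat_lit 0x202048081), (nat_lit 6), (nat_lit 0x42042), (nat_lit 4)⟩)
(.lf ⟨(nat_lit 0x21e20321e09e2020c87827880887880c878278808321e09e202), (nat_lit 34), (nat_lit 0x21e20321e09e2020c87827880887880c878278808321e09e202), (nat_lit 34)⟩))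
(.lf ⟨(nat_lit 797), (nat_lit 2), (nat_lit 0x74c), (nat_lit 2)⟩))
(.nd (.lf ⟨(nat_lit 0x644644), (nat_lit 4), (nat_lit 0x119119), (nat_lit 4)⟩)
(.lf ⟨(nat_lit 29), (nat_lit 1), (nat_lit 0x111111), (nat_lit 4)⟩))))
(.nd (.nd (.nd (.nd (.lf ⟨(nat_lit 81), (nat_lit 2), (nat_lit 0x1c441), (nat_lit 3)⟩)
(.lf ⟨(nat_lit 276), (nat_lit 2), (nat_lit 0x504), (nat_lit 2)⟩))
(.lf ⟨(nat_lit 0x764), (nat_lit 2), (nat_lit 0x91d), (nat_lit 2)⟩))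
(.nd (.lf ⟨(nat_lit 0x312312), (nat_lit 4), (nat_lit 0x48c48c), (nat_lit 4)⟩)
(.lf ⟨(nat_lit 264), (nat_lit 2), (nat_lit 0x3cd28958f4cd3cd289204), (nat_lit 14)⟩)))
(.nd (.nd (.lf ⟨(nat_lit 652), (nat_lit 2), (nat_lit 778), (nat_lit 2)⟩)
(.lf ⟨(nat_lit 669), (nat_lit 2), (nat_lit 0x74a), (nat_lit 2)⟩))
(.nd (.lf ⟨(nat_lit 0x25538d), (nat_lit 4), (nat_lit 0x39538d389), (nat_lit 6)⟩)
(.lf ⟨(nat_lit 724), (nat_lit 2), (nat_lit 0x6da51b68b), (nat_lit 6)⟩)))))))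
(.nd (.nd (.nd (.nd (.nd (.nd (.nd (.lf ⟨(nat_lit 14), (nat_lit 1), (nat_lit 0xc90c9), (nat_lit 4)⟩)
(.lf ⟨(nat_lit 597), (nat_lit 2), (nat_lit 0x54e34e349), (nat_lit 6)⟩))
(.lf ⟨(nat_lit 0x30324c0c9), (nat_lit 6), (nat_lit 0x24c0c9303), (nat_lit 6)⟩))
(.nd (.lf ⟨(nat_lit 0xa1cc287), (nat_lit 5), (nat_lit 0x730a1ca), (nat_lit 5)⟩)
(.lf ⟨(nat_lit 663), (nat_lit 2), (nat_lit 0x5cc3cc3ca), (nat_lit 6)⟩)))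
(.nd (.nd (.nd (.lf ⟨(nat_lit 284), (nat_lit 2), (nat_lit 0x23704), (nat_lit 3)⟩)
(.lf ⟨(nat_lit 0x58c7223148), (nat_lit 7), (nat_lit 0x163148163148), (nat_lit 8)⟩))
(.lf ⟨(nat_lit 587), (nat_lit 2), (nat_lit 0x1b2c9), (nat_lit 3)⟩))
(.nd (.lf ⟨(nat_lit 455), (nat_lit 2), (nat_lit 0), (nat_lit 0)⟩)
(.lf ⟨(nat_lit 347), (nat_lit 2), (nat_lit 0x6c5), (nat_lit 2)⟩))))
(.nd (.nd (.nd (.nd (.lf ⟨(nat_lit 975), (nat_lit 2), (nat_lit 0), (nat_lit 0)⟩)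
(.lf ⟨(nat_lit 166), (nat_lit 2), (nat_lit 0x988888882), (nat_lit 6)⟩))
(.lf ⟨(nat_lit 0x94cd), (nat_lit 3), (nat_lit 0xd253), (nat_lit 3)⟩))
(.nd (.lf ⟨(nat_lit 0x2c308b0c2), (nat_lit 6), (nat_lit 0x8b0c22c3), (nat_lit 6)⟩)
(.lf ⟨(nat_lit 658), (nat_lit 2), (nat_lit 0x48f30f30a), (nat_lit 6)⟩)))
(.nd (.nd (.lf ⟨(nat_lit 0x42244049101089101244041089101244042244049101), (nat_lit 30), (nat_lit 0x42244049101089101244041089101244042244049101), (nat_lit 30)⟩)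
(.lf ⟨(nat_lit 222), (nat_lit 2), (nat_lit 0x783), (nat_lit 2)⟩))
(.nd (.lf ⟨(nat_lit 0x309309), (nat_lit 4), (nat_lit 0x24c24c), (nat_lit 4)⟩)
(.lf ⟨(nat_lit 9), (nat_lit 1), (nat_lit 0x44044), (nat_lit 4)⟩)))))
(.nd (.nd (.nd (.nd (.nd (.lf ⟨(nat_lit 45), (nat_lit 1), (nat_lit 0xa90a9), (nat_lit 4)⟩)
(.lf ⟨(nat_lit 264), (nat_lit 2), (nat_lit 0x185933cd204), (nat_lit 7)⟩))
(.lf ⟨(nat_lit 0x141185046), (nat_lit 6), (nat_lit 0x185046141), (nat_lit 6)⟩))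
(.nd (.lf ⟨(nat_lit 0x2c32c3), (nat_lit 4), (nat_lit 0), (nat_lit 0)⟩)
(.lf ⟨(nat_lit 0x20174805d), (nat_lit 6), (nat_lit 0x74805d201), (nat_lit 6)⟩)))
(.nd (.nd (.nd (.lf ⟨(nat_lit 0xbae), (nat_lit 2), (nat_lit 0), (nat_lit 0)⟩)
(.lf ⟨(nat_lit 0x803803803803), (nat_lit 8), (nat_lit 0), (nat_lit 0)⟩))
(.lf ⟨(nat_lit 605), (nat_lit 2), (nat_lit 0x29749), (nat_lit 3)⟩))
(.nd (.lf ⟨(nat_lit 0x683683), (nat_lit 4), (nat_lit 0xda0da), (nat_lit 4)⟩)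
(.lf ⟨(nat_lit 0x26224126236234904988d88d24988904988d88d241262362349), (nat_lit 34), (nat_lit 0x26224126236234904988d88d24988904988d88d241262362349), (nat_lit 34)⟩))))
(.nd (.nd (.nd (.nd (.lf ⟨(nat_lit 0xd00d0), (nat_lit 4), (nat_lit 0x403403), (nat_lit 4)⟩)
(.lf ⟨(nat_lit 724), (nat_lit 2), (nat_lit 0x50b), (nat_lit 2)⟩))
(.lf ⟨(nat_lit 0x660), (nat_lit 2), (nat_lit 0x819), (nat_lit 2)⟩))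
(.nd (.lf ⟨(nat_lit 0x289289), (nat_lit 4), (nat_lit 0x24a24a), (nat_lit 4)⟩)
(.lf ⟨(nat_lit 0x56056181c6606), (nat_lit 9), (nat_lit 0x181c6606158158), (nat_lit 9)⟩)))
(.nd (.nd (.lf ⟨(nat_lit 0xc228730a0c2), (nat_lit 8), (nat_lit 0xc22820c2282), (nat_lit 8)⟩)
(.lf ⟨(nat_lit 592), (nat_lit 2), (nat_lit 0x409), (nat_lit 2)⟩))
(.nd (.lf ⟨(nat_lit 0xa48c), (nat_lit 3), (nat_lit 0xc48c3cc28f), (nat_lit 7)⟩)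
(.lf ⟨(nat_lit 0x91cd), (nat_lit 3), (nat_lit 0x7347247), (nat_lit 5)⟩))))))
(.nd (.nd (.nd (.nd (.nd (.nd (.lf ⟨(nat_lit 7), (nat_lit 1), (nat_lit 0x46046), (nat_lit 4)⟩)
(.lf ⟨(nat_lit 0x616), (nat_lit 2), (nat_lit 0x598), (nat_lit 2)⟩))
(.lf ⟨(nat_lit 71), (nat_lit 2), (nat_lit 449), (nat_lit 2)⟩))
(.nd (.lf ⟨(nat_lit 84), (nat_lit 2), (nat_lit 0x394394394381), (nat_lit 8)⟩)
(.lf ⟨(nat_lit 212), (nat_lit 2), (nat_lit 0x503), (nat_lit 2)⟩)))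
(.nd (.nd (.nd (.lf ⟨(nat_lit 0x124124), (nat_lit 4), (nat_lit 0x904904), (nat_lit 4)⟩)
(.lf ⟨(nat_lit 0x87d61d8), (nat_lit 5), (nat_lit 0x161d81d85887d8587), (nat_lit 11)⟩))
(.lf ⟨(nat_lit 350), (nat_lit 2), (nat_lit 0x785), (nat_lit 2)⟩))
(.nd (.lf ⟨(nat_lit 0x642642), (nat_lit 4), (nat_lit 0x99099), (nat_lit 4)⟩)
(.lf ⟨(nat_lit 0x21133d334f344), (nat_lit 9), (nat_lit 0x44cf4cd3cd102), (nat_lit 9)⟩))))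
(.nd (.nd (.nd (.nd (.lf ⟨(nat_lit 78), (nat_lit 2), (nat_lit 0x14381), (nat_lit 3)⟩)
(.lf ⟨(nat_lit 0x10460), (nat_lit 3), (nat_lit 0x11811411), (nat_lit 5)⟩))
(.lf ⟨(nat_lit 982), (nat_lit 2), (nat_lit 0x58f), (nat_lit 2)⟩))
(.nd (.lf ⟨(nat_lit 0x404404), (nat_lit 4), (nat_lit 0x110110), (nat_lit 4)⟩)
(.lf ⟨(nat_lit 8), (nat_lit 1), (nat_lit 0x601098042), (nat_lit 6)⟩)))
(.nd (.nd (.lf ⟨(nat_lit 0x1012c40cb10304b1032c40c404b1032c40c12c40cb103), (nat_lit 30), (nat_lit 0x1012c40cb10304b1032c40c404b1032c40c12c40cb103), (nat_lit 30)⟩)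
(.lf ⟨(nat_lit 147), (nat_lit 2), (nat_lit 0x4c2), (nat_lit 2)⟩))
(.nd (.lf ⟨(nat_lit 0x14128504a), (nat_lit 6), (nat_lit 0x28504a141), (nat_lit 6)⟩)
(.lf ⟨(nat_lit 922), (nat_lit 2), (nat_lit 0x68e), (nat_lit 2)⟩)))))
(.nd (.nd (.nd (.nd (.nd (.lf ⟨(nat_lit 0xc40c4), (nat_lit 4), (nat_lit 0x103103), (nat_lit 4)⟩)
(.lf ⟨(nat_lit 0x19e18f), (nat_lit 4), (nat_lit 0x3c719e1c6), (nat_lit 6)⟩))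
(.lf ⟨(nat_lit 0x241449051), (nat_lit 6), (nat_lit 0x449051241), (nat_lit 6)⟩))
(.nd (.lf ⟨(nat_lit 0x402402), (nat_lit 4), (nat_lit 0x90090), (nat_lit 4)⟩)
(.lf ⟨(nat_lit 0x28e24a389), (nat_lit 6), (nat_lit 0x38928e24a), (nat_lit 6)⟩)))
(.nd (.nd (.nd (.lf ⟨(nat_lit 66), (nat_lit 2), (nat_lit 0x202048081081), (nat_lit 8)⟩)
(.lf ⟨(nat_lit 23), (nat_lit 1), (nat_lit 0xcf0cf), (nat_lit 4)⟩))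
(.lf ⟨(nat_lit 91), (nat_lit 2), (nat_lit 0x6c1), (nat_lit 2)⟩))
(.nd (.lf ⟨(nat_lit 0x744744), (nat_lit 4), (nat_lit 0x11d11d), (nat_lit 4)⟩)
(.lf ⟨(nat_lit 0x587587), (nat_lit 4), (nat_lit 0x960d60c2583583), (nat_lit 10)⟩))))
(.nd (.nd (.nd (.nd (.lf ⟨(nat_lit 0x79e), (nat_lit 2), (nat_lit 0), (nat_lit 0)⟩)
(.lf ⟨(nat_lit 0), (nat_lit 0), (nat_lit 0x143143), (nat_lit 4)⟩))
(.lf ⟨(nat_lit 0x8a7), (nat_lit 2), (nat_lit 0x9e2), (nat_lit 2)⟩))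
(.nd (.lf ⟨(nat_lit 0x596), (nat_lit 2), (nat_lit 0), (nat_lit 0)⟩)
(.lf ⟨(nat_lit 0xe41a4183), (nat_lit 6), (nat_lit 0xe40c60e40c6), (nat_lit 8)⟩)))
(.nd (.nd (.lf ⟨(nat_lit 650), (nat_lit 2), (nat_lit 0), (nat_lit 0)⟩)
(.lf ⟨(nat_lit 334), (nat_lit 2), (nat_lit 901), (nat_lit 2)⟩))
(.nd (.lf ⟨(nat_lit 0x582582), (nat_lit 4), (nat_lit 0), (nat_lit 0)⟩)
(.lf ⟨(nat_lit 0x1941), (nat_lit 3), (nat_lit 0x5f05f), (nat_lit 4)⟩)))))))))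
(.nd (.nd (.nd (.nd (.nd (.nd (.nd (.nd (.nd (.lf ⟨(nat_lit 260), (nat_lit 2), (nat_lit 0), (nat_lit 0)⟩)
(.lf ⟨(nat_lit 0x41941), (nat_lit 4), (nat_lit 0x65041), (nat_lit 4)⟩))
(.lf ⟨(nat_lit 0x701701), (nat_lit 4), (nat_lit 0), (nat_lit 0)⟩))
(.nd (.lf ⟨(nat_lit 325), (nat_lit 2), (nat_lit 0), (nat_lit 0)⟩)
(.lf ⟨(nat_lit 0x38308e0c2), (nat_lit 6), (nat_lit 0x8e0c2383), (nat_lit 6)⟩)))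
(.nd (.nd (.nd (.lf ⟨(nat_lit 0x820), (nat_lit 2), (nat_lit 0), (nat_lit 0)⟩)
(.lf ⟨(nat_lit 0x60215809f6070856027d81c260215809f6070856027d81c2), (nat_lit 32), (nat_lit 0x60215809f6070856027d81c260215809f6070856027d81c2), (nat_lit 32)⟩))
(.lf ⟨(nat_lit 0x9ab), (nat_lit 2), (nat_lit 0xae6), (nat_lit 2)⟩))
(.nd (.lf ⟨(nat_lit 0x641641), (nat_lit 4), (nat_lit 0x59059), (nat_lit 4)⟩)
(.lf ⟨(nat_lit 0x164164), (nat_lit 4), (nat_lit 0x905905), (nat_lit 4)⟩))))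
(.nd (.nd (.nd (.nd (.lf ⟨(nat_lit 0x85085), (nat_lit 4), (nat_lit 0x142142), (nat_lit 4)⟩)
(.lf ⟨(nat_lit 0x86e66c8), (nat_lit 5), (nat_lit 0x486c89a26c121b22689b), (nat_lit 14)⟩))
(.lf ⟨(nat_lit 0x282244282244), (nat_lit 8), (nat_lit 0x244282244282), (nat_lit 8)⟩))
(.nd (.lf ⟨(nat_lit 0x51c6), (nat_lit 3), (nat_lit 0x6147), (nat_lit 3)⟩)
(.lf ⟨(nat_lit 612), (nat_lit 2), (nat_lit 0x909), (nat_lit 2)⟩)))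
(.nd (.nd (.lf ⟨(nat_lit 135), (nat_lit 2), (nat_lit 450), (nat_lit 2)⟩)
(.lf ⟨(nat_lit 662), (nat_lit 2), (nat_lit 0x58a), (nat_lit 2)⟩))
(.nd (.lf ⟨(nat_lit 0x408408), (nat_lit 4), (nat_lit 0x210210), (nat_lit 4)⟩)
(.lf ⟨(nat_lit 0x785785), (nat_lit 4), (nat_lit 0), (nat_lit 0)⟩)))))
(.nd (.nd (.nd (.nd (.nd (.lf ⟨(nat_lit 35), (nat_lit 1), (nat_lit 0x11c11c), (nat_lit 4)⟩)
(.lf ⟨(nat_lit 979), (nat_lit 2), (nat_lit 0x4cf), (nat_lit 2)⟩))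
(.lf ⟨(nat_lit 153), (nat_lit 2), (nat_lit 0x642), (nat_lit 2)⟩))
(.nd (.lf ⟨(nat_lit 0x2d02d0), (nat_lit 4), (nat_lit 0x40b40b), (nat_lit 4)⟩)
(.lf ⟨(nat_lit 0xa1d12c7), (nat_lit 5), (nat_lit 0x1cc44c44b1dd44a), (nat_lit 10)⟩)))
(.nd (.nd (.nd (.lf ⟨(nat_lit 0x126126), (nat_lit 4), (nat_lit 0x984984), (nat_lit 4)⟩)
(.lf ⟨(nat_lit 785), (nat_lit 2), (nat_lit 0x44c), (nat_lit 2)⟩))
(.lf ⟨(nat_lit 0x84cd), (nat_lit 3), (nat_lit 0x13348), (nat_lit 3)⟩))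
(.nd (.lf ⟨(nat_lit 0x401090042), (nat_lit 6), (nat_lit 0x90042401), (nat_lit 6)⟩)
(.lf ⟨(nat_lit 0), (nat_lit 0), (nat_lit 65), (nat_lit 2)⟩))))
(.nd (.nd (.nd (.nd (.lf ⟨(nat_lit 143), (nat_lit 2), (nat_lit 0x163c2), (nat_lit 3)⟩)
(.lf ⟨(nat_lit 0x459), (nat_lit 2), (nat_lit 0x651), (nat_lit 2)⟩))
(.lf ⟨(nat_lit 0x45c), (nat_lit 2), (nat_lit 0x711), (nat_lit 2)⟩))
(.nd (.lf ⟨(nat_lit 0x1431050c4), (nat_lit 6), (nat_lit 0x1050c4143), (nat_lit 6)⟩)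
(.lf ⟨(nat_lit 0x158158158158), (nat_lit 8), (nat_lit 0), (nat_lit 0)⟩)))
(.nd (.nd (.lf ⟨(nat_lit 590), (nat_lit 2), (nat_lit 905), (nat_lit 2)⟩)
(.lf ⟨(nat_lit 0x14f30a), (nat_lit 4), (nat_lit 0x5d230f285), (nat_lit 6)⟩))
(.nd (.lf ⟨(nat_lit 0x18b18b), (nat_lit 4), (nat_lit 0x2c62c6), (nat_lit 4)⟩)
(.lf ⟨(nat_lit 0x2ce2d4), (nat_lit 4), (nat_lit 0x6da4146da40b38b), (nat_lit 10)⟩))))))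
(.nd (.nd (.nd (.nd (.nd (.nd (.lf ⟨(nat_lit 20), (nat_lit 1), (nat_lit 0x4e04e), (nat_lit 4)⟩)
(.lf ⟨(nat_lit 0xd83cb60b3c360f2d82cf), (nat_lit 14), (nat_lit 0xd83cb60b3c360f2d82cf), (nat_lit 14)⟩))
(.lf ⟨(nat_lit 212), (nat_lit 2), (nat_lit 0x14e24538914915424c38c24c38c243), (nat_lit 20)⟩))
(.nd (.lf ⟨(nat_lit 0x301301), (nat_lit 4), (nat_lit 0x4c04c), (nat_lit 4)⟩)
(.lf ⟨(nat_lit 0x420), (nat_lit 2), (nat_lit 0x810), (nat_lit 2)⟩)))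
(.nd (.nd (.nd (.lf ⟨(nat_lit 95), (nat_lit 2), (nat_lit 0x257c1), (nat_lit 3)⟩)
(.lf ⟨(nat_lit 104), (nat_lit 2), (nat_lit 0xa01), (nat_lit 2)⟩))
(.lf ⟨(nat_lit 0x930a), (nat_lit 3), (nat_lit 0x60a24c), (nat_lit 4)⟩))
(.nd (.lf ⟨(nat_lit 0x182182), (nat_lit 4), (nat_lit 0), (nat_lit 0)⟩)
(.lf ⟨(nat_lit 0x44cb0d3103), (nat_lit 7), (nat_lit 0x113103113103), (nat_lit 8)⟩))))
(.nd (.nd (.nd (.nd (.lf ⟨(nat_lit 0x451), (nat_lit 2), (nat_lit 0), (nat_lit 0)⟩)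
(.lf ⟨(nat_lit 0x448448), (nat_lit 4), (nat_lit 0x9c09c), (nat_lit 4)⟩))
(.lf ⟨(nat_lit 263), (nat_lit 2), (nat_lit 0x2912c730a2c4), (nat_lit 8)⟩))
(.nd (.lf ⟨(nat_lit 0x403403), (nat_lit 4), (nat_lit 0xd00d0), (nat_lit 4)⟩)
(.lf ⟨(nat_lit 0xdda647490dda64749), (nat_lit 12), (nat_lit 0xdda647490dda64749), (nat_lit 12)⟩)))
(.nd (.nd (.lf ⟨(nat_lit 266), (nat_lit 2), (nat_lit 644), (nat_lit 2)⟩)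
(.lf ⟨(nat_lit 735), (nat_lit 2), (nat_lit 0x7cb), (nat_lit 2)⟩))
(.nd (.lf ⟨(nat_lit 0x2c324b0c9), (nat_lit 6), (nat_lit 0x24b0c92c3), (nat_lit 6)⟩)
(.lf ⟨(nat_lit 10), (nat_lit 1), (nat_lit 0x84084), (nat_lit 4)⟩)))))
(.nd (.nd (.nd (.nd (.nd (.lf ⟨(nat_lit 66), (nat_lit 2), (nat_lit 0x8081), (nat_lit 3)⟩)
(.lf ⟨(nat_lit 0x161c5585), (nat_lit 5), (nat_lit 0x156205588), (nat_lit 6)⟩))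
(.lf ⟨(nat_lit 0x24138904e), (nat_lit 6), (nat_lit 0x38904e241), (nat_lit 6)⟩))
(.nd (.lf ⟨(nat_lit 0x302302), (nat_lit 4), (nat_lit 0x8c08c), (nat_lit 4)⟩)
(.lf ⟨(nat_lit 0x3c93c9), (nat_lit 4), (nat_lit 0), (nat_lit 0)⟩)))
(.nd (.nd (.nd (.lf ⟨(nat_lit 130), (nat_lit 2), (nat_lit 0), (nat_lit 0)⟩)
(.lf ⟨(nat_lit 0xc878278808321e09e202), (nat_lit 14), (nat_lit 0xc878278808321e09e202), (nat_lit 14)⟩))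
(.lf ⟨(nat_lit 722), (nat_lit 2), (nat_lit 0x41231030b), (nat_lit 6)⟩))
(.nd (.lf ⟨(nat_lit 0x604604), (nat_lit 4), (nat_lit 0x118118), (nat_lit 4)⟩)
(.lf ⟨(nat_lit 17), (nat_lit 1), (nat_lit 0x8b08b), (nat_lit 4)⟩))))
(.nd (.nd (.nd (.nd (.lf ⟨(nat_lit 0x51051), (nat_lit 4), (nat_lit 0x441441), (nat_lit 4)⟩)
(.lf ⟨(nat_lit 0x65c), (nat_lit 2), (nat_lit 0x719), (nat_lit 2)⟩))
(.lf ⟨(nat_lit 0xa8596d0), (nat_lit 5), (nat_lit 0x226d940a), (nat_lit 5)⟩))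
(.nd (.lf ⟨(nat_lit 0x492), (nat_lit 2), (nat_lit 0), (nat_lit 0)⟩)
(.lf ⟨(nat_lit 0x11a23), (nat_lit 3), (nat_lit 0x1ca5d72975ca2391d71d464), (nat_lit 15)⟩)))
(.nd (.nd (.lf ⟨(nat_lit 204), (nat_lit 2), (nat_lit 0x1ca30728728c1cc283), (nat_lit 12)⟩)
(.lf ⟨(nat_lit 597), (nat_lit 2), (nat_lit 0x54d38d389), (nat_lit 6)⟩))
(.nd (.lf ⟨(nat_lit 105), (nat_lit 2), (nat_lit 0x764769764741), (nat_lit 8)⟩)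
(.lf ⟨(nat_lit 0x414), (nat_lit 2), (nat_lit 0x6da51b690), (nat_lit 6)⟩)))))))
(.nd (.nd (.nd (.nd (.nd (.nd (.nd (.lf ⟨(nat_lit 6), (nat_lit 1), (nat_lit 0x85085), (nat_lit 4)⟩)
(.lf ⟨(nat_lit 0x34e34e34e34e), (nat_lit 8), (nat_lit 0), (nat_lit 0)⟩))
(.lf ⟨(nat_lit 296), (nat_lit 2), (nat_lit 0x723728723704), (nat_lit 8)⟩))
(.nd (.lf ⟨(nat_lit 520), (nat_lit 2), (nat_lit 0), (nat_lit 0)⟩)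
(.lf ⟨(nat_lit 0x3ca3ca), (nat_lit 4), (nat_lit 0), (nat_lit 0)⟩)))
(.nd (.nd (.nd (.lf ⟨(nat_lit 0x11c11c), (nat_lit 4), (nat_lit 0x704704), (nat_lit 4)⟩)
(.lf ⟨(nat_lit 0x858c50858c5), (nat_lit 8), (nat_lit 0x858c50858c5), (nat_lit 8)⟩))
(.lf ⟨(nat_lit 270), (nat_lit 2), (nat_lit 0x2ce24b244), (nat_lit 6)⟩))
(.nd (.lf ⟨(nat_lit 0x741741), (nat_lit 4), (nat_lit 0x5d05d), (nat_lit 4)⟩)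
(.lf ⟨(nat_lit 0xc4144143105105), (nat_lit 10), (nat_lit 0xc4144143105105), (nat_lit 10)⟩))))
(.nd (.nd (.nd (.nd (.lf ⟨(nat_lit 201), (nat_lit 2), (nat_lit 0xe243), (nat_lit 3)⟩)
(.lf ⟨(nat_lit 0x2086e66c8), (nat_lit 6), (nat_lit 0x21b99b208), (nat_lit 6)⟩))
(.lf ⟨(nat_lit 596), (nat_lit 2), (nat_lit 0x509), (nat_lit 2)⟩))
(.nd (.lf ⟨(nat_lit 0x244089102), (nat_lit 6), (nat_lit 0x89102244), (nat_lit 6)⟩)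
(.lf ⟨(nat_lit 0x2d82d8), (nat_lit 4), (nat_lit 0x60b60b), (nat_lit 4)⟩)))
(.nd (.nd (.lf ⟨(nat_lit 0x89101244042244049101), (nat_lit 14), (nat_lit 0x89101244042244049101), (nat_lit 14)⟩)
(.lf ⟨(nat_lit 0xe1d5), (nat_lit 3), (nat_lit 0x151d51d5387), (nat_lit 7)⟩))
(.nd (.lf ⟨(nat_lit 0x28214a085), (nat_lit 6), (nat_lit 0x14a085282), (nat_lit 6)⟩)
(.lf ⟨(nat_lit 0x9e14278509e142785), (nat_lit 12), (nat_lit 0), (nat_lit 0)⟩)))))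
(.nd (.nd (.nd (.nd (.nd (.lf ⟨(nat_lit 43), (nat_lit 1), (nat_lit 0x126126), (nat_lit 4)⟩)
(.lf ⟨(nat_lit 847), (nat_lit 2), (nat_lit 973), (nat_lit 2)⟩))
(.lf ⟨(nat_lit 156), (nat_lit 2), (nat_lit 0x45c211202), (nat_lit 6)⟩))
(.nd (.lf ⟨(nat_lit 0x28404a101), (nat_lit 6), (nat_lit 0x4a101284), (nat_lit 6)⟩)
(.lf ⟨(nat_lit 0x901901), (nat_lit 4), (nat_lit 0), (nat_lit 0)⟩)))
(.nd (.nd (.nd (.lf ⟨(nat_lit 169), (nat_lit 2), (nat_lit 0x2da42), (nat_lit 3)⟩)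
(.lf ⟨(nat_lit 0xcb8038032e00e00c32e00e00cb803803), (nat_lit 22), (nat_lit 0xcb8038032e00e00c32e00e00cb803803), (nat_lit 22)⟩))
(.lf ⟨(nat_lit 0xb39b2db), (nat_lit 5), (nat_lit 0x1b2ce6cb), (nat_lit 5)⟩))
(.nd (.lf ⟨(nat_lit 0x603603), (nat_lit 4), (nat_lit 0xd80d8), (nat_lit 4)⟩)
(.lf ⟨(nat_lit 0x4988d88d241262362349), (nat_lit 14), (nat_lit 0x4988d88d241262362349), (nat_lit 14)⟩))))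
(.nd (.nd (.nd (.nd (.lf ⟨(nat_lit 0x659), (nat_lit 2), (nat_lit 0), (nat_lit 0)⟩)
(.lf ⟨(nat_lit 0x6ce2ce2d4), (nat_lit 6), (nat_lit 0x51b38b38b), (nat_lit 6)⟩))
(.lf ⟨(nat_lit 0x960f), (nat_lit 3), (nat_lit 0x183c9), (nat_lit 3)⟩))
(.nd (.lf ⟨(nat_lit 0x2c52c5), (nat_lit 4), (nat_lit 0x14b14b), (nat_lit 4)⟩)
(.lf ⟨(nat_lit 0x5607607), (nat_lit 5), (nat_lit 0x181d81c5), (nat_lit 5)⟩)))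
(.nd (.nd (.lf ⟨(nat_lit 0x2282), (nat_lit 3), (nat_lit 0x84084), (nat_lit 4)⟩)
(.lf ⟨(nat_lit 528), (nat_lit 2), (nat_lit 0x20408), (nat_lit 3)⟩))
(.nd (.lf ⟨(nat_lit 0x30a30a), (nat_lit 4), (nat_lit 0), (nat_lit 0)⟩)
(.lf ⟨(nat_lit 0x247247), (nat_lit 4), (nat_lit 0x1c91c9), (nat_lit 4)⟩))))))
(.nd (.nd (.nd (.nd (.nd (.nd (.lf ⟨(nat_lit 28), (nat_lit 1), (nat_lit 0x51051), (nat_lit 4)⟩)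
(.lf ⟨(nat_lit 24), (nat_lit 1), (nat_lit 0x10f10f), (nat_lit 4)⟩))
(.lf ⟨(nat_lit 145), (nat_lit 2), (nat_lit 0x442), (nat_lit 2)⟩))
(.nd (.lf ⟨(nat_lit 910), (nat_lit 2), (nat_lit 0), (nat_lit 0)⟩)
(.lf ⟨(nat_lit 278), (nat_lit 2), (nat_lit 0x1660f28921834f21834a244), (nat_lit 15)⟩)))
(.nd (.nd (.nd (.lf ⟨(nat_lit 0xa28), (nat_lit 2), (nat_lit 0), (nat_lit 0)⟩)
(.lf ⟨(nat_lit 0x4a7d621f28804a7d621f288), (nat_lit 16), (nat_lit 0x4a7d621f28804a7d621f288), (nat_lit 16)⟩))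
(.lf ⟨(nat_lit 544), (nat_lit 2), (nat_lit 0x808), (nat_lit 2)⟩))
(.nd (.lf ⟨(nat_lit 0x582582), (nat_lit 4), (nat_lit 0x96096), (nat_lit 4)⟩)
(.lf ⟨(nat_lit 0x113102), (nat_lit 4), (nat_lit 0x1133d334f3440844c4), (nat_lit 12)⟩))))
(.nd (.nd (.nd (.nd (.lf ⟨(nat_lit 0x4e04e), (nat_lit 4), (nat_lit 0x381381), (nat_lit 4)⟩)
(.lf ⟨(nat_lit 0x8460), (nat_lit 3), (nat_lit 0x11811211), (nat_lit 5)⟩))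
(.lf ⟨(nat_lit 0x5389), (nat_lit 3), (nat_lit 0x50e245), (nat_lit 4)⟩))
(.nd (.lf ⟨(nat_lit 0x3c43c4), (nat_lit 4), (nat_lit 0x10f10f), (nat_lit 4)⟩)
(.lf ⟨(nat_lit 0x158158), (nat_lit 4), (nat_lit 0x158045601), (nat_lit 6)⟩)))
(.nd (.nd (.lf ⟨(nat_lit 0x4304914e2430410c12453890c1), (nat_lit 18), (nat_lit 0x4304914e2430410c12453890c1), (nat_lit 18)⟩)
(.lf ⟨(nat_lit 0x427), (nat_lit 2), (nat_lit 0x9d0), (nat_lit 2)⟩))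
(.nd (.lf ⟨(nat_lit 0x40a40a), (nat_lit 4), (nat_lit 0x290290), (nat_lit 4)⟩)
(.lf ⟨(nat_lit 0x2ce2d4), (nat_lit 4), (nat_lit 0x6da4146cb39a40b), (nat_lit 10)⟩)))))
(.nd (.nd (.nd (.nd (.nd (.lf ⟨(nat_lit 650), (nat_lit 2), (nat_lit 0), (nat_lit 0)⟩)
(.lf ⟨(nat_lit 0x5586), (nat_lit 3), (nat_lit 0x7586587156), (nat_lit 7)⟩))
(.lf ⟨(nat_lit 0x28440a110), (nat_lit 6), (nat_lit 0x40a110284), (nat_lit 6)⟩))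
(.nd (.lf ⟨(nat_lit 0x3c23c2), (nat_lit 4), (nat_lit 0x8f08f), (nat_lit 4)⟩)
(.lf ⟨(nat_lit 0x141588141588), (nat_lit 8), (nat_lit 0x588141588141), (nat_lit 8)⟩)))
(.nd (.nd (.nd (.lf ⟨(nat_lit 0x811c11c2047047), (nat_lit 10), (nat_lit 0x811c11c2047047), (nat_lit 10)⟩)
(.lf ⟨(nat_lit 7), (nat_lit 1), (nat_lit 0x46046), (nat_lit 4)⟩))
(.lf ⟨(nat_lit 88), (nat_lit 2), (nat_lit 0x601), (nat_lit 2)⟩))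
(.nd (.lf ⟨(nat_lit 0x704704), (nat_lit 4), (nat_lit 0x11c11c), (nat_lit 4)⟩)
(.lf ⟨(nat_lit 0x583583), (nat_lit 4), (nat_lit 0xc35830c3583), (nat_lit 8)⟩))))
(.nd (.nd (.nd (.nd (.lf ⟨(nat_lit 70), (nat_lit 2), (nat_lit 0x7181), (nat_lit 3)⟩)
(.lf ⟨(nat_lit 0), (nat_lit 0), (nat_lit 0x2c32c3), (nat_lit 4)⟩))
(.lf ⟨(nat_lit 161), (nat_lit 2), (nat_lit 0x84a64a642), (nat_lit 6)⟩))
(.nd (.lf ⟨(nat_lit 0x394394), (nat_lit 4), (nat_lit 0x50e50e), (nat_lit 4)⟩)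
(.lf ⟨(nat_lit 6), (nat_lit 1), (nat_lit 0x85085), (nat_lit 4)⟩)))
(.nd (.nd (.lf ⟨(nat_lit 0x8c283), (nat_lit 4), (nat_lit 0x30a1ca1cc28730a1c308c287), (nat_lit 16)⟩)
(.lf ⟨(nat_lit 0x4185), (nat_lit 3), (nat_lit 0x1b40b2456ce2c9106), (nat_lit 11)⟩))
(.nd (.lf ⟨(nat_lit 0x6c409b102), (nat_lit 6), (nat_lit 0x9b1026c4), (nat_lit 6)⟩)
(.lf ⟨(nat_lit 31), (nat_lit 1), (nat_lit 0xcb60b0cb60b), (nat_lit 8)⟩))))))))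
(.nd (.nd (.nd (.nd (.nd (.nd (.nd (.nd (.lf ⟨(nat_lit 9), (nat_lit 1), (nat_lit 0x44044), (nat_lit 4)⟩)
(.lf ⟨(nat_lit 21), (nat_lit 1), (nat_lit 0x8e08e), (nat_lit 4)⟩))
(.lf ⟨(nat_lit 0xa1644), (nat_lit 4), (nat_lit 0x6616616616440a164a), (nat_lit 12)⟩))
(.nd (.lf ⟨(nat_lit 0x242242), (nat_lit 4), (nat_lit 0x89089), (nat_lit 4)⟩)
(.lf ⟨(nat_lit 732), (nat_lit 2), (nat_lit 0x71045044b), (nat_lit 6)⟩)))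
(.nd (.nd (.nd (.lf ⟨(nat_lit 281), (nat_lit 2), (nat_lit 0x21644), (nat_lit 3)⟩)
(.lf ⟨(nat_lit 0x18083), (nat_lit 3), (nat_lit 0x1809f607083602), (nat_lit 9)⟩))
(.lf ⟨(nat_lit 0xa6e), (nat_lit 2), (nat_lit 0xba9), (nat_lit 2)⟩))
(.nd (.lf ⟨(nat_lit 0x71c), (nat_lit 2), (nat_lit 0), (nat_lit 0)⟩)
(.lf ⟨(nat_lit 16), (nat_lit 1), (nat_lit 0x4b04b), (nat_lit 4)⟩))))
(.nd (.nd (.nd (.nd (.lf ⟨(nat_lit 845), (nat_lit 2), (nat_lit 0), (nat_lit 0)⟩)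
(.lf ⟨(nat_lit 0x21b22689b21b22689b), (nat_lit 12), (nat_lit 0), (nat_lit 0)⟩))
(.lf ⟨(nat_lit 326), (nat_lit 2), (nat_lit 389), (nat_lit 2)⟩))
(.nd (.lf ⟨(nat_lit 0x241241), (nat_lit 4), (nat_lit 0), (nat_lit 0)⟩)
(.lf ⟨(nat_lit 0x711711), (nat_lit 4), (nat_lit 0), (nat_lit 0)⟩)))
(.nd (.nd (.lf ⟨(nat_lit 260), (nat_lit 2), (nat_lit 0), (nat_lit 0)⟩)
(.lf ⟨(nat_lit 96), (nat_lit 2), (nat_lit 0x801), (nat_lit 2)⟩))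
(.nd (.lf ⟨(nat_lit 0x305305), (nat_lit 4), (nat_lit 0x14c14c), (nat_lit 4)⟩)
(.lf ⟨(nat_lit 0x4278509e14109e142785), (nat_lit 14), (nat_lit 0x4278509e14109e142785), (nat_lit 14)⟩)))))
(.nd (.nd (.nd (.nd (.nd (.lf ⟨(nat_lit 39), (nat_lit 1), (nat_lit 0x122122), (nat_lit 4)⟩)
(.lf ⟨(nat_lit 0x4d8), (nat_lit 2), (nat_lit 0x613), (nat_lit 2)⟩))
(.lf ⟨(nat_lit 280), (nat_lit 2), (nat_lit 0x604), (nat_lit 2)⟩))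
(.nd (.lf ⟨(nat_lit 0x282282), (nat_lit 4), (nat_lit 0), (nat_lit 0)⟩)
(.lf ⟨(nat_lit 238), (nat_lit 2), (nat_lit 0x68bba968ba5a2eea5a2eea43), (nat_lit 16)⟩)))
(.nd (.nd (.nd (.lf ⟨(nat_lit 0xb2c), (nat_lit 2), (nat_lit 0), (nat_lit 0)⟩)
(.lf ⟨(nat_lit 0), (nat_lit 0), (nat_lit 0x244244), (nat_lit 4)⟩))
(.lf ⟨(nat_lit 343), (nat_lit 2), (nat_lit 0x5c5), (nat_lit 2)⟩))
(.nd (.lf ⟨(nat_lit 0x583583), (nat_lit 4), (nat_lit 0xd60d6), (nat_lit 4)⟩)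
(.lf ⟨(nat_lit 0x262249889), (nat_lit 6), (nat_lit 0), (nat_lit 0)⟩))))
(.nd (.nd (.nd (.nd (.lf ⟨(nat_lit 0x10f10f), (nat_lit 4), (nat_lit 0x3c43c4), (nat_lit 4)⟩)
(.lf ⟨(nat_lit 0x1b38b38b), (nat_lit 5), (nat_lit 0x10e10e), (nat_lit 4)⟩))
(.lf ⟨(nat_lit 0x858f), (nat_lit 3), (nat_lit 0x163c8), (nat_lit 3)⟩))
(.nd (.lf ⟨(nat_lit 0x2c82c8), (nat_lit 4), (nat_lit 0x20b20b), (nat_lit 4)⟩)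
(.lf ⟨(nat_lit 0x6071981981c6606), (nat_lit 10), (nat_lit 0), (nat_lit 0)⟩)))
(.nd (.nd (.lf ⟨(nat_lit 73), (nat_lit 2), (nat_lit 577), (nat_lit 2)⟩)
(.lf ⟨(nat_lit 527), (nat_lit 2), (nat_lit 968), (nat_lit 2)⟩))
(.nd (.lf ⟨(nat_lit 0x3cb3cb), (nat_lit 4), (nat_lit 0x2cf2cf), (nat_lit 4)⟩)
(.lf ⟨(nat_lit 0x2433433490cd0cd), (nat_lit 10), (nat_lit 0x2433433490cd0cd), (nat_lit 10)⟩))))))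
(.nd (.nd (.nd (.nd (.nd (.nd (.lf ⟨(nat_lit 24), (nat_lit 1), (nat_lit 0x10f10f), (nat_lit 4)⟩)
(.lf ⟨(nat_lit 0x2d72d7), (nat_lit 4), (nat_lit 0x5cb5cb), (nat_lit 4)⟩))
(.lf ⟨(nat_lit 79), (nat_lit 2), (nat_lit 961), (nat_lit 2)⟩))
(.nd (.lf ⟨(nat_lit 71), (nat_lit 2), (nat_lit 0x187187187181), (nat_lit 8)⟩)
(.lf ⟨(nat_lit 0x11a23), (nat_lit 3), (nat_lit 0x1ca5d71da5ca2391d71d464), (nat_lit 15)⟩)))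
(.nd (.nd (.nd (.lf ⟨(nat_lit 0x122122), (nat_lit 4), (nat_lit 0x884884), (nat_lit 4)⟩)
(.lf ⟨(nat_lit 0x8a7cf95f3ca08a7cf95f3ca), (nat_lit 16), (nat_lit 0x8a7cf95f3ca08a7cf95f3ca), (nat_lit 16)⟩))
(.lf ⟨(nat_lit 164), (nat_lit 2), (nat_lit 0x224748742), (nat_lit 6)⟩))
(.nd (.lf ⟨(nat_lit 0x442051081), (nat_lit 6), (nat_lit 0x51081442), (nat_lit 6)⟩)
(.lf ⟨(nat_lit 0x844c41c44c41c2113107113107), (nat_lit 18), (nat_lit 0x844c41c44c41c2113107113107), (nat_lit 18)⟩))))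
(.nd (.nd (.nd (.nd (.lf ⟨(nat_lit 76), (nat_lit 2), (nat_lit 0x12301), (nat_lit 3)⟩)
(.lf ⟨(nat_lit 0x41c), (nat_lit 2), (nat_lit 0x710), (nat_lit 2)⟩))
(.lf ⟨(nat_lit 0x8185), (nat_lit 3), (nat_lit 0x1c6148), (nat_lit 4)⟩))
(.nd (.lf ⟨(nat_lit 0x2840ca103), (nat_lit 6), (nat_lit 0xca103284), (nat_lit 6)⟩)
(.lf ⟨(nat_lit 0x5d10574414174415d105), (nat_lit 14), (nat_lit 0x5d10574414174415d105), (nat_lit 14)⟩)))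
(.nd (.nd (.lf ⟨(nat_lit 0x1241), (nat_lit 3), (nat_lit 0x44044), (nat_lit 4)⟩)
(.lf ⟨(nat_lit 206), (nat_lit 2), (nat_lit 899), (nat_lit 2)⟩))
(.nd (.lf ⟨(nat_lit 0x34a34a), (nat_lit 4), (nat_lit 0x28d28d), (nat_lit 4)⟩)
(.lf ⟨(nat_lit 0x18a18a), (nat_lit 4), (nat_lit 0x8a14a142285285), (nat_lit 10)⟩)))))
(.nd (.nd (.nd (.nd (.nd (.lf ⟨(nat_lit 0x44044), (nat_lit 4), (nat_lit 0x101101), (nat_lit 4)⟩)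
(.lf ⟨(nat_lit 0x3c109e09e3c109e09e), (nat_lit 12), (nat_lit 0x3c109e09e3c109e09e), (nat_lit 12)⟩))
(.lf ⟨(nat_lit 0x2c33cb0cf), (nat_lit 6), (nat_lit 0x3cb0cf2c3), (nat_lit 6)⟩))
(.nd (.lf ⟨(nat_lit 0x342342), (nat_lit 4), (nat_lit 0x8d08d), (nat_lit 4)⟩)
(.lf ⟨(nat_lit 0x385385), (nat_lit 4), (nat_lit 0), (nat_lit 0)⟩)))
(.nd (.nd (.nd (.lf ⟨(nat_lit 7), (nat_lit 1), (nat_lit 0x83083), (nat_lit 4)⟩)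
(.lf ⟨(nat_lit 0x21e1de1c821e1de1c8), (nat_lit 12), (nat_lit 0), (nat_lit 0)⟩))
(.lf ⟨(nat_lit 531), (nat_lit 2), (nat_lit 0x4c8), (nat_lit 2)⟩))
(.nd (.lf ⟨(nat_lit 0x684684), (nat_lit 4), (nat_lit 0x11a11a), (nat_lit 4)⟩)
(.lf ⟨(nat_lit 0xc41c41c3107107), (nat_lit 10), (nat_lit 0xc41c41c3107107), (nat_lit 10)⟩))))
(.nd (.nd (.nd (.nd (.lf ⟨(nat_lit 0x75d), (nat_lit 2), (nat_lit 0), (nat_lit 0)⟩)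
(.lf ⟨(nat_lit 261), (nat_lit 2), (nat_lit 0x1b69440e144), (nat_lit 7)⟩))
(.lf ⟨(nat_lit 0xa751), (nat_lit 3), (nat_lit 0x1d44a), (nat_lit 3)⟩))
(.nd (.lf ⟨(nat_lit 0x4c14c1), (nat_lit 4), (nat_lit 0x53053), (nat_lit 4)⟩)
(.lf ⟨(nat_lit 0x5606158), (nat_lit 5), (nat_lit 0x6606158185), (nat_lit 7)⟩)))
(.nd (.nd (.lf ⟨(nat_lit 138), (nat_lit 2), (nat_lit 642), (nat_lit 2)⟩)
(.lf ⟨(nat_lit 0xa1d12c7), (nat_lit 5), (nat_lit 0x30744c44b1dd44a), (nat_lit 10)⟩))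
(.nd (.lf ⟨(nat_lit 0x5c35c3), (nat_lit 4), (nat_lit 0), (nat_lit 0)⟩)
(.lf ⟨(nat_lit 0x41cb1cb), (nat_lit 5), (nat_lit 0x72c72c4), (nat_lit 5)⟩)))))))
(.nd (.nd (.nd (.nd (.nd (.nd (.nd (.lf ⟨(nat_lit 16), (nat_lit 1), (nat_lit 0x4b04b), (nat_lit 4)⟩)
(.lf ⟨(nat_lit 0x5cf2d72cf), (nat_lit 6), (nat_lit 0xcf2cf0cf2cf), (nat_lit 8)⟩))
(.lf ⟨(nat_lit 0x1822c608b), (nat_lit 6), (nat_lit 0x2c608b182), (nat_lit 6)⟩))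
(.nd (.lf ⟨(nat_lit 0x108108), (nat_lit 4), (nat_lit 0x204204), (nat_lit 4)⟩)
(.lf ⟨(nat_lit 0x24430910c), (nat_lit 6), (nat_lit 0x30910c244), (nat_lit 6)⟩)))
(.nd (.nd (.nd (.lf ⟨(nat_lit 0x924), (nat_lit 2), (nat_lit 0), (nat_lit 0)⟩)
(.lf ⟨(nat_lit 0x858c72231480858c7223148), (nat_lit 16), (nat_lit 0x858c72231480858c7223148), (nat_lit 16)⟩))
(.lf ⟨(nat_lit 597), (nat_lit 2), (nat_lit 0x35538d389), (nat_lit 6)⟩))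
(.nd (.lf ⟨(nat_lit 0x187187), (nat_lit 4), (nat_lit 0x1c61c6), (nat_lit 4)⟩)
(.lf ⟨(nat_lit 282), (nat_lit 2), (nat_lit 0x6902ce40e2c4), (nat_lit 8)⟩))))
(.nd (.nd (.nd (.nd (.lf ⟨(nat_lit 0x4b04b), (nat_lit 4), (nat_lit 0x2c12c1), (nat_lit 4)⟩)
(.lf ⟨(nat_lit 0x2c82c8), (nat_lit 4), (nat_lit 0x2c82c8), (nat_lit 4)⟩))
(.lf ⟨(nat_lit 264), (nat_lit 2), (nat_lit 0x24f288349284), (nat_lit 8)⟩))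
(.nd (.lf ⟨(nat_lit 0x2c408b102), (nat_lit 6), (nat_lit 0x8b1022c4), (nat_lit 6)⟩)
(.lf ⟨(nat_lit 287), (nat_lit 2), (nat_lit 0x7d82d82c4), (nat_lit 6)⟩)))
(.nd (.nd (.lf ⟨(nat_lit 0x10128408a10204a10228408404a10228408128408a102), (nat_lit 30), (nat_lit 0x10128408a10204a10228408404a10228408128408a102), (nat_lit 30)⟩)
(.lf ⟨(nat_lit 291), (nat_lit 2), (nat_lit 0x8c4), (nat_lit 2)⟩))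
(.nd (.lf ⟨(nat_lit 0x449449), (nat_lit 4), (nat_lit 0x251251), (nat_lit 4)⟩)
(.lf ⟨(nat_lit 0x6da), (nat_lit 2), (nat_lit 0x69b), (nat_lit 2)⟩)))))
(.nd (.nd (.nd (.nd (.nd (.lf ⟨(nat_lit 47), (nat_lit 1), (nat_lit 0xac0ac), (nat_lit 4)⟩)
(.lf ⟨(nat_lit 278), (nat_lit 2), (nat_lit 0x584), (nat_lit 2)⟩))
(.lf ⟨(nat_lit 0x24134904d), (nat_lit 6), (nat_lit 0x34904d241), (nat_lit 6)⟩))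
(.nd (.lf ⟨(nat_lit 90), (nat_lit 2), (nat_lit 0x2d02da2d02c1), (nat_lit 8)⟩)
(.lf ⟨(nat_lit 0x1c81c8), (nat_lit 4), (nat_lit 0), (nat_lit 0)⟩)))
(.nd (.nd (.nd (.lf ⟨(nat_lit 172), (nat_lit 2), (nat_lit 0x2fb02), (nat_lit 3)⟩)
(.lf ⟨(nat_lit 0x21e208788), (nat_lit 6), (nat_lit 0), (nat_lit 0)⟩))
(.lf ⟨(nat_lit 595), (nat_lit 2), (nat_lit 0x4c9), (nat_lit 2)⟩))
(.nd (.lf ⟨(nat_lit 0x3c10cf043), (nat_lit 6), (nat_lit 0xcf0433c1), (nat_lit 6)⟩)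
(.lf ⟨(nat_lit 0x89893222248089893222248), (nat_lit 16), (nat_lit 0x89893222248089893222248), (nat_lit 16)⟩))))
(.nd (.nd (.nd (.nd (.lf ⟨(nat_lit 208), (nat_lit 2), (nat_lit 0x1a403), (nat_lit 3)⟩)
(.lf ⟨(nat_lit 25), (nat_lit 1), (nat_lit 0x90090), (nat_lit 4)⟩))
(.lf ⟨(nat_lit 0x8650), (nat_lit 3), (nat_lit 0x819408), (nat_lit 4)⟩))
(.nd (.lf ⟨(nat_lit 0x2c92c9), (nat_lit 4), (nat_lit 0x24b24b), (nat_lit 4)⟩)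
(.lf ⟨(nat_lit 0x607198187), (nat_lit 6), (nat_lit 0x1d81c6606), (nat_lit 6)⟩)))
(.nd (.nd (.lf ⟨(nat_lit 0x8308a1cc2830820c228730a0c2), (nat_lit 18), (nat_lit 0x8308a1cc2830820c228730a0c2), (nat_lit 18)⟩)
(.lf ⟨(nat_lit 593), (nat_lit 2), (nat_lit 0x7697288e475c449), (nat_lit 10)⟩))
(.nd (.lf ⟨(nat_lit 0x38904e241), (nat_lit 6), (nat_lit 0x4e241389), (nat_lit 6)⟩)
(.lf ⟨(nat_lit 20), (nat_lit 1), (nat_lit 0x149149), (nat_lit 4)⟩))))))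
(.nd (.nd (.nd (.nd (.nd (.nd (.lf ⟨(nat_lit 31), (nat_lit 1), (nat_lit 0xd80d8), (nat_lit 4)⟩)
(.lf ⟨(nat_lit 598), (nat_lit 2), (nat_lit 0x589), (nat_lit 2)⟩))
(.lf ⟨(nat_lit 84), (nat_lit 2), (nat_lit 0x501), (nat_lit 2)⟩))
(.nd (.lf ⟨(nat_lit 0x3c13c1), (nat_lit 4), (nat_lit 0x4f04f), (nat_lit 4)⟩)
(.lf ⟨(nat_lit 261), (nat_lit 2), (nat_lit 0x6d02c915b38b244), (nat_lit 10)⟩)))
(.nd (.nd (.nd (.lf ⟨(nat_lit 292), (nat_lit 2), (nat_lit 0x29904), (nat_lit 3)⟩)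
(.lf ⟨(nat_lit 0), (nat_lit 0), (nat_lit 0xcb0cb), (nat_lit 4)⟩))
(.lf ⟨(nat_lit 0x22fb27), (nat_lit 4), (nat_lit 0x2c9c8), (nat_lit 3)⟩))
(.nd (.lf ⟨(nat_lit 0x6c26c2), (nat_lit 4), (nat_lit 0x9b09b), (nat_lit 4)⟩)
(.lf ⟨(nat_lit 16), (nat_lit 1), (nat_lit 0x2c12c1), (nat_lit 4)⟩))))
(.nd (.nd (.nd (.nd (.lf ⟨(nat_lit 0x555), (nat_lit 2), (nat_lit 0), (nat_lit 0)⟩)
(.lf ⟨(nat_lit 0x8450), (nat_lit 3), (nat_lit 0x811411211), (nat_lit 6)⟩))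
(.lf ⟨(nat_lit 984), (nat_lit 2), (nat_lit 0x60f), (nat_lit 2)⟩))
(.nd (.lf ⟨(nat_lit 0x444444), (nat_lit 4), (nat_lit 0x111111), (nat_lit 4)⟩)
(.lf ⟨(nat_lit 7), (nat_lit 1), (nat_lit 0x148148), (nat_lit 4)⟩)))
(.nd (.nd (.lf ⟨(nat_lit 267), (nat_lit 2), (nat_lit 708), (nat_lit 2)⟩)
(.lf ⟨(nat_lit 269), (nat_lit 2), (nat_lit 0x18344), (nat_lit 3)⟩))
(.nd (.lf ⟨(nat_lit 0x1432850ca), (nat_lit 6), (nat_lit 0x2850ca143), (nat_lit 6)⟩)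
(.lf ⟨(nat_lit 276), (nat_lit 2), (nat_lit 0x50e2ce2c4), (nat_lit 6)⟩)))))
(.nd (.nd (.nd (.nd (.nd (.lf ⟨(nat_lit 196), (nat_lit 2), (nat_lit 0xb103), (nat_lit 3)⟩)
(.lf ⟨(nat_lit 0), (nat_lit 0), (nat_lit 650), (nat_lit 2)⟩))
(.lf ⟨(nat_lit 0x244449111), (nat_lit 6), (nat_lit 0x449111244), (nat_lit 6)⟩))
(.nd (.lf ⟨(nat_lit 0x442442), (nat_lit 4), (nat_lit 0x91091), (nat_lit 4)⟩)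
(.lf ⟨(nat_lit 0x6c16c1), (nat_lit 4), (nat_lit 0), (nat_lit 0)⟩)))
(.nd (.nd (.nd (.lf ⟨(nat_lit 67), (nat_lit 2), (nat_lit 0x1430450c10c1), (nat_lit 8)⟩)
(.lf ⟨(nat_lit 203), (nat_lit 2), (nat_lit 707), (nat_lit 2)⟩))
(.lf ⟨(nat_lit 157), (nat_lit 2), (nat_lit 0x742), (nat_lit 2)⟩))
(.nd (.lf ⟨(nat_lit 0x30310c0c4), (nat_lit 6), (nat_lit 0x10c0c4303), (nat_lit 6)⟩)
(.lf ⟨(nat_lit 0x961d61d61d61c2587587587587), (nat_lit 18), (nat_lit 0x961d61d61d61c2587587587587), (nat_lit 18)⟩))))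
(.nd (.nd (.nd (.nd (.lf ⟨(nat_lit 0xd80d8), (nat_lit 4), (nat_lit 0x603603), (nat_lit 4)⟩)
(.lf ⟨(nat_lit 0x6606158185), (nat_lit 7), (nat_lit 0x158085602), (nat_lit 6)⟩))
(.lf ⟨(nat_lit 0x8e8), (nat_lit 2), (nat_lit 0xa23), (nat_lit 2)⟩))
(.nd (.lf ⟨(nat_lit 0x5c15c1), (nat_lit 4), (nat_lit 0x57057), (nat_lit 4)⟩)
(.lf ⟨(nat_lit 0x839069060c20e41a4183), (nat_lit 14), (nat_lit 0x839069060c20e41a4183), (nat_lit 14)⟩)))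
(.nd (.nd (.lf ⟨(nat_lit 79), (nat_lit 2), (nat_lit 0x28f28f28f281), (nat_lit 8)⟩)
(.lf ⟨(nat_lit 219), (nat_lit 2), (nat_lit 0x6c3), (nat_lit 2)⟩))
(.nd (.lf ⟨(nat_lit 0x3587), (nat_lit 3), (nat_lit 0x161d60d6), (nat_lit 5)⟩)
(.lf ⟨(nat_lit 0x1657c595f), (nat_lit 6), (nat_lit 0xc19410c1941), (nat_lit 8)⟩)))))))))))

/-- Substitution. -/
def s0 : List (ℕ × ℕ) := [((nat_lit 1), (nat_lit 1)), ((nat_lit 2), (nat_lit 1)), ((nat_lit 3), (nat_lit 1)), ((nat_lit 9), (nat_lit 1)), ((nat_lit 8), (nat_lit 1)), ((nat_lit 5), (nat_lit 1)), ((nat_lit 13), (nat_lit 1)), ((nat_lit 14), (nat_lit 1)), ((nat_lit 6), (nat_lit 1)), ((nat_lit 19), (nat_lit 1)), ((nat_lit 20), (nat_lit 1)), ((nat_lit 21), (nat_lit 1)), ((nat_lit 7), (nat_lit 1))]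

/-- Context. -/
noncomputable def x0 : ℕ → ℕ × ℕ := rt (hy ++ ds)

set_option maxRecDepth 100000 in
/-- Facts. -/
noncomputable def d1 : Tr :=
(.nd (.nd (.nd (.nd (.nd (.lf ⟨(nat_lit 130), (nat_lit 2), (nat_lit 0), (nat_lit 0)⟩)
(.lf ⟨(nat_lit 0x45d), (nat_lit 2), (nat_lit 0x751), (nat_lit 2)⟩))
(.nd (.lf ⟨(nat_lit 0x451), (nat_lit 2), (nat_lit 0), (nat_lit 0)⟩)
(.lf ⟨(nat_lit 209), (nat_lit 2), (nat_lit 0x443), (nat_lit 2)⟩)))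
(.nd (.nd (.lf ⟨(nat_lit 132), (nat_lit 2), (nat_lit 0xa102), (nat_lit 3)⟩)
(.lf ⟨(nat_lit 263), (nat_lit 2), (nat_lit 0x72c775130b287284), (nat_lit 11)⟩))
(.lf ⟨(nat_lit 138), (nat_lit 2), (nat_lit 642), (nat_lit 2)⟩)))
(.nd (.nd (.nd (.lf ⟨(nat_lit 260), (nat_lit 2), (nat_lit 0), (nat_lit 0)⟩)
(.lf ⟨(nat_lit 733), (nat_lit 2), (nat_lit 0x74b), (nat_lit 2)⟩))
(.nd (.lf ⟨(nat_lit 0x75d), (nat_lit 2), (nat_lit 0), (nat_lit 0)⟩)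
(.lf ⟨(nat_lit 0x4083083), (nat_lit 5), (nat_lit 0x20c20c4), (nat_lit 5)⟩)))
(.nd (.nd (.lf ⟨(nat_lit 196), (nat_lit 2), (nat_lit 0xb103), (nat_lit 3)⟩)
(.lf ⟨(nat_lit 7), (nat_lit 1), (nat_lit 0), (nat_lit 0)⟩))
(.lf ⟨(nat_lit 716), (nat_lit 2), (nat_lit 779), (nat_lit 2)⟩))))
(.nd (.nd (.nd (.nd (.lf ⟨(nat_lit 195), (nat_lit 2), (nat_lit 0), (nat_lit 0)⟩)
(.lf ⟨(nat_lit 651), (nat_lit 2), (nat_lit 0x1d2ca), (nat_lit 3)⟩))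
(.nd (.lf ⟨(nat_lit 139), (nat_lit 2), (nat_lit 0x112c2), (nat_lit 3)⟩)
(.lf ⟨(nat_lit 12), (nat_lit 1), (nat_lit 0x751), (nat_lit 2)⟩)))
(.nd (.nd (.lf ⟨(nat_lit 715), (nat_lit 2), (nat_lit 0), (nat_lit 0)⟩)
(.lf ⟨(nat_lit 131), (nat_lit 2), (nat_lit 194), (nat_lit 2)⟩))
(.lf ⟨(nat_lit 203), (nat_lit 2), (nat_lit 707), (nat_lit 2)⟩)))
(.nd (.nd (.nd (.lf ⟨(nat_lit 650), (nat_lit 2), (nat_lit 0), (nat_lit 0)⟩)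
(.lf ⟨(nat_lit 209), (nat_lit 2), (nat_lit 0x1d12c72c3), (nat_lit 6)⟩))
(.lf ⟨(nat_lit 131), (nat_lit 2), (nat_lit 0x70c2), (nat_lit 3)⟩))
(.nd (.nd (.lf ⟨(nat_lit 202), (nat_lit 2), (nat_lit 0xc283), (nat_lit 3)⟩)
(.lf ⟨(nat_lit 131), (nat_lit 2), (nat_lit 194), (nat_lit 2)⟩))
(.lf ⟨(nat_lit 721), (nat_lit 2), (nat_lit 0x44b), (nat_lit 2)⟩)))))

/-- Context. -/
noncomputable def x1 : ℕ → ℕ × ℕ :=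
  mkc d0 1218 s0 x0 (nth [] (Cl.alts H1.cl) 0)

set_option maxRecDepth 100000 in
/-- Facts. -/
noncomputable def d2 : Tr :=
(.nd (.nd (.nd (.nd (.nd (.nd (.lf ⟨(nat_lit 130), (nat_lit 2), (nat_lit 0), (nat_lit 0)⟩)
(.lf ⟨(nat_lit 221), (nat_lit 2), (nat_lit 0x743), (nat_lit 2)⟩))
(.lf ⟨(nat_lit 135), (nat_lit 2), (nat_lit 450), (nat_lit 2)⟩))
(.nd (.lf ⟨(nat_lit 202), (nat_lit 2), (nat_lit 0xc283), (nat_lit 3)⟩)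
(.lf ⟨(nat_lit 733), (nat_lit 2), (nat_lit 0x74b), (nat_lit 2)⟩)))
(.nd (.nd (.nd (.lf ⟨(nat_lit 132), (nat_lit 2), (nat_lit 0xa102), (nat_lit 3)⟩)
(.lf ⟨(nat_lit 647), (nat_lit 2), (nat_lit 0xb1dd44c2ca), (nat_lit 7)⟩))
(.lf ⟨(nat_lit 716), (nat_lit 2), (nat_lit 779), (nat_lit 2)⟩))
(.nd (.lf ⟨(nat_lit 0x75d), (nat_lit 2), (nat_lit 0), (nat_lit 0)⟩)
(.lf ⟨(nat_lit 275), (nat_lit 2), (nat_lit 0x4c4), (nat_lit 2)⟩))))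
(.nd (.nd (.nd (.nd (.lf ⟨(nat_lit 260), (nat_lit 2), (nat_lit 0), (nat_lit 0)⟩)
(.lf ⟨(nat_lit 19), (nat_lit 1), (nat_lit 468), (nat_lit 2)⟩))
(.lf ⟨(nat_lit 203), (nat_lit 2), (nat_lit 707), (nat_lit 2)⟩))
(.nd (.lf ⟨(nat_lit 139), (nat_lit 2), (nat_lit 0x112c2), (nat_lit 3)⟩)
(.lf ⟨(nat_lit 775), (nat_lit 2), (nat_lit 460), (nat_lit 2)⟩)))
(.nd (.nd (.nd (.lf ⟨(nat_lit 196), (nat_lit 2), (nat_lit 0xb103), (nat_lit 3)⟩)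
(.lf ⟨(nat_lit 0x4083083), (nat_lit 5), (nat_lit 0x20c20c4), (nat_lit 5)⟩))
(.lf ⟨(nat_lit 651), (nat_lit 2), (nat_lit 0x1d2ca), (nat_lit 3)⟩))
(.nd (.lf ⟨(nat_lit 199), (nat_lit 2), (nat_lit 451), (nat_lit 2)⟩)
(.lf ⟨(nat_lit 724), (nat_lit 2), (nat_lit 0x50b), (nat_lit 2)⟩)))))
(.nd (.nd (.nd (.nd (.nd (.lf ⟨(nat_lit 195), (nat_lit 2), (nat_lit 0), (nat_lit 0)⟩)
(.lf ⟨(nat_lit 263), (nat_lit 2), (nat_lit 0x72c775130b287284), (nat_lit 11)⟩))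
(.lf ⟨(nat_lit 138), (nat_lit 2), (nat_lit 642), (nat_lit 2)⟩))
(.nd (.lf ⟨(nat_lit 0x451), (nat_lit 2), (nat_lit 0), (nat_lit 0)⟩)
(.lf ⟨(nat_lit 797), (nat_lit 2), (nat_lit 0x74c), (nat_lit 2)⟩)))
(.nd (.nd (.nd (.lf ⟨(nat_lit 715), (nat_lit 2), (nat_lit 0), (nat_lit 0)⟩)
(.lf ⟨(nat_lit 263), (nat_lit 2), (nat_lit 452), (nat_lit 2)⟩))
(.lf ⟨(nat_lit 0x45d), (nat_lit 2), (nat_lit 0x751), (nat_lit 2)⟩))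
(.nd (.lf ⟨(nat_lit 455), (nat_lit 2), (nat_lit 0), (nat_lit 0)⟩)
(.lf ⟨(nat_lit 276), (nat_lit 2), (nat_lit 0x504), (nat_lit 2)⟩))))
(.nd (.nd (.nd (.nd (.lf ⟨(nat_lit 650), (nat_lit 2), (nat_lit 0), (nat_lit 0)⟩)
(.lf ⟨(nat_lit 19), (nat_lit 1), (nat_lit 468), (nat_lit 2)⟩))
(.lf ⟨(nat_lit 204), (nat_lit 2), (nat_lit 771), (nat_lit 2)⟩))
(.nd (.lf ⟨(nat_lit 0x514), (nat_lit 2), (nat_lit 0), (nat_lit 0)⟩)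
(.lf ⟨(nat_lit 0x747), (nat_lit 2), (nat_lit 477), (nat_lit 2)⟩)))
(.nd (.nd (.lf ⟨(nat_lit 780), (nat_lit 2), (nat_lit 0), (nat_lit 0)⟩)
(.lf ⟨(nat_lit 0x447), (nat_lit 2), (nat_lit 465), (nat_lit 2)⟩))
(.nd (.lf ⟨(nat_lit 131), (nat_lit 2), (nat_lit 0x70c2), (nat_lit 3)⟩)
(.lf ⟨(nat_lit 785), (nat_lit 2), (nat_lit 0x44c), (nat_lit 2)⟩))))))

/-- Context. -/
noncomputable def x2 : ℕ → ℕ × ℕ :=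
  mkc d0 1218 s0 x0 (nth [] (Cl.alts H1.cl) 1)

set_option maxRecDepth 100000 in
/-- Facts. -/
noncomputable def d3 : Tr :=
(.nd (.nd (.nd (.nd (.nd (.nd (.nd (.nd (.nd (.nd (.lf ⟨(nat_lit 65), (nat_lit 2), (nat_lit 0), (nat_lit 0)⟩)
(.lf ⟨(nat_lit 0x101e0), (nat_lit 3), (nat_lit 0x7807407), (nat_lit 5)⟩))
(.lf ⟨(nat_lit 282), (nat_lit 2), (nat_lit 0x684), (nat_lit 2)⟩))
(.nd (.nd (.lf ⟨(nat_lit 326), (nat_lit 2), (nat_lit 389), (nat_lit 2)⟩)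
(.lf ⟨(nat_lit 0x891d), (nat_lit 3), (nat_lit 0x163e165044b58f44b58f7563d9408), (nat_lit 19)⟩))
(.lf ⟨(nat_lit 608), (nat_lit 2), (nat_lit 0x520509), (nat_lit 4)⟩)))
(.nd (.nd (.nd (.lf ⟨(nat_lit 292), (nat_lit 2), (nat_lit 0x29904), (nat_lit 3)⟩)
(.lf ⟨(nat_lit 0x164145905), (nat_lit 6), (nat_lit 0), (nat_lit 0)⟩))
(.lf ⟨(nat_lit 582), (nat_lit 2), (nat_lit 393), (nat_lit 2)⟩))
(.nd (.nd (.lf ⟨(nat_lit 923), (nat_lit 2), (nat_lit 0x6ce), (nat_lit 2)⟩)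
(.lf ⟨(nat_lit 552), (nat_lit 2), (nat_lit 0xa08), (nat_lit 2)⟩))
(.lf ⟨(nat_lit 288), (nat_lit 2), (nat_lit 0x6d650f81b41650f404), (nat_lit 12)⟩))))
(.nd (.nd (.nd (.nd (.lf ⟨(nat_lit 0x596), (nat_lit 2), (nat_lit 0), (nat_lit 0)⟩)
(.lf ⟨(nat_lit 0x1d19d), (nat_lit 3), (nat_lit 0x745742745742), (nat_lit 8)⟩))
(.lf ⟨(nat_lit 12), (nat_lit 1), (nat_lit 0xca0ca), (nat_lit 4)⟩))
(.nd (.nd (.lf ⟨(nat_lit 0x447), (nat_lit 2), (nat_lit 465), (nat_lit 2)⟩)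
(.lf ⟨(nat_lit 552), (nat_lit 2), (nat_lit 0x71b52871b508), (nat_lit 8)⟩))
(.lf ⟨(nat_lit 788), (nat_lit 2), (nat_lit 0x50c), (nat_lit 2)⟩)))
(.nd (.nd (.nd (.lf ⟨(nat_lit 0x182182), (nat_lit 4), (nat_lit 0), (nat_lit 0)⟩)
(.lf ⟨(nat_lit 0x584584), (nat_lit 4), (nat_lit 0), (nat_lit 0)⟩))
(.lf ⟨(nat_lit 0x421), (nat_lit 2), (nat_lit 0x6e165b650), (nat_lit 6)⟩))
(.nd (.lf ⟨(nat_lit 0x901901), (nat_lit 4), (nat_lit 0), (nat_lit 0)⟩)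
(.lf ⟨(nat_lit 0x49d492752), (nat_lit 6), (nat_lit 0), (nat_lit 0)⟩)))))
(.nd (.nd (.nd (.nd (.nd (.lf ⟨(nat_lit 390), (nat_lit 2), (nat_lit 0), (nat_lit 0)⟩)
(.lf ⟨(nat_lit 0x5ce), (nat_lit 2), (nat_lit 0xdb3c90db3c9), (nat_lit 8)⟩))
(.lf ⟨(nat_lit 0x459), (nat_lit 2), (nat_lit 0x651), (nat_lit 2)⟩))
(.nd (.nd (.lf ⟨(nat_lit 0x661), (nat_lit 2), (nat_lit 0x859), (nat_lit 2)⟩)
(.lf ⟨(nat_lit 545), (nat_lit 2), (nat_lit 0x6d650f85b65650f648), (nat_lit 12)⟩))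
(.lf ⟨(nat_lit 0xb3ce), (nat_lit 3), (nat_lit 0xf74f42474e91d40f74f2cf), (nat_lit 15)⟩)))
(.nd (.nd (.nd (.lf ⟨(nat_lit 652), (nat_lit 2), (nat_lit 778), (nat_lit 2)⟩)
(.lf ⟨(nat_lit 0), (nat_lit 0), (nat_lit 0x901424050), (nat_lit 6)⟩))
(.lf ⟨(nat_lit 911), (nat_lit 2), (nat_lit 974), (nat_lit 2)⟩))
(.nd (.nd (.lf ⟨(nat_lit 669), (nat_lit 2), (nat_lit 0x74a), (nat_lit 2)⟩)
(.lf ⟨(nat_lit 0x745745), (nat_lit 4), (nat_lit 0x74315d0c5), (nat_lit 6)⟩))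
(.lf ⟨(nat_lit 0x24148c24148c), (nat_lit 8), (nat_lit 0x48c24148c241), (nat_lit 8)⟩))))
(.nd (.nd (.nd (.nd (.lf ⟨(nat_lit 70), (nat_lit 2), (nat_lit 0x7181), (nat_lit 3)⟩)
(.lf ⟨(nat_lit 0x69e), (nat_lit 2), (nat_lit 0x79a), (nat_lit 2)⟩))
(.lf ⟨(nat_lit 148), (nat_lit 2), (nat_lit 0x502), (nat_lit 2)⟩))
(.nd (.nd (.lf ⟨(nat_lit 91), (nat_lit 2), (nat_lit 0x6c1), (nat_lit 2)⟩)
(.lf ⟨(nat_lit 10), (nat_lit 1), (nat_lit 0x96102584), (nat_lit 6)⟩))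
(.lf ⟨(nat_lit 605), (nat_lit 2), (nat_lit 0x749), (nat_lit 2)⟩)))
(.nd (.nd (.nd (.lf ⟨(nat_lit 145), (nat_lit 2), (nat_lit 0x442), (nat_lit 2)⟩)
(.lf ⟨(nat_lit 929), (nat_lit 2), (nat_lit 0x84e), (nat_lit 2)⟩))
(.lf ⟨(nat_lit 545), (nat_lit 2), (nat_lit 0x6d650f3a16d95943ce648), (nat_lit 14)⟩))
(.nd (.lf ⟨(nat_lit 536), (nat_lit 2), (nat_lit 0x608), (nat_lit 2)⟩)
(.lf ⟨(nat_lit 0x8010a01e04074028078101d08010a01e04074028078101d0), (nat_lit 32), (nat_lit 0x8010a01e04074028078101d08010a01e04074028078101d0), (nat_lit 32)⟩))))))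
(.nd (.nd (.nd (.nd (.nd (.nd (.lf ⟨(nat_lit 585), (nat_lit 2), (nat_lit 0), (nat_lit 0)⟩)
(.lf ⟨(nat_lit 0x75c45045075c), (nat_lit 8), (nat_lit 0x74b71d2dc), (nat_lit 6)⟩))
(.lf ⟨(nat_lit 659), (nat_lit 2), (nat_lit 0x4ca), (nat_lit 2)⟩))
(.nd (.nd (.lf ⟨(nat_lit 984), (nat_lit 2), (nat_lit 0x60f), (nat_lit 2)⟩)
(.lf ⟨(nat_lit 676), (nat_lit 2), (nat_lit 0x74f91d3ca), (nat_lit 6)⟩))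
(.lf ⟨(nat_lit 0x2c7810), (nat_lit 4), (nat_lit 0x6878101da2c7), (nat_lit 8)⟩)))
(.nd (.nd (.nd (.lf ⟨(nat_lit 260), (nat_lit 2), (nat_lit 0), (nat_lit 0)⟩)
(.lf ⟨(nat_lit 0x591d15d), (nat_lit 5), (nat_lit 0x2474591d164), (nat_lit 7)⟩))
(.lf ⟨(nat_lit 24), (nat_lit 1), (nat_lit 27), (nat_lit 1)⟩))
(.nd (.nd (.lf ⟨(nat_lit 279), (nat_lit 2), (nat_lit 0x1f2d85cf2d83c4), (nat_lit 9)⟩)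
(.lf ⟨(nat_lit 0x2c42cb11604b11604b2c45812c45812c42cb11604b11604b2c45812c4581), (nat_lit 40), (nat_lit 0x2c42cb11604b11604b2c45812c45812c42cb11604b11604b2c45812c4581), (nat_lit 40)⟩))
(.lf ⟨(nat_lit 0x419a510), (nat_lit 5), (nat_lit 0x6c6694406106), (nat_lit 8)⟩))))
(.nd (.nd (.nd (.nd (.lf ⟨(nat_lit 0x69a), (nat_lit 2), (nat_lit 0), (nat_lit 0)⟩)
(.lf ⟨(nat_lit 5), (nat_lit 1), (nat_lit 0x68305a0c1), (nat_lit 6)⟩))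
(.lf ⟨(nat_lit 138), (nat_lit 2), (nat_lit 642), (nat_lit 2)⟩))
(.nd (.nd (.lf ⟨(nat_lit 346), (nat_lit 2), (nat_lit 0x685), (nat_lit 2)⟩)
(.lf ⟨(nat_lit 0xa810), (nat_lit 3), (nat_lit 0x90f7503dd3cb3cb2a0), (nat_lit 12)⟩))
(.lf ⟨(nat_lit 926), (nat_lit 2), (nat_lit 0x78e), (nat_lit 2)⟩)))
(.nd (.nd (.nd (.lf ⟨(nat_lit 0x683683), (nat_lit 4), (nat_lit 0), (nat_lit 0)⟩)
(.lf ⟨(nat_lit 0x8a23), (nat_lit 3), (nat_lit 0x1b5943ce8dc6d650f39c228), (nat_lit 15)⟩))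
(.lf ⟨(nat_lit 0x1c91d71d), (nat_lit 5), (nat_lit 0x1d72475c), (nat_lit 5)⟩))
(.nd (.lf ⟨(nat_lit 0x48c48c), (nat_lit 4), (nat_lit 0), (nat_lit 0)⟩)
(.lf ⟨(nat_lit 804), (nat_lit 2), (nat_lit 0x75291d48c), (nat_lit 6)⟩)))))
(.nd (.nd (.nd (.nd (.nd (.lf ⟨(nat_lit 75), (nat_lit 2), (nat_lit 0x102c1), (nat_lit 3)⟩)
(.lf ⟨(nat_lit 0x284794), (nat_lit 4), (nat_lit 0x794284), (nat_lit 4)⟩))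
(.lf ⟨(nat_lit 270), (nat_lit 2), (nat_lit 0x1b384), (nat_lit 3)⟩))
(.nd (.nd (.lf ⟨(nat_lit 519), (nat_lit 2), (nat_lit 456), (nat_lit 2)⟩)
(.lf ⟨(nat_lit 0x1075c), (nat_lit 3), (nat_lit 0x1d71d41d), (nat_lit 5)⟩))
(.lf ⟨(nat_lit 0x668), (nat_lit 2), (nat_lit 0xa19), (nat_lit 2)⟩)))
(.nd (.nd (.nd (.lf ⟨(nat_lit 0x284284), (nat_lit 4), (nat_lit 0), (nat_lit 0)⟩)
(.lf ⟨(nat_lit 0xe048c80c0e048c80c), (nat_lit 12), (nat_lit 0xe048c80c0e048c80c), (nat_lit 12)⟩))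
(.lf ⟨(nat_lit 0x31730f), (nat_lit 4), (nat_lit 0x3cc5cc), (nat_lit 4)⟩))
(.nd (.nd (.lf ⟨(nat_lit 0x185185), (nat_lit 4), (nat_lit 0), (nat_lit 0)⟩)
(.lf ⟨(nat_lit 0xe82e82c3), (nat_lit 6), (nat_lit 0xe80c40e80c4), (nat_lit 8)⟩))
(.lf ⟨(nat_lit 0x2d72cb5cb), (nat_lit 6), (nat_lit 0), (nat_lit 0)⟩))))
(.nd (.nd (.nd (.nd (.lf ⟨(nat_lit 155), (nat_lit 2), (nat_lit 0x226c2), (nat_lit 3)⟩)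
(.lf ⟨(nat_lit 0x282816816282816816), (nat_lit 12), (nat_lit 0x282816816282816816), (nat_lit 12)⟩))
(.lf ⟨(nat_lit 158), (nat_lit 2), (nat_lit 0x78f28528718558a1ca18a14a1563c2), (nat_lit 20)⟩))
(.nd (.nd (.lf ⟨(nat_lit 100), (nat_lit 2), (nat_lit 0x901), (nat_lit 2)⟩)
(.lf ⟨(nat_lit 0x4196106), (nat_lit 5), (nat_lit 0x16286584196284), (nat_lit 9)⟩))
(.lf ⟨(nat_lit 0x421), (nat_lit 2), (nat_lit 0x6e16d0), (nat_lit 4)⟩)))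
(.nd (.nd (.nd (.lf ⟨(nat_lit 283), (nat_lit 2), (nat_lit 0x6c4), (nat_lit 2)⟩)
(.lf ⟨(nat_lit 0x51c), (nat_lit 2), (nat_lit 0x714), (nat_lit 2)⟩))
(.lf ⟨(nat_lit 535), (nat_lit 2), (nat_lit 0x1c65cf1c63c8), (nat_lit 8)⟩))
(.nd (.lf ⟨(nat_lit 0), (nat_lit 0), (nat_lit 65), (nat_lit 2)⟩)
(.lf ⟨(nat_lit 0x1d01d0), (nat_lit 4), (nat_lit 0x1c1407050), (nat_lit 6)⟩)))))))
(.nd (.nd (.nd (.nd (.nd (.nd (.nd (.lf ⟨(nat_lit 520), (nat_lit 2), (nat_lit 0), (nat_lit 0)⟩)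
(.lf ⟨(nat_lit 0x91d41d), (nat_lit 4), (nat_lit 0x5d2c174b), (nat_lit 6)⟩))
(.lf ⟨(nat_lit 0x598), (nat_lit 2), (nat_lit 0x616), (nat_lit 2)⟩))
(.nd (.nd (.lf ⟨(nat_lit 721), (nat_lit 2), (nat_lit 0x44b), (nat_lit 2)⟩)
(.lf ⟨(nat_lit 0x41e), (nat_lit 2), (nat_lit 0x790), (nat_lit 2)⟩))
(.lf ⟨(nat_lit 0x101e0407), (nat_lit 5), (nat_lit 0x78101d0), (nat_lit 5)⟩)))
(.nd (.nd (.nd (.lf ⟨(nat_lit 7), (nat_lit 1), (nat_lit 0x83083), (nat_lit 4)⟩)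
(.lf ⟨(nat_lit 0xa416474574290591d15d), (nat_lit 14), (nat_lit 0xa416474574290591d15d), (nat_lit 14)⟩))
(.lf ⟨(nat_lit 19), (nat_lit 1), (nat_lit 20), (nat_lit 1)⟩))
(.nd (.nd (.lf ⟨(nat_lit 0xb1d1), (nat_lit 3), (nat_lit 0x112c7), (nat_lit 3)⟩)
(.lf ⟨(nat_lit 0x2c45812c4581), (nat_lit 8), (nat_lit 0x2c45812c4581), (nat_lit 8)⟩))
(.lf ⟨(nat_lit 0x763), (nat_lit 2), (nat_lit 0xa239239288dd), (nat_lit 8)⟩))))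
(.nd (.nd (.nd (.nd (.lf ⟨(nat_lit 0x618), (nat_lit 2), (nat_lit 0), (nat_lit 0)⟩)
(.lf ⟨(nat_lit 0x74575d18419d11d15d746106744), (nat_lit 18), (nat_lit 0x74575d18419d11d15d746106744), (nat_lit 18)⟩))
(.lf ⟨(nat_lit 263), (nat_lit 2), (nat_lit 0x72c775130b287284), (nat_lit 11)⟩))
(.nd (.nd (.lf ⟨(nat_lit 540), (nat_lit 2), (nat_lit 0x708), (nat_lit 2)⟩)
(.lf ⟨(nat_lit 0x743743), (nat_lit 4), (nat_lit 0), (nat_lit 0)⟩))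
(.lf ⟨(nat_lit 0x25cf2c4), (nat_lit 5), (nat_lit 0x44b58f284097), (nat_lit 8)⟩)))
(.nd (.nd (.nd (.lf ⟨(nat_lit 0x14c14c), (nat_lit 4), (nat_lit 0x305305), (nat_lit 4)⟩)
(.lf ⟨(nat_lit 0x1c863721), (nat_lit 5), (nat_lit 0x218dc85c), (nat_lit 5)⟩))
(.lf ⟨(nat_lit 0x9711), (nat_lit 3), (nat_lit 0x247688dca5d71125c), (nat_lit 11)⟩))
(.nd (.lf ⟨(nat_lit 340), (nat_lit 2), (nat_lit 0x505), (nat_lit 2)⟩)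
(.lf ⟨(nat_lit 0x3c73c7), (nat_lit 4), (nat_lit 0x1cf1cf), (nat_lit 4)⟩)))))
(.nd (.nd (.nd (.nd (.nd (.lf ⟨(nat_lit 201), (nat_lit 2), (nat_lit 0xe243), (nat_lit 3)⟩)
(.lf ⟨(nat_lit 0x1d30b5ce), (nat_lit 5), (nat_lit 0x1739d30b), (nat_lit 5)⟩))
(.lf ⟨(nat_lit 718), (nat_lit 2), (nat_lit 907), (nat_lit 2)⟩))
(.nd (.nd (.lf ⟨(nat_lit 161), (nat_lit 2), (nat_lit 0x84a64a642), (nat_lit 6)⟩)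
(.lf ⟨(nat_lit 161), (nat_lit 2), (nat_lit 0x40f91d40f74f2cf2c2), (nat_lit 12)⟩))
(.lf ⟨(nat_lit 0x19a2375c), (nat_lit 5), (nat_lit 0x288dd72475991d), (nat_lit 9)⟩)))
(.nd (.nd (.nd (.lf ⟨(nat_lit 715), (nat_lit 2), (nat_lit 0), (nat_lit 0)⟩)
(.lf ⟨(nat_lit 0x41b41d41d6d0), (nat_lit 8), (nat_lit 0x6d075075b410), (nat_lit 8)⟩))
(.lf ⟨(nat_lit 159), (nat_lit 2), (nat_lit 0x7c76c76c2), (nat_lit 6)⟩))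
(.nd (.nd (.lf ⟨(nat_lit 0x40b40b), (nat_lit 4), (nat_lit 0), (nat_lit 0)⟩)
(.lf ⟨(nat_lit 0x90591d16474590591d164745), (nat_lit 16), (nat_lit 0), (nat_lit 0)⟩))
(.lf ⟨(nat_lit 0x3ca2cf28b), (nat_lit 6), (nat_lit 0x2cf28b3ca), (nat_lit 6)⟩))))
(.nd (.nd (.nd (.nd (.lf ⟨(nat_lit 216), (nat_lit 2), (nat_lit 0x1f603), (nat_lit 3)⟩)
(.lf ⟨(nat_lit 0x2203ca8162882203ca816288), (nat_lit 16), (nat_lit 0x2203ca8162882203ca816288), (nat_lit 16)⟩))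
(.lf ⟨(nat_lit 21), (nat_lit 1), (nat_lit 0), (nat_lit 0)⟩))
(.nd (.nd (.lf ⟨(nat_lit 730), (nat_lit 2), (nat_lit 0x68b), (nat_lit 2)⟩)
(.lf ⟨(nat_lit 0x9610658a10609610658a106), (nat_lit 16), (nat_lit 0x9610658a10609610658a106), (nat_lit 16)⟩))
(.lf ⟨(nat_lit 593), (nat_lit 2), (nat_lit 0x288dd72475c449), (nat_lit 9)⟩)))
(.nd (.nd (.nd (.lf ⟨(nat_lit 92), (nat_lit 2), (nat_lit 0x701), (nat_lit 2)⟩)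
(.lf ⟨(nat_lit 0xea23), (nat_lit 3), (nat_lit 0x288dc75c51c75c50e), (nat_lit 11)⟩))
(.lf ⟨(nat_lit 0x6dd), (nat_lit 2), (nat_lit 0x75b), (nat_lit 2)⟩))
(.nd (.lf ⟨(nat_lit 0x164164), (nat_lit 4), (nat_lit 0x905905), (nat_lit 4)⟩)
(.lf ⟨(nat_lit 0x20045), (nat_lit 3), (nat_lit 0x201e0407405801), (nat_lit 9)⟩))))))
(.nd (.nd (.nd (.nd (.nd (.nd (.lf ⟨(nat_lit 715), (nat_lit 2), (nat_lit 0), (nat_lit 0)⟩)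
(.lf ⟨(nat_lit 0x1075c), (nat_lit 3), (nat_lit 0x239288e4a1d71d41d), (nat_lit 11)⟩))
(.lf ⟨(nat_lit 28), (nat_lit 1), (nat_lit 0x51051), (nat_lit 4)⟩))
(.nd (.nd (.lf ⟨(nat_lit 0x45c), (nat_lit 2), (nat_lit 0x711), (nat_lit 2)⟩)
(.lf ⟨(nat_lit 0x724), (nat_lit 2), (nat_lit 0x91c), (nat_lit 2)⟩))
(.lf ⟨(nat_lit 411), (nat_lit 2), (nat_lit 0x6c6), (nat_lit 2)⟩)))
(.nd (.nd (.nd (.lf ⟨(nat_lit 267), (nat_lit 2), (nat_lit 708), (nat_lit 2)⟩)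
(.lf ⟨(nat_lit 0x6cb6cb), (nat_lit 4), (nat_lit 0), (nat_lit 0)⟩))
(.lf ⟨(nat_lit 539), (nat_lit 2), (nat_lit 0x6c8), (nat_lit 2)⟩))
(.nd (.nd (.lf ⟨(nat_lit 0x2996d0), (nat_lit 4), (nat_lit 0x8626d940a), (nat_lit 6)⟩)
(.lf ⟨(nat_lit 0xb590), (nat_lit 3), (nat_lit 0x105905902d6), (nat_lit 7)⟩))
(.lf ⟨(nat_lit 604), (nat_lit 2), (nat_lit 0x28709), (nat_lit 3)⟩))))
(.nd (.nd (.nd (.nd (.lf ⟨(nat_lit 81), (nat_lit 2), (nat_lit 0x1c441), (nat_lit 3)⟩)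
(.lf ⟨(nat_lit 0x68305a30a68a05a30a68a68305a30a68a05a30a68a), (nat_lit 28), (nat_lit 0x68305a30a68a05a30a68a68305a30a68a05a30a68a), (nat_lit 28)⟩))
(.lf ⟨(nat_lit 903), (nat_lit 2), (nat_lit 462), (nat_lit 2)⟩))
(.nd (.nd (.lf ⟨(nat_lit 797), (nat_lit 2), (nat_lit 0x74c), (nat_lit 2)⟩)
(.lf ⟨(nat_lit 676), (nat_lit 2), (nat_lit 0x91d3dd3ca), (nat_lit 6)⟩))
(.lf ⟨(nat_lit 292), (nat_lit 2), (nat_lit 0x904), (nat_lit 2)⟩)))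
(.nd (.nd (.nd (.lf ⟨(nat_lit 204), (nat_lit 2), (nat_lit 771), (nat_lit 2)⟩)
(.lf ⟨(nat_lit 0x524), (nat_lit 2), (nat_lit 0x914), (nat_lit 2)⟩))
(.lf ⟨(nat_lit 656), (nat_lit 2), (nat_lit 0xf91d40f74f2cf2ca), (nat_lit 11)⟩))
(.nd (.lf ⟨(nat_lit 658), (nat_lit 2), (nat_lit 0x48f30f30a), (nat_lit 6)⟩)
(.lf ⟨(nat_lit 0x8078101d0), (nat_lit 6), (nat_lit 0x801160045), (nat_lit 6)⟩)))))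
(.nd (.nd (.nd (.nd (.nd (.lf ⟨(nat_lit 76), (nat_lit 2), (nat_lit 0x12301), (nat_lit 3)⟩)
(.lf ⟨(nat_lit 740), (nat_lit 2), (nat_lit 0x91075074b), (nat_lit 6)⟩))
(.lf ⟨(nat_lit 0x414), (nat_lit 2), (nat_lit 0x510), (nat_lit 2)⟩))
(.nd (.nd (.lf ⟨(nat_lit 978), (nat_lit 2), (nat_lit 0x48f), (nat_lit 2)⟩)
(.lf ⟨(nat_lit 924), (nat_lit 2), (nat_lit 0x70e), (nat_lit 2)⟩))
(.lf ⟨(nat_lit 0x51d), (nat_lit 2), (nat_lit 0x754), (nat_lit 2)⟩)))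
(.nd (.nd (.nd (.lf ⟨(nat_lit 0x241241), (nat_lit 4), (nat_lit 0), (nat_lit 0)⟩)
(.lf ⟨(nat_lit 0x8010e03ca80a0e03ca80a8010e03ca80a0e03ca80a), (nat_lit 28), (nat_lit 0x8010e03ca80a0e03ca80a8010e03ca80a0e03ca80a), (nat_lit 28)⟩))
(.lf ⟨(nat_lit 0x299299), (nat_lit 4), (nat_lit 0x64a64a), (nat_lit 4)⟩))
(.nd (.nd (.lf ⟨(nat_lit 736), (nat_lit 2), (nat_lit 0x80b), (nat_lit 2)⟩)
(.lf ⟨(nat_lit 0x203a036d650f383a036d650f3880e80db5943ce0e80db5943ce), (nat_lit 34), (nat_lit 0x203a036d650f383a036d650f3880e80db5943ce0e80db5943ce), (nat_lit 34)⟩))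
(.lf ⟨(nat_lit 0xb5912d6), (nat_lit 5), (nat_lit 0x1644b58b), (nat_lit 5)⟩))))
(.nd (.nd (.nd (.nd (.lf ⟨(nat_lit 93), (nat_lit 2), (nat_lit 0x24741), (nat_lit 3)⟩)
(.lf ⟨(nat_lit 0xa8162a0), (nat_lit 5), (nat_lit 0xf80a8163ca), (nat_lit 7)⟩))
(.lf ⟨(nat_lit 532), (nat_lit 2), (nat_lit 0x508), (nat_lit 2)⟩))
(.nd (.nd (.lf ⟨(nat_lit 673), (nat_lit 2), (nat_lit 0x84a), (nat_lit 2)⟩)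
(.lf ⟨(nat_lit 0xc10e8103a04043a040e8103043a040e81010e8103a04), (nat_lit 30), (nat_lit 0xc10e8103a04043a040e8103043a040e81010e8103a04), (nat_lit 30)⟩))
(.lf ⟨(nat_lit 545), (nat_lit 2), (nat_lit 0x6d650f3a16d95943d9388), (nat_lit 14)⟩)))
(.nd (.nd (.nd (.lf ⟨(nat_lit 0xb5cf2cf), (nat_lit 5), (nat_lit 0xf2d73cb), (nat_lit 5)⟩)
(.lf ⟨(nat_lit 0x928), (nat_lit 2), (nat_lit 0xa24), (nat_lit 2)⟩))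
(.lf ⟨(nat_lit 606), (nat_lit 2), (nat_lit 0x51e509), (nat_lit 4)⟩))
(.nd (.lf ⟨(nat_lit 0), (nat_lit 0), (nat_lit 130), (nat_lit 2)⟩)
(.lf ⟨(nat_lit 0x1d02c72c740b1cb), (nat_lit 10), (nat_lit 0), (nat_lit 0)⟩))))))))
(.nd (.nd (.nd (.nd (.nd (.nd (.nd (.nd (.lf ⟨(nat_lit 195), (nat_lit 2), (nat_lit 0), (nat_lit 0)⟩)
(.lf ⟨(nat_lit 0), (nat_lit 0), (nat_lit 0x872c72c21cb1cb), (nat_lit 10)⟩))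
(.lf ⟨(nat_lit 15), (nat_lit 1), (nat_lit 0x4a04a), (nat_lit 4)⟩))
(.nd (.nd (.lf ⟨(nat_lit 655), (nat_lit 2), (nat_lit 970), (nat_lit 2)⟩)
(.lf ⟨(nat_lit 0x41e757), (nat_lit 4), (nat_lit 0x91e75791d41d), (nat_lit 8)⟩))
(.lf ⟨(nat_lit 676), (nat_lit 2), (nat_lit 0x3e474f74a), (nat_lit 6)⟩)))
(.nd (.nd (.nd (.lf ⟨(nat_lit 130), (nat_lit 2), (nat_lit 0), (nat_lit 0)⟩)
(.lf ⟨(nat_lit 0x90591d15d), (nat_lit 6), (nat_lit 0x164143164143), (nat_lit 8)⟩))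
(.lf ⟨(nat_lit 21), (nat_lit 1), (nat_lit 0), (nat_lit 0)⟩))
(.nd (.nd (.lf ⟨(nat_lit 269), (nat_lit 2), (nat_lit 0x18344), (nat_lit 3)⟩)
(.lf ⟨(nat_lit 0x581581), (nat_lit 4), (nat_lit 0), (nat_lit 0)⟩))
(.lf ⟨(nat_lit 608), (nat_lit 2), (nat_lit 0x809), (nat_lit 2)⟩))))
(.nd (.nd (.nd (.nd (.lf ⟨(nat_lit 0x5d7), (nat_lit 2), (nat_lit 0), (nat_lit 0)⟩)
(.lf ⟨(nat_lit 0x746106744), (nat_lit 6), (nat_lit 0x11d19d11d19d), (nat_lit 8)⟩))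
(.lf ⟨(nat_lit 785), (nat_lit 2), (nat_lit 0x44c), (nat_lit 2)⟩))
(.nd (.nd (.lf ⟨(nat_lit 338), (nat_lit 2), (nat_lit 0x485), (nat_lit 2)⟩)
(.lf ⟨(nat_lit 0x58440b58440b), (nat_lit 8), (nat_lit 0x40b58440b584), (nat_lit 8)⟩))
(.lf ⟨(nat_lit 0xa1db), (nat_lit 3), (nat_lit 0x38c40e91d41d2e88dc75c75b30b287), (nat_lit 20)⟩)))
(.nd (.nd (.nd (.lf ⟨(nat_lit 0x3c13c1), (nat_lit 4), (nat_lit 0), (nat_lit 0)⟩)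
(.lf ⟨(nat_lit 0x4a4), (nat_lit 2), (nat_lit 0x912), (nat_lit 2)⟩))
(.lf ⟨(nat_lit 0x6e0), (nat_lit 2), (nat_lit 0x81b), (nat_lit 2)⟩))
(.nd (.lf ⟨(nat_lit 0x891d21d), (nat_lit 5), (nat_lit 0x1d224748), (nat_lit 5)⟩)
(.lf ⟨(nat_lit 0x15d15d), (nat_lit 4), (nat_lit 0x745745), (nat_lit 4)⟩)))))
(.nd (.nd (.nd (.nd (.nd (.lf ⟨(nat_lit 137), (nat_lit 2), (nat_lit 0xd242), (nat_lit 3)⟩)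
(.lf ⟨(nat_lit 0x794), (nat_lit 2), (nat_lit 0x573815ce), (nat_lit 6)⟩))
(.lf ⟨(nat_lit 14), (nat_lit 1), (nat_lit 0xc90c9), (nat_lit 4)⟩))
(.nd (.nd (.lf ⟨(nat_lit 0x723), (nat_lit 2), (nat_lit 0x8dc), (nat_lit 2)⟩)
(.lf ⟨(nat_lit 0x1975c), (nat_lit 3), (nat_lit 0x218dc8648dd71d71991d), (nat_lit 13)⟩))
(.lf ⟨(nat_lit 0x428), (nat_lit 2), (nat_lit 0xa10), (nat_lit 2)⟩)))
(.nd (.nd (.nd (.lf ⟨(nat_lit 203), (nat_lit 2), (nat_lit 707), (nat_lit 2)⟩)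
(.lf ⟨(nat_lit 0), (nat_lit 0), (nat_lit 0x901901), (nat_lit 4)⟩))
(.lf ⟨(nat_lit 264), (nat_lit 2), (nat_lit 0x1b5943ce204), (nat_lit 7)⟩))
(.nd (.nd (.lf ⟨(nat_lit 334), (nat_lit 2), (nat_lit 901), (nat_lit 2)⟩)
(.lf ⟨(nat_lit 0), (nat_lit 0), (nat_lit 0xdd15d143745745), (nat_lit 10)⟩))
(.lf ⟨(nat_lit 0x74b74b), (nat_lit 4), (nat_lit 0), (nat_lit 0)⟩))))
(.nd (.nd (.nd (.nd (.lf ⟨(nat_lit 87), (nat_lit 2), (nat_lit 0x1e5c1), (nat_lit 3)⟩)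
(.lf ⟨(nat_lit 0x203ca816288), (nat_lit 7), (nat_lit 0x801282801282), (nat_lit 8)⟩))
(.lf ⟨(nat_lit 582), (nat_lit 2), (nat_lit 393), (nat_lit 2)⟩))
(.nd (.nd (.lf ⟨(nat_lit 268), (nat_lit 2), (nat_lit 0x1d304), (nat_lit 3)⟩)
(.lf ⟨(nat_lit 0x1610658a106), (nat_lit 7), (nat_lit 0x584182584182), (nat_lit 8)⟩))
(.lf ⟨(nat_lit 274), (nat_lit 2), (nat_lit 0x2474949d244), (nat_lit 7)⟩)))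
(.nd (.nd (.nd (.lf ⟨(nat_lit 71), (nat_lit 2), (nat_lit 449), (nat_lit 2)⟩)
(.lf ⟨(nat_lit 0x6e8), (nat_lit 2), (nat_lit 0xa1b), (nat_lit 2)⟩))
(.lf ⟨(nat_lit 925), (nat_lit 2), (nat_lit 0x74e), (nat_lit 2)⟩))
(.nd (.lf ⟨(nat_lit 0x11a23), (nat_lit 3), (nat_lit 0x1ca5d72975ca2391d71d464), (nat_lit 15)⟩)
(.lf ⟨(nat_lit 0x8078101d08078101d0), (nat_lit 12), (nat_lit 0), (nat_lit 0)⟩))))))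
(.nd (.nd (.nd (.nd (.nd (.nd (.lf ⟨(nat_lit 650), (nat_lit 2), (nat_lit 0), (nat_lit 0)⟩)
(.lf ⟨(nat_lit 0x424), (nat_lit 2), (nat_lit 0x910), (nat_lit 2)⟩))
(.lf ⟨(nat_lit 854), (nat_lit 2), (nat_lit 0x58d), (nat_lit 2)⟩))
(.nd (.nd (.lf ⟨(nat_lit 0x41a), (nat_lit 2), (nat_lit 0x690), (nat_lit 2)⟩)
(.lf ⟨(nat_lit 739), (nat_lit 2), (nat_lit 0x8dd6d141d6d044b), (nat_lit 10)⟩))
(.lf ⟨(nat_lit 0x724763), (nat_lit 4), (nat_lit 0xa1da2375c91d), (nat_lit 8)⟩)))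
(.nd (.nd (.nd (.lf ⟨(nat_lit 266), (nat_lit 2), (nat_lit 644), (nat_lit 2)⟩)
(.lf ⟨(nat_lit 0x15d164), (nat_lit 4), (nat_lit 0x905745), (nat_lit 4)⟩))
(.lf ⟨(nat_lit 521), (nat_lit 2), (nat_lit 0x14248), (nat_lit 3)⟩))
(.nd (.nd (.lf ⟨(nat_lit 336), (nat_lit 2), (nat_lit 0x405), (nat_lit 2)⟩)
(.lf ⟨(nat_lit 0x5812c441640b5902cb1105902d640b5812c441640b5902cb1105902d640b), (nat_lit 40), (nat_lit 0x5812c441640b5902cb1105902d640b5812c441640b5902cb1105902d640b), (nat_lit 40)⟩))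
(.lf ⟨(nat_lit 0x468), (nat_lit 2), (nat_lit 0x9239288d1), (nat_lit 6)⟩))))
(.nd (.nd (.nd (.nd (.lf ⟨(nat_lit 272), (nat_lit 2), (nat_lit 0x1b404), (nat_lit 3)⟩)
(.lf ⟨(nat_lit 0x5a30a68a05a30a68a), (nat_lit 12), (nat_lit 0x5a30a68a05a30a68a), (nat_lit 12)⟩))
(.lf ⟨(nat_lit 18), (nat_lit 1), (nat_lit 0x4c04c), (nat_lit 4)⟩))
(.nd (.nd (.lf ⟨(nat_lit 605), (nat_lit 2), (nat_lit 0x29749), (nat_lit 3)⟩)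
(.lf ⟨(nat_lit 0xa690), (nat_lit 3), (nat_lit 0x90f7503dd3cb3cb29a), (nat_lit 12)⟩))
(.lf ⟨(nat_lit 271), (nat_lit 2), (nat_lit 0x1b3c4), (nat_lit 3)⟩)))
(.nd (.nd (.nd (.lf ⟨(nat_lit 0x1c11c1), (nat_lit 4), (nat_lit 0), (nat_lit 0)⟩)
(.lf ⟨(nat_lit 0x6e1), (nat_lit 2), (nat_lit 0x85b), (nat_lit 2)⟩))
(.lf ⟨(nat_lit 0x728), (nat_lit 2), (nat_lit 0xa1c), (nat_lit 2)⟩))
(.nd (.lf ⟨(nat_lit 0x711711), (nat_lit 4), (nat_lit 0), (nat_lit 0)⟩)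
(.lf ⟨(nat_lit 593), (nat_lit 2), (nat_lit 0x24a2375c75c449), (nat_lit 9)⟩)))))
(.nd (.nd (.nd (.nd (.nd (.lf ⟨(nat_lit 139), (nat_lit 2), (nat_lit 0x112c2), (nat_lit 3)⟩)
(.lf ⟨(nat_lit 0xf757), (nat_lit 3), (nat_lit 0x1d5dd3dd), (nat_lit 5)⟩))
(.lf ⟨(nat_lit 0x4185), (nat_lit 3), (nat_lit 0x6da510385106), (nat_lit 8)⟩))
(.nd (.nd (.lf ⟨(nat_lit 587), (nat_lit 2), (nat_lit 0x1b2c9), (nat_lit 3)⟩)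
(.lf ⟨(nat_lit 0xa819), (nat_lit 3), (nat_lit 0x216503e47503dd3cb3cb2a0), (nat_lit 15)⟩))
(.lf ⟨(nat_lit 0x520), (nat_lit 2), (nat_lit 0x814), (nat_lit 2)⟩)))
(.nd (.nd (.nd (.lf ⟨(nat_lit 0x141141), (nat_lit 4), (nat_lit 0), (nat_lit 0)⟩)
(.lf ⟨(nat_lit 0x203ca80a), (nat_lit 5), (nat_lit 0x8012a004a), (nat_lit 6)⟩))
(.lf ⟨(nat_lit 31), (nat_lit 1), (nat_lit 0), (nat_lit 0)⟩))
(.nd (.nd (.lf ⟨(nat_lit 990), (nat_lit 2), (nat_lit 0x78f), (nat_lit 2)⟩)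
(.lf ⟨(nat_lit 0xe80db5943ce0e80db5943ce), (nat_lit 16), (nat_lit 0xe80db5943ce0e80db5943ce), (nat_lit 16)⟩))
(.lf ⟨(nat_lit 0x5da5da), (nat_lit 4), (nat_lit 0x697697), (nat_lit 4)⟩))))
(.nd (.nd (.nd (.nd (.lf ⟨(nat_lit 284), (nat_lit 2), (nat_lit 0x23704), (nat_lit 3)⟩)
(.lf ⟨(nat_lit 0x5a05a0), (nat_lit 4), (nat_lit 0x816816), (nat_lit 4)⟩))
(.lf ⟨(nat_lit 903), (nat_lit 2), (nat_lit 462), (nat_lit 2)⟩))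
(.nd (.nd (.lf ⟨(nat_lit 222), (nat_lit 2), (nat_lit 0x783), (nat_lit 2)⟩)
(.lf ⟨(nat_lit 9), (nat_lit 1), (nat_lit 0x68101a04), (nat_lit 6)⟩))
(.lf ⟨(nat_lit 0x464), (nat_lit 2), (nat_lit 0xa239288dd71d711), (nat_lit 10)⟩)))
(.nd (.nd (.nd (.lf ⟨(nat_lit 327), (nat_lit 2), (nat_lit 453), (nat_lit 2)⟩)
(.lf ⟨(nat_lit 0x3da510), (nat_lit 4), (nat_lit 0x79b41e6da50f), (nat_lit 8)⟩))
(.lf ⟨(nat_lit 542), (nat_lit 2), (nat_lit 0x1de3c73c8), (nat_lit 6)⟩))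
(.nd (.lf ⟨(nat_lit 10), (nat_lit 1), (nat_lit 0x102102), (nat_lit 4)⟩)
(.lf ⟨(nat_lit 0x2c740740b1d01d0), (nat_lit 10), (nat_lit 0x2c740740b1d01d0), (nat_lit 10)⟩)))))))
(.nd (.nd (.nd (.nd (.nd (.nd (.nd (.lf ⟨(nat_lit 325), (nat_lit 2), (nat_lit 0), (nat_lit 0)⟩)
(.lf ⟨(nat_lit 0x74b21d2c8), (nat_lit 6), (nat_lit 0x74b21d2c8), (nat_lit 6)⟩))
(.lf ⟨(nat_lit 0x4d6), (nat_lit 2), (nat_lit 0x593), (nat_lit 2)⟩))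
(.nd (.nd (.lf ⟨(nat_lit 982), (nat_lit 2), (nat_lit 0x58f), (nat_lit 2)⟩)
(.lf ⟨(nat_lit 535), (nat_lit 2), (nat_lit 0x1de3c73c67973c63c8), (nat_lit 12)⟩))
(.lf ⟨(nat_lit 0xf1de3c7), (nat_lit 5), (nat_lit 0x778f1cf), (nat_lit 5)⟩)))
(.nd (.nd (.nd (.lf ⟨(nat_lit 197), (nat_lit 2), (nat_lit 323), (nat_lit 2)⟩)
(.lf ⟨(nat_lit 0xc290591d15d0a41647457430a416474574290591d15d), (nat_lit 30), (nat_lit 0xc290591d15d0a41647457430a416474574290591d15d), (nat_lit 30)⟩))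
(.lf ⟨(nat_lit 142), (nat_lit 2), (nat_lit 898), (nat_lit 2)⟩))
(.nd (.nd (.lf ⟨(nat_lit 335), (nat_lit 2), (nat_lit 0x1e3c5), (nat_lit 3)⟩)
(.lf ⟨(nat_lit 0x2cb11604b11604b2c45812c4581), (nat_lit 18), (nat_lit 0x2cb11604b11604b2c45812c4581), (nat_lit 18)⟩))
(.lf ⟨(nat_lit 0xa1ce), (nat_lit 3), (nat_lit 0x6cc2e88e475c75c6ce30b287), (nat_lit 16)⟩))))
(.nd (.nd (.nd (.nd (.lf ⟨(nat_lit 0x659), (nat_lit 2), (nat_lit 0), (nat_lit 0)⟩)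
(.lf ⟨(nat_lit 0x1d69441d6ce74528574a), (nat_lit 13), (nat_lit 0x1d14a15d29d69441d6ce), (nat_lit 13)⟩))
(.lf ⟨(nat_lit 0x83083), (nat_lit 4), (nat_lit 7), (nat_lit 1)⟩))
(.nd (.nd (.lf ⟨(nat_lit 537), (nat_lit 2), (nat_lit 0x648), (nat_lit 2)⟩)
(.lf ⟨(nat_lit 996), (nat_lit 2), (nat_lit 0x90f), (nat_lit 2)⟩))
(.lf ⟨(nat_lit 0x51e), (nat_lit 2), (nat_lit 0x794), (nat_lit 2)⟩)))
(.nd (.nd (.nd (.lf ⟨(nat_lit 0x2cf2cf), (nat_lit 4), (nat_lit 0x3cb3cb), (nat_lit 4)⟩)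
(.lf ⟨(nat_lit 0xa690), (nat_lit 3), (nat_lit 0x3e47503dd3cb3cb29a), (nat_lit 12)⟩))
(.lf ⟨(nat_lit 0x1ca64), (nat_lit 3), (nat_lit 0x288e99288dc), (nat_lit 7)⟩))
(.nd (.lf ⟨(nat_lit 0xa398), (nat_lit 3), (nat_lit 0xe60e28e), (nat_lit 5)⟩)
(.lf ⟨(nat_lit 0x75b24175b241), (nat_lit 8), (nat_lit 0x24175b24175b), (nat_lit 8)⟩)))))
(.nd (.nd (.nd (.nd (.nd (.lf ⟨(nat_lit 74), (nat_lit 2), (nat_lit 0xf281), (nat_lit 3)⟩)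
(.lf ⟨(nat_lit 0x1d30b794), (nat_lit 5), (nat_lit 0x1e51d30b), (nat_lit 5)⟩))
(.lf ⟨(nat_lit 0x51a), (nat_lit 2), (nat_lit 0x694), (nat_lit 2)⟩))
(.nd (.nd (.lf ⟨(nat_lit 0x98dc), (nat_lit 3), (nat_lit 0xa23709), (nat_lit 4)⟩)
(.lf ⟨(nat_lit 804), (nat_lit 2), (nat_lit 0x91d49d48c), (nat_lit 6)⟩))
(.lf ⟨(nat_lit 913), (nat_lit 2), (nat_lit 0x44e), (nat_lit 2)⟩)))
(.nd (.nd (.nd (.lf ⟨(nat_lit 520), (nat_lit 2), (nat_lit 0), (nat_lit 0)⟩)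
(.lf ⟨(nat_lit 740), (nat_lit 2), (nat_lit 0x91d41d40b), (nat_lit 6)⟩))
(.lf ⟨(nat_lit 0x1ca23), (nat_lit 3), (nat_lit 0x299288dca64), (nat_lit 7)⟩))
(.nd (.nd (.lf ⟨(nat_lit 0x3ca3ca), (nat_lit 4), (nat_lit 0), (nat_lit 0)⟩)
(.lf ⟨(nat_lit 228), (nat_lit 2), (nat_lit 0x91d15d143), (nat_lit 6)⟩))
(.lf ⟨(nat_lit 0x143801143801), (nat_lit 8), (nat_lit 0x801143801143), (nat_lit 8)⟩))))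
(.nd (.nd (.nd (.nd (.lf ⟨(nat_lit 0x861), (nat_lit 2), (nat_lit 0), (nat_lit 0)⟩)
(.lf ⟨(nat_lit 0x8012203ca8162882203ca8162888012203ca8162882203ca816288), (nat_lit 36), (nat_lit 0x8012203ca8162882203ca8162888012203ca8162882203ca816288), (nat_lit 36)⟩))
(.lf ⟨(nat_lit 19), (nat_lit 1), (nat_lit 20), (nat_lit 1)⟩))
(.nd (.nd (.lf ⟨(nat_lit 94), (nat_lit 2), (nat_lit 0x781), (nat_lit 2)⟩)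
(.lf ⟨(nat_lit 0x18209610658a10609610658a10618209610658a10609610658a106), (nat_lit 36), (nat_lit 0x18209610658a10609610658a10618209610658a10609610658a106), (nat_lit 36)⟩))
(.lf ⟨(nat_lit 279), (nat_lit 2), (nat_lit 0x3cb5cf2c4), (nat_lit 6)⟩)))
(.nd (.nd (.nd (.lf ⟨(nat_lit 215), (nat_lit 2), (nat_lit 0x5c3), (nat_lit 2)⟩)
(.lf ⟨(nat_lit 0x19923), (nat_lit 3), (nat_lit 0x248e48e18dc85c664), (nat_lit 11)⟩))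
(.lf ⟨(nat_lit 0x45b), (nat_lit 2), (nat_lit 0x6d1), (nat_lit 2)⟩))
(.nd (.lf ⟨(nat_lit 347), (nat_lit 2), (nat_lit 0x6c5), (nat_lit 2)⟩)
(.lf ⟨(nat_lit 0x740b1cb), (nat_lit 5), (nat_lit 0x1c12c704b), (nat_lit 6)⟩))))))
(.nd (.nd (.nd (.nd (.nd (.nd (.lf ⟨(nat_lit 780), (nat_lit 2), (nat_lit 0), (nat_lit 0)⟩)
(.lf ⟨(nat_lit 0x1b3c9), (nat_lit 3), (nat_lit 0x4a101284), (nat_lit 6)⟩))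
(.lf ⟨(nat_lit 0x411411), (nat_lit 4), (nat_lit 0x450450), (nat_lit 4)⟩))
(.nd (.nd (.lf ⟨(nat_lit 0x5de), (nat_lit 2), (nat_lit 0x797), (nat_lit 2)⟩)
(.lf ⟨(nat_lit 0x768), (nat_lit 2), (nat_lit 0xa1d), (nat_lit 2)⟩))
(.lf ⟨(nat_lit 921), (nat_lit 2), (nat_lit 0x64e), (nat_lit 2)⟩)))
(.nd (.nd (.nd (.lf ⟨(nat_lit 69), (nat_lit 2), (nat_lit 321), (nat_lit 2)⟩)
(.lf ⟨(nat_lit 16), (nat_lit 1), (nat_lit 0x5b2c16cb), (nat_lit 6)⟩))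
(.lf ⟨(nat_lit 980), (nat_lit 2), (nat_lit 0x50f), (nat_lit 2)⟩))
(.nd (.nd (.lf ⟨(nat_lit 200), (nat_lit 2), (nat_lit 0x1c6203), (nat_lit 4)⟩)
(.lf ⟨(nat_lit 0x90591d164745), (nat_lit 8), (nat_lit 0x74305d0c1), (nat_lit 6)⟩))
(.lf ⟨(nat_lit 0x48175205d), (nat_lit 6), (nat_lit 0x75205d481), (nat_lit 6)⟩))))
(.nd (.nd (.nd (.nd (.lf ⟨(nat_lit 273), (nat_lit 2), (nat_lit 0x1d444), (nat_lit 3)⟩)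
(.lf ⟨(nat_lit 0x29a5cf68f29a5cf68f), (nat_lit 12), (nat_lit 0x29a5cf68f29a5cf68f), (nat_lit 12)⟩))
(.lf ⟨(nat_lit 532), (nat_lit 2), (nat_lit 0x508), (nat_lit 2)⟩))
(.nd (.nd (.lf ⟨(nat_lit 86), (nat_lit 2), (nat_lit 0x581), (nat_lit 2)⟩)
(.lf ⟨(nat_lit 161), (nat_lit 2), (nat_lit 0x9103dd40f74f2cf2c2), (nat_lit 12)⟩))
(.lf ⟨(nat_lit 586), (nat_lit 2), (nat_lit 0x1b289), (nat_lit 3)⟩)))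
(.nd (.nd (.nd (.lf ⟨(nat_lit 80), (nat_lit 2), (nat_lit 0x401), (nat_lit 2)⟩)
(.lf ⟨(nat_lit 0x1ba23), (nat_lit 3), (nat_lit 0x288db), (nat_lit 3)⟩))
(.lf ⟨(nat_lit 0x707), (nat_lit 2), (nat_lit 476), (nat_lit 2)⟩))
(.nd (.lf ⟨(nat_lit 5), (nat_lit 1), (nat_lit 0xc10c1), (nat_lit 4)⟩)
(.lf ⟨(nat_lit 0xa01e04074028078101d0), (nat_lit 14), (nat_lit 0xa01e04074028078101d0), (nat_lit 14)⟩)))))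
(.nd (.nd (.nd (.nd (.nd (.lf ⟨(nat_lit 78), (nat_lit 2), (nat_lit 0x14381), (nat_lit 3)⟩)
(.lf ⟨(nat_lit 0x74575d15d), (nat_lit 6), (nat_lit 0), (nat_lit 0)⟩))
(.lf ⟨(nat_lit 0), (nat_lit 0), (nat_lit 715), (nat_lit 2)⟩))
(.nd (.nd (.lf ⟨(nat_lit 522), (nat_lit 2), (nat_lit 0x16288), (nat_lit 3)⟩)
(.lf ⟨(nat_lit 0x19923), (nat_lit 3), (nat_lit 0x218dc85c664), (nat_lit 7)⟩))
(.lf ⟨(nat_lit 228), (nat_lit 2), (nat_lit 0x164745743), (nat_lit 6)⟩)))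
(.nd (.nd (.nd (.lf ⟨(nat_lit 0x14a14a), (nat_lit 4), (nat_lit 0x285285), (nat_lit 4)⟩)
(.lf ⟨(nat_lit 0x80f2a02a03ca80a), (nat_lit 10), (nat_lit 0), (nat_lit 0)⟩))
(.lf ⟨(nat_lit 0x5db), (nat_lit 2), (nat_lit 0x6d7), (nat_lit 2)⟩))
(.nd (.nd (.lf ⟨(nat_lit 329), (nat_lit 2), (nat_lit 0x14245), (nat_lit 3)⟩)
(.lf ⟨(nat_lit 0xe82e82c30e82e82c3), (nat_lit 12), (nat_lit 0), (nat_lit 0)⟩))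
(.lf ⟨(nat_lit 0x452452), (nat_lit 4), (nat_lit 0x712452711), (nat_lit 6)⟩))))
(.nd (.nd (.nd (.nd (.lf ⟨(nat_lit 99), (nat_lit 2), (nat_lit 0x288c1), (nat_lit 3)⟩)
(.lf ⟨(nat_lit 0xa80f2a0), (nat_lit 5), (nat_lit 0x168163ca80a), (nat_lit 7)⟩))
(.lf ⟨(nat_lit 148), (nat_lit 2), (nat_lit 0x502), (nat_lit 2)⟩))
(.nd (.nd (.lf ⟨(nat_lit 206), (nat_lit 2), (nat_lit 899), (nat_lit 2)⟩)
(.lf ⟨(nat_lit 0x28114), (nat_lit 3), (nat_lit 0x14a04), (nat_lit 3)⟩))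
(.lf ⟨(nat_lit 599), (nat_lit 2), (nat_lit 0x5c9), (nat_lit 2)⟩)))
(.nd (.nd (.nd (.lf ⟨(nat_lit 653), (nat_lit 2), (nat_lit 842), (nat_lit 2)⟩)
(.lf ⟨(nat_lit 0xb3d9450), (nat_lit 5), (nat_lit 0xf74f91074f6503e47503dd3cb3d1), (nat_lit 19)⟩))
(.lf ⟨(nat_lit 352), (nat_lit 2), (nat_lit 0x1e0407405), (nat_lit 6)⟩))
(.nd (.lf ⟨(nat_lit 912), (nat_lit 2), (nat_lit 0x40e), (nat_lit 2)⟩)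
(.lf ⟨(nat_lit 0x1d01d01d01d0), (nat_lit 8), (nat_lit 0), (nat_lit 0)⟩)))))))))
(.nd (.nd (.nd (.nd (.nd (.nd (.nd (.nd (.nd (.lf ⟨(nat_lit 130), (nat_lit 2), (nat_lit 0), (nat_lit 0)⟩)
(.lf ⟨(nat_lit 0x407407), (nat_lit 4), (nat_lit 0x1d01d0), (nat_lit 4)⟩))
(.lf ⟨(nat_lit 0x2d72d7), (nat_lit 4), (nat_lit 0x5cb5cb), (nat_lit 4)⟩))
(.nd (.nd (.lf ⟨(nat_lit 596), (nat_lit 2), (nat_lit 0x509), (nat_lit 2)⟩)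
(.lf ⟨(nat_lit 936), (nat_lit 2), (nat_lit 0x58fa163ce), (nat_lit 6)⟩))
(.lf ⟨(nat_lit 668), (nat_lit 2), (nat_lit 0x3dc44f44a), (nat_lit 6)⟩)))
(.nd (.nd (.nd (.lf ⟨(nat_lit 65), (nat_lit 2), (nat_lit 0), (nat_lit 0)⟩)
(.lf ⟨(nat_lit 0x85905085905), (nat_lit 8), (nat_lit 0x85905085905), (nat_lit 8)⟩))
(.lf ⟨(nat_lit 526), (nat_lit 2), (nat_lit 904), (nat_lit 2)⟩))
(.nd (.nd (.lf ⟨(nat_lit 0x469), (nat_lit 2), (nat_lit 0xa51), (nat_lit 2)⟩)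
(.lf ⟨(nat_lit 547), (nat_lit 2), (nat_lit 0xa1b5943e88dc6d650f708), (nat_lit 14)⟩))
(.lf ⟨(nat_lit 601), (nat_lit 2), (nat_lit 0x649), (nat_lit 2)⟩))))
(.nd (.nd (.nd (.nd (.lf ⟨(nat_lit 143), (nat_lit 2), (nat_lit 0x163c2), (nat_lit 3)⟩)
(.lf ⟨(nat_lit 0x74528574a), (nat_lit 6), (nat_lit 0x74574a74574a), (nat_lit 8)⟩))
(.lf ⟨(nat_lit 104), (nat_lit 2), (nat_lit 0xa01), (nat_lit 2)⟩))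
(.nd (.nd (.lf ⟨(nat_lit 544), (nat_lit 2), (nat_lit 0x808), (nat_lit 2)⟩)
(.lf ⟨(nat_lit 547), (nat_lit 2), (nat_lit 0x6d4a163e88dc6d650f708), (nat_lit 14)⟩))
(.lf ⟨(nat_lit 0x2876ce), (nat_lit 4), (nat_lit 0x6cc38c287), (nat_lit 6)⟩)))
(.nd (.nd (.nd (.lf ⟨(nat_lit 391), (nat_lit 2), (nat_lit 454), (nat_lit 2)⟩)
(.lf ⟨(nat_lit 0xb3e4), (nat_lit 3), (nat_lit 0x1d3e440f74f40f2cf), (nat_lit 11)⟩))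
(.lf ⟨(nat_lit 0x65b), (nat_lit 2), (nat_lit 0x6d9), (nat_lit 2)⟩))
(.nd (.lf ⟨(nat_lit 0x801801), (nat_lit 4), (nat_lit 0), (nat_lit 0)⟩)
(.lf ⟨(nat_lit 0x14349d4850d2752), (nat_lit 10), (nat_lit 0x49d4850d2752143), (nat_lit 10)⟩)))))
(.nd (.nd (.nd (.nd (.nd (.lf ⟨(nat_lit 133), (nat_lit 2), (nat_lit 0x6142), (nat_lit 3)⟩)
(.lf ⟨(nat_lit 0xc174c2c174c2c305d30b05d30b), (nat_lit 18), (nat_lit 0xc174c2c174c2c305d30b05d30b), (nat_lit 18)⟩))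
(.lf ⟨(nat_lit 732), (nat_lit 2), (nat_lit 0x71141140b), (nat_lit 6)⟩))
(.nd (.nd (.lf ⟨(nat_lit 0x6e2), (nat_lit 2), (nat_lit 0x89b), (nat_lit 2)⟩)
(.lf ⟨(nat_lit 286), (nat_lit 2), (nat_lit 0x784), (nat_lit 2)⟩))
(.lf ⟨(nat_lit 0x423), (nat_lit 2), (nat_lit 0x6e371b710), (nat_lit 6)⟩)))
(.nd (.nd (.nd (.lf ⟨(nat_lit 138), (nat_lit 2), (nat_lit 642), (nat_lit 2)⟩)
(.lf ⟨(nat_lit 0), (nat_lit 0), (nat_lit 0x5b41d41d6d005b41d41d6d0), (nat_lit 16)⟩))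
(.lf ⟨(nat_lit 660), (nat_lit 2), (nat_lit 0x50a), (nat_lit 2)⟩))
(.nd (.nd (.lf ⟨(nat_lit 274), (nat_lit 2), (nat_lit 0x2523102e47502e9749304), (nat_lit 14)⟩)
(.lf ⟨(nat_lit 0x7430e416474591d14390591d1647457430e416474591d14390591d164745), (nat_lit 40), (nat_lit 0x7430e416474591d14390591d1647457430e416474591d14390591d164745), (nat_lit 40)⟩))
(.lf ⟨(nat_lit 594), (nat_lit 2), (nat_lit 0x489), (nat_lit 2)⟩))))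
(.nd (.nd (.nd (.nd (.lf ⟨(nat_lit 0x79e), (nat_lit 2), (nat_lit 0), (nat_lit 0)⟩)
(.lf ⟨(nat_lit 0), (nat_lit 0), (nat_lit 0x801220048), (nat_lit 6)⟩))
(.lf ⟨(nat_lit 902), (nat_lit 2), (nat_lit 398), (nat_lit 2)⟩))
(.nd (.nd (.lf ⟨(nat_lit 157), (nat_lit 2), (nat_lit 0x742), (nat_lit 2)⟩)
(.lf ⟨(nat_lit 0), (nat_lit 0), (nat_lit 0x86082182), (nat_lit 6)⟩))
(.lf ⟨(nat_lit 665), (nat_lit 2), (nat_lit 0x6e16d940f91d40f74f2cf2ca), (nat_lit 16)⟩)))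
(.nd (.nd (.nd (.lf ⟨(nat_lit 82), (nat_lit 2), (nat_lit 0x481), (nat_lit 2)⟩)
(.lf ⟨(nat_lit 0x6e3), (nat_lit 2), (nat_lit 0x8db), (nat_lit 2)⟩))
(.lf ⟨(nat_lit 795), (nat_lit 2), (nat_lit 0x6cc), (nat_lit 2)⟩))
(.nd (.lf ⟨(nat_lit 593), (nat_lit 2), (nat_lit 0xa5d7288e475c449), (nat_lit 10)⟩)
(.lf ⟨(nat_lit 0x1428078101d00a01e04074050a01e04074028078101d0), (nat_lit 30), (nat_lit 0x1428078101d00a01e04074050a01e04074028078101d0), (nat_lit 30)⟩))))))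
(.nd (.nd (.nd (.nd (.nd (.nd (.lf ⟨(nat_lit 68), (nat_lit 2), (nat_lit 0x9101), (nat_lit 3)⟩)
(.lf ⟨(nat_lit 0x91d41d91d41d), (nat_lit 8), (nat_lit 0), (nat_lit 0)⟩))
(.lf ⟨(nat_lit 264), (nat_lit 2), (nat_lit 0x185933cd204), (nat_lit 7)⟩))
(.nd (.nd (.lf ⟨(nat_lit 0x419), (nat_lit 2), (nat_lit 0x650), (nat_lit 2)⟩)
(.lf ⟨(nat_lit 0x423), (nat_lit 2), (nat_lit 0x8d0), (nat_lit 2)⟩))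
(.lf ⟨(nat_lit 604), (nat_lit 2), (nat_lit 0x2371da23749), (nat_lit 7)⟩)))
(.nd (.nd (.nd (.lf ⟨(nat_lit 265), (nat_lit 2), (nat_lit 580), (nat_lit 2)⟩)
(.lf ⟨(nat_lit 0x164143), (nat_lit 4), (nat_lit 0x90591d15d0c5905), (nat_lit 10)⟩))
(.lf ⟨(nat_lit 279), (nat_lit 2), (nat_lit 0x1f6cb5cf6cb3c4), (nat_lit 9)⟩))
(.nd (.nd (.lf ⟨(nat_lit 528), (nat_lit 2), (nat_lit 0x20408), (nat_lit 3)⟩)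
(.lf ⟨(nat_lit 0x2cb1105902d640b2c441640b5902cb2c441640b5902cb1105902d640b), (nat_lit 38), (nat_lit 0x2cb1105902d640b2c441640b5902cb2c441640b5902cb1105902d640b), (nat_lit 38)⟩))
(.lf ⟨(nat_lit 0x8e48e4), (nat_lit 4), (nat_lit 0xa248e4a23), (nat_lit 6)⟩))))
(.nd (.nd (.nd (.nd (.lf ⟨(nat_lit 0x6db), (nat_lit 2), (nat_lit 0), (nat_lit 0)⟩)
(.lf ⟨(nat_lit 0x1a30a68a), (nat_lit 5), (nat_lit 0x68329a0ca), (nat_lit 6)⟩))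
(.lf ⟨(nat_lit 23), (nat_lit 1), (nat_lit 0xcf0cf), (nat_lit 4)⟩))
(.nd (.nd (.lf ⟨(nat_lit 667), (nat_lit 2), (nat_lit 0x276ca), (nat_lit 3)⟩)
(.lf ⟨(nat_lit 0x3dd3d0), (nat_lit 4), (nat_lit 0x40f41d40f), (nat_lit 6)⟩))
(.lf ⟨(nat_lit 932), (nat_lit 2), (nat_lit 0x90e), (nat_lit 2)⟩)))
(.nd (.nd (.nd (.lf ⟨(nat_lit 0x582582), (nat_lit 4), (nat_lit 0), (nat_lit 0)⟩)
(.lf ⟨(nat_lit 0xba23), (nat_lit 3), (nat_lit 0x2371d6d141d6dc4112e8), (nat_lit 13)⟩))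
(.lf ⟨(nat_lit 0x468), (nat_lit 2), (nat_lit 0x7637297297688d1), (nat_lit 10)⟩))
(.nd (.lf ⟨(nat_lit 0xb3dd), (nat_lit 3), (nat_lit 0xf74f2cf), (nat_lit 5)⟩)
(.lf ⟨(nat_lit 274), (nat_lit 2), (nat_lit 0x24752744), (nat_lit 5)⟩)))))
(.nd (.nd (.nd (.nd (.nd (.lf ⟨(nat_lit 0x451), (nat_lit 2), (nat_lit 0), (nat_lit 0)⟩)
(.lf ⟨(nat_lit 0xf690), (nat_lit 3), (nat_lit 0x1e6da41e6cf), (nat_lit 7)⟩))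
(.lf ⟨(nat_lit 276), (nat_lit 2), (nat_lit 0x504), (nat_lit 2)⟩))
(.nd (.nd (.lf ⟨(nat_lit 586), (nat_lit 2), (nat_lit 0x18289), (nat_lit 3)⟩)
(.lf ⟨(nat_lit 734), (nat_lit 2), (nat_lit 0x78b), (nat_lit 2)⟩))
(.lf ⟨(nat_lit 0x519), (nat_lit 2), (nat_lit 0x654), (nat_lit 2)⟩)))
(.nd (.nd (.nd (.lf ⟨(nat_lit 0x2c42c4), (nat_lit 4), (nat_lit 0), (nat_lit 0)⟩)
(.lf ⟨(nat_lit 0x20143803), (nat_lit 5), (nat_lit 0xe0043801), (nat_lit 6)⟩))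
(.lf ⟨(nat_lit 34), (nat_lit 1), (nat_lit 0), (nat_lit 0)⟩))
(.nd (.nd (.lf ⟨(nat_lit 0x420), (nat_lit 2), (nat_lit 0x810), (nat_lit 2)⟩)
(.lf ⟨(nat_lit 0x203a0ba0b0c80e82e82c3), (nat_lit 14), (nat_lit 0x203a0ba0b0c80e82e82c3), (nat_lit 14)⟩))
(.lf ⟨(nat_lit 0x2d72c50cb5cb143), (nat_lit 10), (nat_lit 0x1432d72c50cb5cb), (nat_lit 10)⟩))))
(.nd (.nd (.nd (.nd (.lf ⟨(nat_lit 0x8e3), (nat_lit 2), (nat_lit 0), (nat_lit 0)⟩)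
(.lf ⟨(nat_lit 0x816816816816), (nat_lit 8), (nat_lit 0), (nat_lit 0)⟩))
(.lf ⟨(nat_lit 0x507), (nat_lit 2), (nat_lit 468), (nat_lit 2)⟩))
(.nd (.nd (.lf ⟨(nat_lit 160), (nat_lit 2), (nat_lit 0x802), (nat_lit 2)⟩)
(.lf ⟨(nat_lit 0xe8103a04), (nat_lit 6), (nat_lit 0xe8103a04), (nat_lit 6)⟩))
(.lf ⟨(nat_lit 0x768), (nat_lit 2), (nat_lit 0x9239288dd), (nat_lit 6)⟩)))
(.nd (.nd (.nd (.lf ⟨(nat_lit 285), (nat_lit 2), (nat_lit 0x744), (nat_lit 2)⟩)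
(.lf ⟨(nat_lit 0x14a23), (nat_lit 3), (nat_lit 0x288d4), (nat_lit 3)⟩))
(.lf ⟨(nat_lit 286), (nat_lit 2), (nat_lit 0x6da51039e6cf69440f384), (nat_lit 14)⟩))
(.nd (.lf ⟨(nat_lit 8), (nat_lit 1), (nat_lit 0x42042), (nat_lit 4)⟩)
(.lf ⟨(nat_lit 0), (nat_lit 0), (nat_lit 0x1c11c1), (nat_lit 4)⟩)))))))
(.nd (.nd (.nd (.nd (.nd (.nd (.nd (.lf ⟨(nat_lit 66), (nat_lit 2), (nat_lit 0x8081), (nat_lit 3)⟩)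
(.lf ⟨(nat_lit 17), (nat_lit 1), (nat_lit 0x74b09d2c2), (nat_lit 6)⟩))
(.lf ⟨(nat_lit 979), (nat_lit 2), (nat_lit 0x4cf), (nat_lit 2)⟩))
(.nd (.nd (.lf ⟨(nat_lit 786), (nat_lit 2), (nat_lit 0x48c), (nat_lit 2)⟩)
(.lf ⟨(nat_lit 547), (nat_lit 2), (nat_lit 0x6d650f3a371b5943dc388), (nat_lit 14)⟩))
(.lf ⟨(nat_lit 0xa810), (nat_lit 3), (nat_lit 0x3e47503dd3cb3cb2a0), (nat_lit 12)⟩)))
(.nd (.nd (.nd (.lf ⟨(nat_lit 136), (nat_lit 2), (nat_lit 514), (nat_lit 2)⟩)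
(.lf ⟨(nat_lit 0x16414290591d15d0a41647457459050a416474574290591d15d), (nat_lit 34), (nat_lit 0x16414290591d15d0a41647457459050a416474574290591d15d), (nat_lit 34)⟩))
(.lf ⟨(nat_lit 137), (nat_lit 2), (nat_lit 0xe242), (nat_lit 3)⟩))
(.nd (.nd (.lf ⟨(nat_lit 527), (nat_lit 2), (nat_lit 968), (nat_lit 2)⟩)
(.lf ⟨(nat_lit 0x105902d640b), (nat_lit 7), (nat_lit 0x2d604b581), (nat_lit 6)⟩))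
(.lf ⟨(nat_lit 0x1975c), (nat_lit 3), (nat_lit 0x1c863721a24a2375c75991d), (nat_lit 15)⟩))))
(.nd (.nd (.nd (.nd (.lf ⟨(nat_lit 271), (nat_lit 2), (nat_lit 0x183c4), (nat_lit 3)⟩)
(.lf ⟨(nat_lit 0x74628674a), (nat_lit 6), (nat_lit 0x9d18419d102746106744), (nat_lit 14)⟩))
(.lf ⟨(nat_lit 0xe00e0), (nat_lit 4), (nat_lit 0x803803), (nat_lit 4)⟩))
(.nd (.nd (.lf ⟨(nat_lit 534), (nat_lit 2), (nat_lit 0x588), (nat_lit 2)⟩)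
(.lf ⟨(nat_lit 0x74a3c174a3c1), (nat_lit 8), (nat_lit 0x3c174a3c174a), (nat_lit 8)⟩))
(.lf ⟨(nat_lit 0x517), (nat_lit 2), (nat_lit 0x5d4), (nat_lit 2)⟩)))
(.nd (.nd (.nd (.lf ⟨(nat_lit 0x5286), (nat_lit 3), (nat_lit 0xa18a14a), (nat_lit 5)⟩)
(.lf ⟨(nat_lit 0xf91d3dd), (nat_lit 5), (nat_lit 0x1d3e474f), (nat_lit 5)⟩))
(.lf ⟨(nat_lit 0x464), (nat_lit 2), (nat_lit 0x72475c751), (nat_lit 6)⟩))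
(.nd (.lf ⟨(nat_lit 0x3c93c9), (nat_lit 4), (nat_lit 0), (nat_lit 0)⟩)
(.lf ⟨(nat_lit 0x75b75b), (nat_lit 4), (nat_lit 0), (nat_lit 0)⟩)))))
(.nd (.nd (.nd (.nd (.nd (.lf ⟨(nat_lit 975), (nat_lit 2), (nat_lit 0), (nat_lit 0)⟩)
(.lf ⟨(nat_lit 727), (nat_lit 2), (nat_lit 0x75774b), (nat_lit 4)⟩))
(.lf ⟨(nat_lit 0x51b), (nat_lit 2), (nat_lit 0x6d4), (nat_lit 2)⟩))
(.nd (.nd (.lf ⟨(nat_lit 0x8e8), (nat_lit 2), (nat_lit 0xa23), (nat_lit 2)⟩)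
(.lf ⟨(nat_lit 0x763), (nat_lit 2), (nat_lit 0x8dd), (nat_lit 2)⟩))
(.lf ⟨(nat_lit 739), (nat_lit 2), (nat_lit 0x8dc75b45075b71044b), (nat_lit 12)⟩)))
(.nd (.nd (.nd (.lf ⟨(nat_lit 325), (nat_lit 2), (nat_lit 0), (nat_lit 0)⟩)
(.lf ⟨(nat_lit 0x41d41d), (nat_lit 4), (nat_lit 0x750750), (nat_lit 4)⟩))
(.lf ⟨(nat_lit 987), (nat_lit 2), (nat_lit 0x6cf), (nat_lit 2)⟩))
(.nd (.nd (.lf ⟨(nat_lit 729), (nat_lit 2), (nat_lit 0x65141140b), (nat_lit 6)⟩)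
(.lf ⟨(nat_lit 356), (nat_lit 2), (nat_lit 0x905), (nat_lit 2)⟩))
(.lf ⟨(nat_lit 0x3dd3dd), (nat_lit 4), (nat_lit 0x74f74f), (nat_lit 4)⟩))))
(.nd (.nd (.nd (.nd (.lf ⟨(nat_lit 0x820), (nat_lit 2), (nat_lit 0), (nat_lit 0)⟩)
(.lf ⟨(nat_lit 0x816816), (nat_lit 4), (nat_lit 0x8015a0056), (nat_lit 6)⟩))
(.lf ⟨(nat_lit 13), (nat_lit 1), (nat_lit 14), (nat_lit 1)⟩))
(.nd (.nd (.lf ⟨(nat_lit 731), (nat_lit 2), (nat_lit 0x6cb), (nat_lit 2)⟩)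
(.lf ⟨(nat_lit 0x58409610658a10609610658a10658409610658a10609610658a106), (nat_lit 36), (nat_lit 0x58409610658a10609610658a10658409610658a10609610658a106), (nat_lit 36)⟩))
(.lf ⟨(nat_lit 0x71d71d), (nat_lit 4), (nat_lit 0x75c75c), (nat_lit 4)⟩)))
(.nd (.nd (.nd (.lf ⟨(nat_lit 150), (nat_lit 2), (nat_lit 0x582), (nat_lit 2)⟩)
(.lf ⟨(nat_lit 0x868), (nat_lit 2), (nat_lit 0xa21), (nat_lit 2)⟩))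
(.lf ⟨(nat_lit 804), (nat_lit 2), (nat_lit 0x4a475274c), (nat_lit 6)⟩))
(.nd (.lf ⟨(nat_lit 5), (nat_lit 1), (nat_lit 0x43043), (nat_lit 4)⟩)
(.lf ⟨(nat_lit 0x407407), (nat_lit 4), (nat_lit 0x8078078078101d0), (nat_lit 10)⟩))))))
(.nd (.nd (.nd (.nd (.nd (.nd (.lf ⟨(nat_lit 196), (nat_lit 2), (nat_lit 0xb103), (nat_lit 3)⟩)
(.lf ⟨(nat_lit 0x1d30b), (nat_lit 3), (nat_lit 0xca103284), (nat_lit 6)⟩))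
(.lf ⟨(nat_lit 0x448448), (nat_lit 4), (nat_lit 0x9c09c), (nat_lit 4)⟩))
(.nd (.nd (.lf ⟨(nat_lit 0x45d), (nat_lit 2), (nat_lit 0x751), (nat_lit 2)⟩)
(.lf ⟨(nat_lit 0x421), (nat_lit 2), (nat_lit 0x850), (nat_lit 2)⟩))
(.lf ⟨(nat_lit 484), (nat_lit 2), (nat_lit 0x907), (nat_lit 2)⟩)))
(.nd (.nd (.nd (.lf ⟨(nat_lit 590), (nat_lit 2), (nat_lit 905), (nat_lit 2)⟩)
(.lf ⟨(nat_lit 0), (nat_lit 0), (nat_lit 0x64041901), (nat_lit 6)⟩))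
(.lf ⟨(nat_lit 0x59b), (nat_lit 2), (nat_lit 0x6d6), (nat_lit 2)⟩))
(.nd (.nd (.lf ⟨(nat_lit 657), (nat_lit 2), (nat_lit 0x44a), (nat_lit 2)⟩)
(.lf ⟨(nat_lit 0), (nat_lit 0), (nat_lit 0x7430dd0c3), (nat_lit 6)⟩))
(.lf ⟨(nat_lit 0x763), (nat_lit 2), (nat_lit 0x92391d), (nat_lit 4)⟩))))
(.nd (.nd (.nd (.nd (.lf ⟨(nat_lit 0x75d), (nat_lit 2), (nat_lit 0), (nat_lit 0)⟩)
(.lf ⟨(nat_lit 0x5a5cf68f05a5cf68f), (nat_lit 12), (nat_lit 0x5a5cf68f05a5cf68f), (nat_lit 12)⟩))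
(.lf ⟨(nat_lit 404), (nat_lit 2), (nat_lit 0x506), (nat_lit 2)⟩))
(.nd (.nd (.lf ⟨(nat_lit 152), (nat_lit 2), (nat_lit 0x602), (nat_lit 2)⟩)
(.lf ⟨(nat_lit 665), (nat_lit 2), (nat_lit 0x8599103dd40f74f2cf2ca), (nat_lit 14)⟩))
(.lf ⟨(nat_lit 161), (nat_lit 2), (nat_lit 0x859299282), (nat_lit 6)⟩)))
(.nd (.nd (.nd (.lf ⟨(nat_lit 79), (nat_lit 2), (nat_lit 961), (nat_lit 2)⟩)
(.lf ⟨(nat_lit 0x6dc), (nat_lit 2), (nat_lit 0x71b), (nat_lit 2)⟩))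
(.lf ⟨(nat_lit 41), (nat_lit 1), (nat_lit 0), (nat_lit 0)⟩))
(.nd (.lf ⟨(nat_lit 164), (nat_lit 2), (nat_lit 0x74891d202), (nat_lit 6)⟩)
(.lf ⟨(nat_lit 0x201c6806), (nat_lit 5), (nat_lit 0x8011a0046), (nat_lit 6)⟩)))))
(.nd (.nd (.nd (.nd (.nd (.lf ⟨(nat_lit 0x514), (nat_lit 2), (nat_lit 0), (nat_lit 0)⟩)
(.lf ⟨(nat_lit 279), (nat_lit 2), (nat_lit 0x75774f2cf2c4), (nat_lit 8)⟩))
(.lf ⟨(nat_lit 724), (nat_lit 2), (nat_lit 0x50b), (nat_lit 2)⟩))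
(.nd (.nd (.lf ⟨(nat_lit 0x930a), (nat_lit 3), (nat_lit 0x60a24c), (nat_lit 4)⟩)
(.lf ⟨(nat_lit 931), (nat_lit 2), (nat_lit 0x58fa163e88ce), (nat_lit 8)⟩))
(.lf ⟨(nat_lit 796), (nat_lit 2), (nat_lit 0x49c45244c), (nat_lit 6)⟩)))
(.nd (.nd (.nd (.lf ⟨(nat_lit 0x106106), (nat_lit 4), (nat_lit 0x184184), (nat_lit 4)⟩)
(.lf ⟨(nat_lit 0x28380f2a028380f2a028a0e03ca80a0e03ca80a), (nat_lit 26), (nat_lit 0x28380f2a028380f2a028a0e03ca80a0e03ca80a), (nat_lit 26)⟩))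
(.lf ⟨(nat_lit 791), (nat_lit 2), (nat_lit 0x5cc), (nat_lit 2)⟩))
(.nd (.nd (.lf ⟨(nat_lit 521), (nat_lit 2), (nat_lit 0x13248), (nat_lit 3)⟩)
(.lf ⟨(nat_lit 0x103a036d650f383a036d650f3840e80db5943ce0e80db5943ce), (nat_lit 34), (nat_lit 0x103a036d650f383a036d650f3840e80db5943ce0e80db5943ce), (nat_lit 34)⟩))
(.lf ⟨(nat_lit 0x481711481711), (nat_lit 8), (nat_lit 0x711481711481), (nat_lit 8)⟩))))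
(.nd (.nd (.nd (.nd (.lf ⟨(nat_lit 0xa28), (nat_lit 2), (nat_lit 0), (nat_lit 0)⟩)
(.lf ⟨(nat_lit 0x203ca816288816816), (nat_lit 11), (nat_lit 0x205a05a03ca816288), (nat_lit 11)⟩))
(.lf ⟨(nat_lit 583), (nat_lit 2), (nat_lit 457), (nat_lit 2)⟩))
(.nd (.nd (.lf ⟨(nat_lit 296), (nat_lit 2), (nat_lit 0xa04), (nat_lit 2)⟩)
(.lf ⟨(nat_lit 0x286d63e858f), (nat_lit 7), (nat_lit 0xa043a810e), (nat_lit 6)⟩))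
(.lf ⟨(nat_lit 286), (nat_lit 2), (nat_lit 0x6da51079b3da5103c4), (nat_lit 12)⟩)))
(.nd (.nd (.nd (.lf ⟨(nat_lit 0x2c72c7), (nat_lit 4), (nat_lit 0x1cb1cb), (nat_lit 4)⟩)
(.lf ⟨(nat_lit 0x8e4), (nat_lit 2), (nat_lit 0x923), (nat_lit 2)⟩))
(.lf ⟨(nat_lit 288), (nat_lit 2), (nat_lit 0x6d650f3a06d05943d0384), (nat_lit 14)⟩))
(.nd (.lf ⟨(nat_lit 0x69b), (nat_lit 2), (nat_lit 0x6da), (nat_lit 2)⟩)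
(.lf ⟨(nat_lit 0xb1d0), (nat_lit 3), (nat_lit 0x74072c7), (nat_lit 5)⟩))))))))
(.nd (.nd (.nd (.nd (.nd (.nd (.nd (.nd (.lf ⟨(nat_lit 260), (nat_lit 2), (nat_lit 0), (nat_lit 0)⟩)
(.lf ⟨(nat_lit 0), (nat_lit 0), (nat_lit 0x2c72c72cb1cb1cb), (nat_lit 10)⟩))
(.lf ⟨(nat_lit 22), (nat_lit 1), (nat_lit 0x8f08f), (nat_lit 4)⟩))
(.nd (.nd (.lf ⟨(nat_lit 720), (nat_lit 2), (nat_lit 0x40b), (nat_lit 2)⟩)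
(.lf ⟨(nat_lit 0x5757), (nat_lit 3), (nat_lit 0x1a75775a15d), (nat_lit 7)⟩))
(.lf ⟨(nat_lit 737), (nat_lit 2), (nat_lit 0x85975b45075b65044b), (nat_lit 12)⟩)))
(.nd (.nd (.nd (.lf ⟨(nat_lit 195), (nat_lit 2), (nat_lit 0), (nat_lit 0)⟩)
(.lf ⟨(nat_lit 0), (nat_lit 0), (nat_lit 0x164147164147), (nat_lit 8)⟩))
(.lf ⟨(nat_lit 13), (nat_lit 1), (nat_lit 14), (nat_lit 1)⟩))
(.nd (.nd (.lf ⟨(nat_lit 517), (nat_lit 2), (nat_lit 0x7148), (nat_lit 3)⟩)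
(.lf ⟨(nat_lit 0), (nat_lit 0), (nat_lit 0x2c42cb10b), (nat_lit 6)⟩))
(.lf ⟨(nat_lit 604), (nat_lit 2), (nat_lit 0x2892391c763749), (nat_lit 9)⟩))))
(.nd (.nd (.nd (.nd (.lf ⟨(nat_lit 207), (nat_lit 2), (nat_lit 0x173c3), (nat_lit 3)⟩)
(.lf ⟨(nat_lit 0x11d14a15d28474528574a), (nat_lit 14), (nat_lit 0x11d14a15d28474528574a), (nat_lit 14)⟩))
(.lf ⟨(nat_lit 221), (nat_lit 2), (nat_lit 0x743), (nat_lit 2)⟩))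
(.nd (.nd (.lf ⟨(nat_lit 518), (nat_lit 2), (nat_lit 392), (nat_lit 2)⟩)
(.lf ⟨(nat_lit 0xb5902d6), (nat_lit 5), (nat_lit 0x105902d640b), (nat_lit 7)⟩))
(.lf ⟨(nat_lit 782), (nat_lit 2), (nat_lit 908), (nat_lit 2)⟩)))
(.nd (.nd (.nd (.lf ⟨(nat_lit 0x418a), (nat_lit 3), (nat_lit 0x6286106), (nat_lit 5)⟩)
(.lf ⟨(nat_lit 0xf7113d1), (nat_lit 5), (nat_lit 0x113dc44f), (nat_lit 5)⟩))
(.lf ⟨(nat_lit 0x463), (nat_lit 2), (nat_lit 0x76371d711), (nat_lit 6)⟩))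
(.nd (.lf ⟨(nat_lit 0x1c81c8), (nat_lit 4), (nat_lit 0), (nat_lit 0)⟩)
(.lf ⟨(nat_lit 0x1c83c91c83c9), (nat_lit 8), (nat_lit 0x3c91c83c91c8), (nat_lit 8)⟩)))))
(.nd (.nd (.nd (.nd (.nd (.lf ⟨(nat_lit 910), (nat_lit 2), (nat_lit 0), (nat_lit 0)⟩)
(.lf ⟨(nat_lit 0x2845ce2845ce), (nat_lit 8), (nat_lit 0x2845ce2845ce), (nat_lit 8)⟩))
(.lf ⟨(nat_lit 20), (nat_lit 1), (nat_lit 0x4e04e), (nat_lit 4)⟩))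
(.nd (.nd (.lf ⟨(nat_lit 0x764), (nat_lit 2), (nat_lit 0x91d), (nat_lit 2)⟩)
(.lf ⟨(nat_lit 0xa1ce), (nat_lit 3), (nat_lit 0x6cc2e892375c75c6ce30b287), (nat_lit 16)⟩))
(.lf ⟨(nat_lit 0x461), (nat_lit 2), (nat_lit 0x76165d651), (nat_lit 6)⟩)))
(.nd (.nd (.nd (.lf ⟨(nat_lit 650), (nat_lit 2), (nat_lit 0), (nat_lit 0)⟩)
(.lf ⟨(nat_lit 0), (nat_lit 0), (nat_lit 0x6cb6cb), (nat_lit 4)⟩))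
(.lf ⟨(nat_lit 918), (nat_lit 2), (nat_lit 0x58e), (nat_lit 2)⟩))
(.nd (.nd (.lf ⟨(nat_lit 219), (nat_lit 2), (nat_lit 0x6c3), (nat_lit 2)⟩)
(.lf ⟨(nat_lit 0x91d16415d), (nat_lit 6), (nat_lit 0x5d15d141745745), (nat_lit 10)⟩))
(.lf ⟨(nat_lit 0x74a74a), (nat_lit 4), (nat_lit 0), (nat_lit 0)⟩))))
(.nd (.nd (.nd (.nd (.lf ⟨(nat_lit 0x7df), (nat_lit 2), (nat_lit 0), (nat_lit 0)⟩)
(.lf ⟨(nat_lit 22), (nat_lit 1), (nat_lit 0x20a088282), (nat_lit 6)⟩))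
(.lf ⟨(nat_lit 526), (nat_lit 2), (nat_lit 904), (nat_lit 2)⟩))
(.nd (.nd (.lf ⟨(nat_lit 662), (nat_lit 2), (nat_lit 0x58a), (nat_lit 2)⟩)
(.lf ⟨(nat_lit 0), (nat_lit 0), (nat_lit 0x584584), (nat_lit 4)⟩))
(.lf ⟨(nat_lit 663), (nat_lit 2), (nat_lit 0x5cf30f30a), (nat_lit 6)⟩)))
(.nd (.nd (.nd (.lf ⟨(nat_lit 84), (nat_lit 2), (nat_lit 0x501), (nat_lit 2)⟩)
(.lf ⟨(nat_lit 924), (nat_lit 2), (nat_lit 0x51c50e), (nat_lit 4)⟩))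
(.lf ⟨(nat_lit 740), (nat_lit 2), (nat_lit 0x42475074b), (nat_lit 6)⟩))
(.nd (.lf ⟨(nat_lit 6), (nat_lit 1), (nat_lit 0x85085), (nat_lit 4)⟩)
(.lf ⟨(nat_lit 0x101e0), (nat_lit 3), (nat_lit 0x201e01e0407), (nat_lit 7)⟩))))))
(.nd (.nd (.nd (.nd (.nd (.nd (.lf ⟨(nat_lit 132), (nat_lit 2), (nat_lit 0xa102), (nat_lit 3)⟩)
(.lf ⟨(nat_lit 0x2475075c), (nat_lit 5), (nat_lit 0x1c91d41d), (nat_lit 5)⟩))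
(.lf ⟨(nat_lit 278), (nat_lit 2), (nat_lit 0x584), (nat_lit 2)⟩))
(.nd (.nd (.lf ⟨(nat_lit 0x41b), (nat_lit 2), (nat_lit 0x6d0), (nat_lit 2)⟩)
(.lf ⟨(nat_lit 665), (nat_lit 2), (nat_lit 0x85940f91d40f74f2cf2ca), (nat_lit 14)⟩))
(.lf ⟨(nat_lit 0x1da23), (nat_lit 3), (nat_lit 0x288dd), (nat_lit 3)⟩)))
(.nd (.nd (.nd (.lf ⟨(nat_lit 72), (nat_lit 2), (nat_lit 513), (nat_lit 2)⟩)
(.lf ⟨(nat_lit 228), (nat_lit 2), (nat_lit 0x91d164745903), (nat_lit 8)⟩))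
(.lf ⟨(nat_lit 39), (nat_lit 1), (nat_lit 0), (nat_lit 0)⟩))
(.nd (.nd (.lf ⟨(nat_lit 592), (nat_lit 2), (nat_lit 0x409), (nat_lit 2)⟩)
(.lf ⟨(nat_lit 0x41640b5902d05902d640b), (nat_lit 14), (nat_lit 0), (nat_lit 0)⟩))
(.lf ⟨(nat_lit 161), (nat_lit 2), (nat_lit 0x85b85b40f91d40f74f2cf2c2), (nat_lit 16)⟩))))
(.nd (.nd (.nd (.nd (.lf ⟨(nat_lit 0x71c), (nat_lit 2), (nat_lit 0), (nat_lit 0)⟩)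
(.lf ⟨(nat_lit 0x1a5cf68f), (nat_lit 5), (nat_lit 0x6833da0cf), (nat_lit 6)⟩))
(.lf ⟨(nat_lit 0x507), (nat_lit 2), (nat_lit 468), (nat_lit 2)⟩))
(.nd (.nd (.lf ⟨(nat_lit 733), (nat_lit 2), (nat_lit 0x74b), (nat_lit 2)⟩)
(.lf ⟨(nat_lit 0xb3d9450), (nat_lit 5), (nat_lit 0x2440f41d40f74f66440f7503dd3cb3d1), (nat_lit 21)⟩))
(.lf ⟨(nat_lit 155), (nat_lit 2), (nat_lit 0x6c2), (nat_lit 2)⟩)))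
(.nd (.nd (.nd (.lf ⟨(nat_lit 0xb3d0), (nat_lit 3), (nat_lit 0xf40f2cf), (nat_lit 5)⟩)
(.lf ⟨(nat_lit 552), (nat_lit 2), (nat_lit 0x71b5943ce8dc5288dc6d63ce708), (nat_lit 18)⟩))
(.lf ⟨(nat_lit 588), (nat_lit 2), (nat_lit 0x38c389), (nat_lit 4)⟩))
(.nd (.lf ⟨(nat_lit 0xa04a04), (nat_lit 4), (nat_lit 0), (nat_lit 0)⟩)
(.lf ⟨(nat_lit 8), (nat_lit 1), (nat_lit 0xa0042801), (nat_lit 6)⟩)))))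
(.nd (.nd (.nd (.nd (.nd (.lf ⟨(nat_lit 0x492), (nat_lit 2), (nat_lit 0), (nat_lit 0)⟩)
(.lf ⟨(nat_lit 0x5dd5dd), (nat_lit 4), (nat_lit 0x757757), (nat_lit 4)⟩))
(.lf ⟨(nat_lit 261), (nat_lit 2), (nat_lit 0x1b69440e144), (nat_lit 7)⟩))
(.nd (.nd (.lf ⟨(nat_lit 651), (nat_lit 2), (nat_lit 0x1d2ca), (nat_lit 3)⟩)
(.lf ⟨(nat_lit 0xba23), (nat_lit 3), (nat_lit 0x2375b45075b4112e8), (nat_lit 11)⟩))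
(.lf ⟨(nat_lit 0x454), (nat_lit 2), (nat_lit 0x511), (nat_lit 2)⟩)))
(.nd (.nd (.nd (.lf ⟨(nat_lit 0x143143), (nat_lit 4), (nat_lit 0), (nat_lit 0)⟩)
(.lf ⟨(nat_lit 0xe03ca80a0e03ca80a), (nat_lit 12), (nat_lit 0xe03ca80a0e03ca80a), (nat_lit 12)⟩))
(.lf ⟨(nat_lit 0x6c7), (nat_lit 2), (nat_lit 475), (nat_lit 2)⟩))
(.nd (.nd (.lf ⟨(nat_lit 670), (nat_lit 2), (nat_lit 0x78a), (nat_lit 2)⟩)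
(.lf ⟨(nat_lit 0xe80c80e82e82c3203a0ba0b0c3a03203a0ba0b0c80e82e82c3), (nat_lit 34), (nat_lit 0xe80c80e82e82c3203a0ba0b0c3a03203a0ba0b0c80e82e82c3), (nat_lit 34)⟩))
(.lf ⟨(nat_lit 0x2d608b582), (nat_lit 6), (nat_lit 0x5822d608b), (nat_lit 6)⟩))))
(.nd (.nd (.nd (.nd (.lf ⟨(nat_lit 0x924), (nat_lit 2), (nat_lit 0), (nat_lit 0)⟩)
(.lf ⟨(nat_lit 0x200603ca816288), (nat_lit 9), (nat_lit 0x203ca816288801), (nat_lit 9)⟩))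
(.lf ⟨(nat_lit 404), (nat_lit 2), (nat_lit 0x506), (nat_lit 2)⟩))
(.nd (.nd (.lf ⟨(nat_lit 291), (nat_lit 2), (nat_lit 0x8c4), (nat_lit 2)⟩)
(.lf ⟨(nat_lit 0x43a040e81010e8103a04), (nat_lit 14), (nat_lit 0x43a040e81010e8103a04), (nat_lit 14)⟩))
(.lf ⟨(nat_lit 588), (nat_lit 2), (nat_lit 777), (nat_lit 2)⟩)))
(.nd (.nd (.nd (.lf ⟨(nat_lit 916), (nat_lit 2), (nat_lit 0x50e), (nat_lit 2)⟩)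
(.lf ⟨(nat_lit 609), (nat_lit 2), (nat_lit 0x849), (nat_lit 2)⟩))
(.lf ⟨(nat_lit 599), (nat_lit 2), (nat_lit 0x397389), (nat_lit 4)⟩))
(.nd (.lf ⟨(nat_lit 0x747), (nat_lit 2), (nat_lit 477), (nat_lit 2)⟩)
(.lf ⟨(nat_lit 0x1e01e01e01e0), (nat_lit 8), (nat_lit 0x474074011d01d0), (nat_lit 10)⟩)))))))
(.nd (.nd (.nd (.nd (.nd (.nd (.nd (.lf ⟨(nat_lit 67), (nat_lit 2), (nat_lit 0x50c1), (nat_lit 3)⟩)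
(.lf ⟨(nat_lit 0x5d2c874b20174b21d2c8), (nat_lit 14), (nat_lit 0x5d2c874b20174b21d2c8), (nat_lit 14)⟩))
(.lf ⟨(nat_lit 847), (nat_lit 2), (nat_lit 973), (nat_lit 2)⟩))
(.nd (.nd (.lf ⟨(nat_lit 983), (nat_lit 2), (nat_lit 0x5cf), (nat_lit 2)⟩)
(.lf ⟨(nat_lit 668), (nat_lit 2), (nat_lit 0x44f7113ca), (nat_lit 6)⟩))
(.lf ⟨(nat_lit 798), (nat_lit 2), (nat_lit 0x78c), (nat_lit 2)⟩)))
(.nd (.nd (.nd (.lf ⟨(nat_lit 135), (nat_lit 2), (nat_lit 450), (nat_lit 2)⟩)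
(.lf ⟨(nat_lit 0x90591d15d90591d15d), (nat_lit 12), (nat_lit 0), (nat_lit 0)⟩))
(.lf ⟨(nat_lit 654), (nat_lit 2), (nat_lit 906), (nat_lit 2)⟩))
(.nd (.nd (.lf ⟨(nat_lit 591), (nat_lit 2), (nat_lit 969), (nat_lit 2)⟩)
(.lf ⟨(nat_lit 0x2c441640b5902cb1105902d640b), (nat_lit 18), (nat_lit 0x2c441640b5902cb1105902d640b), (nat_lit 18)⟩))
(.lf ⟨(nat_lit 0x185106144), (nat_lit 6), (nat_lit 0x106144185), (nat_lit 6)⟩))))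
(.nd (.nd (.nd (.nd (.lf ⟨(nat_lit 144), (nat_lit 2), (nat_lit 0x19402), (nat_lit 3)⟩)
(.lf ⟨(nat_lit 0x528574a), (nat_lit 5), (nat_lit 0x1b69440e28529a51015d6ce), (nat_lit 15)⟩))
(.lf ⟨(nat_lit 7), (nat_lit 1), (nat_lit 0x46046), (nat_lit 4)⟩))
(.nd (.nd (.lf ⟨(nat_lit 343), (nat_lit 2), (nat_lit 0x5c5), (nat_lit 2)⟩)
(.lf ⟨(nat_lit 656), (nat_lit 2), (nat_lit 0x243dd40f74f2cf2ca), (nat_lit 11)⟩))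
(.lf ⟨(nat_lit 919), (nat_lit 2), (nat_lit 0x5ce), (nat_lit 2)⟩)))
(.nd (.nd (.nd (.lf ⟨(nat_lit 0x481481), (nat_lit 4), (nat_lit 0), (nat_lit 0)⟩)
(.lf ⟨(nat_lit 0xa819), (nat_lit 3), (nat_lit 0x1b85b6503e47503dd3cb3cb2a0), (nat_lit 17)⟩))
(.lf ⟨(nat_lit 0x1c76371d), (nat_lit 5), (nat_lit 0x1d8dc75c), (nat_lit 5)⟩))
(.nd (.lf ⟨(nat_lit 612), (nat_lit 2), (nat_lit 0x909), (nat_lit 2)⟩)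
(.lf ⟨(nat_lit 0x6e4), (nat_lit 2), (nat_lit 0x91b), (nat_lit 2)⟩)))))
(.nd (.nd (.nd (.nd (.nd (.lf ⟨(nat_lit 0x410), (nat_lit 2), (nat_lit 0), (nat_lit 0)⟩)
(.lf ⟨(nat_lit 734), (nat_lit 2), (nat_lit 0x75e74b), (nat_lit 4)⟩))
(.lf ⟨(nat_lit 0x65c), (nat_lit 2), (nat_lit 0x719), (nat_lit 2)⟩))
(.nd (.nd (.lf ⟨(nat_lit 0x929), (nat_lit 2), (nat_lit 0xa64), (nat_lit 2)⟩)
(.lf ⟨(nat_lit 593), (nat_lit 2), (nat_lit 0x2892375c75c449), (nat_lit 9)⟩))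
(.lf ⟨(nat_lit 0x663), (nat_lit 2), (nat_lit 0x863721719), (nat_lit 6)⟩)))
(.nd (.nd (.nd (.lf ⟨(nat_lit 0x282282), (nat_lit 4), (nat_lit 0), (nat_lit 0)⟩)
(.lf ⟨(nat_lit 0x2048c80c), (nat_lit 5), (nat_lit 0x80132004c), (nat_lit 6)⟩))
(.lf ⟨(nat_lit 0x30f30f), (nat_lit 4), (nat_lit 0x3cc3cc), (nat_lit 4)⟩))
(.nd (.nd (.lf ⟨(nat_lit 663), (nat_lit 2), (nat_lit 0x5cc3cc3ca), (nat_lit 6)⟩)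
(.lf ⟨(nat_lit 0xe81c6a07183), (nat_lit 8), (nat_lit 0xe80c80e80c8), (nat_lit 8)⟩))
(.lf ⟨(nat_lit 0x3805), (nat_lit 3), (nat_lit 0x201e04074050e0), (nat_lit 9)⟩))))
(.nd (.nd (.nd (.nd (.lf ⟨(nat_lit 281), (nat_lit 2), (nat_lit 0x21644), (nat_lit 3)⟩)
(.lf ⟨(nat_lit 0x816816816816), (nat_lit 8), (nat_lit 0x2205a0588816816), (nat_lit 10)⟩))
(.lf ⟨(nat_lit 0x282141282141), (nat_lit 8), (nat_lit 0x141282141282), (nat_lit 8)⟩))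
(.nd (.nd (.lf ⟨(nat_lit 96), (nat_lit 2), (nat_lit 0x801), (nat_lit 2)⟩)
(.lf ⟨(nat_lit 0x609610658a106), (nat_lit 9), (nat_lit 0x1610658a106182), (nat_lit 9)⟩))
(.lf ⟨(nat_lit 0x724), (nat_lit 2), (nat_lit 0xa239288dc), (nat_lit 6)⟩)))
(.nd (.nd (.nd (.lf ⟨(nat_lit 218), (nat_lit 2), (nat_lit 0x683), (nat_lit 2)⟩)
(.lf ⟨(nat_lit 0x521), (nat_lit 2), (nat_lit 0x854), (nat_lit 2)⟩))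
(.lf ⟨(nat_lit 616), (nat_lit 2), (nat_lit 0xa09), (nat_lit 2)⟩))
(.nd (.lf ⟨(nat_lit 16), (nat_lit 1), (nat_lit 0x2c12c1), (nat_lit 4)⟩)
(.lf ⟨(nat_lit 0), (nat_lit 0), (nat_lit 0x1c1047041), (nat_lit 6)⟩))))))
(.nd (.nd (.nd (.nd (.nd (.nd (.lf ⟨(nat_lit 202), (nat_lit 2), (nat_lit 0xc283), (nat_lit 3)⟩)
(.lf ⟨(nat_lit 0x5d30b05d30b), (nat_lit 8), (nat_lit 0x5d30b05d30b), (nat_lit 8)⟩))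
(.lf ⟨(nat_lit 0x41c), (nat_lit 2), (nat_lit 0x710), (nat_lit 2)⟩))
(.nd (.nd (.lf ⟨(nat_lit 0x660), (nat_lit 2), (nat_lit 0x819), (nat_lit 2)⟩)
(.lf ⟨(nat_lit 0x464), (nat_lit 2), (nat_lit 0x91d71d711), (nat_lit 6)⟩))
(.lf ⟨(nat_lit 928), (nat_lit 2), (nat_lit 0x80e), (nat_lit 2)⟩)))
(.nd (.nd (.nd (.lf ⟨(nat_lit 73), (nat_lit 2), (nat_lit 577), (nat_lit 2)⟩)
(.lf ⟨(nat_lit 0x1b41d41d6d0), (nat_lit 7), (nat_lit 0x9016cb9016cb), (nat_lit 8)⟩))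
(.lf ⟨(nat_lit 0x516), (nat_lit 2), (nat_lit 0x594), (nat_lit 2)⟩))
(.nd (.nd (.lf ⟨(nat_lit 603), (nat_lit 2), (nat_lit 0x6c9), (nat_lit 2)⟩)
(.lf ⟨(nat_lit 0xe416474591d14390591d164745), (nat_lit 18), (nat_lit 0xe416474591d14390591d164745), (nat_lit 18)⟩))
(.lf ⟨(nat_lit 0x1291d49d), (nat_lit 5), (nat_lit 0x1d4a4752), (nat_lit 5)⟩))))
(.nd (.nd (.nd (.nd (.lf ⟨(nat_lit 455), (nat_lit 2), (nat_lit 0), (nat_lit 0)⟩)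
(.lf ⟨(nat_lit 0x15a5cf68f), (nat_lit 6), (nat_lit 0x6973da3c5), (nat_lit 6)⟩))
(.lf ⟨(nat_lit 583), (nat_lit 2), (nat_lit 457), (nat_lit 2)⟩))
(.nd (.nd (.lf ⟨(nat_lit 90), (nat_lit 2), (nat_lit 0x681), (nat_lit 2)⟩)
(.lf ⟨(nat_lit 0xa819), (nat_lit 3), (nat_lit 0x2166440f7503dd3cb3cb2a0), (nat_lit 15)⟩))
(.lf ⟨(nat_lit 667), (nat_lit 2), (nat_lit 0x6ca), (nat_lit 2)⟩)))
(.nd (.nd (.nd (.lf ⟨(nat_lit 134), (nat_lit 2), (nat_lit 386), (nat_lit 2)⟩)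
(.lf ⟨(nat_lit 0x1973c7), (nat_lit 4), (nat_lit 0x78f1cf19e5cf), (nat_lit 8)⟩))
(.lf ⟨(nat_lit 547), (nat_lit 2), (nat_lit 0x6d650f3a371b5943ce708), (nat_lit 14)⟩))
(.nd (.lf ⟨(nat_lit 0x769), (nat_lit 2), (nat_lit 0xa5d), (nat_lit 2)⟩)
(.lf ⟨(nat_lit 0xa01c68060a01c6806), (nat_lit 12), (nat_lit 0xa01c68060a01c6806), (nat_lit 12)⟩)))))
(.nd (.nd (.nd (.nd (.nd (.lf ⟨(nat_lit 142), (nat_lit 2), (nat_lit 0x15382), (nat_lit 3)⟩)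
(.lf ⟨(nat_lit 0x1d69441d6ce), (nat_lit 7), (nat_lit 0x11d15d11d15d), (nat_lit 8)⟩))
(.lf ⟨(nat_lit 159), (nat_lit 2), (nat_lit 0x7c7607602), (nat_lit 6)⟩))
(.nd (.nd (.lf ⟨(nat_lit 331), (nat_lit 2), (nat_lit 0x1a2c5), (nat_lit 3)⟩)
(.lf ⟨(nat_lit 0x10757), (nat_lit 3), (nat_lit 0x1e91e75791d41d), (nat_lit 9)⟩))
(.lf ⟨(nat_lit 0xa1d4), (nat_lit 3), (nat_lit 0xc50c287), (nat_lit 5)⟩)))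
(.nd (.nd (.nd (.lf ⟨(nat_lit 0x75d), (nat_lit 2), (nat_lit 0), (nat_lit 0)⟩)
(.lf ⟨(nat_lit 0x5a0), (nat_lit 2), (nat_lit 0x816), (nat_lit 2)⟩))
(.lf ⟨(nat_lit 0x6de), (nat_lit 2), (nat_lit 0x79b), (nat_lit 2)⟩))
(.nd (.nd (.lf ⟨(nat_lit 212), (nat_lit 2), (nat_lit 0x503), (nat_lit 2)⟩)
(.lf ⟨(nat_lit 0x2e82e8), (nat_lit 4), (nat_lit 0xa0ba0b), (nat_lit 4)⟩))
(.lf ⟨(nat_lit 0xe80c3a03), (nat_lit 6), (nat_lit 0), (nat_lit 0)⟩))))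
(.nd (.nd (.nd (.nd (.lf ⟨(nat_lit 0xa69), (nat_lit 2), (nat_lit 0), (nat_lit 0)⟩)
(.lf ⟨(nat_lit 0x1b5943ce), (nat_lit 5), (nat_lit 0x204204), (nat_lit 4)⟩))
(.lf ⟨(nat_lit 398), (nat_lit 2), (nat_lit 902), (nat_lit 2)⟩))
(.nd (.nd (.lf ⟨(nat_lit 210), (nat_lit 2), (nat_lit 0x48c14c143), (nat_lit 6)⟩)
(.lf ⟨(nat_lit 0x528), (nat_lit 2), (nat_lit 0xa14), (nat_lit 2)⟩))
(.lf ⟨(nat_lit 606), (nat_lit 2), (nat_lit 0x789), (nat_lit 2)⟩)))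
(.nd (.nd (.nd (.lf ⟨(nat_lit 716), (nat_lit 2), (nat_lit 779), (nat_lit 2)⟩)
(.lf ⟨(nat_lit 0x75e), (nat_lit 2), (nat_lit 0x79d), (nat_lit 2)⟩))
(.lf ⟨(nat_lit 601), (nat_lit 2), (nat_lit 0x399389), (nat_lit 4)⟩))
(.nd (.lf ⟨(nat_lit 922), (nat_lit 2), (nat_lit 0x68e), (nat_lit 2)⟩)
(.lf ⟨(nat_lit 0x1e01e0), (nat_lit 4), (nat_lit 0x807807), (nat_lit 4)⟩))))))))))

/-- Substitution. -/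
def s3 : List (ℕ × ℕ) := [((nat_lit 1), (nat_lit 1)), ((nat_lit 2), (nat_lit 1)), ((nat_lit 3), (nat_lit 1)), ((nat_lit 10), (nat_lit 1)), ((nat_lit 8), (nat_lit 1)), ((nat_lit 5), (nat_lit 1)), ((nat_lit 15), (nat_lit 1)), ((nat_lit 12), (nat_lit 1)), ((nat_lit 6), (nat_lit 1)), ((nat_lit 22), (nat_lit 1)), ((nat_lit 23), (nat_lit 1)), ((nat_lit 18), (nat_lit 1)), ((nat_lit 7), (nat_lit 1))]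

/-- Context. -/
noncomputable def x3 : ℕ → ℕ × ℕ :=
  mkc d0 1218 s0 x0 (nth [] (Cl.alts H1.cl) 2)

set_option maxRecDepth 100000 in
/-- Facts. -/
noncomputable def d4 : Tr :=
(.nd (.nd (.nd (.nd (.nd (.lf ⟨(nat_lit 130), (nat_lit 2), (nat_lit 0), (nat_lit 0)⟩)
(.lf ⟨(nat_lit 0x45d), (nat_lit 2), (nat_lit 0x751), (nat_lit 2)⟩))
(.nd (.lf ⟨(nat_lit 0x451), (nat_lit 2), (nat_lit 0), (nat_lit 0)⟩)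
(.lf ⟨(nat_lit 209), (nat_lit 2), (nat_lit 0x443), (nat_lit 2)⟩)))
(.nd (.nd (.lf ⟨(nat_lit 132), (nat_lit 2), (nat_lit 0xa102), (nat_lit 3)⟩)
(.lf ⟨(nat_lit 263), (nat_lit 2), (nat_lit 0x72c775130b287284), (nat_lit 11)⟩))
(.lf ⟨(nat_lit 138), (nat_lit 2), (nat_lit 642), (nat_lit 2)⟩)))
(.nd (.nd (.nd (.lf ⟨(nat_lit 260), (nat_lit 2), (nat_lit 0), (nat_lit 0)⟩)
(.lf ⟨(nat_lit 733), (nat_lit 2), (nat_lit 0x74b), (nat_lit 2)⟩))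
(.nd (.lf ⟨(nat_lit 0x75d), (nat_lit 2), (nat_lit 0), (nat_lit 0)⟩)
(.lf ⟨(nat_lit 0x4083083), (nat_lit 5), (nat_lit 0x20c20c4), (nat_lit 5)⟩)))
(.nd (.nd (.lf ⟨(nat_lit 196), (nat_lit 2), (nat_lit 0xb103), (nat_lit 3)⟩)
(.lf ⟨(nat_lit 7), (nat_lit 1), (nat_lit 0), (nat_lit 0)⟩))
(.lf ⟨(nat_lit 716), (nat_lit 2), (nat_lit 779), (nat_lit 2)⟩))))
(.nd (.nd (.nd (.nd (.lf ⟨(nat_lit 195), (nat_lit 2), (nat_lit 0), (nat_lit 0)⟩)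
(.lf ⟨(nat_lit 651), (nat_lit 2), (nat_lit 0x1d2ca), (nat_lit 3)⟩))
(.nd (.lf ⟨(nat_lit 139), (nat_lit 2), (nat_lit 0x112c2), (nat_lit 3)⟩)
(.lf ⟨(nat_lit 12), (nat_lit 1), (nat_lit 0x751), (nat_lit 2)⟩)))
(.nd (.nd (.lf ⟨(nat_lit 715), (nat_lit 2), (nat_lit 0), (nat_lit 0)⟩)
(.lf ⟨(nat_lit 131), (nat_lit 2), (nat_lit 194), (nat_lit 2)⟩))
(.lf ⟨(nat_lit 203), (nat_lit 2), (nat_lit 707), (nat_lit 2)⟩)))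
(.nd (.nd (.nd (.lf ⟨(nat_lit 650), (nat_lit 2), (nat_lit 0), (nat_lit 0)⟩)
(.lf ⟨(nat_lit 209), (nat_lit 2), (nat_lit 0x1d12c72c3), (nat_lit 6)⟩))
(.lf ⟨(nat_lit 131), (nat_lit 2), (nat_lit 0x70c2), (nat_lit 3)⟩))
(.nd (.nd (.lf ⟨(nat_lit 202), (nat_lit 2), (nat_lit 0xc283), (nat_lit 3)⟩)
(.lf ⟨(nat_lit 131), (nat_lit 2), (nat_lit 194), (nat_lit 2)⟩))
(.lf ⟨(nat_lit 721), (nat_lit 2), (nat_lit 0x44b), (nat_lit 2)⟩)))))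

/-- Context. -/
noncomputable def x4 : ℕ → ℕ × ℕ :=
  mkc d3 736 s3 x3 (nth [] (Cl.alts H3.cl) 0)

set_option maxRecDepth 100000 in
/-- Facts. -/
noncomputable def d5 : Tr :=
(.nd (.nd (.nd (.nd (.nd (.nd (.nd (.nd (.nd (.lf ⟨(nat_lit 65), (nat_lit 2), (nat_lit 0), (nat_lit 0)⟩)
(.lf ⟨(nat_lit 672), (nat_lit 2), (nat_lit 0x3e140f85958f8196a16968503ca), (nat_lit 18)⟩))
(.lf ⟨(nat_lit 0x6e0), (nat_lit 2), (nat_lit 0x81b), (nat_lit 2)⟩))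
(.nd (.lf ⟨(nat_lit 522), (nat_lit 2), (nat_lit 0x16288), (nat_lit 3)⟩)
(.lf ⟨(nat_lit 18), (nat_lit 1), (nat_lit 7), (nat_lit 1)⟩)))
(.nd (.nd (.nd (.lf ⟨(nat_lit 0x79e), (nat_lit 2), (nat_lit 0), (nat_lit 0)⟩)
(.lf ⟨(nat_lit 288), (nat_lit 2), (nat_lit 0x804), (nat_lit 2)⟩))
(.lf ⟨(nat_lit 0x69e), (nat_lit 2), (nat_lit 0x79a), (nat_lit 2)⟩))
(.nd (.lf ⟨(nat_lit 736), (nat_lit 2), (nat_lit 0x80b), (nat_lit 2)⟩)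
(.lf ⟨(nat_lit 727), (nat_lit 2), (nat_lit 0x5cb), (nat_lit 2)⟩))))
(.nd (.nd (.nd (.nd (.lf ⟨(nat_lit 0x410), (nat_lit 2), (nat_lit 0), (nat_lit 0)⟩)
(.lf ⟨(nat_lit 0x416), (nat_lit 2), (nat_lit 0x590), (nat_lit 2)⟩))
(.lf ⟨(nat_lit 919), (nat_lit 2), (nat_lit 0x5ce), (nat_lit 2)⟩))
(.nd (.lf ⟨(nat_lit 673), (nat_lit 2), (nat_lit 0x84a), (nat_lit 2)⟩)
(.lf ⟨(nat_lit 0x45e), (nat_lit 2), (nat_lit 0x791), (nat_lit 2)⟩)))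
(.nd (.nd (.lf ⟨(nat_lit 215), (nat_lit 2), (nat_lit 0x5c3), (nat_lit 2)⟩)
(.lf ⟨(nat_lit 0x19923), (nat_lit 3), (nat_lit 0x218dc85c664), (nat_lit 7)⟩))
(.nd (.lf ⟨(nat_lit 724), (nat_lit 2), (nat_lit 0x50b), (nat_lit 2)⟩)
(.lf ⟨(nat_lit 0x1669d), (nat_lit 3), (nat_lit 0x1d69d69d59a), (nat_lit 7)⟩)))))
(.nd (.nd (.nd (.nd (.nd (.lf ⟨(nat_lit 650), (nat_lit 2), (nat_lit 0), (nat_lit 0)⟩)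
(.lf ⟨(nat_lit 729), (nat_lit 2), (nat_lit 0x64b), (nat_lit 2)⟩))
(.lf ⟨(nat_lit 0x668), (nat_lit 2), (nat_lit 0xa19), (nat_lit 2)⟩))
(.nd (.lf ⟨(nat_lit 86), (nat_lit 2), (nat_lit 0x581), (nat_lit 2)⟩)
(.lf ⟨(nat_lit 6), (nat_lit 1), (nat_lit 0x1e5d6), (nat_lit 3)⟩)))
(.nd (.nd (.lf ⟨(nat_lit 131), (nat_lit 2), (nat_lit 0x70c2), (nat_lit 3)⟩)
(.lf ⟨(nat_lit 0x5757), (nat_lit 3), (nat_lit 0x1a75775a15d), (nat_lit 7)⟩))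
(.nd (.lf ⟨(nat_lit 0x459), (nat_lit 2), (nat_lit 0x651), (nat_lit 2)⟩)
(.lf ⟨(nat_lit 0xa810), (nat_lit 3), (nat_lit 0x3dd40f2a0), (nat_lit 6)⟩))))
(.nd (.nd (.nd (.nd (.lf ⟨(nat_lit 207), (nat_lit 2), (nat_lit 0x173c3), (nat_lit 3)⟩)
(.lf ⟨(nat_lit 131), (nat_lit 2), (nat_lit 0x200c2), (nat_lit 3)⟩))
(.lf ⟨(nat_lit 288), (nat_lit 2), (nat_lit 0x6d650f81b41650f404), (nat_lit 12)⟩))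
(.nd (.lf ⟨(nat_lit 603), (nat_lit 2), (nat_lit 0x6c9), (nat_lit 2)⟩)
(.lf ⟨(nat_lit 542), (nat_lit 2), (nat_lit 0x788), (nat_lit 2)⟩)))
(.nd (.nd (.lf ⟨(nat_lit 983), (nat_lit 2), (nat_lit 0x5cf), (nat_lit 2)⟩)
(.lf ⟨(nat_lit 0x4196106), (nat_lit 5), (nat_lit 0x16286584196284), (nat_lit 9)⟩))
(.nd (.lf ⟨(nat_lit 0x516), (nat_lit 2), (nat_lit 0x594), (nat_lit 2)⟩)
(.lf ⟨(nat_lit 0x69d), (nat_lit 2), (nat_lit 0x75a), (nat_lit 2)⟩))))))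
(.nd (.nd (.nd (.nd (.nd (.nd (.lf ⟨(nat_lit 520), (nat_lit 2), (nat_lit 0), (nat_lit 0)⟩)
(.lf ⟨(nat_lit 0x6a16a1), (nat_lit 4), (nat_lit 0x85a85a), (nat_lit 4)⟩))
(.lf ⟨(nat_lit 542), (nat_lit 2), (nat_lit 0x1de3c73c8), (nat_lit 6)⟩))
(.nd (.lf ⟨(nat_lit 537), (nat_lit 2), (nat_lit 0x648), (nat_lit 2)⟩)
(.lf ⟨(nat_lit 342), (nat_lit 2), (nat_lit 0x585), (nat_lit 2)⟩)))
(.nd (.nd (.nd (.lf ⟨(nat_lit 0x861), (nat_lit 2), (nat_lit 0), (nat_lit 0)⟩)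
(.lf ⟨(nat_lit 0x86064b2840c286064b2840c2), (nat_lit 16), (nat_lit 0x8592ca), (nat_lit 4)⟩))
(.lf ⟨(nat_lit 0x868), (nat_lit 2), (nat_lit 0xa21), (nat_lit 2)⟩))
(.nd (.lf ⟨(nat_lit 922), (nat_lit 2), (nat_lit 0x68e), (nat_lit 2)⟩)
(.lf ⟨(nat_lit 535), (nat_lit 2), (nat_lit 0x5c8), (nat_lit 2)⟩))))
(.nd (.nd (.nd (.nd (.lf ⟨(nat_lit 0x514), (nat_lit 2), (nat_lit 0), (nat_lit 0)⟩)
(.lf ⟨(nat_lit 217), (nat_lit 2), (nat_lit 0x643), (nat_lit 2)⟩))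
(.lf ⟨(nat_lit 663), (nat_lit 2), (nat_lit 0x5cf30f30a), (nat_lit 6)⟩))
(.nd (.lf ⟨(nat_lit 591), (nat_lit 2), (nat_lit 969), (nat_lit 2)⟩)
(.lf ⟨(nat_lit 349), (nat_lit 2), (nat_lit 0x690756690585), (nat_lit 8)⟩)))
(.nd (.nd (.lf ⟨(nat_lit 655), (nat_lit 2), (nat_lit 970), (nat_lit 2)⟩)
(.lf ⟨(nat_lit 0xa690), (nat_lit 3), (nat_lit 0x90f7503dd3cb3cb29a), (nat_lit 12)⟩))
(.nd (.lf ⟨(nat_lit 263), (nat_lit 2), (nat_lit 0x72c775130b287284), (nat_lit 11)⟩)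
(.lf ⟨(nat_lit 0x7a1), (nat_lit 2), (nat_lit 0x85e), (nat_lit 2)⟩)))))
(.nd (.nd (.nd (.nd (.nd (.lf ⟨(nat_lit 202), (nat_lit 2), (nat_lit 0xc283), (nat_lit 3)⟩)
(.lf ⟨(nat_lit 656), (nat_lit 2), (nat_lit 0x2140a), (nat_lit 3)⟩))
(.lf ⟨(nat_lit 796), (nat_lit 2), (nat_lit 0x49c45244c), (nat_lit 6)⟩))
(.nd (.lf ⟨(nat_lit 94), (nat_lit 2), (nat_lit 0x781), (nat_lit 2)⟩)
(.lf ⟨(nat_lit 202), (nat_lit 2), (nat_lit 0x797283), (nat_lit 4)⟩)))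
(.nd (.nd (.lf ⟨(nat_lit 138), (nat_lit 2), (nat_lit 642), (nat_lit 2)⟩)
(.lf ⟨(nat_lit 545), (nat_lit 2), (nat_lit 0x6d650f85b65650f648), (nat_lit 12)⟩))
(.nd (.lf ⟨(nat_lit 0x65c), (nat_lit 2), (nat_lit 0x719), (nat_lit 2)⟩)
(.lf ⟨(nat_lit 161), (nat_lit 2), (nat_lit 0x7503d03c2), (nat_lit 6)⟩))))
(.nd (.nd (.nd (.nd (.lf ⟨(nat_lit 0x6db), (nat_lit 2), (nat_lit 0), (nat_lit 0)⟩)
(.lf ⟨(nat_lit 23), (nat_lit 1), (nat_lit 25), (nat_lit 1)⟩))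
(.lf ⟨(nat_lit 274), (nat_lit 2), (nat_lit 0x24752744), (nat_lit 5)⟩))
(.nd (.lf ⟨(nat_lit 602), (nat_lit 2), (nat_lit 0x689), (nat_lit 2)⟩)
(.lf ⟨(nat_lit 0x5dc), (nat_lit 2), (nat_lit 0x717), (nat_lit 2)⟩)))
(.nd (.nd (.lf ⟨(nat_lit 0x5de), (nat_lit 2), (nat_lit 0x797), (nat_lit 2)⟩)
(.lf ⟨(nat_lit 214), (nat_lit 2), (nat_lit 0x583), (nat_lit 2)⟩))
(.nd (.lf ⟨(nat_lit 987), (nat_lit 2), (nat_lit 0x6cf), (nat_lit 2)⟩)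
(.lf ⟨(nat_lit 976), (nat_lit 2), (nat_lit 0x40f), (nat_lit 2)⟩)))))))
(.nd (.nd (.nd (.nd (.nd (.nd (.nd (.lf ⟨(nat_lit 195), (nat_lit 2), (nat_lit 0), (nat_lit 0)⟩)
(.lf ⟨(nat_lit 0x5a1), (nat_lit 2), (nat_lit 0x856), (nat_lit 2)⟩))
(.lf ⟨(nat_lit 925), (nat_lit 2), (nat_lit 0x74e), (nat_lit 2)⟩))
(.nd (.lf ⟨(nat_lit 0x447), (nat_lit 2), (nat_lit 465), (nat_lit 2)⟩)
(.lf ⟨(nat_lit 12), (nat_lit 1), (nat_lit 471), (nat_lit 2)⟩)))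
(.nd (.nd (.nd (.lf ⟨(nat_lit 0x820), (nat_lit 2), (nat_lit 0), (nat_lit 0)⟩)
(.lf ⟨(nat_lit 0x30a0), (nat_lit 3), (nat_lit 0x200c2), (nat_lit 3)⟩))
(.lf ⟨(nat_lit 0x5a0), (nat_lit 2), (nat_lit 0x816), (nat_lit 2)⟩))
(.nd (.lf ⟨(nat_lit 0x69b), (nat_lit 2), (nat_lit 0x6da), (nat_lit 2)⟩)
(.lf ⟨(nat_lit 0x41d), (nat_lit 2), (nat_lit 0x750), (nat_lit 2)⟩))))
(.nd (.nd (.nd (.nd (.lf ⟨(nat_lit 0x451), (nat_lit 2), (nat_lit 0), (nat_lit 0)⟩)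
(.lf ⟨(nat_lit 0x821), (nat_lit 2), (nat_lit 0x860), (nat_lit 2)⟩))
(.lf ⟨(nat_lit 667), (nat_lit 2), (nat_lit 0x6ca), (nat_lit 2)⟩))
(.nd (.lf ⟨(nat_lit 527), (nat_lit 2), (nat_lit 968), (nat_lit 2)⟩)
(.lf ⟨(nat_lit 719), (nat_lit 2), (nat_lit 0xf74b), (nat_lit 3)⟩)))
(.nd (.nd (.lf ⟨(nat_lit 716), (nat_lit 2), (nat_lit 779), (nat_lit 2)⟩)
(.lf ⟨(nat_lit 656), (nat_lit 2), (nat_lit 0x243dd40f74f2cf2ca), (nat_lit 11)⟩))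
(.nd (.lf ⟨(nat_lit 785), (nat_lit 2), (nat_lit 0x44c), (nat_lit 2)⟩)
(.lf ⟨(nat_lit 0x65e), (nat_lit 2), (nat_lit 0x799), (nat_lit 2)⟩)))))
(.nd (.nd (.nd (.nd (.nd (.lf ⟨(nat_lit 715), (nat_lit 2), (nat_lit 0), (nat_lit 0)⟩)
(.lf ⟨(nat_lit 225), (nat_lit 2), (nat_lit 0x843), (nat_lit 2)⟩))
(.lf ⟨(nat_lit 0x520), (nat_lit 2), (nat_lit 0x814), (nat_lit 2)⟩))
(.nd (.lf ⟨(nat_lit 268), (nat_lit 2), (nat_lit 0x1d304), (nat_lit 3)⟩)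
(.lf ⟨(nat_lit 330), (nat_lit 2), (nat_lit 0x17285), (nat_lit 3)⟩)))
(.nd (.nd (.lf ⟨(nat_lit 265), (nat_lit 2), (nat_lit 580), (nat_lit 2)⟩)
(.lf ⟨(nat_lit 535), (nat_lit 2), (nat_lit 0x1de3c73c67973c63c8), (nat_lit 12)⟩))
(.nd (.lf ⟨(nat_lit 0x51b), (nat_lit 2), (nat_lit 0x6d4), (nat_lit 2)⟩)
(.lf ⟨(nat_lit 989), (nat_lit 2), (nat_lit 0x74f), (nat_lit 2)⟩))))
(.nd (.nd (.nd (.nd (.lf ⟨(nat_lit 144), (nat_lit 2), (nat_lit 0x19402), (nat_lit 3)⟩)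
(.lf ⟨(nat_lit 992), (nat_lit 2), (nat_lit 0x80f), (nat_lit 2)⟩))
(.lf ⟨(nat_lit 608), (nat_lit 2), (nat_lit 0x809), (nat_lit 2)⟩))
(.nd (.lf ⟨(nat_lit 219), (nat_lit 2), (nat_lit 0x6c3), (nat_lit 2)⟩)
(.lf ⟨(nat_lit 0x6a0), (nat_lit 2), (nat_lit 0x81a), (nat_lit 2)⟩)))
(.nd (.nd (.lf ⟨(nat_lit 0x41a), (nat_lit 2), (nat_lit 0x690), (nat_lit 2)⟩)
(.lf ⟨(nat_lit 0x597), (nat_lit 2), (nat_lit 0x5d6), (nat_lit 2)⟩))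
(.nd (.lf ⟨(nat_lit 264), (nat_lit 2), (nat_lit 0x1b5943ce204), (nat_lit 7)⟩)
(.lf ⟨(nat_lit 0x5da), (nat_lit 2), (nat_lit 0x697), (nat_lit 2)⟩))))))
(.nd (.nd (.nd (.nd (.nd (.nd (.lf ⟨(nat_lit 585), (nat_lit 2), (nat_lit 0), (nat_lit 0)⟩)
(.lf ⟨(nat_lit 992), (nat_lit 2), (nat_lit 0x6a181a84f), (nat_lit 6)⟩))
(.lf ⟨(nat_lit 0x2c7810), (nat_lit 4), (nat_lit 0x6878101da2c7), (nat_lit 8)⟩))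
(.nd (.lf ⟨(nat_lit 733), (nat_lit 2), (nat_lit 0x74b), (nat_lit 2)⟩)
(.lf ⟨(nat_lit 151), (nat_lit 2), (nat_lit 0x5c2), (nat_lit 2)⟩)))
(.nd (.nd (.nd (.lf ⟨(nat_lit 93), (nat_lit 2), (nat_lit 0x24741), (nat_lit 3)⟩)
(.lf ⟨(nat_lit 0xc21030840c2103084), (nat_lit 12), (nat_lit 33), (nat_lit 1)⟩))
(.lf ⟨(nat_lit 609), (nat_lit 2), (nat_lit 0x849), (nat_lit 2)⟩))
(.nd (.lf ⟨(nat_lit 278), (nat_lit 2), (nat_lit 0x584), (nat_lit 2)⟩)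
(.lf ⟨(nat_lit 0x721), (nat_lit 2), (nat_lit 0x85c), (nat_lit 2)⟩))))
(.nd (.nd (.nd (.nd (.lf ⟨(nat_lit 143), (nat_lit 2), (nat_lit 0x163c2), (nat_lit 3)⟩)
(.lf ⟨(nat_lit 288), (nat_lit 2), (nat_lit 0x804), (nat_lit 2)⟩))
(.lf ⟨(nat_lit 599), (nat_lit 2), (nat_lit 0x5c9), (nat_lit 2)⟩))
(.nd (.lf ⟨(nat_lit 592), (nat_lit 2), (nat_lit 0x409), (nat_lit 2)⟩)
(.lf ⟨(nat_lit 17), (nat_lit 1), (nat_lit 0x1e757), (nat_lit 3)⟩)))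
(.nd (.nd (.lf ⟨(nat_lit 721), (nat_lit 2), (nat_lit 0x44b), (nat_lit 2)⟩)
(.lf ⟨(nat_lit 665), (nat_lit 2), (nat_lit 0x8599103dd40f74f2cf2ca), (nat_lit 14)⟩))
(.nd (.lf ⟨(nat_lit 0x59b), (nat_lit 2), (nat_lit 0x6d6), (nat_lit 2)⟩)
(.lf ⟨(nat_lit 0x3d03d9), (nat_lit 4), (nat_lit 0x75974f40f), (nat_lit 6)⟩)))))
(.nd (.nd (.nd (.nd (.nd (.lf ⟨(nat_lit 910), (nat_lit 2), (nat_lit 0), (nat_lit 0)⟩)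
(.lf ⟨(nat_lit 665), (nat_lit 2), (nat_lit 0x64a), (nat_lit 2)⟩))
(.lf ⟨(nat_lit 0x517), (nat_lit 2), (nat_lit 0x5d4), (nat_lit 2)⟩))
(.nd (.lf ⟨(nat_lit 160), (nat_lit 2), (nat_lit 0x802), (nat_lit 2)⟩)
(.lf ⟨(nat_lit 131), (nat_lit 2), (nat_lit 0x1e0c2), (nat_lit 3)⟩)))
(.nd (.nd (.lf ⟨(nat_lit 150), (nat_lit 2), (nat_lit 0x582), (nat_lit 2)⟩)
(.lf ⟨(nat_lit 593), (nat_lit 2), (nat_lit 0x2892375c75c449), (nat_lit 9)⟩))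
(.nd (.lf ⟨(nat_lit 261), (nat_lit 2), (nat_lit 0x1b69440e144), (nat_lit 7)⟩)
(.lf ⟨(nat_lit 0x416), (nat_lit 2), (nat_lit 0x69d59a750), (nat_lit 6)⟩))))
(.nd (.nd (.nd (.nd (.lf ⟨(nat_lit 81), (nat_lit 2), (nat_lit 0x1c441), (nat_lit 3)⟩)
(.lf ⟨(nat_lit 672), (nat_lit 2), (nat_lit 0x80a), (nat_lit 2)⟩))
(.lf ⟨(nat_lit 0xf757), (nat_lit 3), (nat_lit 0x1d5dd3dd), (nat_lit 5)⟩))
(.nd (.lf ⟨(nat_lit 990), (nat_lit 2), (nat_lit 0x78f), (nat_lit 2)⟩)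
(.lf ⟨(nat_lit 0x71d), (nat_lit 2), (nat_lit 0x75c), (nat_lit 2)⟩)))
(.nd (.nd (.lf ⟨(nat_lit 0x661), (nat_lit 2), (nat_lit 0x859), (nat_lit 2)⟩)
(.lf ⟨(nat_lit 87), (nat_lit 2), (nat_lit 0x75c1), (nat_lit 3)⟩))
(.nd (.lf ⟨(nat_lit 0x6de), (nat_lit 2), (nat_lit 0x79b), (nat_lit 2)⟩)
(.lf ⟨(nat_lit 0x59a), (nat_lit 2), (nat_lit 0x696), (nat_lit 2)⟩))))))))
(.nd (.nd (.nd (.nd (.nd (.nd (.nd (.nd (.lf ⟨(nat_lit 130), (nat_lit 2), (nat_lit 0), (nat_lit 0)⟩)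
(.lf ⟨(nat_lit 993), (nat_lit 2), (nat_lit 0x84f), (nat_lit 2)⟩))
(.lf ⟨(nat_lit 0x707), (nat_lit 2), (nat_lit 476), (nat_lit 2)⟩))
(.nd (.lf ⟨(nat_lit 331), (nat_lit 2), (nat_lit 0x1a2c5), (nat_lit 3)⟩)
(.lf ⟨(nat_lit 645), (nat_lit 2), (nat_lit 0x1714a), (nat_lit 3)⟩)))
(.nd (.nd (.nd (.lf ⟨(nat_lit 87), (nat_lit 2), (nat_lit 0x1e5c1), (nat_lit 3)⟩)
(.lf ⟨(nat_lit 0xc20c2), (nat_lit 4), (nat_lit 32), (nat_lit 1)⟩))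
(.lf ⟨(nat_lit 740), (nat_lit 2), (nat_lit 0x91d41d40b), (nat_lit 6)⟩))
(.nd (.lf ⟨(nat_lit 212), (nat_lit 2), (nat_lit 0x503), (nat_lit 2)⟩)
(.lf ⟨(nat_lit 279), (nat_lit 2), (nat_lit 0x1d5c4), (nat_lit 3)⟩))))
(.nd (.nd (.nd (.nd (.lf ⟨(nat_lit 75), (nat_lit 2), (nat_lit 0x102c1), (nat_lit 3)⟩)
(.lf ⟨(nat_lit 23), (nat_lit 1), (nat_lit 0x20799), (nat_lit 3)⟩))
(.lf ⟨(nat_lit 926), (nat_lit 2), (nat_lit 0x78e), (nat_lit 2)⟩))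
(.nd (.lf ⟨(nat_lit 206), (nat_lit 2), (nat_lit 899), (nat_lit 2)⟩)
(.lf ⟨(nat_lit 0x417), (nat_lit 2), (nat_lit 0x5d0), (nat_lit 2)⟩)))
(.nd (.nd (.lf ⟨(nat_lit 285), (nat_lit 2), (nat_lit 0x744), (nat_lit 2)⟩)
(.lf ⟨(nat_lit 0x10757), (nat_lit 3), (nat_lit 0x1e91e75791d41d), (nat_lit 9)⟩))
(.nd (.lf ⟨(nat_lit 0x844b), (nat_lit 3), (nat_lit 0x81c6504502c8), (nat_lit 8)⟩)
(.lf ⟨(nat_lit 0x5d9), (nat_lit 2), (nat_lit 0x79d65e757), (nat_lit 6)⟩)))))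
(.nd (.nd (.nd (.nd (.nd (.lf ⟨(nat_lit 132), (nat_lit 2), (nat_lit 0xa102), (nat_lit 3)⟩)
(.lf ⟨(nat_lit 985), (nat_lit 2), (nat_lit 0x86085e5cf), (nat_lit 6)⟩))
(.lf ⟨(nat_lit 0x519), (nat_lit 2), (nat_lit 0x654), (nat_lit 2)⟩))
(.nd (.lf ⟨(nat_lit 157), (nat_lit 2), (nat_lit 0x742), (nat_lit 2)⟩)
(.lf ⟨(nat_lit 18), (nat_lit 1), (nat_lit 30), (nat_lit 1)⟩)))
(.nd (.nd (.lf ⟨(nat_lit 260), (nat_lit 2), (nat_lit 0), (nat_lit 0)⟩)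
(.lf ⟨(nat_lit 0x41e), (nat_lit 2), (nat_lit 0x790), (nat_lit 2)⟩))
(.nd (.lf ⟨(nat_lit 718), (nat_lit 2), (nat_lit 907), (nat_lit 2)⟩)
(.lf ⟨(nat_lit 0xa690), (nat_lit 3), (nat_lit 0x3dd40f29a), (nat_lit 6)⟩))))
(.nd (.nd (.nd (.nd (.lf ⟨(nat_lit 0x659), (nat_lit 2), (nat_lit 0), (nat_lit 0)⟩)
(.lf ⟨(nat_lit 139), (nat_lit 2), (nat_lit 0x218192c2), (nat_lit 5)⟩))
(.lf ⟨(nat_lit 601), (nat_lit 2), (nat_lit 0x649), (nat_lit 2)⟩))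
(.nd (.lf ⟨(nat_lit 669), (nat_lit 2), (nat_lit 0x74a), (nat_lit 2)⟩)
(.lf ⟨(nat_lit 737), (nat_lit 2), (nat_lit 0x85979b5d075b66479d5e475074b), (nat_lit 18)⟩)))
(.nd (.nd (.lf ⟨(nat_lit 0x419), (nat_lit 2), (nat_lit 0x650), (nat_lit 2)⟩)
(.lf ⟨(nat_lit 228), (nat_lit 2), (nat_lit 0x91d15d143), (nat_lit 6)⟩))
(.nd (.lf ⟨(nat_lit 660), (nat_lit 2), (nat_lit 0x50a), (nat_lit 2)⟩)
(.lf ⟨(nat_lit 0x384a), (nat_lit 3), (nat_lit 0x1e5ca0e1), (nat_lit 5)⟩))))))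
(.nd (.nd (.nd (.nd (.nd (.nd (.lf ⟨(nat_lit 325), (nat_lit 2), (nat_lit 0), (nat_lit 0)⟩)
(.lf ⟨(nat_lit 139), (nat_lit 2), (nat_lit 0x217972c2), (nat_lit 5)⟩))
(.lf ⟨(nat_lit 737), (nat_lit 2), (nat_lit 0x85975b45075b65044b), (nat_lit 12)⟩))
(.nd (.lf ⟨(nat_lit 343), (nat_lit 2), (nat_lit 0x5c5), (nat_lit 2)⟩)
(.lf ⟨(nat_lit 214), (nat_lit 2), (nat_lit 0x583), (nat_lit 2)⟩)))
(.nd (.nd (.nd (.lf ⟨(nat_lit 281), (nat_lit 2), (nat_lit 0x21644), (nat_lit 3)⟩)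
(.lf ⟨(nat_lit 0x8592ca8592ca), (nat_lit 8), (nat_lit 33), (nat_lit 1)⟩))
(.lf ⟨(nat_lit 0x521), (nat_lit 2), (nat_lit 0x854), (nat_lit 2)⟩))
(.nd (.lf ⟨(nat_lit 598), (nat_lit 2), (nat_lit 0x589), (nat_lit 2)⟩)
(.lf ⟨(nat_lit 35), (nat_lit 1), (nat_lit 40), (nat_lit 1)⟩))))
(.nd (.nd (.nd (.nd (.lf ⟨(nat_lit 0x596), (nat_lit 2), (nat_lit 0), (nat_lit 0)⟩)
(.lf ⟨(nat_lit 224), (nat_lit 2), (nat_lit 0x803), (nat_lit 2)⟩))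
(.lf ⟨(nat_lit 0x71d71d), (nat_lit 4), (nat_lit 0x75c75c), (nat_lit 4)⟩))
(.nd (.lf ⟨(nat_lit 528), (nat_lit 2), (nat_lit 0x20408), (nat_lit 3)⟩)
(.lf ⟨(nat_lit 0x457), (nat_lit 2), (nat_lit 0x5d1), (nat_lit 2)⟩)))
(.nd (.nd (.lf ⟨(nat_lit 720), (nat_lit 2), (nat_lit 0x40b), (nat_lit 2)⟩)
(.lf ⟨(nat_lit 676), (nat_lit 2), (nat_lit 0x91d3dd3ca), (nat_lit 6)⟩))
(.nd (.lf ⟨(nat_lit 654), (nat_lit 2), (nat_lit 906), (nat_lit 2)⟩)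
(.lf ⟨(nat_lit 97), (nat_lit 2), (nat_lit 0x6d650f81d6da75669440f860401), (nat_lit 18)⟩)))))
(.nd (.nd (.nd (.nd (.nd (.lf ⟨(nat_lit 390), (nat_lit 2), (nat_lit 0), (nat_lit 0)⟩)
(.lf ⟨(nat_lit 0x6a1), (nat_lit 2), (nat_lit 0x85a), (nat_lit 2)⟩))
(.lf ⟨(nat_lit 0x25cf2c4), (nat_lit 5), (nat_lit 0x44b58f284097), (nat_lit 8)⟩))
(.nd (.lf ⟨(nat_lit 96), (nat_lit 2), (nat_lit 0x801), (nat_lit 2)⟩)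
(.lf ⟨(nat_lit 0x59e), (nat_lit 2), (nat_lit 0x796), (nat_lit 2)⟩)))
(.nd (.nd (.lf ⟨(nat_lit 203), (nat_lit 2), (nat_lit 707), (nat_lit 2)⟩)
(.lf ⟨(nat_lit 286), (nat_lit 2), (nat_lit 0x784), (nat_lit 2)⟩))
(.nd (.lf ⟨(nat_lit 0x4185), (nat_lit 3), (nat_lit 0x6da510385106), (nat_lit 8)⟩)
(.lf ⟨(nat_lit 0x59d), (nat_lit 2), (nat_lit 0x756), (nat_lit 2)⟩))))
(.nd (.nd (.nd (.nd (.lf ⟨(nat_lit 0x71c), (nat_lit 2), (nat_lit 0), (nat_lit 0)⟩)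
(.lf ⟨(nat_lit 737), (nat_lit 2), (nat_lit 0x84b), (nat_lit 2)⟩))
(.lf ⟨(nat_lit 727), (nat_lit 2), (nat_lit 0x75774b), (nat_lit 4)⟩))
(.nd (.lf ⟨(nat_lit 0x420), (nat_lit 2), (nat_lit 0x810), (nat_lit 2)⟩)
(.lf ⟨(nat_lit 726), (nat_lit 2), (nat_lit 0x75674b), (nat_lit 4)⟩)))
(.nd (.nd (.lf ⟨(nat_lit 0x660), (nat_lit 2), (nat_lit 0x819), (nat_lit 2)⟩)
(.lf ⟨(nat_lit 151), (nat_lit 2), (nat_lit 0x5c2), (nat_lit 2)⟩))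
(.nd (.lf ⟨(nat_lit 0x5db), (nat_lit 2), (nat_lit 0x6d7), (nat_lit 2)⟩)
(.lf ⟨(nat_lit 986), (nat_lit 2), (nat_lit 0x68f), (nat_lit 2)⟩)))))))
(.nd (.nd (.nd (.nd (.nd (.nd (.nd (.lf ⟨(nat_lit 260), (nat_lit 2), (nat_lit 0), (nat_lit 0)⟩)
(.lf ⟨(nat_lit 0x599), (nat_lit 2), (nat_lit 0x656), (nat_lit 2)⟩))
(.lf ⟨(nat_lit 0x6dd), (nat_lit 2), (nat_lit 0x75b), (nat_lit 2)⟩))
(.nd (.lf ⟨(nat_lit 350), (nat_lit 2), (nat_lit 0x785), (nat_lit 2)⟩)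
(.lf ⟨(nat_lit 0x597), (nat_lit 2), (nat_lit 0x5d6), (nat_lit 2)⟩)))
(.nd (.nd (.nd (.lf ⟨(nat_lit 89), (nat_lit 2), (nat_lit 0x20641), (nat_lit 3)⟩)
(.lf ⟨(nat_lit 0x3084), (nat_lit 3), (nat_lit 0x86064b2840c2), (nat_lit 8)⟩))
(.lf ⟨(nat_lit 0x6e1), (nat_lit 2), (nat_lit 0x85b), (nat_lit 2)⟩))
(.nd (.lf ⟨(nat_lit 912), (nat_lit 2), (nat_lit 0x40e), (nat_lit 2)⟩)
(.lf ⟨(nat_lit 0x16697), (nat_lit 3), (nat_lit 0x1759a), (nat_lit 3)⟩))))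
(.nd (.nd (.nd (.nd (.lf ⟨(nat_lit 139), (nat_lit 2), (nat_lit 0x112c2), (nat_lit 3)⟩)
(.lf ⟨(nat_lit 30), (nat_lit 1), (nat_lit 32), (nat_lit 1)⟩))
(.lf ⟨(nat_lit 605), (nat_lit 2), (nat_lit 0x749), (nat_lit 2)⟩))
(.nd (.lf ⟨(nat_lit 335), (nat_lit 2), (nat_lit 0x1e3c5), (nat_lit 3)⟩)
(.lf ⟨(nat_lit 200), (nat_lit 2), (nat_lit 0x5d6203), (nat_lit 4)⟩)))
(.nd (.nd (.lf ⟨(nat_lit 596), (nat_lit 2), (nat_lit 0x509), (nat_lit 2)⟩)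
(.lf ⟨(nat_lit 0xa810), (nat_lit 3), (nat_lit 0x90f7503dd3cb3cb2a0), (nat_lit 12)⟩))
(.nd (.lf ⟨(nat_lit 221), (nat_lit 2), (nat_lit 0x743), (nat_lit 2)⟩)
(.lf ⟨(nat_lit 0x7a0), (nat_lit 2), (nat_lit 0x81e), (nat_lit 2)⟩)))))
(.nd (.nd (.nd (.nd (.nd (.lf ⟨(nat_lit 196), (nat_lit 2), (nat_lit 0xb103), (nat_lit 3)⟩)
(.lf ⟨(nat_lit 0x5e1), (nat_lit 2), (nat_lit 0x857), (nat_lit 2)⟩))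
(.lf ⟨(nat_lit 0x51d), (nat_lit 2), (nat_lit 0x754), (nat_lit 2)⟩))
(.nd (.lf ⟨(nat_lit 731), (nat_lit 2), (nat_lit 0x6cb), (nat_lit 2)⟩)
(.lf ⟨(nat_lit 12), (nat_lit 1), (nat_lit 0x797), (nat_lit 2)⟩)))
(.nd (.nd (.lf ⟨(nat_lit 266), (nat_lit 2), (nat_lit 644), (nat_lit 2)⟩)
(.lf ⟨(nat_lit 0x421), (nat_lit 2), (nat_lit 0x850), (nat_lit 2)⟩))
(.nd (.lf ⟨(nat_lit 0x51a), (nat_lit 2), (nat_lit 0x694), (nat_lit 2)⟩)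
(.lf ⟨(nat_lit 665), (nat_lit 2), (nat_lit 0x8597503d03ca), (nat_lit 8)⟩))))
(.nd (.nd (.nd (.nd (.lf ⟨(nat_lit 0x69a), (nat_lit 2), (nat_lit 0), (nat_lit 0)⟩)
(.lf ⟨(nat_lit 985), (nat_lit 2), (nat_lit 0x64f), (nat_lit 2)⟩))
(.lf ⟨(nat_lit 0x452452), (nat_lit 4), (nat_lit 0x712452711), (nat_lit 6)⟩))
(.nd (.lf ⟨(nat_lit 729), (nat_lit 2), (nat_lit 0x65141140b), (nat_lit 6)⟩)
(.lf ⟨(nat_lit 0x5e1), (nat_lit 2), (nat_lit 0x7a165d65e757), (nat_lit 8)⟩)))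
(.nd (.nd (.lf ⟨(nat_lit 0x41b), (nat_lit 2), (nat_lit 0x6d0), (nat_lit 2)⟩)
(.lf ⟨(nat_lit 342), (nat_lit 2), (nat_lit 0x585), (nat_lit 2)⟩))
(.nd (.lf ⟨(nat_lit 918), (nat_lit 2), (nat_lit 0x58e), (nat_lit 2)⟩)
(.lf ⟨(nat_lit 523), (nat_lit 2), (nat_lit 0x172c8), (nat_lit 3)⟩))))))
(.nd (.nd (.nd (.nd (.nd (.nd (.lf ⟨(nat_lit 68), (nat_lit 2), (nat_lit 0x9101), (nat_lit 3)⟩)
(.lf ⟨(nat_lit 651), (nat_lit 2), (nat_lit 0x212ca), (nat_lit 3)⟩))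
(.lf ⟨(nat_lit 0x461), (nat_lit 2), (nat_lit 0x76165d651), (nat_lit 6)⟩))
(.nd (.lf ⟨(nat_lit 722), (nat_lit 2), (nat_lit 0x41231030b), (nat_lit 6)⟩)
(.lf ⟨(nat_lit 7), (nat_lit 1), (nat_lit 30), (nat_lit 1)⟩)))
(.nd (.nd (.lf ⟨(nat_lit 0xa28), (nat_lit 2), (nat_lit 0), (nat_lit 0)⟩)
(.lf ⟨(nat_lit 0x75e), (nat_lit 2), (nat_lit 0x79d), (nat_lit 2)⟩))
(.nd (.lf ⟨(nat_lit 0x720), (nat_lit 2), (nat_lit 0x81c), (nat_lit 2)⟩)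
(.lf ⟨(nat_lit 656), (nat_lit 2), (nat_lit 0xf7503ca), (nat_lit 5)⟩))))
(.nd (.nd (.nd (.nd (.lf ⟨(nat_lit 0x5d7), (nat_lit 2), (nat_lit 0), (nat_lit 0)⟩)
(.lf ⟨(nat_lit 202), (nat_lit 2), (nat_lit 0x819283), (nat_lit 4)⟩))
(.lf ⟨(nat_lit 606), (nat_lit 2), (nat_lit 0x789), (nat_lit 2)⟩))
(.nd (.lf ⟨(nat_lit 200), (nat_lit 2), (nat_lit 0x1c6203), (nat_lit 4)⟩)
(.lf ⟨(nat_lit 0x71e), (nat_lit 2), (nat_lit 0x79c), (nat_lit 2)⟩)))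
(.nd (.nd (.lf ⟨(nat_lit 982), (nat_lit 2), (nat_lit 0x58f), (nat_lit 2)⟩)
(.lf ⟨(nat_lit 161), (nat_lit 2), (nat_lit 0x9103dd40f74f2cf2c2), (nat_lit 12)⟩))
(.nd (.lf ⟨(nat_lit 980), (nat_lit 2), (nat_lit 0x50f), (nat_lit 2)⟩)
(.lf ⟨(nat_lit 666), (nat_lit 2), (nat_lit 0x75769d5ca), (nat_lit 6)⟩)))))
(.nd (.nd (.nd (.nd (.nd (.lf ⟨(nat_lit 975), (nat_lit 2), (nat_lit 0), (nat_lit 0)⟩)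
(.lf ⟨(nat_lit 161), (nat_lit 2), (nat_lit 0x842), (nat_lit 2)⟩))
(.lf ⟨(nat_lit 0x51e), (nat_lit 2), (nat_lit 0x794), (nat_lit 2)⟩))
(.nd (.lf ⟨(nat_lit 222), (nat_lit 2), (nat_lit 0x783), (nat_lit 2)⟩)
(.lf ⟨(nat_lit 0x5dd), (nat_lit 2), (nat_lit 0x757), (nat_lit 2)⟩)))
(.nd (.nd (.lf ⟨(nat_lit 153), (nat_lit 2), (nat_lit 0x642), (nat_lit 2)⟩)
(.lf ⟨(nat_lit 734), (nat_lit 2), (nat_lit 0x78b), (nat_lit 2)⟩))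
(.nd (.lf ⟨(nat_lit 0x414), (nat_lit 2), (nat_lit 0x510), (nat_lit 2)⟩)
(.lf ⟨(nat_lit 28), (nat_lit 1), (nat_lit 30), (nat_lit 1)⟩))))
(.nd (.nd (.nd (.nd (.lf ⟨(nat_lit 0x75d), (nat_lit 2), (nat_lit 0), (nat_lit 0)⟩)
(.lf ⟨(nat_lit 0x820), (nat_lit 2), (nat_lit 0), (nat_lit 0)⟩))
(.lf ⟨(nat_lit 279), (nat_lit 2), (nat_lit 0x75774f2cf2c4), (nat_lit 8)⟩))
(.nd (.lf ⟨(nat_lit 670), (nat_lit 2), (nat_lit 0x78a), (nat_lit 2)⟩)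
(.lf ⟨(nat_lit 36), (nat_lit 1), (nat_lit 0), (nat_lit 0)⟩)))
(.nd (.nd (.lf ⟨(nat_lit 651), (nat_lit 2), (nat_lit 0x1d2ca), (nat_lit 3)⟩)
(.lf ⟨(nat_lit 6), (nat_lit 1), (nat_lit 0x75d6), (nat_lit 3)⟩))
(.nd (.lf ⟨(nat_lit 0x65b), (nat_lit 2), (nat_lit 0x6d9), (nat_lit 2)⟩)
(.lf ⟨(nat_lit 29), (nat_lit 1), (nat_lit 33), (nat_lit 1)⟩)))))))))

/-- Substitution. -/
def s5 : List (ℕ × ℕ) := [((nat_lit 4), (nat_lit 1)), ((nat_lit 194), (nat_lit 2)), ((nat_lit 32), (nat_lit 1))]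

/-- Context. -/
noncomputable def x5 : ℕ → ℕ × ℕ :=
  mkc d3 736 s3 x3 (nth [] (Cl.alts H3.cl) 1)

set_option maxRecDepth 100000 in
/-- Facts. -/
noncomputable def d6 : Tr :=
(.nd (.nd (.nd (.nd (.nd (.lf ⟨(nat_lit 130), (nat_lit 2), (nat_lit 0), (nat_lit 0)⟩)
(.lf ⟨(nat_lit 224), (nat_lit 2), (nat_lit 0x803), (nat_lit 2)⟩))
(.nd (.lf ⟨(nat_lit 138), (nat_lit 2), (nat_lit 642), (nat_lit 2)⟩)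
(.lf ⟨(nat_lit 33), (nat_lit 1), (nat_lit 0), (nat_lit 0)⟩)))
(.nd (.nd (.lf ⟨(nat_lit 715), (nat_lit 2), (nat_lit 0), (nat_lit 0)⟩)
(.lf ⟨(nat_lit 139), (nat_lit 2), (nat_lit 0x218192c2), (nat_lit 5)⟩))
(.lf ⟨(nat_lit 736), (nat_lit 2), (nat_lit 0x80b), (nat_lit 2)⟩)))
(.nd (.nd (.nd (.lf ⟨(nat_lit 650), (nat_lit 2), (nat_lit 0), (nat_lit 0)⟩)
(.lf ⟨(nat_lit 202), (nat_lit 2), (nat_lit 0x819283), (nat_lit 4)⟩))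
(.lf ⟨(nat_lit 0x660), (nat_lit 2), (nat_lit 0x819), (nat_lit 2)⟩))
(.nd (.nd (.lf ⟨(nat_lit 0x659), (nat_lit 2), (nat_lit 0), (nat_lit 0)⟩)
(.lf ⟨(nat_lit 0xc21030840c2103084), (nat_lit 12), (nat_lit 33), (nat_lit 1)⟩))
(.lf ⟨(nat_lit 729), (nat_lit 2), (nat_lit 0x64b), (nat_lit 2)⟩))))
(.nd (.nd (.nd (.nd (.lf ⟨(nat_lit 195), (nat_lit 2), (nat_lit 0), (nat_lit 0)⟩)
(.lf ⟨(nat_lit 288), (nat_lit 2), (nat_lit 0x804), (nat_lit 2)⟩))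
(.nd (.lf ⟨(nat_lit 203), (nat_lit 2), (nat_lit 707), (nat_lit 2)⟩)
(.lf ⟨(nat_lit 0x4083083), (nat_lit 5), (nat_lit 0x20c20c4), (nat_lit 5)⟩)))
(.nd (.nd (.lf ⟨(nat_lit 196), (nat_lit 2), (nat_lit 0xb103), (nat_lit 3)⟩)
(.lf ⟨(nat_lit 672), (nat_lit 2), (nat_lit 0x80a), (nat_lit 2)⟩))
(.lf ⟨(nat_lit 651), (nat_lit 2), (nat_lit 0x212ca), (nat_lit 3)⟩)))
(.nd (.nd (.nd (.lf ⟨(nat_lit 132), (nat_lit 2), (nat_lit 0xa102), (nat_lit 3)⟩)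
(.lf ⟨(nat_lit 131), (nat_lit 2), (nat_lit 0x200c2), (nat_lit 3)⟩))
(.lf ⟨(nat_lit 160), (nat_lit 2), (nat_lit 0x802), (nat_lit 2)⟩))
(.nd (.nd (.lf ⟨(nat_lit 0x820), (nat_lit 2), (nat_lit 0), (nat_lit 0)⟩)
(.lf ⟨(nat_lit 0xc21030840c2103084), (nat_lit 12), (nat_lit 0), (nat_lit 0)⟩))
(.lf ⟨(nat_lit 217), (nat_lit 2), (nat_lit 0x643), (nat_lit 2)⟩)))))

/-- Context. -/
noncomputable def x6 : ℕ → ℕ × ℕ :=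
  mkc d5 295 s5 x5 (nth [] (Cl.alts (nsCl 1 [[0, 1], [1, 1], [0]])) 0)

set_option maxRecDepth 100000 in
/-- Facts. -/
noncomputable def d7 : Tr :=
(.nd (.nd (.nd (.nd (.nd (.lf ⟨(nat_lit 130), (nat_lit 2), (nat_lit 0), (nat_lit 0)⟩)
(.lf ⟨(nat_lit 161), (nat_lit 2), (nat_lit 0x842), (nat_lit 2)⟩))
(.nd (.lf ⟨(nat_lit 138), (nat_lit 2), (nat_lit 642), (nat_lit 2)⟩)
(.lf ⟨(nat_lit 32), (nat_lit 1), (nat_lit 33), (nat_lit 1)⟩)))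
(.nd (.nd (.lf ⟨(nat_lit 715), (nat_lit 2), (nat_lit 0), (nat_lit 0)⟩)
(.lf ⟨(nat_lit 139), (nat_lit 2), (nat_lit 0x218192c2), (nat_lit 5)⟩))
(.lf ⟨(nat_lit 673), (nat_lit 2), (nat_lit 0x84a), (nat_lit 2)⟩)))
(.nd (.nd (.nd (.lf ⟨(nat_lit 650), (nat_lit 2), (nat_lit 0), (nat_lit 0)⟩)
(.lf ⟨(nat_lit 202), (nat_lit 2), (nat_lit 0x819283), (nat_lit 4)⟩))
(.lf ⟨(nat_lit 0x661), (nat_lit 2), (nat_lit 0x859), (nat_lit 2)⟩))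
(.nd (.nd (.lf ⟨(nat_lit 0x659), (nat_lit 2), (nat_lit 0), (nat_lit 0)⟩)
(.lf ⟨(nat_lit 0xc21030840c2103084), (nat_lit 12), (nat_lit 33), (nat_lit 1)⟩))
(.lf ⟨(nat_lit 729), (nat_lit 2), (nat_lit 0x64b), (nat_lit 2)⟩))))
(.nd (.nd (.nd (.nd (.lf ⟨(nat_lit 195), (nat_lit 2), (nat_lit 0), (nat_lit 0)⟩)
(.lf ⟨(nat_lit 217), (nat_lit 2), (nat_lit 0x643), (nat_lit 2)⟩))
(.nd (.lf ⟨(nat_lit 203), (nat_lit 2), (nat_lit 707), (nat_lit 2)⟩)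
(.lf ⟨(nat_lit 0x4083083), (nat_lit 5), (nat_lit 0x20c20c4), (nat_lit 5)⟩)))
(.nd (.nd (.lf ⟨(nat_lit 196), (nat_lit 2), (nat_lit 0xb103), (nat_lit 3)⟩)
(.lf ⟨(nat_lit 737), (nat_lit 2), (nat_lit 0x84b), (nat_lit 2)⟩))
(.lf ⟨(nat_lit 651), (nat_lit 2), (nat_lit 0x212ca), (nat_lit 3)⟩)))
(.nd (.nd (.nd (.lf ⟨(nat_lit 132), (nat_lit 2), (nat_lit 0xa102), (nat_lit 3)⟩)
(.lf ⟨(nat_lit 131), (nat_lit 2), (nat_lit 0x200c2), (nat_lit 3)⟩))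
(.lf ⟨(nat_lit 289), (nat_lit 2), (nat_lit 0x844), (nat_lit 2)⟩))
(.nd (.nd (.lf ⟨(nat_lit 0x861), (nat_lit 2), (nat_lit 0), (nat_lit 0)⟩)
(.lf ⟨(nat_lit 0xc21030840c2103084), (nat_lit 12), (nat_lit 32), (nat_lit 1)⟩))
(.lf ⟨(nat_lit 225), (nat_lit 2), (nat_lit 0x843), (nat_lit 2)⟩)))))

/-- Context. -/
noncomputable def x7 : ℕ → ℕ × ℕ :=
  mkc d5 295 s5 x5 (nth [] (Cl.alts (nsCl 1 [[0, 1], [1, 1], [0]])) 1)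

set_option maxRecDepth 100000 in
/-- Facts. -/
noncomputable def d8 : Tr :=
(.nd (.nd (.nd (.nd (.nd (.nd (.lf ⟨(nat_lit 65), (nat_lit 2), (nat_lit 0), (nat_lit 0)⟩)
(.lf ⟨(nat_lit 670), (nat_lit 2), (nat_lit 0x78a), (nat_lit 2)⟩))
(.nd (.lf ⟨(nat_lit 87), (nat_lit 2), (nat_lit 0x1e5c1), (nat_lit 3)⟩)
(.lf ⟨(nat_lit 6), (nat_lit 1), (nat_lit 0x1e5d6), (nat_lit 3)⟩)))
(.nd (.nd (.lf ⟨(nat_lit 196), (nat_lit 2), (nat_lit 0xb103), (nat_lit 3)⟩)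
(.lf ⟨(nat_lit 342), (nat_lit 2), (nat_lit 0x585), (nat_lit 2)⟩))
(.nd (.lf ⟨(nat_lit 651), (nat_lit 2), (nat_lit 0x1d2ca), (nat_lit 3)⟩)
(.lf ⟨(nat_lit 663), (nat_lit 2), (nat_lit 0x5ca), (nat_lit 2)⟩))))
(.nd (.nd (.nd (.lf ⟨(nat_lit 325), (nat_lit 2), (nat_lit 0), (nat_lit 0)⟩)
(.lf ⟨(nat_lit 0x75e), (nat_lit 2), (nat_lit 0x79d), (nat_lit 2)⟩))
(.nd (.lf ⟨(nat_lit 655), (nat_lit 2), (nat_lit 970), (nat_lit 2)⟩)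
(.lf ⟨(nat_lit 0x59e), (nat_lit 2), (nat_lit 0x796), (nat_lit 2)⟩)))
(.nd (.nd (.lf ⟨(nat_lit 139), (nat_lit 2), (nat_lit 0x112c2), (nat_lit 3)⟩)
(.lf ⟨(nat_lit 645), (nat_lit 2), (nat_lit 0x1d714a), (nat_lit 4)⟩))
(.nd (.lf ⟨(nat_lit 662), (nat_lit 2), (nat_lit 0x58a), (nat_lit 2)⟩)
(.lf ⟨(nat_lit 0x4083083), (nat_lit 5), (nat_lit 0x20c20c4), (nat_lit 5)⟩)))))
(.nd (.nd (.nd (.nd (.lf ⟨(nat_lit 195), (nat_lit 2), (nat_lit 0), (nat_lit 0)⟩)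
(.lf ⟨(nat_lit 158), (nat_lit 2), (nat_lit 0x78f28528718558a1ca18a14a1563c2), (nat_lit 20)⟩))
(.nd (.lf ⟨(nat_lit 138), (nat_lit 2), (nat_lit 642), (nat_lit 2)⟩)
(.lf ⟨(nat_lit 330), (nat_lit 2), (nat_lit 0x797285), (nat_lit 4)⟩)))
(.nd (.nd (.lf ⟨(nat_lit 390), (nat_lit 2), (nat_lit 0), (nat_lit 0)⟩)
(.lf ⟨(nat_lit 6), (nat_lit 1), (nat_lit 0x75d6), (nat_lit 3)⟩))
(.nd (.lf ⟨(nat_lit 343), (nat_lit 2), (nat_lit 0x5c5), (nat_lit 2)⟩)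
(.lf ⟨(nat_lit 651), (nat_lit 2), (nat_lit 714), (nat_lit 2)⟩))))
(.nd (.nd (.nd (.lf ⟨(nat_lit 132), (nat_lit 2), (nat_lit 0xa102), (nat_lit 3)⟩)
(.lf ⟨(nat_lit 734), (nat_lit 2), (nat_lit 0x78b), (nat_lit 2)⟩))
(.nd (.lf ⟨(nat_lit 983), (nat_lit 2), (nat_lit 0x5cf), (nat_lit 2)⟩)
(.lf ⟨(nat_lit 29), (nat_lit 1), (nat_lit 0), (nat_lit 0)⟩)))
(.nd (.nd (.lf ⟨(nat_lit 0x5d7), (nat_lit 2), (nat_lit 0), (nat_lit 0)⟩)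
(.lf ⟨(nat_lit 342), (nat_lit 2), (nat_lit 0x585), (nat_lit 2)⟩))
(.lf ⟨(nat_lit 335), (nat_lit 2), (nat_lit 0x1e3c5), (nat_lit 3)⟩)))))
(.nd (.nd (.nd (.nd (.nd (.lf ⟨(nat_lit 130), (nat_lit 2), (nat_lit 0), (nat_lit 0)⟩)
(.lf ⟨(nat_lit 263), (nat_lit 2), (nat_lit 0x72c775130b287284), (nat_lit 11)⟩))
(.nd (.lf ⟨(nat_lit 131), (nat_lit 2), (nat_lit 0x70c2), (nat_lit 3)⟩)
(.lf ⟨(nat_lit 12), (nat_lit 1), (nat_lit 30), (nat_lit 1)⟩)))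
(.nd (.nd (.lf ⟨(nat_lit 202), (nat_lit 2), (nat_lit 0xc283), (nat_lit 3)⟩)
(.lf ⟨(nat_lit 87), (nat_lit 2), (nat_lit 0x75c1), (nat_lit 3)⟩))
(.nd (.lf ⟨(nat_lit 350), (nat_lit 2), (nat_lit 0x785), (nat_lit 2)⟩)
(.lf ⟨(nat_lit 139), (nat_lit 2), (nat_lit 0x1e2c2), (nat_lit 3)⟩))))
(.nd (.nd (.nd (.lf ⟨(nat_lit 650), (nat_lit 2), (nat_lit 0), (nat_lit 0)⟩)
(.lf ⟨(nat_lit 286), (nat_lit 2), (nat_lit 0x784), (nat_lit 2)⟩))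
(.nd (.lf ⟨(nat_lit 721), (nat_lit 2), (nat_lit 0x44b), (nat_lit 2)⟩)
(.lf ⟨(nat_lit 131), (nat_lit 2), (nat_lit 0x1e0c2), (nat_lit 3)⟩)))
(.nd (.nd (.lf ⟨(nat_lit 0x596), (nat_lit 2), (nat_lit 0), (nat_lit 0)⟩)
(.lf ⟨(nat_lit 0x597), (nat_lit 2), (nat_lit 0x5d6), (nat_lit 2)⟩))
(.lf ⟨(nat_lit 222), (nat_lit 2), (nat_lit 0x783), (nat_lit 2)⟩))))
(.nd (.nd (.nd (.nd (.lf ⟨(nat_lit 260), (nat_lit 2), (nat_lit 0), (nat_lit 0)⟩)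
(.lf ⟨(nat_lit 663), (nat_lit 2), (nat_lit 0x5cf30f30a), (nat_lit 6)⟩))
(.nd (.lf ⟨(nat_lit 203), (nat_lit 2), (nat_lit 707), (nat_lit 2)⟩)
(.lf ⟨(nat_lit 202), (nat_lit 2), (nat_lit 0x1e283), (nat_lit 3)⟩)))
(.nd (.nd (.lf ⟨(nat_lit 975), (nat_lit 2), (nat_lit 0), (nat_lit 0)⟩)
(.lf ⟨(nat_lit 12), (nat_lit 1), (nat_lit 7), (nat_lit 1)⟩))
(.nd (.lf ⟨(nat_lit 268), (nat_lit 2), (nat_lit 0x1d304), (nat_lit 3)⟩)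
(.lf ⟨(nat_lit 158), (nat_lit 2), (nat_lit 0x782), (nat_lit 2)⟩))))
(.nd (.nd (.nd (.lf ⟨(nat_lit 715), (nat_lit 2), (nat_lit 0), (nat_lit 0)⟩)
(.lf ⟨(nat_lit 0x597), (nat_lit 2), (nat_lit 0x5d6), (nat_lit 2)⟩))
(.nd (.lf ⟨(nat_lit 0x5de), (nat_lit 2), (nat_lit 0x797), (nat_lit 2)⟩)
(.lf ⟨(nat_lit 17), (nat_lit 1), (nat_lit 30), (nat_lit 1)⟩)))
(.nd (.nd (.lf ⟨(nat_lit 0x79e), (nat_lit 2), (nat_lit 0), (nat_lit 0)⟩)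
(.lf ⟨(nat_lit 7), (nat_lit 1), (nat_lit 30), (nat_lit 1)⟩))
(.lf ⟨(nat_lit 990), (nat_lit 2), (nat_lit 0x78f), (nat_lit 2)⟩))))))

/-- Context. -/
noncomputable def x8 : ℕ → ℕ × ℕ :=
  mkc d3 736 s3 x3 (nth [] (Cl.alts H3.cl) 2)

set_option maxRecDepth 100000 in
/-- Facts. -/
noncomputable def d9 : Tr :=
(.nd (.nd (.nd (.nd (.nd (.nd (.nd (.nd (.nd (.lf ⟨(nat_lit 65), (nat_lit 2), (nat_lit 0), (nat_lit 0)⟩)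
(.lf ⟨(nat_lit 0x1075a), (nat_lit 3), (nat_lit 0x1d68775a1da41d), (nat_lit 9)⟩))
(.lf ⟨(nat_lit 484), (nat_lit 2), (nat_lit 0x907), (nat_lit 2)⟩))
(.nd (.lf ⟨(nat_lit 331), (nat_lit 2), (nat_lit 0x1a2c5), (nat_lit 3)⟩)
(.lf ⟨(nat_lit 151), (nat_lit 2), (nat_lit 0x5c2), (nat_lit 2)⟩)))
(.nd (.nd (.lf ⟨(nat_lit 0x79e), (nat_lit 2), (nat_lit 0), (nat_lit 0)⟩)
(.lf ⟨(nat_lit 0x524), (nat_lit 2), (nat_lit 0x914), (nat_lit 2)⟩))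
(.nd (.lf ⟨(nat_lit 912), (nat_lit 2), (nat_lit 0x40e), (nat_lit 2)⟩)
(.lf ⟨(nat_lit 0x417), (nat_lit 2), (nat_lit 0x5e4757917750), (nat_lit 8)⟩))))
(.nd (.nd (.nd (.nd (.lf ⟨(nat_lit 75), (nat_lit 2), (nat_lit 0x102c1), (nat_lit 3)⟩)
(.lf ⟨(nat_lit 97), (nat_lit 2), (nat_lit 0x841), (nat_lit 2)⟩))
(.lf ⟨(nat_lit 608), (nat_lit 2), (nat_lit 0x809), (nat_lit 2)⟩))
(.nd (.lf ⟨(nat_lit 336), (nat_lit 2), (nat_lit 0x405), (nat_lit 2)⟩)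
(.lf ⟨(nat_lit 710), (nat_lit 2), (nat_lit 0x1dd5dd4571905c640745718b), (nat_lit 16)⟩)))
(.nd (.nd (.lf ⟨(nat_lit 79), (nat_lit 2), (nat_lit 961), (nat_lit 2)⟩)
(.lf ⟨(nat_lit 0x5c7), (nat_lit 2), (nat_lit 471), (nat_lit 2)⟩))
(.nd (.lf ⟨(nat_lit 7), (nat_lit 1), (nat_lit 0x471811c6), (nat_lit 6)⟩)
(.lf ⟨(nat_lit 0x5da), (nat_lit 2), (nat_lit 0x697), (nat_lit 2)⟩)))))
(.nd (.nd (.nd (.nd (.nd (.lf ⟨(nat_lit 650), (nat_lit 2), (nat_lit 0), (nat_lit 0)⟩)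
(.lf ⟨(nat_lit 480), (nat_lit 2), (nat_lit 0x807), (nat_lit 2)⟩))
(.lf ⟨(nat_lit 155), (nat_lit 2), (nat_lit 0x6c2), (nat_lit 2)⟩))
(.nd (.lf ⟨(nat_lit 730), (nat_lit 2), (nat_lit 0x68b), (nat_lit 2)⟩)
(.lf ⟨(nat_lit 143), (nat_lit 2), (nat_lit 0x173c2), (nat_lit 3)⟩)))
(.nd (.nd (.lf ⟨(nat_lit 65), (nat_lit 2), (nat_lit 0), (nat_lit 0)⟩)
(.lf ⟨(nat_lit 656), (nat_lit 2), (nat_lit 0x243dd40f74f2cf2ca), (nat_lit 11)⟩))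
(.nd (.lf ⟨(nat_lit 25), (nat_lit 1), (nat_lit 0x90090), (nat_lit 4)⟩)
(.lf ⟨(nat_lit 976), (nat_lit 2), (nat_lit 0x40f), (nat_lit 2)⟩))))
(.nd (.nd (.nd (.lf ⟨(nat_lit 0x69a), (nat_lit 2), (nat_lit 0), (nat_lit 0)⟩)
(.lf ⟨(nat_lit 0xf757), (nat_lit 3), (nat_lit 0x1d5dd3dd), (nat_lit 5)⟩))
(.nd (.lf ⟨(nat_lit 612), (nat_lit 2), (nat_lit 0x909), (nat_lit 2)⟩)
(.lf ⟨(nat_lit 0x5e0), (nat_lit 2), (nat_lit 0x817), (nat_lit 2)⟩)))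
(.nd (.nd (.lf ⟨(nat_lit 983), (nat_lit 2), (nat_lit 0x5cf), (nat_lit 2)⟩)
(.lf ⟨(nat_lit 18), (nat_lit 1), (nat_lit 7), (nat_lit 1)⟩))
(.nd (.lf ⟨(nat_lit 987), (nat_lit 2), (nat_lit 0x6cf), (nat_lit 2)⟩)
(.lf ⟨(nat_lit 656), (nat_lit 2), (nat_lit 0x2475074a), (nat_lit 5)⟩))))))
(.nd (.nd (.nd (.nd (.nd (.nd (.lf ⟨(nat_lit 520), (nat_lit 2), (nat_lit 0), (nat_lit 0)⟩)
(.lf ⟨(nat_lit 0x687), (nat_lit 2), (nat_lit 474), (nat_lit 2)⟩))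
(.lf ⟨(nat_lit 796), (nat_lit 2), (nat_lit 0x49c45244c), (nat_lit 6)⟩))
(.nd (.lf ⟨(nat_lit 733), (nat_lit 2), (nat_lit 0x74b), (nat_lit 2)⟩)
(.lf ⟨(nat_lit 18), (nat_lit 1), (nat_lit 7), (nat_lit 1)⟩)))
(.nd (.nd (.lf ⟨(nat_lit 281), (nat_lit 2), (nat_lit 0x21644), (nat_lit 3)⟩)
(.lf ⟨(nat_lit 0x421), (nat_lit 2), (nat_lit 0x850), (nat_lit 2)⟩))
(.nd (.lf ⟨(nat_lit 454), (nat_lit 2), (nat_lit 0xc80c8), (nat_lit 4)⟩)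
(.lf ⟨(nat_lit 0x5750), (nat_lit 3), (nat_lit 0x246a475075a15d), (nat_lit 9)⟩))))
(.nd (.nd (.nd (.nd (.lf ⟨(nat_lit 143), (nat_lit 2), (nat_lit 0x163c2), (nat_lit 3)⟩)
(.lf ⟨(nat_lit 710), (nat_lit 2), (nat_lit 0x40640b), (nat_lit 4)⟩))
(.lf ⟨(nat_lit 0xb5912d6), (nat_lit 5), (nat_lit 0x1644b58b), (nat_lit 5)⟩))
(.nd (.lf ⟨(nat_lit 669), (nat_lit 2), (nat_lit 0x74a), (nat_lit 2)⟩)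
(.lf ⟨(nat_lit 288), (nat_lit 2), (nat_lit 0x6d750f81b41750f404), (nat_lit 12)⟩)))
(.nd (.nd (.lf ⟨(nat_lit 596), (nat_lit 2), (nat_lit 0x509), (nat_lit 2)⟩)
(.lf ⟨(nat_lit 151), (nat_lit 2), (nat_lit 0x5c2), (nat_lit 2)⟩))
(.nd (.lf ⟨(nat_lit 148), (nat_lit 2), (nat_lit 0x502), (nat_lit 2)⟩)
(.lf ⟨(nat_lit 719), (nat_lit 2), (nat_lit 971), (nat_lit 2)⟩)))))
(.nd (.nd (.nd (.nd (.nd (.lf ⟨(nat_lit 390), (nat_lit 2), (nat_lit 0), (nat_lit 0)⟩)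
(.lf ⟨(nat_lit 0x6411), (nat_lit 3), (nat_lit 0x10450190), (nat_lit 5)⟩))
(.lf ⟨(nat_lit 663), (nat_lit 2), (nat_lit 0x5cf30f30a), (nat_lit 6)⟩))
(.nd (.lf ⟨(nat_lit 527), (nat_lit 2), (nat_lit 968), (nat_lit 2)⟩)
(.lf ⟨(nat_lit 209), (nat_lit 2), (nat_lit 0x1d14171901d7183), (nat_lit 10)⟩)))
(.nd (.nd (.lf ⟨(nat_lit 265), (nat_lit 2), (nat_lit 580), (nat_lit 2)⟩)
(.lf ⟨(nat_lit 0xa819), (nat_lit 3), (nat_lit 0x2166440f7503dd3cb3cb2a0), (nat_lit 15)⟩))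
(.nd (.lf ⟨(nat_lit 785), (nat_lit 2), (nat_lit 0x44c), (nat_lit 2)⟩)
(.lf ⟨(nat_lit 672), (nat_lit 2), (nat_lit 0x80a), (nat_lit 2)⟩))))
(.nd (.nd (.nd (.lf ⟨(nat_lit 81), (nat_lit 2), (nat_lit 0x1c441), (nat_lit 3)⟩)
(.lf ⟨(nat_lit 0x41d41d), (nat_lit 4), (nat_lit 0x750750), (nat_lit 4)⟩))
(.nd (.lf ⟨(nat_lit 17), (nat_lit 1), (nat_lit 0x8b08b), (nat_lit 4)⟩)
(.lf ⟨(nat_lit 0xa810), (nat_lit 3), (nat_lit 0x5e43dd4173dd2a0), (nat_lit 10)⟩)))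
(.nd (.nd (.lf ⟨(nat_lit 0x5de), (nat_lit 2), (nat_lit 0x797), (nat_lit 2)⟩)
(.lf ⟨(nat_lit 0x5c7), (nat_lit 2), (nat_lit 471), (nat_lit 2)⟩))
(.nd (.lf ⟨(nat_lit 0x707), (nat_lit 2), (nat_lit 476), (nat_lit 2)⟩)
(.lf ⟨(nat_lit 0x821), (nat_lit 2), (nat_lit 0x860), (nat_lit 2)⟩)))))))
(.nd (.nd (.nd (.nd (.nd (.nd (.nd (.lf ⟨(nat_lit 195), (nat_lit 2), (nat_lit 0), (nat_lit 0)⟩)
(.lf ⟨(nat_lit 209), (nat_lit 2), (nat_lit 0x1d745019a1da5d0183), (nat_lit 12)⟩))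
(.lf ⟨(nat_lit 0x520), (nat_lit 2), (nat_lit 0x814), (nat_lit 2)⟩))
(.nd (.lf ⟨(nat_lit 343), (nat_lit 2), (nat_lit 0x5c5), (nat_lit 2)⟩)
(.lf ⟨(nat_lit 30), (nat_lit 1), (nat_lit 0), (nat_lit 0)⟩)))
(.nd (.nd (.lf ⟨(nat_lit 0x820), (nat_lit 2), (nat_lit 0), (nat_lit 0)⟩)
(.lf ⟨(nat_lit 609), (nat_lit 2), (nat_lit 0x849), (nat_lit 2)⟩))
(.nd (.lf ⟨(nat_lit 282), (nat_lit 2), (nat_lit 0x684), (nat_lit 2)⟩)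
(.lf ⟨(nat_lit 0x457), (nat_lit 2), (nat_lit 0x5d1), (nat_lit 2)⟩))))
(.nd (.nd (.nd (.nd (.lf ⟨(nat_lit 139), (nat_lit 2), (nat_lit 0x112c2), (nat_lit 3)⟩)
(.lf ⟨(nat_lit 711), (nat_lit 2), (nat_lit 0x1d019018b), (nat_lit 6)⟩))
(.lf ⟨(nat_lit 604), (nat_lit 2), (nat_lit 0x28709), (nat_lit 3)⟩))
(.nd (.lf ⟨(nat_lit 657), (nat_lit 2), (nat_lit 0x44a), (nat_lit 2)⟩)
(.lf ⟨(nat_lit 412), (nat_lit 2), (nat_lit 0x5dc5c6), (nat_lit 4)⟩)))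
(.nd (.nd (.lf ⟨(nat_lit 916), (nat_lit 2), (nat_lit 0x50e), (nat_lit 2)⟩)
(.lf ⟨(nat_lit 647), (nat_lit 2), (nat_lit 458), (nat_lit 2)⟩))
(.nd (.lf ⟨(nat_lit 903), (nat_lit 2), (nat_lit 462), (nat_lit 2)⟩)
(.lf ⟨(nat_lit 727), (nat_lit 2), (nat_lit 0x5cb), (nat_lit 2)⟩)))))
(.nd (.nd (.nd (.nd (.nd (.lf ⟨(nat_lit 715), (nat_lit 2), (nat_lit 0), (nat_lit 0)⟩)
(.lf ⟨(nat_lit 0x6a0), (nat_lit 2), (nat_lit 0x81a), (nat_lit 2)⟩))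
(.lf ⟨(nat_lit 667), (nat_lit 2), (nat_lit 0x6ca), (nat_lit 2)⟩))
(.nd (.lf ⟨(nat_lit 923), (nat_lit 2), (nat_lit 0x6ce), (nat_lit 2)⟩)
(.lf ⟨(nat_lit 711), (nat_lit 2), (nat_lit 0x4171901d718b), (nat_lit 8)⟩)))
(.nd (.nd (.lf ⟨(nat_lit 195), (nat_lit 2), (nat_lit 0), (nat_lit 0)⟩)
(.lf ⟨(nat_lit 665), (nat_lit 2), (nat_lit 0x8599103dd40f74f2cf2ca), (nat_lit 14)⟩))
(.nd (.lf ⟨(nat_lit 261), (nat_lit 2), (nat_lit 0x1b69440e144), (nat_lit 7)⟩)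
(.lf ⟨(nat_lit 989), (nat_lit 2), (nat_lit 0x74f), (nat_lit 2)⟩))))
(.nd (.nd (.nd (.lf ⟨(nat_lit 0x6db), (nat_lit 2), (nat_lit 0), (nat_lit 0)⟩)
(.lf ⟨(nat_lit 279), (nat_lit 2), (nat_lit 0x75774f2cf2c4), (nat_lit 8)⟩))
(.nd (.lf ⟨(nat_lit 16), (nat_lit 1), (nat_lit 0x4b04b), (nat_lit 4)⟩)
(.lf ⟨(nat_lit 0x10757), (nat_lit 3), (nat_lit 0x2475791d41d), (nat_lit 7)⟩)))
(.nd (.nd (.lf ⟨(nat_lit 0x41a), (nat_lit 2), (nat_lit 0x690), (nat_lit 2)⟩)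
(.lf ⟨(nat_lit 12), (nat_lit 1), (nat_lit 0x75c6), (nat_lit 3)⟩))
(.nd (.lf ⟨(nat_lit 0x5db), (nat_lit 2), (nat_lit 0x6d7), (nat_lit 2)⟩)
(.lf ⟨(nat_lit 665), (nat_lit 2), (nat_lit 0x85991d41d40a), (nat_lit 8)⟩))))))
(.nd (.nd (.nd (.nd (.nd (.nd (.lf ⟨(nat_lit 585), (nat_lit 2), (nat_lit 0), (nat_lit 0)⟩)
(.lf ⟨(nat_lit 0x5e3), (nat_lit 2), (nat_lit 0x8d7), (nat_lit 2)⟩))
(.lf ⟨(nat_lit 919), (nat_lit 2), (nat_lit 0x5ce), (nat_lit 2)⟩))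
(.nd (.lf ⟨(nat_lit 797), (nat_lit 2), (nat_lit 0x74c), (nat_lit 2)⟩)
(.lf ⟨(nat_lit 12), (nat_lit 1), (nat_lit 0x75c6), (nat_lit 3)⟩)))
(.nd (.nd (.lf ⟨(nat_lit 0x924), (nat_lit 2), (nat_lit 0), (nat_lit 0)⟩)
(.lf ⟨(nat_lit 0x10757), (nat_lit 3), (nat_lit 0x1e91e75791d41d), (nat_lit 9)⟩))
(.nd (.lf ⟨(nat_lit 0x51b), (nat_lit 2), (nat_lit 0x6d4), (nat_lit 2)⟩)
(.lf ⟨(nat_lit 0x407), (nat_lit 2), (nat_lit 0x5e475791d5da1d7690), (nat_lit 12)⟩))))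
(.nd (.nd (.nd (.lf ⟨(nat_lit 0x659), (nat_lit 2), (nat_lit 0), (nat_lit 0)⟩)
(.lf ⟨(nat_lit 0x424), (nat_lit 2), (nat_lit 0x910), (nat_lit 2)⟩))
(.nd (.lf ⟨(nat_lit 990), (nat_lit 2), (nat_lit 0x78f), (nat_lit 2)⟩)
(.lf ⟨(nat_lit 279), (nat_lit 2), (nat_lit 0x5c4), (nat_lit 2)⟩)))
(.nd (.nd (.lf ⟨(nat_lit 720), (nat_lit 2), (nat_lit 0x40b), (nat_lit 2)⟩)
(.lf ⟨(nat_lit 335), (nat_lit 2), (nat_lit 965), (nat_lit 2)⟩))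
(.nd (.lf ⟨(nat_lit 660), (nat_lit 2), (nat_lit 0x50a), (nat_lit 2)⟩)
(.lf ⟨(nat_lit 288), (nat_lit 2), (nat_lit 0x6d750f81b5d43c4), (nat_lit 10)⟩)))))
(.nd (.nd (.nd (.nd (.nd (.lf ⟨(nat_lit 975), (nat_lit 2), (nat_lit 0), (nat_lit 0)⟩)
(.lf ⟨(nat_lit 0x4190), (nat_lit 3), (nat_lit 0x6c6406106), (nat_lit 6)⟩))
(.lf ⟨(nat_lit 288), (nat_lit 2), (nat_lit 0x6d650f81b41650f404), (nat_lit 12)⟩))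
(.nd (.lf ⟨(nat_lit 591), (nat_lit 2), (nat_lit 969), (nat_lit 2)⟩)
(.lf ⟨(nat_lit 719), (nat_lit 2), (nat_lit 0x7577573cb), (nat_lit 6)⟩)))
(.nd (.nd (.lf ⟨(nat_lit 715), (nat_lit 2), (nat_lit 0), (nat_lit 0)⟩)
(.lf ⟨(nat_lit 356), (nat_lit 2), (nat_lit 0x905), (nat_lit 2)⟩))
(.nd (.lf ⟨(nat_lit 203), (nat_lit 2), (nat_lit 707), (nat_lit 2)⟩)
(.lf ⟨(nat_lit 0x1075a), (nat_lit 3), (nat_lit 0x1d68775a1d769741d), (nat_lit 11)⟩))))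
(.nd (.nd (.nd (.lf ⟨(nat_lit 455), (nat_lit 2), (nat_lit 0), (nat_lit 0)⟩)
(.lf ⟨(nat_lit 0x5a0), (nat_lit 2), (nat_lit 0x816), (nat_lit 2)⟩))
(.nd (.lf ⟨(nat_lit 26), (nat_lit 1), (nat_lit 0xd00d0), (nat_lit 4)⟩)
(.lf ⟨(nat_lit 161), (nat_lit 2), (nat_lit 0x41790f7505cf742), (nat_lit 10)⟩)))
(.nd (.nd (.lf ⟨(nat_lit 0x764), (nat_lit 2), (nat_lit 0x91d), (nat_lit 2)⟩)
(.lf ⟨(nat_lit 647), (nat_lit 2), (nat_lit 458), (nat_lit 2)⟩))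
(.nd (.lf ⟨(nat_lit 0x6dd), (nat_lit 2), (nat_lit 0x75b), (nat_lit 2)⟩)
(.lf ⟨(nat_lit 97), (nat_lit 2), (nat_lit 0x6d750f81b5d440f860401), (nat_lit 14)⟩))))))))
(.nd (.nd (.nd (.nd (.nd (.nd (.nd (.nd (.lf ⟨(nat_lit 130), (nat_lit 2), (nat_lit 0), (nat_lit 0)⟩)
(.lf ⟨(nat_lit 711), (nat_lit 2), (nat_lit 0x5d019a1da5d018b), (nat_lit 10)⟩))
(.lf ⟨(nat_lit 928), (nat_lit 2), (nat_lit 0x80e), (nat_lit 2)⟩))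
(.nd (.lf ⟨(nat_lit 0x447), (nat_lit 2), (nat_lit 465), (nat_lit 2)⟩)
(.lf ⟨(nat_lit 22), (nat_lit 1), (nat_lit 23), (nat_lit 1)⟩)))
(.nd (.nd (.lf ⟨(nat_lit 87), (nat_lit 2), (nat_lit 0x1e5c1), (nat_lit 3)⟩)
(.lf ⟨(nat_lit 0x521), (nat_lit 2), (nat_lit 0x854), (nat_lit 2)⟩))
(.nd (.lf ⟨(nat_lit 922), (nat_lit 2), (nat_lit 0x68e), (nat_lit 2)⟩)
(.lf ⟨(nat_lit 97), (nat_lit 2), (nat_lit 0x6d750f81b5e475791775440f860401), (nat_lit 20)⟩))))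
(.nd (.nd (.nd (.nd (.lf ⟨(nat_lit 0x451), (nat_lit 2), (nat_lit 0), (nat_lit 0)⟩)
(.lf ⟨(nat_lit 0x407), (nat_lit 2), (nat_lit 464), (nat_lit 2)⟩))
(.lf ⟨(nat_lit 0x419a510), (nat_lit 5), (nat_lit 0x6c6694406106), (nat_lit 8)⟩))
(.nd (.lf ⟨(nat_lit 592), (nat_lit 2), (nat_lit 0x409), (nat_lit 2)⟩)
(.lf ⟨(nat_lit 264), (nat_lit 2), (nat_lit 0x1b5d43ce204), (nat_lit 7)⟩)))
(.nd (.nd (.lf ⟨(nat_lit 215), (nat_lit 2), (nat_lit 0x5c3), (nat_lit 2)⟩)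
(.lf ⟨(nat_lit 967), (nat_lit 2), (nat_lit 463), (nat_lit 2)⟩))
(.nd (.lf ⟨(nat_lit 0x507), (nat_lit 2), (nat_lit 468), (nat_lit 2)⟩)
(.lf ⟨(nat_lit 352), (nat_lit 2), (nat_lit 0x1e0687685), (nat_lit 6)⟩)))))
(.nd (.nd (.nd (.nd (.nd (.lf ⟨(nat_lit 132), (nat_lit 2), (nat_lit 0xa102), (nat_lit 3)⟩)
(.lf ⟨(nat_lit 0x5e1), (nat_lit 2), (nat_lit 0x857), (nat_lit 2)⟩))
(.lf ⟨(nat_lit 292), (nat_lit 2), (nat_lit 0x904), (nat_lit 2)⟩))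
(.nd (.lf ⟨(nat_lit 160), (nat_lit 2), (nat_lit 0x802), (nat_lit 2)⟩)
(.lf ⟨(nat_lit 87), (nat_lit 2), (nat_lit 0x5c1), (nat_lit 2)⟩)))
(.nd (.nd (.lf ⟨(nat_lit 130), (nat_lit 2), (nat_lit 0), (nat_lit 0)⟩)
(.lf ⟨(nat_lit 0xa810), (nat_lit 3), (nat_lit 0x90f7503dd3cb3cb2a0), (nat_lit 12)⟩))
(.nd (.lf ⟨(nat_lit 276), (nat_lit 2), (nat_lit 0x504), (nat_lit 2)⟩)
(.lf ⟨(nat_lit 986), (nat_lit 2), (nat_lit 0x68f), (nat_lit 2)⟩))))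
(.nd (.nd (.nd (.lf ⟨(nat_lit 208), (nat_lit 2), (nat_lit 0x1a403), (nat_lit 3)⟩)
(.lf ⟨(nat_lit 0x5dd5dd), (nat_lit 4), (nat_lit 0x757757), (nat_lit 4)⟩))
(.nd (.lf ⟨(nat_lit 5), (nat_lit 1), (nat_lit 0x43043), (nat_lit 4)⟩)
(.lf ⟨(nat_lit 420), (nat_lit 2), (nat_lit 0x5e45c6), (nat_lit 4)⟩)))
(.nd (.nd (.lf ⟨(nat_lit 0x419), (nat_lit 2), (nat_lit 0x650), (nat_lit 2)⟩)
(.lf ⟨(nat_lit 645), (nat_lit 2), (nat_lit 0x1d714a), (nat_lit 4)⟩))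
(.nd (.lf ⟨(nat_lit 0x6c7), (nat_lit 2), (nat_lit 475), (nat_lit 2)⟩)
(.lf ⟨(nat_lit 0x10760), (nat_lit 3), (nat_lit 0x2476091d41d), (nat_lit 7)⟩))))))
(.nd (.nd (.nd (.nd (.nd (.nd (.lf ⟨(nat_lit 325), (nat_lit 2), (nat_lit 0), (nat_lit 0)⟩)
(.lf ⟨(nat_lit 992), (nat_lit 2), (nat_lit 0x80f), (nat_lit 2)⟩))
(.lf ⟨(nat_lit 0x517), (nat_lit 2), (nat_lit 0x5d4), (nat_lit 2)⟩))
(.nd (.lf ⟨(nat_lit 722), (nat_lit 2), (nat_lit 0x41231030b), (nat_lit 6)⟩)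
(.lf ⟨(nat_lit 330), (nat_lit 2), (nat_lit 0x1d7285), (nat_lit 4)⟩)))
(.nd (.nd (.lf ⟨(nat_lit 284), (nat_lit 2), (nat_lit 0x23704), (nat_lit 3)⟩)
(.lf ⟨(nat_lit 804), (nat_lit 2), (nat_lit 0x91d49d48c), (nat_lit 6)⟩))
(.nd (.lf ⟨(nat_lit 28), (nat_lit 1), (nat_lit 0x51051), (nat_lit 4)⟩)
(.lf ⟨(nat_lit 0x6a4), (nat_lit 2), (nat_lit 0x91a), (nat_lit 2)⟩))))
(.nd (.nd (.nd (.lf ⟨(nat_lit 0x5d7), (nat_lit 2), (nat_lit 0), (nat_lit 0)⟩)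
(.lf ⟨(nat_lit 0x6e4), (nat_lit 2), (nat_lit 0x91b), (nat_lit 2)⟩))
(.nd (.lf ⟨(nat_lit 0x420), (nat_lit 2), (nat_lit 0x810), (nat_lit 2)⟩)
(.lf ⟨(nat_lit 0x115dd), (nat_lit 3), (nat_lit 0x17757457), (nat_lit 5)⟩)))
(.nd (.nd (.lf ⟨(nat_lit 655), (nat_lit 2), (nat_lit 970), (nat_lit 2)⟩)
(.lf ⟨(nat_lit 22), (nat_lit 1), (nat_lit 23), (nat_lit 1)⟩))
(.nd (.lf ⟨(nat_lit 980), (nat_lit 2), (nat_lit 0x50f), (nat_lit 2)⟩)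
(.lf ⟨(nat_lit 401), (nat_lit 2), (nat_lit 0x446), (nat_lit 2)⟩)))))
(.nd (.nd (.nd (.nd (.nd (.lf ⟨(nat_lit 910), (nat_lit 2), (nat_lit 0), (nat_lit 0)⟩)
(.lf ⟨(nat_lit 410), (nat_lit 2), (nat_lit 0x686), (nat_lit 2)⟩))
(.lf ⟨(nat_lit 599), (nat_lit 2), (nat_lit 0x5c9), (nat_lit 2)⟩))
(.nd (.lf ⟨(nat_lit 335), (nat_lit 2), (nat_lit 0x1e3c5), (nat_lit 3)⟩)
(.lf ⟨(nat_lit 335), (nat_lit 2), (nat_lit 965), (nat_lit 2)⟩)))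
(.nd (.nd (.lf ⟨(nat_lit 203), (nat_lit 2), (nat_lit 707), (nat_lit 2)⟩)
(.lf ⟨(nat_lit 0xb590), (nat_lit 3), (nat_lit 0x105905902d6), (nat_lit 7)⟩))
(.nd (.lf ⟨(nat_lit 0x28774b), (nat_lit 4), (nat_lit 0x744c2c730a1d1), (nat_lit 9)⟩)
(.lf ⟨(nat_lit 0x17687), (nat_lit 3), (nat_lit 0x1a1da5da), (nat_lit 5)⟩))))
(.nd (.nd (.nd (.lf ⟨(nat_lit 0x75d), (nat_lit 2), (nat_lit 0), (nat_lit 0)⟩)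
(.lf ⟨(nat_lit 740), (nat_lit 2), (nat_lit 0x91d41d40b), (nat_lit 6)⟩))
(.nd (.lf ⟨(nat_lit 0x747), (nat_lit 2), (nat_lit 477), (nat_lit 2)⟩)
(.lf ⟨(nat_lit 665), (nat_lit 2), (nat_lit 0x85941790f7505cf74a), (nat_lit 12)⟩)))
(.nd (.nd (.lf ⟨(nat_lit 0x660), (nat_lit 2), (nat_lit 0x819), (nat_lit 2)⟩)
(.lf ⟨(nat_lit 967), (nat_lit 2), (nat_lit 463), (nat_lit 2)⟩))
(.nd (.lf ⟨(nat_lit 925), (nat_lit 2), (nat_lit 0x74e), (nat_lit 2)⟩)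
(.lf ⟨(nat_lit 0x417), (nat_lit 2), (nat_lit 0x5d0), (nat_lit 2)⟩)))))))
(.nd (.nd (.nd (.nd (.nd (.nd (.nd (.lf ⟨(nat_lit 260), (nat_lit 2), (nat_lit 0), (nat_lit 0)⟩)
(.lf ⟨(nat_lit 710), (nat_lit 2), (nat_lit 0x1d744640668769741118b), (nat_lit 14)⟩))
(.lf ⟨(nat_lit 0x51d), (nat_lit 2), (nat_lit 0x754), (nat_lit 2)⟩))
(.nd (.lf ⟨(nat_lit 346), (nat_lit 2), (nat_lit 0x685), (nat_lit 2)⟩)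
(.lf ⟨(nat_lit 646), (nat_lit 2), (nat_lit 394), (nat_lit 2)⟩)))
(.nd (.nd (.lf ⟨(nat_lit 89), (nat_lit 2), (nat_lit 0x20641), (nat_lit 3)⟩)
(.lf ⟨(nat_lit 535), (nat_lit 2), (nat_lit 0x1de3c73c67973c63c8), (nat_lit 12)⟩))
(.nd (.lf ⟨(nat_lit 278), (nat_lit 2), (nat_lit 0x584), (nat_lit 2)⟩)
(.lf ⟨(nat_lit 0x5dd), (nat_lit 2), (nat_lit 0x757), (nat_lit 2)⟩))))
(.nd (.nd (.nd (.nd (.lf ⟨(nat_lit 0x514), (nat_lit 2), (nat_lit 0), (nat_lit 0)⟩)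
(.lf ⟨(nat_lit 209), (nat_lit 2), (nat_lit 0x450190183), (nat_lit 6)⟩))
(.lf ⟨(nat_lit 0x5da5da), (nat_lit 4), (nat_lit 0x697697), (nat_lit 4)⟩))
(.nd (.lf ⟨(nat_lit 603), (nat_lit 2), (nat_lit 0x6c9), (nat_lit 2)⟩)
(.lf ⟨(nat_lit 663), (nat_lit 2), (nat_lit 0x5ca), (nat_lit 2)⟩)))
(.nd (.nd (.lf ⟨(nat_lit 198), (nat_lit 2), (nat_lit 387), (nat_lit 2)⟩)
(.lf ⟨(nat_lit 535), (nat_lit 2), (nat_lit 0x5c8), (nat_lit 2)⟩))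
(.nd (.lf ⟨(nat_lit 404), (nat_lit 2), (nat_lit 0x506), (nat_lit 2)⟩)
(.lf ⟨(nat_lit 413), (nat_lit 2), (nat_lit 0x746), (nat_lit 2)⟩)))))
(.nd (.nd (.nd (.nd (.nd (.lf ⟨(nat_lit 202), (nat_lit 2), (nat_lit 0xc283), (nat_lit 3)⟩)
(.lf ⟨(nat_lit 0x190190), (nat_lit 4), (nat_lit 0x406406), (nat_lit 4)⟩))
(.lf ⟨(nat_lit 605), (nat_lit 2), (nat_lit 0x749), (nat_lit 2)⟩))
(.nd (.lf ⟨(nat_lit 209), (nat_lit 2), (nat_lit 0x1d12c72c3), (nat_lit 6)⟩)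
(.lf ⟨(nat_lit 413), (nat_lit 2), (nat_lit 0x5dd5c6), (nat_lit 4)⟩)))
(.nd (.nd (.lf ⟨(nat_lit 199), (nat_lit 2), (nat_lit 451), (nat_lit 2)⟩)
(.lf ⟨(nat_lit 161), (nat_lit 2), (nat_lit 0x9103dd40f74f2cf2c2), (nat_lit 12)⟩))
(.nd (.lf ⟨(nat_lit 0x414), (nat_lit 2), (nat_lit 0x510), (nat_lit 2)⟩)
(.lf ⟨(nat_lit 0x5dc), (nat_lit 2), (nat_lit 0x717), (nat_lit 2)⟩))))
(.nd (.nd (.nd (.lf ⟨(nat_lit 0x71c), (nat_lit 2), (nat_lit 0), (nat_lit 0)⟩)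
(.lf ⟨(nat_lit 0x528574a), (nat_lit 5), (nat_lit 0x1b69440e28529a51015d6ce), (nat_lit 15)⟩))
(.nd (.lf ⟨(nat_lit 8), (nat_lit 1), (nat_lit 0x42042), (nat_lit 4)⟩)
(.lf ⟨(nat_lit 656), (nat_lit 2), (nat_lit 0x1790f7505cf74a), (nat_lit 9)⟩)))
(.nd (.nd (.lf ⟨(nat_lit 0x45d), (nat_lit 2), (nat_lit 0x751), (nat_lit 2)⟩)
(.lf ⟨(nat_lit 407), (nat_lit 2), (nat_lit 0x5c6), (nat_lit 2)⟩))
(.nd (.lf ⟨(nat_lit 0x6e0), (nat_lit 2), (nat_lit 0x81b), (nat_lit 2)⟩)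
(.lf ⟨(nat_lit 161), (nat_lit 2), (nat_lit 0x91d41d402), (nat_lit 6)⟩))))))
(.nd (.nd (.nd (.nd (.nd (.nd (.lf ⟨(nat_lit 68), (nat_lit 2), (nat_lit 0x9101), (nat_lit 3)⟩)
(.lf ⟨(nat_lit 0x5e8), (nat_lit 2), (nat_lit 0xa17), (nat_lit 2)⟩))
(.lf ⟨(nat_lit 932), (nat_lit 2), (nat_lit 0x90e), (nat_lit 2)⟩))
(.nd (.lf ⟨(nat_lit 157), (nat_lit 2), (nat_lit 0x742), (nat_lit 2)⟩)
(.lf ⟨(nat_lit 202), (nat_lit 2), (nat_lit 0x75c6283), (nat_lit 5)⟩)))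
(.nd (.nd (.lf ⟨(nat_lit 93), (nat_lit 2), (nat_lit 0x24741), (nat_lit 3)⟩)
(.lf ⟨(nat_lit 996), (nat_lit 2), (nat_lit 0x90f), (nat_lit 2)⟩))
(.nd (.lf ⟨(nat_lit 0x51a), (nat_lit 2), (nat_lit 0x694), (nat_lit 2)⟩)
(.lf ⟨(nat_lit 0x5e4), (nat_lit 2), (nat_lit 0x917), (nat_lit 2)⟩))))
(.nd (.nd (.nd (.lf ⟨(nat_lit 144), (nat_lit 2), (nat_lit 0x19402), (nat_lit 3)⟩)
(.lf ⟨(nat_lit 727), (nat_lit 2), (nat_lit 0x75774b), (nat_lit 4)⟩))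
(.nd (.lf ⟨(nat_lit 340), (nat_lit 2), (nat_lit 0x505), (nat_lit 2)⟩)
(.lf ⟨(nat_lit 0x101d7), (nat_lit 3), (nat_lit 0x1a1d7690), (nat_lit 5)⟩)))
(.nd (.nd (.lf ⟨(nat_lit 721), (nat_lit 2), (nat_lit 0x44b), (nat_lit 2)⟩)
(.lf ⟨(nat_lit 646), (nat_lit 2), (nat_lit 394), (nat_lit 2)⟩))
(.nd (.lf ⟨(nat_lit 264), (nat_lit 2), (nat_lit 0x1b5943ce204), (nat_lit 7)⟩)
(.lf ⟨(nat_lit 0x10757), (nat_lit 3), (nat_lit 0x1741d), (nat_lit 3)⟩)))))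
(.nd (.nd (.nd (.nd (.nd (.lf ⟨(nat_lit 0x410), (nat_lit 2), (nat_lit 0), (nat_lit 0)⟩)
(.lf ⟨(nat_lit 288), (nat_lit 2), (nat_lit 0x804), (nat_lit 2)⟩))
(.lf ⟨(nat_lit 601), (nat_lit 2), (nat_lit 0x649), (nat_lit 2)⟩))
(.nd (.lf ⟨(nat_lit 528), (nat_lit 2), (nat_lit 0x20408), (nat_lit 3)⟩)
(.lf ⟨(nat_lit 401), (nat_lit 2), (nat_lit 0x5d15c6), (nat_lit 4)⟩)))
(.nd (.nd (.lf ⟨(nat_lit 391), (nat_lit 2), (nat_lit 454), (nat_lit 2)⟩)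
(.lf ⟨(nat_lit 407), (nat_lit 2), (nat_lit 0x5c6), (nat_lit 2)⟩))
(.nd (.lf ⟨(nat_lit 0xc20c2), (nat_lit 4), (nat_lit 7), (nat_lit 1)⟩)
(.lf ⟨(nat_lit 0x5d9), (nat_lit 2), (nat_lit 0x657), (nat_lit 2)⟩))))
(.nd (.nd (.nd (.lf ⟨(nat_lit 70), (nat_lit 2), (nat_lit 0x7181), (nat_lit 3)⟩)
(.lf ⟨(nat_lit 0x6e1), (nat_lit 2), (nat_lit 0x85b), (nat_lit 2)⟩))
(.nd (.lf ⟨(nat_lit 0x69b), (nat_lit 2), (nat_lit 0x6da), (nat_lit 2)⟩)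
(.lf ⟨(nat_lit 0xa819), (nat_lit 3), (nat_lit 0x216505e43dd4173dd2a0), (nat_lit 13)⟩)))
(.nd (.nd (.lf ⟨(nat_lit 651), (nat_lit 2), (nat_lit 0x1d2ca), (nat_lit 3)⟩)
(.lf ⟨(nat_lit 399), (nat_lit 2), (nat_lit 0x7875cf19e1d7), (nat_lit 8)⟩))
(.nd (.lf ⟨(nat_lit 352), (nat_lit 2), (nat_lit 0x1e0407405), (nat_lit 6)⟩)
(.lf ⟨(nat_lit 0x407), (nat_lit 2), (nat_lit 0x687690), (nat_lit 4)⟩)))))))))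

/-- Substitution. -/
def s9 : List (ℕ × ℕ) := [((nat_lit 1), (nat_lit 1)), ((nat_lit 3), (nat_lit 1)), ((nat_lit 2), (nat_lit 1)), ((nat_lit 11), (nat_lit 1)), ((nat_lit 5), (nat_lit 1)), ((nat_lit 8), (nat_lit 1)), ((nat_lit 16), (nat_lit 1)), ((nat_lit 17), (nat_lit 1)), ((nat_lit 454), (nat_lit 2)), ((nat_lit 26), (nat_lit 1)), ((nat_lit 25), (nat_lit 1)), ((nat_lit 28), (nat_lit 1)), ((nat_lit 7), (nat_lit 1))]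

/-- Context. -/
noncomputable def x9 : ℕ → ℕ × ℕ :=
  mkc d3 736 s3 x3 (nth [] (Cl.alts H3.cl) 3)

set_option maxRecDepth 100000 in
/-- Facts. -/
noncomputable def d10 : Tr :=
(.nd (.nd (.nd (.nd (.nd (.nd (.nd (.lf ⟨(nat_lit 130), (nat_lit 2), (nat_lit 0), (nat_lit 0)⟩)
(.lf ⟨(nat_lit 413), (nat_lit 2), (nat_lit 0x746), (nat_lit 2)⟩))
(.lf ⟨(nat_lit 657), (nat_lit 2), (nat_lit 0x44a), (nat_lit 2)⟩))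
(.nd (.nd (.lf ⟨(nat_lit 273), (nat_lit 2), (nat_lit 0x1d444), (nat_lit 3)⟩)
(.lf ⟨(nat_lit 0x1075141d), (nat_lit 5), (nat_lit 0xa248dd41d450), (nat_lit 8)⟩))
(.lf ⟨(nat_lit 0x423), (nat_lit 2), (nat_lit 0x8d0), (nat_lit 2)⟩)))
(.nd (.nd (.nd (.lf ⟨(nat_lit 0x410), (nat_lit 2), (nat_lit 0), (nat_lit 0)⟩)
(.lf ⟨(nat_lit 209), (nat_lit 2), (nat_lit 0x450190183), (nat_lit 6)⟩))
(.lf ⟨(nat_lit 0x45b), (nat_lit 2), (nat_lit 0x6d1), (nat_lit 2)⟩))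
(.nd (.lf ⟨(nat_lit 721), (nat_lit 2), (nat_lit 0x44b), (nat_lit 2)⟩)
(.lf ⟨(nat_lit 202), (nat_lit 2), (nat_lit 0x75c6283), (nat_lit 5)⟩))))
(.nd (.nd (.nd (.nd (.lf ⟨(nat_lit 650), (nat_lit 2), (nat_lit 0), (nat_lit 0)⟩)
(.lf ⟨(nat_lit 0x5e3), (nat_lit 2), (nat_lit 0x8d7), (nat_lit 2)⟩))
(.lf ⟨(nat_lit 263), (nat_lit 2), (nat_lit 0x72c775130b287284), (nat_lit 11)⟩))
(.nd (.nd (.lf ⟨(nat_lit 131), (nat_lit 2), (nat_lit 0x70c2), (nat_lit 3)⟩)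
(.lf ⟨(nat_lit 0x411), (nat_lit 2), (nat_lit 0x450), (nat_lit 2)⟩))
(.lf ⟨(nat_lit 593), (nat_lit 2), (nat_lit 0x2892375c75c449), (nat_lit 9)⟩)))
(.nd (.nd (.nd (.lf ⟨(nat_lit 0x6db), (nat_lit 2), (nat_lit 0), (nat_lit 0)⟩)
(.lf ⟨(nat_lit 131), (nat_lit 2), (nat_lit 194), (nat_lit 2)⟩))
(.lf ⟨(nat_lit 599), (nat_lit 2), (nat_lit 0x5c9), (nat_lit 2)⟩))
(.nd (.lf ⟨(nat_lit 0x8e8), (nat_lit 2), (nat_lit 0xa23), (nat_lit 2)⟩)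
(.lf ⟨(nat_lit 0x5dd), (nat_lit 2), (nat_lit 0x757), (nat_lit 2)⟩)))))
(.nd (.nd (.nd (.nd (.nd (.lf ⟨(nat_lit 260), (nat_lit 2), (nat_lit 0), (nat_lit 0)⟩)
(.lf ⟨(nat_lit 656), (nat_lit 2), (nat_lit 0x2475074a), (nat_lit 5)⟩))
(.lf ⟨(nat_lit 0x411411), (nat_lit 4), (nat_lit 0x450450), (nat_lit 4)⟩))
(.nd (.nd (.lf ⟨(nat_lit 0x924), (nat_lit 2), (nat_lit 0), (nat_lit 0)⟩)
(.lf ⟨(nat_lit 35), (nat_lit 1), (nat_lit 0xa24), (nat_lit 2)⟩))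
(.lf ⟨(nat_lit 0x464), (nat_lit 2), (nat_lit 0x91d71d711), (nat_lit 6)⟩)))
(.nd (.nd (.nd (.lf ⟨(nat_lit 139), (nat_lit 2), (nat_lit 0x112c2), (nat_lit 3)⟩)
(.lf ⟨(nat_lit 194), (nat_lit 2), (nat_lit 131), (nat_lit 2)⟩))
(.lf ⟨(nat_lit 605), (nat_lit 2), (nat_lit 0x749), (nat_lit 2)⟩))
(.nd (.lf ⟨(nat_lit 0x45d), (nat_lit 2), (nat_lit 0x751), (nat_lit 2)⟩)
(.lf ⟨(nat_lit 279), (nat_lit 2), (nat_lit 0x5c4), (nat_lit 2)⟩))))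
(.nd (.nd (.nd (.nd (.lf ⟨(nat_lit 715), (nat_lit 2), (nat_lit 0), (nat_lit 0)⟩)
(.lf ⟨(nat_lit 0x4190), (nat_lit 3), (nat_lit 0x6c6406106), (nat_lit 6)⟩))
(.lf ⟨(nat_lit 0x5db), (nat_lit 2), (nat_lit 0x6d7), (nat_lit 2)⟩))
(.nd (.nd (.lf ⟨(nat_lit 203), (nat_lit 2), (nat_lit 707), (nat_lit 2)⟩)
(.lf ⟨(nat_lit 0x4083083), (nat_lit 5), (nat_lit 0x20c20c4), (nat_lit 5)⟩))
(.lf ⟨(nat_lit 646), (nat_lit 2), (nat_lit 394), (nat_lit 2)⟩)))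
(.nd (.nd (.nd (.lf ⟨(nat_lit 0x71c), (nat_lit 2), (nat_lit 0), (nat_lit 0)⟩)
(.lf ⟨(nat_lit 0x71d), (nat_lit 2), (nat_lit 0x2892375c), (nat_lit 5)⟩))
(.lf ⟨(nat_lit 0x928), (nat_lit 2), (nat_lit 0xa24), (nat_lit 2)⟩))
(.nd (.lf ⟨(nat_lit 733), (nat_lit 2), (nat_lit 0x74b), (nat_lit 2)⟩)
(.lf ⟨(nat_lit 0x5dc), (nat_lit 2), (nat_lit 0x717), (nat_lit 2)⟩))))))
(.nd (.nd (.nd (.nd (.nd (.nd (.lf ⟨(nat_lit 195), (nat_lit 2), (nat_lit 0), (nat_lit 0)⟩)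
(.lf ⟨(nat_lit 0x10757), (nat_lit 3), (nat_lit 0x1741d), (nat_lit 3)⟩))
(.lf ⟨(nat_lit 669), (nat_lit 2), (nat_lit 0x74a), (nat_lit 2)⟩))
(.nd (.nd (.lf ⟨(nat_lit 0x8e3), (nat_lit 2), (nat_lit 0), (nat_lit 0)⟩)
(.lf ⟨(nat_lit 202), (nat_lit 2), (nat_lit 0x41d450283), (nat_lit 6)⟩))
(.lf ⟨(nat_lit 0x768), (nat_lit 2), (nat_lit 0xa1d), (nat_lit 2)⟩)))
(.nd (.nd (.nd (.lf ⟨(nat_lit 0x451), (nat_lit 2), (nat_lit 0), (nat_lit 0)⟩)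
(.lf ⟨(nat_lit 710), (nat_lit 2), (nat_lit 0x40640b), (nat_lit 4)⟩))
(.lf ⟨(nat_lit 0x428), (nat_lit 2), (nat_lit 0xa10), (nat_lit 2)⟩))
(.nd (.lf ⟨(nat_lit 0x41b), (nat_lit 2), (nat_lit 0x6d0), (nat_lit 2)⟩)
(.lf ⟨(nat_lit 663), (nat_lit 2), (nat_lit 0x5ca), (nat_lit 2)⟩))))
(.nd (.nd (.nd (.nd (.lf ⟨(nat_lit 132), (nat_lit 2), (nat_lit 0xa102), (nat_lit 3)⟩)
(.lf ⟨(nat_lit 0x5e8), (nat_lit 2), (nat_lit 0xa17), (nat_lit 2)⟩))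
(.lf ⟨(nat_lit 582), (nat_lit 2), (nat_lit 393), (nat_lit 2)⟩))
(.nd (.nd (.lf ⟨(nat_lit 138), (nat_lit 2), (nat_lit 642), (nat_lit 2)⟩)
(.lf ⟨(nat_lit 209), (nat_lit 2), (nat_lit 0x443), (nat_lit 2)⟩))
(.lf ⟨(nat_lit 0x1075c), (nat_lit 3), (nat_lit 0x1d71d41d), (nat_lit 5)⟩)))
(.nd (.nd (.nd (.lf ⟨(nat_lit 272), (nat_lit 2), (nat_lit 0x1b404), (nat_lit 3)⟩)
(.lf ⟨(nat_lit 6), (nat_lit 1), (nat_lit 0x1741d450), (nat_lit 5)⟩))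
(.lf ⟨(nat_lit 0x424), (nat_lit 2), (nat_lit 0x910), (nat_lit 2)⟩))
(.nd (.lf ⟨(nat_lit 651), (nat_lit 2), (nat_lit 0x1d2ca), (nat_lit 3)⟩)
(.lf ⟨(nat_lit 0x5e4), (nat_lit 2), (nat_lit 0x917), (nat_lit 2)⟩)))))
(.nd (.nd (.nd (.nd (.nd (.lf ⟨(nat_lit 585), (nat_lit 2), (nat_lit 0), (nat_lit 0)⟩)
(.lf ⟨(nat_lit 0x417), (nat_lit 2), (nat_lit 0x5d0), (nat_lit 2)⟩))
(.lf ⟨(nat_lit 0x41c), (nat_lit 2), (nat_lit 0x710), (nat_lit 2)⟩))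
(.nd (.nd (.lf ⟨(nat_lit 0xa28), (nat_lit 2), (nat_lit 0), (nat_lit 0)⟩)
(.lf ⟨(nat_lit 0x41d), (nat_lit 2), (nat_lit 0x750), (nat_lit 2)⟩))
(.lf ⟨(nat_lit 0x763), (nat_lit 2), (nat_lit 0x8dd), (nat_lit 2)⟩)))
(.nd (.nd (.nd (.lf ⟨(nat_lit 0x5d7), (nat_lit 2), (nat_lit 0), (nat_lit 0)⟩)
(.lf ⟨(nat_lit 7), (nat_lit 1), (nat_lit 0), (nat_lit 0)⟩))
(.lf ⟨(nat_lit 0x71d71d), (nat_lit 4), (nat_lit 0x75c75c), (nat_lit 4)⟩))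
(.nd (.lf ⟨(nat_lit 0x764), (nat_lit 2), (nat_lit 0x91d), (nat_lit 2)⟩)
(.lf ⟨(nat_lit 0x457), (nat_lit 2), (nat_lit 0x5d1), (nat_lit 2)⟩))))
(.nd (.nd (.nd (.nd (.lf ⟨(nat_lit 196), (nat_lit 2), (nat_lit 0xb103), (nat_lit 3)⟩)
(.lf ⟨(nat_lit 711), (nat_lit 2), (nat_lit 0x1d019018b), (nat_lit 6)⟩))
(.lf ⟨(nat_lit 0x6dd), (nat_lit 2), (nat_lit 0x75b), (nat_lit 2)⟩))
(.nd (.lf ⟨(nat_lit 285), (nat_lit 2), (nat_lit 0x744), (nat_lit 2)⟩)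
(.lf ⟨(nat_lit 12), (nat_lit 1), (nat_lit 0x75c6), (nat_lit 3)⟩)))
(.nd (.nd (.nd (.lf ⟨(nat_lit 0x75d), (nat_lit 2), (nat_lit 0), (nat_lit 0)⟩)
(.lf ⟨(nat_lit 0x464), (nat_lit 2), (nat_lit 0x288d1), (nat_lit 3)⟩))
(.lf ⟨(nat_lit 0x8e4), (nat_lit 2), (nat_lit 0x923), (nat_lit 2)⟩))
(.nd (.lf ⟨(nat_lit 592), (nat_lit 2), (nat_lit 0x409), (nat_lit 2)⟩)
(.lf ⟨(nat_lit 727), (nat_lit 2), (nat_lit 0x5cb), (nat_lit 2)⟩)))))))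

/-- Context. -/
noncomputable def x10 : ℕ → ℕ × ℕ :=
  mkc d9 277 s9 x9 (nth [] (Cl.alts H3.cl) 0)

set_option maxRecDepth 100000 in
/-- Facts. -/
noncomputable def d11 : Tr :=
(.nd (.nd (.nd (.nd (.nd (.nd (.nd (.lf ⟨(nat_lit 65), (nat_lit 2), (nat_lit 0), (nat_lit 0)⟩)
(.lf ⟨(nat_lit 202), (nat_lit 2), (nat_lit 0x819283), (nat_lit 4)⟩))
(.lf ⟨(nat_lit 0x421), (nat_lit 2), (nat_lit 0x850), (nat_lit 2)⟩))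
(.nd (.lf ⟨(nat_lit 281), (nat_lit 2), (nat_lit 0x21644), (nat_lit 3)⟩)
(.lf ⟨(nat_lit 454), (nat_lit 2), (nat_lit 0x765a), (nat_lit 3)⟩)))
(.nd (.nd (.lf ⟨(nat_lit 0x410), (nat_lit 2), (nat_lit 0), (nat_lit 0)⟩)
(.lf ⟨(nat_lit 161), (nat_lit 2), (nat_lit 0x91d41d402), (nat_lit 6)⟩))
(.nd (.lf ⟨(nat_lit 651), (nat_lit 2), (nat_lit 0x1d2ca), (nat_lit 3)⟩)
(.lf ⟨(nat_lit 29), (nat_lit 1), (nat_lit 33), (nat_lit 1)⟩))))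
(.nd (.nd (.nd (.lf ⟨(nat_lit 650), (nat_lit 2), (nat_lit 0), (nat_lit 0)⟩)
(.lf ⟨(nat_lit 672), (nat_lit 2), (nat_lit 0x80a), (nat_lit 2)⟩))
(.nd (.lf ⟨(nat_lit 138), (nat_lit 2), (nat_lit 642), (nat_lit 2)⟩)
(.lf ⟨(nat_lit 7), (nat_lit 1), (nat_lit 32), (nat_lit 1)⟩)))
(.nd (.nd (.lf ⟨(nat_lit 273), (nat_lit 2), (nat_lit 0x1d444), (nat_lit 3)⟩)
(.lf ⟨(nat_lit 97), (nat_lit 2), (nat_lit 0x841), (nat_lit 2)⟩))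
(.nd (.lf ⟨(nat_lit 729), (nat_lit 2), (nat_lit 0x65141140b), (nat_lit 6)⟩)
(.lf ⟨(nat_lit 651), (nat_lit 2), (nat_lit 0x212ca), (nat_lit 3)⟩)))))
(.nd (.nd (.nd (.nd (.lf ⟨(nat_lit 195), (nat_lit 2), (nat_lit 0), (nat_lit 0)⟩)
(.lf ⟨(nat_lit 202), (nat_lit 2), (nat_lit 0x75c6283), (nat_lit 5)⟩))
(.nd (.lf ⟨(nat_lit 199), (nat_lit 2), (nat_lit 451), (nat_lit 2)⟩)
(.lf ⟨(nat_lit 0x65a), (nat_lit 2), (nat_lit 0x699), (nat_lit 2)⟩)))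
(.nd (.nd (.lf ⟨(nat_lit 0x659), (nat_lit 2), (nat_lit 0), (nat_lit 0)⟩)
(.lf ⟨(nat_lit 0x6a0), (nat_lit 2), (nat_lit 0x81a), (nat_lit 2)⟩))
(.nd (.lf ⟨(nat_lit 730), (nat_lit 2), (nat_lit 0x68b), (nat_lit 2)⟩)
(.lf ⟨(nat_lit 224), (nat_lit 2), (nat_lit 0x803), (nat_lit 2)⟩))))
(.nd (.nd (.nd (.lf ⟨(nat_lit 715), (nat_lit 2), (nat_lit 0), (nat_lit 0)⟩)
(.lf ⟨(nat_lit 0x5da), (nat_lit 2), (nat_lit 0x697), (nat_lit 2)⟩))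
(.nd (.lf ⟨(nat_lit 0x419), (nat_lit 2), (nat_lit 0x650), (nat_lit 2)⟩)
(.lf ⟨(nat_lit 17), (nat_lit 1), (nat_lit 0x819), (nat_lit 2)⟩)))
(.nd (.nd (.lf ⟨(nat_lit 89), (nat_lit 2), (nat_lit 0x20641), (nat_lit 3)⟩)
(.lf ⟨(nat_lit 217), (nat_lit 2), (nat_lit 0x643), (nat_lit 2)⟩))
(.nd (.lf ⟨(nat_lit 736), (nat_lit 2), (nat_lit 0x80b), (nat_lit 2)⟩)
(.lf ⟨(nat_lit 729), (nat_lit 2), (nat_lit 0x64b), (nat_lit 2)⟩))))))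
(.nd (.nd (.nd (.nd (.nd (.nd (.lf ⟨(nat_lit 130), (nat_lit 2), (nat_lit 0), (nat_lit 0)⟩)
(.lf ⟨(nat_lit 0x4083083), (nat_lit 5), (nat_lit 0x20c20c4), (nat_lit 5)⟩))
(.lf ⟨(nat_lit 12), (nat_lit 1), (nat_lit 0x75c6), (nat_lit 3)⟩))
(.nd (.lf ⟨(nat_lit 93), (nat_lit 2), (nat_lit 0x24741), (nat_lit 3)⟩)
(.lf ⟨(nat_lit 17), (nat_lit 1), (nat_lit 473), (nat_lit 2)⟩)))
(.nd (.nd (.lf ⟨(nat_lit 139), (nat_lit 2), (nat_lit 0x112c2), (nat_lit 3)⟩)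
(.lf ⟨(nat_lit 0x821), (nat_lit 2), (nat_lit 0x860), (nat_lit 2)⟩))
(.nd (.lf ⟨(nat_lit 157), (nat_lit 2), (nat_lit 0x742), (nat_lit 2)⟩)
(.lf ⟨(nat_lit 36), (nat_lit 1), (nat_lit 0), (nat_lit 0)⟩))))
(.nd (.nd (.nd (.lf ⟨(nat_lit 132), (nat_lit 2), (nat_lit 0xa102), (nat_lit 3)⟩)
(.lf ⟨(nat_lit 0x5d9), (nat_lit 2), (nat_lit 0x657), (nat_lit 2)⟩))
(.nd (.lf ⟨(nat_lit 203), (nat_lit 2), (nat_lit 707), (nat_lit 2)⟩)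
(.lf ⟨(nat_lit 6), (nat_lit 1), (nat_lit 0x699), (nat_lit 2)⟩)))
(.nd (.nd (.lf ⟨(nat_lit 0x820), (nat_lit 2), (nat_lit 0), (nat_lit 0)⟩)
(.lf ⟨(nat_lit 0x699), (nat_lit 2), (nat_lit 0x65a), (nat_lit 2)⟩))
(.nd (.lf ⟨(nat_lit 0x420), (nat_lit 2), (nat_lit 0x810), (nat_lit 2)⟩)
(.lf ⟨(nat_lit 33), (nat_lit 1), (nat_lit 0), (nat_lit 0)⟩)))))
(.nd (.nd (.nd (.nd (.lf ⟨(nat_lit 260), (nat_lit 2), (nat_lit 0), (nat_lit 0)⟩)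
(.lf ⟨(nat_lit 0x5e0), (nat_lit 2), (nat_lit 0x817), (nat_lit 2)⟩))
(.nd (.lf ⟨(nat_lit 131), (nat_lit 2), (nat_lit 0x70c2), (nat_lit 3)⟩)
(.lf ⟨(nat_lit 217), (nat_lit 2), (nat_lit 0x643), (nat_lit 2)⟩)))
(.nd (.nd (.lf ⟨(nat_lit 0x69a), (nat_lit 2), (nat_lit 0), (nat_lit 0)⟩)
(.lf ⟨(nat_lit 288), (nat_lit 2), (nat_lit 0x804), (nat_lit 2)⟩))
(.nd (.lf ⟨(nat_lit 160), (nat_lit 2), (nat_lit 0x802), (nat_lit 2)⟩)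
(.lf ⟨(nat_lit 131), (nat_lit 2), (nat_lit 0x200c2), (nat_lit 3)⟩))))
(.nd (.nd (.nd (.lf ⟨(nat_lit 196), (nat_lit 2), (nat_lit 0xb103), (nat_lit 3)⟩)
(.lf ⟨(nat_lit 727), (nat_lit 2), (nat_lit 0x5cb), (nat_lit 2)⟩))
(.nd (.lf ⟨(nat_lit 0x660), (nat_lit 2), (nat_lit 0x819), (nat_lit 2)⟩)
(.lf ⟨(nat_lit 139), (nat_lit 2), (nat_lit 0x8192c2), (nat_lit 4)⟩)))
(.nd (.nd (.lf ⟨(nat_lit 0x861), (nat_lit 2), (nat_lit 0), (nat_lit 0)⟩)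
(.lf ⟨(nat_lit 89), (nat_lit 2), (nat_lit 0x7641), (nat_lit 3)⟩))
(.nd (.lf ⟨(nat_lit 263), (nat_lit 2), (nat_lit 0x72c775130b287284), (nat_lit 11)⟩)
(.lf ⟨(nat_lit 23), (nat_lit 1), (nat_lit 26), (nat_lit 1)⟩)))))))

/-- Context. -/
noncomputable def x11 : ℕ → ℕ × ℕ :=
  mkc d9 277 s9 x9 (nth [] (Cl.alts H3.cl) 1)

set_option maxRecDepth 100000 in
/-- Facts. -/
noncomputable def d12 : Tr :=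
(.nd (.nd (.nd (.nd (.nd (.nd (.lf ⟨(nat_lit 65), (nat_lit 2), (nat_lit 0), (nat_lit 0)⟩)
(.lf ⟨(nat_lit 0x5da), (nat_lit 2), (nat_lit 0x697), (nat_lit 2)⟩))
(.nd (.lf ⟨(nat_lit 138), (nat_lit 2), (nat_lit 642), (nat_lit 2)⟩)
(.lf ⟨(nat_lit 729), (nat_lit 2), (nat_lit 0x64b), (nat_lit 2)⟩)))
(.nd (.nd (.lf ⟨(nat_lit 0x410), (nat_lit 2), (nat_lit 0), (nat_lit 0)⟩)
(.lf ⟨(nat_lit 0x65a), (nat_lit 2), (nat_lit 0x699), (nat_lit 2)⟩))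
(.lf ⟨(nat_lit 736), (nat_lit 2), (nat_lit 0x80b), (nat_lit 2)⟩)))
(.nd (.nd (.nd (.lf ⟨(nat_lit 650), (nat_lit 2), (nat_lit 0), (nat_lit 0)⟩)
(.lf ⟨(nat_lit 0x699), (nat_lit 2), (nat_lit 0x65a), (nat_lit 2)⟩))
(.nd (.lf ⟨(nat_lit 90), (nat_lit 2), (nat_lit 0x681), (nat_lit 2)⟩)
(.lf ⟨(nat_lit 0x4083083), (nat_lit 5), (nat_lit 0x20c20c4), (nat_lit 5)⟩)))
(.nd (.nd (.lf ⟨(nat_lit 273), (nat_lit 2), (nat_lit 0x1d444), (nat_lit 3)⟩)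
(.lf ⟨(nat_lit 139), (nat_lit 2), (nat_lit 0x202c2), (nat_lit 3)⟩))
(.lf ⟨(nat_lit 87), (nat_lit 2), (nat_lit 0x5c1), (nat_lit 2)⟩))))
(.nd (.nd (.nd (.nd (.lf ⟨(nat_lit 195), (nat_lit 2), (nat_lit 0), (nat_lit 0)⟩)
(.lf ⟨(nat_lit 0x6a0), (nat_lit 2), (nat_lit 0x81a), (nat_lit 2)⟩))
(.nd (.lf ⟨(nat_lit 0x660), (nat_lit 2), (nat_lit 0x819), (nat_lit 2)⟩)
(.lf ⟨(nat_lit 202), (nat_lit 2), (nat_lit 0x20283), (nat_lit 3)⟩)))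
(.nd (.nd (.lf ⟨(nat_lit 0x659), (nat_lit 2), (nat_lit 0), (nat_lit 0)⟩)
(.lf ⟨(nat_lit 6), (nat_lit 1), (nat_lit 0x699), (nat_lit 2)⟩))
(.lf ⟨(nat_lit 12), (nat_lit 1), (nat_lit 0x75c6), (nat_lit 3)⟩)))
(.nd (.nd (.nd (.lf ⟨(nat_lit 715), (nat_lit 2), (nat_lit 0), (nat_lit 0)⟩)
(.lf ⟨(nat_lit 454), (nat_lit 2), (nat_lit 0x765a), (nat_lit 3)⟩))
(.lf ⟨(nat_lit 729), (nat_lit 2), (nat_lit 0x65141140b), (nat_lit 6)⟩))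
(.nd (.nd (.lf ⟨(nat_lit 89), (nat_lit 2), (nat_lit 0x20641), (nat_lit 3)⟩)
(.lf ⟨(nat_lit 131), (nat_lit 2), (nat_lit 0x200c2), (nat_lit 3)⟩))
(.lf ⟨(nat_lit 672), (nat_lit 2), (nat_lit 0x80a), (nat_lit 2)⟩)))))
(.nd (.nd (.nd (.nd (.nd (.lf ⟨(nat_lit 130), (nat_lit 2), (nat_lit 0), (nat_lit 0)⟩)
(.lf ⟨(nat_lit 727), (nat_lit 2), (nat_lit 0x5cb), (nat_lit 2)⟩))
(.nd (.lf ⟨(nat_lit 203), (nat_lit 2), (nat_lit 707), (nat_lit 2)⟩)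
(.lf ⟨(nat_lit 23), (nat_lit 1), (nat_lit 0x699), (nat_lit 2)⟩)))
(.nd (.nd (.lf ⟨(nat_lit 139), (nat_lit 2), (nat_lit 0x112c2), (nat_lit 3)⟩)
(.lf ⟨(nat_lit 7), (nat_lit 1), (nat_lit 32), (nat_lit 1)⟩))
(.lf ⟨(nat_lit 263), (nat_lit 2), (nat_lit 0x72c775130b287284), (nat_lit 11)⟩)))
(.nd (.nd (.nd (.lf ⟨(nat_lit 132), (nat_lit 2), (nat_lit 0xa102), (nat_lit 3)⟩)
(.lf ⟨(nat_lit 89), (nat_lit 2), (nat_lit 0x7641), (nat_lit 3)⟩))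
(.lf ⟨(nat_lit 730), (nat_lit 2), (nat_lit 0x68b), (nat_lit 2)⟩))
(.nd (.nd (.lf ⟨(nat_lit 0x820), (nat_lit 2), (nat_lit 0), (nat_lit 0)⟩)
(.lf ⟨(nat_lit 29), (nat_lit 1), (nat_lit 0), (nat_lit 0)⟩))
(.lf ⟨(nat_lit 0x5e0), (nat_lit 2), (nat_lit 0x817), (nat_lit 2)⟩))))
(.nd (.nd (.nd (.nd (.lf ⟨(nat_lit 260), (nat_lit 2), (nat_lit 0), (nat_lit 0)⟩)
(.lf ⟨(nat_lit 288), (nat_lit 2), (nat_lit 0x804), (nat_lit 2)⟩))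
(.nd (.lf ⟨(nat_lit 651), (nat_lit 2), (nat_lit 0x1d2ca), (nat_lit 3)⟩)
(.lf ⟨(nat_lit 32), (nat_lit 1), (nat_lit 0), (nat_lit 0)⟩)))
(.nd (.nd (.lf ⟨(nat_lit 0x69a), (nat_lit 2), (nat_lit 0), (nat_lit 0)⟩)
(.lf ⟨(nat_lit 17), (nat_lit 1), (nat_lit 32), (nat_lit 1)⟩))
(.lf ⟨(nat_lit 202), (nat_lit 2), (nat_lit 0x75c6283), (nat_lit 5)⟩)))
(.nd (.nd (.nd (.lf ⟨(nat_lit 196), (nat_lit 2), (nat_lit 0xb103), (nat_lit 3)⟩)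
(.lf ⟨(nat_lit 17), (nat_lit 1), (nat_lit 7), (nat_lit 1)⟩))
(.lf ⟨(nat_lit 0x420), (nat_lit 2), (nat_lit 0x810), (nat_lit 2)⟩))
(.nd (.nd (.lf ⟨(nat_lit 131), (nat_lit 2), (nat_lit 0x70c2), (nat_lit 3)⟩)
(.lf ⟨(nat_lit 651), (nat_lit 2), (nat_lit 714), (nat_lit 2)⟩))
(.lf ⟨(nat_lit 0x5d9), (nat_lit 2), (nat_lit 0x657), (nat_lit 2)⟩))))))

/-- Context. -/
noncomputable def x12 : ℕ → ℕ × ℕ :=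
  mkc d9 277 s9 x9 (nth [] (Cl.alts H3.cl) 2)

set_option maxRecDepth 100000 in
/-- Facts. -/
noncomputable def d13 : Tr :=
(.nd (.nd (.nd (.nd (.nd (.nd (.lf ⟨(nat_lit 130), (nat_lit 2), (nat_lit 0), (nat_lit 0)⟩)
(.lf ⟨(nat_lit 0x411411), (nat_lit 4), (nat_lit 0x450450), (nat_lit 4)⟩))
(.nd (.lf ⟨(nat_lit 131), (nat_lit 2), (nat_lit 0x70c2), (nat_lit 3)⟩)
(.lf ⟨(nat_lit 25), (nat_lit 1), (nat_lit 26), (nat_lit 1)⟩)))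
(.nd (.nd (.lf ⟨(nat_lit 0x410), (nat_lit 2), (nat_lit 0), (nat_lit 0)⟩)
(.lf ⟨(nat_lit 0x457), (nat_lit 2), (nat_lit 0x5d1), (nat_lit 2)⟩))
(.nd (.lf ⟨(nat_lit 0x41a), (nat_lit 2), (nat_lit 0x690), (nat_lit 2)⟩)
(.lf ⟨(nat_lit 711), (nat_lit 2), (nat_lit 459), (nat_lit 2)⟩))))
(.nd (.nd (.nd (.lf ⟨(nat_lit 132), (nat_lit 2), (nat_lit 0xa102), (nat_lit 3)⟩)
(.lf ⟨(nat_lit 647), (nat_lit 2), (nat_lit 458), (nat_lit 2)⟩))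
(.nd (.lf ⟨(nat_lit 218), (nat_lit 2), (nat_lit 0x683), (nat_lit 2)⟩)
(.lf ⟨(nat_lit 0x411), (nat_lit 2), (nat_lit 0x450), (nat_lit 2)⟩)))
(.nd (.nd (.lf ⟨(nat_lit 0x75d), (nat_lit 2), (nat_lit 0), (nat_lit 0)⟩)
(.lf ⟨(nat_lit 711), (nat_lit 2), (nat_lit 0x1d019018b), (nat_lit 6)⟩))
(.nd (.lf ⟨(nat_lit 733), (nat_lit 2), (nat_lit 0x74b), (nat_lit 2)⟩)
(.lf ⟨(nat_lit 202), (nat_lit 2), (nat_lit 0x751283), (nat_lit 4)⟩)))))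
(.nd (.nd (.nd (.nd (.lf ⟨(nat_lit 260), (nat_lit 2), (nat_lit 0), (nat_lit 0)⟩)
(.lf ⟨(nat_lit 0x461), (nat_lit 2), (nat_lit 0x76165d651), (nat_lit 6)⟩))
(.nd (.lf ⟨(nat_lit 138), (nat_lit 2), (nat_lit 642), (nat_lit 2)⟩)
(.lf ⟨(nat_lit 0x45a), (nat_lit 2), (nat_lit 0x691), (nat_lit 2)⟩)))
(.nd (.nd (.lf ⟨(nat_lit 139), (nat_lit 2), (nat_lit 0x112c2), (nat_lit 3)⟩)
(.lf ⟨(nat_lit 727), (nat_lit 2), (nat_lit 0x5cb), (nat_lit 2)⟩))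
(.nd (.lf ⟨(nat_lit 651), (nat_lit 2), (nat_lit 0x1d2ca), (nat_lit 3)⟩)
(.lf ⟨(nat_lit 23), (nat_lit 1), (nat_lit 0x775a), (nat_lit 3)⟩))))
(.nd (.nd (.nd (.lf ⟨(nat_lit 196), (nat_lit 2), (nat_lit 0xb103), (nat_lit 3)⟩)
(.lf ⟨(nat_lit 202), (nat_lit 2), (nat_lit 0x75c6283), (nat_lit 5)⟩))
(.nd (.lf ⟨(nat_lit 198), (nat_lit 2), (nat_lit 387), (nat_lit 2)⟩)
(.lf ⟨(nat_lit 12), (nat_lit 1), (nat_lit 0x1da5d1), (nat_lit 4)⟩)))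
(.nd (.nd (.lf ⟨(nat_lit 281), (nat_lit 2), (nat_lit 0x21644), (nat_lit 3)⟩)
(.lf ⟨(nat_lit 26), (nat_lit 1), (nat_lit 25), (nat_lit 1)⟩))
(.lf ⟨(nat_lit 0x747), (nat_lit 2), (nat_lit 477), (nat_lit 2)⟩)))))
(.nd (.nd (.nd (.nd (.nd (.lf ⟨(nat_lit 195), (nat_lit 2), (nat_lit 0), (nat_lit 0)⟩)
(.lf ⟨(nat_lit 263), (nat_lit 2), (nat_lit 0x72c775130b287284), (nat_lit 11)⟩))
(.nd (.lf ⟨(nat_lit 135), (nat_lit 2), (nat_lit 450), (nat_lit 2)⟩)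
(.lf ⟨(nat_lit 6), (nat_lit 1), (nat_lit 0x691), (nat_lit 2)⟩)))
(.nd (.nd (.lf ⟨(nat_lit 0x451), (nat_lit 2), (nat_lit 0), (nat_lit 0)⟩)
(.lf ⟨(nat_lit 0x5da), (nat_lit 2), (nat_lit 0x697), (nat_lit 2)⟩))
(.nd (.lf ⟨(nat_lit 0x45d), (nat_lit 2), (nat_lit 0x751), (nat_lit 2)⟩)
(.lf ⟨(nat_lit 209), (nat_lit 2), (nat_lit 0x443), (nat_lit 2)⟩))))
(.nd (.nd (.nd (.lf ⟨(nat_lit 715), (nat_lit 2), (nat_lit 0), (nat_lit 0)⟩)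
(.lf ⟨(nat_lit 12), (nat_lit 1), (nat_lit 0x75c6), (nat_lit 3)⟩))
(.nd (.lf ⟨(nat_lit 285), (nat_lit 2), (nat_lit 0x744), (nat_lit 2)⟩)
(.lf ⟨(nat_lit 0x69d), (nat_lit 2), (nat_lit 0x75a), (nat_lit 2)⟩)))
(.nd (.nd (.lf ⟨(nat_lit 455), (nat_lit 2), (nat_lit 0), (nat_lit 0)⟩)
(.lf ⟨(nat_lit 209), (nat_lit 2), (nat_lit 0x450190183), (nat_lit 6)⟩))
(.nd (.lf ⟨(nat_lit 730), (nat_lit 2), (nat_lit 0x68b), (nat_lit 2)⟩)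
(.lf ⟨(nat_lit 0x4083083), (nat_lit 5), (nat_lit 0x20c20c4), (nat_lit 5)⟩)))))
(.nd (.nd (.nd (.nd (.lf ⟨(nat_lit 650), (nat_lit 2), (nat_lit 0), (nat_lit 0)⟩)
(.lf ⟨(nat_lit 0x5c7), (nat_lit 2), (nat_lit 471), (nat_lit 2)⟩))
(.nd (.lf ⟨(nat_lit 203), (nat_lit 2), (nat_lit 707), (nat_lit 2)⟩)
(.lf ⟨(nat_lit 33), (nat_lit 1), (nat_lit 0), (nat_lit 0)⟩)))
(.nd (.nd (.lf ⟨(nat_lit 0x69a), (nat_lit 2), (nat_lit 0), (nat_lit 0)⟩)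
(.lf ⟨(nat_lit 0x687), (nat_lit 2), (nat_lit 474), (nat_lit 2)⟩))
(.nd (.lf ⟨(nat_lit 0x447), (nat_lit 2), (nat_lit 465), (nat_lit 2)⟩)
(.lf ⟨(nat_lit 263), (nat_lit 2), (nat_lit 452), (nat_lit 2)⟩))))
(.nd (.nd (.nd (.lf ⟨(nat_lit 390), (nat_lit 2), (nat_lit 0), (nat_lit 0)⟩)
(.lf ⟨(nat_lit 279), (nat_lit 2), (nat_lit 0x5c4), (nat_lit 2)⟩))
(.nd (.lf ⟨(nat_lit 721), (nat_lit 2), (nat_lit 0x44b), (nat_lit 2)⟩)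
(.lf ⟨(nat_lit 202), (nat_lit 2), (nat_lit 0x1da5d1283), (nat_lit 6)⟩)))
(.nd (.nd (.lf ⟨(nat_lit 199), (nat_lit 2), (nat_lit 451), (nat_lit 2)⟩)
(.lf ⟨(nat_lit 17), (nat_lit 1), (nat_lit 0x1d91c6), (nat_lit 4)⟩))
(.lf ⟨(nat_lit 282), (nat_lit 2), (nat_lit 0x684), (nat_lit 2)⟩))))))

/-- Context. -/
noncomputable def x13 : ℕ → ℕ × ℕ :=
  mkc d9 277 s9 x9 (nth [] (Cl.alts H3.cl) 3)

set_option maxRecDepth 100000 in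
/-- Facts. -/
noncomputable def d14 : Tr :=
(.nd (.nd (.nd (.nd (.nd (.nd (.nd (.lf ⟨(nat_lit 65), (nat_lit 2), (nat_lit 0), (nat_lit 0)⟩)
(.lf ⟨(nat_lit 12), (nat_lit 1), (nat_lit 0x75c6), (nat_lit 3)⟩))
(.nd (.lf ⟨(nat_lit 983), (nat_lit 2), (nat_lit 0x5cf), (nat_lit 2)⟩)
(.lf ⟨(nat_lit 666), (nat_lit 2), (nat_lit 0x68a), (nat_lit 2)⟩)))
(.nd (.nd (.lf ⟨(nat_lit 139), (nat_lit 2), (nat_lit 0x112c2), (nat_lit 3)⟩)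
(.lf ⟨(nat_lit 710), (nat_lit 2), (nat_lit 0x40640b), (nat_lit 4)⟩))
(.lf ⟨(nat_lit 903), (nat_lit 2), (nat_lit 462), (nat_lit 2)⟩)))
(.nd (.nd (.nd (.lf ⟨(nat_lit 132), (nat_lit 2), (nat_lit 0xa102), (nat_lit 3)⟩)
(.lf ⟨(nat_lit 719), (nat_lit 2), (nat_lit 971), (nat_lit 2)⟩))
(.lf ⟨(nat_lit 922), (nat_lit 2), (nat_lit 0x68e), (nat_lit 2)⟩))
(.nd (.nd (.lf ⟨(nat_lit 281), (nat_lit 2), (nat_lit 0x21644), (nat_lit 3)⟩)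
(.lf ⟨(nat_lit 523), (nat_lit 2), (nat_lit 0x1a2c8), (nat_lit 3)⟩))
(.lf ⟨(nat_lit 0x517), (nat_lit 2), (nat_lit 0x5d4), (nat_lit 2)⟩))))
(.nd (.nd (.nd (.nd (.lf ⟨(nat_lit 520), (nat_lit 2), (nat_lit 0), (nat_lit 0)⟩)
(.lf ⟨(nat_lit 279), (nat_lit 2), (nat_lit 0x5c4), (nat_lit 2)⟩))
(.nd (.lf ⟨(nat_lit 206), (nat_lit 2), (nat_lit 899), (nat_lit 2)⟩)
(.lf ⟨(nat_lit 131), (nat_lit 2), (nat_lit 194), (nat_lit 2)⟩)))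
(.nd (.nd (.lf ⟨(nat_lit 0x69a), (nat_lit 2), (nat_lit 0), (nat_lit 0)⟩)
(.lf ⟨(nat_lit 712), (nat_lit 2), (nat_lit 0x1920b), (nat_lit 3)⟩))
(.lf ⟨(nat_lit 660), (nat_lit 2), (nat_lit 0x50a), (nat_lit 2)⟩)))
(.nd (.nd (.nd (.lf ⟨(nat_lit 910), (nat_lit 2), (nat_lit 0), (nat_lit 0)⟩)
(.lf ⟨(nat_lit 0x687), (nat_lit 2), (nat_lit 474), (nat_lit 2)⟩))
(.lf ⟨(nat_lit 261), (nat_lit 2), (nat_lit 0x1b69440e144), (nat_lit 7)⟩))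
(.nd (.nd (.lf ⟨(nat_lit 138), (nat_lit 2), (nat_lit 642), (nat_lit 2)⟩)
(.lf ⟨(nat_lit 36), (nat_lit 1), (nat_lit 0), (nat_lit 0)⟩))
(.lf ⟨(nat_lit 0x5c7), (nat_lit 2), (nat_lit 471), (nat_lit 2)⟩)))))
(.nd (.nd (.nd (.nd (.nd (.lf ⟨(nat_lit 195), (nat_lit 2), (nat_lit 0), (nat_lit 0)⟩)
(.lf ⟨(nat_lit 335), (nat_lit 2), (nat_lit 965), (nat_lit 2)⟩))
(.nd (.lf ⟨(nat_lit 343), (nat_lit 2), (nat_lit 0x5c5), (nat_lit 2)⟩)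
(.lf ⟨(nat_lit 7), (nat_lit 1), (nat_lit 0), (nat_lit 0)⟩)))
(.nd (.nd (.lf ⟨(nat_lit 0x5d7), (nat_lit 2), (nat_lit 0), (nat_lit 0)⟩)
(.lf ⟨(nat_lit 26), (nat_lit 1), (nat_lit 25), (nat_lit 1)⟩))
(.lf ⟨(nat_lit 398), (nat_lit 2), (nat_lit 902), (nat_lit 2)⟩)))
(.nd (.nd (.nd (.lf ⟨(nat_lit 196), (nat_lit 2), (nat_lit 0xb103), (nat_lit 3)⟩)
(.lf ⟨(nat_lit 665), (nat_lit 2), (nat_lit 0x85991d41d40a), (nat_lit 8)⟩))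
(.lf ⟨(nat_lit 718), (nat_lit 2), (nat_lit 907), (nat_lit 2)⟩))
(.nd (.nd (.lf ⟨(nat_lit 131), (nat_lit 2), (nat_lit 0x70c2), (nat_lit 3)⟩)
(.lf ⟨(nat_lit 29), (nat_lit 1), (nat_lit 0), (nat_lit 0)⟩))
(.lf ⟨(nat_lit 667), (nat_lit 2), (nat_lit 0x6ca), (nat_lit 2)⟩))))
(.nd (.nd (.nd (.nd (.lf ⟨(nat_lit 67), (nat_lit 2), (nat_lit 0x50c1), (nat_lit 3)⟩)
(.lf ⟨(nat_lit 0x5da), (nat_lit 2), (nat_lit 0x697), (nat_lit 2)⟩))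
(.nd (.lf ⟨(nat_lit 219), (nat_lit 2), (nat_lit 0x6c3), (nat_lit 2)⟩)
(.lf ⟨(nat_lit 0x4083083), (nat_lit 5), (nat_lit 0x20c20c4), (nat_lit 5)⟩)))
(.nd (.nd (.lf ⟨(nat_lit 273), (nat_lit 2), (nat_lit 0x1d444), (nat_lit 3)⟩)
(.lf ⟨(nat_lit 25), (nat_lit 1), (nat_lit 26), (nat_lit 1)⟩))
(.lf ⟨(nat_lit 0x5db), (nat_lit 2), (nat_lit 0x6d7), (nat_lit 2)⟩)))
(.nd (.nd (.nd (.lf ⟨(nat_lit 74), (nat_lit 2), (nat_lit 0xf281), (nat_lit 3)⟩)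
(.lf ⟨(nat_lit 0x407), (nat_lit 2), (nat_lit 464), (nat_lit 2)⟩))
(.lf ⟨(nat_lit 263), (nat_lit 2), (nat_lit 0x72c775130b287284), (nat_lit 11)⟩))
(.nd (.nd (.lf ⟨(nat_lit 391), (nat_lit 2), (nat_lit 454), (nat_lit 2)⟩)
(.lf ⟨(nat_lit 263), (nat_lit 2), (nat_lit 0x17184), (nat_lit 3)⟩))
(.lf ⟨(nat_lit 647), (nat_lit 2), (nat_lit 458), (nat_lit 2)⟩))))))
(.nd (.nd (.nd (.nd (.nd (.nd (.lf ⟨(nat_lit 130), (nat_lit 2), (nat_lit 0), (nat_lit 0)⟩)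
(.lf ⟨(nat_lit 202), (nat_lit 2), (nat_lit 0x75c6283), (nat_lit 5)⟩))
(.nd (.lf ⟨(nat_lit 651), (nat_lit 2), (nat_lit 0x1d2ca), (nat_lit 3)⟩)
(.lf ⟨(nat_lit 6), (nat_lit 1), (nat_lit 471), (nat_lit 2)⟩)))
(.nd (.nd (.lf ⟨(nat_lit 0x514), (nat_lit 2), (nat_lit 0), (nat_lit 0)⟩)
(.lf ⟨(nat_lit 711), (nat_lit 2), (nat_lit 459), (nat_lit 2)⟩))
(.lf ⟨(nat_lit 404), (nat_lit 2), (nat_lit 0x506), (nat_lit 2)⟩)))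
(.nd (.nd (.nd (.lf ⟨(nat_lit 715), (nat_lit 2), (nat_lit 0), (nat_lit 0)⟩)
(.lf ⟨(nat_lit 656), (nat_lit 2), (nat_lit 0x2475074a), (nat_lit 5)⟩))
(.lf ⟨(nat_lit 282), (nat_lit 2), (nat_lit 0x684), (nat_lit 2)⟩))
(.nd (.nd (.lf ⟨(nat_lit 93), (nat_lit 2), (nat_lit 0x24741), (nat_lit 3)⟩)
(.lf ⟨(nat_lit 139), (nat_lit 2), (nat_lit 706), (nat_lit 2)⟩))
(.lf ⟨(nat_lit 919), (nat_lit 2), (nat_lit 0x5ce), (nat_lit 2)⟩))))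
(.nd (.nd (.nd (.nd (.lf ⟨(nat_lit 325), (nat_lit 2), (nat_lit 0), (nat_lit 0)⟩)
(.lf ⟨(nat_lit 986), (nat_lit 2), (nat_lit 0x68f), (nat_lit 2)⟩))
(.nd (.lf ⟨(nat_lit 200), (nat_lit 2), (nat_lit 0x1c6203), (nat_lit 4)⟩)
(.lf ⟨(nat_lit 202), (nat_lit 2), (nat_lit 643), (nat_lit 2)⟩)))
(.nd (.nd (.lf ⟨(nat_lit 0x6db), (nat_lit 2), (nat_lit 0), (nat_lit 0)⟩)
(.lf ⟨(nat_lit 400), (nat_lit 2), (nat_lit 0x406), (nat_lit 2)⟩))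
(.lf ⟨(nat_lit 0x6c7), (nat_lit 2), (nat_lit 475), (nat_lit 2)⟩)))
(.nd (.nd (.nd (.lf ⟨(nat_lit 975), (nat_lit 2), (nat_lit 0), (nat_lit 0)⟩)
(.lf ⟨(nat_lit 410), (nat_lit 2), (nat_lit 0x686), (nat_lit 2)⟩))
(.lf ⟨(nat_lit 724), (nat_lit 2), (nat_lit 0x50b), (nat_lit 2)⟩))
(.nd (.nd (.lf ⟨(nat_lit 203), (nat_lit 2), (nat_lit 707), (nat_lit 2)⟩)
(.lf ⟨(nat_lit 651), (nat_lit 2), (nat_lit 714), (nat_lit 2)⟩))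
(.lf ⟨(nat_lit 967), (nat_lit 2), (nat_lit 463), (nat_lit 2)⟩)))))
(.nd (.nd (.nd (.nd (.nd (.lf ⟨(nat_lit 260), (nat_lit 2), (nat_lit 0), (nat_lit 0)⟩)
(.lf ⟨(nat_lit 264), (nat_lit 2), (nat_lit 0x1b5d43ce204), (nat_lit 7)⟩))
(.nd (.lf ⟨(nat_lit 731), (nat_lit 2), (nat_lit 0x6cb), (nat_lit 2)⟩)
(.lf ⟨(nat_lit 23), (nat_lit 1), (nat_lit 26), (nat_lit 1)⟩)))
(.nd (.nd (.lf ⟨(nat_lit 207), (nat_lit 2), (nat_lit 0x173c3), (nat_lit 3)⟩)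
(.lf ⟨(nat_lit 17), (nat_lit 1), (nat_lit 0), (nat_lit 0)⟩))
(.lf ⟨(nat_lit 654), (nat_lit 2), (nat_lit 906), (nat_lit 2)⟩)))
(.nd (.nd (.nd (.lf ⟨(nat_lit 390), (nat_lit 2), (nat_lit 0), (nat_lit 0)⟩)
(.lf ⟨(nat_lit 0x417), (nat_lit 2), (nat_lit 0x5d0), (nat_lit 2)⟩))
(.lf ⟨(nat_lit 0x51a), (nat_lit 2), (nat_lit 0x694), (nat_lit 2)⟩))
(.nd (.nd (.lf ⟨(nat_lit 266), (nat_lit 2), (nat_lit 644), (nat_lit 2)⟩)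
(.lf ⟨(nat_lit 33), (nat_lit 1), (nat_lit 0), (nat_lit 0)⟩))
(.lf ⟨(nat_lit 407), (nat_lit 2), (nat_lit 0x5c6), (nat_lit 2)⟩))))
(.nd (.nd (.nd (.nd (.lf ⟨(nat_lit 650), (nat_lit 2), (nat_lit 0), (nat_lit 0)⟩)
(.lf ⟨(nat_lit 727), (nat_lit 2), (nat_lit 0x5cb), (nat_lit 2)⟩))
(.lf ⟨(nat_lit 212), (nat_lit 2), (nat_lit 0x503), (nat_lit 2)⟩))
(.nd (.nd (.lf ⟨(nat_lit 455), (nat_lit 2), (nat_lit 0), (nat_lit 0)⟩)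
(.lf ⟨(nat_lit 17), (nat_lit 1), (nat_lit 0), (nat_lit 0)⟩))
(.lf ⟨(nat_lit 411), (nat_lit 2), (nat_lit 0x6c6), (nat_lit 2)⟩)))
(.nd (.nd (.nd (.lf ⟨(nat_lit 0x410), (nat_lit 2), (nat_lit 0), (nat_lit 0)⟩)
(.lf ⟨(nat_lit 711), (nat_lit 2), (nat_lit 0x1d019018b), (nat_lit 6)⟩))
(.lf ⟨(nat_lit 0x507), (nat_lit 2), (nat_lit 468), (nat_lit 2)⟩))
(.nd (.nd (.lf ⟨(nat_lit 215), (nat_lit 2), (nat_lit 0x5c3), (nat_lit 2)⟩)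
(.lf ⟨(nat_lit 656), (nat_lit 2), (nat_lit 0x40a), (nat_lit 2)⟩))
(.lf ⟨(nat_lit 330), (nat_lit 2), (nat_lit 0x1d7285), (nat_lit 4)⟩)))))))

/-- Context. -/
noncomputable def x14 : ℕ → ℕ × ℕ :=
  mkc d9 277 s9 x9 (nth [] (Cl.alts H3.cl) 4)

set_option maxRecDepth 100000 in
/-- Facts. -/
noncomputable def d15 : Tr :=
(.nd (.nd (.nd (.nd (.nd (.nd (.nd (.nd (.lf ⟨(nat_lit 65), (nat_lit 2), (nat_lit 0), (nat_lit 0)⟩)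
(.lf ⟨(nat_lit 274), (nat_lit 2), (nat_lit 0x24752744), (nat_lit 5)⟩))
(.nd (.lf ⟨(nat_lit 268), (nat_lit 2), (nat_lit 0x1d304), (nat_lit 3)⟩)
(.lf ⟨(nat_lit 593), (nat_lit 2), (nat_lit 0xa23449), (nat_lit 4)⟩)))
(.nd (.nd (.lf ⟨(nat_lit 0x8e3), (nat_lit 2), (nat_lit 0), (nat_lit 0)⟩)
(.lf ⟨(nat_lit 335), (nat_lit 2), (nat_lit 965), (nat_lit 2)⟩))
(.lf ⟨(nat_lit 0x414), (nat_lit 2), (nat_lit 0x510), (nat_lit 2)⟩)))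
(.nd (.nd (.nd (.lf ⟨(nat_lit 0x410), (nat_lit 2), (nat_lit 0), (nat_lit 0)⟩)
(.lf ⟨(nat_lit 0x421), (nat_lit 2), (nat_lit 0x850), (nat_lit 2)⟩))
(.nd (.lf ⟨(nat_lit 8), (nat_lit 1), (nat_lit 0x42042), (nat_lit 4)⟩)
(.lf ⟨(nat_lit 985), (nat_lit 2), (nat_lit 0x64f), (nat_lit 2)⟩)))
(.nd (.nd (.lf ⟨(nat_lit 0x2c72c7), (nat_lit 4), (nat_lit 0x1cb1cb), (nat_lit 4)⟩)
(.lf ⟨(nat_lit 719), (nat_lit 2), (nat_lit 971), (nat_lit 2)⟩))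
(.lf ⟨(nat_lit 0x65b), (nat_lit 2), (nat_lit 0x6d9), (nat_lit 2)⟩))))
(.nd (.nd (.nd (.nd (.lf ⟨(nat_lit 650), (nat_lit 2), (nat_lit 0), (nat_lit 0)⟩)
(.lf ⟨(nat_lit 0x6e1), (nat_lit 2), (nat_lit 0x85b), (nat_lit 2)⟩))
(.nd (.lf ⟨(nat_lit 335), (nat_lit 2), (nat_lit 0x1e3c5), (nat_lit 3)⟩)
(.lf ⟨(nat_lit 988), (nat_lit 2), (nat_lit 0x5dc5cf), (nat_lit 4)⟩)))
(.nd (.nd (.lf ⟨(nat_lit 131), (nat_lit 2), (nat_lit 0x70c2), (nat_lit 3)⟩)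
(.lf ⟨(nat_lit 12), (nat_lit 1), (nat_lit 0), (nat_lit 0)⟩))
(.lf ⟨(nat_lit 148), (nat_lit 2), (nat_lit 0x502), (nat_lit 2)⟩)))
(.nd (.nd (.nd (.lf ⟨(nat_lit 144), (nat_lit 2), (nat_lit 0x19402), (nat_lit 3)⟩)
(.lf ⟨(nat_lit 656), (nat_lit 2), (nat_lit 0x243dd40f74f2cf2ca), (nat_lit 11)⟩))
(.nd (.lf ⟨(nat_lit 0x411411), (nat_lit 4), (nat_lit 0x450450), (nat_lit 4)⟩)
(.lf ⟨(nat_lit 0), (nat_lit 0), (nat_lit 0x3832ce0cb), (nat_lit 6)⟩)))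
(.nd (.nd (.lf ⟨(nat_lit 0x661), (nat_lit 2), (nat_lit 0x859), (nat_lit 2)⟩)
(.lf ⟨(nat_lit 279), (nat_lit 2), (nat_lit 0x5c4), (nat_lit 2)⟩))
(.lf ⟨(nat_lit 0x520), (nat_lit 2), (nat_lit 0x814), (nat_lit 2)⟩)))))
(.nd (.nd (.nd (.nd (.nd (.lf ⟨(nat_lit 520), (nat_lit 2), (nat_lit 0), (nat_lit 0)⟩)
(.lf ⟨(nat_lit 0), (nat_lit 0), (nat_lit 0x2c72c72cb1cb1cb), (nat_lit 10)⟩))
(.nd (.lf ⟨(nat_lit 156), (nat_lit 2), (nat_lit 0x711211202), (nat_lit 6)⟩)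
(.lf ⟨(nat_lit 161), (nat_lit 2), (nat_lit 0x6573e16515d13c2), (nat_lit 10)⟩)))
(.nd (.nd (.lf ⟨(nat_lit 130), (nat_lit 2), (nat_lit 0), (nat_lit 0)⟩)
(.lf ⟨(nat_lit 647), (nat_lit 2), (nat_lit 458), (nat_lit 2)⟩))
(.lf ⟨(nat_lit 0xc20c2), (nat_lit 4), (nat_lit 7), (nat_lit 1)⟩)))
(.nd (.nd (.nd (.lf ⟨(nat_lit 0x514), (nat_lit 2), (nat_lit 0), (nat_lit 0)⟩)
(.lf ⟨(nat_lit 593), (nat_lit 2), (nat_lit 0x2892375c75c449), (nat_lit 9)⟩))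
(.nd (.lf ⟨(nat_lit 278), (nat_lit 2), (nat_lit 0x584), (nat_lit 2)⟩)
(.lf ⟨(nat_lit 33), (nat_lit 1), (nat_lit 0), (nat_lit 0)⟩)))
(.nd (.nd (.lf ⟨(nat_lit 0x419), (nat_lit 2), (nat_lit 0x650), (nat_lit 2)⟩)
(.lf ⟨(nat_lit 977), (nat_lit 2), (nat_lit 0x44f), (nat_lit 2)⟩))
(.lf ⟨(nat_lit 737), (nat_lit 2), (nat_lit 0x85975b45075b65044b), (nat_lit 12)⟩))))
(.nd (.nd (.nd (.nd (.lf ⟨(nat_lit 910), (nat_lit 2), (nat_lit 0), (nat_lit 0)⟩)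
(.lf ⟨(nat_lit 0x891d), (nat_lit 3), (nat_lit 0x163e165044b58f44b58f7563d9408), (nat_lit 19)⟩))
(.nd (.lf ⟨(nat_lit 729), (nat_lit 2), (nat_lit 0x65141140b), (nat_lit 6)⟩)
(.lf ⟨(nat_lit 0x5dc), (nat_lit 2), (nat_lit 0x717), (nat_lit 2)⟩)))
(.nd (.nd (.lf ⟨(nat_lit 715), (nat_lit 2), (nat_lit 0), (nat_lit 0)⟩)
(.lf ⟨(nat_lit 143), (nat_lit 2), (nat_lit 0x173c2), (nat_lit 3)⟩))
(.lf ⟨(nat_lit 660), (nat_lit 2), (nat_lit 0x50a), (nat_lit 2)⟩)))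
(.nd (.nd (.nd (.lf ⟨(nat_lit 81), (nat_lit 2), (nat_lit 0x1c441), (nat_lit 3)⟩)
(.lf ⟨(nat_lit 0x2e82e8), (nat_lit 4), (nat_lit 0xa0ba0b), (nat_lit 4)⟩))
(.nd (.lf ⟨(nat_lit 0x51b), (nat_lit 2), (nat_lit 0x6d4), (nat_lit 2)⟩)
(.lf ⟨(nat_lit 0x3831cb1cb3831cb1cb), (nat_lit 12), (nat_lit 0x3831cb1cb3831cb1cb), (nat_lit 12)⟩)))
(.nd (.nd (.lf ⟨(nat_lit 522), (nat_lit 2), (nat_lit 0x16288), (nat_lit 3)⟩)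
(.lf ⟨(nat_lit 739), (nat_lit 2), (nat_lit 0x8cb), (nat_lit 2)⟩))
(.lf ⟨(nat_lit 155), (nat_lit 2), (nat_lit 0x6c2), (nat_lit 2)⟩))))))
(.nd (.nd (.nd (.nd (.nd (.nd (.lf ⟨(nat_lit 195), (nat_lit 2), (nat_lit 0), (nat_lit 0)⟩)
(.lf ⟨(nat_lit 0x407407), (nat_lit 4), (nat_lit 0x1d01d0), (nat_lit 4)⟩))
(.nd (.lf ⟨(nat_lit 673), (nat_lit 2), (nat_lit 0x84a), (nat_lit 2)⟩)
(.lf ⟨(nat_lit 656), (nat_lit 2), (nat_lit 0x3d03ca), (nat_lit 4)⟩)))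
(.nd (.nd (.lf ⟨(nat_lit 99), (nat_lit 2), (nat_lit 0x288c1), (nat_lit 3)⟩)
(.lf ⟨(nat_lit 18), (nat_lit 1), (nat_lit 0), (nat_lit 0)⟩))
(.lf ⟨(nat_lit 263), (nat_lit 2), (nat_lit 0x72c775130b287284), (nat_lit 11)⟩)))
(.nd (.nd (.nd (.lf ⟨(nat_lit 0x451), (nat_lit 2), (nat_lit 0), (nat_lit 0)⟩)
(.lf ⟨(nat_lit 0x1975c), (nat_lit 3), (nat_lit 0x218dc8648dd71d71991d), (nat_lit 13)⟩))
(.nd (.lf ⟨(nat_lit 26), (nat_lit 1), (nat_lit 0xd00d0), (nat_lit 4)⟩)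
(.lf ⟨(nat_lit 0x5d9), (nat_lit 2), (nat_lit 0x195e1), (nat_lit 3)⟩)))
(.nd (.nd (.lf ⟨(nat_lit 721), (nat_lit 2), (nat_lit 0x44b), (nat_lit 2)⟩)
(.lf ⟨(nat_lit 737), (nat_lit 2), (nat_lit 0x84b), (nat_lit 2)⟩))
(.lf ⟨(nat_lit 0x707), (nat_lit 2), (nat_lit 476), (nat_lit 2)⟩))))
(.nd (.nd (.nd (.nd (.lf ⟨(nat_lit 715), (nat_lit 2), (nat_lit 0), (nat_lit 0)⟩)
(.lf ⟨(nat_lit 0x6e3), (nat_lit 2), (nat_lit 0x8db), (nat_lit 2)⟩))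
(.nd (.lf ⟨(nat_lit 657), (nat_lit 2), (nat_lit 0x44a), (nat_lit 2)⟩)
(.lf ⟨(nat_lit 666), (nat_lit 2), (nat_lit 0x68a), (nat_lit 2)⟩)))
(.nd (.nd (.lf ⟨(nat_lit 138), (nat_lit 2), (nat_lit 642), (nat_lit 2)⟩)
(.lf ⟨(nat_lit 330), (nat_lit 2), (nat_lit 0x17285), (nat_lit 3)⟩))
(.lf ⟨(nat_lit 654), (nat_lit 2), (nat_lit 906), (nat_lit 2)⟩)))
(.nd (.nd (.nd (.lf ⟨(nat_lit 0x6db), (nat_lit 2), (nat_lit 0), (nat_lit 0)⟩)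
(.lf ⟨(nat_lit 161), (nat_lit 2), (nat_lit 0x9103dd40f74f2cf2c2), (nat_lit 12)⟩))
(.nd (.lf ⟨(nat_lit 0x459), (nat_lit 2), (nat_lit 0x651), (nat_lit 2)⟩)
(.lf ⟨(nat_lit 0x1cb1cb), (nat_lit 4), (nat_lit 0x2c72c7), (nat_lit 4)⟩)))
(.nd (.nd (.lf ⟨(nat_lit 587), (nat_lit 2), (nat_lit 0x1b2c9), (nat_lit 3)⟩)
(.lf ⟨(nat_lit 0x3d9450), (nat_lit 4), (nat_lit 0x178594505cf), (nat_lit 7)⟩))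
(.lf ⟨(nat_lit 0x517), (nat_lit 2), (nat_lit 0x5d4), (nat_lit 2)⟩)))))
(.nd (.nd (.nd (.nd (.nd (.lf ⟨(nat_lit 585), (nat_lit 2), (nat_lit 0), (nat_lit 0)⟩)
(.lf ⟨(nat_lit 279), (nat_lit 2), (nat_lit 0x75774f2cf2c4), (nat_lit 8)⟩))
(.nd (.lf ⟨(nat_lit 0xb1d1), (nat_lit 3), (nat_lit 0x112c7), (nat_lit 3)⟩)
(.lf ⟨(nat_lit 35), (nat_lit 1), (nat_lit 40), (nat_lit 1)⟩)))
(.nd (.nd (.lf ⟨(nat_lit 136), (nat_lit 2), (nat_lit 514), (nat_lit 2)⟩)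
(.lf ⟨(nat_lit 22), (nat_lit 1), (nat_lit 23), (nat_lit 1)⟩))
(.lf ⟨(nat_lit 903), (nat_lit 2), (nat_lit 462), (nat_lit 2)⟩)))
(.nd (.nd (.nd (.lf ⟨(nat_lit 0x5d7), (nat_lit 2), (nat_lit 0), (nat_lit 0)⟩)
(.lf ⟨(nat_lit 924), (nat_lit 2), (nat_lit 0x70e), (nat_lit 2)⟩))
(.nd (.lf ⟨(nat_lit 17), (nat_lit 1), (nat_lit 0x2c22c2), (nat_lit 4)⟩)
(.lf ⟨(nat_lit 651), (nat_lit 2), (nat_lit 714), (nat_lit 2)⟩)))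
(.nd (.nd (.lf ⟨(nat_lit 0x45c), (nat_lit 2), (nat_lit 0x711), (nat_lit 2)⟩)
(.lf ⟨(nat_lit 36), (nat_lit 1), (nat_lit 0), (nat_lit 0)⟩))
(.lf ⟨(nat_lit 913), (nat_lit 2), (nat_lit 0x44e), (nat_lit 2)⟩))))
(.nd (.nd (.nd (.nd (.lf ⟨(nat_lit 975), (nat_lit 2), (nat_lit 0), (nat_lit 0)⟩)
(.lf ⟨(nat_lit 668), (nat_lit 2), (nat_lit 0x44f7113ca), (nat_lit 6)⟩))
(.nd (.lf ⟨(nat_lit 5), (nat_lit 1), (nat_lit 0x43043), (nat_lit 4)⟩)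
(.lf ⟨(nat_lit 0xf859), (nat_lit 3), (nat_lit 0x5d95cf), (nat_lit 4)⟩)))
(.nd (.nd (.lf ⟨(nat_lit 92), (nat_lit 2), (nat_lit 0x701), (nat_lit 2)⟩)
(.lf ⟨(nat_lit 522), (nat_lit 2), (nat_lit 0x17288), (nat_lit 3)⟩))
(.lf ⟨(nat_lit 0x6c7), (nat_lit 2), (nat_lit 475), (nat_lit 2)⟩)))
(.nd (.nd (.nd (.lf ⟨(nat_lit 87), (nat_lit 2), (nat_lit 0x1e5c1), (nat_lit 3)⟩)
(.lf ⟨(nat_lit 151), (nat_lit 2), (nat_lit 0x5c2), (nat_lit 2)⟩))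
(.nd (.lf ⟨(nat_lit 0x65c), (nat_lit 2), (nat_lit 0x719), (nat_lit 2)⟩)
(.lf ⟨(nat_lit 0x407), (nat_lit 2), (nat_lit 0x7710), (nat_lit 3)⟩)))
(.nd (.nd (.lf ⟨(nat_lit 0x447), (nat_lit 2), (nat_lit 465), (nat_lit 2)⟩)
(.lf ⟨(nat_lit 0x721), (nat_lit 2), (nat_lit 0x8e18dc), (nat_lit 4)⟩))
(.lf ⟨(nat_lit 663), (nat_lit 2), (nat_lit 0x5cf30f30a), (nat_lit 6)⟩)))))))
(.nd (.nd (.nd (.nd (.nd (.nd (.nd (.lf ⟨(nat_lit 130), (nat_lit 2), (nat_lit 0), (nat_lit 0)⟩)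
(.lf ⟨(nat_lit 0xb1d0), (nat_lit 3), (nat_lit 0x74072c7), (nat_lit 5)⟩))
(.nd (.lf ⟨(nat_lit 731), (nat_lit 2), (nat_lit 0x6cb), (nat_lit 2)⟩)
(.lf ⟨(nat_lit 0x417), (nat_lit 2), (nat_lit 0x5d0), (nat_lit 2)⟩)))
(.nd (.nd (.lf ⟨(nat_lit 0xa28), (nat_lit 2), (nat_lit 0), (nat_lit 0)⟩)
(.lf ⟨(nat_lit 12), (nat_lit 1), (nat_lit 0), (nat_lit 0)⟩))
(.lf ⟨(nat_lit 104), (nat_lit 2), (nat_lit 0xa01), (nat_lit 2)⟩)))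
(.nd (.nd (.nd (.lf ⟨(nat_lit 75), (nat_lit 2), (nat_lit 0x102c1), (nat_lit 3)⟩)
(.lf ⟨(nat_lit 545), (nat_lit 2), (nat_lit 0x6d650f85b65650f648), (nat_lit 12)⟩))
(.nd (.lf ⟨(nat_lit 17), (nat_lit 1), (nat_lit 0x8b08b), (nat_lit 4)⟩)
(.lf ⟨(nat_lit 993), (nat_lit 2), (nat_lit 0x1765764f), (nat_lit 5)⟩)))
(.nd (.nd (.lf ⟨(nat_lit 720), (nat_lit 2), (nat_lit 0x40b), (nat_lit 2)⟩)
(.lf ⟨(nat_lit 263), (nat_lit 2), (nat_lit 0x112c72c4), (nat_lit 5)⟩))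
(.lf ⟨(nat_lit 0x6e0), (nat_lit 2), (nat_lit 0x81b), (nat_lit 2)⟩))))
(.nd (.nd (.nd (.nd (.lf ⟨(nat_lit 132), (nat_lit 2), (nat_lit 0xa102), (nat_lit 3)⟩)
(.lf ⟨(nat_lit 0x6dc), (nat_lit 2), (nat_lit 0x71b), (nat_lit 2)⟩))
(.nd (.lf ⟨(nat_lit 528), (nat_lit 2), (nat_lit 0x20408), (nat_lit 3)⟩)
(.lf ⟨(nat_lit 0x115dc), (nat_lit 3), (nat_lit 0x17717457), (nat_lit 5)⟩)))
(.nd (.nd (.lf ⟨(nat_lit 266), (nat_lit 2), (nat_lit 644), (nat_lit 2)⟩)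
(.lf ⟨(nat_lit 18), (nat_lit 1), (nat_lit 0), (nat_lit 0)⟩))
(.lf ⟨(nat_lit 142), (nat_lit 2), (nat_lit 898), (nat_lit 2)⟩)))
(.nd (.nd (.nd (.lf ⟨(nat_lit 0x69a), (nat_lit 2), (nat_lit 0), (nat_lit 0)⟩)
(.lf ⟨(nat_lit 0xb3d9450), (nat_lit 5), (nat_lit 0x2440f41d40f74f66440f7503dd3cb3d1), (nat_lit 21)⟩))
(.nd (.lf ⟨(nat_lit 0x460), (nat_lit 2), (nat_lit 0x811), (nat_lit 2)⟩)
(.lf ⟨(nat_lit 7), (nat_lit 1), (nat_lit 0x38308e0c2), (nat_lit 6)⟩)))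
(.nd (.nd (.lf ⟨(nat_lit 0x723), (nat_lit 2), (nat_lit 0x8dc), (nat_lit 2)⟩)
(.lf ⟨(nat_lit 0x5e0), (nat_lit 2), (nat_lit 0x817), (nat_lit 2)⟩))
(.lf ⟨(nat_lit 0x25cf2c4), (nat_lit 5), (nat_lit 0x44b58f284097), (nat_lit 8)⟩)))))
(.nd (.nd (.nd (.nd (.nd (.lf ⟨(nat_lit 325), (nat_lit 2), (nat_lit 0), (nat_lit 0)⟩)
(.lf ⟨(nat_lit 727), (nat_lit 2), (nat_lit 0x75774b), (nat_lit 4)⟩))
(.nd (.lf ⟨(nat_lit 209), (nat_lit 2), (nat_lit 0x1d12c72c3), (nat_lit 6)⟩)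
(.lf ⟨(nat_lit 547), (nat_lit 2), (nat_lit 0xa1b5d43e88dc6d750f708), (nat_lit 14)⟩)))
(.nd (.nd (.lf ⟨(nat_lit 195), (nat_lit 2), (nat_lit 0), (nat_lit 0)⟩)
(.lf ⟨(nat_lit 151), (nat_lit 2), (nat_lit 0x5c2), (nat_lit 2)⟩))
(.lf ⟨(nat_lit 7), (nat_lit 1), (nat_lit 0x471811c6), (nat_lit 6)⟩)))
(.nd (.nd (.nd (.lf ⟨(nat_lit 143), (nat_lit 2), (nat_lit 0x163c2), (nat_lit 3)⟩)
(.lf ⟨(nat_lit 0xba23), (nat_lit 3), (nat_lit 0x2375b45075b4112e8), (nat_lit 11)⟩))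
(.nd (.lf ⟨(nat_lit 454), (nat_lit 2), (nat_lit 0xc80c8), (nat_lit 4)⟩)
(.lf ⟨(nat_lit 992), (nat_lit 2), (nat_lit 0x80f), (nat_lit 2)⟩)))
(.nd (.nd (.lf ⟨(nat_lit 0x41b), (nat_lit 2), (nat_lit 0x6d0), (nat_lit 2)⟩)
(.lf ⟨(nat_lit 288), (nat_lit 2), (nat_lit 0x6d750f81b41750f404), (nat_lit 12)⟩))
(.lf ⟨(nat_lit 0x461), (nat_lit 2), (nat_lit 0x76165d651), (nat_lit 6)⟩))))
(.nd (.nd (.nd (.nd (.lf ⟨(nat_lit 201), (nat_lit 2), (nat_lit 0xe243), (nat_lit 3)⟩)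
(.lf ⟨(nat_lit 0x5757), (nat_lit 3), (nat_lit 0x1a75775a15d), (nat_lit 7)⟩))
(.nd (.lf ⟨(nat_lit 0x420), (nat_lit 2), (nat_lit 0x810), (nat_lit 2)⟩)
(.lf ⟨(nat_lit 0x457), (nat_lit 2), (nat_lit 0x5d1), (nat_lit 2)⟩)))
(.nd (.nd (.lf ⟨(nat_lit 71), (nat_lit 2), (nat_lit 449), (nat_lit 2)⟩)
(.lf ⟨(nat_lit 87), (nat_lit 2), (nat_lit 0x5c1), (nat_lit 2)⟩))
(.lf ⟨(nat_lit 987), (nat_lit 2), (nat_lit 0x6cf), (nat_lit 2)⟩)))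
(.nd (.nd (.nd (.lf ⟨(nat_lit 455), (nat_lit 2), (nat_lit 0), (nat_lit 0)⟩)
(.lf ⟨(nat_lit 647), (nat_lit 2), (nat_lit 458), (nat_lit 2)⟩))
(.nd (.lf ⟨(nat_lit 25), (nat_lit 1), (nat_lit 0x90090), (nat_lit 4)⟩)
(.lf ⟨(nat_lit 0xe0d1), (nat_lit 3), (nat_lit 0x72c72d1383), (nat_lit 7)⟩)))
(.nd (.nd (.lf ⟨(nat_lit 331), (nat_lit 2), (nat_lit 0x1a2c5), (nat_lit 3)⟩)
(.lf ⟨(nat_lit 545), (nat_lit 2), (nat_lit 0x6d750f85b65750f648), (nat_lit 12)⟩))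
(.lf ⟨(nat_lit 667), (nat_lit 2), (nat_lit 0x6ca), (nat_lit 2)⟩))))))
(.nd (.nd (.nd (.nd (.nd (.nd (.lf ⟨(nat_lit 260), (nat_lit 2), (nat_lit 0), (nat_lit 0)⟩)
(.lf ⟨(nat_lit 0), (nat_lit 0), (nat_lit 0x872c72c21cb1cb), (nat_lit 10)⟩))
(.nd (.lf ⟨(nat_lit 206), (nat_lit 2), (nat_lit 899), (nat_lit 2)⟩)
(.lf ⟨(nat_lit 976), (nat_lit 2), (nat_lit 0x195d03e16515d1), (nat_lit 9)⟩)))
(.nd (.nd (.lf ⟨(nat_lit 65), (nat_lit 2), (nat_lit 0), (nat_lit 0)⟩)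
(.lf ⟨(nat_lit 645), (nat_lit 2), (nat_lit 0x1714a), (nat_lit 3)⟩))
(.lf ⟨(nat_lit 203), (nat_lit 2), (nat_lit 707), (nat_lit 2)⟩)))
(.nd (.nd (.nd (.lf ⟨(nat_lit 139), (nat_lit 2), (nat_lit 0x112c2), (nat_lit 3)⟩)
(.lf ⟨(nat_lit 0xa1ce), (nat_lit 3), (nat_lit 0x6cc2e892375c75c6ce30b287), (nat_lit 16)⟩))
(.nd (.lf ⟨(nat_lit 912), (nat_lit 2), (nat_lit 0x40e), (nat_lit 2)⟩)
(.lf ⟨(nat_lit 0xb1ce), (nat_lit 3), (nat_lit 0x1dc40740e2c7), (nat_lit 8)⟩)))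
(.nd (.nd (.lf ⟨(nat_lit 983), (nat_lit 2), (nat_lit 0x5cf), (nat_lit 2)⟩)
(.lf ⟨(nat_lit 0x461), (nat_lit 2), (nat_lit 0x851), (nat_lit 2)⟩))
(.lf ⟨(nat_lit 0x45b), (nat_lit 2), (nat_lit 0x6d1), (nat_lit 2)⟩))))
(.nd (.nd (.nd (.nd (.lf ⟨(nat_lit 202), (nat_lit 2), (nat_lit 0xc283), (nat_lit 3)⟩)
(.lf ⟨(nat_lit 0x51c), (nat_lit 2), (nat_lit 0x714), (nat_lit 2)⟩))
(.nd (.lf ⟨(nat_lit 0x383383), (nat_lit 4), (nat_lit 0), (nat_lit 0)⟩)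
(.lf ⟨(nat_lit 0xf810), (nat_lit 3), (nat_lit 0x65740f8606515d1), (nat_lit 10)⟩)))
(.nd (.nd (.lf ⟨(nat_lit 203), (nat_lit 2), (nat_lit 707), (nat_lit 2)⟩)
(.lf ⟨(nat_lit 202), (nat_lit 2), (nat_lit 643), (nat_lit 2)⟩))
(.lf ⟨(nat_lit 980), (nat_lit 2), (nat_lit 0x50f), (nat_lit 2)⟩)))
(.nd (.nd (.nd (.lf ⟨(nat_lit 0x71c), (nat_lit 2), (nat_lit 0), (nat_lit 0)⟩)
(.lf ⟨(nat_lit 547), (nat_lit 2), (nat_lit 0xa1b5943e88dc6d650f708), (nat_lit 14)⟩))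
(.nd (.lf ⟨(nat_lit 718), (nat_lit 2), (nat_lit 907), (nat_lit 2)⟩)
(.lf ⟨(nat_lit 0x1cb1cb), (nat_lit 4), (nat_lit 0x38344e0d1), (nat_lit 6)⟩)))
(.nd (.nd (.lf ⟨(nat_lit 651), (nat_lit 2), (nat_lit 0x1d2ca), (nat_lit 3)⟩)
(.lf ⟨(nat_lit 0x5da), (nat_lit 2), (nat_lit 0x697), (nat_lit 2)⟩))
(.lf ⟨(nat_lit 919), (nat_lit 2), (nat_lit 0x5ce), (nat_lit 2)⟩)))))
(.nd (.nd (.nd (.nd (.nd (.lf ⟨(nat_lit 68), (nat_lit 2), (nat_lit 0x9101), (nat_lit 3)⟩)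
(.lf ⟨(nat_lit 0x5a0), (nat_lit 2), (nat_lit 0x816), (nat_lit 2)⟩))
(.nd (.lf ⟨(nat_lit 527), (nat_lit 2), (nat_lit 968), (nat_lit 2)⟩)
(.lf ⟨(nat_lit 40), (nat_lit 1), (nat_lit 0), (nat_lit 0)⟩)))
(.nd (.nd (.lf ⟨(nat_lit 199), (nat_lit 2), (nat_lit 451), (nat_lit 2)⟩)
(.lf ⟨(nat_lit 30), (nat_lit 1), (nat_lit 0), (nat_lit 0)⟩))
(.lf ⟨(nat_lit 583), (nat_lit 2), (nat_lit 457), (nat_lit 2)⟩)))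
(.nd (.nd (.nd (.lf ⟨(nat_lit 0x659), (nat_lit 2), (nat_lit 0), (nat_lit 0)⟩)
(.lf ⟨(nat_lit 0x10757), (nat_lit 3), (nat_lit 0x1e91e75791d41d), (nat_lit 9)⟩))
(.nd (.lf ⟨(nat_lit 28), (nat_lit 1), (nat_lit 0x51051), (nat_lit 4)⟩)
(.lf ⟨(nat_lit 288), (nat_lit 2), (nat_lit 0x804), (nat_lit 2)⟩)))
(.nd (.nd (.lf ⟨(nat_lit 0x660), (nat_lit 2), (nat_lit 0x819), (nat_lit 2)⟩)
(.lf ⟨(nat_lit 727), (nat_lit 2), (nat_lit 0x5cb), (nat_lit 2)⟩))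
(.lf ⟨(nat_lit 0x519), (nat_lit 2), (nat_lit 0x654), (nat_lit 2)⟩))))
(.nd (.nd (.nd (.nd (.lf ⟨(nat_lit 74), (nat_lit 2), (nat_lit 0xf281), (nat_lit 3)⟩)
(.lf ⟨(nat_lit 739), (nat_lit 2), (nat_lit 0x8dd6d141d6d044b), (nat_lit 10)⟩))
(.nd (.lf ⟨(nat_lit 16), (nat_lit 1), (nat_lit 0x4b04b), (nat_lit 4)⟩)
(.lf ⟨(nat_lit 0xb1db), (nat_lit 3), (nat_lit 0x1dc6d01d02c7), (nat_lit 8)⟩)))
(.nd (.nd (.lf ⟨(nat_lit 153), (nat_lit 2), (nat_lit 0x642), (nat_lit 2)⟩)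
(.lf ⟨(nat_lit 29), (nat_lit 1), (nat_lit 0), (nat_lit 0)⟩))
(.lf ⟨(nat_lit 0x5db), (nat_lit 2), (nat_lit 0x6d7), (nat_lit 2)⟩)))
(.nd (.nd (.nd (.lf ⟨(nat_lit 0x861), (nat_lit 2), (nat_lit 0), (nat_lit 0)⟩)
(.lf ⟨(nat_lit 22), (nat_lit 1), (nat_lit 23), (nat_lit 1)⟩))
(.lf ⟨(nat_lit 261), (nat_lit 2), (nat_lit 0x1b69440e144), (nat_lit 7)⟩))
(.nd (.nd (.lf ⟨(nat_lit 343), (nat_lit 2), (nat_lit 0x5c5), (nat_lit 2)⟩)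
(.lf ⟨(nat_lit 744), (nat_lit 2), (nat_lit 0x8cb), (nat_lit 2)⟩))
(.lf ⟨(nat_lit 288), (nat_lit 2), (nat_lit 0x6d650f81b41650f404), (nat_lit 12)⟩))))))))

/-- Substitution. -/
def s15 : List (ℕ × ℕ) := [((nat_lit 1), (nat_lit 1)), ((nat_lit 3), (nat_lit 1)), ((nat_lit 2), (nat_lit 1)), ((nat_lit 11), (nat_lit 1)), ((nat_lit 5), (nat_lit 1)), ((nat_lit 8), (nat_lit 1)), ((nat_lit 16), (nat_lit 1)), ((nat_lit 17), (nat_lit 1)), ((nat_lit 454), (nat_lit 2)), ((nat_lit 26), (nat_lit 1)), ((nat_lit 25), (nat_lit 1)), ((nat_lit 28), (nat_lit 1)), ((nat_lit 7), (nat_lit 1))]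

/-- Context. -/
noncomputable def x15 : ℕ → ℕ × ℕ :=
  mkc d3 736 s3 x3 (nth [] (Cl.alts H3.cl) 4)

set_option maxRecDepth 100000 in
/-- Facts. -/
noncomputable def d16 : Tr :=
(.nd (.nd (.nd (.nd (.nd (.lf ⟨(nat_lit 130), (nat_lit 2), (nat_lit 0), (nat_lit 0)⟩)
(.lf ⟨(nat_lit 131), (nat_lit 2), (nat_lit 194), (nat_lit 2)⟩))
(.lf ⟨(nat_lit 131), (nat_lit 2), (nat_lit 0x70c2), (nat_lit 3)⟩))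
(.nd (.lf ⟨(nat_lit 132), (nat_lit 2), (nat_lit 0xa102), (nat_lit 3)⟩)
(.lf ⟨(nat_lit 263), (nat_lit 2), (nat_lit 0x112c72c4), (nat_lit 5)⟩)))
(.nd (.nd (.nd (.lf ⟨(nat_lit 260), (nat_lit 2), (nat_lit 0), (nat_lit 0)⟩)
(.lf ⟨(nat_lit 0x4083083), (nat_lit 5), (nat_lit 0x20c20c4), (nat_lit 5)⟩))
(.lf ⟨(nat_lit 203), (nat_lit 2), (nat_lit 707), (nat_lit 2)⟩))
(.nd (.lf ⟨(nat_lit 196), (nat_lit 2), (nat_lit 0xb103), (nat_lit 3)⟩)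
(.lf ⟨(nat_lit 194), (nat_lit 2), (nat_lit 131), (nat_lit 2)⟩))))
(.nd (.nd (.nd (.nd (.lf ⟨(nat_lit 195), (nat_lit 2), (nat_lit 0), (nat_lit 0)⟩)
(.lf ⟨(nat_lit 17), (nat_lit 1), (nat_lit 0), (nat_lit 0)⟩))
(.lf ⟨(nat_lit 138), (nat_lit 2), (nat_lit 642), (nat_lit 2)⟩))
(.nd (.lf ⟨(nat_lit 715), (nat_lit 2), (nat_lit 0), (nat_lit 0)⟩)
(.lf ⟨(nat_lit 651), (nat_lit 2), (nat_lit 714), (nat_lit 2)⟩)))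
(.nd (.nd (.lf ⟨(nat_lit 650), (nat_lit 2), (nat_lit 0), (nat_lit 0)⟩)
(.lf ⟨(nat_lit 202), (nat_lit 2), (nat_lit 643), (nat_lit 2)⟩))
(.nd (.lf ⟨(nat_lit 139), (nat_lit 2), (nat_lit 0x112c2), (nat_lit 3)⟩)
(.lf ⟨(nat_lit 7), (nat_lit 1), (nat_lit 0), (nat_lit 0)⟩)))))

/-- Context. -/
noncomputable def x16 : ℕ → ℕ × ℕ :=
  mkc d15 223 s15 x15 (nth [] (Cl.alts H3.cl) 0)

set_option maxRecDepth 100000 in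
/-- Facts. -/
noncomputable def d17 : Tr :=
(.nd (.nd (.nd (.nd (.nd (.lf ⟨(nat_lit 65), (nat_lit 2), (nat_lit 0), (nat_lit 0)⟩)
(.lf ⟨(nat_lit 202), (nat_lit 2), (nat_lit 643), (nat_lit 2)⟩))
(.nd (.lf ⟨(nat_lit 0x410), (nat_lit 2), (nat_lit 0), (nat_lit 0)⟩)
(.lf ⟨(nat_lit 28), (nat_lit 1), (nat_lit 0), (nat_lit 0)⟩)))
(.nd (.nd (.lf ⟨(nat_lit 650), (nat_lit 2), (nat_lit 0), (nat_lit 0)⟩)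
(.lf ⟨(nat_lit 0x407), (nat_lit 2), (nat_lit 464), (nat_lit 2)⟩))
(.nd (.lf ⟨(nat_lit 89), (nat_lit 2), (nat_lit 0x20641), (nat_lit 3)⟩)
(.lf ⟨(nat_lit 139), (nat_lit 2), (nat_lit 0x192c2), (nat_lit 3)⟩))))
(.nd (.nd (.nd (.lf ⟨(nat_lit 195), (nat_lit 2), (nat_lit 0), (nat_lit 0)⟩)
(.lf ⟨(nat_lit 651), (nat_lit 2), (nat_lit 714), (nat_lit 2)⟩))
(.nd (.lf ⟨(nat_lit 0x659), (nat_lit 2), (nat_lit 0), (nat_lit 0)⟩)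
(.lf ⟨(nat_lit 32), (nat_lit 1), (nat_lit 0), (nat_lit 0)⟩)))
(.nd (.nd (.lf ⟨(nat_lit 715), (nat_lit 2), (nat_lit 0), (nat_lit 0)⟩)
(.lf ⟨(nat_lit 28), (nat_lit 1), (nat_lit 7), (nat_lit 1)⟩))
(.nd (.lf ⟨(nat_lit 138), (nat_lit 2), (nat_lit 642), (nat_lit 2)⟩)
(.lf ⟨(nat_lit 25), (nat_lit 1), (nat_lit 0), (nat_lit 0)⟩)))))
(.nd (.nd (.nd (.nd (.lf ⟨(nat_lit 130), (nat_lit 2), (nat_lit 0), (nat_lit 0)⟩)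
(.lf ⟨(nat_lit 263), (nat_lit 2), (nat_lit 0x112c72c4), (nat_lit 5)⟩))
(.nd (.lf ⟨(nat_lit 139), (nat_lit 2), (nat_lit 0x112c2), (nat_lit 3)⟩)
(.lf ⟨(nat_lit 7), (nat_lit 1), (nat_lit 32), (nat_lit 1)⟩)))
(.nd (.nd (.lf ⟨(nat_lit 132), (nat_lit 2), (nat_lit 0xa102), (nat_lit 3)⟩)
(.lf ⟨(nat_lit 89), (nat_lit 2), (nat_lit 0x7641), (nat_lit 3)⟩))
(.nd (.lf ⟨(nat_lit 131), (nat_lit 2), (nat_lit 0x70c2), (nat_lit 3)⟩)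
(.lf ⟨(nat_lit 131), (nat_lit 2), (nat_lit 194), (nat_lit 2)⟩))))
(.nd (.nd (.nd (.lf ⟨(nat_lit 260), (nat_lit 2), (nat_lit 0), (nat_lit 0)⟩)
(.lf ⟨(nat_lit 0x407), (nat_lit 2), (nat_lit 0x7710), (nat_lit 3)⟩))
(.nd (.lf ⟨(nat_lit 455), (nat_lit 2), (nat_lit 0), (nat_lit 0)⟩)
(.lf ⟨(nat_lit 17), (nat_lit 1), (nat_lit 25), (nat_lit 1)⟩)))
(.nd (.nd (.lf ⟨(nat_lit 196), (nat_lit 2), (nat_lit 0xb103), (nat_lit 3)⟩)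
(.lf ⟨(nat_lit 17), (nat_lit 1), (nat_lit 473), (nat_lit 2)⟩))
(.nd (.lf ⟨(nat_lit 203), (nat_lit 2), (nat_lit 707), (nat_lit 2)⟩)
(.lf ⟨(nat_lit 0x4083083), (nat_lit 5), (nat_lit 0x20c20c4), (nat_lit 5)⟩))))))

/-- Context. -/
noncomputable def x17 : ℕ → ℕ × ℕ :=
  mkc d15 223 s15 x15 (nth [] (Cl.alts H3.cl) 1)

set_option maxRecDepth 100000 in
/-- Facts. -/
noncomputable def d18 : Tr :=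
(.nd (.nd (.nd (.nd (.nd (.lf ⟨(nat_lit 65), (nat_lit 2), (nat_lit 0), (nat_lit 0)⟩)
(.lf ⟨(nat_lit 202), (nat_lit 2), (nat_lit 643), (nat_lit 2)⟩))
(.nd (.lf ⟨(nat_lit 139), (nat_lit 2), (nat_lit 0x112c2), (nat_lit 3)⟩)
(.lf ⟨(nat_lit 139), (nat_lit 2), (nat_lit 0x202c2), (nat_lit 3)⟩)))
(.nd (.nd (.lf ⟨(nat_lit 650), (nat_lit 2), (nat_lit 0), (nat_lit 0)⟩)
(.lf ⟨(nat_lit 89), (nat_lit 2), (nat_lit 0x7641), (nat_lit 3)⟩))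
(.lf ⟨(nat_lit 131), (nat_lit 2), (nat_lit 0x70c2), (nat_lit 3)⟩)))
(.nd (.nd (.nd (.lf ⟨(nat_lit 195), (nat_lit 2), (nat_lit 0), (nat_lit 0)⟩)
(.lf ⟨(nat_lit 651), (nat_lit 2), (nat_lit 714), (nat_lit 2)⟩))
(.nd (.lf ⟨(nat_lit 0x820), (nat_lit 2), (nat_lit 0), (nat_lit 0)⟩)
(.lf ⟨(nat_lit 32), (nat_lit 1), (nat_lit 0), (nat_lit 0)⟩)))
(.nd (.nd (.lf ⟨(nat_lit 715), (nat_lit 2), (nat_lit 0), (nat_lit 0)⟩)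
(.lf ⟨(nat_lit 7), (nat_lit 1), (nat_lit 32), (nat_lit 1)⟩))
(.lf ⟨(nat_lit 203), (nat_lit 2), (nat_lit 707), (nat_lit 2)⟩))))
(.nd (.nd (.nd (.nd (.lf ⟨(nat_lit 130), (nat_lit 2), (nat_lit 0), (nat_lit 0)⟩)
(.lf ⟨(nat_lit 263), (nat_lit 2), (nat_lit 0x112c72c4), (nat_lit 5)⟩))
(.nd (.lf ⟨(nat_lit 0x659), (nat_lit 2), (nat_lit 0), (nat_lit 0)⟩)
(.lf ⟨(nat_lit 131), (nat_lit 2), (nat_lit 0x200c2), (nat_lit 3)⟩)))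
(.nd (.nd (.lf ⟨(nat_lit 132), (nat_lit 2), (nat_lit 0xa102), (nat_lit 3)⟩)
(.lf ⟨(nat_lit 17), (nat_lit 1), (nat_lit 7), (nat_lit 1)⟩))
(.lf ⟨(nat_lit 138), (nat_lit 2), (nat_lit 642), (nat_lit 2)⟩)))
(.nd (.nd (.nd (.lf ⟨(nat_lit 260), (nat_lit 2), (nat_lit 0), (nat_lit 0)⟩)
(.lf ⟨(nat_lit 288), (nat_lit 2), (nat_lit 0x804), (nat_lit 2)⟩))
(.nd (.lf ⟨(nat_lit 89), (nat_lit 2), (nat_lit 0x20641), (nat_lit 3)⟩)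
(.lf ⟨(nat_lit 0x4083083), (nat_lit 5), (nat_lit 0x20c20c4), (nat_lit 5)⟩)))
(.nd (.nd (.lf ⟨(nat_lit 196), (nat_lit 2), (nat_lit 0xb103), (nat_lit 3)⟩)
(.lf ⟨(nat_lit 17), (nat_lit 1), (nat_lit 32), (nat_lit 1)⟩))
(.lf ⟨(nat_lit 736), (nat_lit 2), (nat_lit 0x80b), (nat_lit 2)⟩)))))

/-- Context. -/
noncomputable def x18 : ℕ → ℕ × ℕ :=
  mkc d15 223 s15 x15 (nth [] (Cl.alts H3.cl) 2)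

set_option maxRecDepth 100000 in
/-- Facts. -/
noncomputable def d19 : Tr :=
(.nd (.nd (.nd (.nd (.nd (.lf ⟨(nat_lit 130), (nat_lit 2), (nat_lit 0), (nat_lit 0)⟩)
(.lf ⟨(nat_lit 0x407), (nat_lit 2), (nat_lit 0x7710), (nat_lit 3)⟩))
(.lf ⟨(nat_lit 139), (nat_lit 2), (nat_lit 0x112c2), (nat_lit 3)⟩))
(.nd (.nd (.lf ⟨(nat_lit 132), (nat_lit 2), (nat_lit 0xa102), (nat_lit 3)⟩)
(.lf ⟨(nat_lit 7), (nat_lit 1), (nat_lit 0), (nat_lit 0)⟩))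
(.lf ⟨(nat_lit 203), (nat_lit 2), (nat_lit 707), (nat_lit 2)⟩)))
(.nd (.nd (.nd (.lf ⟨(nat_lit 260), (nat_lit 2), (nat_lit 0), (nat_lit 0)⟩)
(.lf ⟨(nat_lit 28), (nat_lit 1), (nat_lit 7), (nat_lit 1)⟩))
(.lf ⟨(nat_lit 131), (nat_lit 2), (nat_lit 0x70c2), (nat_lit 3)⟩))
(.nd (.nd (.lf ⟨(nat_lit 196), (nat_lit 2), (nat_lit 0xb103), (nat_lit 3)⟩)
(.lf ⟨(nat_lit 17), (nat_lit 1), (nat_lit 0), (nat_lit 0)⟩))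
(.lf ⟨(nat_lit 263), (nat_lit 2), (nat_lit 0x112c72c4), (nat_lit 5)⟩))))
(.nd (.nd (.nd (.nd (.lf ⟨(nat_lit 195), (nat_lit 2), (nat_lit 0), (nat_lit 0)⟩)
(.lf ⟨(nat_lit 0x407), (nat_lit 2), (nat_lit 464), (nat_lit 2)⟩))
(.lf ⟨(nat_lit 455), (nat_lit 2), (nat_lit 0), (nat_lit 0)⟩))
(.nd (.nd (.lf ⟨(nat_lit 715), (nat_lit 2), (nat_lit 0), (nat_lit 0)⟩)
(.lf ⟨(nat_lit 131), (nat_lit 2), (nat_lit 194), (nat_lit 2)⟩))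
(.lf ⟨(nat_lit 202), (nat_lit 2), (nat_lit 643), (nat_lit 2)⟩)))
(.nd (.nd (.nd (.lf ⟨(nat_lit 650), (nat_lit 2), (nat_lit 0), (nat_lit 0)⟩)
(.lf ⟨(nat_lit 28), (nat_lit 1), (nat_lit 0), (nat_lit 0)⟩))
(.lf ⟨(nat_lit 138), (nat_lit 2), (nat_lit 642), (nat_lit 2)⟩))
(.nd (.nd (.lf ⟨(nat_lit 0x410), (nat_lit 2), (nat_lit 0), (nat_lit 0)⟩)
(.lf ⟨(nat_lit 0x4083083), (nat_lit 5), (nat_lit 0x20c20c4), (nat_lit 5)⟩))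
(.lf ⟨(nat_lit 651), (nat_lit 2), (nat_lit 714), (nat_lit 2)⟩)))))

/-- Context. -/
noncomputable def x19 : ℕ → ℕ × ℕ :=
  mkc d15 223 s15 x15 (nth [] (Cl.alts H3.cl) 3)

set_option maxRecDepth 100000 in
/-- Facts. -/
noncomputable def d20 : Tr :=
(.nd (.nd (.nd (.nd (.nd (.lf ⟨(nat_lit 130), (nat_lit 2), (nat_lit 0), (nat_lit 0)⟩)
(.lf ⟨(nat_lit 711), (nat_lit 2), (nat_lit 459), (nat_lit 2)⟩))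
(.lf ⟨(nat_lit 131), (nat_lit 2), (nat_lit 0x70c2), (nat_lit 3)⟩))
(.nd (.nd (.lf ⟨(nat_lit 715), (nat_lit 2), (nat_lit 0), (nat_lit 0)⟩)
(.lf ⟨(nat_lit 139), (nat_lit 2), (nat_lit 706), (nat_lit 2)⟩))
(.lf ⟨(nat_lit 647), (nat_lit 2), (nat_lit 458), (nat_lit 2)⟩)))
(.nd (.nd (.nd (.lf ⟨(nat_lit 650), (nat_lit 2), (nat_lit 0), (nat_lit 0)⟩)
(.lf ⟨(nat_lit 711), (nat_lit 2), (nat_lit 459), (nat_lit 2)⟩))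
(.lf ⟨(nat_lit 138), (nat_lit 2), (nat_lit 642), (nat_lit 2)⟩))
(.nd (.nd (.lf ⟨(nat_lit 139), (nat_lit 2), (nat_lit 0x112c2), (nat_lit 3)⟩)
(.lf ⟨(nat_lit 0x4083083), (nat_lit 5), (nat_lit 0x20c20c4), (nat_lit 5)⟩))
(.lf ⟨(nat_lit 263), (nat_lit 2), (nat_lit 0x112c72c4), (nat_lit 5)⟩))))
(.nd (.nd (.nd (.nd (.lf ⟨(nat_lit 195), (nat_lit 2), (nat_lit 0), (nat_lit 0)⟩)
(.lf ⟨(nat_lit 17), (nat_lit 1), (nat_lit 0), (nat_lit 0)⟩))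
(.lf ⟨(nat_lit 135), (nat_lit 2), (nat_lit 450), (nat_lit 2)⟩))
(.nd (.nd (.lf ⟨(nat_lit 196), (nat_lit 2), (nat_lit 0xb103), (nat_lit 3)⟩)
(.lf ⟨(nat_lit 263), (nat_lit 2), (nat_lit 452), (nat_lit 2)⟩))
(.lf ⟨(nat_lit 202), (nat_lit 2), (nat_lit 643), (nat_lit 2)⟩)))
(.nd (.nd (.nd (.lf ⟨(nat_lit 132), (nat_lit 2), (nat_lit 0xa102), (nat_lit 3)⟩)
(.lf ⟨(nat_lit 17), (nat_lit 1), (nat_lit 0), (nat_lit 0)⟩))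
(.lf ⟨(nat_lit 203), (nat_lit 2), (nat_lit 707), (nat_lit 2)⟩))
(.nd (.lf ⟨(nat_lit 199), (nat_lit 2), (nat_lit 451), (nat_lit 2)⟩)
(.lf ⟨(nat_lit 651), (nat_lit 2), (nat_lit 714), (nat_lit 2)⟩)))))

/-- Context. -/
noncomputable def x20 : ℕ → ℕ × ℕ :=
  mkc d15 223 s15 x15 (nth [] (Cl.alts H3.cl) 4)

set_option maxRecDepth 100000 in
/-- Facts. -/
noncomputable def d21 : Tr :=
(.nd (.nd (.nd (.nd (.nd (.nd (.lf ⟨(nat_lit 130), (nat_lit 2), (nat_lit 0), (nat_lit 0)⟩)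
(.lf ⟨(nat_lit 221), (nat_lit 2), (nat_lit 0x743), (nat_lit 2)⟩))
(.lf ⟨(nat_lit 135), (nat_lit 2), (nat_lit 450), (nat_lit 2)⟩))
(.nd (.lf ⟨(nat_lit 202), (nat_lit 2), (nat_lit 0xc283), (nat_lit 3)⟩)
(.lf ⟨(nat_lit 733), (nat_lit 2), (nat_lit 0x74b), (nat_lit 2)⟩)))
(.nd (.nd (.nd (.lf ⟨(nat_lit 132), (nat_lit 2), (nat_lit 0xa102), (nat_lit 3)⟩)
(.lf ⟨(nat_lit 647), (nat_lit 2), (nat_lit 0xb1dd44c2ca), (nat_lit 7)⟩))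
(.lf ⟨(nat_lit 716), (nat_lit 2), (nat_lit 779), (nat_lit 2)⟩))
(.nd (.lf ⟨(nat_lit 0x75d), (nat_lit 2), (nat_lit 0), (nat_lit 0)⟩)
(.lf ⟨(nat_lit 275), (nat_lit 2), (nat_lit 0x4c4), (nat_lit 2)⟩))))
(.nd (.nd (.nd (.nd (.lf ⟨(nat_lit 260), (nat_lit 2), (nat_lit 0), (nat_lit 0)⟩)
(.lf ⟨(nat_lit 19), (nat_lit 1), (nat_lit 468), (nat_lit 2)⟩))
(.lf ⟨(nat_lit 203), (nat_lit 2), (nat_lit 707), (nat_lit 2)⟩))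
(.nd (.lf ⟨(nat_lit 139), (nat_lit 2), (nat_lit 0x112c2), (nat_lit 3)⟩)
(.lf ⟨(nat_lit 775), (nat_lit 2), (nat_lit 460), (nat_lit 2)⟩)))
(.nd (.nd (.nd (.lf ⟨(nat_lit 196), (nat_lit 2), (nat_lit 0xb103), (nat_lit 3)⟩)
(.lf ⟨(nat_lit 0x4083083), (nat_lit 5), (nat_lit 0x20c20c4), (nat_lit 5)⟩))
(.lf ⟨(nat_lit 651), (nat_lit 2), (nat_lit 0x1d2ca), (nat_lit 3)⟩))
(.nd (.lf ⟨(nat_lit 199), (nat_lit 2), (nat_lit 451), (nat_lit 2)⟩)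
(.lf ⟨(nat_lit 724), (nat_lit 2), (nat_lit 0x50b), (nat_lit 2)⟩)))))
(.nd (.nd (.nd (.nd (.nd (.lf ⟨(nat_lit 195), (nat_lit 2), (nat_lit 0), (nat_lit 0)⟩)
(.lf ⟨(nat_lit 263), (nat_lit 2), (nat_lit 0x72c775130b287284), (nat_lit 11)⟩))
(.lf ⟨(nat_lit 138), (nat_lit 2), (nat_lit 642), (nat_lit 2)⟩))
(.nd (.lf ⟨(nat_lit 0x451), (nat_lit 2), (nat_lit 0), (nat_lit 0)⟩)
(.lf ⟨(nat_lit 797), (nat_lit 2), (nat_lit 0x74c), (nat_lit 2)⟩)))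
(.nd (.nd (.nd (.lf ⟨(nat_lit 715), (nat_lit 2), (nat_lit 0), (nat_lit 0)⟩)
(.lf ⟨(nat_lit 263), (nat_lit 2), (nat_lit 452), (nat_lit 2)⟩))
(.lf ⟨(nat_lit 0x45d), (nat_lit 2), (nat_lit 0x751), (nat_lit 2)⟩))
(.nd (.lf ⟨(nat_lit 455), (nat_lit 2), (nat_lit 0), (nat_lit 0)⟩)
(.lf ⟨(nat_lit 276), (nat_lit 2), (nat_lit 0x504), (nat_lit 2)⟩))))
(.nd (.nd (.nd (.nd (.lf ⟨(nat_lit 650), (nat_lit 2), (nat_lit 0), (nat_lit 0)⟩)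
(.lf ⟨(nat_lit 19), (nat_lit 1), (nat_lit 468), (nat_lit 2)⟩))
(.lf ⟨(nat_lit 204), (nat_lit 2), (nat_lit 771), (nat_lit 2)⟩))
(.nd (.lf ⟨(nat_lit 0x514), (nat_lit 2), (nat_lit 0), (nat_lit 0)⟩)
(.lf ⟨(nat_lit 0x747), (nat_lit 2), (nat_lit 477), (nat_lit 2)⟩)))
(.nd (.nd (.lf ⟨(nat_lit 780), (nat_lit 2), (nat_lit 0), (nat_lit 0)⟩)
(.lf ⟨(nat_lit 0x447), (nat_lit 2), (nat_lit 465), (nat_lit 2)⟩))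
(.nd (.lf ⟨(nat_lit 131), (nat_lit 2), (nat_lit 0x70c2), (nat_lit 3)⟩)
(.lf ⟨(nat_lit 785), (nat_lit 2), (nat_lit 0x44c), (nat_lit 2)⟩))))))

/-- Context. -/
noncomputable def x21 : ℕ → ℕ × ℕ :=
  mkc d0 1218 s0 x0 (nth [] (Cl.alts H1.cl) 3)

set_option maxRecDepth 100000 in
/-- Facts. -/
noncomputable def d22 : Tr :=
(.nd (.nd (.nd (.nd (.nd (.nd (.nd (.nd (.nd (.nd (.lf ⟨(nat_lit 65), (nat_lit 2), (nat_lit 0), (nat_lit 0)⟩)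
(.lf ⟨(nat_lit 0x464), (nat_lit 2), (nat_lit 0xa239288dd8dda2376371da23711), (nat_lit 18)⟩))
(.nd (.lf ⟨(nat_lit 536), (nat_lit 2), (nat_lit 0x608), (nat_lit 2)⟩)
(.lf ⟨(nat_lit 0x261261), (nat_lit 4), (nat_lit 0x849849), (nat_lit 4)⟩)))
(.nd (.nd (.lf ⟨(nat_lit 916), (nat_lit 2), (nat_lit 0x50e), (nat_lit 2)⟩)
(.lf ⟨(nat_lit 0x1189b45b), (nat_lit 5), (nat_lit 0x1b4626d1), (nat_lit 5)⟩))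
(.lf ⟨(nat_lit 351), (nat_lit 2), (nat_lit 0xe5876076163a57d83961d81d6385), (nat_lit 19)⟩)))
(.nd (.nd (.nd (.lf ⟨(nat_lit 0x9a6), (nat_lit 2), (nat_lit 0), (nat_lit 0)⟩)
(.lf ⟨(nat_lit 14), (nat_lit 1), (nat_lit 0x25a0c9683), (nat_lit 6)⟩))
(.lf ⟨(nat_lit 263), (nat_lit 2), (nat_lit 0x72c775130b287284), (nat_lit 11)⟩))
(.nd (.nd (.lf ⟨(nat_lit 157), (nat_lit 2), (nat_lit 0x742), (nat_lit 2)⟩)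
(.lf ⟨(nat_lit 0x560), (nat_lit 2), (nat_lit 0x815), (nat_lit 2)⟩))
(.lf ⟨(nat_lit 0x9aa5), (nat_lit 3), (nat_lit 0x257d86e991d62c9dba646d89db61b61d6d839f60e609), (nat_lit 29)⟩))))
(.nd (.nd (.nd (.nd (.lf ⟨(nat_lit 0x596), (nat_lit 2), (nat_lit 0), (nat_lit 0)⟩)
(.lf ⟨(nat_lit 0x3ca5113ca511), (nat_lit 8), (nat_lit 0x5113ca5113ca), (nat_lit 8)⟩))
(.nd (.lf ⟨(nat_lit 0x4d8), (nat_lit 2), (nat_lit 0x613), (nat_lit 2)⟩)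
(.lf ⟨(nat_lit 0xfb27), (nat_lit 3), (nat_lit 0x2c9cf), (nat_lit 3)⟩)))
(.nd (.nd (.lf ⟨(nat_lit 0x9ec), (nat_lit 2), (nat_lit 0xb27), (nat_lit 2)⟩)
(.lf ⟨(nat_lit 620), (nat_lit 2), (nat_lit 0x6d8b276d86d89db609), (nat_lit 12)⟩))
(.lf ⟨(nat_lit 607), (nat_lit 2), (nat_lit 0x39f60e609), (nat_lit 6)⟩)))
(.nd (.nd (.nd (.lf ⟨(nat_lit 650), (nat_lit 2), (nat_lit 0), (nat_lit 0)⟩)
(.lf ⟨(nat_lit 0x7550550), (nat_lit 5), (nat_lit 0x401550055), (nat_lit 6)⟩))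
(.lf ⟨(nat_lit 8), (nat_lit 1), (nat_lit 0x1ce345), (nat_lit 4)⟩))
(.nd (.nd (.lf ⟨(nat_lit 603), (nat_lit 2), (nat_lit 0x6c9), (nat_lit 2)⟩)
(.lf ⟨(nat_lit 0x6a0), (nat_lit 2), (nat_lit 0x81a), (nat_lit 2)⟩))
(.lf ⟨(nat_lit 986), (nat_lit 2), (nat_lit 0x5a068758f), (nat_lit 6)⟩)))))
(.nd (.nd (.nd (.nd (.nd (.lf ⟨(nat_lit 845), (nat_lit 2), (nat_lit 0), (nat_lit 0)⟩)
(.lf ⟨(nat_lit 601), (nat_lit 2), (nat_lit 0x20649), (nat_lit 3)⟩))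
(.nd (.lf ⟨(nat_lit 0x587587), (nat_lit 4), (nat_lit 0x1d61d6), (nat_lit 4)⟩)
(.lf ⟨(nat_lit 0x60a60a), (nat_lit 4), (nat_lit 0), (nat_lit 0)⟩)))
(.nd (.nd (.lf ⟨(nat_lit 0x45d), (nat_lit 2), (nat_lit 0x751), (nat_lit 2)⟩)
(.lf ⟨(nat_lit 0x9819), (nat_lit 3), (nat_lit 0x819260), (nat_lit 4)⟩))
(.lf ⟨(nat_lit 0xa89b), (nat_lit 3), (nat_lit 0x9db2a2), (nat_lit 4)⟩)))
(.nd (.nd (.nd (.lf ⟨(nat_lit 195), (nat_lit 2), (nat_lit 0), (nat_lit 0)⟩)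
(.lf ⟨(nat_lit 0x415415), (nat_lit 4), (nat_lit 0x550550), (nat_lit 4)⟩))
(.lf ⟨(nat_lit 85), (nat_lit 2), (nat_lit 0x7541), (nat_lit 3)⟩))
(.nd (.nd (.lf ⟨(nat_lit 673), (nat_lit 2), (nat_lit 0x84a), (nat_lit 2)⟩)
(.lf ⟨(nat_lit 287), (nat_lit 2), (nat_lit 0x7d87676d8a5d6c4), (nat_lit 10)⟩))
(.lf ⟨(nat_lit 0x522), (nat_lit 2), (nat_lit 0x894), (nat_lit 2)⟩))))
(.nd (.nd (.nd (.nd (.lf ⟨(nat_lit 0x79e), (nat_lit 2), (nat_lit 0), (nat_lit 0)⟩)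
(.lf ⟨(nat_lit 0x31644b58b), (nat_lit 6), (nat_lit 0x5912d62cc), (nat_lit 6)⟩))
(.lf ⟨(nat_lit 718), (nat_lit 2), (nat_lit 907), (nat_lit 2)⟩))
(.nd (.nd (.lf ⟨(nat_lit 537), (nat_lit 2), (nat_lit 0x648), (nat_lit 2)⟩)
(.lf ⟨(nat_lit 0x928), (nat_lit 2), (nat_lit 0xa24), (nat_lit 2)⟩))
(.lf ⟨(nat_lit 0x42c), (nat_lit 2), (nat_lit 0xb10), (nat_lit 2)⟩)))
(.nd (.nd (.nd (.lf ⟨(nat_lit 80), (nat_lit 2), (nat_lit 0x401), (nat_lit 2)⟩)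
(.lf ⟨(nat_lit 0x5db2d76cb), (nat_lit 6), (nat_lit 0x5c36cb5c36cb), (nat_lit 8)⟩))
(.lf ⟨(nat_lit 341), (nat_lit 2), (nat_lit 0x545), (nat_lit 2)⟩))
(.nd (.nd (.lf ⟨(nat_lit 212), (nat_lit 2), (nat_lit 0x503), (nat_lit 2)⟩)
(.lf ⟨(nat_lit 981), (nat_lit 2), (nat_lit 0x58769055679a40f), (nat_lit 10)⟩))
(.lf ⟨(nat_lit 593), (nat_lit 2), (nat_lit 0xa5da2372475c449), (nat_lit 10)⟩))))))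
(.nd (.nd (.nd (.nd (.nd (.nd (.lf ⟨(nat_lit 68), (nat_lit 2), (nat_lit 0x9101), (nat_lit 3)⟩)
(.lf ⟨(nat_lit 606), (nat_lit 2), (nat_lit 0x789), (nat_lit 2)⟩))
(.nd (.lf ⟨(nat_lit 5), (nat_lit 1), (nat_lit 0x43043), (nat_lit 4)⟩)
(.lf ⟨(nat_lit 0x2db7116d12db7116d1), (nat_lit 12), (nat_lit 0x2db7116d12db7116d1), (nat_lit 12)⟩)))
(.nd (.nd (.lf ⟨(nat_lit 917), (nat_lit 2), (nat_lit 0x54e), (nat_lit 2)⟩)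
(.lf ⟨(nat_lit 0x1b7676dd), (nat_lit 5), (nat_lit 0x1d9db75b), (nat_lit 5)⟩))
(.lf ⟨(nat_lit 0x421), (nat_lit 2), (nat_lit 0x6e165b650), (nat_lit 6)⟩)))
(.nd (.nd (.nd (.lf ⟨(nat_lit 293), (nat_lit 2), (nat_lit 0x2a944), (nat_lit 3)⟩)
(.lf ⟨(nat_lit 0x407), (nat_lit 2), (nat_lit 464), (nat_lit 2)⟩))
(.lf ⟨(nat_lit 0x507), (nat_lit 2), (nat_lit 468), (nat_lit 2)⟩))
(.nd (.nd (.lf ⟨(nat_lit 160), (nat_lit 2), (nat_lit 0x802), (nat_lit 2)⟩)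
(.lf ⟨(nat_lit 738), (nat_lit 2), (nat_lit 0x6d189b44b), (nat_lit 6)⟩))
(.lf ⟨(nat_lit 489), (nat_lit 2), (nat_lit 0xa47), (nat_lit 2)⟩))))
(.nd (.nd (.nd (.nd (.lf ⟨(nat_lit 208), (nat_lit 2), (nat_lit 0x1a403), (nat_lit 3)⟩)
(.lf ⟨(nat_lit 0x5820d6083), (nat_lit 6), (nat_lit 0x5820d6083), (nat_lit 6)⟩))
(.nd (.lf ⟨(nat_lit 0x19e18f), (nat_lit 4), (nat_lit 0x3c719e1c6), (nat_lit 6)⟩)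
(.lf ⟨(nat_lit 0x12c9cf12c9cf), (nat_lit 8), (nat_lit 0x12c9cf12c9cf), (nat_lit 8)⟩)))
(.nd (.nd (.lf ⟨(nat_lit 0x447), (nat_lit 2), (nat_lit 465), (nat_lit 2)⟩)
(.lf ⟨(nat_lit 493), (nat_lit 2), (nat_lit 0xb47), (nat_lit 2)⟩))
(.lf ⟨(nat_lit 671), (nat_lit 2), (nat_lit 0x31f60c60a), (nat_lit 6)⟩)))
(.nd (.nd (.nd (.lf ⟨(nat_lit 0x2c62c6), (nat_lit 4), (nat_lit 0x18b18b), (nat_lit 4)⟩)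
(.lf ⟨(nat_lit 14), (nat_lit 1), (nat_lit 0x6890da243), (nat_lit 6)⟩))
(.lf ⟨(nat_lit 352), (nat_lit 2), (nat_lit 0xe3601ce345), (nat_lit 7)⟩))
(.nd (.nd (.lf ⟨(nat_lit 0x3ca3ca), (nat_lit 4), (nat_lit 0), (nat_lit 0)⟩)
(.lf ⟨(nat_lit 937), (nat_lit 2), (nat_lit 0xba975b69061a5107d86df7676d8b9a6276d851061a40e), (nat_lit 30)⟩))
(.lf ⟨(nat_lit 137), (nat_lit 2), (nat_lit 0x1da4163ce242), (nat_lit 8)⟩)))))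
(.nd (.nd (.nd (.nd (.nd (.lf ⟨(nat_lit 0x451), (nat_lit 2), (nat_lit 0), (nat_lit 0)⟩)
(.lf ⟨(nat_lit 0x40b3102cc), (nat_lit 6), (nat_lit 0x3102cc40b), (nat_lit 6)⟩))
(.nd (.lf ⟨(nat_lit 21), (nat_lit 1), (nat_lit 0x8e08e), (nat_lit 4)⟩)
(.lf ⟨(nat_lit 5), (nat_lit 1), (nat_lit 0xdb0436c1), (nat_lit 6)⟩)))
(.nd (.nd (.lf ⟨(nat_lit 0x7e5), (nat_lit 2), (nat_lit 0x95f), (nat_lit 2)⟩)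
(.lf ⟨(nat_lit 0x985b650), (nat_lit 5), (nat_lit 0x8196d0261), (nat_lit 6)⟩))
(.lf ⟨(nat_lit 617), (nat_lit 2), (nat_lit 0xa49), (nat_lit 2)⟩)))
(.nd (.nd (.nd (.lf ⟨(nat_lit 266), (nat_lit 2), (nat_lit 644), (nat_lit 2)⟩)
(.lf ⟨(nat_lit 0x1076c76da1076c76da), (nat_lit 12), (nat_lit 0x1076c76da1076c76da), (nat_lit 12)⟩))
(.lf ⟨(nat_lit 0x515), (nat_lit 2), (nat_lit 0x554), (nat_lit 2)⟩))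
(.nd (.nd (.lf ⟨(nat_lit 527), (nat_lit 2), (nat_lit 968), (nat_lit 2)⟩)
(.lf ⟨(nat_lit 0x416), (nat_lit 2), (nat_lit 0x1da5a06a069e690), (nat_lit 10)⟩))
(.lf ⟨(nat_lit 228), (nat_lit 2), (nat_lit 0x164745743), (nat_lit 6)⟩))))
(.nd (.nd (.nd (.nd (.lf ⟨(nat_lit 0x8a2), (nat_lit 2), (nat_lit 0), (nat_lit 0)⟩)
(.lf ⟨(nat_lit 0x28229b0ca6c308a6c329b0ca08a6c329b0c229b0ca6c3), (nat_lit 30), (nat_lit 0x28229b0ca6c308a6c329b0ca08a6c329b0c229b0ca6c3), (nat_lit 30)⟩))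
(.lf ⟨(nat_lit 0x414), (nat_lit 2), (nat_lit 0x510), (nat_lit 2)⟩))
(.nd (.nd (.lf ⟨(nat_lit 856), (nat_lit 2), (nat_lit 0x60d), (nat_lit 2)⟩)
(.lf ⟨(nat_lit 0x763763), (nat_lit 4), (nat_lit 0x8dd8dd), (nat_lit 4)⟩))
(.lf ⟨(nat_lit 857), (nat_lit 2), (nat_lit 0x41539941538d), (nat_lit 8)⟩)))
(.nd (.nd (.nd (.lf ⟨(nat_lit 153), (nat_lit 2), (nat_lit 0x642), (nat_lit 2)⟩)
(.lf ⟨(nat_lit 0x41741e), (nat_lit 4), (nat_lit 0x69e6905d0), (nat_lit 6)⟩))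
(.lf ⟨(nat_lit 0x518), (nat_lit 2), (nat_lit 0x614), (nat_lit 2)⟩))
(.nd (.nd (.lf ⟨(nat_lit 0x21b21b), (nat_lit 4), (nat_lit 0x6c86c8), (nat_lit 4)⟩)
(.lf ⟨(nat_lit 0x858858), (nat_lit 4), (nat_lit 0x844621118), (nat_lit 6)⟩))
(.lf ⟨(nat_lit 344), (nat_lit 2), (nat_lit 0x694418694405), (nat_lit 8)⟩)))))))
(.nd (.nd (.nd (.nd (.nd (.nd (.nd (.lf ⟨(nat_lit 66), (nat_lit 2), (nat_lit 0x8081), (nat_lit 3)⟩)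
(.lf ⟨(nat_lit 607), (nat_lit 2), (nat_lit 0x759e6076167a57d81d67981d859e609), (nat_lit 21)⟩))
(.nd (.lf ⟨(nat_lit 0x11a23), (nat_lit 3), (nat_lit 0x1ca5d72975ca2391d71d464), (nat_lit 15)⟩)
(.lf ⟨(nat_lit 16), (nat_lit 1), (nat_lit 0x6c12db04b), (nat_lit 6)⟩)))
(.nd (.nd (.lf ⟨(nat_lit 655), (nat_lit 2), (nat_lit 970), (nat_lit 2)⟩)
(.lf ⟨(nat_lit 0x1091d41d), (nat_lit 5), (nat_lit 0x1d424750), (nat_lit 5)⟩))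
(.lf ⟨(nat_lit 0x6e7), (nat_lit 2), (nat_lit 0x9db), (nat_lit 2)⟩)))
(.nd (.nd (.nd (.lf ⟨(nat_lit 0xa28), (nat_lit 2), (nat_lit 0), (nat_lit 0)⟩)
(.lf ⟨(nat_lit 0x8909a0c268324268309a0c224268309a0c909a0c2683), (nat_lit 30), (nat_lit 0x8909a0c268324268309a0c224268309a0c909a0c2683), (nat_lit 30)⟩))
(.lf ⟨(nat_lit 7), (nat_lit 1), (nat_lit 0x46046), (nat_lit 4)⟩))
(.nd (.nd (.lf ⟨(nat_lit 94), (nat_lit 2), (nat_lit 0x781), (nat_lit 2)⟩)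
(.lf ⟨(nat_lit 615), (nat_lit 2), (nat_lit 0x6d89db609), (nat_lit 6)⟩))
(.lf ⟨(nat_lit 0x18a5d61d), (nat_lit 5), (nat_lit 0x1d629758), (nat_lit 5)⟩))))
(.nd (.nd (.nd (.nd (.lf ⟨(nat_lit 271), (nat_lit 2), (nat_lit 0x183c4), (nat_lit 3)⟩)
(.lf ⟨(nat_lit 0x1b0f), (nat_lit 3), (nat_lit 0x2c9c5b273ec9c59cf9c5b273ec9c5b2706c), (nat_lit 23)⟩))
(.nd (.lf ⟨(nat_lit 264), (nat_lit 2), (nat_lit 0x185933cd204), (nat_lit 7)⟩)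
(.lf ⟨(nat_lit 671), (nat_lit 2), (nat_lit 0x7d831830a), (nat_lit 6)⟩)))
(.nd (.nd (.lf ⟨(nat_lit 587), (nat_lit 2), (nat_lit 0x1b2c9), (nat_lit 3)⟩)
(.lf ⟨(nat_lit 0x66c), (nat_lit 2), (nat_lit 0x82c9e09d9), (nat_lit 6)⟩))
(.lf ⟨(nat_lit 615), (nat_lit 2), (nat_lit 0x6276d86c9), (nat_lit 6)⟩)))
(.nd (.nd (.nd (.lf ⟨(nat_lit 780), (nat_lit 2), (nat_lit 0), (nat_lit 0)⟩)
(.lf ⟨(nat_lit 0x401650559550), (nat_lit 8), (nat_lit 0x650559550401), (nat_lit 8)⟩))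
(.lf ⟨(nat_lit 0x2d52d5), (nat_lit 4), (nat_lit 0x54b54b), (nat_lit 4)⟩))
(.nd (.nd (.lf ⟨(nat_lit 775), (nat_lit 2), (nat_lit 460), (nat_lit 2)⟩)
(.lf ⟨(nat_lit 0x763), (nat_lit 2), (nat_lit 0x8dd), (nat_lit 2)⟩))
(.lf ⟨(nat_lit 0x51e), (nat_lit 2), (nat_lit 0x794), (nat_lit 2)⟩)))))
(.nd (.nd (.nd (.nd (.nd (.lf ⟨(nat_lit 975), (nat_lit 2), (nat_lit 0), (nat_lit 0)⟩)
(.lf ⟨(nat_lit 0x71d71d), (nat_lit 4), (nat_lit 0xa239288dda239288dc75c), (nat_lit 14)⟩))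
(.nd (.lf ⟨(nat_lit 922), (nat_lit 2), (nat_lit 0x68e), (nat_lit 2)⟩)
(.lf ⟨(nat_lit 0xd828b60a2c360a2d828b), (nat_lit 14), (nat_lit 0xd828b60a2c360a2d828b), (nat_lit 14)⟩)))
(.nd (.nd (.lf ⟨(nat_lit 0x661), (nat_lit 2), (nat_lit 0x859), (nat_lit 2)⟩)
(.lf ⟨(nat_lit 0xf6da), (nat_lit 3), (nat_lit 0x168076963db), (nat_lit 7)⟩))
(.lf ⟨(nat_lit 0x1c91d71d), (nat_lit 5), (nat_lit 0x1d72475c), (nat_lit 5)⟩)))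
(.nd (.nd (.nd (.lf ⟨(nat_lit 131), (nat_lit 2), (nat_lit 0x70c2), (nat_lit 3)⟩)
(.lf ⟨(nat_lit 0x1070c41c3), (nat_lit 6), (nat_lit 0x1070c41c3), (nat_lit 6)⟩))
(.lf ⟨(nat_lit 19), (nat_lit 1), (nat_lit 20), (nat_lit 1)⟩))
(.nd (.nd (.lf ⟨(nat_lit 0x427), (nat_lit 2), (nat_lit 0x9d0), (nat_lit 2)⟩)
(.lf ⟨(nat_lit 604), (nat_lit 2), (nat_lit 0x288dd8dd709), (nat_lit 7)⟩))
(.lf ⟨(nat_lit 0x520), (nat_lit 2), (nat_lit 0x814), (nat_lit 2)⟩))))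
(.nd (.nd (.nd (.nd (.lf ⟨(nat_lit 0x820), (nat_lit 2), (nat_lit 0), (nat_lit 0)⟩)
(.lf ⟨(nat_lit 0x29b0ca6c3), (nat_lit 6), (nat_lit 0x29b0ca6c3), (nat_lit 6)⟩))
(.lf ⟨(nat_lit 0x65c), (nat_lit 2), (nat_lit 0x719), (nat_lit 2)⟩))
(.nd (.nd (.lf ⟨(nat_lit 667), (nat_lit 2), (nat_lit 0x276ca), (nat_lit 3)⟩)
(.lf ⟨(nat_lit 613), (nat_lit 2), (nat_lit 0x79859e6076169567981d859e609), (nat_lit 18)⟩))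
(.lf ⟨(nat_lit 0x729), (nat_lit 2), (nat_lit 0xa5c), (nat_lit 2)⟩)))
(.nd (.nd (.nd (.lf ⟨(nat_lit 84), (nat_lit 2), (nat_lit 0x501), (nat_lit 2)⟩)
(.lf ⟨(nat_lit 0x5c30576cb5db2c15db2d76cb5c30576cb5db2c15db2d76cb), (nat_lit 32), (nat_lit 0x5c30576cb5db2c15db2d76cb5c30576cb5db2c15db2d76cb), (nat_lit 32)⟩))
(.lf ⟨(nat_lit 0xe607), (nat_lit 3), (nat_lit 0x181d8398), (nat_lit 5)⟩))
(.nd (.nd (.lf ⟨(nat_lit 0x199199), (nat_lit 4), (nat_lit 0x646646), (nat_lit 4)⟩)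
(.lf ⟨(nat_lit 0x2160f2613c9), (nat_lit 7), (nat_lit 0x8443c98443c9), (nat_lit 8)⟩))
(.lf ⟨(nat_lit 0x416), (nat_lit 2), (nat_lit 0x68758781a1e041e), (nat_lit 10)⟩))))))
(.nd (.nd (.nd (.nd (.nd (.nd (.lf ⟨(nat_lit 196), (nat_lit 2), (nat_lit 0xb103), (nat_lit 3)⟩)
(.lf ⟨(nat_lit 928), (nat_lit 2), (nat_lit 0x1e068768e), (nat_lit 6)⟩))
(.nd (.lf ⟨(nat_lit 8), (nat_lit 1), (nat_lit 0x42042), (nat_lit 4)⟩)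
(.lf ⟨(nat_lit 0x662), (nat_lit 2), (nat_lit 0x822819), (nat_lit 4)⟩)))
(.nd (.nd (.lf ⟨(nat_lit 0x419), (nat_lit 2), (nat_lit 0x650), (nat_lit 2)⟩)
(.lf ⟨(nat_lit 0xf6d0), (nat_lit 3), (nat_lit 0x5876a05878076a069e6903db), (nat_lit 16)⟩))
(.lf ⟨(nat_lit 0x9711), (nat_lit 3), (nat_lit 0x247688dca5d71125c), (nat_lit 11)⟩)))
(.nd (.nd (.nd (.lf ⟨(nat_lit 0xbae), (nat_lit 2), (nat_lit 0), (nat_lit 0)⟩)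
(.lf ⟨(nat_lit 13), (nat_lit 1), (nat_lit 0x5878076a041e3ce), (nat_lit 10)⟩))
(.lf ⟨(nat_lit 583), (nat_lit 2), (nat_lit 457), (nat_lit 2)⟩))
(.nd (.nd (.lf ⟨(nat_lit 291), (nat_lit 2), (nat_lit 0x8c4), (nat_lit 2)⟩)
(.lf ⟨(nat_lit 0x3e789b), (nat_lit 4), (nat_lit 0x2c9db3e2), (nat_lit 5)⟩))
(.lf ⟨(nat_lit 0xa99b), (nat_lit 3), (nat_lit 0x9db2a6), (nat_lit 4)⟩))))
(.nd (.nd (.nd (.nd (.lf ⟨(nat_lit 81), (nat_lit 2), (nat_lit 0x1c441), (nat_lit 3)⟩)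
(.lf ⟨(nat_lit 0xd644b58b0d644b58b), (nat_lit 12), (nat_lit 0xd644b58b0d644b58b), (nat_lit 12)⟩))
(.nd (.lf ⟨(nat_lit 0x411411), (nat_lit 4), (nat_lit 0x450450), (nat_lit 4)⟩)
(.lf ⟨(nat_lit 0x62c9db), (nat_lit 4), (nat_lit 0xb276d8), (nat_lit 4)⟩)))
(.nd (.nd (.lf ⟨(nat_lit 0x22fb27), (nat_lit 4), (nat_lit 0x2c9c8), (nat_lit 3)⟩)
(.lf ⟨(nat_lit 0x526), (nat_lit 2), (nat_lit 0x994), (nat_lit 2)⟩))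
(.lf ⟨(nat_lit 741), (nat_lit 2), (nat_lit 0x4257d07cb), (nat_lit 6)⟩)))
(.nd (.nd (.nd (.lf ⟨(nat_lit 0x582582), (nat_lit 4), (nat_lit 0), (nat_lit 0)⟩)
(.lf ⟨(nat_lit 0x1da55a547695695), (nat_lit 10), (nat_lit 0), (nat_lit 0)⟩))
(.lf ⟨(nat_lit 345), (nat_lit 2), (nat_lit 0xe3591ce345), (nat_lit 7)⟩))
(.nd (.nd (.lf ⟨(nat_lit 990), (nat_lit 2), (nat_lit 0x78f), (nat_lit 2)⟩)
(.lf ⟨(nat_lit 0x828), (nat_lit 2), (nat_lit 0xa20), (nat_lit 2)⟩))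
(.lf ⟨(nat_lit 279), (nat_lit 2), (nat_lit 0x1f6e97589db74b5dba5d6276dd3cb3c4), (nat_lit 21)⟩)))))
(.nd (.nd (.nd (.nd (.nd (.lf ⟨(nat_lit 0x514), (nat_lit 2), (nat_lit 0), (nat_lit 0)⟩)
(.lf ⟨(nat_lit 0x415415), (nat_lit 4), (nat_lit 0x687695687690550), (nat_lit 10)⟩))
(.nd (.lf ⟨(nat_lit 22), (nat_lit 1), (nat_lit 0x8f08f), (nat_lit 4)⟩)
(.lf ⟨(nat_lit 0xdb48c6cc0db48c6cc), (nat_lit 12), (nat_lit 0xdb48c6cc0db48c6cc), (nat_lit 12)⟩)))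
(.nd (.nd (.lf ⟨(nat_lit 0x8a7), (nat_lit 2), (nat_lit 0x9e2), (nat_lit 2)⟩)
(.lf ⟨(nat_lit 0x10758), (nat_lit 3), (nat_lit 0x7676e4b276d8a64750a5d), (nat_lit 14)⟩))
(.lf ⟨(nat_lit 728), (nat_lit 2), (nat_lit 0x6e97589db74b), (nat_lit 8)⟩)))
(.nd (.nd (.nd (.lf ⟨(nat_lit 73), (nat_lit 2), (nat_lit 577), (nat_lit 2)⟩)
(.lf ⟨(nat_lit 0), (nat_lit 0), (nat_lit 0x401150045), (nat_lit 6)⟩))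
(.lf ⟨(nat_lit 846), (nat_lit 2), (nat_lit 0x738d), (nat_lit 3)⟩))
(.nd (.nd (.lf ⟨(nat_lit 528), (nat_lit 2), (nat_lit 0x20408), (nat_lit 3)⟩)
(.lf ⟨(nat_lit 976), (nat_lit 2), (nat_lit 0x161da81681a81a79a40f), (nat_lit 13)⟩))
(.lf ⟨(nat_lit 0xf690), (nat_lit 3), (nat_lit 0x58769058f), (nat_lit 6)⟩))))
(.nd (.nd (.nd (.nd (.lf ⟨(nat_lit 0x924), (nat_lit 2), (nat_lit 0), (nat_lit 0)⟩)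
(.lf ⟨(nat_lit 482), (nat_lit 2), (nat_lit 0x887), (nat_lit 2)⟩))
(.lf ⟨(nat_lit 104), (nat_lit 2), (nat_lit 0xa01), (nat_lit 2)⟩))
(.nd (.nd (.lf ⟨(nat_lit 86), (nat_lit 2), (nat_lit 0x581), (nat_lit 2)⟩)
(.lf ⟨(nat_lit 0x5a9), (nat_lit 2), (nat_lit 0xa56), (nat_lit 2)⟩))
(.lf ⟨(nat_lit 676), (nat_lit 2), (nat_lit 0x3e474f74a), (nat_lit 6)⟩)))
(.nd (.nd (.nd (.lf ⟨(nat_lit 283), (nat_lit 2), (nat_lit 0x6c4), (nat_lit 2)⟩)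
(.lf ⟨(nat_lit 0x6276dd), (nat_lit 4), (nat_lit 0xa5d6dd9db62975b), (nat_lit 10)⟩))
(.lf ⟨(nat_lit 0xe595), (nat_lit 3), (nat_lit 0x7595587396), (nat_lit 7)⟩))
(.nd (.nd (.lf ⟨(nat_lit 658), (nat_lit 2), (nat_lit 0x48f30f30a), (nat_lit 6)⟩)
(.lf ⟨(nat_lit 0x2112160f2613c9), (nat_lit 9), (nat_lit 0x2160f2613c9844), (nat_lit 9)⟩))
(.lf ⟨(nat_lit 0x724), (nat_lit 2), (nat_lit 0xa239288dc), (nat_lit 6)⟩))))))))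
(.nd (.nd (.nd (.nd (.nd (.nd (.nd (.nd (.lf ⟨(nat_lit 195), (nat_lit 2), (nat_lit 0), (nat_lit 0)⟩)
(.lf ⟨(nat_lit 0x8ac), (nat_lit 2), (nat_lit 0x9e6b279a2), (nat_lit 6)⟩))
(.nd (.lf ⟨(nat_lit 0x5607), (nat_lit 3), (nat_lit 0x181d8158), (nat_lit 5)⟩)
(.lf ⟨(nat_lit 0), (nat_lit 0), (nat_lit 0x98098), (nat_lit 4)⟩)))
(.nd (.nd (.lf ⟨(nat_lit 653), (nat_lit 2), (nat_lit 842), (nat_lit 2)⟩)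
(.lf ⟨(nat_lit 0x591d15d), (nat_lit 5), (nat_lit 0x1d164745), (nat_lit 5)⟩))
(.lf ⟨(nat_lit 0x1ca23), (nat_lit 3), (nat_lit 0x299288dca64), (nat_lit 7)⟩)))
(.nd (.nd (.nd (.lf ⟨(nat_lit 0x9e7), (nat_lit 2), (nat_lit 0), (nat_lit 0)⟩)
(.lf ⟨(nat_lit 0x24268309a0c909a0c2683), (nat_lit 14), (nat_lit 0x24268309a0c909a0c2683), (nat_lit 14)⟩))
(.lf ⟨(nat_lit 0x1de1de), (nat_lit 4), (nat_lit 0x787787), (nat_lit 4)⟩))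
(.nd (.nd (.lf ⟨(nat_lit 730), (nat_lit 2), (nat_lit 0x68b), (nat_lit 2)⟩)
(.lf ⟨(nat_lit 0x421), (nat_lit 2), (nat_lit 0x9e286789b65b650), (nat_lit 10)⟩))
(.lf ⟨(nat_lit 0x76d), (nat_lit 2), (nat_lit 0xb5d), (nat_lit 2)⟩))))
(.nd (.nd (.nd (.nd (.lf ⟨(nat_lit 207), (nat_lit 2), (nat_lit 0x173c3), (nat_lit 3)⟩)
(.lf ⟨(nat_lit 0x9cf9e73e7), (nat_lit 6), (nat_lit 0), (nat_lit 0)⟩))
(.nd (.lf ⟨(nat_lit 847), (nat_lit 2), (nat_lit 973), (nat_lit 2)⟩)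
(.lf ⟨(nat_lit 108), (nat_lit 2), (nat_lit 0x2c9de3e73e77ac9cf6cf6c1), (nat_lit 15)⟩)))
(.nd (.nd (.lf ⟨(nat_lit 0x9a64), (nat_lit 3), (nat_lit 0x29909), (nat_lit 3)⟩)
(.lf ⟨(nat_lit 0x119e26dd), (nat_lit 5), (nat_lit 0x276dd6d189b), (nat_lit 7)⟩))
(.lf ⟨(nat_lit 674), (nat_lit 2), (nat_lit 0x88a), (nat_lit 2)⟩)))
(.nd (.nd (.nd (.lf ⟨(nat_lit 325), (nat_lit 2), (nat_lit 0), (nat_lit 0)⟩)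
(.lf ⟨(nat_lit 0), (nat_lit 0), (nat_lit 0x147550550147550550), (nat_lit 12)⟩))
(.lf ⟨(nat_lit 66), (nat_lit 2), (nat_lit 0x1ce345081), (nat_lit 6)⟩))
(.nd (.nd (.lf ⟨(nat_lit 334), (nat_lit 2), (nat_lit 901), (nat_lit 2)⟩)
(.lf ⟨(nat_lit 0x16787), (nat_lit 3), (nat_lit 0x1e1d6), (nat_lit 3)⟩))
(.lf ⟨(nat_lit 920), (nat_lit 2), (nat_lit 0x69441869440e), (nat_lit 8)⟩)))))
(.nd (.nd (.nd (.nd (.nd (.lf ⟨(nat_lit 910), (nat_lit 2), (nat_lit 0), (nat_lit 0)⟩)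
(.lf ⟨(nat_lit 137), (nat_lit 2), (nat_lit 0x58781a1e041e3ce242), (nat_lit 12)⟩))
(.nd (.lf ⟨(nat_lit 0x69b), (nat_lit 2), (nat_lit 0x6da), (nat_lit 2)⟩)
(.lf ⟨(nat_lit 0), (nat_lit 0), (nat_lit 0x60a118284), (nat_lit 6)⟩)))
(.nd (.nd (.lf ⟨(nat_lit 0x61f), (nat_lit 2), (nat_lit 0x7d8), (nat_lit 2)⟩)
(.lf ⟨(nat_lit 0x995f), (nat_lit 3), (nat_lit 0x1d67981d859e95f60759e607616798265), (nat_lit 22)⟩))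
(.lf ⟨(nat_lit 0x1ca64), (nat_lit 3), (nat_lit 0x288e99288dc), (nat_lit 7)⟩)))
(.nd (.nd (.nd (.lf ⟨(nat_lit 197), (nat_lit 2), (nat_lit 323), (nat_lit 2)⟩)
(.lf ⟨(nat_lit 967), (nat_lit 2), (nat_lit 0x5878076a06967961de8076a06961e01da8107a01da81078f), (nat_lit 32)⟩))
(.lf ⟨(nat_lit 6), (nat_lit 1), (nat_lit 21), (nat_lit 1)⟩))
(.nd (.nd (.lf ⟨(nat_lit 206), (nat_lit 2), (nat_lit 899), (nat_lit 2)⟩)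
(.lf ⟨(nat_lit 106), (nat_lit 2), (nat_lit 0x257d86e991d62c9dba646dd6e97676297581d67981d859e95f60759e6076167a5601), (nat_lit 45)⟩))
(.lf ⟨(nat_lit 0x663), (nat_lit 2), (nat_lit 0x863721719), (nat_lit 6)⟩))))
(.nd (.nd (.nd (.nd (.lf ⟨(nat_lit 0x7df), (nat_lit 2), (nat_lit 0), (nat_lit 0)⟩)
(.lf ⟨(nat_lit 0x6c36c3), (nat_lit 4), (nat_lit 0), (nat_lit 0)⟩))
(.lf ⟨(nat_lit 0x51a), (nat_lit 2), (nat_lit 0x694), (nat_lit 2)⟩))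
(.nd (.nd (.lf ⟨(nat_lit 346), (nat_lit 2), (nat_lit 0x685), (nat_lit 2)⟩)
(.lf ⟨(nat_lit 997), (nat_lit 2), (nat_lit 0x7985e57de6176177d85cf), (nat_lit 14)⟩))
(.lf ⟨(nat_lit 0x4189db), (nat_lit 4), (nat_lit 0x6276d8418), (nat_lit 6)⟩)))
(.nd (.nd (.nd (.lf ⟨(nat_lit 82), (nat_lit 2), (nat_lit 0x481), (nat_lit 2)⟩)
(.lf ⟨(nat_lit 0x576cb5db2c15db2d76cb), (nat_lit 14), (nat_lit 0x576cb5db2c15db2d76cb), (nat_lit 14)⟩))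
(.lf ⟨(nat_lit 164), (nat_lit 2), (nat_lit 0x1dd38d1641dd38d142), (nat_lit 12)⟩))
(.nd (.nd (.lf ⟨(nat_lit 340), (nat_lit 2), (nat_lit 0x505), (nat_lit 2)⟩)
(.lf ⟨(nat_lit 137), (nat_lit 2), (nat_lit 0x59e6903ce242), (nat_lit 8)⟩))
(.lf ⟨(nat_lit 967), (nat_lit 2), (nat_lit 0x1da4167876a01da80769058f), (nat_lit 16)⟩))))))
(.nd (.nd (.nd (.nd (.nd (.nd (.lf ⟨(nat_lit 132), (nat_lit 2), (nat_lit 0xa102), (nat_lit 3)⟩)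
(.lf ⟨(nat_lit 0x61e), (nat_lit 2), (nat_lit 0x798), (nat_lit 2)⟩))
(.nd (.lf ⟨(nat_lit 0), (nat_lit 0), (nat_lit 585), (nat_lit 2)⟩)
(.lf ⟨(nat_lit 0x1045b), (nat_lit 3), (nat_lit 0x116d1411), (nat_lit 5)⟩)))
(.nd (.nd (.lf ⟨(nat_lit 983), (nat_lit 2), (nat_lit 0x5cf), (nat_lit 2)⟩)
(.lf ⟨(nat_lit 0xa690), (nat_lit 3), (nat_lit 0x3e47503dd3cb3cb29a), (nat_lit 12)⟩))
(.lf ⟨(nat_lit 0x422), (nat_lit 2), (nat_lit 0x6626d96d0), (nat_lit 6)⟩)))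
(.nd (.nd (.nd (.lf ⟨(nat_lit 103), (nat_lit 2), (nat_lit 0x2c9c1), (nat_lit 3)⟩)
(.lf ⟨(nat_lit 0x416), (nat_lit 2), (nat_lit 0x1da5878076a041e), (nat_lit 10)⟩))
(.lf ⟨(nat_lit 903), (nat_lit 2), (nat_lit 462), (nat_lit 2)⟩))
(.nd (.nd (.lf ⟨(nat_lit 222), (nat_lit 2), (nat_lit 0x783), (nat_lit 2)⟩)
(.lf ⟨(nat_lit 930), (nat_lit 2), (nat_lit 0x6d589b54e), (nat_lit 6)⟩))
(.lf ⟨(nat_lit 928), (nat_lit 2), (nat_lit 0x1e040740e), (nat_lit 6)⟩))))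
(.nd (.nd (.nd (.nd (.lf ⟨(nat_lit 272), (nat_lit 2), (nat_lit 0x1b404), (nat_lit 3)⟩)
(.lf ⟨(nat_lit 0x1644b58b), (nat_lit 5), (nat_lit 0x5822d608b), (nat_lit 6)⟩))
(.nd (.lf ⟨(nat_lit 550), (nat_lit 2), (nat_lit 0x988), (nat_lit 2)⟩)
(.lf ⟨(nat_lit 0x846c109b04211b0426c108211b0426c10846c109b042), (nat_lit 30), (nat_lit 0x846c109b04211b0426c108211b0426c10846c109b042), (nat_lit 30)⟩)))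
(.nd (.nd (.lf ⟨(nat_lit 350), (nat_lit 2), (nat_lit 0x785), (nat_lit 2)⟩)
(.lf ⟨(nat_lit 919), (nat_lit 2), (nat_lit 0x5ce), (nat_lit 2)⟩))
(.lf ⟨(nat_lit 738), (nat_lit 2), (nat_lit 0x4626d16cb), (nat_lit 6)⟩)))
(.nd (.nd (.nd (.lf ⟨(nat_lit 0x5c35c3), (nat_lit 4), (nat_lit 0), (nat_lit 0)⟩)
(.lf ⟨(nat_lit 0x7695695), (nat_lit 5), (nat_lit 0x68955a255), (nat_lit 6)⟩))
(.lf ⟨(nat_lit 213), (nat_lit 2), (nat_lit 0x543), (nat_lit 2)⟩))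
(.nd (.nd (.lf ⟨(nat_lit 602), (nat_lit 2), (nat_lit 0x689), (nat_lit 2)⟩)
(.lf ⟨(nat_lit 967), (nat_lit 2), (nat_lit 0x7967961cf), (nat_lit 6)⟩))
(.lf ⟨(nat_lit 161), (nat_lit 2), (nat_lit 0x859299282), (nat_lit 6)⟩)))))
(.nd (.nd (.nd (.nd (.nd (.lf ⟨(nat_lit 0x492), (nat_lit 2), (nat_lit 0), (nat_lit 0)⟩)
(.lf ⟨(nat_lit 0x545545), (nat_lit 4), (nat_lit 0), (nat_lit 0)⟩))
(.nd (.lf ⟨(nat_lit 11), (nat_lit 1), (nat_lit 0xc40c4), (nat_lit 4)⟩)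
(.lf ⟨(nat_lit 0x1b48c6cc), (nat_lit 5), (nat_lit 0x6c131b04c), (nat_lit 6)⟩)))
(.nd (.nd (.lf ⟨(nat_lit 161), (nat_lit 2), (nat_lit 0x84a64a642), (nat_lit 6)⟩)
(.lf ⟨(nat_lit 0x768), (nat_lit 2), (nat_lit 0xa1d), (nat_lit 2)⟩))
(.lf ⟨(nat_lit 0x26b279a7), (nat_lit 5), (nat_lit 0x279ac9e6), (nat_lit 5)⟩)))
(.nd (.nd (.nd (.lf ⟨(nat_lit 590), (nat_lit 2), (nat_lit 905), (nat_lit 2)⟩)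
(.lf ⟨(nat_lit 0x1db1db6876c76da), (nat_lit 10), (nat_lit 0), (nat_lit 0)⟩))
(.lf ⟨(nat_lit 148), (nat_lit 2), (nat_lit 0x502), (nat_lit 2)⟩))
(.nd (.nd (.lf ⟨(nat_lit 591), (nat_lit 2), (nat_lit 969), (nat_lit 2)⟩)
(.lf ⟨(nat_lit 13), (nat_lit 1), (nat_lit 0x5a06a069e6903ce), (nat_lit 10)⟩))
(.lf ⟨(nat_lit 918), (nat_lit 2), (nat_lit 0x1d678e), (nat_lit 4)⟩))))
(.nd (.nd (.nd (.nd (.lf ⟨(nat_lit 0x8e3), (nat_lit 2), (nat_lit 0), (nat_lit 0)⟩)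
(.lf ⟨(nat_lit 0x6c32a26c76ca89b1db6c32a26c76ca89b1db), (nat_lit 24), (nat_lit 0x6c32a26c76ca89b1db6c32a26c76ca89b1db), (nat_lit 24)⟩))
(.lf ⟨(nat_lit 479), (nat_lit 2), (nat_lit 0x7c7), (nat_lit 2)⟩))
(.nd (.nd (.lf ⟨(nat_lit 797), (nat_lit 2), (nat_lit 0x74c), (nat_lit 2)⟩)
(.lf ⟨(nat_lit 288), (nat_lit 2), (nat_lit 0x20649860649844), (nat_lit 9)⟩))
(.lf ⟨(nat_lit 668), (nat_lit 2), (nat_lit 0x3dc44f44a), (nat_lit 6)⟩)))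
(.nd (.nd (.nd (.lf ⟨(nat_lit 218), (nat_lit 2), (nat_lit 0x683), (nat_lit 2)⟩)
(.lf ⟨(nat_lit 0x41e), (nat_lit 2), (nat_lit 0x6961de587690), (nat_lit 8)⟩))
(.lf ⟨(nat_lit 660), (nat_lit 2), (nat_lit 0x50a), (nat_lit 2)⟩))
(.nd (.nd (.lf ⟨(nat_lit 0xb3dd), (nat_lit 3), (nat_lit 0xf74f2cf), (nat_lit 5)⟩)
(.lf ⟨(nat_lit 0x3c98588583c9858858), (nat_lit 12), (nat_lit 0x3c98588583c9858858), (nat_lit 12)⟩))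
(.lf ⟨(nat_lit 0x55e), (nat_lit 2), (nat_lit 0x795), (nat_lit 2)⟩)))))))
(.nd (.nd (.nd (.nd (.nd (.nd (.nd (.lf ⟨(nat_lit 67), (nat_lit 2), (nat_lit 0x50c1), (nat_lit 3)⟩)
(.lf ⟨(nat_lit 745), (nat_lit 2), (nat_lit 0x75ba5d6cb), (nat_lit 6)⟩))
(.nd (.lf ⟨(nat_lit 0), (nat_lit 0), (nat_lit 195), (nat_lit 2)⟩)
(.lf ⟨(nat_lit 0x1b8196d9), (nat_lit 5), (nat_lit 0x6c165b059), (nat_lit 6)⟩)))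
(.nd (.nd (.lf ⟨(nat_lit 721), (nat_lit 2), (nat_lit 0x44b), (nat_lit 2)⟩)
(.lf ⟨(nat_lit 0x1095f41f), (nat_lit 5), (nat_lit 0x1f4257d0), (nat_lit 5)⟩))
(.lf ⟨(nat_lit 106), (nat_lit 2), (nat_lit 0x26a949941), (nat_lit 6)⟩)))
(.nd (.nd (.nd (.lf ⟨(nat_lit 0xa69), (nat_lit 2), (nat_lit 0), (nat_lit 0)⟩)
(.lf ⟨(nat_lit 0x1a0c7), (nat_lit 3), (nat_lit 0x7683), (nat_lit 3)⟩))
(.lf ⟨(nat_lit 23), (nat_lit 1), (nat_lit 0xcf0cf), (nat_lit 4)⟩))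
(.nd (.nd (.lf ⟨(nat_lit 100), (nat_lit 2), (nat_lit 0x901), (nat_lit 2)⟩)
(.lf ⟨(nat_lit 671), (nat_lit 2), (nat_lit 0x60c7d830a), (nat_lit 6)⟩))
(.lf ⟨(nat_lit 604), (nat_lit 2), (nat_lit 0x2371da23749), (nat_lit 7)⟩))))
(.nd (.nd (.nd (.nd (.lf ⟨(nat_lit 144), (nat_lit 2), (nat_lit 0x19402), (nat_lit 3)⟩)
(.lf ⟨(nat_lit 0x10787), (nat_lit 3), (nat_lit 0x1a1d678781a1e06877a068781a58781a1e041e), (nat_lit 25)⟩))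
(.nd (.lf ⟨(nat_lit 278), (nat_lit 2), (nat_lit 0x584), (nat_lit 2)⟩)
(.lf ⟨(nat_lit 9), (nat_lit 1), (nat_lit 0x11b0446c1), (nat_lit 6)⟩)))
(.nd (.nd (.lf ⟨(nat_lit 978), (nat_lit 2), (nat_lit 0x48f), (nat_lit 2)⟩)
(.lf ⟨(nat_lit 675), (nat_lit 2), (nat_lit 0x60f8dc75160f7513dc44f44a), (nat_lit 16)⟩))
(.lf ⟨(nat_lit 740), (nat_lit 2), (nat_lit 0x42475074b), (nat_lit 6)⟩)))
(.nd (.nd (.nd (.lf ⟨(nat_lit 0x596), (nat_lit 2), (nat_lit 0), (nat_lit 0)⟩)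
(.lf ⟨(nat_lit 0x689689), (nat_lit 4), (nat_lit 0), (nat_lit 0)⟩))
(.lf ⟨(nat_lit 354), (nat_lit 2), (nat_lit 0x38d9a26c738d6c5), (nat_lit 10)⟩))
(.nd (.nd (.lf ⟨(nat_lit 0x40b40b), (nat_lit 4), (nat_lit 0), (nat_lit 0)⟩)
(.lf ⟨(nat_lit 925), (nat_lit 2), (nat_lit 0x1b69061a5107d86df7676d8b9a6276d851061a40e), (nat_lit 27)⟩))
(.lf ⟨(nat_lit 0x529), (nat_lit 2), (nat_lit 0xa54), (nat_lit 2)⟩)))))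
(.nd (.nd (.nd (.nd (.nd (.lf ⟨(nat_lit 0x410), (nat_lit 2), (nat_lit 0), (nat_lit 0)⟩)
(.lf ⟨(nat_lit 0x464), (nat_lit 2), (nat_lit 0x7688e4a2371d711), (nat_lit 10)⟩))
(.nd (.lf ⟨(nat_lit 0), (nat_lit 0), (nat_lit 325), (nat_lit 2)⟩)
(.lf ⟨(nat_lit 0x7d83187d8318), (nat_lit 8), (nat_lit 0), (nat_lit 0)⟩)))
(.nd (.nd (.lf ⟨(nat_lit 0x723), (nat_lit 2), (nat_lit 0x8dc), (nat_lit 2)⟩)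
(.lf ⟨(nat_lit 0x668), (nat_lit 2), (nat_lit 0x828819), (nat_lit 4)⟩))
(.lf ⟨(nat_lit 0x468), (nat_lit 2), (nat_lit 0x7637297297688d1), (nat_lit 10)⟩)))
(.nd (.nd (.nd (.lf ⟨(nat_lit 260), (nat_lit 2), (nat_lit 0), (nat_lit 0)⟩)
(.lf ⟨(nat_lit 0), (nat_lit 0), (nat_lit 0x1c31470c5), (nat_lit 6)⟩))
(.lf ⟨(nat_lit 839), (nat_lit 2), (nat_lit 461), (nat_lit 2)⟩))
(.nd (.nd (.lf ⟨(nat_lit 209), (nat_lit 2), (nat_lit 0x1d12c72c3), (nat_lit 6)⟩)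
(.lf ⟨(nat_lit 593), (nat_lit 2), (nat_lit 0xa6891d8dc75c449), (nat_lit 10)⟩))
(.lf ⟨(nat_lit 0x51d), (nat_lit 2), (nat_lit 0x754), (nat_lit 2)⟩))))
(.nd (.nd (.nd (.nd (.lf ⟨(nat_lit 0x861), (nat_lit 2), (nat_lit 0), (nat_lit 0)⟩)
(.lf ⟨(nat_lit 0x8a6c329b0c229b0ca6c3), (nat_lit 14), (nat_lit 0x8a6c329b0c229b0ca6c3), (nat_lit 14)⟩))
(.lf ⟨(nat_lit 276), (nat_lit 2), (nat_lit 0x504), (nat_lit 2)⟩))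
(.nd (.nd (.lf ⟨(nat_lit 733), (nat_lit 2), (nat_lit 0x74b), (nat_lit 2)⟩)
(.lf ⟨(nat_lit 0x186dd), (nat_lit 3), (nat_lit 0x276dd6e97589e975b), (nat_lit 11)⟩))
(.lf ⟨(nat_lit 0x45ba5d), (nat_lit 4), (nat_lit 0x6e975b45b), (nat_lit 6)⟩)))
(.nd (.nd (.nd (.lf ⟨(nat_lit 149), (nat_lit 2), (nat_lit 0x542), (nat_lit 2)⟩)
(.lf ⟨(nat_lit 0x6cb5da41741b2d76905d0), (nat_lit 14), (nat_lit 0x6cb5da41741b2d76905d0), (nat_lit 14)⟩))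
(.lf ⟨(nat_lit 597), (nat_lit 2), (nat_lit 0x7549), (nat_lit 3)⟩))
(.nd (.nd (.lf ⟨(nat_lit 0xa398), (nat_lit 3), (nat_lit 0xe60e28e), (nat_lit 5)⟩)
(.lf ⟨(nat_lit 24), (nat_lit 1), (nat_lit 0x3c910f244), (nat_lit 6)⟩))
(.lf ⟨(nat_lit 0x391391), (nat_lit 4), (nat_lit 0x55155155154e44e), (nat_lit 10)⟩))))))
(.nd (.nd (.nd (.nd (.nd (.nd (.lf ⟨(nat_lit 202), (nat_lit 2), (nat_lit 0xc283), (nat_lit 3)⟩)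
(.lf ⟨(nat_lit 13), (nat_lit 1), (nat_lit 0x58781a1e041e3ce), (nat_lit 10)⟩))
(.nd (.lf ⟨(nat_lit 17), (nat_lit 1), (nat_lit 0x8b08b), (nat_lit 4)⟩)
(.lf ⟨(nat_lit 0x422), (nat_lit 2), (nat_lit 0x6e08a065b650), (nat_lit 8)⟩)))
(.nd (.nd (.lf ⟨(nat_lit 0x41b), (nat_lit 2), (nat_lit 0x6d0), (nat_lit 2)⟩)
(.lf ⟨(nat_lit 0x18a5d6df), (nat_lit 5), (nat_lit 0x276dd7dd9db62975b), (nat_lit 11)⟩))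
(.lf ⟨(nat_lit 0x625), (nat_lit 2), (nat_lit 0x958), (nat_lit 2)⟩)))
(.nd (.nd (.nd (.lf ⟨(nat_lit 65), (nat_lit 2), (nat_lit 0), (nat_lit 0)⟩)
(.lf ⟨(nat_lit 976), (nat_lit 2), (nat_lit 0x161da8161e01da81078f), (nat_lit 13)⟩))
(.lf ⟨(nat_lit 852), (nat_lit 2), (nat_lit 0x50d), (nat_lit 2)⟩))
(.nd (.nd (.lf ⟨(nat_lit 167), (nat_lit 2), (nat_lit 0x9c2), (nat_lit 2)⟩)
(.lf ⟨(nat_lit 0xf6e9758), (nat_lit 5), (nat_lit 0x1d9db62975b3dd9db), (nat_lit 11)⟩))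
(.lf ⟨(nat_lit 0x461), (nat_lit 2), (nat_lit 0x76165d651), (nat_lit 6)⟩))))
(.nd (.nd (.nd (.nd (.lf ⟨(nat_lit 273), (nat_lit 2), (nat_lit 0x1d444), (nat_lit 3)⟩)
(.lf ⟨(nat_lit 0x29644b58b), (nat_lit 6), (nat_lit 0x5912d62ca), (nat_lit 6)⟩))
(.nd (.lf ⟨(nat_lit 0x720), (nat_lit 2), (nat_lit 0x81c), (nat_lit 2)⟩)
(.lf ⟨(nat_lit 106), (nat_lit 2), (nat_lit 0x257d86e991db276d8a646dd6e97676297581d67981d859e95f60759e6076167a5601), (nat_lit 45)⟩)))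
(.nd (.nd (.lf ⟨(nat_lit 338), (nat_lit 2), (nat_lit 0x485), (nat_lit 2)⟩)
(.lf ⟨(nat_lit 0x51c), (nat_lit 2), (nat_lit 0x714), (nat_lit 2)⟩))
(.lf ⟨(nat_lit 616), (nat_lit 2), (nat_lit 0xa09), (nat_lit 2)⟩)))
(.nd (.nd (.nd (.lf ⟨(nat_lit 204), (nat_lit 2), (nat_lit 771), (nat_lit 2)⟩)
(.lf ⟨(nat_lit 0x6cb6cb), (nat_lit 4), (nat_lit 0), (nat_lit 0)⟩))
(.lf ⟨(nat_lit 848), (nat_lit 2), (nat_lit 0x73a040738d), (nat_lit 7)⟩))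
(.nd (.nd (.lf ⟨(nat_lit 736), (nat_lit 2), (nat_lit 0x80b), (nat_lit 2)⟩)
(.lf ⟨(nat_lit 0x416), (nat_lit 2), (nat_lit 0x1da59e690), (nat_lit 6)⟩))
(.lf ⟨(nat_lit 238), (nat_lit 2), (nat_lit 0x68bba969d6e975b6aea5a2eea43), (nat_lit 18)⟩)))))
(.nd (.nd (.nd (.nd (.nd (.lf ⟨(nat_lit 0x555), (nat_lit 2), (nat_lit 0), (nat_lit 0)⟩)
(.lf ⟨(nat_lit 0x58759e), (nat_lit 4), (nat_lit 0x1d6796), (nat_lit 4)⟩))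
(.nd (.lf ⟨(nat_lit 598), (nat_lit 2), (nat_lit 0x589), (nat_lit 2)⟩)
(.lf ⟨(nat_lit 0x283b273c3b273ca0ec9cf0ec9cf), (nat_lit 18), (nat_lit 0x283b273c3b273ca0ec9cf0ec9cf), (nat_lit 18)⟩)))
(.nd (.nd (.lf ⟨(nat_lit 0x8e8), (nat_lit 2), (nat_lit 0xa23), (nat_lit 2)⟩)
(.lf ⟨(nat_lit 0xb792), (nat_lit 3), (nat_lit 0x1048c40c2de), (nat_lit 7)⟩))
(.lf ⟨(nat_lit 0x707), (nat_lit 2), (nat_lit 476), (nat_lit 2)⟩)))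
(.nd (.nd (.nd (.lf ⟨(nat_lit 138), (nat_lit 2), (nat_lit 642), (nat_lit 2)⟩)
(.lf ⟨(nat_lit 21), (nat_lit 1), (nat_lit 0x142142), (nat_lit 4)⟩))
(.lf ⟨(nat_lit 333), (nat_lit 2), (nat_lit 0x7345), (nat_lit 3)⟩))
(.nd (.nd (.lf ⟨(nat_lit 592), (nat_lit 2), (nat_lit 0x409), (nat_lit 2)⟩)
(.lf ⟨(nat_lit 0x5a06a0), (nat_lit 4), (nat_lit 0x6a06a059a), (nat_lit 6)⟩))
(.lf ⟨(nat_lit 981), (nat_lit 2), (nat_lit 0x59a41569058f), (nat_lit 8)⟩))))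
(.nd (.nd (.nd (.nd (.lf ⟨(nat_lit 0x965), (nat_lit 2), (nat_lit 0), (nat_lit 0)⟩)
(.lf ⟨(nat_lit 0), (nat_lit 0), (nat_lit 0x10a10a), (nat_lit 4)⟩))
(.lf ⟨(nat_lit 785), (nat_lit 2), (nat_lit 0x44c), (nat_lit 2)⟩))
(.nd (.nd (.lf ⟨(nat_lit 90), (nat_lit 2), (nat_lit 0x681), (nat_lit 2)⟩)
(.lf ⟨(nat_lit 0x5626c7), (nat_lit 4), (nat_lit 0x6c76d589b), (nat_lit 6)⟩))
(.lf ⟨(nat_lit 226), (nat_lit 2), (nat_lit 0x1e26c76c3), (nat_lit 6)⟩)))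
(.nd (.nd (.nd (.lf ⟨(nat_lit 327), (nat_lit 2), (nat_lit 453), (nat_lit 2)⟩)
(.lf ⟨(nat_lit 478), (nat_lit 2), (nat_lit 0x787), (nat_lit 2)⟩))
(.lf ⟨(nat_lit 358), (nat_lit 2), (nat_lit 0xe3661ce345), (nat_lit 7)⟩))
(.nd (.nd (.lf ⟨(nat_lit 287), (nat_lit 2), (nat_lit 0x7d82d82c4), (nat_lit 6)⟩)
(.lf ⟨(nat_lit 0x849849), (nat_lit 4), (nat_lit 0x844261109), (nat_lit 6)⟩))
(.lf ⟨(nat_lit 991), (nat_lit 2), (nat_lit 0x6177d85cf), (nat_lit 6)⟩)))))))))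
(.nd (.nd (.nd (.nd (.nd (.nd (.nd (.nd (.nd (.lf ⟨(nat_lit 130), (nat_lit 2), (nat_lit 0), (nat_lit 0)⟩)
(.lf ⟨(nat_lit 0x71da23), (nat_lit 4), (nat_lit 0x8dda237637688e4a237688e4a2371d), (nat_lit 20)⟩))
(.nd (.lf ⟨(nat_lit 0x607607), (nat_lit 4), (nat_lit 0x1d81d8), (nat_lit 4)⟩)
(.lf ⟨(nat_lit 24), (nat_lit 1), (nat_lit 0x24a24a), (nat_lit 4)⟩)))
(.nd (.nd (.lf ⟨(nat_lit 0xb60f2cf), (nat_lit 5), (nat_lit 0xf2d83cb), (nat_lit 5)⟩)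
(.lf ⟨(nat_lit 0x1589b55b), (nat_lit 5), (nat_lit 0x1b5626d5), (nat_lit 5)⟩))
(.lf ⟨(nat_lit 263), (nat_lit 2), (nat_lit 0x6163db69060738d9db2a7284), (nat_lit 16)⟩)))
(.nd (.nd (.nd (.lf ⟨(nat_lit 98), (nat_lit 2), (nat_lit 0x26881), (nat_lit 3)⟩)
(.lf ⟨(nat_lit 0x9a0c2683), (nat_lit 6), (nat_lit 0x9a0c2683), (nat_lit 6)⟩))
(.lf ⟨(nat_lit 0), (nat_lit 0), (nat_lit 0x244244), (nat_lit 4)⟩))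
(.nd (.nd (.lf ⟨(nat_lit 662), (nat_lit 2), (nat_lit 0x58a), (nat_lit 2)⟩)
(.lf ⟨(nat_lit 209), (nat_lit 2), (nat_lit 0x71141155439c51141154e443), (nat_lit 16)⟩))
(.lf ⟨(nat_lit 0xc9db), (nat_lit 3), (nat_lit 0x7d876ea5b7d86e97589db75874c), (nat_lit 18)⟩))))
(.nd (.nd (.nd (.nd (.lf ⟨(nat_lit 0x5d7), (nat_lit 2), (nat_lit 0), (nat_lit 0)⟩)
(.lf ⟨(nat_lit 0x3d13d1), (nat_lit 4), (nat_lit 0x44f44f), (nat_lit 4)⟩))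
(.nd (.lf ⟨(nat_lit 0x4d6), (nat_lit 2), (nat_lit 0x593), (nat_lit 2)⟩)
(.lf ⟨(nat_lit 0x1b06c9cf), (nat_lit 5), (nat_lit 0x2c9cf6c1), (nat_lit 5)⟩)))
(.nd (.nd (.lf ⟨(nat_lit 0xa6e), (nat_lit 2), (nat_lit 0xba9), (nat_lit 2)⟩)
(.lf ⟨(nat_lit 0x10a6475b), (nat_lit 5), (nat_lit 0x1b75ba5d6d091d), (nat_lit 9)⟩))
(.lf ⟨(nat_lit 0xf9db), (nat_lit 3), (nat_lit 0xb276cf), (nat_lit 4)⟩)))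
(.nd (.nd (.nd (.lf ⟨(nat_lit 715), (nat_lit 2), (nat_lit 0), (nat_lit 0)⟩)
(.lf ⟨(nat_lit 0x401150042401085401090042401150042401085401090042), (nat_lit 32), (nat_lit 0x401150042401085401090042401150042401085401090042), (nat_lit 32)⟩))
(.lf ⟨(nat_lit 19), (nat_lit 1), (nat_lit 20), (nat_lit 1)⟩))
(.nd (.nd (.lf ⟨(nat_lit 669), (nat_lit 2), (nat_lit 0x74a), (nat_lit 2)⟩)
(.lf ⟨(nat_lit 0x41e), (nat_lit 2), (nat_lit 0x790), (nat_lit 2)⟩))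
(.lf ⟨(nat_lit 0xe7d8), (nat_lit 3), (nat_lit 0x1d67981d859e95f60759e60761678e), (nat_lit 20)⟩)))))
(.nd (.nd (.nd (.nd (.nd (.lf ⟨(nat_lit 137), (nat_lit 2), (nat_lit 0xd242), (nat_lit 3)⟩)
(.lf ⟨(nat_lit 976), (nat_lit 2), (nat_lit 0x161da8161e068781078f), (nat_lit 13)⟩))
(.nd (.lf ⟨(nat_lit 0), (nat_lit 0), (nat_lit 130), (nat_lit 2)⟩)
(.lf ⟨(nat_lit 0x7d8318), (nat_lit 4), (nat_lit 0xd828360a), (nat_lit 6)⟩)))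
(.nd (.nd (.lf ⟨(nat_lit 0x5de), (nat_lit 2), (nat_lit 0x797), (nat_lit 2)⟩)
(.lf ⟨(nat_lit 0x9859), (nat_lit 3), (nat_lit 0x819261), (nat_lit 4)⟩))
(.lf ⟨(nat_lit 0x1989b65b), (nat_lit 5), (nat_lit 0x1b6626d9), (nat_lit 5)⟩)))
(.nd (.nd (.nd (.lf ⟨(nat_lit 7), (nat_lit 1), (nat_lit 0x83083), (nat_lit 4)⟩)
(.lf ⟨(nat_lit 0x10787), (nat_lit 3), (nat_lit 0x76967877a01da81a5878076a041e), (nat_lit 19)⟩))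
(.lf ⟨(nat_lit 333), (nat_lit 2), (nat_lit 0x7345), (nat_lit 3)⟩))
(.nd (.nd (.lf ⟨(nat_lit 296), (nat_lit 2), (nat_lit 0xa04), (nat_lit 2)⟩)
(.lf ⟨(nat_lit 0x1a807), (nat_lit 3), (nat_lit 0x201da), (nat_lit 3)⟩))
(.lf ⟨(nat_lit 0x527), (nat_lit 2), (nat_lit 0x9d4), (nat_lit 2)⟩))))
(.nd (.nd (.nd (.nd (.lf ⟨(nat_lit 87), (nat_lit 2), (nat_lit 0x1e5c1), (nat_lit 3)⟩)
(.lf ⟨(nat_lit 0xb58c), (nat_lit 3), (nat_lit 0x1158c5912d6), (nat_lit 7)⟩))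
(.lf ⟨(nat_lit 0x51b), (nat_lit 2), (nat_lit 0x6d4), (nat_lit 2)⟩))
(.nd (.nd (.lf ⟨(nat_lit 343), (nat_lit 2), (nat_lit 0x5c5), (nat_lit 2)⟩)
(.lf ⟨(nat_lit 0x8e4), (nat_lit 2), (nat_lit 0x923), (nat_lit 2)⟩))
(.lf ⟨(nat_lit 0x667), (nat_lit 2), (nat_lit 0x9d9), (nat_lit 2)⟩)))
(.nd (.nd (.nd (.lf ⟨(nat_lit 145), (nat_lit 2), (nat_lit 0x442), (nat_lit 2)⟩)
(.lf ⟨(nat_lit 16), (nat_lit 1), (nat_lit 0x5b2c16cb), (nat_lit 6)⟩))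
(.lf ⟨(nat_lit 0xd6ce35b), (nat_lit 5), (nat_lit 0x76c735b38d), (nat_lit 7)⟩))
(.nd (.nd (.lf ⟨(nat_lit 238), (nat_lit 2), (nat_lit 0x68bba968ba5a2eea5a2eea43), (nat_lit 16)⟩)
(.lf ⟨(nat_lit 976), (nat_lit 2), (nat_lit 0x1680769679a40f), (nat_lit 9)⟩))
(.lf ⟨(nat_lit 0x71d71d), (nat_lit 4), (nat_lit 0x7637688dd8dc7688dc), (nat_lit 12)⟩))))))
(.nd (.nd (.nd (.nd (.nd (.nd (.lf ⟨(nat_lit 650), (nat_lit 2), (nat_lit 0), (nat_lit 0)⟩)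
(.lf ⟨(nat_lit 681), (nat_lit 2), (nat_lit 0x758a5d60a), (nat_lit 6)⟩))
(.nd (.lf ⟨(nat_lit 347), (nat_lit 2), (nat_lit 0x6c5), (nat_lit 2)⟩)
(.lf ⟨(nat_lit 0x2db8196d9), (nat_lit 6), (nat_lit 0x6e065b64b), (nat_lit 6)⟩)))
(.nd (.nd (.lf ⟨(nat_lit 982), (nat_lit 2), (nat_lit 0x58f), (nat_lit 2)⟩)
(.lf ⟨(nat_lit 0xe5cf), (nat_lit 3), (nat_lit 0x78f397), (nat_lit 4)⟩))
(.lf ⟨(nat_lit 0x360650), (nat_lit 4), (nat_lit 0x10359), (nat_lit 3)⟩)))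
(.nd (.nd (.nd (.lf ⟨(nat_lit 0xb2c), (nat_lit 2), (nat_lit 0), (nat_lit 0)⟩)
(.lf ⟨(nat_lit 986), (nat_lit 2), (nat_lit 0x5a01da58f), (nat_lit 6)⟩))
(.lf ⟨(nat_lit 839), (nat_lit 2), (nat_lit 461), (nat_lit 2)⟩))
(.nd (.nd (.lf ⟨(nat_lit 223), (nat_lit 2), (nat_lit 0x7c3), (nat_lit 2)⟩)
(.lf ⟨(nat_lit 741), (nat_lit 2), (nat_lit 0x7d095f40b), (nat_lit 6)⟩))
(.lf ⟨(nat_lit 921), (nat_lit 2), (nat_lit 0x55941540e), (nat_lit 6)⟩))))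
(.nd (.nd (.nd (.nd (.lf ⟨(nat_lit 0x6db), (nat_lit 2), (nat_lit 0), (nat_lit 0)⟩)
(.lf ⟨(nat_lit 10), (nat_lit 1), (nat_lit 0x582116084), (nat_lit 6)⟩))
(.nd (.lf ⟨(nat_lit 0x6e6), (nat_lit 2), (nat_lit 0x99b), (nat_lit 2)⟩)
(.lf ⟨(nat_lit 0x6c111b0426c10846c109b0426c111b0426c10846c109b042), (nat_lit 32), (nat_lit 0x6c111b0426c10846c109b0426c111b0426c10846c109b042), (nat_lit 32)⟩)))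
(.nd (.nd (.lf ⟨(nat_lit 544), (nat_lit 2), (nat_lit 0x808), (nat_lit 2)⟩)
(.lf ⟨(nat_lit 480), (nat_lit 2), (nat_lit 0x807), (nat_lit 2)⟩))
(.lf ⟨(nat_lit 804), (nat_lit 2), (nat_lit 0x4a475274c), (nat_lit 6)⟩)))
(.nd (.nd (.nd (.lf ⟨(nat_lit 0x2cf2cf), (nat_lit 4), (nat_lit 0x3cb3cb), (nat_lit 4)⟩)
(.lf ⟨(nat_lit 0), (nat_lit 0), (nat_lit 0x6891da247), (nat_lit 6)⟩))
(.lf ⟨(nat_lit 0x16fb27), (nat_lit 4), (nat_lit 0x38db271ce345), (nat_lit 8)⟩))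
(.nd (.nd (.lf ⟨(nat_lit 663), (nat_lit 2), (nat_lit 0x5cc3cc3ca), (nat_lit 6)⟩)
(.lf ⟨(nat_lit 0x463), (nat_lit 2), (nat_lit 0x8dd71d711), (nat_lit 6)⟩))
(.lf ⟨(nat_lit 0xf6e9758), (nat_lit 5), (nat_lit 0x1ba5d6276dd3dd9db), (nat_lit 11)⟩)))))
(.nd (.nd (.nd (.nd (.nd (.lf ⟨(nat_lit 139), (nat_lit 2), (nat_lit 0x112c2), (nat_lit 3)⟩)
(.lf ⟨(nat_lit 0x310310), (nat_lit 4), (nat_lit 0x40c40c), (nat_lit 4)⟩))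
(.nd (.lf ⟨(nat_lit 597), (nat_lit 2), (nat_lit 0x54e34e349), (nat_lit 6)⟩)
(.lf ⟨(nat_lit 0x2c9cf), (nat_lit 3), (nat_lit 0x6c129b04a), (nat_lit 6)⟩)))
(.nd (.nd (.lf ⟨(nat_lit 0x57d8), (nat_lit 3), (nat_lit 0x95f605), (nat_lit 4)⟩)
(.lf ⟨(nat_lit 0x62a), (nat_lit 2), (nat_lit 0xa98), (nat_lit 2)⟩))
(.lf ⟨(nat_lit 0x1b27), (nat_lit 3), (nat_lit 0xb2706c), (nat_lit 4)⟩)))
(.nd (.nd (.nd (.lf ⟨(nat_lit 267), (nat_lit 2), (nat_lit 708), (nat_lit 2)⟩)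
(.lf ⟨(nat_lit 0), (nat_lit 0), (nat_lit 0x1c31c3), (nat_lit 4)⟩))
(.lf ⟨(nat_lit 583), (nat_lit 2), (nat_lit 457), (nat_lit 2)⟩))
(.nd (.nd (.lf ⟨(nat_lit 335), (nat_lit 2), (nat_lit 0x1e3c5), (nat_lit 3)⟩)
(.lf ⟨(nat_lit 928), (nat_lit 2), (nat_lit 0x80e), (nat_lit 2)⟩))
(.lf ⟨(nat_lit 13), (nat_lit 1), (nat_lit 0x163da40e), (nat_lit 5)⟩))))
(.nd (.nd (.nd (.nd (.lf ⟨(nat_lit 155), (nat_lit 2), (nat_lit 0x226c2), (nat_lit 3)⟩)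
(.lf ⟨(nat_lit 0x8a89b1db2a26c76c22a26c76ca89b1db), (nat_lit 22), (nat_lit 0x8a89b1db2a26c76c22a26c76ca89b1db), (nat_lit 22)⟩))
(.lf ⟨(nat_lit 724), (nat_lit 2), (nat_lit 0x50b), (nat_lit 2)⟩))
(.nd (.nd (.lf ⟨(nat_lit 722), (nat_lit 2), (nat_lit 0x41231030b), (nat_lit 6)⟩)
(.lf ⟨(nat_lit 608), (nat_lit 2), (nat_lit 0x809), (nat_lit 2)⟩))
(.lf ⟨(nat_lit 601), (nat_lit 2), (nat_lit 0x1054e6501d58101d0389), (nat_lit 13)⟩)))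
(.nd (.nd (.nd (.lf ⟨(nat_lit 215), (nat_lit 2), (nat_lit 0x5c3), (nat_lit 2)⟩)
(.lf ⟨(nat_lit 0x10796), (nat_lit 3), (nat_lit 0x1a5a01da59e1d61e01da8107a01da), (nat_lit 19)⟩))
(.lf ⟨(nat_lit 0x516), (nat_lit 2), (nat_lit 0x594), (nat_lit 2)⟩))
(.nd (.nd (.lf ⟨(nat_lit 612), (nat_lit 2), (nat_lit 0x909), (nat_lit 2)⟩)
(.lf ⟨(nat_lit 0), (nat_lit 0), (nat_lit 0x844844), (nat_lit 4)⟩))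
(.lf ⟨(nat_lit 0x10607), (nat_lit 3), (nat_lit 0x1a60761a418), (nat_lit 7)⟩)))))))
(.nd (.nd (.nd (.nd (.nd (.nd (.nd (.lf ⟨(nat_lit 325), (nat_lit 2), (nat_lit 0), (nat_lit 0)⟩)
(.lf ⟨(nat_lit 231), (nat_lit 2), (nat_lit 0x1f62ea5d6df61ba5d6276dd61d6c3), (nat_lit 19)⟩))
(.nd (.lf ⟨(nat_lit 0x198198), (nat_lit 4), (nat_lit 0x606606), (nat_lit 4)⟩)
(.lf ⟨(nat_lit 0x1b7116d1), (nat_lit 5), (nat_lit 0x6c145b051), (nat_lit 6)⟩)))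
(.nd (.nd (.lf ⟨(nat_lit 720), (nat_lit 2), (nat_lit 0x40b), (nat_lit 2)⟩)
(.lf ⟨(nat_lit 0x1291d49d), (nat_lit 5), (nat_lit 0x1d4a4752), (nat_lit 5)⟩))
(.lf ⟨(nat_lit 0x299299), (nat_lit 4), (nat_lit 0x64a64a), (nat_lit 4)⟩)))
(.nd (.nd (.nd (.lf ⟨(nat_lit 99), (nat_lit 2), (nat_lit 0x288c1), (nat_lit 3)⟩)
(.lf ⟨(nat_lit 0x68324268309a0c909a0c268368324268309a0c909a0c2683), (nat_lit 32), (nat_lit 0x68324268309a0c909a0c268368324268309a0c909a0c2683), (nat_lit 32)⟩))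
(.lf ⟨(nat_lit 138), (nat_lit 2), (nat_lit 642), (nat_lit 2)⟩))
(.nd (.nd (.lf ⟨(nat_lit 96), (nat_lit 2), (nat_lit 0x801), (nat_lit 2)⟩)
(.lf ⟨(nat_lit 740), (nat_lit 2), (nat_lit 0x75091d40b), (nat_lit 6)⟩))
(.lf ⟨(nat_lit 0x1ba5d6dd), (nat_lit 5), (nat_lit 0x1d6e975b), (nat_lit 5)⟩))))
(.nd (.nd (.nd (.nd (.lf ⟨(nat_lit 0x659), (nat_lit 2), (nat_lit 0), (nat_lit 0)⟩)
(.lf ⟨(nat_lit 0x74b74b), (nat_lit 4), (nat_lit 0), (nat_lit 0)⟩))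
(.nd (.lf ⟨(nat_lit 854), (nat_lit 2), (nat_lit 0x58d), (nat_lit 2)⟩)
(.lf ⟨(nat_lit 108), (nat_lit 2), (nat_lit 0x1e3e73e778f6cf6c1), (nat_lit 11)⟩)))
(.nd (.nd (.lf ⟨(nat_lit 651), (nat_lit 2), (nat_lit 0x1d2ca), (nat_lit 3)⟩)
(.lf ⟨(nat_lit 0xa29), (nat_lit 2), (nat_lit 0xa68), (nat_lit 2)⟩))
(.lf ⟨(nat_lit 0xea5d), (nat_lit 3), (nat_lit 0xba974e), (nat_lit 4)⟩)))
(.nd (.nd (.nd (.lf ⟨(nat_lit 0x141141), (nat_lit 4), (nat_lit 0), (nat_lit 0)⟩)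
(.lf ⟨(nat_lit 0x10559), (nat_lit 3), (nat_lit 0x201d58191d5415), (nat_lit 9)⟩))
(.lf ⟨(nat_lit 0xb551), (nat_lit 3), (nat_lit 0x154552d5), (nat_lit 5)⟩))
(.nd (.nd (.lf ⟨(nat_lit 0x547), (nat_lit 2), (nat_lit 469), (nat_lit 2)⟩)
(.lf ⟨(nat_lit 927), (nat_lit 2), (nat_lit 0x759e60761679a41869095f60759e60761678e), (nat_lit 25)⟩))
(.lf ⟨(nat_lit 0x51f), (nat_lit 2), (nat_lit 0x7d4), (nat_lit 2)⟩)))))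
(.nd (.nd (.nd (.nd (.nd (.lf ⟨(nat_lit 74), (nat_lit 2), (nat_lit 0xf281), (nat_lit 3)⟩)
(.lf ⟨(nat_lit 967), (nat_lit 2), (nat_lit 0x58781a1e068758781a1e06961d67961e068781a1de81a1e06961e06878107a068781078f), (nat_lit 48)⟩))
(.nd (.lf ⟨(nat_lit 282), (nat_lit 2), (nat_lit 0x684), (nat_lit 2)⟩)
(.lf ⟨(nat_lit 0), (nat_lit 0), (nat_lit 0x60a60a), (nat_lit 4)⟩)))
(.nd (.nd (.lf ⟨(nat_lit 0x6e2), (nat_lit 2), (nat_lit 0x89b), (nat_lit 2)⟩)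
(.lf ⟨(nat_lit 0x10616), (nat_lit 3), (nat_lit 0x769679a418), (nat_lit 7)⟩))
(.lf ⟨(nat_lit 0x8ac), (nat_lit 2), (nat_lit 0x9ac9e69e2), (nat_lit 6)⟩)))
(.nd (.nd (.nd (.lf ⟨(nat_lit 135), (nat_lit 2), (nat_lit 450), (nat_lit 2)⟩)
(.lf ⟨(nat_lit 0x1b69440e), (nat_lit 5), (nat_lit 0x105105), (nat_lit 4)⟩))
(.lf ⟨(nat_lit 0x507), (nat_lit 2), (nat_lit 468), (nat_lit 2)⟩))
(.nd (.nd (.lf ⟨(nat_lit 0x469), (nat_lit 2), (nat_lit 0xa51), (nat_lit 2)⟩)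
(.lf ⟨(nat_lit 0x763760), (nat_lit 4), (nat_lit 0xa238288dd8dd), (nat_lit 8)⟩))
(.lf ⟨(nat_lit 0x454), (nat_lit 2), (nat_lit 0x511), (nat_lit 2)⟩))))
(.nd (.nd (.nd (.nd (.lf ⟨(nat_lit 89), (nat_lit 2), (nat_lit 0x20641), (nat_lit 3)⟩)
(.lf ⟨(nat_lit 0x89b1db), (nat_lit 4), (nat_lit 0x9b0c26c3), (nat_lit 6)⟩))
(.lf ⟨(nat_lit 270), (nat_lit 2), (nat_lit 0x1b384), (nat_lit 3)⟩))
(.nd (.nd (.lf ⟨(nat_lit 605), (nat_lit 2), (nat_lit 0x29749), (nat_lit 3)⟩)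
(.lf ⟨(nat_lit 749), (nat_lit 2), (nat_lit 0x75189bb697626dd6e975b44b), (nat_lit 16)⟩))
(.lf ⟨(nat_lit 0x8e9), (nat_lit 2), (nat_lit 0xa29a23), (nat_lit 4)⟩)))
(.nd (.nd (.nd (.lf ⟨(nat_lit 92), (nat_lit 2), (nat_lit 0x701), (nat_lit 2)⟩)
(.lf ⟨(nat_lit 0x576905d00576905d0), (nat_lit 12), (nat_lit 0x576905d00576905d0), (nat_lit 12)⟩))
(.lf ⟨(nat_lit 0x558558), (nat_lit 4), (nat_lit 0x615615), (nat_lit 4)⟩))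
(.nd (.nd (.lf ⟨(nat_lit 341), (nat_lit 2), (nat_lit 0x546386385), (nat_lit 6)⟩)
(.lf ⟨(nat_lit 0), (nat_lit 0), (nat_lit 0x844121104), (nat_lit 6)⟩))
(.lf ⟨(nat_lit 0xe455), (nat_lit 3), (nat_lit 0x15455455391), (nat_lit 7)⟩))))))
(.nd (.nd (.nd (.nd (.nd (.nd (.lf ⟨(nat_lit 780), (nat_lit 2), (nat_lit 0), (nat_lit 0)⟩)
(.lf ⟨(nat_lit 0x981c), (nat_lit 3), (nat_lit 0x7688dd8dda239288dda239288dc260), (nat_lit 20)⟩))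
(.nd (.lf ⟨(nat_lit 10), (nat_lit 1), (nat_lit 0x102102), (nat_lit 4)⟩)
(.lf ⟨(nat_lit 0x65b65b), (nat_lit 4), (nat_lit 0x82281b8228196d9), (nat_lit 10)⟩)))
(.nd (.nd (.lf ⟨(nat_lit 0x41a), (nat_lit 2), (nat_lit 0x690), (nat_lit 2)⟩)
(.lf ⟨(nat_lit 0x1da23), (nat_lit 3), (nat_lit 0x288dd), (nat_lit 3)⟩))
(.lf ⟨(nat_lit 0x464), (nat_lit 2), (nat_lit 0x72475c751), (nat_lit 6)⟩)))
(.nd (.nd (.nd (.lf ⟨(nat_lit 233), (nat_lit 2), (nat_lit 0x2ea43), (nat_lit 3)⟩)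
(.lf ⟨(nat_lit 981), (nat_lit 2), (nat_lit 0x5876905561e01da81078f), (nat_lit 14)⟩))
(.lf ⟨(nat_lit 148), (nat_lit 2), (nat_lit 0x502), (nat_lit 2)⟩))
(.nd (.nd (.lf ⟨(nat_lit 105), (nat_lit 2), (nat_lit 0xa41), (nat_lit 2)⟩)
(.lf ⟨(nat_lit 228), (nat_lit 2), (nat_lit 0x74591d143), (nat_lit 6)⟩))
(.lf ⟨(nat_lit 0x981c), (nat_lit 3), (nat_lit 0x8dc7688dd260), (nat_lit 8)⟩))))
(.nd (.nd (.nd (.nd (.lf ⟨(nat_lit 0x75d), (nat_lit 2), (nat_lit 0), (nat_lit 0)⟩)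
(.lf ⟨(nat_lit 0x11644b58b11644b58b), (nat_lit 12), (nat_lit 0x11644b58b11644b58b), (nat_lit 12)⟩))
(.nd (.lf ⟨(nat_lit 0x41c), (nat_lit 2), (nat_lit 0x710), (nat_lit 2)⟩)
(.lf ⟨(nat_lit 620), (nat_lit 2), (nat_lit 0xb276d89db609), (nat_lit 8)⟩)))
(.nd (.nd (.lf ⟨(nat_lit 213), (nat_lit 2), (nat_lit 0x1d5387383), (nat_lit 6)⟩)
(.lf ⟨(nat_lit 0x52e), (nat_lit 2), (nat_lit 0xb94), (nat_lit 2)⟩))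
(.lf ⟨(nat_lit 0xe6276dd), (nat_lit 5), (nat_lit 0x76ea5b7676d8a5d6df6df60e61b), (nat_lit 18)⟩)))
(.nd (.nd (.nd (.lf ⟨(nat_lit 0xb191), (nat_lit 3), (nat_lit 0x64462c6), (nat_lit 5)⟩)
(.lf ⟨(nat_lit 0x55a55a), (nat_lit 4), (nat_lit 0x695695), (nat_lit 4)⟩))
(.lf ⟨(nat_lit 862), (nat_lit 2), (nat_lit 0x738f1ce3cd), (nat_lit 7)⟩))
(.nd (.nd (.lf ⟨(nat_lit 670), (nat_lit 2), (nat_lit 0x78a), (nat_lit 2)⟩)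
(.lf ⟨(nat_lit 593), (nat_lit 2), (nat_lit 0xa6892375c75c449), (nat_lit 10)⟩))
(.lf ⟨(nat_lit 663), (nat_lit 2), (nat_lit 0x5cf30f30a), (nat_lit 6)⟩)))))
(.nd (.nd (.nd (.nd (.nd (.lf ⟨(nat_lit 78), (nat_lit 2), (nat_lit 0x14381), (nat_lit 3)⟩)
(.lf ⟨(nat_lit 0x141585056), (nat_lit 6), (nat_lit 0x585056141), (nat_lit 6)⟩))
(.nd (.lf ⟨(nat_lit 0x598), (nat_lit 2), (nat_lit 0x616), (nat_lit 2)⟩)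
(.lf ⟨(nat_lit 0x6c10ec9cf0ec9cf6c10ec9cf0ec9cf), (nat_lit 20), (nat_lit 0x6c10ec9cf0ec9cf6c10ec9cf0ec9cf), (nat_lit 20)⟩)))
(.nd (.nd (.lf ⟨(nat_lit 0x889b), (nat_lit 3), (nat_lit 0x9a26c8), (nat_lit 4)⟩)
(.lf ⟨(nat_lit 0x4676d8), (nat_lit 4), (nat_lit 0x2789b62da5d8a975b45b), (nat_lit 13)⟩))
(.lf ⟨(nat_lit 0x49e), (nat_lit 2), (nat_lit 0x792), (nat_lit 2)⟩)))
(.nd (.nd (.nd (.lf ⟨(nat_lit 652), (nat_lit 2), (nat_lit 778), (nat_lit 2)⟩)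
(.lf ⟨(nat_lit 0x401090042), (nat_lit 6), (nat_lit 0x401090042), (nat_lit 6)⟩))
(.lf ⟨(nat_lit 85), (nat_lit 2), (nat_lit 0x7541), (nat_lit 3)⟩))
(.nd (.nd (.lf ⟨(nat_lit 336), (nat_lit 2), (nat_lit 0x405), (nat_lit 2)⟩)
(.lf ⟨(nat_lit 137), (nat_lit 2), (nat_lit 0x5a06a069e6903ce242), (nat_lit 12)⟩))
(.lf ⟨(nat_lit 0x407), (nat_lit 2), (nat_lit 0x687690), (nat_lit 4)⟩))))
(.nd (.nd (.nd (.nd (.lf ⟨(nat_lit 93), (nat_lit 2), (nat_lit 0x24741), (nat_lit 3)⟩)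
(.lf ⟨(nat_lit 226), (nat_lit 2), (nat_lit 0x8876c76c3), (nat_lit 6)⟩))
(.lf ⟨(nat_lit 0x87d61d8), (nat_lit 5), (nat_lit 0x161d81d85887d8587), (nat_lit 11)⟩))
(.nd (.nd (.lf ⟨(nat_lit 88), (nat_lit 2), (nat_lit 0x601), (nat_lit 2)⟩)
(.lf ⟨(nat_lit 486), (nat_lit 2), (nat_lit 0x987), (nat_lit 2)⟩))
(.lf ⟨(nat_lit 681), (nat_lit 2), (nat_lit 0x62975874a), (nat_lit 6)⟩)))
(.nd (.nd (.nd (.lf ⟨(nat_lit 285), (nat_lit 2), (nat_lit 0x744), (nat_lit 2)⟩)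
(.lf ⟨(nat_lit 0x560647), (nat_lit 4), (nat_lit 0x1e0559), (nat_lit 4)⟩))
(.lf ⟨(nat_lit 0x3c755e), (nat_lit 4), (nat_lit 0x55e54f1d5), (nat_lit 6)⟩))
(.nd (.nd (.lf ⟨(nat_lit 164), (nat_lit 2), (nat_lit 0x74891d202), (nat_lit 6)⟩)
(.lf ⟨(nat_lit 0x984f261), (nat_lit 5), (nat_lit 0x183e13c98583c9), (nat_lit 9)⟩))
(.lf ⟨(nat_lit 106), (nat_lit 2), (nat_lit 0x257d86e991d62c9dba646d89db61b61d6d81d67981d859e95f60759e6076167a5601), (nat_lit 45)⟩))))))))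
(.nd (.nd (.nd (.nd (.nd (.nd (.nd (.nd (.lf ⟨(nat_lit 260), (nat_lit 2), (nat_lit 0), (nat_lit 0)⟩)
(.lf ⟨(nat_lit 0x7a23), (nat_lit 3), (nat_lit 0x288c7), (nat_lit 3)⟩))
(.nd (.lf ⟨(nat_lit 593), (nat_lit 2), (nat_lit 0xa5d7288e475c449), (nat_lit 10)⟩)
(.lf ⟨(nat_lit 0x6c109b042), (nat_lit 6), (nat_lit 0x6c109b042), (nat_lit 6)⟩)))
(.nd (.nd (.lf ⟨(nat_lit 716), (nat_lit 2), (nat_lit 779), (nat_lit 2)⟩)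
(.lf ⟨(nat_lit 0xf91d3dd), (nat_lit 5), (nat_lit 0x1d3e474f), (nat_lit 5)⟩))
(.lf ⟨(nat_lit 0x30f30f), (nat_lit 4), (nat_lit 0x3cc3cc), (nat_lit 4)⟩)))
(.nd (.nd (.nd (.lf ⟨(nat_lit 290), (nat_lit 2), (nat_lit 0x27884), (nat_lit 3)⟩)
(.lf ⟨(nat_lit 7), (nat_lit 1), (nat_lit 0x255255), (nat_lit 4)⟩))
(.lf ⟨(nat_lit 0x83083), (nat_lit 4), (nat_lit 7), (nat_lit 1)⟩))
(.nd (.nd (.lf ⟨(nat_lit 731), (nat_lit 2), (nat_lit 0x6cb), (nat_lit 2)⟩)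
(.lf ⟨(nat_lit 728), (nat_lit 2), (nat_lit 0x7676d8a5d6cb), (nat_lit 8)⟩))
(.lf ⟨(nat_lit 0x76e), (nat_lit 2), (nat_lit 0xb9d), (nat_lit 2)⟩))))
(.nd (.nd (.nd (.nd (.lf ⟨(nat_lit 0x618), (nat_lit 2), (nat_lit 0), (nat_lit 0)⟩)
(.lf ⟨(nat_lit 0x1419cf9c50673e7), (nat_lit 10), (nat_lit 0x9cf9c50673e7141), (nat_lit 10)⟩))
(.nd (.lf ⟨(nat_lit 659), (nat_lit 2), (nat_lit 0x4ca), (nat_lit 2)⟩)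
(.lf ⟨(nat_lit 0xf9deb27), (nat_lit 5), (nat_lit 0x277ac9de9cf9de), (nat_lit 9)⟩)))
(.nd (.nd (.lf ⟨(nat_lit 586), (nat_lit 2), (nat_lit 0x18289), (nat_lit 3)⟩)
(.lf ⟨(nat_lit 934), (nat_lit 2), (nat_lit 0x6c75549a26c755b5626d550e), (nat_lit 16)⟩))
(.lf ⟨(nat_lit 231), (nat_lit 2), (nat_lit 0x3276cc6c3), (nat_lit 6)⟩)))
(.nd (.nd (.nd (.lf ⟨(nat_lit 585), (nat_lit 2), (nat_lit 0), (nat_lit 0)⟩)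
(.lf ⟨(nat_lit 0x650559550), (nat_lit 6), (nat_lit 0x87550550087550550), (nat_lit 12)⟩))
(.lf ⟨(nat_lit 133), (nat_lit 2), (nat_lit 0x15142), (nat_lit 3)⟩))
(.nd (.nd (.lf ⟨(nat_lit 219), (nat_lit 2), (nat_lit 0x6c3), (nat_lit 2)⟩)
(.lf ⟨(nat_lit 0xf6d0), (nat_lit 3), (nat_lit 0x5a01da59e6903db), (nat_lit 10)⟩))
(.lf ⟨(nat_lit 0x517), (nat_lit 2), (nat_lit 0x5d4), (nat_lit 2)⟩)))))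
(.nd (.nd (.nd (.nd (.nd (.lf ⟨(nat_lit 201), (nat_lit 2), (nat_lit 0xe243), (nat_lit 3)⟩)
(.lf ⟨(nat_lit 593), (nat_lit 2), (nat_lit 0xa647688dc75c449), (nat_lit 10)⟩))
(.nd (.lf ⟨(nat_lit 912), (nat_lit 2), (nat_lit 0x40e), (nat_lit 2)⟩)
(.lf ⟨(nat_lit 0x60a2d828b), (nat_lit 6), (nat_lit 0x60a2d828b), (nat_lit 6)⟩)))
(.nd (.nd (.lf ⟨(nat_lit 0x660), (nat_lit 2), (nat_lit 0x819), (nat_lit 2)⟩)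
(.lf ⟨(nat_lit 925), (nat_lit 2), (nat_lit 0x1b69061a5107d86df7676d852e6989db61061a40e), (nat_lit 27)⟩))
(.lf ⟨(nat_lit 0x1c76371d), (nat_lit 5), (nat_lit 0x1d8dc75c), (nat_lit 5)⟩)))
(.nd (.nd (.nd (.lf ⟨(nat_lit 199), (nat_lit 2), (nat_lit 451), (nat_lit 2)⟩)
(.lf ⟨(nat_lit 0x1c31c3), (nat_lit 4), (nat_lit 0), (nat_lit 0)⟩))
(.lf ⟨(nat_lit 8), (nat_lit 1), (nat_lit 0x1ce345), (nat_lit 4)⟩))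
(.nd (.nd (.lf ⟨(nat_lit 923), (nat_lit 2), (nat_lit 0x6ce), (nat_lit 2)⟩)
(.lf ⟨(nat_lit 231), (nat_lit 2), (nat_lit 0x1f62ea5d6df61d9db62975b61d6c3), (nat_lit 19)⟩))
(.lf ⟨(nat_lit 0x519), (nat_lit 2), (nat_lit 0x654), (nat_lit 2)⟩))))
(.nd (.nd (.nd (.nd (.lf ⟨(nat_lit 216), (nat_lit 2), (nat_lit 0x1f603), (nat_lit 3)⟩)
(.lf ⟨(nat_lit 0), (nat_lit 0), (nat_lit 0x282282), (nat_lit 4)⟩))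
(.lf ⟨(nat_lit 25), (nat_lit 1), (nat_lit 0x90090), (nat_lit 4)⟩))
(.nd (.nd (.lf ⟨(nat_lit 600), (nat_lit 2), (nat_lit 0x609), (nat_lit 2)⟩)
(.lf ⟨(nat_lit 0x6e1), (nat_lit 2), (nat_lit 0x9e286789b), (nat_lit 6)⟩))
(.lf ⟨(nat_lit 0x41d9db), (nat_lit 4), (nat_lit 0x7676dd41d), (nat_lit 6)⟩)))
(.nd (.nd (.nd (.lf ⟨(nat_lit 71), (nat_lit 2), (nat_lit 449), (nat_lit 2)⟩)
(.lf ⟨(nat_lit 0x176905d0), (nat_lit 5), (nat_lit 0x5c34170d0), (nat_lit 6)⟩))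
(.lf ⟨(nat_lit 344), (nat_lit 2), (nat_lit 0x398385), (nat_lit 4)⟩))
(.nd (.nd (.lf ⟨(nat_lit 0x3c93c9), (nat_lit 4), (nat_lit 0), (nat_lit 0)⟩)
(.lf ⟨(nat_lit 0x668), (nat_lit 2), (nat_lit 0xa19), (nat_lit 2)⟩))
(.lf ⟨(nat_lit 0x1a807), (nat_lit 3), (nat_lit 0x781a), (nat_lit 3)⟩))))))
(.nd (.nd (.nd (.nd (.nd (.nd (.lf ⟨(nat_lit 715), (nat_lit 2), (nat_lit 0), (nat_lit 0)⟩)
(.lf ⟨(nat_lit 604), (nat_lit 2), (nat_lit 0x1da237637688e4a237688e4a23709), (nat_lit 19)⟩))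
(.nd (.lf ⟨(nat_lit 0), (nat_lit 0), (nat_lit 260), (nat_lit 2)⟩)
(.lf ⟨(nat_lit 0x9b8196d9), (nat_lit 6), (nat_lit 0x6e065b642), (nat_lit 6)⟩)))
(.nd (.nd (.lf ⟨(nat_lit 984), (nat_lit 2), (nat_lit 0x60f), (nat_lit 2)⟩)
(.lf ⟨(nat_lit 748), (nat_lit 2), (nat_lit 0x42476c9db9276dd40b), (nat_lit 12)⟩))
(.lf ⟨(nat_lit 0x463), (nat_lit 2), (nat_lit 0x76371d711), (nat_lit 6)⟩)))
(.nd (.nd (.nd (.lf ⟨(nat_lit 169), (nat_lit 2), (nat_lit 0x2da42), (nat_lit 3)⟩)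
(.lf ⟨(nat_lit 928), (nat_lit 2), (nat_lit 0x1e01ce), (nat_lit 4)⟩))
(.lf ⟨(nat_lit 0x515), (nat_lit 2), (nat_lit 0x554), (nat_lit 2)⟩))
(.nd (.nd (.lf ⟨(nat_lit 289), (nat_lit 2), (nat_lit 0x844), (nat_lit 2)⟩)
(.lf ⟨(nat_lit 676), (nat_lit 2), (nat_lit 0x74f91d3ca), (nat_lit 6)⟩))
(.lf ⟨(nat_lit 911), (nat_lit 2), (nat_lit 0x1e3ce), (nat_lit 3)⟩))))
(.nd (.nd (.nd (.nd (.lf ⟨(nat_lit 0x71c), (nat_lit 2), (nat_lit 0), (nat_lit 0)⟩)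
(.lf ⟨(nat_lit 0x58231608c), (nat_lit 6), (nat_lit 0x58231608c), (nat_lit 6)⟩))
(.nd (.lf ⟨(nat_lit 166), (nat_lit 2), (nat_lit 0x988888882), (nat_lit 6)⟩)
(.lf ⟨(nat_lit 0x26c9cf), (nat_lit 4), (nat_lit 0xb273c9), (nat_lit 4)⟩)))
(.nd (.nd (.lf ⟨(nat_lit 0x9a23), (nat_lit 3), (nat_lit 0x288c9), (nat_lit 3)⟩)
(.lf ⟨(nat_lit 711), (nat_lit 2), (nat_lit 0x1dc41155439c51141154e44b), (nat_lit 16)⟩))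
(.lf ⟨(nat_lit 743), (nat_lit 2), (nat_lit 0x7676dd6cb), (nat_lit 6)⟩)))
(.nd (.nd (.nd (.lf ⟨(nat_lit 0x683683), (nat_lit 4), (nat_lit 0), (nat_lit 0)⟩)
(.lf ⟨(nat_lit 0), (nat_lit 0), (nat_lit 0xd50d5), (nat_lit 4)⟩))
(.lf ⟨(nat_lit 342), (nat_lit 2), (nat_lit 0x396385), (nat_lit 4)⟩))
(.nd (.nd (.lf ⟨(nat_lit 0x420), (nat_lit 2), (nat_lit 0x810), (nat_lit 2)⟩)
(.lf ⟨(nat_lit 604), (nat_lit 2), (nat_lit 0x28709), (nat_lit 3)⟩))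
(.lf ⟨(nat_lit 611), (nat_lit 2), (nat_lit 0x8c9), (nat_lit 2)⟩)))))
(.nd (.nd (.nd (.nd (.nd (.lf ⟨(nat_lit 76), (nat_lit 2), (nat_lit 0x12301), (nat_lit 3)⟩)
(.lf ⟨(nat_lit 0x545401545401), (nat_lit 8), (nat_lit 0x401545401545), (nat_lit 8)⟩))
(.nd (.lf ⟨(nat_lit 15), (nat_lit 1), (nat_lit 0x4a04a), (nat_lit 4)⟩)
(.lf ⟨(nat_lit 0xec9cf0ec9cf), (nat_lit 8), (nat_lit 0xec9cf0ec9cf), (nat_lit 8)⟩)))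
(.nd (.nd (.lf ⟨(nat_lit 0x8a6), (nat_lit 2), (nat_lit 0x9a2), (nat_lit 2)⟩)
(.lf ⟨(nat_lit 622), (nat_lit 2), (nat_lit 0x3aea4ea49), (nat_lit 6)⟩))
(.lf ⟨(nat_lit 656), (nat_lit 2), (nat_lit 0xf91d40f74f2cf2ca), (nat_lit 11)⟩)))
(.nd (.nd (.nd (.lf ⟨(nat_lit 69), (nat_lit 2), (nat_lit 321), (nat_lit 2)⟩)
(.lf ⟨(nat_lit 0x6c76c7), (nat_lit 4), (nat_lit 0x1db1db), (nat_lit 4)⟩))
(.lf ⟨(nat_lit 852), (nat_lit 2), (nat_lit 0x50d), (nat_lit 2)⟩))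
(.nd (.nd (.lf ⟨(nat_lit 279), (nat_lit 2), (nat_lit 0x1f2d85cf2d83c4), (nat_lit 9)⟩)
(.lf ⟨(nat_lit 981), (nat_lit 2), (nat_lit 0x58769055681a81a79a40f), (nat_lit 14)⟩))
(.lf ⟨(nat_lit 654), (nat_lit 2), (nat_lit 0x69038a690), (nat_lit 6)⟩))))
(.nd (.nd (.nd (.nd (.lf ⟨(nat_lit 284), (nat_lit 2), (nat_lit 0x23704), (nat_lit 3)⟩)
(.lf ⟨(nat_lit 0x89b1db89b1db), (nat_lit 8), (nat_lit 0), (nat_lit 0)⟩))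
(.lf ⟨(nat_lit 12), (nat_lit 1), (nat_lit 0xca0ca), (nat_lit 4)⟩))
(.nd (.nd (.lf ⟨(nat_lit 152), (nat_lit 2), (nat_lit 0x602), (nat_lit 2)⟩)
(.lf ⟨(nat_lit 0x5a4), (nat_lit 2), (nat_lit 0x916), (nat_lit 2)⟩))
(.lf ⟨(nat_lit 610), (nat_lit 2), (nat_lit 0x3626cd6c9), (nat_lit 6)⟩)))
(.nd (.nd (.nd (.lf ⟨(nat_lit 280), (nat_lit 2), (nat_lit 0x604), (nat_lit 2)⟩)
(.lf ⟨(nat_lit 0x16787), (nat_lit 3), (nat_lit 0x7796), (nat_lit 3)⟩))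
(.lf ⟨(nat_lit 647), (nat_lit 2), (nat_lit 0xb1dd44c2c76163db69060738d9db2a7), (nat_lit 21)⟩))
(.nd (.nd (.lf ⟨(nat_lit 0x844844), (nat_lit 4), (nat_lit 0), (nat_lit 0)⟩)
(.lf ⟨(nat_lit 0x858858858858), (nat_lit 8), (nat_lit 0x121621604858858), (nat_lit 10)⟩))
(.lf ⟨(nat_lit 0x10787), (nat_lit 3), (nat_lit 0x1a58759e58781a1e06877a068781a58781a1e041e), (nat_lit 27)⟩)))))))
(.nd (.nd (.nd (.nd (.nd (.nd (.nd (.lf ⟨(nat_lit 585), (nat_lit 2), (nat_lit 0), (nat_lit 0)⟩)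
(.lf ⟨(nat_lit 0xe9db), (nat_lit 3), (nat_lit 0x69061a42ea5d6dd9db62975b7db7d86944186da51039d), (nat_lit 30)⟩))
(.nd (.lf ⟨(nat_lit 6), (nat_lit 1), (nat_lit 0x85085), (nat_lit 4)⟩)
(.lf ⟨(nat_lit 0x9b7116d109b7116d1), (nat_lit 12), (nat_lit 0x9b7116d109b7116d1), (nat_lit 12)⟩)))
(.nd (.nd (.lf ⟨(nat_lit 786), (nat_lit 2), (nat_lit 0x48c), (nat_lit 2)⟩)
(.lf ⟨(nat_lit 0x189db61b), (nat_lit 5), (nat_lit 0x1b6276d8), (nat_lit 5)⟩))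
(.lf ⟨(nat_lit 991), (nat_lit 2), (nat_lit 0x5df61760f), (nat_lit 6)⟩)))
(.nd (.nd (.nd (.lf ⟨(nat_lit 292), (nat_lit 2), (nat_lit 0x29904), (nat_lit 3)⟩)
(.lf ⟨(nat_lit 0x687), (nat_lit 2), (nat_lit 474), (nat_lit 2)⟩))
(.lf ⟨(nat_lit 18), (nat_lit 1), (nat_lit 0x4c04c), (nat_lit 4)⟩))
(.nd (.nd (.lf ⟨(nat_lit 162), (nat_lit 2), (nat_lit 0x882), (nat_lit 2)⟩)
(.lf ⟨(nat_lit 804), (nat_lit 2), (nat_lit 0x75291d48c), (nat_lit 6)⟩))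
(.lf ⟨(nat_lit 484), (nat_lit 2), (nat_lit 0x907), (nat_lit 2)⟩))))
(.nd (.nd (.nd (.nd (.lf ⟨(nat_lit 0x69a), (nat_lit 2), (nat_lit 0), (nat_lit 0)⟩)
(.lf ⟨(nat_lit 967), (nat_lit 2), (nat_lit 0x58781a1e068758781a1e068759e1e068781a1de81a1e06961e06878107a068781078f), (nat_lit 46)⟩))
(.nd (.lf ⟨(nat_lit 0x5586), (nat_lit 3), (nat_lit 0x7586587156), (nat_lit 7)⟩)
(.lf ⟨(nat_lit 0x11b0426c10846c109b042), (nat_lit 14), (nat_lit 0x11b0426c10846c109b042), (nat_lit 14)⟩)))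
(.nd (.nd (.lf ⟨(nat_lit 522), (nat_lit 2), (nat_lit 0x16288), (nat_lit 3)⟩)
(.lf ⟨(nat_lit 937), (nat_lit 2), (nat_lit 0xba975b69061a5107d86df7676d852e6989db61061a40e), (nat_lit 30)⟩))
(.lf ⟨(nat_lit 745), (nat_lit 2), (nat_lit 0x6e975b74b), (nat_lit 6)⟩)))
(.nd (.nd (.nd (.lf ⟨(nat_lit 0x401401), (nat_lit 4), (nat_lit 0), (nat_lit 0)⟩)
(.lf ⟨(nat_lit 0x9a242689), (nat_lit 6), (nat_lit 0x9a242689), (nat_lit 6)⟩))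
(.lf ⟨(nat_lit 330), (nat_lit 2), (nat_lit 0x39634a1ce345), (nat_lit 8)⟩))
(.nd (.nd (.lf ⟨(nat_lit 729), (nat_lit 2), (nat_lit 0x65141140b), (nat_lit 6)⟩)
(.lf ⟨(nat_lit 934), (nat_lit 2), (nat_lit 0x6c756689b1d56d589b54e), (nat_lit 14)⟩))
(.lf ⟨(nat_lit 976), (nat_lit 2), (nat_lit 0x161da80769058f), (nat_lit 9)⟩)))))
(.nd (.nd (.nd (.nd (.nd (.lf ⟨(nat_lit 75), (nat_lit 2), (nat_lit 0x102c1), (nat_lit 3)⟩)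
(.lf ⟨(nat_lit 0x44a44a), (nat_lit 4), (nat_lit 0), (nat_lit 0)⟩))
(.nd (.lf ⟨(nat_lit 101), (nat_lit 2), (nat_lit 0x941), (nat_lit 2)⟩)
(.lf ⟨(nat_lit 799), (nat_lit 2), (nat_lit 0x7cc), (nat_lit 2)⟩)))
(.nd (.nd (.lf ⟨(nat_lit 0x764), (nat_lit 2), (nat_lit 0x91d), (nat_lit 2)⟩)
(.lf ⟨(nat_lit 0x6ec), (nat_lit 2), (nat_lit 0xb1b), (nat_lit 2)⟩))
(.lf ⟨(nat_lit 0x728), (nat_lit 2), (nat_lit 0xa1c), (nat_lit 2)⟩)))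
(.nd (.nd (.nd (.lf ⟨(nat_lit 265), (nat_lit 2), (nat_lit 580), (nat_lit 2)⟩)
(.lf ⟨(nat_lit 0x76c76da), (nat_lit 5), (nat_lit 0x1c36da5103870db69440e), (nat_lit 14)⟩))
(.lf ⟨(nat_lit 903), (nat_lit 2), (nat_lit 462), (nat_lit 2)⟩))
(.nd (.nd (.lf ⟨(nat_lit 269), (nat_lit 2), (nat_lit 0x18344), (nat_lit 3)⟩)
(.lf ⟨(nat_lit 0x464), (nat_lit 2), (nat_lit 0x91d71d711), (nat_lit 6)⟩))
(.lf ⟨(nat_lit 485), (nat_lit 2), (nat_lit 0x947), (nat_lit 2)⟩))))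
(.nd (.nd (.nd (.nd (.lf ⟨(nat_lit 281), (nat_lit 2), (nat_lit 0x21644), (nat_lit 3)⟩)
(.lf ⟨(nat_lit 0x2a26c76ca89b1db), (nat_lit 10), (nat_lit 0x2a26c76ca89b1db), (nat_lit 10)⟩))
(.lf ⟨(nat_lit 261), (nat_lit 2), (nat_lit 0x1b69440e144), (nat_lit 7)⟩))
(.nd (.nd (.lf ⟨(nat_lit 664), (nat_lit 2), (nat_lit 0x60a), (nat_lit 2)⟩)
(.lf ⟨(nat_lit 0x79f), (nat_lit 2), (nat_lit 0x7de), (nat_lit 2)⟩))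
(.lf ⟨(nat_lit 606), (nat_lit 2), (nat_lit 0x51e509), (nat_lit 4)⟩)))
(.nd (.nd (.nd (.lf ⟨(nat_lit 150), (nat_lit 2), (nat_lit 0x582), (nat_lit 2)⟩)
(.lf ⟨(nat_lit 0x1e1576905d0), (nat_lit 7), (nat_lit 0x176905d0785), (nat_lit 7)⟩))
(.lf ⟨(nat_lit 980), (nat_lit 2), (nat_lit 0x50f), (nat_lit 2)⟩))
(.nd (.nd (.lf ⟨(nat_lit 0x6c16c1), (nat_lit 4), (nat_lit 0), (nat_lit 0)⟩)
(.lf ⟨(nat_lit 0), (nat_lit 0), (nat_lit 0x3c93c9), (nat_lit 4)⟩))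
(.lf ⟨(nat_lit 342), (nat_lit 2), (nat_lit 0x1d6785), (nat_lit 4)⟩))))))
(.nd (.nd (.nd (.nd (.nd (.nd (.lf ⟨(nat_lit 133), (nat_lit 2), (nat_lit 0x6142), (nat_lit 3)⟩)
(.lf ⟨(nat_lit 981), (nat_lit 2), (nat_lit 0x5876905561e068781078f), (nat_lit 14)⟩))
(.nd (.lf ⟨(nat_lit 0x747), (nat_lit 2), (nat_lit 477), (nat_lit 2)⟩)
(.lf ⟨(nat_lit 0), (nat_lit 0), (nat_lit 0x401401), (nat_lit 4)⟩)))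
(.nd (.nd (.lf ⟨(nat_lit 0x45c), (nat_lit 2), (nat_lit 0x711), (nat_lit 2)⟩)
(.lf ⟨(nat_lit 927), (nat_lit 2), (nat_lit 0x1a4185876076161e01da81095f60759e60761678e), (nat_lit 27)⟩))
(.lf ⟨(nat_lit 0x177d85d8), (nat_lit 5), (nat_lit 0x185df617), (nat_lit 5)⟩)))
(.nd (.nd (.nd (.lf ⟨(nat_lit 130), (nat_lit 2), (nat_lit 0), (nat_lit 0)⟩)
(.lf ⟨(nat_lit 137), (nat_lit 2), (nat_lit 0x5878076a041e3ce242), (nat_lit 12)⟩))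
(.lf ⟨(nat_lit 597), (nat_lit 2), (nat_lit 0x7549), (nat_lit 3)⟩))
(.nd (.nd (.lf ⟨(nat_lit 735), (nat_lit 2), (nat_lit 0x7cb), (nat_lit 2)⟩)
(.lf ⟨(nat_lit 279), (nat_lit 2), (nat_lit 0x1f7676d8a5d6cb5dd9db62975b3cb3c4), (nat_lit 21)⟩))
(.lf ⟨(nat_lit 725), (nat_lit 2), (nat_lit 0x45539138b), (nat_lit 6)⟩))))
(.nd (.nd (.nd (.nd (.lf ⟨(nat_lit 455), (nat_lit 2), (nat_lit 0), (nat_lit 0)⟩)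
(.lf ⟨(nat_lit 0x59d), (nat_lit 2), (nat_lit 0x756), (nat_lit 2)⟩))
(.lf ⟨(nat_lit 0x459), (nat_lit 2), (nat_lit 0x651), (nat_lit 2)⟩))
(.nd (.nd (.lf ⟨(nat_lit 534), (nat_lit 2), (nat_lit 0x588), (nat_lit 2)⟩)
(.lf ⟨(nat_lit 0x525), (nat_lit 2), (nat_lit 0x954), (nat_lit 2)⟩))
(.lf ⟨(nat_lit 930), (nat_lit 2), (nat_lit 0x5626d56ce), (nat_lit 6)⟩)))
(.nd (.nd (.nd (.lf ⟨(nat_lit 79), (nat_lit 2), (nat_lit 961), (nat_lit 2)⟩)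
(.lf ⟨(nat_lit 0x785), (nat_lit 2), (nat_lit 0x5c30570c1), (nat_lit 6)⟩))
(.lf ⟨(nat_lit 0x559559), (nat_lit 4), (nat_lit 0x655655), (nat_lit 4)⟩))
(.nd (.nd (.lf ⟨(nat_lit 329), (nat_lit 2), (nat_lit 0x14245), (nat_lit 3)⟩)
(.lf ⟨(nat_lit 13), (nat_lit 1), (nat_lit 0x59e6903ce), (nat_lit 6)⟩))
(.lf ⟨(nat_lit 287), (nat_lit 2), (nat_lit 0x7d86e97589db744), (nat_lit 10)⟩)))))
(.nd (.nd (.nd (.nd (.nd (.lf ⟨(nat_lit 142), (nat_lit 2), (nat_lit 0x15382), (nat_lit 3)⟩)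
(.lf ⟨(nat_lit 0x511511), (nat_lit 4), (nat_lit 0), (nat_lit 0)⟩))
(.nd (.lf ⟨(nat_lit 979), (nat_lit 2), (nat_lit 0x4cf), (nat_lit 2)⟩)
(.lf ⟨(nat_lit 0xb273ec9cf), (nat_lit 6), (nat_lit 0), (nat_lit 0)⟩)))
(.nd (.nd (.lf ⟨(nat_lit 0x929), (nat_lit 2), (nat_lit 0xa64), (nat_lit 2)⟩)
(.lf ⟨(nat_lit 678), (nat_lit 2), (nat_lit 0x3e688f88a), (nat_lit 6)⟩))
(.lf ⟨(nat_lit 0x1c907), (nat_lit 3), (nat_lit 0x288e91e9a23724), (nat_lit 9)⟩)))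
(.nd (.nd (.nd (.lf ⟨(nat_lit 203), (nat_lit 2), (nat_lit 707), (nat_lit 2)⟩)
(.lf ⟨(nat_lit 0x150042401085401090042), (nat_lit 14), (nat_lit 0x150042401085401090042), (nat_lit 14)⟩))
(.lf ⟨(nat_lit 6), (nat_lit 1), (nat_lit 21), (nat_lit 1)⟩))
(.nd (.nd (.lf ⟨(nat_lit 657), (nat_lit 2), (nat_lit 0x44a), (nat_lit 2)⟩)
(.lf ⟨(nat_lit 0x69e), (nat_lit 2), (nat_lit 0x79a), (nat_lit 2)⟩))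
(.lf ⟨(nat_lit 926), (nat_lit 2), (nat_lit 0x1da4167961da4163c759e1de3ce), (nat_lit 18)⟩))))
(.nd (.nd (.nd (.nd (.lf ⟨(nat_lit 95), (nat_lit 2), (nat_lit 0x257c1), (nat_lit 3)⟩)
(.lf ⟨(nat_lit 0x242242), (nat_lit 4), (nat_lit 0x242242), (nat_lit 4)⟩))
(.lf ⟨(nat_lit 221), (nat_lit 2), (nat_lit 0x743), (nat_lit 2)⟩))
(.nd (.nd (.lf ⟨(nat_lit 91), (nat_lit 2), (nat_lit 0x6c1), (nat_lit 2)⟩)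
(.lf ⟨(nat_lit 0x647), (nat_lit 2), (nat_lit 473), (nat_lit 2)⟩))
(.lf ⟨(nat_lit 0x14798), (nat_lit 3), (nat_lit 0x1851e), (nat_lit 3)⟩)))
(.nd (.nd (.nd (.lf ⟨(nat_lit 589), (nat_lit 2), (nat_lit 841), (nat_lit 2)⟩)
(.lf ⟨(nat_lit 0xc7d8318), (nat_lit 5), (nat_lit 0x1831f60c), (nat_lit 5)⟩))
(.lf ⟨(nat_lit 166), (nat_lit 2), (nat_lit 0x6c738d6ce342), (nat_lit 8)⟩))
(.nd (.nd (.lf ⟨(nat_lit 0x769), (nat_lit 2), (nat_lit 0xa5d), (nat_lit 2)⟩)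
(.lf ⟨(nat_lit 0x849849849849), (nat_lit 8), (nat_lit 0), (nat_lit 0)⟩))
(.lf ⟨(nat_lit 0x422), (nat_lit 2), (nat_lit 0x6d989b650), (nat_lit 6)⟩))))))))))

/-- Substitution. -/
def s22 : List (ℕ × ℕ) := [((nat_lit 1), (nat_lit 1)), ((nat_lit 2), (nat_lit 1)), ((nat_lit 3), (nat_lit 1)), ((nat_lit 10), (nat_lit 1)), ((nat_lit 8), (nat_lit 1)), ((nat_lit 5), (nat_lit 1)), ((nat_lit 15), (nat_lit 1)), ((nat_lit 12), (nat_lit 1)), ((nat_lit 6), (nat_lit 1)), ((nat_lit 22), (nat_lit 1)), ((nat_lit 23), (nat_lit 1)), ((nat_lit 18), (nat_lit 1)), ((nat_lit 7), (nat_lit 1))]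

/-- Context. -/
noncomputable def x22 : ℕ → ℕ × ℕ :=
  mkc d0 1218 s0 x0 (nth [] (Cl.alts H1.cl) 4)

set_option maxRecDepth 100000 in
/-- Facts. -/
noncomputable def d23 : Tr :=
(.nd (.nd (.nd (.nd (.nd (.nd (.lf ⟨(nat_lit 130), (nat_lit 2), (nat_lit 0), (nat_lit 0)⟩)
(.lf ⟨(nat_lit 131), (nat_lit 2), (nat_lit 194), (nat_lit 2)⟩))
(.lf ⟨(nat_lit 131), (nat_lit 2), (nat_lit 0x70c2), (nat_lit 3)⟩))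
(.nd (.lf ⟨(nat_lit 910), (nat_lit 2), (nat_lit 0), (nat_lit 0)⟩)
(.lf ⟨(nat_lit 797), (nat_lit 2), (nat_lit 0x74c), (nat_lit 2)⟩)))
(.nd (.nd (.nd (.lf ⟨(nat_lit 132), (nat_lit 2), (nat_lit 0xa102), (nat_lit 3)⟩)
(.lf ⟨(nat_lit 202), (nat_lit 2), (nat_lit 0x751283), (nat_lit 4)⟩))
(.lf ⟨(nat_lit 917), (nat_lit 2), (nat_lit 0x54e), (nat_lit 2)⟩))
(.nd (.lf ⟨(nat_lit 0x514), (nat_lit 2), (nat_lit 0), (nat_lit 0)⟩)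
(.lf ⟨(nat_lit 0x51c), (nat_lit 2), (nat_lit 0x714), (nat_lit 2)⟩))))
(.nd (.nd (.nd (.nd (.lf ⟨(nat_lit 260), (nat_lit 2), (nat_lit 0), (nat_lit 0)⟩)
(.lf ⟨(nat_lit 209), (nat_lit 2), (nat_lit 0x443), (nat_lit 2)⟩))
(.lf ⟨(nat_lit 203), (nat_lit 2), (nat_lit 707), (nat_lit 2)⟩))
(.nd (.lf ⟨(nat_lit 0x451), (nat_lit 2), (nat_lit 0), (nat_lit 0)⟩)
(.lf ⟨(nat_lit 0x515), (nat_lit 2), (nat_lit 0x554), (nat_lit 2)⟩)))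
(.nd (.nd (.lf ⟨(nat_lit 196), (nat_lit 2), (nat_lit 0xb103), (nat_lit 3)⟩)
(.lf ⟨(nat_lit 0x45d), (nat_lit 2), (nat_lit 0x751), (nat_lit 2)⟩))
(.nd (.lf ⟨(nat_lit 0x71c), (nat_lit 2), (nat_lit 0), (nat_lit 0)⟩)
(.lf ⟨(nat_lit 131), (nat_lit 2), (nat_lit 194), (nat_lit 2)⟩)))))
(.nd (.nd (.nd (.nd (.nd (.lf ⟨(nat_lit 195), (nat_lit 2), (nat_lit 0), (nat_lit 0)⟩)
(.lf ⟨(nat_lit 0xe714450), (nat_lit 5), (nat_lit 0x15714450455391), (nat_lit 9)⟩))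
(.lf ⟨(nat_lit 138), (nat_lit 2), (nat_lit 642), (nat_lit 2)⟩))
(.nd (.lf ⟨(nat_lit 0x410), (nat_lit 2), (nat_lit 0), (nat_lit 0)⟩)
(.lf ⟨(nat_lit 0x41c), (nat_lit 2), (nat_lit 0x710), (nat_lit 2)⟩)))
(.nd (.nd (.nd (.lf ⟨(nat_lit 715), (nat_lit 2), (nat_lit 0), (nat_lit 0)⟩)
(.lf ⟨(nat_lit 0x4083083), (nat_lit 5), (nat_lit 0x20c20c4), (nat_lit 5)⟩))
(.lf ⟨(nat_lit 0x45c), (nat_lit 2), (nat_lit 0x711), (nat_lit 2)⟩))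
(.nd (.lf ⟨(nat_lit 0x555), (nat_lit 2), (nat_lit 0), (nat_lit 0)⟩)
(.lf ⟨(nat_lit 209), (nat_lit 2), (nat_lit 0x71141155439c51141154e443), (nat_lit 16)⟩))))
(.nd (.nd (.nd (.nd (.lf ⟨(nat_lit 650), (nat_lit 2), (nat_lit 0), (nat_lit 0)⟩)
(.lf ⟨(nat_lit 12), (nat_lit 1), (nat_lit 0x751), (nat_lit 2)⟩))
(.lf ⟨(nat_lit 721), (nat_lit 2), (nat_lit 0x44b), (nat_lit 2)⟩))
(.nd (.lf ⟨(nat_lit 139), (nat_lit 2), (nat_lit 0x112c2), (nat_lit 3)⟩)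
(.lf ⟨(nat_lit 711), (nat_lit 2), (nat_lit 0x1dc41155439c51141154e44b), (nat_lit 16)⟩)))
(.nd (.nd (.lf ⟨(nat_lit 202), (nat_lit 2), (nat_lit 0xc283), (nat_lit 3)⟩)
(.lf ⟨(nat_lit 651), (nat_lit 2), (nat_lit 0x1d2ca), (nat_lit 3)⟩))
(.nd (.lf ⟨(nat_lit 0x75d), (nat_lit 2), (nat_lit 0), (nat_lit 0)⟩)
(.lf ⟨(nat_lit 7), (nat_lit 1), (nat_lit 0), (nat_lit 0)⟩))))))

/-- Context. -/
noncomputable def x23 : ℕ → ℕ × ℕ :=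
  mkc d22 815 s22 x22 (nth [] (Cl.alts H3.cl) 0)

set_option maxRecDepth 100000 in
/-- Facts. -/
noncomputable def d24 : Tr :=
(.nd (.nd (.nd (.nd (.nd (.nd (.nd (.nd (.nd (.nd (.lf ⟨(nat_lit 65), (nat_lit 2), (nat_lit 0), (nat_lit 0)⟩)
(.lf ⟨(nat_lit 209), (nat_lit 2), (nat_lit 0x71745045a50e717511690383), (nat_lit 16)⟩))
(.nd (.lf ⟨(nat_lit 0x519), (nat_lit 2), (nat_lit 0x654), (nat_lit 2)⟩)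
(.lf ⟨(nat_lit 0x8a9), (nat_lit 2), (nat_lit 0x9e99e2), (nat_lit 4)⟩)))
(.nd (.nd (.lf ⟨(nat_lit 586), (nat_lit 2), (nat_lit 0x18289), (nat_lit 3)⟩)
(.lf ⟨(nat_lit 0x65b), (nat_lit 2), (nat_lit 0x8678a19e26d9), (nat_lit 8)⟩))
(.lf ⟨(nat_lit 0x45e), (nat_lit 2), (nat_lit 0x791), (nat_lit 2)⟩)))
(.nd (.nd (.nd (.lf ⟨(nat_lit 293), (nat_lit 2), (nat_lit 0x2a944), (nat_lit 3)⟩)
(.lf ⟨(nat_lit 0x65a), (nat_lit 2), (nat_lit 0x699), (nat_lit 2)⟩))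
(.lf ⟨(nat_lit 209), (nat_lit 2), (nat_lit 0x71141155439c51141154e443), (nat_lit 16)⟩))
(.nd (.nd (.lf ⟨(nat_lit 922), (nat_lit 2), (nat_lit 0x68e), (nat_lit 2)⟩)
(.lf ⟨(nat_lit 0), (nat_lit 0), (nat_lit 0x161161), (nat_lit 4)⟩))
(.lf ⟨(nat_lit 0x1b7db95f), (nat_lit 5), (nat_lit 0x257db7db), (nat_lit 5)⟩))))
(.nd (.nd (.nd (.nd (.lf ⟨(nat_lit 0x6db), (nat_lit 2), (nat_lit 0), (nat_lit 0)⟩)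
(.lf ⟨(nat_lit 0x3db3db), (nat_lit 4), (nat_lit 0x209cf9e03ec), (nat_lit 7)⟩))
(.nd (.lf ⟨(nat_lit 0x55a55a), (nat_lit 4), (nat_lit 0x695695), (nat_lit 4)⟩)
(.lf ⟨(nat_lit 0x27a67b69), (nat_lit 5), (nat_lit 0x2da6c9e9b27), (nat_lit 7)⟩)))
(.nd (.nd (.lf ⟨(nat_lit 335), (nat_lit 2), (nat_lit 0x1e3c5), (nat_lit 3)⟩)
(.lf ⟨(nat_lit 137), (nat_lit 2), (nat_lit 0x9103ce242), (nat_lit 6)⟩))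
(.lf ⟨(nat_lit 0x65e), (nat_lit 2), (nat_lit 0x799), (nat_lit 2)⟩)))
(.nd (.nd (.nd (.lf ⟨(nat_lit 92), (nat_lit 2), (nat_lit 0x701), (nat_lit 2)⟩)
(.lf ⟨(nat_lit 0x4699), (nat_lit 3), (nat_lit 0x85a644), (nat_lit 4)⟩))
(.lf ⟨(nat_lit 0), (nat_lit 0), (nat_lit 0x98098), (nat_lit 4)⟩))
(.nd (.nd (.lf ⟨(nat_lit 66), (nat_lit 2), (nat_lit 0x1ce345081), (nat_lit 6)⟩)
(.lf ⟨(nat_lit 0x862), (nat_lit 2), (nat_lit 0x8a1), (nat_lit 2)⟩))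
(.lf ⟨(nat_lit 0x10616), (nat_lit 3), (nat_lit 0x20796418), (nat_lit 5)⟩)))))
(.nd (.nd (.nd (.nd (.nd (.lf ⟨(nat_lit 0x410), (nat_lit 2), (nat_lit 0), (nat_lit 0)⟩)
(.lf ⟨(nat_lit 0x16fb27), (nat_lit 4), (nat_lit 0x2c9c5), (nat_lit 3)⟩))
(.nd (.lf ⟨(nat_lit 607), (nat_lit 2), (nat_lit 0x759e6076167a57d81d67981d859e609), (nat_lit 21)⟩)
(.lf ⟨(nat_lit 6), (nat_lit 1), (nat_lit 0x9e48a1), (nat_lit 4)⟩)))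
(.nd (.nd (.lf ⟨(nat_lit 157), (nat_lit 2), (nat_lit 0x742), (nat_lit 2)⟩)
(.lf ⟨(nat_lit 97), (nat_lit 2), (nat_lit 0x24841), (nat_lit 3)⟩))
(.lf ⟨(nat_lit 926), (nat_lit 2), (nat_lit 0x78e), (nat_lit 2)⟩)))
(.nd (.nd (.nd (.lf ⟨(nat_lit 266), (nat_lit 2), (nat_lit 644), (nat_lit 2)⟩)
(.lf ⟨(nat_lit 729), (nat_lit 2), (nat_lit 0x64b), (nat_lit 2)⟩))
(.lf ⟨(nat_lit 0x69e), (nat_lit 2), (nat_lit 0x79a), (nat_lit 2)⟩))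
(.nd (.nd (.lf ⟨(nat_lit 0x65c), (nat_lit 2), (nat_lit 0x719), (nat_lit 2)⟩)
(.lf ⟨(nat_lit 924), (nat_lit 2), (nat_lit 0x69c68e), (nat_lit 4)⟩))
(.lf ⟨(nat_lit 0x66c), (nat_lit 2), (nat_lit 0x9e0b27819), (nat_lit 6)⟩))))
(.nd (.nd (.nd (.nd (.lf ⟨(nat_lit 155), (nat_lit 2), (nat_lit 0x226c2), (nat_lit 3)⟩)
(.lf ⟨(nat_lit 0xa040f1428103c5), (nat_lit 10), (nat_lit 0xa040f1428103c5), (nat_lit 10)⟩))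
(.nd (.lf ⟨(nat_lit 0x52e), (nat_lit 2), (nat_lit 0xb94), (nat_lit 2)⟩)
(.lf ⟨(nat_lit 0x2da4a), (nat_lit 3), (nat_lit 0x902124084), (nat_lit 6)⟩)))
(.nd (.nd (.lf ⟨(nat_lit 0x769), (nat_lit 2), (nat_lit 0xa5d), (nat_lit 2)⟩)
(.lf ⟨(nat_lit 656), (nat_lit 2), (nat_lit 0x2786240a), (nat_lit 5)⟩))
(.lf ⟨(nat_lit 0x3db3db), (nat_lit 4), (nat_lit 0x1e9cf9de3ec), (nat_lit 7)⟩)))
(.nd (.nd (.nd (.lf ⟨(nat_lit 0x5de), (nat_lit 2), (nat_lit 0x797), (nat_lit 2)⟩)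
(.lf ⟨(nat_lit 0x14a105284), (nat_lit 6), (nat_lit 0x14a105284), (nat_lit 6)⟩))
(.lf ⟨(nat_lit 6), (nat_lit 1), (nat_lit 0x75d6), (nat_lit 3)⟩))
(.nd (.nd (.lf ⟨(nat_lit 0xf9db), (nat_lit 3), (nat_lit 0xb276cf), (nat_lit 4)⟩)
(.lf ⟨(nat_lit 0x6aa), (nat_lit 2), (nat_lit 0xa9a), (nat_lit 2)⟩))
(.lf ⟨(nat_lit 0x6a4), (nat_lit 2), (nat_lit 0x82481a), (nat_lit 4)⟩))))))
(.nd (.nd (.nd (.nd (.nd (.nd (.lf ⟨(nat_lit 650), (nat_lit 2), (nat_lit 0), (nat_lit 0)⟩)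
(.lf ⟨(nat_lit 22), (nat_lit 1), (nat_lit 26), (nat_lit 1)⟩))
(.nd (.lf ⟨(nat_lit 0x51e), (nat_lit 2), (nat_lit 0x794), (nat_lit 2)⟩)
(.lf ⟨(nat_lit 300), (nat_lit 2), (nat_lit 0x2bb04), (nat_lit 3)⟩)))
(.nd (.nd (.lf ⟨(nat_lit 605), (nat_lit 2), (nat_lit 0x29749), (nat_lit 3)⟩)
(.lf ⟨(nat_lit 0x218a19e2), (nat_lit 5), (nat_lit 0x278a18a1), (nat_lit 5)⟩))
(.lf ⟨(nat_lit 0x5d85d8), (nat_lit 4), (nat_lit 0x617617), (nat_lit 4)⟩)))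
(.nd (.nd (.nd (.lf ⟨(nat_lit 172), (nat_lit 2), (nat_lit 0x2fb02), (nat_lit 3)⟩)
(.lf ⟨(nat_lit 209), (nat_lit 2), (nat_lit 0x71a65440e719511690383), (nat_lit 14)⟩))
(.lf ⟨(nat_lit 930), (nat_lit 2), (nat_lit 0x6d589b54e), (nat_lit 6)⟩))
(.nd (.nd (.lf ⟨(nat_lit 0x6e6), (nat_lit 2), (nat_lit 0x99b), (nat_lit 2)⟩)
(.lf ⟨(nat_lit 749), (nat_lit 2), (nat_lit 0x85ba616d189bb6986285b44b), (nat_lit 16)⟩))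
(.lf ⟨(nat_lit 0x59a), (nat_lit 2), (nat_lit 0x81e696), (nat_lit 4)⟩))))
(.nd (.nd (.nd (.nd (.lf ⟨(nat_lit 87), (nat_lit 2), (nat_lit 0x1e5c1), (nat_lit 3)⟩)
(.lf ⟨(nat_lit 0x6a4), (nat_lit 2), (nat_lit 0x91a), (nat_lit 2)⟩))
(.nd (.lf ⟨(nat_lit 0x6ec), (nat_lit 2), (nat_lit 0xb1b), (nat_lit 2)⟩)
(.lf ⟨(nat_lit 0x629), (nat_lit 2), (nat_lit 0xa58), (nat_lit 2)⟩)))
(.nd (.nd (.lf ⟨(nat_lit 729), (nat_lit 2), (nat_lit 0x65141140b), (nat_lit 6)⟩)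
(.lf ⟨(nat_lit 0x925), (nat_lit 2), (nat_lit 0x964), (nat_lit 2)⟩))
(.lf ⟨(nat_lit 13), (nat_lit 1), (nat_lit 0x7966903ce), (nat_lit 6)⟩)))
(.nd (.nd (.nd (.lf ⟨(nat_lit 982), (nat_lit 2), (nat_lit 0x58f), (nat_lit 2)⟩)
(.lf ⟨(nat_lit 0x5d0e040f15d0e040f1417438103c57438103c5), (nat_lit 26), (nat_lit 0x5d0e040f15d0e040f1417438103c57438103c5), (nat_lit 26)⟩))
(.lf ⟨(nat_lit 0x62c9db), (nat_lit 4), (nat_lit 0xb276d8), (nat_lit 4)⟩))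
(.nd (.nd (.lf ⟨(nat_lit 0x518), (nat_lit 2), (nat_lit 0x614), (nat_lit 2)⟩)
(.lf ⟨(nat_lit 0x92c), (nat_lit 2), (nat_lit 0xb24), (nat_lit 2)⟩))
(.lf ⟨(nat_lit 0xe9e2), (nat_lit 3), (nat_lit 0x1b5d689b5d63a7), (nat_lit 9)⟩)))))
(.nd (.nd (.nd (.nd (.nd (.lf ⟨(nat_lit 0x5d7), (nat_lit 2), (nat_lit 0), (nat_lit 0)⟩)
(.lf ⟨(nat_lit 131), (nat_lit 2), (nat_lit 0x200c2), (nat_lit 3)⟩))
(.nd (.lf ⟨(nat_lit 0x3d13d1), (nat_lit 4), (nat_lit 0x44f44f), (nat_lit 4)⟩)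
(.lf ⟨(nat_lit 207), (nat_lit 2), (nat_lit 0x9e285a3c3), (nat_lit 6)⟩)))
(.nd (.nd (.lf ⟨(nat_lit 289), (nat_lit 2), (nat_lit 0x844), (nat_lit 2)⟩)
(.lf ⟨(nat_lit 987), (nat_lit 2), (nat_lit 0x2189bb69862a618ada619e19ac9e68a13e9), (nat_lit 23)⟩))
(.lf ⟨(nat_lit 0x6de6de), (nat_lit 4), (nat_lit 0x79b79b), (nat_lit 4)⟩)))
(.nd (.nd (.nd (.lf ⟨(nat_lit 715), (nat_lit 2), (nat_lit 0), (nat_lit 0)⟩)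
(.lf ⟨(nat_lit 0x48103ce), (nat_lit 5), (nat_lit 0x62040f384), (nat_lit 6)⟩))
(.lf ⟨(nat_lit 604), (nat_lit 2), (nat_lit 0x28709), (nat_lit 3)⟩))
(.nd (.nd (.lf ⟨(nat_lit 221), (nat_lit 2), (nat_lit 0x743), (nat_lit 2)⟩)
(.lf ⟨(nat_lit 0x919), (nat_lit 2), (nat_lit 0xcf0cf), (nat_lit 4)⟩))
(.lf ⟨(nat_lit 0x422), (nat_lit 2), (nat_lit 0x82281b65b650), (nat_lit 8)⟩))))
(.nd (.nd (.nd (.nd (.lf ⟨(nat_lit 98), (nat_lit 2), (nat_lit 0x26881), (nat_lit 3)⟩)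
(.lf ⟨(nat_lit 0x6df6df), (nat_lit 4), (nat_lit 0x7db7db), (nat_lit 4)⟩))
(.nd (.lf ⟨(nat_lit 608), (nat_lit 2), (nat_lit 0x809), (nat_lit 2)⟩)
(.lf ⟨(nat_lit 738), (nat_lit 2), (nat_lit 0x2295f6df9db698ba296789a60b), (nat_lit 17)⟩)))
(.nd (.nd (.lf ⟨(nat_lit 10), (nat_lit 1), (nat_lit 0x102102), (nat_lit 4)⟩)
(.lf ⟨(nat_lit 330), (nat_lit 2), (nat_lit 0x246903e786240f285), (nat_lit 11)⟩))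
(.lf ⟨(nat_lit 0x6e0), (nat_lit 2), (nat_lit 0x81b), (nat_lit 2)⟩)))
(.nd (.nd (.nd (.lf ⟨(nat_lit 0x8a6), (nat_lit 2), (nat_lit 0x9a2), (nat_lit 2)⟩)
(.lf ⟨(nat_lit 0xa11d0e17592c3), (nat_lit 9), (nat_lit 0x1d0e17592c3284), (nat_lit 9)⟩))
(.lf ⟨(nat_lit 151), (nat_lit 2), (nat_lit 0x5c2), (nat_lit 2)⟩))
(.nd (.nd (.lf ⟨(nat_lit 0x1ba5d6dd), (nat_lit 5), (nat_lit 0x1d6e975b), (nat_lit 5)⟩)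
(.lf ⟨(nat_lit 0x6ac), (nat_lit 2), (nat_lit 0xb1a), (nat_lit 2)⟩))
(.lf ⟨(nat_lit 30), (nat_lit 1), (nat_lit 32), (nat_lit 1)⟩)))))))
(.nd (.nd (.nd (.nd (.nd (.nd (.nd (.lf ⟨(nat_lit 325), (nat_lit 2), (nat_lit 0), (nat_lit 0)⟩)
(.lf ⟨(nat_lit 976), (nat_lit 2), (nat_lit 0x2040f), (nat_lit 3)⟩))
(.nd (.lf ⟨(nat_lit 918), (nat_lit 2), (nat_lit 0x1d678e), (nat_lit 4)⟩)
(.lf ⟨(nat_lit 0x627922), (nat_lit 4), (nat_lit 0x9e4898), (nat_lit 4)⟩)))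
(.nd (.nd (.lf ⟨(nat_lit 343), (nat_lit 2), (nat_lit 0x5c5), (nat_lit 2)⟩)
(.lf ⟨(nat_lit 0x86d), (nat_lit 2), (nat_lit 0xb61), (nat_lit 2)⟩))
(.lf ⟨(nat_lit 159), (nat_lit 2), (nat_lit 0x7c2), (nat_lit 2)⟩)))
(.nd (.nd (.nd (.lf ⟨(nat_lit 0xb6d), (nat_lit 2), (nat_lit 0), (nat_lit 0)⟩)
(.lf ⟨(nat_lit 142), (nat_lit 2), (nat_lit 0x699382), (nat_lit 4)⟩))
(.lf ⟨(nat_lit 740), (nat_lit 2), (nat_lit 0x75091d40b), (nat_lit 6)⟩))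
(.nd (.nd (.lf ⟨(nat_lit 15), (nat_lit 1), (nat_lit 0x4a04a), (nat_lit 4)⟩)
(.lf ⟨(nat_lit 0x6e1), (nat_lit 2), (nat_lit 0x85b), (nat_lit 2)⟩))
(.lf ⟨(nat_lit 0x6de), (nat_lit 2), (nat_lit 0x79b), (nat_lit 2)⟩))))
(.nd (.nd (.nd (.nd (.lf ⟨(nat_lit 0x75d), (nat_lit 2), (nat_lit 0), (nat_lit 0)⟩)
(.lf ⟨(nat_lit 0x666), (nat_lit 2), (nat_lit 0x999), (nat_lit 2)⟩))
(.nd (.lf ⟨(nat_lit 0x1b7676dd), (nat_lit 5), (nat_lit 0x1d9db75b), (nat_lit 5)⟩)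
(.lf ⟨(nat_lit 681), (nat_lit 2), (nat_lit 0xa4a), (nat_lit 2)⟩)))
(.nd (.nd (.lf ⟨(nat_lit 0x2996d0), (nat_lit 4), (nat_lit 0x8626d940a), (nat_lit 6)⟩)
(.lf ⟨(nat_lit 675), (nat_lit 2), (nat_lit 0x60f8e17116217113ca), (nat_lit 12)⟩))
(.lf ⟨(nat_lit 930), (nat_lit 2), (nat_lit 0x79b7975a26d758e), (nat_lit 10)⟩)))
(.nd (.nd (.nd (.lf ⟨(nat_lit 283), (nat_lit 2), (nat_lit 0x6c4), (nat_lit 2)⟩)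
(.lf ⟨(nat_lit 0x8103c5), (nat_lit 4), (nat_lit 0x42042), (nat_lit 4)⟩))
(.lf ⟨(nat_lit 799), (nat_lit 2), (nat_lit 0x7cc), (nat_lit 2)⟩))
(.nd (.nd (.lf ⟨(nat_lit 0x16fb27), (nat_lit 4), (nat_lit 0x38db271ce345), (nat_lit 8)⟩)
(.lf ⟨(nat_lit 0x24b27), (nat_lit 3), (nat_lit 0x2c9e4), (nat_lit 3)⟩))
(.lf ⟨(nat_lit 0xf6d0), (nat_lit 3), (nat_lit 0x7903db), (nat_lit 4)⟩)))))
(.nd (.nd (.nd (.nd (.nd (.lf ⟨(nat_lit 0x514), (nat_lit 2), (nat_lit 0), (nat_lit 0)⟩)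
(.lf ⟨(nat_lit 675), (nat_lit 2), (nat_lit 0x60f8dc75160f75c3d13ca), (nat_lit 14)⟩))
(.nd (.lf ⟨(nat_lit 0x61e), (nat_lit 2), (nat_lit 0x798), (nat_lit 2)⟩)
(.lf ⟨(nat_lit 0x61b), (nat_lit 2), (nat_lit 0xa67a676d8), (nat_lit 6)⟩)))
(.nd (.nd (.lf ⟨(nat_lit 100), (nat_lit 2), (nat_lit 0x901), (nat_lit 2)⟩)
(.lf ⟨(nat_lit 0x1885b), (nat_lit 3), (nat_lit 0x9dba617ea7dba619db621), (nat_lit 14)⟩))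
(.lf ⟨(nat_lit 726), (nat_lit 2), (nat_lit 0x45639138b), (nat_lit 6)⟩)))
(.nd (.nd (.nd (.lf ⟨(nat_lit 73), (nat_lit 2), (nat_lit 577), (nat_lit 2)⟩)
(.lf ⟨(nat_lit 161), (nat_lit 2), (nat_lit 0x842), (nat_lit 2)⟩))
(.lf ⟨(nat_lit 927), (nat_lit 2), (nat_lit 0x759e60761679a41869095f60759e60761678e), (nat_lit 25)⟩))
(.nd (.nd (.lf ⟨(nat_lit 0), (nat_lit 0), (nat_lit 715), (nat_lit 2)⟩)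
(.lf ⟨(nat_lit 0x102a23242a232440a88c90a88c9), (nat_lit 18), (nat_lit 0x102a23242a232440a88c90a88c9), (nat_lit 18)⟩))
(.lf ⟨(nat_lit 615), (nat_lit 2), (nat_lit 0x9c9), (nat_lit 2)⟩))))
(.nd (.nd (.nd (.nd (.lf ⟨(nat_lit 93), (nat_lit 2), (nat_lit 0x24741), (nat_lit 3)⟩)
(.lf ⟨(nat_lit 66), (nat_lit 2), (nat_lit 0x195d03c5081), (nat_lit 7)⟩))
(.nd (.lf ⟨(nat_lit 0x6e1), (nat_lit 2), (nat_lit 0x9e286789b), (nat_lit 6)⟩)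
(.lf ⟨(nat_lit 0x24084), (nat_lit 3), (nat_lit 0xb69284902), (nat_lit 6)⟩)))
(.nd (.nd (.lf ⟨(nat_lit 0), (nat_lit 0), (nat_lit 585), (nat_lit 2)⟩)
(.lf ⟨(nat_lit 609), (nat_lit 2), (nat_lit 0x9216273e790fb257db7d86c9), (nat_lit 16)⟩))
(.lf ⟨(nat_lit 727), (nat_lit 2), (nat_lit 0x69768b), (nat_lit 4)⟩)))
(.nd (.nd (.nd (.lf ⟨(nat_lit 0x6e2), (nat_lit 2), (nat_lit 0x89b), (nat_lit 2)⟩)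
(.lf ⟨(nat_lit 0x14314a1052840c528414a1050c528414a10314a105284), (nat_lit 30), (nat_lit 0x14314a1052840c528414a1050c528414a10314a105284), (nat_lit 30)⟩))
(.lf ⟨(nat_lit 0x5c7), (nat_lit 2), (nat_lit 471), (nat_lit 2)⟩))
(.nd (.nd (.lf ⟨(nat_lit 0x45ba5d), (nat_lit 4), (nat_lit 0x6e975b45b), (nat_lit 6)⟩)
(.lf ⟨(nat_lit 0x66a), (nat_lit 2), (nat_lit 0x86a961959), (nat_lit 6)⟩))
(.lf ⟨(nat_lit 133), (nat_lit 2), (nat_lit 0x20697142), (nat_lit 5)⟩))))))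
(.nd (.nd (.nd (.nd (.nd (.nd (.lf ⟨(nat_lit 202), (nat_lit 2), (nat_lit 0xc283), (nat_lit 3)⟩)
(.lf ⟨(nat_lit 224), (nat_lit 2), (nat_lit 0x803), (nat_lit 2)⟩))
(.nd (.lf ⟨(nat_lit 663), (nat_lit 2), (nat_lit 0x5cf30f30a), (nat_lit 6)⟩)
(.lf ⟨(nat_lit 668), (nat_lit 2), (nat_lit 0x70a), (nat_lit 2)⟩)))
(.nd (.nd (.lf ⟨(nat_lit 152), (nat_lit 2), (nat_lit 0x602), (nat_lit 2)⟩)
(.lf ⟨(nat_lit 676), (nat_lit 2), (nat_lit 0x84f9213ca), (nat_lit 6)⟩))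
(.lf ⟨(nat_lit 921), (nat_lit 2), (nat_lit 0x79759979a5d668e), (nat_lit 10)⟩)))
(.nd (.nd (.nd (.lf ⟨(nat_lit 197), (nat_lit 2), (nat_lit 323), (nat_lit 2)⟩)
(.lf ⟨(nat_lit 202), (nat_lit 2), (nat_lit 0x19283), (nat_lit 3)⟩))
(.lf ⟨(nat_lit 287), (nat_lit 2), (nat_lit 0x7d87676d8a5d6c4), (nat_lit 10)⟩))
(.nd (.nd (.lf ⟨(nat_lit 0x460), (nat_lit 2), (nat_lit 0x811), (nat_lit 2)⟩)
(.lf ⟨(nat_lit 930), (nat_lit 2), (nat_lit 0x6da89b68e), (nat_lit 6)⟩))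
(.lf ⟨(nat_lit 164), (nat_lit 2), (nat_lit 0x79d81e69640f16479d81e69640f142), (nat_lit 20)⟩))))
(.nd (.nd (.nd (.nd (.lf ⟨(nat_lit 89), (nat_lit 2), (nat_lit 0x20641), (nat_lit 3)⟩)
(.lf ⟨(nat_lit 0x176da), (nat_lit 3), (nat_lit 0x1b7db6976df), (nat_lit 7)⟩))
(.nd (.lf ⟨(nat_lit 675), (nat_lit 2), (nat_lit 0x60f8dc75160f7513dc44f44a), (nat_lit 16)⟩)
(.lf ⟨(nat_lit 0xa2324f), (nat_lit 4), (nat_lit 0x3e88c9), (nat_lit 4)⟩)))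
(.nd (.nd (.lf ⟨(nat_lit 670), (nat_lit 2), (nat_lit 0x78a), (nat_lit 2)⟩)
(.lf ⟨(nat_lit 0x422), (nat_lit 2), (nat_lit 0x9e19e2850), (nat_lit 6)⟩))
(.lf ⟨(nat_lit 0x59e), (nat_lit 2), (nat_lit 0x796), (nat_lit 2)⟩)))
(.nd (.nd (.nd (.lf ⟨(nat_lit 0x41a), (nat_lit 2), (nat_lit 0x690), (nat_lit 2)⟩)
(.lf ⟨(nat_lit 228), (nat_lit 2), (nat_lit 0x91d15d143), (nat_lit 6)⟩))
(.lf ⟨(nat_lit 342), (nat_lit 2), (nat_lit 0x585), (nat_lit 2)⟩))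
(.nd (.nd (.lf ⟨(nat_lit 617), (nat_lit 2), (nat_lit 0xa49), (nat_lit 2)⟩)
(.lf ⟨(nat_lit 995), (nat_lit 2), (nat_lit 0x62371870f), (nat_lit 6)⟩))
(.lf ⟨(nat_lit 0x41f), (nat_lit 2), (nat_lit 0x6df6d0), (nat_lit 4)⟩)))))
(.nd (.nd (.nd (.nd (.nd (.lf ⟨(nat_lit 0x659), (nat_lit 2), (nat_lit 0), (nat_lit 0)⟩)
(.lf ⟨(nat_lit 0x825), (nat_lit 2), (nat_lit 0x960), (nat_lit 2)⟩))
(.nd (.lf ⟨(nat_lit 226), (nat_lit 2), (nat_lit 0x8876c76c3), (nat_lit 6)⟩)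
(.lf ⟨(nat_lit 999), (nat_lit 2), (nat_lit 0x9cf), (nat_lit 2)⟩)))
(.nd (.nd (.lf ⟨(nat_lit 206), (nat_lit 2), (nat_lit 899), (nat_lit 2)⟩)
(.lf ⟨(nat_lit 8), (nat_lit 1), (nat_lit 0x9103c5), (nat_lit 4)⟩))
(.lf ⟨(nat_lit 0x7a0), (nat_lit 2), (nat_lit 0x81e), (nat_lit 2)⟩)))
(.nd (.nd (.nd (.lf ⟨(nat_lit 0x3c13c1), (nat_lit 4), (nat_lit 0), (nat_lit 0)⟩)
(.lf ⟨(nat_lit 0x14a14a), (nat_lit 4), (nat_lit 0x14a14a), (nat_lit 4)⟩))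
(.lf ⟨(nat_lit 976), (nat_lit 2), (nat_lit 0x1680769679a40f), (nat_lit 9)⟩))
(.nd (.nd (.lf ⟨(nat_lit 7), (nat_lit 1), (nat_lit 0x471811c6), (nat_lit 6)⟩)
(.lf ⟨(nat_lit 645), (nat_lit 2), (nat_lit 0x92466414a), (nat_lit 6)⟩))
(.lf ⟨(nat_lit 921), (nat_lit 2), (nat_lit 0x5d665a5e079a58e), (nat_lit 10)⟩))))
(.nd (.nd (.nd (.nd (.lf ⟨(nat_lit 99), (nat_lit 2), (nat_lit 0x288c1), (nat_lit 3)⟩)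
(.lf ⟨(nat_lit 0x664), (nat_lit 2), (nat_lit 0x919), (nat_lit 2)⟩))
(.nd (.lf ⟨(nat_lit 486), (nat_lit 2), (nat_lit 0x987), (nat_lit 2)⟩)
(.lf ⟨(nat_lit 287), (nat_lit 2), (nat_lit 0x7e9627604), (nat_lit 6)⟩)))
(.nd (.nd (.lf ⟨(nat_lit 26), (nat_lit 1), (nat_lit 0xd00d0), (nat_lit 4)⟩)
(.lf ⟨(nat_lit 743), (nat_lit 2), (nat_lit 0x9e286284b), (nat_lit 6)⟩))
(.lf ⟨(nat_lit 0x5e5), (nat_lit 2), (nat_lit 0x957), (nat_lit 2)⟩)))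
(.nd (.nd (.nd (.lf ⟨(nat_lit 0x9ab), (nat_lit 2), (nat_lit 0xae6), (nat_lit 2)⟩)
(.lf ⟨(nat_lit 0x864), (nat_lit 2), (nat_lit 0x921), (nat_lit 2)⟩))
(.lf ⟨(nat_lit 12), (nat_lit 1), (nat_lit 0x797), (nat_lit 2)⟩))
(.nd (.nd (.lf ⟨(nat_lit 911), (nat_lit 2), (nat_lit 0x1e3ce), (nat_lit 3)⟩)
(.lf ⟨(nat_lit 0x3e9), (nat_lit 2), (nat_lit 0x27a5b7ea7e76cf), (nat_lit 9)⟩))
(.lf ⟨(nat_lit 164), (nat_lit 2), (nat_lit 0x81d40f16481d40f142), (nat_lit 12)⟩))))))))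
(.nd (.nd (.nd (.nd (.nd (.nd (.nd (.nd (.lf ⟨(nat_lit 195), (nat_lit 2), (nat_lit 0), (nat_lit 0)⟩)
(.lf ⟨(nat_lit 0xf6d0), (nat_lit 3), (nat_lit 0x8103db), (nat_lit 4)⟩))
(.nd (.lf ⟨(nat_lit 0x51d), (nat_lit 2), (nat_lit 0x754), (nat_lit 2)⟩)
(.lf ⟨(nat_lit 38), (nat_lit 1), (nat_lit 44), (nat_lit 1)⟩)))
(.nd (.nd (.lf ⟨(nat_lit 651), (nat_lit 2), (nat_lit 0x1d2ca), (nat_lit 3)⟩)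
(.lf ⟨(nat_lit 0x721), (nat_lit 2), (nat_lit 0x85c), (nat_lit 2)⟩))
(.lf ⟨(nat_lit 0x5dd), (nat_lit 2), (nat_lit 0x79d797), (nat_lit 4)⟩)))
(.nd (.nd (.nd (.lf ⟨(nat_lit 0xb2c), (nat_lit 2), (nat_lit 0), (nat_lit 0)⟩)
(.lf ⟨(nat_lit 0x65d), (nat_lit 2), (nat_lit 0x759), (nat_lit 2)⟩))
(.lf ⟨(nat_lit 728), (nat_lit 2), (nat_lit 0x7676d8a5d6cb), (nat_lit 8)⟩))
(.nd (.nd (.lf ⟨(nat_lit 0x418418), (nat_lit 4), (nat_lit 0x610610), (nat_lit 4)⟩)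
(.lf ⟨(nat_lit 0x1b69440e699), (nat_lit 7), (nat_lit 0x1a65b69440e), (nat_lit 7)⟩))
(.lf ⟨(nat_lit 0x189db), (nat_lit 3), (nat_lit 0x276d8), (nat_lit 3)⟩))))
(.nd (.nd (.nd (.nd (.lf ⟨(nat_lit 0x71c), (nat_lit 2), (nat_lit 0), (nat_lit 0)⟩)
(.lf ⟨(nat_lit 0x425), (nat_lit 2), (nat_lit 0x950), (nat_lit 2)⟩))
(.nd (.lf ⟨(nat_lit 0x591d15d), (nat_lit 5), (nat_lit 0x1d164745), (nat_lit 5)⟩)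
(.lf ⟨(nat_lit 25), (nat_lit 1), (nat_lit 0x2792285a), (nat_lit 5)⟩)))
(.nd (.nd (.lf ⟨(nat_lit 336), (nat_lit 2), (nat_lit 0x405), (nat_lit 2)⟩)
(.lf ⟨(nat_lit 911), (nat_lit 2), (nat_lit 0x243ce), (nat_lit 3)⟩))
(.lf ⟨(nat_lit 209), (nat_lit 2), (nat_lit 0x71169769045650e71445a5da41158e443), (nat_lit 22)⟩)))
(.nd (.nd (.nd (.lf ⟨(nat_lit 218), (nat_lit 2), (nat_lit 0x683), (nat_lit 2)⟩)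
(.lf ⟨(nat_lit 0x743743), (nat_lit 4), (nat_lit 0), (nat_lit 0)⟩))
(.lf ⟨(nat_lit 0x662), (nat_lit 2), (nat_lit 0x822819), (nat_lit 4)⟩))
(.nd (.nd (.lf ⟨(nat_lit 330), (nat_lit 2), (nat_lit 0x39634a1ce345), (nat_lit 8)⟩)
(.lf ⟨(nat_lit 0x1fa9f9e4), (nat_lit 5), (nat_lit 0x299e49e97ea7e7), (nat_lit 9)⟩))
(.lf ⟨(nat_lit 209), (nat_lit 2), (nat_lit 0x71745045650e71751141158e443), (nat_lit 18)⟩)))))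
(.nd (.nd (.nd (.nd (.nd (.lf ⟨(nat_lit 0x451), (nat_lit 2), (nat_lit 0), (nat_lit 0)⟩)
(.lf ⟨(nat_lit 911), (nat_lit 2), (nat_lit 0x203ce), (nat_lit 3)⟩))
(.nd (.lf ⟨(nat_lit 606), (nat_lit 2), (nat_lit 0x789), (nat_lit 2)⟩)
(.lf ⟨(nat_lit 202), (nat_lit 2), (nat_lit 0x2792285a283), (nat_lit 7)⟩)))
(.nd (.nd (.lf ⟨(nat_lit 730), (nat_lit 2), (nat_lit 0x68b), (nat_lit 2)⟩)
(.lf ⟨(nat_lit 0x629), (nat_lit 2), (nat_lit 0x2286789b7ea7e98676d8), (nat_lit 13)⟩))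
(.lf ⟨(nat_lit 607), (nat_lit 2), (nat_lit 0x257c9), (nat_lit 3)⟩)))
(.nd (.nd (.nd (.lf ⟨(nat_lit 590), (nat_lit 2), (nat_lit 905), (nat_lit 2)⟩)
(.lf ⟨(nat_lit 656), (nat_lit 2), (nat_lit 0x228676d96d940a), (nat_lit 9)⟩))
(.lf ⟨(nat_lit 0x41e), (nat_lit 2), (nat_lit 0x790), (nat_lit 2)⟩))
(.nd (.nd (.lf ⟨(nat_lit 0x414), (nat_lit 2), (nat_lit 0x510), (nat_lit 2)⟩)
(.lf ⟨(nat_lit 0x9c042701), (nat_lit 6), (nat_lit 0x9c042701), (nat_lit 6)⟩))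
(.lf ⟨(nat_lit 288), (nat_lit 2), (nat_lit 0x860261244), (nat_lit 6)⟩))))
(.nd (.nd (.nd (.nd (.lf ⟨(nat_lit 284), (nat_lit 2), (nat_lit 0x23704), (nat_lit 3)⟩)
(.lf ⟨(nat_lit 0x810a040f1428103c50428103c50a040f1420428103c50a040f1410a040f1428103c5), (nat_lit 46), (nat_lit 0x810a040f1428103c50428103c50a040f1420428103c50a040f1410a040f1428103c5), (nat_lit 46)⟩))
(.nd (.lf ⟨(nat_lit 0x525), (nat_lit 2), (nat_lit 0x954), (nat_lit 2)⟩)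
(.lf ⟨(nat_lit 0), (nat_lit 0), (nat_lit 0x9022a408a), (nat_lit 6)⟩)))
(.nd (.nd (.lf ⟨(nat_lit 5), (nat_lit 1), (nat_lit 0x43043), (nat_lit 4)⟩)
(.lf ⟨(nat_lit 930), (nat_lit 2), (nat_lit 0x6da8a19e286789b68e), (nat_lit 12)⟩))
(.lf ⟨(nat_lit 0x821), (nat_lit 2), (nat_lit 0x860), (nat_lit 2)⟩)))
(.nd (.nd (.nd (.lf ⟨(nat_lit 0x660), (nat_lit 2), (nat_lit 0x819), (nat_lit 2)⟩)
(.lf ⟨(nat_lit 0xc528414a10314a105284), (nat_lit 14), (nat_lit 0xc528414a10314a105284), (nat_lit 14)⟩))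
(.lf ⟨(nat_lit 18), (nat_lit 1), (nat_lit 7), (nat_lit 1)⟩))
(.nd (.nd (.lf ⟨(nat_lit 0x42c), (nat_lit 2), (nat_lit 0xb10), (nat_lit 2)⟩)
(.lf ⟨(nat_lit 0x619), (nat_lit 2), (nat_lit 0x658), (nat_lit 2)⟩))
(.lf ⟨(nat_lit 142), (nat_lit 2), (nat_lit 0x20697382), (nat_lit 5)⟩))))))
(.nd (.nd (.nd (.nd (.nd (.nd (.lf ⟨(nat_lit 715), (nat_lit 2), (nat_lit 0), (nat_lit 0)⟩)
(.lf ⟨(nat_lit 988), (nat_lit 2), (nat_lit 0x70f), (nat_lit 2)⟩))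
(.nd (.lf ⟨(nat_lit 0x529), (nat_lit 2), (nat_lit 0xa54), (nat_lit 2)⟩)
(.lf ⟨(nat_lit 0x8ac), (nat_lit 2), (nat_lit 0xb22), (nat_lit 2)⟩)))
(.nd (.nd (.lf ⟨(nat_lit 722), (nat_lit 2), (nat_lit 0x41231030b), (nat_lit 6)⟩)
(.lf ⟨(nat_lit 0x421), (nat_lit 2), (nat_lit 0x850), (nat_lit 2)⟩))
(.lf ⟨(nat_lit 0x7a4), (nat_lit 2), (nat_lit 0x91e), (nat_lit 2)⟩)))
(.nd (.nd (.nd (.lf ⟨(nat_lit 130), (nat_lit 2), (nat_lit 0), (nat_lit 0)⟩)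
(.lf ⟨(nat_lit 0xe9e2), (nat_lit 3), (nat_lit 0x1b6a265b6993a7), (nat_lit 9)⟩))
(.lf ⟨(nat_lit 228), (nat_lit 2), (nat_lit 0x74591d143), (nat_lit 6)⟩))
(.nd (.nd (.lf ⟨(nat_lit 0x41c), (nat_lit 2), (nat_lit 0x710), (nat_lit 2)⟩)
(.lf ⟨(nat_lit 0x422), (nat_lit 2), (nat_lit 0x890), (nat_lit 2)⟩))
(.lf ⟨(nat_lit 8), (nat_lit 1), (nat_lit 0x81a5903c5), (nat_lit 6)⟩))))
(.nd (.nd (.nd (.nd (.lf ⟨(nat_lit 216), (nat_lit 2), (nat_lit 0x1f603), (nat_lit 3)⟩)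
(.lf ⟨(nat_lit 0x69f), (nat_lit 2), (nat_lit 0x7da), (nat_lit 2)⟩))
(.nd (.lf ⟨(nat_lit 0x119e26dd), (nat_lit 5), (nat_lit 0x276dd6d189b), (nat_lit 7)⟩)
(.lf ⟨(nat_lit 15), (nat_lit 1), (nat_lit 0x70129c04a), (nat_lit 6)⟩)))
(.nd (.nd (.lf ⟨(nat_lit 0x420), (nat_lit 2), (nat_lit 0x810), (nat_lit 2)⟩)
(.lf ⟨(nat_lit 0x92d), (nat_lit 2), (nat_lit 0xb64), (nat_lit 2)⟩))
(.lf ⟨(nat_lit 137), (nat_lit 2), (nat_lit 0x7966903ce242), (nat_lit 8)⟩)))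
(.nd (.nd (.nd (.lf ⟨(nat_lit 984), (nat_lit 2), (nat_lit 0x60f), (nat_lit 2)⟩)
(.lf ⟨(nat_lit 0x91d15d91d15d), (nat_lit 8), (nat_lit 0), (nat_lit 0)⟩))
(.lf ⟨(nat_lit 0x5c7), (nat_lit 2), (nat_lit 471), (nat_lit 2)⟩))
(.nd (.nd (.lf ⟨(nat_lit 0x625), (nat_lit 2), (nat_lit 0x958), (nat_lit 2)⟩)
(.lf ⟨(nat_lit 0x7e2), (nat_lit 2), (nat_lit 0x89f), (nat_lit 2)⟩))
(.lf ⟨(nat_lit 985), (nat_lit 2), (nat_lit 0x81e69765a5cf), (nat_lit 8)⟩)))))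
(.nd (.nd (.nd (.nd (.nd (.lf ⟨(nat_lit 0x618), (nat_lit 2), (nat_lit 0), (nat_lit 0)⟩)
(.lf ⟨(nat_lit 0x824), (nat_lit 2), (nat_lit 0x920), (nat_lit 2)⟩))
(.nd (.lf ⟨(nat_lit 0xb58c), (nat_lit 3), (nat_lit 0x1158c5912d6), (nat_lit 7)⟩)
(.lf ⟨(nat_lit 0x629), (nat_lit 2), (nat_lit 0x9e99e99e99d8), (nat_lit 8)⟩)))
(.nd (.nd (.lf ⟨(nat_lit 735), (nat_lit 2), (nat_lit 0x7cb), (nat_lit 2)⟩)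
(.lf ⟨(nat_lit 231), (nat_lit 2), (nat_lit 0x7d8ba985ba9f8a19e26dfa9fa619db6219db6219e985fa9f6e98676d8843), (nat_lit 40)⟩))
(.lf ⟨(nat_lit 0x10616), (nat_lit 3), (nat_lit 0x1a59a418), (nat_lit 5)⟩)))
(.nd (.nd (.nd (.lf ⟨(nat_lit 585), (nat_lit 2), (nat_lit 0), (nat_lit 0)⟩)
(.lf ⟨(nat_lit 0x699), (nat_lit 2), (nat_lit 0x142142), (nat_lit 4)⟩))
(.lf ⟨(nat_lit 0x416), (nat_lit 2), (nat_lit 0x1da59e690), (nat_lit 6)⟩))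
(.nd (.nd (.lf ⟨(nat_lit 203), (nat_lit 2), (nat_lit 707), (nat_lit 2)⟩)
(.lf ⟨(nat_lit 36), (nat_lit 1), (nat_lit 0x64641919), (nat_lit 6)⟩))
(.lf ⟨(nat_lit 734), (nat_lit 2), (nat_lit 0x78b), (nat_lit 2)⟩))))
(.nd (.nd (.nd (.nd (.lf ⟨(nat_lit 290), (nat_lit 2), (nat_lit 0x27884), (nat_lit 3)⟩)
(.lf ⟨(nat_lit 0x619619), (nat_lit 4), (nat_lit 0x658658), (nat_lit 4)⟩))
(.nd (.lf ⟨(nat_lit 0x5a4), (nat_lit 2), (nat_lit 0x916), (nat_lit 2)⟩)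
(.lf ⟨(nat_lit 0xa6c), (nat_lit 2), (nat_lit 0xb29), (nat_lit 2)⟩)))
(.nd (.nd (.lf ⟨(nat_lit 0x747), (nat_lit 2), (nat_lit 477), (nat_lit 2)⟩)
(.lf ⟨(nat_lit 32), (nat_lit 1), (nat_lit 36), (nat_lit 1)⟩))
(.lf ⟨(nat_lit 0x4186a5), (nat_lit 4), (nat_lit 0x6a569061a), (nat_lit 6)⟩)))
(.nd (.nd (.nd (.lf ⟨(nat_lit 0x929), (nat_lit 2), (nat_lit 0xa64), (nat_lit 2)⟩)
(.lf ⟨(nat_lit 273), (nat_lit 2), (nat_lit 0x21444), (nat_lit 3)⟩))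
(.lf ⟨(nat_lit 21), (nat_lit 1), (nat_lit 0x1e5d6), (nat_lit 3)⟩))
(.nd (.nd (.lf ⟨(nat_lit 489), (nat_lit 2), (nat_lit 0xa47), (nat_lit 2)⟩)
(.lf ⟨(nat_lit 0x1fa9f9e1), (nat_lit 5), (nat_lit 0x217ea7e7), (nat_lit 5)⟩))
(.lf ⟨(nat_lit 8), (nat_lit 1), (nat_lit 0x8103c5), (nat_lit 4)⟩)))))))
(.nd (.nd (.nd (.nd (.nd (.nd (.nd (.lf ⟨(nat_lit 585), (nat_lit 2), (nat_lit 0), (nat_lit 0)⟩)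
(.lf ⟨(nat_lit 0xe9e2), (nat_lit 3), (nat_lit 0x1b69789b6973a7), (nat_lit 9)⟩))
(.nd (.lf ⟨(nat_lit 920), (nat_lit 2), (nat_lit 0x69441869440e), (nat_lit 8)⟩)
(.lf ⟨(nat_lit 977), (nat_lit 2), (nat_lit 0x44f), (nat_lit 2)⟩)))
(.nd (.nd (.lf ⟨(nat_lit 600), (nat_lit 2), (nat_lit 0x609), (nat_lit 2)⟩)
(.lf ⟨(nat_lit 745), (nat_lit 2), (nat_lit 0x85ba616cb), (nat_lit 6)⟩))
(.lf ⟨(nat_lit 6), (nat_lit 1), (nat_lit 0x1e5d6), (nat_lit 3)⟩)))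
(.nd (.nd (.nd (.lf ⟨(nat_lit 0xbae), (nat_lit 2), (nat_lit 0), (nat_lit 0)⟩)
(.lf ⟨(nat_lit 133), (nat_lit 2), (nat_lit 0x699142), (nat_lit 4)⟩))
(.lf ⟨(nat_lit 738), (nat_lit 2), (nat_lit 0x6d189b44b), (nat_lit 6)⟩))
(.nd (.nd (.lf ⟨(nat_lit 278), (nat_lit 2), (nat_lit 0x584), (nat_lit 2)⟩)
(.lf ⟨(nat_lit 0x65b), (nat_lit 2), (nat_lit 0x6d9), (nat_lit 2)⟩))
(.lf ⟨(nat_lit 0xe45b), (nat_lit 3), (nat_lit 0x6a76d061a42e9db61d7db7d869061a41d391), (nat_lit 24)⟩))))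
(.nd (.nd (.nd (.nd (.lf ⟨(nat_lit 455), (nat_lit 2), (nat_lit 0), (nat_lit 0)⟩)
(.lf ⟨(nat_lit 143), (nat_lit 2), (nat_lit 0x1a3c2), (nat_lit 3)⟩))
(.nd (.lf ⟨(nat_lit 0x9859), (nat_lit 3), (nat_lit 0x819261), (nat_lit 4)⟩)
(.lf ⟨(nat_lit 728), (nat_lit 2), (nat_lit 0xb29b2760b), (nat_lit 6)⟩)))
(.nd (.nd (.lf ⟨(nat_lit 603), (nat_lit 2), (nat_lit 0x6c9), (nat_lit 2)⟩)
(.lf ⟨(nat_lit 7), (nat_lit 1), (nat_lit 36), (nat_lit 1)⟩))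
(.lf ⟨(nat_lit 927), (nat_lit 2), (nat_lit 0x1a41869095f60e), (nat_lit 9)⟩)))
(.nd (.nd (.nd (.lf ⟨(nat_lit 916), (nat_lit 2), (nat_lit 0x50e), (nat_lit 2)⟩)
(.lf ⟨(nat_lit 0x7438103c57438103c5), (nat_lit 12), (nat_lit 0x7438103c57438103c5), (nat_lit 12)⟩))
(.lf ⟨(nat_lit 0xf9deb27), (nat_lit 5), (nat_lit 0x277ac9de9cf9de), (nat_lit 9)⟩))
(.nd (.nd (.lf ⟨(nat_lit 164), (nat_lit 2), (nat_lit 0x1dd38d1641dd38d142), (nat_lit 12)⟩)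
(.lf ⟨(nat_lit 0xfa67), (nat_lit 3), (nat_lit 0x21b22b698a98ada619ac9e688f), (nat_lit 17)⟩))
(.lf ⟨(nat_lit 976), (nat_lit 2), (nat_lit 0x1e40f), (nat_lit 3)⟩)))))
(.nd (.nd (.nd (.nd (.nd (.lf ⟨(nat_lit 0x596), (nat_lit 2), (nat_lit 0), (nat_lit 0)⟩)
(.lf ⟨(nat_lit 7), (nat_lit 1), (nat_lit 32), (nat_lit 1)⟩))
(.nd (.lf ⟨(nat_lit 0x44a44a), (nat_lit 4), (nat_lit 0), (nat_lit 0)⟩)
(.lf ⟨(nat_lit 287), (nat_lit 2), (nat_lit 0x7d88a16eda67a67b699e285b604), (nat_lit 18)⟩)))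
(.nd (.nd (.lf ⟨(nat_lit 160), (nat_lit 2), (nat_lit 0x802), (nat_lit 2)⟩)
(.lf ⟨(nat_lit 749), (nat_lit 2), (nat_lit 0x85ba616d189bb6986786789b44b), (nat_lit 18)⟩))
(.lf ⟨(nat_lit 226), (nat_lit 2), (nat_lit 0x89e6de6c3), (nat_lit 6)⟩)))
(.nd (.nd (.nd (.lf ⟨(nat_lit 203), (nat_lit 2), (nat_lit 707), (nat_lit 2)⟩)
(.lf ⟨(nat_lit 0xe9e2), (nat_lit 3), (nat_lit 0x1b6a26df6da65b7d93a7), (nat_lit 13)⟩))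
(.lf ⟨(nat_lit 937), (nat_lit 2), (nat_lit 0xba975b69061a5107d86df7676d8b9a6276d851061a40e), (nat_lit 30)⟩))
(.nd (.nd (.lf ⟨(nat_lit 0x1b69440e), (nat_lit 5), (nat_lit 0x144144), (nat_lit 4)⟩)
(.lf ⟨(nat_lit 25), (nat_lit 1), (nat_lit 0xca0ca), (nat_lit 4)⟩))
(.lf ⟨(nat_lit 287), (nat_lit 2), (nat_lit 0x7d87626eda5d8a9762b697626dd9d8744), (nat_lit 22)⟩))))
(.nd (.nd (.nd (.nd (.lf ⟨(nat_lit 95), (nat_lit 2), (nat_lit 0x257c1), (nat_lit 3)⟩)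
(.lf ⟨(nat_lit 207), (nat_lit 2), (nat_lit 0x8193c3), (nat_lit 4)⟩))
(.nd (.lf ⟨(nat_lit 749), (nat_lit 2), (nat_lit 0x75189bb697626dd6e975b44b), (nat_lit 16)⟩)
(.lf ⟨(nat_lit 0x9e9), (nat_lit 2), (nat_lit 0xa67), (nat_lit 2)⟩)))
(.nd (.nd (.lf ⟨(nat_lit 0), (nat_lit 0), (nat_lit 260), (nat_lit 2)⟩)
(.lf ⟨(nat_lit 225), (nat_lit 2), (nat_lit 0x843), (nat_lit 2)⟩))
(.lf ⟨(nat_lit 672), (nat_lit 2), (nat_lit 0x84f8603ca), (nat_lit 6)⟩)))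
(.nd (.nd (.nd (.lf ⟨(nat_lit 0x764), (nat_lit 2), (nat_lit 0x91d), (nat_lit 2)⟩)
(.lf ⟨(nat_lit 0x3284), (nat_lit 3), (nat_lit 0x74385d64b0ca103), (nat_lit 10)⟩))
(.lf ⟨(nat_lit 0x59e), (nat_lit 2), (nat_lit 470), (nat_lit 2)⟩))
(.nd (.nd (.lf ⟨(nat_lit 0x76d), (nat_lit 2), (nat_lit 0xb5d), (nat_lit 2)⟩)
(.lf ⟨(nat_lit 0x462), (nat_lit 2), (nat_lit 0x891), (nat_lit 2)⟩))
(.lf ⟨(nat_lit 0x69f), (nat_lit 2), (nat_lit 0x81f81a), (nat_lit 4)⟩))))))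
(.nd (.nd (.nd (.nd (.nd (.nd (.lf ⟨(nat_lit 975), (nat_lit 2), (nat_lit 0), (nat_lit 0)⟩)
(.lf ⟨(nat_lit 993), (nat_lit 2), (nat_lit 0x84f), (nat_lit 2)⟩))
(.nd (.lf ⟨(nat_lit 991), (nat_lit 2), (nat_lit 0x6177d85cf), (nat_lit 6)⟩)
(.lf ⟨(nat_lit 0x865), (nat_lit 2), (nat_lit 0x9e29678a1), (nat_lit 6)⟩)))
(.nd (.nd (.lf ⟨(nat_lit 90), (nat_lit 2), (nat_lit 0x681), (nat_lit 2)⟩)
(.lf ⟨(nat_lit 0x463), (nat_lit 2), (nat_lit 0x8d1), (nat_lit 2)⟩))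
(.lf ⟨(nat_lit 0x7a5), (nat_lit 2), (nat_lit 0x95e), (nat_lit 2)⟩)))
(.nd (.nd (.nd (.lf ⟨(nat_lit 260), (nat_lit 2), (nat_lit 0), (nat_lit 0)⟩)
(.lf ⟨(nat_lit 0x196da), (nat_lit 3), (nat_lit 0x1b7db6996df), (nat_lit 7)⟩))
(.lf ⟨(nat_lit 0x464), (nat_lit 2), (nat_lit 0x91d71d711), (nat_lit 6)⟩))
(.nd (.nd (.lf ⟨(nat_lit 0x51a), (nat_lit 2), (nat_lit 0x694), (nat_lit 2)⟩)
(.lf ⟨(nat_lit 0), (nat_lit 0), (nat_lit 0x2e42e4), (nat_lit 4)⟩))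
(.lf ⟨(nat_lit 681), (nat_lit 2), (nat_lit 0x1d9db75fa9fa5d9db61d60a), (nat_lit 15)⟩))))
(.nd (.nd (.nd (.nd (.lf ⟨(nat_lit 281), (nat_lit 2), (nat_lit 0x21644), (nat_lit 3)⟩)
(.lf ⟨(nat_lit 0x195d03c5), (nat_lit 5), (nat_lit 0x42042), (nat_lit 4)⟩))
(.nd (.lf ⟨(nat_lit 480), (nat_lit 2), (nat_lit 0x807), (nat_lit 2)⟩)
(.lf ⟨(nat_lit 675), (nat_lit 2), (nat_lit 0x8dc62371162344a), (nat_lit 10)⟩)))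
(.nd (.nd (.lf ⟨(nat_lit 212), (nat_lit 2), (nat_lit 0x503), (nat_lit 2)⟩)
(.lf ⟨(nat_lit 0x45b), (nat_lit 2), (nat_lit 0x257db7e7698ba76d88659e286789b691), (nat_lit 21)⟩))
(.lf ⟨(nat_lit 97), (nat_lit 2), (nat_lit 0x21801), (nat_lit 3)⟩)))
(.nd (.nd (.nd (.lf ⟨(nat_lit 0x45c), (nat_lit 2), (nat_lit 0x711), (nat_lit 2)⟩)
(.lf ⟨(nat_lit 0), (nat_lit 0), (nat_lit 0xc50c5), (nat_lit 4)⟩))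
(.lf ⟨(nat_lit 151), (nat_lit 2), (nat_lit 0x5c2), (nat_lit 2)⟩))
(.nd (.nd (.lf ⟨(nat_lit 656), (nat_lit 2), (nat_lit 0xf91d40f74f2cf2ca), (nat_lit 11)⟩)
(.lf ⟨(nat_lit 0x621), (nat_lit 2), (nat_lit 0x858), (nat_lit 2)⟩))
(.lf ⟨(nat_lit 143), (nat_lit 2), (nat_lit 0x2079a3c2), (nat_lit 5)⟩)))))
(.nd (.nd (.nd (.nd (.nd (.lf ⟨(nat_lit 0x69a), (nat_lit 2), (nat_lit 0), (nat_lit 0)⟩)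
(.lf ⟨(nat_lit 0x82d), (nat_lit 2), (nat_lit 0xb60), (nat_lit 2)⟩))
(.nd (.lf ⟨(nat_lit 0x1b69440e), (nat_lit 5), (nat_lit 0x105105), (nat_lit 4)⟩)
(.lf ⟨(nat_lit 0x9e99e9), (nat_lit 4), (nat_lit 0xa67a67), (nat_lit 4)⟩)))
(.nd (.nd (.lf ⟨(nat_lit 0x427), (nat_lit 2), (nat_lit 0x9d0), (nat_lit 2)⟩)
(.lf ⟨(nat_lit 13), (nat_lit 1), (nat_lit 0x9103ce), (nat_lit 4)⟩))
(.lf ⟨(nat_lit 0x7a6), (nat_lit 2), (nat_lit 0x99e), (nat_lit 2)⟩)))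
(.nd (.nd (.nd (.lf ⟨(nat_lit 79), (nat_lit 2), (nat_lit 961), (nat_lit 2)⟩)
(.lf ⟨(nat_lit 0x10528528414a14a), (nat_lit 10), (nat_lit 0x10528528414a14a), (nat_lit 10)⟩))
(.lf ⟨(nat_lit 0x261261), (nat_lit 4), (nat_lit 0x849849), (nat_lit 4)⟩))
(.nd (.nd (.lf ⟨(nat_lit 6), (nat_lit 1), (nat_lit 21), (nat_lit 1)⟩)
(.lf ⟨(nat_lit 719), (nat_lit 2), (nat_lit 0x246993cb), (nat_lit 5)⟩))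
(.lf ⟨(nat_lit 986), (nat_lit 2), (nat_lit 0x5e05e068f), (nat_lit 6)⟩))))
(.nd (.nd (.nd (.nd (.lf ⟨(nat_lit 292), (nat_lit 2), (nat_lit 0x29904), (nat_lit 3)⟩)
(.lf ⟨(nat_lit 0x6e5), (nat_lit 2), (nat_lit 0x95b), (nat_lit 2)⟩))
(.lf ⟨(nat_lit 0x647), (nat_lit 2), (nat_lit 473), (nat_lit 2)⟩))
(.nd (.nd (.lf ⟨(nat_lit 912), (nat_lit 2), (nat_lit 0x40e), (nat_lit 2)⟩)
(.lf ⟨(nat_lit 36), (nat_lit 1), (nat_lit 0x83083), (nat_lit 4)⟩))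
(.lf ⟨(nat_lit 992), (nat_lit 2), (nat_lit 0x5e05cf), (nat_lit 4)⟩)))
(.nd (.nd (.nd (.lf ⟨(nat_lit 0xa6d), (nat_lit 2), (nat_lit 0xb69), (nat_lit 2)⟩)
(.lf ⟨(nat_lit 353), (nat_lit 2), (nat_lit 0x3e78a19e26d96d93c5), (nat_lit 12)⟩))
(.lf ⟨(nat_lit 142), (nat_lit 2), (nat_lit 0x1e5d6382), (nat_lit 5)⟩))
(.nd (.nd (.lf ⟨(nat_lit 725), (nat_lit 2), (nat_lit 0x45539138b), (nat_lit 6)⟩)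
(.lf ⟨(nat_lit 0x7ea), (nat_lit 2), (nat_lit 0x299e99df), (nat_lit 5)⟩))
(.lf ⟨(nat_lit 986), (nat_lit 2), (nat_lit 0x68f), (nat_lit 2)⟩)))))))))
(.nd (.nd (.nd (.nd (.nd (.nd (.nd (.nd (.nd (.lf ⟨(nat_lit 130), (nat_lit 2), (nat_lit 0), (nat_lit 0)⟩)
(.lf ⟨(nat_lit 930), (nat_lit 2), (nat_lit 0x6da5e26da5ce), (nat_lit 8)⟩))
(.nd (.lf ⟨(nat_lit 0x520), (nat_lit 2), (nat_lit 0x814), (nat_lit 2)⟩)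
(.lf ⟨(nat_lit 0x6a2), (nat_lit 2), (nat_lit 0x89a), (nat_lit 2)⟩)))
(.nd (.nd (.lf ⟨(nat_lit 587), (nat_lit 2), (nat_lit 0x1b2c9), (nat_lit 3)⟩)
(.lf ⟨(nat_lit 0x869), (nat_lit 2), (nat_lit 0xa61), (nat_lit 2)⟩))
(.lf ⟨(nat_lit 734), (nat_lit 2), (nat_lit 0x79a5da5cb), (nat_lit 6)⟩)))
(.nd (.nd (.nd (.lf ⟨(nat_lit 294), (nat_lit 2), (nat_lit 0x2b984), (nat_lit 3)⟩)
(.lf ⟨(nat_lit 991), (nat_lit 2), (nat_lit 0x7d961960f), (nat_lit 6)⟩))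
(.lf ⟨(nat_lit 0x421), (nat_lit 2), (nat_lit 0x9e286789b65b650), (nat_lit 10)⟩))
(.nd (.nd (.lf ⟨(nat_lit 282), (nat_lit 2), (nat_lit 0x684), (nat_lit 2)⟩)
(.lf ⟨(nat_lit 0), (nat_lit 0), (nat_lit 0xa10a1), (nat_lit 4)⟩))
(.lf ⟨(nat_lit 0x666), (nat_lit 2), (nat_lit 0x9a2822819), (nat_lit 6)⟩))))
(.nd (.nd (.nd (.nd (.lf ⟨(nat_lit 272), (nat_lit 2), (nat_lit 0x1b404), (nat_lit 3)⟩)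
(.lf ⟨(nat_lit 672), (nat_lit 2), (nat_lit 0x80a), (nat_lit 2)⟩))
(.nd (.lf ⟨(nat_lit 0x6276dd), (nat_lit 4), (nat_lit 0xa5d6dd9db62975b), (nat_lit 10)⟩)
(.lf ⟨(nat_lit 0x22964), (nat_lit 3), (nat_lit 0x27aa59e48aa), (nat_lit 7)⟩)))
(.nd (.nd (.lf ⟨(nat_lit 591), (nat_lit 2), (nat_lit 969), (nat_lit 2)⟩)
(.lf ⟨(nat_lit 335), (nat_lit 2), (nat_lit 0x243c5), (nat_lit 3)⟩))
(.lf ⟨(nat_lit 0x5a0), (nat_lit 2), (nat_lit 0x5e05d6), (nat_lit 4)⟩)))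
(.nd (.nd (.nd (.lf ⟨(nat_lit 215), (nat_lit 2), (nat_lit 0x5c3), (nat_lit 2)⟩)
(.lf ⟨(nat_lit 0x6a1), (nat_lit 2), (nat_lit 0x85a), (nat_lit 2)⟩))
(.lf ⟨(nat_lit 0x1045b), (nat_lit 3), (nat_lit 0x116d1411), (nat_lit 5)⟩))
(.nd (.nd (.lf ⟨(nat_lit 133), (nat_lit 2), (nat_lit 0x15142), (nat_lit 3)⟩)
(.lf ⟨(nat_lit 0x867), (nat_lit 2), (nat_lit 0x9e1), (nat_lit 2)⟩))
(.lf ⟨(nat_lit 0x5a0), (nat_lit 2), (nat_lit 0x816), (nat_lit 2)⟩)))))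
(.nd (.nd (.nd (.nd (.nd (.lf ⟨(nat_lit 75), (nat_lit 2), (nat_lit 0x102c1), (nat_lit 3)⟩)
(.lf ⟨(nat_lit 668), (nat_lit 2), (nat_lit 0x7113d13ca), (nat_lit 6)⟩))
(.nd (.lf ⟨(nat_lit 745), (nat_lit 2), (nat_lit 0x75ba5d6cb), (nat_lit 6)⟩)
(.lf ⟨(nat_lit 133), (nat_lit 2), (nat_lit 0x9e48a1142), (nat_lit 6)⟩)))
(.nd (.nd (.lf ⟨(nat_lit 662), (nat_lit 2), (nat_lit 0x58a), (nat_lit 2)⟩)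
(.lf ⟨(nat_lit 0x6e4), (nat_lit 2), (nat_lit 0x91b), (nat_lit 2)⟩))
(.lf ⟨(nat_lit 663), (nat_lit 2), (nat_lit 0x5ca), (nat_lit 2)⟩)))
(.nd (.nd (.nd (.lf ⟨(nat_lit 267), (nat_lit 2), (nat_lit 708), (nat_lit 2)⟩)
(.lf ⟨(nat_lit 345), (nat_lit 2), (nat_lit 0x645), (nat_lit 2)⟩))
(.lf ⟨(nat_lit 0x6a0), (nat_lit 2), (nat_lit 0x81a), (nat_lit 2)⟩))
(.nd (.nd (.lf ⟨(nat_lit 270), (nat_lit 2), (nat_lit 0x1b384), (nat_lit 3)⟩)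
(.lf ⟨(nat_lit 209), (nat_lit 2), (nat_lit 0x443), (nat_lit 2)⟩))
(.lf ⟨(nat_lit 749), (nat_lit 2), (nat_lit 0x75ba5d6d189bb697626dd44b), (nat_lit 16)⟩))))
(.nd (.nd (.nd (.nd (.lf ⟨(nat_lit 0x8e3), (nat_lit 2), (nat_lit 0), (nat_lit 0)⟩)
(.lf ⟨(nat_lit 0x428103c50a040f1410a040f1428103c5), (nat_lit 22), (nat_lit 0x428103c50a040f1410a040f1428103c5), (nat_lit 22)⟩))
(.nd (.lf ⟨(nat_lit 0x51c), (nat_lit 2), (nat_lit 0x714), (nat_lit 2)⟩)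
(.lf ⟨(nat_lit 0), (nat_lit 0), (nat_lit 0x9020a4082), (nat_lit 6)⟩)))
(.nd (.nd (.lf ⟨(nat_lit 0), (nat_lit 0), (nat_lit 195), (nat_lit 2)⟩)
(.lf ⟨(nat_lit 0x461), (nat_lit 2), (nat_lit 0x851), (nat_lit 2)⟩))
(.lf ⟨(nat_lit 0x1b75ba5d), (nat_lit 5), (nat_lit 0x22b69762a5d8ada5d89b75b), (nat_lit 15)⟩)))
(.nd (.nd (.nd (.lf ⟨(nat_lit 0x61f), (nat_lit 2), (nat_lit 0x7d8), (nat_lit 2)⟩)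
(.lf ⟨(nat_lit 0x15d0e17592c315d0e17592c3), (nat_lit 16), (nat_lit 0x15d0e17592c315d0e17592c3), (nat_lit 16)⟩))
(.lf ⟨(nat_lit 200), (nat_lit 2), (nat_lit 0x5d6203), (nat_lit 4)⟩))
(.nd (.nd (.lf ⟨(nat_lit 743), (nat_lit 2), (nat_lit 0x7676dd6cb), (nat_lit 6)⟩)
(.lf ⟨(nat_lit 0x6a5), (nat_lit 2), (nat_lit 0x95a), (nat_lit 2)⟩))
(.lf ⟨(nat_lit 0x6a9), (nat_lit 2), (nat_lit 0x82981a), (nat_lit 4)⟩))))))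
(.nd (.nd (.nd (.nd (.nd (.nd (.lf ⟨(nat_lit 132), (nat_lit 2), (nat_lit 0xa102), (nat_lit 3)⟩)
(.lf ⟨(nat_lit 0x44a3c144a3c1), (nat_lit 8), (nat_lit 0x3c144a3c144a), (nat_lit 8)⟩))
(.nd (.lf ⟨(nat_lit 0x51f), (nat_lit 2), (nat_lit 0x7d4), (nat_lit 2)⟩)
(.lf ⟨(nat_lit 0xaec), (nat_lit 2), (nat_lit 0xb2b), (nat_lit 2)⟩)))
(.nd (.nd (.lf ⟨(nat_lit 733), (nat_lit 2), (nat_lit 0x74b), (nat_lit 2)⟩)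
(.lf ⟨(nat_lit 0x467), (nat_lit 2), (nat_lit 0x9e2862851), (nat_lit 6)⟩))
(.lf ⟨(nat_lit 0x71e), (nat_lit 2), (nat_lit 0x79c), (nat_lit 2)⟩)))
(.nd (.nd (.nd (.lf ⟨(nat_lit 65), (nat_lit 2), (nat_lit 0), (nat_lit 0)⟩)
(.lf ⟨(nat_lit 930), (nat_lit 2), (nat_lit 0x6da8996da64e), (nat_lit 8)⟩))
(.lf ⟨(nat_lit 676), (nat_lit 2), (nat_lit 0x74f91d3ca), (nat_lit 6)⟩))
(.nd (.nd (.lf ⟨(nat_lit 28), (nat_lit 1), (nat_lit 0x51051), (nat_lit 4)⟩)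
(.lf ⟨(nat_lit 231), (nat_lit 2), (nat_lit 0x7d8ba985ba9f9e16dfa9fa619db6219db6219e985fa9f6e98676d8843), (nat_lit 38)⟩))
(.lf ⟨(nat_lit 0x176da), (nat_lit 3), (nat_lit 0x1b69f6d76df), (nat_lit 7)⟩))))
(.nd (.nd (.nd (.nd (.lf ⟨(nat_lit 0x7df), (nat_lit 2), (nat_lit 0), (nat_lit 0)⟩)
(.lf ⟨(nat_lit 0x6a9), (nat_lit 2), (nat_lit 0xa5a), (nat_lit 2)⟩))
(.nd (.lf ⟨(nat_lit 0x62a), (nat_lit 2), (nat_lit 0xa98), (nat_lit 2)⟩)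
(.lf ⟨(nat_lit 0x288c9), (nat_lit 3), (nat_lit 0x70111c044), (nat_lit 6)⟩)))
(.nd (.nd (.lf ⟨(nat_lit 602), (nat_lit 2), (nat_lit 0x689), (nat_lit 2)⟩)
(.lf ⟨(nat_lit 0x8a4), (nat_lit 2), (nat_lit 0x922), (nat_lit 2)⟩))
(.lf ⟨(nat_lit 976), (nat_lit 2), (nat_lit 0x1781759a59a40f), (nat_lit 9)⟩)))
(.nd (.nd (.nd (.lf ⟨(nat_lit 983), (nat_lit 2), (nat_lit 0x5cf), (nat_lit 2)⟩)
(.lf ⟨(nat_lit 0), (nat_lit 0), (nat_lit 0x743743), (nat_lit 4)⟩))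
(.lf ⟨(nat_lit 620), (nat_lit 2), (nat_lit 0xb276d89db609), (nat_lit 8)⟩))
(.nd (.nd (.lf ⟨(nat_lit 0x6e7), (nat_lit 2), (nat_lit 0x9db), (nat_lit 2)⟩)
(.lf ⟨(nat_lit 935), (nat_lit 2), (nat_lit 0x3e73ce), (nat_lit 4)⟩))
(.lf ⟨(nat_lit 727), (nat_lit 2), (nat_lit 0x5cb), (nat_lit 2)⟩)))))
(.nd (.nd (.nd (.nd (.nd (.lf ⟨(nat_lit 207), (nat_lit 2), (nat_lit 0x173c3), (nat_lit 3)⟩)
(.lf ⟨(nat_lit 0x760), (nat_lit 2), (nat_lit 0x81d), (nat_lit 2)⟩))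
(.nd (.lf ⟨(nat_lit 0x59d), (nat_lit 2), (nat_lit 0x756), (nat_lit 2)⟩)
(.lf ⟨(nat_lit 743), (nat_lit 2), (nat_lit 0x9cb), (nat_lit 2)⟩)))
(.nd (.nd (.lf ⟨(nat_lit 167), (nat_lit 2), (nat_lit 0x9c2), (nat_lit 2)⟩)
(.lf ⟨(nat_lit 287), (nat_lit 2), (nat_lit 0x7d88626eda618a9862b698678626d8844), (nat_lit 22)⟩))
(.lf ⟨(nat_lit 0x1669759a), (nat_lit 5), (nat_lit 0x1769759a5d6), (nat_lit 7)⟩)))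
(.nd (.nd (.nd (.lf ⟨(nat_lit 325), (nat_lit 2), (nat_lit 0), (nat_lit 0)⟩)
(.lf ⟨(nat_lit 609), (nat_lit 2), (nat_lit 0x8606273e780fb257db7d86c9), (nat_lit 16)⟩))
(.lf ⟨(nat_lit 593), (nat_lit 2), (nat_lit 0xa6892375c75c449), (nat_lit 10)⟩))
(.nd (.nd (.lf ⟨(nat_lit 0), (nat_lit 0), (nat_lit 0x244244), (nat_lit 4)⟩)
(.lf ⟨(nat_lit 0), (nat_lit 0), (nat_lit 0xe40e4), (nat_lit 4)⟩))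
(.lf ⟨(nat_lit 0x417), (nat_lit 2), (nat_lit 0x5d0), (nat_lit 2)⟩))))
(.nd (.nd (.nd (.nd (.lf ⟨(nat_lit 0x9e7), (nat_lit 2), (nat_lit 0), (nat_lit 0)⟩)
(.lf ⟨(nat_lit 0x662), (nat_lit 2), (nat_lit 0x899), (nat_lit 2)⟩))
(.nd (.lf ⟨(nat_lit 288), (nat_lit 2), (nat_lit 0x20649860649844), (nat_lit 9)⟩)
(.lf ⟨(nat_lit 0x61b), (nat_lit 2), (nat_lit 0x6d8), (nat_lit 2)⟩)))
(.nd (.nd (.lf ⟨(nat_lit 17), (nat_lit 1), (nat_lit 0x8b08b), (nat_lit 4)⟩)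
(.lf ⟨(nat_lit 748), (nat_lit 2), (nat_lit 0x921b2792784b), (nat_lit 8)⟩))
(.lf ⟨(nat_lit 0x418694), (nat_lit 4), (nat_lit 0x1a95f61a51061a7d8), (nat_lit 11)⟩)))
(.nd (.nd (.nd (.lf ⟨(nat_lit 0x8a7), (nat_lit 2), (nat_lit 0x9e2), (nat_lit 2)⟩)
(.lf ⟨(nat_lit 29), (nat_lit 1), (nat_lit 33), (nat_lit 1)⟩))
(.lf ⟨(nat_lit 7), (nat_lit 1), (nat_lit 30), (nat_lit 1)⟩))
(.nd (.nd (.lf ⟨(nat_lit 484), (nat_lit 2), (nat_lit 0x907), (nat_lit 2)⟩)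
(.lf ⟨(nat_lit 0xf9e2), (nat_lit 3), (nat_lit 0x2485a64f), (nat_lit 5)⟩))
(.lf ⟨(nat_lit 0x176da), (nat_lit 3), (nat_lit 0x206df81b6976df), (nat_lit 9)⟩)))))))
(.nd (.nd (.nd (.nd (.nd (.nd (.nd (.lf ⟨(nat_lit 67), (nat_lit 2), (nat_lit 0x50c1), (nat_lit 3)⟩)
(.lf ⟨(nat_lit 137), (nat_lit 2), (nat_lit 0x8103ce242), (nat_lit 6)⟩))
(.nd (.lf ⟨(nat_lit 926), (nat_lit 2), (nat_lit 0x1da4167961da4163c759e1de3ce), (nat_lit 18)⟩)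
(.lf ⟨(nat_lit 994), (nat_lit 2), (nat_lit 0x88f), (nat_lit 2)⟩)))
(.nd (.nd (.lf ⟨(nat_lit 346), (nat_lit 2), (nat_lit 0x685), (nat_lit 2)⟩)
(.lf ⟨(nat_lit 0x86e), (nat_lit 2), (nat_lit 0xba1), (nat_lit 2)⟩))
(.lf ⟨(nat_lit 0x457), (nat_lit 2), (nat_lit 0x5d1), (nat_lit 2)⟩)))
(.nd (.nd (.nd (.lf ⟨(nat_lit 169), (nat_lit 2), (nat_lit 0x2da42), (nat_lit 3)⟩)
(.lf ⟨(nat_lit 6), (nat_lit 1), (nat_lit 0x699), (nat_lit 2)⟩))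
(.lf ⟨(nat_lit 804), (nat_lit 2), (nat_lit 0x75291d48c), (nat_lit 6)⟩))
(.nd (.nd (.lf ⟨(nat_lit 0x598), (nat_lit 2), (nat_lit 0x616), (nat_lit 2)⟩)
(.lf ⟨(nat_lit 719), (nat_lit 2), (nat_lit 0xf9e188b), (nat_lit 5)⟩))
(.lf ⟨(nat_lit 0x629), (nat_lit 2), (nat_lit 0x276dd7ea7e97676d8), (nat_lit 11)⟩))))
(.nd (.nd (.nd (.nd (.lf ⟨(nat_lit 273), (nat_lit 2), (nat_lit 0x1d444), (nat_lit 3)⟩)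
(.lf ⟨(nat_lit 0x422), (nat_lit 2), (nat_lit 0x89b65b650), (nat_lit 6)⟩))
(.nd (.lf ⟨(nat_lit 748), (nat_lit 2), (nat_lit 0x42476c9db9276dd40b), (nat_lit 12)⟩)
(.lf ⟨(nat_lit 300), (nat_lit 2), (nat_lit 0x2cac4), (nat_lit 3)⟩)))
(.nd (.nd (.lf ⟨(nat_lit 657), (nat_lit 2), (nat_lit 0x44a), (nat_lit 2)⟩)
(.lf ⟨(nat_lit 0x7e4), (nat_lit 2), (nat_lit 0x91f), (nat_lit 2)⟩))
(.lf ⟨(nat_lit 0xf6d0), (nat_lit 3), (nat_lit 0x5e05d66966903db), (nat_lit 10)⟩)))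
(.nd (.nd (.nd (.lf ⟨(nat_lit 285), (nat_lit 2), (nat_lit 0x744), (nat_lit 2)⟩)
(.lf ⟨(nat_lit 32), (nat_lit 1), (nat_lit 0x74309d0c2), (nat_lit 6)⟩))
(.lf ⟨(nat_lit 0xfb27), (nat_lit 3), (nat_lit 0x2c9cf), (nat_lit 3)⟩))
(.nd (.nd (.lf ⟨(nat_lit 345), (nat_lit 2), (nat_lit 0xe3591ce345), (nat_lit 7)⟩)
(.lf ⟨(nat_lit 0x6a7), (nat_lit 2), (nat_lit 0x9da), (nat_lit 2)⟩))
(.lf ⟨(nat_lit 13), (nat_lit 1), (nat_lit 0x81a5903ce), (nat_lit 6)⟩)))))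
(.nd (.nd (.nd (.nd (.nd (.lf ⟨(nat_lit 142), (nat_lit 2), (nat_lit 0x15382), (nat_lit 3)⟩)
(.lf ⟨(nat_lit 0x7e0), (nat_lit 2), (nat_lit 0x81f), (nat_lit 2)⟩))
(.nd (.lf ⟨(nat_lit 601), (nat_lit 2), (nat_lit 0x20649), (nat_lit 3)⟩)
(.lf ⟨(nat_lit 728), (nat_lit 2), (nat_lit 0x8a16eda67a67b699e285b60b), (nat_lit 16)⟩)))
(.nd (.nd (.lf ⟨(nat_lit 162), (nat_lit 2), (nat_lit 0x882), (nat_lit 2)⟩)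
(.lf ⟨(nat_lit 0x66c), (nat_lit 2), (nat_lit 0x9e4b27919), (nat_lit 6)⟩))
(.lf ⟨(nat_lit 0x7a2), (nat_lit 2), (nat_lit 0x89e), (nat_lit 2)⟩)))
(.nd (.nd (.nd (.lf ⟨(nat_lit 138), (nat_lit 2), (nat_lit 642), (nat_lit 2)⟩)
(.lf ⟨(nat_lit 930), (nat_lit 2), (nat_lit 0x6da89b7db6996df64e), (nat_lit 12)⟩))
(.lf ⟨(nat_lit 925), (nat_lit 2), (nat_lit 0x1b69061a5107d86df7676d8b9a6276d851061a40e), (nat_lit 27)⟩))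
(.nd (.nd (.lf ⟨(nat_lit 159), (nat_lit 2), (nat_lit 0x7c7607602), (nat_lit 6)⟩)
(.lf ⟨(nat_lit 0x7010a88c90a88c97010a88c90a88c9), (nat_lit 20), (nat_lit 0x7010a88c90a88c97010a88c90a88c9), (nat_lit 20)⟩))
(.lf ⟨(nat_lit 0xf6e9758), (nat_lit 5), (nat_lit 0x1d89bb69762a5d8ada5d89b76761d3dd9db), (nat_lit 23)⟩))))
(.nd (.nd (.nd (.nd (.lf ⟨(nat_lit 0x965), (nat_lit 2), (nat_lit 0), (nat_lit 0)⟩)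
(.lf ⟨(nat_lit 23), (nat_lit 1), (nat_lit 0x819), (nat_lit 2)⟩))
(.nd (.lf ⟨(nat_lit 613), (nat_lit 2), (nat_lit 0x79859e6076169567981d859e609), (nat_lit 18)⟩)
(.lf ⟨(nat_lit 45), (nat_lit 1), (nat_lit 0), (nat_lit 0)⟩)))
(.nd (.nd (.lf ⟨(nat_lit 0), (nat_lit 0), (nat_lit 65), (nat_lit 2)⟩)
(.lf ⟨(nat_lit 228), (nat_lit 2), (nat_lit 0x903), (nat_lit 2)⟩))
(.lf ⟨(nat_lit 0x1095f), (nat_lit 3), (nat_lit 0x1b95f6d0), (nat_lit 5)⟩)))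
(.nd (.nd (.nd (.lf ⟨(nat_lit 0x723), (nat_lit 2), (nat_lit 0x8dc), (nat_lit 2)⟩)
(.lf ⟨(nat_lit 0x2840c528414a10314a1052842840c528414a10314a105284), (nat_lit 32), (nat_lit 0x2840c528414a10314a1052842840c528414a10314a105284), (nat_lit 32)⟩))
(.lf ⟨(nat_lit 0x597), (nat_lit 2), (nat_lit 0x5d6), (nat_lit 2)⟩))
(.nd (.nd (.lf ⟨(nat_lit 668), (nat_lit 2), (nat_lit 0x3dc44f44a), (nat_lit 6)⟩)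
(.lf ⟨(nat_lit 0x45a), (nat_lit 2), (nat_lit 0x691), (nat_lit 2)⟩))
(.lf ⟨(nat_lit 913), (nat_lit 2), (nat_lit 0x69168e), (nat_lit 4)⟩))))))
(.nd (.nd (.nd (.nd (.nd (.nd (.lf ⟨(nat_lit 910), (nat_lit 2), (nat_lit 0), (nat_lit 0)⟩)
(.lf ⟨(nat_lit 335), (nat_lit 2), (nat_lit 0x203c5), (nat_lit 3)⟩))
(.nd (.lf ⟨(nat_lit 342), (nat_lit 2), (nat_lit 0x1d6785), (nat_lit 4)⟩)
(.lf ⟨(nat_lit 0x1f9e48a1), (nat_lit 5), (nat_lit 0x2792285f), (nat_lit 5)⟩)))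
(.nd (.nd (.lf ⟨(nat_lit 88), (nat_lit 2), (nat_lit 0x601), (nat_lit 2)⟩)
(.lf ⟨(nat_lit 932), (nat_lit 2), (nat_lit 0x90e), (nat_lit 2)⟩))
(.lf ⟨(nat_lit 0xb5d6), (nat_lit 3), (nat_lit 0x1769769745639138b), (nat_lit 11)⟩)))
(.nd (.nd (.nd (.lf ⟨(nat_lit 131), (nat_lit 2), (nat_lit 0x70c2), (nat_lit 3)⟩)
(.lf ⟨(nat_lit 0x45b), (nat_lit 2), (nat_lit 0x257db7e7698ba76d87656dd691), (nat_lit 17)⟩))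
(.lf ⟨(nat_lit 231), (nat_lit 2), (nat_lit 0x1f62ea5d6df61d9db62975b61d6c3), (nat_lit 19)⟩))
(.nd (.nd (.lf ⟨(nat_lit 0x51b), (nat_lit 2), (nat_lit 0x6d4), (nat_lit 2)⟩)
(.lf ⟨(nat_lit 0xe9e2), (nat_lit 3), (nat_lit 0x1b6a26da3a7), (nat_lit 7)⟩))
(.lf ⟨(nat_lit 991), (nat_lit 2), (nat_lit 0x7d85d85cf), (nat_lit 6)⟩))))
(.nd (.nd (.nd (.nd (.lf ⟨(nat_lit 0x861), (nat_lit 2), (nat_lit 0), (nat_lit 0)⟩)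
(.lf ⟨(nat_lit 0x8103c58103c5), (nat_lit 8), (nat_lit 0), (nat_lit 0)⟩))
(.nd (.lf ⟨(nat_lit 493), (nat_lit 2), (nat_lit 0xb47), (nat_lit 2)⟩)
(.lf ⟨(nat_lit 0x61c), (nat_lit 2), (nat_lit 0x8dc623), (nat_lit 4)⟩)))
(.nd (.nd (.lf ⟨(nat_lit 736), (nat_lit 2), (nat_lit 0x80b), (nat_lit 2)⟩)
(.lf ⟨(nat_lit 207), (nat_lit 2), (nat_lit 0x9193c3), (nat_lit 4)⟩))
(.lf ⟨(nat_lit 0x9860), (nat_lit 3), (nat_lit 0x20860860261), (nat_lit 7)⟩)))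
(.nd (.nd (.nd (.lf ⟨(nat_lit 0x41b), (nat_lit 2), (nat_lit 0x6d0), (nat_lit 2)⟩)
(.lf ⟨(nat_lit 164), (nat_lit 2), (nat_lit 0x81d40f92015d40f142), (nat_lit 12)⟩))
(.lf ⟨(nat_lit 535), (nat_lit 2), (nat_lit 0x5c8), (nat_lit 2)⟩))
(.nd (.nd (.lf ⟨(nat_lit 0x26b279a7), (nat_lit 5), (nat_lit 0x279ac9e6), (nat_lit 5)⟩)
(.lf ⟨(nat_lit 0x3e8), (nat_lit 2), (nat_lit 0xa0f), (nat_lit 2)⟩))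
(.lf ⟨(nat_lit 22), (nat_lit 1), (nat_lit 0x2079a), (nat_lit 3)⟩)))))
(.nd (.nd (.nd (.nd (.nd (.lf ⟨(nat_lit 144), (nat_lit 2), (nat_lit 0x19402), (nat_lit 3)⟩)
(.lf ⟨(nat_lit 0x822), (nat_lit 2), (nat_lit 0x8a0), (nat_lit 2)⟩))
(.nd (.lf ⟨(nat_lit 986), (nat_lit 2), (nat_lit 0x5a01da58f), (nat_lit 6)⟩)
(.lf ⟨(nat_lit 719), (nat_lit 2), (nat_lit 0x278a13cb), (nat_lit 5)⟩)))
(.nd (.nd (.lf ⟨(nat_lit 923), (nat_lit 2), (nat_lit 0x6ce), (nat_lit 2)⟩)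
(.lf ⟨(nat_lit 66), (nat_lit 2), (nat_lit 0x9103c5081), (nat_lit 6)⟩))
(.lf ⟨(nat_lit 613), (nat_lit 2), (nat_lit 0x949), (nat_lit 2)⟩)))
(.nd (.nd (.nd (.lf ⟨(nat_lit 0x701701), (nat_lit 4), (nat_lit 0), (nat_lit 0)⟩)
(.lf ⟨(nat_lit 0x161161), (nat_lit 4), (nat_lit 0x161161), (nat_lit 4)⟩))
(.lf ⟨(nat_lit 137), (nat_lit 2), (nat_lit 0x59e6903ce242), (nat_lit 8)⟩))
(.nd (.nd (.lf ⟨(nat_lit 903), (nat_lit 2), (nat_lit 462), (nat_lit 2)⟩)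
(.lf ⟨(nat_lit 0xf9e1), (nat_lit 3), (nat_lit 0x246993e2), (nat_lit 5)⟩))
(.lf ⟨(nat_lit 226), (nat_lit 2), (nat_lit 0x883), (nat_lit 2)⟩))))
(.nd (.nd (.nd (.nd (.lf ⟨(nat_lit 0xa69), (nat_lit 2), (nat_lit 0), (nat_lit 0)⟩)
(.lf ⟨(nat_lit 0x65f), (nat_lit 2), (nat_lit 0x7d9), (nat_lit 2)⟩))
(.nd (.lf ⟨(nat_lit 0x5626c7), (nat_lit 4), (nat_lit 0x6c76d589b), (nat_lit 6)⟩)
(.lf ⟨(nat_lit 231), (nat_lit 2), (nat_lit 0x7e962e86a6dfa589e16c3), (nat_lit 14)⟩)))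
(.nd (.nd (.lf ⟨(nat_lit 0x69b), (nat_lit 2), (nat_lit 0x6da), (nat_lit 2)⟩)
(.lf ⟨(nat_lit 676), (nat_lit 2), (nat_lit 0x90a), (nat_lit 2)⟩))
(.lf ⟨(nat_lit 0x59f), (nat_lit 2), (nat_lit 0x7d6), (nat_lit 2)⟩)))
(.nd (.nd (.nd (.lf ⟨(nat_lit 0x9ec), (nat_lit 2), (nat_lit 0xb27), (nat_lit 2)⟩)
(.lf ⟨(nat_lit 651), (nat_lit 2), (nat_lit 0x212ca), (nat_lit 3)⟩))
(.lf ⟨(nat_lit 202), (nat_lit 2), (nat_lit 0x797283), (nat_lit 4)⟩))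
(.nd (.nd (.lf ⟨(nat_lit 0x461), (nat_lit 2), (nat_lit 0x76165d651), (nat_lit 6)⟩)
(.lf ⟨(nat_lit 25), (nat_lit 1), (nat_lit 0x2791a8a1), (nat_lit 5)⟩))
(.lf ⟨(nat_lit 921), (nat_lit 2), (nat_lit 0x69765a5ce), (nat_lit 6)⟩))))))))
(.nd (.nd (.nd (.nd (.nd (.nd (.nd (.nd (.lf ⟨(nat_lit 260), (nat_lit 2), (nat_lit 0), (nat_lit 0)⟩)
(.lf ⟨(nat_lit 13), (nat_lit 1), (nat_lit 0x8103ce), (nat_lit 4)⟩))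
(.nd (.lf ⟨(nat_lit 485), (nat_lit 2), (nat_lit 0x947), (nat_lit 2)⟩)
(.lf ⟨(nat_lit 0x86c), (nat_lit 2), (nat_lit 0xb21), (nat_lit 2)⟩)))
(.nd (.nd (.lf ⟨(nat_lit 0x447), (nat_lit 2), (nat_lit 465), (nat_lit 2)⟩)
(.lf ⟨(nat_lit 743), (nat_lit 2), (nat_lit 0x86286788b), (nat_lit 6)⟩))
(.lf ⟨(nat_lit 0x75e), (nat_lit 2), (nat_lit 0x79d), (nat_lit 2)⟩)))
(.nd (.nd (.nd (.lf ⟨(nat_lit 103), (nat_lit 2), (nat_lit 0x2c9c1), (nat_lit 3)⟩)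
(.lf ⟨(nat_lit 0x411), (nat_lit 2), (nat_lit 0x450), (nat_lit 2)⟩))
(.lf ⟨(nat_lit 615), (nat_lit 2), (nat_lit 0x6d89db609), (nat_lit 6)⟩))
(.nd (.nd (.lf ⟨(nat_lit 101), (nat_lit 2), (nat_lit 0x941), (nat_lit 2)⟩)
(.lf ⟨(nat_lit 0x219e2), (nat_lit 3), (nat_lit 0x278a1), (nat_lit 3)⟩))
(.lf ⟨(nat_lit 0x5da), (nat_lit 2), (nat_lit 0x697), (nat_lit 2)⟩))))
(.nd (.nd (.nd (.nd (.lf ⟨(nat_lit 81), (nat_lit 2), (nat_lit 0x1c441), (nat_lit 3)⟩)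
(.lf ⟨(nat_lit 0x418), (nat_lit 2), (nat_lit 0x257d86df6d0), (nat_lit 7)⟩))
(.nd (.lf ⟨(nat_lit 0x1095f41f), (nat_lit 5), (nat_lit 0x1f4257d0), (nat_lit 5)⟩)
(.lf ⟨(nat_lit 0x7e78a1), (nat_lit 4), (nat_lit 0x9e285f), (nat_lit 4)⟩)))
(.nd (.nd (.lf ⟨(nat_lit 592), (nat_lit 2), (nat_lit 0x409), (nat_lit 2)⟩)
(.lf ⟨(nat_lit 0x624), (nat_lit 2), (nat_lit 0x918), (nat_lit 2)⟩))
(.lf ⟨(nat_lit 0x5e4), (nat_lit 2), (nat_lit 0x917), (nat_lit 2)⟩)))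
(.nd (.nd (.nd (.lf ⟨(nat_lit 280), (nat_lit 2), (nat_lit 0x604), (nat_lit 2)⟩)
(.lf ⟨(nat_lit 0x91d15d), (nat_lit 4), (nat_lit 0x5d0c1743), (nat_lit 6)⟩))
(.lf ⟨(nat_lit 0x422), (nat_lit 2), (nat_lit 0x6e08a065b650), (nat_lit 8)⟩))
(.nd (.nd (.lf ⟨(nat_lit 352), (nat_lit 2), (nat_lit 0xe3601ce345), (nat_lit 7)⟩)
(.lf ⟨(nat_lit 0x18ba9), (nat_lit 3), (nat_lit 0x9e16e97ea7e785b62e), (nat_lit 12)⟩))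
(.lf ⟨(nat_lit 930), (nat_lit 2), (nat_lit 0x6d75a26d758e), (nat_lit 8)⟩)))))
(.nd (.nd (.nd (.nd (.nd (.lf ⟨(nat_lit 139), (nat_lit 2), (nat_lit 0x112c2), (nat_lit 3)⟩)
(.lf ⟨(nat_lit 0x620), (nat_lit 2), (nat_lit 0x818), (nat_lit 2)⟩))
(.nd (.lf ⟨(nat_lit 681), (nat_lit 2), (nat_lit 0x758a5d60a), (nat_lit 6)⟩)
(.lf ⟨(nat_lit 0x467), (nat_lit 2), (nat_lit 0x9d1), (nat_lit 2)⟩)))
(.nd (.nd (.lf ⟨(nat_lit 96), (nat_lit 2), (nat_lit 0x801), (nat_lit 2)⟩)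
(.lf ⟨(nat_lit 681), (nat_lit 2), (nat_lit 0x278a18a16dfa9fa619db62160a), (nat_lit 17)⟩))
(.lf ⟨(nat_lit 0x5da5da), (nat_lit 4), (nat_lit 0x697697), (nat_lit 4)⟩)))
(.nd (.nd (.nd (.lf ⟨(nat_lit 69), (nat_lit 2), (nat_lit 321), (nat_lit 2)⟩)
(.lf ⟨(nat_lit 0x461), (nat_lit 2), (nat_lit 0x761751), (nat_lit 4)⟩))
(.lf ⟨(nat_lit 0xf6d0), (nat_lit 3), (nat_lit 0x5a01da59e6903db), (nat_lit 10)⟩))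
(.nd (.nd (.lf ⟨(nat_lit 0), (nat_lit 0), (nat_lit 0x2c32c3), (nat_lit 4)⟩)
(.lf ⟨(nat_lit 0xa88c90a88c9), (nat_lit 8), (nat_lit 0xa88c90a88c9), (nat_lit 8)⟩))
(.lf ⟨(nat_lit 728), (nat_lit 2), (nat_lit 0x7626eda5d8a9762b697626dd9d874b), (nat_lit 20)⟩))))
(.nd (.nd (.nd (.nd (.lf ⟨(nat_lit 0x924), (nat_lit 2), (nat_lit 0), (nat_lit 0)⟩)
(.lf ⟨(nat_lit 0x8103c50428103c50a040f1410a040f1428103c58103c50428103c50a040f1410a040f1428103c5), (nat_lit 52), (nat_lit 0x8103c50428103c50a040f1410a040f1428103c58103c50428103c50a040f1410a040f1428103c5), (nat_lit 52)⟩))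
(.nd (.lf ⟨(nat_lit 997), (nat_lit 2), (nat_lit 0x7985e57de6176177d85cf), (nat_lit 14)⟩)
(.lf ⟨(nat_lit 0), (nat_lit 0), (nat_lit 0x902902), (nat_lit 4)⟩)))
(.nd (.nd (.lf ⟨(nat_lit 16), (nat_lit 1), (nat_lit 0x4b04b), (nat_lit 4)⟩)
(.lf ⟨(nat_lit 0xe9e2), (nat_lit 3), (nat_lit 0x1b6a28678a19e26da3a7), (nat_lit 13)⟩))
(.lf ⟨(nat_lit 0xe9e2), (nat_lit 3), (nat_lit 0x1e6de5d689b5d63a7), (nat_lit 11)⟩)))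
(.nd (.nd (.nd (.lf ⟨(nat_lit 0x661), (nat_lit 2), (nat_lit 0x859), (nat_lit 2)⟩)
(.lf ⟨(nat_lit 0xc574385d64b0c574385d64b0c315d0e17592c315d0e17592c3), (nat_lit 34), (nat_lit 0xc574385d64b0c574385d64b0c315d0e17592c315d0e17592c3), (nat_lit 34)⟩))
(.lf ⟨(nat_lit 12), (nat_lit 1), (nat_lit 471), (nat_lit 2)⟩))
(.nd (.nd (.lf ⟨(nat_lit 0x667), (nat_lit 2), (nat_lit 0x9d9), (nat_lit 2)⟩)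
(.lf ⟨(nat_lit 0x6ea), (nat_lit 2), (nat_lit 0xa9b), (nat_lit 2)⟩))
(.lf ⟨(nat_lit 6), (nat_lit 1), (nat_lit 0x20697), (nat_lit 3)⟩))))))
(.nd (.nd (.nd (.nd (.nd (.nd (.lf ⟨(nat_lit 196), (nat_lit 2), (nat_lit 0xb103), (nat_lit 3)⟩)
(.lf ⟨(nat_lit 87), (nat_lit 2), (nat_lit 0x205c1), (nat_lit 3)⟩))
(.nd (.lf ⟨(nat_lit 161), (nat_lit 2), (nat_lit 0x859299282), (nat_lit 6)⟩)
(.lf ⟨(nat_lit 738), (nat_lit 2), (nat_lit 0x2295f6df9db698ba786585b6986cb), (nat_lit 19)⟩)))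
(.nd (.nd (.lf ⟨(nat_lit 797), (nat_lit 2), (nat_lit 0x74c), (nat_lit 2)⟩)
(.lf ⟨(nat_lit 740), (nat_lit 2), (nat_lit 0x90b), (nat_lit 2)⟩))
(.lf ⟨(nat_lit 0x7a9), (nat_lit 2), (nat_lit 0xa5e), (nat_lit 2)⟩)))
(.nd (.nd (.nd (.lf ⟨(nat_lit 195), (nat_lit 2), (nat_lit 0), (nat_lit 0)⟩)
(.lf ⟨(nat_lit 985), (nat_lit 2), (nat_lit 0x64f), (nat_lit 2)⟩))
(.lf ⟨(nat_lit 0xf6e9758), (nat_lit 5), (nat_lit 0x1d9db62975b3dd9db), (nat_lit 11)⟩))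
(.nd (.nd (.lf ⟨(nat_lit 0x720), (nat_lit 2), (nat_lit 0x81c), (nat_lit 2)⟩)
(.lf ⟨(nat_lit 0x45b), (nat_lit 2), (nat_lit 0x257db7e7698ba76d886585b691), (nat_lit 17)⟩))
(.lf ⟨(nat_lit 66), (nat_lit 2), (nat_lit 0x81a5903c5081), (nat_lit 8)⟩))))
(.nd (.nd (.nd (.nd (.lf ⟨(nat_lit 0x820), (nat_lit 2), (nat_lit 0), (nat_lit 0)⟩)
(.lf ⟨(nat_lit 0x45b), (nat_lit 2), (nat_lit 0x257db7e7698ba76d875f6e56df6dd691), (nat_lit 21)⟩))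
(.nd (.lf ⟨(nat_lit 0x66c), (nat_lit 2), (nat_lit 0x82c9e09d9), (nat_lit 6)⟩)
(.lf ⟨(nat_lit 0x8f08f), (nat_lit 4), (nat_lit 0x8f08f), (nat_lit 4)⟩)))
(.nd (.nd (.lf ⟨(nat_lit 990), (nat_lit 2), (nat_lit 0x78f), (nat_lit 2)⟩)
(.lf ⟨(nat_lit 0x926), (nat_lit 2), (nat_lit 0x9a4), (nat_lit 2)⟩))
(.lf ⟨(nat_lit 0x5df), (nat_lit 2), (nat_lit 0x7d7), (nat_lit 2)⟩)))
(.nd (.nd (.nd (.lf ⟨(nat_lit 0x419), (nat_lit 2), (nat_lit 0x650), (nat_lit 2)⟩)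
(.lf ⟨(nat_lit 356), (nat_lit 2), (nat_lit 0x905), (nat_lit 2)⟩))
(.lf ⟨(nat_lit 0x597), (nat_lit 2), (nat_lit 0x5d6), (nat_lit 2)⟩))
(.nd (.nd (.lf ⟨(nat_lit 0x728), (nat_lit 2), (nat_lit 0xa1c), (nat_lit 2)⟩)
(.lf ⟨(nat_lit 929), (nat_lit 2), (nat_lit 0x216da95f6df9da62e9db6219616ce), (nat_lit 19)⟩))
(.lf ⟨(nat_lit 992), (nat_lit 2), (nat_lit 0x80f), (nat_lit 2)⟩)))))
(.nd (.nd (.nd (.nd (.nd (.lf ⟨(nat_lit 271), (nat_lit 2), (nat_lit 0x183c4), (nat_lit 3)⟩)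
(.lf ⟨(nat_lit 0x829), (nat_lit 2), (nat_lit 0xa60), (nat_lit 2)⟩))
(.nd (.lf ⟨(nat_lit 482), (nat_lit 2), (nat_lit 0x887), (nat_lit 2)⟩)
(.lf ⟨(nat_lit 930), (nat_lit 2), (nat_lit 0x88e), (nat_lit 2)⟩)))
(.nd (.nd (.lf ⟨(nat_lit 673), (nat_lit 2), (nat_lit 0x84a), (nat_lit 2)⟩)
(.lf ⟨(nat_lit 996), (nat_lit 2), (nat_lit 0x90f), (nat_lit 2)⟩))
(.lf ⟨(nat_lit 0x7ad), (nat_lit 2), (nat_lit 0xb5e), (nat_lit 2)⟩)))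
(.nd (.nd (.nd (.lf ⟨(nat_lit 0x284284), (nat_lit 4), (nat_lit 0), (nat_lit 0)⟩)
(.lf ⟨(nat_lit 33), (nat_lit 1), (nat_lit 0x11a644699), (nat_lit 6)⟩))
(.lf ⟨(nat_lit 13), (nat_lit 1), (nat_lit 0x59e6903ce), (nat_lit 6)⟩))
(.nd (.nd (.lf ⟨(nat_lit 0xc20c2), (nat_lit 4), (nat_lit 7), (nat_lit 1)⟩)
(.lf ⟨(nat_lit 0), (nat_lit 0), (nat_lit 0x2a464a919), (nat_lit 6)⟩))
(.lf ⟨(nat_lit 0x5dd), (nat_lit 2), (nat_lit 0x757), (nat_lit 2)⟩))))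
(.nd (.nd (.nd (.nd (.lf ⟨(nat_lit 0xa28), (nat_lit 2), (nat_lit 0), (nat_lit 0)⟩)
(.lf ⟨(nat_lit 665), (nat_lit 2), (nat_lit 0x64a), (nat_lit 2)⟩))
(.nd (.lf ⟨(nat_lit 0x5a9), (nat_lit 2), (nat_lit 0xa56), (nat_lit 2)⟩)
(.lf ⟨(nat_lit 728), (nat_lit 2), (nat_lit 0xa6760b), (nat_lit 4)⟩)))
(.nd (.nd (.lf ⟨(nat_lit 0), (nat_lit 0), (nat_lit 130), (nat_lit 2)⟩)
(.lf ⟨(nat_lit 353), (nat_lit 2), (nat_lit 0x845), (nat_lit 2)⟩))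
(.lf ⟨(nat_lit 0x1061a7d8), (nat_lit 5), (nat_lit 0x6a57d869061a), (nat_lit 8)⟩)))
(.nd (.nd (.nd (.lf ⟨(nat_lit 0x96a), (nat_lit 2), (nat_lit 0xaa5), (nat_lit 2)⟩)
(.lf ⟨(nat_lit 32), (nat_lit 1), (nat_lit 0x21921), (nat_lit 3)⟩))
(.lf ⟨(nat_lit 18), (nat_lit 1), (nat_lit 30), (nat_lit 1)⟩))
(.nd (.nd (.lf ⟨(nat_lit 921), (nat_lit 2), (nat_lit 0x55941540e), (nat_lit 6)⟩)
(.lf ⟨(nat_lit 0x6e9), (nat_lit 2), (nat_lit 0xa5b), (nat_lit 2)⟩))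
(.lf ⟨(nat_lit 66), (nat_lit 2), (nat_lit 0x8103c5081), (nat_lit 6)⟩)))))))
(.nd (.nd (.nd (.nd (.nd (.nd (.nd (.lf ⟨(nat_lit 68), (nat_lit 2), (nat_lit 0x9101), (nat_lit 3)⟩)
(.lf ⟨(nat_lit 985), (nat_lit 2), (nat_lit 0x69765a5cf), (nat_lit 6)⟩))
(.nd (.lf ⟨(nat_lit 0x517), (nat_lit 2), (nat_lit 0x5d4), (nat_lit 2)⟩)
(.lf ⟨(nat_lit 98), (nat_lit 2), (nat_lit 0x2c881), (nat_lit 3)⟩)))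
(.nd (.nd (.lf ⟨(nat_lit 667), (nat_lit 2), (nat_lit 0x276ca), (nat_lit 3)⟩)
(.lf ⟨(nat_lit 601), (nat_lit 2), (nat_lit 0x24649), (nat_lit 3)⟩))
(.lf ⟨(nat_lit 133), (nat_lit 2), (nat_lit 0x1e5d6142), (nat_lit 5)⟩)))
(.nd (.nd (.nd (.lf ⟨(nat_lit 233), (nat_lit 2), (nat_lit 0x2ea43), (nat_lit 3)⟩)
(.lf ⟨(nat_lit 921), (nat_lit 2), (nat_lit 0x64e), (nat_lit 2)⟩))
(.lf ⟨(nat_lit 741), (nat_lit 2), (nat_lit 0x7d095f40b), (nat_lit 6)⟩))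
(.nd (.nd (.lf ⟨(nat_lit 454), (nat_lit 2), (nat_lit 0xc80c8), (nat_lit 4)⟩)
(.lf ⟨(nat_lit 0x629), (nat_lit 2), (nat_lit 0x2785b7ea7e98676d8), (nat_lit 11)⟩))
(.lf ⟨(nat_lit 0x3e181e), (nat_lit 4), (nat_lit 0x85e84f860), (nat_lit 6)⟩))))
(.nd (.nd (.nd (.nd (.lf ⟨(nat_lit 0x79e), (nat_lit 2), (nat_lit 0), (nat_lit 0)⟩)
(.lf ⟨(nat_lit 666), (nat_lit 2), (nat_lit 0x68a), (nat_lit 2)⟩))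
(.nd (.lf ⟨(nat_lit 0x10616), (nat_lit 3), (nat_lit 0x769679a418), (nat_lit 7)⟩)
(.lf ⟨(nat_lit 287), (nat_lit 2), (nat_lit 0x7d8b29b27604), (nat_lit 8)⟩)))
(.nd (.nd (.lf ⟨(nat_lit 669), (nat_lit 2), (nat_lit 0x74a), (nat_lit 2)⟩)
(.lf ⟨(nat_lit 131), (nat_lit 2), (nat_lit 0x240c2), (nat_lit 3)⟩))
(.lf ⟨(nat_lit 0x416), (nat_lit 2), (nat_lit 0x696690), (nat_lit 4)⟩)))
(.nd (.nd (.nd (.lf ⟨(nat_lit 655), (nat_lit 2), (nat_lit 970), (nat_lit 2)⟩)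
(.lf ⟨(nat_lit 0), (nat_lit 0), (nat_lit 0x60060), (nat_lit 4)⟩))
(.lf ⟨(nat_lit 108), (nat_lit 2), (nat_lit 0x1e3e73e778f6cf6c1), (nat_lit 11)⟩))
(.nd (.nd (.lf ⟨(nat_lit 0x558558), (nat_lit 4), (nat_lit 0x615615), (nat_lit 4)⟩)
(.lf ⟨(nat_lit 0x927), (nat_lit 2), (nat_lit 0x9e4), (nat_lit 2)⟩))
(.lf ⟨(nat_lit 137), (nat_lit 2), (nat_lit 0x81a5903ce242), (nat_lit 8)⟩)))))
(.nd (.nd (.nd (.nd (.nd (.lf ⟨(nat_lit 143), (nat_lit 2), (nat_lit 0x163c2), (nat_lit 3)⟩)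
(.lf ⟨(nat_lit 202), (nat_lit 2), (nat_lit 0x817283), (nat_lit 4)⟩))
(.nd (.lf ⟨(nat_lit 0x310310), (nat_lit 4), (nat_lit 0x40c40c), (nat_lit 4)⟩)
(.lf ⟨(nat_lit 675), (nat_lit 2), (nat_lit 0x8dc61161c44a), (nat_lit 8)⟩)))
(.nd (.nd (.lf ⟨(nat_lit 222), (nat_lit 2), (nat_lit 0x783), (nat_lit 2)⟩)
(.lf ⟨(nat_lit 728), (nat_lit 2), (nat_lit 0x8626eda618a9862b698678626d884b), (nat_lit 20)⟩))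
(.lf ⟨(nat_lit 986), (nat_lit 2), (nat_lit 0x5a079a58f), (nat_lit 6)⟩)))
(.nd (.nd (.nd (.lf ⟨(nat_lit 650), (nat_lit 2), (nat_lit 0), (nat_lit 0)⟩)
(.lf ⟨(nat_lit 0x8103ce), (nat_lit 4), (nat_lit 0x89089), (nat_lit 4)⟩))
(.lf ⟨(nat_lit 0x463), (nat_lit 2), (nat_lit 0x8dd71d711), (nat_lit 6)⟩))
(.nd (.nd (.lf ⟨(nat_lit 785), (nat_lit 2), (nat_lit 0x44c), (nat_lit 2)⟩)
(.lf ⟨(nat_lit 36), (nat_lit 1), (nat_lit 0x59059), (nat_lit 4)⟩))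
(.lf ⟨(nat_lit 231), (nat_lit 2), (nat_lit 0x7d8ba975ba9f9db75fa9fa5d9db61d9db61d9e975fa9f6e97676d8743), (nat_lit 38)⟩))))
(.nd (.nd (.nd (.nd (.lf ⟨(nat_lit 0x9a6), (nat_lit 2), (nat_lit 0), (nat_lit 0)⟩)
(.lf ⟨(nat_lit 217), (nat_lit 2), (nat_lit 0x643), (nat_lit 2)⟩))
(.nd (.lf ⟨(nat_lit 0x79f), (nat_lit 2), (nat_lit 0x7de), (nat_lit 2)⟩)
(.lf ⟨(nat_lit 0x7ea), (nat_lit 2), (nat_lit 31), (nat_lit 1)⟩)))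
(.nd (.nd (.lf ⟨(nat_lit 8), (nat_lit 1), (nat_lit 0x42042), (nat_lit 4)⟩)
(.lf ⟨(nat_lit 89), (nat_lit 2), (nat_lit 0x24641), (nat_lit 3)⟩))
(.lf ⟨(nat_lit 0x3e05d6), (nat_lit 4), (nat_lit 0x79781e5d66995d66963d9), (nat_lit 14)⟩)))
(.nd (.nd (.nd (.lf ⟨(nat_lit 0x7e5), (nat_lit 2), (nat_lit 0x95f), (nat_lit 2)⟩)
(.lf ⟨(nat_lit 225), (nat_lit 2), (nat_lit 0x743), (nat_lit 2)⟩))
(.lf ⟨(nat_lit 0x417), (nat_lit 2), (nat_lit 0x697690), (nat_lit 4)⟩))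
(.nd (.nd (.lf ⟨(nat_lit 0x76e), (nat_lit 2), (nat_lit 0xb9d), (nat_lit 2)⟩)
(.lf ⟨(nat_lit 0x186da), (nat_lit 3), (nat_lit 0x257db7ec6ac95f6df61b), (nat_lit 13)⟩))
(.lf ⟨(nat_lit 0x1061a41d), (nat_lit 5), (nat_lit 0x81f81a61b7dd9db62e6a76d06116d1690), (nat_lit 22)⟩))))))
(.nd (.nd (.nd (.nd (.nd (.nd (.lf ⟨(nat_lit 74), (nat_lit 2), (nat_lit 0xf281), (nat_lit 3)⟩)
(.lf ⟨(nat_lit 352), (nat_lit 2), (nat_lit 0x805), (nat_lit 2)⟩))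
(.nd (.lf ⟨(nat_lit 0x8ac), (nat_lit 2), (nat_lit 0x9e6b279a2), (nat_lit 6)⟩)
(.lf ⟨(nat_lit 991), (nat_lit 2), (nat_lit 0x7cf), (nat_lit 2)⟩)))
(.nd (.nd (.lf ⟨(nat_lit 91), (nat_lit 2), (nat_lit 0x6c1), (nat_lit 2)⟩)
(.lf ⟨(nat_lit 593), (nat_lit 2), (nat_lit 0xa68923449), (nat_lit 6)⟩))
(.lf ⟨(nat_lit 918), (nat_lit 2), (nat_lit 0x58e), (nat_lit 2)⟩)))
(.nd (.nd (.nd (.lf ⟨(nat_lit 265), (nat_lit 2), (nat_lit 580), (nat_lit 2)⟩)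
(.lf ⟨(nat_lit 719), (nat_lit 2), (nat_lit 0x203dd40f91d3e28676d96d940b), (nat_lit 17)⟩))
(.lf ⟨(nat_lit 928), (nat_lit 2), (nat_lit 0x80e), (nat_lit 2)⟩))
(.nd (.nd (.lf ⟨(nat_lit 25), (nat_lit 1), (nat_lit 0x90090), (nat_lit 4)⟩)
(.lf ⟨(nat_lit 209), (nat_lit 2), (nat_lit 0x443), (nat_lit 2)⟩))
(.lf ⟨(nat_lit 0x1875b), (nat_lit 3), (nat_lit 0x9dba5d7ea7dba5d9db61d), (nat_lit 14)⟩))))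
(.nd (.nd (.nd (.nd (.lf ⟨(nat_lit 0x8a2), (nat_lit 2), (nat_lit 0), (nat_lit 0)⟩)
(.lf ⟨(nat_lit 0), (nat_lit 0), (nat_lit 0x6040f1418103c5), (nat_lit 10)⟩))
(.nd (.lf ⟨(nat_lit 919), (nat_lit 2), (nat_lit 0x5ce), (nat_lit 2)⟩)
(.lf ⟨(nat_lit 0x902902), (nat_lit 4), (nat_lit 0), (nat_lit 0)⟩)))
(.nd (.nd (.lf ⟨(nat_lit 5), (nat_lit 1), (nat_lit 0xc10c1), (nat_lit 4)⟩)
(.lf ⟨(nat_lit 0x6a78a1), (nat_lit 4), (nat_lit 0x85b7e78a19e285f6da9e2), (nat_lit 14)⟩))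
(.lf ⟨(nat_lit 0x20b27827), (nat_lit 5), (nat_lit 0x2782c9e0), (nat_lit 5)⟩)))
(.nd (.nd (.nd (.lf ⟨(nat_lit 0x45d), (nat_lit 2), (nat_lit 0x751), (nat_lit 2)⟩)
(.lf ⟨(nat_lit 0x1d0e17592c3), (nat_lit 7), (nat_lit 0xca103284), (nat_lit 6)⟩))
(.lf ⟨(nat_lit 87), (nat_lit 2), (nat_lit 0x75c1), (nat_lit 3)⟩))
(.nd (.nd (.lf ⟨(nat_lit 0x707), (nat_lit 2), (nat_lit 476), (nat_lit 2)⟩)
(.lf ⟨(nat_lit 0x6ae), (nat_lit 2), (nat_lit 0xb9a), (nat_lit 2)⟩))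
(.lf ⟨(nat_lit 666), (nat_lit 2), (nat_lit 0x3e180f86068a), (nat_lit 8)⟩)))))
(.nd (.nd (.nd (.nd (.nd (.lf ⟨(nat_lit 208), (nat_lit 2), (nat_lit 0x1a403), (nat_lit 3)⟩)
(.lf ⟨(nat_lit 0x826), (nat_lit 2), (nat_lit 0x9a0), (nat_lit 2)⟩))
(.nd (.lf ⟨(nat_lit 0x6c76c7), (nat_lit 4), (nat_lit 0x1db1db), (nat_lit 4)⟩)
(.lf ⟨(nat_lit 0x18ba9), (nat_lit 3), (nat_lit 0x2962e), (nat_lit 3)⟩)))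
(.nd (.nd (.lf ⟨(nat_lit 0x469), (nat_lit 2), (nat_lit 0xa51), (nat_lit 2)⟩)
(.lf ⟨(nat_lit 976), (nat_lit 2), (nat_lit 0x2440f), (nat_lit 3)⟩))
(.lf ⟨(nat_lit 0x5a26de), (nat_lit 4), (nat_lit 0x5db79b5d689b), (nat_lit 8)⟩)))
(.nd (.nd (.nd (.lf ⟨(nat_lit 80), (nat_lit 2), (nat_lit 0x401), (nat_lit 2)⟩)
(.lf ⟨(nat_lit 0x8528528214a14a), (nat_lit 10), (nat_lit 0x8528528214a14a), (nat_lit 10)⟩))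
(.lf ⟨(nat_lit 24), (nat_lit 1), (nat_lit 0x24a24a), (nat_lit 4)⟩))
(.nd (.nd (.lf ⟨(nat_lit 8), (nat_lit 1), (nat_lit 0x1ce345), (nat_lit 4)⟩)
(.lf ⟨(nat_lit 0x7ea7e9), (nat_lit 4), (nat_lit 0xa5fa9f), (nat_lit 4)⟩))
(.lf ⟨(nat_lit 0x5e0), (nat_lit 2), (nat_lit 0x817), (nat_lit 2)⟩))))
(.nd (.nd (.nd (.nd (.lf ⟨(nat_lit 0xaaa), (nat_lit 2), (nat_lit 0), (nat_lit 0)⟩)
(.lf ⟨(nat_lit 0x665), (nat_lit 2), (nat_lit 0x959), (nat_lit 2)⟩))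
(.lf ⟨(nat_lit 0x560), (nat_lit 2), (nat_lit 0x815), (nat_lit 2)⟩))
(.nd (.nd (.lf ⟨(nat_lit 10), (nat_lit 1), (nat_lit 0x84084), (nat_lit 4)⟩)
(.lf ⟨(nat_lit 164), (nat_lit 2), (nat_lit 0x902), (nat_lit 2)⟩))
(.lf ⟨(nat_lit 0x41f), (nat_lit 2), (nat_lit 0x95f6df6e57d0), (nat_lit 8)⟩)))
(.nd (.nd (.nd (.lf ⟨(nat_lit 0xa6e), (nat_lit 2), (nat_lit 0xba9), (nat_lit 2)⟩)
(.lf ⟨(nat_lit 0x424), (nat_lit 2), (nat_lit 0x910), (nat_lit 2)⟩))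
(.lf ⟨(nat_lit 131), (nat_lit 2), (nat_lit 0x1e0c2), (nat_lit 3)⟩))
(.nd (.nd (.lf ⟨(nat_lit 0x527), (nat_lit 2), (nat_lit 0x9d4), (nat_lit 2)⟩)
(.lf ⟨(nat_lit 0x6a285f), (nat_lit 4), (nat_lit 0x9df9da8a1), (nat_lit 6)⟩))
(.lf ⟨(nat_lit 0x61a), (nat_lit 2), (nat_lit 0x698), (nat_lit 2)⟩))))))))))

/-- Substitution. -/
def s24 : List (ℕ × ℕ) := [((nat_lit 1), (nat_lit 1)), ((nat_lit 3), (nat_lit 1)), ((nat_lit 2), (nat_lit 1)), ((nat_lit 11), (nat_lit 1)), ((nat_lit 5), (nat_lit 1)), ((nat_lit 8), (nat_lit 1)), ((nat_lit 16), (nat_lit 1)), ((nat_lit 17), (nat_lit 1)), ((nat_lit 454), (nat_lit 2)), ((nat_lit 26), (nat_lit 1)), ((nat_lit 25), (nat_lit 1)), ((nat_lit 28), (nat_lit 1)), ((nat_lit 7), (nat_lit 1))]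

/-- Context. -/
noncomputable def x24 : ℕ → ℕ × ℕ :=
  mkc d22 815 s22 x22 (nth [] (Cl.alts H3.cl) 1)

set_option maxRecDepth 100000 in
/-- Facts. -/
noncomputable def d25 : Tr :=
(.nd (.nd (.nd (.nd (.nd (.nd (.nd (.lf ⟨(nat_lit 65), (nat_lit 2), (nat_lit 0), (nat_lit 0)⟩)
(.lf ⟨(nat_lit 0x867), (nat_lit 2), (nat_lit 0x9e1), (nat_lit 2)⟩))
(.nd (.lf ⟨(nat_lit 103), (nat_lit 2), (nat_lit 0x2c9c1), (nat_lit 3)⟩)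
(.lf ⟨(nat_lit 728), (nat_lit 2), (nat_lit 0x2760b), (nat_lit 3)⟩)))
(.nd (.nd (.lf ⟨(nat_lit 0x6db), (nat_lit 2), (nat_lit 0), (nat_lit 0)⟩)
(.lf ⟨(nat_lit 675), (nat_lit 2), (nat_lit 0x8dc62371162344a), (nat_lit 10)⟩))
(.nd (.lf ⟨(nat_lit 0x625), (nat_lit 2), (nat_lit 0x958), (nat_lit 2)⟩)
(.lf ⟨(nat_lit 139), (nat_lit 2), (nat_lit 0x2789a2c2), (nat_lit 5)⟩))))
(.nd (.nd (.nd (.lf ⟨(nat_lit 132), (nat_lit 2), (nat_lit 0xa102), (nat_lit 3)⟩)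
(.lf ⟨(nat_lit 0x8ac), (nat_lit 2), (nat_lit 0xb22), (nat_lit 2)⟩))
(.nd (.lf ⟨(nat_lit 0x6e2), (nat_lit 2), (nat_lit 0x89b), (nat_lit 2)⟩)
(.lf ⟨(nat_lit 0x7e7), (nat_lit 2), (nat_lit 0x9df), (nat_lit 2)⟩)))
(.nd (.nd (.lf ⟨(nat_lit 284), (nat_lit 2), (nat_lit 0x23704), (nat_lit 3)⟩)
(.lf ⟨(nat_lit 36), (nat_lit 1), (nat_lit 0), (nat_lit 0)⟩))
(.lf ⟨(nat_lit 0x69f), (nat_lit 2), (nat_lit 0x7da), (nat_lit 2)⟩))))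
(.nd (.nd (.nd (.nd (.lf ⟨(nat_lit 325), (nat_lit 2), (nat_lit 0), (nat_lit 0)⟩)
(.lf ⟨(nat_lit 0x6aa), (nat_lit 2), (nat_lit 0xa9a), (nat_lit 2)⟩))
(.nd (.lf ⟨(nat_lit 203), (nat_lit 2), (nat_lit 707), (nat_lit 2)⟩)
(.lf ⟨(nat_lit 28), (nat_lit 1), (nat_lit 0), (nat_lit 0)⟩)))
(.nd (.nd (.lf ⟨(nat_lit 216), (nat_lit 2), (nat_lit 0x1f603), (nat_lit 3)⟩)
(.lf ⟨(nat_lit 728), (nat_lit 2), (nat_lit 0xa6760b), (nat_lit 4)⟩))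
(.nd (.lf ⟨(nat_lit 613), (nat_lit 2), (nat_lit 0x949), (nat_lit 2)⟩)
(.lf ⟨(nat_lit 0x7ec), (nat_lit 2), (nat_lit 0xb1f), (nat_lit 2)⟩))))
(.nd (.nd (.nd (.lf ⟨(nat_lit 0x451), (nat_lit 2), (nat_lit 0), (nat_lit 0)⟩)
(.lf ⟨(nat_lit 207), (nat_lit 2), (nat_lit 0x9e285a3c3), (nat_lit 6)⟩))
(.nd (.lf ⟨(nat_lit 90), (nat_lit 2), (nat_lit 0x681), (nat_lit 2)⟩)
(.lf ⟨(nat_lit 42), (nat_lit 1), (nat_lit 0), (nat_lit 0)⟩)))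
(.nd (.nd (.lf ⟨(nat_lit 292), (nat_lit 2), (nat_lit 0x29904), (nat_lit 3)⟩)
(.lf ⟨(nat_lit 133), (nat_lit 2), (nat_lit 0x278a1142), (nat_lit 5)⟩))
(.lf ⟨(nat_lit 225), (nat_lit 2), (nat_lit 0x843), (nat_lit 2)⟩)))))
(.nd (.nd (.nd (.nd (.nd (.lf ⟨(nat_lit 195), (nat_lit 2), (nat_lit 0), (nat_lit 0)⟩)
(.lf ⟨(nat_lit 0x7e2), (nat_lit 2), (nat_lit 0x89f), (nat_lit 2)⟩))
(.nd (.lf ⟨(nat_lit 197), (nat_lit 2), (nat_lit 323), (nat_lit 2)⟩)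
(.lf ⟨(nat_lit 231), (nat_lit 2), (nat_lit 0x1f86a6df9e16c3), (nat_lit 9)⟩)))
(.nd (.nd (.lf ⟨(nat_lit 81), (nat_lit 2), (nat_lit 0x1c441), (nat_lit 3)⟩)
(.lf ⟨(nat_lit 738), (nat_lit 2), (nat_lit 0x2295f6df9db698ba296789a60b), (nat_lit 17)⟩))
(.nd (.lf ⟨(nat_lit 0x62a), (nat_lit 2), (nat_lit 0xa98), (nat_lit 2)⟩)
(.lf ⟨(nat_lit 231), (nat_lit 2), (nat_lit 0x9c3), (nat_lit 2)⟩))))
(.nd (.nd (.nd (.lf ⟨(nat_lit 196), (nat_lit 2), (nat_lit 0xb103), (nat_lit 3)⟩)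
(.lf ⟨(nat_lit 133), (nat_lit 2), (nat_lit 0x9e48a1142), (nat_lit 6)⟩))
(.nd (.lf ⟨(nat_lit 0x8a7), (nat_lit 2), (nat_lit 0x9e2), (nat_lit 2)⟩)
(.lf ⟨(nat_lit 0x622), (nat_lit 2), (nat_lit 0x898), (nat_lit 2)⟩)))
(.nd (.nd (.lf ⟨(nat_lit 95), (nat_lit 2), (nat_lit 0x257c1), (nat_lit 3)⟩)
(.lf ⟨(nat_lit 46), (nat_lit 1), (nat_lit 0), (nat_lit 0)⟩))
(.lf ⟨(nat_lit 651), (nat_lit 2), (nat_lit 0x212ca), (nat_lit 3)⟩))))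
(.nd (.nd (.nd (.nd (.lf ⟨(nat_lit 68), (nat_lit 2), (nat_lit 0x9101), (nat_lit 3)⟩)
(.lf ⟨(nat_lit 0x6a2), (nat_lit 2), (nat_lit 0x89a), (nat_lit 2)⟩))
(.nd (.lf ⟨(nat_lit 984), (nat_lit 2), (nat_lit 0x60f), (nat_lit 2)⟩)
(.lf ⟨(nat_lit 0x627), (nat_lit 2), (nat_lit 0x9d8), (nat_lit 2)⟩)))
(.nd (.nd (.lf ⟨(nat_lit 0x8a2), (nat_lit 2), (nat_lit 0), (nat_lit 0)⟩)
(.lf ⟨(nat_lit 231), (nat_lit 2), (nat_lit 0x7e962e86a6dfa589e16c3), (nat_lit 14)⟩))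
(.nd (.lf ⟨(nat_lit 226), (nat_lit 2), (nat_lit 0x883), (nat_lit 2)⟩)
(.lf ⟨(nat_lit 0x4083083), (nat_lit 5), (nat_lit 0x20c20c4), (nat_lit 5)⟩))))
(.nd (.nd (.nd (.lf ⟨(nat_lit 0x618), (nat_lit 2), (nat_lit 0), (nat_lit 0)⟩)
(.lf ⟨(nat_lit 0x22964), (nat_lit 3), (nat_lit 0x27aa59e48aa), (nat_lit 7)⟩))
(.nd (.lf ⟨(nat_lit 0x69b), (nat_lit 2), (nat_lit 0x6da), (nat_lit 2)⟩)
(.lf ⟨(nat_lit 0x7ec), (nat_lit 2), (nat_lit 0x96c95f), (nat_lit 4)⟩)))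
(.nd (.nd (.lf ⟨(nat_lit 293), (nat_lit 2), (nat_lit 0x2a944), (nat_lit 3)⟩)
(.lf ⟨(nat_lit 0x8a5), (nat_lit 2), (nat_lit 0x9ea9678aa), (nat_lit 6)⟩))
(.lf ⟨(nat_lit 209), (nat_lit 2), (nat_lit 0x443), (nat_lit 2)⟩))))))
(.nd (.nd (.nd (.nd (.nd (.nd (.lf ⟨(nat_lit 130), (nat_lit 2), (nat_lit 0), (nat_lit 0)⟩)
(.lf ⟨(nat_lit 0x6a7), (nat_lit 2), (nat_lit 0x9da), (nat_lit 2)⟩))
(.nd (.lf ⟨(nat_lit 233), (nat_lit 2), (nat_lit 0x2ea43), (nat_lit 3)⟩)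
(.lf ⟨(nat_lit 287), (nat_lit 2), (nat_lit 0x1f627604), (nat_lit 5)⟩)))
(.nd (.nd (.lf ⟨(nat_lit 0x71c), (nat_lit 2), (nat_lit 0), (nat_lit 0)⟩)
(.lf ⟨(nat_lit 0x7ea), (nat_lit 2), (nat_lit 31), (nat_lit 1)⟩))
(.nd (.lf ⟨(nat_lit 0x6ec), (nat_lit 2), (nat_lit 0xb1b), (nat_lit 2)⟩)
(.lf ⟨(nat_lit 0x62c), (nat_lit 2), (nat_lit 0xb18), (nat_lit 2)⟩))))
(.nd (.nd (.nd (.lf ⟨(nat_lit 715), (nat_lit 2), (nat_lit 0), (nat_lit 0)⟩)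
(.lf ⟨(nat_lit 991), (nat_lit 2), (nat_lit 0x7cf), (nat_lit 2)⟩))
(.nd (.lf ⟨(nat_lit 0x7e5), (nat_lit 2), (nat_lit 0x95f), (nat_lit 2)⟩)
(.lf ⟨(nat_lit 0x1f86a), (nat_lit 3), (nat_lit 0x21aa17e1), (nat_lit 5)⟩)))
(.nd (.nd (.lf ⟨(nat_lit 0x965), (nat_lit 2), (nat_lit 0), (nat_lit 0)⟩)
(.lf ⟨(nat_lit 41), (nat_lit 1), (nat_lit 0), (nat_lit 0)⟩))
(.lf ⟨(nat_lit 0x6a1), (nat_lit 2), (nat_lit 0x85a), (nat_lit 2)⟩))))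
(.nd (.nd (.nd (.nd (.lf ⟨(nat_lit 585), (nat_lit 2), (nat_lit 0), (nat_lit 0)⟩)
(.lf ⟨(nat_lit 0x6ac), (nat_lit 2), (nat_lit 0xb1a), (nat_lit 2)⟩))
(.nd (.lf ⟨(nat_lit 218), (nat_lit 2), (nat_lit 0x683), (nat_lit 2)⟩)
(.lf ⟨(nat_lit 0x6df), (nat_lit 2), (nat_lit 0x278a1aa17e789b), (nat_lit 9)⟩)))
(.nd (.nd (.lf ⟨(nat_lit 0x861), (nat_lit 2), (nat_lit 0), (nat_lit 0)⟩)
(.lf ⟨(nat_lit 287), (nat_lit 2), (nat_lit 0x7e9627604), (nat_lit 6)⟩))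
(.nd (.lf ⟨(nat_lit 615), (nat_lit 2), (nat_lit 0x9c9), (nat_lit 2)⟩)
(.lf ⟨(nat_lit 738), (nat_lit 2), (nat_lit 0x88b), (nat_lit 2)⟩))))
(.nd (.nd (.nd (.lf ⟨(nat_lit 139), (nat_lit 2), (nat_lit 0x112c2), (nat_lit 3)⟩)
(.lf ⟨(nat_lit 743), (nat_lit 2), (nat_lit 0x9cb), (nat_lit 2)⟩))
(.nd (.lf ⟨(nat_lit 730), (nat_lit 2), (nat_lit 0x68b), (nat_lit 2)⟩)
(.lf ⟨(nat_lit 0x967), (nat_lit 2), (nat_lit 0x9e5), (nat_lit 2)⟩)))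
(.nd (.nd (.lf ⟨(nat_lit 0xaaa), (nat_lit 2), (nat_lit 0), (nat_lit 0)⟩)
(.lf ⟨(nat_lit 202), (nat_lit 2), (nat_lit 0x9e285a283), (nat_lit 6)⟩))
(.lf ⟨(nat_lit 0x6e1), (nat_lit 2), (nat_lit 0x85b), (nat_lit 2)⟩)))))
(.nd (.nd (.nd (.nd (.nd (.lf ⟨(nat_lit 260), (nat_lit 2), (nat_lit 0), (nat_lit 0)⟩)
(.lf ⟨(nat_lit 0x621), (nat_lit 2), (nat_lit 0x858), (nat_lit 2)⟩))
(.nd (.lf ⟨(nat_lit 138), (nat_lit 2), (nat_lit 642), (nat_lit 2)⟩)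
(.lf ⟨(nat_lit 17), (nat_lit 1), (nat_lit 0x2789a), (nat_lit 3)⟩)))
(.nd (.nd (.lf ⟨(nat_lit 0x7df), (nat_lit 2), (nat_lit 0), (nat_lit 0)⟩)
(.lf ⟨(nat_lit 0x61b), (nat_lit 2), (nat_lit 0x6d8), (nat_lit 2)⟩))
(.nd (.lf ⟨(nat_lit 607), (nat_lit 2), (nat_lit 0x257c9), (nat_lit 3)⟩)
(.lf ⟨(nat_lit 0x6df), (nat_lit 2), (nat_lit 0x7db), (nat_lit 2)⟩))))
(.nd (.nd (.nd (.lf ⟨(nat_lit 975), (nat_lit 2), (nat_lit 0), (nat_lit 0)⟩)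
(.lf ⟨(nat_lit 202), (nat_lit 2), (nat_lit 0x2792285a283), (nat_lit 7)⟩))
(.nd (.lf ⟨(nat_lit 0x9ec), (nat_lit 2), (nat_lit 0xb27), (nat_lit 2)⟩)
(.lf ⟨(nat_lit 0x7e1), (nat_lit 2), (nat_lit 0x278a1aa789f), (nat_lit 7)⟩)))
(.nd (.nd (.lf ⟨(nat_lit 0x9e7), (nat_lit 2), (nat_lit 0), (nat_lit 0)⟩)
(.lf ⟨(nat_lit 131), (nat_lit 2), (nat_lit 194), (nat_lit 2)⟩))
(.lf ⟨(nat_lit 131), (nat_lit 2), (nat_lit 0x240c2), (nat_lit 3)⟩))))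
(.nd (.nd (.nd (.nd (.lf ⟨(nat_lit 650), (nat_lit 2), (nat_lit 0), (nat_lit 0)⟩)
(.lf ⟨(nat_lit 98), (nat_lit 2), (nat_lit 0x2c881), (nat_lit 3)⟩))
(.nd (.lf ⟨(nat_lit 0x61f), (nat_lit 2), (nat_lit 0x7d8), (nat_lit 2)⟩)
(.lf ⟨(nat_lit 35), (nat_lit 1), (nat_lit 0), (nat_lit 0)⟩)))
(.nd (.nd (.lf ⟨(nat_lit 0x8e3), (nat_lit 2), (nat_lit 0), (nat_lit 0)⟩)
(.lf ⟨(nat_lit 194), (nat_lit 2), (nat_lit 131), (nat_lit 2)⟩))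
(.lf ⟨(nat_lit 0x61a), (nat_lit 2), (nat_lit 0x698), (nat_lit 2)⟩)))
(.nd (.nd (.nd (.lf ⟨(nat_lit 0x69a), (nat_lit 2), (nat_lit 0), (nat_lit 0)⟩)
(.lf ⟨(nat_lit 0x7e78a1), (nat_lit 4), (nat_lit 0x9e285f), (nat_lit 4)⟩))
(.nd (.lf ⟨(nat_lit 0x6e7), (nat_lit 2), (nat_lit 0x9db), (nat_lit 2)⟩)
(.lf ⟨(nat_lit 37), (nat_lit 1), (nat_lit 44), (nat_lit 1)⟩)))
(.nd (.nd (.lf ⟨(nat_lit 0xb2c), (nat_lit 2), (nat_lit 0), (nat_lit 0)⟩)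
(.lf ⟨(nat_lit 738), (nat_lit 2), (nat_lit 0x9ea9678aa7db7e76da627aa59e2aa789a60b), (nat_lit 24)⟩))
(.lf ⟨(nat_lit 0x862), (nat_lit 2), (nat_lit 0x8a1), (nat_lit 2)⟩)))))))

/-- Context. -/
noncomputable def x25 : ℕ → ℕ × ℕ :=
  mkc d24 830 s24 x24 (nth [] (Cl.alts H3.cl) 0)

set_option maxRecDepth 100000 in
/-- Facts. -/
noncomputable def d26 : Tr :=
(.nd (.nd (.nd (.nd (.nd (.nd (.nd (.nd (.lf ⟨(nat_lit 65), (nat_lit 2), (nat_lit 0), (nat_lit 0)⟩)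
(.lf ⟨(nat_lit 0x7e7), (nat_lit 2), (nat_lit 0x27a9f), (nat_lit 3)⟩))
(.lf ⟨(nat_lit 0x86e), (nat_lit 2), (nat_lit 0xba1), (nat_lit 2)⟩))
(.nd (.lf ⟨(nat_lit 233), (nat_lit 2), (nat_lit 0x2ea43), (nat_lit 3)⟩)
(.lf ⟨(nat_lit 0x22964), (nat_lit 3), (nat_lit 0x27aa59e48aa), (nat_lit 7)⟩)))
(.nd (.nd (.nd (.lf ⟨(nat_lit 0x69a), (nat_lit 2), (nat_lit 0), (nat_lit 0)⟩)
(.lf ⟨(nat_lit 0x4083083), (nat_lit 5), (nat_lit 0x20c20c4), (nat_lit 5)⟩))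
(.lf ⟨(nat_lit 0x6a7), (nat_lit 2), (nat_lit 0x9da), (nat_lit 2)⟩))
(.nd (.lf ⟨(nat_lit 0x427), (nat_lit 2), (nat_lit 0x9d0), (nat_lit 2)⟩)
(.lf ⟨(nat_lit 36), (nat_lit 1), (nat_lit 0), (nat_lit 0)⟩))))
(.nd (.nd (.nd (.nd (.lf ⟨(nat_lit 132), (nat_lit 2), (nat_lit 0xa102), (nat_lit 3)⟩)
(.lf ⟨(nat_lit 651), (nat_lit 2), (nat_lit 714), (nat_lit 2)⟩))
(.lf ⟨(nat_lit 131), (nat_lit 2), (nat_lit 0x240c2), (nat_lit 3)⟩))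
(.nd (.lf ⟨(nat_lit 0x41a), (nat_lit 2), (nat_lit 0x690), (nat_lit 2)⟩)
(.lf ⟨(nat_lit 0x61b), (nat_lit 2), (nat_lit 0x6d8), (nat_lit 2)⟩)))
(.nd (.nd (.lf ⟨(nat_lit 0x9e7), (nat_lit 2), (nat_lit 0), (nat_lit 0)⟩)
(.lf ⟨(nat_lit 0x627922), (nat_lit 4), (nat_lit 0x9e4898), (nat_lit 4)⟩))
(.nd (.lf ⟨(nat_lit 986), (nat_lit 2), (nat_lit 0x68f), (nat_lit 2)⟩)
(.lf ⟨(nat_lit 202), (nat_lit 2), (nat_lit 0x9e285a283), (nat_lit 6)⟩)))))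
(.nd (.nd (.nd (.nd (.nd (.lf ⟨(nat_lit 325), (nat_lit 2), (nat_lit 0), (nat_lit 0)⟩)
(.lf ⟨(nat_lit 0x62c), (nat_lit 2), (nat_lit 0x2cad8), (nat_lit 3)⟩))
(.lf ⟨(nat_lit 987), (nat_lit 2), (nat_lit 0x2189bb69862a618ada619e19ac9e68a13e9), (nat_lit 23)⟩))
(.nd (.lf ⟨(nat_lit 218), (nat_lit 2), (nat_lit 0x683), (nat_lit 2)⟩)
(.lf ⟨(nat_lit 45), (nat_lit 1), (nat_lit 0), (nat_lit 0)⟩)))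
(.nd (.nd (.lf ⟨(nat_lit 0x8a2), (nat_lit 2), (nat_lit 0), (nat_lit 0)⟩)
(.lf ⟨(nat_lit 0x6ac), (nat_lit 2), (nat_lit 0xb1a), (nat_lit 2)⟩))
(.nd (.lf ⟨(nat_lit 607), (nat_lit 2), (nat_lit 0x257c9), (nat_lit 3)⟩)
(.lf ⟨(nat_lit 46), (nat_lit 1), (nat_lit 0), (nat_lit 0)⟩))))
(.nd (.nd (.nd (.nd (.lf ⟨(nat_lit 0x410), (nat_lit 2), (nat_lit 0), (nat_lit 0)⟩)
(.lf ⟨(nat_lit 0x7e7), (nat_lit 2), (nat_lit 0x9df), (nat_lit 2)⟩))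
(.lf ⟨(nat_lit 0x6e1), (nat_lit 2), (nat_lit 0x85b), (nat_lit 2)⟩))
(.nd (.lf ⟨(nat_lit 0x8a7), (nat_lit 2), (nat_lit 0x9e2), (nat_lit 2)⟩)
(.lf ⟨(nat_lit 217), (nat_lit 2), (nat_lit 0x643), (nat_lit 2)⟩)))
(.nd (.nd (.lf ⟨(nat_lit 293), (nat_lit 2), (nat_lit 0x2a944), (nat_lit 3)⟩)
(.lf ⟨(nat_lit 133), (nat_lit 2), (nat_lit 0x9e48a1142), (nat_lit 6)⟩))
(.nd (.lf ⟨(nat_lit 0x6a1), (nat_lit 2), (nat_lit 0x85a), (nat_lit 2)⟩)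
(.lf ⟨(nat_lit 287), (nat_lit 2), (nat_lit 0x1f627604), (nat_lit 5)⟩))))))
(.nd (.nd (.nd (.nd (.nd (.nd (.lf ⟨(nat_lit 195), (nat_lit 2), (nat_lit 0), (nat_lit 0)⟩)
(.lf ⟨(nat_lit 42), (nat_lit 1), (nat_lit 0), (nat_lit 0)⟩))
(.lf ⟨(nat_lit 740), (nat_lit 2), (nat_lit 0x90b), (nat_lit 2)⟩))
(.nd (.lf ⟨(nat_lit 138), (nat_lit 2), (nat_lit 642), (nat_lit 2)⟩)
(.lf ⟨(nat_lit 300), (nat_lit 2), (nat_lit 0x2cac4), (nat_lit 3)⟩)))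
(.nd (.nd (.lf ⟨(nat_lit 0x7df), (nat_lit 2), (nat_lit 0), (nat_lit 0)⟩)
(.lf ⟨(nat_lit 0x7e2), (nat_lit 2), (nat_lit 0x89f), (nat_lit 2)⟩))
(.nd (.lf ⟨(nat_lit 0x625), (nat_lit 2), (nat_lit 0x958), (nat_lit 2)⟩)
(.lf ⟨(nat_lit 139), (nat_lit 2), (nat_lit 0x9e285a2c2), (nat_lit 6)⟩))))
(.nd (.nd (.nd (.nd (.lf ⟨(nat_lit 196), (nat_lit 2), (nat_lit 0xb103), (nat_lit 3)⟩)
(.lf ⟨(nat_lit 202), (nat_lit 2), (nat_lit 0x2789a283), (nat_lit 5)⟩))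
(.lf ⟨(nat_lit 228), (nat_lit 2), (nat_lit 0x903), (nat_lit 2)⟩))
(.nd (.lf ⟨(nat_lit 0x6e2), (nat_lit 2), (nat_lit 0x89b), (nat_lit 2)⟩)
(.lf ⟨(nat_lit 287), (nat_lit 2), (nat_lit 0x7e9627604), (nat_lit 6)⟩)))
(.nd (.nd (.lf ⟨(nat_lit 292), (nat_lit 2), (nat_lit 0x29904), (nat_lit 3)⟩)
(.lf ⟨(nat_lit 0x8ac), (nat_lit 2), (nat_lit 0xb22), (nat_lit 2)⟩))
(.nd (.lf ⟨(nat_lit 0x6a4), (nat_lit 2), (nat_lit 0x91a), (nat_lit 2)⟩)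
(.lf ⟨(nat_lit 738), (nat_lit 2), (nat_lit 0x9ea9678aa7e77da627aa59e2aa789a60b), (nat_lit 22)⟩)))))
(.nd (.nd (.nd (.nd (.nd (.lf ⟨(nat_lit 68), (nat_lit 2), (nat_lit 0x9101), (nat_lit 3)⟩)
(.lf ⟨(nat_lit 43), (nat_lit 1), (nat_lit 0), (nat_lit 0)⟩))
(.lf ⟨(nat_lit 0x7e4), (nat_lit 2), (nat_lit 0x91f), (nat_lit 2)⟩))
(.nd (.lf ⟨(nat_lit 720), (nat_lit 2), (nat_lit 0x40b), (nat_lit 2)⟩)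
(.lf ⟨(nat_lit 0x7ea), (nat_lit 2), (nat_lit 31), (nat_lit 1)⟩)))
(.nd (.nd (.lf ⟨(nat_lit 0x965), (nat_lit 2), (nat_lit 0), (nat_lit 0)⟩)
(.lf ⟨(nat_lit 0x6a2), (nat_lit 2), (nat_lit 0x89a), (nat_lit 2)⟩))
(.nd (.lf ⟨(nat_lit 615), (nat_lit 2), (nat_lit 0x9c9), (nat_lit 2)⟩)
(.lf ⟨(nat_lit 131), (nat_lit 2), (nat_lit 194), (nat_lit 2)⟩))))
(.nd (.nd (.nd (.nd (.lf ⟨(nat_lit 0x618), (nat_lit 2), (nat_lit 0), (nat_lit 0)⟩)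
(.lf ⟨(nat_lit 0x7ec), (nat_lit 2), (nat_lit 0xb1f), (nat_lit 2)⟩))
(.lf ⟨(nat_lit 0x862), (nat_lit 2), (nat_lit 0x8a1), (nat_lit 2)⟩))
(.nd (.lf ⟨(nat_lit 331), (nat_lit 2), (nat_lit 0x1a2c5), (nat_lit 3)⟩)
(.lf ⟨(nat_lit 17), (nat_lit 1), (nat_lit 473), (nat_lit 2)⟩)))
(.nd (.nd (.lf ⟨(nat_lit 103), (nat_lit 2), (nat_lit 0x2c9c1), (nat_lit 3)⟩)
(.lf ⟨(nat_lit 743), (nat_lit 2), (nat_lit 0x9cb), (nat_lit 2)⟩))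
(.nd (.lf ⟨(nat_lit 651), (nat_lit 2), (nat_lit 0x212ca), (nat_lit 3)⟩)
(.lf ⟨(nat_lit 33), (nat_lit 1), (nat_lit 0), (nat_lit 0)⟩)))))))
(.nd (.nd (.nd (.nd (.nd (.nd (.nd (.lf ⟨(nat_lit 130), (nat_lit 2), (nat_lit 0), (nat_lit 0)⟩)
(.lf ⟨(nat_lit 0x9ea), (nat_lit 2), (nat_lit 0xaa7), (nat_lit 2)⟩))
(.lf ⟨(nat_lit 0x421), (nat_lit 2), (nat_lit 0x850), (nat_lit 2)⟩))
(.nd (.lf ⟨(nat_lit 197), (nat_lit 2), (nat_lit 323), (nat_lit 2)⟩)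
(.lf ⟨(nat_lit 25), (nat_lit 1), (nat_lit 0x2792285a), (nat_lit 5)⟩)))
(.nd (.nd (.lf ⟨(nat_lit 0x6db), (nat_lit 2), (nat_lit 0), (nat_lit 0)⟩)
(.lf ⟨(nat_lit 0x927), (nat_lit 2), (nat_lit 0x9e4), (nat_lit 2)⟩))
(.nd (.lf ⟨(nat_lit 0x6e7), (nat_lit 2), (nat_lit 0x9db), (nat_lit 2)⟩)
(.lf ⟨(nat_lit 17), (nat_lit 1), (nat_lit 0x9e285a), (nat_lit 4)⟩))))
(.nd (.nd (.nd (.nd (.lf ⟨(nat_lit 715), (nat_lit 2), (nat_lit 0), (nat_lit 0)⟩)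
(.lf ⟨(nat_lit 139), (nat_lit 2), (nat_lit 0x2789a2c2), (nat_lit 5)⟩))
(.lf ⟨(nat_lit 0x8a4), (nat_lit 2), (nat_lit 0x922), (nat_lit 2)⟩))
(.nd (.lf ⟨(nat_lit 0x61f), (nat_lit 2), (nat_lit 0x7d8), (nat_lit 2)⟩)
(.lf ⟨(nat_lit 728), (nat_lit 2), (nat_lit 0xa6760b), (nat_lit 4)⟩)))
(.nd (.nd (.lf ⟨(nat_lit 0xa69), (nat_lit 2), (nat_lit 0), (nat_lit 0)⟩)
(.lf ⟨(nat_lit 98), (nat_lit 2), (nat_lit 0x2c881), (nat_lit 3)⟩))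
(.nd (.lf ⟨(nat_lit 0x61a), (nat_lit 2), (nat_lit 0x698), (nat_lit 2)⟩)
(.lf ⟨(nat_lit 0x8a5), (nat_lit 2), (nat_lit 0x9ea9678aa), (nat_lit 6)⟩)))))
(.nd (.nd (.nd (.nd (.nd (.lf ⟨(nat_lit 585), (nat_lit 2), (nat_lit 0), (nat_lit 0)⟩)
(.lf ⟨(nat_lit 0x7ec), (nat_lit 2), (nat_lit 0x96c95f), (nat_lit 4)⟩))
(.lf ⟨(nat_lit 8), (nat_lit 1), (nat_lit 0x9103c5), (nat_lit 4)⟩))
(.nd (.lf ⟨(nat_lit 283), (nat_lit 2), (nat_lit 0x6c4), (nat_lit 2)⟩)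
(.lf ⟨(nat_lit 0x9e9), (nat_lit 2), (nat_lit 0xa67), (nat_lit 2)⟩)))
(.nd (.nd (.lf ⟨(nat_lit 0x924), (nat_lit 2), (nat_lit 0), (nat_lit 0)⟩)
(.lf ⟨(nat_lit 0x6e9), (nat_lit 2), (nat_lit 0xa5b), (nat_lit 2)⟩))
(.nd (.lf ⟨(nat_lit 613), (nat_lit 2), (nat_lit 0x949), (nat_lit 2)⟩)
(.lf ⟨(nat_lit 0x7e77e7), (nat_lit 4), (nat_lit 0x2a9df9df), (nat_lit 5)⟩))))
(.nd (.nd (.nd (.nd (.lf ⟨(nat_lit 139), (nat_lit 2), (nat_lit 0x112c2), (nat_lit 3)⟩)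
(.lf ⟨(nat_lit 0x62c), (nat_lit 2), (nat_lit 0xb18), (nat_lit 2)⟩))
(.lf ⟨(nat_lit 0x422), (nat_lit 2), (nat_lit 0x890), (nat_lit 2)⟩))
(.nd (.lf ⟨(nat_lit 0x9ec), (nat_lit 2), (nat_lit 0xb27), (nat_lit 2)⟩)
(.lf ⟨(nat_lit 712), (nat_lit 2), (nat_lit 0x1920b), (nat_lit 3)⟩)))
(.nd (.nd (.lf ⟨(nat_lit 0xb2c), (nat_lit 2), (nat_lit 0), (nat_lit 0)⟩)
(.lf ⟨(nat_lit 202), (nat_lit 2), (nat_lit 0x2792285a283), (nat_lit 7)⟩))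
(.nd (.lf ⟨(nat_lit 0x864), (nat_lit 2), (nat_lit 0x921), (nat_lit 2)⟩)
(.lf ⟨(nat_lit 231), (nat_lit 2), (nat_lit 0x7d89e17e76d89e16c3), (nat_lit 12)⟩))))))
(.nd (.nd (.nd (.nd (.nd (.nd (.lf ⟨(nat_lit 260), (nat_lit 2), (nat_lit 0), (nat_lit 0)⟩)
(.lf ⟨(nat_lit 0x967), (nat_lit 2), (nat_lit 0x9e5), (nat_lit 2)⟩))
(.lf ⟨(nat_lit 0x6e4), (nat_lit 2), (nat_lit 0x91b), (nat_lit 2)⟩))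
(.nd (.lf ⟨(nat_lit 203), (nat_lit 2), (nat_lit 707), (nat_lit 2)⟩)
(.lf ⟨(nat_lit 0x629), (nat_lit 2), (nat_lit 0xa58), (nat_lit 2)⟩)))
(.nd (.nd (.lf ⟨(nat_lit 0x861), (nat_lit 2), (nat_lit 0), (nat_lit 0)⟩)
(.lf ⟨(nat_lit 0x621), (nat_lit 2), (nat_lit 0x858), (nat_lit 2)⟩))
(.nd (.lf ⟨(nat_lit 0x6ec), (nat_lit 2), (nat_lit 0xb1b), (nat_lit 2)⟩)
(.lf ⟨(nat_lit 41), (nat_lit 1), (nat_lit 0), (nat_lit 0)⟩))))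
(.nd (.nd (.nd (.nd (.lf ⟨(nat_lit 975), (nat_lit 2), (nat_lit 0), (nat_lit 0)⟩)
(.lf ⟨(nat_lit 231), (nat_lit 2), (nat_lit 0x9c3), (nat_lit 2)⟩))
(.lf ⟨(nat_lit 225), (nat_lit 2), (nat_lit 0x843), (nat_lit 2)⟩))
(.nd (.lf ⟨(nat_lit 0x7e5), (nat_lit 2), (nat_lit 0x95f), (nat_lit 2)⟩)
(.lf ⟨(nat_lit 231), (nat_lit 2), (nat_lit 0x7e962e86a6dfa589e16c3), (nat_lit 14)⟩)))
(.nd (.nd (.lf ⟨(nat_lit 0xaaa), (nat_lit 2), (nat_lit 0), (nat_lit 0)⟩)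
(.lf ⟨(nat_lit 0x1f9e48a1), (nat_lit 5), (nat_lit 0x2792285f), (nat_lit 5)⟩))
(.nd (.lf ⟨(nat_lit 0x6df6df), (nat_lit 4), (nat_lit 0x7db7db), (nat_lit 4)⟩)
(.lf ⟨(nat_lit 728), (nat_lit 2), (nat_lit 0x2760b), (nat_lit 3)⟩)))))
(.nd (.nd (.nd (.nd (.nd (.lf ⟨(nat_lit 650), (nat_lit 2), (nat_lit 0), (nat_lit 0)⟩)
(.lf ⟨(nat_lit 37), (nat_lit 1), (nat_lit 44), (nat_lit 1)⟩))
(.lf ⟨(nat_lit 7), (nat_lit 1), (nat_lit 36), (nat_lit 1)⟩))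
(.nd (.lf ⟨(nat_lit 984), (nat_lit 2), (nat_lit 0x60f), (nat_lit 2)⟩)
(.lf ⟨(nat_lit 738), (nat_lit 2), (nat_lit 0x2295f6df9db698ba296789a60b), (nat_lit 17)⟩)))
(.nd (.nd (.lf ⟨(nat_lit 95), (nat_lit 2), (nat_lit 0x257c1), (nat_lit 3)⟩)
(.lf ⟨(nat_lit 38), (nat_lit 1), (nat_lit 44), (nat_lit 1)⟩))
(.nd (.lf ⟨(nat_lit 226), (nat_lit 2), (nat_lit 0x883), (nat_lit 2)⟩)
(.lf ⟨(nat_lit 133), (nat_lit 2), (nat_lit 0x278a1142), (nat_lit 5)⟩))))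
(.nd (.nd (.nd (.nd (.lf ⟨(nat_lit 271), (nat_lit 2), (nat_lit 0x183c4), (nat_lit 3)⟩)
(.lf ⟨(nat_lit 738), (nat_lit 2), (nat_lit 0x88b), (nat_lit 2)⟩))
(.lf ⟨(nat_lit 0x867), (nat_lit 2), (nat_lit 0x9e1), (nat_lit 2)⟩))
(.nd (.lf ⟨(nat_lit 730), (nat_lit 2), (nat_lit 0x68b), (nat_lit 2)⟩)
(.lf ⟨(nat_lit 0x6df), (nat_lit 2), (nat_lit 0xaaea677e99db), (nat_lit 8)⟩)))
(.nd (.nd (.lf ⟨(nat_lit 0xbae), (nat_lit 2), (nat_lit 0), (nat_lit 0)⟩)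
(.lf ⟨(nat_lit 719), (nat_lit 2), (nat_lit 0x278a13cb), (nat_lit 5)⟩))
(.nd (.lf ⟨(nat_lit 0x869), (nat_lit 2), (nat_lit 0xa61), (nat_lit 2)⟩)
(.lf ⟨(nat_lit 0x627), (nat_lit 2), (nat_lit 0x9d8), (nat_lit 2)⟩))))))))

/-- Context. -/
noncomputable def x26 : ℕ → ℕ × ℕ :=
  mkc d24 830 s24 x24 (nth [] (Cl.alts H3.cl) 1)

set_option maxRecDepth 100000 in
/-- Facts. -/
noncomputable def d27 : Tr :=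
(.nd (.nd (.nd (.nd (.nd (.nd (.lf ⟨(nat_lit 65), (nat_lit 2), (nat_lit 0), (nat_lit 0)⟩)
(.lf ⟨(nat_lit 28), (nat_lit 1), (nat_lit 0), (nat_lit 0)⟩))
(.nd (.lf ⟨(nat_lit 292), (nat_lit 2), (nat_lit 0x29904), (nat_lit 3)⟩)
(.lf ⟨(nat_lit 0x4083083), (nat_lit 5), (nat_lit 0x20c20c4), (nat_lit 5)⟩)))
(.nd (.nd (.lf ⟨(nat_lit 196), (nat_lit 2), (nat_lit 0xb103), (nat_lit 3)⟩)
(.lf ⟨(nat_lit 36), (nat_lit 1), (nat_lit 41), (nat_lit 1)⟩))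
(.lf ⟨(nat_lit 0x864), (nat_lit 2), (nat_lit 0x921), (nat_lit 2)⟩)))
(.nd (.nd (.nd (.lf ⟨(nat_lit 585), (nat_lit 2), (nat_lit 0), (nat_lit 0)⟩)
(.lf ⟨(nat_lit 35), (nat_lit 1), (nat_lit 0), (nat_lit 0)⟩))
(.lf ⟨(nat_lit 0x929), (nat_lit 2), (nat_lit 0xa64), (nat_lit 2)⟩))
(.nd (.nd (.lf ⟨(nat_lit 0x924), (nat_lit 2), (nat_lit 0), (nat_lit 0)⟩)
(.lf ⟨(nat_lit 26), (nat_lit 1), (nat_lit 0x9e2), (nat_lit 2)⟩))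
(.lf ⟨(nat_lit 7), (nat_lit 1), (nat_lit 36), (nat_lit 1)⟩))))
(.nd (.nd (.nd (.nd (.lf ⟨(nat_lit 195), (nat_lit 2), (nat_lit 0), (nat_lit 0)⟩)
(.lf ⟨(nat_lit 28), (nat_lit 1), (nat_lit 0), (nat_lit 0)⟩))
(.lf ⟨(nat_lit 203), (nat_lit 2), (nat_lit 707), (nat_lit 2)⟩))
(.nd (.nd (.lf ⟨(nat_lit 0x8a2), (nat_lit 2), (nat_lit 0), (nat_lit 0)⟩)
(.lf ⟨(nat_lit 131), (nat_lit 2), (nat_lit 194), (nat_lit 2)⟩))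
(.lf ⟨(nat_lit 593), (nat_lit 2), (nat_lit 0xa68923449), (nat_lit 6)⟩)))
(.nd (.nd (.nd (.lf ⟨(nat_lit 132), (nat_lit 2), (nat_lit 0xa102), (nat_lit 3)⟩)
(.lf ⟨(nat_lit 33), (nat_lit 1), (nat_lit 41), (nat_lit 1)⟩))
(.lf ⟨(nat_lit 612), (nat_lit 2), (nat_lit 0x909), (nat_lit 2)⟩))
(.nd (.nd (.lf ⟨(nat_lit 99), (nat_lit 2), (nat_lit 0x288c1), (nat_lit 3)⟩)
(.lf ⟨(nat_lit 651), (nat_lit 2), (nat_lit 714), (nat_lit 2)⟩))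
(.lf ⟨(nat_lit 202), (nat_lit 2), (nat_lit 0x2792285a283), (nat_lit 7)⟩)))))
(.nd (.nd (.nd (.nd (.nd (.lf ⟨(nat_lit 130), (nat_lit 2), (nat_lit 0), (nat_lit 0)⟩)
(.lf ⟨(nat_lit 17), (nat_lit 1), (nat_lit 36), (nat_lit 1)⟩))
(.lf ⟨(nat_lit 138), (nat_lit 2), (nat_lit 642), (nat_lit 2)⟩))
(.nd (.nd (.lf ⟨(nat_lit 139), (nat_lit 2), (nat_lit 0x112c2), (nat_lit 3)⟩)
(.lf ⟨(nat_lit 41), (nat_lit 1), (nat_lit 0), (nat_lit 0)⟩))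
(.lf ⟨(nat_lit 651), (nat_lit 2), (nat_lit 0x212ca), (nat_lit 3)⟩)))
(.nd (.nd (.nd (.lf ⟨(nat_lit 650), (nat_lit 2), (nat_lit 0), (nat_lit 0)⟩)
(.lf ⟨(nat_lit 40), (nat_lit 1), (nat_lit 0), (nat_lit 0)⟩))
(.lf ⟨(nat_lit 105), (nat_lit 2), (nat_lit 0xa41), (nat_lit 2)⟩))
(.nd (.nd (.lf ⟨(nat_lit 0x9e7), (nat_lit 2), (nat_lit 0), (nat_lit 0)⟩)
(.lf ⟨(nat_lit 139), (nat_lit 2), (nat_lit 706), (nat_lit 2)⟩))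
(.lf ⟨(nat_lit 131), (nat_lit 2), (nat_lit 0x240c2), (nat_lit 3)⟩))))
(.nd (.nd (.nd (.nd (.lf ⟨(nat_lit 260), (nat_lit 2), (nat_lit 0), (nat_lit 0)⟩)
(.lf ⟨(nat_lit 139), (nat_lit 2), (nat_lit 0x242c2), (nat_lit 3)⟩))
(.lf ⟨(nat_lit 0x8a7), (nat_lit 2), (nat_lit 0x9e2), (nat_lit 2)⟩))
(.nd (.nd (.lf ⟨(nat_lit 284), (nat_lit 2), (nat_lit 0x23704), (nat_lit 3)⟩)
(.lf ⟨(nat_lit 202), (nat_lit 2), (nat_lit 0x2789a283), (nat_lit 5)⟩))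
(.lf ⟨(nat_lit 97), (nat_lit 2), (nat_lit 0x24841), (nat_lit 3)⟩)))
(.nd (.nd (.nd (.lf ⟨(nat_lit 715), (nat_lit 2), (nat_lit 0), (nat_lit 0)⟩)
(.lf ⟨(nat_lit 651), (nat_lit 2), (nat_lit 0x292ca), (nat_lit 3)⟩))
(.lf ⟨(nat_lit 273), (nat_lit 2), (nat_lit 0x21444), (nat_lit 3)⟩))
(.nd (.nd (.lf ⟨(nat_lit 0xa69), (nat_lit 2), (nat_lit 0), (nat_lit 0)⟩)
(.lf ⟨(nat_lit 202), (nat_lit 2), (nat_lit 643), (nat_lit 2)⟩))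
(.lf ⟨(nat_lit 17), (nat_lit 1), (nat_lit 7), (nat_lit 1)⟩))))))

/-- Context. -/
noncomputable def x27 : ℕ → ℕ × ℕ :=
  mkc d24 830 s24 x24 (nth [] (Cl.alts H3.cl) 2)

set_option maxRecDepth 100000 in
/-- Facts. -/
noncomputable def d28 : Tr :=
(.nd (.nd (.nd (.nd (.nd (.nd (.lf ⟨(nat_lit 130), (nat_lit 2), (nat_lit 0), (nat_lit 0)⟩)
(.lf ⟨(nat_lit 202), (nat_lit 2), (nat_lit 0x2792285a283), (nat_lit 7)⟩))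
(.lf ⟨(nat_lit 203), (nat_lit 2), (nat_lit 707), (nat_lit 2)⟩))
(.nd (.nd (.lf ⟨(nat_lit 975), (nat_lit 2), (nat_lit 0), (nat_lit 0)⟩)
(.lf ⟨(nat_lit 139), (nat_lit 2), (nat_lit 0x1a2c2), (nat_lit 3)⟩))
(.lf ⟨(nat_lit 0x424), (nat_lit 2), (nat_lit 0x910), (nat_lit 2)⟩)))
(.nd (.nd (.nd (.lf ⟨(nat_lit 650), (nat_lit 2), (nat_lit 0), (nat_lit 0)⟩)
(.lf ⟨(nat_lit 17), (nat_lit 1), (nat_lit 0x1d91c6), (nat_lit 4)⟩))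
(.lf ⟨(nat_lit 336), (nat_lit 2), (nat_lit 0x405), (nat_lit 2)⟩))
(.nd (.nd (.lf ⟨(nat_lit 0x8a2), (nat_lit 2), (nat_lit 0), (nat_lit 0)⟩)
(.lf ⟨(nat_lit 202), (nat_lit 2), (nat_lit 0x1a283), (nat_lit 3)⟩))
(.lf ⟨(nat_lit 131), (nat_lit 2), (nat_lit 0x240c2), (nat_lit 3)⟩))))
(.nd (.nd (.nd (.nd (.lf ⟨(nat_lit 260), (nat_lit 2), (nat_lit 0), (nat_lit 0)⟩)
(.lf ⟨(nat_lit 26), (nat_lit 1), (nat_lit 25), (nat_lit 1)⟩))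
(.lf ⟨(nat_lit 0x8a7), (nat_lit 2), (nat_lit 0x9e2), (nat_lit 2)⟩))
(.nd (.nd (.lf ⟨(nat_lit 139), (nat_lit 2), (nat_lit 0x112c2), (nat_lit 3)⟩)
(.lf ⟨(nat_lit 651), (nat_lit 2), (nat_lit 714), (nat_lit 2)⟩))
(.lf ⟨(nat_lit 976), (nat_lit 2), (nat_lit 0x2440f), (nat_lit 3)⟩)))
(.nd (.nd (.nd (.lf ⟨(nat_lit 715), (nat_lit 2), (nat_lit 0), (nat_lit 0)⟩)
(.lf ⟨(nat_lit 36), (nat_lit 1), (nat_lit 0), (nat_lit 0)⟩))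
(.lf ⟨(nat_lit 273), (nat_lit 2), (nat_lit 0x21444), (nat_lit 3)⟩))
(.nd (.lf ⟨(nat_lit 0x9e7), (nat_lit 2), (nat_lit 0), (nat_lit 0)⟩)
(.lf ⟨(nat_lit 0x927), (nat_lit 2), (nat_lit 0x9e4), (nat_lit 2)⟩)))))
(.nd (.nd (.nd (.nd (.nd (.lf ⟨(nat_lit 195), (nat_lit 2), (nat_lit 0), (nat_lit 0)⟩)
(.lf ⟨(nat_lit 25), (nat_lit 1), (nat_lit 0x2792285a), (nat_lit 5)⟩))
(.lf ⟨(nat_lit 218), (nat_lit 2), (nat_lit 0x683), (nat_lit 2)⟩))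
(.nd (.nd (.lf ⟨(nat_lit 0x410), (nat_lit 2), (nat_lit 0), (nat_lit 0)⟩)
(.lf ⟨(nat_lit 34), (nat_lit 1), (nat_lit 39), (nat_lit 1)⟩))
(.lf ⟨(nat_lit 8), (nat_lit 1), (nat_lit 0x9103c5), (nat_lit 4)⟩)))
(.nd (.nd (.nd (.lf ⟨(nat_lit 132), (nat_lit 2), (nat_lit 0xa102), (nat_lit 3)⟩)
(.lf ⟨(nat_lit 33), (nat_lit 1), (nat_lit 0x27922), (nat_lit 3)⟩))
(.lf ⟨(nat_lit 282), (nat_lit 2), (nat_lit 0x684), (nat_lit 2)⟩))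
(.nd (.nd (.lf ⟨(nat_lit 0x924), (nat_lit 2), (nat_lit 0), (nat_lit 0)⟩)
(.lf ⟨(nat_lit 0x4083083), (nat_lit 5), (nat_lit 0x20c20c4), (nat_lit 5)⟩))
(.lf ⟨(nat_lit 0x8a4), (nat_lit 2), (nat_lit 0x922), (nat_lit 2)⟩))))
(.nd (.nd (.nd (.nd (.lf ⟨(nat_lit 325), (nat_lit 2), (nat_lit 0), (nat_lit 0)⟩)
(.lf ⟨(nat_lit 528), (nat_lit 2), (nat_lit 0x408), (nat_lit 2)⟩))
(.lf ⟨(nat_lit 730), (nat_lit 2), (nat_lit 0x68b), (nat_lit 2)⟩))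
(.nd (.nd (.lf ⟨(nat_lit 0x69a), (nat_lit 2), (nat_lit 0), (nat_lit 0)⟩)
(.lf ⟨(nat_lit 131), (nat_lit 2), (nat_lit 194), (nat_lit 2)⟩))
(.lf ⟨(nat_lit 7), (nat_lit 1), (nat_lit 36), (nat_lit 1)⟩)))
(.nd (.nd (.nd (.lf ⟨(nat_lit 196), (nat_lit 2), (nat_lit 0xb103), (nat_lit 3)⟩)
(.lf ⟨(nat_lit 17), (nat_lit 1), (nat_lit 26), (nat_lit 1)⟩))
(.lf ⟨(nat_lit 651), (nat_lit 2), (nat_lit 0x212ca), (nat_lit 3)⟩))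
(.nd (.lf ⟨(nat_lit 138), (nat_lit 2), (nat_lit 642), (nat_lit 2)⟩)
(.lf ⟨(nat_lit 6), (nat_lit 1), (nat_lit 0x9e48a1), (nat_lit 4)⟩))))))

/-- Context. -/
noncomputable def x28 : ℕ → ℕ × ℕ :=
  mkc d24 830 s24 x24 (nth [] (Cl.alts H3.cl) 3)

set_option maxRecDepth 100000 in
/-- Facts. -/
noncomputable def d29 : Tr :=
(.nd (.nd (.nd (.nd (.nd (.nd (.lf ⟨(nat_lit 130), (nat_lit 2), (nat_lit 0), (nat_lit 0)⟩)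
(.lf ⟨(nat_lit 33), (nat_lit 1), (nat_lit 0x27922), (nat_lit 3)⟩))
(.lf ⟨(nat_lit 203), (nat_lit 2), (nat_lit 707), (nat_lit 2)⟩))
(.nd (.nd (.lf ⟨(nat_lit 975), (nat_lit 2), (nat_lit 0), (nat_lit 0)⟩)
(.lf ⟨(nat_lit 26), (nat_lit 1), (nat_lit 0), (nat_lit 0)⟩))
(.lf ⟨(nat_lit 131), (nat_lit 2), (nat_lit 0x240c2), (nat_lit 3)⟩)))
(.nd (.nd (.nd (.lf ⟨(nat_lit 650), (nat_lit 2), (nat_lit 0), (nat_lit 0)⟩)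
(.lf ⟨(nat_lit 34), (nat_lit 1), (nat_lit 39), (nat_lit 1)⟩))
(.lf ⟨(nat_lit 651), (nat_lit 2), (nat_lit 0x212ca), (nat_lit 3)⟩))
(.nd (.lf ⟨(nat_lit 0x8a2), (nat_lit 2), (nat_lit 0), (nat_lit 0)⟩)
(.lf ⟨(nat_lit 25), (nat_lit 1), (nat_lit 0x2792285a), (nat_lit 5)⟩))))
(.nd (.nd (.nd (.nd (.lf ⟨(nat_lit 260), (nat_lit 2), (nat_lit 0), (nat_lit 0)⟩)
(.lf ⟨(nat_lit 17), (nat_lit 1), (nat_lit 0), (nat_lit 0)⟩))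
(.lf ⟨(nat_lit 336), (nat_lit 2), (nat_lit 0x405), (nat_lit 2)⟩))
(.nd (.nd (.lf ⟨(nat_lit 139), (nat_lit 2), (nat_lit 0x112c2), (nat_lit 3)⟩)
(.lf ⟨(nat_lit 0x4083083), (nat_lit 5), (nat_lit 0x20c20c4), (nat_lit 5)⟩))
(.lf ⟨(nat_lit 0x927), (nat_lit 2), (nat_lit 0x9e4), (nat_lit 2)⟩)))
(.nd (.nd (.nd (.lf ⟨(nat_lit 715), (nat_lit 2), (nat_lit 0), (nat_lit 0)⟩)
(.lf ⟨(nat_lit 131), (nat_lit 2), (nat_lit 194), (nat_lit 2)⟩))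
(.lf ⟨(nat_lit 8), (nat_lit 1), (nat_lit 0x9103c5), (nat_lit 4)⟩))
(.nd (.lf ⟨(nat_lit 0x9e7), (nat_lit 2), (nat_lit 0), (nat_lit 0)⟩)
(.lf ⟨(nat_lit 528), (nat_lit 2), (nat_lit 0x408), (nat_lit 2)⟩)))))
(.nd (.nd (.nd (.nd (.nd (.lf ⟨(nat_lit 195), (nat_lit 2), (nat_lit 0), (nat_lit 0)⟩)
(.lf ⟨(nat_lit 36), (nat_lit 1), (nat_lit 0), (nat_lit 0)⟩))
(.lf ⟨(nat_lit 0x8a7), (nat_lit 2), (nat_lit 0x9e2), (nat_lit 2)⟩))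
(.nd (.nd (.lf ⟨(nat_lit 0x410), (nat_lit 2), (nat_lit 0), (nat_lit 0)⟩)
(.lf ⟨(nat_lit 202), (nat_lit 2), (nat_lit 643), (nat_lit 2)⟩))
(.lf ⟨(nat_lit 0x8a4), (nat_lit 2), (nat_lit 0x922), (nat_lit 2)⟩)))
(.nd (.nd (.nd (.lf ⟨(nat_lit 132), (nat_lit 2), (nat_lit 0xa102), (nat_lit 3)⟩)
(.lf ⟨(nat_lit 651), (nat_lit 2), (nat_lit 714), (nat_lit 2)⟩))
(.lf ⟨(nat_lit 0x424), (nat_lit 2), (nat_lit 0x910), (nat_lit 2)⟩))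
(.nd (.lf ⟨(nat_lit 0x924), (nat_lit 2), (nat_lit 0), (nat_lit 0)⟩)
(.lf ⟨(nat_lit 26), (nat_lit 1), (nat_lit 25), (nat_lit 1)⟩))))
(.nd (.nd (.nd (.nd (.lf ⟨(nat_lit 325), (nat_lit 2), (nat_lit 0), (nat_lit 0)⟩)
(.lf ⟨(nat_lit 139), (nat_lit 2), (nat_lit 706), (nat_lit 2)⟩))
(.lf ⟨(nat_lit 273), (nat_lit 2), (nat_lit 0x21444), (nat_lit 3)⟩))
(.nd (.lf ⟨(nat_lit 0x69a), (nat_lit 2), (nat_lit 0), (nat_lit 0)⟩)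
(.lf ⟨(nat_lit 202), (nat_lit 2), (nat_lit 0x2792285a283), (nat_lit 7)⟩)))
(.nd (.nd (.nd (.lf ⟨(nat_lit 196), (nat_lit 2), (nat_lit 0xb103), (nat_lit 3)⟩)
(.lf ⟨(nat_lit 202), (nat_lit 2), (nat_lit 0x1a283), (nat_lit 3)⟩))
(.lf ⟨(nat_lit 976), (nat_lit 2), (nat_lit 0x2440f), (nat_lit 3)⟩))
(.nd (.lf ⟨(nat_lit 138), (nat_lit 2), (nat_lit 642), (nat_lit 2)⟩)
(.lf ⟨(nat_lit 17), (nat_lit 1), (nat_lit 0), (nat_lit 0)⟩))))))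

/-- Context. -/
noncomputable def x29 : ℕ → ℕ × ℕ :=
  mkc d24 830 s24 x24 (nth [] (Cl.alts H3.cl) 4)

set_option maxRecDepth 100000 in
/-- Facts. -/
noncomputable def d30 : Tr :=
(.nd (.nd (.nd (.nd (.nd (.nd (.nd (.nd (.nd (.nd (.lf ⟨(nat_lit 65), (nat_lit 2), (nat_lit 0), (nat_lit 0)⟩)
(.lf ⟨(nat_lit 0x6dd6dd), (nat_lit 4), (nat_lit 0x75b75b), (nat_lit 4)⟩))
(.lf ⟨(nat_lit 0x10616), (nat_lit 3), (nat_lit 0x769679a418), (nat_lit 7)⟩))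
(.nd (.nd (.lf ⟨(nat_lit 797), (nat_lit 2), (nat_lit 0x74c), (nat_lit 2)⟩)
(.lf ⟨(nat_lit 0x6a7), (nat_lit 2), (nat_lit 0x9da), (nat_lit 2)⟩))
(.lf ⟨(nat_lit 672), (nat_lit 2), (nat_lit 0x84f8603ca), (nat_lit 6)⟩)))
(.nd (.nd (.nd (.lf ⟨(nat_lit 103), (nat_lit 2), (nat_lit 0x2c9c1), (nat_lit 3)⟩)
(.lf ⟨(nat_lit 0x1a8a1), (nat_lit 3), (nat_lit 0x278626a7), (nat_lit 5)⟩))
(.lf ⟨(nat_lit 0x597), (nat_lit 2), (nat_lit 0x5d6), (nat_lit 2)⟩))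
(.nd (.lf ⟨(nat_lit 6), (nat_lit 1), (nat_lit 21), (nat_lit 1)⟩)
(.lf ⟨(nat_lit 133), (nat_lit 2), (nat_lit 0x20697142), (nat_lit 5)⟩))))
(.nd (.nd (.nd (.nd (.lf ⟨(nat_lit 0x6db), (nat_lit 2), (nat_lit 0), (nat_lit 0)⟩)
(.lf ⟨(nat_lit 0xf7676d8), (nat_lit 5), (nat_lit 0x7676d876c3dd), (nat_lit 8)⟩))
(.lf ⟨(nat_lit 287), (nat_lit 2), (nat_lit 0x7d87676d8a5d6c4), (nat_lit 10)⟩))
(.nd (.lf ⟨(nat_lit 670), (nat_lit 2), (nat_lit 0x78a), (nat_lit 2)⟩)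
(.lf ⟨(nat_lit 288), (nat_lit 2), (nat_lit 0x860261244), (nat_lit 6)⟩)))
(.nd (.nd (.nd (.lf ⟨(nat_lit 716), (nat_lit 2), (nat_lit 779), (nat_lit 2)⟩)
(.lf ⟨(nat_lit 17), (nat_lit 1), (nat_lit 32), (nat_lit 1)⟩))
(.lf ⟨(nat_lit 226), (nat_lit 2), (nat_lit 0x89e6de6c3), (nat_lit 6)⟩))
(.nd (.lf ⟨(nat_lit 918), (nat_lit 2), (nat_lit 0x1d678e), (nat_lit 4)⟩)
(.lf ⟨(nat_lit 131), (nat_lit 2), (nat_lit 0x200c2), (nat_lit 3)⟩)))))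
(.nd (.nd (.nd (.nd (.nd (.lf ⟨(nat_lit 0x410), (nat_lit 2), (nat_lit 0), (nat_lit 0)⟩)
(.lf ⟨(nat_lit 0), (nat_lit 0), (nat_lit 0xdd0dd), (nat_lit 4)⟩))
(.lf ⟨(nat_lit 0x186dd), (nat_lit 3), (nat_lit 0x276dd6e97589e975b), (nat_lit 11)⟩))
(.nd (.nd (.lf ⟨(nat_lit 206), (nat_lit 2), (nat_lit 899), (nat_lit 2)⟩)
(.lf ⟨(nat_lit 651), (nat_lit 2), (nat_lit 714), (nat_lit 2)⟩))
(.lf ⟨(nat_lit 0x666), (nat_lit 2), (nat_lit 0x9a2822819), (nat_lit 6)⟩)))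
(.nd (.nd (.nd (.lf ⟨(nat_lit 138), (nat_lit 2), (nat_lit 642), (nat_lit 2)⟩)
(.lf ⟨(nat_lit 98), (nat_lit 2), (nat_lit 0x2c881), (nat_lit 3)⟩))
(.lf ⟨(nat_lit 202), (nat_lit 2), (nat_lit 0x1e283), (nat_lit 3)⟩))
(.nd (.lf ⟨(nat_lit 674), (nat_lit 2), (nat_lit 0x88a), (nat_lit 2)⟩)
(.lf ⟨(nat_lit 22), (nat_lit 1), (nat_lit 26), (nat_lit 1)⟩))))
(.nd (.nd (.nd (.nd (.lf ⟨(nat_lit 0x8e3), (nat_lit 2), (nat_lit 0), (nat_lit 0)⟩)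
(.lf ⟨(nat_lit 0x762), (nat_lit 2), (nat_lit 0x89d), (nat_lit 2)⟩))
(.lf ⟨(nat_lit 137), (nat_lit 2), (nat_lit 0x59e6903ce242), (nat_lit 8)⟩))
(.nd (.lf ⟨(nat_lit 11), (nat_lit 1), (nat_lit 0xc40c4), (nat_lit 4)⟩)
(.lf ⟨(nat_lit 0x7ac), (nat_lit 2), (nat_lit 0xb1e), (nat_lit 2)⟩)))
(.nd (.nd (.nd (.lf ⟨(nat_lit 0x764), (nat_lit 2), (nat_lit 0x91d), (nat_lit 2)⟩)
(.lf ⟨(nat_lit 287), (nat_lit 2), (nat_lit 0xa9f9c4), (nat_lit 4)⟩))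
(.lf ⟨(nat_lit 0x416), (nat_lit 2), (nat_lit 0x696690), (nat_lit 4)⟩))
(.nd (.lf ⟨(nat_lit 601), (nat_lit 2), (nat_lit 0x20649), (nat_lit 3)⟩)
(.lf ⟨(nat_lit 0x195d03c5), (nat_lit 5), (nat_lit 0x81081), (nat_lit 4)⟩))))))
(.nd (.nd (.nd (.nd (.nd (.nd (.lf ⟨(nat_lit 132), (nat_lit 2), (nat_lit 0xa102), (nat_lit 3)⟩)
(.lf ⟨(nat_lit 930), (nat_lit 2), (nat_lit 0x6da8996da64e), (nat_lit 8)⟩))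
(.lf ⟨(nat_lit 0x66c), (nat_lit 2), (nat_lit 0x82c9e09d9), (nat_lit 6)⟩))
(.nd (.nd (.lf ⟨(nat_lit 96), (nat_lit 2), (nat_lit 0x801), (nat_lit 2)⟩)
(.lf ⟨(nat_lit 295), (nat_lit 2), (nat_lit 0x9c4), (nat_lit 2)⟩))
(.lf ⟨(nat_lit 0x4186a5), (nat_lit 4), (nat_lit 0x6a569061a), (nat_lit 6)⟩)))
(.nd (.nd (.nd (.lf ⟨(nat_lit 130), (nat_lit 2), (nat_lit 0), (nat_lit 0)⟩)
(.lf ⟨(nat_lit 0x6a2), (nat_lit 2), (nat_lit 0x9e18a19da), (nat_lit 6)⟩))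
(.lf ⟨(nat_lit 0x5c7), (nat_lit 2), (nat_lit 471), (nat_lit 2)⟩))
(.nd (.lf ⟨(nat_lit 0x6e7), (nat_lit 2), (nat_lit 0x9db), (nat_lit 2)⟩)
(.lf ⟨(nat_lit 986), (nat_lit 2), (nat_lit 0x68f), (nat_lit 2)⟩))))
(.nd (.nd (.nd (.nd (.lf ⟨(nat_lit 0x7df), (nat_lit 2), (nat_lit 0), (nat_lit 0)⟩)
(.lf ⟨(nat_lit 0x6dd), (nat_lit 2), (nat_lit 0x75b), (nat_lit 2)⟩))
(.lf ⟨(nat_lit 934), (nat_lit 2), (nat_lit 0x6c756689b1d56d589b54e), (nat_lit 14)⟩))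
(.nd (.lf ⟨(nat_lit 16), (nat_lit 1), (nat_lit 0x2c12c1), (nat_lit 4)⟩)
(.lf ⟨(nat_lit 921), (nat_lit 2), (nat_lit 0x5d665a5e079a58e), (nat_lit 10)⟩)))
(.nd (.nd (.nd (.lf ⟨(nat_lit 0x41a), (nat_lit 2), (nat_lit 0x690), (nat_lit 2)⟩)
(.lf ⟨(nat_lit 0x767), (nat_lit 2), (nat_lit 0x9dd), (nat_lit 2)⟩))
(.lf ⟨(nat_lit 0x7a6), (nat_lit 2), (nat_lit 0x99e), (nat_lit 2)⟩))
(.nd (.lf ⟨(nat_lit 991), (nat_lit 2), (nat_lit 0x6177d85cf), (nat_lit 6)⟩)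
(.lf ⟨(nat_lit 0x666), (nat_lit 2), (nat_lit 0x999), (nat_lit 2)⟩)))))
(.nd (.nd (.nd (.nd (.nd (.lf ⟨(nat_lit 0x5d7), (nat_lit 2), (nat_lit 0), (nat_lit 0)⟩)
(.lf ⟨(nat_lit 0x1875b), (nat_lit 3), (nat_lit 0x9db7dda9f6dd9db61d), (nat_lit 12)⟩))
(.lf ⟨(nat_lit 0x421), (nat_lit 2), (nat_lit 0x9e286789b65b650), (nat_lit 10)⟩))
(.nd (.lf ⟨(nat_lit 603), (nat_lit 2), (nat_lit 0x6c9), (nat_lit 2)⟩)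
(.lf ⟨(nat_lit 297), (nat_lit 2), (nat_lit 0xa44), (nat_lit 2)⟩)))
(.nd (.nd (.nd (.lf ⟨(nat_lit 92), (nat_lit 2), (nat_lit 0x701), (nat_lit 2)⟩)
(.lf ⟨(nat_lit 0x86c), (nat_lit 2), (nat_lit 0xb21), (nat_lit 2)⟩))
(.lf ⟨(nat_lit 0x7a9), (nat_lit 2), (nat_lit 0xa5e), (nat_lit 2)⟩))
(.nd (.lf ⟨(nat_lit 489), (nat_lit 2), (nat_lit 0xa47), (nat_lit 2)⟩)
(.lf ⟨(nat_lit 352), (nat_lit 2), (nat_lit 0x805), (nat_lit 2)⟩))))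
(.nd (.nd (.nd (.nd (.lf ⟨(nat_lit 0x9e7), (nat_lit 2), (nat_lit 0), (nat_lit 0)⟩)
(.lf ⟨(nat_lit 0x61b), (nat_lit 2), (nat_lit 0x95f9e476c7676d891f), (nat_lit 12)⟩))
(.lf ⟨(nat_lit 0xfb27), (nat_lit 3), (nat_lit 0x2c9cf), (nat_lit 3)⟩))
(.nd (.lf ⟨(nat_lit 0x51b), (nat_lit 2), (nat_lit 0x6d4), (nat_lit 2)⟩)
(.lf ⟨(nat_lit 0x2616d0), (nat_lit 4), (nat_lit 0x65b650261), (nat_lit 6)⟩)))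
(.nd (.nd (.nd (.lf ⟨(nat_lit 0xa6d), (nat_lit 2), (nat_lit 0xb69), (nat_lit 2)⟩)
(.lf ⟨(nat_lit 0x76c), (nat_lit 2), (nat_lit 0xb1d), (nat_lit 2)⟩))
(.lf ⟨(nat_lit 0x9860), (nat_lit 3), (nat_lit 0x20860860261), (nat_lit 7)⟩))
(.nd (.lf ⟨(nat_lit 0x6c76c7), (nat_lit 4), (nat_lit 0x1db1db), (nat_lit 4)⟩)
(.lf ⟨(nat_lit 14), (nat_lit 1), (nat_lit 0x6c36c96c36c9), (nat_lit 8)⟩)))))))
(.nd (.nd (.nd (.nd (.nd (.nd (.nd (.lf ⟨(nat_lit 325), (nat_lit 2), (nat_lit 0), (nat_lit 0)⟩)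
(.lf ⟨(nat_lit 665), (nat_lit 2), (nat_lit 0x64a), (nat_lit 2)⟩))
(.lf ⟨(nat_lit 0x768), (nat_lit 2), (nat_lit 0xa1d), (nat_lit 2)⟩))
(.nd (.nd (.lf ⟨(nat_lit 91), (nat_lit 2), (nat_lit 0x6c1), (nat_lit 2)⟩)
(.lf ⟨(nat_lit 620), (nat_lit 2), (nat_lit 0xb09), (nat_lit 2)⟩))
(.lf ⟨(nat_lit 0x7a7), (nat_lit 2), (nat_lit 0x9de), (nat_lit 2)⟩)))
(.nd (.nd (.nd (.lf ⟨(nat_lit 233), (nat_lit 2), (nat_lit 0x2ea43), (nat_lit 3)⟩)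
(.lf ⟨(nat_lit 0x421), (nat_lit 2), (nat_lit 0x9e28678628626da89b690), (nat_lit 14)⟩))
(.lf ⟨(nat_lit 87), (nat_lit 2), (nat_lit 0x75c1), (nat_lit 3)⟩))
(.nd (.lf ⟨(nat_lit 330), (nat_lit 2), (nat_lit 0x39634a1ce345), (nat_lit 8)⟩)
(.lf ⟨(nat_lit 0x827), (nat_lit 2), (nat_lit 0x9e0), (nat_lit 2)⟩))))
(.nd (.nd (.nd (.nd (.lf ⟨(nat_lit 0x75d), (nat_lit 2), (nat_lit 0), (nat_lit 0)⟩)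
(.lf ⟨(nat_lit 0x6e4), (nat_lit 2), (nat_lit 0x91b), (nat_lit 2)⟩))
(.lf ⟨(nat_lit 0x41e), (nat_lit 2), (nat_lit 0x790), (nat_lit 2)⟩))
(.nd (.lf ⟨(nat_lit 0x769), (nat_lit 2), (nat_lit 0xa5d), (nat_lit 2)⟩)
(.lf ⟨(nat_lit 0x422), (nat_lit 2), (nat_lit 0x82281b65b650), (nat_lit 8)⟩)))
(.nd (.nd (.nd (.lf ⟨(nat_lit 982), (nat_lit 2), (nat_lit 0x58f), (nat_lit 2)⟩)
(.lf ⟨(nat_lit 40), (nat_lit 1), (nat_lit 0), (nat_lit 0)⟩))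
(.lf ⟨(nat_lit 0xf6da), (nat_lit 3), (nat_lit 0x1681e6963db), (nat_lit 7)⟩))
(.nd (.lf ⟨(nat_lit 611), (nat_lit 2), (nat_lit 0x8c9), (nat_lit 2)⟩)
(.lf ⟨(nat_lit 672), (nat_lit 2), (nat_lit 0x80a), (nat_lit 2)⟩)))))
(.nd (.nd (.nd (.nd (.nd (.lf ⟨(nat_lit 0x514), (nat_lit 2), (nat_lit 0), (nat_lit 0)⟩)
(.lf ⟨(nat_lit 0x41d), (nat_lit 2), (nat_lit 0x65b75b650), (nat_lit 6)⟩))
(.lf ⟨(nat_lit 486), (nat_lit 2), (nat_lit 0x987), (nat_lit 2)⟩))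
(.nd (.lf ⟨(nat_lit 591), (nat_lit 2), (nat_lit 969), (nat_lit 2)⟩)
(.lf ⟨(nat_lit 0x59b), (nat_lit 2), (nat_lit 0x6d6), (nat_lit 2)⟩)))
(.nd (.nd (.nd (.lf ⟨(nat_lit 0x401401), (nat_lit 4), (nat_lit 0), (nat_lit 0)⟩)
(.lf ⟨(nat_lit 47), (nat_lit 1), (nat_lit 0), (nat_lit 0)⟩))
(.lf ⟨(nat_lit 0x75e), (nat_lit 2), (nat_lit 0x79d), (nat_lit 2)⟩))
(.nd (.lf ⟨(nat_lit 0x45ba5d), (nat_lit 4), (nat_lit 0x6e975b45b), (nat_lit 6)⟩)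
(.lf ⟨(nat_lit 0x424), (nat_lit 2), (nat_lit 0x910), (nat_lit 2)⟩))))
(.nd (.nd (.nd (.nd (.lf ⟨(nat_lit 0x965), (nat_lit 2), (nat_lit 0), (nat_lit 0)⟩)
(.lf ⟨(nat_lit 0x62c), (nat_lit 2), (nat_lit 0x76c758), (nat_lit 4)⟩))
(.lf ⟨(nat_lit 0x662), (nat_lit 2), (nat_lit 0x822819), (nat_lit 4)⟩))
(.nd (.lf ⟨(nat_lit 0), (nat_lit 0), (nat_lit 0x284284), (nat_lit 4)⟩)
(.lf ⟨(nat_lit 106), (nat_lit 2), (nat_lit 0x257d86e991db276d8a648ada5d8a9762b697626dd9db6297dd601), (nat_lit 35)⟩)))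
(.nd (.nd (.nd (.lf ⟨(nat_lit 0x8e8), (nat_lit 2), (nat_lit 0xa23), (nat_lit 2)⟩)
(.lf ⟨(nat_lit 0x7ea), (nat_lit 2), (nat_lit 0x9ea96795f), (nat_lit 6)⟩))
(.lf ⟨(nat_lit 671), (nat_lit 2), (nat_lit 0x7ca), (nat_lit 2)⟩))
(.nd (.lf ⟨(nat_lit 482), (nat_lit 2), (nat_lit 0x887), (nat_lit 2)⟩)
(.lf ⟨(nat_lit 0x4b65740f14b65740f1412d95d03c52d95d03c5), (nat_lit 26), (nat_lit 0x4b65740f14b65740f1412d95d03c52d95d03c5), (nat_lit 26)⟩))))))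
(.nd (.nd (.nd (.nd (.nd (.nd (.lf ⟨(nat_lit 910), (nat_lit 2), (nat_lit 0), (nat_lit 0)⟩)
(.lf ⟨(nat_lit 656), (nat_lit 2), (nat_lit 0x228676d96d940a), (nat_lit 9)⟩))
(.lf ⟨(nat_lit 0x525), (nat_lit 2), (nat_lit 0x954), (nat_lit 2)⟩))
(.nd (.nd (.lf ⟨(nat_lit 222), (nat_lit 2), (nat_lit 0x783), (nat_lit 2)⟩)
(.lf ⟨(nat_lit 0), (nat_lit 0), (nat_lit 0x4019dd610067758), (nat_lit 10)⟩))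
(.lf ⟨(nat_lit 0xf9de3ec), (nat_lit 5), (nat_lit 0x9deb276de3e77ac6cf), (nat_lit 12)⟩)))
(.nd (.nd (.nd (.lf ⟨(nat_lit 260), (nat_lit 2), (nat_lit 0), (nat_lit 0)⟩)
(.lf ⟨(nat_lit 0x761), (nat_lit 2), (nat_lit 0x867767), (nat_lit 4)⟩))
(.lf ⟨(nat_lit 151), (nat_lit 2), (nat_lit 0x5c2), (nat_lit 2)⟩))
(.nd (.lf ⟨(nat_lit 0x26b279a7), (nat_lit 5), (nat_lit 0x279ac9e6), (nat_lit 5)⟩)
(.lf ⟨(nat_lit 934), (nat_lit 2), (nat_lit 0x6da5e65db68e), (nat_lit 8)⟩))))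
(.nd (.nd (.nd (.nd (.lf ⟨(nat_lit 0x861), (nat_lit 2), (nat_lit 0), (nat_lit 0)⟩)
(.lf ⟨(nat_lit 0x41d), (nat_lit 2), (nat_lit 0x750), (nat_lit 2)⟩))
(.lf ⟨(nat_lit 593), (nat_lit 2), (nat_lit 0xa6892375c75c449), (nat_lit 10)⟩))
(.nd (.lf ⟨(nat_lit 0x69b), (nat_lit 2), (nat_lit 0x6da), (nat_lit 2)⟩)
(.lf ⟨(nat_lit 0x6ac), (nat_lit 2), (nat_lit 0xb1a), (nat_lit 2)⟩)))
(.nd (.nd (.nd (.lf ⟨(nat_lit 0x61f), (nat_lit 2), (nat_lit 0x7d8), (nat_lit 2)⟩)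
(.lf ⟨(nat_lit 0x418), (nat_lit 2), (nat_lit 0x257e77ea7e77ea7db7ea9dfa9f9dfa9f6dfa9f610), (nat_lit 27)⟩))
(.lf ⟨(nat_lit 930), (nat_lit 2), (nat_lit 0x79b7975a26d758e), (nat_lit 10)⟩))
(.nd (.lf ⟨(nat_lit 745), (nat_lit 2), (nat_lit 0x75ba5d6cb), (nat_lit 6)⟩)
(.lf ⟨(nat_lit 143), (nat_lit 2), (nat_lit 0x1a3c2), (nat_lit 3)⟩)))))
(.nd (.nd (.nd (.nd (.nd (.lf ⟨(nat_lit 0x659), (nat_lit 2), (nat_lit 0), (nat_lit 0)⟩)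
(.lf ⟨(nat_lit 288), (nat_lit 2), (nat_lit 0x20744), (nat_lit 3)⟩))
(.lf ⟨(nat_lit 741), (nat_lit 2), (nat_lit 0x7d095f40b), (nat_lit 6)⟩))
(.nd (.lf ⟨(nat_lit 297), (nat_lit 2), (nat_lit 0x329749a4ca5d24ca5d24ca5d244), (nat_lit 18)⟩)
(.lf ⟨(nat_lit 0x10a6475b), (nat_lit 5), (nat_lit 0x22b69762a5d8ada5d89b75091d), (nat_lit 17)⟩)))
(.nd (.nd (.nd (.lf ⟨(nat_lit 280), (nat_lit 2), (nat_lit 0x604), (nat_lit 2)⟩)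
(.lf ⟨(nat_lit 32), (nat_lit 1), (nat_lit 0xc20c2), (nat_lit 4)⟩))
(.lf ⟨(nat_lit 663), (nat_lit 2), (nat_lit 0x5ca), (nat_lit 2)⟩))
(.nd (.lf ⟨(nat_lit 0x527), (nat_lit 2), (nat_lit 0x9d4), (nat_lit 2)⟩)
(.lf ⟨(nat_lit 0x7e0), (nat_lit 2), (nat_lit 0x81f), (nat_lit 2)⟩))))
(.nd (.nd (.nd (.nd (.lf ⟨(nat_lit 0xa69), (nat_lit 2), (nat_lit 0), (nat_lit 0)⟩)
(.lf ⟨(nat_lit 0), (nat_lit 0), (nat_lit 0x60060), (nat_lit 4)⟩))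
(.lf ⟨(nat_lit 0x62c9db), (nat_lit 4), (nat_lit 0xb276d8), (nat_lit 4)⟩))
(.nd (.lf ⟨(nat_lit 0x414), (nat_lit 2), (nat_lit 0x510), (nat_lit 2)⟩)
(.lf ⟨(nat_lit 143), (nat_lit 2), (nat_lit 0x2079a3c2), (nat_lit 5)⟩)))
(.nd (.nd (.nd (.lf ⟨(nat_lit 600), (nat_lit 2), (nat_lit 0x609), (nat_lit 2)⟩)
(.lf ⟨(nat_lit 0x6df), (nat_lit 2), (nat_lit 0x7db), (nat_lit 2)⟩))
(.lf ⟨(nat_lit 0x1b75ba5d), (nat_lit 5), (nat_lit 0x22b69762a5d8ada5d89b75b), (nat_lit 15)⟩))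
(.nd (.lf ⟨(nat_lit 0x1095f41f), (nat_lit 5), (nat_lit 0x1f4257d0), (nat_lit 5)⟩)
(.lf ⟨(nat_lit 0x6c374439d10e6c374439d10e), (nat_lit 16), (nat_lit 0x6c374439d10e6c374439d10e), (nat_lit 16)⟩))))))))
(.nd (.nd (.nd (.nd (.nd (.nd (.nd (.nd (.lf ⟨(nat_lit 195), (nat_lit 2), (nat_lit 0), (nat_lit 0)⟩)
(.lf ⟨(nat_lit 217), (nat_lit 2), (nat_lit 0x643), (nat_lit 2)⟩))
(.lf ⟨(nat_lit 0x985b650), (nat_lit 5), (nat_lit 0x8196d0261), (nat_lit 6)⟩))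
(.nd (.nd (.lf ⟨(nat_lit 88), (nat_lit 2), (nat_lit 0x601), (nat_lit 2)⟩)
(.lf ⟨(nat_lit 656), (nat_lit 2), (nat_lit 0x278a140a), (nat_lit 5)⟩))
(.lf ⟨(nat_lit 0x2616d0), (nat_lit 4), (nat_lit 0x8196e0650261), (nat_lit 8)⟩)))
(.nd (.nd (.nd (.lf ⟨(nat_lit 169), (nat_lit 2), (nat_lit 0x2da42), (nat_lit 3)⟩)
(.lf ⟨(nat_lit 0x6a1), (nat_lit 2), (nat_lit 0x9e18a18a19da), (nat_lit 8)⟩))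
(.lf ⟨(nat_lit 535), (nat_lit 2), (nat_lit 0x5c8), (nat_lit 2)⟩))
(.nd (.lf ⟨(nat_lit 66), (nat_lit 2), (nat_lit 0x1ce345081), (nat_lit 6)⟩)
(.lf ⟨(nat_lit 30), (nat_lit 1), (nat_lit 32), (nat_lit 1)⟩))))
(.nd (.nd (.nd (.nd (.lf ⟨(nat_lit 0x71c), (nat_lit 2), (nat_lit 0), (nat_lit 0)⟩)
(.lf ⟨(nat_lit 989), (nat_lit 2), (nat_lit 0x61d60f), (nat_lit 4)⟩))
(.lf ⟨(nat_lit 0x69e), (nat_lit 2), (nat_lit 0x79a), (nat_lit 2)⟩))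
(.nd (.lf ⟨(nat_lit 212), (nat_lit 2), (nat_lit 0x503), (nat_lit 2)⟩)
(.lf ⟨(nat_lit 287), (nat_lit 2), (nat_lit 0x2a7d8a5d8ada5d8a9762b697626dd9db629744), (nat_lit 25)⟩)))
(.nd (.nd (.nd (.lf ⟨(nat_lit 720), (nat_lit 2), (nat_lit 0x40b), (nat_lit 2)⟩)
(.lf ⟨(nat_lit 28), (nat_lit 1), (nat_lit 0), (nat_lit 0)⟩))
(.lf ⟨(nat_lit 0x6de6de), (nat_lit 4), (nat_lit 0x79b79b), (nat_lit 4)⟩))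
(.nd (.lf ⟨(nat_lit 0x51f), (nat_lit 2), (nat_lit 0x7d4), (nat_lit 2)⟩)
(.lf ⟨(nat_lit 0x822), (nat_lit 2), (nat_lit 0x8a0), (nat_lit 2)⟩)))))
(.nd (.nd (.nd (.nd (.nd (.lf ⟨(nat_lit 0x451), (nat_lit 2), (nat_lit 0), (nat_lit 0)⟩)
(.lf ⟨(nat_lit 609), (nat_lit 2), (nat_lit 0x21749), (nat_lit 3)⟩))
(.lf ⟨(nat_lit 608), (nat_lit 2), (nat_lit 0x809), (nat_lit 2)⟩))
(.nd (.nd (.lf ⟨(nat_lit 0x427), (nat_lit 2), (nat_lit 0x9d0), (nat_lit 2)⟩)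
(.lf ⟨(nat_lit 0x4083083), (nat_lit 5), (nat_lit 0x20c20c4), (nat_lit 5)⟩))
(.lf ⟨(nat_lit 0x6de), (nat_lit 2), (nat_lit 0x79b), (nat_lit 2)⟩)))
(.nd (.nd (.nd (.lf ⟨(nat_lit 650), (nat_lit 2), (nat_lit 0), (nat_lit 0)⟩)
(.lf ⟨(nat_lit 615), (nat_lit 2), (nat_lit 0x277677dda9f767749), (nat_lit 11)⟩))
(.lf ⟨(nat_lit 131), (nat_lit 2), (nat_lit 0x1e0c2), (nat_lit 3)⟩))
(.nd (.lf ⟨(nat_lit 0x42c), (nat_lit 2), (nat_lit 0xb10), (nat_lit 2)⟩)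
(.lf ⟨(nat_lit 224), (nat_lit 2), (nat_lit 0x803), (nat_lit 2)⟩))))
(.nd (.nd (.nd (.nd (.lf ⟨(nat_lit 0x924), (nat_lit 2), (nat_lit 0), (nat_lit 0)⟩)
(.lf ⟨(nat_lit 728), (nat_lit 2), (nat_lit 0x7ea7dd9dd60b), (nat_lit 8)⟩))
(.lf ⟨(nat_lit 0x984f261), (nat_lit 5), (nat_lit 0x183e13c98583c9), (nat_lit 9)⟩))
(.nd (.lf ⟨(nat_lit 0x598), (nat_lit 2), (nat_lit 0x616), (nat_lit 2)⟩)
(.lf ⟨(nat_lit 13), (nat_lit 1), (nat_lit 0x81a5903ce), (nat_lit 6)⟩)))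
(.nd (.nd (.nd (.lf ⟨(nat_lit 0x8a6), (nat_lit 2), (nat_lit 0x9a2), (nat_lit 2)⟩)
(.lf ⟨(nat_lit 0x96c), (nat_lit 2), (nat_lit 0xb25), (nat_lit 2)⟩))
(.lf ⟨(nat_lit 976), (nat_lit 2), (nat_lit 0x1781759a59a40f), (nat_lit 9)⟩))
(.nd (.lf ⟨(nat_lit 0x59d), (nat_lit 2), (nat_lit 0x756), (nat_lit 2)⟩)
(.lf ⟨(nat_lit 0x450450), (nat_lit 4), (nat_lit 0x2d92d9), (nat_lit 4)⟩))))))
(.nd (.nd (.nd (.nd (.nd (.nd (.lf ⟨(nat_lit 196), (nat_lit 2), (nat_lit 0xb103), (nat_lit 3)⟩)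
(.lf ⟨(nat_lit 985), (nat_lit 2), (nat_lit 0x64f), (nat_lit 2)⟩))
(.lf ⟨(nat_lit 919), (nat_lit 2), (nat_lit 0x5ce), (nat_lit 2)⟩))
(.nd (.nd (.lf ⟨(nat_lit 162), (nat_lit 2), (nat_lit 0x882), (nat_lit 2)⟩)
(.lf ⟨(nat_lit 0x278a180f), (nat_lit 5), (nat_lit 0x40129004a), (nat_lit 6)⟩))
(.lf ⟨(nat_lit 0x59f), (nat_lit 2), (nat_lit 0x7d6), (nat_lit 2)⟩)))
(.nd (.nd (.nd (.lf ⟨(nat_lit 197), (nat_lit 2), (nat_lit 323), (nat_lit 2)⟩)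
(.lf ⟨(nat_lit 994), (nat_lit 2), (nat_lit 0x88f), (nat_lit 2)⟩))
(.lf ⟨(nat_lit 0x59e), (nat_lit 2), (nat_lit 470), (nat_lit 2)⟩))
(.nd (.lf ⟨(nat_lit 0x728), (nat_lit 2), (nat_lit 0xa1c), (nat_lit 2)⟩)
(.lf ⟨(nat_lit 930), (nat_lit 2), (nat_lit 0x6da5e26da5ce), (nat_lit 8)⟩))))
(.nd (.nd (.nd (.nd (.lf ⟨(nat_lit 0x820), (nat_lit 2), (nat_lit 0), (nat_lit 0)⟩)
(.lf ⟨(nat_lit 0x4676d8), (nat_lit 4), (nat_lit 0x9e275b62275b45b), (nat_lit 10)⟩))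
(.lf ⟨(nat_lit 604), (nat_lit 2), (nat_lit 0x28709), (nat_lit 3)⟩))
(.nd (.lf ⟨(nat_lit 102), (nat_lit 2), (nat_lit 0x981), (nat_lit 2)⟩)
(.lf ⟨(nat_lit 986), (nat_lit 2), (nat_lit 0x5e05e068f), (nat_lit 6)⟩)))
(.nd (.nd (.nd (.lf ⟨(nat_lit 0x45d), (nat_lit 2), (nat_lit 0x751), (nat_lit 2)⟩)
(.lf ⟨(nat_lit 615), (nat_lit 2), (nat_lit 0x1fa9f9c9), (nat_lit 5)⟩))
(.lf ⟨(nat_lit 0x65e), (nat_lit 2), (nat_lit 0x799), (nat_lit 2)⟩))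
(.nd (.lf ⟨(nat_lit 0x7a23), (nat_lit 3), (nat_lit 0x288c7), (nat_lit 3)⟩)
(.lf ⟨(nat_lit 0x66c), (nat_lit 2), (nat_lit 0xb19), (nat_lit 2)⟩)))))
(.nd (.nd (.nd (.nd (.nd (.lf ⟨(nat_lit 0x618), (nat_lit 2), (nat_lit 0), (nat_lit 0)⟩)
(.lf ⟨(nat_lit 749), (nat_lit 2), (nat_lit 0x75b75b4626ed7626dd44b), (nat_lit 14)⟩))
(.lf ⟨(nat_lit 615), (nat_lit 2), (nat_lit 0x6d89db609), (nat_lit 6)⟩))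
(.nd (.lf ⟨(nat_lit 219), (nat_lit 2), (nat_lit 0x6c3), (nat_lit 2)⟩)
(.lf ⟨(nat_lit 66), (nat_lit 2), (nat_lit 0x81a5903c5081), (nat_lit 8)⟩)))
(.nd (.nd (.nd (.lf ⟨(nat_lit 215), (nat_lit 2), (nat_lit 0x5c3), (nat_lit 2)⟩)
(.lf ⟨(nat_lit 172), (nat_lit 2), (nat_lit 0xb02), (nat_lit 2)⟩))
(.lf ⟨(nat_lit 0x7a5), (nat_lit 2), (nat_lit 0x95e), (nat_lit 2)⟩))
(.nd (.lf ⟨(nat_lit 911), (nat_lit 2), (nat_lit 0x1e3ce), (nat_lit 3)⟩)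
(.lf ⟨(nat_lit 911), (nat_lit 2), (nat_lit 0x203ce), (nat_lit 3)⟩))))
(.nd (.nd (.nd (.nd (.lf ⟨(nat_lit 0xa28), (nat_lit 2), (nat_lit 0), (nat_lit 0)⟩)
(.lf ⟨(nat_lit 0x627), (nat_lit 2), (nat_lit 0x9d8), (nat_lit 2)⟩))
(.lf ⟨(nat_lit 671), (nat_lit 2), (nat_lit 0x7d831830a), (nat_lit 6)⟩))
(.nd (.lf ⟨(nat_lit 25), (nat_lit 1), (nat_lit 0x90090), (nat_lit 4)⟩)
(.lf ⟨(nat_lit 0x41f), (nat_lit 2), (nat_lit 0x6df6d0), (nat_lit 4)⟩)))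
(.nd (.nd (.nd (.lf ⟨(nat_lit 651), (nat_lit 2), (nat_lit 0x1d2ca), (nat_lit 3)⟩)
(.lf ⟨(nat_lit 42), (nat_lit 1), (nat_lit 0), (nat_lit 0)⟩))
(.lf ⟨(nat_lit 0x20b27827), (nat_lit 5), (nat_lit 0x2782c9e0), (nat_lit 5)⟩))
(.nd (.lf ⟨(nat_lit 0x6276dd), (nat_lit 4), (nat_lit 0xa5d6dd9db62975b), (nat_lit 10)⟩)
(.lf ⟨(nat_lit 0x74439d10e), (nat_lit 6), (nat_lit 0x74439d10e), (nat_lit 6)⟩)))))))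
(.nd (.nd (.nd (.nd (.nd (.nd (.nd (.lf ⟨(nat_lit 68), (nat_lit 2), (nat_lit 0x9101), (nat_lit 3)⟩)
(.lf ⟨(nat_lit 0x65a), (nat_lit 2), (nat_lit 0x699), (nat_lit 2)⟩))
(.lf ⟨(nat_lit 0x4676d8), (nat_lit 4), (nat_lit 0x2789b62da5d8a975b45b), (nat_lit 13)⟩))
(.nd (.nd (.lf ⟨(nat_lit 730), (nat_lit 2), (nat_lit 0x68b), (nat_lit 2)⟩)
(.lf ⟨(nat_lit 930), (nat_lit 2), (nat_lit 0x88e), (nat_lit 2)⟩))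
(.lf ⟨(nat_lit 0x2618dc), (nat_lit 4), (nat_lit 0x288608dc860261), (nat_lit 9)⟩)))
(.nd (.nd (.nd (.lf ⟨(nat_lit 236), (nat_lit 2), (nat_lit 0x30b03), (nat_lit 3)⟩)
(.lf ⟨(nat_lit 610), (nat_lit 2), (nat_lit 0x2040f3ac8a040f389), (nat_lit 11)⟩))
(.lf ⟨(nat_lit 200), (nat_lit 2), (nat_lit 0x5d6203), (nat_lit 4)⟩))
(.nd (.lf ⟨(nat_lit 0x518), (nat_lit 2), (nat_lit 0x614), (nat_lit 2)⟩)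
(.lf ⟨(nat_lit 921), (nat_lit 2), (nat_lit 0x69765a5ce), (nat_lit 6)⟩))))
(.nd (.nd (.nd (.nd (.lf ⟨(nat_lit 0x79e), (nat_lit 2), (nat_lit 0), (nat_lit 0)⟩)
(.lf ⟨(nat_lit 46), (nat_lit 1), (nat_lit 0), (nat_lit 0)⟩))
(.lf ⟨(nat_lit 0x763), (nat_lit 2), (nat_lit 0x8dd), (nat_lit 2)⟩))
(.nd (.lf ⟨(nat_lit 11), (nat_lit 1), (nat_lit 0x103103), (nat_lit 4)⟩)
(.lf ⟨(nat_lit 108), (nat_lit 2), (nat_lit 0xb277ac9deb01), (nat_lit 8)⟩)))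
(.nd (.nd (.nd (.lf ⟨(nat_lit 984), (nat_lit 2), (nat_lit 0x60f), (nat_lit 2)⟩)
(.lf ⟨(nat_lit 36), (nat_lit 1), (nat_lit 0), (nat_lit 0)⟩))
(.lf ⟨(nat_lit 0x7a0), (nat_lit 2), (nat_lit 0x81e), (nat_lit 2)⟩))
(.nd (.lf ⟨(nat_lit 238), (nat_lit 2), (nat_lit 0x68bba969d6e975b6aea5a2eea43), (nat_lit 18)⟩)
(.lf ⟨(nat_lit 0x425), (nat_lit 2), (nat_lit 0x950), (nat_lit 2)⟩)))))
(.nd (.nd (.nd (.nd (.nd (.lf ⟨(nat_lit 0x596), (nat_lit 2), (nat_lit 0), (nat_lit 0)⟩)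
(.lf ⟨(nat_lit 41), (nat_lit 1), (nat_lit 0), (nat_lit 0)⟩))
(.lf ⟨(nat_lit 0x647), (nat_lit 2), (nat_lit 473), (nat_lit 2)⟩))
(.nd (.lf ⟨(nat_lit 592), (nat_lit 2), (nat_lit 0x409), (nat_lit 2)⟩)
(.lf ⟨(nat_lit 0x176d789b), (nat_lit 5), (nat_lit 0x226d76d7), (nat_lit 5)⟩)))
(.nd (.nd (.nd (.lf ⟨(nat_lit 79), (nat_lit 2), (nat_lit 961), (nat_lit 2)⟩)
(.lf ⟨(nat_lit 0x418), (nat_lit 2), (nat_lit 0x257dd9df76a7dd9df76a7db7ea7677dda9f7677dda9f6dfa9f610), (nat_lit 35)⟩))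
(.lf ⟨(nat_lit 133), (nat_lit 2), (nat_lit 0x1e5d6142), (nat_lit 5)⟩))
(.nd (.lf ⟨(nat_lit 0x76d), (nat_lit 2), (nat_lit 0xb5d), (nat_lit 2)⟩)
(.lf ⟨(nat_lit 335), (nat_lit 2), (nat_lit 0x203c5), (nat_lit 3)⟩))))
(.nd (.nd (.nd (.nd (.lf ⟨(nat_lit 0x9a6), (nat_lit 2), (nat_lit 0), (nat_lit 0)⟩)
(.lf ⟨(nat_lit 743), (nat_lit 2), (nat_lit 0x76774b), (nat_lit 4)⟩))
(.lf ⟨(nat_lit 0x422), (nat_lit 2), (nat_lit 0x6e08a065b650), (nat_lit 8)⟩))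
(.nd (.lf ⟨(nat_lit 17), (nat_lit 1), (nat_lit 0x2c22c2), (nat_lit 4)⟩)
(.lf ⟨(nat_lit 0x3ec), (nat_lit 2), (nat_lit 0xb0f), (nat_lit 2)⟩)))
(.nd (.nd (.nd (.lf ⟨(nat_lit 0x96a), (nat_lit 2), (nat_lit 0xaa5), (nat_lit 2)⟩)
(.lf ⟨(nat_lit 48), (nat_lit 1), (nat_lit 0), (nat_lit 0)⟩))
(.lf ⟨(nat_lit 0x59e), (nat_lit 2), (nat_lit 0x796), (nat_lit 2)⟩))
(.nd (.lf ⟨(nat_lit 0), (nat_lit 0), (nat_lit 0x10a10a), (nat_lit 4)⟩)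
(.lf ⟨(nat_lit 23), (nat_lit 1), (nat_lit 0x819), (nat_lit 2)⟩))))))
(.nd (.nd (.nd (.nd (.nd (.nd (.lf ⟨(nat_lit 975), (nat_lit 2), (nat_lit 0), (nat_lit 0)⟩)
(.lf ⟨(nat_lit 32), (nat_lit 1), (nat_lit 0xca0ca), (nat_lit 4)⟩))
(.lf ⟨(nat_lit 613), (nat_lit 2), (nat_lit 0x79859e6076169567981d859e609), (nat_lit 18)⟩))
(.nd (.nd (.lf ⟨(nat_lit 735), (nat_lit 2), (nat_lit 0x7cb), (nat_lit 2)⟩)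
(.lf ⟨(nat_lit 0x1b2678a180f), (nat_lit 7), (nat_lit 0x278a180f6c9), (nat_lit 7)⟩))
(.lf ⟨(nat_lit 0x41f), (nat_lit 2), (nat_lit 0x95f6df6e57d0), (nat_lit 8)⟩)))
(.nd (.nd (.nd (.lf ⟨(nat_lit 267), (nat_lit 2), (nat_lit 708), (nat_lit 2)⟩)
(.lf ⟨(nat_lit 0x461), (nat_lit 2), (nat_lit 0x867767751), (nat_lit 6)⟩))
(.lf ⟨(nat_lit 21), (nat_lit 1), (nat_lit 0x1e5d6), (nat_lit 3)⟩))
(.nd (.lf ⟨(nat_lit 0x707), (nat_lit 2), (nat_lit 476), (nat_lit 2)⟩)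
(.lf ⟨(nat_lit 976), (nat_lit 2), (nat_lit 0x2040f), (nat_lit 3)⟩))))
(.nd (.nd (.nd (.nd (.lf ⟨(nat_lit 0x8a2), (nat_lit 2), (nat_lit 0), (nat_lit 0)⟩)
(.lf ⟨(nat_lit 0x62c9e4), (nat_lit 4), (nat_lit 0x249e56df7676df76a7dd9df758), (nat_lit 17)⟩))
(.lf ⟨(nat_lit 13), (nat_lit 1), (nat_lit 0x59e6903ce), (nat_lit 6)⟩))
(.nd (.lf ⟨(nat_lit 922), (nat_lit 2), (nat_lit 0x68e), (nat_lit 2)⟩)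
(.lf ⟨(nat_lit 0x5a0), (nat_lit 2), (nat_lit 0x816), (nat_lit 2)⟩)))
(.nd (.nd (.nd (.lf ⟨(nat_lit 0x661), (nat_lit 2), (nat_lit 0x859), (nat_lit 2)⟩)
(.lf ⟨(nat_lit 728), (nat_lit 2), (nat_lit 0x7ea7e760b), (nat_lit 6)⟩))
(.lf ⟨(nat_lit 927), (nat_lit 2), (nat_lit 0x1a41869095f60e), (nat_lit 9)⟩))
(.nd (.lf ⟨(nat_lit 681), (nat_lit 2), (nat_lit 0x758a5d60a), (nat_lit 6)⟩)
(.lf ⟨(nat_lit 0x69d), (nat_lit 2), (nat_lit 0x75a), (nat_lit 2)⟩)))))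
(.nd (.nd (.nd (.nd (.nd (.lf ⟨(nat_lit 0x69a), (nat_lit 2), (nat_lit 0), (nat_lit 0)⟩)
(.lf ⟨(nat_lit 287), (nat_lit 2), (nat_lit 0xa9f9dd6dd6d89dd9d8744), (nat_lit 14)⟩))
(.lf ⟨(nat_lit 0x3e789b), (nat_lit 4), (nat_lit 0x2c9db3e2), (nat_lit 5)⟩))
(.nd (.lf ⟨(nat_lit 0x420), (nat_lit 2), (nat_lit 0x810), (nat_lit 2)⟩)
(.lf ⟨(nat_lit 749), (nat_lit 2), (nat_lit 0x75ba5d6d189bb697626dd44b), (nat_lit 16)⟩)))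
(.nd (.nd (.nd (.lf ⟨(nat_lit 285), (nat_lit 2), (nat_lit 0x744), (nat_lit 2)⟩)
(.lf ⟨(nat_lit 0), (nat_lit 0), (nat_lit 0x9d09d), (nat_lit 4)⟩))
(.lf ⟨(nat_lit 607), (nat_lit 2), (nat_lit 0x257c9), (nat_lit 3)⟩))
(.nd (.lf ⟨(nat_lit 0x51d), (nat_lit 2), (nat_lit 0x754), (nat_lit 2)⟩)
(.lf ⟨(nat_lit 7), (nat_lit 1), (nat_lit 32), (nat_lit 1)⟩))))
(.nd (.nd (.nd (.nd (.lf ⟨(nat_lit 293), (nat_lit 2), (nat_lit 0x2a944), (nat_lit 3)⟩)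
(.lf ⟨(nat_lit 645), (nat_lit 2), (nat_lit 0x2081914a), (nat_lit 5)⟩))
(.lf ⟨(nat_lit 106), (nat_lit 2), (nat_lit 0x257d86e991db276d8a646dd6e97676297581d67981d859e95f60759e6076167a5601), (nat_lit 45)⟩))
(.nd (.lf ⟨(nat_lit 221), (nat_lit 2), (nat_lit 0x743), (nat_lit 2)⟩)
(.lf ⟨(nat_lit 0x69d), (nat_lit 2), (nat_lit 0x81e76079a), (nat_lit 6)⟩)))
(.nd (.nd (.nd (.lf ⟨(nat_lit 605), (nat_lit 2), (nat_lit 0x29749), (nat_lit 3)⟩)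
(.lf ⟨(nat_lit 25), (nat_lit 1), (nat_lit 0x9e285a), (nat_lit 4)⟩))
(.lf ⟨(nat_lit 0x1095f), (nat_lit 3), (nat_lit 0x1b95f6d0), (nat_lit 5)⟩))
(.nd (.lf ⟨(nat_lit 0x9859), (nat_lit 3), (nat_lit 0x819261), (nat_lit 4)⟩)
(.lf ⟨(nat_lit 0x6c96c375ba5d6db0dd6e975b6c96c375ba5d6db0dd6e975b), (nat_lit 32), (nat_lit 0x6c96c375ba5d6db0dd6e975b6c96c375ba5d6db0dd6e975b), (nat_lit 32)⟩)))))))))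
(.nd (.nd (.nd (.nd (.nd (.nd (.nd (.nd (.nd (.lf ⟨(nat_lit 130), (nat_lit 2), (nat_lit 0), (nat_lit 0)⟩)
(.lf ⟨(nat_lit 207), (nat_lit 2), (nat_lit 0x8193c3), (nat_lit 4)⟩))
(.lf ⟨(nat_lit 0x6ec), (nat_lit 2), (nat_lit 0xb1b), (nat_lit 2)⟩))
(.nd (.nd (.lf ⟨(nat_lit 152), (nat_lit 2), (nat_lit 0x602), (nat_lit 2)⟩)
(.lf ⟨(nat_lit 0x6a2), (nat_lit 2), (nat_lit 0x89a), (nat_lit 2)⟩))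
(.lf ⟨(nat_lit 0x3e05d6), (nat_lit 4), (nat_lit 0x79781e5d66995d66963d9), (nat_lit 14)⟩)))
(.nd (.nd (.nd (.lf ⟨(nat_lit 0xb6d), (nat_lit 2), (nat_lit 0), (nat_lit 0)⟩)
(.lf ⟨(nat_lit 0x86c), (nat_lit 2), (nat_lit 0x9a1), (nat_lit 2)⟩))
(.lf ⟨(nat_lit 342), (nat_lit 2), (nat_lit 0x585), (nat_lit 2)⟩))
(.nd (.lf ⟨(nat_lit 8), (nat_lit 1), (nat_lit 0x1ce345), (nat_lit 4)⟩)
(.lf ⟨(nat_lit 0x69f), (nat_lit 2), (nat_lit 0x81f81a), (nat_lit 4)⟩))))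
(.nd (.nd (.nd (.nd (.lf ⟨(nat_lit 272), (nat_lit 2), (nat_lit 0x1b404), (nat_lit 3)⟩)
(.lf ⟨(nat_lit 0x196dd), (nat_lit 3), (nat_lit 0x1b75b65b), (nat_lit 5)⟩))
(.lf ⟨(nat_lit 928), (nat_lit 2), (nat_lit 0x80e), (nat_lit 2)⟩))
(.nd (.lf ⟨(nat_lit 736), (nat_lit 2), (nat_lit 0x80b), (nat_lit 2)⟩)
(.lf ⟨(nat_lit 728), (nat_lit 2), (nat_lit 0x1fa9fa5d8ada5d8a9762b697626dd9db62974b), (nat_lit 25)⟩)))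
(.nd (.nd (.nd (.lf ⟨(nat_lit 655), (nat_lit 2), (nat_lit 970), (nat_lit 2)⟩)
(.lf ⟨(nat_lit 139), (nat_lit 2), (nat_lit 0x202c2), (nat_lit 3)⟩))
(.lf ⟨(nat_lit 986), (nat_lit 2), (nat_lit 0x5a079a58f), (nat_lit 6)⟩))
(.nd (.lf ⟨(nat_lit 920), (nat_lit 2), (nat_lit 0x69441869440e), (nat_lit 8)⟩)
(.lf ⟨(nat_lit 0x760), (nat_lit 2), (nat_lit 0x81d), (nat_lit 2)⟩)))))
(.nd (.nd (.nd (.nd (.nd (.lf ⟨(nat_lit 75), (nat_lit 2), (nat_lit 0x102c1), (nat_lit 3)⟩)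
(.lf ⟨(nat_lit 288), (nat_lit 2), (nat_lit 0x1d804), (nat_lit 3)⟩))
(.lf ⟨(nat_lit 0x79f), (nat_lit 2), (nat_lit 0x7de), (nat_lit 2)⟩))
(.nd (.nd (.lf ⟨(nat_lit 923), (nat_lit 2), (nat_lit 0x6ce), (nat_lit 2)⟩)
(.lf ⟨(nat_lit 288), (nat_lit 2), (nat_lit 0x804), (nat_lit 2)⟩))
(.lf ⟨(nat_lit 0x5da), (nat_lit 2), (nat_lit 0x697), (nat_lit 2)⟩)))
(.nd (.nd (.nd (.lf ⟨(nat_lit 203), (nat_lit 2), (nat_lit 707), (nat_lit 2)⟩)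
(.lf ⟨(nat_lit 0x8ac), (nat_lit 2), (nat_lit 0xb22), (nat_lit 2)⟩))
(.lf ⟨(nat_lit 142), (nat_lit 2), (nat_lit 0x1e5d6382), (nat_lit 5)⟩))
(.nd (.lf ⟨(nat_lit 743), (nat_lit 2), (nat_lit 0x7676dd6cb), (nat_lit 6)⟩)
(.lf ⟨(nat_lit 0xc20c2), (nat_lit 4), (nat_lit 0x83083), (nat_lit 4)⟩))))
(.nd (.nd (.nd (.nd (.lf ⟨(nat_lit 284), (nat_lit 2), (nat_lit 0x23704), (nat_lit 3)⟩)
(.lf ⟨(nat_lit 0x1b7dd), (nat_lit 3), (nat_lit 0x1f76a7db7ea), (nat_lit 7)⟩))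
(.lf ⟨(nat_lit 0x668), (nat_lit 2), (nat_lit 0xa19), (nat_lit 2)⟩))
(.nd (.lf ⟨(nat_lit 15), (nat_lit 1), (nat_lit 0x4a04a), (nat_lit 4)⟩)
(.lf ⟨(nat_lit 934), (nat_lit 2), (nat_lit 0x6d75a65db58e), (nat_lit 8)⟩)))
(.nd (.nd (.nd (.lf ⟨(nat_lit 0x7e5), (nat_lit 2), (nat_lit 0x95f), (nat_lit 2)⟩)
(.lf ⟨(nat_lit 0x7e7), (nat_lit 2), (nat_lit 0xaa77ea), (nat_lit 4)⟩))
(.lf ⟨(nat_lit 13), (nat_lit 1), (nat_lit 0x7966903ce), (nat_lit 6)⟩))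
(.nd (.lf ⟨(nat_lit 0x74b74b), (nat_lit 4), (nat_lit 0), (nat_lit 0)⟩)
(.lf ⟨(nat_lit 0x2d95d03c52d95d03c5), (nat_lit 12), (nat_lit 0x2d95d03c52d95d03c5), (nat_lit 12)⟩))))))
(.nd (.nd (.nd (.nd (.nd (.nd (.lf ⟨(nat_lit 715), (nat_lit 2), (nat_lit 0), (nat_lit 0)⟩)
(.lf ⟨(nat_lit 934), (nat_lit 2), (nat_lit 0x6da99b68e), (nat_lit 6)⟩))
(.lf ⟨(nat_lit 480), (nat_lit 2), (nat_lit 0x807), (nat_lit 2)⟩))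
(.nd (.nd (.lf ⟨(nat_lit 100), (nat_lit 2), (nat_lit 0x901), (nat_lit 2)⟩)
(.lf ⟨(nat_lit 0x6c9), (nat_lit 2), (nat_lit 0x110044401), (nat_lit 6)⟩))
(.lf ⟨(nat_lit 0x1061a7d8), (nat_lit 5), (nat_lit 0x6a57d869061a), (nat_lit 8)⟩)))
(.nd (.nd (.nd (.lf ⟨(nat_lit 195), (nat_lit 2), (nat_lit 0), (nat_lit 0)⟩)
(.lf ⟨(nat_lit 940), (nat_lit 2), (nat_lit 0xb0e), (nat_lit 2)⟩))
(.lf ⟨(nat_lit 0x597), (nat_lit 2), (nat_lit 0x5d6), (nat_lit 2)⟩))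
(.nd (.lf ⟨(nat_lit 0x625), (nat_lit 2), (nat_lit 0x958), (nat_lit 2)⟩)
(.lf ⟨(nat_lit 0x61a), (nat_lit 2), (nat_lit 0x698), (nat_lit 2)⟩))))
(.nd (.nd (.nd (.nd (.lf ⟨(nat_lit 216), (nat_lit 2), (nat_lit 0x1f603), (nat_lit 3)⟩)
(.lf ⟨(nat_lit 0x61d), (nat_lit 2), (nat_lit 0x758), (nat_lit 2)⟩))
(.lf ⟨(nat_lit 937), (nat_lit 2), (nat_lit 0xba975b69061a5107d86df7676d8b9a6276d851061a40e), (nat_lit 30)⟩))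
(.nd (.lf ⟨(nat_lit 0), (nat_lit 0), (nat_lit 260), (nat_lit 2)⟩)
(.lf ⟨(nat_lit 0x7a3), (nat_lit 2), (nat_lit 0x8de), (nat_lit 2)⟩)))
(.nd (.nd (.nd (.lf ⟨(nat_lit 0x41b), (nat_lit 2), (nat_lit 0x6d0), (nat_lit 2)⟩)
(.lf ⟨(nat_lit 0x61b), (nat_lit 2), (nat_lit 0x277ea7e77ea7db7ea7d8), (nat_lit 13)⟩))
(.lf ⟨(nat_lit 0x5a26de), (nat_lit 4), (nat_lit 0x5db79b5d689b), (nat_lit 8)⟩))
(.nd (.lf ⟨(nat_lit 0x8ac), (nat_lit 2), (nat_lit 0x9e6b279a2), (nat_lit 6)⟩)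
(.lf ⟨(nat_lit 0x10a6475b), (nat_lit 5), (nat_lit 0x22b69762a5d8ada5d89b91d41d), (nat_lit 17)⟩)))))
(.nd (.nd (.nd (.nd (.nd (.lf ⟨(nat_lit 207), (nat_lit 2), (nat_lit 0x173c3), (nat_lit 3)⟩)
(.lf ⟨(nat_lit 0x6276dd), (nat_lit 4), (nat_lit 0x1d6dfa9f6dd9db61d), (nat_lit 11)⟩))
(.lf ⟨(nat_lit 728), (nat_lit 2), (nat_lit 0x7676d8a5d6cb), (nat_lit 8)⟩))
(.nd (.lf ⟨(nat_lit 669), (nat_lit 2), (nat_lit 0x74a), (nat_lit 2)⟩)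
(.lf ⟨(nat_lit 8), (nat_lit 1), (nat_lit 0x81a5903c5), (nat_lit 6)⟩)))
(.nd (.nd (.nd (.lf ⟨(nat_lit 150), (nat_lit 2), (nat_lit 0x582), (nat_lit 2)⟩)
(.lf ⟨(nat_lit 0x421), (nat_lit 2), (nat_lit 0x850), (nat_lit 2)⟩))
(.lf ⟨(nat_lit 921), (nat_lit 2), (nat_lit 0x79759979a5d668e), (nat_lit 10)⟩))
(.nd (.lf ⟨(nat_lit 921), (nat_lit 2), (nat_lit 0x55941540e), (nat_lit 6)⟩)
(.lf ⟨(nat_lit 166), (nat_lit 2), (nat_lit 0x81b3ac81b382), (nat_lit 8)⟩))))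
(.nd (.nd (.nd (.nd (.lf ⟨(nat_lit 290), (nat_lit 2), (nat_lit 0x27884), (nat_lit 3)⟩)
(.lf ⟨(nat_lit 0x624), (nat_lit 2), (nat_lit 0x2776c91d9e57dda9f6dfaa77dda9f7677dda9f6dfa98), (nat_lit 29)⟩))
(.lf ⟨(nat_lit 0xf9deb27), (nat_lit 5), (nat_lit 0x277ac9de9cf9de), (nat_lit 9)⟩))
(.nd (.lf ⟨(nat_lit 0x51a), (nat_lit 2), (nat_lit 0x694), (nat_lit 2)⟩)
(.lf ⟨(nat_lit 992), (nat_lit 2), (nat_lit 0x80f), (nat_lit 2)⟩)))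
(.nd (.nd (.nd (.lf ⟨(nat_lit 587), (nat_lit 2), (nat_lit 0x1b2c9), (nat_lit 3)⟩)
(.lf ⟨(nat_lit 0x7ec), (nat_lit 2), (nat_lit 0xb1f), (nat_lit 2)⟩))
(.lf ⟨(nat_lit 97), (nat_lit 2), (nat_lit 0x21801), (nat_lit 3)⟩))
(.nd (.lf ⟨(nat_lit 0x55a55a), (nat_lit 4), (nat_lit 0x695695), (nat_lit 4)⟩)
(.lf ⟨(nat_lit 0x1d6e975b), (nat_lit 5), (nat_lit 0x7446c97446c9), (nat_lit 8)⟩)))))))
(.nd (.nd (.nd (.nd (.nd (.nd (.nd (.lf ⟨(nat_lit 585), (nat_lit 2), (nat_lit 0), (nat_lit 0)⟩)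
(.lf ⟨(nat_lit 0x6e5), (nat_lit 2), (nat_lit 0x95b), (nat_lit 2)⟩))
(.lf ⟨(nat_lit 0x10758), (nat_lit 3), (nat_lit 0x7676e4b276d8a64750a5d), (nat_lit 14)⟩))
(.nd (.nd (.lf ⟨(nat_lit 157), (nat_lit 2), (nat_lit 0x742), (nat_lit 2)⟩)
(.lf ⟨(nat_lit 0x418), (nat_lit 2), (nat_lit 0x2c610), (nat_lit 3)⟩))
(.lf ⟨(nat_lit 0x868), (nat_lit 2), (nat_lit 0xa21), (nat_lit 2)⟩)))
(.nd (.nd (.nd (.lf ⟨(nat_lit 172), (nat_lit 2), (nat_lit 0x2fb02), (nat_lit 3)⟩)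
(.lf ⟨(nat_lit 38), (nat_lit 1), (nat_lit 44), (nat_lit 1)⟩))
(.lf ⟨(nat_lit 6), (nat_lit 1), (nat_lit 0x75d6), (nat_lit 3)⟩))
(.nd (.lf ⟨(nat_lit 352), (nat_lit 2), (nat_lit 0xe3601ce345), (nat_lit 7)⟩)
(.lf ⟨(nat_lit 108), (nat_lit 2), (nat_lit 0xb2782c9e0b01), (nat_lit 8)⟩))))
(.nd (.nd (.nd (.nd (.lf ⟨(nat_lit 455), (nat_lit 2), (nat_lit 0), (nat_lit 0)⟩)
(.lf ⟨(nat_lit 45), (nat_lit 1), (nat_lit 0), (nat_lit 0)⟩))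
(.lf ⟨(nat_lit 0xf6d0), (nat_lit 3), (nat_lit 0x5a01da59e6903db), (nat_lit 10)⟩))
(.nd (.lf ⟨(nat_lit 0), (nat_lit 0), (nat_lit 195), (nat_lit 2)⟩)
(.lf ⟨(nat_lit 0xf9deb27), (nat_lit 5), (nat_lit 0x277ac78f9de), (nat_lit 7)⟩)))
(.nd (.nd (.nd (.lf ⟨(nat_lit 983), (nat_lit 2), (nat_lit 0x5cf), (nat_lit 2)⟩)
(.lf ⟨(nat_lit 0x622), (nat_lit 2), (nat_lit 0x898), (nat_lit 2)⟩))
(.lf ⟨(nat_lit 0x10616), (nat_lit 3), (nat_lit 0x1a59a418), (nat_lit 5)⟩))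
(.nd (.lf ⟨(nat_lit 663), (nat_lit 2), (nat_lit 0x5cf30f30a), (nat_lit 6)⟩)
(.lf ⟨(nat_lit 0x2618dc), (nat_lit 4), (nat_lit 0x2886381c860261), (nat_lit 9)⟩)))))
(.nd (.nd (.nd (.nd (.nd (.lf ⟨(nat_lit 142), (nat_lit 2), (nat_lit 0x15382), (nat_lit 3)⟩)
(.lf ⟨(nat_lit 0x429), (nat_lit 2), (nat_lit 0xa6476c9db6249db7596dd6d995f61b7db65b75b650), (nat_lit 28)⟩))
(.lf ⟨(nat_lit 0x5626c7), (nat_lit 4), (nat_lit 0x6c76d589b), (nat_lit 6)⟩))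
(.nd (.lf ⟨(nat_lit 336), (nat_lit 2), (nat_lit 0x405), (nat_lit 2)⟩)
(.lf ⟨(nat_lit 0x62975b), (nat_lit 4), (nat_lit 0x276df76a7e9762b69762a5d8ada5d89b7676d8a5d), (nat_lit 27)⟩)))
(.nd (.nd (.nd (.lf ⟨(nat_lit 0x744744), (nat_lit 4), (nat_lit 0), (nat_lit 0)⟩)
(.lf ⟨(nat_lit 0x422), (nat_lit 2), (nat_lit 0x890), (nat_lit 2)⟩))
(.lf ⟨(nat_lit 159), (nat_lit 2), (nat_lit 0x7c2), (nat_lit 2)⟩))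
(.nd (.lf ⟨(nat_lit 610), (nat_lit 2), (nat_lit 0x3626cd6c9), (nat_lit 6)⟩)
(.lf ⟨(nat_lit 0x6c96c9), (nat_lit 4), (nat_lit 0), (nat_lit 0)⟩))))
(.nd (.nd (.nd (.nd (.lf ⟨(nat_lit 95), (nat_lit 2), (nat_lit 0x257c1), (nat_lit 3)⟩)
(.lf ⟨(nat_lit 989), (nat_lit 2), (nat_lit 0x74f), (nat_lit 2)⟩))
(.lf ⟨(nat_lit 0x65b65b), (nat_lit 4), (nat_lit 0x82281b8228196d9), (nat_lit 10)⟩))
(.nd (.lf ⟨(nat_lit 0), (nat_lit 0), (nat_lit 650), (nat_lit 2)⟩)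
(.lf ⟨(nat_lit 0xf7676d8), (nat_lit 5), (nat_lit 0x7676d8a5db0fa5d), (nat_lit 10)⟩)))
(.nd (.nd (.nd (.lf ⟨(nat_lit 0x929), (nat_lit 2), (nat_lit 0xa64), (nat_lit 2)⟩)
(.lf ⟨(nat_lit 0x862), (nat_lit 2), (nat_lit 0x8a1), (nat_lit 2)⟩))
(.lf ⟨(nat_lit 106), (nat_lit 2), (nat_lit 0x257d86e991db276d8a646dd6e976762975f601), (nat_lit 25)⟩))
(.nd (.lf ⟨(nat_lit 226), (nat_lit 2), (nat_lit 0x8876c76c3), (nat_lit 6)⟩)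
(.lf ⟨(nat_lit 129), (nat_lit 2), (nat_lit 0x195d03c5042), (nat_lit 7)⟩))))))
(.nd (.nd (.nd (.nd (.nd (.nd (.lf ⟨(nat_lit 201), (nat_lit 2), (nat_lit 0xe243), (nat_lit 3)⟩)
(.lf ⟨(nat_lit 330), (nat_lit 2), (nat_lit 0xeb206d03e265b6993a19e06d96d940f285), (nat_lit 23)⟩))
(.lf ⟨(nat_lit 0x6e1), (nat_lit 2), (nat_lit 0x9e286789b), (nat_lit 6)⟩))
(.nd (.nd (.lf ⟨(nat_lit 289), (nat_lit 2), (nat_lit 0x844), (nat_lit 2)⟩)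
(.lf ⟨(nat_lit 0x2a77582a7758), (nat_lit 8), (nat_lit 0x2a77582a7758), (nat_lit 8)⟩))
(.lf ⟨(nat_lit 992), (nat_lit 2), (nat_lit 0x5e05cf), (nat_lit 4)⟩)))
(.nd (.nd (.nd (.lf ⟨(nat_lit 265), (nat_lit 2), (nat_lit 580), (nat_lit 2)⟩)
(.lf ⟨(nat_lit 287), (nat_lit 2), (nat_lit 0xa9f767744), (nat_lit 6)⟩))
(.lf ⟨(nat_lit 7), (nat_lit 1), (nat_lit 30), (nat_lit 1)⟩))
(.nd (.lf ⟨(nat_lit 656), (nat_lit 2), (nat_lit 0xf91d40f74f2cf2ca), (nat_lit 11)⟩)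
(.lf ⟨(nat_lit 13), (nat_lit 1), (nat_lit 0x8103ce), (nat_lit 4)⟩))))
(.nd (.nd (.nd (.nd (.lf ⟨(nat_lit 281), (nat_lit 2), (nat_lit 0x21644), (nat_lit 3)⟩)
(.lf ⟨(nat_lit 0x61b), (nat_lit 2), (nat_lit 0x95f9e46d8b2791f), (nat_lit 10)⟩))
(.lf ⟨(nat_lit 0x416), (nat_lit 2), (nat_lit 0x1da59e690), (nat_lit 6)⟩))
(.nd (.lf ⟨(nat_lit 912), (nat_lit 2), (nat_lit 0x40e), (nat_lit 2)⟩)
(.lf ⟨(nat_lit 0x10616), (nat_lit 3), (nat_lit 0x20796418), (nat_lit 5)⟩)))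
(.nd (.nd (.nd (.lf ⟨(nat_lit 0x660), (nat_lit 2), (nat_lit 0x819), (nat_lit 2)⟩)
(.lf ⟨(nat_lit 93), (nat_lit 2), (nat_lit 0x741), (nat_lit 2)⟩))
(.lf ⟨(nat_lit 0xf6d0), (nat_lit 3), (nat_lit 0x5e05d66966903db), (nat_lit 10)⟩))
(.nd (.lf ⟨(nat_lit 606), (nat_lit 2), (nat_lit 0x789), (nat_lit 2)⟩)
(.lf ⟨(nat_lit 610), (nat_lit 2), (nat_lit 0x2040f3a79ac9e68a040f389), (nat_lit 15)⟩)))))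
(.nd (.nd (.nd (.nd (.nd (.lf ⟨(nat_lit 144), (nat_lit 2), (nat_lit 0x19402), (nat_lit 3)⟩)
(.lf ⟨(nat_lit 728), (nat_lit 2), (nat_lit 0x7ea7db7676d874b), (nat_lit 10)⟩))
(.lf ⟨(nat_lit 930), (nat_lit 2), (nat_lit 0x6d589b54e), (nat_lit 6)⟩))
(.nd (.lf ⟨(nat_lit 602), (nat_lit 2), (nat_lit 0x689), (nat_lit 2)⟩)
(.lf ⟨(nat_lit 0x66c), (nat_lit 2), (nat_lit 0x9e0b27819), (nat_lit 6)⟩)))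
(.nd (.nd (.nd (.lf ⟨(nat_lit 283), (nat_lit 2), (nat_lit 0x6c4), (nat_lit 2)⟩)
(.lf ⟨(nat_lit 29), (nat_lit 1), (nat_lit 0x120120), (nat_lit 4)⟩))
(.lf ⟨(nat_lit 0x1ea23), (nat_lit 3), (nat_lit 0x288de), (nat_lit 3)⟩))
(.nd (.lf ⟨(nat_lit 0x663), (nat_lit 2), (nat_lit 0x863721719), (nat_lit 6)⟩)
(.lf ⟨(nat_lit 0x984f261), (nat_lit 5), (nat_lit 0x188498583c9), (nat_lit 7)⟩))))
(.nd (.nd (.nd (.nd (.lf ⟨(nat_lit 0xaaa), (nat_lit 2), (nat_lit 0), (nat_lit 0)⟩)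
(.lf ⟨(nat_lit 32), (nat_lit 1), (nat_lit 0x60641819), (nat_lit 6)⟩))
(.lf ⟨(nat_lit 620), (nat_lit 2), (nat_lit 0xb276d89db609), (nat_lit 8)⟩))
(.nd (.lf ⟨(nat_lit 159), (nat_lit 2), (nat_lit 0x7c7607602), (nat_lit 6)⟩)
(.lf ⟨(nat_lit 610), (nat_lit 2), (nat_lit 0x1e40f3a79ac9e689e40f389), (nat_lit 15)⟩)))
(.nd (.nd (.nd (.lf ⟨(nat_lit 667), (nat_lit 2), (nat_lit 0x276ca), (nat_lit 3)⟩)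
(.lf ⟨(nat_lit 0x62c), (nat_lit 2), (nat_lit 0xb18), (nat_lit 2)⟩))
(.lf ⟨(nat_lit 0x821), (nat_lit 2), (nat_lit 0x860), (nat_lit 2)⟩))
(.nd (.lf ⟨(nat_lit 0x189db61b), (nat_lit 5), (nat_lit 0x1b6276d8), (nat_lit 5)⟩)
(.lf ⟨(nat_lit 0x7446c375ba5d6db0dd6e975b7446c375ba5d6db0dd6e975b), (nat_lit 32), (nat_lit 0x7446c375ba5d6db0dd6e975b7446c375ba5d6db0dd6e975b), (nat_lit 32)⟩))))))))
(.nd (.nd (.nd (.nd (.nd (.nd (.nd (.nd (.lf ⟨(nat_lit 260), (nat_lit 2), (nat_lit 0), (nat_lit 0)⟩)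
(.lf ⟨(nat_lit 0x662), (nat_lit 2), (nat_lit 0x899), (nat_lit 2)⟩))
(.lf ⟨(nat_lit 0x62a), (nat_lit 2), (nat_lit 0xa98), (nat_lit 2)⟩))
(.nd (.nd (.lf ⟨(nat_lit 90), (nat_lit 2), (nat_lit 0x681), (nat_lit 2)⟩)
(.lf ⟨(nat_lit 615), (nat_lit 2), (nat_lit 0x9c9), (nat_lit 2)⟩))
(.lf ⟨(nat_lit 0x6e0), (nat_lit 2), (nat_lit 0x81b), (nat_lit 2)⟩)))
(.nd (.nd (.nd (.lf ⟨(nat_lit 0xbae), (nat_lit 2), (nat_lit 0), (nat_lit 0)⟩)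
(.lf ⟨(nat_lit 0x6a7), (nat_lit 2), (nat_lit 0x9e19e19da), (nat_lit 6)⟩))
(.lf ⟨(nat_lit 151), (nat_lit 2), (nat_lit 0x5c2), (nat_lit 2)⟩))
(.nd (.lf ⟨(nat_lit 133), (nat_lit 2), (nat_lit 0x15142), (nat_lit 3)⟩)
(.lf ⟨(nat_lit 66), (nat_lit 2), (nat_lit 0x8103c5081), (nat_lit 6)⟩))))
(.nd (.nd (.nd (.nd (.lf ⟨(nat_lit 81), (nat_lit 2), (nat_lit 0x1c441), (nat_lit 3)⟩)
(.lf ⟨(nat_lit 0x71d), (nat_lit 2), (nat_lit 0x75c), (nat_lit 2)⟩))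
(.lf ⟨(nat_lit 0x6a0), (nat_lit 2), (nat_lit 0x81a), (nat_lit 2)⟩))
(.nd (.lf ⟨(nat_lit 295), (nat_lit 2), (nat_lit 0x6099e2609898267898267884), (nat_lit 16)⟩)
(.lf ⟨(nat_lit 0x65b65b), (nat_lit 4), (nat_lit 0x6d96d9), (nat_lit 4)⟩)))
(.nd (.nd (.nd (.lf ⟨(nat_lit 721), (nat_lit 2), (nat_lit 0x44b), (nat_lit 2)⟩)
(.lf ⟨(nat_lit 35), (nat_lit 1), (nat_lit 0), (nat_lit 0)⟩))
(.lf ⟨(nat_lit 0x1669759a), (nat_lit 5), (nat_lit 0x1769759a5d6), (nat_lit 7)⟩))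
(.nd (.lf ⟨(nat_lit 0x529), (nat_lit 2), (nat_lit 0xa54), (nat_lit 2)⟩)
(.lf ⟨(nat_lit 0x826), (nat_lit 2), (nat_lit 0x9a0), (nat_lit 2)⟩)))))
(.nd (.nd (.nd (.nd (.nd (.lf ⟨(nat_lit 139), (nat_lit 2), (nat_lit 0x112c2), (nat_lit 3)⟩)
(.lf ⟨(nat_lit 0x65d), (nat_lit 2), (nat_lit 0x759), (nat_lit 2)⟩))
(.lf ⟨(nat_lit 288), (nat_lit 2), (nat_lit 0x20649860649844), (nat_lit 9)⟩))
(.nd (.lf ⟨(nat_lit 335), (nat_lit 2), (nat_lit 0x1e3c5), (nat_lit 3)⟩)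
(.lf ⟨(nat_lit 0x7a8), (nat_lit 2), (nat_lit 0xa1e), (nat_lit 2)⟩)))
(.nd (.nd (.nd (.lf ⟨(nat_lit 715), (nat_lit 2), (nat_lit 0), (nat_lit 0)⟩)
(.lf ⟨(nat_lit 620), (nat_lit 2), (nat_lit 0x2c7677dda9f767749), (nat_lit 11)⟩))
(.lf ⟨(nat_lit 734), (nat_lit 2), (nat_lit 0x78b), (nat_lit 2)⟩))
(.nd (.lf ⟨(nat_lit 0x667), (nat_lit 2), (nat_lit 0x9d9), (nat_lit 2)⟩)
(.lf ⟨(nat_lit 0x74b40174b401), (nat_lit 8), (nat_lit 0x40174b40174b), (nat_lit 8)⟩))))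
(.nd (.nd (.nd (.nd (.lf ⟨(nat_lit 93), (nat_lit 2), (nat_lit 0x24741), (nat_lit 3)⟩)
(.lf ⟨(nat_lit 106), (nat_lit 2), (nat_lit 0x257d891db276249df741), (nat_lit 13)⟩))
(.lf ⟨(nat_lit 0x261261), (nat_lit 4), (nat_lit 0x849849), (nat_lit 4)⟩))
(.nd (.lf ⟨(nat_lit 278), (nat_lit 2), (nat_lit 0x584), (nat_lit 2)⟩)
(.lf ⟨(nat_lit 976), (nat_lit 2), (nat_lit 0x1e40f), (nat_lit 3)⟩)))
(.nd (.nd (.nd (.lf ⟨(nat_lit 0x8a7), (nat_lit 2), (nat_lit 0x9e2), (nat_lit 2)⟩)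
(.lf ⟨(nat_lit 0x867), (nat_lit 2), (nat_lit 0x9e1), (nat_lit 2)⟩))
(.lf ⟨(nat_lit 137), (nat_lit 2), (nat_lit 0x7966903ce242), (nat_lit 8)⟩))
(.nd (.lf ⟨(nat_lit 0x6c36c3), (nat_lit 4), (nat_lit 0), (nat_lit 0)⟩)
(.lf ⟨(nat_lit 0x8b65740f14b65740f1422d95d03c52d95d03c5), (nat_lit 26), (nat_lit 0x8b65740f14b65740f1422d95d03c52d95d03c5), (nat_lit 26)⟩))))))
(.nd (.nd (.nd (.nd (.nd (.nd (.lf ⟨(nat_lit 202), (nat_lit 2), (nat_lit 0xc283), (nat_lit 3)⟩)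
(.lf ⟨(nat_lit 719), (nat_lit 2), (nat_lit 0x3dd3e441d3e28676d96d940b), (nat_lit 16)⟩))
(.lf ⟨(nat_lit 0x52e), (nat_lit 2), (nat_lit 0xb94), (nat_lit 2)⟩))
(.nd (.nd (.lf ⟨(nat_lit 160), (nat_lit 2), (nat_lit 0x802), (nat_lit 2)⟩)
(.lf ⟨(nat_lit 0x27758), (nat_lit 3), (nat_lit 0x1278a180f1278a180f), (nat_lit 12)⟩))
(.lf ⟨(nat_lit 987), (nat_lit 2), (nat_lit 0x2c6cf), (nat_lit 3)⟩)))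
(.nd (.nd (.nd (.lf ⟨(nat_lit 131), (nat_lit 2), (nat_lit 0x70c2), (nat_lit 3)⟩)
(.lf ⟨(nat_lit 656), (nat_lit 2), (nat_lit 0x2286740a), (nat_lit 5)⟩))
(.lf ⟨(nat_lit 0x417), (nat_lit 2), (nat_lit 0x697690), (nat_lit 4)⟩))
(.nd (.lf ⟨(nat_lit 617), (nat_lit 2), (nat_lit 0xa49), (nat_lit 2)⟩)
(.lf ⟨(nat_lit 0x82c), (nat_lit 2), (nat_lit 0xb20), (nat_lit 2)⟩))))
(.nd (.nd (.nd (.nd (.lf ⟨(nat_lit 89), (nat_lit 2), (nat_lit 0x20641), (nat_lit 3)⟩)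
(.lf ⟨(nat_lit 593), (nat_lit 2), (nat_lit 0x28923449), (nat_lit 5)⟩))
(.lf ⟨(nat_lit 0x828), (nat_lit 2), (nat_lit 0xa20), (nat_lit 2)⟩))
(.nd (.lf ⟨(nat_lit 10), (nat_lit 1), (nat_lit 0x102102), (nat_lit 4)⟩)
(.lf ⟨(nat_lit 0x5e0), (nat_lit 2), (nat_lit 0x817), (nat_lit 2)⟩)))
(.nd (.nd (.nd (.lf ⟨(nat_lit 0x5de), (nat_lit 2), (nat_lit 0x797), (nat_lit 2)⟩)
(.lf ⟨(nat_lit 620), (nat_lit 2), (nat_lit 0x2c9dfa9f9c9), (nat_lit 7)⟩))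
(.lf ⟨(nat_lit 0x5a0), (nat_lit 2), (nat_lit 0x5e05d6), (nat_lit 4)⟩))
(.nd (.lf ⟨(nat_lit 607), (nat_lit 2), (nat_lit 0x759e6076167a57d81d67981d859e609), (nat_lit 21)⟩)
(.lf ⟨(nat_lit 0x422), (nat_lit 2), (nat_lit 0x89b65b650), (nat_lit 6)⟩)))))
(.nd (.nd (.nd (.nd (.nd (.lf ⟨(nat_lit 271), (nat_lit 2), (nat_lit 0x183c4), (nat_lit 3)⟩)
(.lf ⟨(nat_lit 0x186dd), (nat_lit 3), (nat_lit 0x2775b75b62775b), (nat_lit 9)⟩))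
(.lf ⟨(nat_lit 740), (nat_lit 2), (nat_lit 0x75091d40b), (nat_lit 6)⟩))
(.nd (.lf ⟨(nat_lit 729), (nat_lit 2), (nat_lit 0x65141140b), (nat_lit 6)⟩)
(.lf ⟨(nat_lit 0x6276dd), (nat_lit 4), (nat_lit 0x2975b7ea7e9762b69762a5d8ada5d89b7676d8a5d), (nat_lit 27)⟩)))
(.nd (.nd (.nd (.lf ⟨(nat_lit 218), (nat_lit 2), (nat_lit 0x683), (nat_lit 2)⟩)
(.lf ⟨(nat_lit 0x6e1), (nat_lit 2), (nat_lit 0x85b), (nat_lit 2)⟩))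
(.lf ⟨(nat_lit 918), (nat_lit 2), (nat_lit 0x58e), (nat_lit 2)⟩))
(.nd (.lf ⟨(nat_lit 0x461), (nat_lit 2), (nat_lit 0x76165d651), (nat_lit 6)⟩)
(.lf ⟨(nat_lit 0x620), (nat_lit 2), (nat_lit 0x818), (nat_lit 2)⟩))))
(.nd (.nd (.nd (.nd (.lf ⟨(nat_lit 99), (nat_lit 2), (nat_lit 0x288c1), (nat_lit 3)⟩)
(.lf ⟨(nat_lit 0x819), (nat_lit 2), (nat_lit 0xcf0cf), (nat_lit 4)⟩))
(.lf ⟨(nat_lit 108), (nat_lit 2), (nat_lit 0x1e3e73e778f6cf6c1), (nat_lit 11)⟩))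
(.nd (.lf ⟨(nat_lit 270), (nat_lit 2), (nat_lit 0x1b384), (nat_lit 3)⟩)
(.lf ⟨(nat_lit 22), (nat_lit 1), (nat_lit 0x2079a), (nat_lit 3)⟩)))
(.nd (.nd (.nd (.lf ⟨(nat_lit 343), (nat_lit 2), (nat_lit 0x5c5), (nat_lit 2)⟩)
(.lf ⟨(nat_lit 37), (nat_lit 1), (nat_lit 44), (nat_lit 1)⟩))
(.lf ⟨(nat_lit 0x3db3db), (nat_lit 4), (nat_lit 0x1e9cf9de3ec), (nat_lit 7)⟩))
(.nd (.lf ⟨(nat_lit 0x1091d41d), (nat_lit 5), (nat_lit 0x1d424750), (nat_lit 5)⟩)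
(.lf ⟨(nat_lit 0x6c375ba5d6db0dd6e975b), (nat_lit 14), (nat_lit 0x6c375ba5d6db0dd6e975b), (nat_lit 14)⟩)))))))
(.nd (.nd (.nd (.nd (.nd (.nd (.nd (.lf ⟨(nat_lit 650), (nat_lit 2), (nat_lit 0), (nat_lit 0)⟩)
(.lf ⟨(nat_lit 921), (nat_lit 2), (nat_lit 0x64e), (nat_lit 2)⟩))
(.lf ⟨(nat_lit 0x10a6475b), (nat_lit 5), (nat_lit 0x1b75ba5d6d091d), (nat_lit 9)⟩))
(.nd (.nd (.lf ⟨(nat_lit 731), (nat_lit 2), (nat_lit 0x6cb), (nat_lit 2)⟩)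
(.lf ⟨(nat_lit 610), (nat_lit 2), (nat_lit 0x2c889), (nat_lit 3)⟩))
(.lf ⟨(nat_lit 0x418694), (nat_lit 4), (nat_lit 0x1a95f61a51061a7d8), (nat_lit 11)⟩)))
(.nd (.nd (.nd (.lf ⟨(nat_lit 65), (nat_lit 2), (nat_lit 0), (nat_lit 0)⟩)
(.lf ⟨(nat_lit 207), (nat_lit 2), (nat_lit 0x2286781a3c3), (nat_lit 7)⟩))
(.lf ⟨(nat_lit 12), (nat_lit 1), (nat_lit 7), (nat_lit 1)⟩))
(.nd (.lf ⟨(nat_lit 166), (nat_lit 2), (nat_lit 0x6c738d6ce342), (nat_lit 8)⟩)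
(.lf ⟨(nat_lit 0x823), (nat_lit 2), (nat_lit 0x8e0), (nat_lit 2)⟩))))
(.nd (.nd (.nd (.nd (.lf ⟨(nat_lit 87), (nat_lit 2), (nat_lit 0x1e5c1), (nat_lit 3)⟩)
(.lf ⟨(nat_lit 0x461), (nat_lit 2), (nat_lit 0x761751), (nat_lit 4)⟩))
(.lf ⟨(nat_lit 927), (nat_lit 2), (nat_lit 0x759e60761679a41869095f60759e60761678e), (nat_lit 25)⟩))
(.nd (.lf ⟨(nat_lit 5), (nat_lit 1), (nat_lit 0x43043), (nat_lit 4)⟩)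
(.lf ⟨(nat_lit 0x417), (nat_lit 2), (nat_lit 0x5d0), (nat_lit 2)⟩)))
(.nd (.nd (.nd (.lf ⟨(nat_lit 0x419), (nat_lit 2), (nat_lit 0x650), (nat_lit 2)⟩)
(.lf ⟨(nat_lit 106), (nat_lit 2), (nat_lit 0x257ec7c1), (nat_lit 5)⟩))
(.lf ⟨(nat_lit 613), (nat_lit 2), (nat_lit 0x949), (nat_lit 2)⟩))
(.nd (.lf ⟨(nat_lit 342), (nat_lit 2), (nat_lit 0x1d6785), (nat_lit 4)⟩)
(.lf ⟨(nat_lit 0x418), (nat_lit 2), (nat_lit 0x257d86df6d0), (nat_lit 7)⟩)))))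
(.nd (.nd (.nd (.nd (.nd (.lf ⟨(nat_lit 143), (nat_lit 2), (nat_lit 0x163c2), (nat_lit 3)⟩)
(.lf ⟨(nat_lit 0x1d8ad762), (nat_lit 5), (nat_lit 0x22b5d89d), (nat_lit 5)⟩))
(.lf ⟨(nat_lit 0x560), (nat_lit 2), (nat_lit 0x815), (nat_lit 2)⟩))
(.nd (.lf ⟨(nat_lit 0x2996d0), (nat_lit 4), (nat_lit 0x8626d940a), (nat_lit 6)⟩)
(.lf ⟨(nat_lit 0x59a), (nat_lit 2), (nat_lit 0x81e696), (nat_lit 4)⟩)))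
(.nd (.nd (.nd (.lf ⟨(nat_lit 80), (nat_lit 2), (nat_lit 0x401), (nat_lit 2)⟩)
(.lf ⟨(nat_lit 0x219e2), (nat_lit 3), (nat_lit 0x278a1), (nat_lit 3)⟩))
(.lf ⟨(nat_lit 0x71e), (nat_lit 2), (nat_lit 0x79c), (nat_lit 2)⟩))
(.nd (.lf ⟨(nat_lit 0x1ba5d6dd), (nat_lit 5), (nat_lit 0x1d6e975b), (nat_lit 5)⟩)
(.lf ⟨(nat_lit 993), (nat_lit 2), (nat_lit 0x84f), (nat_lit 2)⟩))))
(.nd (.nd (.nd (.nd (.lf ⟨(nat_lit 98), (nat_lit 2), (nat_lit 0x26881), (nat_lit 3)⟩)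
(.lf ⟨(nat_lit 0x418), (nat_lit 2), (nat_lit 0x2791db1d9db6246d0), (nat_lit 11)⟩))
(.lf ⟨(nat_lit 0), (nat_lit 0), (nat_lit 0x401401), (nat_lit 4)⟩))
(.nd (.lf ⟨(nat_lit 0x720), (nat_lit 2), (nat_lit 0x81c), (nat_lit 2)⟩)
(.lf ⟨(nat_lit 985), (nat_lit 2), (nat_lit 0x81e69765a5cf), (nat_lit 8)⟩)))
(.nd (.nd (.nd (.lf ⟨(nat_lit 0x9ec), (nat_lit 2), (nat_lit 0xb27), (nat_lit 2)⟩)
(.lf ⟨(nat_lit 0x967), (nat_lit 2), (nat_lit 0x27aa5), (nat_lit 3)⟩))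
(.lf ⟨(nat_lit 0xf7676d8), (nat_lit 5), (nat_lit 0x1d9db62975b3dba5d), (nat_lit 11)⟩))
(.nd (.lf ⟨(nat_lit 986), (nat_lit 2), (nat_lit 0x5a01da58f), (nat_lit 6)⟩)
(.lf ⟨(nat_lit 0x1b75b74b), (nat_lit 5), (nat_lit 0x6c37446c3744), (nat_lit 8)⟩))))))
(.nd (.nd (.nd (.nd (.nd (.nd (.lf ⟨(nat_lit 74), (nat_lit 2), (nat_lit 0xf281), (nat_lit 3)⟩)
(.lf ⟨(nat_lit 29), (nat_lit 1), (nat_lit 0x28b28b), (nat_lit 4)⟩))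
(.lf ⟨(nat_lit 749), (nat_lit 2), (nat_lit 0x75189bb697626dd6e975b44b), (nat_lit 16)⟩))
(.nd (.nd (.lf ⟨(nat_lit 673), (nat_lit 2), (nat_lit 0x84a), (nat_lit 2)⟩)
(.lf ⟨(nat_lit 29), (nat_lit 1), (nat_lit 0), (nat_lit 0)⟩))
(.lf ⟨(nat_lit 0x1b7db95f), (nat_lit 5), (nat_lit 0x257db7db), (nat_lit 5)⟩)))
(.nd (.nd (.nd (.lf ⟨(nat_lit 590), (nat_lit 2), (nat_lit 905), (nat_lit 2)⟩)
(.lf ⟨(nat_lit 0x61b), (nat_lit 2), (nat_lit 0x1d9df76a7dd9df76a7db7ea7d8), (nat_lit 17)⟩))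
(.lf ⟨(nat_lit 12), (nat_lit 1), (nat_lit 30), (nat_lit 1)⟩))
(.nd (.lf ⟨(nat_lit 0xf9db), (nat_lit 3), (nat_lit 0xb276cf), (nat_lit 4)⟩)
(.lf ⟨(nat_lit 985), (nat_lit 2), (nat_lit 0x69765a5cf), (nat_lit 6)⟩))))
(.nd (.nd (.nd (.nd (.lf ⟨(nat_lit 155), (nat_lit 2), (nat_lit 0x226c2), (nat_lit 3)⟩)
(.lf ⟨(nat_lit 0x627), (nat_lit 2), (nat_lit 0x75b7ea7dd6df76a7dd9d8), (nat_lit 14)⟩))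
(.lf ⟨(nat_lit 976), (nat_lit 2), (nat_lit 0x1680769679a40f), (nat_lit 9)⟩))
(.nd (.lf ⟨(nat_lit 101), (nat_lit 2), (nat_lit 0x941), (nat_lit 2)⟩)
(.lf ⟨(nat_lit 930), (nat_lit 2), (nat_lit 0x6d75a26d758e), (nat_lit 8)⟩)))
(.nd (.nd (.nd (.lf ⟨(nat_lit 0x6e2), (nat_lit 2), (nat_lit 0x89b), (nat_lit 2)⟩)
(.lf ⟨(nat_lit 743), (nat_lit 2), (nat_lit 0x9cb), (nat_lit 2)⟩))
(.lf ⟨(nat_lit 934), (nat_lit 2), (nat_lit 0x6d75a689b79759b7975a26d758e), (nat_lit 18)⟩))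
(.nd (.lf ⟨(nat_lit 0x61e), (nat_lit 2), (nat_lit 0x798), (nat_lit 2)⟩)
(.lf ⟨(nat_lit 108), (nat_lit 2), (nat_lit 0xb01), (nat_lit 2)⟩)))))
(.nd (.nd (.nd (.nd (.nd (.lf ⟨(nat_lit 208), (nat_lit 2), (nat_lit 0x1a403), (nat_lit 3)⟩)
(.lf ⟨(nat_lit 106), (nat_lit 2), (nat_lit 0x257d86e476c9db62475b7676df61d601), (nat_lit 21)⟩))
(.lf ⟨(nat_lit 279), (nat_lit 2), (nat_lit 0x1f7676d8a5d6cb5dd9db62975b3cb3c4), (nat_lit 21)⟩))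
(.nd (.lf ⟨(nat_lit 990), (nat_lit 2), (nat_lit 0x78f), (nat_lit 2)⟩)
(.lf ⟨(nat_lit 0x186dd), (nat_lit 3), (nat_lit 0x278ada5d8a9762b697626dd6d89e975b), (nat_lit 21)⟩)))
(.nd (.nd (.nd (.lf ⟨(nat_lit 916), (nat_lit 2), (nat_lit 0x50e), (nat_lit 2)⟩)
(.lf ⟨(nat_lit 139), (nat_lit 2), (nat_lit 0x1d7602c2), (nat_lit 5)⟩))
(.lf ⟨(nat_lit 0x7a2), (nat_lit 2), (nat_lit 0x89e), (nat_lit 2)⟩))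
(.nd (.lf ⟨(nat_lit 485), (nat_lit 2), (nat_lit 0x947), (nat_lit 2)⟩)
(.lf ⟨(nat_lit 202), (nat_lit 2), (nat_lit 0x20283), (nat_lit 3)⟩))))
(.nd (.nd (.nd (.nd (.lf ⟨(nat_lit 0xb2c), (nat_lit 2), (nat_lit 0), (nat_lit 0)⟩)
(.lf ⟨(nat_lit 25), (nat_lit 1), (nat_lit 0x8a19da), (nat_lit 4)⟩))
(.lf ⟨(nat_lit 0x5c7), (nat_lit 2), (nat_lit 471), (nat_lit 2)⟩))
(.nd (.lf ⟨(nat_lit 903), (nat_lit 2), (nat_lit 462), (nat_lit 2)⟩)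
(.lf ⟨(nat_lit 999), (nat_lit 2), (nat_lit 0x9cf), (nat_lit 2)⟩)))
(.nd (.nd (.nd (.lf ⟨(nat_lit 733), (nat_lit 2), (nat_lit 0x74b), (nat_lit 2)⟩)
(.lf ⟨(nat_lit 0x6a1), (nat_lit 2), (nat_lit 0x85a), (nat_lit 2)⟩))
(.lf ⟨(nat_lit 0x75f), (nat_lit 2), (nat_lit 0x7dd), (nat_lit 2)⟩))
(.nd (.lf ⟨(nat_lit 0xf6da), (nat_lit 3), (nat_lit 0x168076963db), (nat_lit 7)⟩)
(.lf ⟨(nat_lit 0x6dd6dd2db75b74b), (nat_lit 10), (nat_lit 0), (nat_lit 0)⟩))))))))))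

/-- Context. -/
noncomputable def x30 : ℕ → ℕ × ℕ :=
  mkc d22 815 s22 x22 (nth [] (Cl.alts H3.cl) 2)

set_option maxRecDepth 100000 in
/-- Facts. -/
noncomputable def d31 : Tr :=
(.nd (.nd (.nd (.nd (.nd (.nd (.nd (.lf ⟨(nat_lit 65), (nat_lit 2), (nat_lit 0), (nat_lit 0)⟩)
(.lf ⟨(nat_lit 0x687), (nat_lit 2), (nat_lit 474), (nat_lit 2)⟩))
(.nd (.lf ⟨(nat_lit 292), (nat_lit 2), (nat_lit 0x29904), (nat_lit 3)⟩)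
(.lf ⟨(nat_lit 0x105d5417), (nat_lit 5), (nat_lit 0x175505da55a550), (nat_lit 9)⟩)))
(.nd (.nd (.lf ⟨(nat_lit 139), (nat_lit 2), (nat_lit 0x112c2), (nat_lit 3)⟩)
(.lf ⟨(nat_lit 966), (nat_lit 2), (nat_lit 399), (nat_lit 2)⟩))
(.lf ⟨(nat_lit 335), (nat_lit 2), (nat_lit 0x1e3c5), (nat_lit 3)⟩)))
(.nd (.nd (.nd (.lf ⟨(nat_lit 132), (nat_lit 2), (nat_lit 0xa102), (nat_lit 3)⟩)
(.lf ⟨(nat_lit 0x41e), (nat_lit 2), (nat_lit 0x790), (nat_lit 2)⟩))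
(.nd (.lf ⟨(nat_lit 0x929), (nat_lit 2), (nat_lit 0xa64), (nat_lit 2)⟩)
(.lf ⟨(nat_lit 29), (nat_lit 1), (nat_lit 36), (nat_lit 1)⟩)))
(.nd (.nd (.lf ⟨(nat_lit 0x6db), (nat_lit 2), (nat_lit 0), (nat_lit 0)⟩)
(.lf ⟨(nat_lit 22), (nat_lit 1), (nat_lit 23), (nat_lit 1)⟩))
(.lf ⟨(nat_lit 6), (nat_lit 1), (nat_lit 21), (nat_lit 1)⟩))))
(.nd (.nd (.nd (.nd (.lf ⟨(nat_lit 325), (nat_lit 2), (nat_lit 0), (nat_lit 0)⟩)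
(.lf ⟨(nat_lit 919), (nat_lit 2), (nat_lit 0x5ce), (nat_lit 2)⟩))
(.nd (.lf ⟨(nat_lit 215), (nat_lit 2), (nat_lit 0x5c3), (nat_lit 2)⟩)
(.lf ⟨(nat_lit 137), (nat_lit 2), (nat_lit 0x176903ce242), (nat_lit 7)⟩)))
(.nd (.nd (.lf ⟨(nat_lit 0x5d7), (nat_lit 2), (nat_lit 0), (nat_lit 0)⟩)
(.lf ⟨(nat_lit 12), (nat_lit 1), (nat_lit 0x75c6), (nat_lit 3)⟩))
(.lf ⟨(nat_lit 0x747), (nat_lit 2), (nat_lit 477), (nat_lit 2)⟩)))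
(.nd (.nd (.nd (.lf ⟨(nat_lit 910), (nat_lit 2), (nat_lit 0), (nat_lit 0)⟩)
(.lf ⟨(nat_lit 981), (nat_lit 2), (nat_lit 0x58769055679a40f), (nat_lit 10)⟩))
(.nd (.lf ⟨(nat_lit 797), (nat_lit 2), (nat_lit 0x74c), (nat_lit 2)⟩)
(.lf ⟨(nat_lit 131), (nat_lit 2), (nat_lit 194), (nat_lit 2)⟩)))
(.nd (.nd (.lf ⟨(nat_lit 0x79e), (nat_lit 2), (nat_lit 0), (nat_lit 0)⟩)
(.lf ⟨(nat_lit 202), (nat_lit 2), (nat_lit 0x75d5283), (nat_lit 5)⟩))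
(.lf ⟨(nat_lit 0x55e), (nat_lit 2), (nat_lit 0x795), (nat_lit 2)⟩)))))
(.nd (.nd (.nd (.nd (.nd (.lf ⟨(nat_lit 195), (nat_lit 2), (nat_lit 0), (nat_lit 0)⟩)
(.lf ⟨(nat_lit 478), (nat_lit 2), (nat_lit 0x787), (nat_lit 2)⟩))
(.nd (.lf ⟨(nat_lit 138), (nat_lit 2), (nat_lit 642), (nat_lit 2)⟩)
(.lf ⟨(nat_lit 0x417), (nat_lit 2), (nat_lit 0x5da55a550), (nat_lit 6)⟩)))
(.nd (.nd (.lf ⟨(nat_lit 142), (nat_lit 2), (nat_lit 0x15382), (nat_lit 3)⟩)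
(.lf ⟨(nat_lit 335), (nat_lit 2), (nat_lit 965), (nat_lit 2)⟩))
(.lf ⟨(nat_lit 602), (nat_lit 2), (nat_lit 0x689), (nat_lit 2)⟩)))
(.nd (.nd (.nd (.lf ⟨(nat_lit 196), (nat_lit 2), (nat_lit 0xb103), (nat_lit 3)⟩)
(.lf ⟨(nat_lit 967), (nat_lit 2), (nat_lit 0x7967961cf), (nat_lit 6)⟩))
(.nd (.lf ⟨(nat_lit 346), (nat_lit 2), (nat_lit 0x685), (nat_lit 2)⟩)
(.lf ⟨(nat_lit 41), (nat_lit 1), (nat_lit 0), (nat_lit 0)⟩)))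
(.nd (.nd (.lf ⟨(nat_lit 273), (nat_lit 2), (nat_lit 0x1d444), (nat_lit 3)⟩)
(.lf ⟨(nat_lit 18), (nat_lit 1), (nat_lit 7), (nat_lit 1)⟩))
(.lf ⟨(nat_lit 911), (nat_lit 2), (nat_lit 0x1e3ce), (nat_lit 3)⟩))))
(.nd (.nd (.nd (.nd (.lf ⟨(nat_lit 68), (nat_lit 2), (nat_lit 0x9101), (nat_lit 3)⟩)
(.lf ⟨(nat_lit 228), (nat_lit 2), (nat_lit 0x74591d143), (nat_lit 6)⟩))
(.nd (.lf ⟨(nat_lit 285), (nat_lit 2), (nat_lit 0x744), (nat_lit 2)⟩)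
(.lf ⟨(nat_lit 21), (nat_lit 1), (nat_lit 0x697), (nat_lit 2)⟩)))
(.nd (.nd (.lf ⟨(nat_lit 0x69a), (nat_lit 2), (nat_lit 0), (nat_lit 0)⟩)
(.lf ⟨(nat_lit 0x587), (nat_lit 2), (nat_lit 470), (nat_lit 2)⟩))
(.lf ⟨(nat_lit 922), (nat_lit 2), (nat_lit 0x68e), (nat_lit 2)⟩)))
(.nd (.nd (.nd (.lf ⟨(nat_lit 975), (nat_lit 2), (nat_lit 0), (nat_lit 0)⟩)
(.lf ⟨(nat_lit 407), (nat_lit 2), (nat_lit 0x5c6), (nat_lit 2)⟩))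
(.nd (.lf ⟨(nat_lit 730), (nat_lit 2), (nat_lit 0x68b), (nat_lit 2)⟩)
(.lf ⟨(nat_lit 202), (nat_lit 2), (nat_lit 0x1a283), (nat_lit 3)⟩)))
(.nd (.nd (.lf ⟨(nat_lit 93), (nat_lit 2), (nat_lit 0x24741), (nat_lit 3)⟩)
(.lf ⟨(nat_lit 911), (nat_lit 2), (nat_lit 974), (nat_lit 2)⟩))
(.lf ⟨(nat_lit 0x310310), (nat_lit 4), (nat_lit 0x40c40c), (nat_lit 4)⟩))))))
(.nd (.nd (.nd (.nd (.nd (.nd (.lf ⟨(nat_lit 130), (nat_lit 2), (nat_lit 0), (nat_lit 0)⟩)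
(.lf ⟨(nat_lit 0x55a55a), (nat_lit 4), (nat_lit 0x695695), (nat_lit 4)⟩))
(.nd (.lf ⟨(nat_lit 131), (nat_lit 2), (nat_lit 0x70c2), (nat_lit 3)⟩)
(.lf ⟨(nat_lit 0x5dd), (nat_lit 2), (nat_lit 0x757), (nat_lit 2)⟩)))
(.nd (.nd (.lf ⟨(nat_lit 0x555), (nat_lit 2), (nat_lit 0), (nat_lit 0)⟩)
(.lf ⟨(nat_lit 22), (nat_lit 1), (nat_lit 23), (nat_lit 1)⟩))
(.lf ⟨(nat_lit 0x547), (nat_lit 2), (nat_lit 469), (nat_lit 2)⟩)))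
(.nd (.nd (.nd (.lf ⟨(nat_lit 715), (nat_lit 2), (nat_lit 0), (nat_lit 0)⟩)
(.lf ⟨(nat_lit 0x16787), (nat_lit 3), (nat_lit 0x1e1d6), (nat_lit 3)⟩))
(.nd (.lf ⟨(nat_lit 651), (nat_lit 2), (nat_lit 0x1d2ca), (nat_lit 3)⟩)
(.lf ⟨(nat_lit 36), (nat_lit 1), (nat_lit 41), (nat_lit 1)⟩)))
(.nd (.nd (.lf ⟨(nat_lit 0x75d), (nat_lit 2), (nat_lit 0), (nat_lit 0)⟩)
(.lf ⟨(nat_lit 30), (nat_lit 1), (nat_lit 0), (nat_lit 0)⟩))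
(.lf ⟨(nat_lit 617), (nat_lit 2), (nat_lit 0xa49), (nat_lit 2)⟩))))
(.nd (.nd (.nd (.nd (.lf ⟨(nat_lit 585), (nat_lit 2), (nat_lit 0), (nat_lit 0)⟩)
(.lf ⟨(nat_lit 740), (nat_lit 2), (nat_lit 0x75091d40b), (nat_lit 6)⟩))
(.nd (.lf ⟨(nat_lit 218), (nat_lit 2), (nat_lit 0x683), (nat_lit 2)⟩)
(.lf ⟨(nat_lit 17), (nat_lit 1), (nat_lit 0x1d5d5), (nat_lit 3)⟩)))
(.nd (.nd (.lf ⟨(nat_lit 207), (nat_lit 2), (nat_lit 0x173c3), (nat_lit 3)⟩)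
(.lf ⟨(nat_lit 0x557), (nat_lit 2), (nat_lit 0x5d5), (nat_lit 2)⟩))
(.lf ⟨(nat_lit 912), (nat_lit 2), (nat_lit 0x40e), (nat_lit 2)⟩)))
(.nd (.nd (.nd (.lf ⟨(nat_lit 201), (nat_lit 2), (nat_lit 0xe243), (nat_lit 3)⟩)
(.lf ⟨(nat_lit 137), (nat_lit 2), (nat_lit 0x59e6903ce242), (nat_lit 8)⟩))
(.nd (.lf ⟨(nat_lit 90), (nat_lit 2), (nat_lit 0x681), (nat_lit 2)⟩)
(.lf ⟨(nat_lit 651), (nat_lit 2), (nat_lit 714), (nat_lit 2)⟩)))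
(.nd (.nd (.lf ⟨(nat_lit 0x924), (nat_lit 2), (nat_lit 0), (nat_lit 0)⟩)
(.lf ⟨(nat_lit 0x55d), (nat_lit 2), (nat_lit 0x5dd5d5), (nat_lit 4)⟩))
(.lf ⟨(nat_lit 745), (nat_lit 2), (nat_lit 0x75ba5d6cb), (nat_lit 6)⟩)))))
(.nd (.nd (.nd (.nd (.nd (.lf ⟨(nat_lit 260), (nat_lit 2), (nat_lit 0), (nat_lit 0)⟩)
(.lf ⟨(nat_lit 0xb792), (nat_lit 3), (nat_lit 0x1048c40c2de), (nat_lit 7)⟩))
(.nd (.lf ⟨(nat_lit 203), (nat_lit 2), (nat_lit 707), (nat_lit 2)⟩)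
(.lf ⟨(nat_lit 0x55a), (nat_lit 2), (nat_lit 0x697697695), (nat_lit 6)⟩)))
(.nd (.nd (.lf ⟨(nat_lit 0x596), (nat_lit 2), (nat_lit 0), (nat_lit 0)⟩)
(.lf ⟨(nat_lit 18), (nat_lit 1), (nat_lit 7), (nat_lit 1)⟩))
(.lf ⟨(nat_lit 612), (nat_lit 2), (nat_lit 0x909), (nat_lit 2)⟩)))
(.nd (.nd (.nd (.lf ⟨(nat_lit 202), (nat_lit 2), (nat_lit 0xc283), (nat_lit 3)⟩)
(.lf ⟨(nat_lit 0x416), (nat_lit 2), (nat_lit 0x1da59e690), (nat_lit 6)⟩))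
(.nd (.lf ⟨(nat_lit 605), (nat_lit 2), (nat_lit 0x29749), (nat_lit 3)⟩)
(.lf ⟨(nat_lit 139), (nat_lit 2), (nat_lit 0x1a2c2), (nat_lit 3)⟩)))
(.nd (.nd (.lf ⟨(nat_lit 455), (nat_lit 2), (nat_lit 0), (nat_lit 0)⟩)
(.lf ⟨(nat_lit 12), (nat_lit 1), (nat_lit 0x75d5), (nat_lit 3)⟩))
(.lf ⟨(nat_lit 918), (nat_lit 2), (nat_lit 0x1d678e), (nat_lit 4)⟩))))
(.nd (.nd (.nd (.nd (.lf ⟨(nat_lit 650), (nat_lit 2), (nat_lit 0), (nat_lit 0)⟩)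
(.lf ⟨(nat_lit 0x69e), (nat_lit 2), (nat_lit 0x79a), (nat_lit 2)⟩))
(.nd (.lf ⟨(nat_lit 0x41a), (nat_lit 2), (nat_lit 0x690), (nat_lit 2)⟩)
(.lf ⟨(nat_lit 0x5da), (nat_lit 2), (nat_lit 0x697), (nat_lit 2)⟩)))
(.nd (.nd (.lf ⟨(nat_lit 208), (nat_lit 2), (nat_lit 0x1a403), (nat_lit 3)⟩)
(.lf ⟨(nat_lit 0x415), (nat_lit 2), (nat_lit 0x79a59559e690), (nat_lit 8)⟩))
(.lf ⟨(nat_lit 282), (nat_lit 2), (nat_lit 0x684), (nat_lit 2)⟩)))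
(.nd (.nd (.nd (.lf ⟨(nat_lit 0x410), (nat_lit 2), (nat_lit 0), (nat_lit 0)⟩)
(.lf ⟨(nat_lit 967), (nat_lit 2), (nat_lit 463), (nat_lit 2)⟩))
(.nd (.lf ⟨(nat_lit 206), (nat_lit 2), (nat_lit 899), (nat_lit 2)⟩)
(.lf ⟨(nat_lit 0x4083083), (nat_lit 5), (nat_lit 0x20c20c4), (nat_lit 5)⟩)))
(.nd (.nd (.lf ⟨(nat_lit 0xa69), (nat_lit 2), (nat_lit 0), (nat_lit 0)⟩)
(.lf ⟨(nat_lit 7), (nat_lit 1), (nat_lit 0), (nat_lit 0)⟩))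
(.lf ⟨(nat_lit 0x59d), (nat_lit 2), (nat_lit 0x756), (nat_lit 2)⟩)))))))

/-- Context. -/
noncomputable def x31 : ℕ → ℕ × ℕ :=
  mkc d22 815 s22 x22 (nth [] (Cl.alts H3.cl) 3)

set_option maxRecDepth 100000 in
/-- Facts. -/
noncomputable def d32 : Tr :=
(.nd (.nd (.nd (.nd (.nd (.nd (.lf ⟨(nat_lit 130), (nat_lit 2), (nat_lit 0), (nat_lit 0)⟩)
(.lf ⟨(nat_lit 131), (nat_lit 2), (nat_lit 194), (nat_lit 2)⟩))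
(.lf ⟨(nat_lit 651), (nat_lit 2), (nat_lit 0x1d2ca), (nat_lit 3)⟩))
(.nd (.lf ⟨(nat_lit 202), (nat_lit 2), (nat_lit 0xc283), (nat_lit 3)⟩)
(.lf ⟨(nat_lit 22), (nat_lit 1), (nat_lit 23), (nat_lit 1)⟩)))
(.nd (.nd (.lf ⟨(nat_lit 650), (nat_lit 2), (nat_lit 0), (nat_lit 0)⟩)
(.lf ⟨(nat_lit 919), (nat_lit 2), (nat_lit 0x5ce), (nat_lit 2)⟩))
(.nd (.lf ⟨(nat_lit 0x5d7), (nat_lit 2), (nat_lit 0), (nat_lit 0)⟩)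
(.lf ⟨(nat_lit 29), (nat_lit 1), (nat_lit 0), (nat_lit 0)⟩))))
(.nd (.nd (.nd (.nd (.lf ⟨(nat_lit 260), (nat_lit 2), (nat_lit 0), (nat_lit 0)⟩)
(.lf ⟨(nat_lit 0x4083083), (nat_lit 5), (nat_lit 0x20c20c4), (nat_lit 5)⟩))
(.lf ⟨(nat_lit 335), (nat_lit 2), (nat_lit 0x1e3c5), (nat_lit 3)⟩))
(.nd (.lf ⟨(nat_lit 975), (nat_lit 2), (nat_lit 0), (nat_lit 0)⟩)
(.lf ⟨(nat_lit 12), (nat_lit 1), (nat_lit 0), (nat_lit 0)⟩)))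
(.nd (.nd (.lf ⟨(nat_lit 715), (nat_lit 2), (nat_lit 0), (nat_lit 0)⟩)
(.lf ⟨(nat_lit 335), (nat_lit 2), (nat_lit 965), (nat_lit 2)⟩))
(.nd (.lf ⟨(nat_lit 138), (nat_lit 2), (nat_lit 642), (nat_lit 2)⟩)
(.lf ⟨(nat_lit 17), (nat_lit 1), (nat_lit 0), (nat_lit 0)⟩)))))
(.nd (.nd (.nd (.nd (.nd (.lf ⟨(nat_lit 195), (nat_lit 2), (nat_lit 0), (nat_lit 0)⟩)
(.lf ⟨(nat_lit 651), (nat_lit 2), (nat_lit 714), (nat_lit 2)⟩))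
(.lf ⟨(nat_lit 268), (nat_lit 2), (nat_lit 0x1d304), (nat_lit 3)⟩))
(.nd (.lf ⟨(nat_lit 910), (nat_lit 2), (nat_lit 0), (nat_lit 0)⟩)
(.lf ⟨(nat_lit 30), (nat_lit 1), (nat_lit 0), (nat_lit 0)⟩)))
(.nd (.nd (.lf ⟨(nat_lit 132), (nat_lit 2), (nat_lit 0xa102), (nat_lit 3)⟩)
(.lf ⟨(nat_lit 22), (nat_lit 1), (nat_lit 23), (nat_lit 1)⟩))
(.nd (.lf ⟨(nat_lit 131), (nat_lit 2), (nat_lit 0x70c2), (nat_lit 3)⟩)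
(.lf ⟨(nat_lit 7), (nat_lit 1), (nat_lit 0), (nat_lit 0)⟩))))
(.nd (.nd (.nd (.lf ⟨(nat_lit 325), (nat_lit 2), (nat_lit 0), (nat_lit 0)⟩)
(.lf ⟨(nat_lit 918), (nat_lit 2), (nat_lit 0x1d678e), (nat_lit 4)⟩))
(.nd (.lf ⟨(nat_lit 139), (nat_lit 2), (nat_lit 0x112c2), (nat_lit 3)⟩)
(.lf ⟨(nat_lit 202), (nat_lit 2), (nat_lit 643), (nat_lit 2)⟩)))
(.nd (.nd (.lf ⟨(nat_lit 196), (nat_lit 2), (nat_lit 0xb103), (nat_lit 3)⟩)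
(.lf ⟨(nat_lit 12), (nat_lit 1), (nat_lit 0), (nat_lit 0)⟩))
(.nd (.lf ⟨(nat_lit 203), (nat_lit 2), (nat_lit 707), (nat_lit 2)⟩)
(.lf ⟨(nat_lit 139), (nat_lit 2), (nat_lit 706), (nat_lit 2)⟩))))))

/-- Context. -/
noncomputable def x32 : ℕ → ℕ × ℕ :=
  mkc d22 815 s22 x22 (nth [] (Cl.alts H3.cl) 4)

end Pool.Agent.Lib.MP_3b0e0c_al.D.SD
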