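import Pool.Agent.Lib.MP_3b0e0c_al.D.TTD

namespace Pool.Agent.Lib.MP_3b0e0c_al.D.TT

open S

set_option maxRecDepth 100000 in
/-- Justifications. -/
noncomputable def J0_0 : List Js := [
.h (nat_lit 0),
.h (nat_lit 1),
.h (nat_lit 2),
.h (nat_lit 3),
.h (nat_lit 4),
.h (nat_lit 5),
.h (nat_lit 6),
.h (nat_lit 7),
.h (nat_lit 8),
.h (nat_lit 9),
.h (nat_lit 10),
.i (nat_lit 0) (nat_lit 0) [((nat_lit 2), (nat_lit 1)), ((nat_lit 1), (nat_lit 1))] (nat_lit 1),
.c (nat_lit 7) (nat_lit 0x80400004002030000200580000c02006),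
.c (nat_lit 3) (nat_lit 0x1001c0400600001),
.i (nat_lit 0) (nat_lit 0) [((nat_lit 3), (nat_lit 1)), ((nat_lit 1), (nat_lit 1))] (nat_lit 2),
.c (nat_lit 7) (nat_lit 0x100400004004030000200700001002008),
.c (nat_lit 3) (nat_lit 0x100240400a00001),
.i (nat_lit 0) (nat_lit 0) [((nat_lit 3), (nat_lit 1)), ((nat_lit 2), (nat_lit 1))] (nat_lit 0x1002),
.c (nat_lit 7) (nat_lit 0x10040040400403001020088000140200a),
.c (nat_lit 3) (nat_lit 0x1002c0400a00003),
.i (nat_lit 0) (nat_lit 0) [((nat_lit 5), (nat_lit 1)), ((nat_lit 2), (nat_lit 1))] (nat_lit 0x100f),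
.c (nat_lit 7) (nat_lit 0x78040040401e030010200a0000180200c),
.c (nat_lit 3) (nat_lit 0x100340403e00003),
.i (nat_lit 0) (nat_lit 0) [((nat_lit 6), (nat_lit 1)), ((nat_lit 1), (nat_lit 1))] (nat_lit 18),
.c (nat_lit 7) (nat_lit 0x900400004024030000200b80001c0200e),
.c (nat_lit 3) (nat_lit 0x1003c0404a00001),
.i (nat_lit 0) (nat_lit 0) [((nat_lit 7), (nat_lit 1)), ((nat_lit 1), (nat_lit 1))] (nat_lit 21),
.c (nat_lit 7) (nat_lit 0xa8040000402a030000200d00002002010),
.c (nat_lit 3) (nat_lit 0x100440405600001),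
.i (nat_lit 0) (nat_lit 0) [((nat_lit 8), (nat_lit 1)), ((nat_lit 2), (nat_lit 1))] (nat_lit 0x1018),
.c (nat_lit 7) (nat_lit 0xc00400404030030010200e80002402012),
.c (nat_lit 3) (nat_lit 0x1004c0406200003),
.i (nat_lit 0) (nat_lit 0) [((nat_lit 8), (nat_lit 1)), ((nat_lit 3), (nat_lit 1))] (nat_lit 0x2018),
.c (nat_lit 7) (nat_lit 0xc00400804030030020201000002802014),
.c (nat_lit 3) (nat_lit 0x100540406200005),
.c (nat_lit 1) (nat_lit 0),
.c (nat_lit 1) (nat_lit 2),
.c (nat_lit 1) (nat_lit 4),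
.c (nat_lit 2) (nat_lit 0x360601b),
.c (nat_lit 2) (nat_lit 0x4206021),
.c (nat_lit 2) (nat_lit 0x4e06027),
.c (nat_lit 0) (nat_lit 0),
.c (nat_lit 0) (nat_lit 0),
.c (nat_lit 0) (nat_lit 0),
.c (nat_lit 0) (nat_lit 0),
.c (nat_lit 0) (nat_lit 0),
.i (nat_lit 1) (nat_lit 4) [((nat_lit 1), (nat_lit 1)), ((nat_lit 2), (nat_lit 1)), ((nat_lit 3), (nat_lit 1)), ((nat_lit 0x102044081), (nat_lit 6)), ((nat_lit 0x1430450c1), (nat_lit 6)), ((nat_lit 0x1830860c2), (nat_lit 6)), ((nat_lit 0x850c11430421430450c1), (nat_lit 14)), ((nat_lit 0x460c21830811830860c2), (nat_lit 14)), ((nat_lit 0x421430450c10850c11430410850c11430421430450c1), (nat_lit 30)), ((nat_lit 0x811830860c20460c21830820460c21830811830860c2), (nat_lit 30)), ((nat_lit 0xc11830860c20460c21830830460c21830811830860c2), (nat_lit 30))] (nat_lit 0x2d02c02b02a029028027026025024023),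
.c (nat_lit 12) (nat_lit 0x10000100080c0300201a0102e81006c040020e019060018280041003200003),
.i (nat_lit 1) (nat_lit 6) [((nat_lit 1), (nat_lit 1)), ((nat_lit 2), (nat_lit 1)), ((nat_lit 3), (nat_lit 1)), ((nat_lit 0x102044081), (nat_lit 6)), ((nat_lit 0x1430450c1), (nat_lit 6)), ((nat_lit 0x1830860c2), (nat_lit 6)), ((nat_lit 0x850c11430421430450c1), (nat_lit 14)), ((nat_lit 0x460c21830811830860c2), (nat_lit 14)), ((nat_lit 0x421430450c10850c11430410850c11430421430450c1), (nat_lit 30)), ((nat_lit 0x811830860c20460c21830820460c21830811830860c2), (nat_lit 30)), ((nat_lit 0xc11830860c20460c21830830460c21830811830860c2), (nat_lit 30))] (nat_lit 0x2d02c02b02a029028027026025024023),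
.c (nat_lit 12) (nat_lit 0x10000100100c03c0202001030810084040020e01f060028280041003e00005),
.i (nat_lit 1) (nat_lit 8) [((nat_lit 1), (nat_lit 1)), ((nat_lit 2), (nat_lit 1)), ((nat_lit 3), (nat_lit 1)), ((nat_lit 0x102044081), (nat_lit 6)), ((nat_lit 0x1430450c1), (nat_lit 6)), ((nat_lit 0x1830860c2), (nat_lit 6)), ((nat_lit 0x850c11430421430450c1), (nat_lit 14)), ((nat_lit 0x460c21830811830860c2), (nat_lit 14)), ((nat_lit 0x421430450c10850c11430410850c11430421430450c1), (nat_lit 30)), ((nat_lit 0x811830860c20460c21830820460c21830811830860c2), (nat_lit 30)), ((nat_lit 0xc11830860c20460c21830830460c21830811830860c2), (nat_lit 30))] (nat_lit 0x2d02c02b02a029028027026025024023),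
.c (nat_lit 12) (nat_lit 0x10010100100c048020260103281009c040060e0250600282800c1004a00005),
.i (nat_lit 0) (nat_lit 0) [((nat_lit 1), (nat_lit 1)), ((nat_lit 2), (nat_lit 1))] (nat_lit 0x24023),
.c (nat_lit 9) (nat_lit 0x20020202f00800008034020690100d81817c0800600001),
.i (nat_lit 0) (nat_lit 0) [((nat_lit 1), (nat_lit 1)), ((nat_lit 3), (nat_lit 1))] (nat_lit 0x25023),
.c (nat_lit 9) (nat_lit 0x200402031008000080400206d0101081818c0800a00001),
.i (nat_lit 0) (nat_lit 0) [((nat_lit 2), (nat_lit 1)), ((nat_lit 3), (nat_lit 1))] (nat_lit 0x25024),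
.c (nat_lit 9) (nat_lit 0x2004020330080080804c020710101381819c0800a00003),
.c (nat_lit 1) (nat_lit 36),
.i (nat_lit 0) (nat_lit 0) [((nat_lit 1), (nat_lit 1)), ((nat_lit 6), (nat_lit 1))] (nat_lit 0x3a023),
.c (nat_lit 10) (nat_lit 0x6404000030190101dc080660a033070188300940400200025),
.c (nat_lit 1) (nat_lit 30),
.i (nat_lit 0) (nat_lit 0) [((nat_lit 2), (nat_lit 1)), ((nat_lit 5), (nat_lit 1))] (nat_lit 0x3d024),
.c (nat_lit 10) (nat_lit 0x5804002030160101f40805a0a02d0701583007c040060001f),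
.c (nat_lit 1) (nat_lit 24),
.i (nat_lit 0) (nat_lit 0) [((nat_lit 3), (nat_lit 1)), ((nat_lit 4), (nat_lit 1))] (nat_lit 0x40025),
.c (nat_lit 1) (nat_lit 131),
.c (nat_lit 1) (nat_lit 42),
.i (nat_lit 0) (nat_lit 0) [((nat_lit 1), (nat_lit 1)), ((nat_lit 7), (nat_lit 1))] (nat_lit 0x43023),
.c (nat_lit 10) (nat_lit 0x70040000301c010224080720a0390701b8300ac040020002b),
.c (nat_lit 1) (nat_lit 48),
.i (nat_lit 0) (nat_lit 0) [((nat_lit 1), (nat_lit 1)), ((nat_lit 8), (nat_lit 1))] (nat_lit 0x46023),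
.c (nat_lit 35) (nat_lit 0x8090080600602404018028090180600e024080180480900404804030030120200c0140480c030070120400c02404802000020190181e0100640a078060190381e020064120780103c008238080f202001080188380941806200025),
.c (nat_lit 3) (nat_lit 0x900000402072),
.i (nat_lit 0) (nat_lit 0) [((nat_lit 1), (nat_lit 1)), ((nat_lit 386), (nat_lit 2))] (nat_lit 0x49023),
.c (nat_lit 31) (nat_lit 0x200c0041200402403018008090081200007801019018060080d4080020502f0301c81c07c080000500d0300c81012a0a0330400d8400fc1c0e60c05f050018480cc2c06214025030008100640404a00031),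
.c (nat_lit 3) (nat_lit 0x900000802066),
.i (nat_lit 0) (nat_lit 0) [((nat_lit 1), (nat_lit 1)), ((nat_lit 387), (nat_lit 2))] (nat_lit 0x4c023),
.c (nat_lit 31) (nat_lit 0x200c0041200402403018008090081200007801019018078080dc08004050310301981c08808000050100300c8101360a033040108401141c0ce0c063050028480cc2c062140250300081007c0404a00031),
.i (nat_lit 0) (nat_lit 0) [((nat_lit 2), (nat_lit 1)), ((nat_lit 7), (nat_lit 1))] (nat_lit 0x43024),
.c (nat_lit 35) (nat_lit 0x8078080540601e04015028078180540e01e080150480780403c0402a0300f0200a81403c0c02a0700f0400a82403c02002020160181f8100580a07e060160381f8200581207e0103f008278080fe020030801583807c180560001f),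
.i (nat_lit 0) (nat_lit 0) [((nat_lit 2), (nat_lit 1)), ((nat_lit 8), (nat_lit 1))] (nat_lit 0x46024),
.c (nat_lit 10) (nat_lit 0x7c040020301f01028c0807e0a03f0701e8300c40400600031),
.c (nat_lit 3) (nat_lit 0x78000000206e),
.i (nat_lit 0) (nat_lit 0) [((nat_lit 2), (nat_lit 1)), ((nat_lit 321), (nat_lit 2))] (nat_lit 0x53024),
.c (nat_lit 31) (nat_lit 0x200a8041400401e03015008078081400007e01016018060080bc08000050350301b81c0700a0020602f0380b010034080a9050168380e4180de0a01b040008480b42c0561401f030018100640403e0002b),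
.c (nat_lit 3) (nat_lit 0x780000802062),
.i (nat_lit 0) (nat_lit 0) [((nat_lit 2), (nat_lit 1)), ((nat_lit 323), (nat_lit 2))] (nat_lit 0x56024),
.c (nat_lit 27) (nat_lit 0x188040cc06004040310200a81403c0c02a0400f0282801004806002040130281c8180580e07e080130480b00c04c0802c030570280b41004e060030800f8100140404a0001f),
.i (nat_lit 0) (nat_lit 0) [((nat_lit 3), (nat_lit 1)), ((nat_lit 7), (nat_lit 1))] (nat_lit 0x43025),
.c (nat_lit 27) (nat_lit 0x28078180540801e0505000001004160000b3000588402c41c0c60c0b10503182019c0c0c604067010318000141003e060250200f8080940003e0201f0700f8300ac1403e08025),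
.i (nat_lit 0) (nat_lit 0) [((nat_lit 3), (nat_lit 1)), ((nat_lit 8), (nat_lit 1))] (nat_lit 0x46025),
.c (nat_lit 10) (nat_lit 0x8804004030220102dc0808a0a045070218300c40400a00031),
.c (nat_lit 3) (nat_lit 0x60000040205e),
.i (nat_lit 0) (nat_lit 0) [((nat_lit 3), (nat_lit 1)), ((nat_lit 258), (nat_lit 2))] (nat_lit 0x5d025),
.c (nat_lit 15) (nat_lit 0x10041080602402001018098100e40a05e060130100980817a080270302f81000c0403200005),
.i (nat_lit 0) (nat_lit 0) [((nat_lit 4), (nat_lit 1)), ((nat_lit 6), (nat_lit 1))] (nat_lit 0x3a040),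
.c (nat_lit 1) (nat_lit 193),
.i (nat_lit 0) (nat_lit 0) [((nat_lit 5), (nat_lit 1)), ((nat_lit 6), (nat_lit 1))] (nat_lit 0x3a03d),
.c (nat_lit 1) (nat_lit 197),
.c (nat_lit 1) (nat_lit 54),
.i (nat_lit 0) (nat_lit 0) [((nat_lit 1), (nat_lit 1)), ((nat_lit 9), (nat_lit 1))] (nat_lit 0x64023),
.c (nat_lit 35) (nat_lit 0x80a80806c0602a0401b0280a81806c0e02a0801b0480a80405404036030150200d8140540c036070150400d824054020000201c018228100700a08a0601c038228200701208a0104500832808116020010801b8380ac1806e0002b),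
.c (nat_lit 1) (nat_lit 60),
.c (nat_lit 1) (nat_lit 66),
.c (nat_lit 7) (nat_lit 0xa80403c0402a0000f008280000040207e),
.i (nat_lit 0) (nat_lit 0) [((nat_lit 2), (nat_lit 1)), ((nat_lit 10), (nat_lit 1))] (nat_lit 0x67024),
.c (nat_lit 35) (nat_lit 0x80c008078060300401e0280c0180780e0300801e0480c0040600403c030180200f0140600c03c070180400f024060020020201f0182901007c0a0a40601f0382902007c120a4010520083500814a020030801e8380c41807a00031),
.c (nat_lit 7) (nat_lit 0xc00404804030000120082400000002078),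
.i (nat_lit 0) (nat_lit 0) [((nat_lit 3), (nat_lit 1)), ((nat_lit 9), (nat_lit 1))] (nat_lit 0x64025),
.c (nat_lit 1) (nat_lit 219),
.i (nat_lit 0) (nat_lit 0) [((nat_lit 3), (nat_lit 1)), ((nat_lit 10), (nat_lit 1))] (nat_lit 0x67025),
.c (nat_lit 1) (nat_lit 223),
.i (nat_lit 0) (nat_lit 0) [((nat_lit 3), (nat_lit 1)), ((nat_lit 11), (nat_lit 1))] (nat_lit 0x68025),
.c (nat_lit 35) (nat_lit 0x80c00808406030040210280c0180840e030080210480c0040600404203018020108140600c042070180401082406002004020220182e0100880a0b8060220382e020088120b80105c0083880817202005080218380c41808600031),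
.i (nat_lit 0) (nat_lit 0) [((nat_lit 3), (nat_lit 1)), ((nat_lit 450), (nat_lit 2))] (nat_lit 0x69025),
.c (nat_lit 53) (nat_lit 0x1e0800f0082d008048020240200f0180900403c040c60505a0083180403c02004020310182c0100cc0a0b0060310380a81803c0e02a0500f0302800804802002020130181c8100580a0720603f0380b00c03c080c6020580083980404e080b1030338100140818e0a0250400f8280b4100fe060730201680800c141420801f0601582807c180560001f),
.i (nat_lit 0) (nat_lit 0) [((nat_lit 5), (nat_lit 1)), ((nat_lit 386), (nat_lit 2))] (nat_lit 0x4903d),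
.c (nat_lit 19) (nat_lit 0x780418c0402a0300f0200a80803c060a0020010180b0100fc0a072060160100b0081d60802d0303981000c0404a0001f),
.i (nat_lit 0) (nat_lit 0) [((nat_lit 6), (nat_lit 1)), ((nat_lit 7), (nat_lit 1))] (nat_lit 0x4303a),
.c (nat_lit 1) (nat_lit 239),
.c (nat_lit 7) (nat_lit 0xf0040600403c0001800835800004020a4),
.c (nat_lit 7) (nat_lit 0x10804060040420001800839000008020b8),
.i (nat_lit 0) (nat_lit 0) [((nat_lit 3), (nat_lit 1)), ((nat_lit 642), (nat_lit 2))] (nat_lit 0x79025),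
.c (nat_lit 23) (nat_lit 0x10041c0080300501e0180c0101ac0602402001018098100e40a0a406013010098081ee080270305281000c0c1ae040310401e8180c40407a00005),
.i (nat_lit 0) (nat_lit 0) [((nat_lit 7), (nat_lit 1)), ((nat_lit 321), (nat_lit 2))] (nat_lit 0x53043),
.c (nat_lit 15) (nat_lit 0x40dc040380007d0000e4100720606f020458080e400002020cd000158100dc0405600037),
.i (nat_lit 0) (nat_lit 0) [((nat_lit 7), (nat_lit 1)), ((nat_lit 387), (nat_lit 2))] (nat_lit 0x4c043),
.c (nat_lit 42) (nat_lit 0x480201e060120380a8140480c0f0030740180901003c0a024020630282d018048040ec0300f0100780c0480801e05012010318080080606604031028198181600e062080330482c00c03c080c6020580103fc10162060670200281031c1404a0801f070158300940403e00025),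
.i (nat_lit 0) (nat_lit 0) [((nat_lit 323), (nat_lit 2)), ((nat_lit 386), (nat_lit 2))] (nat_lit 0x49056),
.c (nat_lit 44) (nat_lit 0x2012008078082000202a0100f01040000004020720203f0181c80403c040240307601807810200020240200f008010080cc06062040580281980004c0202c0008180819c0c05a040730101380000c0404a060670205880818c0000a0001f000638204040418e0001f030768100940403e00025),
.c (nat_lit 5) (nat_lit 0x4024030180080900812000078),
.c (nat_lit 6) (nat_lit 0x403c0410001015008078082000007e),
.c (nat_lit 5) (nat_lit 0x402a0301b0080a8081980008a),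
.c (nat_lit 5) (nat_lit 0x40300301e0080c0081ac000a4),
.c (nat_lit 5) (nat_lit 0x601e0408000807808200000aa),
.c (nat_lit 5) (nat_lit 0x20c6040800080780818c000b0),
.c (nat_lit 5) (nat_lit 0x4030030210080c0081c8000b8),
.c (nat_lit 6) (nat_lit 0x3c0402a010800083f4140560001f),
.c (nat_lit 7) (nat_lit 0x80000804806033020198300c40400200025),
.c (nat_lit 16) (nat_lit 0x10080002422c06026040160100800c034040270401981808408036100310701283007c0400200003),
.c (nat_lit 7) (nat_lit 0x800008054060390201c8300dc040020002b),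
.c (nat_lit 11) (nat_lit 0x8040000401a030370200e0080580601b020378180b40400200003),
.c (nat_lit 7) (nat_lit 0x8008080600603f0201f8300f40400600031),
.c (nat_lit 7) (nat_lit 0x801008060060450202283010c0400a00031),
.c (nat_lit 17) (nat_lit 0x201000028478180480e116050120300c01422c0401a030830202580807c0601b020838180fc0400200003),
.c (nat_lit 17) (nat_lit 0x401000028480180480e116050120300c01422c04020030830202700808806021020838181140400200005),
.c (nat_lit 16) (nat_lit 0x2008000180600e120020100180c8080cc06021020198201140c0ce0a125070218300c40400200005),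
.c (nat_lit 16) (nat_lit 0x1008000180600e11e0200d0180c8080e40601b020198200fc0c0e60a1230701e8300c40400200003),
.c (nat_lit 11) (nat_lit 0xc0540811a010370100e0042000406f0101c8104541005600001),
.c (nat_lit 19) (nat_lit 0x498040080e02a03093018078080c4061100208001818c08222081270300f8304041424e1002b070218300940400a00025),
.c (nat_lit 10) (nat_lit 0x20802000020190180e008208060330201c8300c4040020002b),
.c (nat_lit 27) (nat_lit 0x80100c0480804205015028090182080601e040930104400c0cc041050308881019c0c24e0c1270509682049c0c03e160250a02184809424056100430701283010c0400a00025),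
.c (nat_lit 2) (nat_lit 0x425000105),
.c (nat_lit 10) (nat_lit 0x480201e030820104000c24c041050308081049c0403e00025),
.c (nat_lit 13) (nat_lit 0x2010000100680c070041080300d8100e41021e061090401582046c0400200003),
.c (nat_lit 22) (nat_lit 0x402000050180304781c048101160501203045808034060960208601806c0812e081170301283045c1404a0811f030188184340400200003),
.c (nat_lit 14) (nat_lit 0x4020000200d0184280c0540811a0208701806c082160610f0508d8200ac0400200003),
.c (nat_lit 78) (nat_lit 0x4054041340109a008090082600201e02093000440040000c030040180280a8100480a116060820384b82022c12130050150204101425c0c042060180200c014054080240508b0304101c25c10116090980280a8102080a12e0400f028400182540e12c070180280c0180540a0240608b0384102025c121160a098048480240600c02a050820304b81c22c10130050180300a8140480c116070820404b8240600c02a050820304b808040060380404e0184d00c048081300300f02049808220060210201c83007c040020002b),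
.c (nat_lit 24) (nat_lit 0x1015000420080480400403033008098102080a1300409a020090142600801e0509301844008210060260208882049c0c03e08131030128184d40400a0002b),
.c (nat_lit 7) (nat_lit 0x80c00823c060240408b0080900822c00096),
.c (nat_lit 9) (nat_lit 0x2024020980100c00c24002116020980080900822c0009c),
.c (nat_lit 20) (nat_lit 0x60120384582003c0613401093000460280481603c0a00c0584a010268041260108c0082f804252040f90601e8280941007a00019),
.c (nat_lit 11) (nat_lit 0x80900807802018020940184e01025002128010618104a40403200025),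
.c (nat_lit 11) (nat_lit 0x81080008400004010890104f00c2240813c0009e0003740427a00005),
.c (nat_lit 3) (nat_lit 0x80a8082340010e),
.c (nat_lit 6) (nat_lit 0x426802024020980080780824c00110),
.c (nat_lit 3) (nat_lit 0x184d00424c00118),
.c (nat_lit 4) (nat_lit 0x201e000488042720403d),
.c (nat_lit 9) (nat_lit 0x4042000920084b40c26204025020218184c40804a04043),
.c (nat_lit 6) (nat_lit 0x40480413001021008090082600012c),
.c (nat_lit 4) (nat_lit 0x201b0004d80427604037),
.i (nat_lit 0) (nat_lit 0) [((nat_lit 321), (nat_lit 2)), ((nat_lit 386), (nat_lit 2))] (nat_lit 0x49053),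
.c (nat_lit 70) (nat_lit 0x2a40411a01095010400100300e13406018038478202401002a0909a0300901c22c10146090820504c02c25c0a0020602f0381c82007c121080a09f05852824268101200700f040498242a4141000b095028000180340e06e080190480e0202080c02c050ac8300cc1403612153080938504842c27e1403f090398400b41c0be0c003080828604c42c28e14117090828400942c28614141090838400e41c0de0c06b0500085855430086080190300f8100ac0406e00031),
.c (nat_lit 5) (nat_lit 0x402a0308d000470042ae0402b),
.c (nat_lit 9) (nat_lit 0x240100c018410082ac04132030ab8104a40403200025),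
.c (nat_lit 4) (nat_lit 0xc0900504982c2a400144),
.c (nat_lit 4) (nat_lit 0x80900304981c2a40014e),
.c (nat_lit 4) (nat_lit 0x2015018468102bc0015a),
.c (nat_lit 3) (nat_lit 0xf00000002140),
.c (nat_lit 3) (nat_lit 0xd80407804036),
.c (nat_lit 3) (nat_lit 0xd80003c0212a),
.c (nat_lit 3) (nat_lit 0x1080003c02154),
.c (nat_lit 3) (nat_lit 0xd8000300213a),
.c (nat_lit 3) (nat_lit 0x1080004802130),
.i (nat_lit 0) (nat_lit 0) [((nat_lit 641), (nat_lit 2)), ((nat_lit 710), (nat_lit 2))] (nat_lit 0xb80b3),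
.c (nat_lit 24) (nat_lit 0x180080900822c06146040980285180400004032030a00205080828c02173020a18080cc1428e081310308b8100941428608141030a181041c0400200031),
.c (nat_lit 3) (nat_lit 0xa80004802104),
.i (nat_lit 0) (nat_lit 0) [((nat_lit 454), (nat_lit 2)), ((nat_lit 513), (nat_lit 2))] (nat_lit 0x6c0bb),
.c (nat_lit 29) (nat_lit 0x202a0208d0180c00005400024010820104b80c22c02030000000080c80820c060380108b0005e004072000330508b8204bc0c20a04117010128100ac04062060310208d8080ac0421600001),
.c (nat_lit 3) (nat_lit 0xc00004802116),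
.i (nat_lit 0) (nat_lit 0) [((nat_lit 581), (nat_lit 2)), ((nat_lit 518), (nat_lit 2))] (nat_lit 0xbe0b5),
.c (nat_lit 46) (nat_lit 0x1008406120000120084100822c06104040980280d80c268041200109a0000780424c04100030a9020400142540a030060bd0285e80425c0017f010a980049c082420812f0309881045c0404a04135030908204d4182f60a121070bd830484140620c12b050aa8204040c2a604101010a980007c1406e08043),
.c (nat_lit 3) (nat_lit 0xc00003c02152),
.i (nat_lit 0) (nat_lit 0) [((nat_lit 450), (nat_lit 2)), ((nat_lit 513), (nat_lit 2))] (nat_lit 0x6c069),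
.c (nat_lit 55) (nat_lit 0xc0040540403003015020060183001211a0a0af0480f02023c0e15e050010301781c07c101080901f0505282c2181217a0a08f028000180340e1060801c048500202bc0c03e050c20300e4140361217b0a0a58480fc202120e05f0600185046c242be1610b0a0a08480e42020e0e039060358280041c2f61011b0901b8505ec2423e08019030158100c40405600031),
.c (nat_lit 3) (nat_lit 0x1080005402134),
.i (nat_lit 0) (nat_lit 0) [((nat_lit 711), (nat_lit 2)), ((nat_lit 580), (nat_lit 2))] (nat_lit 0xb70c4),
.c (nat_lit 8) (nat_lit 0x1015000558182340411a010c502046c2006e0002b),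
.c (nat_lit 3) (nat_lit 0xa80003002156),
.c (nat_lit 3) (nat_lit 0xa80003c02100),
.c (nat_lit 3) (nat_lit 0xc00003002150),
.c (nat_lit 3) (nat_lit 0xf0000540215e),
.i (nat_lit 0) (nat_lit 0) [((nat_lit 453), (nat_lit 2)), ((nat_lit 647), (nat_lit 2))] (nat_lit 0xca0c8),
.c (nat_lit 71) (nat_lit 0xd8040540411a0309a0204681426804030030bd020480142f40803c030c30104780c08408036050210100c00c23c08120050bd0180d8082f40201e020800184a8102c80a15406095038550202c80411a030af0204d0142340c13402015018468102bc0a1340608d0384d00c0600817a0508f0304801c2f402100020b200865808056041650100f8285ec102420611f020bd8080c41426a0811b0309a81057c042360c1350508d8204d40c2be0411b010158300f41408600037),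
.i (nat_lit 0) (nat_lit 0) [((nat_lit 709), (nat_lit 2)), ((nat_lit 452), (nat_lit 2))] (nat_lit 0xc70b6),
.c (nat_lit 20) (nat_lit 0xc028400182540e154080950086300c2340601e040950105702405414134080800204000c3340c1010a01581007c0408600019),
.i (nat_lit 0) (nat_lit 0) [((nat_lit 387), (nat_lit 2)), ((nat_lit 0x9289), (nat_lit 3))] (nat_lit 0xb404c),
.c (nat_lit 106) (nat_lit 0x1406c0817a0308d0105e8042340013a010ab0105400c2ac0a17a0500f0304a8102b80c152070aa030480180480e042070180401081c2400c01e07093040548242a80c018070210380a8202680e024080820484c0202680e01e08093048400280841204209018050480180840c02a0709a0300901c208101300709a0300781c24c10100090210300101c0c410066090a60504482c2c4180440d0a60704483c2c420062110220904484c06c2803c130c30880904822c26130140a30305801806c0e186060cf04861c2006e10161070338300141824e10131070128384d4200860e157060ae84046c242f61411b120a38884c44022e1e025110c38900f44406e200430f01887007c140320801f030158100c40405600037),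
.c (nat_lit 2) (nat_lit 0x102f40012e),
.c (nat_lit 61) (nat_lit 0x2042010180104800404804116030980104800403c04126030a90200f01006c0a18604015028468182bc0a030060bd0384780c054081800708d0405780834402018020ae0184a0102ac0a150060ab0384e820270120420608d038578202680a17a0608f038480140600c17a0708f0300a81c2341015e070180405e82423c081800708d040578100540a1800808d0485780c3440215c020940185581034000160),
.c (nat_lit 53) (nat_lit 0xe042040180285e8182400e11e080900100a80804806104040d10284c01828c0e130070210200c0142f40c1200708f040480140840c1980601b020480142f4061340200f018498102000a12a060b2038550140600c17a0708f0300a81c2341015e070180405e82423c081800708d040578100540a1800808d0485780c3440215c020940185581034000162),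
.c (nat_lit 10) (nat_lit 0x1808402030020bd018480102f40a1200608f0384800c33000164),
.c (nat_lit 39) (nat_lit 0xc004054040300300f020060242f41011a070bd0380a8202340e11a050ae0305581c3400a19d060d08284ec182360e17b0808d8485ec2c2aa1412b090a98404041c2a60c1010c09a85846c203020e02b0b0a48500dc30086080190300f8100c40405600031),
.c (nat_lit 40) (nat_lit 0x10d083044c1408a0814d030228105340434e00005050af8204d40c2360402b0509082047c0c2420417b0101882010c0c2be041350108d8284841023e06121020bd83010c180860a139040d08184ec082a2021570000c81046c0c2f60811b010c08000ac0c2f604031),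
.c (nat_lit 3) (nat_lit 0x817c0000600019),
.c (nat_lit 7) (nat_lit 0x104fc0404e000030208980819c0000a02043),
.c (nat_lit 3) (nat_lit 0x844c0000a00043),
.c (nat_lit 5) (nat_lit 0x129020a38080940427200019),
.c (nat_lit 1) (nat_lit 25),
.c (nat_lit 5) (nat_lit 0x1a5030d281044c0434a00005),
.c (nat_lit 3) (nat_lit 0x4340407a00003),
.i (nat_lit 1) (nat_lit 3) [((nat_lit 4), (nat_lit 1)), ((nat_lit 707), (nat_lit 2)), ((nat_lit 2), (nat_lit 1)), ((nat_lit 0xa2c91c8), (nat_lit 5)), ((nat_lit 0), (nat_lit 0)), ((nat_lit 6), (nat_lit 1)), ((nat_lit 0), (nat_lit 0)), ((nat_lit 10), (nat_lit 1)), ((nat_lit 0), (nat_lit 0)), ((nat_lit 0x2ca2ca), (nat_lit 4)), ((nat_lit 0), (nat_lit 0))] (nat_lit 0xdd0dc0db0da0d90d80d70d602407a040),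
.c (nat_lit 23) (nat_lit 0x8478082400611e040900085d0043780a11f040908185ec182be0a1350408d8086041c30e0c1ab0501b8285d4200860e03d060218280f4100620002b),
.i (nat_lit 1) (nat_lit 19) [((nat_lit 4), (nat_lit 1)), ((nat_lit 707), (nat_lit 2)), ((nat_lit 2), (nat_lit 1)), ((nat_lit 0xa2c91c8), (nat_lit 5)), ((nat_lit 0), (nat_lit 0)), ((nat_lit 6), (nat_lit 1)), ((nat_lit 0), (nat_lit 0)), ((nat_lit 10), (nat_lit 1)), ((nat_lit 0), (nat_lit 0)), ((nat_lit 0x2ca2ca), (nat_lit 4)), ((nat_lit 0), (nat_lit 0))] (nat_lit 0xdd0dc0db0da0d90d80d70d602407a040)]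

theorem c0_0 : ck d0 x0 ths 225 J0_0 0 = true := by decide +kernel

set_option maxRecDepth 100000 in
/-- Justifications. -/
noncomputable def J0_1 : List Js := [
.c (nat_lit 52) (nat_lit 0x1b0080c008054060180a01e0581081c30c101aa090c30506a81437c081c0040df8486ac2030e0e1ab060c385010c2407a101a10709c8304ec142a208157080af83846c1837e0a02b090d584061c1c3560c187080ba8380f4242421011f070908305ec1406210135070af8304d414236121210808f838484182f6140430300c8100ac0406200037),
.c (nat_lit 3) (nat_lit 0x10108043540013c),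
.c (nat_lit 7) (nat_lit 0x80c0080840403c030e10080a80837c001a0),
.c (nat_lit 7) (nat_lit 0x80c0080840403c030e10080a80837c001a2),
.c (nat_lit 6) (nat_lit 0x14384080420401e0287080837c001a6),
.c (nat_lit 4) (nat_lit 0x10210080d808354001a8),
.c (nat_lit 4) (nat_lit 0x20210100f00c384001be),
.c (nat_lit 3) (nat_lit 0x10800078021c2),
.c (nat_lit 2) (nat_lit 0x23c02120),
.c (nat_lit 2) (nat_lit 0x28c02130),
.c (nat_lit 1) (nat_lit 278),
.c (nat_lit 2) (nat_lit 0x28002142),
.c (nat_lit 1) (nat_lit 262),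
.c (nat_lit 1) (nat_lit 50),
.c (nat_lit 4) (nat_lit 0x20081980000402026),
.c (nat_lit 4) (nat_lit 0x10d2010448002180213e),
.c (nat_lit 4) (nat_lit 0x30e1008110083480003e),
.c (nat_lit 2) (nat_lit 0x40cc00072),
.c (nat_lit 0) (nat_lit 0),
.c (nat_lit 59) (nat_lit 0x200f01006c0a186060210200c0142f40c11e070900104100c22c081c8050a30304c0042000415203095020730142a800004010e50101880c0cc08044050e20306901c0840c1c2050d50280f0183840811e050900200a8142bc0c134040af0284d01038404126030e60084a000004020260202f0180b0102100a03e060a50384302027c06100040a90284a8183980e154010e50000000403404020),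
.c (nat_lit 24) (nat_lit 0x15008468082bc061340001200841008390061460409801870808354021340000f008498082000612a040e60104680c2bc021c80000c0085700825006156),
.c (nat_lit 7) (nat_lit 0x7a8103d0001e8090f30307980c3cc001e6)]

theorem c0_1 : ck d0 x0 ths 247 J0_1 225 = true := by decide +kernel

set_option maxRecDepth 100000 in
/-- Justifications. -/
noncomputable def J1_0 : List Js := [
.h (nat_lit 0x2000),
.h (nat_lit 0x2001),
.h (nat_lit 0x2002),
.h (nat_lit 0x100d),
.h (nat_lit 0x1010),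
.h (nat_lit 0x1013),
.h (nat_lit 0x1015),
.h (nat_lit 0x1016),
.h (nat_lit 0x1018),
.h (nat_lit 0x1019),
.h (nat_lit 0x101c),
.h (nat_lit 0x101e),
.h (nat_lit 0x101f),
.h (nat_lit 0x1021),
.h (nat_lit 0x1022),
.h (nat_lit 0x102f),
.h (nat_lit 0x1031),
.h (nat_lit 0x1033),
.h (nat_lit 0x1035),
.h (nat_lit 0x1037),
.h (nat_lit 0x1039),
.h (nat_lit 0x1080),
.h (nat_lit 0x1082),
.h (nat_lit 0x1083),
.h (nat_lit 0x1084),
.h (nat_lit 0x1089),
.h (nat_lit 0x108b),
.h (nat_lit 0x108f),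
.h (nat_lit 0x1090),
.h (nat_lit 0x1093),
.h (nat_lit 0x1094),
.h (nat_lit 0x109a),
.h (nat_lit 0x109f),
.h (nat_lit 0x10a0),
.h (nat_lit 0x10a1),
.h (nat_lit 0x10a6),
.h (nat_lit 0x10a9),
.h (nat_lit 0x10af),
.h (nat_lit 0x10e1),
.h (nat_lit 0x10e5),
.h (nat_lit 0x10e6),
.h (nat_lit 0x10e7),
.h (nat_lit 0x10f6),
.h (nat_lit 0),
.c (nat_lit 5) (nat_lit 0x4c0002b0001540803602017),
.c (nat_lit 97) (nat_lit 0xb020098080240000e0404f0602c8381341802e0c01b050248200ac1806a0a02d0700883011c140460802103027810014140b20c04d0500b82806c100920602b0501a8200b4180a60a00d06020828064100520600f0200f80800c0c05a0e045060218280bc1002a060130201380809400002060530502c8300e41406e080110502682005c100360801a040080100b00c0680202a020240180680c02c0804c0302c0000100409c0402003011020070140640a016060260200d8140700800c050250300f8100940a03e040260100e80c0a00203c000010080280803c0600e040180280600c054080480500d028058180980a058010270000000400c04008)]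

theorem c1_0 : ck d1 x1 ths 46 J1_0 0 = true := by decide +kernel

set_option maxRecDepth 100000 in
/-- Justifications. -/
noncomputable def J2_0 : List Js := [
.h (nat_lit 0x2000),
.h (nat_lit 0x2001),
.h (nat_lit 0x2002),
.h (nat_lit 0x100c),
.h (nat_lit 0x100d),
.h (nat_lit 0x100f),
.h (nat_lit 0x1010),
.h (nat_lit 0x1012),
.h (nat_lit 0x1013),
.h (nat_lit 0x1015),
.h (nat_lit 0x1016),
.h (nat_lit 0x1018),
.h (nat_lit 0x101c),
.h (nat_lit 0x101e),
.h (nat_lit 0x1021),
.h (nat_lit 0x1024),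
.h (nat_lit 0x1031),
.h (nat_lit 0x1033),
.h (nat_lit 0x1035),
.h (nat_lit 0x1037),
.h (nat_lit 0x103d),
.h (nat_lit 0x1043),
.h (nat_lit 0x1068),
.h (nat_lit 0x1080),
.h (nat_lit 0x1083),
.h (nat_lit 0x1084),
.h (nat_lit 0x1089),
.h (nat_lit 0x108b),
.h (nat_lit 0x108f),
.h (nat_lit 0x1090),
.h (nat_lit 0x1093),
.h (nat_lit 0x1094),
.h (nat_lit 0x109a),
.h (nat_lit 0x109c),
.h (nat_lit 0x109f),
.h (nat_lit 0x10a0),
.h (nat_lit 0x10a1),
.h (nat_lit 0x10a3),
.h (nat_lit 0x10a6),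
.h (nat_lit 0x10a8),
.h (nat_lit 0x10a9),
.h (nat_lit 0x10aa),
.h (nat_lit 0x10ab),
.h (nat_lit 0x10ae),
.h (nat_lit 0x10af),
.h (nat_lit 0x10e1),
.h (nat_lit 0x10e3),
.h (nat_lit 0x10e5),
.h (nat_lit 0x10e6),
.h (nat_lit 0x10e7),
.h (nat_lit 0x10f6),
.h (nat_lit 0),
.c (nat_lit 6) (nat_lit 0x340201c000330001940803a0201b),
.c (nat_lit 2) (nat_lit 0x80d000018),
.c (nat_lit 2) (nat_lit 0x80d000056),
.c (nat_lit 2) (nat_lit 0x100d00005e),
.c (nat_lit 1) (nat_lit 64),
.c (nat_lit 1) (nat_lit 82),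
.c (nat_lit 1) (nat_lit 46),
.c (nat_lit 1) (nat_lit 68),
.c (nat_lit 1) (nat_lit 50),
.c (nat_lit 1) (nat_lit 20),
.c (nat_lit 4) (nat_lit 0x2008080000000200c),
.c (nat_lit 2) (nat_lit 0x406800048),
.c (nat_lit 2) (nat_lit 0x40980006a),
.c (nat_lit 2) (nat_lit 0x404000026),
.c (nat_lit 2) (nat_lit 0x80dc00008),
.c (nat_lit 48) (nat_lit 0x400d0180e00c024080580302c0001b00407c040540300e0000100404004022030260200d00c0800203c00001008040080280601c0300d0201680c02c080380501d018048100c40a058060200100180c0d808054050270301081c0b80602e04028028180180a40206e000000080200801806024040350280c01808c0e048),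
.c (nat_lit 19) (nat_lit 0x58040700000e0101b0101280c0380405a0101d0000280407804050030300201480807000006010360100f80c09c0805c),
.c (nat_lit 7) (nat_lit 0x2201410c00086180420802102010800084)]

theorem c2_0 : ck d2 x2 ths 70 J2_0 0 = true := by decide +kernel

set_option maxRecDepth 100000 in
/-- Justifications. -/
noncomputable def J3_0 : List Js := [
.h (nat_lit 0x4000),
.h (nat_lit 0x4001),
.h (nat_lit 0x4002),
.h (nat_lit 0x300d),
.h (nat_lit 0x3010),
.h (nat_lit 0x3013),
.h (nat_lit 0x3015),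
.h (nat_lit 0x3016),
.h (nat_lit 0x3018),
.h (nat_lit 0x3019),
.h (nat_lit 0x301f),
.h (nat_lit 0x3021),
.h (nat_lit 0x3022),
.h (nat_lit 0x302f),
.h (nat_lit 0x3031),
.h (nat_lit 0x3033),
.h (nat_lit 0x3035),
.h (nat_lit 0x3037),
.h (nat_lit 0x3039),
.h (nat_lit 0x3080),
.h (nat_lit 0x3082),
.h (nat_lit 0x3083),
.h (nat_lit 0x3084),
.h (nat_lit 0x3089),
.h (nat_lit 0x308b),
.h (nat_lit 0x3093),
.h (nat_lit 0x3094),
.h (nat_lit 0x309f),
.h (nat_lit 0x30a6),
.h (nat_lit 0x30a9),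
.h (nat_lit 0x30aa),
.h (nat_lit 0x30e7),
.h (nat_lit 0x1035),
.h (nat_lit 0x1037),
.h (nat_lit 0x1045),
.h (nat_lit 0),
.c (nat_lit 3) (nat_lit 0x1180008a02017),
.c (nat_lit 77) (nat_lit 0xb020098080240000e040430602483005c1407608027060188280a41c0220c0390500f8200740c086040050502482805c1007606027050188200a41807e0a00d0601b8280541004a0600f0200d80800c0c0520c0490600b8280ac100820601302011808084000020603f04008820058100200402803018008098080740601603024000010040840401c0300f0200601405c0a04804006020058080640603c030240080d0000040200a0200d018038100580a014030130200e81402c0a048010210000000400c04008)]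

theorem c3_0 : ck d3 x3 ths 38 J3_0 0 = true := by decide +kernel

set_option maxRecDepth 100000 in
/-- Justifications. -/
noncomputable def J4_0 : List Js := [
.h (nat_lit 0x4000),
.h (nat_lit 0x4001),
.h (nat_lit 0x300c),
.h (nat_lit 0x300d),
.h (nat_lit 0x300f),
.h (nat_lit 0x3012),
.h (nat_lit 0x3015),
.h (nat_lit 0x3018),
.h (nat_lit 0x301f),
.h (nat_lit 0x3021),
.h (nat_lit 0x3022),
.h (nat_lit 0x3025),
.h (nat_lit 0x302f),
.h (nat_lit 0x3035),
.h (nat_lit 0x3040),
.h (nat_lit 0x3080),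
.h (nat_lit 0x3082),
.h (nat_lit 0x3083),
.h (nat_lit 0x3084),
.h (nat_lit 0x3089),
.h (nat_lit 0x3090),
.h (nat_lit 0x3093),
.h (nat_lit 0x3094),
.h (nat_lit 0x3098),
.h (nat_lit 0x309a),
.h (nat_lit 0x309f),
.h (nat_lit 0x30a1),
.h (nat_lit 0x30a6),
.h (nat_lit 0x30a8),
.h (nat_lit 0x30ab),
.h (nat_lit 0x30e3),
.h (nat_lit 0x30e7),
.h (nat_lit 0x30f3),
.h (nat_lit 0x30f4),
.h (nat_lit 0x1035),
.h (nat_lit 0x1036),
.h (nat_lit 0x1037),
.h (nat_lit 0x1045),
.h (nat_lit 0),
.c (nat_lit 4) (nat_lit 0x90001300009602013),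
.c (nat_lit 2) (nat_lit 0x809c00010),
.c (nat_lit 2) (nat_lit 0x809c0002c),
.c (nat_lit 2) (nat_lit 0x1009c00048),
.c (nat_lit 6) (nat_lit 0x240000e010140000300407c04030),
.c (nat_lit 3) (nat_lit 0xe8040700403c),
.c (nat_lit 4) (nat_lit 0x10080600000002006),
.c (nat_lit 6) (nat_lit 0x404804050030190001100404404034),
.c (nat_lit 2) (nat_lit 0x40300001a),
.c (nat_lit 5) (nat_lit 0x6012020140000d80402804026),
.c (nat_lit 1) (nat_lit 84),
.c (nat_lit 13) (nat_lit 0xc01018000028040400402e01018000020040540401e00002008118080a40603a),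
.c (nat_lit 7) (nat_lit 0x1901008400042090200301000c08000040)]

theorem c4_0 : ck d4 x4 ths 52 J4_0 0 = true := by decide +kernel

set_option maxRecDepth 100000 in
/-- Justifications. -/
noncomputable def J5_0 : List Js := [
.h (nat_lit 0x6000),
.h (nat_lit 0x6001),
.h (nat_lit 0x6002),
.h (nat_lit 0x500d),
.h (nat_lit 0x5010),
.h (nat_lit 0x5013),
.h (nat_lit 0x5015),
.h (nat_lit 0x5016),
.h (nat_lit 0x5018),
.h (nat_lit 0x5019),
.h (nat_lit 0x5022),
.h (nat_lit 0x502f),
.h (nat_lit 0x5031),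
.h (nat_lit 0x5033),
.h (nat_lit 0x5035),
.h (nat_lit 0x5037),
.h (nat_lit 0x5039),
.h (nat_lit 0x5080),
.h (nat_lit 0x5082),
.h (nat_lit 0x5083),
.h (nat_lit 0x5084),
.h (nat_lit 0x508b),
.h (nat_lit 0x5093),
.h (nat_lit 0x50a6),
.h (nat_lit 0x50a9),
.h (nat_lit 0x50e7),
.h (nat_lit 0x3035),
.h (nat_lit 0x1028),
.h (nat_lit 0x1029),
.h (nat_lit 0x102a),
.h (nat_lit 0x1033),
.h (nat_lit 0),
.c (nat_lit 2) (nat_lit 0x7c0003d),
.c (nat_lit 67) (nat_lit 0x2c0802602009000038100ec180820a031040118300ac1404a0e0110601782806c100320603b02002828104100620602305015820094180660a00d060208280dc100420600f0200b80800c0c04a0a0270401a81804c0803e0201d000008180cc1002208040040080100900c0540202202018018100000080203a0200c018068100280800c040200100b00407000002010050100580c01c080280501b018088100600a0400101d0000000400c04008)]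

theorem c5_0 : ck d5 x5 ths 34 J5_0 0 = true := by decide +kernel

set_option maxRecDepth 100000 in
/-- Justifications. -/
noncomputable def J6_0 : List Js := [
.h (nat_lit 0x6000),
.h (nat_lit 0x6001),
.h (nat_lit 0x6002),
.h (nat_lit 0x500c),
.h (nat_lit 0x500d),
.h (nat_lit 0x500f),
.h (nat_lit 0x5010),
.h (nat_lit 0x5012),
.h (nat_lit 0x5013),
.h (nat_lit 0x5016),
.h (nat_lit 0x5018),
.h (nat_lit 0x5021),
.h (nat_lit 0x5022),
.h (nat_lit 0x5025),
.h (nat_lit 0x502f),
.h (nat_lit 0x5031),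
.h (nat_lit 0x5033),
.h (nat_lit 0x5035),
.h (nat_lit 0x5037),
.h (nat_lit 0x5083),
.h (nat_lit 0x5089),
.h (nat_lit 0x5090),
.h (nat_lit 0x5093),
.h (nat_lit 0x5098),
.h (nat_lit 0x509f),
.h (nat_lit 0x50a9),
.h (nat_lit 0x50aa),
.h (nat_lit 0x50c9),
.h (nat_lit 0x50e3),
.h (nat_lit 0x3036),
.h (nat_lit 0x1028),
.h (nat_lit 0x1029),
.h (nat_lit 0x102a),
.h (nat_lit 0x1033),
.h (nat_lit 0),
.c (nat_lit 5) (nat_lit 0x16000210001140802e02015),
.c (nat_lit 2) (nat_lit 0x808c00012),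
.c (nat_lit 3) (nat_lit 0x100500808c00040),
.c (nat_lit 8) (nat_lit 0x10050100c8000040201c020240000000401004024),
.c (nat_lit 6) (nat_lit 0x8076060320100e0100f00004402026),
.c (nat_lit 4) (nat_lit 0x300b0100a80009402018),
.c (nat_lit 1) (nat_lit 0x401e),
.c (nat_lit 20) (nat_lit 0x10160100580405c00004010250100800c0500203e000010080400803806030030050200d00c0680204a000000080200801806024),
.c (nat_lit 9) (nat_lit 0xe0100b0000280405804034000030080e80807c06038),
.c (nat_lit 7) (nat_lit 0x158100a8000540c029040148100a400052)]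

theorem c6_0 : ck d6 x6 ths 45 J6_0 0 = true := by decide +kernel

set_option maxRecDepth 100000 in
/-- Justifications. -/
noncomputable def J7_0 : List Js := [
.h (nat_lit 0x8000),
.h (nat_lit 0x8001),
.h (nat_lit 0x8002),
.h (nat_lit 0x700d),
.h (nat_lit 0x7010),
.h (nat_lit 0x7013),
.h (nat_lit 0x7018),
.h (nat_lit 0x7019),
.h (nat_lit 0x7022),
.h (nat_lit 0x702f),
.h (nat_lit 0x7031),
.h (nat_lit 0x7033),
.h (nat_lit 0x7035),
.h (nat_lit 0x7037),
.h (nat_lit 0x7039),
.h (nat_lit 0x708b),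
.h (nat_lit 0x7093),
.h (nat_lit 0x3028),
.h (nat_lit 0x3029),
.h (nat_lit 0x1024),
.h (nat_lit 0x1025),
.h (nat_lit 0x102c),
.h (nat_lit 0),
.c (nat_lit 2) (nat_lit 0x580002b),
.c (nat_lit 43) (nat_lit 0x2c0801e02009000038100a41005e0c0110500b8200540c05204005030178300bc140460801d0301381004c040060601f0400681803c0803602019000008200b80405c00004010140100500c02c08010040170100800404800002010050100480c04c0602e010140000000400c04008)]

theorem c7_0 : ck d7 x7 ths 25 J7_0 0 = true := by decide +kernel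

set_option maxRecDepth 100000 in
/-- Justifications. -/
noncomputable def J8_0 : List Js := [
.h (nat_lit 0x8000),
.h (nat_lit 0x8001),
.h (nat_lit 0x8002),
.h (nat_lit 0x700d),
.h (nat_lit 0x700f),
.h (nat_lit 0x7010),
.h (nat_lit 0x7012),
.h (nat_lit 0x7013),
.h (nat_lit 0x7018),
.h (nat_lit 0x7019),
.h (nat_lit 0x7021),
.h (nat_lit 0x7022),
.h (nat_lit 0x7023),
.h (nat_lit 0x7025),
.h (nat_lit 0x7031),
.h (nat_lit 0x7033),
.h (nat_lit 0x7037),
.h (nat_lit 0x7039),
.h (nat_lit 0x7049),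
.h (nat_lit 0x7083),
.h (nat_lit 0x7089),
.h (nat_lit 0x708b),
.h (nat_lit 0x7090),
.h (nat_lit 0x7093),
.h (nat_lit 0x7098),
.h (nat_lit 0x709f),
.h (nat_lit 0x70a9),
.h (nat_lit 0x3028),
.h (nat_lit 0x1024),
.h (nat_lit 0x102c),
.h (nat_lit 0),
.c (nat_lit 4) (nat_lit 0x160000e80007a02011),
.c (nat_lit 2) (nat_lit 0x807c00006),
.c (nat_lit 12) (nat_lit 0x60080c00000402022020190100400c0580202a020180000000408004012),
.c (nat_lit 4) (nat_lit 0x10058000040403a00005),
.c (nat_lit 13) (nat_lit 0x39020158180d40805e02009020168180cc0806e02023000018100c4040560000d),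
.c (nat_lit 6) (nat_lit 0x4052000170200a8080440405200005),
.i (nat_lit 2) (nat_lit 0) [((nat_lit 3), (nat_lit 1)), ((nat_lit 386), (nat_lit 2)), ((nat_lit 1), (nat_lit 1)), ((nat_lit 5), (nat_lit 1)), ((nat_lit 712), (nat_lit 2)), ((nat_lit 11), (nat_lit 1))] (nat_lit 0x2402302202100c01200d),
.c (nat_lit 13) (nat_lit 0xc010010100000c09608013030208300c4140560e02d06008810004040060000d),
.c (nat_lit 2) (nat_lit 0x809800016),
.c (nat_lit 2) (nat_lit 0x80980002e),
.c (nat_lit 2) (nat_lit 0xc09800040),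
.c (nat_lit 34) (nat_lit 0x1e040130100580014c0809e06035040158280441003e0601d0200281808c08072020030201581809c080260202100000810044000080201c0200f018040040a000002010070100e00c06c0403401027000000040a40400a)]

theorem c8_0 : ck d8 x8 ths 43 J8_0 0 = true := by decide +kernel

set_option maxRecDepth 100000 in
/-- Justifications. -/
noncomputable def J9_0 : List Js := [
.h (nat_lit 0x6000),
.h (nat_lit 0x6001),
.h (nat_lit 0x6002),
.h (nat_lit 0x500d),
.h (nat_lit 0x500f),
.h (nat_lit 0x5010),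
.h (nat_lit 0x5013),
.h (nat_lit 0x5016),
.h (nat_lit 0x5018),
.h (nat_lit 0x5019),
.h (nat_lit 0x5021),
.h (nat_lit 0x5022),
.h (nat_lit 0x5023),
.h (nat_lit 0x5024),
.h (nat_lit 0x5025),
.h (nat_lit 0x5031),
.h (nat_lit 0x5033),
.h (nat_lit 0x5037),
.h (nat_lit 0x5039),
.h (nat_lit 0x5089),
.h (nat_lit 0x508b),
.h (nat_lit 0x5090),
.h (nat_lit 0x5093),
.h (nat_lit 0x509a),
.h (nat_lit 0x509f),
.h (nat_lit 0x50a9),
.h (nat_lit 0x50aa),
.h (nat_lit 0x1028),
.h (nat_lit 0x102a),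
.h (nat_lit 0x1033),
.h (nat_lit 0),
.c (nat_lit 2) (nat_lit 0x740003d),
.c (nat_lit 2) (nat_lit 0x807c00006),
.c (nat_lit 11) (nat_lit 0x1008054020260101f0080e40807e0402f030158200540c02200005),
.c (nat_lit 2) (nat_lit 0x80840000e),
.c (nat_lit 4) (nat_lit 0x10080c00000002040),
.c (nat_lit 4) (nat_lit 0x10058000040403e00005),
.c (nat_lit 7) (nat_lit 0x1140c06a04033010048100c40406e00003),
.c (nat_lit 6) (nat_lit 0x404e000170200a8080440404e00005),
.i (nat_lit 2) (nat_lit 0) [((nat_lit 3), (nat_lit 1)), ((nat_lit 2), (nat_lit 1)), ((nat_lit 1), (nat_lit 1)), ((nat_lit 5), (nat_lit 1)), ((nat_lit 712), (nat_lit 2)), ((nat_lit 11), (nat_lit 1))] (nat_lit 0x2602502402300c00d00e),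
.c (nat_lit 6) (nat_lit 0x402000020278101040400200003),
.c (nat_lit 2) (nat_lit 0x80a000016),
.c (nat_lit 2) (nat_lit 0x80a00002c),
.c (nat_lit 2) (nat_lit 0x80a000040),
.c (nat_lit 2) (nat_lit 0xc0a000044),
.c (nat_lit 28) (nat_lit 0x681004c0401600057050298200840c03e040050401b818094080b202003020148180440802602023000008000100403c0402003029008150000040200c0202c000000040ac0400a)]

theorem c9_0 : ck d9 x9 ths 46 J9_0 0 = true := by decide +kernel

set_option maxRecDepth 100000 in
/-- Justifications. -/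
noncomputable def J10_0 : List Js := [
.h (nat_lit 0x6000),
.h (nat_lit 0x6001),
.h (nat_lit 0x6002),
.h (nat_lit 0x500d),
.h (nat_lit 0x500f),
.h (nat_lit 0x5010),
.h (nat_lit 0x5013),
.h (nat_lit 0x5015),
.h (nat_lit 0x5016),
.h (nat_lit 0x5018),
.h (nat_lit 0x5019),
.h (nat_lit 0x5021),
.h (nat_lit 0x5022),
.h (nat_lit 0x5023),
.h (nat_lit 0x5024),
.h (nat_lit 0x5025),
.h (nat_lit 0x5031),
.h (nat_lit 0x5033),
.h (nat_lit 0x5037),
.h (nat_lit 0x5039),
.h (nat_lit 0x5089),
.h (nat_lit 0x508b),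
.h (nat_lit 0x5090),
.h (nat_lit 0x5093),
.h (nat_lit 0x509f),
.h (nat_lit 0x50a6),
.h (nat_lit 0x50a9),
.h (nat_lit 0x50aa),
.h (nat_lit 0x50e7),
.h (nat_lit 0x1028),
.h (nat_lit 0x102a),
.h (nat_lit 0x1033),
.h (nat_lit 0),
.c (nat_lit 7) (nat_lit 0xe00002c0003e0002081805c080260200f),
.c (nat_lit 2) (nat_lit 0x808400006),
.c (nat_lit 14) (nat_lit 0x80402c020090100380c070040420101e00810c08032020330301682005c0c02600005),
.c (nat_lit 2) (nat_lit 0x808c00010),
.c (nat_lit 4) (nat_lit 0x20090180b00808c00044),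
.c (nat_lit 4) (nat_lit 0x10080c0000000204a),
.c (nat_lit 4) (nat_lit 0x10058000040404200005),
.c (nat_lit 7) (nat_lit 0x1240c06e04035010048100c40407600003),
.c (nat_lit 6) (nat_lit 0x4052000190200b80804c0405200005),
.i (nat_lit 2) (nat_lit 0) [((nat_lit 3), (nat_lit 1)), ((nat_lit 2), (nat_lit 1)), ((nat_lit 1), (nat_lit 1)), ((nat_lit 5), (nat_lit 1)), ((nat_lit 712), (nat_lit 2)), ((nat_lit 11), (nat_lit 1))] (nat_lit 0x2902802702600d00e00f),
.c (nat_lit 6) (nat_lit 0x4020000202a81012c0400200003),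
.c (nat_lit 2) (nat_lit 0x80ac00018),
.c (nat_lit 2) (nat_lit 0x80ac0002e),
.c (nat_lit 2) (nat_lit 0xc0ac00048),
.c (nat_lit 2) (nat_lit 0x80ac0004a),
.c (nat_lit 28) (nat_lit 0x6810054040160005f0502c82008c0c042040050401d81809c080ba020030201581804c0802a020250000080001004040040220302c008168000040200c0202e000000040bc0400a)]

theorem c10_0 : ck d10 x10 ths 49 J10_0 0 = true := by decide +kernel

set_option maxRecDepth 100000 in
/-- Justifications. -/
noncomputable def J11_0 : List Js := [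
.h (nat_lit 0x4000),
.h (nat_lit 0x4001),
.h (nat_lit 0x4002),
.h (nat_lit 0x300c),
.h (nat_lit 0x300d),
.h (nat_lit 0x300f),
.h (nat_lit 0x3010),
.h (nat_lit 0x3012),
.h (nat_lit 0x3013),
.h (nat_lit 0x3016),
.h (nat_lit 0x3018),
.h (nat_lit 0x301e),
.h (nat_lit 0x301f),
.h (nat_lit 0x3021),
.h (nat_lit 0x3022),
.h (nat_lit 0x3024),
.h (nat_lit 0x302f),
.h (nat_lit 0x3031),
.h (nat_lit 0x3033),
.h (nat_lit 0x3035),
.h (nat_lit 0x3037),
.h (nat_lit 0x3083),
.h (nat_lit 0x3089),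
.h (nat_lit 0x308b),
.h (nat_lit 0x308f),
.h (nat_lit 0x3093),
.h (nat_lit 0x3094),
.h (nat_lit 0x30a3),
.h (nat_lit 0x30a6),
.h (nat_lit 0x30a8),
.h (nat_lit 0x30a9),
.h (nat_lit 0x30c1),
.h (nat_lit 0x30d2),
.h (nat_lit 0x30e6),
.h (nat_lit 0x1036),
.h (nat_lit 0x1037),
.h (nat_lit 0x1045),
.h (nat_lit 0),
.c (nat_lit 2) (nat_lit 0x900004b),
.c (nat_lit 2) (nat_lit 0x809800012),
.c (nat_lit 10) (nat_lit 0x2c020040400d018130080700404d030168101040400a00017),
.c (nat_lit 6) (nat_lit 0xc0a006016020180181400809800046),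
.c (nat_lit 2) (nat_lit 0x80a00001c),
.c (nat_lit 2) (nat_lit 0x80a000032),
.c (nat_lit 2) (nat_lit 0xc0a00004e),
.c (nat_lit 4) (nat_lit 0x300b0100c0000b002018),
.c (nat_lit 11) (nat_lit 0x18040880403a0101e000010040a404022010220000000401804026),
.c (nat_lit 6) (nat_lit 0x80880603a01011010150000500202a),
.c (nat_lit 4) (nat_lit 0x30030200e8080a400008),
.c (nat_lit 22) (nat_lit 0xc0280402e0101e000010040a40402203012020058080ac060420101a00000804020040200302c0200500c0780205200000008020080180602a),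
.c (nat_lit 8) (nat_lit 0x70080d80001402056020210000180408804034),
.c (nat_lit 7) (nat_lit 0x1900c0c4000620c030040180100c000060)]

theorem c11_0 : ck d11 x11 ths 52 J11_0 0 = true := by decide +kernel

set_option maxRecDepth 100000 in
/-- Justifications. -/
noncomputable def J12_0 : List Js := [
.h (nat_lit 0x6000),
.h (nat_lit 0x6001),
.h (nat_lit 0x6002),
.h (nat_lit 0x500d),
.h (nat_lit 0x5010),
.h (nat_lit 0x5013),
.h (nat_lit 0x5018),
.h (nat_lit 0x5019),
.h (nat_lit 0x501f),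
.h (nat_lit 0x502f),
.h (nat_lit 0x5031),
.h (nat_lit 0x5033),
.h (nat_lit 0x5035),
.h (nat_lit 0x5037),
.h (nat_lit 0x5039),
.h (nat_lit 0x5083),
.h (nat_lit 0x508b),
.h (nat_lit 0x5094),
.h (nat_lit 0x50a9),
.h (nat_lit 0x1029),
.h (nat_lit 0x102a),
.h (nat_lit 0x102b),
.h (nat_lit 0x102c),
.h (nat_lit 0x1033),
.h (nat_lit 0),
.c (nat_lit 2) (nat_lit 0x600002f),
.c (nat_lit 50) (nat_lit 0x160400f0100480001c0804e08025050108300341402e08015030138100140c04a08021050088200740c05a04013010018180cc140660801f0300781006c0403200001030068180300804002024000020080980802806016040140280c8100640402a03019008088000040200a020090180b01002006024010130000000400c04008)]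

theorem c12_0 : ck d12 x12 ths 27 J12_0 0 = true := by decide +kernel

set_option maxRecDepth 100000 in
/-- Justifications. -/
noncomputable def J13_0 : List Js := [
.h (nat_lit 0x6000),
.h (nat_lit 0x6001),
.h (nat_lit 0x6002),
.h (nat_lit 0x500c),
.h (nat_lit 0x500d),
.h (nat_lit 0x5010),
.h (nat_lit 0x5012),
.h (nat_lit 0x5013),
.h (nat_lit 0x5018),
.h (nat_lit 0x5019),
.h (nat_lit 0x501e),
.h (nat_lit 0x501f),
.h (nat_lit 0x5023),
.h (nat_lit 0x5024),
.h (nat_lit 0x502f),
.h (nat_lit 0x5033),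
.h (nat_lit 0x5035),
.h (nat_lit 0x5039),
.h (nat_lit 0x504c),
.h (nat_lit 0x5086),
.h (nat_lit 0x508b),
.h (nat_lit 0x508f),
.h (nat_lit 0x5094),
.h (nat_lit 0x50a3),
.h (nat_lit 0x50a8),
.h (nat_lit 0x50d2),
.h (nat_lit 0x1029),
.h (nat_lit 0x102a),
.h (nat_lit 0x1033),
.h (nat_lit 0),
.c (nat_lit 4) (nat_lit 0x150000e00007602011),
.c (nat_lit 2) (nat_lit 0x80780000a),
.c (nat_lit 12) (nat_lit 0x60080b8000080201e020190100400c05402028020170000000407c04012),
.c (nat_lit 4) (nat_lit 0x10048000040403a00003),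
.c (nat_lit 13) (nat_lit 0x35020148180c40805a02007020158180cc0806e0201f000028100bc040520000d),
.c (nat_lit 6) (nat_lit 0x404e000170200a8080440404e00003),
.i (nat_lit 2) (nat_lit 0) [((nat_lit 2), (nat_lit 1)), ((nat_lit 387), (nat_lit 2)), ((nat_lit 1), (nat_lit 1)), ((nat_lit 4), (nat_lit 1)), ((nat_lit 648), (nat_lit 2)), ((nat_lit 10), (nat_lit 1))] (nat_lit 0x2302202102000c01200d),
.c (nat_lit 13) (nat_lit 0xc010020100000c092080130301f8300bc140520e02b060088100040400a0000d),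
.c (nat_lit 2) (nat_lit 0x80940002c),
.c (nat_lit 2) (nat_lit 0xc0940003e),
.c (nat_lit 31) (nat_lit 0x3c080260204f000048100d4100220a0370400f8180d40800a060290400881808c0803a02003020098080840000202028000020080d00803c0204c0000100803808038060100101a000000040100404e)]

theorem c13_0 : ck d13 x13 ths 41 J13_0 0 = true := by decide +kernel

set_option maxRecDepth 100000 in
/-- Justifications. -/
noncomputable def J14_0 : List Js := [
.h (nat_lit 0x4000),
.h (nat_lit 0x4001),
.h (nat_lit 0x4002),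
.h (nat_lit 0x300c),
.h (nat_lit 0x300d),
.h (nat_lit 0x300f),
.h (nat_lit 0x3010),
.h (nat_lit 0x3012),
.h (nat_lit 0x3013),
.h (nat_lit 0x3016),
.h (nat_lit 0x3018),
.h (nat_lit 0x3019),
.h (nat_lit 0x301e),
.h (nat_lit 0x301f),
.h (nat_lit 0x3021),
.h (nat_lit 0x3022),
.h (nat_lit 0x3024),
.h (nat_lit 0x302f),
.h (nat_lit 0x3031),
.h (nat_lit 0x3035),
.h (nat_lit 0x3037),
.h (nat_lit 0x3039),
.h (nat_lit 0x3083),
.h (nat_lit 0x3086),
.h (nat_lit 0x308b),
.h (nat_lit 0x308f),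
.h (nat_lit 0x3093),
.h (nat_lit 0x3094),
.h (nat_lit 0x309c),
.h (nat_lit 0x30a0),
.h (nat_lit 0x30a3),
.h (nat_lit 0x30a6),
.h (nat_lit 0x30a8),
.h (nat_lit 0x30a9),
.h (nat_lit 0x30c1),
.h (nat_lit 0x30d2),
.h (nat_lit 0x1036),
.h (nat_lit 0x1037),
.h (nat_lit 0x1045),
.h (nat_lit 0),
.c (nat_lit 4) (nat_lit 0x100e0001300009e0201d),
.c (nat_lit 2) (nat_lit 0x80a000012),
.c (nat_lit 8) (nat_lit 0xc0080100808c040500201f8181440400a00019),
.c (nat_lit 5) (nat_lit 0x60540300c0100c8080a00004a),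
.c (nat_lit 2) (nat_lit 0x80a80001e),
.c (nat_lit 2) (nat_lit 0x80a800034),
.c (nat_lit 11) (nat_lit 0x18040900404001021000010040ac04024010240000000401804026),
.c (nat_lit 6) (nat_lit 0x80900604001012010160000500202c),
.c (nat_lit 4) (nat_lit 0x300c0100c8000a40201a),
.c (nat_lit 3) (nat_lit 0x180d80402004022),
.c (nat_lit 25) (nat_lit 0x4800002008090080300400e0301e0081680000402010020290180a81005c08014030180100180c09008040030210081580000002008020060180981002c0a03a),
.c (nat_lit 8) (nat_lit 0x7000028040b404018000030081200806c06038),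
.c (nat_lit 7) (nat_lit 0x198100c80006412031060188180c400062)]

theorem c14_0 : ck d14 x14 ths 53 J14_0 0 = true := by decide +kernel

set_option maxRecDepth 100000 in
/-- Justifications. -/
noncomputable def J15_0 : List Js := [
.h (nat_lit 0x6000),
.h (nat_lit 0x6001),
.h (nat_lit 0x6002),
.h (nat_lit 0x500d),
.h (nat_lit 0x5010),
.h (nat_lit 0x5013),
.h (nat_lit 0x5018),
.h (nat_lit 0x5019),
.h (nat_lit 0x501f),
.h (nat_lit 0x502f),
.h (nat_lit 0x5031),
.h (nat_lit 0x5033),
.h (nat_lit 0x5035),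
.h (nat_lit 0x5037),
.h (nat_lit 0x5039),
.h (nat_lit 0x5083),
.h (nat_lit 0x508b),
.h (nat_lit 0x5094),
.h (nat_lit 0x50a9),
.h (nat_lit 0x1029),
.h (nat_lit 0x102b),
.h (nat_lit 0x102c),
.h (nat_lit 0x102d),
.h (nat_lit 0x1034),
.h (nat_lit 0),
.c (nat_lit 2) (nat_lit 0x600002f),
.c (nat_lit 50) (nat_lit 0x160400f0100480001c0805208025050108300341402e08015030148100140c04a08021050088200740c04e04013010018180cc140660801f0300781006c0403200001030068180300804002024000020080a00802806016040150280c8100640402c03019008088000040200a020090180981002006024010140000000400c04008)]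

theorem c15_0 : ck d15 x15 ths 27 J15_0 0 = true := by decide +kernel

set_option maxRecDepth 100000 in
/-- Justifications. -/
noncomputable def J16_0 : List Js := [
.h (nat_lit 0x6000),
.h (nat_lit 0x6001),
.h (nat_lit 0x6002),
.h (nat_lit 0x500c),
.h (nat_lit 0x500d),
.h (nat_lit 0x5010),
.h (nat_lit 0x5012),
.h (nat_lit 0x5013),
.h (nat_lit 0x5018),
.h (nat_lit 0x5019),
.h (nat_lit 0x501e),
.h (nat_lit 0x501f),
.h (nat_lit 0x5023),
.h (nat_lit 0x5024),
.h (nat_lit 0x502f),
.h (nat_lit 0x5033),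
.h (nat_lit 0x5035),
.h (nat_lit 0x5039),
.h (nat_lit 0x504c),
.h (nat_lit 0x5086),
.h (nat_lit 0x508b),
.h (nat_lit 0x508f),
.h (nat_lit 0x5094),
.h (nat_lit 0x50a3),
.h (nat_lit 0x50a8),
.h (nat_lit 0x50d2),
.h (nat_lit 0x102b),
.h (nat_lit 0x102c),
.h (nat_lit 0x1034),
.h (nat_lit 0),
.c (nat_lit 4) (nat_lit 0x150000e00007602011),
.c (nat_lit 2) (nat_lit 0x80780000a),
.c (nat_lit 12) (nat_lit 0x60080b8000080201e020190100400c05402028020170000000407c04012),
.c (nat_lit 4) (nat_lit 0x10048000040403a00003),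
.c (nat_lit 13) (nat_lit 0x35020148180c40805a02007020158180cc0806e0201f000028100bc040520000d),
.c (nat_lit 6) (nat_lit 0x404e000170200a8080440404e00003),
.i (nat_lit 2) (nat_lit 0) [((nat_lit 2), (nat_lit 1)), ((nat_lit 387), (nat_lit 2)), ((nat_lit 1), (nat_lit 1)), ((nat_lit 4), (nat_lit 1)), ((nat_lit 648), (nat_lit 2)), ((nat_lit 10), (nat_lit 1))] (nat_lit 0x2302202102000c01200d),
.c (nat_lit 13) (nat_lit 0xc010020100000c092080130301f8300bc140520e02b060088100040400a0000d),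
.c (nat_lit 2) (nat_lit 0x80940002c),
.c (nat_lit 2) (nat_lit 0xc0940003e),
.c (nat_lit 31) (nat_lit 0x3c080260204f000048100d4100220a0370400f8180d40800a060290400881808c0803a02003020098080840000202028000020080d00803c0204c0000100803808038060100101a000000040100404e)]

theorem c16_0 : ck d16 x16 ths 41 J16_0 0 = true := by decide +kernel

set_option maxRecDepth 100000 in
/-- Justifications. -/
noncomputable def J17_0 : List Js := [
.h (nat_lit 0x4000),
.h (nat_lit 0x4001),
.h (nat_lit 0x4002),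
.h (nat_lit 0x300c),
.h (nat_lit 0x300d),
.h (nat_lit 0x3010),
.h (nat_lit 0x3012),
.h (nat_lit 0x3013),
.h (nat_lit 0x3016),
.h (nat_lit 0x3018),
.h (nat_lit 0x3019),
.h (nat_lit 0x301e),
.h (nat_lit 0x301f),
.h (nat_lit 0x3021),
.h (nat_lit 0x3022),
.h (nat_lit 0x3023),
.h (nat_lit 0x3024),
.h (nat_lit 0x3025),
.h (nat_lit 0x302f),
.h (nat_lit 0x3033),
.h (nat_lit 0x3035),
.h (nat_lit 0x3039),
.h (nat_lit 0x3083),
.h (nat_lit 0x3086),
.h (nat_lit 0x308b),
.h (nat_lit 0x3093),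
.h (nat_lit 0x3094),
.h (nat_lit 0x3098),
.h (nat_lit 0x309a),
.h (nat_lit 0x309c),
.h (nat_lit 0x309f),
.h (nat_lit 0x30a3),
.h (nat_lit 0x30a8),
.h (nat_lit 0x30af),
.h (nat_lit 0x30d2),
.h (nat_lit 0x1037),
.h (nat_lit 0x1045),
.h (nat_lit 0),
.c (nat_lit 2) (nat_lit 0x900004b),
.c (nat_lit 2) (nat_lit 0x80980000a),
.c (nat_lit 13) (nat_lit 0x20200b0180680405c0403c010260080440809a060390202182006c0c02e00003),
.c (nat_lit 10) (nat_lit 0x2c0200c0400d0100f80c06c0404c020190181340401a00017),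
.c (nat_lit 3) (nat_lit 0x20148080a000046),
.c (nat_lit 2) (nat_lit 0x80a40001c),
.c (nat_lit 2) (nat_lit 0xc0a40004e),
.c (nat_lit 4) (nat_lit 0x20081100000002058),
.c (nat_lit 4) (nat_lit 0x10048000040404a00003),
.c (nat_lit 7) (nat_lit 0x1540c0760404101003810114040ae00005),
.c (nat_lit 6) (nat_lit 0x405e000190200b80804c0405e00003),
.i (nat_lit 2) (nat_lit 0) [((nat_lit 2), (nat_lit 1)), ((nat_lit 3), (nat_lit 1)), ((nat_lit 1), (nat_lit 1)), ((nat_lit 4), (nat_lit 1)), ((nat_lit 648), (nat_lit 2)), ((nat_lit 10), (nat_lit 1))] (nat_lit 0x3002f02e02d00f011010),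
.c (nat_lit 6) (nat_lit 0x802000020318101640400200005),
.c (nat_lit 2) (nat_lit 0x80c800018),
.c (nat_lit 2) (nat_lit 0x80c800034),
.c (nat_lit 2) (nat_lit 0xc0c800054),
.c (nat_lit 2) (nat_lit 0x80c800058),
.c (nat_lit 35) (nat_lit 0x3c0802a0206d000048101ac100620a013040138181ac0800a06031040338180ac0804a02003030168100540405200001020098100480406000004010350100980c0ac0206800001008038080480606601035000000040100406c)]

theorem c17_0 : ck d17 x17 ths 56 J17_0 0 = true := by decide +kernel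

set_option maxRecDepth 100000 in
/-- Justifications. -/
noncomputable def J18_0 : List Js := [
.h (nat_lit 0x4000),
.h (nat_lit 0x4001),
.h (nat_lit 0x4002),
.h (nat_lit 0x300c),
.h (nat_lit 0x300d),
.h (nat_lit 0x3010),
.h (nat_lit 0x3012),
.h (nat_lit 0x3013),
.h (nat_lit 0x3016),
.h (nat_lit 0x3018),
.h (nat_lit 0x3019),
.h (nat_lit 0x301e),
.h (nat_lit 0x301f),
.h (nat_lit 0x3021),
.h (nat_lit 0x3022),
.h (nat_lit 0x3023),
.h (nat_lit 0x3024),
.h (nat_lit 0x3025),
.h (nat_lit 0x302f),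
.h (nat_lit 0x3033),
.h (nat_lit 0x3035),
.h (nat_lit 0x3039),
.h (nat_lit 0x3083),
.h (nat_lit 0x3086),
.h (nat_lit 0x308b),
.h (nat_lit 0x3093),
.h (nat_lit 0x3094),
.h (nat_lit 0x309c),
.h (nat_lit 0x30a3),
.h (nat_lit 0x30a8),
.h (nat_lit 0x30af),
.h (nat_lit 0x30d2),
.h (nat_lit 0x1037),
.h (nat_lit 0x1045),
.h (nat_lit 0),
.c (nat_lit 4) (nat_lit 0x100d0001080008a0201b),
.c (nat_lit 2) (nat_lit 0x808c0000a),
.c (nat_lit 9) (nat_lit 0x20200b0080b80408c02011020238100f40c02e00003),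
.c (nat_lit 8) (nat_lit 0xb0080300c08c04033020238100e40401a00017),
.c (nat_lit 3) (nat_lit 0x201300809400040),
.c (nat_lit 2) (nat_lit 0x80980001c),
.c (nat_lit 4) (nat_lit 0x20080f80000002048),
.c (nat_lit 4) (nat_lit 0x10048000040404a00003),
.c (nat_lit 7) (nat_lit 0x13c0c06e0403b010038100fc040a200005),
.c (nat_lit 6) (nat_lit 0x405e000190200b80804c0405e00003),
.i (nat_lit 2) (nat_lit 0) [((nat_lit 2), (nat_lit 1)), ((nat_lit 3), (nat_lit 1)), ((nat_lit 1), (nat_lit 1)), ((nat_lit 4), (nat_lit 1)), ((nat_lit 648), (nat_lit 2)), ((nat_lit 10), (nat_lit 1))] (nat_lit 0x2c02b02a02900f011010),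
.c (nat_lit 6) (nat_lit 0x8020000202d8101240400200005),
.c (nat_lit 2) (nat_lit 0x80b800018),
.c (nat_lit 2) (nat_lit 0x80b800034),
.c (nat_lit 2) (nat_lit 0x80b800048),
.c (nat_lit 2) (nat_lit 0xc0b80004e),
.c (nat_lit 35) (nat_lit 0x3c0802a0206300004810194100620a013040138181940800a060310402f8180ac0804a02003030168100540405200001020098100480406000004010320100980c0a00206000001008038080480605e010320000000401004062)]

theorem c18_0 : ck d18 x18 ths 52 J18_0 0 = true := by decide +kernel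

set_option maxRecDepth 100000 in
/-- Justifications. -/
noncomputable def J19_0 : List Js := [
.h (nat_lit 0x4000),
.h (nat_lit 0x4001),
.h (nat_lit 0x4002),
.h (nat_lit 0x300c),
.h (nat_lit 0x300d),
.h (nat_lit 0x3010),
.h (nat_lit 0x3012),
.h (nat_lit 0x3013),
.h (nat_lit 0x3015),
.h (nat_lit 0x3016),
.h (nat_lit 0x3018),
.h (nat_lit 0x3019),
.h (nat_lit 0x301e),
.h (nat_lit 0x301f),
.h (nat_lit 0x3021),
.h (nat_lit 0x3022),
.h (nat_lit 0x3023),
.h (nat_lit 0x3024),
.h (nat_lit 0x3025),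
.h (nat_lit 0x302f),
.h (nat_lit 0x3033),
.h (nat_lit 0x3035),
.h (nat_lit 0x3039),
.h (nat_lit 0x3083),
.h (nat_lit 0x3084),
.h (nat_lit 0x3086),
.h (nat_lit 0x308b),
.h (nat_lit 0x3093),
.h (nat_lit 0x3094),
.h (nat_lit 0x3098),
.h (nat_lit 0x309a),
.h (nat_lit 0x309c),
.h (nat_lit 0x309f),
.h (nat_lit 0x30a3),
.h (nat_lit 0x30a8),
.h (nat_lit 0x30af),
.h (nat_lit 0x30d2),
.h (nat_lit 0x1037),
.h (nat_lit 0x1045),
.h (nat_lit 0),
.c (nat_lit 5) (nat_lit 0x460101e0001300009e02011),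
.c (nat_lit 2) (nat_lit 0x80a00000a),
.c (nat_lit 15) (nat_lit 0x8080300601c020080181181007804050010090081440c08204033010188200740c03200003),
.c (nat_lit 12) (nat_lit 0xc00803010038040420301d010150080a004036030288181540401a00019),
.c (nat_lit 3) (nat_lit 0x20158080a80004a),
.c (nat_lit 2) (nat_lit 0x80ac0001e),
.c (nat_lit 3) (nat_lit 0x18158080a800052),
.c (nat_lit 4) (nat_lit 0x2008120000000205c),
.c (nat_lit 4) (nat_lit 0x10048000040404e00003),
.c (nat_lit 7) (nat_lit 0x1640c07e0404501003810124040b600005),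
.c (nat_lit 6) (nat_lit 0x40660001b0200c8080540406600003),
.i (nat_lit 2) (nat_lit 0) [((nat_lit 2), (nat_lit 1)), ((nat_lit 3), (nat_lit 1)), ((nat_lit 1), (nat_lit 1)), ((nat_lit 4), (nat_lit 1)), ((nat_lit 648), (nat_lit 2)), ((nat_lit 10), (nat_lit 1))] (nat_lit 0x3203103002f010012011),
.c (nat_lit 6) (nat_lit 0x802000020338101740400200005),
.c (nat_lit 2) (nat_lit 0x80d00001a),
.c (nat_lit 2) (nat_lit 0x80d000038),
.c (nat_lit 2) (nat_lit 0xc0d000058),
.c (nat_lit 2) (nat_lit 0x80d00005c),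
.c (nat_lit 35) (nat_lit 0x3c0802e02071000048101bc1006a0a015040148181bc0800a06035040358180b40804e020030301781005c04056000010200a8100500406800004010370100a00c0b40206c000010080380804c0606a010370000000401004070)]

theorem c19_0 : ck d19 x19 ths 58 J19_0 0 = true := by decide +kernel

set_option maxRecDepth 100000 in
/-- Justifications. -/
noncomputable def J20_0 : List Js := [
.h (nat_lit 0x4000),
.h (nat_lit 0x4001),
.h (nat_lit 0x4002),
.h (nat_lit 0x300c),
.h (nat_lit 0x300d),
.h (nat_lit 0x3010),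
.h (nat_lit 0x3012),
.h (nat_lit 0x3013),
.h (nat_lit 0x3015),
.h (nat_lit 0x3016),
.h (nat_lit 0x3018),
.h (nat_lit 0x3019),
.h (nat_lit 0x301e),
.h (nat_lit 0x301f),
.h (nat_lit 0x3021),
.h (nat_lit 0x3022),
.h (nat_lit 0x3023),
.h (nat_lit 0x3024),
.h (nat_lit 0x3025),
.h (nat_lit 0x302f),
.h (nat_lit 0x3033),
.h (nat_lit 0x3035),
.h (nat_lit 0x3039),
.h (nat_lit 0x3083),
.h (nat_lit 0x3084),
.h (nat_lit 0x3086),
.h (nat_lit 0x308b),
.h (nat_lit 0x3093),
.h (nat_lit 0x3094),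
.h (nat_lit 0x309c),
.h (nat_lit 0x30a3),
.h (nat_lit 0x30a8),
.h (nat_lit 0x30af),
.h (nat_lit 0x30d2),
.h (nat_lit 0x1037),
.h (nat_lit 0x1045),
.h (nat_lit 0),
.c (nat_lit 6) (nat_lit 0x800201c000230001240803a02011),
.c (nat_lit 2) (nat_lit 0x80940000a),
.c (nat_lit 11) (nat_lit 0x8080300401003020010128040240204b020198080c40c03200003),
.c (nat_lit 10) (nat_lit 0x300200c030270181280806e0404b020278100f40401a00019),
.c (nat_lit 3) (nat_lit 0x201400809c00044),
.c (nat_lit 2) (nat_lit 0x80a00001e),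
.c (nat_lit 2) (nat_lit 0x809c0004c),
.c (nat_lit 4) (nat_lit 0x20081080000002056),
.c (nat_lit 4) (nat_lit 0x10048000040404e00003),
.c (nat_lit 7) (nat_lit 0x14c0c0760403f0100381010c040aa00005),
.c (nat_lit 6) (nat_lit 0x40660001b0200c8080540406600003),
.i (nat_lit 2) (nat_lit 0) [((nat_lit 2), (nat_lit 1)), ((nat_lit 3), (nat_lit 1)), ((nat_lit 1), (nat_lit 1)), ((nat_lit 4), (nat_lit 1)), ((nat_lit 648), (nat_lit 2)), ((nat_lit 10), (nat_lit 1))] (nat_lit 0x2f02e02d02c010012011),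
.c (nat_lit 6) (nat_lit 0x8020000203081015c0400200005),
.c (nat_lit 2) (nat_lit 0x80c40001a),
.c (nat_lit 2) (nat_lit 0x80c400038),
.c (nat_lit 2) (nat_lit 0xc0c400052),
.c (nat_lit 2) (nat_lit 0x80c400056),
.c (nat_lit 35) (nat_lit 0x3c0802e0206b000048101a41006a0a015040148181a40800a06035040328180b40804e020030301781005c04056000010200a8100500406800004010340100a00c0a802066000010080380804c0606401034000000040100406a)]

theorem c20_0 : ck d20 x20 ths 55 J20_0 0 = true := by decide +kernel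

set_option maxRecDepth 100000 in
/-- Justifications. -/
noncomputable def J21_0 : List Js := [
.h (nat_lit 0x2000),
.h (nat_lit 0x2001),
.h (nat_lit 0x2002),
.h (nat_lit 0x100c),
.h (nat_lit 0x100d),
.h (nat_lit 0x100f),
.h (nat_lit 0x1010),
.h (nat_lit 0x1012),
.h (nat_lit 0x1013),
.h (nat_lit 0x1015),
.h (nat_lit 0x1019),
.h (nat_lit 0x101b),
.h (nat_lit 0x101c),
.h (nat_lit 0x101e),
.h (nat_lit 0x101f),
.h (nat_lit 0x1021),
.h (nat_lit 0x1022),
.h (nat_lit 0x1023),
.h (nat_lit 0x102f),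
.h (nat_lit 0x1033),
.h (nat_lit 0x1035),
.h (nat_lit 0x1037),
.h (nat_lit 0x1039),
.h (nat_lit 0x1080),
.h (nat_lit 0x1082),
.h (nat_lit 0x1084),
.h (nat_lit 0x1085),
.h (nat_lit 0x1086),
.h (nat_lit 0x1089),
.h (nat_lit 0x108d),
.h (nat_lit 0x1093),
.h (nat_lit 0x1094),
.h (nat_lit 0x109d),
.h (nat_lit 0x109f),
.h (nat_lit 0x10a5),
.h (nat_lit 0x10a6),
.h (nat_lit 0x10ab),
.h (nat_lit 0x10ae),
.h (nat_lit 0x10bb),
.h (nat_lit 0x10e1),
.h (nat_lit 0x10e2),
.h (nat_lit 0x10e4),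
.h (nat_lit 0x10e5),
.h (nat_lit 0x10f6),
.h (nat_lit 0),
.c (nat_lit 2) (nat_lit 0xac00059),
.c (nat_lit 2) (nat_lit 0x80b400014),
.c (nat_lit 14) (nat_lit 0x2c020020400f0200681409c0605a0200e01016c10086060370202282807c0400600017),
.c (nat_lit 12) (nat_lit 0xb0080101003c0805e0302d010080080b60605f0301c8101440400a00017),
.c (nat_lit 2) (nat_lit 0x80c00003c),
.c (nat_lit 2) (nat_lit 0x80bc0003e),
.c (nat_lit 2) (nat_lit 0x80c000046),
.c (nat_lit 7) (nat_lit 0x181800c0bc06016040300201780c0b400054),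
.c (nat_lit 3) (nat_lit 0x181800c0bc0005c),
.c (nat_lit 11) (nat_lit 0x18040c80404801018000010040d004026010320000080402004024),
.c (nat_lit 6) (nat_lit 0x80c806048010130101980005802032),
.c (nat_lit 4) (nat_lit 0x300b0100e8000d402018),
.c (nat_lit 9) (nat_lit 0x803a03003020128140900802e020340000200401804028),
.c (nat_lit 23) (nat_lit 0x18048040c40402e01018000010040d0040260103200000804020040240300b0180480c0140802e030170081a00000002008020060180a8100300a034),
.c (nat_lit 9) (nat_lit 0xe000050081880802c0205200003008128080c806040),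
.c (nat_lit 7) (nat_lit 0x1d8100e800074120390601c8180e400072)]

theorem c21_0 : ck d21 x21 ths 61 J21_0 0 = true := by decide +kernel

set_option maxRecDepth 100000 in
/-- Justifications. -/
noncomputable def J22_0 : List Js := [
.h (nat_lit 0x4000),
.h (nat_lit 0x4001),
.h (nat_lit 0x4002),
.h (nat_lit 0x300d),
.h (nat_lit 0x3010),
.h (nat_lit 0x3013),
.h (nat_lit 0x3015),
.h (nat_lit 0x3016),
.h (nat_lit 0x301c),
.h (nat_lit 0x302f),
.h (nat_lit 0x3031),
.h (nat_lit 0x3033),
.h (nat_lit 0x3035),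
.h (nat_lit 0x3037),
.h (nat_lit 0x3039),
.h (nat_lit 0x3080),
.h (nat_lit 0x3082),
.h (nat_lit 0x3084),
.h (nat_lit 0x1031),
.h (nat_lit 0x1032),
.h (nat_lit 0x1033),
.h (nat_lit 0x1034),
.h (nat_lit 0x1035),
.h (nat_lit 0x103c),
.h (nat_lit 0),
.c (nat_lit 2) (nat_lit 0x600002f),
.c (nat_lit 47) (nat_lit 0x2c0805a02009000038100ac1003e0a021070198300a41402e08015030158100140c03e08021050068200740c01e0401301001818084100220602d0200d8080640000206033040198100800403c00004010150100500c02c0800c02012008098000040200a02009018038100440601e010150000000400c04008)]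

theorem c22_0 : ck d22 x22 ths 27 J22_0 0 = true := by decide +kernel

set_option maxRecDepth 100000 in
/-- Justifications. -/
noncomputable def J23_0 : List Js := [
.h (nat_lit 0x4000),
.h (nat_lit 0x4001),
.h (nat_lit 0x4002),
.h (nat_lit 0x300c),
.h (nat_lit 0x300d),
.h (nat_lit 0x300f),
.h (nat_lit 0x3010),
.h (nat_lit 0x3013),
.h (nat_lit 0x3015),
.h (nat_lit 0x3016),
.h (nat_lit 0x301b),
.h (nat_lit 0x301c),
.h (nat_lit 0x3023),
.h (nat_lit 0x3024),
.h (nat_lit 0x302f),
.h (nat_lit 0x3031),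
.h (nat_lit 0x3035),
.h (nat_lit 0x3037),
.h (nat_lit 0x3056),
.h (nat_lit 0x3080),
.h (nat_lit 0x3084),
.h (nat_lit 0x3085),
.h (nat_lit 0x308d),
.h (nat_lit 0x3095),
.h (nat_lit 0x30ab),
.h (nat_lit 0x30ae),
.h (nat_lit 0x30e2),
.h (nat_lit 0x1033),
.h (nat_lit 0x1034),
.h (nat_lit 0x103c),
.h (nat_lit 0),
.c (nat_lit 4) (nat_lit 0x160000e80007a02011),
.c (nat_lit 2) (nat_lit 0x807c0000e),
.c (nat_lit 12) (nat_lit 0x50080b8000080201e0201a0100400c05802026020170000080408004012),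
.c (nat_lit 5) (nat_lit 0x90200e80800c0404200001),
.c (nat_lit 13) (nat_lit 0x39020138180c40806602007020168180d40806e0201f000028100bc0404e0000b),
.c (nat_lit 6) (nat_lit 0x4056000170200a8080440405600001),
.i (nat_lit 2) (nat_lit 0) [((nat_lit 1), (nat_lit 1)), ((nat_lit 323), (nat_lit 2)), ((nat_lit 2), (nat_lit 1)), ((nat_lit 4), (nat_lit 1)), ((nat_lit 583), (nat_lit 2)), ((nat_lit 9), (nat_lit 1))] (nat_lit 0x2402302202100d01200c),
.c (nat_lit 13) (nat_lit 0xa010020100080c09608013030208300bc1404e0e02d0600881000c0400a0000b),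
.c (nat_lit 2) (nat_lit 0x809800016),
.c (nat_lit 2) (nat_lit 0xc09800040),
.c (nat_lit 38) (nat_lit 0xa20404f0100680002408072080270500882007c0c07204005030138200a40c0260401d010018180440804602021000008100400404c000040101c0100780c06c06010020130080c000004020500200e01804810050060260101c000000040100400c)]

theorem c23_0 : ck d23 x23 ths 42 J23_0 0 = true := by decide +kernel

set_option maxRecDepth 100000 in
/-- Justifications. -/
noncomputable def J24_0 : List Js := [
.h (nat_lit 0x2000),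
.h (nat_lit 0x2001),
.h (nat_lit 0x2002),
.h (nat_lit 0x100c),
.h (nat_lit 0x100d),
.h (nat_lit 0x100f),
.h (nat_lit 0x1010),
.h (nat_lit 0x1012),
.h (nat_lit 0x1013),
.h (nat_lit 0x1015),
.h (nat_lit 0x1016),
.h (nat_lit 0x1019),
.h (nat_lit 0x101b),
.h (nat_lit 0x101c),
.h (nat_lit 0x101e),
.h (nat_lit 0x101f),
.h (nat_lit 0x1021),
.h (nat_lit 0x1022),
.h (nat_lit 0x1023),
.h (nat_lit 0x102f),
.h (nat_lit 0x1031),
.h (nat_lit 0x1033),
.h (nat_lit 0x1035),
.h (nat_lit 0x1039),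
.h (nat_lit 0x1080),
.h (nat_lit 0x1082),
.h (nat_lit 0x1084),
.h (nat_lit 0x108d),
.h (nat_lit 0x1093),
.h (nat_lit 0x1094),
.h (nat_lit 0x1095),
.h (nat_lit 0x109d),
.h (nat_lit 0x10a5),
.h (nat_lit 0x10a6),
.h (nat_lit 0x10ab),
.h (nat_lit 0x10ae),
.h (nat_lit 0x10bb),
.h (nat_lit 0x10e2),
.h (nat_lit 0x10e4),
.h (nat_lit 0x10e5),
.h (nat_lit 0x10f6),
.h (nat_lit 0),
.c (nat_lit 6) (nat_lit 0x4038040200002800014c080420201d),
.c (nat_lit 2) (nat_lit 0x80a800016),
.c (nat_lit 8) (nat_lit 0xc00800808080040540200f8181540400600019),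
.c (nat_lit 8) (nat_lit 0xc0080100809404054020118181540400a00019),
.c (nat_lit 2) (nat_lit 0x80b400038),
.c (nat_lit 2) (nat_lit 0x80b00003a),
.c (nat_lit 2) (nat_lit 0x80b400042),
.c (nat_lit 5) (nat_lit 0x605a0302c0180600c0a80004e),
.c (nat_lit 4) (nat_lit 0x300c0100d8000ac0201a),
.c (nat_lit 11) (nat_lit 0x18040bc0404401019000010040c40402a0102f0000080402004026),
.c (nat_lit 6) (nat_lit 0x80bc06044010150101800005c02034),
.c (nat_lit 0) (nat_lit 0),
.c (nat_lit 26) (nat_lit 0xc0300404c000230081780807c00004010140100a80c094060120102e00000804020040140301a0201000c06c04006030230201100c0600206200000008020080180602c),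
.c (nat_lit 9) (nat_lit 0xe01026000028040b80403c010260000180408c0405e),
.c (nat_lit 7) (nat_lit 0x1b80c0d80006c0c0350401a8100d40006a)]

theorem c24_0 : ck d24 x24 ths 57 J24_0 0 = true := by decide +kernel

set_option maxRecDepth 100000 in
/-- Justifications. -/
noncomputable def J25_0 : List Js := [
.h (nat_lit 0x4000),
.h (nat_lit 0x4001),
.h (nat_lit 0x4002),
.h (nat_lit 0x300d),
.h (nat_lit 0x3010),
.h (nat_lit 0x3013),
.h (nat_lit 0x3015),
.h (nat_lit 0x3016),
.h (nat_lit 0x301c),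
.h (nat_lit 0x302f),
.h (nat_lit 0x3031),
.h (nat_lit 0x3033),
.h (nat_lit 0x3035),
.h (nat_lit 0x3037),
.h (nat_lit 0x3039),
.h (nat_lit 0x3080),
.h (nat_lit 0x3082),
.h (nat_lit 0x3084),
.h (nat_lit 0x102b),
.h (nat_lit 0x102e),
.h (nat_lit 0x102f),
.h (nat_lit 0x1030),
.h (nat_lit 0x1031),
.h (nat_lit 0x1038),
.h (nat_lit 0),
.c (nat_lit 2) (nat_lit 0x600002f),
.c (nat_lit 47) (nat_lit 0x2c0804a02009000038100b41003e0a021070198300ac1402e08015030168100140c03e08021050068200740c01e040130100181808410022060250200d8080640000206033040198100800403c00004010160100500c02c0800c020130080a0000040200a02009018038100440601e010160000000400c04008)]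

theorem c25_0 : ck d25 x25 ths 27 J25_0 0 = true := by decide +kernel

set_option maxRecDepth 100000 in
/-- Justifications. -/
noncomputable def J26_0 : List Js := [
.h (nat_lit 0x4000),
.h (nat_lit 0x4001),
.h (nat_lit 0x4002),
.h (nat_lit 0x300c),
.h (nat_lit 0x300d),
.h (nat_lit 0x300f),
.h (nat_lit 0x3010),
.h (nat_lit 0x3013),
.h (nat_lit 0x3015),
.h (nat_lit 0x3016),
.h (nat_lit 0x301b),
.h (nat_lit 0x301c),
.h (nat_lit 0x3023),
.h (nat_lit 0x3024),
.h (nat_lit 0x302f),
.h (nat_lit 0x3031),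
.h (nat_lit 0x3035),
.h (nat_lit 0x3037),
.h (nat_lit 0x3056),
.h (nat_lit 0x3080),
.h (nat_lit 0x3084),
.h (nat_lit 0x3085),
.h (nat_lit 0x308d),
.h (nat_lit 0x3095),
.h (nat_lit 0x30ab),
.h (nat_lit 0x30ae),
.h (nat_lit 0x30e2),
.h (nat_lit 0x1030),
.h (nat_lit 0x1031),
.h (nat_lit 0x1038),
.h (nat_lit 0),
.c (nat_lit 4) (nat_lit 0x160000e80007a02011),
.c (nat_lit 2) (nat_lit 0x807c0000e),
.c (nat_lit 12) (nat_lit 0x50080b8000080201e0201a0100400c05802026020170000080408004012),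
.c (nat_lit 5) (nat_lit 0x90200e80800c0404200001),
.c (nat_lit 13) (nat_lit 0x39020138180c40806602007020168180d40806e0201f000028100bc0404e0000b),
.c (nat_lit 6) (nat_lit 0x4056000170200a8080440405600001),
.i (nat_lit 2) (nat_lit 0) [((nat_lit 1), (nat_lit 1)), ((nat_lit 323), (nat_lit 2)), ((nat_lit 2), (nat_lit 1)), ((nat_lit 4), (nat_lit 1)), ((nat_lit 583), (nat_lit 2)), ((nat_lit 9), (nat_lit 1))] (nat_lit 0x2402302202100d01200c),
.c (nat_lit 13) (nat_lit 0xa010020100080c09608013030208300bc1404e0e02d0600881000c0400a0000b),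
.c (nat_lit 2) (nat_lit 0x809800016),
.c (nat_lit 2) (nat_lit 0xc09800040),
.c (nat_lit 38) (nat_lit 0xa20404f0100680002408072080270500882007c0c07204005030138200a40c0260401d010018180440804602021000008100400404c000040101c0100780c06c06010020130080c000004020500200e01804810050060260101c000000040100400c)]

theorem c26_0 : ck d26 x26 ths 42 J26_0 0 = true := by decide +kernel

set_option maxRecDepth 100000 in
/-- Justifications. -/
noncomputable def J27_0 : List Js := [
.h (nat_lit 0x2000),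
.h (nat_lit 0x2001),
.h (nat_lit 0x2002),
.h (nat_lit 0x100c),
.h (nat_lit 0x100d),
.h (nat_lit 0x1010),
.h (nat_lit 0x1013),
.h (nat_lit 0x1015),
.h (nat_lit 0x1016),
.h (nat_lit 0x1019),
.h (nat_lit 0x101b),
.h (nat_lit 0x101c),
.h (nat_lit 0x101e),
.h (nat_lit 0x101f),
.h (nat_lit 0x1021),
.h (nat_lit 0x1022),
.h (nat_lit 0x1023),
.h (nat_lit 0x1024),
.h (nat_lit 0x1025),
.h (nat_lit 0x102f),
.h (nat_lit 0x1031),
.h (nat_lit 0x1035),
.h (nat_lit 0x1037),
.h (nat_lit 0x1080),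
.h (nat_lit 0x1084),
.h (nat_lit 0x1085),
.h (nat_lit 0x108f),
.h (nat_lit 0x1090),
.h (nat_lit 0x109d),
.h (nat_lit 0x10a0),
.h (nat_lit 0x10a1),
.h (nat_lit 0x10a6),
.h (nat_lit 0x10ab),
.h (nat_lit 0x10bd),
.h (nat_lit 0x10e2),
.h (nat_lit 0x10e5),
.h (nat_lit 0x10f6),
.h (nat_lit 0),
.c (nat_lit 2) (nat_lit 0x900004b),
.c (nat_lit 2) (nat_lit 0x80980000c),
.c (nat_lit 17) (nat_lit 0x200a01806010038020320201d0180f00409802013020268200dc0c06a040430500e8200640c02a00001),
.c (nat_lit 5) (nat_lit 0x20102800806c080a200003),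
.c (nat_lit 5) (nat_lit 0x40102800807c080a200005),
.c (nat_lit 2) (nat_lit 0x80a80003e),
.c (nat_lit 4) (nat_lit 0x402a0201480c0a000046),
.c (nat_lit 3) (nat_lit 0x181500c0a40004e),
.c (nat_lit 4) (nat_lit 0x2008110000040205a),
.c (nat_lit 5) (nat_lit 0x90201380800c0405600001),
.c (nat_lit 7) (nat_lit 0x1640c0720404101003810114040ae00005),
.c (nat_lit 6) (nat_lit 0x4066000170200a80803c0406600001),
.i (nat_lit 2) (nat_lit 0) [((nat_lit 1), (nat_lit 1)), ((nat_lit 3), (nat_lit 1)), ((nat_lit 2), (nat_lit 1)), ((nat_lit 4), (nat_lit 1)), ((nat_lit 583), (nat_lit 2)), ((nat_lit 9), (nat_lit 1))] (nat_lit 0x3103002f02e011012010),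
.c (nat_lit 6) (nat_lit 0x8020020203281016c0400600005),
.c (nat_lit 2) (nat_lit 0x80cc00016),
.c (nat_lit 2) (nat_lit 0xc0cc00058),
.c (nat_lit 2) (nat_lit 0x80cc0005a),
.c (nat_lit 33) (nat_lit 0x6d01005800024080d60802f0502b8200a40c0d6040050301782003c0c02204027010018181a40805a0202b000008080b8000080206a02014018038000040206c02013018040100600602e01035000000040100400a)]

theorem c27_0 : ck d27 x27 ths 56 J27_0 0 = true := by decide +kernel

set_option maxRecDepth 100000 in
/-- Justifications. -/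
noncomputable def J28_0 : List Js := [
.h (nat_lit 0x2000),
.h (nat_lit 0x2001),
.h (nat_lit 0x2002),
.h (nat_lit 0x100c),
.h (nat_lit 0x100d),
.h (nat_lit 0x1010),
.h (nat_lit 0x1013),
.h (nat_lit 0x1015),
.h (nat_lit 0x1016),
.h (nat_lit 0x1019),
.h (nat_lit 0x101b),
.h (nat_lit 0x101c),
.h (nat_lit 0x101e),
.h (nat_lit 0x101f),
.h (nat_lit 0x1021),
.h (nat_lit 0x1022),
.h (nat_lit 0x1023),
.h (nat_lit 0x1024),
.h (nat_lit 0x1025),
.h (nat_lit 0x102f),
.h (nat_lit 0x1031),
.h (nat_lit 0x1035),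
.h (nat_lit 0x1037),
.h (nat_lit 0x1080),
.h (nat_lit 0x1084),
.h (nat_lit 0x1085),
.h (nat_lit 0x109d),
.h (nat_lit 0x10a6),
.h (nat_lit 0x10ab),
.h (nat_lit 0x10bd),
.h (nat_lit 0x10e2),
.h (nat_lit 0x10e5),
.h (nat_lit 0x10f6),
.h (nat_lit 0),
.c (nat_lit 6) (nat_lit 0x40300401c0002000010c0803a02019),
.c (nat_lit 2) (nat_lit 0x80880000c),
.c (nat_lit 9) (nat_lit 0x200a0080c80408802013020228100ec0c02a00001),
.c (nat_lit 5) (nat_lit 0x20102400806c0809200003),
.c (nat_lit 5) (nat_lit 0x40102400807c0809200005),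
.c (nat_lit 2) (nat_lit 0x809800036),
.c (nat_lit 4) (nat_lit 0x40260201280c0900003e),
.c (nat_lit 4) (nat_lit 0x20080f00000402046),
.c (nat_lit 5) (nat_lit 0x90201380800c0405600001),
.c (nat_lit 7) (nat_lit 0x1440c06a04039010038100f40409e00005),
.c (nat_lit 6) (nat_lit 0x4066000170200a80803c0406600001),
.i (nat_lit 2) (nat_lit 0) [((nat_lit 1), (nat_lit 1)), ((nat_lit 3), (nat_lit 1)), ((nat_lit 2), (nat_lit 1)), ((nat_lit 4), (nat_lit 1)), ((nat_lit 583), (nat_lit 2)), ((nat_lit 9), (nat_lit 1))] (nat_lit 0x2c02b02a029011012010),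
.c (nat_lit 6) (nat_lit 0x8020020202d81011c0400600005),
.c (nat_lit 2) (nat_lit 0x80b800016),
.c (nat_lit 2) (nat_lit 0x80b800046),
.c (nat_lit 2) (nat_lit 0xc0b800050),
.c (nat_lit 33) (nat_lit 0x6101005800024080c60802f050278200a40c0c6040050301782003c0c022040270100181817c0805a0202b000008080b8000080206202014018038000040206002013018040100600602e01031000000040100400a)]

theorem c28_0 : ck d28 x28 ths 51 J28_0 0 = true := by decide +kernel

set_option maxRecDepth 100000 in
/-- Justifications. -/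
noncomputable def J29_0 : List Js := [
.h (nat_lit 0x2000),
.h (nat_lit 0x2001),
.h (nat_lit 0x2002),
.h (nat_lit 0x100c),
.h (nat_lit 0x100d),
.h (nat_lit 0x1010),
.h (nat_lit 0x1013),
.h (nat_lit 0x1015),
.h (nat_lit 0x1016),
.h (nat_lit 0x1018),
.h (nat_lit 0x1019),
.h (nat_lit 0x101b),
.h (nat_lit 0x101c),
.h (nat_lit 0x101e),
.h (nat_lit 0x101f),
.h (nat_lit 0x1021),
.h (nat_lit 0x1022),
.h (nat_lit 0x1023),
.h (nat_lit 0x1024),
.h (nat_lit 0x1025),
.h (nat_lit 0x102f),
.h (nat_lit 0x1031),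
.h (nat_lit 0x1035),
.h (nat_lit 0x1037),
.h (nat_lit 0x1080),
.h (nat_lit 0x1083),
.h (nat_lit 0x1084),
.h (nat_lit 0x1085),
.h (nat_lit 0x108f),
.h (nat_lit 0x1090),
.h (nat_lit 0x109d),
.h (nat_lit 0x10a0),
.h (nat_lit 0x10a1),
.h (nat_lit 0x10a6),
.h (nat_lit 0x10ab),
.h (nat_lit 0x10bd),
.h (nat_lit 0x10e2),
.h (nat_lit 0x10e5),
.h (nat_lit 0x10f6),
.h (nat_lit 0),
.c (nat_lit 6) (nat_lit 0x8c020380201d0001300009e02013),
.c (nat_lit 2) (nat_lit 0x80a00000c),
.c (nat_lit 19) (nat_lit 0x802c0601a0400f0100480c08c080380501d0101400402802051040208180fc0806e020330500f82006c0c02e00001),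
.c (nat_lit 5) (nat_lit 0x20102a008074080aa00003),
.c (nat_lit 5) (nat_lit 0x40102a008084080aa00005),
.c (nat_lit 2) (nat_lit 0x80b000042),
.c (nat_lit 4) (nat_lit 0x402c0201580c0a80004a),
.c (nat_lit 4) (nat_lit 0x302c018158080a800052),
.c (nat_lit 4) (nat_lit 0x2008120000040205e),
.c (nat_lit 5) (nat_lit 0x90201480800c0405a00001),
.c (nat_lit 7) (nat_lit 0x1740c07a0404501003810124040b600005),
.c (nat_lit 6) (nat_lit 0x406e000190200b80803c0406e00001),
.i (nat_lit 2) (nat_lit 0) [((nat_lit 1), (nat_lit 1)), ((nat_lit 3), (nat_lit 1)), ((nat_lit 2), (nat_lit 1)), ((nat_lit 4), (nat_lit 1)), ((nat_lit 583), (nat_lit 2)), ((nat_lit 9), (nat_lit 1))] (nat_lit 0x33032031030012013011),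
.c (nat_lit 6) (nat_lit 0x8020020203481017c0400600005),
.c (nat_lit 2) (nat_lit 0x80d400018),
.c (nat_lit 2) (nat_lit 0xc0d40005c),
.c (nat_lit 2) (nat_lit 0x80d40005e),
.c (nat_lit 33) (nat_lit 0x7101005800024080de080310502d8200ac0c0de040050301882003c0c02204029010018181b40805e0202d000008080c0000080206e02015018038000040207002014018040100680603001037000000040100400a)]

theorem c29_0 : ck d29 x29 ths 58 J29_0 0 = true := by decide +kernel

set_option maxRecDepth 100000 in
/-- Justifications. -/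
noncomputable def J30_0 : List Js := [
.h (nat_lit 0x2000),
.h (nat_lit 0x2001),
.h (nat_lit 0x2002),
.h (nat_lit 0x100c),
.h (nat_lit 0x100d),
.h (nat_lit 0x1010),
.h (nat_lit 0x1013),
.h (nat_lit 0x1015),
.h (nat_lit 0x1016),
.h (nat_lit 0x1018),
.h (nat_lit 0x1019),
.h (nat_lit 0x101b),
.h (nat_lit 0x101c),
.h (nat_lit 0x101e),
.h (nat_lit 0x101f),
.h (nat_lit 0x1021),
.h (nat_lit 0x1022),
.h (nat_lit 0x1023),
.h (nat_lit 0x1024),
.h (nat_lit 0x1025),
.h (nat_lit 0x102f),
.h (nat_lit 0x1031),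
.h (nat_lit 0x1035),
.h (nat_lit 0x1037),
.h (nat_lit 0x1080),
.h (nat_lit 0x1083),
.h (nat_lit 0x1084),
.h (nat_lit 0x1085),
.h (nat_lit 0x109d),
.h (nat_lit 0x10a6),
.h (nat_lit 0x10ab),
.h (nat_lit 0x10bd),
.h (nat_lit 0x10e2),
.h (nat_lit 0x10e5),
.h (nat_lit 0x10f6),
.h (nat_lit 0),
.c (nat_lit 8) (nat_lit 0x1f0080680803c000440002381807c0803602013),
.c (nat_lit 2) (nat_lit 0x80900000c),
.c (nat_lit 11) (nat_lit 0x802c040120301f01012004028020490201b8080cc0c02e00001),
.c (nat_lit 5) (nat_lit 0x2010260080740809a00003),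
.c (nat_lit 5) (nat_lit 0x4010260080840809a00005),
.c (nat_lit 2) (nat_lit 0x80a00003a),
.c (nat_lit 4) (nat_lit 0x40280201380c09800042),
.c (nat_lit 2) (nat_lit 0x80980004a),
.c (nat_lit 4) (nat_lit 0x20081000000402056),
.c (nat_lit 5) (nat_lit 0x90201480800c0405a00001),
.c (nat_lit 7) (nat_lit 0x1540c0720403d01003810104040a600005),
.c (nat_lit 6) (nat_lit 0x406e000190200b80803c0406e00001),
.i (nat_lit 2) (nat_lit 0) [((nat_lit 1), (nat_lit 1)), ((nat_lit 3), (nat_lit 1)), ((nat_lit 2), (nat_lit 1)), ((nat_lit 4), (nat_lit 1)), ((nat_lit 583), (nat_lit 2)), ((nat_lit 9), (nat_lit 1))] (nat_lit 0x2f02e02d02c012013011),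
.c (nat_lit 6) (nat_lit 0x8020020203081015c0400600005),
.c (nat_lit 2) (nat_lit 0x80c400018),
.c (nat_lit 2) (nat_lit 0xc0c400054),
.c (nat_lit 2) (nat_lit 0x80c400056),
.c (nat_lit 33) (nat_lit 0x6901005800024080ce08031050298200ac0c0ce040050301882003c0c02204029010018181940805e0202d000008080c0000080206602015018038000040206802014018040100680603001033000000040100400a)]

theorem c30_0 : ck d30 x30 ths 54 J30_0 0 = true := by decide +kernel

end Pool.Agent.Lib.MP_3b0e0c_al.D.TT
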