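import Pool.Agent.Lib.MP_3b0e0c_al.D.NS

namespace Pool.Agent.Lib.MP_3b0e0c_al.D.TT

open S

/-- Hypotheses. -/
def hy : List (List ℕ × List ℕ) := [([0, 0], []),
  ([1, 1], []),
  ([2, 2], [])]

/-- Definitions. -/
def ds : List (List ℕ × List ℕ) := [([3], [1, 0, 1, 0]),
  ([4], [2, 0, 2, 0]),
  ([5], [2, 1, 2, 1]),
  ([6], [4, 1, 4, 1]),
  ([7], [5, 0, 5, 0]),
  ([8], [6, 0, 6, 0]),
  ([9], [7, 1, 7, 1]),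
  ([10], [7, 2, 7, 2])]

/-- Alternatives. -/
def alts : List (List (List ℕ × List ℕ)) := [[([0, 1, 2, 0, 1, 2], [2, 1, 0, 2, 1, 0])]]

/-- The clause. -/
def cl : Cl := ⟨hy, alts⟩

/-- The theories used. -/
def ths : List Th := [R2, T3.th, NoS]

set_option maxRecDepth 100000 in
/-- Facts. -/
noncomputable def d0 : Tr :=
(.nd (.nd (.nd (.nd (.nd (.nd (.nd (.nd (.lf ⟨(nat_lit 65), (nat_lit 2), (nat_lit 0), (nat_lit 0)⟩)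
(.lf ⟨(nat_lit 327), (nat_lit 2), (nat_lit 453), (nat_lit 2)⟩))
(.nd (.lf ⟨(nat_lit 260), (nat_lit 2), (nat_lit 0), (nat_lit 0)⟩)
(.lf ⟨(nat_lit 0x1c81c8), (nat_lit 4), (nat_lit 0x207207), (nat_lit 4)⟩)))
(.nd (.nd (.lf ⟨(nat_lit 0xc80c8), (nat_lit 4), (nat_lit 0x203203), (nat_lit 4)⟩)
(.lf ⟨(nat_lit 74), (nat_lit 2), (nat_lit 641), (nat_lit 2)⟩))
(.nd (.lf ⟨(nat_lit 0x184184), (nat_lit 4), (nat_lit 0x106106), (nat_lit 4)⟩)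
(.lf ⟨(nat_lit 0x10a2c91c8), (nat_lit 6), (nat_lit 0x28b247204), (nat_lit 6)⟩))))
(.nd (.nd (.nd (.lf ⟨(nat_lit 67), (nat_lit 2), (nat_lit 0x50c1), (nat_lit 3)⟩)
(.lf ⟨(nat_lit 523), (nat_lit 2), (nat_lit 712), (nat_lit 2)⟩))
(.nd (.lf ⟨(nat_lit 0x147147), (nat_lit 4), (nat_lit 0x1c51c5), (nat_lit 4)⟩)
(.lf ⟨(nat_lit 267), (nat_lit 2), (nat_lit 0x2c81c81c4), (nat_lit 6)⟩)))
(.nd (.nd (.lf ⟨(nat_lit 67), (nat_lit 2), (nat_lit 0x1430450c10c1), (nat_lit 8)⟩)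
(.lf ⟨(nat_lit 202), (nat_lit 2), (nat_lit 0xa2c818510b1c810b1c6143), (nat_lit 15)⟩))
(.nd (.lf ⟨(nat_lit 0xca0ca), (nat_lit 4), (nat_lit 0x283283), (nat_lit 4)⟩)
(.lf ⟨(nat_lit 0xc22ca), (nat_lit 4), (nat_lit 0x2ca0c2), (nat_lit 4)⟩)))))
(.nd (.nd (.nd (.nd (.lf ⟨(nat_lit 9), (nat_lit 1), (nat_lit 0x47047), (nat_lit 4)⟩)
(.lf ⟨(nat_lit 199), (nat_lit 2), (nat_lit 0x1c6146143), (nat_lit 6)⟩))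
(.nd (.lf ⟨(nat_lit 0x188188), (nat_lit 4), (nat_lit 0x206206), (nat_lit 4)⟩)
(.lf ⟨(nat_lit 0x1c51c5), (nat_lit 4), (nat_lit 0), (nat_lit 0)⟩)))
(.nd (.nd (.lf ⟨(nat_lit 0x1830860c2), (nat_lit 6), (nat_lit 0x83083), (nat_lit 4)⟩)
(.lf ⟨(nat_lit 264), (nat_lit 2), (nat_lit 516), (nat_lit 2)⟩))
(.nd (.lf ⟨(nat_lit 715), (nat_lit 2), (nat_lit 0), (nat_lit 0)⟩)
(.lf ⟨(nat_lit 0x2ca2ca), (nat_lit 4), (nat_lit 0), (nat_lit 0)⟩))))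
(.nd (.nd (.nd (.lf ⟨(nat_lit 520), (nat_lit 2), (nat_lit 0), (nat_lit 0)⟩)
(.lf ⟨(nat_lit 395), (nat_lit 2), (nat_lit 710), (nat_lit 2)⟩))
(.nd (.lf ⟨(nat_lit 199), (nat_lit 2), (nat_lit 0x147146146143), (nat_lit 8)⟩)
(.lf ⟨(nat_lit 6), (nat_lit 1), (nat_lit 0x2c308b0c2), (nat_lit 6)⟩)))
(.nd (.nd (.lf ⟨(nat_lit 0xc20c2), (nat_lit 4), (nat_lit 0x83083), (nat_lit 4)⟩)
(.lf ⟨(nat_lit 0x2c62c6), (nat_lit 4), (nat_lit 0), (nat_lit 0)⟩))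
(.lf ⟨(nat_lit 0x187187), (nat_lit 4), (nat_lit 0x1c61c6), (nat_lit 4)⟩)))))
(.nd (.nd (.nd (.nd (.nd (.lf ⟨(nat_lit 5), (nat_lit 1), (nat_lit 0x43043), (nat_lit 4)⟩)
(.lf ⟨(nat_lit 135), (nat_lit 2), (nat_lit 450), (nat_lit 2)⟩))
(.nd (.lf ⟨(nat_lit 0x1c11c1), (nat_lit 4), (nat_lit 0x47047), (nat_lit 4)⟩)
(.lf ⟨(nat_lit 0x2c72c7), (nat_lit 4), (nat_lit 0), (nat_lit 0)⟩)))
(.nd (.nd (.lf ⟨(nat_lit 130), (nat_lit 2), (nat_lit 0), (nat_lit 0)⟩)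
(.lf ⟨(nat_lit 0x24b24b), (nat_lit 4), (nat_lit 0x2c92c9), (nat_lit 4)⟩))
(.nd (.lf ⟨(nat_lit 585), (nat_lit 2), (nat_lit 0), (nat_lit 0)⟩)
(.lf ⟨(nat_lit 393), (nat_lit 2), (nat_lit 582), (nat_lit 2)⟩))))
(.nd (.nd (.nd (.lf ⟨(nat_lit 0x85085), (nat_lit 4), (nat_lit 0x142142), (nat_lit 4)⟩)
(.lf ⟨(nat_lit 262), (nat_lit 2), (nat_lit 0xa184), (nat_lit 3)⟩))
(.nd (.lf ⟨(nat_lit 0x141085042), (nat_lit 6), (nat_lit 0x85042141), (nat_lit 6)⟩)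
(.lf ⟨(nat_lit 330), (nat_lit 2), (nat_lit 0x28b24b245), (nat_lit 6)⟩)))
(.nd (.nd (.lf ⟨(nat_lit 0x81081), (nat_lit 4), (nat_lit 0x42042), (nat_lit 4)⟩)
(.lf ⟨(nat_lit 0x24a249289), (nat_lit 6), (nat_lit 0), (nat_lit 0)⟩))
(.nd (.lf ⟨(nat_lit 0x147187), (nat_lit 4), (nat_lit 0x1c61c6146), (nat_lit 6)⟩)
(.lf ⟨(nat_lit 0xc2043081), (nat_lit 6), (nat_lit 0x1c6144), (nat_lit 4)⟩)))))
(.nd (.nd (.nd (.nd (.lf ⟨(nat_lit 260), (nat_lit 2), (nat_lit 0), (nat_lit 0)⟩)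
(.lf ⟨(nat_lit 196), (nat_lit 2), (nat_lit 0x1481841c5183), (nat_lit 8)⟩))
(.nd (.lf ⟨(nat_lit 0x183183), (nat_lit 4), (nat_lit 0), (nat_lit 0)⟩)
(.lf ⟨(nat_lit 0x92ca), (nat_lit 3), (nat_lit 0xb28b24b), (nat_lit 5)⟩)))
(.nd (.nd (.lf ⟨(nat_lit 0x811830860c20460c21830820460c21830811830860c2), (nat_lit 30), (nat_lit 0x811830860c20460c21830820460c21830811830860c2), (nat_lit 30)⟩)
(.lf ⟨(nat_lit 0x182141182141), (nat_lit 8), (nat_lit 0x141182141182), (nat_lit 8)⟩))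
(.nd (.lf ⟨(nat_lit 0x201201), (nat_lit 4), (nat_lit 0), (nat_lit 0)⟩)
(.lf ⟨(nat_lit 0x12ca), (nat_lit 3), (nat_lit 0xb281), (nat_lit 3)⟩))))
(.nd (.nd (.nd (.lf ⟨(nat_lit 71), (nat_lit 2), (nat_lit 0x91c1), (nat_lit 3)⟩)
(.lf ⟨(nat_lit 266), (nat_lit 2), (nat_lit 644), (nat_lit 2)⟩))
(.nd (.lf ⟨(nat_lit 203), (nat_lit 2), (nat_lit 0x20b20b20b203), (nat_lit 8)⟩)
(.lf ⟨(nat_lit 0x2ca2ca), (nat_lit 4), (nat_lit 0x2c328b0ca), (nat_lit 6)⟩)))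
(.nd (.nd (.lf ⟨(nat_lit 72), (nat_lit 2), (nat_lit 0x188188188181), (nat_lit 8)⟩)
(.lf ⟨(nat_lit 0x2011c62011c6), (nat_lit 8), (nat_lit 0x1c62011c6201), (nat_lit 8)⟩))
(.lf ⟨(nat_lit 0x3286), (nat_lit 3), (nat_lit 0xa18a0ca), (nat_lit 5)⟩))))))
(.nd (.nd (.nd (.nd (.nd (.nd (.lf ⟨(nat_lit 195), (nat_lit 2), (nat_lit 0), (nat_lit 0)⟩)
(.lf ⟨(nat_lit 391), (nat_lit 2), (nat_lit 454), (nat_lit 2)⟩))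
(.nd (.lf ⟨(nat_lit 0xc40c4), (nat_lit 4), (nat_lit 0x103103), (nat_lit 4)⟩)
(.lf ⟨(nat_lit 0x2011c22011c2), (nat_lit 8), (nat_lit 0x1c22011c2201), (nat_lit 8)⟩)))
(.nd (.nd (.lf ⟨(nat_lit 200), (nat_lit 2), (nat_lit 0xb203), (nat_lit 3)⟩)
(.lf ⟨(nat_lit 202), (nat_lit 2), (nat_lit 0x28520610b1c810b1c6143), (nat_lit 14)⟩))
(.nd (.lf ⟨(nat_lit 0x185185), (nat_lit 4), (nat_lit 0x146146), (nat_lit 4)⟩)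
(.lf ⟨(nat_lit 201), (nat_lit 2), (nat_lit 579), (nat_lit 2)⟩))))
(.nd (.nd (.nd (.lf ⟨(nat_lit 390), (nat_lit 2), (nat_lit 0), (nat_lit 0)⟩)
(.lf ⟨(nat_lit 0x52c8), (nat_lit 3), (nat_lit 0xb205), (nat_lit 3)⟩))
(.nd (.lf ⟨(nat_lit 138), (nat_lit 2), (nat_lit 0x20a20a20a202), (nat_lit 8)⟩)
(.lf ⟨(nat_lit 202), (nat_lit 2), (nat_lit 643), (nat_lit 2)⟩)))
(.nd (.nd (.lf ⟨(nat_lit 131), (nat_lit 2), (nat_lit 0x1830860c20c2), (nat_lit 8)⟩)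
(.lf ⟨(nat_lit 330), (nat_lit 2), (nat_lit 0x2c824b289205), (nat_lit 8)⟩))
(.nd (.lf ⟨(nat_lit 0x20b20b), (nat_lit 4), (nat_lit 0x2c82c8), (nat_lit 4)⟩)
(.lf ⟨(nat_lit 0x3086), (nat_lit 3), (nat_lit 0x60c2), (nat_lit 3)⟩)))))
(.nd (.nd (.nd (.nd (.lf ⟨(nat_lit 11), (nat_lit 1), (nat_lit 0xc80c8), (nat_lit 4)⟩)
(.lf ⟨(nat_lit 0x5247), (nat_lit 3), (nat_lit 0x7149), (nat_lit 3)⟩))
(.nd (.lf ⟨(nat_lit 0x182046081), (nat_lit 6), (nat_lit 0x46081182), (nat_lit 6)⟩)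
(.lf ⟨(nat_lit 0x287287), (nat_lit 4), (nat_lit 0), (nat_lit 0)⟩)))
(.nd (.nd (.lf ⟨(nat_lit 0x460c21830811830860c2), (nat_lit 14), (nat_lit 0x460c21830811830860c2), (nat_lit 14)⟩)
(.lf ⟨(nat_lit 331), (nat_lit 2), (nat_lit 709), (nat_lit 2)⟩))
(.nd (.lf ⟨(nat_lit 0x282282), (nat_lit 4), (nat_lit 0x8a08a), (nat_lit 4)⟩)
(.lf ⟨(nat_lit 0x62ca), (nat_lit 3), (nat_lit 0xb286), (nat_lit 3)⟩))))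
(.nd (.nd (.nd (.lf ⟨(nat_lit 0x47047), (nat_lit 4), (nat_lit 0x1c11c1), (nat_lit 4)⟩)
(.lf ⟨(nat_lit 459), (nat_lit 2), (nat_lit 711), (nat_lit 2)⟩))
(.nd (.lf ⟨(nat_lit 0x146147), (nat_lit 4), (nat_lit 0x187185185), (nat_lit 6)⟩)
(.lf ⟨(nat_lit 10), (nat_lit 1), (nat_lit 0x106106), (nat_lit 4)⟩)))
(.nd (.nd (.lf ⟨(nat_lit 390), (nat_lit 2), (nat_lit 0), (nat_lit 0)⟩)
(.lf ⟨(nat_lit 0x28b28b), (nat_lit 4), (nat_lit 0x2ca2ca), (nat_lit 4)⟩))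
(.lf ⟨(nat_lit 0x2c32c3), (nat_lit 4), (nat_lit 0), (nat_lit 0)⟩)))))
(.nd (.nd (.nd (.nd (.nd (.lf ⟨(nat_lit 7), (nat_lit 1), (nat_lit 0x85085), (nat_lit 4)⟩)
(.lf ⟨(nat_lit 138), (nat_lit 2), (nat_lit 642), (nat_lit 2)⟩))
(.nd (.lf ⟨(nat_lit 520), (nat_lit 2), (nat_lit 0), (nat_lit 0)⟩)
(.lf ⟨(nat_lit 0x10b24710b), (nat_lit 6), (nat_lit 0x24b24710b244), (nat_lit 8)⟩)))
(.nd (.nd (.lf ⟨(nat_lit 0x102044081), (nat_lit 6), (nat_lit 0x42042), (nat_lit 4)⟩)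
(.lf ⟨(nat_lit 199), (nat_lit 2), (nat_lit 0xb1c3), (nat_lit 3)⟩))
(.nd (.lf ⟨(nat_lit 0x1c91c9), (nat_lit 4), (nat_lit 0x247247), (nat_lit 4)⟩)
(.lf ⟨(nat_lit 330), (nat_lit 2), (nat_lit 645), (nat_lit 2)⟩))))
(.nd (.nd (.nd (.lf ⟨(nat_lit 133), (nat_lit 2), (nat_lit 0x7142), (nat_lit 3)⟩)
(.lf ⟨(nat_lit 331), (nat_lit 2), (nat_lit 0x18b18b18b185), (nat_lit 8)⟩))
(.nd (.lf ⟨(nat_lit 0x143143), (nat_lit 4), (nat_lit 0), (nat_lit 0)⟩)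
(.lf ⟨(nat_lit 0xa2c91c8), (nat_lit 5), (nat_lit 0x10b0c42c3), (nat_lit 6)⟩)))
(.nd (.nd (.lf ⟨(nat_lit 0xc10c1), (nat_lit 4), (nat_lit 0x43043), (nat_lit 4)⟩)
(.lf ⟨(nat_lit 0x2c52c5), (nat_lit 4), (nat_lit 0), (nat_lit 0)⟩))
(.nd (.lf ⟨(nat_lit 0x5187), (nat_lit 3), (nat_lit 0x61c6146), (nat_lit 5)⟩)
(.lf ⟨(nat_lit 0xc20430810c2043081), (nat_lit 12), (nat_lit 0xb289), (nat_lit 3)⟩)))))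
(.nd (.nd (.nd (.nd (.lf ⟨(nat_lit 0x43043), (nat_lit 4), (nat_lit 0xc10c1), (nat_lit 4)⟩)
(.lf ⟨(nat_lit 0x41c5), (nat_lit 3), (nat_lit 0x247144), (nat_lit 4)⟩))
(.nd (.lf ⟨(nat_lit 75), (nat_lit 2), (nat_lit 0x18818b188181), (nat_lit 8)⟩)
(.lf ⟨(nat_lit 0x10b1c5), (nat_lit 4), (nat_lit 0xb24b2471442c9), (nat_lit 9)⟩)))
(.nd (.nd (.lf ⟨(nat_lit 66), (nat_lit 2), (nat_lit 0x102044081081), (nat_lit 8)⟩)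
(.lf ⟨(nat_lit 261), (nat_lit 2), (nat_lit 0x9144), (nat_lit 3)⟩))
(.nd (.lf ⟨(nat_lit 0xc90c9), (nat_lit 4), (nat_lit 0x243243), (nat_lit 4)⟩)
(.lf ⟨(nat_lit 70), (nat_lit 2), (nat_lit 0x8181), (nat_lit 3)⟩))))
(.nd (.nd (.nd (.lf ⟨(nat_lit 650), (nat_lit 2), (nat_lit 0), (nat_lit 0)⟩)
(.lf ⟨(nat_lit 201), (nat_lit 2), (nat_lit 0x2c92c3), (nat_lit 4)⟩))
(.nd (.lf ⟨(nat_lit 0x1020c4083), (nat_lit 6), (nat_lit 0xc4083102), (nat_lit 6)⟩)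
(.lf ⟨(nat_lit 0x28b24720a2c91c8), (nat_lit 10), (nat_lit 0), (nat_lit 0)⟩)))
(.nd (.nd (.lf ⟨(nat_lit 0x142142), (nat_lit 4), (nat_lit 0x85085), (nat_lit 4)⟩)
(.lf ⟨(nat_lit 0x206206), (nat_lit 4), (nat_lit 0), (nat_lit 0)⟩))
(.lf ⟨(nat_lit 0x5247147), (nat_lit 5), (nat_lit 0x71491c5), (nat_lit 5)⟩)))))))
(.nd (.nd (.nd (.nd (.nd (.nd (.nd (.lf ⟨(nat_lit 130), (nat_lit 2), (nat_lit 0), (nat_lit 0)⟩)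
(.lf ⟨(nat_lit 0x182143182143), (nat_lit 8), (nat_lit 0x143182143182), (nat_lit 8)⟩))
(.nd (.lf ⟨(nat_lit 0x103103), (nat_lit 4), (nat_lit 0xc40c4), (nat_lit 4)⟩)
(.lf ⟨(nat_lit 0x205205), (nat_lit 4), (nat_lit 0), (nat_lit 0)⟩)))
(.nd (.nd (.lf ⟨(nat_lit 715), (nat_lit 2), (nat_lit 0), (nat_lit 0)⟩)
(.lf ⟨(nat_lit 75), (nat_lit 2), (nat_lit 705), (nat_lit 2)⟩))
(.nd (.lf ⟨(nat_lit 0x106106), (nat_lit 4), (nat_lit 0x184184), (nat_lit 4)⟩)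
(.lf ⟨(nat_lit 651), (nat_lit 2), (nat_lit 714), (nat_lit 2)⟩))))
(.nd (.nd (.nd (.lf ⟨(nat_lit 0x83083), (nat_lit 4), (nat_lit 0xc20c2), (nat_lit 4)⟩)
(.lf ⟨(nat_lit 0x4288), (nat_lit 3), (nat_lit 0xa204), (nat_lit 3)⟩))
(.nd (.lf ⟨(nat_lit 0x202202), (nat_lit 4), (nat_lit 0x88088), (nat_lit 4)⟩)
(.lf ⟨(nat_lit 393), (nat_lit 2), (nat_lit 0x2481c81c6), (nat_lit 6)⟩)))
(.nd (.nd (.lf ⟨(nat_lit 197), (nat_lit 2), (nat_lit 323), (nat_lit 2)⟩)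
(.lf ⟨(nat_lit 196), (nat_lit 2), (nat_lit 0x2c818510b1c6143), (nat_lit 10)⟩))
(.nd (.lf ⟨(nat_lit 0x2c32c3), (nat_lit 4), (nat_lit 0xcb0cb), (nat_lit 4)⟩)
(.lf ⟨(nat_lit 0x3088), (nat_lit 3), (nat_lit 0xb2880c2), (nat_lit 5)⟩)))))
(.nd (.nd (.nd (.nd (.lf ⟨(nat_lit 10), (nat_lit 1), (nat_lit 0x88088), (nat_lit 4)⟩)
(.lf ⟨(nat_lit 203), (nat_lit 2), (nat_lit 707), (nat_lit 2)⟩))
(.nd (.lf ⟨(nat_lit 0x182182), (nat_lit 4), (nat_lit 0), (nat_lit 0)⟩)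
(.lf ⟨(nat_lit 0x204204), (nat_lit 4), (nat_lit 0), (nat_lit 0)⟩)))
(.nd (.nd (.lf ⟨(nat_lit 0x850c11430421430450c1), (nat_lit 14), (nat_lit 0x850c11430421430450c1), (nat_lit 14)⟩)
(.lf ⟨(nat_lit 328), (nat_lit 2), (nat_lit 517), (nat_lit 2)⟩))
(.nd (.lf ⟨(nat_lit 0x1c21c2), (nat_lit 4), (nat_lit 0), (nat_lit 0)⟩)
(.lf ⟨(nat_lit 0x82ca), (nat_lit 3), (nat_lit 0xb288), (nat_lit 3)⟩))))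
(.nd (.nd (.nd (.lf ⟨(nat_lit 70), (nat_lit 2), (nat_lit 0x8181), (nat_lit 3)⟩)
(.lf ⟨(nat_lit 0x41c6), (nat_lit 3), (nat_lit 0x286107), (nat_lit 4)⟩))
(.nd (.lf ⟨(nat_lit 0x1c31c3), (nat_lit 4), (nat_lit 0xc70c7), (nat_lit 4)⟩)
(.lf ⟨(nat_lit 0), (nat_lit 0), (nat_lit 0x2c32c3), (nat_lit 4)⟩)))
(.nd (.nd (.lf ⟨(nat_lit 134), (nat_lit 2), (nat_lit 386), (nat_lit 2)⟩)
(.lf ⟨(nat_lit 0x2c62812c6281), (nat_lit 8), (nat_lit 0x2812c62812c6), (nat_lit 8)⟩))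
(.lf ⟨(nat_lit 0x282282), (nat_lit 4), (nat_lit 0), (nat_lit 0)⟩)))))
(.nd (.nd (.nd (.nd (.nd (.lf ⟨(nat_lit 6), (nat_lit 1), (nat_lit 0x83083), (nat_lit 4)⟩)
(.lf ⟨(nat_lit 73), (nat_lit 2), (nat_lit 577), (nat_lit 2)⟩))
(.nd (.lf ⟨(nat_lit 73), (nat_lit 2), (nat_lit 0x1c91c91c91c1), (nat_lit 8)⟩)
(.lf ⟨(nat_lit 0x2442c72442c7), (nat_lit 8), (nat_lit 0x2c72442c7244), (nat_lit 8)⟩)))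
(.nd (.nd (.lf ⟨(nat_lit 195), (nat_lit 2), (nat_lit 0), (nat_lit 0)⟩)
(.lf ⟨(nat_lit 137), (nat_lit 2), (nat_lit 578), (nat_lit 2)⟩))
(.nd (.lf ⟨(nat_lit 0x241241), (nat_lit 4), (nat_lit 0x49049), (nat_lit 4)⟩)
(.lf ⟨(nat_lit 196), (nat_lit 2), (nat_lit 0xb289207103), (nat_lit 7)⟩))))
(.nd (.nd (.nd (.lf ⟨(nat_lit 455), (nat_lit 2), (nat_lit 0), (nat_lit 0)⟩)
(.lf ⟨(nat_lit 329), (nat_lit 2), (nat_lit 581), (nat_lit 2)⟩))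
(.nd (.lf ⟨(nat_lit 137), (nat_lit 2), (nat_lit 0x147149147142), (nat_lit 8)⟩)
(.lf ⟨(nat_lit 587), (nat_lit 2), (nat_lit 713), (nat_lit 2)⟩)))
(.nd (.nd (.lf ⟨(nat_lit 68), (nat_lit 2), (nat_lit 257), (nat_lit 2)⟩)
(.lf ⟨(nat_lit 0x245245), (nat_lit 4), (nat_lit 0), (nat_lit 0)⟩))
(.nd (.lf ⟨(nat_lit 0x182146085), (nat_lit 6), (nat_lit 0x146085182), (nat_lit 6)⟩)
(.lf ⟨(nat_lit 0x1c61441c6144), (nat_lit 8), (nat_lit 0xb289), (nat_lit 3)⟩)))))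
(.nd (.nd (.nd (.nd (.lf ⟨(nat_lit 66), (nat_lit 2), (nat_lit 0x4081), (nat_lit 3)⟩)
(.lf ⟨(nat_lit 457), (nat_lit 2), (nat_lit 583), (nat_lit 2)⟩))
(.nd (.lf ⟨(nat_lit 0x1830460c1), (nat_lit 6), (nat_lit 0x460c1183), (nat_lit 6)⟩)
(.lf ⟨(nat_lit 0x1c42c51c42c5), (nat_lit 8), (nat_lit 0x2c51c42c51c4), (nat_lit 8)⟩)))
(.nd (.nd (.lf ⟨(nat_lit 0xc11830860c20460c21830830460c21830811830860c2), (nat_lit 30), (nat_lit 0xc11830860c20460c21830830460c21830811830860c2), (nat_lit 30)⟩)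
(.lf ⟨(nat_lit 330), (nat_lit 2), (nat_lit 0x2c824b1ca247205), (nat_lit 10)⟩))
(.nd (.lf ⟨(nat_lit 0x243243), (nat_lit 4), (nat_lit 0xc90c9), (nat_lit 4)⟩)
(.lf ⟨(nat_lit 72), (nat_lit 2), (nat_lit 513), (nat_lit 2)⟩))))
(.nd (.nd (.nd (.lf ⟨(nat_lit 0x88088), (nat_lit 4), (nat_lit 0x202202), (nat_lit 4)⟩)
(.lf ⟨(nat_lit 265), (nat_lit 2), (nat_lit 580), (nat_lit 2)⟩))
(.nd (.lf ⟨(nat_lit 0x102102), (nat_lit 4), (nat_lit 0), (nat_lit 0)⟩)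
(.lf ⟨(nat_lit 0), (nat_lit 0), (nat_lit 0x8a08a), (nat_lit 4)⟩)))
(.nd (.nd (.lf ⟨(nat_lit 325), (nat_lit 2), (nat_lit 0), (nat_lit 0)⟩)
(.lf ⟨(nat_lit 521), (nat_lit 2), (nat_lit 584), (nat_lit 2)⟩))
(.lf ⟨(nat_lit 0x1411c5047), (nat_lit 6), (nat_lit 0x1c5047141), (nat_lit 6)⟩))))))
(.nd (.nd (.nd (.nd (.nd (.nd (.lf ⟨(nat_lit 4), (nat_lit 1), (nat_lit 0x42042), (nat_lit 4)⟩)
(.lf ⟨(nat_lit 72), (nat_lit 2), (nat_lit 513), (nat_lit 2)⟩))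
(.nd (.lf ⟨(nat_lit 455), (nat_lit 2), (nat_lit 0), (nat_lit 0)⟩)
(.lf ⟨(nat_lit 586), (nat_lit 2), (nat_lit 649), (nat_lit 2)⟩)))
(.nd (.nd (.lf ⟨(nat_lit 65), (nat_lit 2), (nat_lit 0), (nat_lit 0)⟩)
(.lf ⟨(nat_lit 394), (nat_lit 2), (nat_lit 646), (nat_lit 2)⟩))
(.nd (.lf ⟨(nat_lit 0x146146), (nat_lit 4), (nat_lit 0x185185), (nat_lit 4)⟩)
(.lf ⟨(nat_lit 267), (nat_lit 2), (nat_lit 708), (nat_lit 2)⟩))))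
(.nd (.nd (.nd (.lf ⟨(nat_lit 131), (nat_lit 2), (nat_lit 0x60c2), (nat_lit 3)⟩)
(.lf ⟨(nat_lit 326), (nat_lit 2), (nat_lit 0xb185), (nat_lit 3)⟩))
(.nd (.lf ⟨(nat_lit 0x141141), (nat_lit 4), (nat_lit 0), (nat_lit 0)⟩)
(.lf ⟨(nat_lit 196), (nat_lit 2), (nat_lit 0xa2c91c8103), (nat_lit 7)⟩)))
(.nd (.nd (.lf ⟨(nat_lit 198), (nat_lit 2), (nat_lit 387), (nat_lit 2)⟩)
(.lf ⟨(nat_lit 0x281281), (nat_lit 4), (nat_lit 0), (nat_lit 0)⟩))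
(.nd (.lf ⟨(nat_lit 0x1c20c7083), (nat_lit 6), (nat_lit 0xc70831c2), (nat_lit 6)⟩)
(.lf ⟨(nat_lit 0x3081), (nat_lit 3), (nat_lit 0x3081), (nat_lit 3)⟩)))))
(.nd (.nd (.nd (.nd (.lf ⟨(nat_lit 0x42042), (nat_lit 4), (nat_lit 0x81081), (nat_lit 4)⟩)
(.lf ⟨(nat_lit 392), (nat_lit 2), (nat_lit 518), (nat_lit 2)⟩))
(.nd (.lf ⟨(nat_lit 74), (nat_lit 2), (nat_lit 0x18818a188181), (nat_lit 8)⟩)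
(.lf ⟨(nat_lit 0x2871c52871c5), (nat_lit 8), (nat_lit 0x1c52871c5287), (nat_lit 8)⟩)))
(.nd (.nd (.lf ⟨(nat_lit 0x421430450c10850c11430410850c11430421430450c1), (nat_lit 30), (nat_lit 0x421430450c10850c11430410850c11430421430450c1), (nat_lit 30)⟩)
(.lf ⟨(nat_lit 263), (nat_lit 2), (nat_lit 452), (nat_lit 2)⟩))
(.nd (.lf ⟨(nat_lit 0x20a20a), (nat_lit 4), (nat_lit 0x288288), (nat_lit 4)⟩)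
(.lf ⟨(nat_lit 392), (nat_lit 2), (nat_lit 518), (nat_lit 2)⟩))))
(.nd (.nd (.nd (.lf ⟨(nat_lit 585), (nat_lit 2), (nat_lit 0), (nat_lit 0)⟩)
(.lf ⟨(nat_lit 0x4247), (nat_lit 3), (nat_lit 0x91c4), (nat_lit 3)⟩))
(.nd (.lf ⟨(nat_lit 0x203203), (nat_lit 4), (nat_lit 0xc80c8), (nat_lit 4)⟩)
(.lf ⟨(nat_lit 0), (nat_lit 0), (nat_lit 260), (nat_lit 2)⟩)))
(.nd (.nd (.lf ⟨(nat_lit 0x181181), (nat_lit 4), (nat_lit 0x46046), (nat_lit 4)⟩)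
(.lf ⟨(nat_lit 0x1c61c6), (nat_lit 4), (nat_lit 0), (nat_lit 0)⟩))
(.lf ⟨(nat_lit 0x2820ca083), (nat_lit 6), (nat_lit 0xca083282), (nat_lit 6)⟩)))))
(.nd (.nd (.nd (.nd (.nd (.lf ⟨(nat_lit 8), (nat_lit 1), (nat_lit 0x46046), (nat_lit 4)⟩)
(.lf ⟨(nat_lit 137), (nat_lit 2), (nat_lit 0x1c91c2), (nat_lit 4)⟩))
(.nd (.lf ⟨(nat_lit 0x201201), (nat_lit 4), (nat_lit 0x48048), (nat_lit 4)⟩)
(.lf ⟨(nat_lit 0x1c41c4), (nat_lit 4), (nat_lit 0), (nat_lit 0)⟩)))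
(.nd (.nd (.lf ⟨(nat_lit 0x1430450c1), (nat_lit 6), (nat_lit 0x43043), (nat_lit 4)⟩)
(.lf ⟨(nat_lit 196), (nat_lit 2), (nat_lit 0x520610b1c6143), (nat_lit 9)⟩))
(.nd (.lf ⟨(nat_lit 650), (nat_lit 2), (nat_lit 0), (nat_lit 0)⟩)
(.lf ⟨(nat_lit 456), (nat_lit 2), (nat_lit 519), (nat_lit 2)⟩))))
(.nd (.nd (.nd (.lf ⟨(nat_lit 0x46046), (nat_lit 4), (nat_lit 0x181181), (nat_lit 4)⟩)
(.lf ⟨(nat_lit 393), (nat_lit 2), (nat_lit 0x2091c81c6), (nat_lit 6)⟩))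
(.nd (.lf ⟨(nat_lit 0x1430850c2), (nat_lit 6), (nat_lit 0x850c2143), (nat_lit 6)⟩)
(.lf ⟨(nat_lit 0), (nat_lit 0), (nat_lit 0x102102), (nat_lit 4)⟩)))
(.nd (.nd (.lf ⟨(nat_lit 69), (nat_lit 2), (nat_lit 321), (nat_lit 2)⟩)
(.lf ⟨(nat_lit 0x244244), (nat_lit 4), (nat_lit 0), (nat_lit 0)⟩))
(.lf ⟨(nat_lit 0x1c61c6), (nat_lit 4), (nat_lit 0x187187), (nat_lit 4)⟩))))
(.nd (.nd (.nd (.nd (.lf ⟨(nat_lit 325), (nat_lit 2), (nat_lit 0), (nat_lit 0)⟩)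
(.lf ⟨(nat_lit 522), (nat_lit 2), (nat_lit 648), (nat_lit 2)⟩))
(.nd (.lf ⟨(nat_lit 0x1c21c2), (nat_lit 4), (nat_lit 0x87087), (nat_lit 4)⟩)
(.lf ⟨(nat_lit 0x24a2460c9289183), (nat_lit 10), (nat_lit 0x18324a2460c9289), (nat_lit 10)⟩)))
(.nd (.nd (.lf ⟨(nat_lit 132), (nat_lit 2), (nat_lit 258), (nat_lit 2)⟩)
(.lf ⟨(nat_lit 458), (nat_lit 2), (nat_lit 647), (nat_lit 2)⟩))
(.nd (.lf ⟨(nat_lit 0x283283), (nat_lit 4), (nat_lit 0xca0ca), (nat_lit 4)⟩)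
(.lf ⟨(nat_lit 0xc20c2), (nat_lit 4), (nat_lit 6), (nat_lit 1)⟩))))
(.nd (.nd (.nd (.lf ⟨(nat_lit 136), (nat_lit 2), (nat_lit 0xa202), (nat_lit 3)⟩)
(.lf ⟨(nat_lit 139), (nat_lit 2), (nat_lit 706), (nat_lit 2)⟩))
(.nd (.lf ⟨(nat_lit 0x3106), (nat_lit 3), (nat_lit 0x41840c4), (nat_lit 5)⟩)
(.lf ⟨(nat_lit 456), (nat_lit 2), (nat_lit 0x2ca2ca207), (nat_lit 6)⟩)))
(.nd (.nd (.lf ⟨(nat_lit 135), (nat_lit 2), (nat_lit 0x147147147142), (nat_lit 8)⟩)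
(.lf ⟨(nat_lit 0x206245206245), (nat_lit 8), (nat_lit 0x245206245206), (nat_lit 8)⟩))
(.lf ⟨(nat_lit 0x1831c60c7), (nat_lit 6), (nat_lit 0x1c60c7183), (nat_lit 6)⟩))))))))

/-- Substitution. -/
def s0 : List (ℕ × ℕ) := [((nat_lit 1), (nat_lit 1)), ((nat_lit 194), (nat_lit 2)), ((nat_lit 714), (nat_lit 2)), ((nat_lit 8), (nat_lit 1)), ((nat_lit 6), (nat_lit 1))]

/-- Context. -/
noncomputable def x0 : ℕ → ℕ × ℕ := rt (hy ++ ds)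

set_option maxRecDepth 100000 in
/-- Facts. -/
noncomputable def d1 : Tr :=
(.nd (.nd (.nd (.nd (.nd (.nd (.lf ⟨(nat_lit 65), (nat_lit 2), (nat_lit 0), (nat_lit 0)⟩)
(.lf ⟨(nat_lit 139), (nat_lit 2), (nat_lit 706), (nat_lit 2)⟩))
(.lf ⟨(nat_lit 197), (nat_lit 2), (nat_lit 323), (nat_lit 2)⟩))
(.nd (.nd (.lf ⟨(nat_lit 520), (nat_lit 2), (nat_lit 0), (nat_lit 0)⟩)
(.lf ⟨(nat_lit 330), (nat_lit 2), (nat_lit 645), (nat_lit 2)⟩))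
(.lf ⟨(nat_lit 135), (nat_lit 2), (nat_lit 450), (nat_lit 2)⟩)))
(.nd (.nd (.nd (.lf ⟨(nat_lit 67), (nat_lit 2), (nat_lit 0x50c1), (nat_lit 3)⟩)
(.lf ⟨(nat_lit 328), (nat_lit 2), (nat_lit 517), (nat_lit 2)⟩))
(.lf ⟨(nat_lit 134), (nat_lit 2), (nat_lit 386), (nat_lit 2)⟩))
(.nd (.nd (.lf ⟨(nat_lit 136), (nat_lit 2), (nat_lit 0xa202), (nat_lit 3)⟩)
(.lf ⟨(nat_lit 9), (nat_lit 1), (nat_lit 714), (nat_lit 2)⟩))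
(.lf ⟨(nat_lit 523), (nat_lit 2), (nat_lit 712), (nat_lit 2)⟩))))
(.nd (.nd (.nd (.nd (.lf ⟨(nat_lit 195), (nat_lit 2), (nat_lit 0), (nat_lit 0)⟩)
(.lf ⟨(nat_lit 75), (nat_lit 2), (nat_lit 705), (nat_lit 2)⟩))
(.lf ⟨(nat_lit 68), (nat_lit 2), (nat_lit 257), (nat_lit 2)⟩))
(.nd (.nd (.lf ⟨(nat_lit 71), (nat_lit 2), (nat_lit 0x91c1), (nat_lit 3)⟩)
(.lf ⟨(nat_lit 0xc20430810c2043081), (nat_lit 12), (nat_lit 0xb289), (nat_lit 3)⟩))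
(.lf ⟨(nat_lit 392), (nat_lit 2), (nat_lit 518), (nat_lit 2)⟩)))
(.nd (.nd (.nd (.lf ⟨(nat_lit 455), (nat_lit 2), (nat_lit 0), (nat_lit 0)⟩)
(.lf ⟨(nat_lit 651), (nat_lit 2), (nat_lit 714), (nat_lit 2)⟩))
(.lf ⟨(nat_lit 391), (nat_lit 2), (nat_lit 454), (nat_lit 2)⟩))
(.nd (.lf ⟨(nat_lit 200), (nat_lit 2), (nat_lit 0xb203), (nat_lit 3)⟩)
(.lf ⟨(nat_lit 262), (nat_lit 2), (nat_lit 0xa184), (nat_lit 3)⟩)))))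
(.nd (.nd (.nd (.nd (.nd (.lf ⟨(nat_lit 130), (nat_lit 2), (nat_lit 0), (nat_lit 0)⟩)
(.lf ⟨(nat_lit 74), (nat_lit 2), (nat_lit 641), (nat_lit 2)⟩))
(.lf ⟨(nat_lit 198), (nat_lit 2), (nat_lit 387), (nat_lit 2)⟩))
(.nd (.nd (.lf ⟨(nat_lit 70), (nat_lit 2), (nat_lit 0x8181), (nat_lit 3)⟩)
(.lf ⟨(nat_lit 456), (nat_lit 2), (nat_lit 519), (nat_lit 2)⟩))
(.lf ⟨(nat_lit 203), (nat_lit 2), (nat_lit 707), (nat_lit 2)⟩)))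
(.nd (.nd (.nd (.lf ⟨(nat_lit 131), (nat_lit 2), (nat_lit 0x60c2), (nat_lit 3)⟩)
(.lf ⟨(nat_lit 458), (nat_lit 2), (nat_lit 647), (nat_lit 2)⟩))
(.lf ⟨(nat_lit 327), (nat_lit 2), (nat_lit 453), (nat_lit 2)⟩))
(.nd (.nd (.lf ⟨(nat_lit 715), (nat_lit 2), (nat_lit 0), (nat_lit 0)⟩)
(.lf ⟨(nat_lit 0xc2043081), (nat_lit 6), (nat_lit 0x420c1083), (nat_lit 6)⟩))
(.lf ⟨(nat_lit 326), (nat_lit 2), (nat_lit 0xb185), (nat_lit 3)⟩))))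
(.nd (.nd (.nd (.nd (.lf ⟨(nat_lit 66), (nat_lit 2), (nat_lit 0x4081), (nat_lit 3)⟩)
(.lf ⟨(nat_lit 199), (nat_lit 2), (nat_lit 0xb1c3), (nat_lit 3)⟩))
(.lf ⟨(nat_lit 69), (nat_lit 2), (nat_lit 321), (nat_lit 2)⟩))
(.nd (.nd (.lf ⟨(nat_lit 650), (nat_lit 2), (nat_lit 0), (nat_lit 0)⟩)
(.lf ⟨(nat_lit 0xc20430810c2043081), (nat_lit 12), (nat_lit 0), (nat_lit 0)⟩))
(.lf ⟨(nat_lit 522), (nat_lit 2), (nat_lit 648), (nat_lit 2)⟩)))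
(.nd (.nd (.nd (.lf ⟨(nat_lit 133), (nat_lit 2), (nat_lit 0x7142), (nat_lit 3)⟩)
(.lf ⟨(nat_lit 196), (nat_lit 2), (nat_lit 0xb289207103), (nat_lit 7)⟩))
(.lf ⟨(nat_lit 72), (nat_lit 2), (nat_lit 513), (nat_lit 2)⟩))
(.nd (.lf ⟨(nat_lit 132), (nat_lit 2), (nat_lit 258), (nat_lit 2)⟩)
(.lf ⟨(nat_lit 459), (nat_lit 2), (nat_lit 711), (nat_lit 2)⟩))))))

/-- Context. -/
noncomputable def x1 : ℕ → ℕ × ℕ :=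
  mkc d0 247 s0 x0 (nth [] (Cl.alts (nsCl 3 [[0, 1, 2, 6], [4, 1, 3, 4], [0], [0, 1], [0, 1, 2]])) 0)

set_option maxRecDepth 100000 in
/-- Facts. -/
noncomputable def d2 : Tr :=
(.nd (.nd (.nd (.nd (.nd (.nd (.nd (.lf ⟨(nat_lit 65), (nat_lit 2), (nat_lit 0), (nat_lit 0)⟩)
(.lf ⟨(nat_lit 0x3047), (nat_lit 3), (nat_lit 0x2c70c1), (nat_lit 4)⟩))
(.lf ⟨(nat_lit 459), (nat_lit 2), (nat_lit 711), (nat_lit 2)⟩))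
(.nd (.lf ⟨(nat_lit 197), (nat_lit 2), (nat_lit 323), (nat_lit 2)⟩)
(.lf ⟨(nat_lit 330), (nat_lit 2), (nat_lit 645), (nat_lit 2)⟩)))
(.nd (.nd (.lf ⟨(nat_lit 131), (nat_lit 2), (nat_lit 0x60c2), (nat_lit 3)⟩)
(.lf ⟨(nat_lit 328), (nat_lit 2), (nat_lit 517), (nat_lit 2)⟩))
(.nd (.lf ⟨(nat_lit 72), (nat_lit 2), (nat_lit 513), (nat_lit 2)⟩)
(.lf ⟨(nat_lit 459), (nat_lit 2), (nat_lit 711), (nat_lit 2)⟩))))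
(.nd (.nd (.nd (.nd (.lf ⟨(nat_lit 66), (nat_lit 2), (nat_lit 0x4081), (nat_lit 3)⟩)
(.lf ⟨(nat_lit 0x2c818510b206144), (nat_lit 10), (nat_lit 714), (nat_lit 2)⟩))
(.lf ⟨(nat_lit 75), (nat_lit 2), (nat_lit 705), (nat_lit 2)⟩))
(.nd (.lf ⟨(nat_lit 325), (nat_lit 2), (nat_lit 0), (nat_lit 0)⟩)
(.lf ⟨(nat_lit 9), (nat_lit 1), (nat_lit 0), (nat_lit 0)⟩)))
(.nd (.nd (.lf ⟨(nat_lit 71), (nat_lit 2), (nat_lit 0x91c1), (nat_lit 3)⟩)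
(.lf ⟨(nat_lit 458), (nat_lit 2), (nat_lit 647), (nat_lit 2)⟩))
(.nd (.lf ⟨(nat_lit 522), (nat_lit 2), (nat_lit 648), (nat_lit 2)⟩)
(.lf ⟨(nat_lit 135), (nat_lit 2), (nat_lit 450), (nat_lit 2)⟩)))))
(.nd (.nd (.nd (.nd (.nd (.lf ⟨(nat_lit 195), (nat_lit 2), (nat_lit 0), (nat_lit 0)⟩)
(.lf ⟨(nat_lit 0x3042), (nat_lit 3), (nat_lit 0x2ca207103081), (nat_lit 8)⟩))
(.lf ⟨(nat_lit 139), (nat_lit 2), (nat_lit 706), (nat_lit 2)⟩))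
(.nd (.lf ⟨(nat_lit 68), (nat_lit 2), (nat_lit 257), (nat_lit 2)⟩)
(.lf ⟨(nat_lit 0xc20430810c2043081), (nat_lit 12), (nat_lit 0xb289), (nat_lit 3)⟩)))
(.nd (.nd (.lf ⟨(nat_lit 133), (nat_lit 2), (nat_lit 0x7142), (nat_lit 3)⟩)
(.lf ⟨(nat_lit 263), (nat_lit 2), (nat_lit 452), (nat_lit 2)⟩))
(.nd (.lf ⟨(nat_lit 203), (nat_lit 2), (nat_lit 707), (nat_lit 2)⟩)
(.lf ⟨(nat_lit 327), (nat_lit 2), (nat_lit 453), (nat_lit 2)⟩))))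
(.nd (.nd (.nd (.lf ⟨(nat_lit 67), (nat_lit 2), (nat_lit 0x50c1), (nat_lit 3)⟩)
(.lf ⟨(nat_lit 199), (nat_lit 2), (nat_lit 0xb1c3), (nat_lit 3)⟩))
(.nd (.lf ⟨(nat_lit 715), (nat_lit 2), (nat_lit 0), (nat_lit 0)⟩)
(.lf ⟨(nat_lit 261), (nat_lit 2), (nat_lit 324), (nat_lit 2)⟩)))
(.nd (.nd (.lf ⟨(nat_lit 715), (nat_lit 2), (nat_lit 0), (nat_lit 0)⟩)
(.lf ⟨(nat_lit 267), (nat_lit 2), (nat_lit 708), (nat_lit 2)⟩))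
(.nd (.lf ⟨(nat_lit 326), (nat_lit 2), (nat_lit 0xb185), (nat_lit 3)⟩)
(.lf ⟨(nat_lit 0xc10c1), (nat_lit 4), (nat_lit 5), (nat_lit 1)⟩))))))
(.nd (.nd (.nd (.nd (.nd (.nd (.lf ⟨(nat_lit 130), (nat_lit 2), (nat_lit 0), (nat_lit 0)⟩)
(.lf ⟨(nat_lit 0x3045), (nat_lit 3), (nat_lit 0x50c1), (nat_lit 3)⟩))
(.lf ⟨(nat_lit 266), (nat_lit 2), (nat_lit 644), (nat_lit 2)⟩))
(.nd (.lf ⟨(nat_lit 198), (nat_lit 2), (nat_lit 387), (nat_lit 2)⟩)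
(.lf ⟨(nat_lit 456), (nat_lit 2), (nat_lit 519), (nat_lit 2)⟩)))
(.nd (.nd (.lf ⟨(nat_lit 455), (nat_lit 2), (nat_lit 0), (nat_lit 0)⟩)
(.lf ⟨(nat_lit 331), (nat_lit 2), (nat_lit 709), (nat_lit 2)⟩))
(.nd (.lf ⟨(nat_lit 135), (nat_lit 2), (nat_lit 450), (nat_lit 2)⟩)
(.lf ⟨(nat_lit 331), (nat_lit 2), (nat_lit 709), (nat_lit 2)⟩))))
(.nd (.nd (.nd (.nd (.lf ⟨(nat_lit 325), (nat_lit 2), (nat_lit 0), (nat_lit 0)⟩)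
(.lf ⟨(nat_lit 0xc10830420c1083042), (nat_lit 12), (nat_lit 714), (nat_lit 2)⟩))
(.lf ⟨(nat_lit 394), (nat_lit 2), (nat_lit 646), (nat_lit 2)⟩))
(.nd (.lf ⟨(nat_lit 455), (nat_lit 2), (nat_lit 0), (nat_lit 0)⟩)
(.lf ⟨(nat_lit 71), (nat_lit 2), (nat_lit 449), (nat_lit 2)⟩)))
(.nd (.nd (.lf ⟨(nat_lit 650), (nat_lit 2), (nat_lit 0), (nat_lit 0)⟩)
(.lf ⟨(nat_lit 651), (nat_lit 2), (nat_lit 714), (nat_lit 2)⟩))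
(.nd (.lf ⟨(nat_lit 523), (nat_lit 2), (nat_lit 712), (nat_lit 2)⟩)
(.lf ⟨(nat_lit 133), (nat_lit 2), (nat_lit 0x7142), (nat_lit 3)⟩)))))
(.nd (.nd (.nd (.nd (.nd (.lf ⟨(nat_lit 260), (nat_lit 2), (nat_lit 0), (nat_lit 0)⟩)
(.lf ⟨(nat_lit 0x2ca2071030812ca207103081), (nat_lit 16), (nat_lit 0xb206144), (nat_lit 5)⟩))
(.lf ⟨(nat_lit 74), (nat_lit 2), (nat_lit 641), (nat_lit 2)⟩))
(.nd (.lf ⟨(nat_lit 69), (nat_lit 2), (nat_lit 321), (nat_lit 2)⟩)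
(.lf ⟨(nat_lit 0xc20430810c2043081), (nat_lit 12), (nat_lit 714), (nat_lit 2)⟩)))
(.nd (.nd (.lf ⟨(nat_lit 520), (nat_lit 2), (nat_lit 0), (nat_lit 0)⟩)
(.lf ⟨(nat_lit 261), (nat_lit 2), (nat_lit 0x9144), (nat_lit 3)⟩))
(.nd (.lf ⟨(nat_lit 392), (nat_lit 2), (nat_lit 518), (nat_lit 2)⟩)
(.lf ⟨(nat_lit 139), (nat_lit 2), (nat_lit 706), (nat_lit 2)⟩))))
(.nd (.nd (.nd (.lf ⟨(nat_lit 390), (nat_lit 2), (nat_lit 0), (nat_lit 0)⟩)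
(.lf ⟨(nat_lit 264), (nat_lit 2), (nat_lit 516), (nat_lit 2)⟩))
(.nd (.lf ⟨(nat_lit 327), (nat_lit 2), (nat_lit 453), (nat_lit 2)⟩)
(.lf ⟨(nat_lit 196), (nat_lit 2), (nat_lit 0x2ca207103), (nat_lit 6)⟩)))
(.nd (.nd (.lf ⟨(nat_lit 130), (nat_lit 2), (nat_lit 0), (nat_lit 0)⟩)
(.lf ⟨(nat_lit 196), (nat_lit 2), (nat_lit 0xb289207103), (nat_lit 7)⟩))
(.nd (.lf ⟨(nat_lit 262), (nat_lit 2), (nat_lit 0xa184), (nat_lit 3)⟩)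
(.lf ⟨(nat_lit 0x304b), (nat_lit 3), (nat_lit 0xb0c1), (nat_lit 3)⟩)))))))

/-- Substitution. -/
def s2 : List (ℕ × ℕ) := [((nat_lit 2), (nat_lit 1)), ((nat_lit 193), (nat_lit 2)), ((nat_lit 11), (nat_lit 1)), ((nat_lit 7), (nat_lit 1)), ((nat_lit 5), (nat_lit 1))]

/-- Context. -/
noncomputable def x2 : ℕ → ℕ × ℕ :=
  mkc d0 247 s0 x0 (nth [] (Cl.alts (nsCl 3 [[0, 1, 2, 6], [4, 1, 3, 4], [0], [0, 1], [0, 1, 2]])) 1)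

set_option maxRecDepth 100000 in
/-- Facts. -/
noncomputable def d3 : Tr :=
(.nd (.nd (.nd (.nd (.nd (.nd (.lf ⟨(nat_lit 65), (nat_lit 2), (nat_lit 0), (nat_lit 0)⟩)
(.lf ⟨(nat_lit 71), (nat_lit 2), (nat_lit 449), (nat_lit 2)⟩))
(.lf ⟨(nat_lit 68), (nat_lit 2), (nat_lit 257), (nat_lit 2)⟩))
(.nd (.lf ⟨(nat_lit 520), (nat_lit 2), (nat_lit 0), (nat_lit 0)⟩)
(.lf ⟨(nat_lit 392), (nat_lit 2), (nat_lit 518), (nat_lit 2)⟩)))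
(.nd (.nd (.nd (.lf ⟨(nat_lit 67), (nat_lit 2), (nat_lit 0x50c1), (nat_lit 3)⟩)
(.lf ⟨(nat_lit 10), (nat_lit 1), (nat_lit 11), (nat_lit 1)⟩))
(.lf ⟨(nat_lit 391), (nat_lit 2), (nat_lit 454), (nat_lit 2)⟩))
(.nd (.lf ⟨(nat_lit 200), (nat_lit 2), (nat_lit 0xb203), (nat_lit 3)⟩)
(.lf ⟨(nat_lit 199), (nat_lit 2), (nat_lit 0xb1c3), (nat_lit 3)⟩))))
(.nd (.nd (.nd (.nd (.lf ⟨(nat_lit 195), (nat_lit 2), (nat_lit 0), (nat_lit 0)⟩)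
(.lf ⟨(nat_lit 0xc10830420c1083042), (nat_lit 12), (nat_lit 714), (nat_lit 2)⟩))
(.lf ⟨(nat_lit 134), (nat_lit 2), (nat_lit 386), (nat_lit 2)⟩))
(.nd (.lf ⟨(nat_lit 136), (nat_lit 2), (nat_lit 0xa202), (nat_lit 3)⟩)
(.lf ⟨(nat_lit 262), (nat_lit 2), (nat_lit 0xa184), (nat_lit 3)⟩)))
(.nd (.nd (.lf ⟨(nat_lit 455), (nat_lit 2), (nat_lit 0), (nat_lit 0)⟩)
(.lf ⟨(nat_lit 135), (nat_lit 2), (nat_lit 450), (nat_lit 2)⟩))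
(.nd (.lf ⟨(nat_lit 197), (nat_lit 2), (nat_lit 323), (nat_lit 2)⟩)
(.lf ⟨(nat_lit 331), (nat_lit 2), (nat_lit 709), (nat_lit 2)⟩)))))
(.nd (.nd (.nd (.nd (.nd (.lf ⟨(nat_lit 130), (nat_lit 2), (nat_lit 0), (nat_lit 0)⟩)
(.lf ⟨(nat_lit 196), (nat_lit 2), (nat_lit 0x2ca207103), (nat_lit 6)⟩))
(.lf ⟨(nat_lit 69), (nat_lit 2), (nat_lit 321), (nat_lit 2)⟩))
(.nd (.lf ⟨(nat_lit 70), (nat_lit 2), (nat_lit 0x8181), (nat_lit 3)⟩)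
(.lf ⟨(nat_lit 326), (nat_lit 2), (nat_lit 0xb185), (nat_lit 3)⟩)))
(.nd (.nd (.nd (.lf ⟨(nat_lit 131), (nat_lit 2), (nat_lit 0x60c2), (nat_lit 3)⟩)
(.lf ⟨(nat_lit 0xc2043081), (nat_lit 6), (nat_lit 0x420c1083), (nat_lit 6)⟩))
(.lf ⟨(nat_lit 72), (nat_lit 2), (nat_lit 513), (nat_lit 2)⟩))
(.nd (.lf ⟨(nat_lit 132), (nat_lit 2), (nat_lit 258), (nat_lit 2)⟩)
(.lf ⟨(nat_lit 328), (nat_lit 2), (nat_lit 517), (nat_lit 2)⟩))))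
(.nd (.nd (.nd (.nd (.lf ⟨(nat_lit 66), (nat_lit 2), (nat_lit 0x4081), (nat_lit 3)⟩)
(.lf ⟨(nat_lit 0xc10830420c1083042), (nat_lit 12), (nat_lit 0), (nat_lit 0)⟩))
(.lf ⟨(nat_lit 327), (nat_lit 2), (nat_lit 453), (nat_lit 2)⟩))
(.nd (.lf ⟨(nat_lit 715), (nat_lit 2), (nat_lit 0), (nat_lit 0)⟩)
(.lf ⟨(nat_lit 139), (nat_lit 2), (nat_lit 706), (nat_lit 2)⟩)))
(.nd (.nd (.lf ⟨(nat_lit 133), (nat_lit 2), (nat_lit 0x7142), (nat_lit 3)⟩)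
(.lf ⟨(nat_lit 203), (nat_lit 2), (nat_lit 707), (nat_lit 2)⟩))
(.nd (.lf ⟨(nat_lit 198), (nat_lit 2), (nat_lit 387), (nat_lit 2)⟩)
(.lf ⟨(nat_lit 456), (nat_lit 2), (nat_lit 519), (nat_lit 2)⟩))))))

/-- Context. -/
noncomputable def x3 : ℕ → ℕ × ℕ :=
  mkc d2 70 s2 x2 (nth [] (Cl.alts (nsCl 3 [[0, 1, 2, 6], [4, 1, 3, 4], [0], [0, 1], [0, 1, 2]])) 0)

set_option maxRecDepth 100000 in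
/-- Facts. -/
noncomputable def d4 : Tr :=
(.nd (.nd (.nd (.nd (.nd (.nd (.lf ⟨(nat_lit 65), (nat_lit 2), (nat_lit 0), (nat_lit 0)⟩)
(.lf ⟨(nat_lit 0x3081), (nat_lit 3), (nat_lit 0x3081), (nat_lit 3)⟩))
(.nd (.lf ⟨(nat_lit 391), (nat_lit 2), (nat_lit 454), (nat_lit 2)⟩)
(.lf ⟨(nat_lit 0xcb207), (nat_lit 4), (nat_lit 0x2c81c3), (nat_lit 4)⟩)))
(.nd (.nd (.lf ⟨(nat_lit 136), (nat_lit 2), (nat_lit 0xa202), (nat_lit 3)⟩)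
(.lf ⟨(nat_lit 136), (nat_lit 2), (nat_lit 514), (nat_lit 2)⟩))
(.lf ⟨(nat_lit 459), (nat_lit 2), (nat_lit 711), (nat_lit 2)⟩)))
(.nd (.nd (.nd (.lf ⟨(nat_lit 325), (nat_lit 2), (nat_lit 0), (nat_lit 0)⟩)
(.lf ⟨(nat_lit 196), (nat_lit 2), (nat_lit 0x2ca207103), (nat_lit 6)⟩))
(.lf ⟨(nat_lit 523), (nat_lit 2), (nat_lit 712), (nat_lit 2)⟩))
(.nd (.nd (.lf ⟨(nat_lit 132), (nat_lit 2), (nat_lit 258), (nat_lit 2)⟩)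
(.lf ⟨(nat_lit 0x10b207), (nat_lit 4), (nat_lit 0x2c81c4), (nat_lit 4)⟩))
(.lf ⟨(nat_lit 264), (nat_lit 2), (nat_lit 516), (nat_lit 2)⟩))))
(.nd (.nd (.nd (.nd (.lf ⟨(nat_lit 260), (nat_lit 2), (nat_lit 0), (nat_lit 0)⟩)
(.lf ⟨(nat_lit 71), (nat_lit 2), (nat_lit 449), (nat_lit 2)⟩))
(.nd (.lf ⟨(nat_lit 135), (nat_lit 2), (nat_lit 450), (nat_lit 2)⟩)
(.lf ⟨(nat_lit 0x1c61441c6144), (nat_lit 8), (nat_lit 11), (nat_lit 1)⟩)))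
(.nd (.nd (.lf ⟨(nat_lit 200), (nat_lit 2), (nat_lit 0xb203), (nat_lit 3)⟩)
(.lf ⟨(nat_lit 196), (nat_lit 2), (nat_lit 0xb207103), (nat_lit 5)⟩))
(.lf ⟨(nat_lit 75), (nat_lit 2), (nat_lit 705), (nat_lit 2)⟩)))
(.nd (.nd (.nd (.lf ⟨(nat_lit 455), (nat_lit 2), (nat_lit 0), (nat_lit 0)⟩)
(.lf ⟨(nat_lit 0xc10830420c1083042), (nat_lit 12), (nat_lit 11), (nat_lit 1)⟩))
(.lf ⟨(nat_lit 262), (nat_lit 2), (nat_lit 0xa184), (nat_lit 3)⟩))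
(.nd (.nd (.lf ⟨(nat_lit 260), (nat_lit 2), (nat_lit 0), (nat_lit 0)⟩)
(.lf ⟨(nat_lit 0x204b207), (nat_lit 5), (nat_lit 0xb207081), (nat_lit 5)⟩))
(.lf ⟨(nat_lit 267), (nat_lit 2), (nat_lit 708), (nat_lit 2)⟩)))))
(.nd (.nd (.nd (.nd (.nd (.lf ⟨(nat_lit 130), (nat_lit 2), (nat_lit 0), (nat_lit 0)⟩)
(.lf ⟨(nat_lit 0xc2043081), (nat_lit 6), (nat_lit 0x1c6144), (nat_lit 4)⟩))
(.nd (.lf ⟨(nat_lit 72), (nat_lit 2), (nat_lit 513), (nat_lit 2)⟩)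
(.lf ⟨(nat_lit 196), (nat_lit 2), (nat_lit 0xb207103), (nat_lit 5)⟩)))
(.nd (.nd (.lf ⟨(nat_lit 715), (nat_lit 2), (nat_lit 0), (nat_lit 0)⟩)
(.lf ⟨(nat_lit 262), (nat_lit 2), (nat_lit 388), (nat_lit 2)⟩))
(.lf ⟨(nat_lit 139), (nat_lit 2), (nat_lit 706), (nat_lit 2)⟩)))
(.nd (.nd (.nd (.lf ⟨(nat_lit 390), (nat_lit 2), (nat_lit 0), (nat_lit 0)⟩)
(.lf ⟨(nat_lit 0xc10830420c1083042), (nat_lit 12), (nat_lit 714), (nat_lit 2)⟩))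
(.lf ⟨(nat_lit 326), (nat_lit 2), (nat_lit 0xb185), (nat_lit 3)⟩))
(.nd (.nd (.lf ⟨(nat_lit 68), (nat_lit 2), (nat_lit 257), (nat_lit 2)⟩)
(.lf ⟨(nat_lit 0x81081), (nat_lit 4), (nat_lit 4), (nat_lit 1)⟩))
(.lf ⟨(nat_lit 263), (nat_lit 2), (nat_lit 452), (nat_lit 2)⟩))))
(.nd (.nd (.nd (.nd (.lf ⟨(nat_lit 66), (nat_lit 2), (nat_lit 0x4081), (nat_lit 3)⟩)
(.lf ⟨(nat_lit 261), (nat_lit 2), (nat_lit 324), (nat_lit 2)⟩))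
(.nd (.lf ⟨(nat_lit 203), (nat_lit 2), (nat_lit 707), (nat_lit 2)⟩)
(.lf ⟨(nat_lit 0xc20430810c2043081), (nat_lit 12), (nat_lit 11), (nat_lit 1)⟩)))
(.nd (.nd (.lf ⟨(nat_lit 195), (nat_lit 2), (nat_lit 0), (nat_lit 0)⟩)
(.lf ⟨(nat_lit 0x2c81cb207), (nat_lit 6), (nat_lit 0), (nat_lit 0)⟩))
(.lf ⟨(nat_lit 199), (nat_lit 2), (nat_lit 0xb1c3), (nat_lit 3)⟩)))
(.nd (.nd (.nd (.lf ⟨(nat_lit 520), (nat_lit 2), (nat_lit 0), (nat_lit 0)⟩)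
(.lf ⟨(nat_lit 10), (nat_lit 1), (nat_lit 0), (nat_lit 0)⟩))
(.lf ⟨(nat_lit 395), (nat_lit 2), (nat_lit 710), (nat_lit 2)⟩))
(.nd (.nd (.lf ⟨(nat_lit 327), (nat_lit 2), (nat_lit 453), (nat_lit 2)⟩)
(.lf ⟨(nat_lit 0x2044), (nat_lit 3), (nat_lit 0x4081), (nat_lit 3)⟩))
(.lf ⟨(nat_lit 456), (nat_lit 2), (nat_lit 519), (nat_lit 2)⟩))))))

/-- Substitution. -/
def s4 : List (ℕ × ℕ) := [((nat_lit 129), (nat_lit 2)), ((nat_lit 3), (nat_lit 1)), ((nat_lit 0xb207), (nat_lit 3)), ((nat_lit 4), (nat_lit 1))]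

/-- Context. -/
noncomputable def x4 : ℕ → ℕ × ℕ :=
  mkc d2 70 s2 x2 (nth [] (Cl.alts (nsCl 3 [[0, 1, 2, 6], [4, 1, 3, 4], [0], [0, 1], [0, 1, 2]])) 1)

set_option maxRecDepth 100000 in
/-- Facts. -/
noncomputable def d5 : Tr :=
(.nd (.nd (.nd (.nd (.nd (.nd (.lf ⟨(nat_lit 65), (nat_lit 2), (nat_lit 0), (nat_lit 0)⟩)
(.lf ⟨(nat_lit 11), (nat_lit 1), (nat_lit 0), (nat_lit 0)⟩))
(.lf ⟨(nat_lit 134), (nat_lit 2), (nat_lit 386), (nat_lit 2)⟩))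
(.nd (.lf ⟨(nat_lit 520), (nat_lit 2), (nat_lit 0), (nat_lit 0)⟩)
(.lf ⟨(nat_lit 328), (nat_lit 2), (nat_lit 517), (nat_lit 2)⟩)))
(.nd (.nd (.lf ⟨(nat_lit 67), (nat_lit 2), (nat_lit 0x50c1), (nat_lit 3)⟩)
(.lf ⟨(nat_lit 135), (nat_lit 2), (nat_lit 450), (nat_lit 2)⟩))
(.nd (.lf ⟨(nat_lit 197), (nat_lit 2), (nat_lit 323), (nat_lit 2)⟩)
(.lf ⟨(nat_lit 262), (nat_lit 2), (nat_lit 388), (nat_lit 2)⟩))))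
(.nd (.nd (.nd (.lf ⟨(nat_lit 195), (nat_lit 2), (nat_lit 0), (nat_lit 0)⟩)
(.lf ⟨(nat_lit 391), (nat_lit 2), (nat_lit 454), (nat_lit 2)⟩))
(.nd (.lf ⟨(nat_lit 200), (nat_lit 2), (nat_lit 0xb203), (nat_lit 3)⟩)
(.lf ⟨(nat_lit 71), (nat_lit 2), (nat_lit 449), (nat_lit 2)⟩)))
(.nd (.nd (.lf ⟨(nat_lit 455), (nat_lit 2), (nat_lit 0), (nat_lit 0)⟩)
(.lf ⟨(nat_lit 326), (nat_lit 2), (nat_lit 0xb185), (nat_lit 3)⟩))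
(.nd (.lf ⟨(nat_lit 68), (nat_lit 2), (nat_lit 257), (nat_lit 2)⟩)
(.lf ⟨(nat_lit 0xc20430810c2043081), (nat_lit 12), (nat_lit 11), (nat_lit 1)⟩)))))
(.nd (.nd (.nd (.nd (.nd (.lf ⟨(nat_lit 130), (nat_lit 2), (nat_lit 0), (nat_lit 0)⟩)
(.lf ⟨(nat_lit 0xc2043081), (nat_lit 6), (nat_lit 0x420c1083), (nat_lit 6)⟩))
(.lf ⟨(nat_lit 327), (nat_lit 2), (nat_lit 453), (nat_lit 2)⟩))
(.nd (.lf ⟨(nat_lit 70), (nat_lit 2), (nat_lit 0x8181), (nat_lit 3)⟩)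
(.lf ⟨(nat_lit 456), (nat_lit 2), (nat_lit 519), (nat_lit 2)⟩)))
(.nd (.nd (.lf ⟨(nat_lit 131), (nat_lit 2), (nat_lit 0x60c2), (nat_lit 3)⟩)
(.lf ⟨(nat_lit 392), (nat_lit 2), (nat_lit 518), (nat_lit 2)⟩))
(.nd (.lf ⟨(nat_lit 198), (nat_lit 2), (nat_lit 387), (nat_lit 2)⟩)
(.lf ⟨(nat_lit 196), (nat_lit 2), (nat_lit 0xb207103), (nat_lit 5)⟩))))
(.nd (.nd (.nd (.lf ⟨(nat_lit 66), (nat_lit 2), (nat_lit 0x4081), (nat_lit 3)⟩)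
(.lf ⟨(nat_lit 72), (nat_lit 2), (nat_lit 513), (nat_lit 2)⟩))
(.nd (.lf ⟨(nat_lit 132), (nat_lit 2), (nat_lit 258), (nat_lit 2)⟩)
(.lf ⟨(nat_lit 136), (nat_lit 2), (nat_lit 514), (nat_lit 2)⟩)))
(.nd (.nd (.lf ⟨(nat_lit 133), (nat_lit 2), (nat_lit 0x7142), (nat_lit 3)⟩)
(.lf ⟨(nat_lit 199), (nat_lit 2), (nat_lit 0xb1c3), (nat_lit 3)⟩))
(.nd (.lf ⟨(nat_lit 69), (nat_lit 2), (nat_lit 321), (nat_lit 2)⟩)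
(.lf ⟨(nat_lit 0xc20430810c2043081), (nat_lit 12), (nat_lit 0), (nat_lit 0)⟩))))))

/-- Context. -/
noncomputable def x5 : ℕ → ℕ × ℕ :=
  mkc d4 52 s4 x4 (nth [] (Cl.alts (nsCl 2 [[2, 1, 2], [0, 1, 3], [0], [0, 1]])) 0)

set_option maxRecDepth 100000 in
/-- Facts. -/
noncomputable def d6 : Tr :=
(.nd (.nd (.nd (.nd (.nd (.nd (.lf ⟨(nat_lit 65), (nat_lit 2), (nat_lit 0), (nat_lit 0)⟩)
(.lf ⟨(nat_lit 196), (nat_lit 2), (nat_lit 0xb207103), (nat_lit 5)⟩))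
(.lf ⟨(nat_lit 198), (nat_lit 2), (nat_lit 387), (nat_lit 2)⟩))
(.nd (.nd (.lf ⟨(nat_lit 131), (nat_lit 2), (nat_lit 0x60c2), (nat_lit 3)⟩)
(.lf ⟨(nat_lit 0x3204), (nat_lit 3), (nat_lit 0x8103), (nat_lit 3)⟩))
(.lf ⟨(nat_lit 139), (nat_lit 2), (nat_lit 706), (nat_lit 2)⟩)))
(.nd (.nd (.nd (.lf ⟨(nat_lit 66), (nat_lit 2), (nat_lit 0x4081), (nat_lit 3)⟩)
(.lf ⟨(nat_lit 133), (nat_lit 2), (nat_lit 0x8142), (nat_lit 3)⟩))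
(.lf ⟨(nat_lit 203), (nat_lit 2), (nat_lit 707), (nat_lit 2)⟩))
(.nd (.nd (.lf ⟨(nat_lit 200), (nat_lit 2), (nat_lit 0xb203), (nat_lit 3)⟩)
(.lf ⟨(nat_lit 0xc50810c50810c50810c5081), (nat_lit 16), (nat_lit 11), (nat_lit 1)⟩))
(.lf ⟨(nat_lit 267), (nat_lit 2), (nat_lit 708), (nat_lit 2)⟩))))
(.nd (.nd (.nd (.nd (.lf ⟨(nat_lit 195), (nat_lit 2), (nat_lit 0), (nat_lit 0)⟩)
(.lf ⟨(nat_lit 0xc20430810c2043081), (nat_lit 12), (nat_lit 0xb207), (nat_lit 3)⟩))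
(.lf ⟨(nat_lit 69), (nat_lit 2), (nat_lit 321), (nat_lit 2)⟩))
(.nd (.nd (.lf ⟨(nat_lit 520), (nat_lit 2), (nat_lit 0), (nat_lit 0)⟩)
(.lf ⟨(nat_lit 0x143081143081), (nat_lit 8), (nat_lit 0x2c6144), (nat_lit 4)⟩))
(.lf ⟨(nat_lit 331), (nat_lit 2), (nat_lit 709), (nat_lit 2)⟩)))
(.nd (.nd (.nd (.lf ⟨(nat_lit 67), (nat_lit 2), (nat_lit 0x50c1), (nat_lit 3)⟩)
(.lf ⟨(nat_lit 0x142045081), (nat_lit 6), (nat_lit 516), (nat_lit 2)⟩))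
(.lf ⟨(nat_lit 326), (nat_lit 2), (nat_lit 0xb185), (nat_lit 3)⟩))
(.nd (.lf ⟨(nat_lit 132), (nat_lit 2), (nat_lit 258), (nat_lit 2)⟩)
(.lf ⟨(nat_lit 136), (nat_lit 2), (nat_lit 514), (nat_lit 2)⟩)))))
(.nd (.nd (.nd (.nd (.nd (.lf ⟨(nat_lit 130), (nat_lit 2), (nat_lit 0), (nat_lit 0)⟩)
(.lf ⟨(nat_lit 0xc20430810c2043081), (nat_lit 12), (nat_lit 11), (nat_lit 1)⟩))
(.lf ⟨(nat_lit 68), (nat_lit 2), (nat_lit 257), (nat_lit 2)⟩))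
(.nd (.nd (.lf ⟨(nat_lit 133), (nat_lit 2), (nat_lit 0x7142), (nat_lit 3)⟩)
(.lf ⟨(nat_lit 0xc5081), (nat_lit 4), (nat_lit 0x143081), (nat_lit 4)⟩))
(.lf ⟨(nat_lit 328), (nat_lit 2), (nat_lit 517), (nat_lit 2)⟩)))
(.nd (.nd (.nd (.lf ⟨(nat_lit 325), (nat_lit 2), (nat_lit 0), (nat_lit 0)⟩)
(.lf ⟨(nat_lit 196), (nat_lit 2), (nat_lit 0xb103), (nat_lit 3)⟩))
(.lf ⟨(nat_lit 523), (nat_lit 2), (nat_lit 712), (nat_lit 2)⟩))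
(.nd (.lf ⟨(nat_lit 195), (nat_lit 2), (nat_lit 0), (nat_lit 0)⟩)
(.lf ⟨(nat_lit 261), (nat_lit 2), (nat_lit 324), (nat_lit 2)⟩))))
(.nd (.nd (.nd (.nd (.lf ⟨(nat_lit 260), (nat_lit 2), (nat_lit 0), (nat_lit 0)⟩)
(.lf ⟨(nat_lit 7), (nat_lit 1), (nat_lit 8), (nat_lit 1)⟩))
(.lf ⟨(nat_lit 72), (nat_lit 2), (nat_lit 513), (nat_lit 2)⟩))
(.nd (.nd (.lf ⟨(nat_lit 715), (nat_lit 2), (nat_lit 0), (nat_lit 0)⟩)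
(.lf ⟨(nat_lit 0x2c61442c6144), (nat_lit 8), (nat_lit 11), (nat_lit 1)⟩))
(.lf ⟨(nat_lit 0x204204), (nat_lit 4), (nat_lit 0), (nat_lit 0)⟩)))
(.nd (.nd (.nd (.lf ⟨(nat_lit 390), (nat_lit 2), (nat_lit 0), (nat_lit 0)⟩)
(.lf ⟨(nat_lit 0x5081204), (nat_lit 5), (nat_lit 0x8105081), (nat_lit 5)⟩))
(.lf ⟨(nat_lit 395), (nat_lit 2), (nat_lit 710), (nat_lit 2)⟩))
(.nd (.lf ⟨(nat_lit 197), (nat_lit 2), (nat_lit 323), (nat_lit 2)⟩)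
(.lf ⟨(nat_lit 262), (nat_lit 2), (nat_lit 388), (nat_lit 2)⟩))))))

/-- Substitution. -/
def s6 : List (ℕ × ℕ) := [((nat_lit 0x5081), (nat_lit 3)), ((nat_lit 3), (nat_lit 1)), ((nat_lit 516), (nat_lit 2))]

/-- Context. -/
noncomputable def x6 : ℕ → ℕ × ℕ :=
  mkc d4 52 s4 x4 (nth [] (Cl.alts (nsCl 2 [[2, 1, 2], [0, 1, 3], [0], [0, 1]])) 1)

set_option maxRecDepth 100000 in
/-- Facts. -/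
noncomputable def d7 : Tr :=
(.nd (.nd (.nd (.nd (.nd (.lf ⟨(nat_lit 65), (nat_lit 2), (nat_lit 0), (nat_lit 0)⟩)
(.lf ⟨(nat_lit 326), (nat_lit 2), (nat_lit 0xb185), (nat_lit 3)⟩))
(.nd (.lf ⟨(nat_lit 200), (nat_lit 2), (nat_lit 0xb203), (nat_lit 3)⟩)
(.lf ⟨(nat_lit 0xc2043081), (nat_lit 6), (nat_lit 0x420c1083), (nat_lit 6)⟩)))
(.nd (.nd (.lf ⟨(nat_lit 67), (nat_lit 2), (nat_lit 0x50c1), (nat_lit 3)⟩)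
(.lf ⟨(nat_lit 196), (nat_lit 2), (nat_lit 0xb103), (nat_lit 3)⟩))
(.lf ⟨(nat_lit 68), (nat_lit 2), (nat_lit 257), (nat_lit 2)⟩)))
(.nd (.nd (.nd (.lf ⟨(nat_lit 195), (nat_lit 2), (nat_lit 0), (nat_lit 0)⟩)
(.lf ⟨(nat_lit 262), (nat_lit 2), (nat_lit 388), (nat_lit 2)⟩))
(.lf ⟨(nat_lit 197), (nat_lit 2), (nat_lit 323), (nat_lit 2)⟩))
(.nd (.nd (.lf ⟨(nat_lit 520), (nat_lit 2), (nat_lit 0), (nat_lit 0)⟩)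
(.lf ⟨(nat_lit 0xc50810c50810c50810c5081), (nat_lit 16), (nat_lit 0), (nat_lit 0)⟩))
(.lf ⟨(nat_lit 134), (nat_lit 2), (nat_lit 386), (nat_lit 2)⟩))))
(.nd (.nd (.nd (.nd (.lf ⟨(nat_lit 130), (nat_lit 2), (nat_lit 0), (nat_lit 0)⟩)
(.lf ⟨(nat_lit 136), (nat_lit 2), (nat_lit 514), (nat_lit 2)⟩))
(.lf ⟨(nat_lit 132), (nat_lit 2), (nat_lit 258), (nat_lit 2)⟩))
(.nd (.nd (.lf ⟨(nat_lit 131), (nat_lit 2), (nat_lit 0x60c2), (nat_lit 3)⟩)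
(.lf ⟨(nat_lit 0xc50810c50810c50810c5081), (nat_lit 16), (nat_lit 11), (nat_lit 1)⟩))
(.lf ⟨(nat_lit 69), (nat_lit 2), (nat_lit 321), (nat_lit 2)⟩)))
(.nd (.nd (.nd (.lf ⟨(nat_lit 66), (nat_lit 2), (nat_lit 0x4081), (nat_lit 3)⟩)
(.lf ⟨(nat_lit 133), (nat_lit 2), (nat_lit 0x8142), (nat_lit 3)⟩))
(.lf ⟨(nat_lit 198), (nat_lit 2), (nat_lit 387), (nat_lit 2)⟩))
(.nd (.nd (.lf ⟨(nat_lit 70), (nat_lit 2), (nat_lit 0x8181), (nat_lit 3)⟩)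
(.lf ⟨(nat_lit 11), (nat_lit 1), (nat_lit 0), (nat_lit 0)⟩))
(.lf ⟨(nat_lit 392), (nat_lit 2), (nat_lit 518), (nat_lit 2)⟩)))))

/-- Context. -/
noncomputable def x7 : ℕ → ℕ × ℕ :=
  mkc d6 45 s6 x6 (nth [] (Cl.alts (nsCl 1 [[1, 1], [0, 1], [0]])) 0)

set_option maxRecDepth 100000 in
/-- Facts. -/
noncomputable def d8 : Tr :=
(.nd (.nd (.nd (.nd (.nd (.nd (.lf ⟨(nat_lit 65), (nat_lit 2), (nat_lit 0), (nat_lit 0)⟩)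
(.lf ⟨(nat_lit 66), (nat_lit 2), (nat_lit 0x2c8081), (nat_lit 4)⟩))
(.lf ⟨(nat_lit 69), (nat_lit 2), (nat_lit 321), (nat_lit 2)⟩))
(.nd (.nd (.lf ⟨(nat_lit 520), (nat_lit 2), (nat_lit 0), (nat_lit 0)⟩)
(.lf ⟨(nat_lit 326), (nat_lit 2), (nat_lit 389), (nat_lit 2)⟩))
(.lf ⟨(nat_lit 395), (nat_lit 2), (nat_lit 710), (nat_lit 2)⟩)))
(.nd (.nd (.nd (.lf ⟨(nat_lit 325), (nat_lit 2), (nat_lit 0), (nat_lit 0)⟩)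
(.lf ⟨(nat_lit 11), (nat_lit 1), (nat_lit 0xcb2032c8), (nat_lit 6)⟩))
(.lf ⟨(nat_lit 203), (nat_lit 2), (nat_lit 707), (nat_lit 2)⟩))
(.nd (.lf ⟨(nat_lit 65), (nat_lit 2), (nat_lit 0), (nat_lit 0)⟩)
(.lf ⟨(nat_lit 133), (nat_lit 2), (nat_lit 0x8142), (nat_lit 3)⟩))))
(.nd (.nd (.nd (.nd (.lf ⟨(nat_lit 195), (nat_lit 2), (nat_lit 0), (nat_lit 0)⟩)
(.lf ⟨(nat_lit 5), (nat_lit 1), (nat_lit 0xc10c1), (nat_lit 4)⟩))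
(.lf ⟨(nat_lit 0x182182), (nat_lit 4), (nat_lit 0), (nat_lit 0)⟩))
(.nd (.nd (.lf ⟨(nat_lit 715), (nat_lit 2), (nat_lit 0), (nat_lit 0)⟩)
(.lf ⟨(nat_lit 0xc2043081), (nat_lit 6), (nat_lit 0x420c1083), (nat_lit 6)⟩))
(.lf ⟨(nat_lit 328), (nat_lit 2), (nat_lit 517), (nat_lit 2)⟩)))
(.nd (.nd (.nd (.lf ⟨(nat_lit 390), (nat_lit 2), (nat_lit 0), (nat_lit 0)⟩)
(.lf ⟨(nat_lit 11), (nat_lit 1), (nat_lit 0), (nat_lit 0)⟩))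
(.lf ⟨(nat_lit 523), (nat_lit 2), (nat_lit 712), (nat_lit 2)⟩))
(.nd (.lf ⟨(nat_lit 197), (nat_lit 2), (nat_lit 323), (nat_lit 2)⟩)
(.lf ⟨(nat_lit 0xc50810c50810c50810c5081), (nat_lit 16), (nat_lit 516), (nat_lit 2)⟩)))))
(.nd (.nd (.nd (.nd (.nd (.lf ⟨(nat_lit 130), (nat_lit 2), (nat_lit 0), (nat_lit 0)⟩)
(.lf ⟨(nat_lit 0x182046081), (nat_lit 6), (nat_lit 11), (nat_lit 1)⟩))
(.lf ⟨(nat_lit 134), (nat_lit 2), (nat_lit 386), (nat_lit 2)⟩))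
(.nd (.nd (.lf ⟨(nat_lit 70), (nat_lit 2), (nat_lit 0x8181), (nat_lit 3)⟩)
(.lf ⟨(nat_lit 66), (nat_lit 2), (nat_lit 0x8081), (nat_lit 3)⟩))
(.lf ⟨(nat_lit 139), (nat_lit 2), (nat_lit 706), (nat_lit 2)⟩)))
(.nd (.nd (.nd (.lf ⟨(nat_lit 67), (nat_lit 2), (nat_lit 0x50c1), (nat_lit 3)⟩)
(.lf ⟨(nat_lit 0x6081), (nat_lit 3), (nat_lit 0x1182), (nat_lit 3)⟩))
(.lf ⟨(nat_lit 392), (nat_lit 2), (nat_lit 518), (nat_lit 2)⟩))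
(.nd (.lf ⟨(nat_lit 195), (nat_lit 2), (nat_lit 0), (nat_lit 0)⟩)
(.lf ⟨(nat_lit 0xc50810c50810c50810c5081), (nat_lit 16), (nat_lit 11), (nat_lit 1)⟩))))
(.nd (.nd (.nd (.nd (.lf ⟨(nat_lit 66), (nat_lit 2), (nat_lit 0x4081), (nat_lit 3)⟩)
(.lf ⟨(nat_lit 712), (nat_lit 2), (nat_lit 0x182146085), (nat_lit 6)⟩))
(.lf ⟨(nat_lit 72), (nat_lit 2), (nat_lit 513), (nat_lit 2)⟩))
(.nd (.lf ⟨(nat_lit 200), (nat_lit 2), (nat_lit 0xb203), (nat_lit 3)⟩)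
(.lf ⟨(nat_lit 136), (nat_lit 2), (nat_lit 514), (nat_lit 2)⟩)))
(.nd (.nd (.nd (.lf ⟨(nat_lit 131), (nat_lit 2), (nat_lit 0x60c2), (nat_lit 3)⟩)
(.lf ⟨(nat_lit 200), (nat_lit 2), (nat_lit 515), (nat_lit 2)⟩))
(.lf ⟨(nat_lit 326), (nat_lit 2), (nat_lit 0xb185), (nat_lit 3)⟩))
(.nd (.lf ⟨(nat_lit 198), (nat_lit 2), (nat_lit 387), (nat_lit 2)⟩)
(.lf ⟨(nat_lit 4), (nat_lit 1), (nat_lit 712), (nat_lit 2)⟩))))))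

/-- Context. -/
noncomputable def x8 : ℕ → ℕ × ℕ :=
  mkc d6 45 s6 x6 (nth [] (Cl.alts (nsCl 1 [[1, 1], [0, 1], [0]])) 1)

set_option maxRecDepth 100000 in
/-- Facts. -/
noncomputable def d9 : Tr :=
(.nd (.nd (.nd (.nd (.nd (.nd (.lf ⟨(nat_lit 65), (nat_lit 2), (nat_lit 0), (nat_lit 0)⟩)
(.lf ⟨(nat_lit 66), (nat_lit 2), (nat_lit 0xb081), (nat_lit 3)⟩))
(.lf ⟨(nat_lit 198), (nat_lit 2), (nat_lit 387), (nat_lit 2)⟩))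
(.nd (.nd (.lf ⟨(nat_lit 520), (nat_lit 2), (nat_lit 0), (nat_lit 0)⟩)
(.lf ⟨(nat_lit 11), (nat_lit 1), (nat_lit 0), (nat_lit 0)⟩))
(.lf ⟨(nat_lit 139), (nat_lit 2), (nat_lit 706), (nat_lit 2)⟩)))
(.nd (.nd (.nd (.lf ⟨(nat_lit 325), (nat_lit 2), (nat_lit 0), (nat_lit 0)⟩)
(.lf ⟨(nat_lit 5), (nat_lit 1), (nat_lit 0xc10c1), (nat_lit 4)⟩))
(.lf ⟨(nat_lit 392), (nat_lit 2), (nat_lit 518), (nat_lit 2)⟩))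
(.nd (.nd (.lf ⟨(nat_lit 65), (nat_lit 2), (nat_lit 0), (nat_lit 0)⟩)
(.lf ⟨(nat_lit 133), (nat_lit 2), (nat_lit 0x8142), (nat_lit 3)⟩))
(.lf ⟨(nat_lit 196), (nat_lit 2), (nat_lit 0xb207103), (nat_lit 5)⟩))))
(.nd (.nd (.nd (.nd (.lf ⟨(nat_lit 195), (nat_lit 2), (nat_lit 0), (nat_lit 0)⟩)
(.lf ⟨(nat_lit 133), (nat_lit 2), (nat_lit 0x2c8142), (nat_lit 4)⟩))
(.lf ⟨(nat_lit 134), (nat_lit 2), (nat_lit 386), (nat_lit 2)⟩))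
(.nd (.nd (.lf ⟨(nat_lit 715), (nat_lit 2), (nat_lit 0), (nat_lit 0)⟩)
(.lf ⟨(nat_lit 326), (nat_lit 2), (nat_lit 389), (nat_lit 2)⟩))
(.lf ⟨(nat_lit 331), (nat_lit 2), (nat_lit 709), (nat_lit 2)⟩)))
(.nd (.nd (.nd (.lf ⟨(nat_lit 131), (nat_lit 2), (nat_lit 0x60c2), (nat_lit 3)⟩)
(.lf ⟨(nat_lit 11), (nat_lit 1), (nat_lit 0xcb2032c8), (nat_lit 6)⟩))
(.lf ⟨(nat_lit 326), (nat_lit 2), (nat_lit 0xb185), (nat_lit 3)⟩))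
(.nd (.lf ⟨(nat_lit 195), (nat_lit 2), (nat_lit 0), (nat_lit 0)⟩)
(.lf ⟨(nat_lit 0xc20430810c2043081), (nat_lit 12), (nat_lit 4), (nat_lit 1)⟩)))))
(.nd (.nd (.nd (.nd (.nd (.lf ⟨(nat_lit 130), (nat_lit 2), (nat_lit 0), (nat_lit 0)⟩)
(.lf ⟨(nat_lit 7), (nat_lit 1), (nat_lit 712), (nat_lit 2)⟩))
(.lf ⟨(nat_lit 69), (nat_lit 2), (nat_lit 321), (nat_lit 2)⟩))
(.nd (.nd (.lf ⟨(nat_lit 70), (nat_lit 2), (nat_lit 0x8181), (nat_lit 3)⟩)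
(.lf ⟨(nat_lit 200), (nat_lit 2), (nat_lit 515), (nat_lit 2)⟩))
(.lf ⟨(nat_lit 328), (nat_lit 2), (nat_lit 517), (nat_lit 2)⟩)))
(.nd (.nd (.nd (.lf ⟨(nat_lit 67), (nat_lit 2), (nat_lit 0x50c1), (nat_lit 3)⟩)
(.lf ⟨(nat_lit 712), (nat_lit 2), (nat_lit 0x85085), (nat_lit 4)⟩))
(.lf ⟨(nat_lit 523), (nat_lit 2), (nat_lit 712), (nat_lit 2)⟩))
(.nd (.nd (.lf ⟨(nat_lit 130), (nat_lit 2), (nat_lit 0), (nat_lit 0)⟩)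
(.lf ⟨(nat_lit 0xc2043081), (nat_lit 6), (nat_lit 0x420c1083), (nat_lit 6)⟩))
(.lf ⟨(nat_lit 0xc20430810c2043081), (nat_lit 12), (nat_lit 11), (nat_lit 1)⟩))))
(.nd (.nd (.nd (.nd (.lf ⟨(nat_lit 66), (nat_lit 2), (nat_lit 0x4081), (nat_lit 3)⟩)
(.lf ⟨(nat_lit 0x81081), (nat_lit 4), (nat_lit 11), (nat_lit 1)⟩))
(.lf ⟨(nat_lit 203), (nat_lit 2), (nat_lit 707), (nat_lit 2)⟩))
(.nd (.nd (.lf ⟨(nat_lit 200), (nat_lit 2), (nat_lit 0xb203), (nat_lit 3)⟩)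
(.lf ⟨(nat_lit 66), (nat_lit 2), (nat_lit 129), (nat_lit 2)⟩))
(.lf ⟨(nat_lit 136), (nat_lit 2), (nat_lit 514), (nat_lit 2)⟩)))
(.nd (.nd (.nd (.lf ⟨(nat_lit 133), (nat_lit 2), (nat_lit 0x7142), (nat_lit 3)⟩)
(.lf ⟨(nat_lit 129), (nat_lit 2), (nat_lit 66), (nat_lit 2)⟩))
(.lf ⟨(nat_lit 459), (nat_lit 2), (nat_lit 711), (nat_lit 2)⟩))
(.nd (.lf ⟨(nat_lit 197), (nat_lit 2), (nat_lit 323), (nat_lit 2)⟩)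
(.lf ⟨(nat_lit 4), (nat_lit 1), (nat_lit 11), (nat_lit 1)⟩))))))

/-- Context. -/
noncomputable def x9 : ℕ → ℕ × ℕ :=
  mkc d4 52 s4 x4 (nth [] (Cl.alts (nsCl 2 [[2, 1, 2], [0, 1, 3], [0], [0, 1]])) 2)

set_option maxRecDepth 100000 in
/-- Facts. -/
noncomputable def d10 : Tr :=
(.nd (.nd (.nd (.nd (.nd (.nd (.lf ⟨(nat_lit 65), (nat_lit 2), (nat_lit 0), (nat_lit 0)⟩)
(.lf ⟨(nat_lit 0xc20430810c2043081), (nat_lit 12), (nat_lit 0x2c81c4), (nat_lit 4)⟩))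
(.nd (.lf ⟨(nat_lit 197), (nat_lit 2), (nat_lit 323), (nat_lit 2)⟩)
(.lf ⟨(nat_lit 0xc2043081), (nat_lit 6), (nat_lit 0x420c1083), (nat_lit 6)⟩)))
(.nd (.nd (.lf ⟨(nat_lit 133), (nat_lit 2), (nat_lit 0x7142), (nat_lit 3)⟩)
(.lf ⟨(nat_lit 712), (nat_lit 2), (nat_lit 0x85085), (nat_lit 4)⟩))
(.lf ⟨(nat_lit 139), (nat_lit 2), (nat_lit 706), (nat_lit 2)⟩)))
(.nd (.nd (.nd (.lf ⟨(nat_lit 325), (nat_lit 2), (nat_lit 0), (nat_lit 0)⟩)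
(.lf ⟨(nat_lit 133), (nat_lit 2), (nat_lit 0x2c8142), (nat_lit 4)⟩))
(.lf ⟨(nat_lit 203), (nat_lit 2), (nat_lit 707), (nat_lit 2)⟩))
(.nd (.nd (.lf ⟨(nat_lit 200), (nat_lit 2), (nat_lit 0xb203), (nat_lit 3)⟩)
(.lf ⟨(nat_lit 200), (nat_lit 2), (nat_lit 515), (nat_lit 2)⟩))
(.lf ⟨(nat_lit 456), (nat_lit 2), (nat_lit 519), (nat_lit 2)⟩))))
(.nd (.nd (.nd (.nd (.lf ⟨(nat_lit 195), (nat_lit 2), (nat_lit 0), (nat_lit 0)⟩)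
(.lf ⟨(nat_lit 66), (nat_lit 2), (nat_lit 0x207081), (nat_lit 4)⟩))
(.lf ⟨(nat_lit 69), (nat_lit 2), (nat_lit 321), (nat_lit 2)⟩))
(.nd (.nd (.lf ⟨(nat_lit 70), (nat_lit 2), (nat_lit 0x8181), (nat_lit 3)⟩)
(.lf ⟨(nat_lit 129), (nat_lit 2), (nat_lit 66), (nat_lit 2)⟩))
(.lf ⟨(nat_lit 328), (nat_lit 2), (nat_lit 517), (nat_lit 2)⟩)))
(.nd (.nd (.nd (.lf ⟨(nat_lit 131), (nat_lit 2), (nat_lit 0x60c2), (nat_lit 3)⟩)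
(.lf ⟨(nat_lit 0x81081), (nat_lit 4), (nat_lit 11), (nat_lit 1)⟩))
(.lf ⟨(nat_lit 523), (nat_lit 2), (nat_lit 712), (nat_lit 2)⟩))
(.nd (.nd (.lf ⟨(nat_lit 130), (nat_lit 2), (nat_lit 0), (nat_lit 0)⟩)
(.lf ⟨(nat_lit 133), (nat_lit 2), (nat_lit 0x8142), (nat_lit 3)⟩))
(.lf ⟨(nat_lit 196), (nat_lit 2), (nat_lit 0xb207103), (nat_lit 5)⟩)))))
(.nd (.nd (.nd (.nd (.nd (.lf ⟨(nat_lit 130), (nat_lit 2), (nat_lit 0), (nat_lit 0)⟩)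
(.lf ⟨(nat_lit 4), (nat_lit 1), (nat_lit 519), (nat_lit 2)⟩))
(.lf ⟨(nat_lit 198), (nat_lit 2), (nat_lit 387), (nat_lit 2)⟩))
(.nd (.nd (.lf ⟨(nat_lit 520), (nat_lit 2), (nat_lit 0), (nat_lit 0)⟩)
(.lf ⟨(nat_lit 11), (nat_lit 1), (nat_lit 0xcb2032c8), (nat_lit 6)⟩))
(.lf ⟨(nat_lit 199), (nat_lit 2), (nat_lit 0xb1c3), (nat_lit 3)⟩)))
(.nd (.nd (.nd (.lf ⟨(nat_lit 67), (nat_lit 2), (nat_lit 0x50c1), (nat_lit 3)⟩)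
(.lf ⟨(nat_lit 66), (nat_lit 2), (nat_lit 0xb081), (nat_lit 3)⟩))
(.lf ⟨(nat_lit 392), (nat_lit 2), (nat_lit 518), (nat_lit 2)⟩))
(.nd (.nd (.lf ⟨(nat_lit 65), (nat_lit 2), (nat_lit 0), (nat_lit 0)⟩)
(.lf ⟨(nat_lit 326), (nat_lit 2), (nat_lit 389), (nat_lit 2)⟩))
(.lf ⟨(nat_lit 136), (nat_lit 2), (nat_lit 514), (nat_lit 2)⟩))))
(.nd (.nd (.nd (.nd (.lf ⟨(nat_lit 66), (nat_lit 2), (nat_lit 0x4081), (nat_lit 3)⟩)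
(.lf ⟨(nat_lit 7), (nat_lit 1), (nat_lit 712), (nat_lit 2)⟩))
(.lf ⟨(nat_lit 134), (nat_lit 2), (nat_lit 386), (nat_lit 2)⟩))
(.nd (.nd (.lf ⟨(nat_lit 715), (nat_lit 2), (nat_lit 0), (nat_lit 0)⟩)
(.lf ⟨(nat_lit 11), (nat_lit 1), (nat_lit 0), (nat_lit 0)⟩))
(.lf ⟨(nat_lit 331), (nat_lit 2), (nat_lit 709), (nat_lit 2)⟩)))
(.nd (.nd (.nd (.lf ⟨(nat_lit 455), (nat_lit 2), (nat_lit 0), (nat_lit 0)⟩)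
(.lf ⟨(nat_lit 5), (nat_lit 1), (nat_lit 0xc10c1), (nat_lit 4)⟩))
(.lf ⟨(nat_lit 326), (nat_lit 2), (nat_lit 0xb185), (nat_lit 3)⟩))
(.nd (.nd (.lf ⟨(nat_lit 195), (nat_lit 2), (nat_lit 0), (nat_lit 0)⟩)
(.lf ⟨(nat_lit 66), (nat_lit 2), (nat_lit 129), (nat_lit 2)⟩))
(.lf ⟨(nat_lit 0xc20430810c2043081), (nat_lit 12), (nat_lit 11), (nat_lit 1)⟩))))))

/-- Context. -/
noncomputable def x10 : ℕ → ℕ × ℕ :=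
  mkc d4 52 s4 x4 (nth [] (Cl.alts (nsCl 2 [[2, 1, 2], [0, 1, 3], [0], [0, 1]])) 3)

set_option maxRecDepth 100000 in
/-- Facts. -/
noncomputable def d11 : Tr :=
(.nd (.nd (.nd (.nd (.nd (.nd (.lf ⟨(nat_lit 65), (nat_lit 2), (nat_lit 0), (nat_lit 0)⟩)
(.lf ⟨(nat_lit 202), (nat_lit 2), (nat_lit 643), (nat_lit 2)⟩))
(.nd (.lf ⟨(nat_lit 132), (nat_lit 2), (nat_lit 258), (nat_lit 2)⟩)
(.lf ⟨(nat_lit 0x103042), (nat_lit 4), (nat_lit 0x203081), (nat_lit 4)⟩)))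
(.nd (.nd (.lf ⟨(nat_lit 131), (nat_lit 2), (nat_lit 0x60c2), (nat_lit 3)⟩)
(.lf ⟨(nat_lit 11), (nat_lit 1), (nat_lit 0), (nat_lit 0)⟩))
(.lf ⟨(nat_lit 522), (nat_lit 2), (nat_lit 648), (nat_lit 2)⟩)))
(.nd (.nd (.nd (.lf ⟨(nat_lit 66), (nat_lit 2), (nat_lit 0x4081), (nat_lit 3)⟩)
(.lf ⟨(nat_lit 0xc10830420c1083042), (nat_lit 12), (nat_lit 714), (nat_lit 2)⟩))
(.lf ⟨(nat_lit 69), (nat_lit 2), (nat_lit 321), (nat_lit 2)⟩))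
(.nd (.nd (.lf ⟨(nat_lit 136), (nat_lit 2), (nat_lit 0xa202), (nat_lit 3)⟩)
(.lf ⟨(nat_lit 133), (nat_lit 2), (nat_lit 0xa142), (nat_lit 3)⟩))
(.lf ⟨(nat_lit 199), (nat_lit 2), (nat_lit 0xb1c3), (nat_lit 3)⟩))))
(.nd (.nd (.nd (.nd (.lf ⟨(nat_lit 195), (nat_lit 2), (nat_lit 0), (nat_lit 0)⟩)
(.lf ⟨(nat_lit 261), (nat_lit 2), (nat_lit 324), (nat_lit 2)⟩))
(.nd (.lf ⟨(nat_lit 198), (nat_lit 2), (nat_lit 387), (nat_lit 2)⟩)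
(.lf ⟨(nat_lit 0x185106144), (nat_lit 6), (nat_lit 10), (nat_lit 1)⟩)))
(.nd (.nd (.lf ⟨(nat_lit 520), (nat_lit 2), (nat_lit 0), (nat_lit 0)⟩)
(.lf ⟨(nat_lit 200), (nat_lit 2), (nat_lit 515), (nat_lit 2)⟩))
(.lf ⟨(nat_lit 262), (nat_lit 2), (nat_lit 0xa184), (nat_lit 3)⟩)))
(.nd (.nd (.nd (.lf ⟨(nat_lit 67), (nat_lit 2), (nat_lit 0x50c1), (nat_lit 3)⟩)
(.lf ⟨(nat_lit 7), (nat_lit 1), (nat_lit 714), (nat_lit 2)⟩))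
(.lf ⟨(nat_lit 203), (nat_lit 2), (nat_lit 707), (nat_lit 2)⟩))
(.nd (.nd (.lf ⟨(nat_lit 200), (nat_lit 2), (nat_lit 0xb203), (nat_lit 3)⟩)
(.lf ⟨(nat_lit 0x1030440c1), (nat_lit 6), (nat_lit 517), (nat_lit 2)⟩))
(.lf ⟨(nat_lit 328), (nat_lit 2), (nat_lit 517), (nat_lit 2)⟩)))))
(.nd (.nd (.nd (.nd (.nd (.lf ⟨(nat_lit 130), (nat_lit 2), (nat_lit 0), (nat_lit 0)⟩)
(.lf ⟨(nat_lit 330), (nat_lit 2), (nat_lit 645), (nat_lit 2)⟩))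
(.nd (.lf ⟨(nat_lit 197), (nat_lit 2), (nat_lit 323), (nat_lit 2)⟩)
(.lf ⟨(nat_lit 0x203081203081), (nat_lit 8), (nat_lit 0x6144), (nat_lit 3)⟩)))
(.nd (.nd (.lf ⟨(nat_lit 133), (nat_lit 2), (nat_lit 0x7142), (nat_lit 3)⟩)
(.lf ⟨(nat_lit 196), (nat_lit 2), (nat_lit 0x8103), (nat_lit 3)⟩))
(.lf ⟨(nat_lit 326), (nat_lit 2), (nat_lit 0xb185), (nat_lit 3)⟩)))
(.nd (.nd (.nd (.lf ⟨(nat_lit 325), (nat_lit 2), (nat_lit 0), (nat_lit 0)⟩)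
(.lf ⟨(nat_lit 0xc10830420c1083042), (nat_lit 12), (nat_lit 7), (nat_lit 1)⟩))
(.lf ⟨(nat_lit 72), (nat_lit 2), (nat_lit 513), (nat_lit 2)⟩))
(.nd (.nd (.lf ⟨(nat_lit 715), (nat_lit 2), (nat_lit 0), (nat_lit 0)⟩)
(.lf ⟨(nat_lit 0x2205), (nat_lit 3), (nat_lit 0x8142), (nat_lit 3)⟩))
(.lf ⟨(nat_lit 264), (nat_lit 2), (nat_lit 516), (nat_lit 2)⟩))))
(.nd (.nd (.nd (.nd (.lf ⟨(nat_lit 260), (nat_lit 2), (nat_lit 0), (nat_lit 0)⟩)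
(.lf ⟨(nat_lit 196), (nat_lit 2), (nat_lit 0x2ca207103), (nat_lit 6)⟩))
(.nd (.lf ⟨(nat_lit 68), (nat_lit 2), (nat_lit 257), (nat_lit 2)⟩)
(.lf ⟨(nat_lit 0x103042103042103042103042), (nat_lit 16), (nat_lit 10), (nat_lit 1)⟩)))
(.nd (.nd (.lf ⟨(nat_lit 650), (nat_lit 2), (nat_lit 0), (nat_lit 0)⟩)
(.lf ⟨(nat_lit 326), (nat_lit 2), (nat_lit 389), (nat_lit 2)⟩))
(.lf ⟨(nat_lit 394), (nat_lit 2), (nat_lit 646), (nat_lit 2)⟩)))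
(.nd (.nd (.nd (.lf ⟨(nat_lit 390), (nat_lit 2), (nat_lit 0), (nat_lit 0)⟩)
(.lf ⟨(nat_lit 133), (nat_lit 2), (nat_lit 0x2ca142), (nat_lit 4)⟩))
(.lf ⟨(nat_lit 392), (nat_lit 2), (nat_lit 518), (nat_lit 2)⟩))
(.nd (.nd (.lf ⟨(nat_lit 130), (nat_lit 2), (nat_lit 0), (nat_lit 0)⟩)
(.lf ⟨(nat_lit 0x40c1205), (nat_lit 5), (nat_lit 0x81440c1), (nat_lit 5)⟩))
(.lf ⟨(nat_lit 0x205205), (nat_lit 4), (nat_lit 0), (nat_lit 0)⟩))))))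

/-- Substitution. -/
def s11 : List (ℕ × ℕ) := [((nat_lit 2), (nat_lit 1)), ((nat_lit 0x40c1), (nat_lit 3)), ((nat_lit 517), (nat_lit 2))]

/-- Context. -/
noncomputable def x11 : ℕ → ℕ × ℕ :=
  mkc d2 70 s2 x2 (nth [] (Cl.alts (nsCl 3 [[0, 1, 2, 6], [4, 1, 3, 4], [0], [0, 1], [0, 1, 2]])) 2)

set_option maxRecDepth 100000 in
/-- Facts. -/
noncomputable def d12 : Tr :=
(.nd (.nd (.nd (.nd (.nd (.lf ⟨(nat_lit 65), (nat_lit 2), (nat_lit 0), (nat_lit 0)⟩)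
(.lf ⟨(nat_lit 392), (nat_lit 2), (nat_lit 518), (nat_lit 2)⟩))
(.nd (.lf ⟨(nat_lit 136), (nat_lit 2), (nat_lit 0xa202), (nat_lit 3)⟩)
(.lf ⟨(nat_lit 0x103042103042103042103042), (nat_lit 16), (nat_lit 0), (nat_lit 0)⟩)))
(.nd (.nd (.lf ⟨(nat_lit 67), (nat_lit 2), (nat_lit 0x50c1), (nat_lit 3)⟩)
(.lf ⟨(nat_lit 200), (nat_lit 2), (nat_lit 515), (nat_lit 2)⟩))
(.lf ⟨(nat_lit 68), (nat_lit 2), (nat_lit 257), (nat_lit 2)⟩)))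
(.nd (.nd (.nd (.lf ⟨(nat_lit 195), (nat_lit 2), (nat_lit 0), (nat_lit 0)⟩)
(.lf ⟨(nat_lit 328), (nat_lit 2), (nat_lit 517), (nat_lit 2)⟩))
(.nd (.lf ⟨(nat_lit 197), (nat_lit 2), (nat_lit 323), (nat_lit 2)⟩)
(.lf ⟨(nat_lit 0xc2043081), (nat_lit 6), (nat_lit 0x420c1083), (nat_lit 6)⟩)))
(.nd (.nd (.lf ⟨(nat_lit 520), (nat_lit 2), (nat_lit 0), (nat_lit 0)⟩)
(.lf ⟨(nat_lit 133), (nat_lit 2), (nat_lit 0xa142), (nat_lit 3)⟩))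
(.lf ⟨(nat_lit 134), (nat_lit 2), (nat_lit 386), (nat_lit 2)⟩))))
(.nd (.nd (.nd (.nd (.lf ⟨(nat_lit 130), (nat_lit 2), (nat_lit 0), (nat_lit 0)⟩)
(.lf ⟨(nat_lit 262), (nat_lit 2), (nat_lit 0xa184), (nat_lit 3)⟩))
(.nd (.lf ⟨(nat_lit 132), (nat_lit 2), (nat_lit 258), (nat_lit 2)⟩)
(.lf ⟨(nat_lit 10), (nat_lit 1), (nat_lit 0), (nat_lit 0)⟩)))
(.nd (.nd (.lf ⟨(nat_lit 131), (nat_lit 2), (nat_lit 0x60c2), (nat_lit 3)⟩)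
(.lf ⟨(nat_lit 326), (nat_lit 2), (nat_lit 389), (nat_lit 2)⟩))
(.lf ⟨(nat_lit 69), (nat_lit 2), (nat_lit 321), (nat_lit 2)⟩)))
(.nd (.nd (.nd (.lf ⟨(nat_lit 66), (nat_lit 2), (nat_lit 0x4081), (nat_lit 3)⟩)
(.lf ⟨(nat_lit 196), (nat_lit 2), (nat_lit 0x8103), (nat_lit 3)⟩))
(.lf ⟨(nat_lit 198), (nat_lit 2), (nat_lit 387), (nat_lit 2)⟩))
(.nd (.nd (.lf ⟨(nat_lit 70), (nat_lit 2), (nat_lit 0x8181), (nat_lit 3)⟩)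
(.lf ⟨(nat_lit 0x103042103042103042103042), (nat_lit 16), (nat_lit 10), (nat_lit 1)⟩))
(.lf ⟨(nat_lit 72), (nat_lit 2), (nat_lit 513), (nat_lit 2)⟩)))))

/-- Context. -/
noncomputable def x12 : ℕ → ℕ × ℕ :=
  mkc d11 52 s11 x11 (nth [] (Cl.alts (nsCl 1 [[0, 1], [1, 1], [0]])) 0)

set_option maxRecDepth 100000 in
/-- Facts. -/
noncomputable def d13 : Tr :=
(.nd (.nd (.nd (.nd (.nd (.nd (.lf ⟨(nat_lit 65), (nat_lit 2), (nat_lit 0), (nat_lit 0)⟩)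
(.lf ⟨(nat_lit 0x1830460c1), (nat_lit 6), (nat_lit 10), (nat_lit 1)⟩))
(.lf ⟨(nat_lit 68), (nat_lit 2), (nat_lit 257), (nat_lit 2)⟩))
(.nd (.nd (.lf ⟨(nat_lit 520), (nat_lit 2), (nat_lit 0), (nat_lit 0)⟩)
(.lf ⟨(nat_lit 0xc2043081), (nat_lit 6), (nat_lit 0x420c1083), (nat_lit 6)⟩))
(.lf ⟨(nat_lit 264), (nat_lit 2), (nat_lit 516), (nat_lit 2)⟩)))
(.nd (.nd (.nd (.lf ⟨(nat_lit 66), (nat_lit 2), (nat_lit 0x4081), (nat_lit 3)⟩)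
(.lf ⟨(nat_lit 0x60c1), (nat_lit 3), (nat_lit 0x1183), (nat_lit 3)⟩))
(.lf ⟨(nat_lit 392), (nat_lit 2), (nat_lit 518), (nat_lit 2)⟩))
(.nd (.lf ⟨(nat_lit 65), (nat_lit 2), (nat_lit 0), (nat_lit 0)⟩)
(.lf ⟨(nat_lit 0x103042103042103042103042), (nat_lit 16), (nat_lit 10), (nat_lit 1)⟩))))
(.nd (.nd (.nd (.nd (.lf ⟨(nat_lit 195), (nat_lit 2), (nat_lit 0), (nat_lit 0)⟩)
(.lf ⟨(nat_lit 648), (nat_lit 2), (nat_lit 0x1831060c4), (nat_lit 6)⟩))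
(.lf ⟨(nat_lit 0x183183), (nat_lit 4), (nat_lit 0), (nat_lit 0)⟩))
(.nd (.lf ⟨(nat_lit 650), (nat_lit 2), (nat_lit 0), (nat_lit 0)⟩)
(.lf ⟨(nat_lit 196), (nat_lit 2), (nat_lit 0x8103), (nat_lit 3)⟩)))
(.nd (.nd (.nd (.lf ⟨(nat_lit 390), (nat_lit 2), (nat_lit 0), (nat_lit 0)⟩)
(.lf ⟨(nat_lit 262), (nat_lit 2), (nat_lit 388), (nat_lit 2)⟩))
(.lf ⟨(nat_lit 262), (nat_lit 2), (nat_lit 0xa184), (nat_lit 3)⟩))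
(.nd (.lf ⟨(nat_lit 132), (nat_lit 2), (nat_lit 258), (nat_lit 2)⟩)
(.lf ⟨(nat_lit 5), (nat_lit 1), (nat_lit 648), (nat_lit 2)⟩)))))
(.nd (.nd (.nd (.nd (.nd (.lf ⟨(nat_lit 130), (nat_lit 2), (nat_lit 0), (nat_lit 0)⟩)
(.lf ⟨(nat_lit 4), (nat_lit 1), (nat_lit 0x81081), (nat_lit 4)⟩))
(.lf ⟨(nat_lit 134), (nat_lit 2), (nat_lit 386), (nat_lit 2)⟩))
(.nd (.lf ⟨(nat_lit 70), (nat_lit 2), (nat_lit 0x8181), (nat_lit 3)⟩)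
(.lf ⟨(nat_lit 202), (nat_lit 2), (nat_lit 643), (nat_lit 2)⟩)))
(.nd (.nd (.nd (.lf ⟨(nat_lit 67), (nat_lit 2), (nat_lit 0x50c1), (nat_lit 3)⟩)
(.lf ⟨(nat_lit 10), (nat_lit 1), (nat_lit 0), (nat_lit 0)⟩))
(.lf ⟨(nat_lit 522), (nat_lit 2), (nat_lit 648), (nat_lit 2)⟩))
(.nd (.lf ⟨(nat_lit 130), (nat_lit 2), (nat_lit 0), (nat_lit 0)⟩)
(.lf ⟨(nat_lit 0x103042103042103042103042), (nat_lit 16), (nat_lit 517), (nat_lit 2)⟩))))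
(.nd (.nd (.nd (.nd (.lf ⟨(nat_lit 260), (nat_lit 2), (nat_lit 0), (nat_lit 0)⟩)
(.lf ⟨(nat_lit 10), (nat_lit 1), (nat_lit 0x8a202288), (nat_lit 6)⟩))
(.lf ⟨(nat_lit 138), (nat_lit 2), (nat_lit 642), (nat_lit 2)⟩))
(.nd (.lf ⟨(nat_lit 136), (nat_lit 2), (nat_lit 0xa202), (nat_lit 3)⟩)
(.lf ⟨(nat_lit 200), (nat_lit 2), (nat_lit 515), (nat_lit 2)⟩)))
(.nd (.nd (.nd (.lf ⟨(nat_lit 131), (nat_lit 2), (nat_lit 0x60c2), (nat_lit 3)⟩)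
(.lf ⟨(nat_lit 67), (nat_lit 2), (nat_lit 0x80c1), (nat_lit 3)⟩))
(.lf ⟨(nat_lit 394), (nat_lit 2), (nat_lit 646), (nat_lit 2)⟩))
(.nd (.lf ⟨(nat_lit 198), (nat_lit 2), (nat_lit 387), (nat_lit 2)⟩)
(.lf ⟨(nat_lit 67), (nat_lit 2), (nat_lit 0x2880c1), (nat_lit 4)⟩))))))

/-- Context. -/
noncomputable def x13 : ℕ → ℕ × ℕ :=
  mkc d11 52 s11 x11 (nth [] (Cl.alts (nsCl 1 [[0, 1], [1, 1], [0]])) 1)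

set_option maxRecDepth 100000 in
/-- Facts. -/
noncomputable def d14 : Tr :=
(.nd (.nd (.nd (.nd (.nd (.nd (.lf ⟨(nat_lit 65), (nat_lit 2), (nat_lit 0), (nat_lit 0)⟩)
(.lf ⟨(nat_lit 264), (nat_lit 2), (nat_lit 516), (nat_lit 2)⟩))
(.nd (.lf ⟨(nat_lit 130), (nat_lit 2), (nat_lit 0), (nat_lit 0)⟩)
(.lf ⟨(nat_lit 0x2205), (nat_lit 3), (nat_lit 0x8142), (nat_lit 3)⟩)))
(.nd (.nd (.lf ⟨(nat_lit 131), (nat_lit 2), (nat_lit 0x60c2), (nat_lit 3)⟩)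
(.lf ⟨(nat_lit 7), (nat_lit 1), (nat_lit 10), (nat_lit 1)⟩))
(.lf ⟨(nat_lit 392), (nat_lit 2), (nat_lit 518), (nat_lit 2)⟩)))
(.nd (.nd (.nd (.lf ⟨(nat_lit 66), (nat_lit 2), (nat_lit 0x4081), (nat_lit 3)⟩)
(.lf ⟨(nat_lit 261), (nat_lit 2), (nat_lit 324), (nat_lit 2)⟩))
(.nd (.lf ⟨(nat_lit 69), (nat_lit 2), (nat_lit 321), (nat_lit 2)⟩)
(.lf ⟨(nat_lit 0x840c10840c10840c10840c1), (nat_lit 16), (nat_lit 10), (nat_lit 1)⟩)))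
(.nd (.nd (.lf ⟨(nat_lit 650), (nat_lit 2), (nat_lit 0), (nat_lit 0)⟩)
(.lf ⟨(nat_lit 200), (nat_lit 2), (nat_lit 515), (nat_lit 2)⟩))
(.lf ⟨(nat_lit 266), (nat_lit 2), (nat_lit 644), (nat_lit 2)⟩))))
(.nd (.nd (.nd (.nd (.lf ⟨(nat_lit 195), (nat_lit 2), (nat_lit 0), (nat_lit 0)⟩)
(.lf ⟨(nat_lit 0x205205), (nat_lit 4), (nat_lit 0), (nat_lit 0)⟩))
(.nd (.lf ⟨(nat_lit 197), (nat_lit 2), (nat_lit 323), (nat_lit 2)⟩)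
(.lf ⟨(nat_lit 0x286103081286103081), (nat_lit 12), (nat_lit 0x286144), (nat_lit 4)⟩)))
(.nd (.nd (.lf ⟨(nat_lit 520), (nat_lit 2), (nat_lit 0), (nat_lit 0)⟩)
(.lf ⟨(nat_lit 11), (nat_lit 1), (nat_lit 0), (nat_lit 0)⟩))
(.lf ⟨(nat_lit 326), (nat_lit 2), (nat_lit 0xb185), (nat_lit 3)⟩)))
(.nd (.nd (.nd (.lf ⟨(nat_lit 67), (nat_lit 2), (nat_lit 0x50c1), (nat_lit 3)⟩)
(.lf ⟨(nat_lit 0xc10830420c1083042), (nat_lit 12), (nat_lit 714), (nat_lit 2)⟩))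
(.lf ⟨(nat_lit 72), (nat_lit 2), (nat_lit 513), (nat_lit 2)⟩))
(.nd (.nd (.lf ⟨(nat_lit 715), (nat_lit 2), (nat_lit 0), (nat_lit 0)⟩)
(.lf ⟨(nat_lit 0x1030440c1), (nat_lit 6), (nat_lit 517), (nat_lit 2)⟩))
(.lf ⟨(nat_lit 394), (nat_lit 2), (nat_lit 646), (nat_lit 2)⟩)))))
(.nd (.nd (.nd (.nd (.nd (.lf ⟨(nat_lit 130), (nat_lit 2), (nat_lit 0), (nat_lit 0)⟩)
(.lf ⟨(nat_lit 328), (nat_lit 2), (nat_lit 517), (nat_lit 2)⟩))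
(.nd (.lf ⟨(nat_lit 132), (nat_lit 2), (nat_lit 258), (nat_lit 2)⟩)
(.lf ⟨(nat_lit 0x840c1), (nat_lit 4), (nat_lit 0x286103081), (nat_lit 6)⟩)))
(.nd (.nd (.lf ⟨(nat_lit 133), (nat_lit 2), (nat_lit 0x7142), (nat_lit 3)⟩)
(.lf ⟨(nat_lit 133), (nat_lit 2), (nat_lit 0xa142), (nat_lit 3)⟩))
(.lf ⟨(nat_lit 522), (nat_lit 2), (nat_lit 648), (nat_lit 2)⟩)))
(.nd (.nd (.nd (.lf ⟨(nat_lit 325), (nat_lit 2), (nat_lit 0), (nat_lit 0)⟩)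
(.lf ⟨(nat_lit 196), (nat_lit 2), (nat_lit 0x2ca207103), (nat_lit 6)⟩))
(.lf ⟨(nat_lit 134), (nat_lit 2), (nat_lit 386), (nat_lit 2)⟩))
(.nd (.nd (.lf ⟨(nat_lit 136), (nat_lit 2), (nat_lit 0xa202), (nat_lit 3)⟩)
(.lf ⟨(nat_lit 326), (nat_lit 2), (nat_lit 389), (nat_lit 2)⟩))
(.lf ⟨(nat_lit 74), (nat_lit 2), (nat_lit 641), (nat_lit 2)⟩))))
(.nd (.nd (.nd (.nd (.lf ⟨(nat_lit 260), (nat_lit 2), (nat_lit 0), (nat_lit 0)⟩)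
(.lf ⟨(nat_lit 202), (nat_lit 2), (nat_lit 643), (nat_lit 2)⟩))
(.nd (.lf ⟨(nat_lit 68), (nat_lit 2), (nat_lit 257), (nat_lit 2)⟩)
(.lf ⟨(nat_lit 0x286144286144), (nat_lit 8), (nat_lit 10), (nat_lit 1)⟩)))
(.nd (.nd (.lf ⟨(nat_lit 70), (nat_lit 2), (nat_lit 0x8181), (nat_lit 3)⟩)
(.lf ⟨(nat_lit 196), (nat_lit 2), (nat_lit 0x8103), (nat_lit 3)⟩))
(.lf ⟨(nat_lit 262), (nat_lit 2), (nat_lit 0xa184), (nat_lit 3)⟩)))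
(.nd (.nd (.nd (.lf ⟨(nat_lit 390), (nat_lit 2), (nat_lit 0), (nat_lit 0)⟩)
(.lf ⟨(nat_lit 0xc10830420c1083042), (nat_lit 12), (nat_lit 711), (nat_lit 2)⟩))
(.lf ⟨(nat_lit 138), (nat_lit 2), (nat_lit 642), (nat_lit 2)⟩))
(.nd (.nd (.lf ⟨(nat_lit 200), (nat_lit 2), (nat_lit 0xb203), (nat_lit 3)⟩)
(.lf ⟨(nat_lit 0x40c1205), (nat_lit 5), (nat_lit 0x81440c1), (nat_lit 5)⟩))
(.lf ⟨(nat_lit 199), (nat_lit 2), (nat_lit 0xb1c3), (nat_lit 3)⟩))))))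

/-- Substitution. -/
def s14 : List (ℕ × ℕ) := [((nat_lit 0x40c1), (nat_lit 3)), ((nat_lit 2), (nat_lit 1)), ((nat_lit 517), (nat_lit 2))]

/-- Context. -/
noncomputable def x14 : ℕ → ℕ × ℕ :=
  mkc d2 70 s2 x2 (nth [] (Cl.alts (nsCl 3 [[0, 1, 2, 6], [4, 1, 3, 4], [0], [0, 1], [0, 1, 2]])) 3)

set_option maxRecDepth 100000 in
/-- Facts. -/
noncomputable def d15 : Tr :=
(.nd (.nd (.nd (.nd (.nd (.lf ⟨(nat_lit 65), (nat_lit 2), (nat_lit 0), (nat_lit 0)⟩)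
(.lf ⟨(nat_lit 392), (nat_lit 2), (nat_lit 518), (nat_lit 2)⟩))
(.nd (.lf ⟨(nat_lit 136), (nat_lit 2), (nat_lit 0xa202), (nat_lit 3)⟩)
(.lf ⟨(nat_lit 0x840c10840c10840c10840c1), (nat_lit 16), (nat_lit 0), (nat_lit 0)⟩)))
(.nd (.nd (.lf ⟨(nat_lit 67), (nat_lit 2), (nat_lit 0x50c1), (nat_lit 3)⟩)
(.lf ⟨(nat_lit 196), (nat_lit 2), (nat_lit 0x8103), (nat_lit 3)⟩))
(.lf ⟨(nat_lit 68), (nat_lit 2), (nat_lit 257), (nat_lit 2)⟩)))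
(.nd (.nd (.nd (.lf ⟨(nat_lit 195), (nat_lit 2), (nat_lit 0), (nat_lit 0)⟩)
(.lf ⟨(nat_lit 328), (nat_lit 2), (nat_lit 517), (nat_lit 2)⟩))
(.nd (.lf ⟨(nat_lit 197), (nat_lit 2), (nat_lit 323), (nat_lit 2)⟩)
(.lf ⟨(nat_lit 0xc2043081), (nat_lit 6), (nat_lit 0x420c1083), (nat_lit 6)⟩)))
(.nd (.nd (.lf ⟨(nat_lit 520), (nat_lit 2), (nat_lit 0), (nat_lit 0)⟩)
(.lf ⟨(nat_lit 326), (nat_lit 2), (nat_lit 389), (nat_lit 2)⟩))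
(.lf ⟨(nat_lit 134), (nat_lit 2), (nat_lit 386), (nat_lit 2)⟩))))
(.nd (.nd (.nd (.nd (.lf ⟨(nat_lit 130), (nat_lit 2), (nat_lit 0), (nat_lit 0)⟩)
(.lf ⟨(nat_lit 262), (nat_lit 2), (nat_lit 0xa184), (nat_lit 3)⟩))
(.nd (.lf ⟨(nat_lit 132), (nat_lit 2), (nat_lit 258), (nat_lit 2)⟩)
(.lf ⟨(nat_lit 10), (nat_lit 1), (nat_lit 0), (nat_lit 0)⟩)))
(.nd (.nd (.lf ⟨(nat_lit 131), (nat_lit 2), (nat_lit 0x60c2), (nat_lit 3)⟩)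
(.lf ⟨(nat_lit 200), (nat_lit 2), (nat_lit 515), (nat_lit 2)⟩))
(.lf ⟨(nat_lit 69), (nat_lit 2), (nat_lit 321), (nat_lit 2)⟩)))
(.nd (.nd (.nd (.lf ⟨(nat_lit 66), (nat_lit 2), (nat_lit 0x4081), (nat_lit 3)⟩)
(.lf ⟨(nat_lit 133), (nat_lit 2), (nat_lit 0xa142), (nat_lit 3)⟩))
(.lf ⟨(nat_lit 198), (nat_lit 2), (nat_lit 387), (nat_lit 2)⟩))
(.nd (.nd (.lf ⟨(nat_lit 70), (nat_lit 2), (nat_lit 0x8181), (nat_lit 3)⟩)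
(.lf ⟨(nat_lit 0x840c10840c10840c10840c1), (nat_lit 16), (nat_lit 10), (nat_lit 1)⟩))
(.lf ⟨(nat_lit 72), (nat_lit 2), (nat_lit 513), (nat_lit 2)⟩)))))

/-- Context. -/
noncomputable def x15 : ℕ → ℕ × ℕ :=
  mkc d14 53 s14 x14 (nth [] (Cl.alts (nsCl 1 [[1, 1], [0, 1], [0]])) 0)

set_option maxRecDepth 100000 in
/-- Facts. -/
noncomputable def d16 : Tr :=
(.nd (.nd (.nd (.nd (.nd (.nd (.lf ⟨(nat_lit 65), (nat_lit 2), (nat_lit 0), (nat_lit 0)⟩)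
(.lf ⟨(nat_lit 0x1830460c1), (nat_lit 6), (nat_lit 10), (nat_lit 1)⟩))
(.lf ⟨(nat_lit 68), (nat_lit 2), (nat_lit 257), (nat_lit 2)⟩))
(.nd (.nd (.lf ⟨(nat_lit 520), (nat_lit 2), (nat_lit 0), (nat_lit 0)⟩)
(.lf ⟨(nat_lit 0xc2043081), (nat_lit 6), (nat_lit 0x420c1083), (nat_lit 6)⟩))
(.lf ⟨(nat_lit 264), (nat_lit 2), (nat_lit 516), (nat_lit 2)⟩)))
(.nd (.nd (.nd (.lf ⟨(nat_lit 66), (nat_lit 2), (nat_lit 0x4081), (nat_lit 3)⟩)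
(.lf ⟨(nat_lit 0x60c1), (nat_lit 3), (nat_lit 0x1183), (nat_lit 3)⟩))
(.lf ⟨(nat_lit 392), (nat_lit 2), (nat_lit 518), (nat_lit 2)⟩))
(.nd (.lf ⟨(nat_lit 65), (nat_lit 2), (nat_lit 0), (nat_lit 0)⟩)
(.lf ⟨(nat_lit 0x840c10840c10840c10840c1), (nat_lit 16), (nat_lit 10), (nat_lit 1)⟩))))
(.nd (.nd (.nd (.nd (.lf ⟨(nat_lit 195), (nat_lit 2), (nat_lit 0), (nat_lit 0)⟩)
(.lf ⟨(nat_lit 648), (nat_lit 2), (nat_lit 0x1831060c4), (nat_lit 6)⟩))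
(.lf ⟨(nat_lit 0x183183), (nat_lit 4), (nat_lit 0), (nat_lit 0)⟩))
(.nd (.lf ⟨(nat_lit 650), (nat_lit 2), (nat_lit 0), (nat_lit 0)⟩)
(.lf ⟨(nat_lit 196), (nat_lit 2), (nat_lit 0x8103), (nat_lit 3)⟩)))
(.nd (.nd (.nd (.lf ⟨(nat_lit 390), (nat_lit 2), (nat_lit 0), (nat_lit 0)⟩)
(.lf ⟨(nat_lit 262), (nat_lit 2), (nat_lit 388), (nat_lit 2)⟩))
(.lf ⟨(nat_lit 262), (nat_lit 2), (nat_lit 0xa184), (nat_lit 3)⟩))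
(.nd (.lf ⟨(nat_lit 132), (nat_lit 2), (nat_lit 258), (nat_lit 2)⟩)
(.lf ⟨(nat_lit 5), (nat_lit 1), (nat_lit 648), (nat_lit 2)⟩)))))
(.nd (.nd (.nd (.nd (.nd (.lf ⟨(nat_lit 130), (nat_lit 2), (nat_lit 0), (nat_lit 0)⟩)
(.lf ⟨(nat_lit 4), (nat_lit 1), (nat_lit 0x81081), (nat_lit 4)⟩))
(.lf ⟨(nat_lit 134), (nat_lit 2), (nat_lit 386), (nat_lit 2)⟩))
(.nd (.lf ⟨(nat_lit 70), (nat_lit 2), (nat_lit 0x8181), (nat_lit 3)⟩)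
(.lf ⟨(nat_lit 202), (nat_lit 2), (nat_lit 643), (nat_lit 2)⟩)))
(.nd (.nd (.nd (.lf ⟨(nat_lit 67), (nat_lit 2), (nat_lit 0x50c1), (nat_lit 3)⟩)
(.lf ⟨(nat_lit 10), (nat_lit 1), (nat_lit 0), (nat_lit 0)⟩))
(.lf ⟨(nat_lit 522), (nat_lit 2), (nat_lit 648), (nat_lit 2)⟩))
(.nd (.lf ⟨(nat_lit 130), (nat_lit 2), (nat_lit 0), (nat_lit 0)⟩)
(.lf ⟨(nat_lit 0x840c10840c10840c10840c1), (nat_lit 16), (nat_lit 517), (nat_lit 2)⟩))))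
(.nd (.nd (.nd (.nd (.lf ⟨(nat_lit 260), (nat_lit 2), (nat_lit 0), (nat_lit 0)⟩)
(.lf ⟨(nat_lit 10), (nat_lit 1), (nat_lit 0x8a202288), (nat_lit 6)⟩))
(.lf ⟨(nat_lit 138), (nat_lit 2), (nat_lit 642), (nat_lit 2)⟩))
(.nd (.lf ⟨(nat_lit 136), (nat_lit 2), (nat_lit 0xa202), (nat_lit 3)⟩)
(.lf ⟨(nat_lit 200), (nat_lit 2), (nat_lit 515), (nat_lit 2)⟩)))
(.nd (.nd (.nd (.lf ⟨(nat_lit 131), (nat_lit 2), (nat_lit 0x60c2), (nat_lit 3)⟩)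
(.lf ⟨(nat_lit 67), (nat_lit 2), (nat_lit 0x80c1), (nat_lit 3)⟩))
(.lf ⟨(nat_lit 394), (nat_lit 2), (nat_lit 646), (nat_lit 2)⟩))
(.nd (.lf ⟨(nat_lit 198), (nat_lit 2), (nat_lit 387), (nat_lit 2)⟩)
(.lf ⟨(nat_lit 67), (nat_lit 2), (nat_lit 0x2880c1), (nat_lit 4)⟩))))))

/-- Context. -/
noncomputable def x16 : ℕ → ℕ × ℕ :=
  mkc d14 53 s14 x14 (nth [] (Cl.alts (nsCl 1 [[1, 1], [0, 1], [0]])) 1)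

set_option maxRecDepth 100000 in
/-- Facts. -/
noncomputable def d17 : Tr :=
(.nd (.nd (.nd (.nd (.nd (.nd (.lf ⟨(nat_lit 65), (nat_lit 2), (nat_lit 0), (nat_lit 0)⟩)
(.lf ⟨(nat_lit 264), (nat_lit 2), (nat_lit 516), (nat_lit 2)⟩))
(.nd (.lf ⟨(nat_lit 130), (nat_lit 2), (nat_lit 0), (nat_lit 0)⟩)
(.lf ⟨(nat_lit 10), (nat_lit 1), (nat_lit 0x8a202288), (nat_lit 6)⟩)))
(.nd (.nd (.lf ⟨(nat_lit 133), (nat_lit 2), (nat_lit 0x7142), (nat_lit 3)⟩)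
(.lf ⟨(nat_lit 7), (nat_lit 1), (nat_lit 0), (nat_lit 0)⟩))
(.lf ⟨(nat_lit 392), (nat_lit 2), (nat_lit 518), (nat_lit 2)⟩)))
(.nd (.nd (.nd (.lf ⟨(nat_lit 66), (nat_lit 2), (nat_lit 0x4081), (nat_lit 3)⟩)
(.lf ⟨(nat_lit 0xc10830420c1083042), (nat_lit 12), (nat_lit 714), (nat_lit 2)⟩))
(.nd (.lf ⟨(nat_lit 68), (nat_lit 2), (nat_lit 257), (nat_lit 2)⟩)
(.lf ⟨(nat_lit 262), (nat_lit 2), (nat_lit 388), (nat_lit 2)⟩)))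
(.nd (.nd (.lf ⟨(nat_lit 136), (nat_lit 2), (nat_lit 0xa202), (nat_lit 3)⟩)
(.lf ⟨(nat_lit 67), (nat_lit 2), (nat_lit 0xa0c1), (nat_lit 3)⟩))
(.lf ⟨(nat_lit 459), (nat_lit 2), (nat_lit 711), (nat_lit 2)⟩))))
(.nd (.nd (.nd (.nd (.lf ⟨(nat_lit 195), (nat_lit 2), (nat_lit 0), (nat_lit 0)⟩)
(.lf ⟨(nat_lit 202), (nat_lit 2), (nat_lit 643), (nat_lit 2)⟩))
(.nd (.lf ⟨(nat_lit 132), (nat_lit 2), (nat_lit 258), (nat_lit 2)⟩)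
(.lf ⟨(nat_lit 10), (nat_lit 1), (nat_lit 0), (nat_lit 0)⟩)))
(.nd (.nd (.lf ⟨(nat_lit 70), (nat_lit 2), (nat_lit 0x8181), (nat_lit 3)⟩)
(.lf ⟨(nat_lit 196), (nat_lit 2), (nat_lit 0x288103), (nat_lit 4)⟩))
(.lf ⟨(nat_lit 262), (nat_lit 2), (nat_lit 0xa184), (nat_lit 3)⟩)))
(.nd (.nd (.nd (.lf ⟨(nat_lit 390), (nat_lit 2), (nat_lit 0), (nat_lit 0)⟩)
(.lf ⟨(nat_lit 5), (nat_lit 1), (nat_lit 714), (nat_lit 2)⟩))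
(.nd (.lf ⟨(nat_lit 72), (nat_lit 2), (nat_lit 513), (nat_lit 2)⟩)
(.lf ⟨(nat_lit 67), (nat_lit 2), (nat_lit 193), (nat_lit 2)⟩)))
(.nd (.nd (.lf ⟨(nat_lit 200), (nat_lit 2), (nat_lit 0xb203), (nat_lit 3)⟩)
(.lf ⟨(nat_lit 4), (nat_lit 1), (nat_lit 0x81081), (nat_lit 4)⟩))
(.lf ⟨(nat_lit 139), (nat_lit 2), (nat_lit 706), (nat_lit 2)⟩)))))
(.nd (.nd (.nd (.nd (.nd (.lf ⟨(nat_lit 130), (nat_lit 2), (nat_lit 0), (nat_lit 0)⟩)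
(.lf ⟨(nat_lit 458), (nat_lit 2), (nat_lit 647), (nat_lit 2)⟩))
(.nd (.lf ⟨(nat_lit 195), (nat_lit 2), (nat_lit 0), (nat_lit 0)⟩)
(.lf ⟨(nat_lit 193), (nat_lit 2), (nat_lit 67), (nat_lit 2)⟩)))
(.nd (.nd (.lf ⟨(nat_lit 520), (nat_lit 2), (nat_lit 0), (nat_lit 0)⟩)
(.lf ⟨(nat_lit 11), (nat_lit 1), (nat_lit 0), (nat_lit 0)⟩))
(.lf ⟨(nat_lit 326), (nat_lit 2), (nat_lit 0xb185), (nat_lit 3)⟩)))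
(.nd (.nd (.nd (.lf ⟨(nat_lit 67), (nat_lit 2), (nat_lit 0x50c1), (nat_lit 3)⟩)
(.lf ⟨(nat_lit 0xc10830420c1083042), (nat_lit 12), (nat_lit 5), (nat_lit 1)⟩))
(.nd (.lf ⟨(nat_lit 134), (nat_lit 2), (nat_lit 386), (nat_lit 2)⟩)
(.lf ⟨(nat_lit 196), (nat_lit 2), (nat_lit 0x8103), (nat_lit 3)⟩)))
(.nd (.nd (.lf ⟨(nat_lit 715), (nat_lit 2), (nat_lit 0), (nat_lit 0)⟩)
(.lf ⟨(nat_lit 0xc10c1), (nat_lit 4), (nat_lit 10), (nat_lit 1)⟩))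
(.lf ⟨(nat_lit 266), (nat_lit 2), (nat_lit 644), (nat_lit 2)⟩))))
(.nd (.nd (.nd (.nd (.lf ⟨(nat_lit 260), (nat_lit 2), (nat_lit 0), (nat_lit 0)⟩)
(.lf ⟨(nat_lit 196), (nat_lit 2), (nat_lit 0x2ca207103), (nat_lit 6)⟩))
(.nd (.lf ⟨(nat_lit 198), (nat_lit 2), (nat_lit 387), (nat_lit 2)⟩)
(.lf ⟨(nat_lit 136), (nat_lit 2), (nat_lit 514), (nat_lit 2)⟩)))
(.nd (.nd (.lf ⟨(nat_lit 650), (nat_lit 2), (nat_lit 0), (nat_lit 0)⟩)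
(.lf ⟨(nat_lit 200), (nat_lit 2), (nat_lit 515), (nat_lit 2)⟩))
(.lf ⟨(nat_lit 395), (nat_lit 2), (nat_lit 710), (nat_lit 2)⟩)))
(.nd (.nd (.nd (.lf ⟨(nat_lit 131), (nat_lit 2), (nat_lit 0x60c2), (nat_lit 3)⟩)
(.lf ⟨(nat_lit 67), (nat_lit 2), (nat_lit 0x2ca0c1), (nat_lit 4)⟩))
(.nd (.lf ⟨(nat_lit 138), (nat_lit 2), (nat_lit 642), (nat_lit 2)⟩)
(.lf ⟨(nat_lit 0xc2043081), (nat_lit 6), (nat_lit 0x420c1083), (nat_lit 6)⟩)))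
(.nd (.nd (.lf ⟨(nat_lit 65), (nat_lit 2), (nat_lit 0), (nat_lit 0)⟩)
(.lf ⟨(nat_lit 648), (nat_lit 2), (nat_lit 0xc40c4), (nat_lit 4)⟩))
(.lf ⟨(nat_lit 394), (nat_lit 2), (nat_lit 646), (nat_lit 2)⟩))))))

/-- Context. -/
noncomputable def x17 : ℕ → ℕ × ℕ :=
  mkc d2 70 s2 x2 (nth [] (Cl.alts (nsCl 3 [[0, 1, 2, 6], [4, 1, 3, 4], [0], [0, 1], [0, 1, 2]])) 4)

set_option maxRecDepth 100000 in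
/-- Facts. -/
noncomputable def d18 : Tr :=
(.nd (.nd (.nd (.nd (.nd (.nd (.lf ⟨(nat_lit 65), (nat_lit 2), (nat_lit 0), (nat_lit 0)⟩)
(.lf ⟨(nat_lit 196), (nat_lit 2), (nat_lit 0x2ca207103), (nat_lit 6)⟩))
(.nd (.lf ⟨(nat_lit 130), (nat_lit 2), (nat_lit 0), (nat_lit 0)⟩)
(.lf ⟨(nat_lit 262), (nat_lit 2), (nat_lit 388), (nat_lit 2)⟩)))
(.nd (.nd (.lf ⟨(nat_lit 133), (nat_lit 2), (nat_lit 0x7142), (nat_lit 3)⟩)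
(.lf ⟨(nat_lit 200), (nat_lit 2), (nat_lit 515), (nat_lit 2)⟩))
(.lf ⟨(nat_lit 392), (nat_lit 2), (nat_lit 518), (nat_lit 2)⟩)))
(.nd (.nd (.nd (.lf ⟨(nat_lit 66), (nat_lit 2), (nat_lit 0x4081), (nat_lit 3)⟩)
(.lf ⟨(nat_lit 67), (nat_lit 2), (nat_lit 0xa0c1), (nat_lit 3)⟩))
(.lf ⟨(nat_lit 68), (nat_lit 2), (nat_lit 257), (nat_lit 2)⟩))
(.nd (.nd (.lf ⟨(nat_lit 136), (nat_lit 2), (nat_lit 0xa202), (nat_lit 3)⟩)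
(.lf ⟨(nat_lit 10), (nat_lit 1), (nat_lit 0x8a202288), (nat_lit 6)⟩))
(.lf ⟨(nat_lit 394), (nat_lit 2), (nat_lit 646), (nat_lit 2)⟩))))
(.nd (.nd (.nd (.nd (.lf ⟨(nat_lit 195), (nat_lit 2), (nat_lit 0), (nat_lit 0)⟩)
(.lf ⟨(nat_lit 0xc10830420c1083042), (nat_lit 12), (nat_lit 709), (nat_lit 2)⟩))
(.nd (.lf ⟨(nat_lit 132), (nat_lit 2), (nat_lit 258), (nat_lit 2)⟩)
(.lf ⟨(nat_lit 196), (nat_lit 2), (nat_lit 0x8103), (nat_lit 3)⟩)))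
(.nd (.nd (.lf ⟨(nat_lit 70), (nat_lit 2), (nat_lit 0x8181), (nat_lit 3)⟩)
(.lf ⟨(nat_lit 4), (nat_lit 1), (nat_lit 0x81081), (nat_lit 4)⟩))
(.lf ⟨(nat_lit 262), (nat_lit 2), (nat_lit 0xa184), (nat_lit 3)⟩)))
(.nd (.nd (.nd (.lf ⟨(nat_lit 390), (nat_lit 2), (nat_lit 0), (nat_lit 0)⟩)
(.lf ⟨(nat_lit 11), (nat_lit 1), (nat_lit 0), (nat_lit 0)⟩))
(.lf ⟨(nat_lit 72), (nat_lit 2), (nat_lit 513), (nat_lit 2)⟩))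
(.nd (.nd (.lf ⟨(nat_lit 200), (nat_lit 2), (nat_lit 0xb203), (nat_lit 3)⟩)
(.lf ⟨(nat_lit 10), (nat_lit 1), (nat_lit 0), (nat_lit 0)⟩))
(.lf ⟨(nat_lit 458), (nat_lit 2), (nat_lit 647), (nat_lit 2)⟩)))))
(.nd (.nd (.nd (.nd (.nd (.lf ⟨(nat_lit 130), (nat_lit 2), (nat_lit 0), (nat_lit 0)⟩)
(.lf ⟨(nat_lit 0xc10830420c1083042), (nat_lit 12), (nat_lit 714), (nat_lit 2)⟩))
(.nd (.lf ⟨(nat_lit 195), (nat_lit 2), (nat_lit 0), (nat_lit 0)⟩)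
(.lf ⟨(nat_lit 67), (nat_lit 2), (nat_lit 193), (nat_lit 2)⟩)))
(.nd (.nd (.lf ⟨(nat_lit 520), (nat_lit 2), (nat_lit 0), (nat_lit 0)⟩)
(.lf ⟨(nat_lit 0xc10c1), (nat_lit 4), (nat_lit 10), (nat_lit 1)⟩))
(.lf ⟨(nat_lit 326), (nat_lit 2), (nat_lit 0xb185), (nat_lit 3)⟩)))
(.nd (.nd (.nd (.lf ⟨(nat_lit 67), (nat_lit 2), (nat_lit 0x50c1), (nat_lit 3)⟩)
(.lf ⟨(nat_lit 7), (nat_lit 1), (nat_lit 0), (nat_lit 0)⟩))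
(.lf ⟨(nat_lit 134), (nat_lit 2), (nat_lit 386), (nat_lit 2)⟩))
(.nd (.nd (.lf ⟨(nat_lit 715), (nat_lit 2), (nat_lit 0), (nat_lit 0)⟩)
(.lf ⟨(nat_lit 193), (nat_lit 2), (nat_lit 67), (nat_lit 2)⟩))
(.lf ⟨(nat_lit 264), (nat_lit 2), (nat_lit 516), (nat_lit 2)⟩))))
(.nd (.nd (.nd (.nd (.lf ⟨(nat_lit 260), (nat_lit 2), (nat_lit 0), (nat_lit 0)⟩)
(.lf ⟨(nat_lit 5), (nat_lit 1), (nat_lit 10), (nat_lit 1)⟩))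
(.nd (.lf ⟨(nat_lit 198), (nat_lit 2), (nat_lit 387), (nat_lit 2)⟩)
(.lf ⟨(nat_lit 0xc2043081), (nat_lit 6), (nat_lit 0x420c1083), (nat_lit 6)⟩)))
(.nd (.nd (.lf ⟨(nat_lit 650), (nat_lit 2), (nat_lit 0), (nat_lit 0)⟩)
(.lf ⟨(nat_lit 648), (nat_lit 2), (nat_lit 0xc40c4), (nat_lit 4)⟩))
(.lf ⟨(nat_lit 266), (nat_lit 2), (nat_lit 644), (nat_lit 2)⟩)))
(.nd (.nd (.nd (.lf ⟨(nat_lit 131), (nat_lit 2), (nat_lit 0x60c2), (nat_lit 3)⟩)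
(.lf ⟨(nat_lit 196), (nat_lit 2), (nat_lit 0x288103), (nat_lit 4)⟩))
(.lf ⟨(nat_lit 138), (nat_lit 2), (nat_lit 642), (nat_lit 2)⟩))
(.nd (.nd (.lf ⟨(nat_lit 65), (nat_lit 2), (nat_lit 0), (nat_lit 0)⟩)
(.lf ⟨(nat_lit 136), (nat_lit 2), (nat_lit 514), (nat_lit 2)⟩))
(.lf ⟨(nat_lit 202), (nat_lit 2), (nat_lit 643), (nat_lit 2)⟩))))))

/-- Context. -/
noncomputable def x18 : ℕ → ℕ × ℕ :=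
  mkc d2 70 s2 x2 (nth [] (Cl.alts (nsCl 3 [[0, 1, 2, 6], [4, 1, 3, 4], [0], [0, 1], [0, 1, 2]])) 5)

set_option maxRecDepth 100000 in
/-- Facts. -/
noncomputable def d19 : Tr :=
(.nd (.nd (.nd (.nd (.nd (.nd (.lf ⟨(nat_lit 65), (nat_lit 2), (nat_lit 0), (nat_lit 0)⟩)
(.lf ⟨(nat_lit 139), (nat_lit 2), (nat_lit 706), (nat_lit 2)⟩))
(.nd (.lf ⟨(nat_lit 65), (nat_lit 2), (nat_lit 0), (nat_lit 0)⟩)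
(.lf ⟨(nat_lit 4), (nat_lit 1), (nat_lit 0x81081), (nat_lit 4)⟩)))
(.nd (.nd (.lf ⟨(nat_lit 455), (nat_lit 2), (nat_lit 0), (nat_lit 0)⟩)
(.lf ⟨(nat_lit 5), (nat_lit 1), (nat_lit 0xb287), (nat_lit 3)⟩))
(.nd (.lf ⟨(nat_lit 135), (nat_lit 2), (nat_lit 450), (nat_lit 2)⟩)
(.lf ⟨(nat_lit 67), (nat_lit 2), (nat_lit 193), (nat_lit 2)⟩))))
(.nd (.nd (.nd (.lf ⟨(nat_lit 66), (nat_lit 2), (nat_lit 0x4081), (nat_lit 3)⟩)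
(.lf ⟨(nat_lit 202), (nat_lit 2), (nat_lit 643), (nat_lit 2)⟩))
(.nd (.lf ⟨(nat_lit 198), (nat_lit 2), (nat_lit 387), (nat_lit 2)⟩)
(.lf ⟨(nat_lit 10), (nat_lit 1), (nat_lit 0), (nat_lit 0)⟩)))
(.nd (.nd (.lf ⟨(nat_lit 650), (nat_lit 2), (nat_lit 0), (nat_lit 0)⟩)
(.lf ⟨(nat_lit 196), (nat_lit 2), (nat_lit 0x288103), (nat_lit 4)⟩))
(.lf ⟨(nat_lit 262), (nat_lit 2), (nat_lit 0xa184), (nat_lit 3)⟩))))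
(.nd (.nd (.nd (.nd (.lf ⟨(nat_lit 195), (nat_lit 2), (nat_lit 0), (nat_lit 0)⟩)
(.lf ⟨(nat_lit 264), (nat_lit 2), (nat_lit 516), (nat_lit 2)⟩))
(.nd (.lf ⟨(nat_lit 195), (nat_lit 2), (nat_lit 0), (nat_lit 0)⟩)
(.lf ⟨(nat_lit 10), (nat_lit 1), (nat_lit 0x8a202288), (nat_lit 6)⟩)))
(.nd (.nd (.lf ⟨(nat_lit 520), (nat_lit 2), (nat_lit 0), (nat_lit 0)⟩)
(.lf ⟨(nat_lit 7), (nat_lit 1), (nat_lit 0), (nat_lit 0)⟩))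
(.lf ⟨(nat_lit 392), (nat_lit 2), (nat_lit 518), (nat_lit 2)⟩)))
(.nd (.nd (.nd (.lf ⟨(nat_lit 390), (nat_lit 2), (nat_lit 0), (nat_lit 0)⟩)
(.lf ⟨(nat_lit 0xc10830420c1083042), (nat_lit 12), (nat_lit 714), (nat_lit 2)⟩))
(.nd (.lf ⟨(nat_lit 134), (nat_lit 2), (nat_lit 386), (nat_lit 2)⟩)
(.lf ⟨(nat_lit 262), (nat_lit 2), (nat_lit 388), (nat_lit 2)⟩)))
(.nd (.nd (.lf ⟨(nat_lit 715), (nat_lit 2), (nat_lit 0), (nat_lit 0)⟩)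
(.lf ⟨(nat_lit 67), (nat_lit 2), (nat_lit 0xa0c1), (nat_lit 3)⟩))
(.lf ⟨(nat_lit 459), (nat_lit 2), (nat_lit 711), (nat_lit 2)⟩)))))
(.nd (.nd (.nd (.nd (.nd (.lf ⟨(nat_lit 130), (nat_lit 2), (nat_lit 0), (nat_lit 0)⟩)
(.lf ⟨(nat_lit 394), (nat_lit 2), (nat_lit 646), (nat_lit 2)⟩))
(.nd (.lf ⟨(nat_lit 130), (nat_lit 2), (nat_lit 0), (nat_lit 0)⟩)
(.lf ⟨(nat_lit 648), (nat_lit 2), (nat_lit 0xc40c4), (nat_lit 4)⟩)))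
(.nd (.nd (.lf ⟨(nat_lit 133), (nat_lit 2), (nat_lit 0x7142), (nat_lit 3)⟩)
(.lf ⟨(nat_lit 67), (nat_lit 2), (nat_lit 0xb2870c1), (nat_lit 5)⟩))
(.nd (.lf ⟨(nat_lit 138), (nat_lit 2), (nat_lit 642), (nat_lit 2)⟩)
(.lf ⟨(nat_lit 0xc2043081), (nat_lit 6), (nat_lit 0x420c1083), (nat_lit 6)⟩))))
(.nd (.nd (.nd (.lf ⟨(nat_lit 67), (nat_lit 2), (nat_lit 0x50c1), (nat_lit 3)⟩)
(.lf ⟨(nat_lit 196), (nat_lit 2), (nat_lit 0x2ca207103), (nat_lit 6)⟩))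
(.nd (.lf ⟨(nat_lit 68), (nat_lit 2), (nat_lit 257), (nat_lit 2)⟩)
(.lf ⟨(nat_lit 136), (nat_lit 2), (nat_lit 514), (nat_lit 2)⟩)))
(.nd (.nd (.lf ⟨(nat_lit 136), (nat_lit 2), (nat_lit 0xa202), (nat_lit 3)⟩)
(.lf ⟨(nat_lit 200), (nat_lit 2), (nat_lit 515), (nat_lit 2)⟩))
(.lf ⟨(nat_lit 395), (nat_lit 2), (nat_lit 710), (nat_lit 2)⟩))))
(.nd (.nd (.nd (.nd (.lf ⟨(nat_lit 260), (nat_lit 2), (nat_lit 0), (nat_lit 0)⟩)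
(.lf ⟨(nat_lit 458), (nat_lit 2), (nat_lit 647), (nat_lit 2)⟩))
(.nd (.lf ⟨(nat_lit 132), (nat_lit 2), (nat_lit 258), (nat_lit 2)⟩)
(.lf ⟨(nat_lit 193), (nat_lit 2), (nat_lit 67), (nat_lit 2)⟩)))
(.nd (.nd (.lf ⟨(nat_lit 70), (nat_lit 2), (nat_lit 0x8181), (nat_lit 3)⟩)
(.lf ⟨(nat_lit 11), (nat_lit 1), (nat_lit 0), (nat_lit 0)⟩))
(.lf ⟨(nat_lit 326), (nat_lit 2), (nat_lit 0xb185), (nat_lit 3)⟩)))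
(.nd (.nd (.nd (.lf ⟨(nat_lit 131), (nat_lit 2), (nat_lit 0x60c2), (nat_lit 3)⟩)
(.lf ⟨(nat_lit 0xc10830420c1083042), (nat_lit 12), (nat_lit 453), (nat_lit 2)⟩))
(.nd (.lf ⟨(nat_lit 72), (nat_lit 2), (nat_lit 513), (nat_lit 2)⟩)
(.lf ⟨(nat_lit 196), (nat_lit 2), (nat_lit 0x8103), (nat_lit 3)⟩)))
(.nd (.nd (.lf ⟨(nat_lit 200), (nat_lit 2), (nat_lit 0xb203), (nat_lit 3)⟩)
(.lf ⟨(nat_lit 0xc10c1), (nat_lit 4), (nat_lit 10), (nat_lit 1)⟩))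
(.lf ⟨(nat_lit 266), (nat_lit 2), (nat_lit 644), (nat_lit 2)⟩))))))

/-- Context. -/
noncomputable def x19 : ℕ → ℕ × ℕ :=
  mkc d2 70 s2 x2 (nth [] (Cl.alts (nsCl 3 [[0, 1, 2, 6], [4, 1, 3, 4], [0], [0, 1], [0, 1, 2]])) 6)

set_option maxRecDepth 100000 in
/-- Facts. -/
noncomputable def d20 : Tr :=
(.nd (.nd (.nd (.nd (.nd (.nd (.lf ⟨(nat_lit 65), (nat_lit 2), (nat_lit 0), (nat_lit 0)⟩)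
(.lf ⟨(nat_lit 458), (nat_lit 2), (nat_lit 647), (nat_lit 2)⟩))
(.nd (.lf ⟨(nat_lit 65), (nat_lit 2), (nat_lit 0), (nat_lit 0)⟩)
(.lf ⟨(nat_lit 193), (nat_lit 2), (nat_lit 67), (nat_lit 2)⟩)))
(.nd (.nd (.lf ⟨(nat_lit 455), (nat_lit 2), (nat_lit 0), (nat_lit 0)⟩)
(.lf ⟨(nat_lit 11), (nat_lit 1), (nat_lit 0), (nat_lit 0)⟩))
(.lf ⟨(nat_lit 135), (nat_lit 2), (nat_lit 450), (nat_lit 2)⟩)))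
(.nd (.nd (.nd (.lf ⟨(nat_lit 66), (nat_lit 2), (nat_lit 0x4081), (nat_lit 3)⟩)
(.lf ⟨(nat_lit 0xc10830420c1083042), (nat_lit 12), (nat_lit 0xb1c5), (nat_lit 3)⟩))
(.nd (.lf ⟨(nat_lit 198), (nat_lit 2), (nat_lit 387), (nat_lit 2)⟩)
(.lf ⟨(nat_lit 196), (nat_lit 2), (nat_lit 0x8103), (nat_lit 3)⟩)))
(.nd (.nd (.lf ⟨(nat_lit 650), (nat_lit 2), (nat_lit 0), (nat_lit 0)⟩)
(.lf ⟨(nat_lit 0xc10c1), (nat_lit 4), (nat_lit 10), (nat_lit 1)⟩))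
(.lf ⟨(nat_lit 262), (nat_lit 2), (nat_lit 0xa184), (nat_lit 3)⟩))))
(.nd (.nd (.nd (.nd (.lf ⟨(nat_lit 195), (nat_lit 2), (nat_lit 0), (nat_lit 0)⟩)
(.lf ⟨(nat_lit 196), (nat_lit 2), (nat_lit 0x2ca207103), (nat_lit 6)⟩))
(.nd (.lf ⟨(nat_lit 195), (nat_lit 2), (nat_lit 0), (nat_lit 0)⟩)
(.lf ⟨(nat_lit 136), (nat_lit 2), (nat_lit 514), (nat_lit 2)⟩)))
(.nd (.nd (.lf ⟨(nat_lit 520), (nat_lit 2), (nat_lit 0), (nat_lit 0)⟩)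
(.lf ⟨(nat_lit 200), (nat_lit 2), (nat_lit 515), (nat_lit 2)⟩))
(.lf ⟨(nat_lit 392), (nat_lit 2), (nat_lit 518), (nat_lit 2)⟩)))
(.nd (.nd (.nd (.lf ⟨(nat_lit 390), (nat_lit 2), (nat_lit 0), (nat_lit 0)⟩)
(.lf ⟨(nat_lit 67), (nat_lit 2), (nat_lit 0x2870c1), (nat_lit 4)⟩))
(.nd (.lf ⟨(nat_lit 134), (nat_lit 2), (nat_lit 386), (nat_lit 2)⟩)
(.lf ⟨(nat_lit 0xc2043081), (nat_lit 6), (nat_lit 0x420c1083), (nat_lit 6)⟩)))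
(.nd (.nd (.lf ⟨(nat_lit 715), (nat_lit 2), (nat_lit 0), (nat_lit 0)⟩)
(.lf ⟨(nat_lit 648), (nat_lit 2), (nat_lit 0xc40c4), (nat_lit 4)⟩))
(.lf ⟨(nat_lit 394), (nat_lit 2), (nat_lit 646), (nat_lit 2)⟩)))))
(.nd (.nd (.nd (.nd (.nd (.lf ⟨(nat_lit 130), (nat_lit 2), (nat_lit 0), (nat_lit 0)⟩)
(.lf ⟨(nat_lit 202), (nat_lit 2), (nat_lit 643), (nat_lit 2)⟩))
(.nd (.lf ⟨(nat_lit 130), (nat_lit 2), (nat_lit 0), (nat_lit 0)⟩)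
(.lf ⟨(nat_lit 10), (nat_lit 1), (nat_lit 0), (nat_lit 0)⟩)))
(.nd (.nd (.lf ⟨(nat_lit 133), (nat_lit 2), (nat_lit 0x7142), (nat_lit 3)⟩)
(.lf ⟨(nat_lit 196), (nat_lit 2), (nat_lit 0x288103), (nat_lit 4)⟩))
(.lf ⟨(nat_lit 138), (nat_lit 2), (nat_lit 642), (nat_lit 2)⟩)))
(.nd (.nd (.nd (.lf ⟨(nat_lit 67), (nat_lit 2), (nat_lit 0x50c1), (nat_lit 3)⟩)
(.lf ⟨(nat_lit 5), (nat_lit 1), (nat_lit 647), (nat_lit 2)⟩))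
(.nd (.lf ⟨(nat_lit 68), (nat_lit 2), (nat_lit 257), (nat_lit 2)⟩)
(.lf ⟨(nat_lit 67), (nat_lit 2), (nat_lit 193), (nat_lit 2)⟩)))
(.nd (.nd (.lf ⟨(nat_lit 136), (nat_lit 2), (nat_lit 0xa202), (nat_lit 3)⟩)
(.lf ⟨(nat_lit 4), (nat_lit 1), (nat_lit 0x81081), (nat_lit 4)⟩))
(.lf ⟨(nat_lit 266), (nat_lit 2), (nat_lit 644), (nat_lit 2)⟩))))
(.nd (.nd (.nd (.nd (.lf ⟨(nat_lit 260), (nat_lit 2), (nat_lit 0), (nat_lit 0)⟩)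
(.lf ⟨(nat_lit 0xc10830420c1083042), (nat_lit 12), (nat_lit 714), (nat_lit 2)⟩))
(.nd (.lf ⟨(nat_lit 132), (nat_lit 2), (nat_lit 258), (nat_lit 2)⟩)
(.lf ⟨(nat_lit 262), (nat_lit 2), (nat_lit 388), (nat_lit 2)⟩)))
(.nd (.nd (.lf ⟨(nat_lit 70), (nat_lit 2), (nat_lit 0x8181), (nat_lit 3)⟩)
(.lf ⟨(nat_lit 67), (nat_lit 2), (nat_lit 0xa0c1), (nat_lit 3)⟩))
(.lf ⟨(nat_lit 326), (nat_lit 2), (nat_lit 0xb185), (nat_lit 3)⟩)))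
(.nd (.nd (.nd (.lf ⟨(nat_lit 131), (nat_lit 2), (nat_lit 0x60c2), (nat_lit 3)⟩)
(.lf ⟨(nat_lit 7), (nat_lit 1), (nat_lit 0), (nat_lit 0)⟩))
(.lf ⟨(nat_lit 72), (nat_lit 2), (nat_lit 513), (nat_lit 2)⟩))
(.nd (.nd (.lf ⟨(nat_lit 200), (nat_lit 2), (nat_lit 0xb203), (nat_lit 3)⟩)
(.lf ⟨(nat_lit 10), (nat_lit 1), (nat_lit 0x8a202288), (nat_lit 6)⟩))
(.lf ⟨(nat_lit 264), (nat_lit 2), (nat_lit 516), (nat_lit 2)⟩))))))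

/-- Context. -/
noncomputable def x20 : ℕ → ℕ × ℕ :=
  mkc d2 70 s2 x2 (nth [] (Cl.alts (nsCl 3 [[0, 1, 2, 6], [4, 1, 3, 4], [0], [0, 1], [0, 1, 2]])) 7)

set_option maxRecDepth 100000 in
/-- Facts. -/
noncomputable def d21 : Tr :=
(.nd (.nd (.nd (.nd (.nd (.nd (.lf ⟨(nat_lit 65), (nat_lit 2), (nat_lit 0), (nat_lit 0)⟩)
(.lf ⟨(nat_lit 265), (nat_lit 2), (nat_lit 580), (nat_lit 2)⟩))
(.nd (.lf ⟨(nat_lit 200), (nat_lit 2), (nat_lit 0xb203), (nat_lit 3)⟩)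
(.lf ⟨(nat_lit 11), (nat_lit 1), (nat_lit 0), (nat_lit 0)⟩)))
(.nd (.nd (.lf ⟨(nat_lit 131), (nat_lit 2), (nat_lit 0x60c2), (nat_lit 3)⟩)
(.lf ⟨(nat_lit 201), (nat_lit 2), (nat_lit 579), (nat_lit 2)⟩))
(.nd (.lf ⟨(nat_lit 391), (nat_lit 2), (nat_lit 454), (nat_lit 2)⟩)
(.lf ⟨(nat_lit 0x11c6), (nat_lit 3), (nat_lit 0x7181), (nat_lit 3)⟩))))
(.nd (.nd (.nd (.lf ⟨(nat_lit 66), (nat_lit 2), (nat_lit 0x4081), (nat_lit 3)⟩)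
(.lf ⟨(nat_lit 263), (nat_lit 2), (nat_lit 452), (nat_lit 2)⟩))
(.nd (.lf ⟨(nat_lit 68), (nat_lit 2), (nat_lit 257), (nat_lit 2)⟩)
(.lf ⟨(nat_lit 196), (nat_lit 2), (nat_lit 0x7103), (nat_lit 3)⟩)))
(.nd (.nd (.lf ⟨(nat_lit 71), (nat_lit 2), (nat_lit 0x91c1), (nat_lit 3)⟩)
(.lf ⟨(nat_lit 0xc20430810c2043081), (nat_lit 12), (nat_lit 8), (nat_lit 1)⟩))
(.nd (.lf ⟨(nat_lit 203), (nat_lit 2), (nat_lit 707), (nat_lit 2)⟩)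
(.lf ⟨(nat_lit 0x440c20440c20440c20440c2), (nat_lit 16), (nat_lit 9), (nat_lit 1)⟩)))))
(.nd (.nd (.nd (.nd (.lf ⟨(nat_lit 195), (nat_lit 2), (nat_lit 0), (nat_lit 0)⟩)
(.lf ⟨(nat_lit 137), (nat_lit 2), (nat_lit 578), (nat_lit 2)⟩))
(.nd (.lf ⟨(nat_lit 132), (nat_lit 2), (nat_lit 258), (nat_lit 2)⟩)
(.lf ⟨(nat_lit 262), (nat_lit 2), (nat_lit 388), (nat_lit 2)⟩)))
(.nd (.nd (.lf ⟨(nat_lit 70), (nat_lit 2), (nat_lit 0x8181), (nat_lit 3)⟩)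
(.lf ⟨(nat_lit 196), (nat_lit 2), (nat_lit 0xb289207103), (nat_lit 7)⟩))
(.nd (.lf ⟨(nat_lit 73), (nat_lit 2), (nat_lit 577), (nat_lit 2)⟩)
(.lf ⟨(nat_lit 0x247143081247143081), (nat_lit 12), (nat_lit 0x246144), (nat_lit 4)⟩))))
(.nd (.nd (.nd (.lf ⟨(nat_lit 67), (nat_lit 2), (nat_lit 0x50c1), (nat_lit 3)⟩)
(.lf ⟨(nat_lit 0x1c61c6), (nat_lit 4), (nat_lit 0), (nat_lit 0)⟩))
(.nd (.lf ⟨(nat_lit 134), (nat_lit 2), (nat_lit 386), (nat_lit 2)⟩)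
(.lf ⟨(nat_lit 0x1030840c2), (nat_lit 6), (nat_lit 454), (nat_lit 2)⟩)))
(.nd (.nd (.lf ⟨(nat_lit 136), (nat_lit 2), (nat_lit 0xa202), (nat_lit 3)⟩)
(.lf ⟨(nat_lit 70), (nat_lit 2), (nat_lit 0xb289181), (nat_lit 5)⟩))
(.lf ⟨(nat_lit 326), (nat_lit 2), (nat_lit 0xb185), (nat_lit 3)⟩)))))
(.nd (.nd (.nd (.nd (.nd (.lf ⟨(nat_lit 130), (nat_lit 2), (nat_lit 0), (nat_lit 0)⟩)
(.lf ⟨(nat_lit 139), (nat_lit 2), (nat_lit 706), (nat_lit 2)⟩))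
(.nd (.lf ⟨(nat_lit 65), (nat_lit 2), (nat_lit 0), (nat_lit 0)⟩)
(.lf ⟨(nat_lit 326), (nat_lit 2), (nat_lit 389), (nat_lit 2)⟩)))
(.nd (.nd (.lf ⟨(nat_lit 455), (nat_lit 2), (nat_lit 0), (nat_lit 0)⟩)
(.lf ⟨(nat_lit 393), (nat_lit 2), (nat_lit 582), (nat_lit 2)⟩))
(.nd (.lf ⟨(nat_lit 135), (nat_lit 2), (nat_lit 450), (nat_lit 2)⟩)
(.lf ⟨(nat_lit 0x440c2), (nat_lit 4), (nat_lit 0x247143081), (nat_lit 6)⟩))))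
(.nd (.nd (.nd (.lf ⟨(nat_lit 325), (nat_lit 2), (nat_lit 0), (nat_lit 0)⟩)
(.lf ⟨(nat_lit 261), (nat_lit 2), (nat_lit 0x9144), (nat_lit 3)⟩))
(.nd (.lf ⟨(nat_lit 69), (nat_lit 2), (nat_lit 321), (nat_lit 2)⟩)
(.lf ⟨(nat_lit 70), (nat_lit 2), (nat_lit 0x9181), (nat_lit 3)⟩)))
(.nd (.nd (.lf ⟨(nat_lit 650), (nat_lit 2), (nat_lit 0), (nat_lit 0)⟩)
(.lf ⟨(nat_lit 8), (nat_lit 1), (nat_lit 0xb289), (nat_lit 3)⟩))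
(.lf ⟨(nat_lit 457), (nat_lit 2), (nat_lit 583), (nat_lit 2)⟩))))
(.nd (.nd (.nd (.nd (.lf ⟨(nat_lit 260), (nat_lit 2), (nat_lit 0), (nat_lit 0)⟩)
(.lf ⟨(nat_lit 199), (nat_lit 2), (nat_lit 0xb1c3), (nat_lit 3)⟩))
(.nd (.lf ⟨(nat_lit 198), (nat_lit 2), (nat_lit 387), (nat_lit 2)⟩)
(.lf ⟨(nat_lit 199), (nat_lit 2), (nat_lit 451), (nat_lit 2)⟩)))
(.nd (.nd (.lf ⟨(nat_lit 585), (nat_lit 2), (nat_lit 0), (nat_lit 0)⟩)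
(.lf ⟨(nat_lit 0xc20430810c2043081), (nat_lit 12), (nat_lit 0xb289), (nat_lit 3)⟩))
(.nd (.lf ⟨(nat_lit 138), (nat_lit 2), (nat_lit 642), (nat_lit 2)⟩)
(.lf ⟨(nat_lit 0x246144246144), (nat_lit 8), (nat_lit 9), (nat_lit 1)⟩))))
(.nd (.nd (.nd (.lf ⟨(nat_lit 390), (nat_lit 2), (nat_lit 0), (nat_lit 0)⟩)
(.lf ⟨(nat_lit 651), (nat_lit 2), (nat_lit 714), (nat_lit 2)⟩))
(.nd (.lf ⟨(nat_lit 327), (nat_lit 2), (nat_lit 453), (nat_lit 2)⟩)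
(.lf ⟨(nat_lit 0x40c21c6), (nat_lit 5), (nat_lit 0x71840c2), (nat_lit 5)⟩)))
(.nd (.nd (.lf ⟨(nat_lit 715), (nat_lit 2), (nat_lit 0), (nat_lit 0)⟩)
(.lf ⟨(nat_lit 10), (nat_lit 1), (nat_lit 0), (nat_lit 0)⟩))
(.lf ⟨(nat_lit 262), (nat_lit 2), (nat_lit 0xa184), (nat_lit 3)⟩))))))

/-- Substitution. -/
def s21 : List (ℕ × ℕ) := [((nat_lit 0x40c2), (nat_lit 3)), ((nat_lit 1), (nat_lit 1)), ((nat_lit 454), (nat_lit 2))]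

/-- Context. -/
noncomputable def x21 : ℕ → ℕ × ℕ :=
  mkc d0 247 s0 x0 (nth [] (Cl.alts (nsCl 3 [[0, 1, 2, 6], [4, 1, 3, 4], [0], [0, 1], [0, 1, 2]])) 2)

set_option maxRecDepth 100000 in
/-- Facts. -/
noncomputable def d22 : Tr :=
(.nd (.nd (.nd (.nd (.nd (.lf ⟨(nat_lit 65), (nat_lit 2), (nat_lit 0), (nat_lit 0)⟩)
(.lf ⟨(nat_lit 391), (nat_lit 2), (nat_lit 454), (nat_lit 2)⟩))
(.nd (.lf ⟨(nat_lit 71), (nat_lit 2), (nat_lit 0x91c1), (nat_lit 3)⟩)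
(.lf ⟨(nat_lit 0x440c20440c20440c20440c2), (nat_lit 16), (nat_lit 0), (nat_lit 0)⟩)))
(.nd (.nd (.lf ⟨(nat_lit 67), (nat_lit 2), (nat_lit 0x50c1), (nat_lit 3)⟩)
(.lf ⟨(nat_lit 199), (nat_lit 2), (nat_lit 451), (nat_lit 2)⟩))
(.lf ⟨(nat_lit 68), (nat_lit 2), (nat_lit 257), (nat_lit 2)⟩)))
(.nd (.nd (.nd (.lf ⟨(nat_lit 195), (nat_lit 2), (nat_lit 0), (nat_lit 0)⟩)
(.lf ⟨(nat_lit 326), (nat_lit 2), (nat_lit 389), (nat_lit 2)⟩))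
(.nd (.lf ⟨(nat_lit 197), (nat_lit 2), (nat_lit 323), (nat_lit 2)⟩)
(.lf ⟨(nat_lit 0xc2043081), (nat_lit 6), (nat_lit 0x420c1083), (nat_lit 6)⟩)))
(.nd (.nd (.lf ⟨(nat_lit 455), (nat_lit 2), (nat_lit 0), (nat_lit 0)⟩)
(.lf ⟨(nat_lit 70), (nat_lit 2), (nat_lit 0x9181), (nat_lit 3)⟩))
(.lf ⟨(nat_lit 134), (nat_lit 2), (nat_lit 386), (nat_lit 2)⟩))))
(.nd (.nd (.nd (.nd (.lf ⟨(nat_lit 130), (nat_lit 2), (nat_lit 0), (nat_lit 0)⟩)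
(.lf ⟨(nat_lit 135), (nat_lit 2), (nat_lit 450), (nat_lit 2)⟩))
(.nd (.lf ⟨(nat_lit 132), (nat_lit 2), (nat_lit 258), (nat_lit 2)⟩)
(.lf ⟨(nat_lit 9), (nat_lit 1), (nat_lit 0), (nat_lit 0)⟩)))
(.nd (.nd (.lf ⟨(nat_lit 131), (nat_lit 2), (nat_lit 0x60c2), (nat_lit 3)⟩)
(.lf ⟨(nat_lit 196), (nat_lit 2), (nat_lit 0x7103), (nat_lit 3)⟩))
(.lf ⟨(nat_lit 69), (nat_lit 2), (nat_lit 321), (nat_lit 2)⟩)))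
(.nd (.nd (.nd (.lf ⟨(nat_lit 66), (nat_lit 2), (nat_lit 0x4081), (nat_lit 3)⟩)
(.lf ⟨(nat_lit 262), (nat_lit 2), (nat_lit 388), (nat_lit 2)⟩))
(.lf ⟨(nat_lit 198), (nat_lit 2), (nat_lit 387), (nat_lit 2)⟩))
(.nd (.nd (.lf ⟨(nat_lit 133), (nat_lit 2), (nat_lit 0x7142), (nat_lit 3)⟩)
(.lf ⟨(nat_lit 0x440c20440c20440c20440c2), (nat_lit 16), (nat_lit 9), (nat_lit 1)⟩))
(.lf ⟨(nat_lit 327), (nat_lit 2), (nat_lit 453), (nat_lit 2)⟩)))))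

/-- Context. -/
noncomputable def x22 : ℕ → ℕ × ℕ :=
  mkc d21 61 s21 x21 (nth [] (Cl.alts (nsCl 1 [[1, 1], [0, 1], [0]])) 0)

set_option maxRecDepth 100000 in
/-- Facts. -/
noncomputable def d23 : Tr :=
(.nd (.nd (.nd (.nd (.nd (.nd (.lf ⟨(nat_lit 65), (nat_lit 2), (nat_lit 0), (nat_lit 0)⟩)
(.lf ⟨(nat_lit 131), (nat_lit 2), (nat_lit 0x2470c2), (nat_lit 4)⟩))
(.lf ⟨(nat_lit 68), (nat_lit 2), (nat_lit 257), (nat_lit 2)⟩))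
(.nd (.nd (.lf ⟨(nat_lit 455), (nat_lit 2), (nat_lit 0), (nat_lit 0)⟩)
(.lf ⟨(nat_lit 131), (nat_lit 2), (nat_lit 0x70c2), (nat_lit 3)⟩))
(.lf ⟨(nat_lit 263), (nat_lit 2), (nat_lit 452), (nat_lit 2)⟩)))
(.nd (.nd (.nd (.lf ⟨(nat_lit 66), (nat_lit 2), (nat_lit 0x4081), (nat_lit 3)⟩)
(.lf ⟨(nat_lit 9), (nat_lit 1), (nat_lit 0x491c1247), (nat_lit 6)⟩))
(.lf ⟨(nat_lit 135), (nat_lit 2), (nat_lit 450), (nat_lit 2)⟩))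
(.nd (.lf ⟨(nat_lit 65), (nat_lit 2), (nat_lit 0), (nat_lit 0)⟩)
(.lf ⟨(nat_lit 196), (nat_lit 2), (nat_lit 0x7103), (nat_lit 3)⟩))))
(.nd (.nd (.nd (.nd (.lf ⟨(nat_lit 195), (nat_lit 2), (nat_lit 0), (nat_lit 0)⟩)
(.lf ⟨(nat_lit 4), (nat_lit 1), (nat_lit 0x42042), (nat_lit 4)⟩))
(.lf ⟨(nat_lit 0x143143), (nat_lit 4), (nat_lit 0), (nat_lit 0)⟩))
(.nd (.lf ⟨(nat_lit 585), (nat_lit 2), (nat_lit 0), (nat_lit 0)⟩)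
(.lf ⟨(nat_lit 201), (nat_lit 2), (nat_lit 579), (nat_lit 2)⟩)))
(.nd (.nd (.nd (.lf ⟨(nat_lit 67), (nat_lit 2), (nat_lit 0x50c1), (nat_lit 3)⟩)
(.lf ⟨(nat_lit 9), (nat_lit 1), (nat_lit 0), (nat_lit 0)⟩))
(.lf ⟨(nat_lit 457), (nat_lit 2), (nat_lit 583), (nat_lit 2)⟩))
(.nd (.lf ⟨(nat_lit 132), (nat_lit 2), (nat_lit 258), (nat_lit 2)⟩)
(.lf ⟨(nat_lit 0x440c20440c20440c20440c2), (nat_lit 16), (nat_lit 454), (nat_lit 2)⟩)))))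
(.nd (.nd (.nd (.nd (.nd (.lf ⟨(nat_lit 130), (nat_lit 2), (nat_lit 0), (nat_lit 0)⟩)
(.lf ⟨(nat_lit 0x1430850c2), (nat_lit 6), (nat_lit 9), (nat_lit 1)⟩))
(.lf ⟨(nat_lit 69), (nat_lit 2), (nat_lit 321), (nat_lit 2)⟩))
(.nd (.nd (.lf ⟨(nat_lit 133), (nat_lit 2), (nat_lit 0x7142), (nat_lit 3)⟩)
(.lf ⟨(nat_lit 0xc2043081), (nat_lit 6), (nat_lit 0x420c1083), (nat_lit 6)⟩))
(.lf ⟨(nat_lit 261), (nat_lit 2), (nat_lit 0x9144), (nat_lit 3)⟩)))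
(.nd (.nd (.nd (.lf ⟨(nat_lit 325), (nat_lit 2), (nat_lit 0), (nat_lit 0)⟩)
(.lf ⟨(nat_lit 0x50c2), (nat_lit 3), (nat_lit 0x2143), (nat_lit 3)⟩))
(.lf ⟨(nat_lit 73), (nat_lit 2), (nat_lit 577), (nat_lit 2)⟩))
(.nd (.lf ⟨(nat_lit 130), (nat_lit 2), (nat_lit 0), (nat_lit 0)⟩)
(.lf ⟨(nat_lit 0x440c20440c20440c20440c2), (nat_lit 16), (nat_lit 9), (nat_lit 1)⟩))))
(.nd (.nd (.nd (.nd (.lf ⟨(nat_lit 260), (nat_lit 2), (nat_lit 0), (nat_lit 0)⟩)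
(.lf ⟨(nat_lit 583), (nat_lit 2), (nat_lit 0x1431050c4), (nat_lit 6)⟩))
(.lf ⟨(nat_lit 327), (nat_lit 2), (nat_lit 453), (nat_lit 2)⟩))
(.nd (.lf ⟨(nat_lit 71), (nat_lit 2), (nat_lit 0x91c1), (nat_lit 3)⟩)
(.lf ⟨(nat_lit 199), (nat_lit 2), (nat_lit 451), (nat_lit 2)⟩)))
(.nd (.nd (.nd (.lf ⟨(nat_lit 131), (nat_lit 2), (nat_lit 0x60c2), (nat_lit 3)⟩)
(.lf ⟨(nat_lit 71), (nat_lit 2), (nat_lit 449), (nat_lit 2)⟩))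
(.lf ⟨(nat_lit 329), (nat_lit 2), (nat_lit 581), (nat_lit 2)⟩))
(.nd (.lf ⟨(nat_lit 197), (nat_lit 2), (nat_lit 323), (nat_lit 2)⟩)
(.lf ⟨(nat_lit 6), (nat_lit 1), (nat_lit 583), (nat_lit 2)⟩))))))

/-- Context. -/
noncomputable def x23 : ℕ → ℕ × ℕ :=
  mkc d21 61 s21 x21 (nth [] (Cl.alts (nsCl 1 [[1, 1], [0, 1], [0]])) 1)

set_option maxRecDepth 100000 in
/-- Facts. -/
noncomputable def d24 : Tr :=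
(.nd (.nd (.nd (.nd (.nd (.nd (.lf ⟨(nat_lit 65), (nat_lit 2), (nat_lit 0), (nat_lit 0)⟩)
(.lf ⟨(nat_lit 137), (nat_lit 2), (nat_lit 578), (nat_lit 2)⟩))
(.nd (.lf ⟨(nat_lit 715), (nat_lit 2), (nat_lit 0), (nat_lit 0)⟩)
(.lf ⟨(nat_lit 199), (nat_lit 2), (nat_lit 451), (nat_lit 2)⟩)))
(.nd (.nd (.lf ⟨(nat_lit 131), (nat_lit 2), (nat_lit 0x60c2), (nat_lit 3)⟩)
(.lf ⟨(nat_lit 0xc20430810c2043081), (nat_lit 12), (nat_lit 0xb289), (nat_lit 3)⟩))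
(.nd (.lf ⟨(nat_lit 327), (nat_lit 2), (nat_lit 453), (nat_lit 2)⟩)
(.lf ⟨(nat_lit 0x103081103081103081103081), (nat_lit 16), (nat_lit 9), (nat_lit 1)⟩))))
(.nd (.nd (.nd (.lf ⟨(nat_lit 66), (nat_lit 2), (nat_lit 0x4081), (nat_lit 3)⟩)
(.lf ⟨(nat_lit 0x1c61c6), (nat_lit 4), (nat_lit 0), (nat_lit 0)⟩))
(.nd (.lf ⟨(nat_lit 197), (nat_lit 2), (nat_lit 323), (nat_lit 2)⟩)
(.lf ⟨(nat_lit 0x40c21c6), (nat_lit 5), (nat_lit 0x71840c2), (nat_lit 5)⟩)))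
(.nd (.nd (.lf ⟨(nat_lit 585), (nat_lit 2), (nat_lit 0), (nat_lit 0)⟩)
(.lf ⟨(nat_lit 10), (nat_lit 1), (nat_lit 0), (nat_lit 0)⟩))
(.lf ⟨(nat_lit 326), (nat_lit 2), (nat_lit 0xb185), (nat_lit 3)⟩))))
(.nd (.nd (.nd (.nd (.lf ⟨(nat_lit 195), (nat_lit 2), (nat_lit 0), (nat_lit 0)⟩)
(.lf ⟨(nat_lit 263), (nat_lit 2), (nat_lit 452), (nat_lit 2)⟩))
(.nd (.lf ⟨(nat_lit 65), (nat_lit 2), (nat_lit 0), (nat_lit 0)⟩)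
(.lf ⟨(nat_lit 0x11c6), (nat_lit 3), (nat_lit 0x7181), (nat_lit 3)⟩)))
(.nd (.nd (.lf ⟨(nat_lit 133), (nat_lit 2), (nat_lit 0x7142), (nat_lit 3)⟩)
(.lf ⟨(nat_lit 8), (nat_lit 1), (nat_lit 9), (nat_lit 1)⟩))
(.lf ⟨(nat_lit 135), (nat_lit 2), (nat_lit 450), (nat_lit 2)⟩)))
(.nd (.nd (.nd (.lf ⟨(nat_lit 67), (nat_lit 2), (nat_lit 0x50c1), (nat_lit 3)⟩)
(.lf ⟨(nat_lit 393), (nat_lit 2), (nat_lit 582), (nat_lit 2)⟩))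
(.nd (.lf ⟨(nat_lit 68), (nat_lit 2), (nat_lit 257), (nat_lit 2)⟩)
(.lf ⟨(nat_lit 0x103081103081), (nat_lit 8), (nat_lit 0x6144), (nat_lit 3)⟩)))
(.nd (.nd (.lf ⟨(nat_lit 650), (nat_lit 2), (nat_lit 0), (nat_lit 0)⟩)
(.lf ⟨(nat_lit 326), (nat_lit 2), (nat_lit 389), (nat_lit 2)⟩))
(.lf ⟨(nat_lit 329), (nat_lit 2), (nat_lit 581), (nat_lit 2)⟩)))))
(.nd (.nd (.nd (.nd (.nd (.lf ⟨(nat_lit 130), (nat_lit 2), (nat_lit 0), (nat_lit 0)⟩)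
(.lf ⟨(nat_lit 199), (nat_lit 2), (nat_lit 0xb1c3), (nat_lit 3)⟩))
(.nd (.lf ⟨(nat_lit 200), (nat_lit 2), (nat_lit 0xb203), (nat_lit 3)⟩)
(.lf ⟨(nat_lit 196), (nat_lit 2), (nat_lit 0x7103), (nat_lit 3)⟩)))
(.nd (.nd (.lf ⟨(nat_lit 455), (nat_lit 2), (nat_lit 0), (nat_lit 0)⟩)
(.lf ⟨(nat_lit 0xc20430810c2043081), (nat_lit 12), (nat_lit 0xb288), (nat_lit 3)⟩))
(.lf ⟨(nat_lit 391), (nat_lit 2), (nat_lit 454), (nat_lit 2)⟩)))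
(.nd (.nd (.nd (.lf ⟨(nat_lit 325), (nat_lit 2), (nat_lit 0), (nat_lit 0)⟩)
(.lf ⟨(nat_lit 201), (nat_lit 2), (nat_lit 579), (nat_lit 2)⟩))
(.nd (.lf ⟨(nat_lit 198), (nat_lit 2), (nat_lit 387), (nat_lit 2)⟩)
(.lf ⟨(nat_lit 0x103081), (nat_lit 4), (nat_lit 0x103081), (nat_lit 4)⟩)))
(.nd (.nd (.lf ⟨(nat_lit 71), (nat_lit 2), (nat_lit 0x91c1), (nat_lit 3)⟩)
(.lf ⟨(nat_lit 11), (nat_lit 1), (nat_lit 0), (nat_lit 0)⟩))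
(.lf ⟨(nat_lit 262), (nat_lit 2), (nat_lit 0xa184), (nat_lit 3)⟩))))
(.nd (.nd (.nd (.nd (.lf ⟨(nat_lit 260), (nat_lit 2), (nat_lit 0), (nat_lit 0)⟩)
(.lf ⟨(nat_lit 261), (nat_lit 2), (nat_lit 0x9144), (nat_lit 3)⟩))
(.nd (.lf ⟨(nat_lit 132), (nat_lit 2), (nat_lit 258), (nat_lit 2)⟩)
(.lf ⟨(nat_lit 0x1030840c2), (nat_lit 6), (nat_lit 454), (nat_lit 2)⟩)))
(.nd (.nd (.lf ⟨(nat_lit 70), (nat_lit 2), (nat_lit 0x8181), (nat_lit 3)⟩)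
(.lf ⟨(nat_lit 70), (nat_lit 2), (nat_lit 0x9181), (nat_lit 3)⟩))
(.lf ⟨(nat_lit 457), (nat_lit 2), (nat_lit 583), (nat_lit 2)⟩)))
(.nd (.nd (.nd (.lf ⟨(nat_lit 390), (nat_lit 2), (nat_lit 0), (nat_lit 0)⟩)
(.lf ⟨(nat_lit 196), (nat_lit 2), (nat_lit 0xb289207103), (nat_lit 7)⟩))
(.nd (.lf ⟨(nat_lit 134), (nat_lit 2), (nat_lit 386), (nat_lit 2)⟩)
(.lf ⟨(nat_lit 0x185106144), (nat_lit 6), (nat_lit 9), (nat_lit 1)⟩)))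
(.nd (.nd (.lf ⟨(nat_lit 136), (nat_lit 2), (nat_lit 0xa202), (nat_lit 3)⟩)
(.lf ⟨(nat_lit 262), (nat_lit 2), (nat_lit 388), (nat_lit 2)⟩))
(.lf ⟨(nat_lit 265), (nat_lit 2), (nat_lit 580), (nat_lit 2)⟩))))))

/-- Substitution. -/
def s24 : List (ℕ × ℕ) := [((nat_lit 1), (nat_lit 1)), ((nat_lit 0x40c2), (nat_lit 3)), ((nat_lit 454), (nat_lit 2))]

/-- Context. -/
noncomputable def x24 : ℕ → ℕ × ℕ :=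
  mkc d0 247 s0 x0 (nth [] (Cl.alts (nsCl 3 [[0, 1, 2, 6], [4, 1, 3, 4], [0], [0, 1], [0, 1, 2]])) 3)

set_option maxRecDepth 100000 in
/-- Facts. -/
noncomputable def d25 : Tr :=
(.nd (.nd (.nd (.nd (.nd (.lf ⟨(nat_lit 65), (nat_lit 2), (nat_lit 0), (nat_lit 0)⟩)
(.lf ⟨(nat_lit 391), (nat_lit 2), (nat_lit 454), (nat_lit 2)⟩))
(.nd (.lf ⟨(nat_lit 71), (nat_lit 2), (nat_lit 0x91c1), (nat_lit 3)⟩)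
(.lf ⟨(nat_lit 0x103081103081103081103081), (nat_lit 16), (nat_lit 0), (nat_lit 0)⟩)))
(.nd (.nd (.lf ⟨(nat_lit 67), (nat_lit 2), (nat_lit 0x50c1), (nat_lit 3)⟩)
(.lf ⟨(nat_lit 262), (nat_lit 2), (nat_lit 388), (nat_lit 2)⟩))
(.lf ⟨(nat_lit 68), (nat_lit 2), (nat_lit 257), (nat_lit 2)⟩)))
(.nd (.nd (.nd (.lf ⟨(nat_lit 195), (nat_lit 2), (nat_lit 0), (nat_lit 0)⟩)
(.lf ⟨(nat_lit 70), (nat_lit 2), (nat_lit 0x9181), (nat_lit 3)⟩))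
(.nd (.lf ⟨(nat_lit 197), (nat_lit 2), (nat_lit 323), (nat_lit 2)⟩)
(.lf ⟨(nat_lit 0xc2043081), (nat_lit 6), (nat_lit 0x420c1083), (nat_lit 6)⟩)))
(.nd (.nd (.lf ⟨(nat_lit 455), (nat_lit 2), (nat_lit 0), (nat_lit 0)⟩)
(.lf ⟨(nat_lit 196), (nat_lit 2), (nat_lit 0x7103), (nat_lit 3)⟩))
(.lf ⟨(nat_lit 134), (nat_lit 2), (nat_lit 386), (nat_lit 2)⟩))))
(.nd (.nd (.nd (.nd (.lf ⟨(nat_lit 130), (nat_lit 2), (nat_lit 0), (nat_lit 0)⟩)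
(.lf ⟨(nat_lit 135), (nat_lit 2), (nat_lit 450), (nat_lit 2)⟩))
(.nd (.lf ⟨(nat_lit 132), (nat_lit 2), (nat_lit 258), (nat_lit 2)⟩)
(.lf ⟨(nat_lit 9), (nat_lit 1), (nat_lit 0), (nat_lit 0)⟩)))
(.nd (.nd (.lf ⟨(nat_lit 131), (nat_lit 2), (nat_lit 0x60c2), (nat_lit 3)⟩)
(.lf ⟨(nat_lit 199), (nat_lit 2), (nat_lit 451), (nat_lit 2)⟩))
(.lf ⟨(nat_lit 69), (nat_lit 2), (nat_lit 321), (nat_lit 2)⟩)))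
(.nd (.nd (.nd (.lf ⟨(nat_lit 66), (nat_lit 2), (nat_lit 0x4081), (nat_lit 3)⟩)
(.lf ⟨(nat_lit 326), (nat_lit 2), (nat_lit 389), (nat_lit 2)⟩))
(.lf ⟨(nat_lit 198), (nat_lit 2), (nat_lit 387), (nat_lit 2)⟩))
(.nd (.nd (.lf ⟨(nat_lit 133), (nat_lit 2), (nat_lit 0x7142), (nat_lit 3)⟩)
(.lf ⟨(nat_lit 0x103081103081103081103081), (nat_lit 16), (nat_lit 9), (nat_lit 1)⟩))
(.lf ⟨(nat_lit 327), (nat_lit 2), (nat_lit 453), (nat_lit 2)⟩)))))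

/-- Context. -/
noncomputable def x25 : ℕ → ℕ × ℕ :=
  mkc d24 57 s24 x24 (nth [] (Cl.alts (nsCl 1 [[0, 1], [1, 1], [0]])) 0)

set_option maxRecDepth 100000 in
/-- Facts. -/
noncomputable def d26 : Tr :=
(.nd (.nd (.nd (.nd (.nd (.nd (.lf ⟨(nat_lit 65), (nat_lit 2), (nat_lit 0), (nat_lit 0)⟩)
(.lf ⟨(nat_lit 131), (nat_lit 2), (nat_lit 0x2470c2), (nat_lit 4)⟩))
(.lf ⟨(nat_lit 68), (nat_lit 2), (nat_lit 257), (nat_lit 2)⟩))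
(.nd (.nd (.lf ⟨(nat_lit 455), (nat_lit 2), (nat_lit 0), (nat_lit 0)⟩)
(.lf ⟨(nat_lit 131), (nat_lit 2), (nat_lit 0x70c2), (nat_lit 3)⟩))
(.lf ⟨(nat_lit 263), (nat_lit 2), (nat_lit 452), (nat_lit 2)⟩)))
(.nd (.nd (.nd (.lf ⟨(nat_lit 66), (nat_lit 2), (nat_lit 0x4081), (nat_lit 3)⟩)
(.lf ⟨(nat_lit 9), (nat_lit 1), (nat_lit 0x491c1247), (nat_lit 6)⟩))
(.lf ⟨(nat_lit 135), (nat_lit 2), (nat_lit 450), (nat_lit 2)⟩))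
(.nd (.lf ⟨(nat_lit 65), (nat_lit 2), (nat_lit 0), (nat_lit 0)⟩)
(.lf ⟨(nat_lit 196), (nat_lit 2), (nat_lit 0x7103), (nat_lit 3)⟩))))
(.nd (.nd (.nd (.nd (.lf ⟨(nat_lit 195), (nat_lit 2), (nat_lit 0), (nat_lit 0)⟩)
(.lf ⟨(nat_lit 4), (nat_lit 1), (nat_lit 0x42042), (nat_lit 4)⟩))
(.lf ⟨(nat_lit 0x143143), (nat_lit 4), (nat_lit 0), (nat_lit 0)⟩))
(.nd (.lf ⟨(nat_lit 585), (nat_lit 2), (nat_lit 0), (nat_lit 0)⟩)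
(.lf ⟨(nat_lit 201), (nat_lit 2), (nat_lit 579), (nat_lit 2)⟩)))
(.nd (.nd (.nd (.lf ⟨(nat_lit 67), (nat_lit 2), (nat_lit 0x50c1), (nat_lit 3)⟩)
(.lf ⟨(nat_lit 9), (nat_lit 1), (nat_lit 0), (nat_lit 0)⟩))
(.lf ⟨(nat_lit 457), (nat_lit 2), (nat_lit 583), (nat_lit 2)⟩))
(.nd (.lf ⟨(nat_lit 132), (nat_lit 2), (nat_lit 258), (nat_lit 2)⟩)
(.lf ⟨(nat_lit 0x103081103081103081103081), (nat_lit 16), (nat_lit 454), (nat_lit 2)⟩)))))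
(.nd (.nd (.nd (.nd (.nd (.lf ⟨(nat_lit 130), (nat_lit 2), (nat_lit 0), (nat_lit 0)⟩)
(.lf ⟨(nat_lit 0x1430850c2), (nat_lit 6), (nat_lit 9), (nat_lit 1)⟩))
(.lf ⟨(nat_lit 69), (nat_lit 2), (nat_lit 321), (nat_lit 2)⟩))
(.nd (.nd (.lf ⟨(nat_lit 133), (nat_lit 2), (nat_lit 0x7142), (nat_lit 3)⟩)
(.lf ⟨(nat_lit 0xc2043081), (nat_lit 6), (nat_lit 0x420c1083), (nat_lit 6)⟩))
(.lf ⟨(nat_lit 261), (nat_lit 2), (nat_lit 0x9144), (nat_lit 3)⟩)))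
(.nd (.nd (.nd (.lf ⟨(nat_lit 325), (nat_lit 2), (nat_lit 0), (nat_lit 0)⟩)
(.lf ⟨(nat_lit 0x50c2), (nat_lit 3), (nat_lit 0x2143), (nat_lit 3)⟩))
(.lf ⟨(nat_lit 73), (nat_lit 2), (nat_lit 577), (nat_lit 2)⟩))
(.nd (.lf ⟨(nat_lit 130), (nat_lit 2), (nat_lit 0), (nat_lit 0)⟩)
(.lf ⟨(nat_lit 0x103081103081103081103081), (nat_lit 16), (nat_lit 9), (nat_lit 1)⟩))))
(.nd (.nd (.nd (.nd (.lf ⟨(nat_lit 260), (nat_lit 2), (nat_lit 0), (nat_lit 0)⟩)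
(.lf ⟨(nat_lit 583), (nat_lit 2), (nat_lit 0x1431050c4), (nat_lit 6)⟩))
(.lf ⟨(nat_lit 327), (nat_lit 2), (nat_lit 453), (nat_lit 2)⟩))
(.nd (.lf ⟨(nat_lit 71), (nat_lit 2), (nat_lit 0x91c1), (nat_lit 3)⟩)
(.lf ⟨(nat_lit 199), (nat_lit 2), (nat_lit 451), (nat_lit 2)⟩)))
(.nd (.nd (.nd (.lf ⟨(nat_lit 131), (nat_lit 2), (nat_lit 0x60c2), (nat_lit 3)⟩)
(.lf ⟨(nat_lit 71), (nat_lit 2), (nat_lit 449), (nat_lit 2)⟩))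
(.lf ⟨(nat_lit 329), (nat_lit 2), (nat_lit 581), (nat_lit 2)⟩))
(.nd (.lf ⟨(nat_lit 197), (nat_lit 2), (nat_lit 323), (nat_lit 2)⟩)
(.lf ⟨(nat_lit 6), (nat_lit 1), (nat_lit 583), (nat_lit 2)⟩))))))

/-- Context. -/
noncomputable def x26 : ℕ → ℕ × ℕ :=
  mkc d24 57 s24 x24 (nth [] (Cl.alts (nsCl 1 [[0, 1], [1, 1], [0]])) 1)

set_option maxRecDepth 100000 in
/-- Facts. -/
noncomputable def d27 : Tr :=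
(.nd (.nd (.nd (.nd (.nd (.nd (.lf ⟨(nat_lit 65), (nat_lit 2), (nat_lit 0), (nat_lit 0)⟩)
(.lf ⟨(nat_lit 263), (nat_lit 2), (nat_lit 452), (nat_lit 2)⟩))
(.nd (.lf ⟨(nat_lit 65), (nat_lit 2), (nat_lit 0), (nat_lit 0)⟩)
(.lf ⟨(nat_lit 583), (nat_lit 2), (nat_lit 0xc40c4), (nat_lit 4)⟩)))
(.nd (.nd (.lf ⟨(nat_lit 133), (nat_lit 2), (nat_lit 0x7142), (nat_lit 3)⟩)
(.lf ⟨(nat_lit 8), (nat_lit 1), (nat_lit 0), (nat_lit 0)⟩))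
(.lf ⟨(nat_lit 135), (nat_lit 2), (nat_lit 450), (nat_lit 2)⟩)))
(.nd (.nd (.nd (.lf ⟨(nat_lit 66), (nat_lit 2), (nat_lit 0x4081), (nat_lit 3)⟩)
(.lf ⟨(nat_lit 0xc20430810c2043081), (nat_lit 12), (nat_lit 0xb289), (nat_lit 3)⟩))
(.nd (.lf ⟨(nat_lit 197), (nat_lit 2), (nat_lit 323), (nat_lit 2)⟩)
(.lf ⟨(nat_lit 71), (nat_lit 2), (nat_lit 449), (nat_lit 2)⟩)))
(.nd (.nd (.lf ⟨(nat_lit 650), (nat_lit 2), (nat_lit 0), (nat_lit 0)⟩)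
(.lf ⟨(nat_lit 196), (nat_lit 2), (nat_lit 0x247103), (nat_lit 4)⟩))
(.lf ⟨(nat_lit 265), (nat_lit 2), (nat_lit 580), (nat_lit 2)⟩))))
(.nd (.nd (.nd (.nd (.lf ⟨(nat_lit 195), (nat_lit 2), (nat_lit 0), (nat_lit 0)⟩)
(.lf ⟨(nat_lit 201), (nat_lit 2), (nat_lit 579), (nat_lit 2)⟩))
(.nd (.lf ⟨(nat_lit 195), (nat_lit 2), (nat_lit 0), (nat_lit 0)⟩)
(.lf ⟨(nat_lit 194), (nat_lit 2), (nat_lit 131), (nat_lit 2)⟩)))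
(.nd (.nd (.lf ⟨(nat_lit 585), (nat_lit 2), (nat_lit 0), (nat_lit 0)⟩)
(.lf ⟨(nat_lit 11), (nat_lit 1), (nat_lit 0), (nat_lit 0)⟩))
(.lf ⟨(nat_lit 522), (nat_lit 2), (nat_lit 648), (nat_lit 2)⟩)))
(.nd (.nd (.nd (.lf ⟨(nat_lit 131), (nat_lit 2), (nat_lit 0x60c2), (nat_lit 3)⟩)
(.lf ⟨(nat_lit 6), (nat_lit 1), (nat_lit 0xb289), (nat_lit 3)⟩))
(.nd (.lf ⟨(nat_lit 69), (nat_lit 2), (nat_lit 321), (nat_lit 2)⟩)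
(.lf ⟨(nat_lit 131), (nat_lit 2), (nat_lit 194), (nat_lit 2)⟩)))
(.nd (.nd (.lf ⟨(nat_lit 715), (nat_lit 2), (nat_lit 0), (nat_lit 0)⟩)
(.lf ⟨(nat_lit 0xc20c2), (nat_lit 4), (nat_lit 9), (nat_lit 1)⟩))
(.lf ⟨(nat_lit 75), (nat_lit 2), (nat_lit 705), (nat_lit 2)⟩)))))
(.nd (.nd (.nd (.nd (.nd (.lf ⟨(nat_lit 130), (nat_lit 2), (nat_lit 0), (nat_lit 0)⟩)
(.lf ⟨(nat_lit 521), (nat_lit 2), (nat_lit 584), (nat_lit 2)⟩))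
(.nd (.lf ⟨(nat_lit 130), (nat_lit 2), (nat_lit 0), (nat_lit 0)⟩)
(.lf ⟨(nat_lit 9), (nat_lit 1), (nat_lit 0x491c1247), (nat_lit 6)⟩)))
(.nd (.nd (.lf ⟨(nat_lit 70), (nat_lit 2), (nat_lit 0x8181), (nat_lit 3)⟩)
(.lf ⟨(nat_lit 10), (nat_lit 1), (nat_lit 0), (nat_lit 0)⟩))
(.lf ⟨(nat_lit 73), (nat_lit 2), (nat_lit 577), (nat_lit 2)⟩)))
(.nd (.nd (.nd (.lf ⟨(nat_lit 67), (nat_lit 2), (nat_lit 0x50c1), (nat_lit 3)⟩)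
(.lf ⟨(nat_lit 0xc20430810c2043081), (nat_lit 12), (nat_lit 6), (nat_lit 1)⟩))
(.nd (.lf ⟨(nat_lit 68), (nat_lit 2), (nat_lit 257), (nat_lit 2)⟩)
(.lf ⟨(nat_lit 196), (nat_lit 2), (nat_lit 0x7103), (nat_lit 3)⟩)))
(.nd (.nd (.lf ⟨(nat_lit 136), (nat_lit 2), (nat_lit 0xa202), (nat_lit 3)⟩)
(.lf ⟨(nat_lit 131), (nat_lit 2), (nat_lit 0x90c2), (nat_lit 3)⟩))
(.lf ⟨(nat_lit 74), (nat_lit 2), (nat_lit 641), (nat_lit 2)⟩))))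
(.nd (.nd (.nd (.nd (.lf ⟨(nat_lit 260), (nat_lit 2), (nat_lit 0), (nat_lit 0)⟩)
(.lf ⟨(nat_lit 196), (nat_lit 2), (nat_lit 0xb289207103), (nat_lit 7)⟩))
(.nd (.lf ⟨(nat_lit 132), (nat_lit 2), (nat_lit 258), (nat_lit 2)⟩)
(.lf ⟨(nat_lit 9), (nat_lit 1), (nat_lit 0), (nat_lit 0)⟩)))
(.nd (.nd (.lf ⟨(nat_lit 71), (nat_lit 2), (nat_lit 0x91c1), (nat_lit 3)⟩)
(.lf ⟨(nat_lit 199), (nat_lit 2), (nat_lit 451), (nat_lit 2)⟩))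
(.lf ⟨(nat_lit 523), (nat_lit 2), (nat_lit 712), (nat_lit 2)⟩)))
(.nd (.nd (.nd (.lf ⟨(nat_lit 455), (nat_lit 2), (nat_lit 0), (nat_lit 0)⟩)
(.lf ⟨(nat_lit 131), (nat_lit 2), (nat_lit 0xb2890c2), (nat_lit 5)⟩))
(.nd (.lf ⟨(nat_lit 327), (nat_lit 2), (nat_lit 453), (nat_lit 2)⟩)
(.lf ⟨(nat_lit 0xc2043081), (nat_lit 6), (nat_lit 0x420c1083), (nat_lit 6)⟩)))
(.nd (.nd (.lf ⟨(nat_lit 200), (nat_lit 2), (nat_lit 0xb203), (nat_lit 3)⟩)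
(.lf ⟨(nat_lit 4), (nat_lit 1), (nat_lit 0x42042), (nat_lit 4)⟩))
(.lf ⟨(nat_lit 199), (nat_lit 2), (nat_lit 0xb1c3), (nat_lit 3)⟩))))))

/-- Context. -/
noncomputable def x27 : ℕ → ℕ × ℕ :=
  mkc d0 247 s0 x0 (nth [] (Cl.alts (nsCl 3 [[0, 1, 2, 6], [4, 1, 3, 4], [0], [0, 1], [0, 1, 2]])) 4)

set_option maxRecDepth 100000 in
/-- Facts. -/
noncomputable def d28 : Tr :=
(.nd (.nd (.nd (.nd (.nd (.nd (.lf ⟨(nat_lit 65), (nat_lit 2), (nat_lit 0), (nat_lit 0)⟩)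
(.lf ⟨(nat_lit 0xc20430810c2043081), (nat_lit 12), (nat_lit 0xb289), (nat_lit 3)⟩))
(.nd (.lf ⟨(nat_lit 65), (nat_lit 2), (nat_lit 0), (nat_lit 0)⟩)
(.lf ⟨(nat_lit 131), (nat_lit 2), (nat_lit 194), (nat_lit 2)⟩)))
(.nd (.nd (.lf ⟨(nat_lit 133), (nat_lit 2), (nat_lit 0x7142), (nat_lit 3)⟩)
(.lf ⟨(nat_lit 196), (nat_lit 2), (nat_lit 0x247103), (nat_lit 4)⟩))
(.lf ⟨(nat_lit 135), (nat_lit 2), (nat_lit 450), (nat_lit 2)⟩)))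
(.nd (.nd (.nd (.lf ⟨(nat_lit 66), (nat_lit 2), (nat_lit 0x4081), (nat_lit 3)⟩)
(.lf ⟨(nat_lit 8), (nat_lit 1), (nat_lit 0), (nat_lit 0)⟩))
(.lf ⟨(nat_lit 197), (nat_lit 2), (nat_lit 323), (nat_lit 2)⟩))
(.nd (.nd (.lf ⟨(nat_lit 650), (nat_lit 2), (nat_lit 0), (nat_lit 0)⟩)
(.lf ⟨(nat_lit 9), (nat_lit 1), (nat_lit 0x491c1247), (nat_lit 6)⟩))
(.lf ⟨(nat_lit 263), (nat_lit 2), (nat_lit 452), (nat_lit 2)⟩))))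
(.nd (.nd (.nd (.nd (.lf ⟨(nat_lit 195), (nat_lit 2), (nat_lit 0), (nat_lit 0)⟩)
(.lf ⟨(nat_lit 6), (nat_lit 1), (nat_lit 9), (nat_lit 1)⟩))
(.nd (.lf ⟨(nat_lit 195), (nat_lit 2), (nat_lit 0), (nat_lit 0)⟩)
(.lf ⟨(nat_lit 0xc2043081), (nat_lit 6), (nat_lit 0x420c1083), (nat_lit 6)⟩)))
(.nd (.nd (.lf ⟨(nat_lit 585), (nat_lit 2), (nat_lit 0), (nat_lit 0)⟩)
(.lf ⟨(nat_lit 4), (nat_lit 1), (nat_lit 0x42042), (nat_lit 4)⟩))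
(.lf ⟨(nat_lit 265), (nat_lit 2), (nat_lit 580), (nat_lit 2)⟩)))
(.nd (.nd (.nd (.lf ⟨(nat_lit 131), (nat_lit 2), (nat_lit 0x60c2), (nat_lit 3)⟩)
(.lf ⟨(nat_lit 11), (nat_lit 1), (nat_lit 0), (nat_lit 0)⟩))
(.lf ⟨(nat_lit 69), (nat_lit 2), (nat_lit 321), (nat_lit 2)⟩))
(.nd (.nd (.lf ⟨(nat_lit 715), (nat_lit 2), (nat_lit 0), (nat_lit 0)⟩)
(.lf ⟨(nat_lit 9), (nat_lit 1), (nat_lit 0), (nat_lit 0)⟩))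
(.lf ⟨(nat_lit 201), (nat_lit 2), (nat_lit 579), (nat_lit 2)⟩)))))
(.nd (.nd (.nd (.nd (.nd (.lf ⟨(nat_lit 130), (nat_lit 2), (nat_lit 0), (nat_lit 0)⟩)
(.lf ⟨(nat_lit 0xc20430810c2043081), (nat_lit 12), (nat_lit 0xb286), (nat_lit 3)⟩))
(.nd (.lf ⟨(nat_lit 130), (nat_lit 2), (nat_lit 0), (nat_lit 0)⟩)
(.lf ⟨(nat_lit 196), (nat_lit 2), (nat_lit 0x7103), (nat_lit 3)⟩)))
(.nd (.nd (.lf ⟨(nat_lit 70), (nat_lit 2), (nat_lit 0x8181), (nat_lit 3)⟩)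
(.lf ⟨(nat_lit 0xc20c2), (nat_lit 4), (nat_lit 9), (nat_lit 1)⟩))
(.lf ⟨(nat_lit 73), (nat_lit 2), (nat_lit 577), (nat_lit 2)⟩)))
(.nd (.nd (.nd (.lf ⟨(nat_lit 67), (nat_lit 2), (nat_lit 0x50c1), (nat_lit 3)⟩)
(.lf ⟨(nat_lit 10), (nat_lit 1), (nat_lit 0), (nat_lit 0)⟩))
(.lf ⟨(nat_lit 68), (nat_lit 2), (nat_lit 257), (nat_lit 2)⟩))
(.nd (.nd (.lf ⟨(nat_lit 136), (nat_lit 2), (nat_lit 0xa202), (nat_lit 3)⟩)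
(.lf ⟨(nat_lit 194), (nat_lit 2), (nat_lit 131), (nat_lit 2)⟩))
(.lf ⟨(nat_lit 521), (nat_lit 2), (nat_lit 584), (nat_lit 2)⟩))))
(.nd (.nd (.nd (.nd (.lf ⟨(nat_lit 260), (nat_lit 2), (nat_lit 0), (nat_lit 0)⟩)
(.lf ⟨(nat_lit 131), (nat_lit 2), (nat_lit 0x90c2), (nat_lit 3)⟩))
(.lf ⟨(nat_lit 132), (nat_lit 2), (nat_lit 258), (nat_lit 2)⟩))
(.nd (.nd (.lf ⟨(nat_lit 71), (nat_lit 2), (nat_lit 0x91c1), (nat_lit 3)⟩)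
(.lf ⟨(nat_lit 583), (nat_lit 2), (nat_lit 0xc40c4), (nat_lit 4)⟩))
(.lf ⟨(nat_lit 199), (nat_lit 2), (nat_lit 0xb1c3), (nat_lit 3)⟩)))
(.nd (.nd (.nd (.lf ⟨(nat_lit 455), (nat_lit 2), (nat_lit 0), (nat_lit 0)⟩)
(.lf ⟨(nat_lit 199), (nat_lit 2), (nat_lit 451), (nat_lit 2)⟩))
(.lf ⟨(nat_lit 327), (nat_lit 2), (nat_lit 453), (nat_lit 2)⟩))
(.nd (.nd (.lf ⟨(nat_lit 200), (nat_lit 2), (nat_lit 0xb203), (nat_lit 3)⟩)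
(.lf ⟨(nat_lit 71), (nat_lit 2), (nat_lit 449), (nat_lit 2)⟩))
(.lf ⟨(nat_lit 196), (nat_lit 2), (nat_lit 0xb289207103), (nat_lit 7)⟩))))))

/-- Context. -/
noncomputable def x28 : ℕ → ℕ × ℕ :=
  mkc d0 247 s0 x0 (nth [] (Cl.alts (nsCl 3 [[0, 1, 2, 6], [4, 1, 3, 4], [0], [0, 1], [0, 1, 2]])) 5)

set_option maxRecDepth 100000 in
/-- Facts. -/
noncomputable def d29 : Tr :=
(.nd (.nd (.nd (.nd (.nd (.nd (.lf ⟨(nat_lit 65), (nat_lit 2), (nat_lit 0), (nat_lit 0)⟩)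
(.lf ⟨(nat_lit 75), (nat_lit 2), (nat_lit 705), (nat_lit 2)⟩))
(.nd (.lf ⟨(nat_lit 200), (nat_lit 2), (nat_lit 0xb203), (nat_lit 3)⟩)
(.lf ⟨(nat_lit 0xc20c2), (nat_lit 4), (nat_lit 9), (nat_lit 1)⟩)))
(.nd (.nd (.lf ⟨(nat_lit 133), (nat_lit 2), (nat_lit 0x7142), (nat_lit 3)⟩)
(.lf ⟨(nat_lit 6), (nat_lit 1), (nat_lit 0x2ca248), (nat_lit 4)⟩))
(.nd (.lf ⟨(nat_lit 327), (nat_lit 2), (nat_lit 453), (nat_lit 2)⟩)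
(.lf ⟨(nat_lit 131), (nat_lit 2), (nat_lit 194), (nat_lit 2)⟩))))
(.nd (.nd (.nd (.lf ⟨(nat_lit 66), (nat_lit 2), (nat_lit 0x4081), (nat_lit 3)⟩)
(.lf ⟨(nat_lit 201), (nat_lit 2), (nat_lit 579), (nat_lit 2)⟩))
(.nd (.lf ⟨(nat_lit 132), (nat_lit 2), (nat_lit 258), (nat_lit 2)⟩)
(.lf ⟨(nat_lit 194), (nat_lit 2), (nat_lit 131), (nat_lit 2)⟩)))
(.nd (.nd (.lf ⟨(nat_lit 71), (nat_lit 2), (nat_lit 0x91c1), (nat_lit 3)⟩)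
(.lf ⟨(nat_lit 11), (nat_lit 1), (nat_lit 0), (nat_lit 0)⟩))
(.lf ⟨(nat_lit 522), (nat_lit 2), (nat_lit 648), (nat_lit 2)⟩))))
(.nd (.nd (.nd (.nd (.lf ⟨(nat_lit 195), (nat_lit 2), (nat_lit 0), (nat_lit 0)⟩)
(.lf ⟨(nat_lit 263), (nat_lit 2), (nat_lit 452), (nat_lit 2)⟩))
(.nd (.lf ⟨(nat_lit 130), (nat_lit 2), (nat_lit 0), (nat_lit 0)⟩)
(.lf ⟨(nat_lit 583), (nat_lit 2), (nat_lit 0xc40c4), (nat_lit 4)⟩)))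
(.nd (.nd (.lf ⟨(nat_lit 70), (nat_lit 2), (nat_lit 0x8181), (nat_lit 3)⟩)
(.lf ⟨(nat_lit 8), (nat_lit 1), (nat_lit 0), (nat_lit 0)⟩))
(.lf ⟨(nat_lit 135), (nat_lit 2), (nat_lit 450), (nat_lit 2)⟩)))
(.nd (.nd (.nd (.lf ⟨(nat_lit 131), (nat_lit 2), (nat_lit 0x60c2), (nat_lit 3)⟩)
(.lf ⟨(nat_lit 0xc20430810c2043081), (nat_lit 12), (nat_lit 0xb289), (nat_lit 3)⟩))
(.nd (.lf ⟨(nat_lit 68), (nat_lit 2), (nat_lit 257), (nat_lit 2)⟩)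
(.lf ⟨(nat_lit 71), (nat_lit 2), (nat_lit 449), (nat_lit 2)⟩)))
(.nd (.nd (.lf ⟨(nat_lit 136), (nat_lit 2), (nat_lit 0xa202), (nat_lit 3)⟩)
(.lf ⟨(nat_lit 196), (nat_lit 2), (nat_lit 0x247103), (nat_lit 4)⟩))
(.lf ⟨(nat_lit 265), (nat_lit 2), (nat_lit 580), (nat_lit 2)⟩)))))
(.nd (.nd (.nd (.nd (.nd (.lf ⟨(nat_lit 130), (nat_lit 2), (nat_lit 0), (nat_lit 0)⟩)
(.lf ⟨(nat_lit 199), (nat_lit 2), (nat_lit 0xb1c3), (nat_lit 3)⟩))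
(.nd (.lf ⟨(nat_lit 65), (nat_lit 2), (nat_lit 0), (nat_lit 0)⟩)
(.lf ⟨(nat_lit 4), (nat_lit 1), (nat_lit 0x42042), (nat_lit 4)⟩)))
(.nd (.nd (.lf ⟨(nat_lit 520), (nat_lit 2), (nat_lit 0), (nat_lit 0)⟩)
(.lf ⟨(nat_lit 131), (nat_lit 2), (nat_lit 0x2ca2480c2), (nat_lit 6)⟩))
(.nd (.lf ⟨(nat_lit 72), (nat_lit 2), (nat_lit 513), (nat_lit 2)⟩)
(.lf ⟨(nat_lit 0xc2043081), (nat_lit 6), (nat_lit 0x420c1083), (nat_lit 6)⟩))))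
(.nd (.nd (.nd (.lf ⟨(nat_lit 67), (nat_lit 2), (nat_lit 0x50c1), (nat_lit 3)⟩)
(.lf ⟨(nat_lit 196), (nat_lit 2), (nat_lit 0xb289207103), (nat_lit 7)⟩))
(.nd (.lf ⟨(nat_lit 197), (nat_lit 2), (nat_lit 323), (nat_lit 2)⟩)
(.lf ⟨(nat_lit 9), (nat_lit 1), (nat_lit 0), (nat_lit 0)⟩)))
(.nd (.nd (.lf ⟨(nat_lit 650), (nat_lit 2), (nat_lit 0), (nat_lit 0)⟩)
(.lf ⟨(nat_lit 199), (nat_lit 2), (nat_lit 451), (nat_lit 2)⟩))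
(.lf ⟨(nat_lit 523), (nat_lit 2), (nat_lit 712), (nat_lit 2)⟩))))
(.nd (.nd (.nd (.nd (.lf ⟨(nat_lit 260), (nat_lit 2), (nat_lit 0), (nat_lit 0)⟩)
(.lf ⟨(nat_lit 521), (nat_lit 2), (nat_lit 584), (nat_lit 2)⟩))
(.nd (.lf ⟨(nat_lit 195), (nat_lit 2), (nat_lit 0), (nat_lit 0)⟩)
(.lf ⟨(nat_lit 9), (nat_lit 1), (nat_lit 0x491c1247), (nat_lit 6)⟩)))
(.nd (.nd (.lf ⟨(nat_lit 585), (nat_lit 2), (nat_lit 0), (nat_lit 0)⟩)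
(.lf ⟨(nat_lit 10), (nat_lit 1), (nat_lit 0), (nat_lit 0)⟩))
(.lf ⟨(nat_lit 73), (nat_lit 2), (nat_lit 577), (nat_lit 2)⟩)))
(.nd (.nd (.nd (.lf ⟨(nat_lit 455), (nat_lit 2), (nat_lit 0), (nat_lit 0)⟩)
(.lf ⟨(nat_lit 0xc20430810c2043081), (nat_lit 12), (nat_lit 518), (nat_lit 2)⟩))
(.nd (.lf ⟨(nat_lit 69), (nat_lit 2), (nat_lit 321), (nat_lit 2)⟩)
(.lf ⟨(nat_lit 196), (nat_lit 2), (nat_lit 0x7103), (nat_lit 3)⟩)))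
(.nd (.nd (.lf ⟨(nat_lit 715), (nat_lit 2), (nat_lit 0), (nat_lit 0)⟩)
(.lf ⟨(nat_lit 131), (nat_lit 2), (nat_lit 0x90c2), (nat_lit 3)⟩))
(.lf ⟨(nat_lit 74), (nat_lit 2), (nat_lit 641), (nat_lit 2)⟩))))))

/-- Context. -/
noncomputable def x29 : ℕ → ℕ × ℕ :=
  mkc d0 247 s0 x0 (nth [] (Cl.alts (nsCl 3 [[0, 1, 2, 6], [4, 1, 3, 4], [0], [0, 1], [0, 1, 2]])) 6)

set_option maxRecDepth 100000 in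
/-- Facts. -/
noncomputable def d30 : Tr :=
(.nd (.nd (.nd (.nd (.nd (.nd (.lf ⟨(nat_lit 65), (nat_lit 2), (nat_lit 0), (nat_lit 0)⟩)
(.lf ⟨(nat_lit 201), (nat_lit 2), (nat_lit 579), (nat_lit 2)⟩))
(.nd (.lf ⟨(nat_lit 200), (nat_lit 2), (nat_lit 0xb203), (nat_lit 3)⟩)
(.lf ⟨(nat_lit 194), (nat_lit 2), (nat_lit 131), (nat_lit 2)⟩)))
(.nd (.nd (.lf ⟨(nat_lit 133), (nat_lit 2), (nat_lit 0x7142), (nat_lit 3)⟩)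
(.lf ⟨(nat_lit 11), (nat_lit 1), (nat_lit 0), (nat_lit 0)⟩))
(.lf ⟨(nat_lit 327), (nat_lit 2), (nat_lit 453), (nat_lit 2)⟩)))
(.nd (.nd (.nd (.lf ⟨(nat_lit 66), (nat_lit 2), (nat_lit 0x4081), (nat_lit 3)⟩)
(.lf ⟨(nat_lit 6), (nat_lit 1), (nat_lit 584), (nat_lit 2)⟩))
(.nd (.lf ⟨(nat_lit 132), (nat_lit 2), (nat_lit 258), (nat_lit 2)⟩)
(.lf ⟨(nat_lit 131), (nat_lit 2), (nat_lit 194), (nat_lit 2)⟩)))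
(.nd (.nd (.lf ⟨(nat_lit 71), (nat_lit 2), (nat_lit 0x91c1), (nat_lit 3)⟩)
(.lf ⟨(nat_lit 0xc20c2), (nat_lit 4), (nat_lit 9), (nat_lit 1)⟩))
(.lf ⟨(nat_lit 265), (nat_lit 2), (nat_lit 580), (nat_lit 2)⟩))))
(.nd (.nd (.nd (.nd (.lf ⟨(nat_lit 195), (nat_lit 2), (nat_lit 0), (nat_lit 0)⟩)
(.lf ⟨(nat_lit 0xc20430810c2043081), (nat_lit 12), (nat_lit 0xb289), (nat_lit 3)⟩))
(.nd (.lf ⟨(nat_lit 130), (nat_lit 2), (nat_lit 0), (nat_lit 0)⟩)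
(.lf ⟨(nat_lit 71), (nat_lit 2), (nat_lit 449), (nat_lit 2)⟩)))
(.nd (.nd (.lf ⟨(nat_lit 70), (nat_lit 2), (nat_lit 0x8181), (nat_lit 3)⟩)
(.lf ⟨(nat_lit 196), (nat_lit 2), (nat_lit 0x247103), (nat_lit 4)⟩))
(.lf ⟨(nat_lit 135), (nat_lit 2), (nat_lit 450), (nat_lit 2)⟩)))
(.nd (.nd (.nd (.lf ⟨(nat_lit 131), (nat_lit 2), (nat_lit 0x60c2), (nat_lit 3)⟩)
(.lf ⟨(nat_lit 8), (nat_lit 1), (nat_lit 0), (nat_lit 0)⟩))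
(.lf ⟨(nat_lit 68), (nat_lit 2), (nat_lit 257), (nat_lit 2)⟩))
(.nd (.nd (.lf ⟨(nat_lit 136), (nat_lit 2), (nat_lit 0xa202), (nat_lit 3)⟩)
(.lf ⟨(nat_lit 583), (nat_lit 2), (nat_lit 0xc40c4), (nat_lit 4)⟩))
(.lf ⟨(nat_lit 263), (nat_lit 2), (nat_lit 452), (nat_lit 2)⟩)))))
(.nd (.nd (.nd (.nd (.nd (.lf ⟨(nat_lit 130), (nat_lit 2), (nat_lit 0), (nat_lit 0)⟩)
(.lf ⟨(nat_lit 196), (nat_lit 2), (nat_lit 0xb289207103), (nat_lit 7)⟩))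
(.nd (.lf ⟨(nat_lit 65), (nat_lit 2), (nat_lit 0), (nat_lit 0)⟩)
(.lf ⟨(nat_lit 9), (nat_lit 1), (nat_lit 0), (nat_lit 0)⟩)))
(.nd (.nd (.lf ⟨(nat_lit 520), (nat_lit 2), (nat_lit 0), (nat_lit 0)⟩)
(.lf ⟨(nat_lit 199), (nat_lit 2), (nat_lit 451), (nat_lit 2)⟩))
(.lf ⟨(nat_lit 72), (nat_lit 2), (nat_lit 513), (nat_lit 2)⟩)))
(.nd (.nd (.nd (.lf ⟨(nat_lit 67), (nat_lit 2), (nat_lit 0x50c1), (nat_lit 3)⟩)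
(.lf ⟨(nat_lit 131), (nat_lit 2), (nat_lit 0x2480c2), (nat_lit 4)⟩))
(.nd (.lf ⟨(nat_lit 197), (nat_lit 2), (nat_lit 323), (nat_lit 2)⟩)
(.lf ⟨(nat_lit 0xc2043081), (nat_lit 6), (nat_lit 0x420c1083), (nat_lit 6)⟩)))
(.nd (.nd (.lf ⟨(nat_lit 650), (nat_lit 2), (nat_lit 0), (nat_lit 0)⟩)
(.lf ⟨(nat_lit 4), (nat_lit 1), (nat_lit 0x42042), (nat_lit 4)⟩))
(.lf ⟨(nat_lit 199), (nat_lit 2), (nat_lit 0xb1c3), (nat_lit 3)⟩))))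
(.nd (.nd (.nd (.nd (.lf ⟨(nat_lit 260), (nat_lit 2), (nat_lit 0), (nat_lit 0)⟩)
(.lf ⟨(nat_lit 0xc20430810c2043081), (nat_lit 12), (nat_lit 0x2ca206), (nat_lit 4)⟩))
(.nd (.lf ⟨(nat_lit 195), (nat_lit 2), (nat_lit 0), (nat_lit 0)⟩)
(.lf ⟨(nat_lit 196), (nat_lit 2), (nat_lit 0x7103), (nat_lit 3)⟩)))
(.nd (.nd (.lf ⟨(nat_lit 585), (nat_lit 2), (nat_lit 0), (nat_lit 0)⟩)
(.lf ⟨(nat_lit 131), (nat_lit 2), (nat_lit 0x90c2), (nat_lit 3)⟩))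
(.lf ⟨(nat_lit 73), (nat_lit 2), (nat_lit 577), (nat_lit 2)⟩)))
(.nd (.nd (.nd (.lf ⟨(nat_lit 455), (nat_lit 2), (nat_lit 0), (nat_lit 0)⟩)
(.lf ⟨(nat_lit 10), (nat_lit 1), (nat_lit 0), (nat_lit 0)⟩))
(.lf ⟨(nat_lit 69), (nat_lit 2), (nat_lit 321), (nat_lit 2)⟩))
(.nd (.nd (.lf ⟨(nat_lit 715), (nat_lit 2), (nat_lit 0), (nat_lit 0)⟩)
(.lf ⟨(nat_lit 9), (nat_lit 1), (nat_lit 0x491c1247), (nat_lit 6)⟩))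
(.lf ⟨(nat_lit 521), (nat_lit 2), (nat_lit 584), (nat_lit 2)⟩))))))

/-- Context. -/
noncomputable def x30 : ℕ → ℕ × ℕ :=
  mkc d0 247 s0 x0 (nth [] (Cl.alts (nsCl 3 [[0, 1, 2, 6], [4, 1, 3, 4], [0], [0, 1], [0, 1, 2]])) 7)

end Pool.Agent.Lib.MP_3b0e0c_al.D.TT
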